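import Pool.Agent.Helper856.Pair.Defs
import Pool.Agent.Helper856.Lcw.GBase

open Classical SimpleGraph

namespace Pool.Agent.Helper856.Cw

open Pool.Agent.Helper856.Lcw (gr K13_3P1 K13_P2 P1_S113 S122)

namespace ClE

variable {V : Type} {G : SimpleGraph V} {S T : Finset V} {k l : ℕ}

section certs

def allB : ℕ → (ℕ → Bool) → Bool
  | 0, _ => true
  | n + 1, f => f n && allB n f

theorem allB_iff (n : ℕ) (f : ℕ → Bool) : allB n f = true ↔ ∀ i < n, f i = true := by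
  induction n with
  | zero => simp [allB]
  | succ n ih =>
    simp only [allB, Bool.and_eq_true, ih]
    constructor
    · rintro ⟨h1, h2⟩ i hi
      rcases Nat.lt_succ_iff_lt_or_eq.mp hi with h | h
      · exact h2 i h
      · rw [h]; exact h1
    · intro h
      exact ⟨h n (Nat.lt_succ_self n), fun i hi => h i (Nat.lt_succ_of_lt hi)⟩

def adjE (E : List (ℕ × ℕ)) (i j : ℕ) : Bool :=
  E.any fun p => (Nat.beq p.1 i && Nat.beq p.2 j) || (Nat.beq p.1 j && Nat.beq p.2 i)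

theorem gr_adj {n : ℕ} (E : List (ℕ × ℕ)) (u v : Fin n) :
    (gr n E).Adj u v ↔ u ≠ v ∧ adjE E u v = true := by
  unfold gr adjE
  rw [SimpleGraph.fromRel_adj, List.any_eq_true]
  refine and_congr_right fun _ => ?_
  constructor
  · rintro (h | h)
    · exact ⟨_, h, by simp⟩
    · exact ⟨_, h, by simp⟩
  · rintro ⟨⟨a, b⟩, h, h2⟩
    simp only [Bool.or_eq_true, Bool.and_eq_true, Nat.beq_eq] at h2
    rcases h2 with ⟨h3, h4⟩ | ⟨h3, h4⟩
    · left; rw [← h3, ← h4]; exact h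
    · right; rw [← h3, ← h4]; exact h

def dig (a i : ℕ) : ℕ := a / 10 ^ i % 10

def badOk (E : List (ℕ × ℕ)) (m : ℕ) (P : ℕ × List (ℕ × ℕ)) (a : ℕ) : Bool :=
  allB P.1 fun i => m.testBit (dig a i) &&
    allB i fun j => !Nat.beq (dig a i) (dig a j) &&
      (adjE E (dig a j) (dig a i) == adjE P.2 j i)

def goodOk (k : ℕ) (E : List (ℕ × ℕ)) (m : ℕ) (G : ℕ × List (ℕ × ℕ)) (a : ℕ) : Bool :=
  allB k fun i => !m.testBit i || (Nat.blt (dig a i) G.1 &&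
    allB i fun j => !m.testBit j || (!Nat.beq (dig a i) (dig a j) &&
      (adjE E j i == adjE G.2 (dig a j) (dig a i))))

def botOk (k : ℕ) (E : List (ℕ × ℕ)) (m : ℕ) : Bool :=
  allB k fun i => !m.testBit i || allB i fun j => !m.testBit j || !adjE E j i

def cardOk (k : ℕ) (m q a : ℕ) : Bool :=
  allB k fun i => !m.testBit i || (Nat.blt (dig a i) q &&
    allB i fun j => !m.testBit j || !Nat.beq (dig a i) (dig a j))

def chk (k : ℕ) (E : List (ℕ × ℕ)) (bads goods : List (ℕ × List (ℕ × ℕ))) (bot : Bool)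
    (cards : List ℕ) (m : ℕ) (c : ℕ × ℕ × ℕ) : Bool :=
  match c.1 with
  | 0 => match bads[c.2.1]? with
    | some P => badOk E m P c.2.2
    | none => false
  | 1 => match goods[c.2.1]? with
    | some G => goodOk k E m G c.2.2
    | none => false
  | 2 => bot && botOk k E m
  | _ => match cards[c.2.1]? with
    | some q => cardOk k m q c.2.2
    | none => false

def chkL (k : ℕ) (E : List (ℕ × ℕ)) (bads goods : List (ℕ × List (ℕ × ℕ))) (bot : Bool)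
    (cards : List ℕ) : ℕ → List (ℕ × ℕ × ℕ) → Bool
  | _, [] => true
  | m, c :: cs => chk k E bads goods bot cards m c && chkL k E bads goods bot cards (m + 1) cs

theorem chkL_sound (k : ℕ) (E : List (ℕ × ℕ)) (bads goods : List (ℕ × List (ℕ × ℕ))) (bot : Bool)
    (cards : List ℕ) (cs : List (ℕ × ℕ × ℕ)) : ∀ (m : ℕ),
    chkL k E bads goods bot cards m cs = true → ∀ i < cs.length,
      ∃ c, chk k E bads goods bot cards (m + i) c = true := by
  induction cs with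
  | nil => intro m _ i hi; simp at hi
  | cons c cs ih =>
    intro m h i hi
    rw [chkL, Bool.and_eq_true] at h
    rcases i with _ | i
    · exact ⟨c, h.1⟩
    · have := ih (m + 1) h.2 i (by simpa using hi)
      rw [show m + 1 + i = m + (i + 1) by ring] at this
      exact this

variable {N : ℕ} {H : SimpleGraph (Fin N)} {E : List (ℕ × ℕ)} {m k : ℕ} {χ : Fin N → ℕ}

theorem bad_sound (hmem : ∀ i, m.testBit i = true → ∃ u, χ u = i)
    (hadj : ∀ u v, u ≠ v → (H.Adj u v ↔ adjE E (χ u) (χ v) = true))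
    (P : ℕ × List (ℕ × ℕ)) (a : ℕ) (h : badOk E m P a = true) :
    (gr P.1 P.2).IsIndContained H := by
  unfold badOk at h
  rw [allB_iff] at h
  have hf : ∀ i : Fin P.1, ∃ u, χ u = dig a i := by
    intro i
    have h2 := h i i.2
    rw [Bool.and_eq_true] at h2
    exact hmem _ h2.1
  choose f hf using hf
  have key : ∀ i j : Fin P.1, j < i → f i ≠ f j ∧ (H.Adj (f j) (f i) ↔ (gr P.1 P.2).Adj j i) := by
    intro i j hji
    have h2 := h i i.2
    rw [Bool.and_eq_true, allB_iff] at h2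
    have h3 := h2.2 j hji
    rw [Bool.and_eq_true] at h3
    have h4 : dig a i ≠ dig a j := by
      have := h3.1
      rw [Bool.not_eq_true'] at this
      intro h5
      rw [h5] at this
      simp at this
    have h5 := eq_of_beq h3.2
    have h6 : f i ≠ f j := by
      intro h6
      apply h4
      rw [← hf i, ← hf j, h6]
    refine ⟨h6, ?_⟩
    rw [hadj _ _ h6.symm, hf, hf, gr_adj, h5]
    constructor
    · intro h8
      exact ⟨ne_of_lt hji, h8⟩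
    · exact fun h8 => h8.2
  refine ⟨⟨⟨f, ?_⟩, ?_⟩⟩
  · intro i j hij
    by_contra hne
    rcases lt_or_gt_of_ne hne with h2 | h2
    · exact (key j i h2).1 hij.symm
    · exact (key i j h2).1 hij
  · intro i j
    show H.Adj (f i) (f j) ↔ _
    rcases lt_trichotomy i j with h2 | h2 | h2
    · exact (key j i h2).2
    · subst h2; simp
    · rw [SimpleGraph.adj_comm, SimpleGraph.adj_comm _ i j]
      exact (key i j h2).2

theorem good_sound (hinj : Function.Injective χ) (hlt : ∀ u, χ u < k)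
    (hmu : ∀ u, m.testBit (χ u) = true)
    (hadj : ∀ u v, u ≠ v → (H.Adj u v ↔ adjE E (χ u) (χ v) = true))
    (G : ℕ × List (ℕ × ℕ)) (a : ℕ) (h : goodOk k E m G a = true) :
    H.IsIndContained (gr G.1 G.2) := by
  unfold goodOk at h
  rw [allB_iff] at h
  have h1 : ∀ u, dig a (χ u) < G.1 := by
    intro u
    have h2 := h (χ u) (hlt u)
    rw [hmu u, Bool.not_true, Bool.false_or, Bool.and_eq_true, Nat.blt_eq] at h2
    exact h2.1
  have key : ∀ u v, χ v < χ u → dig a (χ u) ≠ dig a (χ v) ∧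
      adjE E (χ v) (χ u) = adjE G.2 (dig a (χ v)) (dig a (χ u)) := by
    intro u v huv
    have h2 := h (χ u) (hlt u)
    rw [hmu u, Bool.not_true, Bool.false_or, Bool.and_eq_true, allB_iff] at h2
    have h3 := h2.2 (χ v) huv
    rw [hmu v, Bool.not_true, Bool.false_or, Bool.and_eq_true] at h3
    refine ⟨?_, eq_of_beq h3.2⟩
    have := h3.1
    rw [Bool.not_eq_true'] at this
    intro h5
    rw [h5] at this
    simp at this
  have key2 : ∀ u v, χ v < χ u → (H.Adj v u ↔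
      (gr G.1 G.2).Adj ⟨dig a (χ v), h1 v⟩ ⟨dig a (χ u), h1 u⟩) := by
    intro u v huv
    have hne : v ≠ u := by rintro rfl; exact lt_irrefl _ huv
    rw [hadj _ _ hne, gr_adj, (key u v huv).2]
    constructor
    · intro h8
      refine ⟨?_, h8⟩
      intro h9
      exact (key u v huv).1 (by simpa using (congrArg Fin.val h9).symm)
    · exact fun h8 => h8.2
  refine ⟨⟨⟨fun u => ⟨dig a (χ u), h1 u⟩, ?_⟩, ?_⟩⟩
  · intro u v huv
    have huv' : dig a (χ u) = dig a (χ v) := by simpa using congrArg Fin.val huv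
    rcases lt_trichotomy (χ u) (χ v) with h2 | h2 | h2
    · exact absurd huv'.symm (key v u h2).1
    · exact hinj h2
    · exact absurd huv' (key u v h2).1
  · intro u v
    show (gr G.1 G.2).Adj ⟨dig a (χ u), h1 u⟩ ⟨dig a (χ v), h1 v⟩ ↔ H.Adj u v
    rcases lt_trichotomy (χ u) (χ v) with h2 | h2 | h2
    · exact (key2 v u h2).symm
    · have := hinj h2
      subst this
      simp
    · rw [SimpleGraph.adj_comm, SimpleGraph.adj_comm H]
      exact (key2 u v h2).symm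

theorem card_sound (hinj : Function.Injective χ) (hlt : ∀ u, χ u < k)
    (hmu : ∀ u, m.testBit (χ u) = true) (q a : ℕ) (h : cardOk k m q a = true) : N ≤ q := by
  unfold cardOk at h
  rw [allB_iff] at h
  have h1 : ∀ u, dig a (χ u) < q := by
    intro u
    have h2 := h (χ u) (hlt u)
    rw [hmu u, Bool.not_true, Bool.false_or, Bool.and_eq_true, Nat.blt_eq] at h2
    exact h2.1
  have key : ∀ u v, χ v < χ u → dig a (χ u) ≠ dig a (χ v) := by
    intro u v huv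
    have h2 := h (χ u) (hlt u)
    rw [hmu u, Bool.not_true, Bool.false_or, Bool.and_eq_true, allB_iff] at h2
    have h3 := h2.2 (χ v) huv
    rw [hmu v, Bool.not_true, Bool.false_or, Bool.not_eq_true'] at h3
    intro h5
    rw [h5] at h3
    simp at h3
  have hi : Function.Injective (fun u : Fin N => (⟨dig a (χ u), h1 u⟩ : Fin q)) := by
    intro u v huv
    have huv' : dig a (χ u) = dig a (χ v) := by simpa using congrArg Fin.val huv
    rcases lt_trichotomy (χ u) (χ v) with h2 | h2 | h2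
    · exact absurd huv'.symm (key v u h2)
    · exact hinj h2
    · exact absurd huv' (key u v h2)
  simpa using Fintype.card_le_of_injective _ hi

theorem bot_sound (hinj : Function.Injective χ) (hlt : ∀ u, χ u < k)
    (hmu : ∀ u, m.testBit (χ u) = true)
    (hadj : ∀ u v, u ≠ v → (H.Adj u v ↔ adjE E (χ u) (χ v) = true))
    (h : botOk k E m = true) : H = ⊥ := by
  unfold botOk at h
  rw [allB_iff] at h
  have key : ∀ u v, χ v < χ u → ¬ H.Adj v u := by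
    intro u v huv
    have h2 := h (χ u) (hlt u)
    rw [hmu u, Bool.not_true, Bool.false_or, allB_iff] at h2
    have h3 := h2 (χ v) huv
    rw [hmu v, Bool.not_true, Bool.false_or, Bool.not_eq_true'] at h3
    have hne : v ≠ u := by rintro rfl; exact lt_irrefl _ huv
    rw [hadj _ _ hne, h3]
    simp
  ext u v
  simp only [SimpleGraph.bot_adj, iff_false]
  intro huv
  rcases lt_trichotomy (χ u) (χ v) with h2 | h2 | h2
  · exact key v u h2 huv
  · have := hinj h2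
    subst this
    exact H.irrefl huv
  · exact key u v h2 huv.symm

theorem cert_main {n : ℕ} {B : SimpleGraph (Fin n)} (k : ℕ) (E : List (ℕ × ℕ))
    (hB : B.IsIndContained (gr k E))
    (bads goods : List (ℕ × List (ℕ × ℕ))) (bot : Bool)
    (cards : List ℕ) (cs : List (ℕ × ℕ × ℕ)) (hlen : cs.length = 2 ^ k)
    (hchk : chkL k E bads goods bot cards 0 cs = true) :
    (∃ P ∈ bads, (gr P.1 P.2).IsIndContained B) ∨ (∃ G ∈ goods, B.IsIndContained (gr G.1 G.2)) ∨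
      (bot = true ∧ B = ⊥) ∨ (∃ q ∈ cards, n ≤ q) := by
  obtain ⟨f⟩ := hB
  have hlt : ∀ u, (f u).val < k := fun u => (f u).2
  have hinj : Function.Injective (fun u => (f u).val) := by
    intro u v huv
    exact f.injective (Fin.ext huv)
  set g : Fin k → Bool := fun i => decide (∃ u, f u = i) with hg
  have hmlt : Nat.ofBits g < 2 ^ k := Nat.ofBits_lt_two_pow g
  have hmu : ∀ u, (Nat.ofBits g).testBit ((fun u => (f u).val) u) = true := by
    intro u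
    show (Nat.ofBits g).testBit (f u).val = true
    rw [Nat.testBit_ofBits_lt _ _ (f u).2]
    simp [hg]
  have hmem : ∀ i, (Nat.ofBits g).testBit i = true → ∃ u, (fun u => (f u).val) u = i := by
    intro i hi
    by_cases hik : i < k
    · rw [Nat.testBit_ofBits_lt _ _ hik] at hi
      simp only [hg, decide_eq_true_eq] at hi
      obtain ⟨u, hu⟩ := hi
      exact ⟨u, by show (f u).val = i; rw [hu]⟩
    · rw [Nat.testBit_ofBits_ge _ _ (by omega)] at hi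
      exact absurd hi (by simp)
  have hadj : ∀ u v, u ≠ v → (B.Adj u v ↔
      adjE E ((fun u => (f u).val) u) ((fun u => (f u).val) v) = true) := by
    intro u v huv
    rw [← f.map_adj_iff, gr_adj]
    constructor
    · exact fun h => h.2
    · exact fun h => ⟨fun h2 => huv (f.injective h2), h⟩
  obtain ⟨c, hc⟩ := chkL_sound k E bads goods bot cards cs 0 hchk (Nat.ofBits g) (by rw [hlen]; exact hmlt)
  rw [zero_add] at hc
  unfold chk at hc
  split at hc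
  · split at hc
    · rename_i P hP
      exact Or.inl ⟨P, List.mem_of_getElem? hP, bad_sound hmem hadj P _ hc⟩
    · exact absurd hc (by simp)
  · split at hc
    · rename_i G hG
      exact Or.inr (Or.inl ⟨G, List.mem_of_getElem? hG, good_sound hinj hlt hmu hadj G _ hc⟩)
    · exact absurd hc (by simp)
  · rw [Bool.and_eq_true] at hc
    exact Or.inr (Or.inr (Or.inl ⟨hc.1, bot_sound hinj hlt hmu hadj hc.2⟩))
  · split at hc
    · rename_i q hq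
      exact Or.inr (Or.inr (Or.inr ⟨q, List.mem_of_getElem? hq, card_sound hinj hlt hmu q _ hc⟩))
    · exact absurd hc (by simp)

end certs

theorem e1_K13_3P1 {n : ℕ} {B : SimpleGraph (Fin n)} (hB : B.IsIndContained K13_3P1) :
    (∃ P ∈ ([(4, [(0,1),(0,2),(0,3)]), (4, [(0,1),(2,3)]), (5, [(0,1),(1,2),(2,3)]), (5, [(0,1)])] : List (ℕ × List (ℕ × ℕ))), (gr P.1 P.2).IsIndContained B) ∨
    (∃ G ∈ ([(4, [(0,1),(1,2),(2,3)]), (5, [(0,1),(1,2)])] : List (ℕ × List (ℕ × ℕ))), B.IsIndContained (gr G.1 G.2)) ∨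
    (true = true ∧ B = ⊥) ∨ (∃ q ∈ ([] : List ℕ), n ≤ q) :=
  cert_main 7 [(0,1),(0,2),(0,3)] hB _ _ _ _
    [(1,0,0),(1,0,0),(1,0,0),(1,0,10),(1,0,0),(1,0,100),(1,0,200),(1,0,201),(1,0,0),(1,0,1000),(1,0,2000),(1,0,2001),(1,0,2000),(1,0,2001),(1,1,3200),(0,0,3210),(1,0,0),(1,0,20000),(1,0,20000),(1,0,30010),(1,0,20000),(1,0,30100),(1,1,30200),(1,1,30201),(1,0,20000),(1,0,31000),(1,1,32000),(1,1,32001),(1,1,32000),(1,1,32001),(1,1,43200),(0,0,3210),(1,0,0),(1,0,200000),(1,0,200000),(1,0,300010),(1,0,200000),(1,0,300100),(1,1,300200),(1,1,300201),(1,0,200000),(1,0,301000),(1,1,302000),(1,1,302001),(1,1,302000),(1,1,302001),(1,1,403200),(0,0,3210),(1,0,200000),(1,1,320000),(1,1,320000),(1,1,430010),(1,1,320000),(1,1,430100),(1,1,430200),(1,1,430201),(1,1,320000),(1,1,431000),(1,1,432000),(1,1,432001),(1,1,432000),(1,1,432001),(2,0,0),(0,0,3210),(1,0,0),(1,0,2000000),(1,0,2000000),(1,0,30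00010),(1,0,2000000),(1,0,3000100),(1,1,3000200),(1,1,3000201),(1,0,2000000),(1,0,3001000),(1,1,3002000),(1,1,3002001),(1,1,3002000),(1,1,3002001),(1,1,4003200),(0,0,3210),(1,0,2000000),(1,1,3020000),(1,1,3020000),(1,1,4030010),(1,1,3020000),(1,1,4030100),(1,1,4030200),(1,1,4030201),(1,1,3020000),(1,1,4031000),(1,1,4032000),(1,1,4032001),(1,1,4032000),(1,1,4032001),(2,0,0),(0,0,3210),(1,0,2000000),(1,1,3200000),(1,1,3200000),(1,1,4300010),(1,1,3200000),(1,1,4300100),(1,1,4300200),(1,1,4300201),(1,1,3200000),(1,1,4301000),(1,1,4302000),(1,1,4302001),(1,1,4302000),(1,1,4302001),(2,0,0),(0,0,3210),(1,1,3200000),(1,1,4320000),(1,1,4320000),(0,3,65410),(1,1,4320000),(0,3,65420),(2,0,0),(0,3,65410),(1,1,4320000),(0,3,65430),(2,0,0),(0,3,65410),(2,0,0),(0,3,65420),(2,0,0),(0,0,3210)]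
    (by decide +kernel) (by decide +kernel)

theorem e1_K13_P2 {n : ℕ} {B : SimpleGraph (Fin n)} (hB : B.IsIndContained K13_P2) :
    (∃ P ∈ ([(4, [(0,1),(0,2),(0,3)]), (4, [(0,1),(2,3)]), (5, [(0,1),(1,2),(2,3)]), (5, [(0,1)])] : List (ℕ × List (ℕ × ℕ))), (gr P.1 P.2).IsIndContained B) ∨
    (∃ G ∈ ([(4, [(0,1),(1,2),(2,3)]), (5, [(0,1),(1,2)])] : List (ℕ × List (ℕ × ℕ))), B.IsIndContained (gr G.1 G.2)) ∨
    (true = true ∧ B = ⊥) ∨ (∃ q ∈ ([] : List ℕ), n ≤ q) :=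
  cert_main 6 [(0,1),(0,2),(0,3),(4,5)] hB _ _ _ _
    [(1,0,0),(1,0,0),(1,0,0),(1,0,10),(1,0,0),(1,0,100),(1,0,200),(1,0,201),(1,0,0),(1,0,1000),(1,0,2000),(1,0,2001),(1,0,2000),(1,0,2001),(1,1,3200),(0,0,3210),(1,0,0),(1,0,20000),(1,0,20000),(1,0,30010),(1,0,20000),(1,0,30100),(1,1,30200),(1,1,30201),(1,0,20000),(1,0,31000),(1,1,32000),(1,1,32001),(1,1,32000),(1,1,32001),(1,1,43200),(0,0,3210),(1,0,0),(1,0,200000),(1,0,200000),(1,0,300010),(1,0,200000),(1,0,300100),(1,1,300200),(1,1,300201),(1,0,200000),(1,0,301000),(1,1,302000),(1,1,302001),(1,1,302000),(1,1,302001),(1,1,403200),(0,0,3210),(1,0,100000),(1,0,320000),(1,0,320000),(0,1,5410),(1,0,320000),(0,1,5420),(1,1,100430),(0,1,5410),(1,0,320000),(0,1,5430),(1,1,104030),(0,1,5410),(1,1,104300),(0,1,5420),(0,3,32154),(0,0,3210)]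
    (by decide +kernel) (by decide +kernel)

theorem e1_P1_S113 {n : ℕ} {B : SimpleGraph (Fin n)} (hB : B.IsIndContained P1_S113) :
    (∃ P ∈ ([(4, [(0,1),(0,2),(0,3)]), (4, [(0,1),(2,3)]), (5, [(0,1),(1,2),(2,3)]), (5, [(0,1)])] : List (ℕ × List (ℕ × ℕ))), (gr P.1 P.2).IsIndContained B) ∨
    (∃ G ∈ ([(4, [(0,1),(1,2),(2,3)]), (5, [(0,1),(1,2)])] : List (ℕ × List (ℕ × ℕ))), B.IsIndContained (gr G.1 G.2)) ∨
    (true = true ∧ B = ⊥) ∨ (∃ q ∈ ([] : List ℕ), n ≤ q) :=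
  cert_main 7 [(0,1),(0,2),(0,3),(3,4),(4,5)] hB _ _ _ _
    [(1,0,0),(1,0,0),(1,0,0),(1,0,10),(1,0,0),(1,0,100),(1,0,200),(1,0,201),(1,0,0),(1,0,1000),(1,0,2000),(1,0,2001),(1,0,2000),(1,0,2001),(1,1,3200),(0,0,3210),(1,0,0),(1,0,20000),(1,0,20000),(1,0,30010),(1,0,20000),(1,0,30100),(1,1,30200),(1,1,30201),(1,0,10000),(1,0,21000),(1,0,32000),(1,0,32001),(1,0,32000),(1,0,32001),(1,1,10430),(0,0,3210),(1,0,0),(1,0,200000),(1,0,200000),(1,0,300010),(1,0,200000),(1,0,300100),(1,1,300200),(1,1,300201),(1,0,200000),(1,0,301000),(1,1,302000),(1,1,302001),(1,1,302000),(1,1,302001),(1,1,403200),(0,0,3210),(1,0,100000),(1,0,320000),(1,0,320000),(0,1,5410),(1,0,320000),(0,1,5420),(1,1,100430),(0,1,5410),(1,0,210000),(1,0,321000),(1,1,210030),(0,1,5410),(1,1,210300),(0,1,5420),(1,1,210430),(0,0,3210),(1,0,0),(1,0,2000000),(1,0,2000000),(1,0,3000010),(1,0,2000000),(1,0,3000100),(1,1,3000200),(1,1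,3000201),(1,0,2000000),(1,0,3001000),(1,1,3002000),(1,1,3002001),(1,1,3002000),(1,1,3002001),(1,1,4003200),(0,0,3210),(1,0,2000000),(1,1,3020000),(1,1,3020000),(1,1,4030010),(1,1,3020000),(1,1,4030100),(1,1,4030200),(1,1,4030201),(1,0,3010000),(1,1,3021000),(1,1,4010030),(0,2,64301),(1,1,4010300),(0,2,64302),(0,3,62143),(0,0,3210),(1,0,2000000),(1,1,3200000),(1,1,3200000),(1,1,4300010),(1,1,3200000),(1,1,4300100),(1,1,4300200),(1,1,4300201),(1,1,3200000),(1,1,4301000),(1,1,4302000),(1,1,4302001),(1,1,4302000),(1,1,4302001),(2,0,0),(0,0,3210),(1,0,3100000),(1,1,4100003),(1,1,4100030),(0,1,5410),(1,1,4100300),(0,1,5420),(0,3,62154),(0,1,5410),(1,1,3210000),(0,2,65430),(1,1,4210030),(0,1,5410),(1,1,4210300),(0,1,5420),(0,3,62143),(0,0,3210)]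
    (by decide +kernel) (by decide +kernel)

theorem e1_S122 {n : ℕ} {B : SimpleGraph (Fin n)} (hB : B.IsIndContained S122) :
    (∃ P ∈ ([(4, [(0,1),(0,2),(0,3)]), (4, [(0,1),(2,3)]), (5, [(0,1),(1,2),(2,3)]), (5, [(0,1)])] : List (ℕ × List (ℕ × ℕ))), (gr P.1 P.2).IsIndContained B) ∨
    (∃ G ∈ ([(4, [(0,1),(1,2),(2,3)]), (5, [(0,1),(1,2)])] : List (ℕ × List (ℕ × ℕ))), B.IsIndContained (gr G.1 G.2)) ∨
    (true = true ∧ B = ⊥) ∨ (∃ q ∈ ([] : List ℕ), n ≤ q) :=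
  cert_main 6 [(0,1),(0,2),(2,3),(0,4),(4,5)] hB _ _ _ _
    [(1,0,0),(1,0,0),(1,0,0),(1,0,10),(1,0,0),(1,0,100),(1,0,200),(1,0,201),(1,0,0),(1,0,2000),(1,0,2000),(1,0,3010),(1,0,1000),(1,0,2100),(1,0,3200),(1,0,3201),(1,0,0),(1,0,10000),(1,0,20000),(1,0,20001),(1,0,20000),(1,0,20001),(1,1,30200),(0,0,4210),(1,0,20000),(1,0,13000),(1,1,32000),(1,1,23001),(1,0,31000),(1,0,3201),(1,1,41030),(0,0,4210),(1,0,0),(1,0,200000),(1,0,200000),(1,0,300010),(1,0,200000),(1,0,300100),(1,1,300200),(1,1,300201),(1,0,200000),(1,1,302000),(1,1,302000),(1,1,403010),(1,0,301000),(1,1,302100),(1,1,401030),(0,2,53201),(1,0,100000),(1,0,210000),(1,0,320000),(1,0,320001),(1,0,320000),(1,0,320001),(1,1,100430),(0,0,4210),(1,0,320000),(1,1,213000),(1,1,104030),(0,2,35401),(0,1,5432),(0,1,5432),(0,1,5432),(0,0,4210)]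
    (by decide +kernel) (by decide +kernel)

theorem e2_K13_3P1 {n : ℕ} {B : SimpleGraph (Fin n)} (hB : B.IsIndContained K13_3P1) :
    (∃ P ∈ ([(4, [(0,1),(0,2),(0,3)]), (5, [])] : List (ℕ × List (ℕ × ℕ))), (gr P.1 P.2).IsIndContained B) ∨
    (∃ G ∈ ([(5, [(0,1)]), (6, [(0,1),(1,2),(2,3),(3,4)]), (6, [(0,1),(2,3),(3,4)])] : List (ℕ × List (ℕ × ℕ))), B.IsIndContained (gr G.1 G.2)) ∨
    (false = true ∧ B = ⊥) ∨ (∃ q ∈ ([] : List ℕ), n ≤ q) :=
  cert_main 7 [(0,1),(0,2),(0,3)] hB _ _ _ _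
    [(1,0,0),(1,0,0),(1,0,0),(1,0,10),(1,0,0),(1,0,100),(1,0,200),(1,1,201),(1,0,0),(1,0,1000),(1,0,2000),(1,1,2001),(1,0,2000),(1,1,2001),(1,0,3200),(0,0,3210),(1,0,0),(1,0,20000),(1,0,20000),(1,0,20010),(1,0,20000),(1,0,20100),(1,0,30200),(1,1,40201),(1,0,20000),(1,0,21000),(1,0,32000),(1,1,42001),(1,0,32000),(1,1,42001),(1,0,43200),(0,0,3210),(1,0,0),(1,0,200000),(1,0,200000),(1,0,200010),(1,0,200000),(1,0,200100),(1,0,300200),(1,1,400201),(1,0,200000),(1,0,201000),(1,0,302000),(1,1,402001),(1,0,302000),(1,1,402001),(1,0,403200),(0,0,3210),(1,0,200000),(1,0,320000),(1,0,320000),(1,0,320010),(1,0,320000),(1,0,320100),(1,0,430200),(1,1,540201),(1,0,320000),(1,0,321000),(1,0,432000),(1,1,542001),(1,0,432000),(1,1,542001),(0,1,54321),(0,0,3210),(1,0,0),(1,0,2000000),(1,0,2000000),(1,0,2000010),(1,0,2000000),(1,0,2000100),(1,0,3000200),(1,1,4000201),(1,0,2000000),(1,0,2001000),(1,0,30020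00),(1,1,4002001),(1,0,3002000),(1,1,4002001),(1,0,4003200),(0,0,3210),(1,0,2000000),(1,0,3020000),(1,0,3020000),(1,0,3020010),(1,0,3020000),(1,0,3020100),(1,0,4030200),(1,1,5040201),(1,0,3020000),(1,0,3021000),(1,0,4032000),(1,1,5042001),(1,0,4032000),(1,1,5042001),(0,1,64321),(0,0,3210),(1,0,2000000),(1,0,3200000),(1,0,3200000),(1,0,3200010),(1,0,3200000),(1,0,3200100),(1,0,4300200),(1,1,5400201),(1,0,3200000),(1,0,3201000),(1,0,4302000),(1,1,5402001),(1,0,4302000),(1,1,5402001),(0,1,65321),(0,0,3210),(1,0,3200000),(1,0,4320000),(1,0,4320000),(1,0,4320010),(1,0,4320000),(1,0,4320100),(0,1,65421),(0,1,65421),(1,0,4320000),(1,0,4321000),(0,1,65431),(0,1,65431),(0,1,65432),(0,1,65432),(0,1,54321),(0,0,3210)]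
    (by decide +kernel) (by decide +kernel)

theorem e2_K13_P2 {n : ℕ} {B : SimpleGraph (Fin n)} (hB : B.IsIndContained K13_P2) :
    (∃ P ∈ ([(4, [(0,1),(0,2),(0,3)]), (5, [])] : List (ℕ × List (ℕ × ℕ))), (gr P.1 P.2).IsIndContained B) ∨
    (∃ G ∈ ([(5, [(0,1)]), (6, [(0,1),(1,2),(2,3),(3,4)]), (6, [(0,1),(2,3),(3,4)])] : List (ℕ × List (ℕ × ℕ))), B.IsIndContained (gr G.1 G.2)) ∨
    (false = true ∧ B = ⊥) ∨ (∃ q ∈ ([] : List ℕ), n ≤ q) :=
  cert_main 6 [(0,1),(0,2),(0,3),(4,5)] hB _ _ _ _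
    [(1,0,0),(1,0,0),(1,0,0),(1,0,10),(1,0,0),(1,0,100),(1,0,200),(1,1,201),(1,0,0),(1,0,1000),(1,0,2000),(1,1,2001),(1,0,2000),(1,1,2001),(1,0,3200),(0,0,3210),(1,0,0),(1,0,20000),(1,0,20000),(1,0,20010),(1,0,20000),(1,0,20100),(1,0,30200),(1,1,40201),(1,0,20000),(1,0,21000),(1,0,32000),(1,1,42001),(1,0,32000),(1,1,42001),(1,0,43200),(0,0,3210),(1,0,0),(1,0,200000),(1,0,200000),(1,0,200010),(1,0,200000),(1,0,200100),(1,0,300200),(1,1,400201),(1,0,200000),(1,0,201000),(1,0,302000),(1,1,402001),(1,0,302000),(1,1,402001),(1,0,403200),(0,0,3210),(1,0,100000),(1,0,100002),(1,0,100020),(1,1,430010),(1,0,100200),(1,1,430100),(1,0,100320),(1,2,100423),(1,0,102000),(1,1,431000),(1,0,103020),(1,2,104023),(1,0,103200),(1,2,104203),(1,0,104320),(0,0,3210)]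
    (by decide +kernel) (by decide +kernel)

theorem e2_P1_S113 {n : ℕ} {B : SimpleGraph (Fin n)} (hB : B.IsIndContained P1_S113) :
    (∃ P ∈ ([(4, [(0,1),(0,2),(0,3)]), (5, [])] : List (ℕ × List (ℕ × ℕ))), (gr P.1 P.2).IsIndContained B) ∨
    (∃ G ∈ ([(5, [(0,1)]), (6, [(0,1),(1,2),(2,3),(3,4)]), (6, [(0,1),(2,3),(3,4)])] : List (ℕ × List (ℕ × ℕ))), B.IsIndContained (gr G.1 G.2)) ∨
    (false = true ∧ B = ⊥) ∨ (∃ q ∈ ([] : List ℕ), n ≤ q) :=
  cert_main 7 [(0,1),(0,2),(0,3),(3,4),(4,5)] hB _ _ _ _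
    [(1,0,0),(1,0,0),(1,0,0),(1,0,10),(1,0,0),(1,0,100),(1,0,200),(1,1,201),(1,0,0),(1,0,1000),(1,0,2000),(1,1,2001),(1,0,2000),(1,1,2001),(1,0,3200),(0,0,3210),(1,0,0),(1,0,20000),(1,0,20000),(1,0,20010),(1,0,20000),(1,0,20100),(1,0,30200),(1,1,40201),(1,0,10000),(1,1,21000),(1,0,10020),(1,1,32001),(1,0,10200),(1,1,32001),(1,0,10320),(0,0,3210),(1,0,0),(1,0,200000),(1,0,200000),(1,0,200010),(1,0,200000),(1,0,200100),(1,0,300200),(1,1,400201),(1,0,200000),(1,0,201000),(1,0,302000),(1,1,402001),(1,0,302000),(1,1,402001),(1,0,403200),(0,0,3210),(1,0,100000),(1,0,100002),(1,0,100020),(1,1,430010),(1,0,100200),(1,1,430100),(1,0,100320),(1,2,100423),(1,1,210000),(1,1,321000),(1,1,432000),(1,1,432001),(1,1,432000),(1,1,432001),(1,1,432500),(0,0,3210),(1,0,0),(1,0,2000000),(1,0,2000000),(1,0,2000010),(1,0,2000000),(1,0,2000100),(1,0,3000200),(1,1,4000201),(1,0,2000000),(1,0,2001000),(1,0,3002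000),(1,1,4002001),(1,0,3002000),(1,1,4002001),(1,0,4003200),(0,0,3210),(1,0,2000000),(1,0,3020000),(1,0,3020000),(1,0,3020010),(1,0,3020000),(1,0,3020100),(1,0,4030200),(1,1,5040201),(1,0,2010000),(1,1,4021000),(1,0,3010020),(1,1,5032001),(1,0,3010200),(1,1,5032001),(1,0,4010320),(0,0,3210),(1,0,2000000),(1,0,3200000),(1,0,3200000),(1,0,3200010),(1,0,3200000),(1,0,3200100),(1,0,4300200),(1,1,5400201),(1,0,3200000),(1,0,3201000),(1,0,4302000),(1,1,5402001),(1,0,4302000),(1,1,5402001),(0,1,65321),(0,0,3210),(1,0,2100000),(1,0,3100002),(1,0,3100020),(1,1,5430010),(1,0,3100200),(1,1,5430100),(1,0,4100320),(1,2,5100423),(1,1,4210000),(1,1,5321000),(1,1,5432000),(1,1,5432001),(1,1,5432000),(1,1,5432001),(0,1,65321),(0,0,3210)]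
    (by decide +kernel) (by decide +kernel)

theorem e2_S122 {n : ℕ} {B : SimpleGraph (Fin n)} (hB : B.IsIndContained S122) :
    (∃ P ∈ ([(4, [(0,1),(0,2),(0,3)]), (5, [])] : List (ℕ × List (ℕ × ℕ))), (gr P.1 P.2).IsIndContained B) ∨
    (∃ G ∈ ([(5, [(0,1)]), (6, [(0,1),(1,2),(2,3),(3,4)]), (6, [(0,1),(2,3),(3,4)])] : List (ℕ × List (ℕ × ℕ))), B.IsIndContained (gr G.1 G.2)) ∨
    (false = true ∧ B = ⊥) ∨ (∃ q ∈ ([] : List ℕ), n ≤ q) :=
  cert_main 6 [(0,1),(0,2),(2,3),(0,4),(4,5)] hB _ _ _ _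
    [(1,0,0),(1,0,0),(1,0,0),(1,0,10),(1,0,0),(1,0,100),(1,0,200),(1,1,201),(1,0,0),(1,0,2000),(1,0,2000),(1,0,2010),(1,0,1000),(1,1,2100),(1,0,1020),(1,1,3201),(1,0,0),(1,0,10000),(1,0,20000),(1,1,20001),(1,0,20000),(1,1,20001),(1,0,30200),(0,0,4210),(1,0,20000),(1,0,12000),(1,0,32000),(1,1,24001),(1,0,21000),(1,1,3201),(1,0,31020),(0,0,4210),(1,0,0),(1,0,200000),(1,0,200000),(1,0,200010),(1,0,200000),(1,0,200100),(1,0,300200),(1,1,400201),(1,0,200000),(1,0,302000),(1,0,302000),(1,0,302010),(1,0,201000),(1,1,402100),(1,0,301020),(1,1,503201),(1,0,100000),(1,1,210000),(1,0,100020),(1,1,320001),(1,0,100200),(1,1,320001),(1,0,100320),(0,0,4210),(1,0,102000),(1,1,214000),(1,0,103020),(1,1,325001),(1,1,431000),(1,1,430102),(1,1,431050),(0,0,4210)]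
    (by decide +kernel) (by decide +kernel)

theorem e3_g2P1P3 {n : ℕ} {B : SimpleGraph (Fin n)} (hB : B.IsIndContained g2P1P3) :
    (∃ P ∈ ([(4, [(0,1)])] : List (ℕ × List (ℕ × ℕ))), (gr P.1 P.2).IsIndContained B) ∨
    (∃ G ∈ ([(4, [(0,1),(1,2),(2,3)]), (4, [(0,1),(1,2)])] : List (ℕ × List (ℕ × ℕ))), B.IsIndContained (gr G.1 G.2)) ∨
    (true = true ∧ B = ⊥) ∨ (∃ q ∈ ([] : List ℕ), n ≤ q) :=
  cert_main 5 [(0,1),(1,2)] hB _ _ _ _
    [(1,0,0),(1,0,0),(1,0,0),(1,0,10),(1,0,0),(1,0,200),(1,0,100),(1,0,210),(1,0,0),(1,0,2000),(1,0,2000),(1,0,3010),(1,0,2000),(1,1,3200),(1,0,3100),(1,1,3210),(1,0,0),(1,0,20000),(1,0,20000),(1,0,30010),(1,0,20000),(1,1,30200),(1,0,30100),(1,1,30210),(1,0,20000),(1,1,32000),(1,1,32000),(0,0,4310),(1,1,32000),(2,0,0),(0,0,4321),(0,0,4310)]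
    (by decide +kernel) (by decide +kernel)

theorem e4_g2P1P3 {n : ℕ} {B : SimpleGraph (Fin n)} (hB : B.IsIndContained g2P1P3) :
    (∃ P ∈ ([(4, [])] : List (ℕ × List (ℕ × ℕ))), (gr P.1 P.2).IsIndContained B) ∨
    (∃ G ∈ ([(4, [(0,1),(1,2)]), (4, [(0,1)])] : List (ℕ × List (ℕ × ℕ))), B.IsIndContained (gr G.1 G.2)) ∨
    (false = true ∧ B = ⊥) ∨ (∃ q ∈ ([] : List ℕ), n ≤ q) :=
  cert_main 5 [(0,1),(1,2)] hB _ _ _ _
    [(1,0,0),(1,0,0),(1,0,0),(1,0,10),(1,0,0),(1,0,200),(1,0,100),(1,0,210),(1,0,0),(1,0,2000),(1,0,2000),(1,0,3010),(1,0,2000),(1,0,3200),(1,0,3100),(1,0,3210),(1,0,0),(1,0,20000),(1,0,20000),(1,0,30010),(1,0,20000),(1,0,30200),(1,0,30100),(1,0,30210),(1,0,20000),(1,0,32000),(1,0,32000),(1,1,32010),(1,0,32000),(0,0,4320),(1,1,32100),(0,0,4320)]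
    (by decide +kernel) (by decide +kernel)

theorem e5_K13_3P1 {n : ℕ} {B : SimpleGraph (Fin n)} (hB : B.IsIndContained K13_3P1) :
    (∃ P ∈ ([(4, []), (4, [(0,1)]), (4, [(0,1),(2,3)])] : List (ℕ × List (ℕ × ℕ))), (gr P.1 P.2).IsIndContained B) ∨
    (∃ G ∈ ([(4, [(0,1),(0,2),(0,3)]), (4, [(0,1),(1,2),(2,3)]), (4, [(0,1),(1,2)])] : List (ℕ × List (ℕ × ℕ))), B.IsIndContained (gr G.1 G.2)) ∨
    (false = true ∧ B = ⊥) ∨ (∃ q ∈ ([] : List ℕ), n ≤ q) :=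
  cert_main 7 [(0,1),(0,2),(0,3)] hB _ _ _ _
    [(1,0,0),(1,0,0),(1,0,0),(1,0,10),(1,0,0),(1,0,100),(1,0,210),(1,0,210),(1,0,0),(1,0,1000),(1,0,2010),(1,0,2010),(1,0,2100),(1,0,2100),(1,0,3210),(1,0,3210),(1,0,0),(1,0,20001),(1,0,20010),(1,1,30010),(1,0,20100),(1,1,30100),(1,0,30210),(1,2,30201),(1,0,21000),(1,1,31000),(1,0,32010),(1,2,32001),(1,0,32100),(1,2,32001),(0,0,4321),(0,0,4321),(1,0,0),(1,0,200001),(1,0,200010),(1,1,300010),(1,0,200100),(1,1,300100),(1,0,300210),(1,2,300201),(1,0,201000),(1,1,301000),(1,0,302010),(1,2,302001),(1,0,302100),(1,2,302001),(0,0,5321),(0,0,5321),(1,0,210000),(1,0,320001),(1,0,320010),(0,1,5410),(1,0,320100),(0,1,5420),(0,0,5421),(0,0,5421),(1,0,321000),(0,1,5430),(0,0,5431),(0,0,5431),(0,0,5432),(0,0,5432),(0,0,4321),(0,0,4321),(1,0,0),(1,0,2000001),(1,0,2000010),(1,1,3000010),(1,0,2000100),(1,1,3000100),(1,0,3000210),(1,2,3000201),(1,0,2001000),(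1,1,3001000),(1,0,3002010),(1,2,3002001),(1,0,3002100),(1,2,3002001),(0,0,6321),(0,0,6321),(1,0,2010000),(1,0,3020001),(1,0,3020010),(0,1,6410),(1,0,3020100),(0,1,6420),(0,0,6421),(0,0,6421),(1,0,3021000),(0,1,6430),(0,0,6431),(0,0,6431),(0,0,6432),(0,0,6432),(0,0,4321),(0,0,4321),(1,0,2100000),(1,0,3200001),(1,0,3200010),(0,1,6510),(1,0,3200100),(0,1,6520),(0,0,6521),(0,0,6521),(1,0,3201000),(0,1,6530),(0,0,6531),(0,0,6531),(0,0,6532),(0,0,6532),(0,0,5321),(0,0,5321),(1,0,3210000),(0,0,6540),(0,0,6541),(0,0,6540),(0,0,6542),(0,0,6540),(0,0,5421),(0,0,6540),(0,0,6543),(0,0,6540),(0,0,5431),(0,0,6540),(0,0,5432),(0,0,6540),(0,0,4321),(0,0,6540)]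
    (by decide +kernel) (by decide +kernel)

theorem e5_K13_P2 {n : ℕ} {B : SimpleGraph (Fin n)} (hB : B.IsIndContained K13_P2) :
    (∃ P ∈ ([(4, []), (4, [(0,1)]), (4, [(0,1),(2,3)])] : List (ℕ × List (ℕ × ℕ))), (gr P.1 P.2).IsIndContained B) ∨
    (∃ G ∈ ([(4, [(0,1),(0,2),(0,3)]), (4, [(0,1),(1,2),(2,3)]), (4, [(0,1),(1,2)])] : List (ℕ × List (ℕ × ℕ))), B.IsIndContained (gr G.1 G.2)) ∨
    (false = true ∧ B = ⊥) ∨ (∃ q ∈ ([] : List ℕ), n ≤ q) :=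
  cert_main 6 [(0,1),(0,2),(0,3),(4,5)] hB _ _ _ _
    [(1,0,0),(1,0,0),(1,0,0),(1,0,10),(1,0,0),(1,0,100),(1,0,210),(1,0,210),(1,0,0),(1,0,1000),(1,0,2010),(1,0,2010),(1,0,2100),(1,0,2100),(1,0,3210),(1,0,3210),(1,0,0),(1,0,20001),(1,0,20010),(1,1,30010),(1,0,20100),(1,1,30100),(1,0,30210),(1,2,30201),(1,0,21000),(1,1,31000),(1,0,32010),(1,2,32001),(1,0,32100),(1,2,32001),(0,0,4321),(0,0,4321),(1,0,0),(1,0,200001),(1,0,200010),(1,1,300010),(1,0,200100),(1,1,300100),(1,0,300210),(1,2,300201),(1,0,201000),(1,1,301000),(1,0,302010),(1,2,302001),(1,0,302100),(1,2,302001),(0,0,5321),(0,0,5321),(1,0,100000),(1,1,320000),(1,1,320000),(0,2,5410),(1,1,320000),(0,2,5420),(0,1,2154),(0,1,2154),(1,1,320000),(0,2,5430),(0,1,3154),(0,1,3154),(0,1,3254),(0,1,3254),(0,0,4321),(0,0,4321)]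
    (by decide +kernel) (by decide +kernel)

theorem e5_P1_S113 {n : ℕ} {B : SimpleGraph (Fin n)} (hB : B.IsIndContained P1_S113) :
    (∃ P ∈ ([(4, []), (4, [(0,1)]), (4, [(0,1),(2,3)])] : List (ℕ × List (ℕ × ℕ))), (gr P.1 P.2).IsIndContained B) ∨
    (∃ G ∈ ([(4, [(0,1),(0,2),(0,3)]), (4, [(0,1),(1,2),(2,3)]), (4, [(0,1),(1,2)])] : List (ℕ × List (ℕ × ℕ))), B.IsIndContained (gr G.1 G.2)) ∨
    (false = true ∧ B = ⊥) ∨ (∃ q ∈ ([] : List ℕ), n ≤ q) :=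
  cert_main 7 [(0,1),(0,2),(0,3),(3,4),(4,5)] hB _ _ _ _
    [(1,0,0),(1,0,0),(1,0,0),(1,0,10),(1,0,0),(1,0,100),(1,0,210),(1,0,210),(1,0,0),(1,0,1000),(1,0,2010),(1,0,2010),(1,0,2100),(1,0,2100),(1,0,3210),(1,0,3210),(1,0,0),(1,0,20001),(1,0,20010),(1,1,30010),(1,0,20100),(1,1,30100),(1,0,30210),(1,2,30201),(1,0,10000),(1,0,20001),(1,1,32000),(1,1,32001),(1,1,32000),(1,1,32001),(0,1,2143),(0,1,2143),(1,0,0),(1,0,200001),(1,0,200010),(1,1,300010),(1,0,200100),(1,1,300100),(1,0,300210),(1,2,300201),(1,0,201000),(1,1,301000),(1,0,302010),(1,2,302001),(1,0,302100),(1,2,302001),(0,0,5321),(0,0,5321),(1,0,100000),(1,1,320000),(1,1,320000),(0,2,5410),(1,1,320000),(0,2,5420),(0,1,2154),(0,1,2154),(1,0,201000),(1,1,321000),(1,2,210030),(0,2,5410),(1,2,210300),(0,2,5420),(0,0,5321),(0,0,5321),(1,0,0),(1,0,2000001),(1,0,2000010),(1,1,3000010),(1,0,2000100),(1,1,3000100),(1,0,3000210),(1,2,300020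1),(1,0,2001000),(1,1,3001000),(1,0,3002010),(1,2,3002001),(1,0,3002100),(1,2,3002001),(0,0,6321),(0,0,6321),(1,0,2010000),(1,0,3020001),(1,0,3020010),(0,1,6410),(1,0,3020100),(0,1,6420),(0,0,6421),(0,0,6421),(1,1,3010000),(1,2,3021000),(0,1,6143),(0,1,6410),(0,1,6243),(0,1,6420),(0,0,6321),(0,0,6321),(1,0,2100000),(1,0,3200001),(1,0,3200010),(0,1,6510),(1,0,3200100),(0,1,6520),(0,0,6521),(0,0,6521),(1,0,3201000),(0,1,6530),(0,0,6531),(0,0,6531),(0,0,6532),(0,0,6532),(0,0,5321),(0,0,5321),(1,1,3100000),(0,1,6054),(0,1,6154),(0,1,6410),(0,1,6254),(0,1,6420),(0,0,6421),(0,0,6421),(1,2,3210000),(0,1,6530),(0,0,6531),(0,0,6531),(0,0,6532),(0,0,6532),(0,0,5321),(0,0,5321)]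
    (by decide +kernel) (by decide +kernel)

theorem e5_S122 {n : ℕ} {B : SimpleGraph (Fin n)} (hB : B.IsIndContained S122) :
    (∃ P ∈ ([(4, []), (4, [(0,1)]), (4, [(0,1),(2,3)])] : List (ℕ × List (ℕ × ℕ))), (gr P.1 P.2).IsIndContained B) ∨
    (∃ G ∈ ([(4, [(0,1),(0,2),(0,3)]), (4, [(0,1),(1,2),(2,3)]), (4, [(0,1),(1,2)])] : List (ℕ × List (ℕ × ℕ))), B.IsIndContained (gr G.1 G.2)) ∨
    (false = true ∧ B = ⊥) ∨ (∃ q ∈ ([] : List ℕ), n ≤ q) :=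
  cert_main 6 [(0,1),(0,2),(2,3),(0,4),(4,5)] hB _ _ _ _
    [(1,0,0),(1,0,0),(1,0,0),(1,0,10),(1,0,0),(1,0,100),(1,0,210),(1,0,210),(1,0,0),(1,0,2001),(1,0,2010),(1,1,3010),(1,0,1000),(1,0,2001),(1,1,3200),(1,1,3201),(1,0,0),(1,0,10000),(1,0,20010),(1,0,20010),(1,0,20100),(1,0,20100),(1,0,30210),(1,0,30210),(1,0,21000),(1,1,13000),(1,0,32010),(1,2,23001),(1,1,31000),(1,1,3201),(0,1,4132),(0,1,4132),(1,0,0),(1,0,200001),(1,0,200010),(1,1,300010),(1,0,200100),(1,1,300100),(1,0,300210),(1,2,300201),(1,0,201000),(1,0,302001),(1,0,302010),(0,1,5310),(1,1,301000),(1,2,302100),(0,1,5132),(0,1,5310),(1,0,100000),(1,0,200001),(1,1,320000),(1,1,320001),(1,1,320000),(1,1,320001),(0,1,2154),(0,1,2154),(1,1,320000),(1,2,213000),(0,1,3154),(0,1,5310),(0,2,5432),(0,2,5432),(0,1,4132),(0,1,5310)]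
    (by decide +kernel) (by decide +kernel)

theorem e6_g2P1P3 {n : ℕ} {B : SimpleGraph (Fin n)} (hB : B.IsIndContained g2P1P3) :
    (∃ P ∈ ([(3, [])] : List (ℕ × List (ℕ × ℕ))), (gr P.1 P.2).IsIndContained B) ∨
    (∃ G ∈ ([(4, [(0,1),(1,2),(2,3)])] : List (ℕ × List (ℕ × ℕ))), B.IsIndContained (gr G.1 G.2)) ∨
    (false = true ∧ B = ⊥) ∨ (∃ q ∈ ([] : List ℕ), n ≤ q) :=
  cert_main 5 [(0,1),(1,2)] hB _ _ _ _
    [(1,0,0),(1,0,0),(1,0,0),(1,0,10),(1,0,0),(1,0,200),(1,0,100),(1,0,210),(1,0,0),(1,0,2000),(1,0,2000),(1,0,3010),(1,0,2000),(0,0,320),(1,0,3100),(0,0,320),(1,0,0),(1,0,20000),(1,0,20000),(1,0,30010),(1,0,20000),(0,0,420),(1,0,30100),(0,0,420),(1,0,20000),(0,0,430),(0,0,431),(0,0,430),(0,0,432),(0,0,320),(0,0,431),(0,0,320)]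
    (by decide +kernel) (by decide +kernel)

theorem e7_K13_3P1 {n : ℕ} {B : SimpleGraph (Fin n)} (hB : B.IsIndContained K13_3P1) :
    (∃ P ∈ ([(3, [(0,1),(1,2)])] : List (ℕ × List (ℕ × ℕ))), (gr P.1 P.2).IsIndContained B) ∨
    (∃ G ∈ ([] : List (ℕ × List (ℕ × ℕ))), B.IsIndContained (gr G.1 G.2)) ∨
    (true = true ∧ B = ⊥) ∨ (∃ q ∈ ([5] : List ℕ), n ≤ q) :=
  cert_main 7 [(0,1),(0,2),(0,3)] hB _ _ _ _
    [(2,0,0),(2,0,0),(2,0,0),(3,0,10),(2,0,0),(3,0,100),(2,0,0),(0,0,201),(2,0,0),(3,0,1000),(2,0,0),(0,0,301),(2,0,0),(0,0,302),(2,0,0),(0,0,201),(2,0,0),(2,0,0),(2,0,0),(3,0,20010),(2,0,0),(3,0,20100),(2,0,0),(0,0,201),(2,0,0),(3,0,21000),(2,0,0),(0,0,301),(2,0,0),(0,0,302),(2,0,0),(0,0,201),(2,0,0),(2,0,0),(2,0,0),(3,0,200010),(2,0,0),(3,0,200100),(2,0,0),(0,0,201),(2,0,0),(3,0,201000),(2,0,0),(0,0,301),(2,0,0),(0,0,302),(2,0,0),(0,0,201),(2,0,0),(2,0,0),(2,0,0),(3,0,320010),(2,0,0)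,(3,0,320100),(2,0,0),(0,0,201),(2,0,0),(3,0,321000),(2,0,0),(0,0,301),(2,0,0),(0,0,302),(2,0,0),(0,0,201),(2,0,0),(2,0,0),(2,0,0),(3,0,2000010),(2,0,0),(3,0,2000100),(2,0,0),(0,0,201),(2,0,0),(3,0,2001000),(2,0,0),(0,0,301),(2,0,0),(0,0,302),(2,0,0),(0,0,201),(2,0,0),(2,0,0),(2,0,0),(3,0,3020010),(2,0,0),(3,0,3020100),(2,0,0),(0,0,201),(2,0,0),(3,0,3021000),(2,0,0),(0,0,301),(2,0,0),(0,0,302),(2,0,0),(0,0,201),(2,0,0),(2,0,0),(2,0,0),(3,0,3200010),(2,0,0),(3,0,3200100),(2,0,0),(0,0,201),(2,0,0),(3,0,3201000),(2,0,0),(0,0,301),(2,0,0),(0,0,302),(2,0,0),(0,0,201),(2,0,0),(2,0,0),(2,0,0),(3,0,4320010),(2,0,0),(3,0,4320100),(2,0,0),(0,0,201),(2,0,0),(3,0,4321000),(2,0,0),(0,0,301),(2,0,0),(0,0,302),(2,0,0),(0,0,201)]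
    (by decide +kernel) (by decide +kernel)

theorem e7_K13_P2 {n : ℕ} {B : SimpleGraph (Fin n)} (hB : B.IsIndContained K13_P2) :
    (∃ P ∈ ([(3, [(0,1),(1,2)])] : List (ℕ × List (ℕ × ℕ))), (gr P.1 P.2).IsIndContained B) ∨
    (∃ G ∈ ([] : List (ℕ × List (ℕ × ℕ))), B.IsIndContained (gr G.1 G.2)) ∨
    (true = true ∧ B = ⊥) ∨ (∃ q ∈ ([5] : List ℕ), n ≤ q) :=
  cert_main 6 [(0,1),(0,2),(0,3),(4,5)] hB _ _ _ _
    [(2,0,0),(2,0,0),(2,0,0),(3,0,10),(2,0,0),(3,0,100),(2,0,0),(0,0,201),(2,0,0),(3,0,1000),(2,0,0),(0,0,301),(2,0,0),(0,0,302),(2,0,0),(0,0,201),(2,0,0),(2,0,0),(2,0,0),(3,0,20010),(2,0,0),(3,0,20100),(2,0,0),(0,0,201),(2,0,0),(3,0,21000),(2,0,0),(0,0,301),(2,0,0),(0,0,302),(2,0,0),(0,0,201),(2,0,0),(2,0,0),(2,0,0),(3,0,200010),(2,0,0),(3,0,200100),(2,0,0),(0,0,201),(2,0,0),(3,0,201000),(2,0,0),(0,0,301),(2,0,0),(0,0,302),(2,0,0),(0,0,201),(3,0,100000),(3,0,210000),(3,0,210000),(3,0,320010),(3,0,210000),(3,0,320100),(3,0,320100),(0,0,201),(3,0,210000),(3,0,321000),(3,0,321000),(0,0,301),(3,0,321000),(0,0,302),(3,0,432100),(0,0,201)]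
    (by decide +kernel) (by decide +kernel)

theorem e7_P1_S113 {n : ℕ} {B : SimpleGraph (Fin n)} (hB : B.IsIndContained P1_S113) :
    (∃ P ∈ ([(3, [(0,1),(1,2)])] : List (ℕ × List (ℕ × ℕ))), (gr P.1 P.2).IsIndContained B) ∨
    (∃ G ∈ ([] : List (ℕ × List (ℕ × ℕ))), B.IsIndContained (gr G.1 G.2)) ∨
    (true = true ∧ B = ⊥) ∨ (∃ q ∈ ([5] : List ℕ), n ≤ q) :=
  cert_main 7 [(0,1),(0,2),(0,3),(3,4),(4,5)] hB _ _ _ _
    [(2,0,0),(2,0,0),(2,0,0),(3,0,10),(2,0,0),(3,0,100),(2,0,0),(0,0,201),(2,0,0),(3,0,1000),(2,0,0),(0,0,301),(2,0,0),(0,0,302),(2,0,0),(0,0,201),(2,0,0),(2,0,0),(2,0,0),(3,0,20010),(2,0,0),(3,0,20100),(2,0,0),(0,0,201),(3,0,10000),(0,0,430),(3,0,21000),(0,0,430),(3,0,21000),(0,0,430),(3,0,32100),(0,0,430),(2,0,0),(2,0,0),(2,0,0),(3,0,200010),(2,0,0),(3,0,200100),(2,0,0),(0,0,201),(2,0,0),(3,0,201000),(2,0,0),(0,0,301),(2,0,0),(0,0,302),(2,0,0),(0,0,201),(3,0,100000),(3,0,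210000),(3,0,210000),(3,0,320010),(3,0,210000),(3,0,320100),(3,0,320100),(0,0,201),(0,0,543),(0,0,430),(0,0,543),(0,0,430),(0,0,543),(0,0,430),(0,0,543),(0,0,430),(2,0,0),(2,0,0),(2,0,0),(3,0,2000010),(2,0,0),(3,0,2000100),(2,0,0),(0,0,201),(2,0,0),(3,0,2001000),(2,0,0),(0,0,301),(2,0,0),(0,0,302),(2,0,0),(0,0,201),(2,0,0),(2,0,0),(2,0,0),(3,0,3020010),(2,0,0),(3,0,3020100),(2,0,0),(0,0,201),(3,0,2010000),(0,0,430),(3,0,3021000),(0,0,430),(3,0,3021000),(0,0,430),(3,0,4032100),(0,0,430),(2,0,0),(2,0,0),(2,0,0),(3,0,3200010),(2,0,0),(3,0,3200100),(2,0,0),(0,0,201),(2,0,0),(3,0,3201000),(2,0,0),(0,0,301),(2,0,0),(0,0,302),(2,0,0),(0,0,201),(3,0,2100000),(3,0,3210000),(3,0,3210000),(3,0,4320010),(3,0,3210000),(3,0,4320100),(3,0,4320100),(0,0,201),(0,0,543),(0,0,430),(0,0,543),(0,0,430),(0,0,543),(0,0,430),(0,0,543),(0,0,430)]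
    (by decide +kernel) (by decide +kernel)

theorem e7_S122 {n : ℕ} {B : SimpleGraph (Fin n)} (hB : B.IsIndContained S122) :
    (∃ P ∈ ([(3, [(0,1),(1,2)])] : List (ℕ × List (ℕ × ℕ))), (gr P.1 P.2).IsIndContained B) ∨
    (∃ G ∈ ([] : List (ℕ × List (ℕ × ℕ))), B.IsIndContained (gr G.1 G.2)) ∨
    (true = true ∧ B = ⊥) ∨ (∃ q ∈ ([5] : List ℕ), n ≤ q) :=
  cert_main 6 [(0,1),(0,2),(2,3),(0,4),(4,5)] hB _ _ _ _
    [(2,0,0),(2,0,0),(2,0,0),(3,0,10),(2,0,0),(3,0,100),(2,0,0),(0,0,201),(2,0,0),(2,0,0),(2,0,0),(3,0,2010),(3,0,1000),(0,0,320),(3,0,2100),(0,0,320),(2,0,0),(3,0,10000),(2,0,0),(0,0,401),(2,0,0),(0,0,402),(2,0,0),(0,0,201),(2,0,0),(3,0,21000),(2,0,0),(0,0,401),(3,0,21000),(0,0,320),(3,0,32100),(0,0,320),(2,0,0),(2,0,0),(2,0,0),(3,0,200010),(2,0,0),(3,0,200100),(2,0,0),(0,0,201),(2,0,0),(2,0,0),(2,0,0),(3,0,302010),(3,0,201000),(0,0,320),(3,0,302100),(0,0,320),(3,0,100000),(0,0,540),(3,0,210000),(0,0,540),(3,0,210000),(0,0,540),(3,0,320100),(0,0,540),(3,0,210000),(0,0,540),(3,0,321000),(0,0,540),(3,0,321000),(0,0,320),(3,0,432100),(0,0,320)]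
    (by decide +kernel) (by decide +kernel)


theorem bot_ge {n : ℕ} {B : SimpleGraph (Fin n)} (m : ℕ) (hB : B = ⊥) (hmn : m ≤ n) :
    (gr m []).IsIndContained B := by
  subst hB
  refine ⟨⟨⟨Fin.castLE hmn, Fin.castLE_injective hmn⟩, ?_⟩⟩
  intro a b
  show (⊥ : SimpleGraph (Fin n)).Adj _ _ ↔ _
  rw [gr_adj]
  simp [adjE]

theorem bot_le {n : ℕ} {B : SimpleGraph (Fin n)} (k : ℕ) (E : List (ℕ × ℕ)) (m : ℕ)
    (f : Fin m → Fin k) (hf : Function.Injective f)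
    (hf2 : ∀ i j, adjE E (f i) (f j) = false) (hB : B = ⊥) (hmn : n ≤ m) :
    B.IsIndContained (gr k E) := by
  subst hB
  refine ⟨⟨⟨fun u => f (Fin.castLE hmn u), hf.comp (Fin.castLE_injective hmn)⟩, ?_⟩⟩
  intro a b
  show (gr k E).Adj (f (Fin.castLE hmn a)) (f (Fin.castLE hmn b)) ↔ (⊥ : SimpleGraph (Fin n)).Adj a b
  rw [gr_adj, hf2]
  simp

/-- TARGET -/
theorem e1 {n : ℕ} {B : SimpleGraph (Fin n)} (hB : BipL B)
    (h1 : ¬gK13.IsIndContained B) (h2 : ¬g2P2.IsIndContained B)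
    (h3 : ¬gP1P4.IsIndContained B) (h4 : ¬g3P1P2.IsIndContained B) :
    B = ⊥ ∨ B.IsIndContained gP4 ∨ B.IsIndContained g2P1P3 := by
  have key : ∀ {X : Prop}, ((∃ P ∈ ([(4, [(0,1),(0,2),(0,3)]), (4, [(0,1),(2,3)]), (5, [(0,1),(1,2),(2,3)]), (5, [(0,1)])] : List (ℕ × List (ℕ × ℕ))), (gr P.1 P.2).IsIndContained B) ∨
    (∃ G ∈ ([(4, [(0,1),(1,2),(2,3)]), (5, [(0,1),(1,2)])] : List (ℕ × List (ℕ × ℕ))), B.IsIndContained (gr G.1 G.2)) ∨
    (true = true ∧ B = ⊥) ∨ (∃ q ∈ ([] : List ℕ), n ≤ q)) →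
      B = ⊥ ∨ B.IsIndContained gP4 ∨ B.IsIndContained g2P1P3 := by
    rintro - (⟨P, hP, h⟩ | ⟨P, hP, h⟩ | ⟨-, h⟩ | ⟨q, hq, -⟩)
    · simp only [List.mem_cons, List.not_mem_nil, or_false] at hP
      rcases hP with rfl | rfl | rfl | rfl
      · exact absurd h h1
      · exact absurd h h2
      · exact absurd h h3
      · exact absurd h h4
    · simp only [List.mem_cons, List.not_mem_nil, or_false] at hP
      rcases hP with rfl | rfl
      · exact Or.inr (Or.inl h)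
      · exact Or.inr (Or.inr h)
    · exact Or.inl h
    · simp at hq
  rcases hB with hB | hB | hB | hB | hB
  · exact Or.inl hB
  · exact key (X := True) (e1_K13_3P1 hB)
  · exact key (X := True) (e1_K13_P2 hB)
  · exact key (X := True) (e1_P1_S113 hB)
  · exact key (X := True) (e1_S122 hB)

/-- TARGET -/
theorem e2 {n : ℕ} {B : SimpleGraph (Fin n)} (hB : BipL B)
    (h1 : ¬gK13.IsIndContained B) (h2 : ¬g5P1.IsIndContained B) :
    B.IsIndContained g3P1P2 ∨ B.IsIndContained gP1P5 ∨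
    B.IsIndContained gP1P2P3 := by
  have key : ∀ {X : Prop}, ((∃ P ∈ ([(4, [(0,1),(0,2),(0,3)]), (5, [])] : List (ℕ × List (ℕ × ℕ))), (gr P.1 P.2).IsIndContained B) ∨
    (∃ G ∈ ([(5, [(0,1)]), (6, [(0,1),(1,2),(2,3),(3,4)]), (6, [(0,1),(2,3),(3,4)])] : List (ℕ × List (ℕ × ℕ))), B.IsIndContained (gr G.1 G.2)) ∨
    (false = true ∧ B = ⊥) ∨ (∃ q ∈ ([] : List ℕ), n ≤ q)) →
      B.IsIndContained g3P1P2 ∨ B.IsIndContained gP1P5 ∨
    B.IsIndContained gP1P2P3 := by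
    rintro - (⟨P, hP, h⟩ | ⟨P, hP, h⟩ | ⟨h, -⟩ | ⟨q, hq, -⟩)
    · simp only [List.mem_cons, List.not_mem_nil, or_false] at hP
      rcases hP with rfl | rfl
      · exact absurd h h1
      · exact absurd h h2
    · simp only [List.mem_cons, List.not_mem_nil, or_false] at hP
      rcases hP with rfl | rfl | rfl
      · exact Or.inl h
      · exact Or.inr (Or.inl h)
      · exact Or.inr (Or.inr h)
    · simp at h
    · simp at hq
  rcases hB with hB | hB | hB | hB | hB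
  · left
    have hn : n ≤ 4 := by
      by_contra hcon
      exact h2 (bot_ge 5 hB (by omega))
    exact bot_le 5 [(0,1)] 4 ![0,2,3,4] (by decide) (by decide) hB hn
  · exact key (X := True) (e2_K13_3P1 hB)
  · exact key (X := True) (e2_K13_P2 hB)
  · exact key (X := True) (e2_P1_S113 hB)
  · exact key (X := True) (e2_S122 hB)

/-- TARGET -/
theorem e3 {n : ℕ} {B : SimpleGraph (Fin n)} (hB : B.IsIndContained g2P1P3)
    (h1 : ¬g2P1P2.IsIndContained B) : B = ⊥ ∨ B.IsIndContained gP4 ∨ B.IsIndContained gP1P3 := by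
  rcases e3_g2P1P3 hB with ⟨P, hP, h⟩ | ⟨P, hP, h⟩ | ⟨-, h⟩ | ⟨q, hq, -⟩
  · simp only [List.mem_cons, List.not_mem_nil, or_false] at hP
    rcases hP with rfl
    exact absurd h h1
  · simp only [List.mem_cons, List.not_mem_nil, or_false] at hP
    rcases hP with rfl | rfl
    · exact Or.inr (Or.inl h)
    · exact Or.inr (Or.inr h)
  · exact Or.inl h
  · simp at hq

/-- TARGET -/
theorem e4 {n : ℕ} {B : SimpleGraph (Fin n)} (hB : B.IsIndContained g2P1P3)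
    (h1 : ¬g4P1.IsIndContained B) : B.IsIndContained gP1P3 ∨ B.IsIndContained g2P1P2 := by
  rcases e4_g2P1P3 hB with ⟨P, hP, h⟩ | ⟨P, hP, h⟩ | ⟨h, -⟩ | ⟨q, hq, -⟩
  · simp only [List.mem_cons, List.not_mem_nil, or_false] at hP
    rcases hP with rfl
    exact absurd h h1
  · simp only [List.mem_cons, List.not_mem_nil, or_false] at hP
    rcases hP with rfl | rfl
    · exact Or.inl h
    · exact Or.inr h
  · simp at h
  · simp at hq

/-- TARGET -/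
theorem e5 {n : ℕ} {B : SimpleGraph (Fin n)} (hB : BipL B)
    (h1 : ¬g4P1.IsIndContained B) (h2 : ¬g2P1P2.IsIndContained B)
    (h3 : ¬g2P2.IsIndContained B) :
    B.IsIndContained gK13 ∨ B.IsIndContained gP4 ∨
    B.IsIndContained gP1P3 := by
  have key : ∀ {X : Prop}, ((∃ P ∈ ([(4, []), (4, [(0,1)]), (4, [(0,1),(2,3)])] : List (ℕ × List (ℕ × ℕ))), (gr P.1 P.2).IsIndContained B) ∨
    (∃ G ∈ ([(4, [(0,1),(0,2),(0,3)]), (4, [(0,1),(1,2),(2,3)]), (4, [(0,1),(1,2)])] : List (ℕ × List (ℕ × ℕ))), B.IsIndContained (gr G.1 G.2)) ∨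
    (false = true ∧ B = ⊥) ∨ (∃ q ∈ ([] : List ℕ), n ≤ q)) →
      B.IsIndContained gK13 ∨ B.IsIndContained gP4 ∨
    B.IsIndContained gP1P3 := by
    rintro - (⟨P, hP, h⟩ | ⟨P, hP, h⟩ | ⟨h, -⟩ | ⟨q, hq, -⟩)
    · simp only [List.mem_cons, List.not_mem_nil, or_false] at hP
      rcases hP with rfl | rfl | rfl
      · exact absurd h h1
      · exact absurd h h2
      · exact absurd h h3
    · simp only [List.mem_cons, List.not_mem_nil, or_false] at hP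
      rcases hP with rfl | rfl | rfl
      · exact Or.inl h
      · exact Or.inr (Or.inl h)
      · exact Or.inr (Or.inr h)
    · simp at h
    · simp at hq
  rcases hB with hB | hB | hB | hB | hB
  · left
    have hn : n ≤ 3 := by
      by_contra hcon
      exact h1 (bot_ge 4 hB (by omega))
    exact bot_le 4 [(0,1),(0,2),(0,3)] 3 ![1,2,3] (by decide) (by decide) hB hn
  · exact key (X := True) (e5_K13_3P1 hB)
  · exact key (X := True) (e5_K13_P2 hB)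
  · exact key (X := True) (e5_P1_S113 hB)
  · exact key (X := True) (e5_S122 hB)

/-- TARGET -/
theorem e6 {n : ℕ} {B : SimpleGraph (Fin n)} (hB : B.IsIndContained g2P1P3)
    (h1 : ¬g3P1.IsIndContained B) : B.IsIndContained gP4 := by
  rcases e6_g2P1P3 hB with ⟨P, hP, h⟩ | ⟨P, hP, h⟩ | ⟨h, -⟩ | ⟨q, hq, -⟩
  · simp only [List.mem_cons, List.not_mem_nil, or_false] at hP
    rcases hP with rfl
    exact absurd h h1
  · simp only [List.mem_cons, List.not_mem_nil, or_false] at hP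
    rcases hP with rfl
    exact h
  · simp at h
  · simp at hq

/-- TARGET -/
theorem e7 {n : ℕ} {B : SimpleGraph (Fin n)} (hB : BipL B) :
    ¬(gr 6 [(0,1)]).IsIndContained B := by
  intro hp
  have hP3 : ¬ gP3.IsIndContained (gr 6 [(0,1)]) := by
    rintro ⟨f⟩
    have a1 : (gr 6 [(0,1)]).Adj (f 0) (f 1) := f.map_adj_iff.2 (by
      show (gr 3 [(0,1),(1,2)]).Adj 0 1
      rw [gr_adj]; decide)
    have a2 : (gr 6 [(0,1)]).Adj (f 1) (f 2) := f.map_adj_iff.2 (by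
      show (gr 3 [(0,1),(1,2)]).Adj 1 2
      rw [gr_adj]; decide)
    have a3 : f 0 ≠ f 2 := fun h => absurd (f.injective h) (by decide)
    rw [gr_adj] at a1 a2
    revert a1 a2 a3
    generalize f 0 = x
    generalize f 1 = y
    generalize f 2 = z
    revert x y z
    decide
  have key : ∀ {X : Prop}, ((∃ P ∈ ([(3, [(0,1),(1,2)])] : List (ℕ × List (ℕ × ℕ))), (gr P.1 P.2).IsIndContained (gr 6 [(0,1)])) ∨
    (∃ G ∈ ([] : List (ℕ × List (ℕ × ℕ))), (gr 6 [(0,1)]).IsIndContained (gr G.1 G.2)) ∨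
    (true = true ∧ (gr 6 [(0,1)]) = ⊥) ∨ (∃ q ∈ ([5] : List ℕ), 6 ≤ q)) →
      False := by
    rintro - (⟨P, hP, h⟩ | ⟨P, hP, h⟩ | ⟨-, h⟩ | ⟨q, hq, h⟩)
    · simp only [List.mem_cons, List.not_mem_nil, or_false] at hP
      rcases hP with rfl
      exact hP3 h
    · simp at hP
    · have h01 : (gr 6 [(0,1)]).Adj 0 1 := by rw [gr_adj]; decide
      rw [h] at h01
      exact h01
    · simp at hq
      omega
  rcases hB with hB | hB | hB | hB | hB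
  · subst hB
    obtain ⟨f⟩ := hp
    have h01 : (gr 6 [(0,1)]).Adj 0 1 := by rw [gr_adj]; decide
    exact f.map_adj_iff.2 h01
  · exact key (X := True) (e7_K13_3P1 (hp.trans hB))
  · exact key (X := True) (e7_K13_P2 (hp.trans hB))
  · exact key (X := True) (e7_P1_S113 (hp.trans hB))
  · exact key (X := True) (e7_S122 (hp.trans hB))

end ClE

end Pool.Agent.Helper856.Cw
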