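import Pool.Agent.Helper856.Pair.Defs
import Pool.Agent.Helper856.Lcw.GBase

open Classical SimpleGraph

namespace Pool.Agent.Helper856.Cw

open Pool.Agent.Helper856.Lcw (gr)

namespace ClStar

variable {V : Type} {G : SimpleGraph V} {S T : Finset V} {k l : ℕ}

theorem h_st_adj {r s : ℕ} (u v : Fin (1 + r + s)) : (ST r s).Adj u v ↔
    (u.val = 0 ∧ 1 ≤ v.val ∧ v.val ≤ r) ∨ (v.val = 0 ∧ 1 ≤ u.val ∧ u.val ≤ r) := by
  unfold ST
  rw [SimpleGraph.fromRel_adj]
  constructor
  · exact fun h => h.2
  · intro h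
    refine ⟨?_, h⟩
    rintro rfl
    omega

theorem h_emb {V W : Type} {G : SimpleGraph V} {H : SimpleGraph W} (f : V → W) (hinj : Function.Injective f)
    (h : ∀ x y, H.Adj (f x) (f y) ↔ G.Adj x y) : G.IsIndContained H :=
  ⟨⟨⟨f, hinj⟩, fun {x y} => h x y⟩⟩

theorem h_tri {m : ℕ} (M : SimpleGraph (Fin m)) (h3 : ¬gK3.IsIndContained M) (a b c : Fin m)
    (hab : M.Adj a b) (hbc : M.Adj b c) (hac : M.Adj a c) : False := by
  apply h3
  apply h_emb ![a, b, c]
  · intro x y hxy
    have h1 := hab.ne
    have h2 := hbc.ne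
    have h3 := hac.ne
    fin_cases x <;> fin_cases y <;> simp_all
  · intro x y
    have h1 := hab.symm
    have h2 := hbc.symm
    have h3 := hac.symm
    unfold gK3 gr
    rw [SimpleGraph.fromRel_adj]
    fin_cases x <;> fin_cases y <;> simp_all

theorem h_meet {m : ℕ} (M : SimpleGraph (Fin m)) (hM : Thr M)
    (htri : ∀ a b c, M.Adj a b → M.Adj b c → M.Adj a c → False) (a b x y : Fin m)
    (hab : M.Adj a b) (hxy : M.Adj x y) : a = x ∨ a = y ∨ b = x ∨ b = y := by
  by_contra hcon
  push Not at hcon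
  obtain ⟨h1, h2, h3, h4⟩ := hcon
  have t1 : M.Adj a x ∨ M.Adj b y := by
    by_contra h
    push Not at h
    exact hM a b x y hab hxy h.1 h.2 h1 h4
  have t2 : M.Adj a y ∨ M.Adj b x := by
    by_contra h
    push Not at h
    exact hM a b y x hab hxy.symm h.1 h.2 h2 h3
  rcases t1 with t1 | t1
  · rcases t2 with t2 | t2
    · exact htri a x y t1 hxy t2
    · exact htri a b x hab t2 t1
  · rcases t2 with t2 | t2
    · exact htri a b y hab t1 t2
    · exact htri b x y t2 hxy t1

theorem h_centre {m : ℕ} (M : SimpleGraph (Fin m)) (hm : 0 < m) (hM : Thr M)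
    (htri : ∀ a b c, M.Adj a b → M.Adj b c → M.Adj a c → False) :
    ∃ c, ∀ u v, M.Adj u v → u = c ∨ v = c := by
  by_cases he : ∃ a b, M.Adj a b
  · obtain ⟨a, b, hab⟩ := he
    by_cases ha : ∀ u v, M.Adj u v → u = a ∨ v = a
    · exact ⟨a, ha⟩
    · push Not at ha
      obtain ⟨u, v, huv, hua, hva⟩ := ha
      -- the edge `u v` misses `a`, so it contains `b`
      obtain ⟨d, hbd, hda⟩ : ∃ d, M.Adj b d ∧ d ≠ a := by
        rcases h_meet M hM htri a b u v hab huv with h | h | h | h
        · exact absurd h.symm hua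
        · exact absurd h.symm hva
        · exact ⟨v, h ▸ huv, hva⟩
        · exact ⟨u, h ▸ huv.symm, hua⟩
      refine ⟨b, ?_⟩
      intro x y hxy
      by_contra hcon
      push Not at hcon
      obtain ⟨hxb, hyb⟩ := hcon
      -- the edge misses `b` so it contains `a` and `d`
      have had : M.Adj a d := by
        rcases h_meet M hM htri a b x y hab hxy with h | h | h | h
        · rcases h_meet M hM htri b d x y hbd hxy with h' | h' | h' | h'
          · exact absurd h'.symm hxb
          · exact absurd h'.symm hyb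
          · exact absurd (h'.trans h.symm) hda
          · rw [h, h']; exact hxy
        · rcases h_meet M hM htri b d x y hbd hxy with h' | h' | h' | h'
          · exact absurd h'.symm hxb
          · exact absurd h'.symm hyb
          · rw [h, h']; exact hxy.symm
          · exact absurd (h'.trans h.symm) hda
        · exact absurd h.symm hxb
        · exact absurd h.symm hyb
      exact htri a b d hab hbd had
  · push Not at he
    exact ⟨⟨0, hm⟩, fun u v h => absurd h (he u v)⟩

/-- TARGET -/
theorem star_struct {m : ℕ} (M : SimpleGraph (Fin m)) (hm : 0 < m) (hM : Thr M)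
    (h3 : ¬gK3.IsIndContained M) : ∃ r s, Nonempty (M ≃g ST r s) := by
  have htri := h_tri M h3
  obtain ⟨c, hc⟩ := h_centre M hm hM htri
  let A := {v : Fin m // M.Adj c v}
  let B := {v : Fin m // v ≠ c ∧ ¬ M.Adj c v}
  obtain ⟨r, ⟨eA⟩⟩ : ∃ r, Nonempty (Fin r ≃ A) := ⟨Fintype.card A, ⟨(Fintype.equivFin A).symm⟩⟩
  obtain ⟨s, ⟨eB⟩⟩ : ∃ s, Nonempty (Fin s ≃ B) := ⟨Fintype.card B, ⟨(Fintype.equivFin B).symm⟩⟩
  let F : (Fin 1 ⊕ Fin r) ⊕ Fin s → Fin m :=
    Sum.elim (Sum.elim (fun _ => c) (fun i => (eA i).1)) (fun i => (eB i).1)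
  have hFinj : Function.Injective F := by
    rintro ((x | x) | x) ((y | y) | y) hxy
    · rw [Subsingleton.elim x y]
    · have h1 : c = (eA y).1 := hxy
      have h2 := (eA y).2
      rw [← h1] at h2
      exact absurd h2 (M.loopless.irrefl c)
    · have h1 : c = (eB y).1 := hxy
      exact absurd h1.symm (eB y).2.1
    · have h1 : (eA x).1 = c := hxy
      have h2 := (eA x).2
      rw [h1] at h2
      exact absurd h2 (M.loopless.irrefl c)
    · have h1 : (eA x).1 = (eA y).1 := hxy
      rw [eA.injective (Subtype.ext h1)]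
    · have h1 : (eA x).1 = (eB y).1 := hxy
      have h2 := (eA x).2
      rw [h1] at h2
      exact absurd h2 (eB y).2.2
    · have h1 : (eB x).1 = c := hxy
      exact absurd h1 (eB x).2.1
    · have h1 : (eB x).1 = (eA y).1 := hxy
      have h2 := (eA y).2
      rw [← h1] at h2
      exact absurd h2 (eB x).2.2
    · have h1 : (eB x).1 = (eB y).1 := hxy
      rw [eB.injective (Subtype.ext h1)]
  have hFsurj : Function.Surjective F := by
    intro v
    by_cases h1 : v = c
    · exact ⟨Sum.inl (Sum.inl 0), h1.symm⟩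
    · by_cases h2 : M.Adj c v
      · refine ⟨Sum.inl (Sum.inr (eA.symm ⟨v, h2⟩)), ?_⟩
        show (eA (eA.symm ⟨v, h2⟩)).1 = v
        rw [Equiv.apply_symm_apply]
      · refine ⟨Sum.inr (eB.symm ⟨v, h1, h2⟩), ?_⟩
        show (eB (eB.symm ⟨v, h1, h2⟩)).1 = v
        rw [Equiv.apply_symm_apply]
  let E : (Fin 1 ⊕ Fin r) ⊕ Fin s ≃ Fin m := Equiv.ofBijective F ⟨hFinj, hFsurj⟩
  let σ : (Fin 1 ⊕ Fin r) ⊕ Fin s ≃ Fin (1 + r + s) :=
    (Equiv.sumCongr finSumFinEquiv (Equiv.refl _)).trans finSumFinEquiv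
  have P0 : ∀ x, (σ x).val = 0 ↔ F x = c := by
    rintro ((x | x) | x)
    · have : (σ (Sum.inl (Sum.inl x))).val = x.val := by simp [σ]
      rw [this]
      have hx : x.val = 0 := by omega
      exact ⟨fun _ => rfl, fun _ => hx⟩
    · have : (σ (Sum.inl (Sum.inr x))).val = 1 + x.val := by simp [σ]
      rw [this]
      constructor
      · intro h; omega
      · intro h
        have h1 : (eA x).1 = c := h
        have h2 := (eA x).2
        rw [h1] at h2
        exact absurd h2 (M.loopless.irrefl c)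
    · have : (σ (Sum.inr x)).val = 1 + r + x.val := by simp [σ]
      rw [this]
      constructor
      · intro h; omega
      · intro h
        exact absurd h (eB x).2.1
  have P1 : ∀ x, (1 ≤ (σ x).val ∧ (σ x).val ≤ r) ↔ M.Adj c (F x) := by
    rintro ((x | x) | x)
    · have : (σ (Sum.inl (Sum.inl x))).val = x.val := by simp [σ]
      rw [this]
      constructor
      · intro h; omega
      · intro h
        exact absurd h (M.loopless.irrefl c)
    · have : (σ (Sum.inl (Sum.inr x))).val = 1 + x.val := by simp [σ]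
      rw [this]
      have := x.2
      exact ⟨fun _ => (eA x).2, fun _ => ⟨by omega, by omega⟩⟩
    · have : (σ (Sum.inr x)).val = 1 + r + x.val := by simp [σ]
      rw [this]
      constructor
      · intro h; omega
      · intro h
        exact absurd h (eB x).2.2
  refine ⟨r, s, ⟨⟨E.symm.trans σ, ?_⟩⟩⟩
  intro x y
  obtain ⟨x', rfl⟩ := E.surjective x
  obtain ⟨y', rfl⟩ := E.surjective y
  simp only [Equiv.trans_apply, Equiv.symm_apply_apply]
  rw [h_st_adj, P0, P0, P1, P1]
  show _ ↔ M.Adj (F x') (F y')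
  constructor
  · rintro (⟨h1, h2⟩ | ⟨h1, h2⟩)
    · rw [h1]; exact h2
    · rw [h1]; exact h2.symm
  · intro h
    rcases hc _ _ h with h1 | h1
    · left; exact ⟨h1, h1 ▸ h⟩
    · right; exact ⟨h1, h1 ▸ h.symm⟩

/-- TARGET -/
theorem st_mono {r s r' s' : ℕ} (hr : r ≤ r') (hs : s ≤ s') :
    (ST r s).IsIndContained (ST r' s') := by
  have hlt : ∀ v : Fin (1 + r + s), (if v.val ≤ r then v.val else v.val - r + r') < 1 + r' + s' := by
    intro v
    have := v.2
    split_ifs <;> omega
  apply h_emb (fun v : Fin (1 + r + s) =>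
    (⟨if v.val ≤ r then v.val else v.val - r + r', hlt v⟩ : Fin (1 + r' + s')))
  · intro v w h
    have h1 := congrArg Fin.val h
    simp only at h1
    apply Fin.ext
    split_ifs at h1 <;> omega
  · intro v w
    rw [h_st_adj, h_st_adj]
    simp only
    have := v.2
    have := w.2
    split_ifs <;> omega

/-- TARGET -/
theorem st_indep {s r' s' : ℕ} (h : s + 1 ≤ r' + s') : (ST 0 s).IsIndContained (ST r' s') := by
  have hlt : ∀ v : Fin (1 + 0 + s), v.val + 1 < 1 + r' + s' := by
    intro v
    have := v.2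
    omega
  apply h_emb (fun v : Fin (1 + 0 + s) => (⟨v.val + 1, hlt v⟩ : Fin (1 + r' + s')))
  · intro v w h
    have h1 := congrArg Fin.val h
    simp only at h1
    apply Fin.ext
    omega
  · intro v w
    rw [h_st_adj, h_st_adj]
    simp only
    omega

end ClStar

end Pool.Agent.Helper856.Cw
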