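import Pool.Agent.Helper856.Pair.Defs
import Pool.Agent.Helper856.Lcw.GBase

open Classical SimpleGraph

namespace Pool.Agent.Helper856.Cw

open Pool.Agent.Helper856.Lcw (gr)

namespace ClThr

variable {V : Type} {G : SimpleGraph V} {S T : Finset V} {k l : ℕ}

theorem TS_mk {n : ℕ} {W : Type} (H : SimpleGraph (Fin n)) (A : SimpleGraph W) (f : Fin n → W)
    (h : ∀ i j, i < j → f i ≠ f j ∧ (H.Adj i j ↔ A.Adj (f i) (f j))) : H.IsIndContained A := by
  have hinj : Function.Injective f := by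
    intro i j hij
    by_contra hne
    rcases lt_or_gt_of_ne hne with h1 | h1
    · exact (h i j h1).1 hij
    · exact (h j i h1).1 hij.symm
  refine ⟨⟨⟨f, hinj⟩, ?_⟩⟩
  intro i j
  show A.Adj (f i) (f j) ↔ H.Adj i j
  rcases lt_trichotomy i j with h1 | h1 | h1
  · exact (h i j h1).2.symm
  · subst h1
    simp
  · rw [A.adj_comm, H.adj_comm]
    exact (h j i h1).2.symm

theorem TS_k3 {W : Type} {A : SimpleGraph W} {a b c : W} (h1 : A.Adj a b) (h2 : A.Adj b c)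
    (h3 : A.Adj a c) : gK3.IsIndContained A := by
  apply TS_mk _ _ ![a, b, c]
  intro i j hij
  fin_cases i <;> fin_cases j <;> simp_all [gK3, gr, h1.ne, h2.ne, h3.ne]

theorem TS_p3 {W : Type} {A : SimpleGraph W} {a b c : W} (h1 : A.Adj a b) (h2 : A.Adj b c)
    (h3 : ¬A.Adj a c) (h4 : a ≠ c) : gP3.IsIndContained A := by
  apply TS_mk _ _ ![a, b, c]
  intro i j hij
  fin_cases i <;> fin_cases j <;> simp_all [gP3, gr, h1.ne, h2.ne]

theorem TS_one {W : Type} {A : SimpleGraph W} {a b c : W} (h1 : A.Adj a b) (h2 : ¬A.Adj b c)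
    (h3 : ¬A.Adj a c) (h4 : a ≠ c) (h5 : b ≠ c) : (gr 3 [(0,1)]).IsIndContained A := by
  apply TS_mk _ _ ![a, b, c]
  intro i j hij
  fin_cases i <;> fin_cases j <;> simp_all [gr, h1.ne]

theorem TS_c4 {W : Type} {A : SimpleGraph W} {a b c d : W} (h1 : A.Adj a b) (h2 : A.Adj b c)
    (h3 : A.Adj c d) (h4 : A.Adj a d) (h5 : ¬A.Adj a c) (h6 : ¬A.Adj b d) (h7 : a ≠ c) (h8 : b ≠ d) :
    gC4.IsIndContained A := by
  apply TS_mk _ _ ![a, b, c, d]
  intro i j hij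
  fin_cases i <;> fin_cases j <;> simp_all [gC4, gr, h1.ne, h2.ne, h3.ne, h4.ne]

theorem TS_p4 {W : Type} {A : SimpleGraph W} {a b c d : W} (h1 : A.Adj a b) (h2 : A.Adj b c)
    (h3 : A.Adj c d) (h4 : ¬A.Adj a d) (h5 : ¬A.Adj a c) (h6 : ¬A.Adj b d) (h7 : a ≠ c) (h8 : b ≠ d)
    (h9 : a ≠ d) : gP4.IsIndContained A := by
  apply TS_mk _ _ ![a, b, c, d]
  intro i j hij
  fin_cases i <;> fin_cases j <;> simp_all [gP4, gr, h1.ne, h2.ne, h3.ne]

theorem TS_2p2 {W : Type} {A : SimpleGraph W} {a b c d : W} (h1 : A.Adj a b) (h2 : A.Adj c d)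
    (h3 : ¬A.Adj a c) (h4 : ¬A.Adj a d) (h5 : ¬A.Adj b c) (h6 : ¬A.Adj b d) (h7 : a ≠ c) (h8 : a ≠ d)
    (h9 : b ≠ c) (h10 : b ≠ d) : g2P2.IsIndContained A := by
  apply TS_mk _ _ ![a, b, c, d]
  intro i j hij
  fin_cases i <;> fin_cases j <;> simp_all [g2P2, gr, h1.ne, h2.ne]

theorem TS_c5 {W : Type} {A : SimpleGraph W} {a b c d e : W} (h1 : A.Adj a b) (h2 : A.Adj b c)
    (h3 : A.Adj c d) (h4 : A.Adj d e) (h5 : A.Adj a e) (h6 : ¬A.Adj a c) (h7 : ¬A.Adj a d)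
    (h8 : ¬A.Adj b d) (h9 : ¬A.Adj b e) (h10 : ¬A.Adj c e) (n1 : a ≠ c) (n2 : a ≠ d) (n3 : b ≠ d)
    (n4 : b ≠ e) (n5 : c ≠ e) : gC5.IsIndContained A := by
  apply TS_mk _ _ ![a, b, c, d, e]
  intro i j hij
  fin_cases i <;> fin_cases j <;> simp_all [gC5, gr, h1.ne, h2.ne, h3.ne, h4.ne, h5.ne]

theorem TS_k4 {W : Type} {A : SimpleGraph W} {a b c d : W} (h1 : A.Adj a b) (h2 : A.Adj a c)
    (h3 : A.Adj a d) (h4 : A.Adj b c) (h5 : A.Adj b d) (h6 : A.Adj c d) : gK4.IsIndContained A := by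
  apply TS_mk _ _ ![a, b, c, d]
  intro i j hij
  fin_cases i <;> fin_cases j <;> simp_all [gK4, gr, h1.ne, h2.ne, h3.ne, h4.ne, h5.ne, h6.ne]

theorem TS_paw {W : Type} {A : SimpleGraph W} {a b c d : W} (h1 : A.Adj a b) (h2 : A.Adj a c)
    (h3 : A.Adj b c) (h4 : A.Adj a d) (h5 : ¬A.Adj b d) (h6 : ¬A.Adj c d) (h7 : b ≠ d) (h8 : c ≠ d) :
    gPaw.IsIndContained A := by
  apply TS_mk _ _ ![a, b, c, d]
  intro i j hij
  fin_cases i <;> fin_cases j <;> simp_all [gPaw, gr, h1.ne, h2.ne, h3.ne, h4.ne]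

theorem TS_dia {W : Type} {A : SimpleGraph W} {a b c d : W} (h1 : A.Adj a b) (h2 : A.Adj a c)
    (h3 : A.Adj b c) (h4 : A.Adj a d) (h5 : A.Adj b d) (h6 : ¬A.Adj c d) (h8 : c ≠ d) :
    gDia.IsIndContained A := by
  apply TS_mk _ _ ![a, b, c, d]
  intro i j hij
  fin_cases i <;> fin_cases j <;> simp_all [gDia, gr, h1.ne, h2.ne, h3.ne, h4.ne, h5.ne]

theorem TS_k3p1 {W : Type} {A : SimpleGraph W} {a b c d : W} (h1 : A.Adj a b) (h2 : A.Adj a c)
    (h3 : A.Adj b c) (h4 : ¬A.Adj a d) (h5 : ¬A.Adj b d) (h6 : ¬A.Adj c d) (h7 : a ≠ d)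
    (h8 : b ≠ d) (h9 : c ≠ d) : gK3P1.IsIndContained A := by
  apply TS_mk _ _ ![a, b, c, d]
  intro i j hij
  fin_cases i <;> fin_cases j <;> simp_all [gK3P1, gr, h1.ne, h2.ne, h3.ne]

/-- an embedding of graphs with the same number of vertices is an isomorphism -/
theorem TS_inv {n : ℕ} {H A : SimpleGraph (Fin n)} (h : H.IsIndContained A) : A.IsIndContained H := by
  obtain ⟨f⟩ := h
  have hb : Function.Bijective f := Finite.injective_iff_bijective.1 f.injective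
  obtain ⟨e, he⟩ : ∃ e : Fin n ≃ Fin n, ∀ x, e x = f x := ⟨Equiv.ofBijective f hb, fun x => rfl⟩
  refine ⟨⟨e.symm.toEmbedding, ?_⟩⟩
  intro a b
  show H.Adj (e.symm a) (e.symm b) ↔ A.Adj a b
  rw [← f.map_adj_iff, ← he, ← he, e.apply_symm_apply, e.apply_symm_apply]

theorem TS_T {W : Type} {A : SimpleGraph W} (h1 : ¬gK3.IsIndContained A) :
    ∀ a b c, A.Adj a b → A.Adj b c → A.Adj a c → False := fun _ _ _ x y z => h1 (TS_k3 x y z)

theorem TS_I {W : Type} {A : SimpleGraph W} (h1 : ¬gK3.IsIndContained Aᶜ) :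
    ∀ a b c, a ≠ b → b ≠ c → a ≠ c → ¬A.Adj a b → ¬A.Adj b c → ¬A.Adj a c → False := by
  intro a b c n1 n2 n3 x y z
  apply h1
  apply TS_k3 (a := a) (b := b) (c := c)
  · rw [SimpleGraph.compl_adj]; exact ⟨n1, x⟩
  · rw [SimpleGraph.compl_adj]; exact ⟨n2, y⟩
  · rw [SimpleGraph.compl_adj]; exact ⟨n3, z⟩

theorem TS_four {W : Type} {A : SimpleGraph W} (hA : Thr A)
    (hT : ∀ a b c, A.Adj a b → A.Adj b c → A.Adj a c → False)
    (hI : ∀ a b c, a ≠ b → b ≠ c → a ≠ c → ¬A.Adj a b → ¬A.Adj b c → ¬A.Adj a c → False)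
    {a b c d : W} (n1 : a ≠ b) (n2 : a ≠ c) (n3 : a ≠ d) (n4 : b ≠ c) (n5 : b ≠ d) (n6 : c ≠ d) :
    False := by
  have hs : ∀ x y, A.Adj x y → A.Adj y x := fun x y h => h.symm
  unfold Thr at hA
  by_cases e1 : A.Adj a b <;> by_cases e2 : A.Adj a c <;> by_cases e3 : A.Adj a d <;>
    by_cases e4 : A.Adj b c <;> by_cases e5 : A.Adj b d <;> by_cases e6 : A.Adj c d <;>
    grind

/-- TARGET -/
theorem thr_of {m : ℕ} (A : SimpleGraph (Fin m)) (h1 : ¬gP4.IsIndContained A)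
    (h2 : ¬gC4.IsIndContained A) (h3 : ¬g2P2.IsIndContained A) : Thr A := by
  intro a b c d x y z w n1 n2
  have hs : ∀ x y, A.Adj x y → A.Adj y x := fun x y h => h.symm
  have n3 : a ≠ d := by rintro rfl; exact z (hs _ _ y)
  have n4 : b ≠ c := by rintro rfl; exact w y
  by_cases e1 : A.Adj a d
  · by_cases e2 : A.Adj b c
    · exact h2 (TS_c4 x e2 y e1 z w n1 n2)
    · exact h1 (TS_p4 x.symm e1 y.symm e2 w z n2 n1 n4)
  · by_cases e2 : A.Adj b c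
    · exact h1 (TS_p4 x e2 y e1 z w n1 n2 n3)
    · exact h3 (TS_2p2 x y z e1 e2 w n1 n3 n4 n2)

/-- TARGET -/
theorem thr_compl {m : ℕ} (A : SimpleGraph (Fin m)) (hA : Thr A) : Thr Aᶜ := by
  intro a b c d x y z w n1 n2
  rw [SimpleGraph.compl_adj] at x y z w
  have z' : A.Adj a c := by
    by_contra h
    exact z ⟨n1, h⟩
  have w' : A.Adj b d := by
    by_contra h
    exact w ⟨n2, h⟩
  exact hA a c b d z' w' x.2 y.2 x.1 y.1

theorem TS_k3paw : gK3.IsIndContained gPaw := by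
  apply TS_mk _ _ ![0, 1, 2]
  intro i j hij
  fin_cases i <;> fin_cases j <;> simp_all [gK3, gPaw, gr]

theorem TS_34 : gP3.IsIndContained gP4 := by
  apply TS_mk _ _ ![0, 1, 2]
  intro i j hij
  fin_cases i <;> fin_cases j <;> simp_all [gP3, gP4, gr]

theorem TS_14 : (gr 3 [(0,1)]).IsIndContained gP4 := by
  apply TS_mk _ _ ![0, 1, 3]
  intro i j hij
  fin_cases i <;> fin_cases j <;> simp_all [gP4, gr]

theorem TS_five {W : Type} {A : SimpleGraph W}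
    (hT : ∀ a b c, A.Adj a b → A.Adj b c → A.Adj a c → False)
    (hI : ∀ a b c, a ≠ b → b ≠ c → a ≠ c → ¬A.Adj a b → ¬A.Adj b c → ¬A.Adj a c → False)
    (h5 : ¬gC5.IsIndContained A)
    {a b c d e : W} (n1 : a ≠ b) (n2 : a ≠ c) (n3 : a ≠ d) (n4 : a ≠ e) (n5 : b ≠ c) (n6 : b ≠ d)
    (n7 : b ≠ e) (n8 : c ≠ d) (n9 : c ≠ e) (n10 : d ≠ e) : False := by
  have hs : ∀ x y, A.Adj x y → A.Adj y x := fun x y h => h.symm
  -- exactly two neighbours `b`, `c` of `a`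
  have key : ∀ a b c d e : W, a ≠ b → a ≠ c → a ≠ d → a ≠ e → b ≠ c → b ≠ d → b ≠ e → c ≠ d →
      c ≠ e → d ≠ e → A.Adj a b → A.Adj a c → ¬A.Adj a d → ¬A.Adj a e → False := by
    intro a b c d e n1 n2 n3 n4 n5 n6 n7 n8 n9 n10 x1 x2 x3 x4
    have hbc : ¬A.Adj b c := fun h => hT _ _ _ x1 h x2
    have hde : A.Adj d e := by
      by_contra h
      exact hI a d e n3 n10 n4 x3 h x4
    by_cases y1 : A.Adj b d
    · have y2 : ¬A.Adj b e := fun h => hT _ _ _ y1 hde h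
      have y3 : A.Adj c e := by
        by_contra h
        exact hI b c e n5 n9 n7 hbc h y2
      have y4 : ¬A.Adj c d := fun h => hT _ _ _ h hde y3
      exact h5 (TS_c5 (a := a) (b := b) (c := d) (d := e) (e := c) x1 y1 hde y3.symm x2 x3 x4 y2
        hbc (fun h => y4 h.symm) n3 n4 n7 n5 n8.symm)
    · have y2 : A.Adj b e := by
        by_contra h
        have z1 : A.Adj c d := by
          by_contra h'
          exact hI b c d n5 n8 n6 hbc h' y1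
        have z2 : A.Adj c e := by
          by_contra h'
          exact hI b c e n5 n9 n7 hbc h' h
        exact hT _ _ _ z1 hde z2
      have y3 : A.Adj c d := by
        by_contra h
        exact hI b c d n5 n8 n6 hbc h y1
      have y4 : ¬A.Adj c e := fun h => hT _ _ _ y3 hde h
      exact h5 (TS_c5 (a := a) (b := b) (c := e) (d := d) (e := c) x1 y2 hde.symm y3.symm x2 x4 x3 y1
        hbc (fun h => y4 h.symm) n4 n3 n6 n5 n9.symm)
  have h3 : ∀ a b c d : W, b ≠ c → b ≠ d → c ≠ d → A.Adj a b → A.Adj a c → A.Adj a d → False := by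
    intro a b c d n1 n2 n3 x y z
    exact hI b c d n1 n3 n2 (fun h => hT _ _ _ x h y) (fun h => hT _ _ _ y h z)
      (fun h => hT _ _ _ x h z)
  have h3' : ∀ a b c d : W, a ≠ b → a ≠ c → a ≠ d → b ≠ c → b ≠ d → c ≠ d → ¬A.Adj a b →
      ¬A.Adj a c → ¬A.Adj a d → False := by
    intro a b c d m1 m2 m3 n1 n2 n3 x y z
    have u1 : A.Adj b c := by
      by_contra h
      exact hI a b c m1 n1 m2 x h y
    have u2 : A.Adj c d := by
      by_contra h
      exact hI a c d m2 n3 m3 y h z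
    have u3 : A.Adj b d := by
      by_contra h
      exact hI a b d m1 n2 m3 x h z
    exact hT _ _ _ u1 u2 u3
  by_cases e1 : A.Adj a b <;> by_cases e2 : A.Adj a c <;> by_cases e3 : A.Adj a d <;>
    by_cases e4 : A.Adj a e
  · exact h3 a b c d n5 n6 n8 e1 e2 e3
  · exact h3 a b c d n5 n6 n8 e1 e2 e3
  · exact h3 a b c e n5 n7 n9 e1 e2 e4
  · exact key a b c d e n1 n2 n3 n4 n5 n6 n7 n8 n9 n10 e1 e2 e3 e4
  · exact h3 a b d e n6 n7 n10 e1 e3 e4
  · exact key a b d c e n1 n3 n2 n4 n6 n5 n7 n8.symm n10 n9 e1 e3 e2 e4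
  · exact key a b e c d n1 n4 n2 n3 n7 n5 n6 n9.symm n10.symm n8 e1 e4 e2 e3
  · exact h3' a c d e n2 n3 n4 n8 n9 n10 e2 e3 e4
  · exact h3 a c d e n8 n9 n10 e2 e3 e4
  · exact key a c d b e n2 n3 n1 n4 n8 n5.symm n9 n6.symm n10 n7 e2 e3 e1 e4
  · exact key a c e b d n2 n4 n1 n3 n9 n5.symm n8 n7.symm n10.symm n6 e2 e4 e1 e3
  · exact h3' a b d e n1 n3 n4 n6 n7 n10 e1 e3 e4
  · exact key a d e b c n3 n4 n1 n2 n10 n6.symm n8.symm n7.symm n9.symm n5 e3 e4 e1 e2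
  · exact h3' a b c e n1 n2 n4 n5 n7 n9 e1 e2 e4
  · exact h3' a b c d n1 n2 n3 n5 n6 n8 e1 e2 e3
  · exact h3' a b c d n1 n2 n3 n5 n6 n8 e1 e2 e3

theorem TS_le2 {m : ℕ} (hm : m ≤ 2) (A : SimpleGraph (Fin m)) : A.IsIndContained gP3 := by
  match m, hm, A with
  | 0, _, A => exact TS_mk A gP3 (fun i => i.elim0) (fun i => i.elim0)
  | 1, _, A => exact TS_mk A gP3 (fun _ => 0) (fun i j hij => by omega)
  | 2, _, A =>
    by_cases h : A.Adj 0 1
    · apply TS_mk A gP3 ![0, 1]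
      intro i j hij
      fin_cases i <;> fin_cases j <;> simp_all [gP3, gr]
    · apply TS_mk A gP3 ![0, 2]
      intro i j hij
      fin_cases i <;> fin_cases j <;> simp_all [gP3, gr]

theorem TS_eq3 {A : SimpleGraph (Fin 3)}
    (hT : ∀ a b c, A.Adj a b → A.Adj b c → A.Adj a c → False)
    (hI : ∀ a b c, a ≠ b → b ≠ c → a ≠ c → ¬A.Adj a b → ¬A.Adj b c → ¬A.Adj a c → False) :
    (∃ a b c, A.Adj a b ∧ A.Adj b c ∧ ¬A.Adj a c ∧ a ≠ c) ∨
    (∃ a b c, A.Adj a b ∧ ¬A.Adj b c ∧ ¬A.Adj a c ∧ a ≠ c ∧ b ≠ c) := by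
  have m1 : (0 : Fin 3) ≠ 1 := by decide
  have m2 : (1 : Fin 3) ≠ 2 := by decide
  have m3 : (0 : Fin 3) ≠ 2 := by decide
  by_cases e1 : A.Adj 0 1 <;> by_cases e2 : A.Adj 1 2 <;> by_cases e3 : A.Adj 0 2
  · exact absurd (hT _ _ _ e1 e2 e3) id
  · exact Or.inl ⟨0, 1, 2, e1, e2, e3, m3⟩
  · exact Or.inl ⟨1, 0, 2, e1.symm, e3, e2, m2⟩
  · exact Or.inr ⟨0, 1, 2, e1, e2, e3, m3, m2⟩
  · exact Or.inl ⟨0, 2, 1, e3, e2.symm, e1, m1⟩
  · exact Or.inr ⟨1, 2, 0, e2, fun h => e3 h.symm, fun h => e1 h.symm, m1.symm, m3.symm⟩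
  · exact Or.inr ⟨0, 2, 1, e3, fun h => e2 h.symm, e1, m1, m2.symm⟩
  · exact absurd (hI 0 1 2 m1 m2 m3 e1 e2 e3) id

/-- TARGET -/
theorem thr_small {m : ℕ} (A : SimpleGraph (Fin m)) (hA : Thr A) (h1 : ¬gK3.IsIndContained A)
    (h2 : ¬gK3.IsIndContained Aᶜ) : A.IsIndContained gP3 ∨ Aᶜ.IsIndContained gP3 := by
  have hT := TS_T h1
  have hI := TS_I h2
  by_cases hm4 : 4 ≤ m
  · exfalso
    exact TS_four hA hT hI (a := ⟨0, by omega⟩) (b := ⟨1, by omega⟩) (c := ⟨2, by omega⟩)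
      (d := ⟨3, by omega⟩) (by simp) (by simp) (by simp) (by simp) (by simp) (by simp)
  · by_cases hm2 : m ≤ 2
    · exact Or.inl (TS_le2 hm2 A)
    · obtain rfl : m = 3 := by omega
      rcases TS_eq3 hT hI with ⟨a, b, c, x, y, z, w⟩ | ⟨a, b, c, x, y, z, w, v⟩
      · exact Or.inl (TS_inv (TS_p3 x y z w))
      · right
        apply TS_inv
        apply TS_p3 (a := a) (b := c) (c := b)
        · rw [SimpleGraph.compl_adj]; exact ⟨w, z⟩
        · rw [SimpleGraph.compl_adj]; exact ⟨v.symm, fun h => y h.symm⟩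
        · rw [SimpleGraph.compl_adj]; exact fun h => h.2 x
        · exact x.ne

/-- TARGET -/
theorem p4_list {n : ℕ} (B : SimpleGraph (Fin n)) (h1 : ¬gK3.IsIndContained B)
    (h2 : ¬gC4.IsIndContained B) (h3 : ¬gC5.IsIndContained B) (h4 : ¬gK3.IsIndContained Bᶜ)
    (h5 : ¬gC4.IsIndContained Bᶜ) : B.IsIndContained gP4 := by
  have hT := TS_T h1
  have hI := TS_I h4
  have h34 := TS_34
  have h14 := TS_14
  by_cases hm5 : 5 ≤ n
  · exfalso
    exact TS_five hT hI h3 (a := ⟨0, by omega⟩) (b := ⟨1, by omega⟩) (c := ⟨2, by omega⟩)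
      (d := ⟨3, by omega⟩) (e := ⟨4, by omega⟩) (by simp) (by simp) (by simp) (by simp) (by simp)
      (by simp) (by simp) (by simp) (by simp) (by simp)
  · by_cases hm2 : n ≤ 2
    · exact (TS_le2 hm2 B).trans h34
    · by_cases hm3 : n = 3
      · subst hm3
        rcases TS_eq3 hT hI with ⟨a, b, c, x, y, z, w⟩ | ⟨a, b, c, x, y, z, w, v⟩
        · exact (TS_inv (TS_p3 x y z w)).trans h34
        · exact (TS_inv (TS_one x y z w v)).trans h14
      · obtain rfl : n = 4 := by omega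
        apply TS_inv
        by_contra hcon
        have hP : ∀ a b c d, B.Adj a b → B.Adj b c → B.Adj c d → ¬B.Adj a d → ¬B.Adj a c →
            ¬B.Adj b d → a ≠ c → b ≠ d → a ≠ d → False :=
          fun a b c d x1 x2 x3 x4 x5 x6 x7 x8 x9 => hcon (TS_p4 x1 x2 x3 x4 x5 x6 x7 x8 x9)
        have hC : ∀ a b c d, B.Adj a b → B.Adj b c → B.Adj c d → B.Adj a d → ¬B.Adj a c →
            ¬B.Adj b d → a ≠ c → b ≠ d → False :=
          fun a b c d x1 x2 x3 x4 x5 x6 x7 x8 => h2 (TS_c4 x1 x2 x3 x4 x5 x6 x7 x8)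
        have hD : ∀ a b c d, a ≠ b → b ≠ c → c ≠ d → a ≠ d → ¬B.Adj a b → ¬B.Adj b c →
            ¬B.Adj c d → ¬B.Adj a d → B.Adj a c → B.Adj b d → False := by
          intro a b c d n1 n2 n3 n4 x1 x2 x3 x4 x5 x6
          apply h5
          apply TS_c4 (a := a) (b := b) (c := c) (d := d)
          · rw [SimpleGraph.compl_adj]; exact ⟨n1, x1⟩
          · rw [SimpleGraph.compl_adj]; exact ⟨n2, x2⟩
          · rw [SimpleGraph.compl_adj]; exact ⟨n3, x3⟩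
          · rw [SimpleGraph.compl_adj]; exact ⟨n4, x4⟩
          · rw [SimpleGraph.compl_adj]; exact fun h => h.2 x5
          · rw [SimpleGraph.compl_adj]; exact fun h => h.2 x6
          · exact x5.ne
          · exact x6.ne
        have hs : ∀ x y, B.Adj x y → B.Adj y x := fun x y h => h.symm
        have hcases : ∀ a b c d : Fin 4, a ≠ b → a ≠ c → a ≠ d → b ≠ c → b ≠ d → c ≠ d → False := by
          intro a b c d n1 n2 n3 n4 n5 n6
          clear hcon h1 h2 h3 h4 h5 h34 h14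
          by_cases e1 : B.Adj a b <;> by_cases e2 : B.Adj a c <;> by_cases e3 : B.Adj a d <;>
            by_cases e4 : B.Adj b c <;> by_cases e5 : B.Adj b d <;> by_cases e6 : B.Adj c d <;>
            grind
        exact hcases 0 1 2 3 (by decide) (by decide) (by decide) (by decide) (by decide) (by decide)

/-- TARGET -/
theorem thr_paw {m : ℕ} (A : SimpleGraph (Fin m)) (hA : Thr A) (h1 : gK3.IsIndContained A)
    (h2 : ¬gK3.IsIndContained Aᶜ) : A.IsIndContained gPaw ∨ gK4.IsIndContained A ∨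
    gDia.IsIndContained A ∨ gK3P1.IsIndContained A := by
  by_contra hcon
  rw [not_or, not_or, not_or] at hcon
  obtain ⟨c1, c2, c3, c4⟩ := hcon
  have hI := TS_I h2
  obtain ⟨f⟩ := h1
  obtain ⟨x, hx⟩ : ∃ x, x = f 0 := ⟨_, rfl⟩
  obtain ⟨y, hy⟩ : ∃ y, y = f 1 := ⟨_, rfl⟩
  obtain ⟨z, hz⟩ : ∃ z, z = f 2 := ⟨_, rfl⟩
  have xy : A.Adj x y := by
    rw [hx, hy, f.map_adj_iff]
    simp [gK3, gr]
  have yz : A.Adj y z := by
    rw [hy, hz, f.map_adj_iff]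
    simp [gK3, gr]
  have xz : A.Adj x z := by
    rw [hx, hz, f.map_adj_iff]
    simp [gK3, gr]
  have hs : ∀ x y, A.Adj x y → A.Adj y x := fun x y h => h.symm
  have hK4 : ∀ a b c d, A.Adj a b → A.Adj a c → A.Adj a d → A.Adj b c → A.Adj b d → A.Adj c d → False :=
    fun a b c d y1 y2 y3 y4 y5 y6 => c2 (TS_k4 y1 y2 y3 y4 y5 y6)
  have hDi : ∀ a b c d, A.Adj a b → A.Adj a c → A.Adj b c → A.Adj a d → A.Adj b d → ¬A.Adj c d →
      c ≠ d → False := fun a b c d y1 y2 y3 y4 y5 y6 y7 => c3 (TS_dia y1 y2 y3 y4 y5 y6 y7)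
  have hKP : ∀ a b c d, A.Adj a b → A.Adj a c → A.Adj b c → ¬A.Adj a d → ¬A.Adj b d → ¬A.Adj c d →
      a ≠ d → b ≠ d → c ≠ d → False :=
    fun a b c d y1 y2 y3 y4 y5 y6 y7 y8 y9 => c4 (TS_k3p1 y1 y2 y3 y4 y5 y6 y7 y8 y9)
  have hone : ∀ w, w ≠ x → w ≠ y → w ≠ z → (A.Adj x w ∧ ¬A.Adj y w ∧ ¬A.Adj z w) ∨
      (¬A.Adj x w ∧ A.Adj y w ∧ ¬A.Adj z w) ∨ (¬A.Adj x w ∧ ¬A.Adj y w ∧ A.Adj z w) := by
    intro w w1 w2 w3
    clear hI hA c1 c2 c3 c4 h2
    clear hx hy hz f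
    by_cases e1 : A.Adj x w <;> by_cases e2 : A.Adj y w <;> by_cases e3 : A.Adj z w <;> grind
  have hm5 : ¬5 ≤ m := by
    intro hm
    obtain ⟨w, w', hne, hw1, hw2, hw3, hw1', hw2', hw3'⟩ : ∃ w w' : Fin m, w ≠ w' ∧ w ≠ x ∧ w ≠ y ∧
        w ≠ z ∧ w' ≠ x ∧ w' ≠ y ∧ w' ≠ z := by
      have h3 : 1 < (Finset.univ \ {x, y, z} : Finset (Fin m)).card := by
        have h4 := Finset.le_card_sdiff ({x, y, z} : Finset (Fin m)) Finset.univ
        have h5 : ({x, y, z} : Finset (Fin m)).card ≤ 3 := Finset.card_le_three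
        rw [Finset.card_univ, Fintype.card_fin] at h4
        omega
      obtain ⟨w, hw, w', hw', hne⟩ := Finset.one_lt_card.1 h3
      simp only [Finset.mem_sdiff, Finset.mem_univ, true_and, Finset.mem_insert,
        Finset.mem_singleton, not_or] at hw hw'
      exact ⟨w, w', hne, hw.1, hw.2.1, hw.2.2, hw'.1, hw'.2.1, hw'.2.2⟩
    have k1 := hone w hw1 hw2 hw3
    have k2 := hone w' hw1' hw2' hw3'
    unfold Thr at hA
    clear hone hK4 hDi hKP c1 c2 c3 c4 h2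
    clear hx hy hz f
    by_cases e : A.Adj w w'
    · rcases k1 with ⟨u1, u2, u3⟩ | ⟨u1, u2, u3⟩ | ⟨u1, u2, u3⟩ <;>
        rcases k2 with ⟨v1, v2, v3⟩ | ⟨v1, v2, v3⟩ | ⟨v1, v2, v3⟩ <;> grind
    · rcases k1 with ⟨u1, u2, u3⟩ | ⟨u1, u2, u3⟩ | ⟨u1, u2, u3⟩ <;>
        rcases k2 with ⟨v1, v2, v3⟩ | ⟨v1, v2, v3⟩ | ⟨v1, v2, v3⟩ <;> grind
  have hm3 : 3 ≤ m := by
    have := Fintype.card_le_of_injective f f.injective
    simpa using this
  by_cases hm : m = 3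
  · subst hm
    have h3 : gK3.IsIndContained A := TS_k3 xy yz xz
    exact c1 ((TS_inv h3).trans TS_k3paw)
  · obtain rfl : m = 4 := by omega
    apply c1
    apply TS_inv
    obtain ⟨w, hw1, hw2, hw3⟩ : ∃ w : Fin 4, w ≠ x ∧ w ≠ y ∧ w ≠ z := by
      have h3 : 0 < (Finset.univ \ {x, y, z} : Finset (Fin 4)).card := by
        have h4 := Finset.le_card_sdiff ({x, y, z} : Finset (Fin 4)) Finset.univ
        have h5 : ({x, y, z} : Finset (Fin 4)).card ≤ 3 := Finset.card_le_three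
        rw [Finset.card_univ, Fintype.card_fin] at h4
        omega
      obtain ⟨w, hw⟩ := Finset.card_pos.1 h3
      simp only [Finset.mem_sdiff, Finset.mem_univ, true_and, Finset.mem_insert,
        Finset.mem_singleton, not_or] at hw
      exact ⟨w, hw.1, hw.2.1, hw.2.2⟩
    rcases hone w hw1 hw2 hw3 with ⟨u1, u2, u3⟩ | ⟨u1, u2, u3⟩ | ⟨u1, u2, u3⟩
    · exact TS_paw xy xz yz u1 u2 u3 hw2.symm hw3.symm
    · exact TS_paw xy.symm yz xz u2 u1 u3 hw1.symm hw3.symm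
    · exact TS_paw xz.symm yz.symm xy u3 u1 u2 hw1.symm hw2.symm

end ClThr

end Pool.Agent.Helper856.Cw
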