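import Pool.Agent.Helper856.Pair.Defs
import Pool.Agent.Helper856.Pair.ClE
import Pool.Agent.Helper856.Pair.ClThr
import Pool.Agent.Helper856.Pair.ClStar
import Pool.Agent.Helper856.Lcw.GBase

open Classical SimpleGraph

namespace Pool.Agent.Helper856.Cw

open Pool.Agent.Helper856.Lcw (gr K13_3P1 K13_P2 P1_S113 S122)
open ClE (e1 e2 e3 e4 e5 e6 e7)
open ClThr (thr_small p4_list thr_of thr_compl thr_paw)
open ClStar (star_struct st_mono st_indep)

namespace ClMain

variable {V : Type} {G : SimpleGraph V} {S T : Finset V} {k l : ℕ}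

theorem q_mk {a b : ℕ} {X : SimpleGraph (Fin a)} {Y : SimpleGraph (Fin b)} (f : Fin a → Fin b)
    (hf : ∀ u v, f u = f v → u = v) (h : ∀ u v, Y.Adj (f u) (f v) ↔ X.Adj u v) :
    X.IsIndContained Y := ⟨⟨⟨f, fun u v => hf u v⟩, fun {u v} => h u v⟩⟩

theorem q_cc {a b : ℕ} {X : SimpleGraph (Fin a)} {Y : SimpleGraph (Fin b)}
    (h : X.IsIndContained Y) : Xᶜ.IsIndContained Yᶜ := by
  obtain ⟨e⟩ := h
  refine q_mk e (fun u v huv => e.injective huv) ?_
  intro u v
  rw [SimpleGraph.compl_adj, SimpleGraph.compl_adj, e.map_adj_iff, ne_eq, e.injective.eq_iff]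

theorem q1 : (gK4).IsIndContained (g4P1ᶜ) := by
  refine q_mk ![0,1,2,3] (by decide) ?_
  simp only [gr, gK4, g4P1, SimpleGraph.compl_adj, SimpleGraph.fromRel_adj]
  decide

theorem q2 : (gDia).IsIndContained (g2P1P2ᶜ) := by
  refine q_mk ![2,3,0,1] (by decide) ?_
  simp only [gr, gDia, g2P1P2, SimpleGraph.compl_adj, SimpleGraph.fromRel_adj]
  decide

theorem q3 : (gC4).IsIndContained (g2P2ᶜ) := by
  refine q_mk ![0,2,1,3] (by decide) ?_
  simp only [gr, gC4, g2P2, SimpleGraph.compl_adj, SimpleGraph.fromRel_adj]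
  decide

theorem q4 : (gK3).IsIndContained (g3P1ᶜ) := by
  refine q_mk ![0,1,2] (by decide) ?_
  simp only [gr, gK3, g3P1, SimpleGraph.compl_adj, SimpleGraph.fromRel_adj]
  decide

theorem q5 : (g3P1).IsIndContained (gK3ᶜ) := by
  refine q_mk ![0,1,2] (by decide) ?_
  simp only [gr, g3P1, gK3, SimpleGraph.compl_adj, SimpleGraph.fromRel_adj]
  decide

theorem q6 : (gK14).IsIndContained (ST 4 0) := by
  refine q_mk ![0,1,2,3,4] (by decide) ?_
  simp only [gr, gK14, ST, SimpleGraph.fromRel_adj]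
  decide

theorem q7 : ((ST 0 2)ᶜ).IsIndContained (gPaw) := by
  refine q_mk ![0,1,2] (by decide) ?_
  simp only [gr, ST, gPaw, SimpleGraph.compl_adj, SimpleGraph.fromRel_adj]
  decide

theorem q8 : (g4P1).IsIndContained (ST 0 3) := by
  refine q_mk ![0,1,2,3] (by decide) ?_
  simp only [gr, g4P1, ST, SimpleGraph.fromRel_adj]
  decide

theorem q9 : (ST 0 3).IsIndContained (g2P1P3) := by
  refine q_mk ![0,2,3,4] (by decide) ?_
  simp only [gr, ST, g2P1P3, SimpleGraph.fromRel_adj]
  decide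

theorem q10 : (g5P1).IsIndContained (ST 0 4) := by
  refine q_mk ![0,1,2,3,4] (by decide) ?_
  simp only [gr, g5P1, ST, SimpleGraph.fromRel_adj]
  decide

theorem q11 : (gP1P3ᶜ).IsIndContained (gPaw) := by
  refine q_mk ![1,3,2,0] (by decide) ?_
  simp only [gr, gP1P3, gPaw, SimpleGraph.compl_adj, SimpleGraph.fromRel_adj]
  decide

theorem q12 : ((ST 1 2)ᶜ).IsIndContained (gDia) := by
  refine q_mk ![2,3,0,1] (by decide) ?_
  simp only [gr, ST, gDia, SimpleGraph.compl_adj, SimpleGraph.fromRel_adj]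
  decide

theorem q13 : (g2P1P2).IsIndContained (ST 1 2) := by
  refine q_mk ![0,1,2,3] (by decide) ?_
  simp only [gr, g2P1P2, ST, SimpleGraph.fromRel_adj]
  decide

theorem q14 : (g3P1P2).IsIndContained (ST 1 3) := by
  refine q_mk ![0,1,2,3,4] (by decide) ?_
  simp only [gr, g3P1P2, ST, SimpleGraph.fromRel_adj]
  decide

theorem q15 : (ST 1 3).IsIndContained (g3P1P2) := by
  refine q_mk ![0,1,2,3,4] (by decide) ?_
  simp only [gr, ST, g3P1P2, SimpleGraph.fromRel_adj]
  decide

theorem q16 : (ST 1 3).IsIndContained (K13_P2) := by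
  refine q_mk ![4,5,1,2,3] (by decide) ?_
  simp only [gr, ST, K13_P2, SimpleGraph.fromRel_adj]
  decide

theorem q17 : (g2P1P2ᶜ).IsIndContained (gDia) := by
  refine q_mk ![2,3,0,1] (by decide) ?_
  simp only [gr, g2P1P2, gDia, SimpleGraph.compl_adj, SimpleGraph.fromRel_adj]
  decide

theorem q18 : (gr 6 [(0,1)]).IsIndContained (ST 1 4) := by
  refine q_mk ![0,1,2,3,4,5] (by decide) ?_
  simp only [gr, ST, SimpleGraph.fromRel_adj]
  decide

theorem q19 : ((ST 2 1)ᶜ).IsIndContained (gPaw) := by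
  refine q_mk ![3,1,2,0] (by decide) ?_
  simp only [gr, ST, gPaw, SimpleGraph.compl_adj, SimpleGraph.fromRel_adj]
  decide

theorem q20 : (ST 2 2).IsIndContained (g2P1P3) := by
  refine q_mk ![1,0,2,3,4] (by decide) ?_
  simp only [gr, ST, g2P1P3, SimpleGraph.fromRel_adj]
  decide

theorem q21 : (ST 3 3).IsIndContained (K13_3P1) := by
  refine q_mk ![0,1,2,3,4,5,6] (by decide) ?_
  simp only [gr, ST, K13_3P1, SimpleGraph.fromRel_adj]
  decide

theorem q22 : (gP1P3).IsIndContained (g2P1P3) := by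
  refine q_mk ![0,1,2,3] (by decide) ?_
  simp only [gr, gP1P3, g2P1P3, SimpleGraph.fromRel_adj]
  decide

theorem q23 : (gK13).IsIndContained (ST 3 0) := by
  refine q_mk ![0,1,2,3] (by decide) ?_
  simp only [gr, gK13, ST, SimpleGraph.fromRel_adj]
  decide

theorem q24 : ((ST 3 0)ᶜ).IsIndContained (gK3P1) := by
  refine q_mk ![3,0,1,2] (by decide) ?_
  simp only [gr, ST, gK3P1, SimpleGraph.compl_adj, SimpleGraph.fromRel_adj]
  decide

theorem q25 : (g4P1).IsIndContained (g2P1P3) := by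
  refine q_mk ![0,2,3,4] (by decide) ?_
  simp only [gr, g4P1, g2P1P3, SimpleGraph.fromRel_adj]
  decide

theorem q26 : (g3P1).IsIndContained (gP1P3) := by
  refine q_mk ![0,2,3] (by decide) ?_
  simp only [gr, g3P1, gP1P3, SimpleGraph.fromRel_adj]
  decide


theorem q_small_ind {a : ℕ} {X : SimpleGraph (Fin a)} (h : g3P1.IsIndContained X)
    (hX : ∀ u v w : Fin a, u ≠ v → v ≠ w → u ≠ w → ¬X.Adj u v → ¬X.Adj v w → ¬X.Adj u w → False) :
    False := by
  obtain ⟨e⟩ := h
  have hn : ∀ i j : Fin 3, ¬X.Adj (e i) (e j) := by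
    intro i j hij
    rw [e.map_adj_iff] at hij
    simp [g3P1, gr] at hij
  refine hX (e 0) (e 1) (e 2) ?_ ?_ ?_ (hn _ _) (hn _ _) (hn _ _) <;>
    · intro h; have := e.injective h; revert this; decide

theorem q_e00 : ¬g3P1.IsIndContained (ST 0 0) := fun h => q_small_ind h (by
  simp only [ST, SimpleGraph.fromRel_adj]; decide)
theorem q_e01 : ¬g3P1.IsIndContained (ST 0 1) := fun h => q_small_ind h (by
  simp only [ST, SimpleGraph.fromRel_adj]; decide)
theorem q_e10 : ¬g3P1.IsIndContained (ST 1 0) := fun h => q_small_ind h (by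
  simp only [ST, SimpleGraph.fromRel_adj]; decide)
theorem q_e11 : ¬g3P1.IsIndContained (ST 1 1) := fun h => q_small_ind h (by
  simp only [ST, SimpleGraph.fromRel_adj]; decide)
theorem q_e20 : ¬g3P1.IsIndContained (ST 2 0) := fun h => q_small_ind h (by
  simp only [ST, SimpleGraph.fromRel_adj]; decide)

theorem q_adj_e {k : ℕ} (u v : Fin k) : ¬(gr k []).Adj u v := by
  simp [gr]

theorem q_bot_ge {n k : ℕ} {B : SimpleGraph (Fin n)} (hB : B = ⊥) (hk : k ≤ n) :
    (gr k []).IsIndContained B := by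
  subst hB
  refine q_mk (Fin.castLE hk) (fun u v h => by simpa using h) ?_
  intro u v
  simp [q_adj_e]

theorem q_bot_le {n k : ℕ} {B : SimpleGraph (Fin n)} (hB : B = ⊥) (hk : n ≤ k) :
    B.IsIndContained (gr k []) := by
  subst hB
  refine q_mk (Fin.castLE hk) (fun u v h => by simpa using h) ?_
  intro u v
  simp [q_adj_e]

theorem q_st0_bot {m s : ℕ} {M : SimpleGraph (Fin m)} (h : M.IsIndContained (ST 0 s)) : M = ⊥ := by
  obtain ⟨e⟩ := h
  ext u v
  rw [← e.map_adj_iff]
  simp only [ST, SimpleGraph.fromRel_adj, SimpleGraph.bot_adj, iff_false]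
  rintro ⟨-, h | h⟩ <;> omega

/-- TARGET -/
theorem cl_main {m n : ℕ} (A : SimpleGraph (Fin m)) (B : SimpleGraph (Fin n)) (hA : Thr A)
    (h3 : gK3.IsIndContained A) (k1 : Nok A B) (k2 : Nok B A) (k3 : Nok Aᶜ Bᶜ) (k4 : Nok Bᶜ Aᶜ) :
    Cond A B := by
  have hBip : BipL B := k1.tri h3
  by_cases hP : A.IsIndContained gPaw
  · exact Or.inl (Or.inr (Or.inr (Or.inr (Or.inl ⟨hP, hBip⟩))))
  have item2 : B.IsIndContained gP4 → Cond A B := fun h =>
    Or.inr (Or.inl (Or.inr (Or.inl ⟨h, hA⟩)))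
  have item4 : B.IsIndContained gP1P3 → BipL Aᶜ → Cond A B := fun h h' =>
    Or.inr (Or.inr (Or.inr (Or.inr (Or.inr (Or.inr (Or.inl ⟨(q_cc h).trans q11, h'⟩))))))
  by_cases hC : gK3.IsIndContained Aᶜ ∨ gK14.IsIndContained Aᶜ
  · have c1 : ¬CycX B := fun h => k1.tree ⟨Or.inl h3, h⟩
    have c2 : CycX Aᶜ := by
      rcases hC with h | h
      · exact Or.inl h
      · exact Or.inr (Or.inr (Or.inr h))
    have c3 : ¬CycX Bᶜ := fun h => k3.tree ⟨c2, h⟩
    refine item2 (p4_list B (fun h => c1 (Or.inl h)) (fun h => c1 (Or.inr (Or.inl h)))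
      (fun h => c1 (Or.inr (Or.inr (Or.inl h)))) (fun h => c3 (Or.inl h))
      (fun h => c3 (Or.inr (Or.inl h))))
  push Not at hC
  obtain ⟨hC3, hC14⟩ := hC
  have hm : 0 < m := by
    obtain ⟨e⟩ := h3
    exact Nat.pos_of_ne_zero (fun h => by subst h; exact (e 0).elim0)
  obtain ⟨r, s, ⟨e⟩⟩ := star_struct Aᶜ hm (thr_compl A hA) hC3
  have hMS : Aᶜ.IsIndContained (ST r s) := ⟨e.toEmbedding⟩
  have hSM : (ST r s).IsIndContained Aᶜ := ⟨e.symm.toEmbedding⟩
  have hAS : A.IsIndContained (ST r s)ᶜ := by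
    have := q_cc hMS
    rwa [compl_compl] at this
  have hXA : ∀ {k : ℕ} {X : SimpleGraph (Fin k)}, X.IsIndContained Aᶜ → Xᶜ.IsIndContained A := by
    intro k X h
    have := q_cc h
    rwa [compl_compl] at this
  have hr : r ≤ 3 := by
    by_contra hr
    exact hC14 ((q6.trans (st_mono (by omega) (Nat.zero_le s))).trans hSM)
  have h3S : g3P1.IsIndContained (ST r s) := (q5.trans (q_cc h3)).trans hMS
  -- consequences
  have ca : g4P1.IsIndContained Aᶜ → ¬gK13.IsIndContained B ∧ ¬g2P2.IsIndContained B ∧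
      ¬gP1P4.IsIndContained B ∧ ¬g3P1P2.IsIndContained B := by
    intro h
    have h4 : gK4.IsIndContained A := q1.trans (hXA h)
    exact ⟨fun h' => k2.line ⟨h', Or.inl h4⟩, fun h' => k1.perm ⟨h4, h'⟩,
      fun h' => k1.k4 ⟨h4, Or.inl h'⟩, fun h' => k1.k4 ⟨h4, Or.inr h'⟩⟩
  have cb : g2P1P2.IsIndContained Aᶜ → ¬gK13.IsIndContained B ∧ ¬g5P1.IsIndContained B := by
    intro h
    have h4 : gDia.IsIndContained A := q2.trans (hXA h)
    exact ⟨fun h' => k2.line ⟨h', Or.inr (Or.inl h4)⟩, fun h' => k1.dia ⟨h4, h'⟩⟩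
  have cc : gK13.IsIndContained Aᶜ → ¬g4P1.IsIndContained B ∧ ¬g2P1P2.IsIndContained B ∧
      ¬g2P2.IsIndContained B := by
    intro h
    exact ⟨fun h' => k3.line ⟨h, Or.inl (q1.trans (q_cc h'))⟩,
      fun h' => k3.line ⟨h, Or.inr (Or.inl (q2.trans (q_cc h')))⟩,
      fun h' => k3.line ⟨h, Or.inr (Or.inr (q3.trans (q_cc h')))⟩⟩
  have cd : g3P1P2.IsIndContained Aᶜ → ¬g4P1.IsIndContained B := by
    intro h h'
    exact k4.k4 ⟨q1.trans (q_cc h'), Or.inr h⟩
  have ce : g5P1.IsIndContained Aᶜ → ¬g2P1P2.IsIndContained B := by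
    intro h h'
    exact k4.dia ⟨q2.trans (q_cc h'), h⟩
  have cf : (gr 6 [(0,1)]).IsIndContained Aᶜ → ¬g3P1.IsIndContained B := by
    intro h h'
    exact e7 (k4.tri (q4.trans (q_cc h'))) h
  have key1 : g4P1.IsIndContained Aᶜ → B = ⊥ ∨ B.IsIndContained gP4 ∨
      B.IsIndContained g2P1P3 := by
    intro h
    obtain ⟨h1, h2, h4, h5⟩ := ca h
    exact e1 hBip h1 h2 h4 h5
  have key2 : g4P1.IsIndContained Aᶜ → g2P1P2.IsIndContained Aᶜ → B.IsIndContained gP4 ∨
      B.IsIndContained g2P1P3 := by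
    intro h h'
    rcases key1 h with h1 | h1 | h1
    · right
      have h2 := (cb h').2
      have hn : n ≤ 4 := by
        by_contra hn
        exact h2 (q_bot_ge (k := 5) h1 (by omega))
      exact (q_bot_le (k := 4) h1 hn).trans q25
    · exact Or.inl h1
    · exact Or.inr h1
  have st4 : 4 ≤ r + s → g4P1.IsIndContained Aᶜ := fun h =>
    (q8.trans (st_indep (by omega))).trans hSM
  have st5 : 5 ≤ r + s → g5P1.IsIndContained Aᶜ := fun h =>
    (q10.trans (st_indep (by omega))).trans hSM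
  have st6 : 1 ≤ r → 4 ≤ s → (gr 6 [(0,1)]).IsIndContained Aᶜ := fun h h' =>
    (q18.trans (st_mono h h')).trans hSM
  have std : 1 ≤ r → 2 ≤ s → g2P1P2.IsIndContained Aᶜ := fun h h' =>
    (q13.trans (st_mono h h')).trans hSM
  have sbip : r ≤ 3 → s ≤ 3 → BipL Aᶜ := fun h h' =>
    Or.inr (Or.inl ((hMS.trans (st_mono h h')).trans q21))
  have hcases : r = 0 ∨ r = 1 ∨ r = 2 ∨ r = 3 := by omega
  rcases hcases with rfl | rfl | rfl | rfl
  · -- r = 0
    have hbot : Aᶜ = ⊥ := q_st0_bot hMS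
    have htop : A = ⊤ := by rw [← compl_compl A, hbot, compl_bot]
    have hs : s = 0 ∨ s = 1 ∨ s = 2 ∨ 3 ≤ s := by omega
    rcases hs with rfl | rfl | rfl | hs
    · exact absurd h3S q_e00
    · exact absurd h3S q_e01
    · exact absurd (hAS.trans q7) hP
    · have h4 : g4P1.IsIndContained Aᶜ := (q8.trans (st_mono le_rfl hs)).trans hSM
      rcases key1 h4 with h1 | h1 | h1
      · exact Or.inl (Or.inr (Or.inr (Or.inl ⟨htop, h1⟩)))
      · exact item2 h1
      · rcases hs.eq_or_lt with hs | hs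
        · subst hs
          exact Or.inl (Or.inr (Or.inr (Or.inr (Or.inr (Or.inr (Or.inr
            ⟨hAS.trans (q_cc q9), h1⟩))))))
        · have h5 : g5P1.IsIndContained Aᶜ := (q10.trans (st_mono le_rfl hs)).trans hSM
          rcases e3 h1 (ce h5) with h6 | h6 | h6
          · exact Or.inl (Or.inr (Or.inr (Or.inl ⟨htop, h6⟩)))
          · exact item2 h6
          · exact item4 h6 (Or.inl hbot)
  · -- r = 1
    have hs : s = 0 ∨ s = 1 ∨ s = 2 ∨ s = 3 ∨ 4 ≤ s := by omega
    rcases hs with rfl | rfl | rfl | rfl | hs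
    · exact absurd h3S q_e10
    · exact absurd h3S q_e11
    · obtain ⟨h1, h2⟩ := cb (std le_rfl le_rfl)
      exact Or.inl (Or.inr (Or.inr (Or.inr (Or.inr (Or.inl ⟨hAS.trans q12, e2 hBip h1 h2⟩)))))
    · rcases key2 (st4 (by norm_num)) (std le_rfl (by norm_num)) with h1 | h1
      · exact item2 h1
      · have h2 : g3P1P2.IsIndContained Aᶜ := q14.trans hSM
        rcases e4 h1 (cd h2) with h6 | h6
        · exact item4 h6 (Or.inr (Or.inr (Or.inl (hMS.trans q16))))
        · exact Or.inr (Or.inr (Or.inr (Or.inr (Or.inr (Or.inr (Or.inr (Or.inl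
            ⟨(q_cc h6).trans q17, Or.inl (hMS.trans q15)⟩)))))))
    · rcases key2 (st4 (by omega)) (std le_rfl (by omega)) with h1 | h1
      · exact item2 h1
      · exact item2 (e6 h1 (cf (st6 le_rfl hs)))
  · -- r = 2
    have hs : s = 0 ∨ s = 1 ∨ s = 2 ∨ s = 3 ∨ 4 ≤ s := by omega
    rcases hs with rfl | rfl | rfl | rfl | hs
    · exact absurd h3S q_e20
    · exact absurd (hAS.trans q19) hP
    · rcases key2 (st4 (by norm_num)) (std (by norm_num) le_rfl) with h1 | h1
      · exact item2 h1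
      · exact Or.inl (Or.inr (Or.inr (Or.inr (Or.inr (Or.inr (Or.inr
            ⟨hAS.trans (q_cc q20), h1⟩))))))
    · rcases key2 (st4 (by norm_num)) (std (by norm_num) (by norm_num)) with h1 | h1
      · exact item2 h1
      · rcases e3 h1 (ce (st5 (by norm_num))) with h6 | h6 | h6
        · have h2 : g3P1P2.IsIndContained Aᶜ := (q14.trans (st_mono (by norm_num) le_rfl)).trans hSM
          have hn : n ≤ 3 := by
            by_contra hn
            exact cd h2 (q_bot_ge (k := 4) h6 (by omega))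
          exact item4 ((q_bot_le (k := 3) h6 hn).trans q26) (sbip (by norm_num) le_rfl)
        · exact item2 h6
        · exact item4 h6 (sbip (by norm_num) le_rfl)
    · rcases key2 (st4 (by omega)) (std (by norm_num) (by omega)) with h1 | h1
      · exact item2 h1
      · exact item2 (e6 h1 (cf (st6 (by norm_num) hs)))
  · -- r = 3
    have h13 : gK13.IsIndContained Aᶜ := (q23.trans (st_mono le_rfl (Nat.zero_le s))).trans hSM
    obtain ⟨d1, d2, d3⟩ := cc h13
    have hs : s = 0 ∨ (1 ≤ s ∧ s ≤ 3) ∨ 4 ≤ s := by omega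
    rcases hs with rfl | hs | hs
    · rcases e5 hBip d1 d2 d3 with h1 | h1 | h1
      · exact Or.inl (Or.inr (Or.inr (Or.inr (Or.inr (Or.inr (Or.inl
            ⟨hAS.trans q24, h1⟩))))))
      · exact item2 h1
      · exact item4 h1 (sbip le_rfl (by norm_num))
    · have h4 := st4 (by omega)
      have h5 : B.IsIndContained gP4 ∨ B.IsIndContained gP1P3 := by
        rcases key1 h4 with h1 | h1 | h1
        · right
          have hn : n ≤ 3 := by
            by_contra hn
            exact d1 (q_bot_ge (k := 4) h1 (by omega))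
          exact (q_bot_le (k := 3) h1 hn).trans q26
        · exact Or.inl h1
        · rcases e3 h1 d2 with h6 | h6 | h6
          · right
            have hn : n ≤ 3 := by
              by_contra hn
              exact d1 (q_bot_ge (k := 4) h6 (by omega))
            exact (q_bot_le (k := 3) h6 hn).trans q26
          · exact Or.inl h6
          · exact Or.inr h6
      rcases h5 with h5 | h5
      · exact item2 h5
      · exact item4 h5 (sbip le_rfl hs.2)
    · have h4 := st4 (by omega)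
      have h5 : B.IsIndContained gP4 ∨ B.IsIndContained gP1P3 := by
        rcases key1 h4 with h1 | h1 | h1
        · right
          have hn : n ≤ 3 := by
            by_contra hn
            exact d1 (q_bot_ge (k := 4) h1 (by omega))
          exact (q_bot_le (k := 3) h1 hn).trans q26
        · exact Or.inl h1
        · rcases e3 h1 d2 with h6 | h6 | h6
          · right
            have hn : n ≤ 3 := by
              by_contra hn
              exact d1 (q_bot_ge (k := 4) h6 (by omega))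
            exact (q_bot_le (k := 3) h6 hn).trans q26
          · exact Or.inl h6
          · exact Or.inr h6
      rcases h5 with h5 | h5
      · exact item2 h5
      · exact item2 (e6 (h5.trans q22) (cf (st6 (by norm_num) hs)))

end ClMain

end Pool.Agent.Helper856.Cw
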