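import Pool.Agent.Helper856.Pair.Defs

open Classical SimpleGraph

namespace Pool.Agent.Helper856.Cw

namespace Sweep

variable {V : Type} {G : SimpleGraph V} {S T : Finset V} {k l : ℕ}

theorem sweep_list (I : Finset V → Prop) (h0 : I ∅)
    (hstep : ∀ P ⊆ S, P ≠ S → I P → ∃ w ∈ S \ P, I (insert w P)) :
    ∀ n ≤ S.card, ∃ L : List V, L.Nodup ∧ L.length = n ∧ (∀ v ∈ L, v ∈ S) ∧
      ∀ m ≤ n, I (L.take m).toFinset := by
  intro n
  induction n with
  | zero =>
    intro _
    refine ⟨[], List.nodup_nil, rfl, by simp, ?_⟩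
    intro m _
    simpa using h0
  | succ n ih =>
    intro hn
    obtain ⟨L, hnd, hlen, hmem, hI⟩ := ih (by omega)
    have hPS : L.toFinset ⊆ S := by
      intro v hv
      exact hmem v (List.mem_toFinset.1 hv)
    have hcard : L.toFinset.card = n := by
      rw [List.toFinset_card_of_nodup hnd, hlen]
    have hne : L.toFinset ≠ S := by
      intro h
      rw [h] at hcard
      omega
    have hIL : I L.toFinset := by
      have := hI n le_rfl
      rwa [← hlen, List.take_length] at this
    obtain ⟨w, hw, hIw⟩ := hstep _ hPS hne hIL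
    rw [Finset.mem_sdiff, List.mem_toFinset] at hw
    refine ⟨L ++ [w], ?_, by simp [hlen], ?_, ?_⟩
    · rw [List.nodup_append]
      refine ⟨hnd, List.nodup_singleton w, ?_⟩
      intro a ha b hb hab
      rw [List.mem_singleton] at hb
      rw [hab, hb] at ha
      exact hw.2 ha
    · intro v hv
      rw [List.mem_append, List.mem_singleton] at hv
      rcases hv with hv | rfl
      · exact hmem v hv
      · exact hw.1
    · intro m hm
      rcases Nat.lt_or_ge n m with h | h
      · have hm' : m = n + 1 := by omega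
        have h1 : (L ++ [w]).take m = L ++ [w] := by
          apply List.take_of_length_le
          simp [hlen, hm']
        rw [h1, List.toFinset_append]
        have h2 : L.toFinset ∪ [w].toFinset = insert w L.toFinset := by
          ext x
          simp [or_comm]
        rw [h2]
        exact hIw
      · rw [List.take_append_of_le_length (by omega)]
        exact hI m h

/-- TARGET -/
theorem sweep (I : Finset V → Prop) (h0 : I ∅)
    (hstep : ∀ P ⊆ S, P ≠ S → I P → ∃ w ∈ S \ P, I (insert w P))
    (hc : ∀ P ⊆ S, I P → ∃ c : V → Fin k, ∀ u ∈ P, ∀ v ∈ P, (∃ w ∈ S \ P, G.Adj u w) →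
      (∃ w ∈ S \ P, G.Adj v w) → c u = c v → ∀ w ∈ S \ P, (G.Adj u w ↔ G.Adj v w)) :
    SLinN k G S := by
  obtain ⟨L, hnd, hlen, hmem, hI⟩ := sweep_list I h0 hstep S.card le_rfl
  have hLS : ∀ v, v ∈ L ↔ v ∈ S := by
    have h1 : L.toFinset ⊆ S := fun v hv => hmem v (List.mem_toFinset.1 hv)
    have h2 : L.toFinset = S := Finset.eq_of_subset_of_card_le h1 (by
      rw [List.toFinset_card_of_nodup hnd, hlen])
    intro v
    rw [← List.mem_toFinset, h2]
  refine ⟨fun v => L.idxOf v, ?_, ?_⟩
  · intro a ha b hb hab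
    exact (List.idxOf_inj ((hLS a).2 ha)).1 hab
  · intro t
    have hIt : I (L.take t).toFinset := by
      rcases Nat.lt_or_ge S.card t with h | h
      · have h1 : L.take t = L.take S.card := by
          rw [List.take_of_length_le (by omega), List.take_of_length_le (by omega)]
        rw [h1]
        exact hI _ le_rfl
      · exact hI t h
    have hP : (L.take t).toFinset ⊆ S := by
      intro v hv
      exact hmem v (List.mem_of_mem_take (List.mem_toFinset.1 hv))
    have hiff : ∀ u ∈ S, (u ∈ (L.take t).toFinset ↔ L.idxOf u < t) := by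
      intro u hu
      rw [List.mem_toFinset]
      exact List.mem_take_iff_idxOf_lt ((hLS u).2 hu)
    have hdiff : ∀ w, (w ∈ S \ (L.take t).toFinset ↔ w ∈ S ∧ t ≤ L.idxOf w) := by
      intro w
      rw [Finset.mem_sdiff]
      constructor
      · rintro ⟨h1, h2⟩
        refine ⟨h1, ?_⟩
        rw [hiff w h1] at h2
        omega
      · rintro ⟨h1, h2⟩
        refine ⟨h1, ?_⟩
        rw [hiff w h1]
        omega
    obtain ⟨c, hc'⟩ := hc _ hP hIt
    refine ⟨c, ?_⟩
    intro u hu v hv hut hvt hu' hv' huv w hw hwt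
    refine hc' u ((hiff u hu).2 hut) v ((hiff v hv).2 hvt) ?_ ?_ huv w ((hdiff w).2 ⟨hw, hwt⟩)
    · obtain ⟨x, hx, hxt, hadj⟩ := hu'
      exact ⟨x, (hdiff x).2 ⟨hx, hxt⟩, hadj⟩
    · obtain ⟨x, hx, hxt, hadj⟩ := hv'
      exact ⟨x, (hdiff x).2 ⟨hx, hxt⟩, hadj⟩

end Sweep

end Pool.Agent.Helper856.Cw
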