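import Pool.Agent.Helper856.Pair.Defs
import Pool.Agent.Helper856.Pair.Sweep

open Classical SimpleGraph

namespace Pool.Agent.Helper856.Cw

open Sweep (sweep)

namespace Deg2

variable {V : Type} {G : SimpleGraph V} {S T : Finset V} {k l : ℕ}

/-- the invariant -/
def Inv2 (G : SimpleGraph V) (S P : Finset V) : Prop :=
  (∀ x ∈ P, nb G (S \ P) x = ∅) ∨ ∃ u ∈ P, ∃ v ∈ P,
    (∀ x ∈ P, x ≠ u → x ≠ v → nb G (S \ P) x = ∅) ∧
      (u = v ∨ ((nb G (S \ P) u).card ≤ 1 ∧ (nb G (S \ P) v).card ≤ 1))

theorem nb_mem {T : Finset V} {v w : V} : w ∈ nb G T v ↔ w ∈ T ∧ G.Adj v w := by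
  unfold nb
  rw [Finset.mem_filter]

theorem nb_mono {T T' : Finset V} (h : T ⊆ T') (v : V) : nb G T v ⊆ nb G T' v := by
  intro w hw
  rw [nb_mem] at hw ⊢
  exact ⟨h hw.1, hw.2⟩

theorem sdiff_insert_sub (P : Finset V) (w : V) : S \ insert w P ⊆ S \ P := by
  intro x hx
  rw [Finset.mem_sdiff] at hx ⊢
  exact ⟨hx.1, fun h => hx.2 (Finset.mem_insert_of_mem h)⟩

theorem nb_step (P : Finset V) (w u : V) (hw : w ∈ nb G (S \ P) u) :
    (nb G (S \ insert w P) u).card + 1 ≤ (nb G (S \ P) u).card := by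
  have h1 : nb G (S \ insert w P) u ⊆ (nb G (S \ P) u).erase w := by
    intro x hx
    rw [Finset.mem_erase]
    refine ⟨?_, nb_mono (sdiff_insert_sub P w) u hx⟩
    rintro rfl
    rw [nb_mem, Finset.mem_sdiff] at hx
    exact hx.1.2 (Finset.mem_insert_self _ _)
  have h2 := Finset.card_le_card h1
  rw [Finset.card_erase_of_mem hw] at h2
  have h3 : 0 < (nb G (S \ P) u).card := Finset.card_pos.2 ⟨w, hw⟩
  omega

theorem nb_new (h : ∀ v ∈ S, (nb G S v).card ≤ 2) (P : Finset V) (hP : P ⊆ S) (w u : V)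
    (hu : u ∈ P) (hw : w ∈ nb G (S \ P) u) : (nb G (S \ insert w P) w).card ≤ 1 := by
  rw [nb_mem, Finset.mem_sdiff] at hw
  have h1 : nb G (S \ insert w P) w ⊆ (nb G S w).erase u := by
    intro x hx
    rw [Finset.mem_erase]
    refine ⟨?_, nb_mono Finset.sdiff_subset w hx⟩
    rintro rfl
    rw [nb_mem, Finset.mem_sdiff] at hx
    exact hx.1.2 (Finset.mem_insert_of_mem hu)
  have h2 := Finset.card_le_card h1
  have h3 : u ∈ nb G S w := nb_mem.2 ⟨hP hu, hw.2.symm⟩
  rw [Finset.card_erase_of_mem h3] at h2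
  have h4 := h w hw.1.1
  omega

theorem inv_step (h : ∀ v ∈ S, (nb G S v).card ≤ 2) (P : Finset V) (hP : P ⊆ S) (u v : V)
    (hu : u ∈ P) (hv : v ∈ P) (hall : ∀ x ∈ P, x ≠ u → x ≠ v → nb G (S \ P) x = ∅)
    (huv : u = v ∨ ((nb G (S \ P) u).card ≤ 1 ∧ (nb G (S \ P) v).card ≤ 1))
    (w : V) (hw : w ∈ nb G (S \ P) u) : Inv2 G S (insert w P) := by
  have hempty : ∀ x, nb G (S \ P) x = ∅ → nb G (S \ insert w P) x = ∅ := by
    intro x hx
    have := nb_mono (G := G) (sdiff_insert_sub (S := S) P w) x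
    rw [hx] at this
    exact Finset.subset_empty.1 this
  right
  by_cases heq : u = v
  · subst heq
    refine ⟨u, Finset.mem_insert_of_mem hu, w, Finset.mem_insert_self _ _, ?_, Or.inr ⟨?_, ?_⟩⟩
    · intro x hx hxu hxw
      have hxP : x ∈ P := (Finset.mem_insert.1 hx).resolve_left hxw
      exact hempty x (hall x hxP hxu hxu)
    · have h1 := nb_step (S := S) P w u hw
      have h2 := Finset.card_le_card (nb_mono (G := G) (Finset.sdiff_subset (s := S) (t := P)) u)
      have h3 := h u (hP hu)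
      omega
    · exact nb_new h P hP w u hu hw
  · obtain ⟨c1, c2⟩ := huv.resolve_left heq
    refine ⟨v, Finset.mem_insert_of_mem hv, w, Finset.mem_insert_self _ _, ?_, Or.inr ⟨?_, ?_⟩⟩
    · intro x hx hxv hxw
      have hxP : x ∈ P := (Finset.mem_insert.1 hx).resolve_left hxw
      by_cases hxu : x = u
      · rw [hxu]
        have h1 := nb_step (S := S) P w u hw
        rw [← Finset.card_eq_zero]
        omega
      · exact hempty x (hall x hxP hxu hxv)
    · exact (Finset.card_le_card (nb_mono (sdiff_insert_sub P w) v)).trans c2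
    · exact nb_new h P hP w u hu hw

/-- TARGET -/
theorem slin_deg2 (h : ∀ v ∈ S, (nb G S v).card ≤ 2) : SLinN 2 G S := by
  apply sweep (Inv2 G S)
  · left
    intro x hx
    exact absurd hx (Finset.notMem_empty x)
  · intro P hP hPS hI
    have hcase1 : (∀ x ∈ P, nb G (S \ P) x = ∅) → ∃ w ∈ S \ P, Inv2 G S (insert w P) := by
      intro hI
      obtain ⟨w, hwS, hwP⟩ : ∃ w ∈ S, w ∉ P := by
        by_contra hcon
        push Not at hcon
        exact hPS (Finset.Subset.antisymm hP hcon)
      refine ⟨w, Finset.mem_sdiff.2 ⟨hwS, hwP⟩, Or.inr ⟨w, Finset.mem_insert_self _ _, w,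
        Finset.mem_insert_self _ _, ?_, Or.inl rfl⟩⟩
      intro x hx hxw _
      have hxP : x ∈ P := (Finset.mem_insert.1 hx).resolve_left hxw
      have := nb_mono (G := G) (sdiff_insert_sub (S := S) P w) x
      rw [hI x hxP] at this
      exact Finset.subset_empty.1 this
    rcases hI with hI | ⟨u, hu, v, hv, hall, huv⟩
    · exact hcase1 hI
    · by_cases hue : nb G (S \ P) u = ∅
      · by_cases hve : nb G (S \ P) v = ∅
        · apply hcase1
          intro x hx
          by_cases h1 : x = u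
          · rw [h1]
            exact hue
          · by_cases h2 : x = v
            · rw [h2]
              exact hve
            · exact hall x hx h1 h2
        · obtain ⟨w, hw⟩ := Finset.nonempty_iff_ne_empty.2 hve
          refine ⟨w, (nb_mem.1 hw).1, inv_step h P hP v u hv hu (fun x hx h1 h2 => hall x hx h2 h1)
            ?_ w hw⟩
          rcases huv with h1 | h1
          · exact Or.inl h1.symm
          · exact Or.inr ⟨h1.2, h1.1⟩
      · obtain ⟨w, hw⟩ := Finset.nonempty_iff_ne_empty.2 hue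
        exact ⟨w, (nb_mem.1 hw).1, inv_step h P hP u v hu hv hall huv w hw⟩
  · intro P hP hI
    rcases hI with hI | ⟨u, hu, v, hv, hall, huv⟩
    · refine ⟨fun _ => 0, ?_⟩
      intro a ha b hb ⟨w, hw, haw⟩
      have h1 : w ∈ nb G (S \ P) a := nb_mem.2 ⟨hw, haw⟩
      rw [hI a ha] at h1
      exact absurd h1 (Finset.notMem_empty w)
    · have hout : ∀ a ∈ P, (∃ w ∈ S \ P, G.Adj a w) → a = u ∨ a = v := by
        intro a ha ⟨w, hw, haw⟩
        by_contra hcon
        rw [not_or] at hcon
        have h1 : w ∈ nb G (S \ P) a := nb_mem.2 ⟨hw, haw⟩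
        rw [hall a ha hcon.1 hcon.2] at h1
        exact absurd h1 (Finset.notMem_empty w)
      refine ⟨fun x => if x = u then 0 else 1, ?_⟩
      intro a ha b hb ha' hb' hab
      have hab' : a = b := by
        have h1 := hout a ha ha'
        have h2 := hout b hb hb'
        by_cases h3 : a = u
        · by_cases h4 : b = u
          · rw [h3, h4]
          · simp only [h3, h4, if_true, if_false] at hab
            exact absurd hab (by decide)
        · by_cases h4 : b = u
          · simp only [h3, h4, if_true, if_false] at hab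
            exact absurd hab (by decide)
          · rw [h1.resolve_left h3, h2.resolve_left h4]
      rw [hab']
      intro w _
      exact Iff.rfl

end Deg2

end Pool.Agent.Helper856.Cw
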