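import Pool.Agent.Helper856.Pair.Defs

open Classical SimpleGraph

namespace Pool.Agent.Helper856.Cw

namespace Flip

variable {V : Type} {G : SimpleGraph V} {S T : Finset V} {k l : ℕ}

/-- TARGET -/
theorem slin_flip {m : ℕ} {G' : SimpleGraph V} (τ : V → Fin m) (Q : Fin m → Fin m → Prop)
    (h : ∀ u ∈ S, ∀ v ∈ S, u ≠ v → (G'.Adj u v ↔ ¬(G.Adj u v ↔ Q (τ u) (τ v))))
    (hG : SLin k G S) : SLin (m * k) G' S := by
  obtain ⟨p, hp, hc⟩ := hG
  refine ⟨p, hp, fun t => ?_⟩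
  obtain ⟨c, hc⟩ := hc t
  refine ⟨fun v => finProdFinEquiv (τ v, c v), ?_⟩
  intro u hu v hv hut hvt huv w hw htw
  have h1 : (τ u, c u) = (τ v, c v) := finProdFinEquiv.injective huv
  have h2 : τ u = τ v := congrArg Prod.fst h1
  have h3 : c u = c v := congrArg Prod.snd h1
  have huw : u ≠ w := by rintro rfl; omega
  have hvw : v ≠ w := by rintro rfl; omega
  have h4 := hc u hu v hv hut hvt h3 w hw htw
  rw [h u hu w hw huw, h v hv w hw hvw, h4, h2]

end Flip

end Pool.Agent.Helper856.Cw
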