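import Pool.Agent.Helper856.Pair.Defs
import Pool.Agent.Helper856.Cw.Basic
import Pool.Agent.Helper856.Pair.Flip
import Pool.Agent.Helper856.Pair.Deg2

open Classical SimpleGraph

namespace Pool.Agent.Helper856.Cw

open Flip (slin_flip)
open Deg2 (slin_deg2)

namespace DiaA1

variable {V : Type} {G : SimpleGraph V} {S T : Finset V} {k l : ℕ}

/-- TARGET -/
theorem dia_a1 (hD : NoDia G) (h3 : No3P1P2 G) (I0 : Finset V) (hI0 : I0 ⊆ S) (hInd : Ind G I0)
    (hcard : 10 ≤ I0.card) : SLin 20 G S := by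
  -- a maximum independent set containing `I0`
  obtain ⟨I, hImem, hImax⟩ := Finset.exists_max_image
    (S.powerset.filter (fun T => I0 ⊆ T ∧ Ind G T)) Finset.card
    ⟨I0, Finset.mem_filter.2 ⟨Finset.mem_powerset.2 hI0, Finset.Subset.refl _, hInd⟩⟩
  rw [Finset.mem_filter, Finset.mem_powerset] at hImem
  obtain ⟨hIS, hI0I, hI⟩ := hImem
  have hIcard : 10 ≤ I.card := hcard.trans (Finset.card_le_card hI0I)
  -- vertices outside have a neighbour in `I`
  have hnbr : ∀ v ∈ S, v ∉ I → ∃ z ∈ I, G.Adj v z := by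
    intro v hv hvI
    by_contra hc
    push Not at hc
    have h1 : insert v I ∈ S.powerset.filter (fun T => I0 ⊆ T ∧ Ind G T) := by
      rw [Finset.mem_filter, Finset.mem_powerset]
      refine ⟨Finset.insert_subset hv hIS, hI0I.trans (Finset.subset_insert _ _), ?_⟩
      intro x hx y hy
      rw [Finset.mem_insert] at hx hy
      rcases hx with rfl | hx
      · rcases hy with rfl | hy
        · exact G.irrefl
        · exact hc y hy
      · rcases hy with rfl | hy
        · exact fun h => hc x hx h.symm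
        · exact hI x hx y hy
    have h2 := hImax _ h1
    rw [Finset.card_insert_of_notMem hvI] at h2
    omega
  have hnon : ∀ v ∈ S, v ∉ I → (I.filter (fun i => ¬G.Adj v i)).card ≤ 2 := by
    intro v hv hvI
    by_contra hc
    push Not at hc
    obtain ⟨a, ha, b, hb, c, hc', hab, hac, hbc⟩ := Finset.two_lt_card.1 hc
    rw [Finset.mem_filter] at ha hb hc'
    obtain ⟨z, hz, hvz⟩ := hnbr v hv hvI
    exact h3 a b c v z hvz (hI a ha.1 b hb.1) (hI a ha.1 c hc'.1) (hI b hb.1 c hc'.1) hab hac hbc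
      (fun h => ha.2 h.symm) (hI a ha.1 z hz) (fun h => hb.2 h.symm) (hI b hb.1 z hz)
      (fun h => hc'.2 h.symm) (hI c hc'.1 z hz)
  -- the complement is independent
  have hJ : ∀ u ∈ S, u ∉ I → ∀ v ∈ S, v ∉ I → ¬G.Adj u v := by
    intro u hu huI v hv hvI huv
    have h1 := hnon u hu huI
    have h2 := hnon v hv hvI
    have h4 : 1 < (I \ ((I.filter (fun i => ¬G.Adj u i)) ∪ (I.filter (fun i => ¬G.Adj v i)))).card := by
      have h5 := Finset.card_union_le (I.filter (fun i => ¬G.Adj u i))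
        (I.filter (fun i => ¬G.Adj v i))
      have h6 := Finset.le_card_sdiff
        ((I.filter (fun i => ¬G.Adj u i)) ∪ (I.filter (fun i => ¬G.Adj v i))) I
      omega
    obtain ⟨i1, hi1, i2, hi2, hne⟩ := Finset.one_lt_card.1 h4
    simp only [Finset.mem_sdiff, Finset.mem_union, Finset.mem_filter, not_or, not_and,
      not_not] at hi1 hi2
    have := hD u v i1 i2 huv (hi1.2.1 hi1.1) (hi1.2.2 hi1.1) (hi2.2.1 hi2.1) (hi2.2.2 hi2.1) hne
    exact hI i1 hi1.1 i2 hi2.1 this
  by_cases hJe : ∀ v ∈ S, v ∈ I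
  · -- `S` is independent
    have h1 : SLinN 2 G S := by
      apply slin_deg2
      intro v hv
      have : nb G S v = ∅ := by
        rw [nb, Finset.filter_eq_empty_iff]
        intro w hw
        exact hI v (hJe v hv) w (hJe w hw)
      rw [this]
      simp
    exact h1.toS.mono_k (by norm_num)
  push Not at hJe
  obtain ⟨v0, hv0, hv0I⟩ := hJe
  set B : Finset V := I.filter (fun i => ∀ j ∈ S, j ∉ I → ¬G.Adj i j) with hB
  have hBcard : B.card ≤ 2 := by
    refine le_trans (Finset.card_le_card ?_) (hnon v0 hv0 hv0I)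
    intro i hi
    rw [hB, Finset.mem_filter] at hi
    rw [Finset.mem_filter]
    exact ⟨hi.1, fun h => hi.2 v0 hv0 hv0I h.symm⟩
  have hnon2 : ∀ i ∈ I, i ∉ B → (S.filter (fun j => j ∉ I ∧ ¬G.Adj i j)).card ≤ 2 := by
    intro i hi hiB
    rw [hB, Finset.mem_filter] at hiB
    push Not at hiB
    obtain ⟨j, hjS, hjI, hij⟩ := hiB hi
    by_contra hc
    push Not at hc
    obtain ⟨a, ha, b, hb, c, hc', hab, hac, hbc⟩ := Finset.two_lt_card.1 hc
    rw [Finset.mem_filter] at ha hb hc'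
    obtain ⟨haS, haI, hai⟩ := ha
    obtain ⟨hbS, hbI, hbi⟩ := hb
    obtain ⟨hcS, hcI, hci⟩ := hc'
    exact h3 a b c i j hij (hJ a haS haI b hbS hbI) (hJ a haS haI c hcS hcI)
      (hJ b hbS hbI c hcS hcI) hab hac hbc (fun h => hai h.symm) (hJ a haS haI j hjS hjI)
      (fun h => hbi h.symm) (hJ b hbS hbI j hjS hjI) (fun h => hci h.symm)
      (hJ c hcS hcI j hjS hjI)
  -- the auxiliary graph
  obtain ⟨F, hF⟩ : ∃ F : SimpleGraph V, ∀ u v, F.Adj u v ↔
      (u ∈ S \ B ∧ v ∈ S \ B ∧ ¬(u ∈ I ↔ v ∈ I) ∧ ¬G.Adj u v) := by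
    refine ⟨SimpleGraph.fromRel (fun u v => u ∈ S \ B ∧ v ∈ S \ B ∧
      ¬(u ∈ I ↔ v ∈ I) ∧ ¬G.Adj u v), ?_⟩
    intro u v
    rw [SimpleGraph.fromRel_adj]
    constructor
    · rintro ⟨_, h | ⟨h1, h2, h4, h5⟩⟩
      · exact h
      · exact ⟨h2, h1, fun h => h4 h.symm, fun h => h5 h.symm⟩
    · rintro h
      refine ⟨?_, Or.inl h⟩
      rintro rfl
      exact h.2.2.1 Iff.rfl
  have hdeg : ∀ v ∈ S \ B, (nb F (S \ B) v).card ≤ 2 := by
    intro v hv
    have hv' := Finset.mem_sdiff.1 hv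
    by_cases hvI : v ∈ I
    · refine le_trans (Finset.card_le_card ?_) (hnon2 v hvI hv'.2)
      intro w hw
      rw [nb, Finset.mem_filter, hF] at hw
      rw [Finset.mem_filter]
      obtain ⟨hw1, _, _, hw3, hw4⟩ := hw
      refine ⟨(Finset.mem_sdiff.1 hw1).1, ?_, hw4⟩
      intro hwI
      exact hw3 ⟨fun _ => hwI, fun _ => hvI⟩
    · refine le_trans (Finset.card_le_card ?_) (hnon v hv'.1 hvI)
      intro w hw
      rw [nb, Finset.mem_filter, hF] at hw
      rw [Finset.mem_filter]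
      obtain ⟨hw1, _, _, hw3, hw4⟩ := hw
      refine ⟨?_, hw4⟩
      by_contra hwI
      exact hw3 ⟨fun h => absurd h hvI, fun h => absurd h hwI⟩
  have h5 : SLin 3 F (S \ B) := (slin_deg2 hdeg).toS
  have h6 : SLin (2 * 3) G (S \ B) := by
    refine slin_flip (G := F) (G' := G) (fun v => if v ∈ I then (1 : Fin 2) else 0)
      (fun i j => i ≠ j) ?_ h5
    intro u hu v hv huv
    rw [hF]
    have hu' := (Finset.mem_sdiff.1 hu).1
    have hv' := (Finset.mem_sdiff.1 hv).1
    by_cases huI : u ∈ I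
    · by_cases hvI : v ∈ I
      · have := hI u huI v hvI
        simp [huI, hvI, this]
      · simp [huI, hvI, hu, hv]
    · by_cases hvI : v ∈ I
      · simp [huI, hvI, hu, hv]
      · have := hJ u hu' huI v hv' hvI
        simp [huI, hvI, this]
  exact (SLin.add B h6).mono_k (by omega)

end DiaA1

end Pool.Agent.Helper856.Cw
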