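import Pool.Agent.Helper856.Pair.Defs

open Classical SimpleGraph

namespace Pool.Agent.Helper856.Cw

namespace Ramsey

variable {V : Type} {G : SimpleGraph V} {S T : Finset V} {k l : ℕ}

theorem ramsey_aux (n : ℕ) : ∀ s t : ℕ, s + t ≤ n → ∃ N, ∀ (V : Type) (G : SimpleGraph V)
    (S : Finset V), N ≤ S.card →
    (∃ K ⊆ S, K.card = s ∧ Clq G K) ∨ (∃ K ⊆ S, K.card = t ∧ Ind G K) := by
  induction n with
  | zero =>
    intro s t h
    refine ⟨0, fun V G S _ => Or.inl ⟨∅, by simp, ?_, ?_⟩⟩
    · have : s = 0 := by omega
      simp [this]
    · intro x hx; simp at hx
  | succ n ih =>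
    intro s t h
    rcases Nat.eq_zero_or_pos s with hs | hs
    · refine ⟨0, fun V G S _ => Or.inl ⟨∅, by simp, ?_, ?_⟩⟩
      · simp [hs]
      · intro x hx; simp at hx
    rcases Nat.eq_zero_or_pos t with ht | ht
    · refine ⟨0, fun V G S _ => Or.inr ⟨∅, by simp, ?_, ?_⟩⟩
      · simp [ht]
      · intro x hx; simp at hx
    obtain ⟨N1, h1⟩ := ih (s - 1) t (by omega)
    obtain ⟨N2, h2⟩ := ih s (t - 1) (by omega)
    refine ⟨N1 + N2 + 1, fun V G S hS => ?_⟩
    have hne : S.Nonempty := by
      rw [← Finset.card_pos]; omega
    obtain ⟨v, hv⟩ := hne
    set A := (S.erase v).filter (fun x => G.Adj v x) with hA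
    set B := (S.erase v).filter (fun x => ¬ G.Adj v x) with hB
    have hc : A.card + B.card = (S.erase v).card := by
      rw [hA, hB]
      exact Finset.card_filter_add_card_filter_not (s := S.erase v) (fun x => G.Adj v x)
    rw [Finset.card_erase_of_mem hv] at hc
    by_cases hAN : N1 ≤ A.card
    · rcases h1 V G A hAN with ⟨K, hK, hc1, hq⟩ | ⟨K, hK, hc1, hq⟩
      · left
        have hvK : v ∉ K := fun hx => by
          have := hK hx
          rw [hA, Finset.mem_filter, Finset.mem_erase] at this
          exact this.1.1 rfl
        refine ⟨insert v K, ?_, ?_, ?_⟩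
        · intro x hx
          rw [Finset.mem_insert] at hx
          rcases hx with rfl | hx
          · exact hv
          · have := hK hx
            rw [hA, Finset.mem_filter, Finset.mem_erase] at this
            exact this.1.2
        · rw [Finset.card_insert_of_notMem hvK, hc1]; omega
        · intro x hx y hy hxy
          rw [Finset.mem_insert] at hx hy
          rcases hx with rfl | hx
          · rcases hy with rfl | hy
            · exact absurd rfl hxy
            · have := hK hy
              rw [hA, Finset.mem_filter] at this
              exact this.2
          · rcases hy with rfl | hy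
            · have := hK hx
              rw [hA, Finset.mem_filter] at this
              exact this.2.symm
            · exact hq x hx y hy hxy
      · right
        refine ⟨K, ?_, hc1, hq⟩
        intro x hx
        have := hK hx
        rw [hA, Finset.mem_filter, Finset.mem_erase] at this
        exact this.1.2
    · have hBN : N2 ≤ B.card := by omega
      rcases h2 V G B hBN with ⟨K, hK, hc1, hq⟩ | ⟨K, hK, hc1, hq⟩
      · left
        refine ⟨K, ?_, hc1, hq⟩
        intro x hx
        have := hK hx
        rw [hB, Finset.mem_filter, Finset.mem_erase] at this
        exact this.1.2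
      · right
        have hvK : v ∉ K := fun hx => by
          have := hK hx
          rw [hB, Finset.mem_filter, Finset.mem_erase] at this
          exact this.1.1 rfl
        refine ⟨insert v K, ?_, ?_, ?_⟩
        · intro x hx
          rw [Finset.mem_insert] at hx
          rcases hx with rfl | hx
          · exact hv
          · have := hK hx
            rw [hB, Finset.mem_filter, Finset.mem_erase] at this
            exact this.1.2
        · rw [Finset.card_insert_of_notMem hvK, hc1]; omega
        · intro x hx y hy
          rw [Finset.mem_insert] at hx hy
          rcases hx with rfl | hx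
          · rcases hy with rfl | hy
            · exact G.loopless.irrefl _
            · have := hK hy
              rw [hB, Finset.mem_filter] at this
              exact this.2
          · rcases hy with rfl | hy
            · have := hK hx
              rw [hB, Finset.mem_filter] at this
              exact fun h => this.2 h.symm
            · exact hq x hx y hy

/-- TARGET -/
theorem ramsey (s t : ℕ) : ∃ N, ∀ (V : Type) (G : SimpleGraph V) (S : Finset V), N ≤ S.card →
    (∃ K ⊆ S, K.card = s ∧ Clq G K) ∨ (∃ K ⊆ S, K.card = t ∧ Ind G K) :=
  ramsey_aux (s + t) s t le_rfl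

end Ramsey

end Pool.Agent.Helper856.Cw
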