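import Pool.Agent.Helper856.Pair.Defs
import Pool.Agent.Helper856.Cw.Basic
import Pool.Agent.Helper856.Pair.Flip
import Pool.Agent.Helper856.Pair.Deg2
import Pool.Agent.Helper856.Pair.Ramsey
import Pool.Agent.Helper856.Pair.DiaA1

open Classical SimpleGraph

namespace Pool.Agent.Helper856.Cw

open Flip (slin_flip)
open Deg2 (slin_deg2)
open Ramsey (ramsey)
open DiaA1 (dia_a1)

namespace DiaA2

variable {V : Type} {G : SimpleGraph V} {S T : Finset V} {k l : ℕ}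

theorem aux_mem_nb {v w : V} : w ∈ nb G T v ↔ w ∈ T ∧ G.Adj v w := by
  unfold nb
  rw [Finset.mem_filter]

theorem aux_F1 (hD : NoDia G) (hT : Clq G T) {v : V} (hv : v ∉ T) (h : 1 < (nb G T v).card) :
    ∀ l ∈ T, G.Adj v l := by
  obtain ⟨l1, h1, l2, h2, hne⟩ := Finset.one_lt_card.1 h
  rw [aux_mem_nb] at h1 h2
  intro l hl
  by_cases e1 : l = l1
  · rw [e1]; exact h1.2
  by_cases e2 : l = l2
  · rw [e2]; exact h2.2
  refine hD l1 l2 v l (hT l1 h1.1 l2 h2.1 hne) h1.2.symm h2.2.symm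
    (hT l1 h1.1 l hl (Ne.symm e1)) (hT l2 h2.1 l hl (Ne.symm e2)) ?_
  rintro rfl
  exact hv hl

/-- existence of maximal big cliques -/
theorem aux_clique (hD : NoDia G) (hC : ∃ L ⊆ T, 20 ≤ L.card ∧ Clq G L) :
    ∃ L ⊆ T, 20 ≤ L.card ∧ Clq G L ∧ ∀ v ∈ T, v ∉ L → (nb G L v).card ≤ 1 := by
  obtain ⟨L0, h0, h1, h2⟩ := hC
  obtain ⟨L, hL, hmax⟩ := Finset.exists_max_image
    (T.powerset.filter (fun L => 20 ≤ L.card ∧ Clq G L)) (fun L => L.card)
    ⟨L0, Finset.mem_filter.2 ⟨Finset.mem_powerset.2 h0, h1, h2⟩⟩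
  rw [Finset.mem_filter, Finset.mem_powerset] at hL
  refine ⟨L, hL.1, hL.2.1, hL.2.2, fun v hv hvL => ?_⟩
  by_contra hc
  rw [not_le] at hc
  have h3 := aux_F1 hD hL.2.2 hvL hc
  have h4 := hmax (insert v L) (by
    rw [Finset.mem_filter, Finset.mem_powerset]
    refine ⟨Finset.insert_subset hv hL.1, ?_, ?_⟩
    · rw [Finset.card_insert_of_notMem hvL]
      have := hL.2.1
      omega
    · intro x hx y hy hxy
      rw [Finset.mem_insert] at hx hy
      rcases hx with rfl | hx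
      · rcases hy with rfl | hy
        · exact absurd rfl hxy
        · exact h3 y hy
      · rcases hy with rfl | hy
        · exact (h3 x hx).symm
        · exact hL.2.2 x hx y hy hxy)
  rw [Finset.card_insert_of_notMem hvL] at h4
  omega

/-- exceptional vertices -/
theorem aux_ex (hD : NoDia G) {A B : Finset V} (hB : Clq G B)
    (hAB : Disjoint A B) (h : ∀ w ∈ B, (nb G A w).card ≤ 1) :
    (A.filter (fun v => 1 < (nb G B v).card)).card ≤ 1 := by
  by_contra hc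
  rw [not_le] at hc
  obtain ⟨v, hv, v', hv', hne⟩ := Finset.one_lt_card.1 hc
  rw [Finset.mem_filter] at hv hv'
  have h1 := aux_F1 hD hB (fun h => Finset.disjoint_left.1 hAB hv.1 h) hv.2
  have h2 := aux_F1 hD hB (fun h => Finset.disjoint_left.1 hAB hv'.1 h) hv'.2
  obtain ⟨l, hl, _, _, _⟩ := Finset.one_lt_card.1 hv.2
  rw [aux_mem_nb] at hl
  have h3 := h l hl.1
  have h4 : 1 < (nb G A l).card :=
    Finset.one_lt_card.2 ⟨v, aux_mem_nb.2 ⟨hv.1, (h1 l hl.1).symm⟩, v',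
      aux_mem_nb.2 ⟨hv'.1, (h2 l hl.1).symm⟩, hne⟩
  omega

/-- three cliques -/
theorem aux_three (hD : NoDia G) {K1 K2 K3 : Finset V} (hK1 : Clq G K1) (hK2 : Clq G K2)
    (hK3 : Clq G K3) (d12 : Disjoint K1 K2) (d13 : Disjoint K1 K3) (d23 : Disjoint K2 K3)
    (h12 : ∀ w ∈ K2, (nb G K1 w).card ≤ 1) (h13 : ∀ w ∈ K3, (nb G K1 w).card ≤ 1)
    (h23 : ∀ w ∈ K3, (nb G K2 w).card ≤ 1) : SLin 12 G (K1 ∪ K2 ∪ K3) := by
  obtain ⟨E, hE⟩ : ∃ E : Finset V, E = (K1.filter (fun v => 1 < (nb G K2 v).card)) ∪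
    (K1.filter (fun v => 1 < (nb G K3 v).card)) ∪ (K2.filter (fun v => 1 < (nb G K3 v).card)) :=
    ⟨_, rfl⟩
  have hEc : E.card ≤ 3 := by
    rw [hE]
    refine (Finset.card_union_le _ _).trans ?_
    have h1 := Finset.card_union_le (K1.filter (fun v => 1 < (nb G K2 v).card))
      (K1.filter (fun v => 1 < (nb G K3 v).card))
    have h2 := aux_ex hD hK2 d12 h12
    have h3 := aux_ex hD hK3 d13 h13
    have h4 := aux_ex hD hK3 d23 h23
    omega
  obtain ⟨U, hU⟩ : ∃ U : Finset V, U = (K1 ∪ K2 ∪ K3) \ E := ⟨_, rfl⟩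
  obtain ⟨τ, hτ⟩ : ∃ τ : V → Fin 3, τ = fun v => if v ∈ K1 then 0 else if v ∈ K2 then 1 else 2 :=
    ⟨_, rfl⟩
  have hτ1 : ∀ v ∈ K1, τ v = 0 := fun v hv => by rw [hτ]; simp [hv]
  have hτ2 : ∀ v ∈ K2, τ v = 1 := fun v hv => by
    have : v ∉ K1 := fun h => Finset.disjoint_left.1 d12 h hv
    rw [hτ]; simp [hv, this]
  have hτ3 : ∀ v ∈ K3, τ v = 2 := fun v hv => by
    have h1 : v ∉ K1 := fun h => Finset.disjoint_left.1 d13 h hv
    have h2 : v ∉ K2 := fun h => Finset.disjoint_left.1 d23 h hv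
    rw [hτ]; simp [h1, h2]
  obtain ⟨F, hF⟩ : ∃ F : SimpleGraph V, ∀ u v, F.Adj u v ↔ G.Adj u v ∧ τ u ≠ τ v :=
    ⟨{ Adj := fun u v => G.Adj u v ∧ τ u ≠ τ v
       symm := ⟨fun u v h => ⟨h.1.symm, h.2.symm⟩⟩
       loopless := ⟨fun u h => h.2 rfl⟩ }, fun _ _ => Iff.rfl⟩
  have hUmem : ∀ v ∈ U, (v ∈ K1 ∧ (nb G K2 v).card ≤ 1 ∧ (nb G K3 v).card ≤ 1) ∨
      (v ∈ K2 ∧ (nb G K1 v).card ≤ 1 ∧ (nb G K3 v).card ≤ 1) ∨
      (v ∈ K3 ∧ (nb G K1 v).card ≤ 1 ∧ (nb G K2 v).card ≤ 1) := by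
    intro v hv
    rw [hU, Finset.mem_sdiff, Finset.mem_union, Finset.mem_union] at hv
    obtain ⟨hv1, hvE⟩ := hv
    rw [hE, Finset.mem_union, Finset.mem_union, Finset.mem_filter, Finset.mem_filter,
      Finset.mem_filter, not_or, not_or] at hvE
    obtain ⟨⟨e1, e2⟩, e3⟩ := hvE
    rcases hv1 with (h1 | h2) | h3
    · left
      refine ⟨h1, ?_, ?_⟩
      · by_contra hc; exact e1 ⟨h1, not_le.1 hc⟩
      · by_contra hc; exact e2 ⟨h1, not_le.1 hc⟩
    · right; left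
      refine ⟨h2, h12 v h2, ?_⟩
      by_contra hc; exact e3 ⟨h2, not_le.1 hc⟩
    · right; right
      exact ⟨h3, h13 v h3, h23 v h3⟩
  have hUsub : ∀ w ∈ U, w ∈ K1 ∨ w ∈ K2 ∨ w ∈ K3 := by
    intro w hw
    rcases hUmem w hw with h | h | h
    · exact Or.inl h.1
    · exact Or.inr (Or.inl h.1)
    · exact Or.inr (Or.inr h.1)
  have hdeg : ∀ v ∈ U, (nb F U v).card ≤ 2 := by
    intro v hv
    rcases hUmem v hv with ⟨h1, h2, h3⟩ | ⟨h1, h2, h3⟩ | ⟨h1, h2, h3⟩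
    · have hsub : nb F U v ⊆ nb G K2 v ∪ nb G K3 v := by
        intro w hw
        rw [aux_mem_nb, hF] at hw
        rw [Finset.mem_union, aux_mem_nb, aux_mem_nb]
        rcases hUsub w hw.1 with h | h | h
        · exact absurd (by rw [hτ1 v h1, hτ1 w h]) hw.2.2
        · exact Or.inl ⟨h, hw.2.1⟩
        · exact Or.inr ⟨h, hw.2.1⟩
      refine (Finset.card_le_card hsub).trans ((Finset.card_union_le _ _).trans (by omega))
    · have hsub : nb F U v ⊆ nb G K1 v ∪ nb G K3 v := by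
        intro w hw
        rw [aux_mem_nb, hF] at hw
        rw [Finset.mem_union, aux_mem_nb, aux_mem_nb]
        rcases hUsub w hw.1 with h | h | h
        · exact Or.inl ⟨h, hw.2.1⟩
        · exact absurd (by rw [hτ2 v h1, hτ2 w h]) hw.2.2
        · exact Or.inr ⟨h, hw.2.1⟩
      refine (Finset.card_le_card hsub).trans ((Finset.card_union_le _ _).trans (by omega))
    · have hsub : nb F U v ⊆ nb G K1 v ∪ nb G K2 v := by
        intro w hw
        rw [aux_mem_nb, hF] at hw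
        rw [Finset.mem_union, aux_mem_nb, aux_mem_nb]
        rcases hUsub w hw.1 with h | h | h
        · exact Or.inl ⟨h, hw.2.1⟩
        · exact Or.inr ⟨h, hw.2.1⟩
        · exact absurd (by rw [hτ3 v h1, hτ3 w h]) hw.2.2
      refine (Finset.card_le_card hsub).trans ((Finset.card_union_le _ _).trans (by omega))
  have hS3 : SLin (2 + 1) F U := (slin_deg2 hdeg).toS
  have hflip : SLin (3 * (2 + 1)) G U := by
    refine slin_flip (G := F) (G' := G) τ (fun i j => i = j) ?_ hS3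
    intro u hu v hv huv
    rw [hF]
    by_cases ht : τ u = τ v
    · have hadj : G.Adj u v := by
        rcases hUsub u hu with h | h | h <;> rcases hUsub v hv with h' | h' | h'
        · exact hK1 u h v h' huv
        · rw [hτ1 u h, hτ2 v h'] at ht; exact absurd ht (by decide)
        · rw [hτ1 u h, hτ3 v h'] at ht; exact absurd ht (by decide)
        · rw [hτ2 u h, hτ1 v h'] at ht; exact absurd ht (by decide)
        · exact hK2 u h v h' huv
        · rw [hτ2 u h, hτ3 v h'] at ht; exact absurd ht (by decide)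
        · rw [hτ3 u h, hτ1 v h'] at ht; exact absurd ht (by decide)
        · rw [hτ3 u h, hτ2 v h'] at ht; exact absurd ht (by decide)
        · exact hK3 u h v h' huv
      simp [ht, hadj]
    · simp [ht]
  rw [hU] at hflip
  have := SLin.add E hflip
  exact this.mono_k (by omega)

theorem aux_total (hD : NoDia G) {K1 K2 K3 : Finset V} {N : ℕ} (hK1 : Clq G K1) (hK2 : Clq G K2)
    (hK3 : Clq G K3) (d12 : Disjoint K1 K2) (d13 : Disjoint K1 K3) (d23 : Disjoint K2 K3)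
    (h12 : ∀ w ∈ K2, (nb G K1 w).card ≤ 1) (h13 : ∀ w ∈ K3, (nb G K1 w).card ≤ 1)
    (h23 : ∀ w ∈ K3, (nb G K2 w).card ≤ 1) (s1 : K1 ⊆ S) (s2 : K2 ⊆ S) (s3 : K3 ⊆ S)
    (hN : (S \ (K1 ∪ K2 ∪ K3)).card ≤ N) : SLin (12 + N) G S := by
  have h := aux_three hD hK1 hK2 hK3 d12 d13 d23 h12 h13 h23
  have e : S \ (S \ (K1 ∪ K2 ∪ K3)) = K1 ∪ K2 ∪ K3 := by
    exact Finset.sdiff_sdiff_eq_self (Finset.union_subset (Finset.union_subset s1 s2) s3)
  rw [← e] at h
  exact (SLin.add _ h).mono_k (by omega)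

theorem aux_clq_empty : Clq G (∅ : Finset V) := fun x hx => absurd hx (Finset.notMem_empty x)

theorem aux_nb_empty (v : V) : (nb G (∅ : Finset V) v).card ≤ 1 := by
  unfold nb; simp

/-- TARGET -/
theorem row_dia_a : ∃ K, ∀ (V : Type) (G : SimpleGraph V) (S : Finset V), NoDia G → No3P1P2 G →
    SLin K G S := by
  obtain ⟨N, hN⟩ := ramsey 20 10
  refine ⟨20 + N, ?_⟩
  intro V G S hD h3
  by_cases hI : ∃ I0 ⊆ S, Ind G I0 ∧ 10 ≤ I0.card
  · obtain ⟨I0, h1, h2, h4⟩ := hI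
    exact (dia_a1 hD h3 I0 h1 h2 h4).mono_k (by omega)
  have hstep : ∀ T : Finset V, T ⊆ S → T.card ≤ N ∨
      ∃ L ⊆ T, 20 ≤ L.card ∧ Clq G L ∧ ∀ v ∈ T, v ∉ L → (nb G L v).card ≤ 1 := by
    intro T hT
    by_cases hc : T.card ≤ N
    · exact Or.inl hc
    · right
      apply aux_clique hD
      rcases hN V G T (by omega) with ⟨K, h1, h2, h4⟩ | ⟨K, h1, h2, h4⟩
      · exact ⟨K, h1, by omega, h4⟩
      · exact absurd ⟨K, h1.trans hT, h4, by omega⟩ hI
  have hfin : SLin (12 + N) G S := by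
    rcases hstep S (Finset.Subset.refl S) with h0 | ⟨K1, k1S, k1c, k1q, k1n⟩
    · refine aux_total hD (K1 := ∅) (K2 := ∅) (K3 := ∅) aux_clq_empty aux_clq_empty aux_clq_empty
        (Finset.disjoint_empty_left _) (Finset.disjoint_empty_left _)
        (Finset.disjoint_empty_left _) (fun w _ => aux_nb_empty w) (fun w _ => aux_nb_empty w)
        (fun w _ => aux_nb_empty w) (Finset.empty_subset _) (Finset.empty_subset _)
        (Finset.empty_subset _) ?_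
      simpa using h0
    rcases hstep (S \ K1) Finset.sdiff_subset with h0 | ⟨K2, k2S, k2c, k2q, k2n⟩
    · refine aux_total hD (K1 := K1) (K2 := ∅) (K3 := ∅) k1q aux_clq_empty aux_clq_empty
        (Finset.disjoint_empty_right _) (Finset.disjoint_empty_right _)
        (Finset.disjoint_empty_left _) (fun w hw => absurd hw (Finset.notMem_empty w))
        (fun w hw => absurd hw (Finset.notMem_empty w))
        (fun w _ => aux_nb_empty w) k1S (Finset.empty_subset _)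
        (Finset.empty_subset _) ?_
      simpa using h0
    have k2 : ∀ w ∈ K2, w ∈ S ∧ w ∉ K1 := fun w hw => Finset.mem_sdiff.1 (k2S hw)
    have d12 : Disjoint K1 K2 := Finset.disjoint_left.2 (fun w hw hw' => (k2 w hw').2 hw)
    have h12 : ∀ w ∈ K2, (nb G K1 w).card ≤ 1 := fun w hw => k1n w (k2 w hw).1 (k2 w hw).2
    rcases hstep ((S \ K1) \ K2) (Finset.sdiff_subset.trans Finset.sdiff_subset) with
      h0 | ⟨K3, k3S, k3c, k3q, k3n⟩
    · refine aux_total hD (K1 := K1) (K2 := K2) (K3 := ∅) k1q k2q aux_clq_empty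
        d12 (Finset.disjoint_empty_right _)
        (Finset.disjoint_empty_right _) h12
        (fun w hw => absurd hw (Finset.notMem_empty w))
        (fun w hw => absurd hw (Finset.notMem_empty w)) k1S (fun w hw => (k2 w hw).1)
        (Finset.empty_subset _) ?_
      rw [Finset.union_empty]
      refine le_trans (Finset.card_le_card ?_) h0
      intro w hw
      simp only [Finset.mem_union, Finset.mem_sdiff] at hw ⊢
      tauto
    have k3 : ∀ w ∈ K3, w ∈ S ∧ w ∉ K1 ∧ w ∉ K2 := by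
      intro w hw
      have h1 := Finset.mem_sdiff.1 (k3S hw)
      have h2 := Finset.mem_sdiff.1 h1.1
      exact ⟨h2.1, h2.2, h1.2⟩
    have d13 : Disjoint K1 K3 := Finset.disjoint_left.2 (fun w hw hw' => (k3 w hw').2.1 hw)
    have d23 : Disjoint K2 K3 := Finset.disjoint_left.2 (fun w hw hw' => (k3 w hw').2.2 hw)
    have h13 : ∀ w ∈ K3, (nb G K1 w).card ≤ 1 := fun w hw => k1n w (k3 w hw).1 (k3 w hw).2.1
    have h23 : ∀ w ∈ K3, (nb G K2 w).card ≤ 1 := fun w hw =>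
      k2n w (Finset.mem_sdiff.2 ⟨(k3 w hw).1, (k3 w hw).2.1⟩) (k3 w hw).2.2
    rcases hstep (((S \ K1) \ K2) \ K3) (Finset.sdiff_subset.trans
      (Finset.sdiff_subset.trans Finset.sdiff_subset)) with h0 | ⟨K4, k4S, k4c, k4q, k4n⟩
    · refine aux_total hD k1q k2q k3q d12 d13 d23 h12 h13 h23 k1S (fun w hw => (k2 w hw).1)
        (fun w hw => (k3 w hw).1) ?_
      refine le_trans (Finset.card_le_card ?_) h0
      intro w hw
      simp only [Finset.mem_union, Finset.mem_sdiff] at hw ⊢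
      tauto
    exfalso
    have k4 : ∀ w ∈ K4, w ∈ S ∧ w ∉ K1 ∧ w ∉ K2 ∧ w ∉ K3 := by
      intro w hw
      have h1 := Finset.mem_sdiff.1 (k4S hw)
      have h2 := Finset.mem_sdiff.1 h1.1
      have h3 := Finset.mem_sdiff.1 h2.1
      exact ⟨h3.1, h3.2, h2.2, h1.2⟩
    have d14 : Disjoint K1 K4 := Finset.disjoint_left.2 (fun w hw hw' => (k4 w hw').2.1 hw)
    have d24 : Disjoint K2 K4 := Finset.disjoint_left.2 (fun w hw hw' => (k4 w hw').2.2.1 hw)
    have d34 : Disjoint K3 K4 := Finset.disjoint_left.2 (fun w hw hw' => (k4 w hw').2.2.2 hw)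
    have h14 : ∀ w ∈ K4, (nb G K1 w).card ≤ 1 := fun w hw => k1n w (k4 w hw).1 (k4 w hw).2.1
    have h24 : ∀ w ∈ K4, (nb G K2 w).card ≤ 1 := fun w hw =>
      k2n w (Finset.mem_sdiff.2 ⟨(k4 w hw).1, (k4 w hw).2.1⟩) (k4 w hw).2.2.1
    have h34 : ∀ w ∈ K4, (nb G K3 w).card ≤ 1 := fun w hw =>
      k3n w (Finset.mem_sdiff.2 ⟨Finset.mem_sdiff.2 ⟨(k4 w hw).1, (k4 w hw).2.1⟩,
        (k4 w hw).2.2.1⟩) (k4 w hw).2.2.2
    have e12 := aux_ex hD k2q d12 h12
    have e13 := aux_ex hD k3q d13 h13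
    have e14 := aux_ex hD k4q d14 h14
    have e23 := aux_ex hD k3q d23 h23
    have e24 := aux_ex hD k4q d24 h24
    have e34 := aux_ex hD k4q d34 h34
    have hpick : ∀ (K B1 B2 B3 : Finset V), 20 ≤ K.card → B1.card ≤ 1 → B2.card ≤ 1 →
        B3.card ≤ 1 → ∃ x ∈ K, ∃ y ∈ K, x ≠ y ∧ (x ∉ B1 ∧ x ∉ B2 ∧ x ∉ B3) ∧
          (y ∉ B1 ∧ y ∉ B2 ∧ y ∉ B3) := by
      intro K B1 B2 B3 hK b1 b2 b3
      have h1 := Finset.card_union_le (B1 ∪ B2) B3
      have h2 := Finset.card_union_le B1 B2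
      have h4 := Finset.le_card_sdiff (B1 ∪ B2 ∪ B3) K
      obtain ⟨x, hx, y, hy, hxy⟩ := Finset.one_lt_card.1
        (show 1 < (K \ (B1 ∪ B2 ∪ B3)).card by omega)
      simp only [Finset.mem_sdiff, Finset.mem_union, not_or] at hx hy
      exact ⟨x, hx.1, y, hy.1, hxy, ⟨hx.2.1.1, hx.2.1.2, hx.2.2⟩, ⟨hy.2.1.1, hy.2.1.2, hy.2.2⟩⟩
    obtain ⟨p, hp, _, _, _, ⟨p1, p2, p3⟩, _⟩ := hpick K1 _ _ _ k1c e12 e13 e14
    have hp2 : (nb G K2 p).card ≤ 1 := by
      by_contra hc; exact p1 (Finset.mem_filter.2 ⟨hp, not_le.1 hc⟩)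
    have hp3 : (nb G K3 p).card ≤ 1 := by
      by_contra hc; exact p2 (Finset.mem_filter.2 ⟨hp, not_le.1 hc⟩)
    have hp4 : (nb G K4 p).card ≤ 1 := by
      by_contra hc; exact p3 (Finset.mem_filter.2 ⟨hp, not_le.1 hc⟩)
    obtain ⟨q, hq, _, _, _, ⟨q1, q2, q3⟩, _⟩ := hpick K2 _ _ _ k2c e23 e24 hp2
    have hq3 : (nb G K3 q).card ≤ 1 := by
      by_contra hc; exact q1 (Finset.mem_filter.2 ⟨hq, not_le.1 hc⟩)
    have hq4 : (nb G K4 q).card ≤ 1 := by
      by_contra hc; exact q2 (Finset.mem_filter.2 ⟨hq, not_le.1 hc⟩)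
    obtain ⟨r, hr, _, _, _, ⟨r1, r2, r3⟩, _⟩ := hpick K3 _ _ _ k3c e34 hp3 hq3
    have hr4 : (nb G K4 r).card ≤ 1 := by
      by_contra hc; exact r1 (Finset.mem_filter.2 ⟨hr, not_le.1 hc⟩)
    obtain ⟨x, hx, y, hy, hxy, ⟨x1, x2, x3⟩, ⟨y1, y2, y3⟩⟩ := hpick K4 _ _ _ k4c hp4 hq4 hr4
    rw [aux_mem_nb] at q3 r2 r3 x1 x2 x3 y1 y2 y3
    exact h3 p q r x y (k4q x hx y hy hxy) (fun h => q3 ⟨hq, h⟩) (fun h => r2 ⟨hr, h⟩)
      (fun h => r3 ⟨hr, h⟩)
      (by rintro rfl; exact Finset.disjoint_left.1 d12 hp hq)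
      (by rintro rfl; exact Finset.disjoint_left.1 d13 hp hr)
      (by rintro rfl; exact Finset.disjoint_left.1 d23 hq hr)
      (fun h => x1 ⟨hx, h⟩) (fun h => y1 ⟨hy, h⟩) (fun h => x2 ⟨hx, h⟩) (fun h => y2 ⟨hy, h⟩)
      (fun h => x3 ⟨hx, h⟩) (fun h => y3 ⟨hy, h⟩)
  exact hfin.mono_k (by omega)

end DiaA2

end Pool.Agent.Helper856.Cw
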