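import Pool.Agent.Helper856.Pair.Defs

open Classical SimpleGraph

namespace Pool.Agent.Helper856.Cw

namespace Induce

/-- from `SLin` on the induced subgraph to `SLin` on the vertex set -/
theorem slin_of_induce {V : Type} {G : SimpleGraph V} {k : ℕ} (hk : 0 < k) {T : Finset V}
    (h : SLin k (G.induce (T : Set V)) (Finset.univ : Finset (T : Set V))) : SLin k G T := by
  obtain ⟨p, hp, h⟩ := h
  refine ⟨fun v => if hv : v ∈ (T : Set V) then p ⟨v, hv⟩ else 0, ?_, fun t => ?_⟩
  · intro u hu v hv huv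
    simp only at huv
    rw [dif_pos hu, dif_pos hv] at huv
    have := hp (Finset.mem_coe.2 (Finset.mem_univ _)) (Finset.mem_coe.2 (Finset.mem_univ _)) huv
    exact congrArg Subtype.val this
  · obtain ⟨c, hc⟩ := h t
    refine ⟨fun v => if hv : v ∈ (T : Set V) then c ⟨v, hv⟩ else ⟨0, hk⟩, ?_⟩
    intro u hu v hv h1 h2 h3 w hw h4
    simp only at h1 h2 h3 h4
    rw [dif_pos (Finset.mem_coe.2 hu)] at h1 h3
    rw [dif_pos (Finset.mem_coe.2 hv)] at h2 h3
    rw [dif_pos (Finset.mem_coe.2 hw)] at h4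
    exact hc _ (Finset.mem_univ _) _ (Finset.mem_univ _) h1 h2 h3 _ (Finset.mem_univ _) h4

theorem slin_card {V : Type} {G : SimpleGraph V} {k : ℕ} {S : Finset V} (h : S.card ≤ k) :
    SLin (k + 1) G S := by
  have h0 : SLin 1 G (S \ S) := by
    refine ⟨fun _ => 0, ?_, fun t => ⟨fun _ => 0, ?_⟩⟩
    · simp
    · simp
  exact (SLin.add S h0).mono_k (by omega)

theorem exists_inj {V : Type} (S : Finset V) : ∃ p : V → ℕ, Set.InjOn p S := by
  refine ⟨fun v => if h : v ∈ S then (S.equivFin ⟨v, h⟩ : ℕ) else 0, ?_⟩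
  intro u hu v hv huv
  simp only at huv
  rw [dif_pos (Finset.mem_coe.1 hu), dif_pos (Finset.mem_coe.1 hv)] at huv
  have := S.equivFin.injective (Fin.ext huv)
  exact congrArg Subtype.val this

theorem slin_ind {V : Type} {G : SimpleGraph V} {S : Finset V} (h : Ind G S) : SLin 1 G S := by
  obtain ⟨p, hp⟩ := exists_inj S
  refine ⟨p, hp, fun t => ⟨fun _ => 0, ?_⟩⟩
  intro u hu v hv _ _ _ w hw _
  exact iff_of_false (h u hu w hw) (h v hv w hw)

theorem slin_clq {V : Type} {G : SimpleGraph V} {S : Finset V} (h : Clq G S) : SLin 1 G S := by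
  obtain ⟨p, hp⟩ := exists_inj S
  refine ⟨p, hp, fun t => ⟨fun _ => 0, ?_⟩⟩
  intro u hu v hv h1 h2 _ w hw h3
  refine iff_of_true (h u hu w hw ?_) (h v hv w hw ?_)
  · rintro rfl
    omega
  · rintro rfl
    omega

end Induce

end Pool.Agent.Helper856.Cw
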