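import Pool.Agent.Helper856.Pair.Defs
import Pool.Agent.Helper856.Cw.Basic
import Pool.Agent.Helper856.Pair.Flip
import Pool.Agent.Helper856.Pair.Deg2
import Pool.Agent.Helper856.Cw.Union

open Classical SimpleGraph

namespace Pool.Agent.Helper856.Cw

open Flip (slin_flip)
open Deg2 (slin_deg2)

namespace SPieces

variable {V : Type} {G : SimpleGraph V} {S T : Finset V} {k l : ℕ}

/-- TARGET -/
theorem pieces {r : ℕ} (τ : V → Fin r) (Q : Fin r → Fin r → Prop) (hQ : ∀ i j, Q i j → Q j i)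
    (h : ∀ v ∈ S, (S.filter (fun w => w ≠ v ∧ ¬(G.Adj v w ↔ Q (τ v) (τ w)))).card ≤ 2) :
    SLin (r * 3) G S := by
  let F : SimpleGraph V :=
    { Adj := fun u v => u ≠ v ∧ ¬(G.Adj u v ↔ Q (τ u) (τ v))
      symm := ⟨by
        rintro u v ⟨h1, h2⟩
        refine ⟨h1.symm, fun h3 => h2 ?_⟩
        rw [G.adj_comm u v]
        exact ⟨fun h4 => hQ _ _ (h3.1 h4), fun h4 => h3.2 (hQ _ _ h4)⟩⟩
      loopless := ⟨fun u h1 => h1.1 rfl⟩ }
  have hF : ∀ u v, F.Adj u v ↔ (u ≠ v ∧ ¬(G.Adj u v ↔ Q (τ u) (τ v))) := fun u v => Iff.rfl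
  have h1 : ∀ v ∈ S, (nb F S v).card ≤ 2 := by
    intro v hv
    refine le_trans (Finset.card_le_card ?_) (h v hv)
    intro w hw
    simp only [nb, Finset.mem_filter] at hw
    simp only [Finset.mem_filter]
    exact ⟨hw.1, hw.2.1.symm, hw.2.2⟩
  have h2 : SLin 3 F S := (slin_deg2 h1).toS
  refine slin_flip (G := F) (G' := G) τ Q ?_ h2
  intro u _ v _ huv
  rw [hF]
  by_cases hq : Q (τ u) (τ v) <;> by_cases hg : G.Adj u v <;> simp [hq, hg, huv]

/-- TARGET -/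
theorem slin_join {r : ℕ} {X Y : Finset V} (hd : Disjoint X Y) (τ : V → Fin r)
    (Q : Fin r → Fin r → Prop) (h : ∀ x ∈ X, ∀ y ∈ Y, (G.Adj x y ↔ Q (τ x) (τ y)))
    (hX : SLin k G X) (hY : SLin l G Y) : SLin (r * 2 * (k + l + 1)) G (X ∪ Y) := by
  let F : SimpleGraph V :=
    { Adj := fun u v => G.Adj u v ∧ (u ∈ X ↔ v ∈ X)
      symm := ⟨by
        rintro u v ⟨h1, h2⟩
        exact ⟨h1.symm, h2.symm⟩⟩
      loopless := ⟨fun u h1 => G.loopless.irrefl u h1.1⟩ }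
  have hF : ∀ u v, F.Adj u v ↔ (G.Adj u v ∧ (u ∈ X ↔ v ∈ X)) := fun u v => Iff.rfl
  have hdX : ∀ v ∈ Y, v ∉ X := fun v hv hvX => (Finset.disjoint_left.mp hd) hvX hv
  have hX' : SLin k F X := by
    obtain ⟨p, hp, hc⟩ := hX
    refine ⟨p, hp, fun t => ?_⟩
    obtain ⟨c, hc⟩ := hc t
    refine ⟨c, fun u hu v hv h1 h2 h3 w hw h4 => ?_⟩
    rw [hF, hF]
    have := hc u hu v hv h1 h2 h3 w hw h4
    simp [hu, hv, hw, this]
  have hY' : SLin l F Y := by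
    obtain ⟨p, hp, hc⟩ := hY
    refine ⟨p, hp, fun t => ?_⟩
    obtain ⟨c, hc⟩ := hc t
    refine ⟨c, fun u hu v hv h1 h2 h3 w hw h4 => ?_⟩
    rw [hF, hF]
    have := hc u hu v hv h1 h2 h3 w hw h4
    simp [hdX u hu, hdX v hv, hdX w hw, this]
  have hU : SLinN (k + l) F (X ∪ Y) := by
    refine SLinN.union hd ?_ (hX'.mono_k (Nat.le_add_right k l)).toN
      (hY'.mono_k (Nat.le_add_left l k)).toN
    intro u hu v hv hadj
    rw [hF] at hadj
    exact hdX v hv (hadj.2.1 hu)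
  have hU' : SLin (k + l + 1) F (X ∪ Y) := hU.toS
  let σ : V → Fin (r * 2) := fun v => finProdFinEquiv (τ v, if v ∈ X then (0 : Fin 2) else 1)
  let Q' : Fin (r * 2) → Fin (r * 2) → Prop := fun a b =>
    (finProdFinEquiv.symm a).2 ≠ (finProdFinEquiv.symm b).2 ∧
      (((finProdFinEquiv.symm a).2 = 0 ∧ Q (finProdFinEquiv.symm a).1 (finProdFinEquiv.symm b).1) ∨
       ((finProdFinEquiv.symm a).2 ≠ 0 ∧ Q (finProdFinEquiv.symm b).1 (finProdFinEquiv.symm a).1))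
  have hQ' : ∀ u v, Q' (σ u) (σ v) ↔ ((if u ∈ X then (0 : Fin 2) else 1) ≠ (if v ∈ X then (0 : Fin 2) else 1) ∧
      (((if u ∈ X then (0 : Fin 2) else 1) = 0 ∧ Q (τ u) (τ v)) ∨
       ((if u ∈ X then (0 : Fin 2) else 1) ≠ 0 ∧ Q (τ v) (τ u)))) := by
    intro u v
    simp only [Q', σ, Equiv.symm_apply_apply]
  refine slin_flip (G := F) (G' := G) σ Q' ?_ hU'
  intro u hu v hv huv
  rw [hF, hQ']
  rcases Finset.mem_union.mp hu with hu | hu <;> rcases Finset.mem_union.mp hv with hv | hv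
  · simp [hu, hv]
  · simp [hu, hdX v hv, h u hu v hv]
  · have h1 := h v hv u hu
    rw [G.adj_comm v u] at h1
    simp [hv, hdX u hu, h1]
  · simp [hdX u hu, hdX v hv]

end SPieces

end Pool.Agent.Helper856.Cw
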