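import Pool.Agent.Helper856.Pair.Defs
import Pool.Agent.Helper856.Cw.Basic
import Pool.Agent.Helper856.Cw.Blocks
import Pool.Agent.Helper856.Pair.Induce
import Pool.Agent.Helper856.Pair.SPieces

open Classical SimpleGraph

namespace Pool.Agent.Helper856.Cw

open Induce (slin_ind)
open SPieces (slin_join)

namespace F1Bip

variable {V : Type} {G : SimpleGraph V} {S T : Finset V} {k l : ℕ}

/-- TARGET -/
theorem f1_bip : ∃ c, ∀ (V : Type) (G : SimpleGraph V) (K X Y : Finset V), Clq G K → Disjoint K X →
    Disjoint K Y → Disjoint X Y → Ind G X → Ind G Y → (∀ x ∈ X, ∀ y ∈ Y, G.Adj x y) →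
    (∀ v ∈ X ∪ Y, (nb G K v).card ≤ 1) → SLin c G (K ∪ X ∪ Y) := by
  refine ⟨3 * (7 + 1), ?_⟩
  intro V G K X Y hK hKX hKY hXY hX hY hjoin hnb
  obtain ⟨f, hf⟩ := Set.countable_iff_exists_injOn.1 (K.countable_toSet)
  obtain ⟨β, hβK, hβ⟩ : ∃ β : V → ℕ, (∀ v ∈ K, β v = f v + 1) ∧
      ∀ v ∈ X ∪ Y, ∀ k ∈ K, G.Adj v k → β v = β k := by
    refine ⟨fun v => if v ∈ K then f v + 1 else if h : (nb G K v).Nonempty then f h.choose + 1
      else 0, ?_, ?_⟩
    · intro v hv
      exact if_pos hv
    · intro v hv k hk hvk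
      have hvK : v ∉ K := by
        intro h
        rcases Finset.mem_union.1 hv with h' | h'
        · exact Finset.disjoint_left.1 hKX h h'
        · exact Finset.disjoint_left.1 hKY h h'
      have hkn : k ∈ nb G K v := Finset.mem_filter.2 ⟨hk, hvk⟩
      have hne : (nb G K v).Nonempty := ⟨k, hkn⟩
      have hch : hne.choose = k :=
        Finset.card_le_one.1 (hnb v hv) _ hne.choose_spec _ hkn
      show (if v ∈ K then f v + 1 else if h : (nb G K v).Nonempty then f h.choose + 1 else 0) =
        (if k ∈ K then f k + 1 else if h : (nb G K k).Nonempty then f h.choose + 1 else 0)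
      rw [if_neg hvK, dif_pos hne, if_pos hk, hch]
  have hβinj : ∀ u ∈ K, ∀ v ∈ K, β u = β v → u = v := by
    intro u hu v hv h
    rw [hβK u hu, hβK v hv] at h
    exact hf hu hv (by omega)
  obtain ⟨c, hc0, hc1, hc2⟩ : ∃ c : V → Fin 3, (∀ v ∈ K, c v = 0) ∧ (∀ v ∈ X, c v = 1) ∧
      (∀ v ∈ Y, c v = 2) := by
    refine ⟨fun v => if v ∈ K then 0 else if v ∈ X then 1 else 2, ?_, ?_, ?_⟩
    · intro v hv
      exact if_pos hv
    · intro v hv
      show (if v ∈ K then (0 : Fin 3) else if v ∈ X then 1 else 2) = 1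
      rw [if_neg (fun h => Finset.disjoint_left.1 hKX h hv), if_pos hv]
    · intro v hv
      show (if v ∈ K then (0 : Fin 3) else if v ∈ X then 1 else 2) = 2
      rw [if_neg (fun h => Finset.disjoint_left.1 hKY h hv),
        if_neg (fun h => Finset.disjoint_left.1 hXY h hv)]
  refine SLin.blocks β c ?_ ?_
  · intro n
    have h6 : SLin (1 * 2 * (1 + 1 + 1)) G (X.filter (fun x => β x = n) ∪ Y.filter (fun x => β x = n)) := by
      refine slin_join ?_ (fun _ => (0 : Fin 1)) (fun _ _ => True) ?_ ?_ ?_
      · exact Finset.disjoint_filter_filter hXY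
      · intro x hx y hy
        exact iff_of_true (hjoin x (Finset.mem_filter.1 hx).1 y (Finset.mem_filter.1 hy).1) trivial
      · apply slin_ind
        intro x hx y hy
        exact hX x (Finset.mem_filter.1 hx).1 y (Finset.mem_filter.1 hy).1
      · apply slin_ind
        intro x hx y hy
        exact hY x (Finset.mem_filter.1 hx).1 y (Finset.mem_filter.1 hy).1
    have hcard : (K.filter (fun x => β x = n)).card ≤ 1 := by
      rw [Finset.card_le_one]
      intro a ha b hb
      rw [Finset.mem_filter] at ha hb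
      exact hβinj a ha.1 b hb.1 (ha.2.trans hb.2.symm)
    have h7 : SLin (1 * 2 * (1 + 1 + 1)) G
        (((K ∪ X ∪ Y).filter (fun x => β x = n)) \ (K.filter (fun x => β x = n))) := by
      refine h6.subset ?_
      intro x hx
      simp only [Finset.mem_sdiff, Finset.mem_filter, Finset.mem_union] at hx ⊢
      obtain ⟨⟨(h | h) | h, h'⟩, h''⟩ := hx
      · exact absurd ⟨h, h'⟩ h''
      · exact Or.inl ⟨h, h'⟩
      · exact Or.inr ⟨h, h'⟩
    refine (SLin.add _ h7).mono_k ?_
    omega
  · intro u hu v hv w hw huw hvw hcuv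
    simp only [Finset.mem_union] at hu hv hw
    have key : ∀ x ∈ X ∪ Y, ∀ k ∈ K, β x ≠ β k → ¬ G.Adj x k := by
      intro x hx k hk hne h
      exact hne (hβ x hx k hk h)
    rcases hu with (hu | hu) | hu <;> rcases hv with (hv | hv) | hv
    · -- both in K
      rcases hw with (hw | hw) | hw
      · refine iff_of_true (hK u hu w hw ?_) (hK v hv w hw ?_)
        · rintro rfl; exact lt_irrefl _ huw
        · rintro rfl; exact lt_irrefl _ hvw
      · refine iff_of_false (fun h => ?_) (fun h => ?_)
        · exact key w (Finset.mem_union_left _ hw) u hu huw.ne' h.symm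
        · exact key w (Finset.mem_union_left _ hw) v hv hvw.ne' h.symm
      · refine iff_of_false (fun h => ?_) (fun h => ?_)
        · exact key w (Finset.mem_union_right _ hw) u hu huw.ne' h.symm
        · exact key w (Finset.mem_union_right _ hw) v hv hvw.ne' h.symm
    · rw [hc0 u hu, hc1 v hv] at hcuv; exact absurd hcuv (by decide)
    · rw [hc0 u hu, hc2 v hv] at hcuv; exact absurd hcuv (by decide)
    · rw [hc1 u hu, hc0 v hv] at hcuv; exact absurd hcuv (by decide)
    · rcases hw with (hw | hw) | hw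
      · exact iff_of_false (key u (Finset.mem_union_left _ hu) w hw huw.ne)
          (key v (Finset.mem_union_left _ hv) w hw hvw.ne)
      · exact iff_of_false (hX u hu w hw) (hX v hv w hw)
      · exact iff_of_true (hjoin u hu w hw) (hjoin v hv w hw)
    · rw [hc1 u hu, hc2 v hv] at hcuv; exact absurd hcuv (by decide)
    · rw [hc2 u hu, hc0 v hv] at hcuv; exact absurd hcuv (by decide)
    · rw [hc2 u hu, hc1 v hv] at hcuv; exact absurd hcuv (by decide)
    · rcases hw with (hw | hw) | hw
      · exact iff_of_false (key u (Finset.mem_union_right _ hu) w hw huw.ne)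
          (key v (Finset.mem_union_right _ hv) w hw hvw.ne)
      · exact iff_of_true (hjoin w hw u hu).symm (hjoin w hw v hv).symm
      · exact iff_of_false (hY u hu w hw) (hY v hv w hw)

end F1Bip

end Pool.Agent.Helper856.Cw
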