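import Pool.Agent.Helper856.Pair.Defs
import Pool.Agent.Helper856.Cw.Union

open Classical SimpleGraph

namespace Pool.Agent.Helper856.Cw

namespace ConnT

variable {V : Type} {G : SimpleGraph V} {S T : Finset V} {k l : ℕ}

/-- TARGET -/
theorem slin_conn (h : ∀ T ⊆ S, Conn G T → SLinN k G T) : SLinN k G S := by
  induction S using Finset.strongInduction with
  | H S ih =>
    by_cases hc : Conn G S
    · exact h S (Finset.Subset.refl S) hc
    · unfold Conn at hc
      push Not at hc
      obtain ⟨X, hXS, hXne, hXneS, hno⟩ := hc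
      have hss : X ⊂ S := Finset.ssubset_iff_subset_ne.mpr ⟨hXS, hXneS⟩
      have hss2 : S \ X ⊂ S := by
        refine Finset.ssubset_iff_subset_ne.mpr ⟨Finset.sdiff_subset, ?_⟩
        intro heq
        obtain ⟨x, hx⟩ := hXne
        have h1 : x ∈ S \ X := by
          rw [heq]
          exact hXS hx
        exact (Finset.mem_sdiff.mp h1).2 hx
      have h1 := ih X hss (fun T hT hconn => h T (hT.trans hXS) hconn)
      have h2 := ih (S \ X) hss2 (fun T hT hconn => h T (hT.trans Finset.sdiff_subset) hconn)
      have h3 := SLinN.union (k := k) (G := G) Finset.disjoint_sdiff hno h1 h2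
      rwa [Finset.union_sdiff_of_subset hXS] at h3

end ConnT

end Pool.Agent.Helper856.Cw
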