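import Pool.Agent.Helper856.Pair.Defs
import Pool.Agent.Helper856.Pair.ConnT
import Pool.Agent.Helper856.Cw.Basic

open Classical SimpleGraph

namespace Pool.Agent.Helper856.Cw

open ConnT (slin_conn)

namespace P3free

variable {V : Type} {G : SimpleGraph V} {S T : Finset V} {k l : ℕ}

/-- TARGET -/
theorem slin_p3free (h : ∀ x ∈ S, ∀ y ∈ S, ∀ z ∈ S, G.Adj x y → G.Adj y z → x ≠ z → G.Adj x z) :
    SLinN 1 G S := by
  apply slin_conn
  intro T hTS hconn
  apply SLin.toN
  have hclique : ∀ x ∈ T, ∀ y ∈ T, x ≠ y → G.Adj x y := by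
    intro x hx y hy hxy
    by_contra hnadj
    have hXT : insert x (T.filter (fun z => G.Adj x z)) ⊆ T := by
      intro z hz
      rcases Finset.mem_insert.1 hz with rfl | hz
      · exact hx
      · exact (Finset.mem_filter.1 hz).1
    have hne : insert x (T.filter (fun z => G.Adj x z)) ≠ T := by
      intro heq
      rw [← heq] at hy
      rcases Finset.mem_insert.1 hy with hy | hy
      · exact hxy hy.symm
      · exact hnadj (Finset.mem_filter.1 hy).2
    obtain ⟨u, hu, v, hv, huv⟩ := hconn _ hXT ⟨x, Finset.mem_insert_self _ _⟩ hne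
    obtain ⟨hvT, hvX⟩ := Finset.mem_sdiff.1 hv
    have hvx : x ≠ v := by
      rintro rfl
      exact hvX (Finset.mem_insert_self _ _)
    have hnot : ¬ G.Adj x v := fun hh => hvX (Finset.mem_insert_of_mem (Finset.mem_filter.2 ⟨hvT, hh⟩))
    rcases Finset.mem_insert.1 hu with rfl | hu
    · exact hnot huv
    · obtain ⟨huT, hxu⟩ := Finset.mem_filter.1 hu
      exact hnot (h x (hTS hx) u (hTS huT) v (hTS hvT) hxu huv hvx)
  refine ⟨fun v => if hv : v ∈ T then ((T.equivFin ⟨v, hv⟩ : Fin _) : ℕ) else 0, ?_, ?_⟩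
  · intro a ha b hb hab
    have ha' : a ∈ T := ha
    have hb' : b ∈ T := hb
    simp only [dif_pos ha', dif_pos hb'] at hab
    have := T.equivFin.injective (Fin.ext hab)
    exact congrArg Subtype.val this
  · intro t
    refine ⟨fun _ => 0, ?_⟩
    intro u hu v hv hpu hpv _ w hw hpw
    have huw : u ≠ w := by
      rintro rfl
      exact absurd hpu (not_lt.2 hpw)
    have hvw : v ≠ w := by
      rintro rfl
      exact absurd hpv (not_lt.2 hpw)
    exact ⟨fun _ => hclique v hv w hw hvw, fun _ => hclique u hu w hw huw⟩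

end P3free

end Pool.Agent.Helper856.Cw
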