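import Pool.Agent.Helper856.Pair.Defs
import Pool.Agent.Helper856.Cw.Basic
import Pool.Agent.Helper856.Cw.Union
import Pool.Agent.Helper856.Cw.Blocks
import Pool.Agent.Helper856.Pair.Induce
import Pool.Agent.Helper856.Pair.P3free
import Pool.Agent.Helper856.Pair.SPieces

open Classical SimpleGraph

namespace Pool.Agent.Helper856.Cw

open Induce (slin_ind)
open P3free (slin_p3free)
open SPieces (pieces)

namespace F1Clus

variable {V : Type} {G : SimpleGraph V} {S T : Finset V} {k l : ℕ}

theorem f1_unique {K : Finset V} {v a b : V} (h : (nb G K v).card ≤ 1) (ha : a ∈ K) (hb : b ∈ K)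
    (h1 : G.Adj v a) (h2 : G.Adj v b) : a = b := by
  apply Finset.card_le_one.1 h
  · unfold nb
    exact Finset.mem_filter.2 ⟨ha, h1⟩
  · unfold nb
    exact Finset.mem_filter.2 ⟨hb, h2⟩

theorem f1_W (K R : Finset V) (hK : Clq G K) (hd : Disjoint K R)
    (h1 : ∀ v ∈ R, (nb G K v).card ≤ 1) (hR : P3F G R) (c0 : V → Fin 4)
    (hc0 : ∀ u ∈ R, ∀ v ∈ R, ∀ w ∈ R, c0 u = c0 v → w ≠ u → w ≠ v → (G.Adj u w ↔ G.Adj v w)) :
    SLin 20 G (K ∪ R) := by
  obtain ⟨f, hf⟩ := Set.countable_iff_exists_injOn.1 (K.countable_toSet)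
  let β : V → ℕ := fun v => if v ∈ K then f v + 1 else
    if h : ∃ k ∈ K, G.Adj v k then f h.choose + 1 else 0
  have hβK : ∀ k ∈ K, β k = f k + 1 := by
    intro k hk
    simp only [β]
    rw [if_pos hk]
  have hRK : ∀ v ∈ R, v ∉ K := fun v hv hvK => Finset.disjoint_left.1 hd hvK hv
  have hβR : ∀ v ∈ R, ∀ k ∈ K, G.Adj v k → β v = f k + 1 := by
    intro v hv k hk hvk
    have hex : ∃ k ∈ K, G.Adj v k := ⟨k, hk, hvk⟩
    simp only [β]
    rw [if_neg (hRK v hv), dif_pos hex]
    have : hex.choose = k := f1_unique (h1 v hv) hex.choose_spec.1 hk hex.choose_spec.2 hvk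
    rw [this]
  have hblk := SLin.blocks (k := 3) (S := K ∪ R) (G := G) β
    (fun v => if v ∈ K then (0 : Fin 5) else (c0 v).succ) ?_ ?_
  · exact hblk
  · intro n
    have hF : ((K ∪ R).filter (fun x => β x = n) ∩ K).card ≤ 1 := by
      rw [Finset.card_le_one]
      intro a ha b hb
      simp only [Finset.mem_inter, Finset.mem_filter] at ha hb
      apply hf ha.2 hb.2
      have e1 := ha.1.2
      have e2 := hb.1.2
      rw [hβK a ha.2] at e1
      rw [hβK b hb.2] at e2
      omega
    have h2 : SLin 2 G ((K ∪ R).filter (fun x => β x = n) \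
        ((K ∪ R).filter (fun x => β x = n) ∩ K)) := by
      apply SLinN.toS
      apply slin_p3free
      have hsub : ∀ x ∈ ((K ∪ R).filter (fun x => β x = n) \
        ((K ∪ R).filter (fun x => β x = n) ∩ K)), x ∈ R := by
        intro x hx
        simp only [Finset.mem_sdiff, Finset.mem_inter, Finset.mem_filter, Finset.mem_union] at hx
        tauto
      intro x hx y hy z hz
      exact hR x (hsub x hx) y (hsub y hy) z (hsub z hz)
    exact (SLin.add _ h2).mono_k (by omega)
  · intro u hu v hv w hw huw hvw hc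
    by_cases huK : u ∈ K
    · have hvK : v ∈ K := by
        by_contra hvK
        rw [if_pos huK, if_neg hvK] at hc
        exact (Fin.succ_ne_zero _ hc.symm)
      rcases Finset.mem_union.1 hw with hwK | hwR
      · have e1 : G.Adj u w := hK u huK w hwK (fun h => by rw [h] at huw; exact lt_irrefl _ huw)
        have e2 : G.Adj v w := hK v hvK w hwK (fun h => by rw [h] at hvw; exact lt_irrefl _ hvw)
        exact ⟨fun _ => e2, fun _ => e1⟩
      · have e1 : ¬ G.Adj u w := by
          intro h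
          have := hβR w hwR u huK h.symm
          rw [hβK u huK] at huw
          omega
        have e2 : ¬ G.Adj v w := by
          intro h
          have := hβR w hwR v hvK h.symm
          rw [hβK v hvK] at hvw
          omega
        exact ⟨fun h => absurd h e1, fun h => absurd h e2⟩
    · have huR : u ∈ R := by
        rcases Finset.mem_union.1 hu with h | h
        · exact absurd h huK
        · exact h
      have hvK : v ∉ K := by
        intro hvK
        rw [if_neg huK, if_pos hvK] at hc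
        exact (Fin.succ_ne_zero _ hc)
      have hvR : v ∈ R := by
        rcases Finset.mem_union.1 hv with h | h
        · exact absurd h hvK
        · exact h
      rw [if_neg huK, if_neg hvK] at hc
      have hc' : c0 u = c0 v := Fin.succ_injective _ hc
      rcases Finset.mem_union.1 hw with hwK | hwR
      · have e1 : ¬ G.Adj u w := by
          intro h
          have := hβR u huR w hwK h
          rw [hβK w hwK] at huw
          omega
        have e2 : ¬ G.Adj v w := by
          intro h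
          have := hβR v hvR w hwK h
          rw [hβK w hwK] at hvw
          omega
        exact ⟨fun h => absurd h e1, fun h => absurd h e2⟩
      · exact hc0 u huR v hvR w hwR hc' (fun h => by rw [h] at huw; exact lt_irrefl _ huw)
          (fun h => by rw [h] at hvw; exact lt_irrefl _ hvw)

theorem f1_X (K R F Z : Finset V) (hK : Clq G K) (hd : Disjoint K R)
    (h1 : ∀ v ∈ R, (nb G K v).card ≤ 1) (hR : P3F G R) (hF : F.card ≤ 2)
    (hFK : F ⊆ K) (hZR : Z ⊆ R)
    (hZK : ∀ z ∈ Z, ∀ k ∈ K, k ∉ F → ¬ G.Adj k z) (hZZ : ∀ z ∈ Z, ∀ r ∈ R, r ∉ Z → ¬ G.Adj r z)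
    (c0 : V → Fin 4)
    (hc0 : ∀ u ∈ R, ∀ v ∈ R, ∀ w ∈ R, u ∉ Z → v ∉ Z → w ∉ Z →
      c0 u = c0 v → w ≠ u → w ≠ v → (G.Adj u w ↔ G.Adj v w)) :
    SLin 23 G (K ∪ R) := by
  have hW : SLin 20 G ((K \ F) ∪ (R \ Z)) := by
    apply f1_W (K \ F) (R \ Z)
    · intro x hx y hy
      exact hK x (Finset.mem_sdiff.1 hx).1 y (Finset.mem_sdiff.1 hy).1
    · exact Finset.disjoint_of_subset_left Finset.sdiff_subset
        (Finset.disjoint_of_subset_right Finset.sdiff_subset hd)
    · intro v hv
      refine le_trans (Finset.card_le_card ?_) (h1 v (Finset.mem_sdiff.1 hv).1)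
      unfold nb
      exact Finset.filter_subset_filter _ Finset.sdiff_subset
    · intro x hx y hy z hz
      exact hR x (Finset.mem_sdiff.1 hx).1 y (Finset.mem_sdiff.1 hy).1 z (Finset.mem_sdiff.1 hz).1
    · intro u hu v hv w hw
      exact hc0 u (Finset.mem_sdiff.1 hu).1 v (Finset.mem_sdiff.1 hv).1 w (Finset.mem_sdiff.1 hw).1
        (Finset.mem_sdiff.1 hu).2 (Finset.mem_sdiff.1 hv).2 (Finset.mem_sdiff.1 hw).2
  have hZ : SLinN 20 G Z := by
    apply SLinN.mono_k (k := 1) _ (by norm_num)
    apply slin_p3free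
    intro x hx y hy z hz
    exact hR x (hZR hx) y (hZR hy) z (hZR hz)
  have hU : SLinN 20 G (((K \ F) ∪ (R \ Z)) ∪ Z) := by
    apply SLinN.union _ _ hW.toN hZ
    · rw [Finset.disjoint_left]
      intro a ha haZ
      rcases Finset.mem_union.1 ha with h | h
      · exact Finset.disjoint_left.1 hd (Finset.mem_sdiff.1 h).1 (hZR haZ)
      · exact (Finset.mem_sdiff.1 h).2 haZ
    · intro u hu v hv
      rcases Finset.mem_union.1 hu with h | h
      · exact hZK v hv u (Finset.mem_sdiff.1 h).1 (Finset.mem_sdiff.1 h).2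
      · exact hZZ v hv u (Finset.mem_sdiff.1 h).1 (Finset.mem_sdiff.1 h).2
  have e1 : (K ∪ R) \ F = ((K \ F) ∪ (R \ Z)) ∪ Z := by
    ext a
    simp only [Finset.mem_sdiff, Finset.mem_union]
    constructor
    · rintro ⟨h | h, h'⟩
      · exact Or.inl (Or.inl ⟨h, h'⟩)
      · by_cases ha : a ∈ Z
        · exact Or.inr ha
        · exact Or.inl (Or.inr ⟨h, ha⟩)
    · rintro ((h | h) | h)
      · exact ⟨Or.inl h.1, h.2⟩
      · refine ⟨Or.inr h.1, fun hF' => ?_⟩
        exact Finset.disjoint_left.1 hd (hFK hF') h.1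
      · refine ⟨Or.inr (hZR h), fun hF' => ?_⟩
        exact Finset.disjoint_left.1 hd (hFK hF') (hZR h)
  have h2 : SLin 21 G ((K ∪ R) \ F) := by
    rw [e1]
    exact hU.toS
  exact (SLin.add F h2).mono_k (by omega)

/-- `y` in the class of `x` -/
def f1_rel (G : SimpleGraph V) (x y : V) : Prop := x = y ∨ G.Adj x y

theorem f1_rel_symm {x y : V} (h : f1_rel G x y) : f1_rel G y x := by
  rcases h with h | h
  · exact Or.inl h.symm
  · exact Or.inr h.symm

theorem f1_rel_trans {R : Finset V} (hR : P3F G R) {x y z : V} (hx : x ∈ R) (hy : y ∈ R)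
    (hz : z ∈ R) (h1 : f1_rel G x y) (h2 : f1_rel G y z) : f1_rel G x z := by
  rcases h1 with rfl | h1
  · exact h2
  rcases h2 with rfl | h2
  · exact Or.inr h1
  by_cases h : x = z
  · exact Or.inl h
  · exact Or.inr (hR x hx y hy z hz h1 h2 h)

theorem f1_adj_iff {R : Finset V} (hR : P3F G R) {u v w : V} (hu : u ∈ R) (hv : v ∈ R)
    (hw : w ∈ R) (h1 : f1_rel G u v) (hwu : w ≠ u) (hwv : w ≠ v) : G.Adj u w ↔ G.Adj v w := by
  constructor
  · intro h
    rcases f1_rel_trans hR hv hu hw (f1_rel_symm h1) (Or.inr h) with h3 | h3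
    · exact absurd h3.symm hwv
    · exact h3
  · intro h
    rcases f1_rel_trans hR hu hv hw h1 (Or.inr h) with h3 | h3
    · exact absurd h3.symm hwu
    · exact h3

theorem f1_key (hP : NoP1P2P3 G) (K R : Finset V) (hK : Clq G K) (hK12 : 12 ≤ K.card)
    (hd : Disjoint K R) (h1 : ∀ v ∈ R, (nb G K v).card ≤ 1)
    (x y z u k : V) (hx : x ∈ R) (hy : y ∈ R) (hz : z ∈ R) (hu : u ∈ R) (hk : k ∈ K)
    (hxk : G.Adj x k) (hyz : G.Adj y z) (hxy : ¬ f1_rel G x y) (hxz : ¬ f1_rel G x z)
    (hyk : ¬ G.Adj y k) (hzk : ¬ G.Adj z k) (hxu : ¬ f1_rel G x u) (huk : ¬ G.Adj u k)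
    (huy : ¬ f1_rel G u y) (huz : ¬ f1_rel G u z) : False := by
  obtain ⟨k', hk', hn⟩ : ∃ k' ∈ K, k' ∉ ({k} ∪ (nb G K x ∪ (nb G K y ∪ (nb G K z ∪ nb G K u)))) := by
    by_contra hcon
    push Not at hcon
    have hsub : K ⊆ ({k} ∪ (nb G K x ∪ (nb G K y ∪ (nb G K z ∪ nb G K u)))) := hcon
    have c0 := Finset.card_le_card hsub
    have c1 := Finset.card_union_le {k} (nb G K x ∪ (nb G K y ∪ (nb G K z ∪ nb G K u)))
    have c2 := Finset.card_union_le (nb G K x) (nb G K y ∪ (nb G K z ∪ nb G K u))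
    have c3 := Finset.card_union_le (nb G K y) (nb G K z ∪ nb G K u)
    have c4 := Finset.card_union_le (nb G K z) (nb G K u)
    have d1 := h1 x hx
    have d2 := h1 y hy
    have d3 := h1 z hz
    have d4 := h1 u hu
    rw [Finset.card_singleton] at c1
    omega
  simp only [Finset.mem_union, Finset.mem_singleton, nb, Finset.mem_filter, not_or, not_and] at hn
  obtain ⟨n1, n2, n3, n4, n5⟩ := hn
  have hne : x ≠ k' := fun h => Finset.disjoint_left.1 hd hk' (h ▸ hx)
  exact hP u y z x k k' hyz hxk (hK k hk k' hk' (Ne.symm n1)) hne (n2 hk')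
    (fun h => huy (Or.inr h)) (fun h => huz (Or.inr h)) (fun h => hxu (Or.inr h.symm)) huk (n5 hk')
    (fun h => hxy (Or.inr h.symm)) hyk (n3 hk') (fun h => hxz (Or.inr h.symm)) hzk (n4 hk')

/-- TARGET -/
theorem f1_clus : ∃ c, ∀ (V : Type) (G : SimpleGraph V) (K R : Finset V), NoDia G → NoP1P2P3 G →
    Clq G K → 12 ≤ K.card → Disjoint K R → (∀ v ∈ R, (nb G K v).card ≤ 1) → P3F G R →
    SLin c G (K ∪ R) := by
  refine ⟨23, ?_⟩
  intro V G K R _ hP hK hK12 hd h1 hR
  -- attached vertices of K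
  by_cases hA : (K.filter (fun k => ∃ x ∈ R, G.Adj x k)).card ≤ 2
  · refine f1_X K R (K.filter (fun k => ∃ x ∈ R, G.Adj x k)) R hK hd h1 hR hA
      (Finset.filter_subset _ _) (Finset.Subset.refl _) ?_ ?_ (fun _ => 0) ?_
    · intro z hz k hk hkF h
      exact hkF (Finset.mem_filter.2 ⟨hk, z, hz, h.symm⟩)
    · intro z _ r hr hr'
      exact absurd hr hr'
    · intro u hu v hv w hw hu'
      exact absurd hu hu'
  by_cases hB : ∃ x ∈ R, ∃ k ∈ K, G.Adj x k ∧ ∃ y ∈ R, ∃ z ∈ R, G.Adj y z ∧ ¬ f1_rel G x y ∧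
      ¬ G.Adj y k ∧ ¬ G.Adj z k
  · obtain ⟨x, hx, k, hk, hxk, y, hy, z, hz, hyz, hxy, hyk, hzk⟩ := hB
    have hxz : ¬ f1_rel G x z := fun h =>
      hxy (f1_rel_trans hR hx hz hy h (Or.inr hyz.symm))
    have hcov : ∀ u ∈ R, f1_rel G x u ∨ f1_rel G y u ∨ G.Adj u k := by
      intro u hu
      by_contra hcon
      push Not at hcon
      obtain ⟨hu1, hu2, hu3⟩ := hcon
      refine f1_key hP K R hK hK12 hd h1 x y z u k hx hy hz hu hk hxk hyz hxy hxz hyk hzk hu1 hu3
        (fun h => hu2 (f1_rel_symm h)) ?_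
      intro h
      exact hu2 (f1_rel_trans hR hy hz hu (Or.inr hyz) (f1_rel_symm h))
    refine f1_X K R {k} (R.filter (fun u => ¬ f1_rel G x u ∧ ¬ f1_rel G y u)) hK hd h1 hR
      (by rw [Finset.card_singleton]; norm_num)
      (Finset.singleton_subset_iff.2 hk) (Finset.filter_subset _ _) ?_ ?_
      (fun u => if f1_rel G x u then 0 else 1) ?_
    · intro u hu k' hk' hkk' h
      rw [Finset.mem_filter] at hu
      obtain ⟨huR, hu1, hu2⟩ := hu
      have h3 : G.Adj u k := by
        rcases hcov u huR with h3 | h3 | h3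
        · exact absurd h3 hu1
        · exact absurd h3 hu2
        · exact h3
      apply hkk'
      rw [Finset.mem_singleton]
      exact f1_unique (h1 u huR) hk' hk h.symm h3
    · intro u hu r hr hr' h
      rw [Finset.mem_filter] at hu
      obtain ⟨huR, hu1, hu2⟩ := hu
      apply hr'
      rw [Finset.mem_filter]
      refine ⟨hr, fun h3 => ?_, fun h3 => ?_⟩
      · exact hu1 (f1_rel_trans hR hx hr huR h3 (Or.inr h))
      · exact hu2 (f1_rel_trans hR hy hr huR h3 (Or.inr h))
    · intro u hu v hv w hw hu' hv' hw' hc hwu hwv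
      have hmem : ∀ a ∈ R, a ∉ R.filter (fun u => ¬ f1_rel G x u ∧ ¬ f1_rel G y u) →
          f1_rel G x a ∨ f1_rel G y a := by
        intro a ha ha'
        by_contra hcon
        push Not at hcon
        exact ha' (Finset.mem_filter.2 ⟨ha, hcon⟩)
      have ruv : f1_rel G u v := by
        by_cases hxu : f1_rel G x u
        · by_cases hxv : f1_rel G x v
          · exact f1_rel_trans hR hu hx hv (f1_rel_symm hxu) hxv
          · simp only [if_pos hxu, if_neg hxv] at hc
            exact absurd hc (by decide)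
        · by_cases hxv : f1_rel G x v
          · simp only [if_neg hxu, if_pos hxv] at hc
            exact absurd hc (by decide)
          · have e1 : f1_rel G y u := (hmem u hu hu').resolve_left hxu
            have e2 : f1_rel G y v := (hmem v hv hv').resolve_left hxv
            exact f1_rel_trans hR hu hy hv (f1_rel_symm e1) e2
      exact f1_adj_iff hR hu hv hw ruv hwu hwv
  · push Not at hB
    have hA3 : 2 < (K.filter (fun k => ∃ x ∈ R, G.Adj x k)).card := by omega
    obtain ⟨k1, k2, k3, m1, m2, m3, n12, n13, n23⟩ := Finset.two_lt_card_iff.1 hA3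
    rw [Finset.mem_filter] at m1 m2 m3
    obtain ⟨K1, x1, hx1, a1⟩ := m1
    obtain ⟨K2, x2, hx2, a2⟩ := m2
    obtain ⟨K3, x3, hx3, a3⟩ := m3
    have hiso : ∀ y ∈ R, ¬ f1_rel G x1 y → ¬ f1_rel G x2 y → ¬ f1_rel G x3 y → ∀ z ∈ R,
        ¬ G.Adj y z := by
      intro y hy r1 r2 r3 z hz hyz
      have b1 := hB x1 hx1 k1 K1 a1 y hy z hz hyz r1
      have b2 := hB x2 hx2 k2 K2 a2 y hy z hz hyz r2
      have b3 := hB x3 hx3 k3 K3 a3 y hy z hz hyz r3
      by_cases c1 : G.Adj y k1
      · have c2 : ¬ G.Adj y k2 := fun h => n12 (f1_unique (h1 y hy) K1 K2 c1 h)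
        have c3 : ¬ G.Adj y k3 := fun h => n13 (f1_unique (h1 y hy) K1 K3 c1 h)
        exact n23 (f1_unique (h1 z hz) K2 K3 (b2 c2) (b3 c3))
      · have d1 := b1 c1
        by_cases c2 : G.Adj y k2
        · have c3 : ¬ G.Adj y k3 := fun h => n23 (f1_unique (h1 y hy) K2 K3 c2 h)
          exact n13 (f1_unique (h1 z hz) K1 K3 d1 (b3 c3))
        · exact n12 (f1_unique (h1 z hz) K1 K2 d1 (b2 c2))
    refine SLin.mono_k (f1_W K R hK hd h1 hR
      (fun u => if f1_rel G x1 u then 0 else if f1_rel G x2 u then 1 else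
        if f1_rel G x3 u then 2 else 3) ?_) (by norm_num)
    intro u hu v hv w hw hc hwu hwv
    have hrel : ∀ x ∈ R, f1_rel G x u → f1_rel G x v → (G.Adj u w ↔ G.Adj v w) := by
      intro x hx e1 e2
      exact f1_adj_iff hR hu hv hw (f1_rel_trans hR hu hx hv (f1_rel_symm e1) e2) hwu hwv
    by_cases p1 : f1_rel G x1 u
    · by_cases q1 : f1_rel G x1 v
      · exact hrel x1 hx1 p1 q1
      · rw [if_pos p1, if_neg q1] at hc
        exfalso
        split_ifs at hc <;> revert hc <;> decide
    · by_cases q1 : f1_rel G x1 v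
      · rw [if_neg p1, if_pos q1] at hc
        exfalso
        split_ifs at hc <;> revert hc <;> decide
      · rw [if_neg p1, if_neg q1] at hc
        by_cases p2 : f1_rel G x2 u
        · by_cases q2 : f1_rel G x2 v
          · exact hrel x2 hx2 p2 q2
          · rw [if_pos p2, if_neg q2] at hc
            exfalso
            split_ifs at hc <;> revert hc <;> decide
        · by_cases q2 : f1_rel G x2 v
          · rw [if_neg p2, if_pos q2] at hc
            exfalso
            split_ifs at hc <;> revert hc <;> decide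
          · rw [if_neg p2, if_neg q2] at hc
            by_cases p3 : f1_rel G x3 u
            · by_cases q3 : f1_rel G x3 v
              · exact hrel x3 hx3 p3 q3
              · rw [if_pos p3, if_neg q3] at hc
                exact absurd hc (by decide)
            · by_cases q3 : f1_rel G x3 v
              · rw [if_neg p3, if_pos q3] at hc
                exact absurd hc (by decide)
              · exact ⟨fun h => absurd h (hiso u hu p1 p2 p3 w hw),
                  fun h => absurd h (hiso v hv q1 q2 q3 w hw)⟩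

end F1Clus

end Pool.Agent.Helper856.Cw
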