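import Pool.Agent.Helper856.Pair.Defs

open Classical SimpleGraph

namespace Pool.Agent.Helper856.Cw

namespace Olariu

variable {V : Type} {G : SimpleGraph V} {S T : Finset V} {k l : ℕ}

theorem ol_tri (hc : Conn G S) (hp : NoPaw G S) {a b c : V} (ha : a ∈ S) (hb : b ∈ S) (hcc : c ∈ S)
    (hab : G.Adj a b) (hac : G.Adj a c) (hbc : G.Adj b c) :
    ∀ v ∈ S, ∃ p ∈ S, ∃ q ∈ S, G.Adj v p ∧ G.Adj v q ∧ G.Adj p q := by
  have key : S.filter (fun v => ∃ p ∈ S, ∃ q ∈ S, G.Adj v p ∧ G.Adj v q ∧ G.Adj p q) = S := by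
    by_contra hne
    obtain ⟨u, hu, v, hv, huv⟩ := hc _ (Finset.filter_subset _ _)
      ⟨a, Finset.mem_filter.2 ⟨ha, b, hb, c, hcc, hab, hac, hbc⟩⟩ hne
    rw [Finset.mem_filter] at hu
    obtain ⟨huS, p, hpS, q, hqS, hup, huq, hpq⟩ := hu
    rw [Finset.mem_sdiff, Finset.mem_filter] at hv
    obtain ⟨hvS, hvn⟩ := hv
    have hvn' : ¬ ∃ p ∈ S, ∃ q ∈ S, G.Adj v p ∧ G.Adj v q ∧ G.Adj p q := fun h => hvn ⟨hvS, h⟩
    refine hp u huS p hpS q hqS v hvS hup huq hpq huv ?_ ?_ ?_ ?_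
    · intro h
      exact hvn' ⟨u, huS, p, hpS, huv.symm, h.symm, hup⟩
    · intro h
      exact hvn' ⟨u, huS, q, hqS, huv.symm, h.symm, huq⟩
    · rintro rfl
      exact hvn' ⟨u, huS, q, hqS, hup.symm, hpq, huq⟩
    · rintro rfl
      exact hvn' ⟨u, huS, p, hpS, huq.symm, hpq.symm, hup⟩
  intro v hv
  rw [← key, Finset.mem_filter] at hv
  exact hv.2

theorem ol_edge (hp : NoPaw G S)
    (ht : ∀ v ∈ S, ∃ p ∈ S, ∃ q ∈ S, G.Adj v p ∧ G.Adj v q ∧ G.Adj p q)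
    {x y : V} (hx : x ∈ S) (hy : y ∈ S) (hxy : G.Adj x y) :
    ∃ z ∈ S, G.Adj x z ∧ G.Adj y z := by
  obtain ⟨p, hpS, q, hqS, hxp, hxq, hpq⟩ := ht x hx
  by_cases h1 : p = y
  · subst h1
    exact ⟨q, hqS, hxq, hpq⟩
  by_cases h2 : q = y
  · subst h2
    exact ⟨p, hpS, hxp, hpq.symm⟩
  by_cases h3 : G.Adj p y
  · exact ⟨p, hpS, hxp, h3.symm⟩
  by_cases h4 : G.Adj q y
  · exact ⟨q, hqS, hxq, h4.symm⟩
  exact (hp x hx p hpS q hqS y hy hxp hxq hpq hxy h3 h4 h1 h2).elim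

theorem ol_sub (hp : NoPaw G S)
    (ht : ∀ v ∈ S, ∃ p ∈ S, ∃ q ∈ S, G.Adj v p ∧ G.Adj v q ∧ G.Adj p q)
    {x y u w : V} (hx : x ∈ S) (hy : y ∈ S) (hu : u ∈ S) (hw : w ∈ S) (hxy : G.Adj x y)
    (hux : G.Adj u x) (huw : G.Adj u w) (h1 : w ≠ x) (h2 : w ≠ y) (h3 : ¬G.Adj w x)
    (h4 : ¬G.Adj w y) : False := by
  by_cases huy : G.Adj u y
  · exact hp u hu x hx y hy w hw hux huy hxy huw (fun h => h3 h.symm) (fun h => h4 h.symm)
      h1.symm h2.symm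
  obtain ⟨z, hz, hxz, hyz⟩ := ol_edge hp ht hx hy hxy
  have huy' : y ≠ u := by
    rintro rfl
    exact h4 huw.symm
  have hzu : G.Adj z u := by
    by_contra hcon
    refine hp x hx y hy z hz u hu hxy hxz hyz hux.symm (fun h => huy h.symm) hcon huy' ?_
    rintro rfl
    exact huy hyz.symm
  have hzw : G.Adj z w := by
    by_contra hcon
    refine hp u hu x hx z hz w hw hux hzu.symm hxz huw (fun h => h3 h.symm) hcon h1.symm ?_
    rintro rfl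
    exact h3 hxz.symm
  exact hp z hz x hx y hy w hw hxz.symm hyz.symm hxy hzw (fun h => h3 h.symm)
    (fun h => h4 h.symm) h1.symm h2.symm

theorem ol_dom (hc : Conn G S) (hp : NoPaw G S)
    (ht : ∀ v ∈ S, ∃ p ∈ S, ∃ q ∈ S, G.Adj v p ∧ G.Adj v q ∧ G.Adj p q)
    {x y : V} (hx : x ∈ S) (hy : y ∈ S) (hxy : G.Adj x y) :
    ∀ w ∈ S, w = x ∨ w = y ∨ G.Adj w x ∨ G.Adj w y := by
  have key : S.filter (fun w => w = x ∨ w = y ∨ G.Adj w x ∨ G.Adj w y) = S := by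
    by_contra hne
    obtain ⟨u, hu, w, hw, huw⟩ := hc _ (Finset.filter_subset _ _)
      ⟨x, Finset.mem_filter.2 ⟨hx, Or.inl rfl⟩⟩ hne
    rw [Finset.mem_filter] at hu
    rw [Finset.mem_sdiff, Finset.mem_filter] at hw
    obtain ⟨huS, hu'⟩ := hu
    obtain ⟨hwS, hw'⟩ := hw
    have hwn : ¬ (w = x ∨ w = y ∨ G.Adj w x ∨ G.Adj w y) := fun h => hw' ⟨hwS, h⟩
    push Not at hwn
    obtain ⟨h1, h2, h3, h4⟩ := hwn
    rcases hu' with rfl | rfl | h | h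
    · exact h3 huw.symm
    · exact h4 huw.symm
    · exact ol_sub hp ht hx hy huS hwS hxy h huw h1 h2 h3 h4
    · exact ol_sub hp ht hy hx huS hwS hxy.symm h huw h2 h1 h4 h3
  intro w hw
  rw [← key, Finset.mem_filter] at hw
  exact hw.2

/-- TARGET -/
theorem olariu (hc : Conn G S) (hp : NoPaw G S) {a b c : V} (ha : a ∈ S) (hb : b ∈ S) (hcc : c ∈ S)
    (hab : G.Adj a b) (hac : G.Adj a c) (hbc : G.Adj b c) :
    ∀ x ∈ S, ∀ y ∈ S, ∀ z ∈ S, Gᶜ.Adj x y → Gᶜ.Adj y z → x ≠ z → Gᶜ.Adj x z := by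
  intro x hx y hy z hz hxy hyz hxz
  rw [SimpleGraph.compl_adj] at hxy hyz ⊢
  refine ⟨hxz, fun h => ?_⟩
  rcases ol_dom hc hp (ol_tri hc hp ha hb hcc hab hac hbc) hx hz h y hy with h1 | h1 | h1 | h1
  · exact hxy.1 h1.symm
  · exact hyz.1 h1
  · exact hxy.2 h1.symm
  · exact hyz.2 h1

end Olariu

end Pool.Agent.Helper856.Cw
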