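import Pool.Agent.Helper856.Pair.Defs
import Pool.Agent.Helper856.Pair.Olariu

open Classical SimpleGraph

namespace Pool.Agent.Helper856.Cw

open Olariu (olariu)

namespace F1Struct

variable {V : Type} {G : SimpleGraph V} {S T : Finset V} {k l : ℕ}

theorem f1_struct_comp (R : Finset V) (a : V) (ha : a ∈ R) :
    ∃ X : Finset V, a ∈ X ∧ X ⊆ R ∧ (∀ x ∈ X, ∀ y ∈ R \ X, G.Adj x y) ∧ Conn Gᶜ X := by
  let P : Finset V → Prop := fun X => a ∈ X ∧ ∀ x ∈ X, ∀ y ∈ R \ X, G.Adj x y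
  have hne : (R.powerset.filter P).Nonempty := by
    refine ⟨R, ?_⟩
    rw [Finset.mem_filter, Finset.mem_powerset]
    refine ⟨Finset.Subset.refl _, ha, ?_⟩
    intro x _ y hy
    rw [Finset.sdiff_self] at hy
    simp at hy
  obtain ⟨X, hX, hmin⟩ := Finset.exists_min_image (R.powerset.filter P) Finset.card hne
  rw [Finset.mem_filter, Finset.mem_powerset] at hX
  obtain ⟨hXR, haX, hcomp⟩ := hX
  refine ⟨X, haX, hXR, hcomp, ?_⟩
  intro Z hZ hZne hZX
  by_contra hcon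
  push Not at hcon
  have hadj : ∀ u ∈ Z, ∀ v ∈ X \ Z, G.Adj u v := by
    intro u hu v hv
    have h1 := hcon u hu v hv
    rw [SimpleGraph.compl_adj] at h1
    push Not at h1
    apply h1
    rintro rfl
    exact (Finset.mem_sdiff.1 hv).2 hu
  -- general reduction
  have key : ∀ W : Finset V, W ⊆ X → W ≠ X → a ∈ W → (∀ u ∈ W, ∀ v ∈ X \ W, G.Adj u v) → False := by
    intro W hW hWX haW hWadj
    have hmem : W ∈ R.powerset.filter P := by
      rw [Finset.mem_filter, Finset.mem_powerset]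
      refine ⟨hW.trans hXR, haW, ?_⟩
      intro x hx y hy
      rw [Finset.mem_sdiff] at hy
      by_cases hyX : y ∈ X
      · exact hWadj x hx y (Finset.mem_sdiff.2 ⟨hyX, hy.2⟩)
      · exact hcomp x (hW hx) y (Finset.mem_sdiff.2 ⟨hy.1, hyX⟩)
    have h1 := hmin W hmem
    have h2 : W.card < X.card := Finset.card_lt_card (Finset.ssubset_iff_subset_ne.2 ⟨hW, hWX⟩)
    omega
  by_cases haZ : a ∈ Z
  · exact key Z hZ hZX haZ hadj
  · refine key (X \ Z) Finset.sdiff_subset ?_ (Finset.mem_sdiff.2 ⟨haX, haZ⟩) ?_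
    · intro h
      obtain ⟨z, hz⟩ := hZne
      have : z ∈ X \ Z := by rw [h]; exact hZ hz
      exact (Finset.mem_sdiff.1 this).2 hz
    · intro u hu v hv
      have hvZ : v ∈ Z := by
        rw [Finset.mem_sdiff, Finset.mem_sdiff] at hv
        by_contra hvn
        exact hv.2 ⟨hv.1, hvn⟩
      exact (hadj v hvZ u hu).symm

/-- TARGET -/
theorem f1_struct (hd : NoDia G) {R : Finset V} (h : NoP1P3T G R) :
    (∃ v, P3F G (R \ {v})) ∨
    (∃ X Y : Finset V, R = X ∪ Y ∧ Disjoint X Y ∧ Ind G X ∧ Ind G Y ∧ ∀ x ∈ X, ∀ y ∈ Y, G.Adj x y) ∨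
    (∀ a ∈ R, ∀ b ∈ R, ∀ c ∈ R, a ≠ b → a ≠ c → b ≠ c → G.Adj a b ∨ G.Adj a c ∨ G.Adj b c) := by
  by_cases h3 : ∀ a ∈ R, ∀ b ∈ R, ∀ c ∈ R, a ≠ b → a ≠ c → b ≠ c →
      G.Adj a b ∨ G.Adj a c ∨ G.Adj b c
  · exact Or.inr (Or.inr h3)
  push Not at h3
  obtain ⟨a, ha, b, hb, c, hc, hab, hac, hbc, nab, nac, nbc⟩ := h3
  obtain ⟨X, haX, hXR, hcomp, hconn⟩ := f1_struct_comp (G := G) R a ha
  have hin : ∀ x ∈ R, ¬ G.Adj a x → x ∈ X := by
    intro x hx hn
    by_contra hxX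
    exact hn (hcomp a haX x (Finset.mem_sdiff.2 ⟨hx, hxX⟩))
  have hbX := hin b hb nab
  have hcX := hin c hc nac
  have hpaw : NoPaw Gᶜ X := by
    intro p hp q hq r hr s hs pq pr qr ps qs rs hqs hrs
    rw [SimpleGraph.compl_adj] at pq pr qr ps
    rw [SimpleGraph.compl_adj] at qs rs
    push Not at qs rs
    have q1 : G.Adj q s := qs hqs
    have r1 : G.Adj r s := rs hrs
    exact h p (hXR hp) q (hXR hq) s (hXR hs) r (hXR hr) q1 r1.symm qr.1 qr.2 pq.2 ps.2 pr.2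
  have hX3 : P3F G X := by
    have h1 := olariu hconn hpaw haX hbX hcX
      ((SimpleGraph.compl_adj G a b).2 ⟨hab, nab⟩) ((SimpleGraph.compl_adj G a c).2 ⟨hac, nac⟩)
      ((SimpleGraph.compl_adj G b c).2 ⟨hbc, nbc⟩)
    rw [compl_compl] at h1
    exact h1
  have hYind : Ind G (R \ X) := by
    intro y hy y' hy' hadj
    exact nab (hd y y' a b hadj (hcomp a haX y hy).symm (hcomp a haX y' hy').symm
      (hcomp b hbX y hy).symm (hcomp b hbX y' hy').symm hab)
  by_cases hY : ∃ y ∈ R \ X, ∃ y' ∈ R \ X, y ≠ y'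
  · right; left
    obtain ⟨y, hy, y', hy', hne⟩ := hY
    refine ⟨X, R \ X, (Finset.union_sdiff_of_subset hXR).symm, Finset.disjoint_sdiff, ?_, hYind,
      hcomp⟩
    intro x hx x' hx' hadj
    exact hYind y hy y' hy' (hd x x' y y' hadj (hcomp x hx y hy) (hcomp x' hx' y hy)
      (hcomp x hx y' hy') (hcomp x' hx' y' hy') hne)
  · left
    push Not at hY
    by_cases hE : (R \ X).Nonempty
    · obtain ⟨y, hy⟩ := hE
      refine ⟨y, ?_⟩
      have hsub : R \ {y} ⊆ X := by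
        intro x hx
        rw [Finset.mem_sdiff, Finset.mem_singleton] at hx
        by_contra hxX
        exact hx.2 (hY x (Finset.mem_sdiff.2 ⟨hx.1, hxX⟩) y hy)
      intro x hx z hz w hw
      exact hX3 x (hsub hx) z (hsub hz) w (hsub hw)
    · refine ⟨a, ?_⟩
      have hsub : R \ {a} ⊆ X := by
        intro x hx
        rw [Finset.mem_sdiff] at hx
        by_contra hxX
        exact hE ⟨x, Finset.mem_sdiff.2 ⟨hx.1, hxX⟩⟩
      intro x hx z hz w hw
      exact hX3 x (hsub hx) z (hsub hz) w (hsub hw)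

end F1Struct

end Pool.Agent.Helper856.Cw
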