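import Pool.Agent.Helper856.Pair.Defs
import Pool.Agent.Helper856.Cw.Basic
import Pool.Agent.Helper856.Pair.Induce
import Pool.Agent.Helper856.Pair.DiaA2
import Pool.Agent.Helper856.Pair.F1Struct
import Pool.Agent.Helper856.Pair.F1Bip
import Pool.Agent.Helper856.Pair.F1Clus

open Classical SimpleGraph

namespace Pool.Agent.Helper856.Cw

open Induce (slin_of_induce)
open DiaA2 (row_dia_a)
open F1Struct (f1_struct)
open F1Bip (f1_bip)
open F1Clus (f1_clus)

namespace F1Big

variable {V : Type} {G : SimpleGraph V} {S T : Finset V} {k l : ℕ}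

/-- TARGET -/
theorem f1_big : ∃ c, ∀ (V : Type) (G : SimpleGraph V) (S K0 : Finset V), NoDia G → NoP1P2P3 G →
    K0 ⊆ S → Clq G K0 → 12 ≤ K0.card → SLin c G S := by
  obtain ⟨Ka, hKa⟩ := row_dia_a
  obtain ⟨cb, hcb⟩ := f1_bip
  obtain ⟨cc, hcc⟩ := f1_clus
  refine ⟨(Ka + 1) + cb + (cc + 1), ?_⟩
  intro V G S K0 hd h123 hK0S hK0 h12
  have hne : (S.powerset.filter (fun K => K0 ⊆ K ∧ Clq G K)).Nonempty :=
    ⟨K0, by simp only [Finset.mem_filter, Finset.mem_powerset]; exact ⟨hK0S, subset_rfl, hK0⟩⟩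
  obtain ⟨K, hKm, hKmax⟩ := Finset.exists_max_image _ (fun K => K.card) hne
  simp only [Finset.mem_filter, Finset.mem_powerset] at hKm hKmax
  obtain ⟨hKS, hK0K, hKc⟩ := hKm
  have hK12 : 12 ≤ K.card := h12.trans (Finset.card_le_card hK0K)
  have hRmem : ∀ v, v ∈ S \ K ↔ v ∈ S ∧ v ∉ K := fun v => Finset.mem_sdiff
  have hnb : ∀ v ∈ S \ K, (nb G K v).card ≤ 1 := by
    intro v hv
    rw [hRmem] at hv
    by_contra hcon
    push Not at hcon
    obtain ⟨k1, hk1, k2, hk2, hk12⟩ := Finset.one_lt_card.1 hcon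
    unfold nb at hk1 hk2
    rw [Finset.mem_filter] at hk1 hk2
    have hadj : ∀ w ∈ K, G.Adj v w := by
      intro w hw
      by_cases h1 : w = k1
      · rw [h1]; exact hk1.2
      by_cases h2 : w = k2
      · rw [h2]; exact hk2.2
      exact hd k1 k2 v w (hKc _ hk1.1 _ hk2.1 hk12) hk1.2.symm hk2.2.symm
        (hKc _ hk1.1 _ hw (Ne.symm h1)) (hKc _ hk2.1 _ hw (Ne.symm h2))
        (fun h => hv.2 (h ▸ hw))
    have hins : insert v K ⊆ S ∧ K0 ⊆ insert v K ∧ Clq G (insert v K) := by
      refine ⟨Finset.insert_subset hv.1 hKS, hK0K.trans (Finset.subset_insert _ _), ?_⟩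
      intro x hx y hy hxy
      rw [Finset.mem_insert] at hx hy
      rcases hx with rfl | hx
      · rcases hy with rfl | hy
        · exact absurd rfl hxy
        · exact hadj y hy
      · rcases hy with rfl | hy
        · exact (hadj x hx).symm
        · exact hKc x hx y hy hxy
    have := hKmax (insert v K) hins
    rw [Finset.card_insert_of_notMem hv.2] at this
    omega
  have hT : NoP1P3T G (S \ K) := by
    intro p hp a ha b hb c hc hab hbc hac hnac hpa hpb hpc
    have hcard : 1 < (K \ (nb G K p ∪ nb G K a ∪ nb G K b ∪ nb G K c)).card := by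
      have h1 := Finset.le_card_sdiff (nb G K p ∪ nb G K a ∪ nb G K b ∪ nb G K c) K
      have h2 := Finset.card_union_le (nb G K p ∪ nb G K a ∪ nb G K b) (nb G K c)
      have h3 := Finset.card_union_le (nb G K p ∪ nb G K a) (nb G K b)
      have h4 := Finset.card_union_le (nb G K p) (nb G K a)
      have e1 := hnb p hp
      have e2 := hnb a ha
      have e3 := hnb b hb
      have e4 := hnb c hc
      omega
    obtain ⟨x, hx, y, hy, hxy⟩ := Finset.one_lt_card.1 hcard
    have key : ∀ z, z ∈ K \ (nb G K p ∪ nb G K a ∪ nb G K b ∪ nb G K c) →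
        z ∈ K ∧ ¬ G.Adj p z ∧ ¬ G.Adj a z ∧ ¬ G.Adj b z ∧ ¬ G.Adj c z := by
      intro z hz
      simp only [Finset.mem_sdiff, Finset.mem_union, nb, Finset.mem_filter, not_or, not_and] at hz
      exact ⟨hz.1, hz.2.1.1.1 hz.1, hz.2.1.1.2 hz.1, hz.2.1.2 hz.1, hz.2.2 hz.1⟩
    obtain ⟨hxK, x1, x2, x3, x4⟩ := key x hx
    obtain ⟨hyK, y1, y2, y3, y4⟩ := key y hy
    exact h123 p x y a b c (hKc x hxK y hyK hxy) hab hbc hac hnac x1 y1 hpa hpb hpc
      (fun h => x2 h.symm) (fun h => x3 h.symm) (fun h => x4 h.symm)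
      (fun h => y2 h.symm) (fun h => y3 h.symm) (fun h => y4 h.symm)
  rcases f1_struct hd hT with ⟨v, hv⟩ | ⟨X, Y, hR, hXY, hX, hY, hadj⟩ | h3
  · have h1 : SLin cc G (K ∪ ((S \ K) \ {v})) := by
      apply hcc V G K _ hd h123 hKc hK12
      · rw [Finset.disjoint_left]
        intro z hz hz'
        rw [Finset.mem_sdiff, hRmem] at hz'
        exact hz'.1.2 hz
      · intro z hz
        rw [Finset.mem_sdiff] at hz
        exact hnb z hz.1
      · exact hv
    have h2 : SLin cc G (S \ {v}) := by
      apply h1.subset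
      intro z hz
      rw [Finset.mem_sdiff] at hz
      rw [Finset.mem_union, Finset.mem_sdiff, hRmem]
      by_cases hzK : z ∈ K
      · exact Or.inl hzK
      · exact Or.inr ⟨⟨hz.1, hzK⟩, hz.2⟩
    have h4 := SLin.add {v} h2
    rw [Finset.card_singleton] at h4
    exact h4.mono_k (by omega)
  · have hdK : ∀ z ∈ X ∪ Y, z ∉ K := by
      intro z hz
      rw [← hR, hRmem] at hz
      exact hz.2
    have h1 : SLin cb G (K ∪ X ∪ Y) := by
      apply hcb V G K X Y hKc _ _ hXY hX hY hadj
      · intro z hz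
        rw [← hR] at hz
        exact hnb z hz
      · rw [Finset.disjoint_left]
        intro z hz hz'
        exact hdK z (Finset.mem_union_left _ hz') hz
      · rw [Finset.disjoint_left]
        intro z hz hz'
        exact hdK z (Finset.mem_union_right _ hz') hz
    have h2 : SLin cb G S := by
      apply h1.subset
      intro z hz
      by_cases hzK : z ∈ K
      · exact Finset.mem_union_left _ (Finset.mem_union_left _ hzK)
      · have : z ∈ X ∪ Y := by rw [← hR, hRmem]; exact ⟨hz, hzK⟩
        rw [Finset.mem_union] at this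
        rcases this with h | h
        · exact Finset.mem_union_left _ (Finset.mem_union_right _ h)
        · exact Finset.mem_union_right _ h
    exact h2.mono_k (by omega)
  · have hnK : ∀ a ∈ K, ∀ b ∈ S, a ≠ b → ¬ G.Adj a b → b ∈ S \ K := by
      intro a ha b hb hab hnab
      rw [hRmem]
      exact ⟨hb, fun hbK => hnab (hKc a ha b hbK hab)⟩
    have hG' : SLin Ka (G.induce (S : Set V)) (Finset.univ : Finset (S : Set V)) := by
      apply hKa
      · intro x y a b hxy hxa hya hxb hyb hab
        exact hd x y a b hxy hxa hya hxb hyb (fun h => hab (Subtype.ext h))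
      · rintro ⟨p, hp⟩ ⟨q, hq⟩ ⟨r, hr⟩ ⟨x, hx⟩ ⟨y, hy⟩ hxy hpq hpr hqr npq npr nqr hpx hpy hqx hqy
          hrx hry
        have hp' : p ∈ S := hp
        have hq' : q ∈ S := hq
        have hr' : r ∈ S := hr
        have hx' : x ∈ S := hx
        have hxy' : G.Adj x y := hxy
        have hpq' : ¬ G.Adj p q := hpq
        have hpr' : ¬ G.Adj p r := hpr
        have hqr' : ¬ G.Adj q r := hqr
        have hpx' : ¬ G.Adj p x := hpx
        have hpy' : ¬ G.Adj p y := hpy
        have hqx' : ¬ G.Adj q x := hqx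
        have hqy' : ¬ G.Adj q y := hqy
        have hrx' : ¬ G.Adj r x := hrx
        have hry' : ¬ G.Adj r y := hry
        have epq : p ≠ q := fun h => npq (Subtype.ext h)
        have epr : p ≠ r := fun h => npr (Subtype.ext h)
        have eqr : q ≠ r := fun h => nqr (Subtype.ext h)
        have epx : p ≠ x := by rintro rfl; exact hpy' hxy'
        have eqx : q ≠ x := by rintro rfl; exact hqy' hxy'
        have erx : r ≠ x := by rintro rfl; exact hry' hxy'
        have hsymm : ∀ a b, ¬ G.Adj a b → ¬ G.Adj b a := fun a b h h' => h h'.symm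
        by_cases kp : p ∈ K
        · have := h3 q (hnK p kp q hq' epq hpq') r (hnK p kp r hr' epr hpr') x
            (hnK p kp x hx' epx hpx') eqr eqx erx
          tauto
        by_cases kq : q ∈ K
        · have := h3 p ((hRmem _).2 ⟨hp', kp⟩) r (hnK q kq r hr' eqr hqr') x
            (hnK q kq x hx' eqx hqx') epr epx erx
          tauto
        by_cases kr : r ∈ K
        · have := h3 p ((hRmem _).2 ⟨hp', kp⟩) q ((hRmem _).2 ⟨hq', kq⟩) x
            (hnK r kr x hx' erx hrx') epq epx eqx
          tauto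
        have := h3 p ((hRmem _).2 ⟨hp', kp⟩) q ((hRmem _).2 ⟨hq', kq⟩) r
            ((hRmem _).2 ⟨hr', kr⟩) epq epr eqr
        tauto
    have h1 := slin_of_induce (Nat.succ_pos Ka) (hG'.mono_k (Nat.le_succ Ka))
    exact h1.mono_k (by omega)

end F1Big

end Pool.Agent.Helper856.Cw
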