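import Pool.Agent.Helper856.Pair.Defs
import Pool.Agent.Helper856.Cw.Basic
import Pool.Agent.Helper856.Pair.P3free

open Classical SimpleGraph

namespace Pool.Agent.Helper856.Cw

open P3free (slin_p3free)

namespace P0F1

variable {V : Type} {G : SimpleGraph V} {S T : Finset V} {k l : ℕ}

theorem f1_idx2 : ∀ i k : Fin 6, ∃ i' j' : Fin 6, i' ≠ j' ∧ i' ≠ i ∧ i' ≠ k ∧ j' ≠ i ∧ j' ≠ k := by
  decide

theorem f1_idx3 : ∀ i k l : Fin 6, ∃ i' j' : Fin 6, i' ≠ j' ∧ i' ≠ i ∧ i' ≠ k ∧ i' ≠ l ∧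
    j' ≠ i ∧ j' ≠ k ∧ j' ≠ l := by
  decide

/-- two non-neighbours in a triangle that is not complete -/
theorem f1_edge (hd : NoDia G) {t : Fin 6 → Fin 3 → V}
    (hadj : ∀ i a b, a ≠ b → G.Adj (t i a) (t i b)) {v : V} {j : Fin 6}
    (hv : ∀ a, v ≠ t j a) (hn : ¬ ∀ a, G.Adj v (t j a)) :
    ∃ a b, a ≠ b ∧ ¬ G.Adj v (t j a) ∧ ¬ G.Adj v (t j b) := by
  by_contra hcon
  push Not at hcon hn
  obtain ⟨c, hc⟩ := hn
  have h1 : ∀ b, b ≠ c → G.Adj v (t j b) := fun b hb => hcon c b hb.symm hc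
  have h2 : ∀ c : Fin 3, ∃ a b : Fin 3, a ≠ b ∧ a ≠ c ∧ b ≠ c := by decide
  obtain ⟨a, b, hab, hac, hbc⟩ := h2 c
  have h3 := hd (t j a) (t j b) v (t j c) (hadj j a b hab) (h1 a hac).symm (h1 b hbc).symm
    (hadj j a c hac) (hadj j b c hbc) (hv c)
  exact hc h3

theorem f1_one (hd : NoDia G) (hf : NoP1P2P3 G) {t : Fin 6 → Fin 3 → V}
    (hadj : ∀ i a b, a ≠ b → G.Adj (t i a) (t i b))
    (h0 : ∀ i j a b, i ≠ j → ¬G.Adj (t i a) (t j b)) {v : V} {i : Fin 6}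
    (hvi : ∀ a, v ≠ t i a) {s s' : Fin 3} (hs : G.Adj v (t i s)) (hs' : ¬ G.Adj v (t i s'))
    {j k : Fin 6} (hji : j ≠ i) (hki : k ≠ i) (hjk : j ≠ k) :
    (∀ a, G.Adj v (t j a)) ∨ (∀ a, G.Adj v (t k a)) := by
  by_contra hcon
  push Not at hcon
  obtain ⟨hj, hk⟩ := hcon
  have hvj : ∀ a, v ≠ t j a := by
    intro a h
    rw [h] at hs
    exact h0 j i a s hji hs
  obtain ⟨p, q, hpq, hp, hq⟩ := f1_edge hd hadj hvj (by push Not; exact hj)
  obtain ⟨r, hr⟩ := hk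
  have hss' : s ≠ s' := by
    rintro rfl
    exact hs' hs
  exact hf (t k r) (t j p) (t j q) v (t i s) (t i s') (hadj j p q hpq) hs (hadj i s s' hss')
    (hvi s') hs' (h0 k j r p hjk.symm) (h0 k j r q hjk.symm) (fun h => hr h.symm)
    (h0 k i r s hki) (h0 k i r s' hki) (fun h => hp h.symm) (h0 j i p s hji) (h0 j i p s' hji)
    (fun h => hq h.symm) (h0 j i q s hji) (h0 j i q s' hji)

theorem f1_two (hd : NoDia G) (hf : NoP1P2P3 G) {t : Fin 6 → Fin 3 → V}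
    (hadj : ∀ i a b, a ≠ b → G.Adj (t i a) (t i b))
    (hdis : ∀ i j a b, t i a = t j b → i = j)
    (h0 : ∀ i j a b, i ≠ j → ¬G.Adj (t i a) (t j b)) {v : V} {i j : Fin 6} (hij : i ≠ j)
    (hi : ∀ a, G.Adj v (t i a)) (hj : ∀ a, G.Adj v (t j a))
    {k l : Fin 6} (hki : k ≠ i) (hkj : k ≠ j) (hli : l ≠ i) (hlj : l ≠ j) (hkl : k ≠ l) :
    (∀ a, G.Adj v (t k a)) ∨ (∀ a, G.Adj v (t l a)) := by
  by_contra hcon
  push Not at hcon
  obtain ⟨hk, hl⟩ := hcon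
  have hvk : ∀ a, v ≠ t k a := by
    intro a h
    have := hi 0
    rw [h] at this
    exact h0 k i a 0 hki this
  obtain ⟨p, q, hpq, hp, hq⟩ := f1_edge hd hadj hvk (by push Not; exact hk)
  obtain ⟨r, hr⟩ := hl
  exact hf (t l r) (t k p) (t k q) (t i 0) v (t j 0) (hadj k p q hpq) (hi 0).symm (hj 0)
    (fun h => hij (hdis i j 0 0 h)) (h0 i j 0 0 hij) (h0 l k r p hkl.symm) (h0 l k r q hkl.symm)
    (h0 l i r 0 hli) (fun h => hr h.symm) (h0 l j r 0 hlj) (h0 k i p 0 hki)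
    (fun h => hp h.symm) (h0 k j p 0 hkj) (h0 k i q 0 hki) (fun h => hq h.symm) (h0 k j q 0 hkj)

theorem f1_class (hd : NoDia G) (hf : NoP1P2P3 G) {t : Fin 6 → Fin 3 → V}
    (hadj : ∀ i a b, a ≠ b → G.Adj (t i a) (t i b))
    (hdis : ∀ i j a b, t i a = t j b → i = j)
    (h0 : ∀ i j a b, i ≠ j → ¬G.Adj (t i a) (t j b)) (v : V) :
    (∃ i0 : Fin 6, ∀ i, i ≠ i0 → ∀ a, G.Adj v (t i a)) ∨
      (∃ i0 : Fin 6, ∀ i, i ≠ i0 → ∀ a, ¬ G.Adj v (t i a)) := by
  by_cases hZ : ∃ i0 : Fin 6, ∀ i, i ≠ i0 → ∀ a, ¬ G.Adj v (t i a)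
  · exact Or.inr hZ
  left
  push Not at hZ
  obtain ⟨i, -, a, ha⟩ := hZ 0
  obtain ⟨j, hji, b, hb⟩ := hZ i
  have hnot : ∀ k c, v ≠ t k c := by
    intro k c h
    have hki : k = i := by
      by_contra hne
      rw [h] at ha
      exact h0 k i c a hne ha
    have hkj : k = j := by
      by_contra hne
      rw [h] at hb
      exact h0 k j c b hne hb
    exact hji (hkj.symm.trans hki)
  -- if some `T i` has a neighbour and a non-neighbour then all others are complete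
  have hone : ∀ (i : Fin 6) (s s' : Fin 3), G.Adj v (t i s) → ¬ G.Adj v (t i s') →
      ∀ k, k ≠ i → ∀ a, G.Adj v (t k a) := by
    intro i s s' hs hs' k hki
    by_contra hk
    have hall : ∀ l, l ≠ i → l ≠ k → ∀ a, G.Adj v (t l a) := by
      intro l hli hlk
      rcases f1_one hd hf hadj h0 (hnot i) hs hs' hki hli hlk.symm with h | h
      · exact absurd h hk
      · exact h
    obtain ⟨i', j', h1, h2, h3, h4, h5⟩ := f1_idx2 i k
    rcases f1_two hd hf hadj hdis h0 h1 (hall i' h2 h3) (hall j' h4 h5) (k := i) (l := k)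
      h2.symm h4.symm h3.symm h5.symm hki.symm with h | h
    · exact hs' (h s')
    · exact hk h
  by_cases hci : ∀ a, G.Adj v (t i a)
  · by_cases hcj : ∀ a, G.Adj v (t j a)
    · by_cases hall : ∀ k, ∀ a, G.Adj v (t k a)
      · exact ⟨0, fun k _ => hall k⟩
      · push Not at hall
        obtain ⟨k, c, hc⟩ := hall
        have hki : k ≠ i := by
          rintro rfl
          exact hc (hci c)
        have hkj : k ≠ j := by
          rintro rfl
          exact hc (hcj c)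
        refine ⟨k, fun l hlk => ?_⟩
        by_cases hli : l = i
        · rw [hli]; exact hci
        by_cases hlj : l = j
        · rw [hlj]; exact hcj
        rcases f1_two hd hf hadj hdis h0 (Ne.symm hji) hci hcj hki hkj hli hlj hlk.symm with h | h
        · exact absurd (h c) hc
        · exact h
    · push Not at hcj
      obtain ⟨s', hs'⟩ := hcj
      exact ⟨j, fun k hk => hone j b s' hb hs' k hk⟩
  · push Not at hci
    obtain ⟨s', hs'⟩ := hci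
    exact ⟨i, fun k hk => hone i a s' ha hs' k hk⟩

/-- TARGET -/
theorem p0_f1 (hd : NoDia G) (hf : NoP1P2P3 G) {T : Finset V} {t : Fin 6 → Fin 3 → V} (ht : PTri G T t)
    (h0 : ∀ i j a b, i ≠ j → ¬G.Adj (t i a) (t j b)) (S : Finset V) : SLin 3 G S := by
  obtain ⟨-, hadj, hdis⟩ := ht
  have hcl := f1_class hd hf hadj hdis h0
  let F : Finset V := S.filter (fun v => ∃ i0 : Fin 6, ∀ i, i ≠ i0 → ∀ a, G.Adj v (t i a))
  have hF : F.card ≤ 1 := by
    rw [Finset.card_le_one]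
    intro v hv w hw
    by_contra hne
    obtain ⟨-, i0, hi0⟩ := Finset.mem_filter.mp hv
    obtain ⟨-, j0, hj0⟩ := Finset.mem_filter.mp hw
    obtain ⟨i, j, h1, h2, h3, h4, h5⟩ := f1_idx2 i0 j0
    have hvw : G.Adj v w := hd (t i 0) (t i 1) v w (hadj i 0 1 (by decide)) (hi0 i h2 0).symm
      (hi0 i h2 1).symm (hj0 i h3 0).symm (hj0 i h3 1).symm hne
    exact h0 i j 0 0 h1 (hd v w (t i 0) (t j 0) hvw (hi0 i h2 0) (hj0 i h3 0) (hi0 j h4 0)
      (hj0 j h5 0) (fun h => h1 (hdis i j 0 0 h)))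
  have hS' : SLinN 1 G (S \ F) := by
    apply slin_p3free
    intro x hx y hy z hz hxy hyz hxz
    by_contra hnxz
    have hZ : ∀ u ∈ S \ F, ∃ i0 : Fin 6, ∀ i, i ≠ i0 → ∀ a, ¬ G.Adj u (t i a) := by
      intro u hu
      obtain ⟨huS, huF⟩ := Finset.mem_sdiff.mp hu
      rcases hcl u with h | h
      · exact absurd (Finset.mem_filter.mpr ⟨huS, h⟩) huF
      · exact h
    obtain ⟨ix, hix⟩ := hZ x hx
    obtain ⟨iy, hiy⟩ := hZ y hy
    obtain ⟨iz, hiz⟩ := hZ z hz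
    obtain ⟨j, k, h1, h2, h3, h4, h5, h6, h7⟩ := f1_idx3 ix iy iz
    exact hf (t k 0) (t j 0) (t j 1) x y z (hadj j 0 1 (by decide)) hxy hyz hxz hnxz
      (h0 k j 0 0 h1.symm) (h0 k j 0 1 h1.symm) (fun h => hix k h5 0 h.symm)
      (fun h => hiy k h6 0 h.symm) (fun h => hiz k h7 0 h.symm)
      (fun h => hix j h2 0 h.symm) (fun h => hiy j h3 0 h.symm) (fun h => hiz j h4 0 h.symm)
      (fun h => hix j h2 1 h.symm) (fun h => hiy j h3 1 h.symm) (fun h => hiz j h4 1 h.symm)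
  have h1 : SLin (1 + 1) G (S \ F) := hS'.toS
  have h2 := SLin.add F h1
  exact h2.mono_k (by omega)

end P0F1

end Pool.Agent.Helper856.Cw
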