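import Pool.Agent.Helper856.Pair.Defs

open Classical SimpleGraph

namespace Pool.Agent.Helper856.Cw

namespace PbFacts

variable {V : Type} {G : SimpleGraph V} {S T : Finset V} {k l : ℕ}

/-- all adjacency facts of five linked triangles -/
theorem pf_facts {x y z : Fin 5 → V} (hb : PB G x y z) :
    (∀ i j, G.Adj (x i) (y j)) ∧ (∀ i j, G.Adj (y i) (x j)) ∧
    (∀ i j, G.Adj (x i) (z j) ↔ i = j) ∧ (∀ i j, G.Adj (z i) (x j) ↔ i = j) ∧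
    (∀ i j, G.Adj (y i) (z j) ↔ i = j) ∧ (∀ i j, G.Adj (z i) (y j) ↔ i = j) ∧
    (∀ i j, ¬G.Adj (x i) (x j)) ∧ (∀ i j, ¬G.Adj (y i) (y j)) ∧ (∀ i j, ¬G.Adj (z i) (z j)) := by
  refine ⟨fun i j => (hb i j).1, fun i j => (hb j i).1.symm, fun i j => (hb i j).2.1, fun i j => ?_,
    fun i j => (hb i j).2.2.1, fun i j => ?_, fun i j => (hb i j).2.2.2.1,
    fun i j => (hb i j).2.2.2.2.1, fun i j => (hb i j).2.2.2.2.2⟩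
  · rw [G.adj_comm, (hb j i).2.1, eq_comm]
  · rw [G.adj_comm, (hb j i).2.2.1, eq_comm]

theorem pf_inj {x y z : Fin 5 → V} (hb : PB G x y z) :
    (∀ i j, x i = x j ↔ i = j) ∧ (∀ i j, y i = y j ↔ i = j) ∧ (∀ i j, z i = z j ↔ i = j) := by
  refine ⟨fun i j => ⟨fun h => ?_, fun h => by rw [h]⟩, fun i j => ⟨fun h => ?_, fun h => by rw [h]⟩,
    fun i j => ⟨fun h => ?_, fun h => by rw [h]⟩⟩
  · have h1 := (hb i i).2.1.2 rfl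
    rw [h] at h1
    exact ((hb j i).2.1.1 h1).symm
  · have h1 := (hb i i).2.2.1.2 rfl
    rw [h] at h1
    exact ((hb j i).2.2.1.1 h1).symm
  · have h1 := (hb i i).2.1.2 rfl
    rw [h] at h1
    exact (hb i j).2.1.1 h1

theorem pf_sa {x y z : Fin 5 → V} {v : V}
    (h1 : ∀ i, G.Adj v (x i) ∧ ¬G.Adj v (y i) ∧ ¬G.Adj v (z i)) :
    ∀ i, G.Adj (x i) v ∧ ¬G.Adj (y i) v ∧ ¬G.Adj (z i) v :=
  fun i => ⟨(h1 i).1.symm, fun h => (h1 i).2.1 h.symm, fun h => (h1 i).2.2 h.symm⟩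

theorem pf_sb {x y z : Fin 5 → V} {v : V}
    (h1 : ∀ i, ¬G.Adj v (x i) ∧ G.Adj v (y i) ∧ ¬G.Adj v (z i)) :
    ∀ i, ¬G.Adj (x i) v ∧ G.Adj (y i) v ∧ ¬G.Adj (z i) v :=
  fun i => ⟨fun h => (h1 i).1 h.symm, (h1 i).2.1.symm, fun h => (h1 i).2.2 h.symm⟩

theorem pf_sc {x y z : Fin 5 → V} {v : V}
    (h1 : ∀ i, ¬G.Adj v (x i) ∧ ¬G.Adj v (y i) ∧ G.Adj v (z i)) :
    ∀ i, ¬G.Adj (x i) v ∧ ¬G.Adj (y i) v ∧ G.Adj (z i) v :=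
  fun i => ⟨fun h => (h1 i).1 h.symm, fun h => (h1 i).2.1 h.symm, (h1 i).2.2.symm⟩

theorem pf_sz {x y z : Fin 5 → V} {v : V}
    (h1 : ∀ i, ¬G.Adj v (x i) ∧ ¬G.Adj v (y i) ∧ ¬G.Adj v (z i)) :
    ∀ i, ¬G.Adj (x i) v ∧ ¬G.Adj (y i) v ∧ ¬G.Adj (z i) v :=
  fun i => ⟨fun h => (h1 i).1 h.symm, fun h => (h1 i).2.1 h.symm, fun h => (h1 i).2.2 h.symm⟩


/-- TARGET -/
theorem pf_aa {x y z : Fin 5 → V} (hd : NoDia G) (hf : NoP1P2P3 G) (hb : PB G x y z) {v w : V}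
    (h1 : ∀ i, G.Adj v (x i) ∧ ¬G.Adj v (y i) ∧ ¬G.Adj v (z i))
    (h2 : ∀ i, G.Adj w (x i) ∧ ¬G.Adj w (y i) ∧ ¬G.Adj w (z i)) : ¬G.Adj v w := by
  obtain ⟨xy, yx, xz, zx, yz, zy, xx, yy, zz⟩ := pf_facts hb
  obtain ⟨ix, iy, iz⟩ := pf_inj hb
  intro e
  exact xx 0 1 (hd v w (x 0) (x 1) e (h1 0).1 (h2 0).1 (h1 1).1 (h2 1).1 (by simp [ix]))

/-- TARGET -/
theorem pf_bb {x y z : Fin 5 → V} (hd : NoDia G) (hf : NoP1P2P3 G) (hb : PB G x y z) {v w : V}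
    (h1 : ∀ i, ¬G.Adj v (x i) ∧ G.Adj v (y i) ∧ ¬G.Adj v (z i))
    (h2 : ∀ i, ¬G.Adj w (x i) ∧ G.Adj w (y i) ∧ ¬G.Adj w (z i)) : ¬G.Adj v w := by
  obtain ⟨xy, yx, xz, zx, yz, zy, xx, yy, zz⟩ := pf_facts hb
  obtain ⟨ix, iy, iz⟩ := pf_inj hb
  intro e
  exact yy 0 1 (hd v w (y 0) (y 1) e (h1 0).2.1 (h2 0).2.1 (h1 1).2.1 (h2 1).2.1 (by simp [iy]))

/-- TARGET -/
theorem pf_cc {x y z : Fin 5 → V} (hd : NoDia G) (hf : NoP1P2P3 G) (hb : PB G x y z) {v w : V}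
    (h1 : ∀ i, ¬G.Adj v (x i) ∧ ¬G.Adj v (y i) ∧ G.Adj v (z i))
    (h2 : ∀ i, ¬G.Adj w (x i) ∧ ¬G.Adj w (y i) ∧ G.Adj w (z i)) : ¬G.Adj v w := by
  obtain ⟨xy, yx, xz, zx, yz, zy, xx, yy, zz⟩ := pf_facts hb
  obtain ⟨ix, iy, iz⟩ := pf_inj hb
  intro e
  exact zz 0 1 (hd v w (z 0) (z 1) e (h1 0).2.2 (h2 0).2.2 (h1 1).2.2 (h2 1).2.2 (by simp [iz]))

/-- TARGET -/
theorem pf_zz {x y z : Fin 5 → V} (hd : NoDia G) (hf : NoP1P2P3 G) (hb : PB G x y z) {v w : V}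
    (h1 : ∀ i, ¬G.Adj v (x i) ∧ ¬G.Adj v (y i) ∧ ¬G.Adj v (z i))
    (h2 : ∀ i, ¬G.Adj w (x i) ∧ ¬G.Adj w (y i) ∧ ¬G.Adj w (z i)) : ¬G.Adj v w := by
  obtain ⟨xy, yx, xz, zx, yz, zy, xx, yy, zz⟩ := pf_facts hb
  obtain ⟨ix, iy, iz⟩ := pf_inj hb
  intro e
  have h1' := pf_sz h1
  have h2' := pf_sz h2
  refine hf (z 0) v w (x 1) (y 1) (x 2) ?_ ?_ ?_ ?_ ?_ ?_ ?_ ?_ ?_ ?_ ?_ ?_ ?_ ?_ ?_ ?_
  all_goals simp [xy, yx, xz, zx, yz, zy, xx, yy, zz, ix, iy, iz, h1, h2, h1', h2', e]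

/-- TARGET -/
theorem pf_cz {x y z : Fin 5 → V} (hd : NoDia G) (hf : NoP1P2P3 G) (hb : PB G x y z) {v w : V}
    (h1 : ∀ i, ¬G.Adj v (x i) ∧ ¬G.Adj v (y i) ∧ G.Adj v (z i))
    (h2 : ∀ i, ¬G.Adj w (x i) ∧ ¬G.Adj w (y i) ∧ ¬G.Adj w (z i)) : G.Adj v w := by
  obtain ⟨xy, yx, xz, zx, yz, zy, xx, yy, zz⟩ := pf_facts hb
  obtain ⟨ix, iy, iz⟩ := pf_inj hb
  by_contra e
  have e' : ¬G.Adj w v := fun h => e h.symm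
  have h1' := pf_sc h1
  have h2' := pf_sz h2
  refine hf w (x 0) (y 0) (z 1) v (z 2) ?_ ?_ ?_ ?_ ?_ ?_ ?_ ?_ ?_ ?_ ?_ ?_ ?_ ?_ ?_ ?_
  all_goals simp [xy, yx, xz, zx, yz, zy, xx, yy, zz, ix, iy, iz, h1, h2, h1', h2', e, e']

/-- TARGET -/
theorem pf_zaa {x y z : Fin 5 → V} (hd : NoDia G) (hf : NoP1P2P3 G) (hb : PB G x y z) {w v v' : V}
    (h0 : ∀ i, ¬G.Adj w (x i) ∧ ¬G.Adj w (y i) ∧ ¬G.Adj w (z i))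
    (h1 : ∀ i, G.Adj v (x i) ∧ ¬G.Adj v (y i) ∧ ¬G.Adj v (z i))
    (h2 : ∀ i, G.Adj v' (x i) ∧ ¬G.Adj v' (y i) ∧ ¬G.Adj v' (z i))
    (e1 : G.Adj w v) (e2 : G.Adj w v') : v = v' := by
  obtain ⟨xy, yx, xz, zx, yz, zy, xx, yy, zz⟩ := pf_facts hb
  obtain ⟨ix, iy, iz⟩ := pf_inj hb
  by_contra hne
  have e3 := pf_aa hd hf hb h1 h2
  have h0' := pf_sz h0
  have h1' := pf_sa h1
  have h2' := pf_sa h2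
  have e1' := e1.symm
  refine hf (y 0) (y 1) (z 1) v w v' ?_ ?_ ?_ ?_ ?_ ?_ ?_ ?_ ?_ ?_ ?_ ?_ ?_ ?_ ?_ ?_
  all_goals simp [xy, yx, xz, zx, yz, zy, xx, yy, zz, ix, iy, iz, h0, h1, h2, h0', h1', h2', e1, e2, e3, e1', hne]

/-- TARGET -/
theorem pf_zza {x y z : Fin 5 → V} (hd : NoDia G) (hf : NoP1P2P3 G) (hb : PB G x y z) {w w' v : V}
    (h0 : ∀ i, ¬G.Adj w (x i) ∧ ¬G.Adj w (y i) ∧ ¬G.Adj w (z i))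
    (h1 : ∀ i, ¬G.Adj w' (x i) ∧ ¬G.Adj w' (y i) ∧ ¬G.Adj w' (z i))
    (h2 : ∀ i, G.Adj v (x i) ∧ ¬G.Adj v (y i) ∧ ¬G.Adj v (z i))
    (e1 : G.Adj w v) (e2 : G.Adj w' v) : w = w' := by
  obtain ⟨xy, yx, xz, zx, yz, zy, xx, yy, zz⟩ := pf_facts hb
  obtain ⟨ix, iy, iz⟩ := pf_inj hb
  by_contra hne
  have e3 := pf_zz hd hf hb h0 h1
  have h0' := pf_sz h0
  have h1' := pf_sz h1
  have h2' := pf_sa h2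
  have e2' := e2.symm
  refine hf (y 0) (y 1) (z 1) w v w' ?_ ?_ ?_ ?_ ?_ ?_ ?_ ?_ ?_ ?_ ?_ ?_ ?_ ?_ ?_ ?_
  all_goals simp [xy, yx, xz, zx, yz, zy, xx, yy, zz, ix, iy, iz, h0, h1, h2, h0', h1', h2', e1, e2, e3, e2', hne]

/-- TARGET -/
theorem pf_zbb {x y z : Fin 5 → V} (hd : NoDia G) (hf : NoP1P2P3 G) (hb : PB G x y z) {w v v' : V}
    (h0 : ∀ i, ¬G.Adj w (x i) ∧ ¬G.Adj w (y i) ∧ ¬G.Adj w (z i))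
    (h1 : ∀ i, ¬G.Adj v (x i) ∧ G.Adj v (y i) ∧ ¬G.Adj v (z i))
    (h2 : ∀ i, ¬G.Adj v' (x i) ∧ G.Adj v' (y i) ∧ ¬G.Adj v' (z i))
    (e1 : G.Adj w v) (e2 : G.Adj w v') : v = v' := by
  obtain ⟨xy, yx, xz, zx, yz, zy, xx, yy, zz⟩ := pf_facts hb
  obtain ⟨ix, iy, iz⟩ := pf_inj hb
  by_contra hne
  have e3 := pf_bb hd hf hb h1 h2
  have h0' := pf_sz h0
  have h1' := pf_sb h1
  have h2' := pf_sb h2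
  have e1' := e1.symm
  refine hf (x 0) (x 1) (z 1) v w v' ?_ ?_ ?_ ?_ ?_ ?_ ?_ ?_ ?_ ?_ ?_ ?_ ?_ ?_ ?_ ?_
  all_goals simp [xy, yx, xz, zx, yz, zy, xx, yy, zz, ix, iy, iz, h0, h1, h2, h0', h1', h2', e1, e2, e3, e1', hne]

/-- TARGET -/
theorem pf_zzb {x y z : Fin 5 → V} (hd : NoDia G) (hf : NoP1P2P3 G) (hb : PB G x y z) {w w' v : V}
    (h0 : ∀ i, ¬G.Adj w (x i) ∧ ¬G.Adj w (y i) ∧ ¬G.Adj w (z i))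
    (h1 : ∀ i, ¬G.Adj w' (x i) ∧ ¬G.Adj w' (y i) ∧ ¬G.Adj w' (z i))
    (h2 : ∀ i, ¬G.Adj v (x i) ∧ G.Adj v (y i) ∧ ¬G.Adj v (z i))
    (e1 : G.Adj w v) (e2 : G.Adj w' v) : w = w' := by
  obtain ⟨xy, yx, xz, zx, yz, zy, xx, yy, zz⟩ := pf_facts hb
  obtain ⟨ix, iy, iz⟩ := pf_inj hb
  by_contra hne
  have e3 := pf_zz hd hf hb h0 h1
  have h0' := pf_sz h0
  have h1' := pf_sz h1
  have h2' := pf_sb h2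
  have e2' := e2.symm
  refine hf (x 0) (x 1) (z 1) w v w' ?_ ?_ ?_ ?_ ?_ ?_ ?_ ?_ ?_ ?_ ?_ ?_ ?_ ?_ ?_ ?_
  all_goals simp [xy, yx, xz, zx, yz, zy, xx, yy, zz, ix, iy, iz, h0, h1, h2, h0', h1', h2', e1, e2, e3, e2', hne]

/-- TARGET -/
theorem pf_h1 {x y z : Fin 5 → V} (hd : NoDia G) (hf : NoP1P2P3 G) (hb : PB G x y z) {v u w : V}
    (h0 : ∀ i, G.Adj v (x i) ∧ ¬G.Adj v (y i) ∧ ¬G.Adj v (z i))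
    (h1 : ∀ i, ¬G.Adj u (x i) ∧ G.Adj u (y i) ∧ ¬G.Adj u (z i))
    (h2 : ∀ i, ¬G.Adj w (x i) ∧ ¬G.Adj w (y i) ∧ ¬G.Adj w (z i))
    (e1 : G.Adj v w) : G.Adj v u ∨ G.Adj u w := by
  obtain ⟨xy, yx, xz, zx, yz, zy, xx, yy, zz⟩ := pf_facts hb
  obtain ⟨ix, iy, iz⟩ := pf_inj hb
  by_contra hc
  push Not at hc
  obtain ⟨c1, c2⟩ := hc
  have c1' : ¬G.Adj u v := fun h => c1 h.symm
  have c2' : ¬G.Adj w u := fun h => c2 h.symm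
  have h0' := pf_sa h0
  have h1' := pf_sb h1
  have h2' := pf_sz h2
  refine hf (z 0) v w (y 1) u (y 2) ?_ ?_ ?_ ?_ ?_ ?_ ?_ ?_ ?_ ?_ ?_ ?_ ?_ ?_ ?_ ?_
  all_goals simp [xy, yx, xz, zx, yz, zy, xx, yy, zz, ix, iy, iz, h0, h1, h2, h0', h1', h2', e1, c1, c2, c1', c2']

/-- TARGET -/
theorem pf_h2 {x y z : Fin 5 → V} (hd : NoDia G) (hf : NoP1P2P3 G) (hb : PB G x y z) {v u w : V}
    (h0 : ∀ i, G.Adj v (x i) ∧ ¬G.Adj v (y i) ∧ ¬G.Adj v (z i))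
    (h1 : ∀ i, ¬G.Adj u (x i) ∧ G.Adj u (y i) ∧ ¬G.Adj u (z i))
    (h2 : ∀ i, ¬G.Adj w (x i) ∧ ¬G.Adj w (y i) ∧ ¬G.Adj w (z i))
    (e1 : G.Adj u w) : G.Adj v u ∨ G.Adj v w := by
  obtain ⟨xy, yx, xz, zx, yz, zy, xx, yy, zz⟩ := pf_facts hb
  obtain ⟨ix, iy, iz⟩ := pf_inj hb
  by_contra hc
  push Not at hc
  obtain ⟨c1, c2⟩ := hc
  have c1' : ¬G.Adj u v := fun h => c1 h.symm
  have c2' : ¬G.Adj w v := fun h => c2 h.symm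
  have h0' := pf_sa h0
  have h1' := pf_sb h1
  have h2' := pf_sz h2
  refine hf (z 0) u w (x 1) v (x 2) ?_ ?_ ?_ ?_ ?_ ?_ ?_ ?_ ?_ ?_ ?_ ?_ ?_ ?_ ?_ ?_
  all_goals simp [xy, yx, xz, zx, yz, zy, xx, yy, zz, ix, iy, iz, h0, h1, h2, h0', h1', h2', e1, c1, c2, c1', c2']

/-- TARGET -/
theorem pf_nit {x y z : Fin 5 → V} (hd : NoDia G) (hf : NoP1P2P3 G) (hb : PB G x y z) {v u w : V}
    (h0 : ∀ i, G.Adj v (x i) ∧ ¬G.Adj v (y i) ∧ ¬G.Adj v (z i))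
    (h1 : ∀ i, ¬G.Adj u (x i) ∧ G.Adj u (y i) ∧ ¬G.Adj u (z i))
    (h2 : ∀ i, ¬G.Adj w (x i) ∧ ¬G.Adj w (y i) ∧ G.Adj w (z i)) : G.Adj v u ∨ G.Adj u w ∨ G.Adj v w := by
  obtain ⟨xy, yx, xz, zx, yz, zy, xx, yy, zz⟩ := pf_facts hb
  obtain ⟨ix, iy, iz⟩ := pf_inj hb
  by_contra hc
  push Not at hc
  obtain ⟨c1, c2, c3⟩ := hc
  have h0' := pf_sa h0
  have h1' := pf_sb h1
  have h2' := pf_sc h2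
  refine hf v (y 0) u (z 1) w (z 2) ?_ ?_ ?_ ?_ ?_ ?_ ?_ ?_ ?_ ?_ ?_ ?_ ?_ ?_ ?_ ?_
  all_goals simp [xy, yx, xz, zx, yz, zy, xx, yy, zz, ix, iy, iz, h0, h1, h2, h0', h1', h2', c1, c2, c3]

/-- TARGET -/
theorem pf_s {x y z : Fin 5 → V} (hd : NoDia G) (hf : NoP1P2P3 G) (hb : PB G x y z) {v w : V} (i : Fin 5)
    (h1 : ∀ j, (G.Adj v (x j) ↔ j = i) ∧ (G.Adj v (y j) ↔ j = i) ∧ G.Adj v (z j))
    (h2 : ∀ j, (G.Adj w (x j) ↔ j = i) ∧ (G.Adj w (y j) ↔ j = i) ∧ G.Adj w (z j)) : v = w := by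
  obtain ⟨xy, yx, xz, zx, yz, zy, xx, yy, zz⟩ := pf_facts hb
  obtain ⟨ix, iy, iz⟩ := pf_inj hb
  by_contra hne
  have e : G.Adj v w := hd (x i) (y i) v w (xy i i) ((h1 i).1.2 rfl).symm ((h1 i).2.1.2 rfl).symm
    ((h2 i).1.2 rfl).symm ((h2 i).2.1.2 rfl).symm hne
  obtain ⟨j, hj⟩ : ∃ j : Fin 5, j ≠ i := exists_ne i
  have hxz : x i ≠ z j := by
    intro h
    have h3 := xy i i
    rw [h] at h3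
    exact hj ((zy j i).1 h3)
  have h4 := hd v w (x i) (z j) e ((h1 i).1.2 rfl) ((h2 i).1.2 rfl) (h1 j).2.2 (h2 j).2.2 hxz
  exact hj ((xz i j).1 h4).symm

end PbFacts

end Pool.Agent.Helper856.Cw
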