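import Pool.Agent.Helper856.Pair.Defs

open Classical SimpleGraph

namespace Pool.Agent.Helper856.Cw

namespace PbType

variable {V : Type} {G : SimpleGraph V} {S T : Finset V} {k l : ℕ}

theorem pb_f5 {P : Fin 5 → Prop} (h0 : P 0) (h1 : P 1) (h2 : P 2) (h3 : P 3) (h4 : P 4) :
    ∀ i, P i := by
  intro i
  fin_cases i
  · exact h0
  · exact h1
  · exact h2
  · exact h3
  · exact h4

/-- TARGET -/
theorem pb_type {x y z : Fin 5 → V} (hd : NoDia G) (hf : NoP1P2P3 G) (hb : PB G x y z) (v : V) :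
    (∃ i, v = x i ∨ v = y i ∨ v = z i) ∨
    (∀ i, ¬G.Adj v (x i) ∧ ¬G.Adj v (y i) ∧ ¬G.Adj v (z i)) ∨
    (∀ i, G.Adj v (x i) ∧ ¬G.Adj v (y i) ∧ ¬G.Adj v (z i)) ∨
    (∀ i, ¬G.Adj v (x i) ∧ G.Adj v (y i) ∧ ¬G.Adj v (z i)) ∨
    (∀ i, ¬G.Adj v (x i) ∧ ¬G.Adj v (y i) ∧ G.Adj v (z i)) ∨
    (∃ i, ∀ j, (G.Adj v (x j) ↔ j = i) ∧ (G.Adj v (y j) ↔ j = i) ∧ G.Adj v (z j)) := by
  rcases Classical.em (∃ i, v = x i ∨ v = y i ∨ v = z i) with hv | hv
  · exact Or.inl hv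
  have f5 : ∀ {P : Fin 5 → Prop}, P 0 → P 1 → P 2 → P 3 → P 4 → ∀ i, P i :=
    fun h0 h1 h2 h3 h4 => pb_f5 h0 h1 h2 h3 h4
  have vx : ∀ i, v ≠ x i := fun i h => hv ⟨i, Or.inl h⟩
  have vy : ∀ i, v ≠ y i := fun i h => hv ⟨i, Or.inr (Or.inl h)⟩
  have vz : ∀ i, v ≠ z i := fun i h => hv ⟨i, Or.inr (Or.inr h)⟩
  have A1 : ∀ i j, G.Adj (x i) (y j) := fun i j => (hb i j).1
  have A2 : ∀ i, G.Adj (x i) (z i) := fun i => (hb i i).2.1.2 rfl
  have A3 : ∀ i, G.Adj (y i) (z i) := fun i => (hb i i).2.2.1.2 rfl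
  have N1 : ∀ i j, ¬G.Adj (x i) (x j) := fun i j => (hb i j).2.2.2.1
  have N2 : ∀ i j, ¬G.Adj (y i) (y j) := fun i j => (hb i j).2.2.2.2.1
  have N3 : ∀ i j, ¬G.Adj (z i) (z j) := fun i j => (hb i j).2.2.2.2.2
  have N4 : ∀ i j, i ≠ j → ¬G.Adj (x i) (z j) := fun i j h h' => h ((hb i j).2.1.1 h')
  have N5 : ∀ i j, i ≠ j → ¬G.Adj (y i) (z j) := fun i j h h' => h ((hb i j).2.2.1.1 h')
  have ns : ∀ {a b : V}, ¬G.Adj a b → ¬G.Adj b a := fun h h' => h h'.symm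
  have Dxy : ∀ i j, x i ≠ y j := fun i j => (A1 i j).ne
  have hsucc : ∀ j : Fin 5, j + 1 ≠ j := by decide
  have Dxz : ∀ i j, x i ≠ z j := by
    intro i j h
    have a := A1 i (j + 1)
    rw [h] at a
    exact N5 (j + 1) j (hsucc j) a.symm
  have Dyz : ∀ i j, y i ≠ z j := by
    intro i j h
    have a := A1 (j + 1) i
    rw [h] at a
    exact N4 (j + 1) j (hsucc j) a
  have Dxx : ∀ i j, i ≠ j → x i ≠ x j := by
    intro i j hij h
    have a := A2 i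
    rw [h] at a
    exact N4 j i hij.symm a
  have Dyy : ∀ i j, i ≠ j → y i ≠ y j := by
    intro i j hij h
    have a := A3 i
    rw [h] at a
    exact N5 j i hij.symm a
  have Dzz : ∀ i j, i ≠ j → z i ≠ z j := by
    intro i j hij h
    have a := A2 i
    rw [h] at a
    exact N4 i j hij a
  rcases Classical.em (G.Adj v (x 0)) with px0 | nx0
  · rcases Classical.em (G.Adj v (y 1)) with py1 | ny1
    · have nz0 : ¬G.Adj v (z 0) := fun pz0 =>
        (N5 1 0 (by decide)) (hd v (x 0) (y 1) (z 0) (px0) (py1) (A1 0 1) (pz0) (A2 0) (Dyz 1 0))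
      have nx1 : ¬G.Adj v (x 1) := fun px1 =>
        (N1 0 1) (hd v (y 1) (x 0) (x 1) (py1) (px0) ((A1 0 1).symm) (px1) ((A1 1 1).symm) (Dxx 0 1 (by decide)))
      have nx2 : ¬G.Adj v (x 2) := fun px2 =>
        (N1 0 2) (hd v (y 1) (x 0) (x 2) (py1) (px0) ((A1 0 1).symm) (px2) ((A1 2 1).symm) (Dxx 0 2 (by decide)))
      have nz1 : ¬G.Adj v (z 1) := fun pz1 =>
        (N4 0 1 (by decide)) (hd v (y 1) (x 0) (z 1) (py1) (px0) ((A1 0 1).symm) (pz1) (A3 1) (Dxz 0 1))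
      exact (hf (x 2) (x 1) (z 1) v (x 0) (z 0) (A2 1) (px0) (A2 0) (vz 0) nz0 (ns (N1 1 2)) (N4 2 1 (by decide)) (ns nx2) (ns (N1 0 2)) (N4 2 0 (by decide)) (ns nx1) (ns (N1 0 1)) (N4 1 0 (by decide)) (ns nz1) (ns (N4 0 1 (by decide))) (ns (N3 0 1))).elim
    · rcases Classical.em (G.Adj v (y 2)) with py2 | ny2
      · have ny0 : ¬G.Adj v (y 0) := fun py0 =>
          (N2 0 2) (hd v (x 0) (y 0) (y 2) (px0) (py0) (A1 0 0) (py2) (A1 0 2) (Dyy 0 2 (by decide)))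
        have ny3 : ¬G.Adj v (y 3) := fun py3 =>
          (N2 2 3) (hd v (x 0) (y 2) (y 3) (px0) (py2) (A1 0 2) (py3) (A1 0 3) (Dyy 2 3 (by decide)))
        have nz0 : ¬G.Adj v (z 0) := fun pz0 =>
          (N5 2 0 (by decide)) (hd v (x 0) (y 2) (z 0) (px0) (py2) (A1 0 2) (pz0) (A2 0) (Dyz 2 0))
        have nx1 : ¬G.Adj v (x 1) := fun px1 =>
          (N1 0 1) (hd v (y 2) (x 0) (x 1) (py2) (px0) ((A1 0 2).symm) (px1) ((A1 1 2).symm) (Dxx 0 1 (by decide)))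
        have nx2 : ¬G.Adj v (x 2) := fun px2 =>
          (N1 0 2) (hd v (y 2) (x 0) (x 2) (py2) (px0) ((A1 0 2).symm) (px2) ((A1 2 2).symm) (Dxx 0 2 (by decide)))
        have nz2 : ¬G.Adj v (z 2) := fun pz2 =>
          (N4 0 2 (by decide)) (hd v (y 2) (x 0) (z 2) (py2) (px0) ((A1 0 2).symm) (pz2) (A3 2) (Dxz 0 2))
        have nz4 : ¬G.Adj v (z 4) := fun pz4 =>
          hf (z 2) v (z 4) (y 0) (x 1) (y 1) (pz4) ((A1 1 0).symm) (A1 1 1) (Dyy 0 1 (by decide)) (N2 0 1) (ns nz2) (N3 2 4) (ns (N5 0 2 (by decide))) (ns (N4 1 2 (by decide))) (ns (N5 1 2 (by decide))) ny0 nx1 ny1 (ns (N5 0 4 (by decide))) (ns (N4 1 4 (by decide))) (ns (N5 1 4 (by decide)))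
        have nz1 : ¬G.Adj v (z 1) := fun pz1 =>
          hf (z 4) v (z 1) (y 0) (x 2) (y 3) (pz1) ((A1 2 0).symm) (A1 2 3) (Dyy 0 3 (by decide)) (N2 0 3) (ns nz4) (ns (N3 1 4)) (ns (N5 0 4 (by decide))) (ns (N4 2 4 (by decide))) (ns (N5 3 4 (by decide))) ny0 nx2 ny3 (ns (N5 0 1 (by decide))) (ns (N4 2 1 (by decide))) (ns (N5 3 1 (by decide)))
        exact (hf (x 2) (x 1) (z 1) v (x 0) (z 0) (A2 1) (px0) (A2 0) (vz 0) nz0 (ns (N1 1 2)) (N4 2 1 (by decide)) (ns nx2) (ns (N1 0 2)) (N4 2 0 (by decide)) (ns nx1) (ns (N1 0 1)) (N4 1 0 (by decide)) (ns nz1) (ns (N4 0 1 (by decide))) (ns (N3 0 1))).elim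
      · rcases Classical.em (G.Adj v (y 3)) with py3 | ny3
        · have ny0 : ¬G.Adj v (y 0) := fun py0 =>
            (N2 0 3) (hd v (x 0) (y 0) (y 3) (px0) (py0) (A1 0 0) (py3) (A1 0 3) (Dyy 0 3 (by decide)))
          have nz0 : ¬G.Adj v (z 0) := fun pz0 =>
            (N5 3 0 (by decide)) (hd v (x 0) (y 3) (z 0) (px0) (py3) (A1 0 3) (pz0) (A2 0) (Dyz 3 0))
          have nx1 : ¬G.Adj v (x 1) := fun px1 =>
            (N1 0 1) (hd v (y 3) (x 0) (x 1) (py3) (px0) ((A1 0 3).symm) (px1) ((A1 1 3).symm) (Dxx 0 1 (by decide)))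
          have nx2 : ¬G.Adj v (x 2) := fun px2 =>
            (N1 0 2) (hd v (y 3) (x 0) (x 2) (py3) (px0) ((A1 0 3).symm) (px2) ((A1 2 3).symm) (Dxx 0 2 (by decide)))
          have nz3 : ¬G.Adj v (z 3) := fun pz3 =>
            (N4 0 3 (by decide)) (hd v (y 3) (x 0) (z 3) (py3) (px0) ((A1 0 3).symm) (pz3) (A3 3) (Dxz 0 3))
          have nz1 : ¬G.Adj v (z 1) := fun pz1 =>
            hf (z 3) v (z 1) (y 0) (x 2) (y 2) (pz1) ((A1 2 0).symm) (A1 2 2) (Dyy 0 2 (by decide)) (N2 0 2) (ns nz3) (ns (N3 1 3)) (ns (N5 0 3 (by decide))) (ns (N4 2 3 (by decide))) (ns (N5 2 3 (by decide))) ny0 nx2 ny2 (ns (N5 0 1 (by decide))) (ns (N4 2 1 (by decide))) (ns (N5 2 1 (by decide)))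
          exact (hf (x 2) (x 1) (z 1) v (x 0) (z 0) (A2 1) (px0) (A2 0) (vz 0) nz0 (ns (N1 1 2)) (N4 2 1 (by decide)) (ns nx2) (ns (N1 0 2)) (N4 2 0 (by decide)) (ns nx1) (ns (N1 0 1)) (N4 1 0 (by decide)) (ns nz1) (ns (N4 0 1 (by decide))) (ns (N3 0 1))).elim
        · rcases Classical.em (G.Adj v (y 4)) with py4 | ny4
          · have ny0 : ¬G.Adj v (y 0) := fun py0 =>
              (N2 0 4) (hd v (x 0) (y 0) (y 4) (px0) (py0) (A1 0 0) (py4) (A1 0 4) (Dyy 0 4 (by decide)))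
            have nz0 : ¬G.Adj v (z 0) := fun pz0 =>
              (N5 4 0 (by decide)) (hd v (x 0) (y 4) (z 0) (px0) (py4) (A1 0 4) (pz0) (A2 0) (Dyz 4 0))
            have nx1 : ¬G.Adj v (x 1) := fun px1 =>
              (N1 0 1) (hd v (y 4) (x 0) (x 1) (py4) (px0) ((A1 0 4).symm) (px1) ((A1 1 4).symm) (Dxx 0 1 (by decide)))
            have nx2 : ¬G.Adj v (x 2) := fun px2 =>
              (N1 0 2) (hd v (y 4) (x 0) (x 2) (py4) (px0) ((A1 0 4).symm) (px2) ((A1 2 4).symm) (Dxx 0 2 (by decide)))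
            have nz4 : ¬G.Adj v (z 4) := fun pz4 =>
              (N4 0 4 (by decide)) (hd v (y 4) (x 0) (z 4) (py4) (px0) ((A1 0 4).symm) (pz4) (A3 4) (Dxz 0 4))
            have nz3 : ¬G.Adj v (z 3) := fun pz3 =>
              hf (z 4) v (z 3) (y 0) (x 1) (y 1) (pz3) ((A1 1 0).symm) (A1 1 1) (Dyy 0 1 (by decide)) (N2 0 1) (ns nz4) (ns (N3 3 4)) (ns (N5 0 4 (by decide))) (ns (N4 1 4 (by decide))) (ns (N5 1 4 (by decide))) ny0 nx1 ny1 (ns (N5 0 3 (by decide))) (ns (N4 1 3 (by decide))) (ns (N5 1 3 (by decide)))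
            have nz1 : ¬G.Adj v (z 1) := fun pz1 =>
              hf (z 3) v (z 1) (y 0) (x 2) (y 2) (pz1) ((A1 2 0).symm) (A1 2 2) (Dyy 0 2 (by decide)) (N2 0 2) (ns nz3) (ns (N3 1 3)) (ns (N5 0 3 (by decide))) (ns (N4 2 3 (by decide))) (ns (N5 2 3 (by decide))) ny0 nx2 ny2 (ns (N5 0 1 (by decide))) (ns (N4 2 1 (by decide))) (ns (N5 2 1 (by decide)))
            exact (hf (x 2) (x 1) (z 1) v (x 0) (z 0) (A2 1) (px0) (A2 0) (vz 0) nz0 (ns (N1 1 2)) (N4 2 1 (by decide)) (ns nx2) (ns (N1 0 2)) (N4 2 0 (by decide)) (ns nx1) (ns (N1 0 1)) (N4 1 0 (by decide)) (ns nz1) (ns (N4 0 1 (by decide))) (ns (N3 0 1))).elim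
          · rcases Classical.em (G.Adj v (y 0)) with py0 | ny0
            · have nx1 : ¬G.Adj v (x 1) := fun px1 =>
                (N1 0 1) (hd v (y 0) (x 0) (x 1) (py0) (px0) ((A1 0 0).symm) (px1) ((A1 1 0).symm) (Dxx 0 1 (by decide)))
              have nx2 : ¬G.Adj v (x 2) := fun px2 =>
                (N1 0 2) (hd v (y 0) (x 0) (x 2) (py0) (px0) ((A1 0 0).symm) (px2) ((A1 2 0).symm) (Dxx 0 2 (by decide)))
              have nx3 : ¬G.Adj v (x 3) := fun px3 =>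
                (N1 0 3) (hd v (y 0) (x 0) (x 3) (py0) (px0) ((A1 0 0).symm) (px3) ((A1 3 0).symm) (Dxx 0 3 (by decide)))
              have nx4 : ¬G.Adj v (x 4) := fun px4 =>
                (N1 0 4) (hd v (y 0) (x 0) (x 4) (py0) (px0) ((A1 0 0).symm) (px4) ((A1 4 0).symm) (Dxx 0 4 (by decide)))
              have pz0 : G.Adj v (z 0) := by
                by_contra nz0
                exact nz0 (hd (x 0) (y 0) v (z 0) (A1 0 0) (px0.symm) (py0.symm) (A2 0) (A3 0) (vz 0))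
              have pz3 : G.Adj v (z 3) := by
                by_contra nz3
                exact hf (z 3) v (z 0) (y 1) (x 1) (y 2) (pz0) ((A1 1 1).symm) (A1 1 2) (Dyy 1 2 (by decide)) (N2 1 2) (ns nz3) (ns (N3 0 3)) (ns (N5 1 3 (by decide))) (ns (N4 1 3 (by decide))) (ns (N5 2 3 (by decide))) ny1 nx1 ny2 (ns (N5 1 0 (by decide))) (ns (N4 1 0 (by decide))) (ns (N5 2 0 (by decide)))
              have pz4 : G.Adj v (z 4) := by
                by_contra nz4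
                exact hf (z 4) v (z 0) (y 1) (x 1) (y 2) (pz0) ((A1 1 1).symm) (A1 1 2) (Dyy 1 2 (by decide)) (N2 1 2) (ns nz4) (ns (N3 0 4)) (ns (N5 1 4 (by decide))) (ns (N4 1 4 (by decide))) (ns (N5 2 4 (by decide))) ny1 nx1 ny2 (ns (N5 1 0 (by decide))) (ns (N4 1 0 (by decide))) (ns (N5 2 0 (by decide)))
              have pz2 : G.Adj v (z 2) := by
                by_contra nz2
                exact hf (z 2) v (z 0) (y 1) (x 1) (y 3) (pz0) ((A1 1 1).symm) (A1 1 3) (Dyy 1 3 (by decide)) (N2 1 3) (ns nz2) (ns (N3 0 2)) (ns (N5 1 2 (by decide))) (ns (N4 1 2 (by decide))) (ns (N5 3 2 (by decide))) ny1 nx1 ny3 (ns (N5 1 0 (by decide))) (ns (N4 1 0 (by decide))) (ns (N5 3 0 (by decide)))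
              have pz1 : G.Adj v (z 1) := by
                by_contra nz1
                exact hf (z 1) v (z 0) (y 2) (x 2) (y 3) (pz0) ((A1 2 2).symm) (A1 2 3) (Dyy 2 3 (by decide)) (N2 2 3) (ns nz1) (ns (N3 0 1)) (ns (N5 2 1 (by decide))) (ns (N4 2 1 (by decide))) (ns (N5 3 1 (by decide))) ny2 nx2 ny3 (ns (N5 2 0 (by decide))) (ns (N4 2 0 (by decide))) (ns (N5 3 0 (by decide)))
              exact Or.inr (Or.inr (Or.inr (Or.inr (Or.inr ⟨0, f5 ⟨iff_of_true px0 rfl, iff_of_true py0 rfl, pz0⟩ ⟨iff_of_false nx1 (by decide), iff_of_false ny1 (by decide), pz1⟩ ⟨iff_of_false nx2 (by decide), iff_of_false ny2 (by decide), pz2⟩ ⟨iff_of_false nx3 (by decide), iff_of_false ny3 (by decide), pz3⟩ ⟨iff_of_false nx4 (by decide), iff_of_false ny4 (by decide), pz4⟩⟩))))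
            · have nz0 : ¬G.Adj v (z 0) := fun pz0 =>
                ny0 (hd (x 0) (z 0) v (y 0) (A2 0) (px0.symm) (pz0.symm) (A1 0 0) ((A3 0).symm) (vy 0))
              have nz2 : ¬G.Adj v (z 2) := fun pz2 =>
                hf (y 1) (y 0) (z 0) v (z 2) (y 2) (A3 0) (pz2) ((A3 2).symm) (vy 2) ny2 (ns (N2 0 1)) (N5 1 0 (by decide)) (ns ny1) (N5 1 2 (by decide)) (N2 1 2) (ns ny0) (N5 0 2 (by decide)) (N2 0 2) (ns nz0) (N3 0 2) (ns (N5 2 0 (by decide)))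
              have nz3 : ¬G.Adj v (z 3) := fun pz3 =>
                hf (y 1) (y 0) (z 0) v (z 3) (y 3) (A3 0) (pz3) ((A3 3).symm) (vy 3) ny3 (ns (N2 0 1)) (N5 1 0 (by decide)) (ns ny1) (N5 1 3 (by decide)) (N2 1 3) (ns ny0) (N5 0 3 (by decide)) (N2 0 3) (ns nz0) (N3 0 3) (ns (N5 3 0 (by decide)))
              have nz4 : ¬G.Adj v (z 4) := fun pz4 =>
                hf (y 1) (y 0) (z 0) v (z 4) (y 4) (A3 0) (pz4) ((A3 4).symm) (vy 4) ny4 (ns (N2 0 1)) (N5 1 0 (by decide)) (ns ny1) (N5 1 4 (by decide)) (N2 1 4) (ns ny0) (N5 0 4 (by decide)) (N2 0 4) (ns nz0) (N3 0 4) (ns (N5 4 0 (by decide)))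
              have nz1 : ¬G.Adj v (z 1) := fun pz1 =>
                hf (y 2) (y 0) (z 0) v (z 1) (y 1) (A3 0) (pz1) ((A3 1).symm) (vy 1) ny1 (ns (N2 0 2)) (N5 2 0 (by decide)) (ns ny2) (N5 2 1 (by decide)) (ns (N2 1 2)) (ns ny0) (N5 0 1 (by decide)) (N2 0 1) (ns nz0) (N3 0 1) (ns (N5 1 0 (by decide)))
              have px1 : G.Adj v (x 1) := by
                by_contra nx1
                exact hf (z 2) (x 1) (z 1) v (x 0) (z 0) (A2 1) (px0) (A2 0) (vz 0) nz0 (ns (N4 1 2 (by decide))) (ns (N3 1 2)) (ns nz2) (ns (N4 0 2 (by decide))) (ns (N3 0 2)) (ns nx1) (ns (N1 0 1)) (N4 1 0 (by decide)) (ns nz1) (ns (N4 0 1 (by decide))) (ns (N3 0 1))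
              have px2 : G.Adj v (x 2) := by
                by_contra nx2
                exact hf (z 0) (x 2) (z 2) v (x 1) (z 1) (A2 2) (px1) (A2 1) (vz 1) nz1 (ns (N4 2 0 (by decide))) (N3 0 2) (ns nz0) (ns (N4 1 0 (by decide))) (N3 0 1) (ns nx2) (ns (N1 1 2)) (N4 2 1 (by decide)) (ns nz2) (ns (N4 1 2 (by decide))) (ns (N3 1 2))
              have px3 : G.Adj v (x 3) := by
                by_contra nx3
                exact hf (z 0) (x 3) (z 3) v (x 1) (z 1) (A2 3) (px1) (A2 1) (vz 1) nz1 (ns (N4 3 0 (by decide))) (N3 0 3) (ns nz0) (ns (N4 1 0 (by decide))) (N3 0 1) (ns nx3) (ns (N1 1 3)) (N4 3 1 (by decide)) (ns nz3) (ns (N4 1 3 (by decide))) (ns (N3 1 3))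
              have px4 : G.Adj v (x 4) := by
                by_contra nx4
                exact hf (z 0) (x 4) (z 4) v (x 1) (z 1) (A2 4) (px1) (A2 1) (vz 1) nz1 (ns (N4 4 0 (by decide))) (N3 0 4) (ns nz0) (ns (N4 1 0 (by decide))) (N3 0 1) (ns nx4) (ns (N1 1 4)) (N4 4 1 (by decide)) (ns nz4) (ns (N4 1 4 (by decide))) (ns (N3 1 4))
              exact Or.inr (Or.inr (Or.inl (f5 ⟨px0, ny0, nz0⟩ ⟨px1, ny1, nz1⟩ ⟨px2, ny2, nz2⟩ ⟨px3, ny3, nz3⟩ ⟨px4, ny4, nz4⟩)))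
  · rcases Classical.em (G.Adj v (y 0)) with py0 | ny0
    · have nz0 : ¬G.Adj v (z 0) := fun pz0 =>
        nx0 (hd (y 0) (z 0) v (x 0) (A3 0) (py0.symm) (pz0.symm) ((A1 0 0).symm) ((A2 0).symm) (vx 0))
      rcases Classical.em (G.Adj v (x 1)) with px1 | nx1
      · have nz1 : ¬G.Adj v (z 1) := fun pz1 =>
          (N5 0 1 (by decide)) (hd v (x 1) (y 0) (z 1) (px1) (py0) (A1 1 0) (pz1) (A2 1) (Dyz 0 1))
        have nx2 : ¬G.Adj v (x 2) := fun px2 =>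
          (N1 1 2) (hd v (y 0) (x 1) (x 2) (py0) (px1) ((A1 1 0).symm) (px2) ((A1 2 0).symm) (Dxx 1 2 (by decide)))
        exact (hf (x 2) (x 0) (z 0) v (x 1) (z 1) (A2 0) (px1) (A2 1) (vz 1) nz1 (ns (N1 0 2)) (N4 2 0 (by decide)) (ns nx2) (ns (N1 1 2)) (N4 2 1 (by decide)) (ns nx0) (N1 0 1) (N4 0 1 (by decide)) (ns nz0) (ns (N4 1 0 (by decide))) (N3 0 1)).elim
      · rcases Classical.em (G.Adj v (x 2)) with px2 | nx2
        · have nz2 : ¬G.Adj v (z 2) := fun pz2 =>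
            (N5 0 2 (by decide)) (hd v (x 2) (y 0) (z 2) (px2) (py0) (A1 2 0) (pz2) (A2 2) (Dyz 0 2))
          exact (hf (x 1) (x 0) (z 0) v (x 2) (z 2) (A2 0) (px2) (A2 2) (vz 2) nz2 (ns (N1 0 1)) (N4 1 0 (by decide)) (ns nx1) (N1 1 2) (N4 1 2 (by decide)) (ns nx0) (N1 0 2) (N4 0 2 (by decide)) (ns nz0) (ns (N4 2 0 (by decide))) (N3 0 2)).elim
        · have nz2 : ¬G.Adj v (z 2) := fun pz2 =>
            hf (x 1) (x 0) (z 0) v (z 2) (x 2) (A2 0) (pz2) ((A2 2).symm) (vx 2) nx2 (ns (N1 0 1)) (N4 1 0 (by decide)) (ns nx1) (N4 1 2 (by decide)) (N1 1 2) (ns nx0) (N4 0 2 (by decide)) (N1 0 2) (ns nz0) (N3 0 2) (ns (N4 2 0 (by decide)))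
          have nz1 : ¬G.Adj v (z 1) := fun pz1 =>
            hf (x 2) (x 0) (z 0) v (z 1) (x 1) (A2 0) (pz1) ((A2 1).symm) (vx 1) nx1 (ns (N1 0 2)) (N4 2 0 (by decide)) (ns nx2) (N4 2 1 (by decide)) (ns (N1 1 2)) (ns nx0) (N4 0 1 (by decide)) (N1 0 1) (ns nz0) (N3 0 1) (ns (N4 1 0 (by decide)))
          have py1 : G.Adj v (y 1) := by
            by_contra ny1
            exact hf (z 2) (y 1) (z 1) v (y 0) (z 0) (A3 1) (py0) (A3 0) (vz 0) nz0 (ns (N5 1 2 (by decide))) (ns (N3 1 2)) (ns nz2) (ns (N5 0 2 (by decide))) (ns (N3 0 2)) (ns ny1) (ns (N2 0 1)) (N5 1 0 (by decide)) (ns nz1) (ns (N5 0 1 (by decide))) (ns (N3 0 1))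
          have py2 : G.Adj v (y 2) := by
            by_contra ny2
            exact hf (z 0) (y 2) (z 2) v (y 1) (z 1) (A3 2) (py1) (A3 1) (vz 1) nz1 (ns (N5 2 0 (by decide))) (N3 0 2) (ns nz0) (ns (N5 1 0 (by decide))) (N3 0 1) (ns ny2) (ns (N2 1 2)) (N5 2 1 (by decide)) (ns nz2) (ns (N5 1 2 (by decide))) (ns (N3 1 2))
          have nx3 : ¬G.Adj v (x 3) := fun px3 =>
            (N2 0 1) (hd v (x 3) (y 0) (y 1) (px3) (py0) (A1 3 0) (py1) (A1 3 1) (Dyy 0 1 (by decide)))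
          have nx4 : ¬G.Adj v (x 4) := fun px4 =>
            (N2 0 1) (hd v (x 4) (y 0) (y 1) (px4) (py0) (A1 4 0) (py1) (A1 4 1) (Dyy 0 1 (by decide)))
          have nz3 : ¬G.Adj v (z 3) := fun pz3 =>
            hf (x 1) (x 0) (z 0) v (z 3) (x 3) (A2 0) (pz3) ((A2 3).symm) (vx 3) nx3 (ns (N1 0 1)) (N4 1 0 (by decide)) (ns nx1) (N4 1 3 (by decide)) (N1 1 3) (ns nx0) (N4 0 3 (by decide)) (N1 0 3) (ns nz0) (N3 0 3) (ns (N4 3 0 (by decide)))
          have nz4 : ¬G.Adj v (z 4) := fun pz4 =>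
            hf (x 1) (x 0) (z 0) v (z 4) (x 4) (A2 0) (pz4) ((A2 4).symm) (vx 4) nx4 (ns (N1 0 1)) (N4 1 0 (by decide)) (ns nx1) (N4 1 4 (by decide)) (N1 1 4) (ns nx0) (N4 0 4 (by decide)) (N1 0 4) (ns nz0) (N3 0 4) (ns (N4 4 0 (by decide)))
          have py3 : G.Adj v (y 3) := by
            by_contra ny3
            exact hf (z 0) (y 3) (z 3) v (y 1) (z 1) (A3 3) (py1) (A3 1) (vz 1) nz1 (ns (N5 3 0 (by decide))) (N3 0 3) (ns nz0) (ns (N5 1 0 (by decide))) (N3 0 1) (ns ny3) (ns (N2 1 3)) (N5 3 1 (by decide)) (ns nz3) (ns (N5 1 3 (by decide))) (ns (N3 1 3))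
          have py4 : G.Adj v (y 4) := by
            by_contra ny4
            exact hf (z 0) (y 4) (z 4) v (y 1) (z 1) (A3 4) (py1) (A3 1) (vz 1) nz1 (ns (N5 4 0 (by decide))) (N3 0 4) (ns nz0) (ns (N5 1 0 (by decide))) (N3 0 1) (ns ny4) (ns (N2 1 4)) (N5 4 1 (by decide)) (ns nz4) (ns (N5 1 4 (by decide))) (ns (N3 1 4))
          exact Or.inr (Or.inr (Or.inr (Or.inl (f5 ⟨nx0, py0, nz0⟩ ⟨nx1, py1, nz1⟩ ⟨nx2, py2, nz2⟩ ⟨nx3, py3, nz3⟩ ⟨nx4, py4, nz4⟩))))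
    · rcases Classical.em (G.Adj v (x 1)) with px1 | nx1
      · rcases Classical.em (G.Adj v (x 2)) with px2 | nx2
        · have ny1 : ¬G.Adj v (y 1) := fun py1 =>
            (N1 1 2) (hd v (y 1) (x 1) (x 2) (py1) (px1) ((A1 1 1).symm) (px2) ((A1 2 1).symm) (Dxx 1 2 (by decide)))
          have ny2 : ¬G.Adj v (y 2) := fun py2 =>
            (N1 1 2) (hd v (y 2) (x 1) (x 2) (py2) (px1) ((A1 1 2).symm) (px2) ((A1 2 2).symm) (Dxx 1 2 (by decide)))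
          have nz1 : ¬G.Adj v (z 1) := fun pz1 =>
            ny1 (hd (x 1) (z 1) v (y 1) (A2 1) (px1.symm) (pz1.symm) (A1 1 1) ((A3 1).symm) (vy 1))
          have nz2 : ¬G.Adj v (z 2) := fun pz2 =>
            ny2 (hd (x 2) (z 2) v (y 2) (A2 2) (px2.symm) (pz2.symm) (A1 2 2) ((A3 2).symm) (vy 2))
          have pz0 : G.Adj v (z 0) := by
            by_contra nz0
            exact hf (z 1) (x 0) (z 0) v (x 2) (z 2) (A2 0) (px2) (A2 2) (vz 2) nz2 (ns (N4 0 1 (by decide))) (ns (N3 0 1)) (ns nz1) (ns (N4 2 1 (by decide))) (N3 1 2) (ns nx0) (N1 0 2) (N4 0 2 (by decide)) (ns nz0) (ns (N4 2 0 (by decide))) (N3 0 2)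
          exact (hf (y 2) (y 1) (z 1) v (z 0) (y 0) (A3 1) (pz0) ((A3 0).symm) (vy 0) ny0 (ns (N2 1 2)) (N5 2 1 (by decide)) (ns ny2) (N5 2 0 (by decide)) (ns (N2 0 2)) (ns ny1) (N5 1 0 (by decide)) (ns (N2 0 1)) (ns nz1) (ns (N3 0 1)) (ns (N5 0 1 (by decide)))).elim
        · rcases Classical.em (G.Adj v (y 1)) with py1 | ny1
          · have ny2 : ¬G.Adj v (y 2) := fun py2 =>
              (N2 1 2) (hd v (x 1) (y 1) (y 2) (px1) (py1) (A1 1 1) (py2) (A1 1 2) (Dyy 1 2 (by decide)))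
            have ny3 : ¬G.Adj v (y 3) := fun py3 =>
              (N2 1 3) (hd v (x 1) (y 1) (y 3) (px1) (py1) (A1 1 1) (py3) (A1 1 3) (Dyy 1 3 (by decide)))
            have ny4 : ¬G.Adj v (y 4) := fun py4 =>
              (N2 1 4) (hd v (x 1) (y 1) (y 4) (px1) (py1) (A1 1 1) (py4) (A1 1 4) (Dyy 1 4 (by decide)))
            have nx3 : ¬G.Adj v (x 3) := fun px3 =>
              (N1 1 3) (hd v (y 1) (x 1) (x 3) (py1) (px1) ((A1 1 1).symm) (px3) ((A1 3 1).symm) (Dxx 1 3 (by decide)))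
            have nx4 : ¬G.Adj v (x 4) := fun px4 =>
              (N1 1 4) (hd v (y 1) (x 1) (x 4) (py1) (px1) ((A1 1 1).symm) (px4) ((A1 4 1).symm) (Dxx 1 4 (by decide)))
            have pz1 : G.Adj v (z 1) := by
              by_contra nz1
              exact nz1 (hd (x 1) (y 1) v (z 1) (A1 1 1) (px1.symm) (py1.symm) (A2 1) (A3 1) (vz 1))
            have pz3 : G.Adj v (z 3) := by
              by_contra nz3
              exact hf (z 3) v (z 1) (y 0) (x 0) (y 2) (pz1) ((A1 0 0).symm) (A1 0 2) (Dyy 0 2 (by decide)) (N2 0 2) (ns nz3) (ns (N3 1 3)) (ns (N5 0 3 (by decide))) (ns (N4 0 3 (by decide))) (ns (N5 2 3 (by decide))) ny0 nx0 ny2 (ns (N5 0 1 (by decide))) (ns (N4 0 1 (by decide))) (ns (N5 2 1 (by decide)))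
            have pz4 : G.Adj v (z 4) := by
              by_contra nz4
              exact hf (z 4) v (z 1) (y 0) (x 0) (y 2) (pz1) ((A1 0 0).symm) (A1 0 2) (Dyy 0 2 (by decide)) (N2 0 2) (ns nz4) (ns (N3 1 4)) (ns (N5 0 4 (by decide))) (ns (N4 0 4 (by decide))) (ns (N5 2 4 (by decide))) ny0 nx0 ny2 (ns (N5 0 1 (by decide))) (ns (N4 0 1 (by decide))) (ns (N5 2 1 (by decide)))
            have pz2 : G.Adj v (z 2) := by
              by_contra nz2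
              exact hf (z 2) v (z 1) (y 0) (x 0) (y 3) (pz1) ((A1 0 0).symm) (A1 0 3) (Dyy 0 3 (by decide)) (N2 0 3) (ns nz2) (ns (N3 1 2)) (ns (N5 0 2 (by decide))) (ns (N4 0 2 (by decide))) (ns (N5 3 2 (by decide))) ny0 nx0 ny3 (ns (N5 0 1 (by decide))) (ns (N4 0 1 (by decide))) (ns (N5 3 1 (by decide)))
            have pz0 : G.Adj v (z 0) := by
              by_contra nz0
              exact hf (z 0) v (z 1) (y 2) (x 2) (y 3) (pz1) ((A1 2 2).symm) (A1 2 3) (Dyy 2 3 (by decide)) (N2 2 3) (ns nz0) (N3 0 1) (ns (N5 2 0 (by decide))) (ns (N4 2 0 (by decide))) (ns (N5 3 0 (by decide))) ny2 nx2 ny3 (ns (N5 2 1 (by decide))) (ns (N4 2 1 (by decide))) (ns (N5 3 1 (by decide)))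
            exact Or.inr (Or.inr (Or.inr (Or.inr (Or.inr ⟨1, f5 ⟨iff_of_false nx0 (by decide), iff_of_false ny0 (by decide), pz0⟩ ⟨iff_of_true px1 rfl, iff_of_true py1 rfl, pz1⟩ ⟨iff_of_false nx2 (by decide), iff_of_false ny2 (by decide), pz2⟩ ⟨iff_of_false nx3 (by decide), iff_of_false ny3 (by decide), pz3⟩ ⟨iff_of_false nx4 (by decide), iff_of_false ny4 (by decide), pz4⟩⟩))))
          · have nz1 : ¬G.Adj v (z 1) := fun pz1 =>
              ny1 (hd (x 1) (z 1) v (y 1) (A2 1) (px1.symm) (pz1.symm) (A1 1 1) ((A3 1).symm) (vy 1))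
            have nz3 : ¬G.Adj v (z 3) := fun pz3 =>
              hf (z 1) v (z 3) (x 0) (y 0) (x 2) (pz3) (A1 0 0) ((A1 2 0).symm) (Dxx 0 2 (by decide)) (N1 0 2) (ns nz1) (N3 1 3) (ns (N4 0 1 (by decide))) (ns (N5 0 1 (by decide))) (ns (N4 2 1 (by decide))) nx0 ny0 nx2 (ns (N4 0 3 (by decide))) (ns (N5 0 3 (by decide))) (ns (N4 2 3 (by decide)))
            have nz0 : ¬G.Adj v (z 0) := fun pz0 =>
              hf (z 3) v (z 0) (x 2) (y 1) (z 1) (pz0) (A1 2 1) (A3 1) (Dxz 2 1) (N4 2 1 (by decide)) (ns nz3) (ns (N3 0 3)) (ns (N4 2 3 (by decide))) (ns (N5 1 3 (by decide))) (ns (N3 1 3)) nx2 ny1 nz1 (ns (N4 2 0 (by decide))) (ns (N5 1 0 (by decide))) (N3 0 1)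
            exact (hf (x 2) (x 0) (z 0) v (x 1) (z 1) (A2 0) (px1) (A2 1) (vz 1) nz1 (ns (N1 0 2)) (N4 2 0 (by decide)) (ns nx2) (ns (N1 1 2)) (N4 2 1 (by decide)) (ns nx0) (N1 0 1) (N4 0 1 (by decide)) (ns nz0) (ns (N4 1 0 (by decide))) (N3 0 1)).elim
      · rcases Classical.em (G.Adj v (z 2)) with pz2 | nz2
        · have pz3 : G.Adj v (z 3) := by
            by_contra nz3
            exact hf (z 3) v (z 2) (x 0) (y 0) (x 1) (pz2) (A1 0 0) ((A1 1 0).symm) (Dxx 0 1 (by decide)) (N1 0 1) (ns nz3) (ns (N3 2 3)) (ns (N4 0 3 (by decide))) (ns (N5 0 3 (by decide))) (ns (N4 1 3 (by decide))) nx0 ny0 nx1 (ns (N4 0 2 (by decide))) (ns (N5 0 2 (by decide))) (ns (N4 1 2 (by decide)))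
          have pz4 : G.Adj v (z 4) := by
            by_contra nz4
            exact hf (z 4) v (z 2) (x 0) (y 0) (x 1) (pz2) (A1 0 0) ((A1 1 0).symm) (Dxx 0 1 (by decide)) (N1 0 1) (ns nz4) (ns (N3 2 4)) (ns (N4 0 4 (by decide))) (ns (N5 0 4 (by decide))) (ns (N4 1 4 (by decide))) nx0 ny0 nx1 (ns (N4 0 2 (by decide))) (ns (N5 0 2 (by decide))) (ns (N4 1 2 (by decide)))
          have pz1 : G.Adj v (z 1) := by
            by_contra nz1
            exact hf (z 1) (x 0) (y 0) (z 2) v (z 3) (A1 0 0) (pz2.symm) (pz3) (Dzz 2 3 (by decide)) (N3 2 3) (ns (N4 0 1 (by decide))) (ns (N5 0 1 (by decide))) (N3 1 2) (ns nz1) (N3 1 3) (N4 0 2 (by decide)) (ns nx0) (N4 0 3 (by decide)) (N5 0 2 (by decide)) (ns ny0) (N5 0 3 (by decide))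
          have pz0 : G.Adj v (z 0) := by
            by_contra nz0
            exact hf (x 1) (x 0) (z 0) (z 2) v (z 3) (A2 0) (pz2.symm) (pz3) (Dzz 2 3 (by decide)) (N3 2 3) (ns (N1 0 1)) (N4 1 0 (by decide)) (N4 1 2 (by decide)) (ns nx1) (N4 1 3 (by decide)) (N4 0 2 (by decide)) (ns nx0) (N4 0 3 (by decide)) (N3 0 2) (ns nz0) (N3 0 3)
          have ny1 : ¬G.Adj v (y 1) := fun py1 =>
            nx1 (hd (y 1) (z 1) v (x 1) (A3 1) (py1.symm) (pz1.symm) ((A1 1 1).symm) ((A2 1).symm) (vx 1))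
          rcases Classical.em (G.Adj v (x 2)) with px2 | nx2
          · have ny3 : ¬G.Adj v (y 3) := fun py3 =>
              (N5 3 2 (by decide)) (hd v (x 2) (y 3) (z 2) (px2) (py3) (A1 2 3) (pz2) (A2 2) (Dyz 3 2))
            have ny4 : ¬G.Adj v (y 4) := fun py4 =>
              (N5 4 2 (by decide)) (hd v (x 2) (y 4) (z 2) (px2) (py4) (A1 2 4) (pz2) (A2 2) (Dyz 4 2))
            have py2 : G.Adj v (y 2) := by
              by_contra ny2
              exact ny2 (hd (x 2) (z 2) v (y 2) (A2 2) (px2.symm) (pz2.symm) (A1 2 2) ((A3 2).symm) (vy 2))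
            have nx3 : ¬G.Adj v (x 3) := fun px3 =>
              ny3 (hd (x 3) (z 3) v (y 3) (A2 3) (px3.symm) (pz3.symm) (A1 3 3) ((A3 3).symm) (vy 3))
            have nx4 : ¬G.Adj v (x 4) := fun px4 =>
              ny4 (hd (x 4) (z 4) v (y 4) (A2 4) (px4.symm) (pz4.symm) (A1 4 4) ((A3 4).symm) (vy 4))
            exact Or.inr (Or.inr (Or.inr (Or.inr (Or.inr ⟨2, f5 ⟨iff_of_false nx0 (by decide), iff_of_false ny0 (by decide), pz0⟩ ⟨iff_of_false nx1 (by decide), iff_of_false ny1 (by decide), pz1⟩ ⟨iff_of_true px2 rfl, iff_of_true py2 rfl, pz2⟩ ⟨iff_of_false nx3 (by decide), iff_of_false ny3 (by decide), pz3⟩ ⟨iff_of_false nx4 (by decide), iff_of_false ny4 (by decide), pz4⟩⟩))))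
          · have ny2 : ¬G.Adj v (y 2) := fun py2 =>
              nx2 (hd (y 2) (z 2) v (x 2) (A3 2) (py2.symm) (pz2.symm) ((A1 2 2).symm) ((A2 2).symm) (vx 2))
            rcases Classical.em (G.Adj v (x 3)) with px3 | nx3
            · have ny4 : ¬G.Adj v (y 4) := fun py4 =>
                (N5 4 3 (by decide)) (hd v (x 3) (y 4) (z 3) (px3) (py4) (A1 3 4) (pz3) (A2 3) (Dyz 4 3))
              have py3 : G.Adj v (y 3) := by
                by_contra ny3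
                exact ny3 (hd (x 3) (z 3) v (y 3) (A2 3) (px3.symm) (pz3.symm) (A1 3 3) ((A3 3).symm) (vy 3))
              have nx4 : ¬G.Adj v (x 4) := fun px4 =>
                ny4 (hd (x 4) (z 4) v (y 4) (A2 4) (px4.symm) (pz4.symm) (A1 4 4) ((A3 4).symm) (vy 4))
              exact Or.inr (Or.inr (Or.inr (Or.inr (Or.inr ⟨3, f5 ⟨iff_of_false nx0 (by decide), iff_of_false ny0 (by decide), pz0⟩ ⟨iff_of_false nx1 (by decide), iff_of_false ny1 (by decide), pz1⟩ ⟨iff_of_false nx2 (by decide), iff_of_false ny2 (by decide), pz2⟩ ⟨iff_of_true px3 rfl, iff_of_true py3 rfl, pz3⟩ ⟨iff_of_false nx4 (by decide), iff_of_false ny4 (by decide), pz4⟩⟩))))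
            · have ny3 : ¬G.Adj v (y 3) := fun py3 =>
                nx3 (hd (y 3) (z 3) v (x 3) (A3 3) (py3.symm) (pz3.symm) ((A1 3 3).symm) ((A2 3).symm) (vx 3))
              rcases Classical.em (G.Adj v (x 4)) with px4 | nx4
              · have py4 : G.Adj v (y 4) := by
                  by_contra ny4
                  exact ny4 (hd (x 4) (z 4) v (y 4) (A2 4) (px4.symm) (pz4.symm) (A1 4 4) ((A3 4).symm) (vy 4))
                exact Or.inr (Or.inr (Or.inr (Or.inr (Or.inr ⟨4, f5 ⟨iff_of_false nx0 (by decide), iff_of_false ny0 (by decide), pz0⟩ ⟨iff_of_false nx1 (by decide), iff_of_false ny1 (by decide), pz1⟩ ⟨iff_of_false nx2 (by decide), iff_of_false ny2 (by decide), pz2⟩ ⟨iff_of_false nx3 (by decide), iff_of_false ny3 (by decide), pz3⟩ ⟨iff_of_true px4 rfl, iff_of_true py4 rfl, pz4⟩⟩))))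
              · have ny4 : ¬G.Adj v (y 4) := fun py4 =>
                  nx4 (hd (y 4) (z 4) v (x 4) (A3 4) (py4.symm) (pz4.symm) ((A1 4 4).symm) ((A2 4).symm) (vx 4))
                exact Or.inr (Or.inr (Or.inr (Or.inr (Or.inl (f5 ⟨nx0, ny0, pz0⟩ ⟨nx1, ny1, pz1⟩ ⟨nx2, ny2, pz2⟩ ⟨nx3, ny3, pz3⟩ ⟨nx4, ny4, pz4⟩)))))
        · have nz3 : ¬G.Adj v (z 3) := fun pz3 =>
            hf (z 2) v (z 3) (x 0) (y 0) (x 1) (pz3) (A1 0 0) ((A1 1 0).symm) (Dxx 0 1 (by decide)) (N1 0 1) (ns nz2) (N3 2 3) (ns (N4 0 2 (by decide))) (ns (N5 0 2 (by decide))) (ns (N4 1 2 (by decide))) nx0 ny0 nx1 (ns (N4 0 3 (by decide))) (ns (N5 0 3 (by decide))) (ns (N4 1 3 (by decide)))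
          have nz4 : ¬G.Adj v (z 4) := fun pz4 =>
            hf (z 2) v (z 4) (x 0) (y 0) (x 1) (pz4) (A1 0 0) ((A1 1 0).symm) (Dxx 0 1 (by decide)) (N1 0 1) (ns nz2) (N3 2 4) (ns (N4 0 2 (by decide))) (ns (N5 0 2 (by decide))) (ns (N4 1 2 (by decide))) nx0 ny0 nx1 (ns (N4 0 4 (by decide))) (ns (N5 0 4 (by decide))) (ns (N4 1 4 (by decide)))
          rcases Classical.em (G.Adj v (x 2)) with px2 | nx2
          · have ny2 : ¬G.Adj v (y 2) := fun py2 =>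
              nz2 (hd (x 2) (y 2) v (z 2) (A1 2 2) (px2.symm) (py2.symm) (A2 2) (A3 2) (vz 2))
            have nz1 : ¬G.Adj v (z 1) := fun pz1 =>
              hf (z 3) v (z 1) (y 0) (x 0) (y 2) (pz1) ((A1 0 0).symm) (A1 0 2) (Dyy 0 2 (by decide)) (N2 0 2) (ns nz3) (ns (N3 1 3)) (ns (N5 0 3 (by decide))) (ns (N4 0 3 (by decide))) (ns (N5 2 3 (by decide))) ny0 nx0 ny2 (ns (N5 0 1 (by decide))) (ns (N4 0 1 (by decide))) (ns (N5 2 1 (by decide)))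
            have nz0 : ¬G.Adj v (z 0) := fun pz0 =>
              hf (z 3) v (z 0) (y 2) (x 1) (z 1) (pz0) ((A1 1 2).symm) (A2 1) (Dyz 2 1) (N5 2 1 (by decide)) (ns nz3) (ns (N3 0 3)) (ns (N5 2 3 (by decide))) (ns (N4 1 3 (by decide))) (ns (N3 1 3)) ny2 nx1 nz1 (ns (N5 2 0 (by decide))) (ns (N4 1 0 (by decide))) (N3 0 1)
            exact (hf (x 1) (x 0) (z 0) v (x 2) (z 2) (A2 0) (px2) (A2 2) (vz 2) nz2 (ns (N1 0 1)) (N4 1 0 (by decide)) (ns nx1) (N1 1 2) (N4 1 2 (by decide)) (ns nx0) (N1 0 2) (N4 0 2 (by decide)) (ns nz0) (ns (N4 2 0 (by decide))) (N3 0 2)).elim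
          · have nz1 : ¬G.Adj v (z 1) := fun pz1 =>
              hf (z 3) v (z 1) (y 0) (x 2) (z 2) (pz1) ((A1 2 0).symm) (A2 2) (Dyz 0 2) (N5 0 2 (by decide)) (ns nz3) (ns (N3 1 3)) (ns (N5 0 3 (by decide))) (ns (N4 2 3 (by decide))) (ns (N3 2 3)) ny0 nx2 nz2 (ns (N5 0 1 (by decide))) (ns (N4 2 1 (by decide))) (N3 1 2)
            have nx3 : ¬G.Adj v (x 3) := fun px3 =>
              hf (x 0) (x 1) (z 1) v (x 3) (z 3) (A2 1) (px3) (A2 3) (vz 3) nz3 (N1 0 1) (N4 0 1 (by decide)) (ns nx0) (N1 0 3) (N4 0 3 (by decide)) (ns nx1) (N1 1 3) (N4 1 3 (by decide)) (ns nz1) (ns (N4 3 1 (by decide))) (N3 1 3)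
            have nx4 : ¬G.Adj v (x 4) := fun px4 =>
              hf (x 0) (x 1) (z 1) v (x 4) (z 4) (A2 1) (px4) (A2 4) (vz 4) nz4 (N1 0 1) (N4 0 1 (by decide)) (ns nx0) (N1 0 4) (N4 0 4 (by decide)) (ns nx1) (N1 1 4) (N4 1 4 (by decide)) (ns nz1) (ns (N4 4 1 (by decide))) (N3 1 4)
            have nz0 : ¬G.Adj v (z 0) := fun pz0 =>
              hf (x 2) (x 1) (z 1) v (z 0) (x 0) (A2 1) (pz0) ((A2 0).symm) (vx 0) nx0 (ns (N1 1 2)) (N4 2 1 (by decide)) (ns nx2) (N4 2 0 (by decide)) (ns (N1 0 2)) (ns nx1) (N4 1 0 (by decide)) (ns (N1 0 1)) (ns nz1) (ns (N3 0 1)) (ns (N4 0 1 (by decide)))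
            have ny2 : ¬G.Adj v (y 2) := fun py2 =>
              hf (z 1) (y 0) (z 0) v (y 2) (z 2) (A3 0) (py2) (A3 2) (vz 2) nz2 (ns (N5 0 1 (by decide))) (ns (N3 0 1)) (ns nz1) (ns (N5 2 1 (by decide))) (N3 1 2) (ns ny0) (N2 0 2) (N5 0 2 (by decide)) (ns nz0) (ns (N5 2 0 (by decide))) (N3 0 2)
            have ny3 : ¬G.Adj v (y 3) := fun py3 =>
              hf (z 1) (y 0) (z 0) v (y 3) (z 3) (A3 0) (py3) (A3 3) (vz 3) nz3 (ns (N5 0 1 (by decide))) (ns (N3 0 1)) (ns nz1) (ns (N5 3 1 (by decide))) (N3 1 3) (ns ny0) (N2 0 3) (N5 0 3 (by decide)) (ns nz0) (ns (N5 3 0 (by decide))) (N3 0 3)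
            have ny4 : ¬G.Adj v (y 4) := fun py4 =>
              hf (z 1) (y 0) (z 0) v (y 4) (z 4) (A3 0) (py4) (A3 4) (vz 4) nz4 (ns (N5 0 1 (by decide))) (ns (N3 0 1)) (ns nz1) (ns (N5 4 1 (by decide))) (N3 1 4) (ns ny0) (N2 0 4) (N5 0 4 (by decide)) (ns nz0) (ns (N5 4 0 (by decide))) (N3 0 4)
            have ny1 : ¬G.Adj v (y 1) := fun py1 =>
              hf (z 2) (y 0) (z 0) v (y 1) (z 1) (A3 0) (py1) (A3 1) (vz 1) nz1 (ns (N5 0 2 (by decide))) (ns (N3 0 2)) (ns nz2) (ns (N5 1 2 (by decide))) (ns (N3 1 2)) (ns ny0) (N2 0 1) (N5 0 1 (by decide)) (ns nz0) (ns (N5 1 0 (by decide))) (N3 0 1)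
            exact Or.inr (Or.inl (f5 ⟨nx0, ny0, nz0⟩ ⟨nx1, ny1, nz1⟩ ⟨nx2, ny2, nz2⟩ ⟨nx3, ny3, nz3⟩ ⟨nx4, ny4, nz4⟩))

end PbType

end Pool.Agent.Helper856.Cw
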