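import Pool.Agent.Helper856.Pair.Defs

open Classical SimpleGraph

namespace Pool.Agent.Helper856.Cw

namespace BNear

variable {V : Type} {G : SimpleGraph V} {S T : Finset V} {k l : ℕ}

/-- TARGET -/
theorem blocks_near {m : ℕ} (β : V → ℕ) (c : V → Fin m)
    (hb : ∀ n, SLin k G (S.filter (fun x => β x = n)))
    (h1 : ∀ u ∈ S, ∀ v ∈ S, ∀ w ∈ S, β u = β v → β u < β w → c u = c v →
      (G.Adj u w ↔ G.Adj v w))
    (h2 : ∀ u ∈ S, ∀ v ∈ S, ∀ w ∈ S, β u + 5 ≤ β w → β v + 5 ≤ β w → c u = c v →
      (G.Adj u w ↔ G.Adj v w)) : SLin (m * (k + 6)) G S := by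
  choose q hqi hqc using hb
  obtain ⟨N, hN⟩ : ∃ N : ℕ, ∀ u ∈ S, q (β u) u < N := by
    refine ⟨S.sup (fun u => q (β u) u) + 1, fun u hu => ?_⟩
    exact Nat.lt_succ_of_le (Finset.le_sup (f := fun u => q (β u) u) hu)
  have hdiv : ∀ u ∈ S, (β u * N + q (β u) u) / N = β u := by
    intro u hu
    have h := hN u hu
    have hNpos : 0 < N := by omega
    rw [mul_comm, Nat.mul_add_div hNpos, Nat.div_eq_of_lt h, add_zero]
  refine ⟨fun u => β u * N + q (β u) u, ?_, ?_⟩
  · intro u hu v hv huv
    have hu' : u ∈ S := hu
    have hv' : v ∈ S := hv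
    have huv' : β u * N + q (β u) u = β v * N + q (β v) v := huv
    have hβ : β u = β v := by
      rw [← hdiv u hu', ← hdiv v hv', huv']
    have hq : q (β v) u = q (β v) v := by
      rw [hβ] at huv'
      omega
    apply hqi (β v) _ _ hq
    · simp [hu', hβ]
    · simp [hv']
  · intro t
    by_cases hS : S.Nonempty
    swap
    · rw [Finset.not_nonempty_iff_eq_empty] at hS
      by_cases hV : Nonempty (V → Fin (m * (k + 6)))
      · obtain ⟨f⟩ := hV
        refine ⟨f, ?_⟩
        intro u hu
        simp [hS] at hu
      · have hVe : Nonempty V := by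
          by_contra hcon
          apply hV
          exact ⟨fun v => (hcon ⟨v⟩).elim⟩
        obtain ⟨v⟩ := hVe
        exfalso
        apply hV
        have hm : 0 < m := Fin.pos (c v)
        exact ⟨fun _ => ⟨0, Nat.mul_pos hm (by omega)⟩⟩
    have hNpos : 0 < N := by
      obtain ⟨u, hu⟩ := hS
      have := hN u hu
      omega
    obtain ⟨c', hc'⟩ := hqc (t / N) (t - (t / N) * N)
    set n := t / N with hn
    have hnt : n * N ≤ t := Nat.div_mul_le_self t N
    have hd : ∀ u, (if β u = n then (c' u : ℕ) else k + min (n - β u) 5) < k + 6 := by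
      intro u
      split_ifs
      · have := (c' u).2
        omega
      · omega
    refine ⟨fun u => finProdFinEquiv (c u, ⟨(if β u = n then (c' u : ℕ) else k + min (n - β u) 5), hd u⟩), ?_⟩
    intro u hu v hv hut hvt hcol w hw htw
    have hcol' := finProdFinEquiv.injective hcol
    rw [Prod.mk.injEq] at hcol'
    obtain ⟨hcc, hdd⟩ := hcol'
    rw [Fin.mk.injEq] at hdd
    have hut' : β u * N + q (β u) u < t := hut
    have hvt' : β v * N + q (β v) v < t := hvt
    have htw' : t ≤ β w * N + q (β w) w := htw
    have hun : β u ≤ n := by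
      rw [← hdiv u hu]
      exact Nat.div_le_div_right hut'.le
    have hvn : β v ≤ n := by
      rw [← hdiv v hv]
      exact Nat.div_le_div_right hvt'.le
    have hwn : n ≤ β w := by
      rw [← hdiv w hw]
      exact Nat.div_le_div_right htw'
    by_cases hun' : β u = n
    · by_cases hvn' : β v = n
      · rw [if_pos hun', if_pos hvn'] at hdd
        by_cases hwn' : β w = n
        · rw [hun'] at hut'
          rw [hvn'] at hvt'
          rw [hwn'] at htw'
          apply hc' u (by simp [hu, hun']) v (by simp [hv, hvn']) (by omega) (by omega)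
            (Fin.ext hdd) w (by simp [hw, hwn']) (by omega)
        · exact h1 u hu v hv w hw (by omega) (by omega) hcc
      · exfalso
        rw [if_pos hun', if_neg hvn'] at hdd
        have := (c' u).2
        omega
    · by_cases hvn' : β v = n
      · exfalso
        rw [if_neg hun', if_pos hvn'] at hdd
        have := (c' v).2
        omega
      · rw [if_neg hun', if_neg hvn'] at hdd
        by_cases h5 : n - β u < 5
        · exact h1 u hu v hv w hw (by omega) (by omega) hcc
        · exact h2 u hu v hv w hw (by omega) (by omega) hcc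

end BNear

end Pool.Agent.Helper856.Cw
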