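import Pool.Agent.Helper856.Pair.Defs
import Pool.Agent.Helper856.Pair.BNear
import Pool.Agent.Helper856.Cw.Basic

open Classical SimpleGraph

namespace Pool.Agent.Helper856.Cw

open BNear (blocks_near)

namespace Layered

variable {V : Type} {G : SimpleGraph V} {S T : Finset V} {k l : ℕ}

/-- TARGET -/
theorem layered (K k : ℕ) : ∃ c, ∀ (V : Type) (G : SimpleGraph V) (S : Finset V) (col : V → Fin 3)
    (ρ : V → ℕ) (rule : Fin 3 → Fin 3 → Prop) (D M : ℕ → Finset V),
    (∀ n, (D n).card ≤ K) → (∀ n, ∀ u ∈ M n, u ∈ S ∧ (ρ u = n ∨ ρ u = n + 1)) →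
    (∀ n, Disjoint (M n) (M (n + 1))) →
    (∀ u ∈ S, ∀ w ∈ S, ρ u < ρ w → (G.Adj u w ↔ rule (col u) (col w)) ∨ (ρ w = ρ u + 1 ∧
      (u ∈ D (ρ u) ∨ w ∈ D (ρ u) ∨ (u ∈ M (ρ u) ∧ w ∈ M (ρ u))))) →
    (∀ n, ∀ x ∈ S, x ∉ M n → x ∉ D n → ∀ u ∈ M n, ∀ v ∈ M n, ρ u = ρ v → col u = col v →
      (G.Adj x u ↔ G.Adj x v)) →
    (∀ n, SLin k G (M n)) → (∀ n, SLin k G (S.filter (fun u => ρ u = n))) → SLin c G S := by
  refine ⟨Fintype.card (Fin 3 × Fin 3 × Option (Fin K) × (Fin K → Prop) × (Fin K → Prop) ×
    (Fin 3 → Prop)) * (k + 6), ?_⟩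
  intro V G S col ρ rule D M hD hM hdisj hrule hunif hMl hLl
  have hemb : ∀ n, Nonempty (↥(D n) ↪ Fin K) := fun n =>
    Function.Embedding.nonempty_of_card_le (by simpa using hD n)
  obtain ⟨emb, -⟩ : ∃ emb : ∀ n, ↥(D n) ↪ Fin K, True := ⟨fun n => (hemb n).some, trivial⟩
  obtain ⟨kind, β, spec⟩ : ∃ (kind : V → Fin 3) (β : V → ℕ), ∀ u,
      (kind u = 1 ∧ u ∈ M (ρ u) ∧ β u = 2 * ρ u + 1) ∨
      (kind u = 2 ∧ u ∉ M (ρ u) ∧ 1 ≤ ρ u ∧ u ∈ M (ρ u - 1) ∧ β u + 1 = 2 * ρ u) ∨
      (kind u = 0 ∧ u ∉ M (ρ u) ∧ ¬ (1 ≤ ρ u ∧ u ∈ M (ρ u - 1)) ∧ β u = 2 * ρ u) := by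
    refine ⟨fun u => if u ∈ M (ρ u) then 1 else if 1 ≤ ρ u ∧ u ∈ M (ρ u - 1) then 2 else 0,
      fun u => if u ∈ M (ρ u) then 2 * ρ u + 1 else
        if 1 ≤ ρ u ∧ u ∈ M (ρ u - 1) then 2 * ρ u - 1 else 2 * ρ u, ?_⟩
    intro u
    by_cases h1 : u ∈ M (ρ u)
    · left; exact ⟨if_pos h1, h1, if_pos h1⟩
    · by_cases h2 : 1 ≤ ρ u ∧ u ∈ M (ρ u - 1)
      · right; left
        refine ⟨?_, h1, h2.1, h2.2, ?_⟩
        · simp only [if_neg h1, if_pos h2]
        · have := h2.1
          simp only [if_neg h1, if_pos h2]; omega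
      · right; right
        exact ⟨by simp only [if_neg h1, if_neg h2], h1, h2, by simp only [if_neg h1, if_neg h2]⟩
  have hbd : ∀ u, 2 * ρ u ≤ β u + 1 ∧ β u ≤ 2 * ρ u + 1 := by
    intro u
    rcases spec u with h | h | h
    · have := h.2.2; omega
    · have := h.2.2.2.2; omega
    · have := h.2.2.2; omega
  obtain ⟨i1, hi1⟩ : ∃ i1 : V → Option (Fin K), ∀ u v, ρ u = ρ v → i1 u = i1 v →
      u ∈ D (ρ u) → u = v := by
    refine ⟨fun u => if h : u ∈ D (ρ u) then some (emb (ρ u) ⟨u, h⟩) else none, ?_⟩
    intro u v hρ hi hu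
    simp only [dif_pos hu] at hi
    by_cases hv : v ∈ D (ρ v)
    · simp only [dif_pos hv, Option.some.injEq] at hi
      have hv' : v ∈ D (ρ u) := by rw [hρ]; exact hv
      have e1 : emb (ρ v) ⟨v, hv⟩ = emb (ρ u) ⟨v, hv'⟩ := by
        have : ∀ (n m : ℕ) (hnm : n = m) (h1 : v ∈ D n) (h2 : v ∈ D m),
            emb n ⟨v, h1⟩ = emb m ⟨v, h2⟩ := by
          intro n m hnm; subst hnm; intro _ _; rfl
        exact this _ _ hρ.symm _ _
      rw [e1] at hi
      exact congrArg Subtype.val ((emb (ρ u)).injective hi)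
    · simp only [dif_neg hv] at hi
      exact absurd hi (by simp)
  let X : ℕ → V → Fin K → Prop := fun n u i => ∃ w, ∃ hw : w ∈ D n, emb n ⟨w, hw⟩ = i ∧ G.Adj u w
  have hX : ∀ n u v, X n u = X n v → ∀ w ∈ D n, (G.Adj u w ↔ G.Adj v w) := by
    have haux : ∀ n u v, X n u = X n v → ∀ w ∈ D n, G.Adj u w → G.Adj v w := by
      intro n u v h w hw hadj
      have h1 : X n u (emb n ⟨w, hw⟩) := ⟨w, hw, rfl, hadj⟩
      rw [h] at h1
      obtain ⟨w', hw', he, ha⟩ := h1
      have : w' = w := congrArg Subtype.val ((emb n).injective he)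
      rw [← this]; exact ha
    intro n u v h w hw
    exact ⟨haux n u v h w hw, haux n v u h.symm w hw⟩
  let y : V → Fin 3 → Prop := fun u j => ∃ w ∈ M (ρ u), ρ w = ρ u ∧ col w = j ∧ G.Adj u w
  let C : V → Fin 3 × Fin 3 × Option (Fin K) × (Fin K → Prop) × (Fin K → Prop) × (Fin 3 → Prop) :=
    fun u => (col u, kind u, i1 u, X (ρ u) u, X (ρ u - 1) u, y u)
  refine blocks_near β (fun u => Fintype.equivFin _ (C u)) ?_ ?_ ?_
  · intro n
    rcases Nat.even_or_odd' n with ⟨q, hq | hq⟩
    · refine (hLl q).subset ?_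
      intro u hu
      rw [Finset.mem_filter] at hu ⊢
      refine ⟨hu.1, ?_⟩
      have h1 := hu.2
      rcases spec u with h | h | h
      · have := h.2.2; omega
      · have := h.2.2.2.2; omega
      · have := h.2.2.2; omega
    · refine (hMl q).subset ?_
      intro u hu
      rw [Finset.mem_filter] at hu
      have h1 := hu.2
      rcases spec u with h | h | h
      · have h2 := h.2.2
        have h3 : ρ u = q := by omega
        rw [← h3]; exact h.2.1
      · have h2 := h.2.2.2.2
        have h3 : ρ u - 1 = q := by omega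
        rw [← h3]; exact h.2.2.2.1
      · have := h.2.2.2; omega
  · intro u hu v hv w hw hβ hlt hcol
    have hC : C u = C v := (Fintype.equivFin _).injective hcol
    have hcol' : col u = col v := congrArg (fun t => t.1) hC
    have hkind : kind u = kind v := congrArg (fun t => t.2.1) hC
    have hi : i1 u = i1 v := congrArg (fun t => t.2.2.1) hC
    have hx1 : X (ρ u) u = X (ρ v) v := congrArg (fun t => t.2.2.2.1) hC
    have hx2 : X (ρ u - 1) u = X (ρ v - 1) v := congrArg (fun t => t.2.2.2.2.1) hC
    have hy : y u = y v := congrArg (fun t => t.2.2.2.2.2) hC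
    have hρ : ρ u = ρ v := by
      rcases spec u with h | h | h <;> rcases spec v with h' | h' | h'
      · have := h.2.2; have := h'.2.2; omega
      · exfalso; rw [h.1, h'.1] at hkind; exact absurd hkind (by decide)
      · exfalso; rw [h.1, h'.1] at hkind; exact absurd hkind (by decide)
      · exfalso; rw [h.1, h'.1] at hkind; exact absurd hkind (by decide)
      · have := h.2.2.2.2; have := h'.2.2.2.2; omega
      · exfalso; rw [h.1, h'.1] at hkind; exact absurd hkind (by decide)
      · exfalso; rw [h.1, h'.1] at hkind; exact absurd hkind (by decide)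
      · exfalso; rw [h.1, h'.1] at hkind; exact absurd hkind (by decide)
      · have := h.2.2.2; have := h'.2.2.2; omega
    rw [← hρ] at hx1 hx2
    have hle : ρ u ≤ ρ w := by
      have := hbd u; have := hbd w; omega
    rcases lt_or_eq_of_le hle with hlt' | heq
    · -- different layers
      have hex : ∀ u' : V, β u' < β w → (ρ w = ρ u' + 1 ∧ u' ∈ M (ρ u') ∧ w ∈ M (ρ u')) → False := by
        intro u' hlt2 h3
        obtain ⟨h4, h5, h6⟩ := h3
        have h7 : β u' = 2 * ρ u' + 1 := by
          rcases spec u' with h | h | h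
          · exact h.2.2
          · exact absurd h5 h.2.1
          · exact absurd h5 h.2.1
        have h8 : w ∉ M (ρ w) := by
          intro h9
          rw [h4] at h9
          exact Finset.disjoint_left.1 (hdisj (ρ u')) h6 h9
        rcases spec w with h | h | h
        · exact h8 h.2.1
        · have := h.2.2.2.2; omega
        · apply h.2.2.1
          refine ⟨by omega, ?_⟩
          rw [h4, Nat.add_sub_cancel]; exact h6
      rcases hrule u hu w hw hlt' with h1 | ⟨h1, h2⟩
      · rcases hrule v hv w hw (by rw [← hρ]; exact hlt') with h3 | ⟨h3, h4⟩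
        · rw [h1, h3, hcol']
        · rcases h4 with h4 | h4 | h4
          · have : v = u := hi1 v u hρ.symm hi.symm h4
            rw [this]
          · rw [← hρ] at h4
            exact hX _ _ _ hx1 w h4
          · exact (hex v (by rw [← hβ]; exact hlt) ⟨h3, h4⟩).elim
      · rcases h2 with h4 | h4 | h4
        · have : u = v := hi1 u v hρ hi h4
          rw [this]
        · exact hX _ _ _ hx1 w h4
        · exact (hex u hlt ⟨h1, h4⟩).elim
    · -- the same layer
      rcases spec u with h | h | h
      · exfalso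
        have h1 := h.2.2
        have := (hbd w).2
        omega
      · rcases spec v with h' | h' | h'
        · exfalso; rw [h.1, h'.1] at hkind; exact absurd hkind (by decide)
        · have hwn : w ∉ M (ρ u - 1) := by
            intro h1
            rcases spec w with g | g | g
            · have h2 := hdisj (ρ u - 1)
              have h3 : ρ u - 1 + 1 = ρ w := by have := h.2.2.1; omega
              rw [h3] at h2
              exact Finset.disjoint_left.1 h2 h1 g.2.1
            · have := g.2.2.2.2; have := h.2.2.2.2; omega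
            · apply g.2.2.1
              rw [← heq]
              exact ⟨h.2.2.1, h1⟩
          by_cases hwD : w ∈ D (ρ u - 1)
          · exact hX _ _ _ hx2 w hwD
          · have h1 := hunif (ρ u - 1) w hw hwn hwD u h.2.2.2.1 v (by rw [hρ]; exact h'.2.2.2.1)
              hρ hcol'
            rw [G.adj_comm u w, G.adj_comm v w]
            exact h1
        · exfalso; rw [h.1, h'.1] at hkind; exact absurd hkind (by decide)
      · rcases spec v with h' | h' | h'
        · exfalso; rw [h.1, h'.1] at hkind; exact absurd hkind (by decide)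
        · exfalso; rw [h.1, h'.1] at hkind; exact absurd hkind (by decide)
        · have hwM : w ∈ M (ρ u) := by
            rw [heq]
            rcases spec w with g | g | g
            · exact g.2.1
            · exfalso; have := g.2.2.2.2; have := h.2.2.2; omega
            · exfalso; have := g.2.2.2; have := h.2.2.2; omega
          by_cases huD : u ∈ D (ρ u)
          · have : u = v := hi1 u v hρ hi huD
            rw [this]
          · have hvD : v ∉ D (ρ v) := by
              intro h1
              have h2 : v = u := hi1 v u hρ.symm hi.symm h1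
              rw [h2] at h1
              exact huD h1
            have hyy : ∀ x, x ∈ S → x ∉ M (ρ x) → x ∉ D (ρ x) → ρ x = ρ w →
                (G.Adj x w ↔ y x (col w)) := by
              intro x hxS hxM hxD hxw
              constructor
              · intro hadj
                refine ⟨w, ?_, hxw.symm, rfl, hadj⟩
                rw [hxw, ← heq]; exact hwM
              · rintro ⟨w', hw', h1, h2, h3⟩
                have hwx : w ∈ M (ρ x) := by rw [hxw, ← heq]; exact hwM
                exact (hunif (ρ x) x hxS hxM hxD w' hw' w hwx (by rw [h1, hxw]) h2).1 h3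
            rw [hyy u hu h.2.1 huD heq, hyy v hv h'.2.1 hvD (by rw [← hρ]; exact heq), hy]
  · intro u hu v hv w hw h1 h2 hcol
    have hC : C u = C v := (Fintype.equivFin _).injective hcol
    have hcol' : col u = col v := congrArg (fun t => t.1) hC
    have h3 : ρ u + 2 ≤ ρ w := by have := hbd u; have := hbd w; omega
    have h4 : ρ v + 2 ≤ ρ w := by have := hbd v; have := hbd w; omega
    have h5 : G.Adj u w ↔ rule (col u) (col w) := by
      rcases hrule u hu w hw (by omega) with h | ⟨h, -⟩
      · exact h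
      · omega
    have h6 : G.Adj v w ↔ rule (col v) (col w) := by
      rcases hrule v hv w hw (by omega) with h | ⟨h, -⟩
      · exact h
      · omega
    rw [h5, h6, hcol']

end Layered

end Pool.Agent.Helper856.Cw
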