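import Pool.Agent.Helper856.Pair.Defs

open Classical SimpleGraph

namespace Pool.Agent.Helper856.Cw

namespace TFacts

variable {V : Type} {G : SimpleGraph V} {S T : Finset V} {k l : ℕ}

theorem j14494_memA {A B C : Finset V} (h : TT G A B C) {a c : V} (ha : a ∈ A) :
    c ∈ SX G B C a ↔ c ∈ C ∧ G.Adj a c := by
  have hB : a ∉ B := Finset.disjoint_left.1 h.dAB ha
  rw [SX, Finset.mem_filter]
  constructor
  · rintro ⟨h1, h2 | h2⟩
    · exact absurd h2.1 hB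
    · exact ⟨h1, h2.2⟩
  · rintro ⟨h1, h2⟩
    exact ⟨h1, Or.inr ⟨hB, h2⟩⟩

theorem j14494_memB {B C : Finset V} {b c : V} (hb : b ∈ B) :
    c ∈ SX G B C b ↔ c ∈ C ∧ ¬G.Adj b c := by
  rw [SX, Finset.mem_filter]
  constructor
  · rintro ⟨h1, h2 | h2⟩
    · exact ⟨h1, h2.2⟩
    · exact absurd hb h2.1
  · rintro ⟨h1, h2⟩
    exact ⟨h1, Or.inl ⟨hb, h2⟩⟩

theorem j14494_L0 {α : Type} (X Y : Finset α) :
    (X \ Y).card + Y.card = (Y \ X).card + X.card := by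
  have h1 := Finset.card_sdiff_add_card_inter X Y
  have h2 := Finset.card_sdiff_add_card_inter Y X
  rw [Finset.inter_comm] at h2
  omega

theorem j14494_L1 {α : Type} {X Y : Finset α} {c : α} (h : X.card < Y.card) (h1 : c ∈ X)
    (h2 : c ∉ Y) : ∃ c' c'', c' ∈ Y ∧ c' ∉ X ∧ c'' ∈ Y ∧ c'' ∉ X ∧ c' ≠ c'' := by
  have h3 := j14494_L0 X Y
  have h4 : 0 < (X \ Y).card := Finset.card_pos.2 ⟨c, Finset.mem_sdiff.2 ⟨h1, h2⟩⟩
  have h5 : 1 < (Y \ X).card := by omega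
  obtain ⟨c', hc', c'', hc'', hne⟩ := Finset.one_lt_card.1 h5
  rw [Finset.mem_sdiff] at hc' hc''
  exact ⟨c', c'', hc'.1, hc'.2, hc''.1, hc''.2, hne⟩

theorem j14494_L2 {α : Type} {X Y : Finset α} {c : α} (h : X.card = Y.card) (h1 : c ∈ X)
    (h2 : c ∉ Y) : ∃ d, d ∈ Y ∧ d ∉ X := by
  have h3 := j14494_L0 X Y
  have h4 : 0 < (X \ Y).card := Finset.card_pos.2 ⟨c, Finset.mem_sdiff.2 ⟨h1, h2⟩⟩
  have h5 : 0 < (Y \ X).card := by omega
  obtain ⟨d, hd⟩ := Finset.card_pos.1 h5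
  rw [Finset.mem_sdiff] at hd
  exact ⟨d, hd⟩

theorem j14494_gen {Z C : Finset V} (hZ : Ind G Z) (hC : Ind G C) (hP : NoP2P3T G (Z ∪ C))
    {x y c c' c'' : V} (hx : x ∈ Z) (hy : y ∈ Z) (hc : c ∈ C) (hc' : c' ∈ C) (hc'' : c'' ∈ C)
    (h1 : G.Adj x c) (h2 : ¬G.Adj y c) (h3 : G.Adj y c') (h4 : G.Adj y c'')
    (h5 : ¬G.Adj x c') (h6 : ¬G.Adj x c'') (h7 : c' ≠ c'') : False :=
  hP x (Finset.mem_union_left _ hx) c (Finset.mem_union_right _ hc) c'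
    (Finset.mem_union_right _ hc') y (Finset.mem_union_left _ hy) c''
    (Finset.mem_union_right _ hc'') h1 h3.symm h4 h7 (hC _ hc' _ hc'') h5 (hZ _ hx _ hy) h6
    (hC _ hc _ hc') (fun h => h2 h.symm) (hC _ hc _ hc'')

theorem j14494_gen2 {Z C : Finset V} (hZ : Ind G Z) (hC : Ind G C) (hP : NoP2P3T G (Z ∪ C))
    {x y y' c d : V} (hx : x ∈ Z) (hy : y ∈ Z) (hy' : y' ∈ Z) (hc : c ∈ C) (hd : d ∈ C)
    (h1 : G.Adj x d) (h2 : G.Adj y c) (h3 : G.Adj y' c) (h4 : ¬G.Adj x c)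
    (h5 : ¬G.Adj y d) (h6 : ¬G.Adj y' d) (h7 : y ≠ y') : False :=
  hP x (Finset.mem_union_left _ hx) d (Finset.mem_union_right _ hd) y
    (Finset.mem_union_left _ hy) c (Finset.mem_union_right _ hc) y'
    (Finset.mem_union_left _ hy') h1 h2 h3.symm h7 (hZ _ hy _ hy') (hZ _ hx _ hy) h4
    (hZ _ hx _ hy') (fun h => h5 h.symm) (hC _ hd _ hc) (fun h => h6 h.symm)

theorem j14494_nA {A B C : Finset V} (h : TT G A B C) {a c : V} (ha : a ∈ A) (hc : c ∈ C)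
    (hn : c ∉ SX G B C a) : ¬G.Adj a c := fun hh => hn ((j14494_memA h ha).2 ⟨hc, hh⟩)

theorem j14494_nB {B C : Finset V} {a c : V} (ha : a ∈ B) (hc : c ∈ C)
    (hn : c ∉ SX G B C a) : G.Adj a c := by
  by_contra hh
  exact hn ((j14494_memB ha).2 ⟨hc, hh⟩)

/-- TARGET -/
theorem tf_a {A B C : Finset V} (h : TT G A B C) {a b : V} (ha : a ∈ A) (hb : b ∈ B)
    (hn : ¬G.Adj a b) : SX G B C b ⊆ SX G B C a := by
  intro c hc
  obtain ⟨h1, h2⟩ := (j14494_memB hb).1 hc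
  refine (j14494_memA h ha).2 ⟨h1, ?_⟩
  rcases h.nit a ha b hb c h1 with h3 | h3 | h3
  · exact absurd h3 hn
  · exact absurd h3 h2
  · exact h3

/-- TARGET -/
theorem tf_b {A B C : Finset V} (h : TT G A B C) (hd : NoDia G) {a b c c' : V} (ha : a ∈ A) (hb : b ∈ B)
    (hab : G.Adj a b) (h1 : c ∈ SX G B C a) (h2 : c ∉ SX G B C b) (h3 : c' ∈ SX G B C a)
    (h4 : c' ∉ SX G B C b) : c = c' := by
  obtain ⟨k1, k2⟩ := (j14494_memA h ha).1 h1
  obtain ⟨k3, k4⟩ := (j14494_memA h ha).1 h3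
  by_contra hne
  exact h.iC _ k1 _ k3 (hd a b c c' hab k2 (j14494_nB hb k1 h2) k4 (j14494_nB hb k3 h4) hne)

/-- TARGET -/
theorem tf_cA {A B C : Finset V} (h : TT G A B C) {a a' : V} (ha : a ∈ A) (ha' : a' ∈ A)
    (hs : sx G B C a < sx G B C a') : SX G B C a ⊆ SX G B C a' := by
  intro c h1
  by_contra h2
  obtain ⟨c', c'', h3, h4, h5, h6, h7⟩ := j14494_L1 hs h1 h2
  obtain ⟨k1, k2⟩ := (j14494_memA h ha).1 h1
  obtain ⟨k3, k4⟩ := (j14494_memA h ha').1 h3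
  obtain ⟨k5, k6⟩ := (j14494_memA h ha').1 h5
  exact j14494_gen h.iA h.iC h.pAC ha ha' k1 k3 k5 k2 (j14494_nA h ha' k1 h2) k4 k6
    (j14494_nA h ha k3 h4) (j14494_nA h ha k5 h6) h7

/-- TARGET -/
theorem tf_cB {A B C : Finset V} (h : TT G A B C) {a a' : V} (ha : a ∈ B) (ha' : a' ∈ B)
    (hs : sx G B C a < sx G B C a') : SX G B C a ⊆ SX G B C a' := by
  intro c h1
  by_contra h2
  obtain ⟨c', c'', h3, h4, h5, h6, h7⟩ := j14494_L1 hs h1 h2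
  obtain ⟨k1, k2⟩ := (j14494_memB ha).1 h1
  obtain ⟨k3, k4⟩ := (j14494_memB ha').1 h3
  obtain ⟨k5, k6⟩ := (j14494_memB ha').1 h5
  exact j14494_gen h.iB h.iC h.pBC ha' ha k1 k3 k5 (j14494_nB ha' k1 h2) k2
    (j14494_nB ha k3 h4) (j14494_nB ha k5 h6) k4 k6 h7

/-- TARGET -/
theorem tf_dA {A B C : Finset V} (h : TT G A B C) {a a' c c' : V} (ha : a ∈ A) (ha' : a' ∈ A)
    (hs : sx G B C a = sx G B C a') (h1 : c ∈ SX G B C a) (h2 : c ∉ SX G B C a')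
    (h3 : c' ∈ SX G B C a) (h4 : c' ∉ SX G B C a') : c = c' := by
  by_contra hne
  obtain ⟨d, h5, h6⟩ := j14494_L2 hs h1 h2
  obtain ⟨k1, k2⟩ := (j14494_memA h ha).1 h1
  obtain ⟨k3, k4⟩ := (j14494_memA h ha).1 h3
  obtain ⟨k5, k6⟩ := (j14494_memA h ha').1 h5
  exact j14494_gen h.iA h.iC h.pAC ha' ha k5 k1 k3 k6 (j14494_nA h ha k5 h6) k2 k4
    (j14494_nA h ha' k1 h2) (j14494_nA h ha' k3 h4) hne

/-- TARGET -/
theorem tf_dB {A B C : Finset V} (h : TT G A B C) {a a' c c' : V} (ha : a ∈ B) (ha' : a' ∈ B)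
    (hs : sx G B C a = sx G B C a') (h1 : c ∈ SX G B C a) (h2 : c ∉ SX G B C a')
    (h3 : c' ∈ SX G B C a) (h4 : c' ∉ SX G B C a') : c = c' := by
  by_contra hne
  obtain ⟨d, h5, h6⟩ := j14494_L2 hs h1 h2
  obtain ⟨k1, k2⟩ := (j14494_memB ha).1 h1
  obtain ⟨k3, k4⟩ := (j14494_memB ha).1 h3
  obtain ⟨k5, k6⟩ := (j14494_memB ha').1 h5
  exact j14494_gen h.iB h.iC h.pBC ha ha' k5 k1 k3 (j14494_nB ha k5 h6) k6
    (j14494_nB ha' k1 h2) (j14494_nB ha' k3 h4) k2 k4 hne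

/-- TARGET -/
theorem tf_eA {A B C : Finset V} (h : TT G A B C) {a a' x : V} (ha : a ∈ A) (ha' : a' ∈ A) (hx : x ∈ A)
    (hne : a ≠ a') (he : SX G B C a = SX G B C a') (hs : sx G B C x = sx G B C a) :
    SX G B C x = SX G B C a := by
  by_contra hX
  have hsub : ¬ SX G B C x ⊆ SX G B C a := fun hh =>
    hX (Finset.eq_of_subset_of_card_le hh (le_of_eq hs.symm))
  obtain ⟨d, h1, h2⟩ := Finset.not_subset.1 hsub
  obtain ⟨c, h3, h4⟩ := j14494_L2 hs h1 h2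
  have h5 : c ∈ SX G B C a' := he ▸ h3
  have h6 : d ∉ SX G B C a' := he ▸ h2
  obtain ⟨k1, k2⟩ := (j14494_memA h hx).1 h1
  obtain ⟨k3, k4⟩ := (j14494_memA h ha).1 h3
  obtain ⟨k5, k6⟩ := (j14494_memA h ha').1 h5
  exact j14494_gen2 h.iA h.iC h.pAC hx ha ha' k3 k1 k2 k4 k6 (j14494_nA h hx k3 h4)
    (j14494_nA h ha k1 h2) (j14494_nA h ha' k1 h6) hne

/-- TARGET -/
theorem tf_eB {A B C : Finset V} (h : TT G A B C) {a a' x : V} (ha : a ∈ B) (ha' : a' ∈ B) (hx : x ∈ B)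
    (hne : a ≠ a') (he : SX G B C a = SX G B C a') (hs : sx G B C x = sx G B C a) :
    SX G B C x = SX G B C a := by
  by_contra hX
  have hsub : ¬ SX G B C x ⊆ SX G B C a := fun hh =>
    hX (Finset.eq_of_subset_of_card_le hh (le_of_eq hs.symm))
  obtain ⟨d, h1, h2⟩ := Finset.not_subset.1 hsub
  obtain ⟨c, h3, h4⟩ := j14494_L2 hs h1 h2
  have h5 : c ∈ SX G B C a' := he ▸ h3
  have h6 : d ∉ SX G B C a' := he ▸ h2
  obtain ⟨k1, k2⟩ := (j14494_memB hx).1 h1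
  obtain ⟨k3, k4⟩ := (j14494_memB ha).1 h3
  obtain ⟨k5, k6⟩ := (j14494_memB ha').1 h5
  exact j14494_gen2 h.iB h.iC h.pBC hx ha ha' k1 k3 (j14494_nB hx k3 h4) (j14494_nB ha k1 h2)
    (j14494_nB ha' k1 h6) k2 k4 k6 hne

/-- TARGET -/
theorem tf_f {A B C : Finset V} (h : TT G A B C) {a b : V} (ha : a ∈ A) (hb : b ∈ B)
    (hs : sx G B C a < sx G B C b) : G.Adj a b := by
  by_contra hn
  exact absurd (Finset.card_le_card (tf_a h ha hb hn)) (not_le.2 hs)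

/-- TARGET -/
theorem tf_f2 {A B C : Finset V} (h : TT G A B C) {a b : V} (ha : a ∈ A) (hb : b ∈ B)
    (hs : sx G B C a = sx G B C b) (hne : SX G B C a ≠ SX G B C b) : G.Adj a b := by
  by_contra hn
  exact hne (Finset.eq_of_subset_of_card_le (tf_a h ha hb hn) (le_of_eq hs)).symm

/-- TARGET -/
theorem tf_g {A B C : Finset V} (h : TT G A B C) (hd : NoDia G) {a b : V} (ha : a ∈ A) (hb : b ∈ B)
    (hs : sx G B C b < sx G B C a) : SX G B C b ⊆ SX G B C a := by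
  by_cases hab : G.Adj a b
  · have h1 : (SX G B C a \ SX G B C b).card ≤ 1 := by
      rw [Finset.card_le_one]
      intro c hc c' hc'
      rw [Finset.mem_sdiff] at hc hc'
      exact tf_b h hd ha hb hab hc.1 hc.2 hc'.1 hc'.2
    have h2 := j14494_L0 (SX G B C a) (SX G B C b)
    have hs' : (SX G B C b).card < (SX G B C a).card := hs
    have h3 : (SX G B C b \ SX G B C a).card = 0 := by omega
    rw [Finset.card_eq_zero] at h3
    exact Finset.sdiff_eq_empty_iff_subset.1 h3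
  · exact tf_a h ha hb hab

/-- TARGET -/
theorem tf_g2 {A B C : Finset V} (h : TT G A B C) (hd : NoDia G) {a b : V} (ha : a ∈ A) (hb : b ∈ B)
    (hs : sx G B C b < sx G B C a) (hab : G.Adj a b) : sx G B C a = sx G B C b + 1 := by
  have h1 : (SX G B C a \ SX G B C b).card ≤ 1 := by
    rw [Finset.card_le_one]
    intro c hc c' hc'
    rw [Finset.mem_sdiff] at hc hc'
    exact tf_b h hd ha hb hab hc.1 hc.2 hc'.1 hc'.2
  have h2 := j14494_L0 (SX G B C a) (SX G B C b)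
  have hs' : (SX G B C b).card < (SX G B C a).card := hs
  change (SX G B C a).card = (SX G B C b).card + 1
  omega

end TFacts

end Pool.Agent.Helper856.Cw
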