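import Pool.Agent.Helper856.Pair.Defs
import Pool.Agent.Helper856.Pair.TFacts

open Classical SimpleGraph

namespace Pool.Agent.Helper856.Cw

open TFacts (tf_cA tf_cB tf_f tf_g tf_g2)

namespace TRho

variable {V : Type} {G : SimpleGraph V} {S T : Finset V} {k l : ℕ}

theorem rho_ab833 {A B C : Finset V} (h : TT G A B C) {u : V} (hu : u ∈ A ∪ B) :
    rho G A B C u = (((A ∪ B).image (sx G B C)).filter (fun k => k < sx G B C u)).card := by
  have huC : u ∉ C := by
    rcases Finset.mem_union.1 hu with h1 | h1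
    · exact fun h2 => Finset.disjoint_left.1 h.dAC h1 h2
    · exact fun h2 => Finset.disjoint_left.1 h.dBC h1 h2
  unfold rho
  congr 1
  ext k
  rw [Finset.mem_filter, Finset.mem_filter]
  constructor
  · rintro ⟨h1, h2 | h2⟩
    · exact absurd h2.1 huC
    · exact ⟨h1, h2.2⟩
  · rintro ⟨h1, h2⟩
    exact ⟨h1, Or.inr ⟨huC, h2⟩⟩

theorem rho_c833 {A B C : Finset V} {c : V} (hc : c ∈ C) :
    rho G A B C c = (((A ∪ B).image (sx G B C)).filter
      (fun k => ∀ v ∈ A ∪ B, c ∈ SX G B C v → k < sx G B C v)).card := by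
  unfold rho
  congr 1
  ext k
  rw [Finset.mem_filter, Finset.mem_filter]
  constructor
  · rintro ⟨h1, h2 | h2⟩
    · exact ⟨h1, h2.2⟩
    · exact absurd hc h2.1
  · rintro ⟨h1, h2⟩
    exact ⟨h1, Or.inl ⟨hc, h2⟩⟩

theorem cnt_lt833 (I : Finset ℕ) {x y : ℕ} (hx : x ∈ I) :
    (I.filter (fun k => k < x)).card < (I.filter (fun k => k < y)).card ↔ x < y := by
  constructor
  · intro h
    by_contra hcon
    push Not at hcon
    have h1 : (I.filter (fun k => k < y)) ⊆ (I.filter (fun k => k < x)) := by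
      intro k hk
      rw [Finset.mem_filter] at hk ⊢
      exact ⟨hk.1, by omega⟩
    have h2 := Finset.card_le_card h1
    omega
  · intro h
    apply Finset.card_lt_card
    rw [Finset.ssubset_iff_of_subset]
    · refine ⟨x, ?_, ?_⟩
      · rw [Finset.mem_filter]; exact ⟨hx, h⟩
      · rw [Finset.mem_filter]; exact fun h2 => lt_irrefl _ h2.2
    · intro k hk
      rw [Finset.mem_filter] at hk ⊢
      exact ⟨hk.1, by omega⟩

/-- TARGET -/
theorem tr_lt {A B C : Finset V} (h : TT G A B C) {u v : V} (hu : u ∈ A ∪ B) (hv : v ∈ A ∪ B) :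
    rho G A B C u < rho G A B C v ↔ sx G B C u < sx G B C v := by
  rw [rho_ab833 h hu, rho_ab833 h hv]
  exact cnt_lt833 _ (Finset.mem_image_of_mem _ hu)

/-- TARGET -/
theorem tr_eq {A B C : Finset V} (h : TT G A B C) {u v : V} (hu : u ∈ A ∪ B) (hv : v ∈ A ∪ B) :
    rho G A B C u = rho G A B C v ↔ sx G B C u = sx G B C v := by
  have h1 := tr_lt h hu hv
  have h2 := tr_lt h hv hu
  constructor
  · intro h3
    rcases lt_trichotomy (sx G B C u) (sx G B C v) with h4 | h4 | h4
    · have := h1.2 h4; omega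
    · exact h4
    · have := h2.2 h4; omega
  · intro h3
    rcases lt_trichotomy (rho G A B C u) (rho G A B C v) with h4 | h4 | h4
    · have := h1.1 h4; omega
    · exact h4
    · have := h2.1 h4; omega

/-- TARGET -/
theorem tr_btw {A B C : Finset V} (h : TT G A B C) {u v : V} (hu : u ∈ A ∪ B) (hv : v ∈ A ∪ B)
    (h1 : rho G A B C u + 2 ≤ rho G A B C v) :
    ∃ w ∈ A ∪ B, sx G B C u < sx G B C w ∧ sx G B C w < sx G B C v := by
  by_contra hcon
  push Not at hcon
  rw [rho_ab833 h hu, rho_ab833 h hv] at h1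
  have h2 : ((A ∪ B).image (sx G B C)).filter (fun k => k < sx G B C v) ⊆
      insert (sx G B C u) (((A ∪ B).image (sx G B C)).filter (fun k => k < sx G B C u)) := by
    intro k hk
    rw [Finset.mem_filter, Finset.mem_image] at hk
    obtain ⟨⟨w, hw, hwk⟩, hk2⟩ := hk
    rw [Finset.mem_insert, Finset.mem_filter]
    by_cases h3 : sx G B C u < k
    · exfalso
      have := hcon w hw (by omega)
      omega
    · by_cases h4 : k = sx G B C u
      · exact Or.inl h4
      · right
        exact ⟨Finset.mem_image.2 ⟨w, hw, hwk⟩, by omega⟩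
  have h3 := Finset.card_le_card h2
  have h4 := Finset.card_insert_le (sx G B C u)
    (((A ∪ B).image (sx G B C)).filter (fun k => k < sx G B C u))
  omega

/-- TARGET -/
theorem tr_c1 {A B C : Finset V} (h : TT G A B C) {c u : V} (hc : c ∈ C) (hu : u ∈ A ∪ B)
    (h1 : c ∈ SX G B C u) : rho G A B C c ≤ rho G A B C u := by
  rw [rho_c833 hc, rho_ab833 h hu]
  apply Finset.card_le_card
  intro k hk
  rw [Finset.mem_filter] at hk ⊢
  exact ⟨hk.1, hk.2 u hu h1⟩

/-- TARGET -/
theorem tr_c2 {A B C : Finset V} (h : TT G A B C) {c u : V} (hc : c ∈ C) (hu : u ∈ A ∪ B)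
    (h1 : rho G A B C c ≤ rho G A B C u) :
    ∃ v ∈ A ∪ B, c ∈ SX G B C v ∧ rho G A B C v = rho G A B C c := by
  by_cases hex : ((A ∪ B).filter (fun v => c ∈ SX G B C v)).Nonempty
  · obtain ⟨v, hv, hmin⟩ := Finset.exists_min_image _ (sx G B C) hex
    rw [Finset.mem_filter] at hv
    refine ⟨v, hv.1, hv.2, ?_⟩
    rw [rho_ab833 h hv.1, rho_c833 hc]
    congr 1
    ext k
    rw [Finset.mem_filter, Finset.mem_filter]
    constructor
    · rintro ⟨h2, h3⟩
      refine ⟨h2, fun w hw hcw => ?_⟩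
      have := hmin w (Finset.mem_filter.2 ⟨hw, hcw⟩)
      omega
    · rintro ⟨h2, h3⟩
      exact ⟨h2, h3 v hv.1 hv.2⟩
  · exfalso
    rw [rho_ab833 h hu, rho_c833 hc] at h1
    have h2 : ((A ∪ B).image (sx G B C)).filter
        (fun k => ∀ v ∈ A ∪ B, c ∈ SX G B C v → k < sx G B C v) = (A ∪ B).image (sx G B C) := by
      rw [Finset.filter_eq_self]
      intro k _ v hv hcv
      exact absurd ⟨v, Finset.mem_filter.2 ⟨hv, hcv⟩⟩ hex
    rw [h2] at h1
    have h3 : (((A ∪ B).image (sx G B C)).filter (fun k => k < sx G B C u)).card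
        < ((A ∪ B).image (sx G B C)).card := by
      apply Finset.card_lt_card
      rw [Finset.ssubset_iff_of_subset (Finset.filter_subset _ _)]
      refine ⟨sx G B C u, Finset.mem_image_of_mem _ hu, ?_⟩
      rw [Finset.mem_filter]
      exact fun h4 => lt_irrefl _ h4.2
    omega

theorem mA833 {A B C : Finset V} (h : TT G A B C) {a c : V} (ha : a ∈ A) (hc : c ∈ C) :
    c ∈ SX G B C a ↔ G.Adj a c := by
  have haB : a ∉ B := fun h2 => Finset.disjoint_left.1 h.dAB ha h2
  unfold SX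
  rw [Finset.mem_filter]
  constructor
  · rintro ⟨_, h1 | h1⟩
    · exact absurd h1.1 haB
    · exact h1.2
  · intro h1
    exact ⟨hc, Or.inr ⟨haB, h1⟩⟩

theorem mB833 {B C : Finset V} {b c : V} (hb : b ∈ B) (hc : c ∈ C) :
    c ∈ SX G B C b ↔ ¬G.Adj b c := by
  unfold SX
  rw [Finset.mem_filter]
  constructor
  · rintro ⟨_, h1 | h1⟩
    · exact h1.2
    · exact absurd hb h1.1
  · intro h1
    exact ⟨hc, Or.inl ⟨hb, h1⟩⟩

/-- TARGET -/
theorem tx_ab {A B C : Finset V} (h : TT G A B C) {a b : V} (ha : a ∈ A) (hb : b ∈ B)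
    (h1 : rho G A B C a < rho G A B C b) : G.Adj a b :=
  tf_f h ha hb ((tr_lt h (Finset.mem_union_left _ ha) (Finset.mem_union_right _ hb)).1 h1)

/-- TARGET -/
theorem tx_ba {A B C : Finset V} (h : TT G A B C) (hd : NoDia G) {a b : V} (ha : a ∈ A) (hb : b ∈ B)
    (h1 : rho G A B C b < rho G A B C a) (hab : G.Adj a b) :
    sx G B C a = sx G B C b + 1 ∧ rho G A B C a = rho G A B C b + 1 := by
  have hA : a ∈ A ∪ B := Finset.mem_union_left _ ha
  have hB : b ∈ A ∪ B := Finset.mem_union_right _ hb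
  have h2 := tf_g2 h hd ha hb ((tr_lt h hB hA).1 h1) hab
  refine ⟨h2, ?_⟩
  rw [rho_ab833 h hA, rho_ab833 h hB, h2]
  have h3 : ((A ∪ B).image (sx G B C)).filter (fun k => k < sx G B C b + 1) =
      insert (sx G B C b) (((A ∪ B).image (sx G B C)).filter (fun k => k < sx G B C b)) := by
    ext k
    rw [Finset.mem_insert, Finset.mem_filter, Finset.mem_filter]
    constructor
    · rintro ⟨h4, h5⟩
      by_cases h6 : k = sx G B C b
      · exact Or.inl h6
      · exact Or.inr ⟨h4, by omega⟩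
    · rintro (h4 | h4)
      · rw [h4]
        exact ⟨Finset.mem_image_of_mem _ hB, by omega⟩
      · exact ⟨h4.1, by omega⟩
  rw [h3, Finset.card_insert_of_notMem]
  rw [Finset.mem_filter]
  exact fun h4 => lt_irrefl _ h4.2

/-- TARGET -/
theorem tx_ac {A B C : Finset V} (h : TT G A B C) {a c : V} (ha : a ∈ A) (hc : c ∈ C)
    (h1 : rho G A B C a < rho G A B C c) : ¬G.Adj a c := by
  intro h2
  have := tr_c1 h hc (Finset.mem_union_left _ ha) ((mA833 h ha hc).2 h2)
  omega

/-- TARGET -/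
theorem tx_ca {A B C : Finset V} (h : TT G A B C) (hd : NoDia G) {a c : V} (ha : a ∈ A) (hc : c ∈ C)
    (h1 : rho G A B C c < rho G A B C a) : G.Adj a c := by
  have hA : a ∈ A ∪ B := Finset.mem_union_left _ ha
  obtain ⟨v, hv, hcv, hr⟩ := tr_c2 h hc hA h1.le
  have hlt : sx G B C v < sx G B C a := (tr_lt h hv hA).1 (by omega)
  apply (mA833 h ha hc).1
  rcases Finset.mem_union.1 hv with hv1 | hv1
  · exact tf_cA h hv1 ha hlt hcv
  · exact tf_g h hd ha hv1 hlt hcv

/-- TARGET -/
theorem tx_bc {A B C : Finset V} (h : TT G A B C) {b c : V} (hb : b ∈ B) (hc : c ∈ C)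
    (h1 : rho G A B C b < rho G A B C c) : G.Adj b c := by
  by_contra h2
  have := tr_c1 h hc (Finset.mem_union_right _ hb) ((mB833 hb hc).2 h2)
  omega

/-- TARGET -/
theorem tx_cb {A B C : Finset V} (h : TT G A B C) (hd : NoDia G) {b c : V} (hb : b ∈ B) (hc : c ∈ C)
    (h1 : rho G A B C c < rho G A B C b) (hbc : G.Adj c b) : rho G A B C b = rho G A B C c + 1 ∧
    ∃ a ∈ A, rho G A B C a = rho G A B C c ∧ G.Adj a c ∧ G.Adj a b := by
  have hB : b ∈ A ∪ B := Finset.mem_union_right _ hb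
  have hcb : c ∉ SX G B C b := fun h2 => (mB833 hb hc).1 h2 hbc.symm
  obtain ⟨a, ha0, hca, hr⟩ := tr_c2 h hc hB h1.le
  have hlt : sx G B C a < sx G B C b := (tr_lt h ha0 hB).1 (by omega)
  have ha : a ∈ A := by
    rcases Finset.mem_union.1 ha0 with hv1 | hv1
    · exact hv1
    · exact absurd (tf_cB h hv1 hb hlt hca) hcb
  have hac : G.Adj a c := (mA833 h ha hc).1 hca
  have hab : G.Adj a b := tf_f h ha hb hlt
  refine ⟨?_, a, ha, hr, hac, hab⟩
  by_contra hne
  have h2 : rho G A B C a + 2 ≤ rho G A B C b := by omega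
  obtain ⟨w, hw, hw1, hw2⟩ := tr_btw h ha0 hB h2
  rcases Finset.mem_union.1 hw with hwA | hwB
  · have hcw : G.Adj w c := (mA833 h hwA hc).1 (tf_cA h ha hwA hw1 hca)
    have hwb : G.Adj w b := tf_f h hwA hb hw2
    have hne2 : a ≠ w := by
      rintro rfl
      exact lt_irrefl _ hw1
    exact h.iA a ha w hwA (hd b c a w hbc.symm hab.symm hac.symm hwb.symm hcw.symm hne2)
  · have hcw : G.Adj w c := by
      by_contra h3
      exact hcb (tf_cB h hwB hb hw2 ((mB833 hwB hc).2 h3))
    have haw : G.Adj a w := tf_f h ha hwB hw1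
    have hne2 : b ≠ w := by
      rintro rfl
      exact lt_irrefl _ hw2
    exact h.iB b hb w hwB (hd a c b w hac hab hbc haw hcw.symm hne2)

end TRho

end Pool.Agent.Helper856.Cw
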