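import Pool.Agent.Helper856.Pair.Defs
import Pool.Agent.Helper856.Pair.TFacts
import Pool.Agent.Helper856.Pair.TRho

open Classical SimpleGraph

namespace Pool.Agent.Helper856.Cw

open TFacts (tf_a tf_f2)
open TRho (tr_eq tx_ab tx_ca tx_bc tx_cb)

namespace TDisj

variable {V : Type} {G : SimpleGraph V} {S T : Finset V} {k l : ℕ}

/-- TARGET -/
theorem tt_disj {A B C : Finset V} (h : TT G A B C) (hd : NoDia G) (n : ℕ) {u : V}
    (h0 : rho G A B C u = n + 1) (h1 : Up G A B C n u) (h2 : Lo G A B C (n + 1) u) : False := by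
  have dab : ∀ x, x ∈ A → x ∈ B → False := fun x ha hb => Finset.disjoint_left.1 h.dAB ha hb
  have dac : ∀ x, x ∈ A → x ∈ C → False := fun x ha hb => Finset.disjoint_left.1 h.dAC ha hb
  have dbc : ∀ x, x ∈ B → x ∈ C → False := fun x ha hb => Finset.disjoint_left.1 h.dBC ha hb
  rcases h1 with ⟨huB, c, hc, rc, hcu⟩ | ⟨huA, b, hb, rb, hbu⟩ | ⟨huC, a, ha, b, hb, ra, rb, hab, hau, hbu⟩
  · rcases h2 with ⟨huC, _⟩ | ⟨huA, _⟩ | ⟨_, a', ha', ra', hua'⟩ | ⟨huC, _⟩
    · exact dbc u huB huC
    · exact dab u huA huB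
    · obtain ⟨_, a, ha, ra, hac, hau⟩ := tx_cb h hd huB hc (by omega) hcu
      have hca' : G.Adj a' c := tx_ca h hd ha' hc (by omega)
      have hne : a ≠ a' := by
        rintro rfl
        omega
      exact h.iA a ha a' ha' (hd u c a a' hcu.symm hau.symm hac.symm hua' hca'.symm hne)
    · exact dbc u huB huC
  · rcases h2 with ⟨huC, _⟩ | ⟨_, c, hc, b', hb', rc, rb', huc, hcb'⟩ | ⟨huB, _⟩ | ⟨huC, _⟩
    · exact dac u huA huC
    · have hub' : G.Adj u b' := tx_ab h huA hb' (by omega)
      have hbc : G.Adj b c := tx_bc h hb hc (by omega)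
      have hne : b ≠ b' := by
        rintro rfl
        omega
      exact h.iB b hb b' hb' (hd u c b b' huc hbu.symm hbc.symm hub' hcb' hne)
    · exact dab u huA huB
    · exact dac u huA huC
  · rcases h2 with ⟨_, b', hb', rb', hub'⟩ | ⟨huA, _⟩ | ⟨huB, _⟩ |
      ⟨_, b', hb', a', ha', rb', ra', hub', hba'⟩
    · have hab' : G.Adj a b' := tx_ab h ha hb' (by omega)
      have hne : b ≠ b' := by
        rintro rfl
        omega
      exact h.iB b hb b' hb' (hd a u b b' hau hab hbu.symm hab' hub' hne)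
    · exact dac u huA huC
    · exact dbc u huB huC
    · have hs : sx G B C a = sx G B C b' :=
        (tr_eq h (Finset.mem_union_left _ ha) (Finset.mem_union_right _ hb')).1 (by omega)
      have hna : a ∉ B := fun hB => dab a ha hB
      have m1 : u ∈ SX G B C a := by
        unfold SX
        rw [Finset.mem_filter]
        exact ⟨huC, Or.inr ⟨hna, hau⟩⟩
      have m2 : u ∉ SX G B C b' := by
        unfold SX
        rw [Finset.mem_filter]
        rintro ⟨_, ⟨_, h4⟩ | ⟨h4, _⟩⟩
        · exact h4 hub'.symm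
        · exact h4 hb'
      have hne' : SX G B C a ≠ SX G B C b' := by
        intro he
        rw [he] at m1
        exact m2 m1
      have hab' : G.Adj a b' := tf_f2 h ha hb' hs hne'
      have hne : b ≠ b' := by
        rintro rfl
        omega
      exact h.iB b hb b' hb' (hd a u b b' hau hab hbu.symm hab' hub' hne)

end TDisj

end Pool.Agent.Helper856.Cw
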