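import Pool.Agent.Helper856.Pair.Defs

open Classical SimpleGraph

namespace Pool.Agent.Helper856.Cw

namespace StarM

variable {V : Type} {G : SimpleGraph V} {S T : Finset V} {k l : ℕ}

/-- TARGET -/
theorem star_match (X Y : Finset V) (E : V → V → Prop)
    (h1 : ∀ x ∈ X, ∀ y ∈ Y, ∀ y' ∈ Y, E x y → E x y' → y = y')
    (h2 : ∀ x ∈ X, ∀ x' ∈ X, ∀ x'' ∈ X, ∀ y ∈ Y, ∀ y'' ∈ Y, x ≠ x' → E x y → E x' y → E x'' y'' →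
      y'' = y) :
    (∃ D : Finset V, D.card ≤ 2 ∧ ∀ x ∈ X, ∀ y ∈ Y, E x y → x ∈ D ∨ y ∈ D) ∨
    ((∀ x ∈ X, ∀ x' ∈ X, ∀ y ∈ Y, E x y → E x' y → x = x') ∧
      ∃ x1 ∈ X, ∃ x2 ∈ X, ∃ x3 ∈ X, ∃ y1 ∈ Y, ∃ y2 ∈ Y, ∃ y3 ∈ Y, x1 ≠ x2 ∧ x1 ≠ x3 ∧ x2 ≠ x3 ∧
        y1 ≠ y2 ∧ y1 ≠ y3 ∧ y2 ≠ y3 ∧ E x1 y1 ∧ E x2 y2 ∧ E x3 y3) := by
  by_cases hA : ∃ x ∈ X, ∃ x' ∈ X, ∃ y ∈ Y, x ≠ x' ∧ E x y ∧ E x' y
  · obtain ⟨x, hx, x', hx', y, hy, hne, e1, e2⟩ := hA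
    left
    refine ⟨{y}, by simp, ?_⟩
    intro x'' hx'' y'' hy'' e3
    right
    rw [Finset.mem_singleton]
    exact h2 x hx x' hx' x'' hx'' y hy y'' hy'' hne e1 e2 e3
  · have hinj : ∀ x ∈ X, ∀ x' ∈ X, ∀ y ∈ Y, E x y → E x' y → x = x' := by
      intro x hx x' hx' y hy e1 e2
      by_contra hne
      exact hA ⟨x, hx, x', hx', y, hy, hne, e1, e2⟩
    by_cases hc : (X.filter (fun x => ∃ y ∈ Y, E x y)).card ≤ 2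
    · left
      refine ⟨X.filter (fun x => ∃ y ∈ Y, E x y), hc, ?_⟩
      intro x hx y hy e
      left
      exact Finset.mem_filter.2 ⟨hx, y, hy, e⟩
    · right
      refine ⟨hinj, ?_⟩
      obtain ⟨x1, x2, x3, m1, m2, m3, n12, n13, n23⟩ := Finset.two_lt_card_iff.1 (not_le.1 hc)
      obtain ⟨k1, y1, l1, e1⟩ := Finset.mem_filter.1 m1
      obtain ⟨k2, y2, l2, e2⟩ := Finset.mem_filter.1 m2
      obtain ⟨k3, y3, l3, e3⟩ := Finset.mem_filter.1 m3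
      refine ⟨x1, k1, x2, k2, x3, k3, y1, l1, y2, l2, y3, l3, n12, n13, n23, ?_, ?_, ?_, e1, e2, e3⟩
      · rintro rfl; exact n12 (hinj _ k1 _ k2 _ l1 e1 e2)
      · rintro rfl; exact n13 (hinj _ k1 _ k3 _ l1 e1 e3)
      · rintro rfl; exact n23 (hinj _ k2 _ k3 _ l2 e2 e3)

end StarM

end Pool.Agent.Helper856.Cw
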