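import Pool.Agent.Helper856.Pair.Defs

open Classical SimpleGraph

namespace Pool.Agent.Helper856.Cw

namespace TSym

variable {V : Type} {G : SimpleGraph V} {S T : Finset V} {k l : ℕ}

/-- TARGET -/
theorem tt_rot {A B C : Finset V} (h : TT G A B C) : TT G B C A where
  dAB := h.dBC
  dAC := h.dAB.symm
  dBC := h.dAC.symm
  iA := h.iB
  iB := h.iC
  iC := h.iA
  nit := fun a ha b hb c hc => by
    rcases h.nit c hc a ha b hb with h1 | h1 | h1
    · exact Or.inr (Or.inr h1.symm)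
    · exact Or.inl h1
    · exact Or.inr (Or.inl h1.symm)
  pAB := h.pBC
  pBC := by
    rw [Finset.union_comm]
    exact h.pAC
  pAC := by
    rw [Finset.union_comm]
    exact h.pAB

/-- TARGET -/
theorem tt_swap {A B C : Finset V} (h : TT G A B C) : TT G B A C where
  dAB := h.dAB.symm
  dAC := h.dBC
  dBC := h.dAC
  iA := h.iB
  iB := h.iA
  iC := h.iC
  nit := fun a ha b hb c hc => by
    rcases h.nit b hb a ha c hc with h1 | h1 | h1
    · exact Or.inl h1.symm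
    · exact Or.inr (Or.inr h1)
    · exact Or.inr (Or.inl h1)
  pAB := by
    rw [Finset.union_comm]
    exact h.pAB
  pBC := h.pAC
  pAC := h.pBC

/-- TARGET -/
theorem tt_mono {A B C : Finset V} {A' B' C' : Finset V} (h : TT G A B C) (hA : A' ⊆ A) (hB : B' ⊆ B)
    (hC : C' ⊆ C) : TT G A' B' C' where
  dAB := h.dAB.mono hA hB
  dAC := h.dAC.mono hA hC
  dBC := h.dBC.mono hB hC
  iA := fun x hx y hy => h.iA x (hA hx) y (hA hy)
  iB := fun x hx y hy => h.iB x (hB hx) y (hB hy)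
  iC := fun x hx y hy => h.iC x (hC hx) y (hC hy)
  nit := fun a ha b hb c hc => h.nit a (hA ha) b (hB hb) c (hC hc)
  pAB := fun p hp q hq a ha b hb c hc => h.pAB p (Finset.union_subset_union hA hB hp)
    q (Finset.union_subset_union hA hB hq) a (Finset.union_subset_union hA hB ha)
    b (Finset.union_subset_union hA hB hb) c (Finset.union_subset_union hA hB hc)
  pBC := fun p hp q hq a ha b hb c hc => h.pBC p (Finset.union_subset_union hB hC hp)
    q (Finset.union_subset_union hB hC hq) a (Finset.union_subset_union hB hC ha)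
    b (Finset.union_subset_union hB hC hb) c (Finset.union_subset_union hB hC hc)
  pAC := fun p hp q hq a ha b hb c hc => h.pAC p (Finset.union_subset_union hA hC hp)
    q (Finset.union_subset_union hA hC hq) a (Finset.union_subset_union hA hC ha)
    b (Finset.union_subset_union hA hC hb) c (Finset.union_subset_union hA hC hc)

/-- TARGET -/
theorem qm_pair {X Y : Finset V} (hX : Ind G X) (hY : Ind G Y) (hp : NoP2P3T G (X ∪ Y))
    {x1 x2 y1 y2 z : V} (h1 : x1 ∈ X) (h2 : x2 ∈ X) (h3 : y1 ∈ Y) (h4 : y2 ∈ Y) (h5 : z ∈ X)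
    (n1 : z ≠ x1) (n2 : z ≠ x2) (a1 : G.Adj x1 y1) (a2 : G.Adj x2 y2) (a3 : ¬G.Adj x1 y2)
    (a4 : ¬G.Adj x2 y1) : G.Adj z y1 ↔ G.Adj z y2 := by
  have m1 : x1 ∈ X ∪ Y := Finset.mem_union_left _ h1
  have m2 : x2 ∈ X ∪ Y := Finset.mem_union_left _ h2
  have m3 : y1 ∈ X ∪ Y := Finset.mem_union_right _ h3
  have m4 : y2 ∈ X ∪ Y := Finset.mem_union_right _ h4
  have m5 : z ∈ X ∪ Y := Finset.mem_union_left _ h5
  constructor
  · intro hz
    by_contra hn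
    exact hp x2 m2 y2 m4 x1 m1 y1 m3 z m5 a2 a1 hz.symm n1.symm (hX x1 h1 z h5) (hX x2 h2 x1 h1) a4
      (hX x2 h2 z h5) (fun h => a3 h.symm) (hY y2 h4 y1 h3) (fun h => hn h.symm)
  · intro hz
    by_contra hn
    exact hp x1 m1 y1 m3 x2 m2 y2 m4 z m5 a1 a2 hz.symm n2.symm (hX x2 h2 z h5) (hX x1 h1 x2 h2) a3
      (hX x1 h1 z h5) (fun h => a4 h.symm) (hY y1 h3 y2 h4) (fun h => hn h.symm)

/-- TARGET -/
theorem qm_wind {A B C : Finset V} (h : TT G A B C) (hd : NoDia G) {a1 a2 b1 b2 c c' : V}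
    (h1 : a1 ∈ A) (h2 : a2 ∈ A) (h3 : b1 ∈ B) (h4 : b2 ∈ B) (h5 : c ∈ C) (h6 : c' ∈ C) (hn : c' ≠ c)
    (e1 : G.Adj a1 b1) (e2 : G.Adj a2 b2) (e3 : ¬G.Adj a1 b2) (e4 : ¬G.Adj a2 b1) (f1 : G.Adj c a1)
    (f2 : G.Adj c a2) (f3 : G.Adj c b1) (f4 : G.Adj c b2) :
    (G.Adj c' a1 ↔ G.Adj c' a2) ∧ (G.Adj c' b1 ↔ G.Adj c' b2) := by
  have k1 : ¬ (G.Adj c' a1 ∧ G.Adj c' b1) := fun hh =>
    h.iC c h5 c' h6 (hd a1 b1 c c' e1 f1.symm f3.symm hh.1.symm hh.2.symm hn.symm)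
  have k2 : ¬ (G.Adj c' a2 ∧ G.Adj c' b2) := fun hh =>
    h.iC c h5 c' h6 (hd a2 b2 c c' e2 f2.symm f4.symm hh.1.symm hh.2.symm hn.symm)
  have k3 : G.Adj c' b2 ∨ G.Adj c' a1 := by
    rcases h.nit a1 h1 b2 h4 c' h6 with q | q | q
    · exact absurd q e3
    · exact Or.inl q.symm
    · exact Or.inr q.symm
  have k4 : G.Adj c' b1 ∨ G.Adj c' a2 := by
    rcases h.nit a2 h2 b1 h3 c' h6 with q | q | q
    · exact absurd q e4
    · exact Or.inl q.symm
    · exact Or.inr q.symm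
  tauto

/-- TARGET -/
theorem qm_p1 {A B C : Finset V} (h : TT G A B C) (hd : NoDia G) {v1 v2 w1 w2 z1 z2 : V}
    (h1 : v1 ∈ A) (h2 : v2 ∈ A) (h3 : w1 ∈ B) (h4 : w2 ∈ B) (h5 : z1 ∈ C) (h6 : z2 ∈ C)
    (e1 : G.Adj v1 w1) (e2 : G.Adj v2 w2) (e3 : ¬G.Adj v1 w2) (e4 : ¬G.Adj v2 w1)
    (f1 : G.Adj w1 z1) (f2 : G.Adj w2 z2) (f3 : ¬G.Adj w1 z2) (f4 : ¬G.Adj w2 z1)
    (g1 : G.Adj v1 z1) (g2 : G.Adj v2 z2) (g3 : G.Adj v1 z2) (g4 : G.Adj v2 z1) :
    (∀ a ∈ A, a ≠ v1 → a ≠ v2 → (G.Adj a w1 ↔ G.Adj a w2) ∧ (G.Adj a z1 ↔ G.Adj a z2)) ∧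
    (∀ c ∈ C, c ≠ z1 → c ≠ z2 → (G.Adj c w1 ↔ G.Adj c w2) ∧ (G.Adj c v1 ↔ G.Adj c v2)) ∧
    (∀ b ∈ B, b ≠ w1 → b ≠ w2 → (G.Adj b v1 ↔ G.Adj b v2) ∧ (G.Adj b z1 ↔ G.Adj b z2)) := by
  have pBA : NoP2P3T G (B ∪ A) := by
    rw [Finset.union_comm]
    exact h.pAB
  have pCB : NoP2P3T G (C ∪ B) := by
    rw [Finset.union_comm]
    exact h.pBC
  refine ⟨?_, ?_, ?_⟩
  · intro a ha n1 n2
    have p := qm_pair h.iA h.iB h.pAB h1 h2 h3 h4 ha n1 n2 e1 e2 e3 e4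
    refine ⟨p, ?_⟩
    by_cases q : G.Adj a w1
    · have q' := p.1 q
      have r1 : ¬ G.Adj a z1 := fun r =>
        h.iA a ha v1 h1 (hd w1 z1 a v1 f1 q.symm r.symm e1.symm g1.symm n1)
      have r2 : ¬ G.Adj a z2 := fun r =>
        h.iA a ha v2 h2 (hd w2 z2 a v2 f2 q'.symm r.symm e2.symm g2.symm n2)
      tauto
    · have q' : ¬ G.Adj a w2 := fun r => q (p.2 r)
      have r1 : G.Adj a z1 := by
        rcases h.nit a ha w2 h4 z1 h5 with r | r | r
        · exact absurd r q'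
        · exact absurd r f4
        · exact r
      have r2 : G.Adj a z2 := by
        rcases h.nit a ha w1 h3 z2 h6 with r | r | r
        · exact absurd r q
        · exact absurd r f3
        · exact r
      tauto
  · intro c hc n1 n2
    have p := qm_pair h.iC h.iB pCB h5 h6 h3 h4 hc n1 n2 f1.symm f2.symm (fun r => f4 r.symm)
      (fun r => f3 r.symm)
    refine ⟨p, ?_⟩
    by_cases q : G.Adj c w1
    · have q' := p.1 q
      have r1 : ¬ G.Adj c v1 := fun r =>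
        h.iC c hc z1 h5 (hd v1 w1 c z1 e1 r.symm q.symm g1 f1 n1)
      have r2 : ¬ G.Adj c v2 := fun r =>
        h.iC c hc z2 h6 (hd v2 w2 c z2 e2 r.symm q'.symm g2 f2 n2)
      tauto
    · have q' : ¬ G.Adj c w2 := fun r => q (p.2 r)
      have r1 : G.Adj c v1 := by
        rcases h.nit v1 h1 w2 h4 c hc with r | r | r
        · exact absurd r e3
        · exact absurd r.symm q'
        · exact r.symm
      have r2 : G.Adj c v2 := by
        rcases h.nit v2 h2 w1 h3 c hc with r | r | r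
        · exact absurd r e4
        · exact absurd r.symm q
        · exact r.symm
      tauto
  · intro b hb n1 n2
    exact ⟨qm_pair h.iB h.iA pBA h3 h4 h1 h2 hb n1 n2 e1.symm e2.symm (fun r => e4 r.symm)
      (fun r => e3 r.symm), qm_pair h.iB h.iC h.pBC h3 h4 h5 h6 hb n1 n2 f1 f2 f3 f4⟩

end TSym

end Pool.Agent.Helper856.Cw
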