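import Pool.Agent.Helper856.Pair.Defs
import Pool.Agent.Helper856.Cw.Basic
import Pool.Agent.Helper856.Pair.TFacts
import Pool.Agent.Helper856.Pair.TRho
import Pool.Agent.Helper856.Pair.TSym
import Pool.Agent.Helper856.Pair.StarM
import Pool.Agent.Helper856.Pair.SPieces

open Classical SimpleGraph

namespace Pool.Agent.Helper856.Cw

open TFacts (tf_a tf_b tf_cA tf_cB tf_dA tf_dB tf_eA tf_eB tf_f tf_f2 tf_g)
open TRho (tr_lt tr_eq tr_c1 tr_c2 tx_ab tx_ba tx_ac tx_ca tx_bc tx_cb)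
open TSym (tt_rot tt_swap qm_pair qm_wind qm_p1)
open StarM (star_match)
open SPieces (pieces)

namespace TE1

variable {V : Type} {G : SimpleGraph V} {S T : Finset V} {k l : ℕ}

theorem tt_e1_memA {A B C : Finset V} (h : TT G A B C) {a c : V} (ha : a ∈ A) :
    c ∈ SX G B C a ↔ c ∈ C ∧ G.Adj a c := by
  have hb : a ∉ B := Finset.disjoint_left.1 h.dAB ha
  unfold SX
  rw [Finset.mem_filter]
  simp [hb]

theorem tt_e1_memB {B C : Finset V} {b c : V} (hb : b ∈ B) :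
    c ∈ SX G B C b ↔ c ∈ C ∧ ¬G.Adj b c := by
  unfold SX
  rw [Finset.mem_filter]
  simp [hb]

theorem tt_e1_p2mono {S T : Finset V} (hST : S ⊆ T) (h : NoP2P3T G T) : NoP2P3T G S :=
  fun p hp q hq a ha b hb c hc => h p (hST hp) q (hST hq) a (hST ha) b (hST hb) c (hST hc)

theorem tt_e1_sm {X Y : Finset V} (hX : Ind G X) (hY : Ind G Y) (hp : NoP2P3T G (X ∪ Y))
    (h1 : ∀ x ∈ X, ∀ y ∈ Y, ∀ y' ∈ Y, G.Adj x y → G.Adj x y' → y = y') :
    (∃ D : Finset V, D.card ≤ 2 ∧ ∀ x ∈ X, ∀ y ∈ Y, G.Adj x y → x ∈ D ∨ y ∈ D) ∨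
    ((∀ x ∈ X, ∀ x' ∈ X, ∀ y ∈ Y, G.Adj x y → G.Adj x' y → x = x') ∧
      ∃ x1 ∈ X, ∃ x2 ∈ X, ∃ y1 ∈ Y, ∃ y2 ∈ Y, x1 ≠ x2 ∧ y1 ≠ y2 ∧ G.Adj x1 y1 ∧ G.Adj x2 y2) := by
  rcases star_match X Y G.Adj h1 (by
    intro x hx x' hx' x'' hx'' y hy y'' hy'' hne e1 e2 e3
    by_contra hn
    have n1 : ¬G.Adj x'' y := fun e => hn (h1 x'' hx'' y'' hy'' y hy e3 e)
    have n2 : ¬G.Adj x y'' := fun e => hn (h1 x hx y'' hy'' y hy e e1)
    have n3 : ¬G.Adj x' y'' := fun e => hn (h1 x' hx' y'' hy'' y hy e e2)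
    exact hp x'' (Finset.mem_union_left _ hx'') y'' (Finset.mem_union_right _ hy'')
      x (Finset.mem_union_left _ hx) y (Finset.mem_union_right _ hy) x' (Finset.mem_union_left _ hx')
      e3 e1 e2.symm hne (hX x hx x' hx') (hX x'' hx'' x hx) n1 (hX x'' hx'' x' hx')
      (fun e => n2 e.symm) (hY y'' hy'' y hy) (fun e => n3 e.symm)) with
    h | ⟨h2, x1, hx1, x2, hx2, x3, hx3, y1, hy1, y2, hy2, y3, hy3, n1, -, -, m1, -, -, e1, e2, -⟩
  · exact Or.inl h
  · exact Or.inr ⟨h2, x1, hx1, x2, hx2, y1, hy1, y2, hy2, n1, m1, e1, e2⟩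

/-- windmill without the centre -/
theorem tt_e1_v {A B C : Finset V} (h : TT G A B C) (hd : NoDia G) {MA MB : Finset V}
    (hMA : MA ⊆ A) (hMB : MB ⊆ B)
    (hx : ∀ x ∈ MA, ∃ y ∈ MB, G.Adj x y) (hy : ∀ y ∈ MB, ∃ x ∈ MA, G.Adj x y)
    (ux : ∀ x ∈ MA, ∀ y ∈ MB, ∀ y' ∈ MB, G.Adj x y → G.Adj x y' → y = y')
    (uy : ∀ x ∈ MA, ∀ x' ∈ MA, ∀ y ∈ MB, G.Adj x y → G.Adj x' y → x = x')
    {c : V} (hc : c ∈ C) (hcA : ∀ a ∈ MA, G.Adj c a) (hcB : ∀ b ∈ MB, G.Adj c b) :
    (∀ p ∈ A ∪ B ∪ C, p ∉ MA ∪ MB → p ≠ c → ∀ u ∈ MA ∪ MB, ∀ v ∈ MA ∪ MB, (u ∈ A ↔ v ∈ A) →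
      (u ∈ B ↔ v ∈ B) → (G.Adj p u ↔ G.Adj p v)) ∧ SLin 9 G (MA ∪ MB) := by
  have dAB : ∀ x, x ∈ A → x ∉ B := fun x hx => Finset.disjoint_left.1 h.dAB hx
  have hBA : NoP2P3T G (B ∪ A) := (tt_swap h).pAB
  have key : ∀ p ∈ A ∪ B ∪ C, p ∉ MA ∪ MB → p ≠ c → ∀ x1 ∈ MA, ∀ x2 ∈ MA, ∀ y1 ∈ MB, ∀ y2 ∈ MB,
      G.Adj x1 y1 → G.Adj x2 y2 → (G.Adj p x1 ↔ G.Adj p x2) ∧ (G.Adj p y1 ↔ G.Adj p y2) := by
    intro p hp hpM hpc x1 hx1 x2 hx2 y1 hy1 y2 hy2 e1 e2
    by_cases hxx : x1 = x2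
    · subst hxx
      have := ux x1 hx1 y1 hy1 y2 hy2 e1 e2
      subst this
      exact ⟨Iff.rfl, Iff.rfl⟩
    · have n1 : ¬G.Adj x1 y2 := fun e => hxx (uy x1 hx1 x2 hx2 y2 hy2 e e2)
      have n2 : ¬G.Adj x2 y1 := fun e => hxx (uy x1 hx1 x2 hx2 y1 hy1 e1 e)
      have hpA : p ∉ MA := fun e => hpM (Finset.mem_union_left _ e)
      have hpB : p ∉ MB := fun e => hpM (Finset.mem_union_right _ e)
      rcases Finset.mem_union.1 hp with hp | hp
      · rcases Finset.mem_union.1 hp with hp | hp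
        · refine ⟨iff_of_false (h.iA p hp x1 (hMA hx1)) (h.iA p hp x2 (hMA hx2)), ?_⟩
          exact qm_pair h.iA h.iB h.pAB (hMA hx1) (hMA hx2) (hMB hy1) (hMB hy2) hp
            (fun e => hpA (e ▸ hx1)) (fun e => hpA (e ▸ hx2)) e1 e2 n1 n2
        · refine ⟨?_, iff_of_false (h.iB p hp y1 (hMB hy1)) (h.iB p hp y2 (hMB hy2))⟩
          exact qm_pair h.iB h.iA hBA (hMB hy1) (hMB hy2) (hMA hx1) (hMA hx2) hp
            (fun e => hpB (e ▸ hy1)) (fun e => hpB (e ▸ hy2)) e1.symm e2.symm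
            (fun e => n2 e.symm) (fun e => n1 e.symm)
      · exact qm_wind h hd (hMA hx1) (hMA hx2) (hMB hy1) (hMB hy2) hc hp hpc e1 e2 n1 n2
          (hcA x1 hx1) (hcA x2 hx2) (hcB y1 hy1) (hcB y2 hy2)
  constructor
  · intro p hp hpM hpc u hu v hv hA hB
    rcases Finset.mem_union.1 hu with hu | hu
    · have hvA : v ∈ A := hA.1 (hMA hu)
      have hv' : v ∈ MA := by
        rcases Finset.mem_union.1 hv with hv | hv
        · exact hv
        · exact absurd (hMB hv) (dAB v hvA)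
      obtain ⟨y1, hy1, e1⟩ := hx u hu
      obtain ⟨y2, hy2, e2⟩ := hx v hv'
      exact (key p hp hpM hpc u hu v hv' y1 hy1 y2 hy2 e1 e2).1
    · have hvB : v ∈ B := hB.1 (hMB hu)
      have hv' : v ∈ MB := by
        rcases Finset.mem_union.1 hv with hv | hv
        · exact absurd hvB (dAB v (hMA hv))
        · exact hv
      obtain ⟨x1, hx1, e1⟩ := hy u hu
      obtain ⟨x2, hx2, e2⟩ := hy v hv'
      exact (key p hp hpM hpc x1 hx1 x2 hx2 u hu v hv' e1 e2).2
  · obtain ⟨Q, hQ⟩ : ∃ Q : Fin 3 → Fin 3 → Prop, ∀ i j, ¬Q i j := ⟨fun _ _ => False, fun _ _ h => h⟩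
    obtain ⟨τ, -⟩ : ∃ τ : V → Fin 3, True := ⟨fun _ => 0, trivial⟩
    refine pieces (r := 3) τ Q (fun i j h => absurd h (hQ i j)) ?_
    intro v hv
    rcases Finset.mem_union.1 hv with hv | hv
    · obtain ⟨y, hy, e⟩ := hx v hv
      refine le_trans (Finset.card_le_card (t := {y}) ?_) (by simp)
      intro w hw
      rw [Finset.mem_filter] at hw
      obtain ⟨hw1, -, hw2⟩ := hw
      have hw3 : G.Adj v w := by
        by_contra hn
        exact hw2 (iff_of_false hn (hQ _ _))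
      rw [Finset.mem_singleton]
      rcases Finset.mem_union.1 hw1 with hw1 | hw1
      · exact absurd hw3 (h.iA v (hMA hv) w (hMA hw1))
      · exact ux v hv w hw1 y hy hw3 e
    · obtain ⟨x, hx, e⟩ := hy v hv
      refine le_trans (Finset.card_le_card (t := {x}) ?_) (by simp)
      intro w hw
      rw [Finset.mem_filter] at hw
      obtain ⟨hw1, -, hw2⟩ := hw
      have hw3 : G.Adj v w := by
        by_contra hn
        exact hw2 (iff_of_false hn (hQ _ _))
      rw [Finset.mem_singleton]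
      rcases Finset.mem_union.1 hw1 with hw1 | hw1
      · exact uy w hw1 x hx v hv hw3.symm e
      · exact absurd hw3 (h.iB v (hMB hv) w (hMB hw1))

/-- three sheets -/
theorem tt_e1_w {X Y C : Finset V} (h : TT G X Y C) (hd : NoDia G) {MX MY : Finset V}
    (hMX : MX ⊆ X) (hMY : MY ⊆ Y)
    (hx : ∀ x ∈ MX, ∃ y ∈ MY, G.Adj x y) (hy : ∀ y ∈ MY, ∃ x ∈ MX, G.Adj x y)
    (ux : ∀ x ∈ MX, ∀ y ∈ MY, ∀ y' ∈ MY, G.Adj x y → G.Adj x y' → y = y')
    (uy : ∀ x ∈ MX, ∀ x' ∈ MX, ∀ y ∈ MY, G.Adj x y → G.Adj x' y → x = x')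
    (c : V → V) (hc : ∀ y ∈ MY, c y ∈ C) (hc1 : ∀ y ∈ MY, G.Adj y (c y))
    (hc2 : ∀ y ∈ MY, ∀ y' ∈ MY, y ≠ y' → ¬G.Adj y (c y'))
    (hc3 : ∀ x ∈ MX, ∀ y ∈ MY, G.Adj x (c y)) :
    (∀ p ∈ X ∪ Y ∪ C, p ∉ MX ∪ MY ∪ MY.image c → ∀ u ∈ MX ∪ MY ∪ MY.image c,
      ∀ v ∈ MX ∪ MY ∪ MY.image c, (u ∈ X ↔ v ∈ X) → (u ∈ Y ↔ v ∈ Y) → (G.Adj p u ↔ G.Adj p v)) ∧
    SLin 9 G (MX ∪ MY ∪ MY.image c) := by
  have dXY : ∀ x, x ∈ X → x ∉ Y := fun x hx => Finset.disjoint_left.1 h.dAB hx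
  have dXC : ∀ x, x ∈ X → x ∉ C := fun x hx => Finset.disjoint_left.1 h.dAC hx
  have dYC : ∀ x, x ∈ Y → x ∉ C := fun x hx => Finset.disjoint_left.1 h.dBC hx
  have hmem : ∀ v ∈ MX ∪ MY ∪ MY.image c, v ∈ MX ∨ v ∈ MY ∨ ∃ y ∈ MY, c y = v := by
    intro v hv
    rcases Finset.mem_union.1 hv with hv | hv
    · rcases Finset.mem_union.1 hv with hv | hv
      · exact Or.inl hv
      · exact Or.inr (Or.inl hv)
    · exact Or.inr (Or.inr (Finset.mem_image.1 hv))
  have key : ∀ p ∈ X ∪ Y ∪ C, p ∉ MX ∪ MY ∪ MY.image c → ∀ x1 ∈ MX, ∀ x2 ∈ MX, ∀ y1 ∈ MY,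
      ∀ y2 ∈ MY, G.Adj x1 y1 → G.Adj x2 y2 → (G.Adj p x1 ↔ G.Adj p x2) ∧
      (G.Adj p y1 ↔ G.Adj p y2) ∧ (G.Adj p (c y1) ↔ G.Adj p (c y2)) := by
    intro p hp hpM x1 hx1 x2 hx2 y1 hy1 y2 hy2 e1 e2
    by_cases hyy : y1 = y2
    · subst hyy
      have := uy x1 hx1 x2 hx2 y1 hy1 e1 e2
      subst this
      exact ⟨Iff.rfl, Iff.rfl, Iff.rfl⟩
    · have n1 : ¬G.Adj x1 y2 := fun e => hyy (ux x1 hx1 y1 hy1 y2 hy2 e1 e)
      have n2 : ¬G.Adj x2 y1 := fun e => hyy (ux x2 hx2 y1 hy1 y2 hy2 e e2)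
      have hpX : p ∉ MX := fun e => hpM (Finset.mem_union_left _ (Finset.mem_union_left _ e))
      have hpY : p ∉ MY := fun e => hpM (Finset.mem_union_left _ (Finset.mem_union_right _ e))
      have hpC : ∀ y ∈ MY, p ≠ c y := fun y hy e =>
        hpM (Finset.mem_union_right _ (Finset.mem_image.2 ⟨y, hy, e.symm⟩))
      obtain ⟨r1, r2, r3⟩ := qm_p1 h hd (hMX hx1) (hMX hx2) (hMY hy1) (hMY hy2) (hc y1 hy1)
        (hc y2 hy2) e1 e2 n1 n2 (hc1 y1 hy1) (hc1 y2 hy2) (hc2 y1 hy1 y2 hy2 hyy)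
        (hc2 y2 hy2 y1 hy1 (Ne.symm hyy)) (hc3 x1 hx1 y1 hy1) (hc3 x2 hx2 y2 hy2)
        (hc3 x1 hx1 y2 hy2) (hc3 x2 hx2 y1 hy1)
      rcases Finset.mem_union.1 hp with hp | hp
      · rcases Finset.mem_union.1 hp with hp | hp
        · obtain ⟨s1, s2⟩ := r1 p hp (fun e => hpX (e ▸ hx1)) (fun e => hpX (e ▸ hx2))
          exact ⟨iff_of_false (h.iA p hp x1 (hMX hx1)) (h.iA p hp x2 (hMX hx2)), s1, s2⟩
        · obtain ⟨s1, s2⟩ := r3 p hp (fun e => hpY (e ▸ hy1)) (fun e => hpY (e ▸ hy2))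
          exact ⟨s1, iff_of_false (h.iB p hp y1 (hMY hy1)) (h.iB p hp y2 (hMY hy2)), s2⟩
      · obtain ⟨s1, s2⟩ := r2 p hp (hpC y1 hy1) (hpC y2 hy2)
        exact ⟨s2, s1, iff_of_false (h.iC p hp _ (hc y1 hy1)) (h.iC p hp _ (hc y2 hy2))⟩
  constructor
  · intro p hp hpM u hu v hv hX hY
    rcases hmem u hu with hu | hu | ⟨y1, hy1, rfl⟩
    · have hvX : v ∈ X := hX.1 (hMX hu)
      have hv' : v ∈ MX := by
        rcases hmem v hv with hv | hv | ⟨y, hy, rfl⟩
        · exact hv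
        · exact absurd (hMY hv) (dXY v hvX)
        · exact absurd (hc y hy) (dXC _ hvX)
      obtain ⟨y1, hy1, e1⟩ := hx u hu
      obtain ⟨y2, hy2, e2⟩ := hx v hv'
      exact (key p hp hpM u hu v hv' y1 hy1 y2 hy2 e1 e2).1
    · have hvY : v ∈ Y := hY.1 (hMY hu)
      have hv' : v ∈ MY := by
        rcases hmem v hv with hv | hv | ⟨y, hy, rfl⟩
        · exact absurd hvY (dXY v (hMX hv))
        · exact hv
        · exact absurd (hc y hy) (dYC _ hvY)
      obtain ⟨x1, hx1, e1⟩ := hy u hu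
      obtain ⟨x2, hx2, e2⟩ := hy v hv'
      exact (key p hp hpM x1 hx1 x2 hx2 u hu v hv' e1 e2).2.1
    · have hvX : v ∉ X := fun e => dXC _ (hX.2 e) (hc y1 hy1)
      have hvY : v ∉ Y := fun e => dYC _ (hY.2 e) (hc y1 hy1)
      obtain ⟨y2, hy2, hv'⟩ : ∃ y ∈ MY, c y = v := by
        rcases hmem v hv with hv | hv | hv
        · exact absurd (hMX hv) hvX
        · exact absurd (hMY hv) hvY
        · exact hv
      subst hv'
      obtain ⟨x1, hx1, e1⟩ := hy y1 hy1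
      obtain ⟨x2, hx2, e2⟩ := hy y2 hy2
      exact (key p hp hpM x1 hx1 x2 hx2 y1 hy1 y2 hy2 e1 e2).2.2
  · obtain ⟨τ, hτ⟩ : ∃ τ : V → Fin 3, τ = fun v => if v ∈ X then (0 : Fin 3) else if v ∈ Y then 1 else 2 :=
      ⟨_, rfl⟩
    have t0 : ∀ v, v ∈ X → τ v = 0 := by
      intro v hv
      rw [hτ]
      exact if_pos hv
    have t1 : ∀ v, v ∈ Y → τ v = 1 := by
      intro v hv
      rw [hτ]
      show (if v ∈ X then (0 : Fin 3) else if v ∈ Y then 1 else 2) = 1
      rw [if_neg (fun e => dXY v e hv), if_pos hv]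
    have t2 : ∀ v, v ∈ C → τ v = 2 := by
      intro v hv
      rw [hτ]
      show (if v ∈ X then (0 : Fin 3) else if v ∈ Y then 1 else 2) = 2
      rw [if_neg (fun e => dXC v e hv), if_neg (fun e => dYC v e hv)]
    obtain ⟨Q, hQ⟩ : ∃ Q : Fin 3 → Fin 3 → Prop, ∀ i j, Q i j ↔ (i = 0 ∧ j = 2) ∨ (i = 2 ∧ j = 0) :=
      ⟨fun i j => (i = 0 ∧ j = 2) ∨ (i = 2 ∧ j = 0), fun _ _ => Iff.rfl⟩
    refine pieces (r := 3) τ Q (fun i j hij => ?_) ?_
    · rw [hQ] at hij ⊢
      rcases hij with ⟨h1, h2⟩ | ⟨h1, h2⟩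
      · exact Or.inr ⟨h2, h1⟩
      · exact Or.inl ⟨h2, h1⟩
    intro v hv
    rcases hmem v hv with hv | hv | ⟨y, hy', rfl⟩
    · obtain ⟨y, hy, e⟩ := hx v hv
      refine le_trans (Finset.card_le_card (t := {y}) ?_) (by simp)
      intro w hw
      rw [Finset.mem_filter] at hw
      obtain ⟨hw1, -, hw2⟩ := hw
      rw [Finset.mem_singleton]
      rw [hQ, t0 v (hMX hv)] at hw2
      rcases hmem w hw1 with hw1 | hw1 | ⟨y', hy'', rfl⟩
      · exfalso
        rw [t0 w (hMX hw1)] at hw2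
        exact hw2 (iff_of_false (h.iA v (hMX hv) w (hMX hw1)) (by simp))
      · rw [t1 w (hMY hw1)] at hw2
        have hw3 : G.Adj v w := by
          by_contra hn
          exact hw2 (iff_of_false hn (by simp))
        exact ux v hv w hw1 y hy hw3 e
      · exfalso
        rw [t2 _ (hc y' hy'')] at hw2
        exact hw2 (iff_of_true (hc3 v hv y' hy'') (by simp))
    · obtain ⟨x, hx', e⟩ := hy v hv
      refine le_trans (Finset.card_le_card (t := {x, c v}) ?_) Finset.card_le_two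
      intro w hw
      rw [Finset.mem_filter] at hw
      obtain ⟨hw1, -, hw2⟩ := hw
      rw [Finset.mem_insert, Finset.mem_singleton]
      rw [hQ, t1 v (hMY hv)] at hw2
      have hw3 : G.Adj v w := by
        by_contra hn
        exact hw2 (iff_of_false hn (by simp))
      rcases hmem w hw1 with hw1 | hw1 | ⟨y', hy'', rfl⟩
      · exact Or.inl (uy w hw1 x hx' v hv hw3.symm e)
      · exact absurd hw3 (h.iB v (hMY hv) w (hMY hw1))
      · right
        by_cases hvy : v = y'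
        · rw [hvy]
        · exact absurd hw3 (hc2 v hv y' hy'' hvy)
    · refine le_trans (Finset.card_le_card (t := {y}) ?_) (by simp)
      intro w hw
      rw [Finset.mem_filter] at hw
      obtain ⟨hw1, -, hw2⟩ := hw
      rw [Finset.mem_singleton]
      rw [hQ, t2 _ (hc y hy')] at hw2
      rcases hmem w hw1 with hw1 | hw1 | ⟨y', hy'', rfl⟩
      · exfalso
        rw [t0 w (hMX hw1)] at hw2
        exact hw2 (iff_of_true (hc3 w hw1 y hy').symm (by simp))
      · rw [t1 w (hMY hw1)] at hw2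
        have hw3 : G.Adj (c y) w := by
          by_contra hn
          exact hw2 (iff_of_false hn (by simp))
        by_contra hwy
        exact hc2 w hw1 y hy' hwy hw3.symm
      · exfalso
        rw [t2 _ (hc y' hy'')] at hw2
        exact hw2 (iff_of_false (h.iC _ (hc y hy') _ (hc y' hy'')) (by simp))

theorem tt_e1_out {A B C : Finset V} (h : TT G A B C) {n : ℕ} {D M : Finset V}
    (h1 : ∀ u w, Ex1 G A B C n u w → u ∈ M ∧ w ∈ M) (h2 : M ⊆ A ∪ B ∪ C)
    (h3 : ∀ u ∈ M, (rho G A B C u = n ∧ Lo G A B C n u) ∨ (rho G A B C u = n + 1 ∧ Up G A B C n u))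
    (h4 : ∀ p ∈ A ∪ B ∪ C, p ∉ M → p ∉ D → ∀ u ∈ M, ∀ v ∈ M, (u ∈ A ↔ v ∈ A) → (u ∈ B ↔ v ∈ B) →
      (G.Adj p u ↔ G.Adj p v))
    (h5 : SLin 9 G M) : Out G A B C n (Ex1 G A B C n) D M := by
  have dAB : ∀ x, x ∈ A → x ∉ B := fun x hx => Finset.disjoint_left.1 h.dAB hx
  refine ⟨fun u w e => Or.inr (Or.inr (h1 u w e)), h2, h3, ?_, h5⟩
  intro p hp hpM hpD u hu v hv _ hcol
  have hA : u ∈ A ↔ v ∈ A := by
    unfold col3 at hcol
    by_cases hu : u ∈ A <;> by_cases hv : v ∈ A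
    · exact iff_of_true hu hv
    · exfalso
      rw [if_pos hu, if_neg hv] at hcol
      split_ifs at hcol <;> exact absurd hcol (by decide)
    · exfalso
      rw [if_neg hu, if_pos hv] at hcol
      split_ifs at hcol <;> exact absurd hcol (by decide)
    · exact iff_of_false hu hv
  have hB : u ∈ B ↔ v ∈ B := by
    by_cases hu : u ∈ A
    · exact iff_of_false (dAB u hu) (dAB v (hA.1 hu))
    · have hv : v ∉ A := fun e => hu (hA.2 e)
      unfold col3 at hcol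
      rw [if_neg hu, if_neg hv] at hcol
      by_cases hu' : u ∈ B <;> by_cases hv' : v ∈ B
      · exact iff_of_true hu' hv'
      · exfalso
        rw [if_pos hu', if_neg hv'] at hcol
        exact absurd hcol (by decide)
      · exfalso
        rw [if_neg hu', if_pos hv'] at hcol
        exact absurd hcol (by decide)
      · exact iff_of_false hu' hv'
  exact h4 p hp hpM hpD u hu v hv hA hB

/-- TARGET -/
theorem tt_e1 {A B C : Finset V} (h : TT G A B C) (hd : NoDia G) (n : ℕ) :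
    (∃ D : Finset V, D.card ≤ 2 ∧ ∀ u w, Ex1 G A B C n u w → u ∈ D ∨ w ∈ D) ∨
      ∃ D M : Finset V, D.card ≤ 1 ∧ Out G A B C n (Ex1 G A B C n) D M := by
  by_cases hex : ∃ b a, Ex1 G A B C n b a
  swap
  · left
    exact ⟨∅, by simp, fun u w e => absurd ⟨u, w, e⟩ hex⟩
  obtain ⟨b0, a0, hb0B, ha0A, hb0r, ha0r, hab0⟩ := hex
  have dAB : ∀ x, x ∈ A → x ∉ B := fun x hx => Finset.disjoint_left.1 h.dAB hx
  obtain ⟨R, hR⟩ : ∃ R, R = B.filter (fun b => rho G A B C b = n) := ⟨_, rfl⟩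
  obtain ⟨L, hL⟩ : ∃ L, L = A.filter (fun a => rho G A B C a = n + 1) := ⟨_, rfl⟩
  have mR : ∀ {b}, b ∈ R ↔ b ∈ B ∧ rho G A B C b = n := by
    intro b
    rw [hR, Finset.mem_filter]
  have mL : ∀ {a}, a ∈ L ↔ a ∈ A ∧ rho G A B C a = n + 1 := by
    intro a
    rw [hL, Finset.mem_filter]
  have mE : ∀ {u w}, Ex1 G A B C n u w ↔ u ∈ R ∧ w ∈ L ∧ G.Adj u w := by
    intro u w
    rw [mR, mL]
    unfold Ex1
    tauto
  clear hR hL
  have hb0 : b0 ∈ R := mR.2 ⟨hb0B, hb0r⟩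
  have ha0 : a0 ∈ L := mL.2 ⟨ha0A, ha0r⟩
  have hRB : R ⊆ B := fun b hb => (mR.1 hb).1
  have hLA : L ⊆ A := fun a ha => (mL.1 ha).1
  have uA : ∀ {x}, x ∈ A → x ∈ A ∪ B := fun hx => Finset.mem_union_left _ hx
  have uB : ∀ {x}, x ∈ B → x ∈ A ∪ B := fun hx => Finset.mem_union_right _ hx
  have hs0 : sx G B C a0 = sx G B C b0 + 1 := (tx_ba h hd ha0A hb0B (by omega) hab0.symm).1
  have hsR : ∀ b ∈ R, sx G B C b = sx G B C b0 := fun b hb =>
    (tr_eq h (uB (hRB hb)) (uB hb0B)).1 ((mR.1 hb).2.trans hb0r.symm)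
  have hsL : ∀ a ∈ L, sx G B C a = sx G B C b0 + 1 := fun a ha =>
    ((tr_eq h (uA (hLA ha)) (uA ha0A)).1 ((mL.1 ha).2.trans ha0r.symm)).trans hs0
  have hsub : ∀ b ∈ R, ∀ a ∈ L, SX G B C b ⊆ SX G B C a := fun b hb a ha =>
    tf_g h hd (hLA ha) (hRB hb) (by rw [hsR b hb, hsL a ha]; omega)
  obtain ⟨MA, hMA⟩ : ∃ MA, MA = L.filter (fun a => ∃ b ∈ R, G.Adj b a) := ⟨_, rfl⟩
  obtain ⟨MB, hMB⟩ : ∃ MB, MB = R.filter (fun b => ∃ a ∈ L, G.Adj b a) := ⟨_, rfl⟩
  have mMA : ∀ {a}, a ∈ MA ↔ a ∈ L ∧ ∃ b ∈ R, G.Adj b a := by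
    intro a
    rw [hMA, Finset.mem_filter]
  have mMB : ∀ {b}, b ∈ MB ↔ b ∈ R ∧ ∃ a ∈ L, G.Adj b a := by
    intro a
    rw [hMB, Finset.mem_filter]
  clear hMA hMB
  have hMAL : MA ⊆ L := fun a ha => (mMA.1 ha).1
  have hMBR : MB ⊆ R := fun b hb => (mMB.1 hb).1
  have pA : ∀ x ∈ MA, ∃ y ∈ MB, G.Adj x y := by
    intro x hx
    obtain ⟨hxL, b, hb, e⟩ := mMA.1 hx
    exact ⟨b, mMB.2 ⟨hb, x, hxL, e⟩, e.symm⟩
  have pB : ∀ y ∈ MB, ∃ x ∈ MA, G.Adj x y := by
    intro y hy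
    obtain ⟨hyR, a, ha, e⟩ := mMB.1 hy
    exact ⟨a, mMA.2 ⟨ha, y, hyR, e⟩, e.symm⟩
  have hloB : ∀ u ∈ MB, (rho G A B C u = n ∧ Lo G A B C n u) ∨
      (rho G A B C u = n + 1 ∧ Up G A B C n u) := by
    intro u hu
    obtain ⟨huR, a, ha, e⟩ := mMB.1 hu
    exact Or.inl ⟨(mR.1 huR).2, Or.inr (Or.inr (Or.inl ⟨hRB huR, a, hLA ha, (mL.1 ha).2, e⟩))⟩
  have hupA : ∀ u ∈ MA, (rho G A B C u = n ∧ Lo G A B C n u) ∨
      (rho G A B C u = n + 1 ∧ Up G A B C n u) := by
    intro u hu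
    obtain ⟨huL, b, hb, e⟩ := mMA.1 hu
    exact Or.inr ⟨(mL.1 huL).2, Or.inr (Or.inl ⟨hLA huL, b, hRB hb, (mR.1 hb).2, e⟩)⟩
  have pLR : NoP2P3T G (L ∪ R) := tt_e1_p2mono (Finset.union_subset_union hLA hRB) h.pAB
  have pRL : NoP2P3T G (R ∪ L) := tt_e1_p2mono (Finset.union_subset_union hRB hLA) (tt_swap h).pAB
  have iL : Ind G L := fun x hx y hy => h.iA x (hLA hx) y (hLA hy)
  have iR : Ind G R := fun x hx y hy => h.iB x (hRB hx) y (hRB hy)
  by_cases hI : ∀ b ∈ R, SX G B C b = SX G B C b0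
  · -- Case I
    have hc0 : ∀ a, ∃ c, a ∈ L → SX G B C a \ SX G B C b0 = {c} := by
      intro a
      by_cases ha : a ∈ L
      · have h1 := hsub b0 hb0 a ha
        have h2 : (SX G B C a \ SX G B C b0).card = 1 := by
          rw [Finset.card_sdiff_of_subset h1]
          have := hsL a ha
          unfold sx at this
          omega
        obtain ⟨c, hc⟩ := Finset.card_eq_one.1 h2
        exact ⟨c, fun _ => hc⟩
      · exact ⟨a, fun e => absurd e ha⟩
    choose c hc using hc0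
    have c1 : ∀ a ∈ L, c a ∈ SX G B C a ∧ c a ∉ SX G B C b0 := by
      intro a ha
      have : c a ∈ SX G B C a \ SX G B C b0 := by
        rw [hc a ha]
        exact Finset.mem_singleton_self _
      exact Finset.mem_sdiff.1 this
    have c2 : ∀ a ∈ L, c a ∈ C ∧ G.Adj a (c a) := fun a ha =>
      (tt_e1_memA h (hLA ha)).1 (c1 a ha).1
    have c3 : ∀ b ∈ R, ∀ a ∈ L, G.Adj b (c a) := by
      intro b hb a ha
      by_contra hn
      have := (tt_e1_memB (hRB hb)).2 ⟨(c2 a ha).1, hn⟩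
      rw [hI b hb] at this
      exact (c1 a ha).2 this
    have h1 : ∀ x ∈ L, ∀ y ∈ R, ∀ y' ∈ R, G.Adj x y → G.Adj x y' → y = y' := by
      intro a ha b hb b' hb' e e'
      by_contra hn
      exact iR b hb b' hb' (hd a (c a) b b' (c2 a ha).2 e (c3 b hb a ha).symm e'
        (c3 b' hb' a ha).symm hn)
    rcases tt_e1_sm iL iR pLR h1 with ⟨D, hD, hD2⟩ | ⟨h2, x1, hx1, x2, hx2, y1, hy1, y2, hy2, n1, m1, e1, e2⟩
    · left
      refine ⟨D, hD, fun u w e => ?_⟩
      obtain ⟨hu, hw, e⟩ := mE.1 e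
      exact (hD2 w hw u hu e.symm).symm
    · right
      by_cases heq : ∃ a ∈ L, ∃ a' ∈ L, a ≠ a' ∧ SX G B C a = SX G B C a'
      · -- I.1
        obtain ⟨a, ha, a', ha', hne, he⟩ := heq
        have hall : ∀ x ∈ L, c x = c a := by
          intro x hx
          have h3 := tf_eA h (hLA ha) (hLA ha') (hLA hx) hne he ((hsL x hx).trans (hsL a ha).symm)
          have h4 := hc x hx
          rw [h3, hc a ha] at h4
          exact (Finset.singleton_injective h4).symm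
        obtain ⟨r1, r2⟩ := tt_e1_v h hd (MA := MA) (MB := MB) (hMAL.trans hLA) (hMBR.trans hRB) pA pB
          (fun x hx y hy y' hy' => h1 x (hMAL hx) y (hMBR hy) y' (hMBR hy'))
          (fun x hx x' hx' y hy => h2 x (hMAL hx) x' (hMAL hx') y (hMBR hy))
          (c := c a) (c2 a ha).1
          (fun x hx => by
            rw [← hall x (hMAL hx)]
            exact (c2 x (hMAL hx)).2.symm)
          (fun b hb => (c3 b (hMBR hb) a ha).symm)
        refine ⟨{c a}, MA ∪ MB, by simp, tt_e1_out h ?_ ?_ ?_ ?_ r2⟩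
        · intro u w e
          obtain ⟨hu, hw, e⟩ := mE.1 e
          exact ⟨Finset.mem_union_right _ (mMB.2 ⟨hu, w, hw, e⟩),
            Finset.mem_union_left _ (mMA.2 ⟨hw, u, hu, e⟩)⟩
        · intro x hx
          rcases Finset.mem_union.1 hx with hx | hx
          · exact Finset.mem_union_left _ (uA (hLA (hMAL hx)))
          · exact Finset.mem_union_left _ (uB (hRB (hMBR hx)))
        · intro u hu
          rcases Finset.mem_union.1 hu with hu | hu
          · exact hupA u hu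
          · exact hloB u hu
        · intro p hp hpM hpD
          exact r1 p hp hpM (fun e => hpD (Finset.mem_singleton.2 e))
      · -- I.2
        have hne : ∀ a ∈ L, ∀ a' ∈ L, a ≠ a' → ¬G.Adj a (c a') := by
          intro a ha a' ha' hn e
          apply heq
          refine ⟨a, ha, a', ha', hn, ?_⟩
          have h3 : c a' ∈ SX G B C a \ SX G B C b0 :=
            Finset.mem_sdiff.2 ⟨(tt_e1_memA h (hLA ha)).2 ⟨(c2 a' ha').1, e⟩, (c1 a' ha').2⟩
          rw [hc a ha, Finset.mem_singleton] at h3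
          rw [← Finset.sdiff_union_of_subset (hsub b0 hb0 a ha),
            ← Finset.sdiff_union_of_subset (hsub b0 hb0 a' ha'), hc a ha, hc a' ha', h3]
        obtain ⟨r1, r2⟩ := tt_e1_w (tt_swap h) hd (MX := MB) (MY := MA) (hMBR.trans hRB)
          (hMAL.trans hLA)
          (fun x hx => by
            obtain ⟨y, hy, e⟩ := pB x hx
            exact ⟨y, hy, e.symm⟩)
          (fun y hy => by
            obtain ⟨x, hx, e⟩ := pA y hy
            exact ⟨x, hx, e.symm⟩)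
          (fun b hb a ha a' ha' e e' => h2 a (hMAL ha) a' (hMAL ha') b (hMBR hb) e.symm e'.symm)
          (fun b hb b' hb' a ha e e' => h1 a (hMAL ha) b (hMBR hb) b' (hMBR hb') e.symm e'.symm)
          c (fun a ha => (c2 a (hMAL ha)).1) (fun a ha => (c2 a (hMAL ha)).2)
          (fun a ha a' ha' hn => hne a (hMAL ha) a' (hMAL ha') hn)
          (fun b hb a ha => c3 b (hMBR hb) a (hMAL ha))
        have hrho : ∀ a ∈ MA, rho G A B C (c a) = n + 1 := by
          intro a ha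
          have haL := hMAL ha
          obtain ⟨b, hb, -⟩ := pA a ha
          have hbR := hMBR hb
          have h3 := tr_c1 h (c2 a haL).1 (uA (hLA haL)) (c1 a haL).1
          rw [(mL.1 haL).2] at h3
          by_contra hn
          have h4 : rho G A B C (c a) ≤ rho G A B C b := by
            rw [(mR.1 hbR).2]
            omega
          obtain ⟨v, hv, hcv, hvr⟩ := tr_c2 h (c2 a haL).1 (uB (hRB hbR)) h4
          rw [← hvr, (mR.1 hbR).2] at h4
          rcases Finset.mem_union.1 hv with hvA | hvB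
          · obtain ⟨a', ha', hne'⟩ : ∃ a' ∈ L, a' ≠ a := by
              by_cases hax : x1 = a
              · exact ⟨x2, hx2, fun e => n1 (hax.trans e.symm)⟩
              · exact ⟨x1, hx1, hax⟩
            have h5 : sx G B C v < sx G B C a' :=
              (tr_lt h hv (uA (hLA ha'))).1 (by rw [(mL.1 ha').2]; omega)
            have h6 := tf_cA h hvA (hLA ha') h5 hcv
            exact hne a' ha' a haL hne' ((tt_e1_memA h (hLA ha')).1 h6).2
          · rcases Nat.lt_or_ge (rho G A B C v) n with h5 | h5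
            · have h6 : sx G B C v < sx G B C b :=
                (tr_lt h hv (uB (hRB hbR))).1 (by rw [(mR.1 hbR).2]; exact h5)
              have h7 := tf_cB h hvB (hRB hbR) h6 hcv
              rw [hI b hbR] at h7
              exact (c1 a haL).2 h7
            · have hvR : v ∈ R := mR.2 ⟨hvB, by omega⟩
              rw [hI v hvR] at hcv
              exact (c1 a haL).2 hcv
        refine ⟨∅, MB ∪ MA ∪ MA.image c, by simp, tt_e1_out h ?_ ?_ ?_ ?_ r2⟩
        · intro u w e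
          obtain ⟨hu, hw, e⟩ := mE.1 e
          exact ⟨Finset.mem_union_left _ (Finset.mem_union_left _ (mMB.2 ⟨hu, w, hw, e⟩)),
            Finset.mem_union_left _ (Finset.mem_union_right _ (mMA.2 ⟨hw, u, hu, e⟩))⟩
        · intro x hx
          rcases Finset.mem_union.1 hx with hx | hx
          · rcases Finset.mem_union.1 hx with hx | hx
            · exact Finset.mem_union_left _ (uB (hRB (hMBR hx)))
            · exact Finset.mem_union_left _ (uA (hLA (hMAL hx)))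
          · obtain ⟨a, ha, rfl⟩ := Finset.mem_image.1 hx
            exact Finset.mem_union_right _ (c2 a (hMAL ha)).1
        · intro u hu
          rcases Finset.mem_union.1 hu with hu | hu
          · rcases Finset.mem_union.1 hu with hu | hu
            · exact hloB u hu
            · exact hupA u hu
          · obtain ⟨a, ha, rfl⟩ := Finset.mem_image.1 hu
            obtain ⟨b, hb, e⟩ := pA a ha
            refine Or.inr ⟨hrho a ha, Or.inr (Or.inr ⟨(c2 a (hMAL ha)).1, a, hLA (hMAL ha), b,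
              hRB (hMBR hb), (mL.1 (hMAL ha)).2, (mR.1 (hMBR hb)).2, e, (c2 a (hMAL ha)).2,
              c3 b (hMBR hb) a (hMAL ha)⟩)⟩
        · intro p hp hpM _ u hu v hv hA hB
          refine r1 p ?_ hpM u hu v hv hB hA
          rw [Finset.union_comm B A]
          exact hp
  · -- Case II
    push Not at hI
    obtain ⟨b1, hb1, hne1⟩ := hI
    have hU : ∀ a ∈ L, SX G B C a = SX G B C b0 ∪ SX G B C b1 := by
      intro a ha
      symm
      apply Finset.eq_of_subset_of_card_le (Finset.union_subset (hsub b0 hb0 a ha) (hsub b1 hb1 a ha))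
      have h3 : SX G B C b0 ⊂ SX G B C b0 ∪ SX G B C b1 := by
        refine Finset.ssubset_iff_subset_ne.2 ⟨Finset.subset_union_left, fun e => hne1 ?_⟩
        have h4 : SX G B C b1 ⊆ SX G B C b0 := by
          rw [e]
          exact Finset.subset_union_right
        apply Finset.eq_of_subset_of_card_le h4
        have := hsR b1 hb1
        unfold sx at this
        omega
      have h5 := Finset.card_lt_card h3
      have h6 := hsL a ha
      unfold sx at h6
      omega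
    obtain ⟨U, hUd⟩ : ∃ U, U = SX G B C a0 := ⟨_, rfl⟩
    have hU' : ∀ a ∈ L, SX G B C a = U := fun a ha => by rw [hUd, hU a ha, hU a0 ha0]
    have hUc : U.card = sx G B C b0 + 1 := by rw [hUd]; exact hs0
    have hUs : ∀ b ∈ R, SX G B C b ⊆ U := fun b hb => by rw [hUd]; exact hsub b hb a0 ha0
    have hc0 : ∀ b, ∃ c, b ∈ R → U \ SX G B C b = {c} := by
      intro b
      by_cases hb : b ∈ R
      · have h2 : (U \ SX G B C b).card = 1 := by
          rw [Finset.card_sdiff_of_subset (hUs b hb)]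
          have := hsR b hb
          unfold sx at this hUc
          omega
        obtain ⟨c, hc⟩ := Finset.card_eq_one.1 h2
        exact ⟨c, fun _ => hc⟩
      · exact ⟨b, fun e => absurd e hb⟩
    choose c hc using hc0
    have c1 : ∀ b ∈ R, c b ∈ U ∧ c b ∉ SX G B C b := by
      intro b hb
      have : c b ∈ U \ SX G B C b := by
        rw [hc b hb]
        exact Finset.mem_singleton_self _
      exact Finset.mem_sdiff.1 this
    have c3 : ∀ a ∈ L, ∀ b ∈ R, c b ∈ C ∧ G.Adj a (c b) := by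
      intro a ha b hb
      have h3 := (c1 b hb).1
      rw [← hU' a ha] at h3
      exact (tt_e1_memA h (hLA ha)).1 h3
    have c2 : ∀ b ∈ R, c b ∈ C ∧ G.Adj b (c b) := by
      intro b hb
      refine ⟨(c3 a0 ha0 b hb).1, ?_⟩
      by_contra hn
      exact (c1 b hb).2 ((tt_e1_memB (hRB hb)).2 ⟨(c3 a0 ha0 b hb).1, hn⟩)
    have h1 : ∀ x ∈ R, ∀ y ∈ L, ∀ y' ∈ L, G.Adj x y → G.Adj x y' → y = y' := by
      intro b hb a ha a' ha' e e'
      by_contra hn
      exact iL a ha a' ha' (hd b (c b) a a' (c2 b hb).2 e (c3 a ha b hb).2.symm e'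
        (c3 a' ha' b hb).2.symm hn)
    rcases tt_e1_sm iR iL pRL h1 with ⟨D, hD, hD2⟩ | ⟨h2, x1, hx1, x2, hx2, y1, hy1, y2, hy2, n1, m1, e1, e2⟩
    · left
      refine ⟨D, hD, fun u w e => ?_⟩
      obtain ⟨hu, hw, e⟩ := mE.1 e
      exact hD2 u hu w hw e
    · right
      have hdiff : ∀ b ∈ R, ∀ b' ∈ R, b ≠ b' → SX G B C b ≠ SX G B C b' := by
        intro b hb b' hb' hn he
        have h3 := tf_eB h (hRB hb) (hRB hb') hb0B hn he (hsR b hb).symm
        have h4 := tf_eB h (hRB hb) (hRB hb') (hRB hb1) hn he ((hsR b1 hb1).trans (hsR b hb).symm)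
        exact hne1 (h4.trans h3.symm)
      have hne : ∀ b ∈ R, ∀ b' ∈ R, b ≠ b' → ¬G.Adj b (c b') := by
        intro b hb b' hb' hn e
        apply hdiff b hb b' hb' hn
        have h3 : c b' ∈ U \ SX G B C b :=
          Finset.mem_sdiff.2 ⟨(c1 b' hb').1, fun e' => ((tt_e1_memB (hRB hb)).1 e').2 e⟩
        rw [hc b hb, Finset.mem_singleton] at h3
        have h4 : U \ (U \ SX G B C b) = U \ (U \ SX G B C b') := by
          rw [hc b hb, hc b' hb', h3]
        rwa [Finset.sdiff_sdiff_eq_self (hUs b hb), Finset.sdiff_sdiff_eq_self (hUs b' hb')] at h4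
      obtain ⟨r1, r2⟩ := tt_e1_w h hd (MX := MA) (MY := MB) (hMAL.trans hLA) (hMBR.trans hRB) pA pB
        (fun a ha b hb b' hb' e e' => h2 b (hMBR hb) b' (hMBR hb') a (hMAL ha) e.symm e'.symm)
        (fun a ha a' ha' b hb e e' => h1 b (hMBR hb) a (hMAL ha) a' (hMAL ha') e.symm e'.symm)
        c (fun b hb => (c2 b (hMBR hb)).1) (fun b hb => (c2 b (hMBR hb)).2)
        (fun b hb b' hb' hn => hne b (hMBR hb) b' (hMBR hb') hn)
        (fun a ha b hb => (c3 a (hMAL ha) b (hMBR hb)).2)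
      have hrho : ∀ b ∈ MB, rho G A B C (c b) = n := by
        intro b hb
        have hbR := hMBR hb
        obtain ⟨a, ha, eab⟩ := pB b hb
        have haL := hMAL ha
        obtain ⟨b', hb', hne'⟩ : ∃ b' ∈ R, b' ≠ b := by
          by_cases hax : x1 = b
          · exact ⟨x2, hx2, fun e => n1 (hax.trans e.symm)⟩
          · exact ⟨x1, hx1, hax⟩
        have hcb' : c b ∈ SX G B C b' :=
          (tt_e1_memB (hRB hb')).2 ⟨(c2 b hbR).1, hne b' hb' b hbR hne'⟩
        have h3 := tr_c1 h (c2 b hbR).1 (uB (hRB hb')) hcb'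
        rw [(mR.1 hb').2] at h3
        by_contra hn
        have h4 : rho G A B C (c b) ≤ rho G A B C b := by
          rw [(mR.1 hbR).2]
          exact h3
        obtain ⟨v, hv, hcv, hvr⟩ := tr_c2 h (c2 b hbR).1 (uB (hRB hbR)) h4
        have hvn : rho G A B C v < n := by omega
        rcases Finset.mem_union.1 hv with hvA | hvB
        · have h5 : G.Adj v b := tx_ab h hvA (hRB hbR) (by rw [(mR.1 hbR).2]; exact hvn)
          have h6 : G.Adj v (c b) := ((tt_e1_memA h hvA).1 hcv).2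
          have h7 : v ≠ a := by
            intro e
            rw [e, (mL.1 haL).2] at hvn
            omega
          exact h.iA v hvA a (hLA haL) (hd b (c b) v a (c2 b hbR).2 h5.symm h6.symm eab.symm
            (c3 a haL b hbR).2.symm h7)
        · have h6 : sx G B C v < sx G B C b :=
            (tr_lt h hv (uB (hRB hbR))).1 (by rw [(mR.1 hbR).2]; exact hvn)
          exact (c1 b hbR).2 (tf_cB h hvB (hRB hbR) h6 hcv)
      refine ⟨∅, MA ∪ MB ∪ MB.image c, by simp, tt_e1_out h ?_ ?_ ?_ ?_ r2⟩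
      · intro u w e
        obtain ⟨hu, hw, e⟩ := mE.1 e
        exact ⟨Finset.mem_union_left _ (Finset.mem_union_right _ (mMB.2 ⟨hu, w, hw, e⟩)),
          Finset.mem_union_left _ (Finset.mem_union_left _ (mMA.2 ⟨hw, u, hu, e⟩))⟩
      · intro x hx
        rcases Finset.mem_union.1 hx with hx | hx
        · rcases Finset.mem_union.1 hx with hx | hx
          · exact Finset.mem_union_left _ (uA (hLA (hMAL hx)))
          · exact Finset.mem_union_left _ (uB (hRB (hMBR hx)))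
        · obtain ⟨b, hb, rfl⟩ := Finset.mem_image.1 hx
          exact Finset.mem_union_right _ (c2 b (hMBR hb)).1
      · intro u hu
        rcases Finset.mem_union.1 hu with hu | hu
        · rcases Finset.mem_union.1 hu with hu | hu
          · exact hupA u hu
          · exact hloB u hu
        · obtain ⟨b, hb, rfl⟩ := Finset.mem_image.1 hu
          obtain ⟨a, ha, e⟩ := pB b hb
          refine Or.inl ⟨hrho b hb, Or.inr (Or.inr (Or.inr ⟨(c2 b (hMBR hb)).1, b, hRB (hMBR hb), a,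
            hLA (hMAL ha), (mR.1 (hMBR hb)).2, (mL.1 (hMAL ha)).2, (c2 b (hMBR hb)).2.symm,
            e.symm⟩))⟩
      · intro p hp hpM _ u hu v hv hA hB
        exact r1 p hp hpM u hu v hv hA hB

end TE1

end Pool.Agent.Helper856.Cw
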