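import Pool.Agent.Helper856.Pair.Defs
import Pool.Agent.Helper856.Pair.TFacts

open Classical SimpleGraph

namespace Pool.Agent.Helper856.Cw

open TFacts (tf_a tf_b tf_dA tf_dB tf_eA tf_eB tf_f2)

namespace TFacts2

variable {V : Type} {G : SimpleGraph V} {S T : Finset V} {k l : ℕ}

theorem tf6_memA {A B C : Finset V} (h : TT G A B C) {a c : V} (ha : a ∈ A) :
    c ∈ SX G B C a ↔ c ∈ C ∧ G.Adj a c := by
  have hnb : a ∉ B := fun hb => (Finset.disjoint_left.1 h.dAB) ha hb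
  unfold SX
  rw [Finset.mem_filter]
  constructor
  · rintro ⟨h1, h2 | h2⟩
    · exact absurd h2.1 hnb
    · exact ⟨h1, h2.2⟩
  · rintro ⟨h1, h2⟩
    exact ⟨h1, Or.inr ⟨hnb, h2⟩⟩

theorem tf6_memB {B C : Finset V} {b c : V} (hb : b ∈ B) :
    c ∈ SX G B C b ↔ c ∈ C ∧ ¬G.Adj b c := by
  unfold SX
  rw [Finset.mem_filter]
  constructor
  · rintro ⟨h1, h2 | h2⟩
    · exact ⟨h1, h2.2⟩
    · exact absurd hb h2.1
  · rintro ⟨h1, h2⟩
    exact ⟨h1, Or.inl ⟨hb, h2⟩⟩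

theorem tf6_wit {A B C : Finset V} (h : TT G A B C) {a b : V} (ha : a ∈ A) (hb : b ∈ B)
    (hs : sx G B C a = sx G B C b) (hne : SX G B C a ≠ SX G B C b) :
    G.Adj a b ∧ ∃ c, c ∈ SX G B C a ∧ c ∉ SX G B C b ∧ G.Adj a c ∧ G.Adj b c := by
  refine ⟨tf_f2 h ha hb hs hne, ?_⟩
  have h1 : ¬ SX G B C a ⊆ SX G B C b := fun hsub =>
    hne (Finset.eq_of_subset_of_card_le hsub (le_of_eq hs.symm))
  obtain ⟨c, hc1, hc2⟩ := Finset.not_subset.1 h1
  have h2 := (tf6_memA h ha).1 hc1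
  refine ⟨c, hc1, hc2, h2.2, ?_⟩
  by_contra hcon
  exact hc2 ((tf6_memB hb).2 ⟨h2.1, hcon⟩)

/-- TARGET -/
theorem tf_6 {A B C : Finset V} (h : TT G A B C) (hd : NoDia G) {a b : V} (ha : a ∈ A) (hb : b ∈ B)
    (hs : sx G B C a = sx G B C b) (hne : SX G B C a ≠ SX G B C b) :
    (∀ a' ∈ A, SX G B C a' = SX G B C a → a' = a) ∧ (∀ b' ∈ B, SX G B C b' = SX G B C b → b' = b) := by
  obtain ⟨hab, c, hc1, hc2, hac, hbc⟩ := tf6_wit h ha hb hs hne
  have hcC : c ∈ C := ((tf6_memA h ha).1 hc1).1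
  refine ⟨fun a' ha' he => ?_, fun b' hb' he => ?_⟩
  · by_contra hcon
    have hs' : sx G B C a' = sx G B C b := by
      unfold sx at hs ⊢
      rw [he, hs]
    have hab' : G.Adj a' b := tf_f2 h ha' hb hs' (by rw [he]; exact hne)
    have hac' : G.Adj a' c := ((tf6_memA h ha').1 (by rw [he]; exact hc1)).2
    exact h.iA _ ha' _ ha (hd b c a' a hbc hab'.symm hac'.symm hab.symm hac.symm hcon)
  · by_contra hcon
    have hs' : sx G B C a = sx G B C b' := by
      unfold sx at hs ⊢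
      rw [he, hs]
    have hab' : G.Adj a b' := tf_f2 h ha hb' hs' (by rw [he]; exact hne)
    have hbc' : G.Adj b' c := by
      by_contra hn
      exact hc2 (by rw [← he]; exact (tf6_memB hb').2 ⟨hcC, hn⟩)
    exact h.iB _ hb' _ hb (hd a c b' b hac hab' hbc'.symm hab hbc.symm hcon)

theorem tf6_claimB {A B C : Finset V} (h : TT G A B C) (hd : NoDia G) {b b' : V} (hb : b ∈ B)
    (hb' : b' ∈ B) (hs : sx G B C b = sx G B C b') (hne : SX G B C b ≠ SX G B C b')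
    {a1 a2 : V} (ha1 : a1 ∈ A) (ha2 : a2 ∈ A) (hs1 : sx G B C a1 = sx G B C b)
    (hs2 : sx G B C a2 = sx G B C b) (hn1 : SX G B C a1 ≠ SX G B C b)
    (hn2 : SX G B C a2 ≠ SX G B C b) : a1 = a2 := by
  by_contra hcon
  obtain ⟨hab1, c1, h11, h12, hac1, hbc1⟩ := tf6_wit h ha1 hb hs1 hn1
  obtain ⟨hab2, c2, h21, h22, hac2, hbc2⟩ := tf6_wit h ha2 hb hs2 hn2
  have hbb : b ≠ b' := fun he => hne (by rw [he])
  have hC1 : c1 ∈ C := ((tf6_memA h ha1).1 h11).1
  have hC2 : c2 ∈ C := ((tf6_memA h ha2).1 h21).1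
  have hcc : c1 ≠ c2 := by
    rintro rfl
    exact h.iA _ ha1 _ ha2 (hd b c1 a1 a2 hbc1 hab1.symm hac1.symm hab2.symm hac2.symm hcon)
  have x1 : c1 ∉ SX G B C a2 := fun hx => hcc (tf_b h hd ha2 hb hab2 hx h12 h21 h22)
  have x2 : c2 ∉ SX G B C a1 := fun hx => hcc (tf_b h hd ha1 hb hab1 h11 h12 hx h22)
  have s1 : SX G B C a1 ≠ SX G B C b' → c1 ∈ SX G B C b' := by
    intro hn
    by_contra hx
    have e1 : G.Adj b' c1 := by
      by_contra hn'
      exact hx ((tf6_memB hb').2 ⟨hC1, hn'⟩)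
    have e2 : G.Adj a1 b' := tf_f2 h ha1 hb' (hs1.trans hs) hn
    exact h.iB _ hb _ hb' (hd a1 c1 b b' hac1 hab1 hbc1.symm e2 e1.symm hbb)
  have s2 : SX G B C a2 ≠ SX G B C b' → c2 ∈ SX G B C b' := by
    intro hn
    by_contra hx
    have e1 : G.Adj b' c2 := by
      by_contra hn'
      exact hx ((tf6_memB hb').2 ⟨hC2, hn'⟩)
    have e2 : G.Adj a2 b' := tf_f2 h ha2 hb' (hs2.trans hs) hn
    exact h.iB _ hb _ hb' (hd a2 c2 b b' hac2 hab2 hbc2.symm e2 e1.symm hbb)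
  by_cases t1 : SX G B C a1 = SX G B C b'
  · have t2 : SX G B C a2 ≠ SX G B C b' := by
      intro he
      exact x1 (by rw [he, ← t1]; exact h11)
    exact x2 (by rw [t1]; exact s2 t2)
  · by_cases t2 : SX G B C a2 = SX G B C b'
    · exact x1 (by rw [t2]; exact s1 t1)
    · exact hcc (tf_dB h hb' hb hs.symm (s1 t1) h12 (s2 t2) h22)

theorem tf6_claimA {A B C : Finset V} (h : TT G A B C) (hd : NoDia G) {a a' : V} (ha : a ∈ A)
    (ha' : a' ∈ A) (hs : sx G B C a = sx G B C a') (hne : SX G B C a ≠ SX G B C a')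
    {b1 b2 : V} (hb1 : b1 ∈ B) (hb2 : b2 ∈ B) (hs1 : sx G B C b1 = sx G B C a)
    (hs2 : sx G B C b2 = sx G B C a) (hn1 : SX G B C b1 ≠ SX G B C a)
    (hn2 : SX G B C b2 ≠ SX G B C a) : b1 = b2 := by
  by_contra hcon
  obtain ⟨hab1, c1, h11, h12, hac1, hbc1⟩ := tf6_wit h ha hb1 hs1.symm hn1.symm
  obtain ⟨hab2, c2, h21, h22, hac2, hbc2⟩ := tf6_wit h ha hb2 hs2.symm hn2.symm
  have haa : a ≠ a' := fun he => hne (by rw [he])
  have hcc : c1 ≠ c2 := by
    rintro rfl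
    exact h.iB _ hb1 _ hb2 (hd a c1 b1 b2 hac1 hab1 hbc1.symm hab2 hbc2.symm hcon)
  have x1 : c1 ∈ SX G B C b2 := by
    by_contra hx
    exact hcc (tf_b h hd ha hb2 hab2 h11 hx h21 h22)
  have x2 : c2 ∈ SX G B C b1 := by
    by_contra hx
    exact hcc (tf_b h hd ha hb1 hab1 h11 h12 h21 hx)
  have s1 : SX G B C a' ≠ SX G B C b1 → c1 ∉ SX G B C a' := by
    intro hn hx
    have e1 : G.Adj a' c1 := ((tf6_memA h ha').1 hx).2
    have e2 : G.Adj a' b1 := tf_f2 h ha' hb1 (hs.symm.trans hs1.symm) hn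
    exact h.iA _ ha _ ha' (hd b1 c1 a a' hbc1 hab1.symm hac1.symm e2.symm e1.symm haa)
  have s2 : SX G B C a' ≠ SX G B C b2 → c2 ∉ SX G B C a' := by
    intro hn hx
    have e1 : G.Adj a' c2 := ((tf6_memA h ha').1 hx).2
    have e2 : G.Adj a' b2 := tf_f2 h ha' hb2 (hs.symm.trans hs2.symm) hn
    exact h.iA _ ha _ ha' (hd b2 c2 a a' hbc2 hab2.symm hac2.symm e2.symm e1.symm haa)
  by_cases t1 : SX G B C a' = SX G B C b1
  · have t2 : SX G B C a' ≠ SX G B C b2 := by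
      intro he
      exact h12 (by rw [← t1, he]; exact x1)
    exact s2 t2 (by rw [t1]; exact x2)
  · by_cases t2 : SX G B C a' = SX G B C b2
    · exact s1 t1 (by rw [t2]; exact x1)
    · exact hcc (tf_dA h ha ha' hs h11 (s1 t1) h21 (s2 t2))

/-- TARGET -/
theorem tf_6B {A B C : Finset V} (h : TT G A B C) (hd : NoDia G) {b b' : V} (hb : b ∈ B) (hb' : b' ∈ B)
    (hs : sx G B C b = sx G B C b') (hne : SX G B C b ≠ SX G B C b') :
    (A.filter (fun a => sx G B C a = sx G B C b)).card ≤ 2 := by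
  have hsub : A.filter (fun a => sx G B C a = sx G B C b) ⊆
      A.filter (fun a => sx G B C a = sx G B C b ∧ SX G B C a ≠ SX G B C b) ∪
      A.filter (fun a => sx G B C a = sx G B C b ∧ SX G B C a ≠ SX G B C b') := by
    intro a ha
    rw [Finset.mem_filter] at ha
    rw [Finset.mem_union, Finset.mem_filter, Finset.mem_filter]
    by_cases h1 : SX G B C a = SX G B C b
    · right
      exact ⟨ha.1, ha.2, fun h2 => hne (h1.symm.trans h2)⟩
    · left
      exact ⟨ha.1, ha.2, h1⟩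
  have c1 : (A.filter (fun a => sx G B C a = sx G B C b ∧ SX G B C a ≠ SX G B C b)).card ≤ 1 := by
    rw [Finset.card_le_one]
    intro x hx y hy
    rw [Finset.mem_filter] at hx hy
    exact tf6_claimB h hd hb hb' hs hne hx.1 hy.1 hx.2.1 hy.2.1 hx.2.2 hy.2.2
  have c2 : (A.filter (fun a => sx G B C a = sx G B C b ∧ SX G B C a ≠ SX G B C b')).card ≤ 1 := by
    rw [Finset.card_le_one]
    intro x hx y hy
    rw [Finset.mem_filter] at hx hy
    exact tf6_claimB h hd hb' hb hs.symm hne.symm hx.1 hy.1 (hx.2.1.trans hs) (hy.2.1.trans hs)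
      hx.2.2 hy.2.2
  calc (A.filter (fun a => sx G B C a = sx G B C b)).card ≤ _ := Finset.card_le_card hsub
    _ ≤ _ := Finset.card_union_le _ _
    _ ≤ 2 := by omega

/-- TARGET -/
theorem tf_6A {A B C : Finset V} (h : TT G A B C) (hd : NoDia G) {a a' : V} (ha : a ∈ A) (ha' : a' ∈ A)
    (hs : sx G B C a = sx G B C a') (hne : SX G B C a ≠ SX G B C a') :
    (B.filter (fun b => sx G B C b = sx G B C a)).card ≤ 2 := by
  have hsub : B.filter (fun b => sx G B C b = sx G B C a) ⊆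
      B.filter (fun b => sx G B C b = sx G B C a ∧ SX G B C b ≠ SX G B C a) ∪
      B.filter (fun b => sx G B C b = sx G B C a ∧ SX G B C b ≠ SX G B C a') := by
    intro b hb
    rw [Finset.mem_filter] at hb
    rw [Finset.mem_union, Finset.mem_filter, Finset.mem_filter]
    by_cases h1 : SX G B C b = SX G B C a
    · right
      exact ⟨hb.1, hb.2, fun h2 => hne (h1.symm.trans h2)⟩
    · left
      exact ⟨hb.1, hb.2, h1⟩
  have c1 : (B.filter (fun b => sx G B C b = sx G B C a ∧ SX G B C b ≠ SX G B C a)).card ≤ 1 := by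
    rw [Finset.card_le_one]
    intro x hx y hy
    rw [Finset.mem_filter] at hx hy
    exact tf6_claimA h hd ha ha' hs hne hx.1 hy.1 hx.2.1 hy.2.1 hx.2.2 hy.2.2
  have c2 : (B.filter (fun b => sx G B C b = sx G B C a ∧ SX G B C b ≠ SX G B C a')).card ≤ 1 := by
    rw [Finset.card_le_one]
    intro x hx y hy
    rw [Finset.mem_filter] at hx hy
    exact tf6_claimA h hd ha' ha hs.symm hne.symm hx.1 hy.1 (hx.2.1.trans hs) (hy.2.1.trans hs)
      hx.2.2 hy.2.2
  calc (B.filter (fun b => sx G B C b = sx G B C a)).card ≤ _ := Finset.card_le_card hsub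
    _ ≤ _ := Finset.card_union_le _ _
    _ ≤ 2 := by omega

end TFacts2

end Pool.Agent.Helper856.Cw
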