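import Pool.Agent.Helper856.Pair.Defs
import Pool.Agent.Helper856.Cw.Basic
import Pool.Agent.Helper856.Pair.TFacts
import Pool.Agent.Helper856.Pair.TFacts2
import Pool.Agent.Helper856.Pair.TRho
import Pool.Agent.Helper856.Pair.TSym
import Pool.Agent.Helper856.Pair.StarM
import Pool.Agent.Helper856.Pair.SPieces

open Classical SimpleGraph

namespace Pool.Agent.Helper856.Cw

open TFacts (tf_a tf_b tf_cA tf_cB tf_dA tf_dB tf_f)
open TFacts2 (tf_6B)
open TRho (tr_lt tr_eq tx_ab tx_ac tx_ca tx_bc tx_cb)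
open TSym (tt_rot tt_swap qm_pair qm_wind qm_p1)
open StarM (star_match)
open SPieces (pieces)

namespace TE2

variable {V : Type} {G : SimpleGraph V} {S T : Finset V} {k l : ℕ}

/-- an exceptional edge together with its centre -/
def Ex2T (G : SimpleGraph V) (A B C : Finset V) (n : ℕ) (c b a : V) : Prop :=
  Ex2 G A B C n c b ∧ a ∈ A ∧ rho G A B C a = n ∧ G.Adj a c ∧ G.Adj a b

theorem ex2_ctr {A B C : Finset V} (h : TT G A B C) (hd : NoDia G) {n : ℕ} {c b : V}
    (e : Ex2 G A B C n c b) : ∃ a, Ex2T G A B C n c b a := by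
  obtain ⟨hc, hb, rc, rb, ad⟩ := e
  obtain ⟨-, a, ha, ra, h1, h2⟩ := tx_cb h hd hb hc (by omega) ad
  exact ⟨a, ⟨hc, hb, rc, rb, ad⟩, ha, by omega, h1, h2⟩

theorem ex2_one {A B C : Finset V} (h : TT G A B C) (hd : NoDia G) {n : ℕ} {c b b' : V}
    (e : Ex2 G A B C n c b) (e' : Ex2 G A B C n c b') : b = b' := by
  obtain ⟨a, -, ha, ra, h1, h2⟩ := ex2_ctr h hd e
  by_contra hne
  have h3 : G.Adj a b' := tx_ab h ha e'.2.1 (by rw [ra, e'.2.2.2.1]; omega)
  exact h.iB b e.2.1 b' e'.2.1 (hd a c b b' h1 h2 e.2.2.2.2 h3 e'.2.2.2.2 hne)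

theorem ex2_ctr_one {A B C : Finset V} (h : TT G A B C) (hd : NoDia G) {n : ℕ} {c b a a' : V}
    (e : Ex2T G A B C n c b a) (ha' : a' ∈ A) (ra' : rho G A B C a' = n) (h1 : G.Adj a' c) :
    a' = a := by
  obtain ⟨e0, ha, ra, h2, h3⟩ := e
  by_contra hne
  have h4 : G.Adj a' b := tx_ab h ha' e0.2.1 (by rw [ra', e0.2.2.2.1]; omega)
  exact h.iA a' ha' a ha (hd b c a' a e0.2.2.2.2.symm h4.symm h1.symm h3.symm h2.symm hne)

theorem ex2_na {A B C : Finset V} (h : TT G A B C) (hd : NoDia G) {n : ℕ} {c b c' b' : V}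
    (e : Ex2 G A B C n c b) (e' : Ex2 G A B C n c' b') (hne : b ≠ b') : ¬G.Adj c b' := by
  intro ha
  exact hne (ex2_one h hd e ⟨e.1, e'.2.1, e.2.2.1, e'.2.2.2.1, ha⟩)

theorem ex2_h2 {A B C : Finset V} (h : TT G A B C) (hd : NoDia G) {n : ℕ} {x x' x'' y y'' : V}
    (hne : x ≠ x') (e : Ex2 G A B C n x y) (e' : Ex2 G A B C n x' y)
    (e'' : Ex2 G A B C n x'' y'') : y'' = y := by
  by_contra hy
  have m1 : ∀ {z}, z ∈ B → z ∈ B ∪ C := fun hz => Finset.mem_union_left _ hz
  have m2 : ∀ {z}, z ∈ C → z ∈ B ∪ C := fun hz => Finset.mem_union_right _ hz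
  exact h.pBC y'' (m1 e''.2.1) x'' (m2 e''.1) x (m2 e.1) y (m1 e.2.1) x' (m2 e'.1)
    e''.2.2.2.2.symm e.2.2.2.2 e'.2.2.2.2.symm hne (h.iC _ e.1 _ e'.1)
    (fun q => ex2_na h hd e e'' (Ne.symm hy) q.symm)
    (h.iB _ e''.2.1 _ e.2.1)
    (fun q => ex2_na h hd e' e'' (Ne.symm hy) q.symm)
    (h.iC _ e''.1 _ e.1)
    (ex2_na h hd e'' e hy)
    (h.iC _ e''.1 _ e'.1)

theorem ex2_dich {A B C : Finset V} (h : TT G A B C) (hd : NoDia G) (n : ℕ) :
    (∀ c b a c' b' a', Ex2T G A B C n c b a → Ex2T G A B C n c' b' a' → a = a') ∨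
    (∀ c b a c' b', Ex2T G A B C n c b a → Ex2T G A B C n c' b' a → c = c') := by
  by_contra hcon
  rw [not_or] at hcon
  obtain ⟨h1, h2⟩ := hcon
  push Not at h1 h2
  obtain ⟨c1, b1, a1, c2, b2, a2, t1, t2, hne⟩ := h1
  obtain ⟨c3, b3, a3, c4, b4, t3, t4, hne'⟩ := h2
  have key : ∀ c b a, Ex2T G A B C n c b a → a ≠ a3 → False := by
    intro c b a t hna
    apply hne'
    have mem : ∀ x : V, x ∈ A → ∀ z ∈ C, (z ∈ SX G B C x ↔ G.Adj x z) := by
      intro x hx z hz
      have : x ∉ B := fun hb => (Finset.disjoint_left.mp h.dAB) hx hb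
      simp [SX, hz, this]
    have hs : sx G B C a3 = sx G B C a :=
      (tr_eq h (Finset.mem_union_left _ t3.2.1) (Finset.mem_union_left _ t.2.1)).mp
        (by rw [t3.2.2.1, t.2.2.1])
    refine tf_dA h t3.2.1 t.2.1 hs ((mem _ t3.2.1 _ t3.1.1).mpr t3.2.2.2.1) ?_
      ((mem _ t3.2.1 _ t4.1.1).mpr t4.2.2.2.1) ?_
    · rw [mem _ t.2.1 _ t3.1.1]
      intro q
      exact hna (ex2_ctr_one h hd t3 t.2.1 t.2.2.1 q)
    · rw [mem _ t.2.1 _ t4.1.1]
      intro q
      exact hna (ex2_ctr_one h hd t4 t.2.1 t.2.2.1 q)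
  by_cases q : a1 = a3
  · exact key _ _ _ t2 (fun r => hne (q.trans r.symm))
  · exact key _ _ _ t1 q

theorem col3_C {A B C : Finset V} (h : TT G A B C) {u : V} (hu : u ∈ C) : col3 A B u = 2 := by
  have h1 : u ∉ A := fun q => (Finset.disjoint_left.mp h.dAC) q hu
  have h2 : u ∉ B := fun q => (Finset.disjoint_left.mp h.dBC) q hu
  simp [col3, h1, h2]

theorem col3_B {A B C : Finset V} (h : TT G A B C) {u : V} (hu : u ∈ B) : col3 A B u = 1 := by
  have h1 : u ∉ A := fun q => (Finset.disjoint_left.mp h.dAB) q hu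
  simp [col3, h1, hu]

theorem col3_A {A B : Finset V} {u : V} (hu : u ∈ A) : col3 A B u = 0 := by
  simp [col3, hu]

theorem pieces' {r : ℕ} (τ : V → Fin r) (Q : Fin r → Fin r → Prop) (hQ : ∀ i j, Q i j → Q j i)
    (h : ∀ v ∈ S, ∃ F : Finset V, F.card ≤ 2 ∧ ∀ w ∈ S, w ≠ v → ¬(G.Adj v w ↔ Q (τ v) (τ w)) →
      w ∈ F) : SLin (r * 3) G S := by
  refine pieces τ Q hQ (fun v hv => ?_)
  obtain ⟨F, hF, hF2⟩ := h v hv
  refine le_trans (Finset.card_le_card ?_) hF
  intro w hw
  rw [Finset.mem_filter] at hw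
  exact hF2 w hw.1 hw.2.1 hw.2.2

/-- TARGET -/
theorem tt_e2 {A B C : Finset V} (h : TT G A B C) (hd : NoDia G) (n : ℕ) :
    (∃ D : Finset V, D.card ≤ 2 ∧ ∀ u w, Ex2 G A B C n u w → u ∈ D ∨ w ∈ D) ∨
    ((A.filter (fun a => rho G A B C a = n + 1)).card ≤ 2 ∧
      ∃ D M : Finset V, D.card ≤ 1 ∧ Out G A B C n (Ex2 G A B C n) D M) := by
  have hone : ∀ {c b b'}, Ex2 G A B C n c b → Ex2 G A B C n c b' → b = b' :=
    fun e e' => ex2_one h hd e e'
  rcases star_match C B (Ex2 G A B C n) (fun x _ y _ y' _ e e' => hone e e')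
      (fun x _ x' _ x'' _ y _ y'' _ hne e e' e'' => ex2_h2 h hd hne e e' e'') with h0 | h0
  · left
    obtain ⟨D, hD, hD2⟩ := h0
    exact ⟨D, hD, fun u w e => hD2 u e.1 w e.2.1 e⟩
  right
  obtain ⟨hm, x1, hx1, x2, hx2, x3, hx3, y1, hy1, y2, hy2, y3, hy3, n12, n13, n23, m12, m13, m23,
    e1, e2, e3⟩ := h0
  have hmat : ∀ {c c' b}, Ex2 G A B C n c b → Ex2 G A B C n c' b → c = c' :=
    fun e e' => hm _ e.1 _ e'.1 _ e.2.1 e e'
  refine ⟨?_, ?_⟩
  · have hs : sx G B C y1 = sx G B C y2 :=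
      (tr_eq h (Finset.mem_union_right _ hy1) (Finset.mem_union_right _ hy2)).mp
        (by rw [e1.2.2.2.1, e2.2.2.2.1])
    have hne : SX G B C y1 ≠ SX G B C y2 := by
      intro q
      have r1 : x1 ∉ SX G B C y1 := by
        simp [SX, hx1, hy1, e1.2.2.2.2.symm]
      have r2 : x1 ∈ SX G B C y2 := by
        have := ex2_na h hd e1 e2 m12
        have t : ¬G.Adj y2 x1 := fun q => this q.symm
        simp [SX, hx1, hy2, t]
      exact r1 (q ▸ r2)
    have hc := tf_6B h hd hy1 hy2 hs hne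
    refine le_trans (Finset.card_le_card ?_) hc
    intro a ha
    rw [Finset.mem_filter] at ha ⊢
    refine ⟨ha.1, ?_⟩
    exact (tr_eq h (Finset.mem_union_left _ ha.1) (Finset.mem_union_right _ hy1)).mp
      (by rw [ha.2, e1.2.2.2.1])
  rcases ex2_dich h hd n with hall | hdiff
  · -- all centres equal
    obtain ⟨a, ta⟩ := ex2_ctr h hd e1
    have hcen : ∀ {c b}, Ex2 G A B C n c b → G.Adj a c ∧ G.Adj a b := by
      intro c b e
      obtain ⟨a', ta'⟩ := ex2_ctr h hd e
      have := hall _ _ _ _ _ _ ta ta'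
      subst this
      exact ⟨ta'.2.2.2.1, ta'.2.2.2.2⟩
    refine ⟨{a}, C.filter (fun c => ∃ b, Ex2 G A B C n c b) ∪
      B.filter (fun b => ∃ c, Ex2 G A B C n c b), by simp, ?_, ?_, ?_, ?_, ?_⟩
    · intro u w e
      right; right
      exact ⟨Finset.mem_union_left _ (Finset.mem_filter.mpr ⟨e.1, w, e⟩),
        Finset.mem_union_right _ (Finset.mem_filter.mpr ⟨e.2.1, u, e⟩)⟩
    · intro u hu
      rw [Finset.mem_union, Finset.mem_filter, Finset.mem_filter] at hu
      rcases hu with hu | hu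
      · exact Finset.mem_union_right _ hu.1
      · exact Finset.mem_union_left _ (Finset.mem_union_right _ hu.1)
    · intro u hu
      rw [Finset.mem_union, Finset.mem_filter, Finset.mem_filter] at hu
      rcases hu with ⟨hu, b, e⟩ | ⟨hu, c, e⟩
      · left
        exact ⟨e.2.2.1, Or.inl ⟨hu, b, e.2.1, e.2.2.2.1, e.2.2.2.2⟩⟩
      · right
        exact ⟨e.2.2.2.1, Or.inl ⟨hu, c, e.1, e.2.2.1, e.2.2.2.2⟩⟩
    · intro x hx hxM hxD u hu v hv hr hcol
      rw [Finset.mem_union, Finset.mem_filter, Finset.mem_filter, not_or] at hxM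
      rw [Finset.mem_singleton] at hxD
      rw [Finset.mem_union, Finset.mem_filter, Finset.mem_filter] at hu hv
      by_cases huv : u = v
      · rw [huv]
      have key : ∀ {c1 b1 c2 b2 : V}, Ex2 G A B C n c1 b1 → Ex2 G A B C n c2 b2 → c1 ≠ c2 →
          b1 ≠ b2 → (G.Adj x c1 ↔ G.Adj x c2) ∧ (G.Adj x b1 ↔ G.Adj x b2) := by
        intro c1 b1 c2 b2 f1 f2 nc nb
        have na1 := ex2_na h hd f1 f2 nb
        have na2 := ex2_na h hd f2 f1 (Ne.symm nb)
        rw [Finset.mem_union, Finset.mem_union] at hx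
        rcases hx with (hx | hx) | hx
        · -- x in A
          have := qm_wind (tt_rot h) hd f1.2.1 f2.2.1 f1.1 f2.1 ta.2.1 hx hxD
            f1.2.2.2.2.symm f2.2.2.2.2.symm (fun q => na2 q.symm) (fun q => na1 q.symm)
            (hcen f1).2 (hcen f2).2 (hcen f1).1 (hcen f2).1
          exact ⟨this.2, this.1⟩
        · -- x in B
          have i1 : x ≠ b1 := fun q => hxM.2 ⟨hx, c1, q ▸ f1⟩
          have i2 : x ≠ b2 := fun q => hxM.2 ⟨hx, c2, q ▸ f2⟩
          refine ⟨qm_pair h.iB h.iC h.pBC f1.2.1 f2.2.1 f1.1 f2.1 hx i1 i2 f1.2.2.2.2.symm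
            f2.2.2.2.2.symm (fun q => na2 q.symm) (fun q => na1 q.symm), ?_⟩
          exact iff_of_false (h.iB _ hx _ f1.2.1) (h.iB _ hx _ f2.2.1)
        · -- x in C
          have i1 : x ≠ c1 := fun q => hxM.1 ⟨hx, b1, q ▸ f1⟩
          have i2 : x ≠ c2 := fun q => hxM.1 ⟨hx, b2, q ▸ f2⟩
          refine ⟨iff_of_false (h.iC _ hx _ f1.1) (h.iC _ hx _ f2.1), ?_⟩
          have hp : NoP2P3T G (C ∪ B) := by rw [Finset.union_comm]; exact h.pBC
          exact qm_pair h.iC h.iB hp f1.1 f2.1 f1.2.1 f2.2.1 hx i1 i2 f1.2.2.2.2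
            f2.2.2.2.2 na1 na2
      rcases hu with ⟨hu, b, e⟩ | ⟨hu, c, e⟩ <;> rcases hv with ⟨hv, b', e'⟩ | ⟨hv, c', e'⟩
      · exact (key e e' huv (fun q => huv (hmat e (q ▸ e')))).1
      · exfalso
        have := e.2.2.1; have := e'.2.2.2.1; omega
      · exfalso
        have := e'.2.2.1; have := e.2.2.2.1; omega
      · exact (key e e' (fun q => huv (hone e (q ▸ e'))) huv).2
    · refine pieces' (r := 3) (col3 A B) (fun _ _ => False) (fun _ _ q => q) ?_
      intro v hv
      rw [Finset.mem_union, Finset.mem_filter, Finset.mem_filter] at hv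
      have key : ∀ w, w ∈ (C.filter (fun c => ∃ b, Ex2 G A B C n c b) ∪
          B.filter (fun b => ∃ c, Ex2 G A B C n c b)) → ¬(G.Adj v w ↔ False) →
          Ex2 G A B C n v w ∨ Ex2 G A B C n w v := by
        intro w hw1 hw3
        rw [Finset.mem_union, Finset.mem_filter, Finset.mem_filter] at hw1
        have hadj : G.Adj v w := by
          by_contra q
          exact hw3 (iff_of_false q id)
        rcases hv with ⟨hv, b, e⟩ | ⟨hv, c, e⟩ <;> rcases hw1 with ⟨hw, b', e'⟩ | ⟨hw, c', e'⟩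
        · exact absurd hadj (h.iC _ hv _ hw)
        · left
          exact ⟨hv, hw, e.2.2.1, e'.2.2.2.1, hadj⟩
        · right
          exact ⟨hw, hv, e'.2.2.1, e.2.2.2.1, hadj.symm⟩
        · exact absurd hadj (h.iB _ hv _ hw)
      rcases hv with ⟨hv, b, e⟩ | ⟨hv, c, e⟩
      · refine ⟨{b}, by simp, ?_⟩
        intro w hw _ hw3
        rw [Finset.mem_singleton]
        rcases key w hw hw3 with k | k
        · exact hone k e
        · exact absurd k.2.1 (fun q => (Finset.disjoint_left.mp h.dBC) q hv)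
      · refine ⟨{c}, by simp, ?_⟩
        intro w hw _ hw3
        rw [Finset.mem_singleton]
        rcases key w hw hw3 with k | k
        · exact absurd k.1 (fun q => (Finset.disjoint_left.mp h.dBC) hv q)
        · exact hmat k e
  · -- all centres different
    have hTT : TT G A C B := tt_swap (tt_rot (tt_rot h))
    refine ⟨∅, (C.filter (fun c => ∃ b, Ex2 G A B C n c b) ∪
      B.filter (fun b => ∃ c, Ex2 G A B C n c b)) ∪
      A.filter (fun a => ∃ c b, Ex2T G A B C n c b a), by simp, ?_, ?_, ?_, ?_, ?_⟩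
    · intro u w e
      right; right
      exact ⟨Finset.mem_union_left _ (Finset.mem_union_left _ (Finset.mem_filter.mpr ⟨e.1, w, e⟩)),
        Finset.mem_union_left _ (Finset.mem_union_right _ (Finset.mem_filter.mpr ⟨e.2.1, u, e⟩))⟩
    · intro u hu
      rw [Finset.mem_union, Finset.mem_union, Finset.mem_filter, Finset.mem_filter,
        Finset.mem_filter] at hu
      rcases hu with (hu | hu) | hu
      · exact Finset.mem_union_right _ hu.1
      · exact Finset.mem_union_left _ (Finset.mem_union_right _ hu.1)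
      · exact Finset.mem_union_left _ (Finset.mem_union_left _ hu.1)
    · intro u hu
      rw [Finset.mem_union, Finset.mem_union, Finset.mem_filter, Finset.mem_filter,
        Finset.mem_filter] at hu
      rcases hu with (⟨hu, b, e⟩ | ⟨hu, c, e⟩) | ⟨hu, c, b, e⟩
      · left
        exact ⟨e.2.2.1, Or.inl ⟨hu, b, e.2.1, e.2.2.2.1, e.2.2.2.2⟩⟩
      · right
        exact ⟨e.2.2.2.1, Or.inl ⟨hu, c, e.1, e.2.2.1, e.2.2.2.2⟩⟩
      · left
        exact ⟨e.2.2.1, Or.inr (Or.inl ⟨hu, c, e.1.1, b, e.1.2.1, e.1.2.2.1, e.1.2.2.2.1,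
          e.2.2.2.1, e.1.2.2.2.2⟩)⟩
    · intro x hx hxM hxD u hu v hv hr hcol
      rw [Finset.mem_union, Finset.mem_union, Finset.mem_filter, Finset.mem_filter,
        Finset.mem_filter, not_or, not_or] at hxM
      rw [Finset.mem_union, Finset.mem_union, Finset.mem_filter, Finset.mem_filter,
        Finset.mem_filter] at hu hv
      by_cases huv : u = v
      · rw [huv]
      have key : ∀ {c1 b1 a1 c2 b2 a2 : V}, Ex2T G A B C n c1 b1 a1 → Ex2T G A B C n c2 b2 a2 →
          c1 ≠ c2 →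
          (G.Adj x c1 ↔ G.Adj x c2) ∧ (G.Adj x b1 ↔ G.Adj x b2) ∧ (G.Adj x a1 ↔ G.Adj x a2) := by
        intro c1 b1 a1 c2 b2 a2 f1 f2 nc
        have nb : b1 ≠ b2 := by
          intro q
          subst q
          exact nc (hmat f1.1 f2.1)
        have na : a1 ≠ a2 := by
          intro q
          subst q
          exact nc (hdiff _ _ _ _ _ f1 f2)
        have na1 := ex2_na h hd f1.1 f2.1 nb
        have na2 := ex2_na h hd f2.1 f1.1 (Ne.symm nb)
        have g3 : G.Adj a1 b2 := tx_ab h f1.2.1 f2.1.2.1 (by rw [f1.2.2.1, f2.1.2.2.2.1]; omega)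
        have g4 : G.Adj a2 b1 := tx_ab h f2.2.1 f1.1.2.1 (by rw [f2.2.2.1, f1.1.2.2.2.1]; omega)
        have q1 : ¬G.Adj a1 c2 := fun q => na (ex2_ctr_one h hd f2 f1.2.1 f1.2.2.1 q)
        have q2 : ¬G.Adj a2 c1 := fun q => na (ex2_ctr_one h hd f1 f2.2.1 f2.2.2.1 q).symm
        have P := qm_p1 hTT hd f1.2.1 f2.2.1 f1.1.1 f2.1.1 f1.1.2.1 f2.1.2.1
          f1.2.2.2.1 f2.2.2.2.1 q1 q2 f1.1.2.2.2.2 f2.1.2.2.2.2 na1 na2
          f1.2.2.2.2 f2.2.2.2.2 g3 g4
        obtain ⟨P1, P2, P3⟩ := P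
        rw [Finset.mem_union, Finset.mem_union] at hx
        rcases hx with (hx | hx) | hx
        · -- x in A
          have i1 : x ≠ a1 := fun q => hxM.2 ⟨hx, c1, b1, q ▸ f1⟩
          have i2 : x ≠ a2 := fun q => hxM.2 ⟨hx, c2, b2, q ▸ f2⟩
          have := P1 x hx i1 i2
          exact ⟨this.1, this.2, iff_of_false (h.iA _ hx _ f1.2.1) (h.iA _ hx _ f2.2.1)⟩
        · -- x in B
          have i1 : x ≠ b1 := fun q => hxM.1.2 ⟨hx, c1, q ▸ f1.1⟩
          have i2 : x ≠ b2 := fun q => hxM.1.2 ⟨hx, c2, q ▸ f2.1⟩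
          have := P2 x hx i1 i2
          exact ⟨this.1, iff_of_false (h.iB _ hx _ f1.1.2.1) (h.iB _ hx _ f2.1.2.1), this.2⟩
        · -- x in C
          have i1 : x ≠ c1 := fun q => hxM.1.1 ⟨hx, b1, q ▸ f1.1⟩
          have i2 : x ≠ c2 := fun q => hxM.1.1 ⟨hx, b2, q ▸ f2.1⟩
          have := P3 x hx i1 i2
          exact ⟨iff_of_false (h.iC _ hx _ f1.1.1) (h.iC _ hx _ f2.1.1), this.2, this.1⟩
      rcases hu with (⟨hu, b, e⟩ | ⟨hu, c, e⟩) | ⟨hu, c, b, e⟩ <;>
        rcases hv with (⟨hv, b', e'⟩ | ⟨hv, c', e'⟩) | ⟨hv, c', b', e'⟩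
      · obtain ⟨a1, t1⟩ := ex2_ctr h hd e
        obtain ⟨a2, t2⟩ := ex2_ctr h hd e'
        exact (key t1 t2 huv).1
      · rw [col3_C h hu, col3_B h hv] at hcol; exact absurd hcol (by decide)
      · rw [col3_C h hu, col3_A hv] at hcol; exact absurd hcol (by decide)
      · rw [col3_B h hu, col3_C h hv] at hcol; exact absurd hcol (by decide)
      · obtain ⟨a1, t1⟩ := ex2_ctr h hd e
        obtain ⟨a2, t2⟩ := ex2_ctr h hd e'
        exact (key t1 t2 (fun q => huv (hone e (q ▸ e')))).2.1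
      · rw [col3_B h hu, col3_A hv] at hcol; exact absurd hcol (by decide)
      · rw [col3_A hu, col3_C h hv] at hcol; exact absurd hcol (by decide)
      · rw [col3_A hu, col3_B h hv] at hcol; exact absurd hcol (by decide)
      · refine (key e e' ?_).2.2
        intro q
        subst q
        exact huv (ex2_ctr_one h hd e' e.2.1 e.2.2.1 e.2.2.2.1)
    · refine pieces' (r := 3) (col3 A B) (fun i j => (i = 0 ∧ j = 1) ∨ (i = 1 ∧ j = 0))
        (fun i j q => by tauto) ?_
      intro v hv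
      rw [Finset.mem_union, Finset.mem_union, Finset.mem_filter, Finset.mem_filter,
        Finset.mem_filter] at hv
      rcases hv with (⟨hv, b, e⟩ | ⟨hv, c, e⟩) | ⟨hv, c, b, e⟩
      · -- v in C
        obtain ⟨a, t⟩ := ex2_ctr h hd e
        refine ⟨{a, b}, Finset.card_le_two, ?_⟩
        intro w hw1 hw2 hw3
        rw [Finset.mem_union, Finset.mem_union, Finset.mem_filter,
          Finset.mem_filter, Finset.mem_filter] at hw1
        rw [Finset.mem_insert, Finset.mem_singleton]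
        rcases hw1 with (⟨hw, b', e'⟩ | ⟨hw, c', e'⟩) | ⟨hw, c', b', e'⟩
        · exfalso
          apply hw3
          rw [col3_C h hv, col3_C h hw]
          exact iff_of_false (h.iC _ hv _ hw) (by decide)
        · right
          have hadj : G.Adj v w := by
            by_contra q
            apply hw3
            rw [col3_C h hv, col3_B h hw]
            exact iff_of_false q (by decide)
          exact (hone e ⟨hv, hw, e.2.2.1, e'.2.2.2.1, hadj⟩).symm
        · left
          have hadj : G.Adj v w := by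
            by_contra q
            apply hw3
            rw [col3_C h hv, col3_A hw]
            exact iff_of_false q (by decide)
          exact ex2_ctr_one h hd t hw e'.2.2.1 hadj.symm
      · -- v in B
        refine ⟨{c, c}, Finset.card_le_two, ?_⟩
        intro w hw1 hw2 hw3
        rw [Finset.mem_union, Finset.mem_union, Finset.mem_filter,
          Finset.mem_filter, Finset.mem_filter] at hw1
        rw [Finset.mem_insert, Finset.mem_singleton]
        rcases hw1 with (⟨hw, b', e'⟩ | ⟨hw, c', e'⟩) | ⟨hw, c', b', e'⟩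
        · left
          have hadj : G.Adj v w := by
            by_contra q
            apply hw3
            rw [col3_B h hv, col3_C h hw]
            exact iff_of_false q (by decide)
          exact hmat ⟨hw, hv, e'.2.2.1, e.2.2.2.1, hadj.symm⟩ e
        · exfalso
          apply hw3
          rw [col3_B h hv, col3_B h hw]
          exact iff_of_false (h.iB _ hv _ hw) (by decide)
        · exfalso
          apply hw3
          rw [col3_B h hv, col3_A hw]
          refine iff_of_true ?_ (by decide)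
          exact (tx_ab h hw hv (by rw [e'.2.2.1, e.2.2.2.1]; omega)).symm
      · -- v in A
        refine ⟨{c, c}, Finset.card_le_two, ?_⟩
        intro w hw1 hw2 hw3
        rw [Finset.mem_union, Finset.mem_union, Finset.mem_filter,
          Finset.mem_filter, Finset.mem_filter] at hw1
        rw [Finset.mem_insert, Finset.mem_singleton]
        rcases hw1 with (⟨hw, b', e'⟩ | ⟨hw, c', e'⟩) | ⟨hw, c', b', e'⟩
        · left
          have hadj : G.Adj v w := by
            by_contra q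
            apply hw3
            rw [col3_A hv, col3_C h hw]
            exact iff_of_false q (by decide)
          obtain ⟨a', t'⟩ := ex2_ctr h hd e'
          have := ex2_ctr_one h hd t' hv e.2.2.1 hadj
          subst this
          exact hdiff _ _ _ _ _ t' e
        · exfalso
          apply hw3
          rw [col3_A hv, col3_B h hw]
          refine iff_of_true ?_ (by decide)
          exact tx_ab h hv hw (by rw [e.2.2.1, e'.2.2.2.1]; omega)
        · exfalso
          apply hw3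
          rw [col3_A hv, col3_A hw]
          exact iff_of_false (h.iA _ hv _ hw) (by decide)

end TE2

end Pool.Agent.Helper856.Cw
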