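import Pool.Agent.Helper856.Pair.Defs
import Pool.Agent.Helper856.Pair.TFacts2
import Pool.Agent.Helper856.Pair.TFacts
import Pool.Agent.Helper856.Pair.TRho

open Classical SimpleGraph

namespace Pool.Agent.Helper856.Cw

open TFacts2 (tf_6 tf_6A tf_6B)
open TFacts (tf_eA tf_eB)
open TRho (tr_eq tr_c2)

namespace TLevel

variable {V : Type} {G : SimpleGraph V} {S T : Finset V} {k l : ℕ}

theorem tri_abc {A B C T : Finset V} (h : TT G A B C) (hT : T ⊆ A ∪ B ∪ C)
    (hno : ∀ a ∈ T, ∀ b ∈ T, ∀ c ∈ T, a ∈ A → b ∈ B → c ∈ C → G.Adj a b → G.Adj b c → G.Adj a c → False) :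
    TriT G T := by
  intro x hx y hy z hz hxy hyz hxz
  have hx' := hT hx
  have hy' := hT hy
  have hz' := hT hz
  simp only [Finset.mem_union] at hx' hy' hz'
  rcases hx' with (hxa | hxb) | hxc <;> rcases hy' with (hya | hyb) | hyc <;>
    rcases hz' with (hza | hzb) | hzc
  all_goals first
    | exact absurd hxy (h.iA _ hxa _ hya)
    | exact absurd hxy (h.iB _ hxb _ hyb)
    | exact absurd hxy (h.iC _ hxc _ hyc)
    | exact absurd hyz (h.iA _ hya _ hza)
    | exact absurd hyz (h.iB _ hyb _ hzb)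
    | exact absurd hyz (h.iC _ hyc _ hzc)
    | exact absurd hxz (h.iA _ hxa _ hza)
    | exact absurd hxz (h.iB _ hxb _ hzb)
    | exact absurd hxz (h.iC _ hxc _ hzc)
    | exact hno x hx y hy z hz hxa hyb hzc hxy hyz hxz
    | exact hno x hx z hz y hy hxa hzb hyc hxz hyz.symm hxy
    | exact hno y hy x hx z hz hya hxb hzc hxy.symm hxz hyz
    | exact hno y hy z hz x hx hya hzb hxc hyz hxz.symm hxy.symm
    | exact hno z hz x hx y hy hza hxb hyc hxz.symm hxy hyz.symm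
    | exact hno z hz y hy x hx hza hyb hxc hyz.symm hxy.symm hxz.symm

/-- TARGET -/
theorem tt_level {A B C : Finset V} (h : TT G A B C) (hd : NoDia G) (n : ℕ) :
    ∃ D : Finset V, D.card ≤ 2 ∧ TriT G (((A ∪ B ∪ C).filter (fun u => rho G A B C u = n)) \ D) := by
  set L := A.filter (fun u => rho G A B C u = n) with hL
  set R := B.filter (fun u => rho G A B C u = n) with hR
  have hsub : ∀ D : Finset V, ((A ∪ B ∪ C).filter (fun u => rho G A B C u = n)) \ D ⊆ A ∪ B ∪ C :=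
    fun D => Finset.sdiff_subset.trans (Finset.filter_subset _ _)
  have hLA : ∀ a ∈ L, a ∈ A := fun a ha => (Finset.mem_filter.1 ha).1
  have hRB : ∀ b ∈ R, b ∈ B := fun a ha => (Finset.mem_filter.1 ha).1
  have heq : ∀ u v, u ∈ A ∪ B → v ∈ A ∪ B → rho G A B C u = n → rho G A B C v = n →
      sx G B C u = sx G B C v := fun u v hu hv h1 h2 => (tr_eq h hu hv).1 (h1.trans h2.symm)
  have hAu : ∀ a ∈ A, a ∈ A ∪ B := fun a ha => Finset.mem_union_left _ ha
  have hBu : ∀ a ∈ B, a ∈ A ∪ B := fun a ha => Finset.mem_union_right _ ha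
  by_cases c1 : ∃ a ∈ L, ∃ a' ∈ L, SX G B C a ≠ SX G B C a'
  · obtain ⟨a, ha, a', ha', hne⟩ := c1
    have h1 := Finset.mem_filter.1 ha
    have h2 := Finset.mem_filter.1 ha'
    refine ⟨R, ?_, tri_abc h (hsub _) ?_⟩
    · refine (Finset.card_le_card ?_).trans
        (tf_6A h hd h1.1 h2.1 (heq _ _ (hAu _ h1.1) (hAu _ h2.1) h1.2 h2.2) hne)
      intro b hb
      have hb' := Finset.mem_filter.1 hb
      exact Finset.mem_filter.2 ⟨hb'.1, heq _ _ (hBu _ hb'.1) (hAu _ h1.1) hb'.2 h1.2⟩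
    · intro x _ b hb c _ _ hbB _ _ _ _
      have hb1 := Finset.mem_sdiff.1 hb
      exact hb1.2 (Finset.mem_filter.2 ⟨hbB, (Finset.mem_filter.1 hb1.1).2⟩)
  by_cases c2 : ∃ b ∈ R, ∃ b' ∈ R, SX G B C b ≠ SX G B C b'
  · obtain ⟨b, hb, b', hb', hne⟩ := c2
    have h1 := Finset.mem_filter.1 hb
    have h2 := Finset.mem_filter.1 hb'
    refine ⟨L, ?_, tri_abc h (hsub _) ?_⟩
    · refine (Finset.card_le_card ?_).trans
        (tf_6B h hd h1.1 h2.1 (heq _ _ (hBu _ h1.1) (hBu _ h2.1) h1.2 h2.2) hne)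
      intro a ha
      have ha' := Finset.mem_filter.1 ha
      exact Finset.mem_filter.2 ⟨ha'.1, heq _ _ (hAu _ ha'.1) (hBu _ h1.1) ha'.2 h1.2⟩
    · intro x hx b _ c _ hxA _ _ _ _ _
      have hx1 := Finset.mem_sdiff.1 hx
      exact hx1.2 (Finset.mem_filter.2 ⟨hxA, (Finset.mem_filter.1 hx1.1).2⟩)
  push Not at c1 c2
  by_cases c3 : ∃ a ∈ L, ∃ b ∈ R, SX G B C a ≠ SX G B C b
  · obtain ⟨a, ha, b, hb, hne⟩ := c3
    have h1 := Finset.mem_filter.1 ha
    have h2 := Finset.mem_filter.1 hb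
    have h6 := tf_6 h hd h1.1 h2.1 (heq _ _ (hAu _ h1.1) (hBu _ h2.1) h1.2 h2.2) hne
    refine ⟨L, ?_, tri_abc h (hsub _) ?_⟩
    · have : L ⊆ {a} := by
        intro a' ha'
        have h3 := Finset.mem_filter.1 ha'
        exact Finset.mem_singleton.2 (h6.1 a' h3.1 (c1 a' ha' a ha))
      exact (Finset.card_le_card this).trans (by simp)
    · intro x hx b _ c _ hxA _ _ _ _ _
      have hx1 := Finset.mem_sdiff.1 hx
      exact hx1.2 (Finset.mem_filter.2 ⟨hxA, (Finset.mem_filter.1 hx1.1).2⟩)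
  push Not at c3
  refine ⟨∅, by simp, tri_abc h (hsub _) ?_⟩
  intro a ha b hb c _ haA hbB hcC _ hbc hac
  simp only [Finset.sdiff_empty] at ha hb
  have haL : a ∈ L := Finset.mem_filter.2 ⟨haA, (Finset.mem_filter.1 ha).2⟩
  have hbR : b ∈ R := Finset.mem_filter.2 ⟨hbB, (Finset.mem_filter.1 hb).2⟩
  have hs := c3 a haL b hbR
  have haB : a ∉ B := fun hx => (Finset.disjoint_left.1 h.dAB haA) hx
  have m1 : c ∈ SX G B C a := Finset.mem_filter.2 ⟨hcC, Or.inr ⟨haB, hac⟩⟩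
  rw [hs] at m1
  rcases (Finset.mem_filter.1 m1).2 with h5 | h5
  · exact h5.2 hbc
  · exact h5.1 hbB

end TLevel

end Pool.Agent.Helper856.Cw
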