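import Pool.Agent.Helper856.Pair.Defs
import Pool.Agent.Helper856.Cw.Basic
import Pool.Agent.Helper856.Pair.TRho
import Pool.Agent.Helper856.Pair.Layered
import Pool.Agent.Helper856.Pair.TDisj
import Pool.Agent.Helper856.Pair.TLevel
import Pool.Agent.Helper856.Pair.TE1
import Pool.Agent.Helper856.Pair.TE2

open Classical SimpleGraph

namespace Pool.Agent.Helper856.Cw

open TRho (tr_lt tr_eq tx_ab tx_ba tx_ac tx_ca tx_bc tx_cb)
open Layered (layered)
open TDisj (tt_disj)
open TLevel (tt_level)
open TE1 (tt_e1)
open TE2 (tt_e2)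

namespace TMain

variable {V : Type} {G : SimpleGraph V} {S T : Finset V} {k l : ℕ}

theorem tt_f_empty : SLin 9 G (∅ : Finset V) := by
  refine ⟨fun _ => 0, by simp, fun t => ⟨fun _ => 0, ?_⟩⟩
  intro u hu
  exact absurd hu (Finset.notMem_empty u)

/-- TARGET -/
theorem tt_f {A B C : Finset V} (h : TT G A B C) (hd : NoDia G) (n : ℕ) : ∃ D M : Finset V, D.card ≤ 5 ∧
    Out G A B C n (fun u w => Ex1 G A B C n u w ∨ Ex2 G A B C n u w) D M := by
  rcases tt_e2 h hd n with ⟨D2, hD2, hE2⟩ | ⟨hcard, D2, M2, hD2, hO⟩
  · rcases tt_e1 h hd n with ⟨D1, hD1, hE1⟩ | ⟨D1, M1, hD1, hO⟩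
    · refine ⟨D1 ∪ D2, ∅, ?_, ?_, ?_, ?_, ?_, tt_f_empty⟩
      · have := Finset.card_union_le D1 D2
        omega
      · rintro u w (huw | huw)
        · rcases hE1 u w huw with h1 | h1
          · left; exact Finset.mem_union_left _ h1
          · right; left; exact Finset.mem_union_left _ h1
        · rcases hE2 u w huw with h1 | h1
          · left; exact Finset.mem_union_right _ h1
          · right; left; exact Finset.mem_union_right _ h1
      · exact Finset.empty_subset _
      · intro u hu; exact absurd hu (Finset.notMem_empty u)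
      · intro x _ _ _ u hu; exact absurd hu (Finset.notMem_empty u)
    · obtain ⟨o1, o2, o3, o4, o5⟩ := hO
      refine ⟨D1 ∪ D2, M1, ?_, ?_, o2, o3, ?_, o5⟩
      · have := Finset.card_union_le D1 D2
        omega
      · rintro u w (huw | huw)
        · rcases o1 u w huw with h1 | h1 | h1
          · left; exact Finset.mem_union_left _ h1
          · right; left; exact Finset.mem_union_left _ h1
          · right; right; exact h1
        · rcases hE2 u w huw with h1 | h1
          · left; exact Finset.mem_union_right _ h1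
          · right; left; exact Finset.mem_union_right _ h1
      · intro x hx hxM hxD
        exact o4 x hx hxM (fun h' => hxD (Finset.mem_union_left _ h'))
  · obtain ⟨o1, o2, o3, o4, o5⟩ := hO
    refine ⟨D2 ∪ A.filter (fun a => rho G A B C a = n + 1), M2, ?_, ?_, o2, o3, ?_, o5⟩
    · have := Finset.card_union_le D2 (A.filter (fun a => rho G A B C a = n + 1))
      omega
    · rintro u w (huw | huw)
      · right; left
        exact Finset.mem_union_right _ (Finset.mem_filter.2 ⟨huw.2.1, huw.2.2.2.1⟩)
      · rcases o1 u w huw with h1 | h1 | h1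
        · left; exact Finset.mem_union_left _ h1
        · right; left; exact Finset.mem_union_left _ h1
        · right; right; exact h1
    · intro x hx hxM hxD
      exact o4 x hx hxM (fun h' => hxD (Finset.mem_union_left _ h'))

/-- TARGET -/
theorem tt_main (k : ℕ) : ∃ c, ∀ (V : Type) (G : SimpleGraph V) (A B C : Finset V), TT G A B C →
    NoDia G → (∀ T ⊆ A ∪ B ∪ C, TriT G T → SLin k G T) → SLin c G (A ∪ B ∪ C) := by
  obtain ⟨c, hc⟩ := layered 5 (max (k + 2) 9)
  refine ⟨c, fun V G A B C h hd hyp => ?_⟩
  choose D M hD hO using fun n => tt_f h hd n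
  have hcA : ∀ u, u ∈ A → col3 A B u = 0 := fun u hu => by unfold col3; rw [if_pos hu]
  have hcB : ∀ u, u ∈ B → col3 A B u = 1 := fun u hu => by
    unfold col3
    rw [if_neg (fun h' => Finset.disjoint_left.1 h.dAB h' hu), if_pos hu]
  have hcC : ∀ u, u ∈ C → col3 A B u = 2 := fun u hu => by
    unfold col3
    rw [if_neg (fun h' => Finset.disjoint_left.1 h.dAC h' hu),
      if_neg (fun h' => Finset.disjoint_left.1 h.dBC h' hu)]
  have hmem : ∀ u, u ∈ A ∪ B ∪ C → u ∈ A ∨ u ∈ B ∨ u ∈ C := by
    intro u hu
    rw [Finset.mem_union, Finset.mem_union, or_assoc] at hu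
    exact hu
  refine hc V G (A ∪ B ∪ C) (col3 A B) (rho G A B C) (fun i j => j = i + 1) D M hD ?_ ?_ ?_ ?_ ?_ ?_
  · intro n u hu
    refine ⟨(hO n).2.1 hu, ?_⟩
    rcases (hO n).2.2.1 u hu with h1 | h1
    · exact Or.inl h1.1
    · exact Or.inr h1.1
  · intro n
    rw [Finset.disjoint_left]
    intro u hu hu'
    rcases (hO n).2.2.1 u hu with h1 | h1
    · rcases (hO (n + 1)).2.2.1 u hu' with h2 | h2
      · have := h1.1.symm.trans h2.1; omega
      · have := h1.1.symm.trans h2.1; omega
    · rcases (hO (n + 1)).2.2.1 u hu' with h2 | h2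
      · exact tt_disj h hd n h1.1 h1.2 h2.2
      · have := h1.1.symm.trans h2.1; omega
  · intro u hu w hw hlt
    rcases hmem u hu with hu | hu | hu <;> rcases hmem w hw with hw | hw | hw
    · left
      rw [hcA u hu, hcA w hw]
      exact iff_of_false (h.iA u hu w hw) (by decide)
    · left
      rw [hcA u hu, hcB w hw]
      exact iff_of_true (tx_ab h hu hw hlt) (by decide)
    · left
      rw [hcA u hu, hcC w hw]
      exact iff_of_false (tx_ac h hu hw hlt) (by decide)
    · by_cases hadj : G.Adj u w
      · right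
        have h1 := (tx_ba h hd hw hu hlt hadj.symm).2
        exact ⟨h1, (hO _).1 u w (Or.inl ⟨hu, hw, rfl, h1, hadj⟩)⟩
      · left
        rw [hcB u hu, hcA w hw]
        exact iff_of_false hadj (by decide)
    · left
      rw [hcB u hu, hcB w hw]
      exact iff_of_false (h.iB u hu w hw) (by decide)
    · left
      rw [hcB u hu, hcC w hw]
      exact iff_of_true (tx_bc h hu hw hlt) (by decide)
    · left
      rw [hcC u hu, hcA w hw]
      exact iff_of_true (tx_ca h hd hw hu hlt).symm (by decide)
    · by_cases hadj : G.Adj u w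
      · right
        have h1 := (tx_cb h hd hw hu hlt hadj).1
        exact ⟨h1, (hO _).1 u w (Or.inr ⟨hu, hw, rfl, h1, hadj⟩)⟩
      · left
        rw [hcC u hu, hcB w hw]
        exact iff_of_false hadj (by decide)
    · left
      rw [hcC u hu, hcC w hw]
      exact iff_of_false (h.iC u hu w hw) (by decide)
  · intro n
    exact (hO n).2.2.2.1
  · intro n
    exact (hO n).2.2.2.2.mono_k (le_max_right _ _)
  · intro n
    obtain ⟨E, hE, hT⟩ := tt_level h hd n
    have h1 : SLin k G (((A ∪ B ∪ C).filter (fun u => rho G A B C u = n)) \ E) :=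
      hyp _ (Finset.sdiff_subset.trans (Finset.filter_subset _ _)) hT
    have h2 := SLin.add E h1
    exact h2.mono_k ((Nat.add_le_add_left hE k).trans (le_max_left _ _))

end TMain

end Pool.Agent.Helper856.Cw
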