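import Pool.Agent.Helper856.Pair.Defs
import Pool.Agent.Helper856.Cw.Basic
import Pool.Agent.Helper856.Pair.TSym
import Pool.Agent.Helper856.Pair.SPieces
import Pool.Agent.Helper856.Pair.TMain

open Classical SimpleGraph

namespace Pool.Agent.Helper856.Cw

open TSym (tt_mono qm_pair)
open SPieces (pieces slin_join)
open TMain (tt_main)

namespace WRed

variable {V : Type} {G : SimpleGraph V} {S T : Finset V} {k l : ℕ}

/-- the hypotheses of `w_red` -/
structure w_red_H (G : SimpleGraph V) (A B C W : Finset V) : Prop where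
  tt : TT G A B C
  nd : NoDia G
  iW : Ind G W
  dAW : Disjoint A W
  dBW : Disjoint B W
  dCW : Disjoint C W
  cw : ∀ c ∈ C, ∀ w ∈ W, G.Adj c w
  a1 : ∀ w ∈ W, ∀ a ∈ A, ∀ a' ∈ A, G.Adj w a → G.Adj w a' → a = a'
  a2 : ∀ w ∈ W, ∀ w' ∈ W, ∀ a ∈ A, G.Adj w a → G.Adj w' a → w = w'
  b1 : ∀ w ∈ W, ∀ b ∈ B, ∀ b' ∈ B, G.Adj w b → G.Adj w b' → b = b'
  b2 : ∀ w ∈ W, ∀ w' ∈ W, ∀ b ∈ B, G.Adj w b → G.Adj w' b → w = w'
  m1 : ∀ a ∈ A, ∀ b ∈ B, ∀ w ∈ W, G.Adj a w → G.Adj a b ∨ G.Adj b w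
  m2 : ∀ a ∈ A, ∀ b ∈ B, ∀ w ∈ W, G.Adj b w → G.Adj a b ∨ G.Adj a w

theorem w_red_H.symm {A B C W : Finset V} (H : w_red_H G A B C W) : w_red_H G B A C W where
  tt := ⟨H.tt.dAB.symm, H.tt.dBC, H.tt.dAC, H.tt.iB, H.tt.iA, H.tt.iC, fun b hb a ha c hc => by
      rcases H.tt.nit a ha b hb c hc with h | h | h
      · exact Or.inl h.symm
      · exact Or.inr (Or.inr h)
      · exact Or.inr (Or.inl h), by rw [Finset.union_comm]; exact H.tt.pAB, H.tt.pAC, H.tt.pBC⟩
  nd := H.nd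
  iW := H.iW
  dAW := H.dBW
  dBW := H.dAW
  dCW := H.dCW
  cw := H.cw
  a1 := H.b1
  a2 := H.b2
  b1 := H.a1
  b2 := H.a2
  m1 := fun b hb a ha w hw h => (H.m2 a ha b hb w hw h).imp (fun h => h.symm) id
  m2 := fun b hb a ha w hw h => (H.m1 a ha b hb w hw h).imp (fun h => h.symm) id

/-- elements of `A` with a neighbour in `W` -/
noncomputable def w_red_N (G : SimpleGraph V) (A W : Finset V) : Finset V :=
  A.filter (fun a => ∃ w ∈ W, G.Adj a w)

theorem w_red_mem {A W : Finset V} {v : V} : v ∈ w_red_N G A W ↔ v ∈ A ∧ ∃ w ∈ W, G.Adj v w := by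
  unfold w_red_N
  rw [Finset.mem_filter]

theorem w_red_two {S : Finset V} (P : V → Prop) {inst : DecidablePred P} (P1 P2 : V → Prop)
    (h : ∀ w ∈ S, P w → P1 w ∨ P2 w) (u1 : ∀ w w', P1 w → P1 w' → w = w')
    (u2 : ∀ w w', P2 w → P2 w' → w = w') : (S.filter P).card ≤ 2 := by
  have h1 : S.filter P ⊆ S.filter P1 ∪ S.filter P2 := by
    intro w hw
    rw [Finset.mem_filter] at hw
    rw [Finset.mem_union, Finset.mem_filter, Finset.mem_filter]
    exact (h w hw.1 hw.2).imp (fun h => ⟨hw.1, h⟩) (fun h => ⟨hw.1, h⟩)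
  have h2 : (S.filter P1).card ≤ 1 := by
    rw [Finset.card_le_one]
    intro a ha b hb
    rw [Finset.mem_filter] at ha hb
    exact u1 a b ha.2 hb.2
  have h3 : (S.filter P2).card ≤ 1 := by
    rw [Finset.card_le_one]
    intro a ha b hb
    rw [Finset.mem_filter] at ha hb
    exact u2 a b ha.2 hb.2
  calc (S.filter P).card ≤ (S.filter P1 ∪ S.filter P2).card := Finset.card_le_card h1
    _ ≤ (S.filter P1).card + (S.filter P2).card := Finset.card_union_le _ _
    _ ≤ 2 := by omega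

theorem w_red_join {ι : Type} [Fintype ι] {X Y : Finset V} (hd : Disjoint X Y) (τ : V → ι)
    (Q : ι → ι → Prop) (h : ∀ x ∈ X, ∀ y ∈ Y, (G.Adj x y ↔ Q (τ x) (τ y)))
    (hX : SLin k G X) (hY : SLin l G Y) :
    SLin (Fintype.card ι * 2 * (k + l + 1)) G (X ∪ Y) := by
  refine slin_join hd (fun v => Fintype.equivFin ι (τ v))
    (fun i j => Q ((Fintype.equivFin ι).symm i) ((Fintype.equivFin ι).symm j)) ?_ hX hY
  intro x hx y hy
  rw [Equiv.symm_apply_apply, Equiv.symm_apply_apply]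
  exact h x hx y hy

theorem w_red_dj {A B : Finset V} (h : Disjoint A B) {x : V} (hA : x ∈ A) (hB : x ∈ B) : False :=
  Finset.disjoint_left.1 h hA hB

/-- small `C` -/
theorem w_red_case1 {A B C W : Finset V} (H : w_red_H G A B C W)
    (hk : ∀ T ⊆ A ∪ B ∪ C ∪ W, TriT G T → SLin k G T) :
    SLin (3 * 2 * (9 + k + 1)) G (A ∪ B ∪ W) := by
  obtain ⟨τ, hτA, hτB, hτW⟩ : ∃ τ : V → Fin 3, (∀ v ∈ A, τ v = 0) ∧ (∀ v ∈ B, τ v = 1) ∧
      (∀ v ∈ W, τ v = 2) := by
    refine ⟨fun v => if v ∈ A then 0 else if v ∈ B then 1 else 2, ?_, ?_, ?_⟩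
    · intro v hv
      exact if_pos hv
    · intro v hv
      have h1 : v ∉ A := fun h => w_red_dj H.tt.dAB h hv
      show (if v ∈ A then (0 : Fin 3) else if v ∈ B then 1 else 2) = 1
      rw [if_neg h1, if_pos hv]
    · intro v hv
      have h1 : v ∉ A := fun h => w_red_dj H.dAW h hv
      have h2 : v ∉ B := fun h => w_red_dj H.dBW h hv
      show (if v ∈ A then (0 : Fin 3) else if v ∈ B then 1 else 2) = 2
      rw [if_neg h1, if_neg h2]
  have hY : SLin k G ((A \ w_red_N G A W) ∪ (B \ w_red_N G B W)) := by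
    refine hk _ ?_ ?_
    · intro x hx
      simp only [Finset.mem_union, Finset.mem_sdiff] at hx ⊢
      tauto
    · intro x hx y hy z hz hxy hyz hxz
      simp only [Finset.mem_union, Finset.mem_sdiff] at hx hy hz
      rcases hx with hx | hx <;> rcases hy with hy | hy <;> rcases hz with hz | hz
      · exact H.tt.iA x hx.1 y hy.1 hxy
      · exact H.tt.iA x hx.1 y hy.1 hxy
      · exact H.tt.iA x hx.1 z hz.1 hxz
      · exact H.tt.iB y hy.1 z hz.1 hyz
      · exact H.tt.iA y hy.1 z hz.1 hyz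
      · exact H.tt.iB x hx.1 z hz.1 hxz
      · exact H.tt.iB x hx.1 y hy.1 hxy
      · exact H.tt.iB x hx.1 y hy.1 hxy
  have hX : SLin (3 * 3) G (W ∪ w_red_N G A W ∪ w_red_N G B W) := by
    refine pieces τ (fun i j => (i = 0 ∧ j = 1) ∨ (i = 1 ∧ j = 0)) ?_ ?_
    · intro i j hij
      tauto
    · intro v hv
      have key : ∀ x ∈ W ∪ w_red_N G A W ∪ w_red_N G B W, x ∈ W ∨ x ∈ A ∨ x ∈ B := by
        intro x hx
        simp only [Finset.mem_union, w_red_mem] at hx
        rcases hx with (hx | hx) | hx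
        · exact Or.inl hx
        · exact Or.inr (Or.inl hx.1)
        · exact Or.inr (Or.inr hx.1)
      simp only [Finset.mem_union, w_red_mem] at hv
      rcases hv with (hv | ⟨hv, w0, hw0, hvw⟩) | ⟨hv, w0, hw0, hvw⟩
      · refine w_red_two _ (fun x => x ∈ A ∧ G.Adj v x) (fun x => x ∈ B ∧ G.Adj v x) ?_ ?_ ?_
        · rintro x hx ⟨hne, hQ⟩
          rw [hτW v hv] at hQ
          rcases key x hx with h | h | h
          · rw [hτW x h] at hQ
            exact absurd ⟨fun h' => absurd h' (H.iW v hv x h), fun h' => by simp at h'⟩ hQ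
          · rw [hτA x h] at hQ
            left
            refine ⟨h, ?_⟩
            by_contra hn
            exact hQ ⟨fun h' => absurd h' hn, fun h' => by simp at h'⟩
          · rw [hτB x h] at hQ
            right
            refine ⟨h, ?_⟩
            by_contra hn
            exact hQ ⟨fun h' => absurd h' hn, fun h' => by simp at h'⟩
        · intro x x' h h'
          exact H.a1 v hv x h.1 x' h'.1 h.2 h'.2
        · intro x x' h h'
          exact H.b1 v hv x h.1 x' h'.1 h.2 h'.2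
      · refine w_red_two _ (fun x => x ∈ B ∧ G.Adj w0 x) (fun x => x ∈ W ∧ G.Adj x v) ?_ ?_ ?_
        · rintro x hx ⟨hne, hQ⟩
          rw [hτA v hv] at hQ
          rcases key x hx with h | h | h
          · rw [hτW x h] at hQ
            right
            refine ⟨h, ?_⟩
            by_contra hn
            exact hQ ⟨fun h' => absurd h'.symm hn, fun h' => by simp at h'⟩
          · rw [hτA x h] at hQ
            exact absurd ⟨fun h' => absurd h' (H.tt.iA v hv x h), fun h' => by simp at h'⟩ hQ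
          · rw [hτB x h] at hQ
            left
            refine ⟨h, ?_⟩
            rcases H.m1 v hv x h w0 hw0 hvw with h1 | h1
            · exact absurd ⟨fun _ => Or.inl ⟨rfl, rfl⟩, fun _ => h1⟩ hQ
            · exact h1.symm
        · intro x x' h h'
          exact H.b1 w0 hw0 x h.1 x' h'.1 h.2 h'.2
        · intro x x' h h'
          exact H.a2 x h.1 x' h'.1 v hv h.2 h'.2
      · refine w_red_two _ (fun x => x ∈ A ∧ G.Adj w0 x) (fun x => x ∈ W ∧ G.Adj x v) ?_ ?_ ?_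
        · rintro x hx ⟨hne, hQ⟩
          rw [hτB v hv] at hQ
          rcases key x hx with h | h | h
          · rw [hτW x h] at hQ
            right
            refine ⟨h, ?_⟩
            by_contra hn
            exact hQ ⟨fun h' => absurd h'.symm hn, fun h' => by simp at h'⟩
          · rw [hτA x h] at hQ
            left
            refine ⟨h, ?_⟩
            rcases H.m2 x h v hv w0 hw0 hvw with h1 | h1
            · exact absurd ⟨fun _ => Or.inr ⟨rfl, rfl⟩, fun _ => h1.symm⟩ hQ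
            · exact h1.symm
          · rw [hτB x h] at hQ
            exact absurd ⟨fun h' => absurd h' (H.tt.iB v hv x h), fun h' => by simp at h'⟩ hQ
        · intro x x' h h'
          exact H.a1 w0 hw0 x h.1 x' h'.1 h.2 h'.2
        · intro x x' h h'
          exact H.b2 x h.1 x' h'.1 v hv h.2 h'.2
  have hd : Disjoint (W ∪ w_red_N G A W ∪ w_red_N G B W)
      ((A \ w_red_N G A W) ∪ (B \ w_red_N G B W)) := by
    rw [Finset.disjoint_left]
    intro x hx hy
    simp only [Finset.mem_union, Finset.mem_sdiff] at hx hy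
    rcases hx with (hx | hx) | hx
    · rcases hy with hy | hy
      · exact w_red_dj H.dAW hy.1 hx
      · exact w_red_dj H.dBW hy.1 hx
    · rcases hy with hy | hy
      · exact hy.2 hx
      · exact w_red_dj H.tt.dAB (w_red_mem.1 hx).1 hy.1
    · rcases hy with hy | hy
      · exact w_red_dj H.tt.dAB hy.1 (w_red_mem.1 hx).1
      · exact hy.2 hx
  have hj := slin_join hd τ (fun i j => (i = 0 ∧ j = 1) ∨ (i = 1 ∧ j = 0)) ?_ hX hY
  · refine SLin.subset hj ?_
    intro x hx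
    simp only [Finset.mem_union, Finset.mem_sdiff] at hx ⊢
    rcases hx with (hx | hx) | hx
    · by_cases hN : x ∈ w_red_N G A W
      · exact Or.inl (Or.inl (Or.inr hN))
      · exact Or.inr (Or.inl ⟨hx, hN⟩)
    · by_cases hN : x ∈ w_red_N G B W
      · exact Or.inl (Or.inr hN)
      · exact Or.inr (Or.inr ⟨hx, hN⟩)
    · exact Or.inl (Or.inl (Or.inl hx))
  · intro x hx y hy
    simp only [Finset.mem_union, Finset.mem_sdiff, w_red_mem] at hx hy
    rcases hx with (hx | ⟨hx, w0, hw0, hxw⟩) | ⟨hx, w0, hw0, hxw⟩ <;>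
      rcases hy with ⟨hy, hyn⟩ | ⟨hy, hyn⟩
    · rw [hτW x hx, hτA y hy]
      exact ⟨fun h => absurd ⟨hy, x, hx, h.symm⟩ hyn, fun h => by simp at h⟩
    · rw [hτW x hx, hτB y hy]
      exact ⟨fun h => absurd ⟨hy, x, hx, h.symm⟩ hyn, fun h => by simp at h⟩
    · rw [hτA x hx, hτA y hy]
      exact ⟨fun h => absurd h (H.tt.iA x hx y hy), fun h => by simp at h⟩
    · rw [hτA x hx, hτB y hy]
      refine ⟨fun _ => Or.inl ⟨rfl, rfl⟩, fun _ => ?_⟩
      rcases H.m1 x hx y hy w0 hw0 hxw with h1 | h1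
      · exact h1
      · exact absurd ⟨hy, w0, hw0, h1⟩ hyn
    · rw [hτB x hx, hτA y hy]
      refine ⟨fun _ => Or.inr ⟨rfl, rfl⟩, fun _ => ?_⟩
      rcases H.m2 y hy x hx w0 hw0 hxw with h1 | h1
      · exact h1.symm
      · exact absurd ⟨hy, w0, hw0, h1⟩ hyn
    · rw [hτB x hx, hτB y hy]
      exact ⟨fun h => absurd h (H.tt.iB x hx y hy), fun h => by simp at h⟩

/-- (i) -/
theorem w_red_i {A B C W : Finset V} (H : w_red_H G A B C W) {a w c c' : V} (hw : w ∈ W)
    (hc : c ∈ C) (hc' : c' ∈ C) (h1 : G.Adj a w) (h2 : G.Adj a c) (h3 : G.Adj a c') : c = c' := by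
  by_contra hne
  exact H.tt.iC c hc c' hc' (H.nd a w c c' h1 h2 (H.cw c hc w hw).symm h3
    (H.cw c' hc' w hw).symm hne)

/-- (ii) -/
theorem w_red_ii {A B C W : Finset V} (H : w_red_H G A B C W) (h3 : 3 ≤ C.card) {a b w : V}
    (ha : a ∈ A) (hb : b ∈ B) (hw : w ∈ W) (h1 : G.Adj a w) : G.Adj a b := by
  rcases H.m1 a ha b hb w hw h1 with h | h
  · exact h
  · by_contra hn
    have h4 : (C.filter (fun _ => True)).card ≤ 2 := by
      refine w_red_two _ (fun c => c ∈ C ∧ G.Adj a c) (fun c => c ∈ C ∧ G.Adj b c) ?_ ?_ ?_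
      · intro c hc _
        rcases H.tt.nit a ha b hb c hc with h5 | h5 | h5
        · exact absurd h5 hn
        · exact Or.inr ⟨hc, h5⟩
        · exact Or.inl ⟨hc, h5⟩
      · intro c c' hc hc'
        exact w_red_i H hw hc.1 hc'.1 h1 hc.2 hc'.2
      · intro c c' hc hc'
        exact w_red_i H hw hc.1 hc'.1 h hc.2 hc'.2
    rw [Finset.filter_true] at h4
    omega

/-- (iii) -/
theorem w_red_iii {A B C W : Finset V} (H : w_red_H G A B C W) :
    ∃ F ⊆ C, F.card ≤ 1 ∧ ∀ c ∈ C, c ∉ F → ∀ a ∈ w_red_N G A W, ∀ a' ∈ w_red_N G A W,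
      G.Adj a c → G.Adj a' c → a = a' := by
  by_cases h : ∃ c0 ∈ C, ∃ a ∈ w_red_N G A W, ∃ a' ∈ w_red_N G A W, a ≠ a' ∧ G.Adj a c0 ∧
      G.Adj a' c0
  · obtain ⟨c0, hc0, a, ha, a', ha', hne, h1, h2⟩ := h
    refine ⟨{c0}, Finset.singleton_subset_iff.2 hc0, by rw [Finset.card_singleton], ?_⟩
    intro c hc hcn b hb b' _ h3 _
    exfalso
    rw [Finset.mem_singleton] at hcn
    obtain ⟨haA, w, hw, haw⟩ := w_red_mem.1 ha
    obtain ⟨ha'A, w', hw', ha'w⟩ := w_red_mem.1 ha'
    obtain ⟨hbA, w'', hw'', hbw⟩ := w_red_mem.1 hb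
    refine H.tt.pAC b (Finset.mem_union_left _ hbA) c (Finset.mem_union_right _ hc)
      a (Finset.mem_union_left _ haA) c0 (Finset.mem_union_right _ hc0)
      a' (Finset.mem_union_left _ ha'A) h3 h1 h2.symm hne ?_ ?_ ?_ ?_ ?_ ?_ ?_
    · exact H.tt.iA a haA a' ha'A
    · exact H.tt.iA b hbA a haA
    · intro h4
      exact hcn (w_red_i H hw'' hc hc0 hbw h3 h4)
    · exact H.tt.iA b hbA a' ha'A
    · intro h4
      exact hcn (w_red_i H hw hc hc0 haw h4.symm h1)
    · exact H.tt.iC c hc c0 hc0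
    · intro h4
      exact hcn (w_red_i H hw' hc hc0 ha'w h4.symm h2)
  · push Not at h
    refine ⟨∅, Finset.empty_subset _, by rw [Finset.card_empty]; omega, ?_⟩
    intro c hc _ a ha a' ha' h1 h2
    by_contra hne
    exact h c hc a ha a' ha' hne h1 h2

/-- (iv) -/
theorem w_red_iv {A B C W : Finset V} (H : w_red_H G A B C W) (h3 : 3 ≤ C.card) {a b c w : V}
    (ha : a ∈ A) (hb : b ∈ B) (hc : c ∈ C) (hw : w ∈ W) (h1 : G.Adj a w) (h2 : G.Adj a c)
    (h4 : G.Adj b c) : G.Adj b w := by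
  have hab := w_red_ii H h3 ha hb hw h1
  have hne : b ≠ w := by
    rintro rfl
    exact w_red_dj H.dBW hb hw
  exact H.nd a c b w h2 hab h4.symm h1 (H.cw c hc w hw) hne

/-- (v) -/
theorem w_red_v {A B C W : Finset V} (H : w_red_H G A B C W) {z a1 a2 c1 c2 : V}
    (hz : z ∈ A) (hzn : z ∉ w_red_N G A W) (ha1 : a1 ∈ w_red_N G A W) (ha2 : a2 ∈ w_red_N G A W)
    (hc1 : c1 ∈ C) (hc2 : c2 ∈ C) (h1 : G.Adj a1 c1) (h2 : G.Adj a2 c2) :
    G.Adj z c1 ↔ G.Adj z c2 := by
  by_cases hc : c1 = c2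
  · rw [hc]
  · obtain ⟨h3, w, hw, h5⟩ := w_red_mem.1 ha1
    obtain ⟨h4, w', hw', h6⟩ := w_red_mem.1 ha2
    refine qm_pair H.tt.iA H.tt.iC H.tt.pAC h3 h4 hc1 hc2 hz ?_ ?_ h1 h2 ?_ ?_
    · rintro rfl
      exact hzn ha1
    · rintro rfl
      exact hzn ha2
    · intro h
      exact hc (w_red_i H hw hc1 hc2 h5 h1 h)
    · intro h
      exact hc (w_red_i H hw' hc1 hc2 h6 h h2)

/-- large `C` -/
theorem w_red_case2 {A B C W : Finset V} (H : w_red_H G A B C W) (h3 : 3 ≤ C.card)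
    (hY : ∀ A' ⊆ A, ∀ B' ⊆ B, ∀ C' ⊆ C, SLin l G (A' ∪ B' ∪ C')) :
    SLin (Fintype.card (Fin 4 × Prop × Prop) * 2 * (4 * 3 + l + 1) + 2) G (A ∪ B ∪ C ∪ W) := by
  obtain ⟨FA, hFA, hFA1, hmA⟩ := w_red_iii H
  obtain ⟨FB, hFB, hFB1, hmB⟩ := w_red_iii H.symm
  -- kinds
  obtain ⟨κ, hκA, hκB, hκC, hκW⟩ : ∃ κ : V → Fin 4, (∀ v ∈ A, κ v = 0) ∧ (∀ v ∈ B, κ v = 1) ∧
      (∀ v ∈ C, κ v = 2) ∧ (∀ v ∈ W, κ v = 3) := by
    refine ⟨fun v => if v ∈ A then 0 else if v ∈ B then 1 else if v ∈ C then 2 else 3,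
      ?_, ?_, ?_, ?_⟩
    · intro v hv
      exact if_pos hv
    · intro v hv
      have h1 : v ∉ A := fun h => w_red_dj H.tt.dAB h hv
      show (if v ∈ A then (0 : Fin 4) else if v ∈ B then 1 else if v ∈ C then 2 else 3) = 1
      rw [if_neg h1, if_pos hv]
    · intro v hv
      have h1 : v ∉ A := fun h => w_red_dj H.tt.dAC h hv
      have h2 : v ∉ B := fun h => w_red_dj H.tt.dBC h hv
      show (if v ∈ A then (0 : Fin 4) else if v ∈ B then 1 else if v ∈ C then 2 else 3) = 2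
      rw [if_neg h1, if_neg h2, if_pos hv]
    · intro v hv
      have h1 : v ∉ A := fun h => w_red_dj H.dAW h hv
      have h2 : v ∉ B := fun h => w_red_dj H.dBW h hv
      have h4 : v ∉ C := fun h => w_red_dj H.dCW h hv
      show (if v ∈ A then (0 : Fin 4) else if v ∈ B then 1 else if v ∈ C then 2 else 3) = 3
      rw [if_neg h1, if_neg h2, if_neg h4]
  -- the sets `CA`, `CB`
  obtain ⟨CA, hCA⟩ : ∃ CA : Finset V, ∀ c, c ∈ CA ↔ c ∈ C ∧ c ∉ FA ∧ c ∉ FB ∧
      ∃ a ∈ w_red_N G A W, G.Adj a c :=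
    ⟨C.filter (fun c => c ∉ FA ∧ c ∉ FB ∧ ∃ a ∈ w_red_N G A W, G.Adj a c), fun c => by
      rw [Finset.mem_filter]⟩
  obtain ⟨CB, hCB⟩ : ∃ CB : Finset V, ∀ c, c ∈ CB ↔ c ∈ C ∧ c ∉ FA ∧ c ∉ FB ∧
      ∃ b ∈ w_red_N G B W, G.Adj b c :=
    ⟨C.filter (fun c => c ∉ FA ∧ c ∉ FB ∧ ∃ b ∈ w_red_N G B W, G.Adj b c), fun c => by
      rw [Finset.mem_filter]⟩
  have hYS : SLin l G ((A \ w_red_N G A W) ∪ (B \ w_red_N G B W) ∪
      (C \ (FA ∪ FB ∪ CA ∪ CB))) :=
    hY _ Finset.sdiff_subset _ Finset.sdiff_subset _ Finset.sdiff_subset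
  have hXS : SLin (4 * 3) G (W ∪ w_red_N G A W ∪ w_red_N G B W ∪ CA ∪ CB) := by
    refine pieces κ (fun i j => (i = 0 ∧ j = 1) ∨ (i = 1 ∧ j = 0) ∨ (i = 2 ∧ j = 3) ∨
      (i = 3 ∧ j = 2)) ?_ ?_
    · intro i j hij
      tauto
    · intro v hv
      have key : ∀ x ∈ W ∪ w_red_N G A W ∪ w_red_N G B W ∪ CA ∪ CB, x ∈ W ∨
          x ∈ w_red_N G A W ∨ x ∈ w_red_N G B W ∨ (x ∈ C ∧ x ∉ FA ∧ x ∉ FB) := by
        intro x hx
        simp only [Finset.mem_union] at hx
        rcases hx with (((hx | hx) | hx) | hx) | hx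
        · exact Or.inl hx
        · exact Or.inr (Or.inl hx)
        · exact Or.inr (Or.inr (Or.inl hx))
        · have h := (hCA x).1 hx
          exact Or.inr (Or.inr (Or.inr ⟨h.1, h.2.1, h.2.2.1⟩))
        · have h := (hCB x).1 hx
          exact Or.inr (Or.inr (Or.inr ⟨h.1, h.2.1, h.2.2.1⟩))
      rcases key v hv with hv | hv | hv | hv
      · refine w_red_two _ (fun x => x ∈ A ∧ G.Adj v x) (fun x => x ∈ B ∧ G.Adj v x) ?_ ?_ ?_
        · rintro x hx ⟨hne, hQ⟩
          rw [hκW v hv] at hQ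
          rcases key x hx with h | h | h | h
          · rw [hκW x h] at hQ
            exact absurd ⟨fun h' => absurd h' (H.iW v hv x h), fun h' => by simp at h'⟩ hQ
          · have hA := (w_red_mem.1 h).1
            rw [hκA x hA] at hQ
            left
            refine ⟨hA, ?_⟩
            by_contra hn
            exact hQ ⟨fun h' => absurd h' hn, fun h' => by simp at h'⟩
          · have hB := (w_red_mem.1 h).1
            rw [hκB x hB] at hQ
            right
            refine ⟨hB, ?_⟩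
            by_contra hn
            exact hQ ⟨fun h' => absurd h' hn, fun h' => by simp at h'⟩
          · rw [hκC x h.1] at hQ
            exact absurd ⟨fun _ => Or.inr (Or.inr (Or.inr ⟨rfl, rfl⟩)),
              fun _ => (H.cw x h.1 v hv).symm⟩ hQ
        · intro x x' h h'
          exact H.a1 v hv x h.1 x' h'.1 h.2 h'.2
        · intro x x' h h'
          exact H.b1 v hv x h.1 x' h'.1 h.2 h'.2
      · obtain ⟨hA, w0, hw0, hvw⟩ := w_red_mem.1 hv
        refine w_red_two _ (fun x => x ∈ C ∧ G.Adj v x) (fun x => x ∈ W ∧ G.Adj x v) ?_ ?_ ?_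
        · rintro x hx ⟨hne, hQ⟩
          rw [hκA v hA] at hQ
          rcases key x hx with h | h | h | h
          · rw [hκW x h] at hQ
            right
            refine ⟨h, ?_⟩
            by_contra hn
            exact hQ ⟨fun h' => absurd h'.symm hn, fun h' => by simp at h'⟩
          · have hA' := (w_red_mem.1 h).1
            rw [hκA x hA'] at hQ
            exact absurd ⟨fun h' => absurd h' (H.tt.iA v hA x hA'), fun h' => by simp at h'⟩ hQ
          · have hB := (w_red_mem.1 h).1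
            rw [hκB x hB] at hQ
            exact absurd ⟨fun _ => Or.inl ⟨rfl, rfl⟩,
              fun _ => w_red_ii H h3 hA hB hw0 hvw⟩ hQ
          · rw [hκC x h.1] at hQ
            left
            refine ⟨h.1, ?_⟩
            by_contra hn
            exact hQ ⟨fun h' => absurd h' hn, fun h' => by simp at h'⟩
        · intro x x' h h'
          exact w_red_i H hw0 h.1 h'.1 hvw h.2 h'.2
        · intro x x' h h'
          exact H.a2 x h.1 x' h'.1 v hA h.2 h'.2
      · obtain ⟨hB, w0, hw0, hvw⟩ := w_red_mem.1 hv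
        refine w_red_two _ (fun x => x ∈ C ∧ G.Adj v x) (fun x => x ∈ W ∧ G.Adj x v) ?_ ?_ ?_
        · rintro x hx ⟨hne, hQ⟩
          rw [hκB v hB] at hQ
          rcases key x hx with h | h | h | h
          · rw [hκW x h] at hQ
            right
            refine ⟨h, ?_⟩
            by_contra hn
            exact hQ ⟨fun h' => absurd h'.symm hn, fun h' => by simp at h'⟩
          · have hA' := (w_red_mem.1 h).1
            rw [hκA x hA'] at hQ
            exact absurd ⟨fun _ => Or.inr (Or.inl ⟨rfl, rfl⟩),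
              fun _ => w_red_ii H.symm h3 hB hA' hw0 hvw⟩ hQ
          · have hB' := (w_red_mem.1 h).1
            rw [hκB x hB'] at hQ
            exact absurd ⟨fun h' => absurd h' (H.tt.iB v hB x hB'), fun h' => by simp at h'⟩ hQ
          · rw [hκC x h.1] at hQ
            left
            refine ⟨h.1, ?_⟩
            by_contra hn
            exact hQ ⟨fun h' => absurd h' hn, fun h' => by simp at h'⟩
        · intro x x' h h'
          exact w_red_i H hw0 h.1 h'.1 hvw h.2 h'.2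
        · intro x x' h h'
          exact H.b2 x h.1 x' h'.1 v hB h.2 h'.2
      · refine w_red_two _ (fun x => x ∈ w_red_N G A W ∧ G.Adj x v)
          (fun x => x ∈ w_red_N G B W ∧ G.Adj x v) ?_ ?_ ?_
        · rintro x hx ⟨hne, hQ⟩
          rw [hκC v hv.1] at hQ
          rcases key x hx with h | h | h | h
          · rw [hκW x h] at hQ
            exact absurd ⟨fun _ => Or.inr (Or.inr (Or.inl ⟨rfl, rfl⟩)),
              fun _ => H.cw v hv.1 x h⟩ hQ
          · have hA' := (w_red_mem.1 h).1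
            rw [hκA x hA'] at hQ
            left
            refine ⟨h, ?_⟩
            by_contra hn
            exact hQ ⟨fun h' => absurd h'.symm hn, fun h' => by simp at h'⟩
          · have hB' := (w_red_mem.1 h).1
            rw [hκB x hB'] at hQ
            right
            refine ⟨h, ?_⟩
            by_contra hn
            exact hQ ⟨fun h' => absurd h'.symm hn, fun h' => by simp at h'⟩
          · rw [hκC x h.1] at hQ
            exact absurd ⟨fun h' => absurd h' (H.tt.iC v hv.1 x h.1), fun h' => by simp at h'⟩ hQ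
        · intro x x' h h'
          exact hmA v hv.1 hv.2.1 x h.1 x' h'.1 h.2 h'.2
        · intro x x' h h'
          exact hmB v hv.1 hv.2.2 x h.1 x' h'.1 h.2 h'.2
  have hd : Disjoint (W ∪ w_red_N G A W ∪ w_red_N G B W ∪ CA ∪ CB)
      ((A \ w_red_N G A W) ∪ (B \ w_red_N G B W) ∪ (C \ (FA ∪ FB ∪ CA ∪ CB))) := by
    rw [Finset.disjoint_left]
    intro x hx hy
    simp only [Finset.mem_union, Finset.mem_sdiff] at hx hy
    rcases hx with (((hx | hx) | hx) | hx) | hx
    · rcases hy with (hy | hy) | hy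
      · exact w_red_dj H.dAW hy.1 hx
      · exact w_red_dj H.dBW hy.1 hx
      · exact w_red_dj H.dCW hy.1 hx
    · rcases hy with (hy | hy) | hy
      · exact hy.2 hx
      · exact w_red_dj H.tt.dAB (w_red_mem.1 hx).1 hy.1
      · exact w_red_dj H.tt.dAC (w_red_mem.1 hx).1 hy.1
    · rcases hy with (hy | hy) | hy
      · exact w_red_dj H.tt.dAB hy.1 (w_red_mem.1 hx).1
      · exact hy.2 hx
      · exact w_red_dj H.tt.dBC (w_red_mem.1 hx).1 hy.1
    · rcases hy with (hy | hy) | hy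
      · exact w_red_dj H.tt.dAC hy.1 ((hCA x).1 hx).1
      · exact w_red_dj H.tt.dBC hy.1 ((hCA x).1 hx).1
      · exact hy.2 (Or.inl (Or.inr hx))
    · rcases hy with (hy | hy) | hy
      · exact w_red_dj H.tt.dAC hy.1 ((hCB x).1 hx).1
      · exact w_red_dj H.tt.dBC hy.1 ((hCB x).1 hx).1
      · exact hy.2 (Or.inr hx)
  have hj := w_red_join (ι := Fin 4 × Prop × Prop) hd
    (fun v => (κ v, (if v ∈ C then v ∈ CA else ∃ c ∈ CA, G.Adj v c),
      (if v ∈ C then v ∈ CB else ∃ c ∈ CB, G.Adj v c)))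
    (fun i j => (i.1 = 0 ∧ j.1 = 1) ∨ (i.1 = 1 ∧ j.1 = 0) ∨ (i.1 = 3 ∧ j.1 = 2) ∨
      (i.1 = 2 ∧ j.1 = 0 ∧ i.2.1 ∧ j.2.1) ∨ (i.1 = 2 ∧ j.1 = 1 ∧ i.2.2 ∧ j.2.2)) ?_ hXS hYS
  · have hadd : SLin (Fintype.card (Fin 4 × Prop × Prop) * 2 * (4 * 3 + l + 1) + (FA ∪ FB).card)
        G (A ∪ B ∪ C ∪ W) := by
      refine SLin.add (FA ∪ FB) (SLin.subset hj ?_)
      intro x hx
      simp only [Finset.mem_union, Finset.mem_sdiff, not_or] at hx ⊢
      obtain ⟨hx, hx1, hx2⟩ := hx
      rcases hx with ((hx | hx) | hx) | hx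
      · by_cases hN : x ∈ w_red_N G A W
        · exact Or.inl (Or.inl (Or.inl (Or.inl (Or.inr hN))))
        · exact Or.inr (Or.inl (Or.inl ⟨hx, hN⟩))
      · by_cases hN : x ∈ w_red_N G B W
        · exact Or.inl (Or.inl (Or.inl (Or.inr hN)))
        · exact Or.inr (Or.inl (Or.inr ⟨hx, hN⟩))
      · by_cases hN : x ∈ CA
        · exact Or.inl (Or.inl (Or.inr hN))
        · by_cases hN' : x ∈ CB
          · exact Or.inl (Or.inr hN')
          · exact Or.inr (Or.inr ⟨hx, ⟨⟨hx1, hx2⟩, hN⟩, hN'⟩)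
      · exact Or.inl (Or.inl (Or.inl (Or.inl (Or.inl hx))))
    refine SLin.mono_k hadd ?_
    have h5 : (FA ∪ FB).card ≤ FA.card + FB.card := Finset.card_union_le _ _
    omega
  · intro x hx y hy
    have hyy : (y ∈ A ∧ y ∉ w_red_N G A W) ∨ (y ∈ B ∧ y ∉ w_red_N G B W) ∨
        (y ∈ C ∧ y ∉ FA ∧ y ∉ FB ∧ y ∉ CA ∧ y ∉ CB) := by
      simp only [Finset.mem_union, Finset.mem_sdiff, not_or] at hy
      rcases hy with (hy | hy) | hy
      · exact Or.inl hy
      · exact Or.inr (Or.inl hy)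
      · exact Or.inr (Or.inr ⟨hy.1, hy.2.1.1.1, hy.2.1.1.2, hy.2.1.2, hy.2.2⟩)
    have hxx : x ∈ W ∨ x ∈ w_red_N G A W ∨ x ∈ w_red_N G B W ∨ (x ∈ CA ∨ x ∈ CB) := by
      simp only [Finset.mem_union] at hx
      rcases hx with (((hx | hx) | hx) | hx) | hx
      · exact Or.inl hx
      · exact Or.inr (Or.inl hx)
      · exact Or.inr (Or.inr (Or.inl hx))
      · exact Or.inr (Or.inr (Or.inr (Or.inl hx)))
      · exact Or.inr (Or.inr (Or.inr (Or.inr hx)))
    have hAC : ∀ v ∈ A, v ∉ C := fun v h h' => w_red_dj H.tt.dAC h h'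
    have hBC : ∀ v ∈ B, v ∉ C := fun v h h' => w_red_dj H.tt.dBC h h'
    show G.Adj x y ↔ _
    rcases hxx with hx | hx | hx | hx
    · rcases hyy with ⟨hy, hyn⟩ | ⟨hy, hyn⟩ | ⟨hy, h5, h6, h7, h8⟩
      · simp only [hκW x hx, hκA y hy]
        exact ⟨fun h => absurd (w_red_mem.2 ⟨hy, x, hx, h.symm⟩) hyn, fun h => by simp at h⟩
      · simp only [hκW x hx, hκB y hy]
        exact ⟨fun h => absurd (w_red_mem.2 ⟨hy, x, hx, h.symm⟩) hyn, fun h => by simp at h⟩
      · simp only [hκW x hx, hκC y hy]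
        exact ⟨fun _ => Or.inr (Or.inr (Or.inl ⟨by simp, by simp⟩)), fun _ => (H.cw y hy x hx).symm⟩
    · obtain ⟨hxA, w0, hw0, hxw⟩ := w_red_mem.1 hx
      rcases hyy with ⟨hy, hyn⟩ | ⟨hy, hyn⟩ | ⟨hy, h5, h6, h7, h8⟩
      · simp only [hκA x hxA, hκA y hy]
        exact ⟨fun h => absurd h (H.tt.iA x hxA y hy), fun h => by simp at h⟩
      · simp only [hκA x hxA, hκB y hy]
        exact ⟨fun _ => Or.inl ⟨by simp, by simp⟩, fun _ => w_red_ii H h3 hxA hy hw0 hxw⟩
      · simp only [hκA x hxA, hκC y hy]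
        exact ⟨fun h => absurd ((hCA y).2 ⟨hy, h5, h6, x, hx, h⟩) h7, fun h => by simp at h⟩
    · obtain ⟨hxB, w0, hw0, hxw⟩ := w_red_mem.1 hx
      rcases hyy with ⟨hy, hyn⟩ | ⟨hy, hyn⟩ | ⟨hy, h5, h6, h7, h8⟩
      · simp only [hκB x hxB, hκA y hy]
        exact ⟨fun _ => Or.inr (Or.inl ⟨by simp, by simp⟩), fun _ => w_red_ii H.symm h3 hxB hy hw0 hxw⟩
      · simp only [hκB x hxB, hκB y hy]
        exact ⟨fun h => absurd h (H.tt.iB x hxB y hy), fun h => by simp at h⟩
      · simp only [hκB x hxB, hκC y hy]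
        exact ⟨fun h => absurd ((hCB y).2 ⟨hy, h5, h6, x, hx, h⟩) h8, fun h => by simp at h⟩
    · have hxC : x ∈ C := hx.elim (fun h => ((hCA x).1 h).1) (fun h => ((hCB x).1 h).1)
      rcases hyy with ⟨hy, hyn⟩ | ⟨hy, hyn⟩ | ⟨hy, h5, h6, h7, h8⟩
      · simp only [hκC x hxC, hκA y hy, if_pos hxC, if_neg (hAC y hy)]
        constructor
        · intro h
          right; right; right; left
          have hxCA : x ∈ CA := by
            rcases hx with hx | hx
            · exact hx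
            · exfalso
              obtain ⟨-, -, -, b, hb, hbx⟩ := (hCB x).1 hx
              obtain ⟨hbB, w0, hw0, hbw⟩ := w_red_mem.1 hb
              have h9 := w_red_iv H.symm h3 hbB hy hxC hw0 hbw hbx h.symm
              exact hyn (w_red_mem.2 ⟨hy, w0, hw0, h9⟩)
          exact ⟨by simp, by simp, hxCA, x, hxCA, h.symm⟩
        · intro h
          have h9 : x ∈ CA ∧ ∃ c ∈ CA, G.Adj y c := by
            rcases h with h | h | h | h | h
            · exact absurd h.1 (by decide)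
            · exact absurd h.1 (by decide)
            · exact absurd h.1 (by decide)
            · exact h.2.2
            · exact absurd h.2.1 (by decide)
          obtain ⟨hxCA, c, hc, hyc⟩ := h9
          obtain ⟨hcC, -, -, a2, ha2, h10⟩ := (hCA c).1 hc
          obtain ⟨-, -, -, a1, ha1, h11⟩ := (hCA x).1 hxCA
          exact ((w_red_v H hy hyn ha2 ha1 hcC hxC h10 h11).1 hyc).symm
      · simp only [hκC x hxC, hκB y hy, if_pos hxC, if_neg (hBC y hy)]
        constructor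
        · intro h
          right; right; right; right
          have hxCB : x ∈ CB := by
            rcases hx with hx | hx
            · exfalso
              obtain ⟨-, -, -, b, hb, hbx⟩ := (hCA x).1 hx
              obtain ⟨hbB, w0, hw0, hbw⟩ := w_red_mem.1 hb
              have h9 := w_red_iv H h3 hbB hy hxC hw0 hbw hbx h.symm
              exact hyn (w_red_mem.2 ⟨hy, w0, hw0, h9⟩)
            · exact hx
          exact ⟨by simp, by simp, hxCB, x, hxCB, h.symm⟩
        · intro h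
          have h9 : x ∈ CB ∧ ∃ c ∈ CB, G.Adj y c := by
            rcases h with h | h | h | h | h
            · exact absurd h.1 (by decide)
            · exact absurd h.1 (by decide)
            · exact absurd h.1 (by decide)
            · exact absurd h.2.1 (by decide)
            · exact h.2.2
          obtain ⟨hxCB, c, hc, hyc⟩ := h9
          obtain ⟨hcC, -, -, a2, ha2, h10⟩ := (hCB c).1 hc
          obtain ⟨-, -, -, a1, ha1, h11⟩ := (hCB x).1 hxCB
          exact ((w_red_v H.symm hy hyn ha2 ha1 hcC hxC h10 h11).1 hyc).symm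
      · simp only [hκC x hxC, hκC y hy]
        exact ⟨fun h => absurd h (H.tt.iC x hxC y hy), fun h => by simp at h⟩

/-- TARGET -/
theorem w_red (k : ℕ) : ∃ c, ∀ (V : Type) (G : SimpleGraph V) (A B C W : Finset V), TT G A B C →
    NoDia G → Ind G W → Disjoint A W → Disjoint B W → Disjoint C W → (∀ c ∈ C, ∀ w ∈ W, G.Adj c w) →
    (∀ w ∈ W, ∀ a ∈ A, ∀ a' ∈ A, G.Adj w a → G.Adj w a' → a = a') →
    (∀ w ∈ W, ∀ w' ∈ W, ∀ a ∈ A, G.Adj w a → G.Adj w' a → w = w') →
    (∀ w ∈ W, ∀ b ∈ B, ∀ b' ∈ B, G.Adj w b → G.Adj w b' → b = b') →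
    (∀ w ∈ W, ∀ w' ∈ W, ∀ b ∈ B, G.Adj w b → G.Adj w' b → w = w') →
    (∀ a ∈ A, ∀ b ∈ B, ∀ w ∈ W, G.Adj a w → G.Adj a b ∨ G.Adj b w) →
    (∀ a ∈ A, ∀ b ∈ B, ∀ w ∈ W, G.Adj b w → G.Adj a b ∨ G.Adj a w) →
    (∀ T ⊆ A ∪ B ∪ C ∪ W, TriT G T → SLin k G T) → SLin c G (A ∪ B ∪ C ∪ W) := by
  obtain ⟨l, hl⟩ := tt_main k
  refine ⟨(3 * 2 * (9 + k + 1) + 2) +
    (Fintype.card (Fin 4 × Prop × Prop) * 2 * (4 * 3 + l + 1) + 2), ?_⟩
  intro V G A B C W tt nd iW dAW dBW dCW cw a1 a2 b1 b2 m1 m2 hk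
  have H : w_red_H G A B C W := ⟨tt, nd, iW, dAW, dBW, dCW, cw, a1, a2, b1, b2, m1, m2⟩
  by_cases h3 : 3 ≤ C.card
  · refine SLin.mono_k (w_red_case2 H h3 ?_) (Nat.le_add_left _ _)
    intro A' hA' B' hB' C' hC'
    refine hl V G A' B' C' (tt_mono tt hA' hB' hC') nd fun T hT hTri => hk T ?_ hTri
    refine hT.trans ?_
    intro x hx
    simp only [Finset.mem_union] at hx ⊢
    rcases hx with (hx | hx) | hx
    · exact Or.inl (Or.inl (Or.inl (hA' hx)))
    · exact Or.inl (Or.inl (Or.inr (hB' hx)))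
    · exact Or.inl (Or.inr (hC' hx))
  · have h1 := w_red_case1 H hk
    have h2 : SLin (3 * 2 * (9 + k + 1) + C.card) G (A ∪ B ∪ C ∪ W) := by
      refine SLin.add C (SLin.subset h1 ?_)
      intro x hx
      simp only [Finset.mem_union, Finset.mem_sdiff] at hx ⊢
      tauto
    refine SLin.mono_k h2 ?_
    omega

end WRed

end Pool.Agent.Helper856.Cw
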