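import Pool.Agent.Helper856.Pair.Defs
import Pool.Agent.Helper856.Cw.Basic
import Pool.Agent.Helper856.Pair.PbType
import Pool.Agent.Helper856.Pair.PbFacts
import Pool.Agent.Helper856.Pair.WRed

open Classical SimpleGraph

namespace Pool.Agent.Helper856.Cw

open PbType (pb_type)
open PbFacts (pf_aa pf_bb pf_cc pf_zz pf_cz pf_zaa pf_zza pf_zbb pf_zzb pf_h1 pf_h2 pf_nit pf_s)
open WRed (w_red)

namespace P1F1

variable {V : Type} {G : SimpleGraph V} {S T : Finset V} {k l : ℕ}

/-- TARGET -/
theorem p1_f1 (k : ℕ) : ∃ c, ∀ (V : Type) (G : SimpleGraph V) (S : Finset V) (x y z : Fin 5 → V),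
    NoDia G → NoP1P2P3 G → PB G x y z → (∀ T ⊆ S, TriT G T → SLin k G T) → SLin c G S := by
  obtain ⟨c, hc⟩ := w_red k
  refine ⟨c + 20, ?_⟩
  intro V G S x y z hd hf hb hT
  let tb : V → Prop := fun v => ∃ i, v = x i ∨ v = y i ∨ v = z i
  let tz : V → Prop := fun v => ∀ i, ¬G.Adj v (x i) ∧ ¬G.Adj v (y i) ∧ ¬G.Adj v (z i)
  let ta : V → Prop := fun v => ∀ i, G.Adj v (x i) ∧ ¬G.Adj v (y i) ∧ ¬G.Adj v (z i)
  let tbb : V → Prop := fun v => ∀ i, ¬G.Adj v (x i) ∧ G.Adj v (y i) ∧ ¬G.Adj v (z i)
  let tc : V → Prop := fun v => ∀ i, ¬G.Adj v (x i) ∧ ¬G.Adj v (y i) ∧ G.Adj v (z i)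
  let ts : Fin 5 → V → Prop := fun i v => ∀ j, (G.Adj v (x j) ↔ j = i) ∧ (G.Adj v (y j) ↔ j = i) ∧
    G.Adj v (z j)
  let F : Finset V := S.filter (fun v => tb v ∨ ∃ i, ts i v)
  let s : Fin 5 → V := fun i => if h : ∃ v, ts i v then h.choose else x 0
  have hsF : ∀ i v, ts i v → s i = v := by
    intro i v hv
    have h : ∃ v, ts i v := ⟨v, hv⟩
    show (if h : ∃ v, ts i v then h.choose else x 0) = v
    rw [dif_pos h]
    exact pf_s hd hf hb i h.choose_spec hv
  have hFc : F.card ≤ 20 := by
    have hsub : F ⊆ Finset.univ.image x ∪ Finset.univ.image y ∪ Finset.univ.image z ∪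
        Finset.univ.image s := by
      intro v hv
      obtain ⟨_, h⟩ := Finset.mem_filter.mp hv
      simp only [Finset.mem_union, Finset.mem_image, Finset.mem_univ, true_and]
      rcases h with ⟨i, h | h | h⟩ | ⟨i, h⟩
      · exact Or.inl (Or.inl (Or.inl ⟨i, h.symm⟩))
      · exact Or.inl (Or.inl (Or.inr ⟨i, h.symm⟩))
      · exact Or.inl (Or.inr ⟨i, h.symm⟩)
      · exact Or.inr ⟨i, hsF i v h⟩
    have c1 : ∀ f : Fin 5 → V, (Finset.univ.image f).card ≤ 5 := fun f => by
      simpa using Finset.card_image_le (s := (Finset.univ : Finset (Fin 5))) (f := f)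
    calc F.card ≤ _ := Finset.card_le_card hsub
      _ ≤ (Finset.univ.image x ∪ Finset.univ.image y ∪ Finset.univ.image z).card +
          (Finset.univ.image s).card := Finset.card_union_le _ _
      _ ≤ ((Finset.univ.image x ∪ Finset.univ.image y).card + (Finset.univ.image z).card) +
          (Finset.univ.image s).card := by gcongr; exact Finset.card_union_le _ _
      _ ≤ (((Finset.univ.image x).card + (Finset.univ.image y).card) +
          (Finset.univ.image z).card) + (Finset.univ.image s).card := by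
          gcongr; exact Finset.card_union_le _ _
      _ ≤ 20 := by
          have := c1 x; have := c1 y; have := c1 z; have := c1 s; omega
  have hmain : SLin c G (S \ F) := by
    let R := S \ F
    let A := R.filter ta
    let B := R.filter tbb
    let C := R.filter tc
    let W := R.filter tz
    have hR : R = A ∪ B ∪ C ∪ W := by
      ext v
      simp only [Finset.mem_union]
      constructor
      · intro hv
        have hv1 : v ∈ S ∧ v ∉ F := Finset.mem_sdiff.mp hv
        rcases pb_type hd hf hb v with h | h | h | h | h | h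
        · exact absurd (Finset.mem_filter.mpr ⟨hv1.1, Or.inl h⟩) hv1.2
        · exact Or.inr (Finset.mem_filter.mpr ⟨hv, h⟩)
        · exact Or.inl (Or.inl (Or.inl (Finset.mem_filter.mpr ⟨hv, h⟩)))
        · exact Or.inl (Or.inl (Or.inr (Finset.mem_filter.mpr ⟨hv, h⟩)))
        · exact Or.inl (Or.inr (Finset.mem_filter.mpr ⟨hv, h⟩))
        · exact absurd (Finset.mem_filter.mpr ⟨hv1.1, Or.inr h⟩) hv1.2
      · rintro (((h | h) | h) | h) <;> exact (Finset.mem_filter.mp h).1
    have mA : ∀ v ∈ A, ta v := fun v hv => (Finset.mem_filter.mp hv).2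
    have mB : ∀ v ∈ B, tbb v := fun v hv => (Finset.mem_filter.mp hv).2
    have mC : ∀ v ∈ C, tc v := fun v hv => (Finset.mem_filter.mp hv).2
    have mW : ∀ v ∈ W, tz v := fun v hv => (Finset.mem_filter.mp hv).2
    change SLin c G R
    rw [hR]
    apply hc V G A B C W
    · refine ⟨?_, ?_, ?_, ?_, ?_, ?_, ?_, ?_, ?_, ?_⟩
      · rw [Finset.disjoint_left]
        intro v h1 h2
        exact (mB v h2 0).1 (mA v h1 0).1
      · rw [Finset.disjoint_left]
        intro v h1 h2
        exact (mC v h2 0).1 (mA v h1 0).1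
      · rw [Finset.disjoint_left]
        intro v h1 h2
        exact (mC v h2 0).2.1 (mB v h1 0).2.1
      · intro v h1 w h2
        exact pf_aa hd hf hb (mA v h1) (mA w h2)
      · intro v h1 w h2
        exact pf_bb hd hf hb (mB v h1) (mB w h2)
      · intro v h1 w h2
        exact pf_cc hd hf hb (mC v h1) (mC w h2)
      · intro a ha b hb' c' hc'
        exact pf_nit hd hf hb (mA a ha) (mB b hb') (mC c' hc')
      · have hz : ∀ v ∈ A ∪ B, ¬G.Adj (z 0) v := by
          intro v hv
          rw [G.adj_comm]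
          rcases Finset.mem_union.mp hv with h | h
          · exact (mA v h 0).2.2
          · exact (mB v h 0).2.2
        intro p hp q hq a ha b hb' c' hc' e1 e2 e3 e4 e5 e6 e7 e8 e9 e10 e11
        exact hf (z 0) p q a b c' e1 e2 e3 e4 e5 (hz p hp) (hz q hq) (hz a ha) (hz b hb') (hz c' hc')
          e6 e7 e8 e9 e10 e11
      · have hz : ∀ v ∈ B ∪ C, ¬G.Adj (x 0) v := by
          intro v hv
          rw [G.adj_comm]
          rcases Finset.mem_union.mp hv with h | h
          · exact (mB v h 0).1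
          · exact (mC v h 0).1
        intro p hp q hq a ha b hb' c' hc' e1 e2 e3 e4 e5 e6 e7 e8 e9 e10 e11
        exact hf (x 0) p q a b c' e1 e2 e3 e4 e5 (hz p hp) (hz q hq) (hz a ha) (hz b hb') (hz c' hc')
          e6 e7 e8 e9 e10 e11
      · have hz : ∀ v ∈ A ∪ C, ¬G.Adj (y 0) v := by
          intro v hv
          rw [G.adj_comm]
          rcases Finset.mem_union.mp hv with h | h
          · exact (mA v h 0).2.1
          · exact (mC v h 0).2.1
        intro p hp q hq a ha b hb' c' hc' e1 e2 e3 e4 e5 e6 e7 e8 e9 e10 e11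
        exact hf (y 0) p q a b c' e1 e2 e3 e4 e5 (hz p hp) (hz q hq) (hz a ha) (hz b hb') (hz c' hc')
          e6 e7 e8 e9 e10 e11
    · exact hd
    · intro v h1 w h2
      exact pf_zz hd hf hb (mW v h1) (mW w h2)
    · rw [Finset.disjoint_left]
      intro v h1 h2
      exact (mW v h2 0).1 (mA v h1 0).1
    · rw [Finset.disjoint_left]
      intro v h1 h2
      exact (mW v h2 0).2.1 (mB v h1 0).2.1
    · rw [Finset.disjoint_left]
      intro v h1 h2
      exact (mW v h2 0).2.2 (mC v h1 0).2.2
    · intro c' hc' w hw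
      exact pf_cz hd hf hb (mC c' hc') (mW w hw)
    · intro w hw a ha a' ha' e1 e2
      exact pf_zaa hd hf hb (mW w hw) (mA a ha) (mA a' ha') e1 e2
    · intro w hw w' hw' a ha e1 e2
      exact pf_zza hd hf hb (mW w hw) (mW w' hw') (mA a ha) e1 e2
    · intro w hw b hb1 b' hb2 e1 e2
      exact pf_zbb hd hf hb (mW w hw) (mB b hb1) (mB b' hb2) e1 e2
    · intro w hw w' hw' b hb1 e1 e2
      exact pf_zzb hd hf hb (mW w hw) (mW w' hw') (mB b hb1) e1 e2
    · intro a ha b hb1 w hw e1
      exact pf_h1 hd hf hb (mA a ha) (mB b hb1) (mW w hw) e1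
    · intro a ha b hb1 w hw e1
      exact pf_h2 hd hf hb (mA a ha) (mB b hb1) (mW w hw) e1
    · intro T hTs hTt
      apply hT T _ hTt
      intro v hv
      have := hTs hv
      rw [← hR] at this
      exact (Finset.mem_sdiff.mp this).1
  exact (SLin.add F hmain).mono_k (by omega)

end P1F1

end Pool.Agent.Helper856.Cw
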