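import Pool.Agent.Helper856.Pair.Defs

open Classical SimpleGraph

namespace Pool.Agent.Helper856.Cw

namespace CyRel1

variable {V : Type} {G : SimpleGraph V} {S T : Finset V} {k l : ℕ}

/-- adjacency of a vertex at position `k` and the base vertex `j` -/
def cyP (k j : ℕ) : Bool :=
  decide (11 ≤ (2 * j + (30 - k)) % 30) && decide ((2 * j + (30 - k)) % 30 ≤ 19)

/-- adjacency of base vertices -/
def cyB (i j : ℕ) : Bool := decide (5 ≤ (j + (15 - i)) % 15) && decide ((j + (15 - i)) % 15 ≤ 10)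

/-- adjacency among base vertices and `v` (index 15), `w` (index 16) -/
def cyM (k l : ℕ) (e : Bool) (i j : ℕ) : Bool :=
  if i < 15 then
    if j < 15 then cyB i j
    else if j = 15 then cyP k i else cyP l i
  else if j < 15 then (if i = 15 then cyP k j else cyP l j)
  else (if i = j then false else e)

/-- check of a certificate -/
def cyChk (M : ℕ → ℕ → Bool) : List ℕ → Bool
  | [x, y, a, b] => M x y && M x a && M y a && M x b && M y b && !M a b && decide (a < 15) &&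
      decide (b < 15) && !decide (a = b) && decide (x < 17) && decide (y < 17)
  | [p, x, y, a, b, c] => M x y && M a b && M b c && decide (a < 15) && decide (c < 15) &&
      !decide (a = c) && !M a c && !M p x && !M p y && !M p a && !M p b && !M p c && !M x a &&
      !M x b && !M x c && !M y a && !M y b && !M y c && decide (p < 17) && decide (x < 17) &&
      decide (y < 17) && decide (b < 17)
  | _ => false

def cyT0 : List (List ℕ) :=
  [[15, 16, 6, 7], [15, 16, 6, 7], [15, 16, 7, 8], [15, 16, 7, 8], [15, 16, 8, 9],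
    [15, 16, 8, 9], [0, 15, 16, 3, 13, 4], [1, 15, 16, 0, 5, 14], [1, 15, 16, 0, 5, 14], [],
    [10, 8, 15, 11, 16, 12], [10, 8, 15, 11, 16, 12], [10, 9, 15, 12, 16, 13],
    [10, 9, 15, 12, 16, 13], [15, 0, 16, 2, 11, 3], [15, 0, 16, 3, 11, 4], [15, 0, 16, 3, 11, 4],
    [4, 3, 16, 6, 15, 7], [4, 3, 16, 6, 15, 7], [5, 3, 16, 6, 15, 7], [5, 3, 16, 6, 15, 7], [],
    [12, 15, 16, 0, 10, 1], [12, 15, 16, 0, 10, 1], [0, 15, 16, 1, 11, 2], [15, 16, 6, 7],
    [15, 16, 6, 7], [15, 16, 6, 7], [15, 16, 6, 7], [15, 16, 6, 7]]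

def cyT1 : List (List ℕ) :=
  [[15, 16, 6, 7], [15, 16, 6, 7], [15, 16, 7, 8], [15, 16, 7, 8], [15, 16, 8, 9],
    [15, 16, 8, 9], [15, 16, 9, 10], [15, 16, 9, 10], [1, 15, 16, 0, 5, 14], [], [], [],
    [11, 9, 15, 12, 16, 13], [11, 9, 15, 12, 16, 13], [11, 10, 15, 13, 16, 14],
    [11, 10, 15, 13, 16, 14], [15, 0, 16, 3, 11, 4], [4, 3, 16, 6, 15, 7], [4, 3, 16, 6, 15, 7],
    [5, 3, 16, 6, 15, 7], [5, 3, 16, 6, 15, 7], [], [], [], [0, 15, 16, 1, 11, 2],
    [15, 16, 6, 7], [15, 16, 6, 7], [15, 16, 6, 7], [15, 16, 6, 7], [15, 16, 6, 7]]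

/-- the certificate -/
def cyCert (k l : ℕ) : List ℕ :=
  ((if k % 2 = 0 then cyT0 else cyT1).getD ((l + 30 - 2 * (k / 2)) % 30) []).map
    fun i => if i < 15 then (i + k / 2) % 15 else i

theorem cy_tabA : ∀ k < 30, ∀ l < 30,
    (decide (11 ≤ (l + (30 - k)) % 30) && decide ((l + (30 - k)) % 30 ≤ 19) ||
      decide (k % 2 = 0) && (decide ((l + (30 - k)) % 30 = 10) ||
        decide ((l + (30 - k)) % 30 = 20))) = true →
      cyChk (cyM k l false) (cyCert k l) = true := by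
  decide +kernel

theorem cy_tabN : ∀ k < 30, ∀ l < 30,
    (decide ((l + (30 - k)) % 30 ≤ 7) || decide (23 ≤ (l + (30 - k)) % 30) ||
      decide (k % 2 = 0) && (decide ((l + (30 - k)) % 30 = 8) ||
        decide ((l + (30 - k)) % 30 = 22))) = true →
      cyChk (cyM k l true) (cyCert k l) = true := by
  decide +kernel

theorem cy_val15 (p q : ZMod 15) : (q - p).val = (q.val + (15 - p.val)) % 15 := by
  revert p q
  decide +kernel

theorem cy_val30 (k l : ZMod 30) : (l - k).val = (l.val + (30 - k.val)) % 30 := by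
  revert k l
  decide +kernel

theorem cy_val30' (q : ZMod 15) (k : ZMod 30) :
    (2 * (q.val : ZMod 30) - k).val = (2 * q.val + (30 - k.val)) % 30 := by
  revert q k
  decide +kernel

theorem cy_sep (p q : ZMod 15) (h : p ≠ q) :
    ∃ r : ZMod 15, (5 ≤ (r - p).val ∧ (r - p).val ≤ 10) ∧ ¬ (5 ≤ (r - q).val ∧ (r - q).val ≤ 10) := by
  revert p q
  decide +kernel

/-- the vertices -/
def cyG (b : ZMod 15 → V) (v w : V) (i : ℕ) : V :=
  if i < 15 then b (i : ZMod 15) else if i = 15 then v else w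

theorem cyG_lt (b : ZMod 15 → V) (v w : V) {i : ℕ} (h : i < 15) :
    cyG b v w i = b (i : ZMod 15) := if_pos h

theorem cyG_15 (b : ZMod 15 → V) (v w : V) : cyG b v w 15 = v := by
  unfold cyG
  rw [if_neg (by norm_num), if_pos rfl]

theorem cyG_16 (b : ZMod 15 → V) (v w : V) : cyG b v w 16 = w := by
  unfold cyG
  rw [if_neg (by norm_num), if_neg (by norm_num)]

theorem cy_inj {b : ZMod 15 → V} (hb : CB G b) {i j : ℕ} (hi : i < 15) (hj : j < 15) (h : i ≠ j) :
    b (i : ZMod 15) ≠ b (j : ZMod 15) := by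
  intro hcon
  have hne : (i : ZMod 15) ≠ (j : ZMod 15) := by
    intro h2
    have h3 := congrArg ZMod.val h2
    rw [ZMod.val_natCast_of_lt hi, ZMod.val_natCast_of_lt hj] at h3
    exact h h3
  obtain ⟨r, h1, h2⟩ := cy_sep _ _ hne
  apply h2
  rw [← hb, ← hcon, hb]
  exact h1

theorem cy_adj {b : ZMod 15 → V} (hb : CB G b) {k l : ZMod 30} {v w : V}
    (hv : AtP G b k v) (hw : AtP G b l w) (e : Bool) (he : G.Adj v w ↔ e = true) (i j : ℕ)
    (hi : i < 17) (hj : j < 17) :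
    G.Adj (cyG b v w i) (cyG b v w j) ↔ cyM k.val l.val e i j = true := by
  have hBB : ∀ i j : ℕ, i < 15 → j < 15 →
      (G.Adj (b (i : ZMod 15)) (b (j : ZMod 15)) ↔ cyB i j = true) := by
    intro i j hi hj
    rw [hb, cy_val15, ZMod.val_natCast_of_lt hi, ZMod.val_natCast_of_lt hj]
    unfold cyB
    rw [Bool.and_eq_true, decide_eq_true_eq, decide_eq_true_eq]
  have hP : ∀ (m : ZMod 30) (u : V), AtP G b m u → ∀ j : ℕ, j < 15 →
      (G.Adj u (b (j : ZMod 15)) ↔ cyP m.val j = true) := by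
    intro m u hu j hj
    rw [hu, cy_val30', ZMod.val_natCast_of_lt hj]
    unfold cyP
    rw [Bool.and_eq_true, decide_eq_true_eq, decide_eq_true_eq]
  unfold cyM
  by_cases hi15 : i < 15
  · rw [if_pos hi15, cyG_lt b v w hi15]
    by_cases hj15 : j < 15
    · rw [if_pos hj15, cyG_lt b v w hj15]
      exact hBB i j hi15 hj15
    · rw [if_neg hj15]
      rcases (by omega : j = 15 ∨ j = 16) with h | h
      · rw [h, if_pos rfl, cyG_15, G.adj_comm]
        exact hP k v hv i hi15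
      · rw [h, if_neg (by norm_num), cyG_16, G.adj_comm]
        exact hP l w hw i hi15
  · rw [if_neg hi15]
    by_cases hj15 : j < 15
    · rw [if_pos hj15, cyG_lt b v w hj15]
      rcases (by omega : i = 15 ∨ i = 16) with h | h
      · rw [h, if_pos rfl, cyG_15]
        exact hP k v hv j hj15
      · rw [h, if_neg (by norm_num), cyG_16]
        exact hP l w hw j hj15
    · rw [if_neg hj15]
      rcases (by omega : i = 15 ∨ i = 16) with h | h <;>
        rcases (by omega : j = 15 ∨ j = 16) with h' | h'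
      · rw [h, h', if_pos rfl]
        exact ⟨fun h => absurd rfl h.ne, fun h => absurd h (by decide)⟩
      · rw [h, h', if_neg (by norm_num), cyG_15, cyG_16]
        exact he
      · rw [h, h', if_neg (by norm_num), cyG_15, cyG_16, G.adj_comm]
        exact he
      · rw [h, h', if_pos rfl]
        exact ⟨fun h => absurd rfl h.ne, fun h => absurd h (by decide)⟩

theorem cy_lt17 {a : ℕ} (h : a < 15) : a < 17 := by omega

theorem cy_sound {b : ZMod 15 → V} (hd : NoDia G) (hf : NoP1P2P3 G) (hb : CB G b) {k l : ZMod 30}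
    {v w : V} (hv : AtP G b k v) (hw : AtP G b l w) (e : Bool) (he : G.Adj v w ↔ e = true)
    (c : List ℕ) (hc : cyChk (cyM k.val l.val e) c = true) : False := by
  have hadj := cy_adj hb hv hw e he
  rcases c with _ | ⟨x1, _ | ⟨x2, _ | ⟨x3, _ | ⟨x4, _ | ⟨x5, _ | ⟨x6, _ | ⟨x7, c⟩⟩⟩⟩⟩⟩⟩
  · exact absurd hc (by simp [cyChk])
  · exact absurd hc (by simp [cyChk])
  · exact absurd hc (by simp [cyChk])
  · exact absurd hc (by simp [cyChk])
  · simp only [cyChk, Bool.and_eq_true, Bool.not_eq_true', decide_eq_true_eq,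
      decide_eq_false_iff_not] at hc
    obtain ⟨⟨⟨⟨⟨⟨⟨⟨⟨⟨h1, h2⟩, h3⟩, h4⟩, h5⟩, h6⟩, h7⟩, h8⟩, h9⟩, h10⟩, h11⟩ := hc
    have hab : cyG b v w x3 ≠ cyG b v w x4 := by
      rw [cyG_lt b v w h7, cyG_lt b v w h8]
      exact cy_inj hb h7 h8 h9
    have h12 := hd _ _ _ _ ((hadj x1 x2 h10 h11).2 h1) ((hadj x1 x3 h10 (cy_lt17 h7)).2 h2)
      ((hadj x2 x3 h11 (cy_lt17 h7)).2 h3) ((hadj x1 x4 h10 (cy_lt17 h8)).2 h4)
      ((hadj x2 x4 h11 (cy_lt17 h8)).2 h5) hab
    rw [hadj x3 x4 (cy_lt17 h7) (cy_lt17 h8), h6] at h12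
    exact absurd h12 (by decide)
  · exact absurd hc (by simp [cyChk])
  · simp only [cyChk, Bool.and_eq_true, Bool.not_eq_true', decide_eq_true_eq,
      decide_eq_false_iff_not] at hc
    obtain ⟨⟨⟨⟨⟨⟨⟨⟨⟨⟨⟨⟨⟨⟨⟨⟨⟨⟨⟨⟨⟨h1, h2⟩, h3⟩, h4⟩, h5⟩, h6⟩, h7⟩, h8⟩, h9⟩, h10⟩, h11⟩, h12⟩, h13⟩, h14⟩,
      h15⟩, h16⟩, h17⟩, h18⟩, h19⟩, h20⟩, h21⟩, h22⟩ := hc
    have hab : cyG b v w x4 ≠ cyG b v w x6 := by
      rw [cyG_lt b v w h4, cyG_lt b v w h5]
      exact cy_inj hb h4 h5 h6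
    have hn : ∀ i j : ℕ, i < 17 → j < 17 → cyM k.val l.val e i j = false →
        ¬ G.Adj (cyG b v w i) (cyG b v w j) := by
      intro i j hi hj h h'
      rw [hadj i j hi hj, h] at h'
      exact absurd h' (by decide)
    exact hf (cyG b v w x1) (cyG b v w x2) (cyG b v w x3) (cyG b v w x4) (cyG b v w x5)
      (cyG b v w x6)
      ((hadj x2 x3 h20 h21).2 h1) ((hadj x4 x5 (cy_lt17 h4) h22).2 h2)
      ((hadj x5 x6 h22 (cy_lt17 h5)).2 h3) hab (hn _ _ (cy_lt17 h4) (cy_lt17 h5) h7)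
      (hn _ _ h19 h20 h8) (hn _ _ h19 h21 h9) (hn _ _ h19 (cy_lt17 h4) h10)
      (hn _ _ h19 h22 h11) (hn _ _ h19 (cy_lt17 h5) h12) (hn _ _ h20 (cy_lt17 h4) h13)
      (hn _ _ h20 h22 h14) (hn _ _ h20 (cy_lt17 h5) h15) (hn _ _ h21 (cy_lt17 h4) h16)
      (hn _ _ h21 h22 h17) (hn _ _ h21 (cy_lt17 h5) h18)
  · exact absurd hc (by simp [cyChk])

/-- TARGET -/
theorem cy_rel1 {b : ZMod 15 → V} (hd : NoDia G) (hf : NoP1P2P3 G) (hb : CB G b) {k l : ZMod 30} {v w : V}
    (hv : AtP G b k v) (hw : AtP G b l w) (hne : v ≠ w) :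
    (11 ≤ (l - k).val → (l - k).val ≤ 19 → G.Adj v w) ∧
    ((l - k).val ≤ 7 ∨ 23 ≤ (l - k).val → ¬G.Adj v w) ∧
    (Even k.val → (l - k).val = 10 ∨ (l - k).val = 20 → G.Adj v w) ∧
    (Even k.val → (l - k).val = 8 ∨ (l - k).val = 22 → ¬G.Adj v w) := by
  have hk : k.val < 30 := ZMod.val_lt k
  have hl : l.val < 30 := ZMod.val_lt l
  have hA : (decide (11 ≤ (l.val + (30 - k.val)) % 30) &&
      decide ((l.val + (30 - k.val)) % 30 ≤ 19) ||
      decide (k.val % 2 = 0) && (decide ((l.val + (30 - k.val)) % 30 = 10) ||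
        decide ((l.val + (30 - k.val)) % 30 = 20))) = true → G.Adj v w := by
    intro h
    by_contra hcon
    exact cy_sound hd hf hb hv hw false (by simp [hcon]) _ (cy_tabA _ hk _ hl h)
  have hN : (decide ((l.val + (30 - k.val)) % 30 ≤ 7) ||
      decide (23 ≤ (l.val + (30 - k.val)) % 30) ||
      decide (k.val % 2 = 0) && (decide ((l.val + (30 - k.val)) % 30 = 8) ||
        decide ((l.val + (30 - k.val)) % 30 = 22))) = true → ¬ G.Adj v w := by
    intro h hcon
    exact cy_sound hd hf hb hv hw true (by simp [hcon]) _ (cy_tabN _ hk _ hl h)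
  rw [cy_val30]
  refine ⟨fun h1 h2 => hA ?_, fun h => hN ?_, fun he h => hA ?_, fun he h => hN ?_⟩
  · rw [decide_eq_true h1, decide_eq_true h2]
    rfl
  · rcases h with h | h
    · rw [decide_eq_true h]
      rfl
    · rw [decide_eq_true h, Bool.or_true]
      rfl
  · rw [decide_eq_true (Nat.even_iff.1 he)]
    rcases h with h | h
    · rw [decide_eq_true h, Bool.true_or, Bool.and_true, Bool.or_true]
    · rw [decide_eq_true h, Bool.or_true, Bool.and_true, Bool.or_true]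
  · rw [decide_eq_true (Nat.even_iff.1 he)]
    rcases h with h | h
    · rw [decide_eq_true h, Bool.true_or, Bool.and_true, Bool.or_true]
    · rw [decide_eq_true h, Bool.or_true, Bool.and_true, Bool.or_true]

end CyRel1

end Pool.Agent.Helper856.Cw
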