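import Pool.Agent.Helper856.Pair.Defs

open Classical SimpleGraph

namespace Pool.Agent.Helper856.Cw

namespace CyType1

variable {V : Type} {G : SimpleGraph V} {S T : Finset V} {k l : ℕ}

/-- certificates -/
inductive Ct where
  | D (x y a b : ℕ)
  | F (p x y a b c : ℕ)

/-- decision trees -/
inductive Tr where
  | B (i : ℕ) (t1 t2 : Tr)
  | neg (i : ℕ) (c : Ct) (t : Tr)
  | pos (i : ℕ) (c : Ct) (t : Tr)
  | X (c : Ct)
  | T (k : ℕ)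

/-- base adjacency -/
def ba (p q : ℕ) : Bool := decide (5 ≤ (q + 15 - p) % 15) && decide ((q + 15 - p) % 15 ≤ 10)

def yes (P : List ℕ) (x y : ℕ) : Bool :=
  if x < 15 then (if y < 15 then ba x y else (decide (y = 15) && decide (x ∈ P)))
  else (decide (x = 15) && decide (y < 15) && decide (y ∈ P))

def no (N : List ℕ) (x y : ℕ) : Bool :=
  if x < 15 then (if y < 15 then !(ba x y) else (decide (y = 15) && decide (x ∈ N)))
  else (decide (x = 15) && decide (y < 15) && decide (y ∈ N))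

def chk (P N : List ℕ) : Ct → Bool
  | .D x y a b => yes P x y && yes P x a && yes P y a && yes P x b && yes P y b && decide (a ≠ b) &&
      no N a b
  | .F p x y a b c => yes P x y && yes P a b && yes P b c && decide (a ≠ c) && no N a c && no N p x &&
      no N p y && no N p a && no N p b && no N p c && no N x a && no N x b && no N x c &&
      no N y a && no N y b && no N y c

def inT (k q : ℕ) : Bool := decide (11 ≤ (2 * q + 30 - k) % 30) && decide ((2 * q + 30 - k) % 30 ≤ 19)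

def run : Tr → List ℕ → List ℕ → Bool
  | .B i t1 t2, P, N => decide (i < 15) && run t1 (i :: P) N && run t2 P (i :: N)
  | .neg i c t, P, N => chk (i :: P) N c && run t P (i :: N)
  | .pos i c t, P, N => chk P (i :: N) c && run t (i :: P) N
  | .X c, P, N => chk P N c
  | .T k, P, N => decide (k < 30) &&
      (List.range 15).all fun q => if inT k q then decide (q ∈ P) else decide (q ∈ N)

def theTree : Tr := (.B 0
 (.B 5
 (.neg 9 (.D 15 0 9 5) (.neg 13 (.D 15 5 0 13) (.neg 12 (.D 5 15 0 12) (.neg 6 (.D 0 15 6 5) (.neg 14 (.D 15 5 0 14) (.neg 8 (.D 0 15 8 5) (.neg 11 (.D 15 5 0 11) (.pos 10 (.D 5 0 15 10) (.neg 7 (.D 0 15 5 7) (.pos 3 (.F 7 5 15 9 3 8) (.pos 2 (.F 13 15 0 11 2 12) (.X (.F 12 10 15 8 14 9)))))))))))))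
 (.neg 10 (.D 10 0 5 15) (.B 6
 (.neg 13 (.D 6 15 13 0) (.neg 12 (.D 6 15 12 0) (.neg 7 (.D 0 15 6 7) (.neg 11 (.D 15 6 0 11) (.neg 14 (.D 6 15 0 14) (.neg 1 (.D 6 1 15 11) (.neg 8 (.D 15 0 8 6) (.neg 9 (.D 0 15 9 6) (.pos 3 (.F 5 6 15 8 3 9) (.X (.F 15 9 1 13 5 12)))))))))))
 (.B 7
 (.neg 1 (.D 15 7 1 0) (.neg 13 (.D 15 7 13 0) (.neg 14 (.D 7 15 0 14) (.neg 8 (.D 0 15 8 7) (.neg 9 (.D 15 0 7 9) (.neg 2 (.D 15 7 2 0) (.neg 12 (.D 7 15 12 0) (.X (.F 15 9 1 13 5 12)))))))))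
 (.B 8
 (.neg 1 (.D 15 8 1 0) (.neg 9 (.D 0 15 9 8) (.neg 14 (.D 8 15 14 0) (.neg 13 (.D 8 15 13 0) (.neg 3 (.D 8 15 3 0) (.neg 2 (.D 8 15 0 2) (.pos 12 (.F 15 9 1 13 5 12) (.neg 11 (.F 13 9 14 11 15 12) (.pos 4 (.F 6 15 8 4 10 5) (.X (.F 5 15 4 7 1 6)))))))))))
 (.B 9
 (.neg 4 (.D 9 15 4 0) (.neg 1 (.D 9 15 1 0) (.neg 14 (.D 9 15 0 14) (.neg 3 (.D 15 9 3 0) (.neg 2 (.D 9 15 2 0) (.pos 11 (.F 7 15 9 10 5 11) (.pos 13 (.F 2 15 0 13 4 14) (.pos 12 (.F 8 9 15 7 12 5) (.X (.F 10 14 8 11 15 12))))))))))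
 (.B 1
 (.neg 11 (.D 1 11 6 15) (.B 2
 (.neg 12 (.D 12 2 7 15) (.B 3
 (.neg 13 (.D 13 3 15 8) (.B 4
 (.neg 14 (.D 14 4 9 15) (.T 19))
 (.B 14
 (.T 17)
 (.T 18))))
 (.pos 14 (.F 3 5 14 2 15 1) (.neg 4 (.D 14 4 9 15) (.B 13
 (.T 15)
 (.T 16))))))
 (.pos 13 (.F 15 6 13 10 2 9) (.pos 14 (.F 14 2 11 0 15 13) (.neg 4 (.F 6 15 4 8 2 7) (.neg 3 (.D 13 3 15 8) (.B 12
 (.T 13)
 (.T 14))))))))
 (.neg 4 (.F 5 15 4 7 1 6) (.pos 12 (.F 15 1 8 4 12 5) (.pos 13 (.F 13 15 12 10 1 9) (.neg 3 (.F 4 3 15 7 1 6) (.pos 14 (.F 10 14 9 13 15 12) (.neg 2 (.D 12 2 7 15) (.B 11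
 (.T 11)
 (.T 12)))))))))))))))
 (.B 5
 (.neg 10 (.D 5 10 15 0) (.B 11
 (.neg 2 (.D 11 15 2 5) (.neg 4 (.D 15 11 4 5) (.neg 6 (.D 15 11 6 5) (.neg 1 (.D 15 11 1 5) (.neg 14 (.D 15 5 14 11) (.neg 3 (.D 15 11 3 5) (.neg 12 (.D 5 15 12 11) (.neg 13 (.D 5 15 11 13) (.pos 7 (.F 3 15 5 7 1 6) (.pos 9 (.F 6 15 7 10 3 9) (.neg 8 (.F 10 6 12 9 15 8) (.X (.F 15 2 10 14 6 13)))))))))))))
 (.B 12
 (.neg 3 (.D 15 12 3 5) (.neg 7 (.D 12 15 5 7) (.neg 14 (.D 5 15 14 12) (.neg 2 (.D 12 15 5 2) (.neg 13 (.D 5 15 12 13) (.neg 6 (.D 15 12 5 6) (.neg 4 (.D 12 15 5 4) (.pos 9 (.F 7 5 15 3 9 4) (.neg 8 (.F 7 11 6 9 15 8) (.X (.F 11 12 15 13 8 14)))))))))))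
 (.B 13
 (.neg 3 (.D 15 13 3 5) (.neg 4 (.D 15 13 5 4) (.neg 8 (.D 13 8 3 15) (.neg 6 (.D 15 13 6 5) (.neg 14 (.D 15 5 13 14) (.neg 7 (.D 13 15 5 7) (.pos 9 (.F 7 5 15 9 3 8) (.pos 1 (.F 12 15 13 0 10 1) (.pos 2 (.F 14 13 15 12 2 11) (.X (.F 8 9 15 6 12 7)))))))))))
 (.B 14
 (.neg 9 (.D 15 14 9 5) (.neg 4 (.D 14 15 5 4) (.neg 7 (.D 14 15 5 7) (.neg 8 (.D 15 14 8 5) (.neg 6 (.D 14 15 5 6) (.pos 3 (.F 7 5 15 9 3 8) (.pos 1 (.F 13 14 15 0 10 1) (.pos 2 (.F 4 2 7 3 15 5) (.X (.F 4 6 0 3 15 2))))))))))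
 (.B 1
 (.neg 6 (.D 6 1 15 11) (.neg 8 (.F 10 8 15 11 6 12) (.pos 4 (.F 0 15 1 13 4 14) (.pos 2 (.F 15 2 10 14 6 13) (.neg 9 (.F 10 15 9 12 6 11) (.pos 3 (.F 3 15 2 14 6 0) (.neg 7 (.D 15 7 2 1) (.T 21))))))))
 (.B 2
 (.neg 7 (.D 2 7 12 15) (.pos 3 (.F 15 3 11 0 7 14) (.pos 4 (.F 0 2 15 14 4 13) (.neg 9 (.F 11 15 9 13 7 12) (.neg 8 (.D 8 15 3 2) (.B 6
 (.T 23)
 (.T 22)))))))
 (.pos 6 (.F 15 2 10 14 6 13) (.B 3
 (.neg 8 (.D 3 8 15 13) (.pos 4 (.F 4 2 8 6 15 5) (.neg 9 (.D 9 15 4 3) (.B 7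
 (.T 25)
 (.T 24)))))
 (.pos 7 (.F 3 2 7 6 15 5) (.B 4
 (.neg 9 (.D 9 4 14 15) (.B 8
 (.T 27)
 (.T 26)))
 (.pos 8 (.F 4 2 8 6 15 5) (.B 9
 (.T 29)
 (.T 28))))))))))))))
 (.B 1
 (.B 2
 (.neg 10 (.D 15 10 2 1) (.neg 7 (.D 15 7 2 1) (.neg 9 (.D 15 9 2 1) (.neg 12 (.D 12 2 7 15) (.neg 11 (.D 11 15 2 1) (.neg 8 (.D 8 15 1 2) (.pos 3 (.F 3 5 0 1 15 2) (.neg 13 (.F 11 13 15 10 0 9) (.pos 4 (.F 4 3 15 7 0 5) (.neg 6 (.D 6 1 15 11) (.neg 14 (.D 14 4 9 15) (.T 20))))))))))))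
 (.neg 4 (.F 2 0 5 1 15 4) (.pos 12 (.F 0 15 1 2 12 4) (.pos 14 (.F 2 15 1 14 5 0) (.pos 13 (.F 2 15 1 13 5 0) (.neg 3 (.F 4 0 5 3 15 1) (.pos 11 (.F 0 2 11 14 15 13) (.neg 9 (.D 9 14 15 4) (.neg 6 (.D 6 15 12 13) (.neg 8 (.D 8 15 14 1) (.neg 7 (.D 7 12 15 2) (.X (.D 1 11 6 15)))))))))))))
 (.B 2
 (.neg 3 (.F 1 0 5 2 15 3) (.pos 13 (.F 1 2 15 5 13 3) (.neg 4 (.F 3 0 5 2 15 4) (.pos 6 (.F 3 2 15 5 0 6) (.pos 14 (.F 3 2 15 14 5 0) (.neg 8 (.D 15 8 2 14) (.neg 9 (.D 9 14 15 4) (.neg 12 (.D 6 15 12 13) (.neg 7 (.D 7 15 13 2) (.neg 11 (.D 11 15 2 6) (.X (.D 6 15 13 14))))))))))))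
 (.B 3
 (.pos 14 (.F 2 3 15 14 5 0) (.pos 6 (.F 2 15 3 6 0 5) (.pos 7 (.F 5 2 7 3 15 6) (.neg 4 (.F 1 0 5 3 15 4) (.neg 9 (.D 9 14 15 4) (.neg 8 (.D 14 15 8 7) (.neg 12 (.D 15 6 12 14) (.neg 13 (.D 13 3 15 8) (.neg 11 (.D 6 11 15 1) (.X (.D 15 14 7 6)))))))))))
 (.B 4
 (.pos 8 (.F 5 15 4 2 8 1) (.pos 7 (.F 3 4 15 0 7 2) (.pos 6 (.F 2 15 4 5 0 6) (.pos 9 (.F 5 15 6 2 9 3) (.neg 14 (.D 14 15 8 7) (.neg 12 (.D 15 12 6 4) (.neg 13 (.D 15 13 6 8) (.neg 10 (.D 4 15 10 9) (.neg 11 (.D 15 11 6 4) (.X (.D 9 4 14 15)))))))))))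
 (.B 6
 (.neg 11 (.D 6 11 15 1) (.neg 14 (.F 0 15 14 1 11 2) (.pos 9 (.F 5 6 15 3 9 4) (.pos 7 (.F 15 3 11 0 7 14) (.pos 8 (.F 8 15 7 5 11 4) (.neg 13 (.F 14 13 15 2 11 1) (.neg 12 (.D 7 12 15 2) (.B 10
 (.T 1)
 (.T 0)))))))))
 (.B 7
 (.neg 12 (.D 7 12 15 2) (.pos 8 (.F 15 1 8 4 12 5) (.pos 9 (.F 5 7 15 4 9 3) (.pos 10 (.F 6 15 7 5 10 4) (.neg 14 (.F 1 15 14 2 12 3) (.neg 13 (.D 13 8 3 15) (.B 11
 (.T 3)
 (.T 2))))))))
 (.pos 11 (.F 15 0 7 4 11 3) (.B 8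
 (.neg 13 (.D 13 8 3 15) (.pos 10 (.F 6 15 8 4 10 5) (.pos 9 (.F 9 7 13 10 15 11) (.neg 14 (.D 9 14 15 4) (.B 12
 (.T 5)
 (.T 4))))))
 (.pos 12 (.F 15 1 8 4 12 5) (.B 9
 (.neg 14 (.D 9 14 15 4) (.pos 10 (.F 10 14 8 11 15 12) (.B 13
 (.T 7)
 (.T 6))))
 (.pos 13 (.F 13 12 15 1 9 0) (.B 10
 (.B 14
 (.T 9)
 (.T 8))
 (.pos 14 (.F 14 10 0 13 15 12) (.T 10))))))))))))))))

theorem run_theTree : run theTree [] [] = true := by decide +kernel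

theorem ba_iff : ∀ p q : Fin 15, ba p.val q.val = true ↔
    (5 ≤ ((q.val : ZMod 15) - (p.val : ZMod 15)).val ∧
      ((q.val : ZMod 15) - (p.val : ZMod 15)).val ≤ 10) := by
  decide +kernel

theorem sep15 : ∀ p q : ZMod 15, p ≠ q → ∃ r : ZMod 15, (5 ≤ (r - p).val ∧ (r - p).val ≤ 10) ∧
    ¬ (5 ≤ (r - q).val ∧ (r - q).val ≤ 10) := by
  decide +kernel

theorem inT_iff : ∀ k : Fin 30, ∀ q : ZMod 15, inT k.val q.val = true ↔
    (11 ≤ (2 * (q.val : ZMod 30) - (k.val : ZMod 30)).val ∧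
      (2 * (q.val : ZMod 30) - (k.val : ZMod 30)).val ≤ 19) := by
  decide +kernel

/-- the vertex with a given number -/
noncomputable def wv (b : ZMod 15 → V) (v : V) (x : ℕ) : V := if x < 15 then b (x : ZMod 15) else v

theorem adj_base {b : ZMod 15 → V} (hb : CB G b) {x y : ℕ} (hx : x < 15) (hy : y < 15) :
    G.Adj (b (x : ZMod 15)) (b (y : ZMod 15)) ↔ ba x y = true := by
  have := ba_iff ⟨x, hx⟩ ⟨y, hy⟩
  rw [this]
  exact hb _ _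

theorem yes_sound {b : ZMod 15 → V} (hb : CB G b) {v : V} {P : List ℕ}
    (hP : ∀ i ∈ P, i < 15 → G.Adj v (b (i : ZMod 15))) {x y : ℕ} (h : yes P x y = true) :
    G.Adj (wv b v x) (wv b v y) := by
  unfold yes at h
  unfold wv
  by_cases hx : x < 15
  · by_cases hy : y < 15
    · simp only [hx, hy, if_true] at h ⊢
      exact (adj_base hb hx hy).2 h
    · simp only [hx, hy, if_true, if_false, Bool.and_eq_true, decide_eq_true_eq] at h ⊢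
      exact (hP x h.2 hx).symm
  · simp only [hx, if_false, Bool.and_eq_true, decide_eq_true_eq] at h ⊢
    obtain ⟨⟨h1, h2⟩, h3⟩ := h
    simp only [h2, if_true]
    exact hP y h3 h2

theorem no_sound {b : ZMod 15 → V} (hb : CB G b) {v : V} {N : List ℕ}
    (hN : ∀ i ∈ N, i < 15 → ¬ G.Adj v (b (i : ZMod 15))) {x y : ℕ} (h : no N x y = true) :
    ¬ G.Adj (wv b v x) (wv b v y) := by
  unfold no at h
  unfold wv
  by_cases hx : x < 15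
  · by_cases hy : y < 15
    · simp only [hx, hy, if_true] at h ⊢
      intro h'
      rw [adj_base hb hx hy] at h'
      simp [h'] at h
    · simp only [hx, hy, if_true, if_false, Bool.and_eq_true, decide_eq_true_eq] at h ⊢
      exact fun h' => hN x h.2 hx h'.symm
  · simp only [hx, if_false, Bool.and_eq_true, decide_eq_true_eq] at h ⊢
    obtain ⟨⟨h1, h2⟩, h3⟩ := h
    simp only [h2, if_true]
    exact hN y h3 h2

theorem no_bd {N : List ℕ} {x y : ℕ} (h : no N x y = true) : x ≤ 15 ∧ y ≤ 15 := by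
  unfold no at h
  by_cases hx : x < 15
  · by_cases hy : y < 15
    · omega
    · simp only [hx, hy, if_true, if_false, Bool.and_eq_true, decide_eq_true_eq] at h
      omega
  · simp only [hx, if_false, Bool.and_eq_true, decide_eq_true_eq] at h
    omega

theorem wv_inj {b : ZMod 15 → V} (hb : CB G b) {v : V} (hv : ∀ q, v ≠ b q) {x y : ℕ}
    (hx : x ≤ 15) (hy : y ≤ 15) (hne : x ≠ y) : wv b v x ≠ wv b v y := by
  unfold wv
  by_cases hx' : x < 15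
  · by_cases hy' : y < 15
    · simp only [hx', hy', if_true]
      intro h
      have hne' : (x : ZMod 15) ≠ (y : ZMod 15) := by
        intro h'
        rw [ZMod.natCast_eq_natCast_iff'] at h'
        rw [Nat.mod_eq_of_lt hx', Nat.mod_eq_of_lt hy'] at h'
        exact hne h'
      obtain ⟨r, h1, h2⟩ := sep15 _ _ hne'
      have h3 := (hb (x : ZMod 15) r).2 h1
      rw [h] at h3
      exact h2 ((hb (y : ZMod 15) r).1 h3)
    · simp only [hx', hy', if_true, if_false]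
      exact fun h => hv _ h.symm
  · have hy' : y < 15 := by omega
    simp only [hx', hy', if_true, if_false]
    exact hv _

theorem chk_sound {b : ZMod 15 → V} (hd : NoDia G) (hf : NoP1P2P3 G) (hb : CB G b) {v : V}
    (hv : ∀ q, v ≠ b q) {P N : List ℕ}
    (hP : ∀ i ∈ P, i < 15 → G.Adj v (b (i : ZMod 15)))
    (hN : ∀ i ∈ N, i < 15 → ¬ G.Adj v (b (i : ZMod 15))) {c : Ct} (h : chk P N c = true) : False := by
  have Y : ∀ {x y}, yes P x y = true → G.Adj (wv b v x) (wv b v y) := fun h => yes_sound hb hP h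
  have O : ∀ {x y}, no N x y = true → ¬ G.Adj (wv b v x) (wv b v y) := fun h => no_sound hb hN h
  cases c with
  | D x y a b' =>
    simp only [chk, Bool.and_eq_true, decide_eq_true_eq] at h
    obtain ⟨⟨⟨⟨⟨⟨h1, h2⟩, h3⟩, h4⟩, h5⟩, h6⟩, h7⟩ := h
    have hbd := no_bd h7
    exact O h7 (hd _ _ _ _ (Y h1) (Y h2) (Y h3) (Y h4) (Y h5) (wv_inj hb hv hbd.1 hbd.2 h6))
  | F p x y a b' c =>
    simp only [chk, Bool.and_eq_true, decide_eq_true_eq] at h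
    obtain ⟨⟨⟨⟨⟨⟨⟨⟨⟨⟨⟨⟨⟨⟨⟨h1, h2⟩, h3⟩, h4⟩, h5⟩, h6⟩, h7⟩, h8⟩, h9⟩, h10⟩, h11⟩, h12⟩, h13⟩, h14⟩,
      h15⟩, h16⟩ := h
    have hbd := no_bd h5
    exact hf _ _ _ _ _ _ (Y h1) (Y h2) (Y h3) (wv_inj hb hv hbd.1 hbd.2 h4) (O h5) (O h6) (O h7)
      (O h8) (O h9) (O h10) (O h11) (O h12) (O h13) (O h14) (O h15) (O h16)

theorem run_sound {b : ZMod 15 → V} (hd : NoDia G) (hf : NoP1P2P3 G) (hb : CB G b) {v : V}
    (hv : ∀ q, v ≠ b q) (t : Tr) : ∀ (P N : List ℕ),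
    (∀ i ∈ P, i < 15 → G.Adj v (b (i : ZMod 15))) →
    (∀ i ∈ N, i < 15 → ¬ G.Adj v (b (i : ZMod 15))) → run t P N = true → ∃ k, AtP G b k v := by
  have cP : ∀ {i : ℕ} {P : List ℕ}, G.Adj v (b (i : ZMod 15)) →
      (∀ i ∈ P, i < 15 → G.Adj v (b (i : ZMod 15))) →
      ∀ j ∈ i :: P, j < 15 → G.Adj v (b (j : ZMod 15)) := by
    intro i P h hP j hj hj'
    rcases List.mem_cons.1 hj with rfl | hj
    · exact h
    · exact hP j hj hj'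
  have cN : ∀ {i : ℕ} {N : List ℕ}, ¬ G.Adj v (b (i : ZMod 15)) →
      (∀ i ∈ N, i < 15 → ¬ G.Adj v (b (i : ZMod 15))) →
      ∀ j ∈ i :: N, j < 15 → ¬ G.Adj v (b (j : ZMod 15)) := by
    intro i N h hN j hj hj'
    rcases List.mem_cons.1 hj with rfl | hj
    · exact h
    · exact hN j hj hj'
  induction t with
  | B i t1 t2 ih1 ih2 =>
    intro P N hP hN h
    simp only [run, Bool.and_eq_true, decide_eq_true_eq] at h
    by_cases hi : G.Adj v (b (i : ZMod 15))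
    · exact ih1 _ _ (cP hi hP) hN h.1.2
    · exact ih2 _ _ hP (cN hi hN) h.2
  | neg i c t ih =>
    intro P N hP hN h
    simp only [run, Bool.and_eq_true] at h
    by_cases hi : G.Adj v (b (i : ZMod 15))
    · exact (chk_sound hd hf hb hv (cP hi hP) hN h.1).elim
    · exact ih _ _ hP (cN hi hN) h.2
  | pos i c t ih =>
    intro P N hP hN h
    simp only [run, Bool.and_eq_true] at h
    by_cases hi : G.Adj v (b (i : ZMod 15))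
    · exact ih _ _ (cP hi hP) hN h.2
    · exact (chk_sound hd hf hb hv hP (cN hi hN) h.1).elim
  | X c =>
    intro P N hP hN h
    exact (chk_sound hd hf hb hv hP hN h).elim
  | T k =>
    intro P N hP hN h
    simp only [run, Bool.and_eq_true, decide_eq_true_eq, List.all_eq_true, List.mem_range] at h
    obtain ⟨hk, h⟩ := h
    refine ⟨(k : ZMod 30), fun q => ?_⟩
    have hq : q.val < 15 := ZMod.val_lt q
    have hqq : ((q.val : ℕ) : ZMod 15) = q := ZMod.natCast_zmod_val q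
    have h1 := inT_iff ⟨k, hk⟩ q
    simp only at h1
    rw [← h1]
    have h2 := h q.val hq
    by_cases h3 : inT k q.val = true
    · simp only [h3, if_true, decide_eq_true_eq] at h2
      have := hP _ h2 hq
      rw [hqq] at this
      exact ⟨fun _ => h3, fun _ => this⟩
    · have h3' : inT k q.val = false := by simpa using h3
      simp only [h3', Bool.false_eq_true, if_false, decide_eq_true_eq] at h2
      have := hN _ h2 hq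
      rw [hqq] at this
      exact ⟨fun h4 => absurd h4 this, fun h4 => absurd h4 h3⟩

/-- TARGET -/
theorem cy_type1 {b : ZMod 15 → V} (hd : NoDia G) (hf : NoP1P2P3 G) (hb : CB G b) (v : V) :
    (∃ q, v = b q) ∨ ∃ k, AtP G b k v := by
  by_cases hv : ∃ q, v = b q
  · exact Or.inl hv
  · push Not at hv
    refine Or.inr (run_sound hd hf hb hv theTree [] [] ?_ ?_ run_theTree) <;> simp

end CyType1

end Pool.Agent.Helper856.Cw
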