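import Pool.Agent.Helper856.Pair.Defs
import Pool.Agent.Helper856.Pair.CyType1
import Pool.Agent.Helper856.Pair.CyRel1

open Classical SimpleGraph

namespace Pool.Agent.Helper856.Cw

open CyType1 (cy_type1)
open CyRel1 (cy_rel1)

namespace CyMisc1

variable {V : Type} {G : SimpleGraph V} {S T : Finset V} {k l : ℕ}

theorem rot_cb {b : ZMod 15 → V} (hb : CB G b) (r : ZMod 15) : CB G (fun q => b (r + q)) := by
  intro p q
  have := hb (r + p) (r + q)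
  rwa [show r + q - (r + p) = q - p by ring] at this

theorem two_add_val (r q : ZMod 15) :
    2 * ((r + q).val : ZMod 30) = 2 * (r.val : ZMod 30) + 2 * (q.val : ZMod 30) := by
  revert r q; decide

theorem rot_at {b : ZMod 15 → V} {d : ZMod 30} (r : ZMod 15) {v : V}
    (h : AtP G b (2 * (r.val : ZMod 30) + d) v) : AtP G (fun q => b (r + q)) d v := by
  intro q
  have := h (r + q)
  rwa [show 2 * ((r + q).val : ZMod 30) - (2 * (r.val : ZMod 30) + d) = 2 * (q.val : ZMod 30) - d by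
    rw [two_add_val]; ring] at this

theorem ex_even (k : ZMod 30) (hk : Even k.val) : ∃ r : ZMod 15, k = 2 * (r.val : ZMod 30) := by
  revert k; decide

theorem ex_odd (k : ZMod 30) (hk : ¬Even k.val) : ∃ r : ZMod 15, k = 2 * (r.val : ZMod 30) + 1 := by
  revert k; decide

/-- two vertices with the same position are not adjacent -/
theorem same_na {b : ZMod 15 → V} (hd : NoDia G) (hf : NoP1P2P3 G) (hb : CB G b) {k : ZMod 30}
    {v w : V} (hv : AtP G b k v) (hw : AtP G b k w) : ¬G.Adj v w := by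
  intro h
  have h2 := (cy_rel1 hd hf hb hv hw h.ne).2.1
  rw [sub_self] at h2
  exact h2 (Or.inl (by decide)) h

theorem base_ne {b : ZMod 15 → V} (hb : CB G b) {p q r : ZMod 15}
    (h1 : 5 ≤ (r - p).val ∧ (r - p).val ≤ 10) (h2 : ¬(5 ≤ (r - q).val ∧ (r - q).val ≤ 10)) :
    b p ≠ b q := by
  intro h
  have h3 := (hb p r).2 h1
  rw [h] at h3
  exact h2 ((hb q r).1 h3)

theorem at_ne {b : ZMod 15 → V} {k l : ZMod 30} {v w : V} (hv : AtP G b k v) (hw : AtP G b l w)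
    (q : ZMod 15)
    (h1 : 11 ≤ (2 * (q.val : ZMod 30) - k).val ∧ (2 * (q.val : ZMod 30) - k).val ≤ 19)
    (h2 : ¬(11 ≤ (2 * (q.val : ZMod 30) - l).val ∧ (2 * (q.val : ZMod 30) - l).val ≤ 19)) :
    v ≠ w := by
  intro h
  have h3 := (hv q).2 h1
  rw [h] at h3
  exact h2 ((hw q).1 h3)

theorem base_ne_at {b : ZMod 15 → V} (hb : CB G b) {k : ZMod 30} {v : V} (hv : AtP G b k v)
    (p : ZMod 15) : b p ≠ v := by
  intro h
  have h1 : ∀ q : ZMod 15, (5 ≤ (q - p).val ∧ (q - p).val ≤ 10) ↔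
      (11 ≤ (2 * (q.val : ZMod 30) - k).val ∧ (2 * (q.val : ZMod 30) - k).val ≤ 19) := by
    intro q
    rw [← hb p q, ← hv q, h]
  have h2 : ∀ (p : ZMod 15) (k : ZMod 30), ∃ q : ZMod 15, ¬((5 ≤ (q - p).val ∧ (q - p).val ≤ 10) ↔
      (11 ≤ (2 * (q.val : ZMod 30) - k).val ∧ (2 * (q.val : ZMod 30) - k).val ≤ 19)) := by decide
  obtain ⟨q, hq⟩ := h2 p k
  exact hq (h1 q)

theorem na_at {b : ZMod 15 → V} {k : ZMod 30} {v : V} (hv : AtP G b k v) (q : ZMod 15)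
    (h : ¬(11 ≤ (2 * (q.val : ZMod 30) - k).val ∧ (2 * (q.val : ZMod 30) - k).val ≤ 19)) :
    ¬G.Adj (b q) v := fun h1 => h ((hv q).1 h1.symm)

theorem na_at' {b : ZMod 15 → V} {k : ZMod 30} {v : V} (hv : AtP G b k v) (q : ZMod 15)
    (h : ¬(11 ≤ (2 * (q.val : ZMod 30) - k).val ∧ (2 * (q.val : ZMod 30) - k).val ≤ 19)) :
    ¬G.Adj v (b q) := fun h1 => h ((hv q).1 h1)

theorem na_b {b : ZMod 15 → V} (hb : CB G b) (p q : ZMod 15)
    (h : ¬(5 ≤ (q - p).val ∧ (q - p).val ≤ 10)) : ¬G.Adj (b p) (b q) := fun h1 => h ((hb p q).1 h1)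

theorem nit1_0 {b : ZMod 15 → V} (hf : NoP1P2P3 G) (hb : CB G b)
    {x y z : V} (hx : AtP G b 1 x)
    (hy : AtP G b 11 y) (hz : AtP G b 21 z) (h1 : ¬G.Adj x y) (h2 : ¬G.Adj y z)
    (h3 : ¬G.Adj x z) : False :=
  hf x (b 0) y (b 1) z (b 2) ((hy 0).2 (by decide)).symm ((hz 1).2 (by decide)).symm
    ((hz 2).2 (by decide)) (base_ne hb (r := 6) (by decide) (by decide)) (na_b hb _ _ (by decide))
    (na_at' hx _ (by decide)) h1 (na_at' hx _ (by decide)) h3 (na_at' hx _ (by decide))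
    (na_b hb _ _ (by decide)) (na_at hz _ (by decide)) (na_b hb _ _ (by decide))
    (na_at' hy _ (by decide)) h2 (na_at' hy _ (by decide))

/-- the pattern `p, q r, w v w'` with base vertices 1, 0, 5 -/
theorem pat1 {b : ZMod 15 → V} (hd : NoDia G) (hf : NoP1P2P3 G) (hb : CB G b) {k l : ZMod 30}
    {w w' v : V} (hw : AtP G b k w) (hw' : AtP G b k w') (hv : AtP G b l v)
    (h1 : G.Adj w v) (h2 : G.Adj w' v)
    (hk : ∀ q : ZMod 15, q = 0 ∨ q = 1 ∨ q = 5 →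
      ¬(11 ≤ (2 * (q.val : ZMod 30) - k).val ∧ (2 * (q.val : ZMod 30) - k).val ≤ 19))
    (hl : ∀ q : ZMod 15, q = 0 ∨ q = 1 ∨ q = 5 →
      ¬(11 ≤ (2 * (q.val : ZMod 30) - l).val ∧ (2 * (q.val : ZMod 30) - l).val ≤ 19)) :
    w = w' := by
  by_contra hne
  exact hf (b 1) (b 0) (b 5) w v w' ((hb 0 5).2 (by decide)) h1 h2.symm hne
    (same_na hd hf hb hw hw') (na_b hb _ _ (by decide)) (na_b hb _ _ (by decide))
    (na_at hw _ (hk _ (by decide))) (na_at hv _ (hl _ (by decide))) (na_at hw' _ (hk _ (by decide)))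
    (na_at hw _ (hk _ (by decide))) (na_at hv _ (hl _ (by decide))) (na_at hw' _ (hk _ (by decide)))
    (na_at hw _ (hk _ (by decide))) (na_at hv _ (hl _ (by decide))) (na_at hw' _ (hk _ (by decide)))

/-- the pattern `p, q r, w v w'` with base vertices 11, 0, 10 -/
theorem pat2 {b : ZMod 15 → V} (hd : NoDia G) (hf : NoP1P2P3 G) (hb : CB G b) {k l : ZMod 30}
    {w w' v : V} (hw : AtP G b k w) (hw' : AtP G b k w') (hv : AtP G b l v)
    (h1 : G.Adj w v) (h2 : G.Adj w' v)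
    (hk : ∀ q : ZMod 15, q = 0 ∨ q = 11 ∨ q = 10 →
      ¬(11 ≤ (2 * (q.val : ZMod 30) - k).val ∧ (2 * (q.val : ZMod 30) - k).val ≤ 19))
    (hl : ∀ q : ZMod 15, q = 0 ∨ q = 11 ∨ q = 10 →
      ¬(11 ≤ (2 * (q.val : ZMod 30) - l).val ∧ (2 * (q.val : ZMod 30) - l).val ≤ 19)) :
    w = w' := by
  by_contra hne
  exact hf (b 11) (b 0) (b 10) w v w' ((hb 0 10).2 (by decide)) h1 h2.symm hne
    (same_na hd hf hb hw hw') (na_b hb _ _ (by decide)) (na_b hb _ _ (by decide))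
    (na_at hw _ (hk _ (by decide))) (na_at hv _ (hl _ (by decide))) (na_at hw' _ (hk _ (by decide)))
    (na_at hw _ (hk _ (by decide))) (na_at hv _ (hl _ (by decide))) (na_at hw' _ (hk _ (by decide)))
    (na_at hw _ (hk _ (by decide))) (na_at hv _ (hl _ (by decide))) (na_at hw' _ (hk _ (by decide)))

theorem h1_0 {b : ZMod 15 → V} (hd : NoDia G) (hf : NoP1P2P3 G) (hb : CB G b) {w a c : V}
    (hw : AtP G b 0 w) (ha : AtP G b 9 a) (hc : AtP G b 29 c) (h1 : G.Adj w a) : G.Adj a c := by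
  by_contra hac
  have hwc : ¬G.Adj w c := by
    intro h
    exact (cy_rel1 hd hf hb hw hc h.ne).2.1 (Or.inr (by decide)) h
  exact hf (b 1) w a (b 0) (b 5) c h1 ((hb 0 5).2 (by decide)) ((hc 5).2 (by decide)).symm
    (base_ne_at hb hc 0) (na_at hc _ (by decide)) (na_at hw _ (by decide)) (na_at ha _ (by decide))
    (na_b hb _ _ (by decide)) (na_b hb _ _ (by decide)) (na_at hc _ (by decide))
    (na_at' hw _ (by decide)) (na_at' hw _ (by decide)) hwc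
    (na_at' ha _ (by decide)) (na_at' ha _ (by decide)) hac

theorem h2_0 {b : ZMod 15 → V} (hd : NoDia G) (hf : NoP1P2P3 G) (hb : CB G b) {w a c : V}
    (hw : AtP G b 0 w) (hc : AtP G b 21 c) (ha : AtP G b 1 a) (h1 : G.Adj w c) : G.Adj a c := by
  by_contra hac
  have hwa : ¬G.Adj w a := by
    intro h
    exact (cy_rel1 hd hf hb hw ha h.ne).2.1 (Or.inl (by decide)) h
  exact hf (b 11) w c (b 0) (b 10) a h1 ((hb 0 10).2 (by decide)) ((ha 10).2 (by decide)).symm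
    (base_ne_at hb ha 0) (na_at ha _ (by decide)) (na_at hw _ (by decide)) (na_at hc _ (by decide))
    (na_b hb _ _ (by decide)) (na_b hb _ _ (by decide)) (na_at ha _ (by decide))
    (na_at' hw _ (by decide)) (na_at' hw _ (by decide)) hwa
    (na_at' hc _ (by decide)) (na_at' hc _ (by decide)) (fun h => hac h.symm)

theorem u1_0 {b : ZMod 15 → V} (hd : NoDia G) (hf : NoP1P2P3 G) (hb : CB G b) {u v v' : V}
    (hu : AtP G b 1 u) (hv : AtP G b 9 v) (hv' : AtP G b 9 v') (h1 : G.Adj u v)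
    (h2 : G.Adj u v') : v = v' := by
  by_contra hne
  exact same_na hd hf hb hv hv' (hd (b 10) u v v' ((hu 10).2 (by decide)).symm
    ((hv 10).2 (by decide)).symm h1 ((hv' 10).2 (by decide)).symm h2 hne)

theorem u2_0 {b : ZMod 15 → V} (hd : NoDia G) (hf : NoP1P2P3 G) (hb : CB G b) {u u' v : V}
    (hu : AtP G b 1 u) (hu' : AtP G b 1 u') (hv : AtP G b 9 v) (h1 : G.Adj u v)
    (h2 : G.Adj u' v) : u = u' := by
  by_contra hne
  exact same_na hd hf hb hu hu' (hd (b 10) v u u' ((hv 10).2 (by decide)).symm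
    ((hu 10).2 (by decide)).symm h1.symm ((hu' 10).2 (by decide)).symm h2.symm hne)

theorem wind_C {b : ZMod 15 → V} (hd : NoDia G) (hf : NoP1P2P3 G) (hb : CB G b) {l : ZMod 30}
    {u1 u2 v1 v2 x : V} (h1 : AtP G b 1 u1)
    (h2 : AtP G b 1 u2) (h3 : AtP G b 9 v1) (h4 : AtP G b 9 v2) (hx : AtP G b l x)
    (e1 : G.Adj u1 v1) (e2 : G.Adj u2 v2) (n1 : x ≠ u1) (n3 : x ≠ v1)
    (m1 : ¬G.Adj u1 v2) (m2 : ¬G.Adj u2 v1) :
    ¬(G.Adj x u1 ∧ ¬G.Adj x v1 ∧ ¬G.Adj x u2 ∧ ¬G.Adj x v2) ∧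
    ¬(G.Adj x v1 ∧ ¬G.Adj x u1 ∧ ¬G.Adj x u2 ∧ ¬G.Adj x v2) := by
  have hdec : ∀ l : ZMod 30, ∃ p : ZMod 15,
      ¬(11 ≤ (2 * (p.val : ZMod 30) - l).val ∧ (2 * (p.val : ZMod 30) - l).val ≤ 19) ∧
      ¬(11 ≤ (2 * (p.val : ZMod 30) - 1).val ∧ (2 * (p.val : ZMod 30) - 1).val ≤ 19) ∧
      ¬(11 ≤ (2 * (p.val : ZMod 30) - 9).val ∧ (2 * (p.val : ZMod 30) - 9).val ≤ 19) := by decide
  obtain ⟨p, p1, p2, p3⟩ := hdec l
  constructor
  · rintro ⟨a, c, d, e⟩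
    exact hf (b p) u2 v2 x u1 v1 e2 a e1 n3 c (na_at h2 _ p2) (na_at h4 _ p3) (na_at hx _ p1)
      (na_at h1 _ p2) (na_at h3 _ p3) (fun h => d h.symm) (same_na hd hf hb h2 h1) m2
      (fun h => e h.symm) (fun h => m1 h.symm) (same_na hd hf hb h4 h3)
  · rintro ⟨a, c, d, e⟩
    exact hf (b p) u2 v2 x v1 u1 e2 a e1.symm n1 c (na_at h2 _ p2) (na_at h4 _ p3) (na_at hx _ p1)
      (na_at h3 _ p3) (na_at h1 _ p2) (fun h => d h.symm) m2 (same_na hd hf hb h2 h1)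
      (fun h => e h.symm) (same_na hd hf hb h4 h3) (fun h => m1 h.symm)

theorem wind_D {b : ZMod 15 → V} (hd : NoDia G) (hf : NoP1P2P3 G) (hb : CB G b) {l : ZMod 30}
    {u1 u2 v1 v2 x : V} (h1 : AtP G b 1 u1)
    (h2 : AtP G b 1 u2) (h3 : AtP G b 9 v1) (h4 : AtP G b 9 v2) (hx : AtP G b l x)
    (n2 : x ≠ u2) (n3 : x ≠ v1) :
    ¬(G.Adj x u1 ∧ G.Adj x v2 ∧ ¬G.Adj x v1 ∧ ¬G.Adj x u2) := by
  rintro ⟨a, c, d, e⟩
  have r1 := (cy_rel1 hd hf hb h1 hx a.ne').2.1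
  have r2 := (cy_rel1 hd hf hb h2 hx n2.symm).1
  have r3 := (cy_rel1 hd hf hb h4 hx c.ne').2.1
  have r4 := (cy_rel1 hd hf hb h3 hx n3.symm).1
  have s1 : ¬((l - 1).val ≤ 7 ∨ 23 ≤ (l - 1).val) := fun h => r1 h a.symm
  have s2 : ¬(11 ≤ (l - 1).val ∧ (l - 1).val ≤ 19) := fun h => e (r2 h.1 h.2).symm
  have s3 : ¬((l - 9).val ≤ 7 ∨ 23 ≤ (l - 9).val) := fun h => r3 h c.symm
  have s4 : ¬(11 ≤ (l - 9).val ∧ (l - 9).val ≤ 19) := fun h => d (r4 h.1 h.2).symm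
  have hdec : ∀ l : ZMod 30, ¬((l - 1).val ≤ 7 ∨ 23 ≤ (l - 1).val) →
      ¬(11 ≤ (l - 1).val ∧ (l - 1).val ≤ 19) → ¬((l - 9).val ≤ 7 ∨ 23 ≤ (l - 9).val) →
      ¬(11 ≤ (l - 9).val ∧ (l - 9).val ≤ 19) → False := by decide
  exact hdec l s1 s2 s3 s4

theorem wind_A {b : ZMod 15 → V} (hd : NoDia G) (hf : NoP1P2P3 G) (hb : CB G b) {l : ZMod 30}
    {u1 v1 x : V} (h1 : AtP G b 1 u1) (h3 : AtP G b 9 v1) (hx : AtP G b l x)
    (e1 : G.Adj u1 v1) (n1 : x ≠ u1) (n3 : x ≠ v1) (h10 : G.Adj x (b 10)) :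
    ¬G.Adj x u1 ∧ ¬G.Adj x v1 := by
  have b1 : G.Adj (b 10) u1 := ((h1 10).2 (by decide)).symm
  have b3 : G.Adj (b 10) v1 := ((h3 10).2 (by decide)).symm
  have key : ¬(G.Adj x u1 ∧ G.Adj x v1) := by
    rintro ⟨a, c⟩
    have r1 := (cy_rel1 hd hf hb h1 hx n1.symm).2.1
    have r3 := (cy_rel1 hd hf hb h3 hx n3.symm).2.1
    have s0 := (hx 10).1 h10
    have s1 : ¬((l - 1).val ≤ 7 ∨ 23 ≤ (l - 1).val) := fun h => r1 h a.symm
    have s3 : ¬((l - 9).val ≤ 7 ∨ 23 ≤ (l - 9).val) := fun h => r3 h c.symm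
    have hdec : ∀ l : ZMod 30, (11 ≤ (2 * (((10 : ZMod 15)).val : ZMod 30) - l).val ∧
        (2 * (((10 : ZMod 15)).val : ZMod 30) - l).val ≤ 19) →
        ¬((l - 1).val ≤ 7 ∨ 23 ≤ (l - 1).val) → ¬((l - 9).val ≤ 7 ∨ 23 ≤ (l - 9).val) → False := by
      decide
    exact hdec l s0 s1 s3
  constructor
  · intro a
    exact key ⟨a, (hd (b 10) u1 v1 x b1 b3 e1 h10.symm a.symm n3.symm).symm⟩
  · intro a
    exact key ⟨(hd (b 10) v1 u1 x b3 b1 e1.symm h10.symm a.symm n1.symm).symm, a⟩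

theorem wind_0 {b : ZMod 15 → V} (hd : NoDia G) (hf : NoP1P2P3 G) (hb : CB G b) {l : ZMod 30}
    {u1 u2 v1 v2 x : V} (h1 : AtP G b 1 u1)
    (h2 : AtP G b 1 u2) (h3 : AtP G b 9 v1) (h4 : AtP G b 9 v2) (hx : AtP G b l x)
    (e1 : G.Adj u1 v1) (e2 : G.Adj u2 v2) (hu : u1 ≠ u2) (n1 : x ≠ u1) (n2 : x ≠ u2) (n3 : x ≠ v1)
    (n4 : x ≠ v2) : (G.Adj x u1 ↔ G.Adj x u2) ∧ (G.Adj x v1 ↔ G.Adj x v2) := by
  have hv : v1 ≠ v2 := by
    intro h
    subst h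
    exact hu (u2_0 hd hf hb h1 h2 h3 e1 e2)
  have m1 : ¬G.Adj u1 v2 := fun h => hv (u1_0 hd hf hb h1 h3 h4 e1 h)
  have m2 : ¬G.Adj u2 v1 := fun h => hv (u1_0 hd hf hb h2 h3 h4 h e2)
  by_cases h10 : G.Adj x (b 10)
  · have A1 := wind_A hd hf hb h1 h3 hx e1 n1 n3 h10
    have A2 := wind_A hd hf hb h2 h4 hx e2 n2 n4 h10
    exact ⟨⟨fun h => absurd h A1.1, fun h => absurd h A2.1⟩,
      ⟨fun h => absurd h A1.2, fun h => absurd h A2.2⟩⟩
  · have B1 : ¬(G.Adj x u1 ∧ G.Adj x v1) := by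
      rintro ⟨a, c⟩
      exact h10 (hd u1 v1 (b 10) x e1 ((h1 10).2 (by decide)) ((h3 10).2 (by decide)) a.symm c.symm
        (base_ne_at hb hx 10)).symm
    have B2 : ¬(G.Adj x u2 ∧ G.Adj x v2) := by
      rintro ⟨a, c⟩
      exact h10 (hd u2 v2 (b 10) x e2 ((h2 10).2 (by decide)) ((h4 10).2 (by decide)) a.symm c.symm
        (base_ne_at hb hx 10)).symm
    obtain ⟨C1, C2⟩ := wind_C hd hf hb h1 h2 h3 h4 hx e1 e2 n1 n3 m1 m2
    obtain ⟨C3, C4⟩ := wind_C hd hf hb h2 h1 h4 h3 hx e2 e1 n2 n4 m2 m1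
    have D1 := wind_D hd hf hb h1 h2 h3 h4 hx n2 n3
    have D2 := wind_D hd hf hb h2 h1 h4 h3 hx n1 n4
    clear e1 e2 hu n1 n2 n3 n4 hv m1 m2 h10 h1 h2 h3 h4 hx hb hd hf
    by_cases a1 : G.Adj x u1 <;> by_cases a2 : G.Adj x u2 <;> by_cases c1 : G.Adj x v1 <;>
      by_cases c2 : G.Adj x v2 <;> simp_all

/-- TARGET -/
theorem cy_nit1 {b : ZMod 15 → V} (hd : NoDia G) (hf : NoP1P2P3 G) (hb : CB G b) {k l : ZMod 30} {x y z : V} (hk : ¬Even k.val) (hx : AtP G b k x)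
    (hy : AtP G b (k + 10) y) (hz : AtP G b (k + 20) z) (h1 : ¬G.Adj x y) (h2 : ¬G.Adj y z)
    (h3 : ¬G.Adj x z) : False := by
  obtain ⟨r, rfl⟩ := ex_odd k hk
  have hb' := rot_cb hb r
  exact nit1_0 hf hb' (rot_at r hx) (rot_at (d := 11) r (by rw [show (2 * (r.val : ZMod 30) + 11) = _ from (by ring : (2 * (r.val : ZMod 30) + 11) = 2 * (r.val : ZMod 30) + 1 + 10)]; exact hy)) (rot_at (d := 21) r (by rw [show (2 * (r.val : ZMod 30) + 21) = _ from (by ring : (2 * (r.val : ZMod 30) + 21) = 2 * (r.val : ZMod 30) + 1 + 20)]; exact hz)) h1 h2 h3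

/-- TARGET -/
theorem cy_two {b : ZMod 15 → V} (hd : NoDia G) (hf : NoP1P2P3 G) (hb : CB G b) {k l : ZMod 30} {w w' v : V} (hk : Even k.val) (hw : AtP G b k w)
    (hw' : AtP G b k w') (hv : AtP G b (k + 10) v) : w = w' := by
  obtain ⟨r, rfl⟩ := ex_even k hk
  have hb' := rot_cb hb r
  have w0 := (rot_at (d := 0) r (by rw [add_zero]; exact hw))
  have w1 := (rot_at (d := 0) r (by rw [add_zero]; exact hw'))
  have v0 := rot_at r hv
  have a1 : G.Adj w v := (cy_rel1 hd hf hb' w0 v0 (at_ne w0 v0 6 (by decide) (by decide))).2.2.1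
    (by decide) (by decide)
  have a2 : G.Adj w' v := (cy_rel1 hd hf hb' w1 v0 (at_ne w1 v0 6 (by decide) (by decide))).2.2.1
    (by decide) (by decide)
  exact pat1 hd hf hb' w0 w1 v0 a1 a2 (by decide) (by decide)

/-- TARGET -/
theorem cy_two' {b : ZMod 15 → V} (hd : NoDia G) (hf : NoP1P2P3 G) (hb : CB G b) {k l : ZMod 30} {w w' v : V} (hk : Even k.val) (hw : AtP G b k w)
    (hw' : AtP G b k w') (hv : AtP G b (k + 20) v) : w = w' := by
  obtain ⟨r, rfl⟩ := ex_even k hk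
  have hb' := rot_cb hb r
  have w0 := (rot_at (d := 0) r (by rw [add_zero]; exact hw))
  have w1 := (rot_at (d := 0) r (by rw [add_zero]; exact hw'))
  have v0 := rot_at r hv
  have a1 : G.Adj w v := (cy_rel1 hd hf hb' w0 v0 (at_ne w0 v0 6 (by decide) (by decide))).2.2.1
    (by decide) (by decide)
  have a2 : G.Adj w' v := (cy_rel1 hd hf hb' w1 v0 (at_ne w1 v0 6 (by decide) (by decide))).2.2.1
    (by decide) (by decide)
  exact pat2 hd hf hb' w0 w1 v0 a1 a2 (by decide) (by decide)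

/-- TARGET -/
theorem cy_m1 {b : ZMod 15 → V} (hd : NoDia G) (hf : NoP1P2P3 G) (hb : CB G b) {k l : ZMod 30} {w v v' : V} (hk : Even k.val) (hw : AtP G b k w) (hv : AtP G b (k + 9) v)
    (hv' : AtP G b (k + 9) v') (h1 : G.Adj w v) (h2 : G.Adj w v') : v = v' := by
  obtain ⟨r, rfl⟩ := ex_even k hk
  have hb' := rot_cb hb r
  exact pat1 hd hf hb' (rot_at r hv) (rot_at r hv') (rot_at (d := 0) r (by rw [add_zero]; exact hw)) h1.symm h2.symm (by decide)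
    (by decide)

/-- TARGET -/
theorem cy_m2 {b : ZMod 15 → V} (hd : NoDia G) (hf : NoP1P2P3 G) (hb : CB G b) {k l : ZMod 30} {w w' v : V} (hk : Even k.val) (hw : AtP G b k w) (hw' : AtP G b k w')
    (hv : AtP G b (k + 9) v) (h1 : G.Adj w v) (h2 : G.Adj w' v) : w = w' := by
  obtain ⟨r, rfl⟩ := ex_even k hk
  have hb' := rot_cb hb r
  exact pat1 hd hf hb' (rot_at (d := 0) r (by rw [add_zero]; exact hw)) (rot_at (d := 0) r (by rw [add_zero]; exact hw')) (rot_at r hv) h1 h2 (by decide)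
    (by decide)

/-- TARGET -/
theorem cy_m3 {b : ZMod 15 → V} (hd : NoDia G) (hf : NoP1P2P3 G) (hb : CB G b) {k l : ZMod 30} {w v v' : V} (hk : Even k.val) (hw : AtP G b k w) (hv : AtP G b (k + 21) v)
    (hv' : AtP G b (k + 21) v') (h1 : G.Adj w v) (h2 : G.Adj w v') : v = v' := by
  obtain ⟨r, rfl⟩ := ex_even k hk
  have hb' := rot_cb hb r
  exact pat2 hd hf hb' (rot_at r hv) (rot_at r hv') (rot_at (d := 0) r (by rw [add_zero]; exact hw)) h1.symm h2.symm (by decide)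
    (by decide)

/-- TARGET -/
theorem cy_m4 {b : ZMod 15 → V} (hd : NoDia G) (hf : NoP1P2P3 G) (hb : CB G b) {k l : ZMod 30} {w w' v : V} (hk : Even k.val) (hw : AtP G b k w) (hw' : AtP G b k w')
    (hv : AtP G b (k + 21) v) (h1 : G.Adj w v) (h2 : G.Adj w' v) : w = w' := by
  obtain ⟨r, rfl⟩ := ex_even k hk
  have hb' := rot_cb hb r
  exact pat2 hd hf hb' (rot_at (d := 0) r (by rw [add_zero]; exact hw)) (rot_at (d := 0) r (by rw [add_zero]; exact hw')) (rot_at r hv) h1 h2 (by decide)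
    (by decide)

/-- TARGET -/
theorem cy_h1 {b : ZMod 15 → V} (hd : NoDia G) (hf : NoP1P2P3 G) (hb : CB G b) {k l : ZMod 30} {w a c : V} (hk : Even k.val) (hw : AtP G b k w) (ha : AtP G b (k + 9) a)
    (hc : AtP G b (k + 29) c) (h1 : G.Adj w a) : G.Adj a c := by
  obtain ⟨r, rfl⟩ := ex_even k hk
  have hb' := rot_cb hb r
  exact h1_0 hd hf hb' (rot_at (d := 0) r (by rw [add_zero]; exact hw)) (rot_at r ha) (rot_at r hc) h1

/-- TARGET -/
theorem cy_h2 {b : ZMod 15 → V} (hd : NoDia G) (hf : NoP1P2P3 G) (hb : CB G b) {k l : ZMod 30} {w a c : V} (hk : Even k.val) (hw : AtP G b k w) (hc : AtP G b (k + 21) c)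
    (ha : AtP G b (k + 1) a) (h1 : G.Adj w c) : G.Adj a c := by
  obtain ⟨r, rfl⟩ := ex_even k hk
  have hb' := rot_cb hb r
  exact h2_0 hd hf hb' (rot_at (d := 0) r (by rw [add_zero]; exact hw)) (rot_at r hc) (rot_at r ha) h1

/-- TARGET -/
theorem cy_u1 {b : ZMod 15 → V} (hd : NoDia G) (hf : NoP1P2P3 G) (hb : CB G b) {k l : ZMod 30} {u v v' : V} (hk : ¬Even k.val) (hu : AtP G b k u) (hv : AtP G b (k + 8) v)
    (hv' : AtP G b (k + 8) v') (h1 : G.Adj u v) (h2 : G.Adj u v') : v = v' := by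
  obtain ⟨r, rfl⟩ := ex_odd k hk
  have hb' := rot_cb hb r
  exact u1_0 hd hf hb' (rot_at r hu) (rot_at (d := 9) r (by rw [show (2 * (r.val : ZMod 30) + 9) = _ from (by ring : (2 * (r.val : ZMod 30) + 9) = 2 * (r.val : ZMod 30) + 1 + 8)]; exact hv)) (rot_at (d := 9) r (by rw [show (2 * (r.val : ZMod 30) + 9) = _ from (by ring : (2 * (r.val : ZMod 30) + 9) = 2 * (r.val : ZMod 30) + 1 + 8)]; exact hv')) h1 h2

/-- TARGET -/
theorem cy_u2 {b : ZMod 15 → V} (hd : NoDia G) (hf : NoP1P2P3 G) (hb : CB G b) {k l : ZMod 30} {u u' v : V} (hk : ¬Even k.val) (hu : AtP G b k u) (hu' : AtP G b k u')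
    (hv : AtP G b (k + 8) v) (h1 : G.Adj u v) (h2 : G.Adj u' v) : u = u' := by
  obtain ⟨r, rfl⟩ := ex_odd k hk
  have hb' := rot_cb hb r
  exact u2_0 hd hf hb' (rot_at r hu) (rot_at r hu') (rot_at (d := 9) r (by rw [show (2 * (r.val : ZMod 30) + 9) = _ from (by ring : (2 * (r.val : ZMod 30) + 9) = 2 * (r.val : ZMod 30) + 1 + 8)]; exact hv)) h1 h2

/-- TARGET -/
theorem cy_wind {b : ZMod 15 → V} (hd : NoDia G) (hf : NoP1P2P3 G) (hb : CB G b) {k l : ZMod 30} {u1 u2 v1 v2 x : V} (hk : ¬Even k.val) (h1 : AtP G b k u1)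
    (h2 : AtP G b k u2) (h3 : AtP G b (k + 8) v1) (h4 : AtP G b (k + 8) v2) (hx : AtP G b l x)
    (e1 : G.Adj u1 v1) (e2 : G.Adj u2 v2) (hu : u1 ≠ u2) (n1 : x ≠ u1) (n2 : x ≠ u2) (n3 : x ≠ v1)
    (n4 : x ≠ v2) : (G.Adj x u1 ↔ G.Adj x u2) ∧ (G.Adj x v1 ↔ G.Adj x v2) := by
  obtain ⟨r, rfl⟩ := ex_odd k hk
  have hb' := rot_cb hb r
  have hx' : AtP G (fun q => b (r + q)) (l - 2 * (r.val : ZMod 30)) x :=
    rot_at r (by rw [add_sub_cancel]; exact hx)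
  exact wind_0 hd hf hb' (rot_at r h1) (rot_at r h2) (rot_at (d := 9) r (by rw [show (2 * (r.val : ZMod 30) + 9) = _ from (by ring : (2 * (r.val : ZMod 30) + 9) = 2 * (r.val : ZMod 30) + 1 + 8)]; exact h3)) (rot_at (d := 9) r (by rw [show (2 * (r.val : ZMod 30) + 9) = _ from (by ring : (2 * (r.val : ZMod 30) + 9) = 2 * (r.val : ZMod 30) + 1 + 8)]; exact h4)) hx' e1 e2 hu
    n1 n2 n3 n4

end CyMisc1

end Pool.Agent.Helper856.Cw
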