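import Pool.Agent.Helper856.Pair.Defs
import Pool.Agent.Helper856.Cw.Basic
import Pool.Agent.Helper856.Pair.SPieces

open Classical SimpleGraph

namespace Pool.Agent.Helper856.Cw

open SPieces (pieces slin_join)

namespace Peel

variable {V : Type} {G : SimpleGraph V} {S T : Finset V} {k l : ℕ}

/-- TARGET -/
theorem peel {U W Y : Finset V} (hUW : Disjoint U W) (hUY : Disjoint U Y) (hWY : Disjoint W Y)
    (iU : Ind G U) (iW : Ind G W)
    (m1 : ∀ u ∈ U, ∀ w ∈ W, ∀ w' ∈ W, G.Adj u w → G.Adj u w' → w = w')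
    (m2 : ∀ u ∈ U, ∀ u' ∈ U, ∀ w ∈ W, G.Adj u w → G.Adj u' w → u = u')
    (h1 : ∀ y ∈ Y, ∀ u ∈ U, ∀ u' ∈ U, G.Adj y u → G.Adj y u')
    (h2 : ∀ y ∈ Y, ∀ w ∈ W, ∀ w' ∈ W, G.Adj y w → G.Adj y w') (hY : SLin k G Y) :
    SLin (12 * (k + 4)) G (U ∪ W ∪ Y) := by
  have hX : ∀ Q : Fin 1 → Fin 1 → Prop, (∀ i j, ¬ Q i j) → SLin (1 * 3) G (U ∪ W) := by
    intro Q hQ
    refine pieces (r := 1) (fun _ => 0) Q (fun i j h => absurd h (hQ i j)) ?_
    intro v hv
    refine le_trans (Finset.card_le_one.2 ?_) one_le_two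
    intro a ha b hb
    obtain ⟨ha1, ha2, ha3⟩ := Finset.mem_filter.1 ha
    obtain ⟨hb1, hb2, hb3⟩ := Finset.mem_filter.1 hb
    rw [Finset.mem_union] at ha1 hb1
    have ha4 : G.Adj v a := by
      by_contra h
      exact ha3 ⟨fun h' => absurd h' h, fun h' => absurd h' (hQ _ _)⟩
    have hb4 : G.Adj v b := by
      by_contra h
      exact hb3 ⟨fun h' => absurd h' h, fun h' => absurd h' (hQ _ _)⟩
    rcases Finset.mem_union.1 hv with hv | hv
    · have haW : a ∈ W := by
        rcases ha1 with h | h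
        · exact absurd ha4 (iU v hv a h)
        · exact h
      have hbW : b ∈ W := by
        rcases hb1 with h | h
        · exact absurd hb4 (iU v hv b h)
        · exact h
      exact m1 v hv a haW b hbW ha4 hb4
    · have haU : a ∈ U := by
        rcases ha1 with h | h
        · exact h
        · exact absurd ha4 (iW v hv a h)
      have hbU : b ∈ U := by
        rcases hb1 with h | h
        · exact h
        · exact absurd hb4 (iW v hv b h)
      exact m2 a haU b hbU v hv ha4.symm hb4.symm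
  have hd : Disjoint (U ∪ W) Y := Finset.disjoint_union_left.2 ⟨hUY, hWY⟩
  let τ : V → Fin 6 := fun v => if v ∈ U then 0 else if v ∈ W then 1 else
    if (∃ u ∈ U, G.Adj v u) then (if (∃ w ∈ W, G.Adj v w) then 5 else 3)
      else (if (∃ w ∈ W, G.Adj v w) then 4 else 2)
  let Q : Fin 6 → Fin 6 → Prop := fun i j => (i = 0 ∧ (j = 3 ∨ j = 5)) ∨ (i = 1 ∧ (j = 4 ∨ j = 5))
  have h := slin_join (G := G) (r := 6) hd τ Q (by
    intro x hx y hy
    have hyU : y ∉ U := fun h => Finset.disjoint_left.1 hUY h hy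
    have hyW : y ∉ W := fun h => Finset.disjoint_left.1 hWY h hy
    have hτy : τ y = if (∃ u ∈ U, G.Adj y u) then (if (∃ w ∈ W, G.Adj y w) then 5 else 3)
      else (if (∃ w ∈ W, G.Adj y w) then 4 else 2) := by
      show (if y ∈ U then (0 : Fin 6) else if y ∈ W then 1 else _) = _
      rw [if_neg hyU, if_neg hyW]
    rcases Finset.mem_union.1 hx with hx | hx
    · have hτx : τ x = 0 := if_pos hx
      have e : G.Adj x y ↔ ∃ u ∈ U, G.Adj y u := by
        constructor
        · intro h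
          exact ⟨x, hx, h.symm⟩
        · rintro ⟨u, hu, h⟩
          exact (h1 y hy u hu x hx h).symm
      rw [e, hτx, hτy]
      by_cases c1 : ∃ u ∈ U, G.Adj y u
      · by_cases c2 : ∃ w ∈ W, G.Adj y w
        · rw [if_pos c1, if_pos c2]
          exact ⟨fun _ => Or.inl ⟨rfl, Or.inr rfl⟩, fun _ => c1⟩
        · rw [if_pos c1, if_neg c2]
          exact ⟨fun _ => Or.inl ⟨rfl, Or.inl rfl⟩, fun _ => c1⟩
      · by_cases c2 : ∃ w ∈ W, G.Adj y w
        · rw [if_neg c1, if_pos c2]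
          refine ⟨fun h => absurd h c1, fun h => ?_⟩
          exfalso
          revert h
          show ¬ (((0 : Fin 6) = 0 ∧ ((4 : Fin 6) = 3 ∨ (4 : Fin 6) = 5)) ∨
            ((0 : Fin 6) = 1 ∧ ((4 : Fin 6) = 4 ∨ (4 : Fin 6) = 5)))
          decide
        · rw [if_neg c1, if_neg c2]
          refine ⟨fun h => absurd h c1, fun h => ?_⟩
          exfalso
          revert h
          show ¬ (((0 : Fin 6) = 0 ∧ ((2 : Fin 6) = 3 ∨ (2 : Fin 6) = 5)) ∨
            ((0 : Fin 6) = 1 ∧ ((2 : Fin 6) = 4 ∨ (2 : Fin 6) = 5)))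
          decide
    · have hxU : x ∉ U := fun h => Finset.disjoint_left.1 hUW h hx
      have hτx : τ x = 1 := by
        show (if x ∈ U then (0 : Fin 6) else if x ∈ W then 1 else _) = _
        rw [if_neg hxU, if_pos hx]
      have e : G.Adj x y ↔ ∃ w ∈ W, G.Adj y w := by
        constructor
        · intro h
          exact ⟨x, hx, h.symm⟩
        · rintro ⟨w, hw, h⟩
          exact (h2 y hy w hw x hx h).symm
      rw [e, hτx, hτy]
      by_cases c1 : ∃ u ∈ U, G.Adj y u
      · by_cases c2 : ∃ w ∈ W, G.Adj y w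
        · rw [if_pos c1, if_pos c2]
          exact ⟨fun _ => Or.inr ⟨rfl, Or.inr rfl⟩, fun _ => c2⟩
        · rw [if_pos c1, if_neg c2]
          refine ⟨fun h => absurd h c2, fun h => ?_⟩
          exfalso
          revert h
          show ¬ (((1 : Fin 6) = 0 ∧ ((3 : Fin 6) = 3 ∨ (3 : Fin 6) = 5)) ∨
            ((1 : Fin 6) = 1 ∧ ((3 : Fin 6) = 4 ∨ (3 : Fin 6) = 5)))
          decide
      · by_cases c2 : ∃ w ∈ W, G.Adj y w
        · rw [if_neg c1, if_pos c2]
          exact ⟨fun _ => Or.inr ⟨rfl, Or.inl rfl⟩, fun _ => c2⟩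
        · rw [if_neg c1, if_neg c2]
          refine ⟨fun h => absurd h c2, fun h => ?_⟩
          exfalso
          revert h
          show ¬ (((1 : Fin 6) = 0 ∧ ((2 : Fin 6) = 3 ∨ (2 : Fin 6) = 5)) ∨
            ((1 : Fin 6) = 1 ∧ ((2 : Fin 6) = 4 ∨ (2 : Fin 6) = 5)))
          decide) (hX (fun _ _ => False) (fun _ _ h => h)) hY
  have e : 6 * 2 * (1 * 3 + k + 1) = 12 * (k + 4) := by ring
  rw [← e]
  exact h

end Peel

end Pool.Agent.Helper856.Cw
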