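import Pool.Agent.Helper856.Pair.Defs
import Pool.Agent.Helper856.Pair.CyType1
import Pool.Agent.Helper856.Pair.CyRel1
import Pool.Agent.Helper856.Pair.CyMisc1

open Classical SimpleGraph

namespace Pool.Agent.Helper856.Cw

open CyType1 (cy_type1)
open CyRel1 (cy_rel1)
open CyMisc1 (cy_nit1)

namespace PsSec

variable {V : Type} {G : SimpleGraph V} {S T : Finset V} {k l : ℕ}

theorem zz_neg : ∀ x : ZMod 30, 11 ≤ x.val → x.val ≤ 19 → ∃ j : Fin 10, 1 ≤ j.val ∧ -x = 10 + (j.val : ZMod 30) := by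
  decide

theorem zz_zero : ∀ k : ZMod 30, ¬(11 ≤ (0 - k).val ∧ (0 - k).val ≤ 19) → ¬(11 ≤ (10 - k).val ∧ (10 - k).val ≤ 19) →
    ¬(11 ≤ (20 - k).val ∧ (20 - k).val ≤ 19) → k = 0 ∨ k = 10 ∨ k = 20 := by
  decide

theorem zz_dif : ∀ i j : Fin 10, 1 ≤ i.val → 1 ≤ j.val → ¬((((j.val : ZMod 30) - (i.val : ZMod 30)).val ≤ 7) ∨
    23 ≤ ((j.val : ZMod 30) - (i.val : ZMod 30)).val) → (i = 1 ∧ j = 9) ∨ (i = 9 ∧ j = 1) := by
  decide

/-- TARGET -/
theorem ps_pos {b : ZMod 15 → V} (hd : NoDia G) (hf : NoP1P2P3 G) (hb : CB G b) {r : ZMod 15} {v : V} (hv : v ∈ Sec G b S r) : ∃ j : ℕ, 1 ≤ j ∧ j ≤ 9 ∧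
    AtP G b (2 * (r.val : ZMod 30) + 10 + (j : ZMod 30)) v := by
  unfold Sec at hv
  rw [Finset.mem_filter] at hv
  obtain ⟨_, hne, hadj⟩ := hv
  rcases cy_type1 hd hf hb v with ⟨q, hq⟩ | ⟨k, hk⟩
  · exact absurd hq (hne q)
  · have h := (hk r).1 hadj
    obtain ⟨j, hj1, hj2⟩ := zz_neg _ h.1 h.2
    refine ⟨j.val, hj1, by omega, ?_⟩
    have : 2 * (r.val : ZMod 30) + 10 + (j.val : ZMod 30) = k := by
      rw [add_assoc, ← hj2]; ring
    rw [this]; exact hk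

/-- TARGET -/
theorem ps_zero {b : ZMod 15 → V} (hd : NoDia G) (hf : NoP1P2P3 G) (hb : CB G b) {v : V} (hv : v ∈ Sec0 G b S) : AtP G b 0 v ∨ AtP G b 10 v ∨ AtP G b 20 v := by
  unfold Sec0 at hv
  rw [Finset.mem_filter] at hv
  obtain ⟨_, hne, h0, h5, h10⟩ := hv
  rcases cy_type1 hd hf hb v with ⟨q, hq⟩ | ⟨k, hk⟩
  · exact absurd hq (hne q)
  · rw [hk 0] at h0
    rw [hk 5] at h5
    rw [hk 10] at h10
    have e0 : (2 * (((0 : ZMod 15).val : ℕ) : ZMod 30)) = 0 := by decide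
    have e5 : (2 * (((5 : ZMod 15).val : ℕ) : ZMod 30)) = 10 := by decide
    have e10 : (2 * (((10 : ZMod 15).val : ℕ) : ZMod 30)) = 20 := by decide
    rw [e0] at h0
    rw [e5] at h5
    rw [e10] at h10
    rcases zz_zero k h0 h5 h10 with h | h | h
    · subst h; exact Or.inl hk
    · subst h; exact Or.inr (Or.inl hk)
    · subst h; exact Or.inr (Or.inr hk)

/-- TARGET -/
theorem ps_non {b : ZMod 15 → V} (hd : NoDia G) (hf : NoP1P2P3 G) (hb : CB G b) {r : ZMod 15} {v w : V} (hv : v ∈ Sec G b S r) (hw : w ∈ Sec G b S r)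
    (h : G.Adj v w) : (AtP G b (2 * (r.val : ZMod 30) + 11) v ∧ AtP G b (2 * (r.val : ZMod 30) + 19) w) ∨
    (AtP G b (2 * (r.val : ZMod 30) + 19) v ∧ AtP G b (2 * (r.val : ZMod 30) + 11) w) := by
  obtain ⟨i, hi1, hi2, hi3⟩ := ps_pos hd hf hb hv
  obtain ⟨j, hj1, hj2, hj3⟩ := ps_pos hd hf hb hw
  have hr := (cy_rel1 hd hf hb hi3 hj3 h.ne).2.1
  have e : (2 * (r.val : ZMod 30) + 10 + (j : ZMod 30)) - (2 * (r.val : ZMod 30) + 10 + (i : ZMod 30)) =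
      (j : ZMod 30) - (i : ZMod 30) := by ring
  rw [e] at hr
  have hn : ¬(((j : ZMod 30) - (i : ZMod 30)).val ≤ 7 ∨ 23 ≤ ((j : ZMod 30) - (i : ZMod 30)).val) :=
    fun hh => hr hh h
  have a1 : 2 * (r.val : ZMod 30) + 10 + ((1 : ℕ) : ZMod 30) = 2 * (r.val : ZMod 30) + 11 := by
    push_cast; ring
  have a9 : 2 * (r.val : ZMod 30) + 10 + ((9 : ℕ) : ZMod 30) = 2 * (r.val : ZMod 30) + 19 := by
    push_cast; ring
  rcases zz_dif ⟨i, by omega⟩ ⟨j, by omega⟩ hi1 hj1 hn with ⟨h1, h2⟩ | ⟨h1, h2⟩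
  · have h1' : i = 1 := congrArg Fin.val h1
    have h2' : j = 9 := congrArg Fin.val h2
    subst h1'; subst h2'
    rw [a1] at hi3; rw [a9] at hj3
    exact Or.inl ⟨hi3, hj3⟩
  · have h1' : i = 9 := congrArg Fin.val h1
    have h2' : j = 1 := congrArg Fin.val h2
    subst h1'; subst h2'
    rw [a9] at hi3; rw [a1] at hj3
    exact Or.inr ⟨hi3, hj3⟩


theorem zz_ji : ∀ i j : Fin 10, 1 ≤ i.val → 1 ≤ j.val →
    ¬(11 ≤ (10 + (j.val : ZMod 30) - (i.val : ZMod 30)).val ∧ (10 + (j.val : ZMod 30) - (i.val : ZMod 30)).val ≤ 19) →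
    j.val ≤ i.val := by
  decide

theorem zz_li : ∀ i j : Fin 10, 1 ≤ i.val → 1 ≤ j.val →
    ¬(11 ≤ (20 + (j.val : ZMod 30) - (i.val : ZMod 30)).val ∧ (20 + (j.val : ZMod 30) - (i.val : ZMod 30)).val ≤ 19) →
    i.val ≤ j.val := by
  decide

theorem zz_p0 : ∀ j : Fin 10, 1 ≤ j.val → ¬(11 ≤ (0 - (j.val : ZMod 30)).val ∧ (0 - (j.val : ZMod 30)).val ≤ 19) := by
  decide

theorem zz_p1 : ∀ j : Fin 10, 1 ≤ j.val → ¬(11 ≤ (10 - (j.val : ZMod 30)).val ∧ (10 - (j.val : ZMod 30)).val ≤ 19) := by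
  decide

theorem zz_e (r : ZMod 15) : (r = 0 → 2 * (r.val : ZMod 30) = 0) ∧ (r = 5 → 2 * (r.val : ZMod 30) = 10) ∧
    (r = 10 → 2 * (r.val : ZMod 30) = 20) := by
  revert r; decide

theorem ps_at10 {b : ZMod 15 → V} (hd : NoDia G) (hf : NoP1P2P3 G) (hb : CB G b) {v : V}
    (hv : v ∈ Sec G b S 10) : ∃ j : Fin 10, 1 ≤ j.val ∧ AtP G b (j.val : ZMod 30) v := by
  obtain ⟨j, h1, h2, h3⟩ := ps_pos hd hf hb hv
  refine ⟨⟨j, by omega⟩, h1, ?_⟩
  have e : 2 * (((10 : ZMod 15).val : ℕ) : ZMod 30) + 10 + (j : ZMod 30) = (j : ZMod 30) := by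
    have : 2 * (((10 : ZMod 15).val : ℕ) : ZMod 30) + 10 = 0 := by decide
    rw [this, zero_add]
  rw [e] at h3; exact h3

theorem ps_at0 {b : ZMod 15 → V} (hd : NoDia G) (hf : NoP1P2P3 G) (hb : CB G b) {v : V}
    (hv : v ∈ Sec G b S 0) : ∃ j : Fin 10, 1 ≤ j.val ∧ AtP G b (10 + (j.val : ZMod 30)) v := by
  obtain ⟨j, h1, h2, h3⟩ := ps_pos hd hf hb hv
  refine ⟨⟨j, by omega⟩, h1, ?_⟩
  have e : 2 * (((0 : ZMod 15).val : ℕ) : ZMod 30) + 10 + (j : ZMod 30) = 10 + (j : ZMod 30) := by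
    have : 2 * (((0 : ZMod 15).val : ℕ) : ZMod 30) + 10 = 10 := by decide
    rw [this]
  rw [e] at h3; exact h3

theorem ps_at5 {b : ZMod 15 → V} (hd : NoDia G) (hf : NoP1P2P3 G) (hb : CB G b) {v : V}
    (hv : v ∈ Sec G b S 5) : ∃ j : Fin 10, 1 ≤ j.val ∧ AtP G b (20 + (j.val : ZMod 30)) v := by
  obtain ⟨j, h1, h2, h3⟩ := ps_pos hd hf hb hv
  refine ⟨⟨j, by omega⟩, h1, ?_⟩
  have e : 2 * (((5 : ZMod 15).val : ℕ) : ZMod 30) + 10 + (j : ZMod 30) = 20 + (j : ZMod 30) := by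
    have : 2 * (((5 : ZMod 15).val : ℕ) : ZMod 30) + 10 = 20 := by decide
    rw [this]
  rw [e] at h3; exact h3

theorem zz_q0 : (2 * (((0 : ZMod 15).val : ℕ) : ZMod 30)) = 0 := by decide
theorem zz_q5 : (2 * (((5 : ZMod 15).val : ℕ) : ZMod 30)) = 10 := by decide
theorem zz_q10 : (2 * (((10 : ZMod 15).val : ℕ) : ZMod 30)) = 20 := by decide

/-- sector `10` is not adjacent to `b 0` and `b 5` -/
theorem ps_na10 {b : ZMod 15 → V} (hd : NoDia G) (hf : NoP1P2P3 G) (hb : CB G b) {v : V}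
    (hv : v ∈ Sec G b S 10) : ¬G.Adj v (b 0) ∧ ¬G.Adj v (b 5) := by
  obtain ⟨j, h1, h3⟩ := ps_at10 hd hf hb hv
  constructor
  · rw [h3 0, zz_q0]; exact zz_p0 j h1
  · rw [h3 5, zz_q5]; exact zz_p1 j h1

theorem ps_na0 {b : ZMod 15 → V} (hd : NoDia G) (hf : NoP1P2P3 G) (hb : CB G b) {v : V}
    (hv : v ∈ Sec G b S 0) : ¬G.Adj v (b 5) ∧ ¬G.Adj v (b 10) := by
  obtain ⟨j, h1, h3⟩ := ps_at0 hd hf hb hv
  constructor
  · rw [h3 5, zz_q5]
    have := zz_p0 j h1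
    have e : (10 : ZMod 30) - (10 + (j.val : ZMod 30)) = 0 - (j.val : ZMod 30) := by ring
    rw [e]; exact this
  · rw [h3 10, zz_q10]
    have := zz_p1 j h1
    have e : (20 : ZMod 30) - (10 + (j.val : ZMod 30)) = 10 - (j.val : ZMod 30) := by ring
    rw [e]; exact this

theorem ps_na5 {b : ZMod 15 → V} (hd : NoDia G) (hf : NoP1P2P3 G) (hb : CB G b) {v : V}
    (hv : v ∈ Sec G b S 5) : ¬G.Adj v (b 10) ∧ ¬G.Adj v (b 0) := by
  obtain ⟨j, h1, h3⟩ := ps_at5 hd hf hb hv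
  constructor
  · rw [h3 10, zz_q10]
    have := zz_p0 j h1
    have e : (20 : ZMod 30) - (20 + (j.val : ZMod 30)) = 0 - (j.val : ZMod 30) := by ring
    rw [e]; exact this
  · rw [h3 0, zz_q0]
    have := zz_p1 j h1
    have e0 : (0 : ZMod 30) = 30 := by decide
    have e : (0 : ZMod 30) - (20 + (j.val : ZMod 30)) = 10 - (j.val : ZMod 30) := by
      rw [e0]; ring
    rw [e]; exact this

theorem noP2P3T_of {T : Finset V} (hf : NoP1P2P3 G) (u : V) (hu : ∀ v ∈ T, ¬G.Adj v u) : NoP2P3T G T := by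
  intro p hp q hq a ha b hb c hc h1 h2 h3 h4 h5 h6 h7 h8 h9 h10 h11
  exact hf u p q a b c h1 h2 h3 h4 h5 (fun h => hu p hp h.symm) (fun h => hu q hq h.symm)
    (fun h => hu a ha h.symm) (fun h => hu b hb h.symm) (fun h => hu c hc h.symm) h6 h7 h8 h9 h10 h11

theorem mem_IsoV {T : Finset V} {v : V} (h : v ∈ IsoV G T) : v ∈ T := by
  unfold IsoV at h; exact (Finset.mem_filter.1 h).1

theorem ind_IsoV {T : Finset V} : Ind G (IsoV G T) := by
  intro x hx y hy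
  unfold IsoV at hx
  exact (Finset.mem_filter.1 hx).2 y (mem_IsoV hy)

theorem sec_adj {b : ZMod 15 → V} {r : ZMod 15} {v : V} (hv : v ∈ Sec G b S r) : G.Adj v (b r) := by
  unfold Sec at hv; exact (Finset.mem_filter.1 hv).2.2

/-- TARGET -/
theorem ps_tt {b : ZMod 15 → V} (hd : NoDia G) (hf : NoP1P2P3 G) (hb : CB G b) : TT G (IsoV G (Sec G b S 10)) (IsoV G (Sec G b S 0)) (IsoV G (Sec G b S 5)) := by
  refine ⟨?_, ?_, ?_, ind_IsoV, ind_IsoV, ind_IsoV, ?_, ?_, ?_, ?_⟩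
  · rw [Finset.disjoint_left]
    intro v h1 h2
    exact (ps_na10 hd hf hb (mem_IsoV h1)).1 (sec_adj (mem_IsoV h2))
  · rw [Finset.disjoint_left]
    intro v h1 h2
    exact (ps_na10 hd hf hb (mem_IsoV h1)).2 (sec_adj (mem_IsoV h2))
  · rw [Finset.disjoint_left]
    intro v h1 h2
    exact (ps_na0 hd hf hb (mem_IsoV h1)).1 (sec_adj (mem_IsoV h2))
  · intro x hx y hy z hz
    by_contra hcon
    push Not at hcon
    obtain ⟨nxy, nyz, nxz⟩ := hcon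
    have hx' := mem_IsoV hx
    have hy' := mem_IsoV hy
    have hz' := mem_IsoV hz
    have hxy : x ≠ y := by
      rintro rfl
      exact (ps_na10 hd hf hb hx').1 (sec_adj hy')
    have hxz : x ≠ z := by
      rintro rfl
      exact (ps_na10 hd hf hb hx').2 (sec_adj hz')
    have hyz : y ≠ z := by
      rintro rfl
      exact (ps_na0 hd hf hb hy').1 (sec_adj hz')
    obtain ⟨i, hi, hi'⟩ := ps_at10 hd hf hb hx'
    obtain ⟨j, hj, hj'⟩ := ps_at0 hd hf hb hy'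
    obtain ⟨l, hl, hl'⟩ := ps_at5 hd hf hb hz'
    have r1 := cy_rel1 hd hf hb hi' hj' hxy
    have r2 := cy_rel1 hd hf hb hj' hl' hyz
    have r3 := cy_rel1 hd hf hb hi' hl' hxz
    have c1 : j.val ≤ i.val := zz_ji i j hi hj (fun h => nxy (r1.1 h.1 h.2))
    have c2 : l.val ≤ j.val := by
      apply zz_ji j l hj hl
      intro h
      have e : (20 + (l.val : ZMod 30)) - (10 + (j.val : ZMod 30)) = 10 + (l.val : ZMod 30) - (j.val : ZMod 30) := by ring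
      rw [e] at r2
      exact nyz (r2.1 h.1 h.2)
    have c3 : i.val ≤ l.val := zz_li i l hi hl (fun h => nxz (r3.1 h.1 h.2))
    have eij : j = i := Fin.ext (by omega)
    have eil : l = i := Fin.ext (by omega)
    subst eij
    subst eil
    by_cases hev : Even ((l.val : ZMod 30)).val
    · apply nxy
      apply r1.2.2.1 hev
      left
      have e : 10 + (l.val : ZMod 30) - (l.val : ZMod 30) = 10 := by ring
      rw [e]; decide
    · refine cy_nit1 (l := 0) hd hf hb hev hi' ?_ ?_ nxy nyz nxz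
      · rw [add_comm]; exact hj'
      · rw [add_comm]; exact hl'
  · apply noP2P3T_of hf (b 5)
    intro v hv
    rcases Finset.mem_union.1 hv with h | h
    · exact (ps_na10 hd hf hb (mem_IsoV h)).2
    · exact (ps_na0 hd hf hb (mem_IsoV h)).1
  · apply noP2P3T_of hf (b 10)
    intro v hv
    rcases Finset.mem_union.1 hv with h | h
    · exact (ps_na0 hd hf hb (mem_IsoV h)).2
    · exact (ps_na5 hd hf hb (mem_IsoV h)).1
  · apply noP2P3T_of hf (b 0)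
    intro v hv
    rcases Finset.mem_union.1 hv with h | h
    · exact (ps_na10 hd hf hb (mem_IsoV h)).1
    · exact (ps_na5 hd hf hb (mem_IsoV h)).2

/-- TARGET -/
theorem ps_split {b : ZMod 15 → V} (hd : NoDia G) (hf : NoP1P2P3 G) (hb : CB G b) : S.filter (fun v => ∀ q, v ≠ b q) =
    Sec G b S 10 ∪ Sec G b S 0 ∪ Sec G b S 5 ∪ Sec0 G b S := by
  ext v
  unfold Sec Sec0
  simp only [Finset.mem_filter, Finset.mem_union]
  tauto

end PsSec

end Pool.Agent.Helper856.Cw
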