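import Pool.Agent.Helper856.Pair.Defs
import Pool.Agent.Helper856.Cw.Basic
import Pool.Agent.Helper856.Pair.CyType1
import Pool.Agent.Helper856.Pair.CyRel1
import Pool.Agent.Helper856.Pair.CyMisc1
import Pool.Agent.Helper856.Pair.PsSec
import Pool.Agent.Helper856.Pair.Peel

open Classical SimpleGraph

namespace Pool.Agent.Helper856.Cw

open CyType1 (cy_type1)
open CyRel1 (cy_rel1)
open CyMisc1 (cy_u1 cy_u2 cy_wind)
open PsSec (ps_non)
open Peel (peel)

namespace P2Peel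

variable {V : Type} {G : SimpleGraph V} {S T : Finset V} {k l : ℕ}

theorem p2_aux_odd : ∀ r : ZMod 15, ¬Even (2 * (r.val : ZMod 30) + 11 : ZMod 30).val := by
  decide

/-- TARGET -/
theorem p2_peel {b : ZMod 15 → V} (hd : NoDia G) (hf : NoP1P2P3 G) (hb : CB G b) (hS : ∀ v ∈ S, ∀ q, v ≠ b q) (r : ZMod 15)
    (h : SLin k G (S \ (Sec G b S r \ IsoV G (Sec G b S r)))) : SLin (12 * (k + 4) + 2) G S := by
  have hodd := p2_aux_odd r
  have h19 : (2 * (r.val : ZMod 30) + 19 : ZMod 30) = (2 * (r.val : ZMod 30) + 11) + 8 := by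
    rw [add_assoc]; norm_num
  have hnon : ∀ {v w : V}, v ∈ Sec G b S r → w ∈ Sec G b S r → G.Adj v w →
    (AtP G b (2 * (r.val : ZMod 30) + 11) v ∧ AtP G b ((2 * (r.val : ZMod 30) + 11) + 8) w) ∨
    (AtP G b ((2 * (r.val : ZMod 30) + 11) + 8) v ∧ AtP G b (2 * (r.val : ZMod 30) + 11) w) := by
    intro v w hv hw hvw
    have := ps_non hd hf hb hv hw hvw
    rwa [h19] at this
  set κ : ZMod 30 := 2 * (r.val : ZMod 30) + 11 with hκ
  clear_value κ
  set X : Finset V := Sec G b S r \ IsoV G (Sec G b S r) with hX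
  -- elements of X
  have hXT : ∀ v ∈ X, v ∈ Sec G b S r := fun v hv => (Finset.mem_sdiff.mp hv).1
  have hXS : ∀ v ∈ X, v ∈ S := fun v hv => (Finset.mem_filter.mp (hXT v hv)).1
  have hXn : ∀ v ∈ X, ∃ w ∈ X, G.Adj v w := by
    intro v hv
    have h1 := (Finset.mem_sdiff.mp hv).1
    have h2 := (Finset.mem_sdiff.mp hv).2
    have h3 : ∃ w ∈ Sec G b S r, G.Adj v w := by
      by_contra hcon
      push Not at hcon
      exact h2 (Finset.mem_filter.mpr ⟨h1, hcon⟩)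
    obtain ⟨w, hw, hvw⟩ := h3
    refine ⟨w, Finset.mem_sdiff.mpr ⟨hw, fun hw' => ?_⟩, hvw⟩
    exact (Finset.mem_filter.mp hw').2 v h1 hvw.symm
  -- independence of positions
  have hind : ∀ (m : ZMod 30) (v w : V), AtP G b m v → AtP G b m w → ¬G.Adj v w := by
    intro m v w hv hw hvw
    refine (cy_rel1 hd hf hb hv hw hvw.ne).2.1 ?_ hvw
    left
    simp
  set U : Finset V := X.filter (fun v => AtP G b κ v) with hU
  set W : Finset V := X \ U with hW
  have hUp : ∀ u ∈ U, AtP G b κ u := fun u hu => (Finset.mem_filter.mp hu).2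
  have hUX : ∀ u ∈ U, u ∈ X := fun u hu => (Finset.mem_filter.mp hu).1
  have hWX : ∀ u ∈ W, u ∈ X := fun u hu => (Finset.mem_sdiff.mp hu).1
  have hWn : ∀ w ∈ W, ¬AtP G b κ w := by
    intro w hw hw'
    exact (Finset.mem_sdiff.mp hw).2 (Finset.mem_filter.mpr ⟨hWX w hw, hw'⟩)
  have hWp : ∀ w ∈ W, AtP G b (κ + 8) w := by
    intro w hw
    obtain ⟨v, hv, hwv⟩ := hXn w (hWX w hw)
    rcases hnon (hXT w (hWX w hw)) (hXT v hv) hwv with h1 | h1
    · exact absurd h1.1 (hWn w hw)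
    · exact h1.1
  have hUn : ∀ u ∈ U, ∃ w ∈ W, G.Adj u w := by
    intro u hu
    obtain ⟨v, hv, huv⟩ := hXn u (hUX u hu)
    refine ⟨v, Finset.mem_sdiff.mpr ⟨hv, fun hv' => ?_⟩, huv⟩
    exact hind κ u v (hUp u hu) (hUp v hv') huv
  have hWn' : ∀ w ∈ W, ∃ u ∈ U, G.Adj u w := by
    intro w hw
    obtain ⟨v, hv, hwv⟩ := hXn w (hWX w hw)
    rcases hnon (hXT w (hWX w hw)) (hXT v hv) hwv with h1 | h1
    · exact absurd h1.1 (hWn w hw)
    · exact ⟨v, Finset.mem_filter.mpr ⟨hv, h1.2⟩, hwv.symm⟩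
  have m1 : ∀ u ∈ U, ∀ w ∈ W, ∀ w' ∈ W, G.Adj u w → G.Adj u w' → w = w' := by
    intro u hu w hw w' hw' h1 h2
    exact cy_u1 (l := 0) hd hf hb hodd (hUp u hu) (hWp w hw) (hWp w' hw') h1 h2
  have m2 : ∀ u ∈ U, ∀ u' ∈ U, ∀ w ∈ W, G.Adj u w → G.Adj u' w → u = u' := by
    intro u hu u' hu' w hw h1 h2
    exact cy_u2 (l := 0) hd hf hb hodd (hUp u hu) (hUp u' hu') (hWp w hw) h1 h2
  have hw : ∀ y ∈ S \ X, ∀ u ∈ U, ∀ u' ∈ U, ∀ w ∈ W, ∀ w' ∈ W, G.Adj u w → G.Adj u' w' →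
      u ≠ u' → (G.Adj y u ↔ G.Adj y u') ∧ (G.Adj y w ↔ G.Adj y w') := by
    intro y hy u hu u' hu' w hw w' hw' h1 h2 hne
    have hyS := (Finset.mem_sdiff.mp hy).1
    have hyX := (Finset.mem_sdiff.mp hy).2
    rcases cy_type1 hd hf hb y with ⟨q, hq⟩ | ⟨l, hl⟩
    · exact absurd hq (hS y hyS q)
    · have hn : ∀ z ∈ X, y ≠ z := fun z hz hyz => hyX (hyz ▸ hz)
      exact cy_wind hd hf hb hodd (hUp u hu) (hUp u' hu') (hWp w hw) (hWp w' hw') hl h1 h2 hne
        (hn u (hUX u hu)) (hn u' (hUX u' hu')) (hn w (hWX w hw)) (hn w' (hWX w' hw'))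
  have hUW : Disjoint U W := Finset.disjoint_sdiff
  have hUY : Disjoint U (S \ X) := by
    rw [Finset.disjoint_left]
    intro x hx hx'
    exact (Finset.mem_sdiff.mp hx').2 (hUX x hx)
  have hWY : Disjoint W (S \ X) := by
    rw [Finset.disjoint_left]
    intro x hx hx'
    exact (Finset.mem_sdiff.mp hx').2 (hWX x hx)
  have hfin := peel (k := k) hUW hUY hWY
    (fun x hx y hy => hind κ x y (hUp x hx) (hUp y hy))
    (fun x hx y hy => hind (κ + 8) x y (hWp x hx) (hWp y hy)) m1 m2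
    (by
      intro y hy u hu u' hu' hyu
      by_cases hne : u = u'
      · exact hne ▸ hyu
      · obtain ⟨w, hw1, hw2⟩ := hUn u hu
        obtain ⟨w', hw1', hw2'⟩ := hUn u' hu'
        exact ((hw y hy u hu u' hu' w hw1 w' hw1' hw2 hw2' hne).1).mp hyu)
    (by
      intro y hy w hw1 w' hw1' hyw
      by_cases hne : w = w'
      · exact hne ▸ hyw
      · obtain ⟨u, hu1, hu2⟩ := hWn' w hw1
        obtain ⟨u', hu1', hu2'⟩ := hWn' w' hw1'
        have hne' : u ≠ u' := by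
          intro huu
          subst huu
          exact hne (m1 u hu1 w hw1 w' hw1' hu2 hu2')
        exact ((hw y hy u hu1 u' hu1' w hw1 w' hw1' hu2 hu2' hne').2).mp hyw) h
  have hSe : U ∪ W ∪ (S \ X) = S := by
    ext x
    simp only [Finset.mem_union, Finset.mem_sdiff]
    constructor
    · rintro ((hx | hx) | hx)
      · exact hXS x (hUX x hx)
      · exact hXS x (hWX x hx)
      · exact hx.1
    · intro hx
      by_cases hxX : x ∈ X
      · left
        by_cases hxU : x ∈ U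
        · exact Or.inl hxU
        · exact Or.inr (Finset.mem_sdiff.mpr ⟨hxX, hxU⟩)
      · exact Or.inr ⟨hx, hxX⟩
  rw [hSe] at hfin
  exact hfin.mono_k (by omega)

end P2Peel

end Pool.Agent.Helper856.Cw
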