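import Pool.Agent.Helper856.Pair.Defs
import Pool.Agent.Helper856.Cw.Basic
import Pool.Agent.Helper856.Pair.TSym
import Pool.Agent.Helper856.Pair.CyRel1
import Pool.Agent.Helper856.Pair.CyMisc1
import Pool.Agent.Helper856.Pair.PsSec
import Pool.Agent.Helper856.Pair.P2Peel
import Pool.Agent.Helper856.Pair.WRed

open Classical SimpleGraph

namespace Pool.Agent.Helper856.Cw

open TSym (tt_rot tt_swap)
open CyRel1 (cy_rel1)
open CyMisc1 (cy_m1 cy_m2 cy_m3 cy_m4 cy_h1 cy_h2)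
open PsSec (ps_pos ps_zero ps_tt ps_split)
open P2Peel (p2_peel)
open WRed (w_red)

namespace P2Core

variable {V : Type} {G : SimpleGraph V} {S T : Finset V} {k l : ℕ}

theorem pc_A {b : ZMod 15 → V} (hd : NoDia G) (hf : NoP1P2P3 G) (hb : CB G b) {v : V}
    (hv : v ∈ Sec G b S 10) : ∃ j : ℕ, 1 ≤ j ∧ j ≤ 9 ∧ AtP G b (j : ZMod 30) v := by
  obtain ⟨j, h1, h2, h3⟩ := ps_pos hd hf hb hv
  refine ⟨j, h1, h2, ?_⟩
  have e : 2 * (((10 : ZMod 15).val : ℕ) : ZMod 30) + 10 + (j : ZMod 30) = (j : ZMod 30) := by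
    have e1 : 2 * (((10 : ZMod 15).val : ℕ) : ZMod 30) + 10 = 0 := by decide
    rw [e1, zero_add]
  rw [← e]
  exact h3

theorem pc_C {b : ZMod 15 → V} (hd : NoDia G) (hf : NoP1P2P3 G) (hb : CB G b) {v : V}
    (hv : v ∈ Sec G b S 0) : ∃ j : ℕ, 1 ≤ j ∧ j ≤ 9 ∧ AtP G b (10 + (j : ZMod 30)) v := by
  obtain ⟨j, h1, h2, h3⟩ := ps_pos hd hf hb hv
  refine ⟨j, h1, h2, ?_⟩
  have e : 2 * (((0 : ZMod 15).val : ℕ) : ZMod 30) + 10 + (j : ZMod 30) = 10 + (j : ZMod 30) := by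
    have e1 : 2 * (((0 : ZMod 15).val : ℕ) : ZMod 30) + 10 = 10 := by decide
    rw [e1]
  rw [← e]
  exact h3

theorem pc_B {b : ZMod 15 → V} (hd : NoDia G) (hf : NoP1P2P3 G) (hb : CB G b) {v : V}
    (hv : v ∈ Sec G b S 5) : ∃ j : ℕ, 1 ≤ j ∧ j ≤ 9 ∧ AtP G b (20 + (j : ZMod 30)) v := by
  obtain ⟨j, h1, h2, h3⟩ := ps_pos hd hf hb hv
  refine ⟨j, h1, h2, ?_⟩
  have e : 2 * (((5 : ZMod 15).val : ℕ) : ZMod 30) + 10 + (j : ZMod 30) = 20 + (j : ZMod 30) := by
    have e1 : 2 * (((5 : ZMod 15).val : ℕ) : ZMod 30) + 10 = 20 := by decide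
    rw [e1]
  rw [← e]
  exact h3

theorem pc_A9 {b : ZMod 15 → V} (hd : NoDia G) (hf : NoP1P2P3 G) (hb : CB G b) {w a : V}
    (hw : AtP G b 0 w) (ha : a ∈ Sec G b S 10) (h : G.Adj w a) : AtP G b 9 a := by
  obtain ⟨j, h1, h2, h3⟩ := pc_A hd hf hb ha
  have h4 := cy_rel1 hd hf hb hw h3 h.ne
  interval_cases j
  · exact absurd h (h4.2.1 (by decide))
  · exact absurd h (h4.2.1 (by decide))
  · exact absurd h (h4.2.1 (by decide))
  · exact absurd h (h4.2.1 (by decide))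
  · exact absurd h (h4.2.1 (by decide))
  · exact absurd h (h4.2.1 (by decide))
  · exact absurd h (h4.2.1 (by decide))
  · exact absurd h (h4.2.2.2 (by decide) (by decide))
  · exact h3

theorem pc_B21 {b : ZMod 15 → V} (hd : NoDia G) (hf : NoP1P2P3 G) (hb : CB G b) {w a : V}
    (hw : AtP G b 0 w) (ha : a ∈ Sec G b S 5) (h : G.Adj w a) : AtP G b 21 a := by
  obtain ⟨j, h1, h2, h3⟩ := pc_B hd hf hb ha
  have h4 := cy_rel1 hd hf hb hw h3 h.ne
  interval_cases j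
  · have e : (20 + ((1 : ℕ) : ZMod 30)) = 21 := by decide
    rw [e] at h3
    exact h3
  · exact absurd h (h4.2.2.2 (by decide) (by decide))
  · exact absurd h (h4.2.1 (by decide))
  · exact absurd h (h4.2.1 (by decide))
  · exact absurd h (h4.2.1 (by decide))
  · exact absurd h (h4.2.1 (by decide))
  · exact absurd h (h4.2.1 (by decide))
  · exact absurd h (h4.2.1 (by decide))
  · exact absurd h (h4.2.1 (by decide))

theorem pc_iso {b : ZMod 15 → V} {r : ZMod 15}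
    (hT : T ⊆ S \ (Sec G b S r \ IsoV G (Sec G b S r))) :
    IsoV G (Sec G b T r) = Sec G b T r := by
  have hTS : T ⊆ S := hT.trans Finset.sdiff_subset
  refine Finset.filter_true_of_mem fun v hv w hw hvw => ?_
  obtain ⟨hv1, hv2⟩ := Finset.mem_filter.1 hv
  obtain ⟨hw1, hw2⟩ := Finset.mem_filter.1 hw
  have hv3 : v ∈ Sec G b S r := Finset.mem_filter.2 ⟨hTS hv1, hv2⟩
  have hw3 : w ∈ Sec G b S r := Finset.mem_filter.2 ⟨hTS hw1, hw2⟩
  have hv4 : v ∈ IsoV G (Sec G b S r) := by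
    by_contra hn
    exact (Finset.mem_sdiff.1 (hT hv1)).2 (Finset.mem_sdiff.2 ⟨hv3, hn⟩)
  exact (Finset.mem_filter.1 hv4).2 w hw3 hvw

/-- the reduced set -/
theorem pc_core (k c0 : ℕ) (hc0 : ∀ (V : Type) (G : SimpleGraph V) (A B C W : Finset V),
    TT G A B C →
    NoDia G → Ind G W → Disjoint A W → Disjoint B W → Disjoint C W → (∀ c ∈ C, ∀ w ∈ W, G.Adj c w) →
    (∀ w ∈ W, ∀ a ∈ A, ∀ a' ∈ A, G.Adj w a → G.Adj w a' → a = a') →
    (∀ w ∈ W, ∀ w' ∈ W, ∀ a ∈ A, G.Adj w a → G.Adj w' a → w = w') →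
    (∀ w ∈ W, ∀ b ∈ B, ∀ b' ∈ B, G.Adj w b → G.Adj w b' → b = b') →
    (∀ w ∈ W, ∀ w' ∈ W, ∀ b ∈ B, G.Adj w b → G.Adj w' b → w = w') →
    (∀ a ∈ A, ∀ b ∈ B, ∀ w ∈ W, G.Adj a w → G.Adj a b ∨ G.Adj b w) →
    (∀ a ∈ A, ∀ b ∈ B, ∀ w ∈ W, G.Adj b w → G.Adj a b ∨ G.Adj a w) →
    (∀ T ⊆ A ∪ B ∪ C ∪ W, TriT G T → SLin k G T) → SLin c0 G (A ∪ B ∪ C ∪ W))
    {b : ZMod 15 → V} (hd : NoDia G) (hf : NoP1P2P3 G) (hb : CB G b)
    (h0 : ∀ v ∈ Sec0 G b S, AtP G b 0 v) (hS : ∀ v ∈ S, ∀ q, v ≠ b q)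
    (i10 : IsoV G (Sec G b S 10) = Sec G b S 10) (i0 : IsoV G (Sec G b S 0) = Sec G b S 0)
    (i5 : IsoV G (Sec G b S 5) = Sec G b S 5) (hk : ∀ T ⊆ S, TriT G T → SLin k G T) :
    SLin c0 G S := by
  have hsplit := ps_split (S := S) hd hf hb
  have hfS : S.filter (fun v => ∀ q, v ≠ b q) = S := Finset.filter_true_of_mem hS
  rw [hfS] at hsplit
  have hTT := ps_tt (S := S) hd hf hb
  rw [i10, i0, i5] at hTT
  have hTT' : TT G (Sec G b S 10) (Sec G b S 5) (Sec G b S 0) := tt_rot (tt_swap hTT)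
  have hU : Sec G b S 10 ∪ Sec G b S 5 ∪ Sec G b S 0 ∪ Sec0 G b S = S := by
    rw [Finset.union_right_comm (Sec G b S 10)]
    exact hsplit.symm
  have d10 : Disjoint (Sec G b S 10) (Sec0 G b S) := by
    rw [Finset.disjoint_left]
    intro v hv hw
    exact (Finset.mem_filter.1 hw).2.2.2.2 (Finset.mem_filter.1 hv).2.2
  have d5 : Disjoint (Sec G b S 5) (Sec0 G b S) := by
    rw [Finset.disjoint_left]
    intro v hv hw
    exact (Finset.mem_filter.1 hw).2.2.2.1 (Finset.mem_filter.1 hv).2.2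
  have d0 : Disjoint (Sec G b S 0) (Sec0 G b S) := by
    rw [Finset.disjoint_left]
    intro v hv hw
    exact (Finset.mem_filter.1 hw).2.2.1 (Finset.mem_filter.1 hv).2.2
  have e0 : Even (0 : ZMod 30).val := by decide
  have h9 : ∀ a, AtP G b 9 a → AtP G b (0 + 9) a := by
    intro a ha
    rwa [zero_add]
  have h21 : ∀ a, AtP G b 21 a → AtP G b (0 + 21) a := by
    intro a ha
    rwa [zero_add]
  have hmain := hc0 V G (Sec G b S 10) (Sec G b S 5) (Sec G b S 0) (Sec0 G b S) hTT' hd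
    (by
      intro v hv w hw hvw
      exact (cy_rel1 hd hf hb (h0 v hv) (h0 w hw) hvw.ne).2.1 (by decide) hvw)
    d10 d5 d0
    (by
      intro c hc w hw
      obtain ⟨j, h1, h2, h3⟩ := pc_C hd hf hb hc
      have hne : w ≠ c := by
        rintro rfl
        exact Finset.disjoint_left.1 d0 hc hw
      refine ((cy_rel1 hd hf hb (h0 w hw) h3 hne).1 ?_ ?_).symm
      · interval_cases j <;> decide
      · interval_cases j <;> decide)
    (by
      intro w hw a ha a' ha' h1 h2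
      exact cy_m1 (l := 0) hd hf hb e0 (h0 w hw) (h9 _ (pc_A9 hd hf hb (h0 w hw) ha h1))
        (h9 _ (pc_A9 hd hf hb (h0 w hw) ha' h2)) h1 h2)
    (by
      intro w hw w' hw' a ha h1 h2
      exact cy_m2 (l := 0) hd hf hb e0 (h0 w hw) (h0 w' hw')
        (h9 _ (pc_A9 hd hf hb (h0 w hw) ha h1)) h1 h2)
    (by
      intro w hw a ha a' ha' h1 h2
      exact cy_m3 (l := 0) hd hf hb e0 (h0 w hw) (h21 _ (pc_B21 hd hf hb (h0 w hw) ha h1))
        (h21 _ (pc_B21 hd hf hb (h0 w hw) ha' h2)) h1 h2)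
    (by
      intro w hw w' hw' a ha h1 h2
      exact cy_m4 (l := 0) hd hf hb e0 (h0 w hw) (h0 w' hw')
        (h21 _ (pc_B21 hd hf hb (h0 w hw) ha h1)) h1 h2)
    (by
      intro a ha b' hb' w hw h1
      left
      have ha9 := pc_A9 hd hf hb (h0 w hw) ha h1.symm
      obtain ⟨j, j1, j2, h3⟩ := pc_B hd hf hb hb'
      have hne : a ≠ b' := by
        rintro rfl
        exact Finset.disjoint_left.1 hTT'.dAB ha hb'
      have hr := cy_rel1 hd hf hb ha9 h3 hne
      interval_cases j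
      · exact hr.1 (by decide) (by decide)
      · exact hr.1 (by decide) (by decide)
      · exact hr.1 (by decide) (by decide)
      · exact hr.1 (by decide) (by decide)
      · exact hr.1 (by decide) (by decide)
      · exact hr.1 (by decide) (by decide)
      · exact hr.1 (by decide) (by decide)
      · exact hr.1 (by decide) (by decide)
      · have e : (20 + ((9 : ℕ) : ZMod 30)) = 0 + 29 := by decide
        rw [e] at h3
        exact cy_h1 (l := 0) hd hf hb e0 (h0 w hw) (h9 _ ha9) h3 h1.symm)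
    (by
      intro a ha b' hb' w hw h1
      left
      have hb21 := pc_B21 hd hf hb (h0 w hw) hb' h1.symm
      obtain ⟨j, j1, j2, h3⟩ := pc_A hd hf hb ha
      have hne : a ≠ b' := by
        rintro rfl
        exact Finset.disjoint_left.1 hTT'.dAB ha hb'
      have hr := cy_rel1 hd hf hb h3 hb21 hne
      interval_cases j
      · have e : (((1 : ℕ) : ZMod 30)) = 0 + 1 := by decide
        rw [e] at h3
        exact cy_h2 (l := 0) hd hf hb e0 (h0 w hw) (h21 _ hb21) h3 h1.symm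
      · exact hr.1 (by decide) (by decide)
      · exact hr.1 (by decide) (by decide)
      · exact hr.1 (by decide) (by decide)
      · exact hr.1 (by decide) (by decide)
      · exact hr.1 (by decide) (by decide)
      · exact hr.1 (by decide) (by decide)
      · exact hr.1 (by decide) (by decide)
      · exact hr.1 (by decide) (by decide))
    (by
      intro T hT
      rw [hU] at hT
      exact hk T hT)
  rw [hU] at hmain
  exact hmain

/-- TARGET -/
theorem p2_core (k : ℕ) : ∃ c, ∀ (V : Type) (G : SimpleGraph V) (S : Finset V) (b : ZMod 15 → V),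
    NoDia G → NoP1P2P3 G → CB G b → (∀ v ∈ Sec0 G b S, AtP G b 0 v) →
    (∀ T ⊆ S, TriT G T → SLin k G T) → SLin c G S := by
  obtain ⟨c0, hc0⟩ := w_red k
  refine ⟨12 * ((12 * ((12 * (c0 + 4) + 2) + 4) + 2) + 4) + 2 + 15, ?_⟩
  intro V G S b hd hf hb h0 hk
  let F : Finset V := Finset.univ.image b
  have hF : F.card ≤ 15 := by
    refine Finset.card_image_le.trans ?_
    rw [Finset.card_univ, ZMod.card]
  refine SLin.mono_k (SLin.add (k := 12 * ((12 * ((12 * (c0 + 4) + 2) + 4) + 2) + 4) + 2) F ?_)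
    (by omega)
  have hS1 : ∀ v ∈ S \ F, ∀ q, v ≠ b q := by
    intro v hv q hvq
    exact (Finset.mem_sdiff.1 hv).2 (Finset.mem_image.2 ⟨q, Finset.mem_univ _, hvq.symm⟩)
  set S0 := S \ F with hS0
  set S1 := S0 \ (Sec G b S0 10 \ IsoV G (Sec G b S0 10)) with hS1'
  set S2 := S1 \ (Sec G b S1 0 \ IsoV G (Sec G b S1 0)) with hS2'
  set S3 := S2 \ (Sec G b S2 5 \ IsoV G (Sec G b S2 5)) with hS3'
  have s10 : S1 ⊆ S0 := Finset.sdiff_subset
  have s21 : S2 ⊆ S1 := Finset.sdiff_subset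
  have s32 : S3 ⊆ S2 := Finset.sdiff_subset
  have s00 : S0 ⊆ S := Finset.sdiff_subset
  refine p2_peel hd hf hb hS1 10 ?_
  rw [← hS1']
  refine p2_peel hd hf hb (fun v hv => hS1 v (s10 hv)) 0 ?_
  rw [← hS2']
  refine p2_peel hd hf hb (fun v hv => hS1 v (s10 (s21 hv))) 5 ?_
  rw [← hS3']
  have s3S : S3 ⊆ S := ((s32.trans s21).trans s10).trans s00
  refine pc_core k c0 hc0 hd hf hb ?_ (fun v hv => hS1 v (s10 (s21 (s32 hv)))) ?_ ?_ ?_ ?_
  · intro v hv
    obtain ⟨hv1, hv2⟩ := Finset.mem_filter.1 hv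
    exact h0 v (Finset.mem_filter.2 ⟨s3S hv1, hv2⟩)
  · exact pc_iso (S := S0) (s32.trans s21)
  · exact pc_iso (S := S1) s32
  · exact pc_iso (S := S2) (Finset.Subset.refl _)
  · intro T hT
    exact hk T (hT.trans s3S)

end P2Core

end Pool.Agent.Helper856.Cw
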