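import Pool.Agent.Helper856.Pair.Defs
import Pool.Agent.Helper856.Cw.Basic
import Pool.Agent.Helper856.Pair.CyMisc1
import Pool.Agent.Helper856.Pair.PsSec
import Pool.Agent.Helper856.Pair.P2Core

open Classical SimpleGraph

namespace Pool.Agent.Helper856.Cw

open CyMisc1 (cy_two cy_two')
open PsSec (ps_zero)
open P2Core (p2_core)

namespace P2F1

variable {V : Type} {G : SimpleGraph V} {S T : Finset V} {k l : ℕ}

theorem f1_CB {b : ZMod 15 → V} (hb : CB G b) (r0 : ZMod 15) : CB G (fun q => b (q + r0)) := by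
  intro p q
  have h := hb (p + r0) (q + r0)
  rw [add_sub_add_right_eq_sub] at h
  exact h

theorem f1_At {b : ZMod 15 → V} {v : V} (r0 : ZMod 15) (k0 : ZMod 30)
    (hk : ∀ q : ZMod 15, 2 * ((q + r0).val : ZMod 30) - k0 = 2 * (q.val : ZMod 30) - 0)
    (h : AtP G b k0 v) : AtP G (fun q => b (q + r0)) 0 v := by
  intro q
  have h1 := h (q + r0)
  rw [hk q] at h1
  exact h1

/-- TARGET -/
theorem p2_f1 (k : ℕ) : ∃ c, ∀ (V : Type) (G : SimpleGraph V) (S : Finset V) (b : ZMod 15 → V),
    NoDia G → NoP1P2P3 G → CB G b → (∀ T ⊆ S, TriT G T → SLin k G T) → SLin c G S := by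
  obtain ⟨c₀, hc₀⟩ := p2_core k
  refine ⟨c₀ + 3, ?_⟩
  intro V G S b hd hf hb hT
  by_cases hcard : (Sec0 G b S).card ≤ 3
  · have hempty : ∀ v ∈ Sec0 G b (S \ Sec0 G b S), AtP G b 0 v := by
      intro v hv
      exfalso
      unfold Sec0 at hv
      rw [Finset.mem_filter, Finset.mem_sdiff, Finset.mem_filter] at hv
      exact hv.1.2 ⟨hv.1.1, hv.2⟩
    have h1 := hc₀ V G (S \ Sec0 G b S) b hd hf hb hempty
      (fun T hTS => hT T (hTS.trans Finset.sdiff_subset))
    have h2 := SLin.add (Sec0 G b S) h1
    exact h2.mono_k (by omega)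
  · -- all at one position
    have hpos : ∀ v ∈ Sec0 G b S, AtP G b 0 v ∨ AtP G b 10 v ∨ AtP G b 20 v :=
      fun v hv => ps_zero hd hf hb hv
    have e1 : (0:ZMod 30) + 10 = 10 := by decide
    have e2 : (0:ZMod 30) + 20 = 20 := by decide
    have e3 : (10:ZMod 30) + 10 = 20 := by decide
    have e4 : (10:ZMod 30) + 20 = 0 := by decide
    have e5 : (20:ZMod 30) + 10 = 0 := by decide
    have e6 : (20:ZMod 30) + 20 = 10 := by decide
    have v0 : Even (0:ZMod 30).val := by decide
    have v1 : Even (10:ZMod 30).val := by decide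
    have v2 : Even (20:ZMod 30).val := by decide
    have hone : (∀ v ∈ Sec0 G b S, AtP G b 0 v) ∨ (∀ v ∈ Sec0 G b S, AtP G b 10 v) ∨
        (∀ v ∈ Sec0 G b S, AtP G b 20 v) := by
      have hsub : Sec0 G b S ⊆ ((Sec0 G b S).filter (fun v => AtP G b 0 v)) ∪
          (((Sec0 G b S).filter (fun v => AtP G b 10 v)) ∪
          ((Sec0 G b S).filter (fun v => AtP G b 20 v))) := by
        intro v hv
        rw [Finset.mem_union, Finset.mem_union, Finset.mem_filter, Finset.mem_filter,
          Finset.mem_filter]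
        rcases hpos v hv with h | h | h
        · exact Or.inl ⟨hv, h⟩
        · exact Or.inr (Or.inl ⟨hv, h⟩)
        · exact Or.inr (Or.inr ⟨hv, h⟩)
      have hle := (Finset.card_le_card hsub).trans ((Finset.card_union_le _ _).trans
        (Nat.add_le_add_left (Finset.card_union_le _ _) _))
      have hbig : 1 < ((Sec0 G b S).filter (fun v => AtP G b 0 v)).card ∨
          1 < ((Sec0 G b S).filter (fun v => AtP G b 10 v)).card ∨
          1 < ((Sec0 G b S).filter (fun v => AtP G b 20 v)).card := by
        omega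
      rcases hbig with h | h | h
      · left
        obtain ⟨w, hw, w', hw', hne⟩ := Finset.one_lt_card.1 h
        rw [Finset.mem_filter] at hw hw'
        intro v hv
        rcases hpos v hv with h | h | h
        · exact h
        · exact absurd (cy_two (l := 0) hd hf hb v0 hw.2 hw'.2 (by rw [e1]; exact h)) hne
        · exact absurd (cy_two' (l := 0) hd hf hb v0 hw.2 hw'.2 (by rw [e2]; exact h)) hne
      · right; left
        obtain ⟨w, hw, w', hw', hne⟩ := Finset.one_lt_card.1 h
        rw [Finset.mem_filter] at hw hw'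
        intro v hv
        rcases hpos v hv with h | h | h
        · exact absurd (cy_two' (l := 0) hd hf hb v1 hw.2 hw'.2 (by rw [e4]; exact h)) hne
        · exact h
        · exact absurd (cy_two (l := 0) hd hf hb v1 hw.2 hw'.2 (by rw [e3]; exact h)) hne
      · right; right
        obtain ⟨w, hw, w', hw', hne⟩ := Finset.one_lt_card.1 h
        rw [Finset.mem_filter] at hw hw'
        intro v hv
        rcases hpos v hv with h | h | h
        · exact absurd (cy_two (l := 0) hd hf hb v2 hw.2 hw'.2 (by rw [e5]; exact h)) hne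
        · exact absurd (cy_two' (l := 0) hd hf hb v2 hw.2 hw'.2 (by rw [e6]; exact h)) hne
        · exact h
    have hall : ∀ (r0 : ZMod 15), (∀ v, (∀ q, v ≠ b (q + r0)) → ∀ q, v ≠ b q) := by
      intro r0 v h q
      have := h (q - r0)
      rwa [sub_add_cancel] at this
    rcases hone with h | h | h
    · exact (hc₀ V G S b hd hf hb h hT).mono_k (by omega)
    · have hs : ∀ v ∈ Sec0 G (fun q => b (q + 5)) S, AtP G (fun q => b (q + 5)) 0 v := by
        intro v hv
        apply f1_At 5 10 (by decide)
        apply h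
        unfold Sec0 at hv ⊢
        rw [Finset.mem_filter] at hv ⊢
        obtain ⟨hvS, hvn, a1, a2, a3⟩ := hv
        have f1 : (0:ZMod 15) + 5 = 5 := by decide
        have f2 : (5:ZMod 15) + 5 = 10 := by decide
        have f3 : (10:ZMod 15) + 5 = 0 := by decide
        simp only [f1, f2, f3] at a1 a2 a3
        exact ⟨hvS, hall 5 v hvn, a3, a1, a2⟩
      exact (hc₀ V G S _ hd hf (f1_CB hb 5) hs hT).mono_k (by omega)
    · have hs : ∀ v ∈ Sec0 G (fun q => b (q + 10)) S, AtP G (fun q => b (q + 10)) 0 v := by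
        intro v hv
        apply f1_At 10 20 (by decide)
        apply h
        unfold Sec0 at hv ⊢
        rw [Finset.mem_filter] at hv ⊢
        obtain ⟨hvS, hvn, a1, a2, a3⟩ := hv
        have f1 : (0:ZMod 15) + 10 = 10 := by decide
        have f2 : (5:ZMod 15) + 10 = 0 := by decide
        have f3 : (10:ZMod 15) + 10 = 5 := by decide
        simp only [f1, f2, f3] at a1 a2 a3
        exact ⟨hvS, hall 10 v hvn, a2, a3, a1⟩
      exact (hc₀ V G S _ hd hf (f1_CB hb 10) hs hT).mono_k (by omega)

end P2F1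

end Pool.Agent.Helper856.Cw
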