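import Pool.Agent.Helper856.Pair.Defs

open Classical SimpleGraph

namespace Pool.Agent.Helper856.Cw

namespace PatF1

variable {V : Type} {G : SimpleGraph V} {S T : Finset V} {k l : ℕ}

theorem pat_adj {t : Fin 5 → Fin 3 → V} {P : Fin 3 → Fin 3 → Prop}
    (ht : PTri G S t) (hP : ∀ i j a b, i < j → (G.Adj (t i a) (t j b) ↔ P a b)) (i j : Fin 5) (a b : Fin 3) :
    G.Adj (t i a) (t j b) ↔ ((i < j ∧ P a b) ∨ (j < i ∧ P b a) ∨ (i = j ∧ a ≠ b)) := by
  rcases lt_trichotomy i j with h | h | h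
  · rw [hP i j a b h]
    have h1 : ¬ j < i := not_lt.2 h.le
    have h2 : i ≠ j := h.ne
    tauto
  · subst h
    by_cases hab : a = b
    · subst hab
      simp
    · have := ht.2.1 i a b hab
      simp [this, hab]
  · rw [G.adj_comm, hP j i b a h]
    have h1 : ¬ i < j := not_lt.2 h.le
    have h2 : i ≠ j := h.ne'
    tauto

theorem pat_cyc : ∀ p q : ZMod 15,
    ((((⟨p.val % 5, Nat.mod_lt _ (by norm_num)⟩ : Fin 5) < (⟨q.val % 5, Nat.mod_lt _ (by norm_num)⟩ : Fin 5)) ∧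
        (⟨q.val / 5, by have := ZMod.val_lt q; omega⟩ : Fin 3) = (⟨p.val / 5, by have := ZMod.val_lt p; omega⟩ : Fin 3) + 1) ∨
      (((⟨q.val % 5, Nat.mod_lt _ (by norm_num)⟩ : Fin 5) < (⟨p.val % 5, Nat.mod_lt _ (by norm_num)⟩ : Fin 5)) ∧
        (⟨p.val / 5, by have := ZMod.val_lt p; omega⟩ : Fin 3) = (⟨q.val / 5, by have := ZMod.val_lt q; omega⟩ : Fin 3) + 1) ∨
      (((⟨p.val % 5, Nat.mod_lt _ (by norm_num)⟩ : Fin 5) = (⟨q.val % 5, Nat.mod_lt _ (by norm_num)⟩ : Fin 5)) ∧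
        (⟨p.val / 5, by have := ZMod.val_lt p; omega⟩ : Fin 3) ≠ (⟨q.val / 5, by have := ZMod.val_lt q; omega⟩ : Fin 3)))
      ↔ (5 ≤ (q - p).val ∧ (q - p).val ≤ 10) := by
  decide

/-- TARGET -/
theorem pat_f1 (hd : NoDia G) (hf : NoP1P2P3 G) {t : Fin 5 → Fin 3 → V} {P : Fin 3 → Fin 3 → Prop}
    (ht : PTri G S t) (hP : ∀ i j a b, i < j → (G.Adj (t i a) (t j b) ↔ P a b)) (h0 : ∀ a, ¬P a a)
    (h1 : ∀ a b c, P a b → P a c → b = c) (h2 : ∀ a b c, P a c → P b c → a = b) :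
    (∀ a b, ¬P a b) ∨ (∃ x y z : Fin 5 → V, PB G x y z) ∨ (∃ b : ZMod 15 → V, CB G b) := by
  by_cases hno : ∀ a b, ¬P a b
  · exact Or.inl hno
  push Not at hno
  obtain ⟨a, b, hab⟩ := hno
  have hne : a ≠ b := by rintro rfl; exact h0 a hab
  obtain ⟨c, hca, hcb⟩ : ∃ c : Fin 3, c ≠ a ∧ c ≠ b := by
    revert hne; clear hab; revert a b; decide
  have A := pat_adj ht hP
  have nac : ¬ P a c := fun h => hcb (h1 a c b h hab)
  have ncb : ¬ P c b := fun h => hca (h2 c a b h hab)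
  have naa := h0 a
  have nbb := h0 b
  have ncc := h0 c
  have l01 : (0 : Fin 5) < 1 := by decide
  have l02 : (0 : Fin 5) < 2 := by decide
  have l03 : (0 : Fin 5) < 3 := by decide
  have l12 : (1 : Fin 5) < 2 := by decide
  have l13 : (1 : Fin 5) < 3 := by decide
  have l23 : (2 : Fin 5) < 3 := by decide
  by_cases hba : P b a
  · -- case PB
    have nbc : ¬ P b c := fun h => hca (h1 b c a h hba)
    have nca : ¬ P c a := fun h => hcb (h2 c b a h hba)
    refine Or.inr (Or.inl ⟨fun i => t i a, fun i => t i b, fun i => t i c, fun i j => ?_⟩)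
    simp only [A]
    refine ⟨?_, ?_, ?_, ?_, ?_, ?_⟩
    · rcases lt_trichotomy i j with h | h | h
      · exact Or.inl ⟨h, hab⟩
      · exact Or.inr (Or.inr ⟨h, hne⟩)
      · exact Or.inr (Or.inl ⟨h, hba⟩)
    · have := hca.symm; tauto
    · have := hcb.symm; tauto
    · tauto
    · tauto
    · tauto
  by_cases hbc : P b c
  · by_cases hca' : P c a
    · -- three-cycle
      refine Or.inr (Or.inr ⟨fun q => t ⟨q.val % 5, Nat.mod_lt _ (by norm_num)⟩
        (![a, b, c] ⟨q.val / 5, by have := ZMod.val_lt q; omega⟩), fun p q => ?_⟩)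
      rw [A, ← pat_cyc p q]
      generalize (⟨p.val % 5, Nat.mod_lt _ (by norm_num)⟩ : Fin 5) = i
      generalize (⟨q.val % 5, Nat.mod_lt _ (by norm_num)⟩ : Fin 5) = j
      generalize (⟨p.val / 5, by have := ZMod.val_lt p; omega⟩ : Fin 3) = x
      generalize (⟨q.val / 5, by have := ZMod.val_lt q; omega⟩ : Fin 3) = y
      have e1 : ∀ x y : Fin 3, P (![a, b, c] x) (![a, b, c] y) ↔ y = x + 1 := by
        intro x y
        fin_cases x <;> fin_cases y <;> simp [hab, hbc, hca', nac, ncb, hba, naa, nbb, ncc]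
      have e2 : ∀ x y : Fin 3, (![a, b, c] x ≠ ![a, b, c] y) ↔ x ≠ y := by
        intro x y
        fin_cases x <;> fin_cases y <;> simp [hne, hne.symm, hca, hca.symm, hcb, hcb.symm]
      rw [e1, e1, e2]
    · exfalso
      refine hf (t 0 c) (t 1 b) (t 1 c) (t 2 a) (t 3 b) (t 3 a) ?_ ?_ ?_ ?_ ?_ ?_ ?_ ?_ ?_ ?_ ?_ ?_ ?_ ?_ ?_ ?_
      · exact ht.2.1 1 b c hcb.symm
      · exact (hP 2 3 a b l23).2 hab
      · exact ht.2.1 3 b a hne.symm
      · intro h
        have := ht.2.2 2 3 a a h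
        exact absurd this (by decide)
      all_goals first
        | (rw [hP _ _ _ _ l01]; assumption)
        | (rw [hP _ _ _ _ l02]; assumption)
        | (rw [hP _ _ _ _ l03]; assumption)
        | (rw [hP _ _ _ _ l12]; assumption)
        | (rw [hP _ _ _ _ l13]; assumption)
        | (rw [hP _ _ _ _ l23]; assumption)
  · by_cases hca' : P c a
    · exfalso
      refine hf (t 0 b) (t 1 a) (t 1 b) (t 2 c) (t 3 a) (t 3 c) ?_ ?_ ?_ ?_ ?_ ?_ ?_ ?_ ?_ ?_ ?_ ?_ ?_ ?_ ?_ ?_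
      · exact ht.2.1 1 a b hne
      · exact (hP 2 3 c a l23).2 hca'
      · exact ht.2.1 3 a c hca.symm
      · intro h
        have := ht.2.2 2 3 c c h
        exact absurd this (by decide)
      all_goals first
        | (rw [hP _ _ _ _ l01]; assumption)
        | (rw [hP _ _ _ _ l02]; assumption)
        | (rw [hP _ _ _ _ l03]; assumption)
        | (rw [hP _ _ _ _ l12]; assumption)
        | (rw [hP _ _ _ _ l13]; assumption)
        | (rw [hP _ _ _ _ l23]; assumption)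
    · exfalso
      refine hf (t 0 b) (t 1 b) (t 1 c) (t 2 a) (t 3 b) (t 3 a) ?_ ?_ ?_ ?_ ?_ ?_ ?_ ?_ ?_ ?_ ?_ ?_ ?_ ?_ ?_ ?_
      · exact ht.2.1 1 b c hcb.symm
      · exact (hP 2 3 a b l23).2 hab
      · exact ht.2.1 3 b a hne.symm
      · intro h
        have := ht.2.2 2 3 a a h
        exact absurd this (by decide)
      all_goals first
        | (rw [hP _ _ _ _ l01]; assumption)
        | (rw [hP _ _ _ _ l02]; assumption)
        | (rw [hP _ _ _ _ l03]; assumption)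
        | (rw [hP _ _ _ _ l12]; assumption)
        | (rw [hP _ _ _ _ l13]; assumption)
        | (rw [hP _ _ _ _ l23]; assumption)

end PatF1

end Pool.Agent.Helper856.Cw
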