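import Pool.Agent.Helper856.Pair.Defs

open Classical SimpleGraph

namespace Pool.Agent.Helper856.Cw

namespace RamCol

variable {V : Type} {G : SimpleGraph V} {S T : Finset V} {k l : ℕ}

theorem j15686_er (κ : Type) [Fintype κ] [Nonempty κ] (M : ℕ) : ∃ N, ∀ A : Finset ℕ,
    N ≤ A.card → ∀ c : ℕ → ℕ → κ, ∃ (g : Fin M → ℕ) (χ : Fin M → κ), StrictMono g ∧
      (∀ i, g i ∈ A) ∧ ∀ i j, i < j → c (g i) (g j) = χ i := by
  induction M with
  | zero =>
    exact ⟨0, fun A _ c => ⟨fun i => i.elim0, fun i => i.elim0, fun i => i.elim0,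
      fun i => i.elim0, fun i => i.elim0⟩⟩
  | succ M ih =>
    obtain ⟨N, hN⟩ := ih
    refine ⟨1 + Fintype.card κ * N, fun A hA c => ?_⟩
    have hne : A.Nonempty := Finset.card_pos.1 (by omega)
    set a := A.min' hne with ha
    have haA : a ∈ A := A.min'_mem hne
    have hB : Fintype.card κ * N ≤ (A.erase a).card := by
      rw [Finset.card_erase_of_mem haA]
      omega
    obtain ⟨q, -, hq⟩ := Finset.exists_le_card_fiber_of_mul_le_card_of_maps_to
      (s := A.erase a) (t := (Finset.univ : Finset κ)) (f := fun x => c a x) (n := N)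
      (fun x _ => Finset.mem_univ _) Finset.univ_nonempty hB
    obtain ⟨g, χ, hg, hgA, hχ⟩ := hN _ hq c
    have hgm : ∀ i, g i ∈ A ∧ a < g i ∧ c a (g i) = q := by
      intro i
      have h1 := Finset.mem_filter.1 (hgA i)
      have h2 := Finset.mem_erase.1 h1.1
      exact ⟨h2.2, lt_of_le_of_ne (A.min'_le _ h2.2) (Ne.symm h2.1), h1.2⟩
    refine ⟨Fin.cons a g, Fin.cons q χ, ?_, ?_, ?_⟩
    · intro i j hij
      induction j using Fin.cases with
      | zero => exact absurd hij (Fin.not_lt_zero i)
      | succ j =>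
        induction i using Fin.cases with
        | zero =>
          rw [Fin.cons_zero, Fin.cons_succ]
          exact (hgm j).2.1
        | succ i =>
          rw [Fin.cons_succ, Fin.cons_succ]
          exact hg (Fin.succ_lt_succ_iff.1 hij)
    · intro i
      induction i using Fin.cases with
      | zero =>
        rw [Fin.cons_zero]
        exact haA
      | succ i =>
        rw [Fin.cons_succ]
        exact (hgm i).1
    · intro i j hij
      induction j using Fin.cases with
      | zero => exact absurd hij (Fin.not_lt_zero i)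
      | succ j =>
        induction i using Fin.cases with
        | zero =>
          rw [Fin.cons_zero, Fin.cons_succ, Fin.cons_zero]
          exact (hgm j).2.2
        | succ i =>
          rw [Fin.cons_succ, Fin.cons_succ, Fin.cons_succ]
          exact hχ i j (Fin.succ_lt_succ_iff.1 hij)

/-- TARGET -/
theorem ramsey_col (κ : Type) [Fintype κ] [Nonempty κ] (m : ℕ) : ∃ N, ∀ c : ℕ → ℕ → κ,
    ∃ f : Fin m → ℕ, StrictMono f ∧ (∀ i, f i < N) ∧ ∃ q, ∀ i j, i < j → c (f i) (f j) = q := by
  obtain ⟨N, hN⟩ := j15686_er κ (Fintype.card κ * m)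
  refine ⟨N, fun c => ?_⟩
  obtain ⟨g, χ, hg, hgA, hχ⟩ := hN (Finset.range N) (by rw [Finset.card_range]) c
  obtain ⟨q, -, hq⟩ := Finset.exists_le_card_fiber_of_mul_le_card_of_maps_to
    (s := (Finset.univ : Finset (Fin (Fintype.card κ * m)))) (t := (Finset.univ : Finset κ))
    (f := χ) (n := m) (fun x _ => Finset.mem_univ _) Finset.univ_nonempty
    (by rw [Finset.card_univ, Finset.card_univ, Fintype.card_fin])
  refine ⟨fun i => g (Finset.orderEmbOfCardLe _ hq i), ?_, ?_, q, ?_⟩
  · intro i j hij
    exact hg ((Finset.orderEmbOfCardLe _ hq).strictMono hij)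
  · intro i
    exact Finset.mem_range.1 (hgA _)
  · intro i j hij
    have h1 := hχ _ _ ((Finset.orderEmbOfCardLe _ hq).strictMono hij)
    have h2 := Finset.orderEmbOfCardLe_mem _ hq i
    exact h1.trans (Finset.mem_filter.1 h2).2

end RamCol

end Pool.Agent.Helper856.Cw
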