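import Pool.Agent.Helper856.Pair.Defs
import Pool.Agent.Helper856.Pair.RamCol

open Classical SimpleGraph

namespace Pool.Agent.Helper856.Cw

open RamCol (ramsey_col)

namespace Pattern

variable {V : Type} {G : SimpleGraph V} {S T : Finset V} {k l : ℕ}

/-- TARGET -/
theorem pattern (w m : ℕ) : ∃ N, ∀ (V : Type) (G : SimpleGraph V) (S : Finset V), NoDia G →
    (∀ K ⊆ S, Clq G K → K.card < w) → ∀ t : Fin N → Fin 3 → V, PTri G S t →
    ∃ (t' : Fin m → Fin 3 → V) (P : Fin 3 → Fin 3 → Prop), PTri G S t' ∧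
      (∀ i j a b, i < j → (G.Adj (t' i a) (t' j b) ↔ P a b)) ∧ (∀ a, ¬P a a) ∧
      (∀ a b c, P a b → P a c → b = c) ∧ (∀ a b c, P a c → P b c → a = b) := by
  obtain ⟨N, hN⟩ := ramsey_col (Fin 3 → Fin 3 → Bool) (m + w + 2)
  refine ⟨N, ?_⟩
  intro V G S hD hK t ht
  obtain ⟨f, hf, hfN, q, hq⟩ := hN (fun i j a b =>
    if h : i < N ∧ j < N then decide (G.Adj (t ⟨i, h.1⟩ a) (t ⟨j, h.2⟩ b)) else false)
  obtain ⟨u, hu⟩ : ∃ u : Fin (m + w + 2) → Fin 3 → V, ∀ i, u i = t ⟨f i, hfN i⟩ :=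
    ⟨fun i => t ⟨f i, hfN i⟩, fun i => rfl⟩
  have hP : ∀ i j a b, i < j → (G.Adj (u i a) (u j b) ↔ q a b = true) := by
    intro i j a b hij
    have h1 := hq i j hij
    have h2 := congrFun (congrFun h1 a) b
    rw [dif_pos ⟨hfN i, hfN j⟩] at h2
    rw [← h2, hu, hu, decide_eq_true_iff]
  have hS : ∀ i a, u i a ∈ S := fun i a => by rw [hu]; exact ht.1 _ a
  have hA : ∀ i a b, a ≠ b → G.Adj (u i a) (u i b) := fun i a b hab => by
    rw [hu]; exact ht.2.1 _ a b hab
  have hd : ∀ i j a b, u i a = u j b → i = j := by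
    intro i j a b h
    rw [hu, hu] at h
    have h1 := ht.2.2 _ _ _ _ h
    exact hf.injective (Fin.mk.inj_iff.1 h1)
  have hno : ∀ a, ¬ (q a a = true) := by
    intro a ha
    have h1 := hK (Finset.univ.image (fun i => u i a)) (by
      intro x hx
      obtain ⟨i, _, rfl⟩ := Finset.mem_image.1 hx
      exact hS i a) (by
      intro x hx y hy hxy
      obtain ⟨i, _, rfl⟩ := Finset.mem_image.1 hx
      obtain ⟨j, _, rfl⟩ := Finset.mem_image.1 hy
      rcases lt_trichotomy i j with h | h | h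
      · exact (hP i j a a h).2 ha
      · exact absurd (by rw [h]) hxy
      · exact ((hP j i a a h).2 ha).symm)
    rw [Finset.card_image_of_injective _ (fun i j h => hd i j a a h), Finset.card_univ,
      Fintype.card_fin] at h1
    omega
  have h01 : (⟨0, by omega⟩ : Fin (m + w + 2)) < ⟨1, by omega⟩ := by
    rw [Fin.lt_def]; exact Nat.zero_lt_one
  refine ⟨fun i => u (Fin.castLE (by omega) i), fun a b => q a b = true, ⟨?_, ?_, ?_⟩, ?_, hno,
    ?_, ?_⟩
  · intro i a; exact hS _ a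
  · intro i a b hab; exact hA _ a b hab
  · intro i j a b h
    have h1 := hd _ _ _ _ h
    exact (Fin.castLE_injective _) h1
  · intro i j a b hij
    exact hP _ _ a b (by simpa using hij)
  · intro a b c hab hac
    by_contra hbc
    have hab' : a ≠ b := by rintro rfl; exact hno _ hab
    have hac' : a ≠ c := by rintro rfl; exact hno _ hac
    have h1 := (hP _ _ a b h01).2 hab
    have h2 := (hP _ _ a c h01).2 hac
    have h3 := hD _ _ _ _ (hA ⟨1, by omega⟩ b c hbc) (hA ⟨1, by omega⟩ b a hab'.symm)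
      (hA ⟨1, by omega⟩ c a hac'.symm) h1.symm h2.symm (by
        intro h
        have h4 := hd _ _ _ _ h
        rw [h4] at h01
        exact lt_irrefl _ h01)
    exact hno a ((hP _ _ a a h01).1 h3.symm)
  · intro a b c hac hbc
    by_contra hab
    have hac' : a ≠ c := by rintro rfl; exact hno _ hac
    have hbc' : b ≠ c := by rintro rfl; exact hno _ hbc
    have h1 := (hP _ _ a c h01).2 hac
    have h2 := (hP _ _ b c h01).2 hbc
    have h3 := hD _ _ _ _ (hA ⟨0, by omega⟩ a b hab) (hA ⟨0, by omega⟩ a c hac')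
      (hA ⟨0, by omega⟩ b c hbc') h1 h2 (by
        intro h
        have h4 := hd _ _ _ _ h
        rw [h4] at h01
        exact lt_irrefl _ h01)
    exact hno c ((hP _ _ c c h01).1 h3)

end Pattern

end Pool.Agent.Helper856.Cw
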