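import Pool.Agent.Helper856.Pair.Defs

open Classical SimpleGraph

namespace Pool.Agent.Helper856.Cw

namespace TriPack

variable {V : Type} {G : SimpleGraph V} {S T : Finset V} {k l : ℕ}

/-- TARGET -/
theorem tri_pack (N : ℕ) (S : Finset V) :
    (∃ D : Finset V, D.card ≤ 3 * N ∧ TriT G (S \ D)) ∨ ∃ t : Fin N → Fin 3 → V, PTri G S t := by
  induction N with
  | zero =>
    right
    exact ⟨fun i => i.elim0, fun i => i.elim0, fun i => i.elim0, fun i => i.elim0⟩
  | succ N ih =>
    rcases ih with ⟨D, hD, hT⟩ | ⟨t, h1, h2, h3⟩
    · exact Or.inl ⟨D, by omega, hT⟩
    · obtain ⟨D, hDd⟩ : ∃ D : Finset V, D = (Finset.univ : Finset (Fin N × Fin 3)).image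
        (fun p => t p.1 p.2) := ⟨_, rfl⟩
      have hDc : D.card ≤ 3 * (N + 1) := by
        rw [hDd]
        refine Finset.card_image_le.trans ?_
        rw [Finset.card_univ, Fintype.card_prod, Fintype.card_fin, Fintype.card_fin]
        omega
      by_cases hT : TriT G (S \ D)
      · exact Or.inl ⟨D, hDc, hT⟩
      · right
        unfold TriT at hT
        push Not at hT
        obtain ⟨x, hx, y, hy, z, hz, hxy, hyz, hxz, -⟩ := hT
        have hmem : ∀ i b, t i b ∈ D := by
          intro i b
          rw [hDd]
          exact Finset.mem_image.2 ⟨(i, b), Finset.mem_univ _, rfl⟩
        have hnew : ∀ a : Fin 3, (![x, y, z] : Fin 3 → V) a ∈ S \ D := by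
          intro a
          fin_cases a
          · exact hx
          · exact hy
          · exact hz
        refine ⟨Fin.cons ![x, y, z] t, ?_, ?_, ?_⟩
        · intro i
          refine Fin.cases ?_ (fun i => ?_) i
          · intro a
            rw [Fin.cons_zero]
            exact (Finset.mem_sdiff.1 (hnew a)).1
          · intro a
            rw [Fin.cons_succ]
            exact h1 i a
        · intro i
          refine Fin.cases ?_ (fun i => ?_) i
          · intro a b hab
            rw [Fin.cons_zero]
            fin_cases a <;> fin_cases b
            · exact absurd rfl hab
            · exact hxy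
            · exact hxz
            · exact hxy.symm
            · exact absurd rfl hab
            · exact hyz
            · exact hxz.symm
            · exact hyz.symm
            · exact absurd rfl hab
          · intro a b hab
            rw [Fin.cons_succ]
            exact h2 i a b hab
        · intro i j
          refine Fin.cases ?_ (fun i => ?_) i
          · refine Fin.cases ?_ (fun j => ?_) j
            · intro a b _
              rfl
            · intro a b h
              rw [Fin.cons_zero, Fin.cons_succ] at h
              have h4 := (Finset.mem_sdiff.1 (hnew a)).2
              rw [h] at h4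
              exact absurd (hmem j b) h4
          · refine Fin.cases ?_ (fun j => ?_) j
            · intro a b h
              rw [Fin.cons_zero, Fin.cons_succ] at h
              have h4 := (Finset.mem_sdiff.1 (hnew b)).2
              rw [← h] at h4
              exact absurd (hmem i a) h4
            · intro a b h
              rw [Fin.cons_succ, Fin.cons_succ] at h
              rw [h3 i j a b h]

end TriPack

end Pool.Agent.Helper856.Cw
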