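import Pool.Agent.Helper856.Pair.Defs
import Pool.Agent.Helper856.Cw.Basic
import Pool.Agent.Helper856.Pair.TriPack
import Pool.Agent.Helper856.Pair.Pattern
import Pool.Agent.Helper856.Pair.PatF1
import Pool.Agent.Helper856.Pair.P0F1
import Pool.Agent.Helper856.Pair.P1F1
import Pool.Agent.Helper856.Pair.P2F1
import Pool.Agent.Helper856.Pair.F1Big

open Classical SimpleGraph

namespace Pool.Agent.Helper856.Cw

open TriPack (tri_pack)
open Pattern (pattern)
open PatF1 (pat_f1)
open P0F1 (p0_f1)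
open P1F1 (p1_f1)
open P2F1 (p2_f1)
open F1Big (f1_big)

namespace F1Main

variable {V : Type} {G : SimpleGraph V} {S T : Finset V} {k l : ℕ}

/-- TARGET -/
theorem f1_main (k : ℕ) : ∃ c, ∀ (V : Type) (G : SimpleGraph V) (S : Finset V), NoDia G →
    NoP1P2P3 G → (∀ T ⊆ S, TriT G T → SLin k G T) → SLin c G S := by
  obtain ⟨c1, hc1⟩ := f1_big
  obtain ⟨N, hN⟩ := pattern 12 6
  obtain ⟨c2, hc2⟩ := p1_f1 k
  obtain ⟨c3, hc3⟩ := p2_f1 k
  refine ⟨c1 + (k + 3 * N) + 3 + c2 + c3, ?_⟩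
  intro V G S hd hf hyp
  by_cases hbig : ∃ K ⊆ S, Clq G K ∧ 12 ≤ K.card
  · obtain ⟨K, hKS, hK, hcard⟩ := hbig
    exact SLin.mono_k (hc1 V G S K hd hf hKS hK hcard) (by omega)
  · have hsmall : ∀ K ⊆ S, Clq G K → K.card < 12 := by
      intro K hKS hK
      by_contra h
      exact hbig ⟨K, hKS, hK, by omega⟩
    rcases tri_pack (G := G) N S with ⟨D, hD, hT⟩ | ⟨t, ht⟩
    · have h1 := SLin.add D (hyp (S \ D) Finset.sdiff_subset hT)
      exact SLin.mono_k h1 (by omega)
    · obtain ⟨t', P, ht', hP, h0, h1, h2⟩ := hN V G S hd hsmall t ht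
      have ht5 : PTri G S (fun i : Fin 5 => t' i.castSucc) := by
        refine ⟨fun i a => ht'.1 _ a, fun i a b hab => ht'.2.1 _ a b hab, ?_⟩
        intro i j a b hab
        exact Fin.castSucc_injective 5 (ht'.2.2 _ _ a b hab)
      rcases pat_f1 hd hf ht5 (fun i j a b hij => hP _ _ a b (Fin.castSucc_lt_castSucc_iff.2 hij))
        h0 h1 h2 with hP0 | ⟨x, y, z, hPB⟩ | ⟨b, hCB⟩
      · have h3 : SLin 3 G S := by
          apply p0_f1 hd hf ht'
          intro i j a b hij hadj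
          rcases lt_or_gt_of_ne hij with h | h
          · exact hP0 a b ((hP i j a b h).1 hadj)
          · exact hP0 b a ((hP j i b a h).1 hadj.symm)
        exact SLin.mono_k h3 (by omega)
      · exact SLin.mono_k (hc2 V G S x y z hd hf hPB hyp) (by omega)
      · exact SLin.mono_k (hc3 V G S b hd hf hCB hyp) (by omega)

end F1Main

end Pool.Agent.Helper856.Cw
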