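import Pool.Agent.Helper856.Pair.Defs
import Pool.Agent.Helper856.Cw.Basic
import Pool.Agent.Helper856.Cw.Union
import Pool.Agent.Helper856.Pair.Induce
import Pool.Agent.Helper856.Pair.SPieces
import Pool.Agent.Helper856.Pair.P3free

open Classical SimpleGraph

namespace Pool.Agent.Helper856.Cw

open Induce (slin_ind)
open SPieces (slin_join pieces)
open P3free (slin_p3free)

namespace BcClq

variable {V : Type} {G : SimpleGraph V} {S T : Finset V} {k l : ℕ}

/-- at most one neighbour of `v` in `T` -/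
def bc_A1 (G : SimpleGraph V) (T : Finset V) (v : V) : Prop :=
  ∀ a ∈ T, ∀ b ∈ T, G.Adj v a → G.Adj v b → a = b

theorem bc_A1_of_card {v : V} (h : (nb G T v).card ≤ 1) : bc_A1 G T v := by
  intro a ha b hb h1 h2
  rw [Finset.card_le_one] at h
  exact h a (Finset.mem_filter.2 ⟨ha, h1⟩) b (Finset.mem_filter.2 ⟨hb, h2⟩)

theorem bc_card_of_A1 {v : V} (h : bc_A1 G T v) : (nb G T v).card ≤ 1 := by
  rw [Finset.card_le_one]
  intro a ha b hb
  exact h a (Finset.mem_filter.1 ha).1 b (Finset.mem_filter.1 hb).1 (Finset.mem_filter.1 ha).2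
    (Finset.mem_filter.1 hb).2

/-- equality of classes -/
def bc_eqr {r : ℕ} (i j : Fin r) : Prop := i = j

theorem bc_pieces {r : ℕ} (hr : r ≤ 3) (P : Fin r → Finset V) (τ : V → Fin r)
    (hτ : ∀ v ∈ S, v ∈ P (τ v)) (hcl : ∀ i, Clq G (P i))
    (h1 : ∀ v ∈ S, ∀ j, j ≠ τ v → bc_A1 G (P j) v) : SLin (r * 3) G S := by
  apply pieces τ bc_eqr (fun i j (h : i = j) => h.symm)
  intro v hv
  refine (Finset.card_le_card
    (show _ ⊆ (Finset.univ.erase (τ v)).biUnion (fun j => nb G (P j) v) from ?_)).trans ?_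
  · intro w hw
    obtain ⟨hwS, hwv, hw2⟩ := Finset.mem_filter.1 hw
    by_cases hτw : τ v = τ w
    · exfalso
      apply hw2
      refine ⟨fun _ => hτw, fun _ => ?_⟩
      apply hcl (τ v) v (hτ v hv) w
      · rw [hτw]
        exact hτ w hwS
      · exact fun h => hwv h.symm
    · rw [Finset.mem_biUnion]
      refine ⟨τ w, Finset.mem_erase.2 ⟨fun h => hτw h.symm, Finset.mem_univ _⟩, ?_⟩
      refine Finset.mem_filter.2 ⟨hτ w hwS, ?_⟩
      by_contra hna
      exact hw2 ⟨fun h => absurd h hna, fun h => absurd h hτw⟩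
  · refine (Finset.card_biUnion_le_card_mul _ _ 1
      (fun j hj => bc_card_of_A1 (h1 v hv j (Finset.ne_of_mem_erase hj)))).trans ?_
    rw [Finset.card_erase_of_mem (Finset.mem_univ _), Finset.card_univ, Fintype.card_fin]
    omega

theorem bc_step (hN : NoP1P5 G) {K R : Finset V} (hK : Clq G K) (hR : Clq G R)
    {k r : Fin 8 → V} (hk : ∀ i, k i ∈ K) (hr : ∀ i, r i ∈ R) (hkr : ∀ i, G.Adj (k i) (r i))
    (hki : Function.Injective k) (hri : Function.Injective r)
    (hRK : ∀ v ∈ R, bc_A1 G K v) {w w' κ : V}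
    (hwK : bc_A1 G K w) (hwR : bc_A1 G R w) (hw'K : bc_A1 G K w') (hw'R : bc_A1 G R w')
    (hκ : κ ∈ K) (h1 : G.Adj w κ) (h2 : ¬ G.Adj w' κ) : G.Adj w w' := by
  by_contra hww
  have c1 : (Finset.univ.filter (fun i : Fin 8 => k i = κ)).card ≤ 1 := by
    rw [Finset.card_le_one]
    intro a ha b hb
    exact hki ((Finset.mem_filter.1 ha).2.trans (Finset.mem_filter.1 hb).2.symm)
  have c2 : (Finset.univ.filter (fun i : Fin 8 => G.Adj w (r i))).card ≤ 1 := by
    rw [Finset.card_le_one]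
    intro a ha b hb
    exact hri (hwR _ (hr a) _ (hr b) (Finset.mem_filter.1 ha).2 (Finset.mem_filter.1 hb).2)
  have c3 : (Finset.univ.filter (fun i : Fin 8 => G.Adj w' (r i))).card ≤ 1 := by
    rw [Finset.card_le_one]
    intro a ha b hb
    exact hri (hw'R _ (hr a) _ (hr b) (Finset.mem_filter.1 ha).2 (Finset.mem_filter.1 hb).2)
  have c4 : (Finset.univ.filter (fun i : Fin 8 => G.Adj w' (k i))).card ≤ 1 := by
    rw [Finset.card_le_one]
    intro a ha b hb
    exact hki (hw'K _ (hk a) _ (hk b) (Finset.mem_filter.1 ha).2 (Finset.mem_filter.1 hb).2)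
  have hB : (((Finset.univ.filter (fun i : Fin 8 => k i = κ)) ∪
      (Finset.univ.filter (fun i : Fin 8 => G.Adj w (r i)))) ∪
      ((Finset.univ.filter (fun i : Fin 8 => G.Adj w' (r i))) ∪
      (Finset.univ.filter (fun i : Fin 8 => G.Adj w' (k i))))).card ≤ 4 := by
    have e1 := Finset.card_union_le (Finset.univ.filter (fun i : Fin 8 => k i = κ))
      (Finset.univ.filter (fun i : Fin 8 => G.Adj w (r i)))
    have e2 := Finset.card_union_le (Finset.univ.filter (fun i : Fin 8 => G.Adj w' (r i)))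
      (Finset.univ.filter (fun i : Fin 8 => G.Adj w' (k i)))
    refine (Finset.card_union_le _ _).trans ?_
    omega
  obtain ⟨i, hi, j, hj, hij⟩ := Finset.one_lt_card.1
    (show 1 < (((Finset.univ.filter (fun i : Fin 8 => k i = κ)) ∪
      (Finset.univ.filter (fun i : Fin 8 => G.Adj w (r i)))) ∪
      ((Finset.univ.filter (fun i : Fin 8 => G.Adj w' (r i))) ∪
      (Finset.univ.filter (fun i : Fin 8 => G.Adj w' (k i)))))ᶜ.card by
        rw [Finset.card_compl, Fintype.card_fin]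
        omega)
  rw [Finset.mem_compl, Finset.mem_union, Finset.mem_union, Finset.mem_union, not_or, not_or,
    not_or] at hi hj
  have n1 : ∀ i, i ∉ Finset.univ.filter (fun i : Fin 8 => k i = κ) → κ ≠ k i :=
    fun i h e => h (Finset.mem_filter.2 ⟨Finset.mem_univ _, e.symm⟩)
  have n2 : ∀ i, i ∉ Finset.univ.filter (fun i : Fin 8 => G.Adj w (r i)) → ¬ G.Adj w (r i) :=
    fun i h e => h (Finset.mem_filter.2 ⟨Finset.mem_univ _, e⟩)
  have n3 : ∀ i, i ∉ Finset.univ.filter (fun i : Fin 8 => G.Adj w' (r i)) → ¬ G.Adj w' (r i) :=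
    fun i h e => h (Finset.mem_filter.2 ⟨Finset.mem_univ _, e⟩)
  have n4 : ∀ i, i ∉ Finset.univ.filter (fun i : Fin 8 => G.Adj w' (k i)) → ¬ G.Adj w' (k i) :=
    fun i h e => h (Finset.mem_filter.2 ⟨Finset.mem_univ _, e⟩)
  obtain ⟨⟨hi1, hi2⟩, hi3, hi4⟩ := hi
  obtain ⟨⟨hj1, hj2⟩, hj3, hj4⟩ := hj
  exact hN w' w κ (k i) (r i) (r j) h1 (hK κ hκ (k i) (hk i) (n1 i hi1)) (hkr i)
    (hR (r i) (hr i) (r j) (hr j) (hri.ne hij))
    (fun h => n1 i hi1 (hwK κ hκ (k i) (hk i) h1 h))
    (n2 i hi2) (n2 j hj2)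
    (fun h => n1 i hi1 (hRK (r i) (hr i) κ hκ (k i) (hk i) h.symm (hkr i).symm))
    (fun h => n1 j hj1 (hRK (r j) (hr j) κ hκ (k j) (hk j) h.symm (hkr j).symm))
    (fun h => hij (hki (hRK (r j) (hr j) (k i) (hk i) (k j) (hk j) h.symm (hkr j).symm)))
    (fun h => hww h.symm) h2 (n4 i hi4) (n3 i hi3) (n3 j hj3)

theorem bc_FK (hD : NoDia G) {K W : Finset V} (hW : Clq G W) (hdis : Disjoint K W)
    (hWK : ∀ w ∈ W, bc_A1 G K w) : (K.filter (fun κ => 1 < (nb G W κ).card)).card ≤ 1 := by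
  have hcomp : ∀ κ ∈ K, 1 < (nb G W κ).card → ∀ w ∈ W, G.Adj κ w := by
    intro κ hκ h1 w hw
    obtain ⟨a, ha, b, hb, hab⟩ := Finset.one_lt_card.1 h1
    obtain ⟨haW, hκa⟩ := Finset.mem_filter.1 ha
    obtain ⟨hbW, hκb⟩ := Finset.mem_filter.1 hb
    by_cases hwa : w = a
    · rw [hwa]
      exact hκa
    by_cases hwb : w = b
    · rw [hwb]
      exact hκb
    have hκw : κ ≠ w := fun h => Finset.disjoint_left.1 hdis hκ (h ▸ hw)
    exact hD a b κ w (hW a haW b hbW hab) hκa.symm hκb.symm (hW a haW w hw (Ne.symm hwa))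
      (hW b hbW w hw (Ne.symm hwb)) hκw
  rw [Finset.card_le_one]
  intro κ hκ κ' hκ'
  obtain ⟨hκK, h1⟩ := Finset.mem_filter.1 hκ
  obtain ⟨hκ'K, h1'⟩ := Finset.mem_filter.1 hκ'
  obtain ⟨a, ha, _⟩ := Finset.one_lt_card.1 h1
  have haW := (Finset.mem_filter.1 ha).1
  exact hWK a haW κ hκK κ' hκ'K (hcomp κ hκK h1 a haW).symm (hcomp κ' hκ'K h1' a haW).symm

theorem bc_caseA (hD : NoDia G) {K R W : Finset V} (hS : S = K ∪ R ∪ W)
    (hK : Clq G K) (hR : Clq G R) (hW : Clq G W)
    (dKR : Disjoint K R) (dKW : Disjoint K W) (dRW : Disjoint R W)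
    (hKR : ∀ v ∈ K, bc_A1 G R v) (hRK : ∀ v ∈ R, bc_A1 G K v)
    (hWK : ∀ w ∈ W, bc_A1 G K w) (hWR : ∀ w ∈ W, bc_A1 G R w) : SLin 12 G S := by
  set F := (K.filter (fun κ => 1 < (nb G W κ).card)) ∪
    (R.filter (fun κ => 1 < (nb G W κ).card)) with hF
  have hFc : F.card ≤ 2 :=
    (Finset.card_union_le _ _).trans (add_le_add (bc_FK hD hW dKW hWK) (bc_FK hD hW dRW hWR))
  have h1 : SLin (3 * 3) G (S \ F) := by
    apply bc_pieces le_rfl ![K, R, W] (fun v => if v ∈ K then 0 else if v ∈ R then 1 else 2)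
    · intro v hv
      obtain ⟨hvS, hvF⟩ := Finset.mem_sdiff.1 hv
      rw [hS, Finset.mem_union, Finset.mem_union] at hvS
      by_cases hvK : v ∈ K
      · simp [hvK]
      · by_cases hvR : v ∈ R
        · simp [hvK, hvR]
        · have hvW : v ∈ W := by
            rcases hvS with (h | h) | h
            · exact absurd h hvK
            · exact absurd h hvR
            · exact h
          simp [hvK, hvR, hvW]
    · intro i
      fin_cases i
      · exact hK
      · exact hR
      · exact hW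
    · intro v hv j hj
      obtain ⟨hvS, hvF⟩ := Finset.mem_sdiff.1 hv
      rw [hS, Finset.mem_union, Finset.mem_union] at hvS
      have hcard : v ∈ K ∨ v ∈ R → bc_A1 G W v := by
        intro h
        apply bc_A1_of_card
        by_contra hlt
        apply hvF
        rw [hF, Finset.mem_union]
        rcases h with h | h
        · exact Or.inl (Finset.mem_filter.2 ⟨h, not_le.1 hlt⟩)
        · exact Or.inr (Finset.mem_filter.2 ⟨h, not_le.1 hlt⟩)
      by_cases hvK : v ∈ K
      · rw [if_pos hvK] at hj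
        fin_cases j
        · exact absurd rfl hj
        · exact hKR v hvK
        · exact hcard (Or.inl hvK)
      · rw [if_neg hvK] at hj
        by_cases hvR : v ∈ R
        · rw [if_pos hvR] at hj
          fin_cases j
          · exact hRK v hvR
          · exact absurd rfl hj
          · exact hcard (Or.inr hvR)
        · rw [if_neg hvR] at hj
          have hvW : v ∈ W := by
            rcases hvS with (h | h) | h
            · exact absurd h hvK
            · exact absurd h hvR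
            · exact h
          fin_cases j
          · exact hWK v hvW
          · exact hWR v hvW
          · exact absurd rfl hj
  exact (SLin.add F h1).mono_k (by omega)

theorem bc_two (K R : Finset V) (hK : Clq G K) (hR : Clq G R) (dKR : Disjoint K R)
    (hKR : ∀ v ∈ K, bc_A1 G R v) (hRK : ∀ v ∈ R, bc_A1 G K v) : SLin 6 G (K ∪ R) := by
  have h1 : SLin (2 * 3) G (K ∪ R) := by
    apply bc_pieces (by norm_num) ![K, R] (fun v => if v ∈ K then 0 else 1)
    · intro v hv
      rw [Finset.mem_union] at hv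
      by_cases hvK : v ∈ K
      · simp [hvK]
      · have hvR : v ∈ R := hv.resolve_left hvK
        simp [hvK, hvR]
    · intro i
      fin_cases i
      · exact hK
      · exact hR
    · intro v hv j hj
      rw [Finset.mem_union] at hv
      by_cases hvK : v ∈ K
      · rw [if_pos hvK] at hj
        fin_cases j
        · exact absurd rfl hj
        · exact hKR v hvK
      · rw [if_neg hvK] at hj
        have hvR : v ∈ R := hv.resolve_left hvK
        fin_cases j
        · exact hRK v hvR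
        · exact absurd rfl hj
  exact h1

theorem bc_nb_card {K R : Finset V} {w : V} (h1 : bc_A1 G K w) (h2 : bc_A1 G R w) :
    (nb G (K ∪ R) w).card ≤ 2 := by
  have h : nb G (K ∪ R) w ⊆ nb G K w ∪ nb G R w := by
    intro x hx
    obtain ⟨hx1, hx2⟩ := Finset.mem_filter.1 hx
    rw [Finset.mem_union] at hx1 ⊢
    rcases hx1 with hx1 | hx1
    · exact Or.inl (Finset.mem_filter.2 ⟨hx1, hx2⟩)
    · exact Or.inr (Finset.mem_filter.2 ⟨hx1, hx2⟩)
  exact (Finset.card_le_card h).trans ((Finset.card_union_le _ _).trans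
    (add_le_add (bc_card_of_A1 h1) (bc_card_of_A1 h2)))

/-- the final assembly: delete `F`, the rest falls into two anticomplete parts -/
theorem bc_fin {X Y F : Finset V} (hcov : S \ F = (X \ F) ∪ (Y \ F)) (hd : Disjoint X Y)
    (hXY : ∀ u ∈ X \ F, ∀ v ∈ Y \ F, ¬G.Adj u v) (hX : SLin 6 G X) (hY : SLinN 6 G (Y \ F))
    (hF : F.card ≤ 5) : SLin 12 G S := by
  have h1 : SLinN 6 G (S \ F) := by
    rw [hcov]
    refine SLinN.union ?_ hXY (hX.subset Finset.sdiff_subset).toN hY
    exact Finset.disjoint_of_subset_left Finset.sdiff_subset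
      (Finset.disjoint_of_subset_right Finset.sdiff_subset hd)
  exact (SLin.add F h1.toS).mono_k (by omega)

theorem bc_caseB (hD : NoDia G) {K R W : Finset V} (hS : S = K ∪ R ∪ W)
    (hK : Clq G K) (hR : Clq G R)
    (dKR : Disjoint K R) (dW : Disjoint (K ∪ R) W)
    (hKR : ∀ v ∈ K, bc_A1 G R v) (hRK : ∀ v ∈ R, bc_A1 G K v)
    (hWK : ∀ w ∈ W, bc_A1 G K w) (hWR : ∀ w ∈ W, bc_A1 G R w)
    (hsame : ∀ w ∈ W, ∀ w' ∈ W, ¬ G.Adj w w' → ∀ x ∈ K ∪ R, (G.Adj w x ↔ G.Adj w' x))
    (hconn : Conn G S) (hKne : K.Nonempty) {w0 w0' : V} (hw0 : w0 ∈ W) (hw0' : w0' ∈ W)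
    (hne : w0 ≠ w0') (hna : ¬ G.Adj w0 w0') : SLin 12 G S := by
  set C := W.filter (fun w => ∀ x ∈ K ∪ R, (G.Adj w x ↔ G.Adj w0 x)) with hC
  set D := W.filter (fun w => ¬ ∀ x ∈ K ∪ R, (G.Adj w x ↔ G.Adj w0 x)) with hDD
  have hCW : C ⊆ W := Finset.filter_subset _ _
  have hDW : D ⊆ W := Finset.filter_subset _ _
  have hCD : ∀ w ∈ W, w ∈ C ∨ w ∈ D := by
    intro w hw
    by_cases h : ∀ x ∈ K ∪ R, (G.Adj w x ↔ G.Adj w0 x)
    · exact Or.inl (Finset.mem_filter.2 ⟨hw, h⟩)
    · exact Or.inr (Finset.mem_filter.2 ⟨hw, h⟩)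
  have hCDdis : Disjoint C D := by
    rw [Finset.disjoint_left]
    intro w h1 h2
    exact (Finset.mem_filter.1 h2).2 (Finset.mem_filter.1 h1).2
  have hDC : ∀ d ∈ D, ∀ c ∈ C, G.Adj d c := by
    intro d hd c hc
    by_contra h
    apply (Finset.mem_filter.1 hd).2
    intro x hx
    exact (hsame d (hDW hd) c (hCW hc) h x hx).trans ((Finset.mem_filter.1 hc).2 x hx)
  have hw0C : w0 ∈ C := Finset.mem_filter.2 ⟨hw0, fun x _ => Iff.rfl⟩
  have hw0'C : w0' ∈ C :=
    Finset.mem_filter.2 ⟨hw0', fun x hx => (hsame w0 hw0 w0' hw0' hna x hx).symm⟩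
  have hDind : Ind G D := by
    intro d hd d' hd' h
    exact hna (hD d d' w0 w0' h (hDC d hd w0 hw0C) (hDC d' hd' w0 hw0C) (hDC d hd w0' hw0'C)
      (hDC d' hd' w0' hw0'C) hne)
  have h2 := bc_two K R hK hR dKR hKR hRK
  have hCanti : ∀ u ∈ K ∪ R, u ∉ nb G (K ∪ R) w0 → ∀ c ∈ C, ¬ G.Adj u c := by
    intro u hu hu' c hc h
    apply hu'
    exact Finset.mem_filter.2 ⟨hu, ((Finset.mem_filter.1 hc).2 u hu).1 h.symm⟩
  by_cases hDc : 1 < D.card
  · obtain ⟨d, hd, d', hd', hdd⟩ := Finset.one_lt_card.1 hDc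
    have hCind : Ind G C := by
      intro c hc c' hc' h
      exact hDind d hd d' hd' (hD c c' d d' h (hDC d hd c hc).symm (hDC d hd c' hc').symm
        (hDC d' hd' c hc).symm (hDC d' hd' c' hc').symm hdd)
    have hW6 : SLin 6 G W := by
      have e : W = C ∪ D := by
        ext w
        rw [Finset.mem_union]
        exact ⟨hCD w, fun h => h.elim (fun h => hCW h) (fun h => hDW h)⟩
      rw [e]
      have h3 := slin_join (r := 1) hCDdis (fun _ : V => 0) (fun _ _ => True)
        (fun x hx y hy => iff_of_true (hDC y hy x hx).symm trivial) (slin_ind hCind)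
        (slin_ind hDind)
      exact h3
    refine bc_fin (X := K ∪ R) (Y := W) (F := nb G (K ∪ R) w0 ∪ nb G (K ∪ R) d) ?_ dW ?_ h2
      (hW6.subset Finset.sdiff_subset).toN ?_
    · rw [hS, Finset.union_sdiff_distrib]
    · intro u hu v hv h
      obtain ⟨hu1, hu2⟩ := Finset.mem_sdiff.1 hu
      have hv1 := (Finset.mem_sdiff.1 hv).1
      rw [Finset.mem_union, not_or] at hu2
      rcases hCD v hv1 with hvC | hvD
      · exact hCanti u hu1 hu2.1 v hvC h
      · apply hu2.2
        exact Finset.mem_filter.2 ⟨hu1, (hsame v hv1 d (hDW hd) (hDind v hvD d hd) u hu1).1 h.symm⟩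
    · refine (Finset.card_union_le _ _).trans ?_
      have e1 := bc_nb_card (hWK w0 hw0) (hWR w0 hw0)
      have e2 := bc_nb_card (hWK d (hDW hd)) (hWR d (hDW hd))
      omega
  · have hz : ∃ z, ∀ c ∈ C, G.Adj z c := by
      rcases D.eq_empty_or_nonempty with hDe | ⟨d, hd⟩
      · obtain ⟨u, hu, v, hv, huv⟩ := hconn W (by rw [hS]; exact Finset.subset_union_right)
          ⟨w0, hw0⟩ (by
            intro hWS
            obtain ⟨κ, hκ⟩ := hKne
            have hκW : κ ∈ W := by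
              rw [hWS, hS, Finset.mem_union, Finset.mem_union]
              exact Or.inl (Or.inl hκ)
            exact Finset.disjoint_left.1 dW (Finset.mem_union_left _ hκ) hκW)
        have huC : u ∈ C := by
          rcases hCD u hu with h | h
          · exact h
          · rw [hDe] at h
            exact absurd h (Finset.notMem_empty u)
        obtain ⟨hvS, hvW⟩ := Finset.mem_sdiff.1 hv
        have hvKR : v ∈ K ∪ R := by
          rw [hS, Finset.mem_union] at hvS
          exact hvS.resolve_right hvW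
        have hw0v := ((Finset.mem_filter.1 huC).2 v hvKR).1 huv
        exact ⟨v, fun c hc => (((Finset.mem_filter.1 hc).2 v hvKR).2 hw0v).symm⟩
      · exact ⟨d, fun c hc => hDC d hd c hc⟩
    obtain ⟨z, hz⟩ := hz
    have hCN : SLinN 6 G C := by
      refine SLinN.mono_k (slin_p3free ?_) (by norm_num)
      intro x hx y hy t ht hxy hyt hxt
      exact hD y z x t (hz y hy).symm hxy.symm (hz x hx) hyt (hz t ht) hxt
    refine bc_fin (X := K ∪ R) (Y := W) (F := nb G (K ∪ R) w0 ∪ D) ?_ dW ?_ h2 ?_ ?_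
    · rw [hS, Finset.union_sdiff_distrib]
    · intro u hu v hv h
      obtain ⟨hu1, hu2⟩ := Finset.mem_sdiff.1 hu
      obtain ⟨hv1, hv2⟩ := Finset.mem_sdiff.1 hv
      rw [Finset.mem_union, not_or] at hu2 hv2
      rcases hCD v hv1 with hvC | hvD
      · exact hCanti u hu1 hu2.1 v hvC h
      · exact hv2.2 hvD
    · have e : W \ (nb G (K ∪ R) w0 ∪ D) = C := by
        ext w
        rw [Finset.mem_sdiff, Finset.mem_union, not_or]
        constructor
        · rintro ⟨h1, -, h3⟩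
          exact (hCD w h1).resolve_right h3
        · intro h1
          refine ⟨hCW h1, ?_, Finset.disjoint_left.1 hCDdis h1⟩
          intro h3
          exact Finset.disjoint_left.1 dW (Finset.mem_filter.1 h3).1 (hCW h1)
      rw [e]
      exact hCN
    · refine (Finset.card_union_le _ _).trans ?_
      have e1 := bc_nb_card (hWK w0 hw0) (hWR w0 hw0)
      omega

theorem bc_ext (hD : NoDia G) (r : Fin 8 → V) (hrS : ∀ i, r i ∈ S)
    (hrr : ∀ i j, i ≠ j → G.Adj (r i) (r j)) :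
    ∃ R ⊆ S, Clq G R ∧ (∀ i, r i ∈ R) ∧ ∀ v ∈ S \ R, bc_A1 G R v := by
  have hne : (S.powerset.filter (fun R => Clq G R ∧ ∀ i, r i ∈ R)).Nonempty := by
    refine ⟨Finset.univ.image r, Finset.mem_filter.2 ⟨?_, ?_, ?_⟩⟩
    · rw [Finset.mem_powerset]
      intro x hx
      obtain ⟨i, -, rfl⟩ := Finset.mem_image.1 hx
      exact hrS i
    · intro x hx y hy hxy
      obtain ⟨i, -, rfl⟩ := Finset.mem_image.1 hx
      obtain ⟨j, -, rfl⟩ := Finset.mem_image.1 hy
      exact hrr i j (fun h => hxy (h ▸ rfl))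
    · intro i
      exact Finset.mem_image.2 ⟨i, Finset.mem_univ _, rfl⟩
  obtain ⟨R, hR, hmax⟩ := Finset.exists_max_image _ Finset.card hne
  obtain ⟨hRS, hRc, hRr⟩ := Finset.mem_filter.1 hR
  rw [Finset.mem_powerset] at hRS
  refine ⟨R, hRS, hRc, hRr, ?_⟩
  intro v hv a ha b hb h1 h2
  by_contra hab
  obtain ⟨hvS, hvR⟩ := Finset.mem_sdiff.1 hv
  have hcomp : ∀ c ∈ R, G.Adj v c := by
    intro c hc
    by_cases hca : c = a
    · rw [hca]
      exact h1
    by_cases hcb : c = b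
    · rw [hcb]
      exact h2
    have hvc : v ≠ c := fun h => hvR (h ▸ hc)
    exact hD a b v c (hRc a ha b hb hab) h1.symm h2.symm (hRc a ha c hc (Ne.symm hca))
      (hRc b hb c hc (Ne.symm hcb)) hvc
  have hin : insert v R ∈ S.powerset.filter (fun R => Clq G R ∧ ∀ i, r i ∈ R) := by
    refine Finset.mem_filter.2 ⟨?_, ?_, ?_⟩
    · rw [Finset.mem_powerset]
      exact Finset.insert_subset hvS hRS
    · intro x hx y hy hxy
      rw [Finset.mem_insert] at hx hy
      rcases hx with rfl | hx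
      · rcases hy with rfl | hy
        · exact absurd rfl hxy
        · exact hcomp y hy
      · rcases hy with rfl | hy
        · exact (hcomp x hx).symm
        · exact hRc x hx y hy hxy
    · intro i
      exact Finset.mem_insert_of_mem (hRr i)
  have h3 := hmax _ hin
  rw [Finset.card_insert_of_notMem hvR] at h3
  omega

/-- TARGET -/
theorem bc_clq : ∃ c, ∀ (V : Type) (G : SimpleGraph V) (S K : Finset V) (k r : Fin 8 → V), NoDia G →
    NoP1P5 G → Conn G S → K ⊆ S → Clq G K → (∀ v ∈ S \ K, (nb G K v).card ≤ 1) →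
    (∀ i, k i ∈ K ∧ r i ∈ S \ K ∧ G.Adj (k i) (r i)) → Function.Injective k →
    (∀ i j, i ≠ j → G.Adj (r i) (r j)) → SLin c G S := by
  refine ⟨12, ?_⟩
  intro V G S K k r hD hN hconn hKS hK hK1 hkr hki hrr
  have hkK : ∀ i, k i ∈ K := fun i => (hkr i).1
  have hrS : ∀ i, r i ∈ S := fun i => (Finset.mem_sdiff.1 (hkr i).2.1).1
  have hrK : ∀ i, r i ∉ K := fun i => (Finset.mem_sdiff.1 (hkr i).2.1).2
  have hadj : ∀ i, G.Adj (k i) (r i) := fun i => (hkr i).2.2
  have hri : Function.Injective r := by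
    intro i j hij
    by_contra hne
    have h := hrr i j hne
    rw [hij] at h
    exact h.ne rfl
  obtain ⟨R, hRS, hRc, hRr, hR1⟩ := bc_ext hD r hrS hrr
  have hA1K : ∀ v ∈ S \ K, bc_A1 G K v := fun v hv => bc_A1_of_card (hK1 v hv)
  have dKR : Disjoint K R := by
    rw [Finset.disjoint_left]
    intro κ hκ hκR
    have h1 : ∀ i, κ = k i := by
      intro i
      have hne : κ ≠ r i := fun h => hrK i (h ▸ hκ)
      exact hA1K (r i) (hkr i).2.1 κ hκ (k i) (hkK i) (hRc (r i) (hRr i) κ hκR hne.symm)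
        (hadj i).symm
    have h2 : k 0 = k 1 := (h1 0).symm.trans (h1 1)
    exact absurd (hki h2) (by decide)
  have hRK : ∀ v ∈ R, bc_A1 G K v := fun v hv =>
    hA1K v (Finset.mem_sdiff.2 ⟨hRS hv, fun h => Finset.disjoint_left.1 dKR h hv⟩)
  have hKR : ∀ v ∈ K, bc_A1 G R v := fun v hv =>
    hR1 v (Finset.mem_sdiff.2 ⟨hKS hv, fun h => Finset.disjoint_left.1 dKR hv h⟩)
  set W := S \ (K ∪ R) with hW
  have hS : S = K ∪ R ∪ W := by
    rw [hW, Finset.union_sdiff_of_subset (Finset.union_subset hKS hRS)]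
  have dW : Disjoint (K ∪ R) W := Finset.disjoint_sdiff
  have hWK : ∀ w ∈ W, bc_A1 G K w := by
    intro w hw
    obtain ⟨hw1, hw2⟩ := Finset.mem_sdiff.1 hw
    exact hA1K w (Finset.mem_sdiff.2 ⟨hw1, fun h => hw2 (Finset.mem_union_left _ h)⟩)
  have hWR : ∀ w ∈ W, bc_A1 G R w := by
    intro w hw
    obtain ⟨hw1, hw2⟩ := Finset.mem_sdiff.1 hw
    exact hR1 w (Finset.mem_sdiff.2 ⟨hw1, fun h => hw2 (Finset.mem_union_right _ h)⟩)
  have hone : ∀ w ∈ W, ∀ w' ∈ W, ¬ G.Adj w w' → ∀ x ∈ K ∪ R, G.Adj w x → G.Adj w' x := by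
    intro w hw w' hw' hna x hx hwx
    by_contra hw'x
    rcases Finset.mem_union.1 hx with hx | hx
    · exact hna (bc_step hN hK hRc hkK hRr hadj hki hri hRK (hWK w hw) (hWR w hw)
        (hWK w' hw') (hWR w' hw') hx hwx hw'x)
    · exact hna (bc_step hN hRc hK hRr hkK (fun i => (hadj i).symm) hri hki hKR (hWR w hw)
        (hWK w hw) (hWR w' hw') (hWK w' hw') hx hwx hw'x)
  have hsame : ∀ w ∈ W, ∀ w' ∈ W, ¬ G.Adj w w' → ∀ x ∈ K ∪ R, (G.Adj w x ↔ G.Adj w' x) :=
    fun w hw w' hw' hna x hx =>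
      ⟨hone w hw w' hw' hna x hx, hone w' hw' w hw (fun h => hna h.symm) x hx⟩
  by_cases hWc : Clq G W
  · exact bc_caseA hD hS hK hRc hWc dKR
      (Finset.disjoint_of_subset_left Finset.subset_union_left dW)
      (Finset.disjoint_of_subset_left Finset.subset_union_right dW) hKR hRK hWK hWR
  · unfold Clq at hWc
    push Not at hWc
    obtain ⟨w0, hw0, w0', hw0', hne, hna⟩ := hWc
    exact bc_caseB hD hS hK hRc dKR dW hKR hRK hWK hWR hsame hconn ⟨k 0, hkK 0⟩ hw0 hw0' hne hna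

end BcClq

end Pool.Agent.Helper856.Cw
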