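import Pool.Agent.Helper856.Pair.Defs
import Pool.Agent.Helper856.Cw.Basic
import Pool.Agent.Helper856.Cw.Blocks
import Pool.Agent.Helper856.Pair.Induce
import Pool.Agent.Helper856.Pair.SPieces
import Pool.Agent.Helper856.Pair.P3free
import Pool.Agent.Helper856.Pair.F1Bip

open Classical SimpleGraph

namespace Pool.Agent.Helper856.Cw

open Induce (slin_ind)
open SPieces (slin_join)
open P3free (slin_p3free)
open F1Bip (f1_bip)

namespace BcInd

variable {V : Type} {G : SimpleGraph V} {S T : Finset V} {k l : ℕ}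

/-- among the eight indices, outside few bad ones there are three different good ones -/
theorem pick3 (B : Finset (Fin 8)) (hB : B.card ≤ 5) :
    ∃ l m n : Fin 8, l ∉ B ∧ m ∉ B ∧ n ∉ B ∧ l ≠ m ∧ l ≠ n ∧ m ≠ n := by
  have h1 : 2 < (Finset.univ \ B).card := by
    rw [Finset.card_sdiff_of_subset (Finset.subset_univ B), Finset.card_univ, Fintype.card_fin]
    omega
  obtain ⟨l, m, n, hl, hm, hn, h2, h3, h4⟩ := Finset.two_lt_card_iff.mp h1
  simp only [Finset.mem_sdiff, Finset.mem_univ, true_and] at hl hm hn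
  exact ⟨l, m, n, hl, hm, hn, h2, h3, h4⟩

theorem nb_unique {V : Type} {G : SimpleGraph V} {K : Finset V} {v a b : V}
    (h : (nb G K v).card ≤ 1) (ha : a ∈ K) (hb : b ∈ K) (hva : G.Adj v a) (hvb : G.Adj v b) :
    a = b := by
  rw [Finset.card_le_one] at h
  exact h a (by simp [nb, ha, hva]) b (by simp [nb, hb, hvb])

/-- the indices whose `k` is adjacent to `v` -/
theorem card_adj_le {V : Type} {G : SimpleGraph V} {K : Finset V} {v : V} {k : Fin 8 → V}
    (hk : ∀ i, k i ∈ K) (hinj : Function.Injective k)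
    (h : (nb G K v).card ≤ 1) : (Finset.univ.filter (fun i => G.Adj v (k i))).card ≤ 1 := by
  rw [Finset.card_le_one]
  intro a ha b hb
  simp only [Finset.mem_filter, Finset.mem_univ, true_and] at ha hb
  exact hinj (nb_unique h (hk a) (hk b) ha hb)

theorem kadj {V : Type} {G : SimpleGraph V} {S K : Finset V} {k r : Fin 8 → V}
    (hnb : ∀ v ∈ S \ K, (nb G K v).card ≤ 1)
    (hkr : ∀ i, k i ∈ K ∧ r i ∈ S \ K ∧ G.Adj (k i) (r i)) {i : Fin 8} {κ : V} (hκ : κ ∈ K)
    (hne : κ ≠ k i) : ¬G.Adj (r i) κ := by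
  intro h
  exact hne (nb_unique (hnb _ (hkr i).2.1) hκ (hkr i).1 h (hkr i).2.2.symm)

/-- step (1) -/
theorem step1 {V : Type} {G : SimpleGraph V} {S K : Finset V} {k r : Fin 8 → V}
    (hP : NoP1P5 G) (hK : Clq G K) (hnb : ∀ v ∈ S \ K, (nb G K v).card ≤ 1)
    (hkr : ∀ i, k i ∈ K ∧ r i ∈ S \ K ∧ G.Adj (k i) (r i)) (hinj : Function.Injective k)
    (hr : ∀ i j, ¬G.Adj (r i) (r j)) {x : V} (hx : x ∈ S \ K) {i : Fin 8}
    (hxi : G.Adj x (r i)) (hxk : ¬G.Adj x (k i)) (j : Fin 8) : G.Adj x (r j) := by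
  have hkk : ∀ a b : Fin 8, a ≠ b → G.Adj (k a) (k b) := fun a b hab =>
    hK _ (hkr a).1 _ (hkr b).1 (fun h => hab (hinj h))
  have hrk : ∀ a b : Fin 8, a ≠ b → ¬G.Adj (r a) (k b) := fun a b hab =>
    kadj hnb hkr (hkr b).1 (fun h => hab (hinj h).symm)
  have hkr' : ∀ a b : Fin 8, a ≠ b → ¬G.Adj (k a) (r b) := fun a b hab h =>
    hrk b a hab.symm h.symm
  set B1 : Finset (Fin 8) := Finset.univ.filter (fun l => G.Adj x (k l)) with hB1
  set B2 : Finset (Fin 8) := Finset.univ.filter
    (fun l => l ≠ i ∧ ¬G.Adj x (k l) ∧ ¬G.Adj x (r l)) with hB2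
  have h1 : B1.card ≤ 1 := card_adj_le (fun i => (hkr i).1) hinj (hnb x hx)
  have h2 : B2.card ≤ 1 := by
    rw [Finset.card_le_one]
    intro l hl m hm
    simp only [hB2, Finset.mem_filter, Finset.mem_univ, true_and] at hl hm
    by_contra hlm
    exact hP (r m) x (r i) (k i) (k l) (r l) hxi (hkr i).2.2.symm (hkk i l (Ne.symm hl.1))
      (hkr l).2.2 hxk hl.2.1 hl.2.2 (hrk i l (Ne.symm hl.1)) (hr i l) (hkr' i l (Ne.symm hl.1))
      (fun h => hm.2.2 h.symm) (hr m i) (hrk m i hm.1) (hrk m l (Ne.symm hlm)) (hr m l)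
  by_contra hxj
  obtain ⟨l, m, n, hl, hm, hn, hlm, hln, hmn⟩ := pick3 (insert i (insert j (B1 ∪ B2))) (by
    have e1 := Finset.card_insert_le i (insert j (B1 ∪ B2))
    have e2 := Finset.card_insert_le j (B1 ∪ B2)
    have e3 := Finset.card_union_le B1 B2
    omega)
  have good : ∀ t : Fin 8, t ∉ insert i (insert j (B1 ∪ B2)) →
      t ≠ i ∧ t ≠ j ∧ ¬G.Adj x (k t) ∧ G.Adj x (r t) := by
    intro t ht
    simp only [hB1, hB2, Finset.mem_insert, Finset.mem_union, Finset.mem_filter, Finset.mem_univ,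
      true_and, not_or] at ht
    obtain ⟨t1, t2, t3, t4⟩ := ht
    refine ⟨t1, t2, t3, ?_⟩
    by_contra h
    exact t4 ⟨t1, t3, h⟩
  obtain ⟨l1, l2, l3, l4⟩ := good l hl
  obtain ⟨m1, m2, m3, m4⟩ := good m hm
  obtain ⟨n1, n2, n3, n4⟩ := good n hn
  exact hP (r j) (r l) x (r m) (k m) (k n) l4.symm m4 (hkr m).2.2.symm (hkk m n hmn)
    (hr l m) (hrk l m hlm) (hrk l n hln) m3 n3 (hrk m n hmn) (hr j l) (fun h => hxj h.symm)
    (hr j m) (hrk j m m2.symm) (hrk j n n2.symm)

/-- step (2) -/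
theorem step2 {V : Type} {G : SimpleGraph V} {S K : Finset V} {k r : Fin 8 → V}
    (hP : NoP1P5 G) (hK : Clq G K) (hnb : ∀ v ∈ S \ K, (nb G K v).card ≤ 1)
    (hkr : ∀ i, k i ∈ K ∧ r i ∈ S \ K ∧ G.Adj (k i) (r i)) (hinj : Function.Injective k)
    (hr : ∀ i j, ¬G.Adj (r i) (r j)) {y y' κ : V} (hy : y ∈ S \ K) (hy' : y' ∈ S \ K)
    (h1 : ∀ i, G.Adj y (r i) → G.Adj y (k i)) (h2 : ∀ i, G.Adj y' (r i) → G.Adj y' (k i))
    (hyy : G.Adj y y') (hκ : κ ∈ K) (hyκ : G.Adj y κ) : G.Adj y' κ := by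
  have hrk : ∀ a b : Fin 8, a ≠ b → ¬G.Adj (r a) (k b) := fun a b hab =>
    kadj hnb hkr (hkr b).1 (fun h => hab (hinj h).symm)
  by_contra hcon
  set B1 : Finset (Fin 8) := Finset.univ.filter (fun l => G.Adj y (k l)) with hB1
  set B2 : Finset (Fin 8) := Finset.univ.filter (fun l => G.Adj y' (k l)) with hB2
  set B3 : Finset (Fin 8) := Finset.univ.filter (fun l => κ = k l) with hB3
  have e1 : B1.card ≤ 1 := card_adj_le (fun i => (hkr i).1) hinj (hnb y hy)
  have e2 : B2.card ≤ 1 := card_adj_le (fun i => (hkr i).1) hinj (hnb y' hy')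
  have e3 : B3.card ≤ 1 := by
    rw [Finset.card_le_one]
    intro a ha b hb
    simp only [hB3, Finset.mem_filter, Finset.mem_univ, true_and] at ha hb
    exact hinj (ha.symm.trans hb)
  obtain ⟨i, j, _, hi, hj, _, hij, _, _⟩ := pick3 (B1 ∪ (B2 ∪ B3)) (by
    have g1 := Finset.card_union_le B1 (B2 ∪ B3)
    have g2 := Finset.card_union_le B2 B3
    omega)
  simp only [hB1, hB2, hB3, Finset.mem_union, Finset.mem_filter, Finset.mem_univ, true_and,
    not_or] at hi hj
  obtain ⟨i1, i2, i3⟩ := hi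
  obtain ⟨j1, j2, j3⟩ := hj
  exact hP (r j) y' y κ (k i) (r i) hyy.symm hyκ (hK _ hκ _ (hkr i).1 i3) (hkr i).2.2
    hcon i2 (fun h => i2 (h2 i h)) i1 (fun h => i1 (h1 i h))
    (fun h => kadj hnb hkr hκ i3 h.symm) (fun h => j2 (h2 j h.symm)) (fun h => j1 (h1 j h.symm))
    (kadj hnb hkr hκ j3) (hrk j i hij.symm) (hr j i)

/-- step (3) -/
theorem step3 {V : Type} {G : SimpleGraph V} {S K : Finset V} {k r : Fin 8 → V}
    (hP : NoP1P5 G) (hK : Clq G K) (hnb : ∀ v ∈ S \ K, (nb G K v).card ≤ 1)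
    (hkr : ∀ i, k i ∈ K ∧ r i ∈ S \ K ∧ G.Adj (k i) (r i)) (hinj : Function.Injective k)
    (hr : ∀ i j, ¬G.Adj (r i) (r j)) {x y : V} (hx : x ∈ S \ K) (hy : y ∈ S \ K)
    (h1 : ∀ i, G.Adj x (r i)) (h2 : ∀ i, G.Adj y (r i) → G.Adj y (k i)) : G.Adj x y := by
  have hkk : ∀ a b : Fin 8, a ≠ b → G.Adj (k a) (k b) := fun a b hab =>
    hK _ (hkr a).1 _ (hkr b).1 (fun h => hab (hinj h))
  have hrk : ∀ a b : Fin 8, a ≠ b → ¬G.Adj (r a) (k b) := fun a b hab =>
    kadj hnb hkr (hkr b).1 (fun h => hab (hinj h).symm)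
  by_contra hcon
  set B1 : Finset (Fin 8) := Finset.univ.filter (fun l => G.Adj x (k l)) with hB1
  set B2 : Finset (Fin 8) := Finset.univ.filter (fun l => G.Adj y (k l)) with hB2
  have e1 : B1.card ≤ 1 := card_adj_le (fun i => (hkr i).1) hinj (hnb x hx)
  have e2 : B2.card ≤ 1 := card_adj_le (fun i => (hkr i).1) hinj (hnb y hy)
  obtain ⟨l, m, n, hl, hm, hn, hlm, hln, hmn⟩ := pick3 (B1 ∪ B2) (by
    have g1 := Finset.card_union_le B1 B2
    omega)
  simp only [hB1, hB2, Finset.mem_union, Finset.mem_filter, Finset.mem_univ, true_and,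
    not_or] at hl hm hn
  exact hP y (r l) x (r m) (k m) (k n) (h1 l).symm (h1 m) (hkr m).2.2.symm (hkk m n hmn)
    (hr l m) (hrk l m hlm) (hrk l n hln) hm.1 hn.1 (hrk m n hmn) (fun h => hl.2 (h2 l h))
    (fun h => hcon h.symm) (fun h => hm.2 (h2 m h)) hm.2 hn.2

/-- the union of a clique and attached disjoint unions of cliques -/
theorem ky_slin {V : Type} {G : SimpleGraph V} {K Y : Finset V} (hK : Clq G K)
    (hKY : Disjoint K Y) (hnb : ∀ v ∈ Y, (nb G K v).card ≤ 1)
    (h2 : ∀ y ∈ Y, ∀ y' ∈ Y, ∀ κ ∈ K, G.Adj y y' → G.Adj y κ → G.Adj y' κ)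
    (hY : P3F G Y) : SLin 8 G (K ∪ Y) := by
  obtain ⟨e, he⟩ := Set.countable_iff_exists_injOn.mp K.countable_toSet
  set β : V → ℕ := fun v => if v ∈ K then e v + 1 else
    if h : ∃ κ ∈ K, G.Adj v κ then e h.choose + 1 else 0 with hβ
  have bK : ∀ v ∈ K, β v = e v + 1 := fun v hv => by simp [hβ, hv]
  have bY : ∀ v ∈ Y, ∀ κ ∈ K, G.Adj v κ → β v = e κ + 1 := by
    intro v hv κ hκ hvκ
    have hvK : v ∉ K := fun h => Finset.disjoint_left.mp hKY h hv
    have hex : ∃ κ ∈ K, G.Adj v κ := ⟨κ, hκ, hvκ⟩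
    simp only [hβ, hvK, if_false, hex, dif_pos]
    have := nb_unique (hnb v hv) hex.choose_spec.1 hκ hex.choose_spec.2 hvκ
    rw [this]
  have bY0 : ∀ v ∈ Y, 0 < β v → ∃ κ ∈ K, G.Adj v κ := by
    intro v hv h0
    by_contra hno
    have hvK : v ∉ K := fun h => Finset.disjoint_left.mp hKY h hv
    simp only [hβ, hvK, if_false, dif_neg hno] at h0
    omega
  have key := SLin.blocks (k := 3) (G := G) (S := K ∪ Y) β
    (fun v => if v ∈ K then (0 : Fin 2) else 1) ?_ ?_
  · exact key
  · intro n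
    set B := (K ∪ Y).filter (fun x => β x = n) with hB
    have hF : (B.filter (fun x => x ∈ K)).card ≤ 1 := by
      rw [Finset.card_le_one]
      intro a ha b hb
      simp only [hB, Finset.mem_filter] at ha hb
      have e1 := bK a ha.2
      have e2 := bK b hb.2
      exact he ha.2 hb.2 (by omega)
    have hsub : ∀ x ∈ B \ B.filter (fun x => x ∈ K), x ∈ Y := by
      intro x hx
      simp only [hB, Finset.mem_sdiff, Finset.mem_filter, Finset.mem_union] at hx
      tauto
    have h3 : SLin 2 G (B \ B.filter (fun x => x ∈ K)) := by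
      apply SLinN.toS (k := 1)
      apply slin_p3free
      intro x hx y hy z hz
      exact hY x (hsub x hx) y (hsub y hy) z (hsub z hz)
    exact SLin.mono_k (SLin.add _ h3) (by omega)
  · intro u hu v hv w hw huw hvw huv
    rw [Finset.mem_union] at hu hv hw
    by_cases huK : u ∈ K
    · have hvK : v ∈ K := by
        by_contra h
        simp [huK, h] at huv
      rcases hw with hw | hw
      · have e1 := bK u huK
        have e2 := bK v hvK
        have e3 := bK w hw
        constructor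
        · intro _
          exact hK v hvK w hw (fun h => by rw [h] at hvw; omega)
        · intro _
          exact hK u huK w hw (fun h => by rw [h] at huw; omega)
      · constructor
        · intro h
          have := bY w hw u huK h.symm
          rw [bK u huK] at huw
          omega
        · intro h
          have := bY w hw v hvK h.symm
          rw [bK v hvK] at hvw
          omega
    · have hvK : v ∉ K := by
        intro h
        simp [huK, h] at huv
      have huY : u ∈ Y := hu.resolve_left huK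
      have hvY : v ∈ Y := hv.resolve_left hvK
      have main : ∀ t ∈ Y, β t < β w → ¬G.Adj t w := by
        intro t ht htw h
        rcases hw with hw | hw
        · have := bY t ht w hw h
          rw [bK w hw] at htw
          omega
        · obtain ⟨κ, hκ, hwκ⟩ := bY0 w hw (by omega)
          have h5 := h2 w hw t ht κ hκ h.symm hwκ
          rw [bY t ht κ hκ h5, bY w hw κ hκ hwκ] at htw
          omega
      exact ⟨fun h => absurd h (main u huY huw), fun h => absurd h (main v hvY hvw)⟩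

/-- TARGET -/
theorem bc_ind : ∃ c, ∀ (V : Type) (G : SimpleGraph V) (S K : Finset V) (k r : Fin 8 → V), NoDia G →
    NoP1P5 G → Conn G S → K ⊆ S → Clq G K → (∀ v ∈ S \ K, (nb G K v).card ≤ 1) →
    (∀ i, k i ∈ K ∧ r i ∈ S \ K ∧ G.Adj (k i) (r i)) → Function.Injective k →
    (∀ i j, ¬G.Adj (r i) (r j)) → SLin c G S := by
  obtain ⟨c0, hc0⟩ := f1_bip
  refine ⟨c0 + 9, ?_⟩
  intro V G S K k r hD hP hC hKS hK hnb hkr hinj hr
  set X : Finset V := (S \ K).filter (fun x => ∀ j, G.Adj x (r j)) with hX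
  set Y : Finset V := (S \ K).filter (fun x => ¬ ∀ j, G.Adj x (r j)) with hY
  have mX : ∀ x, x ∈ X ↔ x ∈ S \ K ∧ ∀ j, G.Adj x (r j) := fun x => by
    rw [hX, Finset.mem_filter]
  have mY : ∀ x, x ∈ Y ↔ x ∈ S \ K ∧ ¬ ∀ j, G.Adj x (r j) := fun x => by
    rw [hY, Finset.mem_filter]
  have hrne : r 0 ≠ r 1 := by
    intro h
    have h0 := (hkr 0).2.2
    rw [h] at h0
    exact kadj hnb hkr (i := 1) (hkr 0).1 (fun e => by
      have := hinj e
      simp at this) h0.symm
  have h1 : ∀ y ∈ Y, ∀ i, G.Adj y (r i) → G.Adj y (k i) := by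
    intro y hy i hyi
    by_contra h
    exact ((mY y).mp hy).2 (fun j => step1 hP hK hnb hkr hinj hr ((mY y).mp hy).1 hyi h j)
  have h2 : ∀ y ∈ Y, ∀ y' ∈ Y, ∀ κ ∈ K, G.Adj y y' → G.Adj y κ → G.Adj y' κ := by
    intro y hy y' hy' κ hκ hyy hyκ
    exact step2 hP hK hnb hkr hinj hr ((mY y).mp hy).1 ((mY y').mp hy').1 (h1 y hy) (h1 y' hy')
      hyy hκ hyκ
  have h3 : ∀ x ∈ X, ∀ y ∈ Y, G.Adj x y := by
    intro x hx y hy
    exact step3 hP hK hnb hkr hinj hr ((mX x).mp hx).1 ((mY y).mp hy).1 ((mX x).mp hx).2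
      (h1 y hy)
  have h4 : Ind G X := by
    intro x hx x' hx' hadj
    have e1 := ((mX x).mp hx).2
    have e2 := ((mX x').mp hx').2
    exact hr 0 1 (hD x x' (r 0) (r 1) hadj (e1 0) (e2 0) (e1 1) (e2 1) hrne)
  have hKX : Disjoint K X := by
    rw [Finset.disjoint_left]
    intro a ha hax
    exact (Finset.mem_sdiff.mp ((mX a).mp hax).1).2 ha
  have hKY : Disjoint K Y := by
    rw [Finset.disjoint_left]
    intro a ha hay
    exact (Finset.mem_sdiff.mp ((mY a).mp hay).1).2 ha
  have hXY : Disjoint X Y := by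
    rw [Finset.disjoint_left]
    intro a ha hay
    exact ((mY a).mp hay).2 ((mX a).mp ha).2
  have hS : K ∪ X ∪ Y = S := by
    ext v
    simp only [Finset.mem_union, mX, mY, Finset.mem_sdiff]
    constructor
    · rintro ((h | h) | h)
      · exact hKS h
      · exact h.1.1
      · exact h.1.1
    · intro h
      tauto
  by_cases htwo : ∃ x ∈ X, ∃ x' ∈ X, x ≠ x'
  · obtain ⟨x, hx, x', hx', hne⟩ := htwo
    have h5 : Ind G Y := by
      intro y hy y' hy' hadj
      exact h4 x hx x' hx' (hD y y' x x' hadj (h3 x hx y hy).symm (h3 x hx y' hy').symm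
        (h3 x' hx' y hy).symm (h3 x' hx' y' hy').symm hne)
    have h6 := hc0 V G K X Y hK hKX hKY hXY h4 h5 h3 (by
      intro v hv
      apply hnb
      rcases Finset.mem_union.mp hv with h | h
      · exact ((mX v).mp h).1
      · exact ((mY v).mp h).1)
    rw [hS] at h6
    exact SLin.mono_k h6 (by omega)
  · have hXc : X.card ≤ 1 := by
      rw [Finset.card_le_one]
      intro a ha b hb
      by_contra hab
      exact htwo ⟨a, ha, b, hb, hab⟩
    have hP3 : P3F G Y := by
      intro a ha b hb c hc hab hbc hac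
      by_cases hXe : ∃ x, x ∈ X
      · obtain ⟨x, hx⟩ := hXe
        exact hD x b a c (h3 x hx b hb) (h3 x hx a ha) hab.symm (h3 x hx c hc) hbc hac
      · have hYS : ∀ v ∈ S, v ∉ K → v ∈ Y := by
          intro v hv hvK
          rw [← hS, Finset.mem_union, Finset.mem_union] at hv
          rcases hv with (h | h) | h
          · exact absurd h hvK
          · exact absurd ⟨v, h⟩ hXe
          · exact h
        set R : V → V → Prop := fun p q => p ∈ Y ∧ q ∈ Y ∧ G.Adj p q with hR
        set Z : Finset V := Y.filter (fun z => Relation.ReflTransGen R b z) with hZ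
        have hbZ : b ∈ Z := by
          rw [hZ, Finset.mem_filter]
          exact ⟨hb, Relation.ReflTransGen.refl⟩
        have hYsub : Y ⊆ S := by
          intro v hv
          exact (Finset.mem_sdiff.mp ((mY v).mp hv).1).1
        have hZS : Z ⊆ S := fun v hv => hYsub (Finset.mem_filter.mp hv).1
        have hZne : Z ≠ S := by
          intro h
          have : k 0 ∈ Z := by
            rw [h]
            exact hKS (hkr 0).1
          exact Finset.disjoint_left.mp hKY (hkr 0).1 (Finset.mem_filter.mp this).1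
        obtain ⟨u, hu, v, hv, huv⟩ := hC Z hZS ⟨b, hbZ⟩ hZne
        obtain ⟨hvS, hvZ⟩ := Finset.mem_sdiff.mp hv
        obtain ⟨huY, hbu⟩ := Finset.mem_filter.mp hu
        have hvK : v ∈ K := by
          by_contra hvK
          apply hvZ
          rw [hZ, Finset.mem_filter]
          exact ⟨hYS v hvS hvK, hbu.tail ⟨huY, hYS v hvS hvK, huv⟩⟩
        have hprop : ∀ p q, Relation.ReflTransGen R p q → G.Adj q v → G.Adj p v := by
          intro p q hpq
          induction hpq with
          | refl => exact fun h => h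
          | tail _ hst ih =>
            intro h
            exact ih (h2 _ hst.2.1 _ hst.1 v hvK hst.2.2.symm h)
        have hbv : G.Adj b v := hprop b u hbu huv
        have hav : G.Adj a v := h2 b hb a ha v hvK hab.symm hbv
        have hcv : G.Adj c v := h2 b hb c hc v hvK hbc hbv
        exact hD b v a c hbv hab.symm hav.symm hbc hcv.symm hac
    have h7 : SLin 8 G (K ∪ Y) := ky_slin hK hKY
      (fun v hv => hnb v ((mY v).mp hv).1) h2 hP3
    have h8 : S \ X = K ∪ Y := by
      ext v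
      constructor
      · intro hv
        obtain ⟨hvS, hvX⟩ := Finset.mem_sdiff.mp hv
        rw [← hS, Finset.mem_union, Finset.mem_union] at hvS
        rw [Finset.mem_union]
        tauto
      · intro hv
        rw [Finset.mem_sdiff]
        constructor
        · rw [← hS, Finset.mem_union, Finset.mem_union]
          rw [Finset.mem_union] at hv
          tauto
        · intro hvX
          rcases Finset.mem_union.mp hv with h | h
          · exact Finset.disjoint_left.mp hKX h hvX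
          · exact Finset.disjoint_left.mp hXY hvX h
    rw [← h8] at h7
    exact SLin.mono_k (SLin.add X h7) (by omega)

end BcInd

end Pool.Agent.Helper856.Cw
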