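import Pool.Agent.Helper856.Pair.Defs
import Pool.Agent.Helper856.Cw.Basic
import Pool.Agent.Helper856.Pair.Ramsey
import Pool.Agent.Helper856.Pair.BcInd
import Pool.Agent.Helper856.Pair.BcClq

open Classical SimpleGraph

namespace Pool.Agent.Helper856.Cw

open Ramsey (ramsey)
open BcInd (bc_ind)
open BcClq (bc_clq)

namespace BcMain

variable {V : Type} {G : SimpleGraph V} {S T : Finset V} {k l : ℕ}

/-- TARGET -/
theorem bc_main : ∃ m c, ∀ (V : Type) (G : SimpleGraph V) (S K0 : Finset V), NoDia G → NoP1P5 G →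
    Conn G S → TwinFree G S → K0 ⊆ S → Clq G K0 → m ≤ K0.card → SLin c G S := by
  obtain ⟨N, hN⟩ := ramsey 8 8
  obtain ⟨c1, h1⟩ := bc_ind
  obtain ⟨c2, h2⟩ := bc_clq
  refine ⟨N + 2, max c1 c2, ?_⟩
  intro V G S K0 hD hP hC hT hK0S hK0 hm
  -- a maximum clique
  obtain ⟨K, hK, hKmax⟩ := Finset.exists_max_image
    (S.powerset.filter (fun K => K0 ⊆ K ∧ Clq G K)) Finset.card
    ⟨K0, by
      rw [Finset.mem_filter, Finset.mem_powerset]
      exact ⟨hK0S, Finset.Subset.refl _, hK0⟩⟩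
  rw [Finset.mem_filter, Finset.mem_powerset] at hK
  obtain ⟨hKS, hK0K, hKc⟩ := hK
  have hA : ∀ v ∈ S \ K, (nb G K v).card ≤ 1 := by
    intro v hv
    rw [Finset.mem_sdiff] at hv
    by_contra hcon
    obtain ⟨x, hx, y, hy, hxy⟩ := Finset.one_lt_card.1 (not_le.1 hcon)
    unfold nb at hx hy
    rw [Finset.mem_filter] at hx hy
    have hall : ∀ κ ∈ K, G.Adj v κ := by
      intro κ hκ
      by_cases e1 : κ = x
      · rw [e1]; exact hx.2
      by_cases e2 : κ = y
      · rw [e2]; exact hy.2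
      have hvκ : v ≠ κ := fun h => hv.2 (h ▸ hκ)
      exact hD x y v κ (hKc x hx.1 y hy.1 hxy) hx.2.symm hy.2.symm
        (hKc x hx.1 κ hκ (Ne.symm e1)) (hKc y hy.1 κ hκ (Ne.symm e2)) hvκ
    have hmem : insert v K ∈ S.powerset.filter (fun K => K0 ⊆ K ∧ Clq G K) := by
      rw [Finset.mem_filter, Finset.mem_powerset]
      refine ⟨Finset.insert_subset hv.1 hKS, hK0K.trans (Finset.subset_insert _ _), ?_⟩
      intro a ha b hb hab
      rcases Finset.mem_insert.1 ha with e | e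
      · rcases Finset.mem_insert.1 hb with e' | e'
        · exact absurd (e.trans e'.symm) hab
        · rw [e]; exact hall b e'
      · rcases Finset.mem_insert.1 hb with e' | e'
        · rw [e']; exact (hall a e).symm
        · exact hKc a e b e' hab
    have h3 := hKmax _ hmem
    rw [Finset.card_insert_of_notMem hv.2] at h3
    omega
  -- bad vertices
  set B := K.filter (fun κ => ∀ w ∈ S \ K, ¬G.Adj κ w) with hB
  have hBc : B.card ≤ 1 := by
    rw [Finset.card_le_one]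
    intro κ hκ κ' hκ'
    rw [hB, Finset.mem_filter] at hκ hκ'
    by_contra hne
    obtain ⟨w, hwS, hw1, hw2, hw⟩ := hT κ (hKS hκ.1) κ' (hKS hκ'.1) (hKc κ hκ.1 κ' hκ'.1 hne)
    by_cases hwK : w ∈ K
    · have a1 := hKc w hwK κ hκ.1 hw1
      have a2 := hKc w hwK κ' hκ'.1 hw2
      rcases hw with ⟨_, h⟩ | ⟨h, _⟩
      · exact h a2
      · exact h a1
    · have hwSK : w ∈ S \ K := Finset.mem_sdiff.2 ⟨hwS, hwK⟩
      rcases hw with ⟨h, _⟩ | ⟨_, h⟩
      · exact hκ.2 w hwSK h.symm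
      · exact hκ'.2 w hwSK h.symm
  set K' := K.filter (fun κ => ¬∀ w ∈ S \ K, ¬G.Adj κ w) with hK'
  have hcard : N ≤ K'.card := by
    have h3 : B.card + K'.card = K.card := by
      rw [hB, hK']
      exact Finset.card_filter_add_card_filter_not _
    have h4 := Finset.card_le_card hK0K
    omega
  have hex : ∀ κ, ∃ w, κ ∈ K' → w ∈ S \ K ∧ G.Adj κ w := by
    intro κ
    by_cases h : κ ∈ K'
    · have h3 := (Finset.mem_filter.1 h).2
      push Not at h3
      obtain ⟨w, hw, hw2⟩ := h3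
      exact ⟨w, fun _ => ⟨hw, hw2⟩⟩
    · exact ⟨κ, fun h' => absurd h' h⟩
  choose ρ hρ using hex
  have hK'K : ∀ κ ∈ K', κ ∈ K := fun κ h => (Finset.mem_filter.1 h).1
  have hinj : Set.InjOn ρ K' := by
    intro κ hκ κ' hκ' he
    have hκ : κ ∈ K' := hκ
    have hκ' : κ' ∈ K' := hκ'
    have h3 := hA (ρ κ) (hρ κ hκ).1
    rw [Finset.card_le_one] at h3
    apply h3
    · unfold nb
      rw [Finset.mem_filter]
      exact ⟨hK'K κ hκ, (hρ κ hκ).2.symm⟩
    · unfold nb
      rw [Finset.mem_filter]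
      refine ⟨hK'K κ' hκ', ?_⟩
      rw [he]
      exact (hρ κ' hκ').2.symm
  have hJcard : (K'.image ρ).card = K'.card := Finset.card_image_of_injOn hinj
  have hR := hN V G (K'.image ρ) (by rw [hJcard]; exact hcard)
  -- enumeration
  have henum : ∀ T ⊆ K'.image ρ, T.card = 8 → ∃ k r : Fin 8 → V,
      (∀ i, k i ∈ K ∧ r i ∈ S \ K ∧ G.Adj (k i) (r i)) ∧ Function.Injective k ∧
      Function.Injective r ∧ ∀ i, r i ∈ T := by
    intro T hT8 hcT
    let e := (T.equivFinOfCardEq hcT).symm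
    have hk : ∀ i : Fin 8, ∃ κ, κ ∈ K' ∧ ρ κ = (e i : V) := by
      intro i
      have h3 := hT8 (e i).2
      rw [Finset.mem_image] at h3
      exact h3
    choose k hk1 hk2 using hk
    have hr : Function.Injective (fun i : Fin 8 => (e i : V)) :=
      Subtype.val_injective.comp e.injective
    refine ⟨k, fun i => (e i : V), ?_, ?_, hr, fun i => (e i).2⟩
    · intro i
      refine ⟨hK'K _ (hk1 i), ?_, ?_⟩
      · show (e i : V) ∈ S \ K
        rw [← hk2 i]; exact (hρ _ (hk1 i)).1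
      · show G.Adj (k i) (e i : V)
        rw [← hk2 i]; exact (hρ _ (hk1 i)).2
    · intro i j hij
      apply hr
      show (e i : V) = (e j : V)
      rw [← hk2 i, ← hk2 j, hij]
  rcases hR with ⟨T, hTJ, hT8, hTc⟩ | ⟨T, hTJ, hT8, hTi⟩
  · obtain ⟨k, r, hkr, hk, hr, hrT⟩ := henum T hTJ hT8
    exact (h2 V G S K k r hD hP hC hKS hKc hA hkr hk
      (fun i j hij => hTc _ (hrT i) _ (hrT j) (fun h => hij (hr h)))).mono_k (le_max_right _ _)
  · obtain ⟨k, r, hkr, hk, hr, hrT⟩ := henum T hTJ hT8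
    exact (h1 V G S K k r hD hP hC hKS hKc hA hkr hk
      (fun i j => hTi _ (hrT i) _ (hrT j))).mono_k (le_max_left _ _)

end BcMain

end Pool.Agent.Helper856.Cw
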