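import Pool.Agent.Helper856.Pair.Defs

open Classical SimpleGraph

namespace Pool.Agent.Helper856.Cw

namespace P0Conn

variable {V : Type} {G : SimpleGraph V} {S T : Finset V} {k l : ℕ}

/-- TARGET -/
theorem p0_conn (hd : NoDia G) (hf : NoP1P5 G) (hc : Conn G S) {t : Fin 4 → Fin 3 → V}
    {s : Fin 4 → V} (h : Paws G S t s) : False := by
  obtain ⟨⟨hS, hT, -⟩, hs, htt, hst, hss⟩ := h
  -- membership in the paws
  let W : Fin 4 → V → Prop := fun i x => x = t i 0 ∨ x = t i 1 ∨ x = t i 2 ∨ x = s i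
  let Nb : V → Fin 4 → Prop := fun u i => ∃ w, W i w ∧ G.Adj u w
  have a01 : ∀ i, G.Adj (t i 0) (t i 1) := fun i => hT i 0 1 (by decide)
  have a02 : ∀ i, G.Adj (t i 0) (t i 2) := fun i => hT i 0 2 (by decide)
  have a12 : ∀ i, G.Adj (t i 1) (t i 2) := fun i => hT i 1 2 (by decide)
  have as0 : ∀ i, G.Adj (s i) (t i 0) := fun i => (hs i).2.1
  have hanti : ∀ i j, i ≠ j → ∀ x y, W i x → W j y → ¬G.Adj x y := by
    intro i j hij x y hx hy
    rcases hx with rfl | rfl | rfl | rfl <;> rcases hy with rfl | rfl | rfl | rfl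
    all_goals first
      | exact htt _ _ _ _ hij
      | exact hst _ _ _ hij
      | exact hss _ _
      | exact fun h => hst _ _ _ (Ne.symm hij) h.symm
  -- no vertex is complete to a paw
  have hnc : ∀ i u, ∃ z, W i z ∧ ¬G.Adj u z := by
    intro i u
    by_contra hcon
    push Not at hcon
    have h0 := hcon (t i 0) (Or.inl rfl)
    have h1 := hcon (t i 1) (Or.inr (Or.inl rfl))
    have h3 := hcon (s i) (Or.inr (Or.inr (Or.inr rfl)))
    have hne : s i ≠ t i 1 := by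
      intro he
      exact (hs i).2.2.2 (he ▸ a12 i)
    exact (hs i).2.2.1 (hd u (t i 0) (s i) (t i 1) h0 h3 (as0 i).symm h1 (a01 i) hne)
  have h1 : ∀ i u, Nb u i → ∃ x y, W i x ∧ W i y ∧ G.Adj u x ∧ G.Adj x y ∧ ¬G.Adj u y := by
    intro i u hu
    by_cases h0 : G.Adj u (t i 0)
    · obtain ⟨z, hz, hz2⟩ := hnc i u
      refine ⟨t i 0, z, Or.inl rfl, hz, h0, ?_, hz2⟩
      rcases hz with rfl | rfl | rfl | rfl
      · exact absurd h0 hz2
      · exact a01 i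
      · exact a02 i
      · exact (as0 i).symm
    · obtain ⟨w, hw, hw2⟩ := hu
      refine ⟨w, t i 0, hw, Or.inl rfl, hw2, ?_, h0⟩
      rcases hw with rfl | rfl | rfl | rfl
      · exact absurd hw2 h0
      · exact (a01 i).symm
      · exact (a02 i).symm
      · exact as0 i
  have hWN : ∀ i w, W i w → Nb w i := by
    intro i w hw
    rcases hw with rfl | rfl | rfl | rfl
    · exact ⟨t i 1, Or.inr (Or.inl rfl), a01 i⟩
    · exact ⟨t i 0, Or.inl rfl, (a01 i).symm⟩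
    · exact ⟨t i 0, Or.inl rfl, (a02 i).symm⟩
    · exact ⟨t i 0, Or.inl rfl, as0 i⟩
  have h2 : ∀ u i j, i ≠ j → Nb u i → Nb u j → False := by
    intro u i j hij hi hj
    obtain ⟨x, y, hx, hy, hux, hxy, huy⟩ := h1 i u hi
    obtain ⟨x', y', hx', hy', hux', hxy', huy'⟩ := h1 j u hj
    obtain ⟨k, hki, hkj⟩ : ∃ k : Fin 4, k ≠ i ∧ k ≠ j := by
      clear hi hj hx hy hx' hy' hij
      fin_cases i <;> fin_cases j <;> first
        | exact ⟨0, by decide, by decide⟩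
        | exact ⟨1, by decide, by decide⟩
        | exact ⟨2, by decide, by decide⟩
        | exact ⟨3, by decide, by decide⟩
    obtain ⟨z, hz, hz2⟩ := hnc k u
    exact hf z y x u x' y' hxy.symm hux.symm hux' hxy' (fun h => huy h.symm)
      (hanti i j hij _ _ hy hx') (hanti i j hij _ _ hy hy') (hanti i j hij _ _ hx hx')
      (hanti i j hij _ _ hx hy') huy' (hanti k i hki _ _ hz hy) (hanti k i hki _ _ hz hx)
      (fun h => hz2 h.symm) (hanti k j hkj _ _ hz hx') (hanti k j hkj _ _ hz hy')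
  -- the set
  obtain ⟨a, ha, b, hb, hab⟩ := hc (S.filter (fun v => ∃ u, Nb u 0 ∧ G.Adj u v))
    (Finset.filter_subset _ _)
    ⟨t 0 0, Finset.mem_filter.2 ⟨hS 0 0, t 0 1, hWN 0 _ (Or.inr (Or.inl rfl)), (a01 0).symm⟩⟩
    (by
      intro he
      have hm : t 1 0 ∈ S.filter (fun v => ∃ u, Nb u 0 ∧ G.Adj u v) := by
        rw [he]; exact hS 1 0
      obtain ⟨-, u, hu, hu2⟩ := Finset.mem_filter.1 hm
      exact h2 u 0 1 (by decide) hu ⟨t 1 0, Or.inl rfl, hu2⟩)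
  obtain ⟨-, u, hu, hua⟩ := Finset.mem_filter.1 ha
  obtain ⟨hbS, hb2⟩ := Finset.mem_sdiff.1 hb
  have hbN : ∀ u, Nb u 0 → ¬G.Adj u b := fun u hu hub =>
    hb2 (Finset.mem_filter.2 ⟨hbS, u, hu, hub⟩)
  have ha0 : ¬Nb a 0 := fun h => hbN a h hab
  have hb0 : ¬Nb b 0 := by
    rintro ⟨w, hw, hbw⟩
    exact hbN w (hWN 0 w hw) hbw.symm
  obtain ⟨x, y, hx, hy, hux, hxy, huy⟩ := h1 0 u hu
  obtain ⟨k, hk0, hka, hkb⟩ : ∃ k : Fin 4, k ≠ 0 ∧ ¬Nb a k ∧ ¬Nb b k := by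
    by_contra hcon
    push Not at hcon
    have c1 := hcon 1 (by decide)
    have c2 := hcon 2 (by decide)
    have c3 := hcon 3 (by decide)
    by_cases q1 : Nb a 1
    · have n2 : ¬Nb a 2 := fun h => h2 a 1 2 (by decide) q1 h
      have n3 : ¬Nb a 3 := fun h => h2 a 1 3 (by decide) q1 h
      exact h2 b 2 3 (by decide) (c2 n2) (c3 n3)
    · have m1 := c1 q1
      by_cases q2 : Nb a 2
      · have n3 : ¬Nb a 3 := fun h => h2 a 2 3 (by decide) q2 h
        exact h2 b 1 3 (by decide) m1 (c3 n3)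
      · exact h2 b 1 2 (by decide) m1 (c2 q2)
  have hz : W k (t k 0) := Or.inl rfl
  exact hf (t k 0) y x u a b hxy.symm hux.symm hua hab (fun h => huy h.symm)
    (fun h => ha0 ⟨y, hy, h.symm⟩) (fun h => hb0 ⟨y, hy, h.symm⟩) (fun h => ha0 ⟨x, hx, h.symm⟩)
    (fun h => hb0 ⟨x, hx, h.symm⟩) (hbN u hu)
    (hanti k 0 hk0 _ _ hz hy) (hanti k 0 hk0 _ _ hz hx)
    (fun h => h2 u 0 k (Ne.symm hk0) hu ⟨_, hz, h.symm⟩)
    (fun h => hka ⟨_, hz, h.symm⟩) (fun h => hkb ⟨_, hz, h.symm⟩)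

end P0Conn

end Pool.Agent.Helper856.Cw
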