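import Pool.Agent.Helper856.Pair.Defs

open Classical SimpleGraph

namespace Pool.Agent.Helper856.Cw

namespace P0Facts

variable {V : Type} {G : SimpleGraph V} {S T : Finset V} {k l : ℕ}

theorem p0_f3 : ∀ a c : Fin 3, ∃ d, d ≠ a ∧ d ≠ c := by decide

theorem p0_notin {n : ℕ} {t : Fin n → Fin 3 → V}
    (ht : PTri G S t) {v : V} {i : Fin n} (hv : OneT G t v i) (c : Fin 3) : v ≠ t i c := by
  intro h
  obtain ⟨a, h1, h2⟩ := hv
  obtain ⟨d, hd1, hd2⟩ := p0_f3 a c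
  apply h2 d hd1
  rw [h]
  exact ht.2.1 i c d hd2.symm

theorem p0_ne {n : ℕ} {t : Fin n → Fin 3 → V} {v : V} {i l : Fin n} (hv : OneT G t v i)
    (a1 : ZerT G t v l) : l ≠ i := by
  rintro rfl
  obtain ⟨a, h1, h2⟩ := hv
  exact a1 a h1

/-- TARGET -/
theorem p0_tri {n : ℕ} {t : Fin n → Fin 3 → V} (hd : NoDia G)
    (ht : PTri G S t) (v : V) (i : Fin n) (hv : ∀ a, v ≠ t i a) :
    OneT G t v i ∨ CplT G t v i ∨ ZerT G t v i := by
  by_cases h : ∃ a, G.Adj v (t i a)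
  · obtain ⟨a, ha⟩ := h
    by_cases h2 : ∃ b, b ≠ a ∧ G.Adj v (t i b)
    · obtain ⟨b, hba, hb⟩ := h2
      right; left
      intro c
      by_cases hca : c = a
      · rw [hca]; exact ha
      by_cases hcb : c = b
      · rw [hcb]; exact hb
      exact hd (t i a) (t i b) v (t i c) (ht.2.1 i a b hba.symm) ha.symm hb.symm
        (ht.2.1 i a c (fun h => hca h.symm)) (ht.2.1 i b c (fun h => hcb h.symm)) (hv c)
    · left
      push Not at h2
      exact ⟨a, ha, h2⟩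
  · right; right
    push Not at h
    exact h

/-- TARGET -/
theorem p0_o {n : ℕ} {t : Fin n → Fin 3 → V} (hd : NoDia G) (hf : NoP1P5 G) (ht : PTri G S t)
    (h0 : ∀ i j a b, i ≠ j → ¬G.Adj (t i a) (t j b)) {v : V} {i j k : Fin n} (hi : OneT G t v i)
    (hj : OneT G t v j) (hij : i ≠ j) (hk : k ≠ i) (hk' : k ≠ j) : CplT G t v k := by
  obtain ⟨a, ha1, ha2⟩ := hi
  obtain ⟨b, hb1, hb2⟩ := hj
  obtain ⟨a', ha'⟩ := exists_ne a
  obtain ⟨b', hb'⟩ := exists_ne b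
  by_contra hc
  unfold CplT at hc
  push Not at hc
  obtain ⟨c, hc⟩ := hc
  exact hf (t k c) (t i a') (t i a) v (t j b) (t j b') (ht.2.1 i a' a ha') ha1.symm hb1
    (ht.2.1 j b b' hb'.symm) (fun h => ha2 a' ha' h.symm) (h0 i j _ _ hij) (h0 i j _ _ hij)
    (h0 i j _ _ hij) (h0 i j _ _ hij) (hb2 b' hb') (h0 k i _ _ hk) (h0 k i _ _ hk)
    (fun h => hc h.symm) (h0 k j _ _ hk') (h0 k j _ _ hk')

/-- TARGET -/
theorem p0_c {n : ℕ} {t : Fin n → Fin 3 → V} (hd : NoDia G) (ht : PTri G S t)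
    (h0 : ∀ i j a b, i ≠ j → ¬G.Adj (t i a) (t j b)) {v w : V} {i j : Fin n} (hvw : v ≠ w) (hij : i ≠ j)
    (h1 : CplT G t v i) (h2 : CplT G t w i) (h3 : CplT G t v j) (h4 : CplT G t w j) : False := by
  have hvw' : G.Adj v w := hd (t i 0) (t i 1) v w (ht.2.1 i 0 1 (by decide)) (h1 0).symm
    (h1 1).symm (h2 0).symm (h2 1).symm hvw
  have h5 : G.Adj (t i 0) (t j 0) := hd v w (t i 0) (t j 0) hvw' (h1 0) (h2 0) (h3 0) (h4 0)
    (fun h => hij (ht.2.2 i j 0 0 h))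
  exact h0 i j 0 0 hij h5

/-- TARGET -/
theorem p0_r {n : ℕ} {t : Fin n → Fin 3 → V} (hd : NoDia G) (hf : NoP1P5 G) (ht : PTri G S t)
    (h0 : ∀ i j a b, i ≠ j → ¬G.Adj (t i a) (t j b)) {v w : V} {i j k : Fin n} (hij : i ≠ j)
    (hki : k ≠ i) (hkj : k ≠ j) (h1 : OneT G t v i) (h2 : OneT G t w j) (h3 : CplT G t v j)
    (h4 : ZerT G t w i) (h5 : ¬CplT G t v k) (h6 : ¬CplT G t w k) (h7 : ∀ a, v ≠ t k a)
    (h8 : ∀ a, w ≠ t k a) (h9 : ¬OneT G t v k) (h10 : ¬OneT G t w k) : False := by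
  have hwj := p0_notin ht h2
  have hvk : ZerT G t v k := by
    rcases p0_tri hd ht v k h7 with h | h | h
    · exact absurd h h9
    · exact absurd h h5
    · exact h
  have hwk : ZerT G t w k := by
    rcases p0_tri hd ht w k h8 with h | h | h
    · exact absurd h h10
    · exact absurd h h6
    · exact h
  obtain ⟨a, ha1, ha2⟩ := h1
  obtain ⟨b, hb1, hb2⟩ := h2
  obtain ⟨a', ha'⟩ := exists_ne a
  obtain ⟨b', hb'⟩ := exists_ne b
  have hvw : ¬ G.Adj v w := by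
    intro h
    exact hb2 b' hb' (hd v (t j b) w (t j b') (h3 b) h hb1.symm (h3 b') (ht.2.1 j b b' hb'.symm)
      (hwj b'))
  exact hf (t k 0) w (t j b) v (t i a) (t i a') hb1 (h3 b).symm ha1 (ht.2.1 i a a' ha'.symm)
    (fun h => hvw h.symm) (h4 a) (h4 a') (h0 j i _ _ hij.symm) (h0 j i _ _ hij.symm) (ha2 a' ha')
    (fun h => hwk 0 h.symm) (h0 k j _ _ hkj) (fun h => hvk 0 h.symm) (h0 k i _ _ hki)
    (h0 k i _ _ hki)

/-- TARGET -/
theorem p0_m {n : ℕ} {t : Fin n → Fin 3 → V} (hd : NoDia G) (hf : NoP1P5 G) (ht : PTri G S t)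
    (h0 : ∀ i j a b, i ≠ j → ¬G.Adj (t i a) (t j b)) {v w z : V} {i j k l : Fin n} (hij : i ≠ j)
    (hik : i ≠ k) (hjk : j ≠ k) (hv : OneT G t v i) (hw : OneT G t w j) (hz : OneT G t z k)
    (c1 : CplT G t v j) (c2 : CplT G t v k) (c3 : CplT G t w i) (c4 : CplT G t z i)
    (z1 : ZerT G t w k) (z2 : ZerT G t z j) (a1 : ZerT G t v l) (a2 : ZerT G t w l)
    (a3 : ZerT G t z l) : False := by
  have hlj := p0_ne hw a2
  have hlk := p0_ne hz a3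
  have hvi := p0_notin ht hv
  have hwz : w ≠ z := by
    rintro rfl
    exact p0_ne hw z2 rfl
  obtain ⟨a, ha1, ha2⟩ := hv
  obtain ⟨b, hb1, hb2⟩ := hw
  obtain ⟨c, hc1, hc2⟩ := hz
  obtain ⟨a', ha'⟩ := exists_ne a
  obtain ⟨b', hb'⟩ := exists_ne b
  have hvw : ¬ G.Adj v w := by
    intro h
    exact ha2 a' ha' (hd w (t i a) v (t i a') (c3 a) h.symm ha1.symm (c3 a')
      (ht.2.1 i a a' ha'.symm) (hvi a'))
  have hvz : ¬ G.Adj v z := by
    intro h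
    exact ha2 a' ha' (hd z (t i a) v (t i a') (c4 a) h.symm ha1.symm (c4 a')
      (ht.2.1 i a a' ha'.symm) (hvi a'))
  have hwz' : G.Adj w z := hd (t i 0) (t i 1) w z (ht.2.1 i 0 1 (by decide)) (c3 0).symm
    (c3 1).symm (c4 0).symm (c4 1).symm hwz
  exact hf (t l 0) (t j b') v (t k c) z w (c1 b').symm (c2 c) hc1.symm hwz'.symm
    (h0 j k _ _ hjk) (fun h => z2 b' h.symm) (fun h => hb2 b' hb' h.symm) hvz hvw
    (fun h => z1 c h.symm) (h0 l j _ _ hlj) (fun h => a1 0 h.symm) (h0 l k _ _ hlk)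
    (fun h => a3 0 h.symm) (fun h => a2 0 h.symm)

/-- TARGET -/
theorem p0_s {n : ℕ} {t : Fin n → Fin 3 → V} (hd : NoDia G) (hf : NoP1P5 G) (ht : PTri G S t)
    (h0 : ∀ i j a b, i ≠ j → ¬G.Adj (t i a) (t j b)) {v w : V} {i j l : Fin n} (hij : i ≠ j)
    (hv : OneT G t v i) (hw : OneT G t w j) (z1 : ZerT G t v j) (z2 : ZerT G t w i)
    (a1 : ZerT G t v l) (a2 : ZerT G t w l) : ¬G.Adj v w := by
  intro hvw
  have hli := p0_ne hv a1
  have hlj := p0_ne hw a2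
  obtain ⟨a, ha1, ha2⟩ := hv
  obtain ⟨b, hb1, hb2⟩ := hw
  obtain ⟨a', ha'⟩ := exists_ne a
  exact hf (t l 0) (t i a') (t i a) v w (t j b) (ht.2.1 i a' a ha') ha1.symm hvw hb1
    (fun h => ha2 a' ha' h.symm) (fun h => z2 a' h.symm) (h0 i j _ _ hij) (fun h => z2 a h.symm)
    (h0 i j _ _ hij) (z1 b) (h0 l i _ _ hli) (h0 l i _ _ hli) (fun h => a1 0 h.symm)
    (fun h => a2 0 h.symm) (h0 l j _ _ hlj)

end P0Facts

end Pool.Agent.Helper856.Cw
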