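import Pool.Agent.Helper856.Pair.Defs
import Pool.Agent.Helper856.Pair.P0Facts

open Classical SimpleGraph

namespace Pool.Agent.Helper856.Cw

open P0Facts (p0_tri p0_o p0_c p0_r p0_m p0_s)

namespace P0Paws

variable {V : Type} {G : SimpleGraph V} {S T : Finset V} {k l : ℕ}

theorem pw_one_not_cpl {n : ℕ} {t : Fin n → Fin 3 → V} {v : V} {i : Fin n}
    (h : OneT G t v i) (h' : CplT G t v i) : False := by
  obtain ⟨a, _, ha⟩ := h
  have hab : ∃ b : Fin 3, b ≠ a := by
    fin_cases a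
    · exact ⟨1, by decide⟩
    · exact ⟨0, by decide⟩
    · exact ⟨0, by decide⟩
  obtain ⟨b, hb⟩ := hab
  exact ha b hb (h' b)

/-- greedy choice -/
theorem pw_greedy (R : Fin 40 → Fin 40 → Prop) (I : Finset (Fin 40))
    (hdeg : ∀ i ∈ I, ∀ j ∈ I, ∀ k ∈ I, R i j → R i k → j = k) (A : Finset (Fin 40)) (hA : A ⊆ I)
    (hA0 : A.Nonempty) :
    ∃ a ∈ A, ∃ A' ⊆ A, A.card ≤ A'.card + 2 ∧ ∀ b ∈ A', b ≠ a ∧ ¬ R a b := by
  obtain ⟨a, ha⟩ := hA0
  by_cases h : ∃ c ∈ A, R a c
  · obtain ⟨c, hc, hac⟩ := h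
    refine ⟨a, ha, (A.erase a).erase c, (Finset.erase_subset _ _).trans (Finset.erase_subset _ _),
      ?_, fun b hb => ?_⟩
    · have h1 := Finset.pred_card_le_card_erase (s := A) (a := a)
      have h2 := Finset.pred_card_le_card_erase (s := A.erase a) (a := c)
      omega
    · rw [Finset.mem_erase, Finset.mem_erase] at hb
      exact ⟨hb.2.1, fun hR => hb.1 (hdeg a (hA ha) b (hA hb.2.2) c (hA hc) hR hac)⟩
  · push Not at h
    refine ⟨a, ha, A.erase a, Finset.erase_subset _ _, ?_, fun b hb => ?_⟩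
    · have h1 := Finset.pred_card_le_card_erase (s := A) (a := a)
      omega
    · rw [Finset.mem_erase] at hb
      exact ⟨hb.1, h b hb.2⟩

theorem pw_four (R : Fin 40 → Fin 40 → Prop) (I : Finset (Fin 40))
    (hsym : ∀ i ∈ I, ∀ j ∈ I, R i j → R j i)
    (hdeg : ∀ i ∈ I, ∀ j ∈ I, ∀ k ∈ I, R i j → R i k → j = k) (hI : 7 ≤ I.card) :
    ∃ f : Fin 4 → Fin 40, (∀ i, f i ∈ I) ∧ ∀ i j, i ≠ j → f i ≠ f j ∧ ¬ R (f i) (f j) := by
  obtain ⟨a0, h0, A1, s1, c1, r1⟩ := pw_greedy R I hdeg I subset_rfl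
    (Finset.card_pos.1 (by omega))
  obtain ⟨a1, h1, A2, s2, c2, r2⟩ := pw_greedy R I hdeg A1 s1
    (Finset.card_pos.1 (by omega))
  obtain ⟨a2, h2, A3, s3, c3, r3⟩ := pw_greedy R I hdeg A2 (s2.trans s1)
    (Finset.card_pos.1 (by omega))
  obtain ⟨a3, h3⟩ : A3.Nonempty := Finset.card_pos.1 (by omega)
  have m1 : a1 ∈ I := s1 h1
  have m2 : a2 ∈ I := s1 (s2 h2)
  have m3 : a3 ∈ I := s1 (s2 (s3 h3))
  have p01 := r1 a1 h1
  have p02 := r1 a2 (s2 h2)
  have p03 := r1 a3 (s2 (s3 h3))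
  have p12 := r2 a2 h2
  have p13 := r2 a3 (s3 h3)
  have p23 := r3 a3 h3
  refine ⟨![a0, a1, a2, a3], fun i => ?_, fun i j hij => ?_⟩
  · fin_cases i
    · exact h0
    · exact m1
    · exact m2
    · exact m3
  · have key : ∀ x ∈ I, ∀ y ∈ I, (y ≠ x ∧ ¬ R x y) → (x ≠ y ∧ ¬ R x y) ∧ (y ≠ x ∧ ¬ R y x) :=
      fun x hx y hy h => ⟨⟨h.1.symm, h.2⟩, ⟨h.1, fun h' => h.2 (hsym y hy x hx h')⟩⟩
    have k01 := key a0 h0 a1 m1 p01
    have k02 := key a0 h0 a2 m2 p02
    have k03 := key a0 h0 a3 m3 p03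
    have k12 := key a1 m1 a2 m2 p12
    have k13 := key a1 m1 a3 m3 p13
    have k23 := key a2 m2 a3 m3 p23
    fin_cases i <;> fin_cases j
    · exact absurd rfl hij
    · exact k01.1
    · exact k02.1
    · exact k03.1
    · exact k01.2
    · exact absurd rfl hij
    · exact k12.1
    · exact k13.1
    · exact k02.2
    · exact k12.2
    · exact absurd rfl hij
    · exact k23.1
    · exact k03.2
    · exact k13.2
    · exact k23.2
    · exact absurd rfl hij

/-- TARGET -/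
theorem p0_paws (hd : NoDia G) (hf : NoP1P5 G) (htw : TwinFree G S) {t : Fin 40 → Fin 3 → V}
    (ht : PTri G S t) (h0 : ∀ i j a b, i ≠ j → ¬G.Adj (t i a) (t j b)) :
    ∃ (t' : Fin 4 → Fin 3 → V) (s : Fin 4 → V), Paws G S t' s := by
  -- (1)
  have h1 : ∀ i, ∃ v ∈ S, OneT G t v i ∧ ∀ a, v ≠ t i a := by
    intro i
    have e01 : G.Adj (t i 0) (t i 1) := ht.2.1 i 0 1 (by decide)
    have e20 : G.Adj (t i 2) (t i 0) := ht.2.1 i 2 0 (by decide)
    have e21 : G.Adj (t i 2) (t i 1) := ht.2.1 i 2 1 (by decide)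
    obtain ⟨w, hwS, hw0, hw1, hw⟩ := htw (t i 0) (ht.1 i 0) (t i 1) (ht.1 i 1) e01
    have hw2 : w ≠ t i 2 := by
      rintro rfl
      rcases hw with h | h
      · exact h.2 e21
      · exact h.1 e20
    have hne : ∀ a, w ≠ t i a := by
      intro a
      fin_cases a
      · exact hw0
      · exact hw1
      · exact hw2
    refine ⟨w, hwS, ?_, hne⟩
    rcases p0_tri hd ht w i hne with h | h | h
    · exact h
    · rcases hw with h' | h'
      · exact absurd (h 1) h'.2
      · exact absurd (h 0) h'.1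
    · rcases hw with h' | h'
      · exact absurd h'.1 (h 0)
      · exact absurd h'.2 (h 1)
  choose v hvS hvO hvne using h1
  have hvne' : ∀ i l a, v i ≠ t l a := by
    intro i l a h
    by_cases hil : l = i
    · subst hil
      exact hvne l a h
    · obtain ⟨b, hb, _⟩ := hvO i
      rw [h] at hb
      exact h0 l i a b hil hb
  have htri : ∀ i l, OneT G t (v i) l ∨ CplT G t (v i) l ∨ ZerT G t (v i) l :=
    fun i l => p0_tri hd ht (v i) l (hvne' i l)
  -- (2)
  let bad : Finset (Fin 40) := Finset.univ.filter fun i => ∃ j, j ≠ i ∧ OneT G t (v i) j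
  have hbad1 : ∀ i ∈ bad, ∃ j, j ≠ i ∧ ∀ k, k ≠ i → k ≠ j → CplT G t (v i) k := by
    intro i hi
    obtain ⟨j, hj, hO⟩ := (Finset.mem_filter.1 hi).2
    exact ⟨j, hj, fun k hk hk' => p0_o hd hf ht h0 (hvO i) hO hj.symm hk hk'⟩
  have hbad2 : ∀ i ∈ bad, ∀ j ∈ bad, v i = v j := by
    intro i hi j hj
    by_contra hne
    obtain ⟨i', hi', hci⟩ := hbad1 i hi
    obtain ⟨j', hj', hcj⟩ := hbad1 j hj
    -- two indices outside of {i,i',j,j'}
    have hcard : (({i, i', j, j'} : Finset (Fin 40))ᶜ).card ≥ 36 := by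
      rw [Finset.card_compl, Fintype.card_fin]
      have : ({i, i', j, j'} : Finset (Fin 40)).card ≤ 4 := Finset.card_le_four
      omega
    obtain ⟨x, hx, y, hy, hxy⟩ := Finset.one_lt_card.1 (by omega :
      1 < (({i, i', j, j'} : Finset (Fin 40))ᶜ).card)
    simp only [Finset.mem_compl, Finset.mem_insert, Finset.mem_singleton, not_or] at hx hy
    exact p0_c hd ht h0 hne hxy (hci x hx.1 hx.2.1) (hcj x hx.2.2.1 hx.2.2.2)
      (hci y hy.1 hy.2.1) (hcj y hy.2.2.1 hy.2.2.2)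
  have hbad3 : bad.card ≤ 2 := by
    by_contra hcon
    push Not at hcon
    obtain ⟨a, b, c, ha, hb, hc, hab, hac, hbc⟩ := Finset.two_lt_card_iff.1 hcon
    have e1 : OneT G t (v a) b := by rw [hbad2 a ha b hb]; exact hvO b
    have e2 : OneT G t (v a) c := by rw [hbad2 a ha c hc]; exact hvO c
    exact pw_one_not_cpl e2 (p0_o hd hf ht h0 (hvO a) e1 hab hac.symm hbc.symm)
  -- I1
  let I1 : Finset (Fin 40) := badᶜ
  have hI1 : ∀ i ∈ I1, ∀ j, OneT G t (v i) j → j = i := by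
    intro i hi j hj
    by_contra hne
    exact (Finset.mem_compl.1 hi) (Finset.mem_filter.2 ⟨Finset.mem_univ _, j, hne, hj⟩)
  have hI1c : 38 ≤ I1.card := by
    rw [Finset.card_compl, Fintype.card_fin]
    omega
  have hI1inj : ∀ i ∈ I1, ∀ j ∈ I1, i ≠ j → v i ≠ v j := by
    intro i hi j hj hij h
    apply hij
    have : OneT G t (v j) i := by rw [← h]; exact hvO i
    exact hI1 j hj i this
  -- (3)
  let CF : Fin 40 → Finset (Fin 40) := fun i => Finset.univ.filter fun j => CplT G t (v i) j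
  have hCF : ∀ i j, j ∈ CF i ↔ CplT G t (v i) j := fun i j => by
    simp [CF]
  let big : Finset (Fin 40) := I1.filter fun i => 13 ≤ (CF i).card
  have hbig : big.card ≤ 10 := by
    have hdis : ∀ i ∈ big, ∀ j ∈ big, i ≠ j → Disjoint (CF i).offDiag (CF j).offDiag := by
      intro i hi j hj hij
      rw [Finset.disjoint_left]
      rintro ⟨x, y⟩ hx hy
      rw [Finset.mem_offDiag] at hx hy
      exact p0_c hd ht h0 (hI1inj i (Finset.mem_filter.1 hi).1 j (Finset.mem_filter.1 hj).1 hij)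
        hx.2.2 ((hCF _ _).1 hx.1) ((hCF _ _).1 hy.1) ((hCF _ _).1 hx.2.1) ((hCF _ _).1 hy.2.1)
    have hsum := Finset.card_biUnion hdis
    have hle : (big.biUnion fun i => (CF i).offDiag).card ≤
        (Finset.univ : Finset (Fin 40)).offDiag.card := by
      refine Finset.card_le_card fun p hp => ?_
      obtain ⟨i, _, hi⟩ := Finset.mem_biUnion.1 hp
      rw [Finset.mem_offDiag] at hi ⊢
      exact ⟨Finset.mem_univ _, Finset.mem_univ _, hi.2.2⟩
    have hge : big.card * 156 ≤ ∑ i ∈ big, (CF i).offDiag.card := by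
      rw [← smul_eq_mul]
      refine Finset.card_nsmul_le_sum _ _ _ fun i hi => ?_
      have h13 := (Finset.mem_filter.1 hi).2
      rw [Finset.offDiag_card]
      have : (CF i).card * (CF i).card ≥ 13 * (CF i).card := Nat.mul_le_mul_right _ h13
      omega
    rw [Finset.offDiag_card, Finset.card_univ, Fintype.card_fin] at hle
    omega
  let I2 : Finset (Fin 40) := I1.filter fun i => (CF i).card ≤ 12
  have hI2c : 28 ≤ I2.card := by
    have : I1.card ≤ I2.card + big.card := by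
      have hun : I1 ⊆ I2 ∪ big := by
        intro i hi
        rw [Finset.mem_union]
        by_cases h : (CF i).card ≤ 12
        · exact Or.inl (Finset.mem_filter.2 ⟨hi, h⟩)
        · exact Or.inr (Finset.mem_filter.2 ⟨hi, by omega⟩)
      exact (Finset.card_le_card hun).trans (Finset.card_union_le _ _)
    omega
  have hI21 : ∀ i ∈ I2, i ∈ I1 := fun i hi => (Finset.mem_filter.1 hi).1
  -- (4)
  have h4 : ∀ i ∈ I2, ∀ l, l ≠ i → ¬ CplT G t (v i) l → ZerT G t (v i) l := by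
    intro i hi l hl hc
    rcases htri i l with h | h | h
    · exact absurd (hI1 i (hI21 i hi) l h) hl
    · exact absurd h hc
    · exact h
  have h4' : ∀ i ∈ I2, ∀ j ∈ I2, ∀ k ∈ I2, ∃ l, l ≠ i ∧ l ≠ j ∧ l ≠ k ∧ ¬ CplT G t (v i) l ∧
      ¬ CplT G t (v j) l ∧ ¬ CplT G t (v k) l := by
    intro i hi j hj k hk
    by_contra hcon
    push Not at hcon
    have hun : (Finset.univ : Finset (Fin 40)) ⊆ (CF i ∪ CF j ∪ CF k) ∪ {i, j, k} := by
      intro l _
      by_contra hl
      simp only [Finset.mem_union, Finset.mem_insert, Finset.mem_singleton, not_or, hCF] at hl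
      exact hl.1.2 (hcon l hl.2.1 hl.2.2.1 hl.2.2.2 hl.1.1.1 hl.1.1.2)
    have hc := Finset.card_le_card hun
    rw [Finset.card_univ, Fintype.card_fin] at hc
    have c1 := Finset.card_union_le (CF i ∪ CF j ∪ CF k) {i, j, k}
    have c2 := Finset.card_union_le (CF i ∪ CF j) (CF k)
    have c3 := Finset.card_union_le (CF i) (CF j)
    have c4 : ({i, j, k} : Finset (Fin 40)).card ≤ 3 := Finset.card_le_three
    have c5 := (Finset.mem_filter.1 hi).2
    have c6 := (Finset.mem_filter.1 hj).2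
    have c7 := (Finset.mem_filter.1 hk).2
    omega
  -- (5)
  have h5 : ∀ i ∈ I2, ∀ j ∈ I2, CplT G t (v i) j → CplT G t (v j) i := by
    intro i hi j hj hc
    by_contra hcon
    have hij : i ≠ j := by
      rintro rfl
      exact pw_one_not_cpl (hvO i) hc
    obtain ⟨l, l1, l2, _, l4, l5, _⟩ := h4' i hi j hj j hj
    exact p0_r hd hf ht h0 hij l1 l2 (hvO i) (hvO j) hc (h4 j hj i hij hcon) l4 l5
      (hvne' i l) (hvne' j l) (fun h => l1 (hI1 i (hI21 i hi) l h))
      (fun h => l2 (hI1 j (hI21 j hj) l h))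
  -- (6)
  have h6 : ∀ i ∈ I2, ∀ j ∈ I2, ∀ k ∈ I2, CplT G t (v i) j → CplT G t (v i) k → j = k := by
    intro i hi j hj k hk hij' hik'
    by_contra hjk
    have hij : i ≠ j := by
      rintro rfl
      exact pw_one_not_cpl (hvO i) hij'
    have hik : i ≠ k := by
      rintro rfl
      exact pw_one_not_cpl (hvO i) hik'
    have hji := h5 i hi j hj hij'
    have hki := h5 i hi k hk hik'
    have hnjk : ¬ CplT G t (v j) k := by
      intro h
      have hkj := h5 j hj k hk h
      -- v i ~ v k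
      have hvik : v i ≠ v k := hI1inj i (hI21 i hi) k (hI21 k hk) hik
      have e1 : G.Adj (v i) (v k) :=
        hd (t j 0) (t j 1) (v i) (v k) (ht.2.1 j 0 1 (by decide)) (hij' 0).symm (hij' 1).symm
          (hkj 0).symm (hkj 1).symm hvik
      obtain ⟨a, ha, ha'⟩ := hvO i
      have hab : ∃ b : Fin 3, b ≠ a := by
        fin_cases a
        · exact ⟨1, by decide⟩
        · exact ⟨0, by decide⟩
        · exact ⟨0, by decide⟩
      obtain ⟨b, hb⟩ := hab
      exact ha' b hb (hd (v k) (t i a) (v i) (t i b) (hki a) e1.symm ha.symm (hki b)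
        (ht.2.1 i a b hb.symm) (hvne i b))
    have hnkj : ¬ CplT G t (v k) j := fun h => hnjk (h5 k hk j hj h)
    obtain ⟨l, l1, l2, l3, l4, l5, l6⟩ := h4' i hi j hj k hk
    exact p0_m hd hf ht h0 hij hik hjk (hvO i) (hvO j) (hvO k) hij' hik' hji hki
      (h4 j hj k (Ne.symm hjk) hnjk) (h4 k hk j hjk hnkj) (h4 i hi l l1 l4) (h4 j hj l l2 l5)
      (h4 k hk l l3 l6)
  -- (7)
  obtain ⟨f, hfI, hfR⟩ := pw_four (fun i j => CplT G t (v i) j) I2 h5 h6 (by omega)
  have hz : ∀ i j, i ≠ j → ZerT G t (v (f i)) (f j) := fun i j hij =>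
    h4 (f i) (hfI i) (f j) (hfR i j hij).1.symm (hfR i j hij).2
  have hO := fun i => hvO (f i)
  choose a ha ha' using hO
  refine ⟨fun i b => t (f i) (Equiv.swap 0 (a i) b), fun i => v (f i), ⟨?_, ?_, ?_⟩, ?_, ?_, ?_, ?_⟩
  · exact fun i b => ht.1 _ _
  · intro i b c hbc
    exact ht.2.1 (f i) _ _ (fun h => hbc ((Equiv.swap 0 (a i)).injective h))
  · intro i j b c h
    have h7 := ht.2.2 (f i) (f j) _ _ h
    by_contra hij
    exact (hfR i j hij).1 h7
  · intro i
    refine ⟨hvS _, ?_, ?_, ?_⟩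
    · show G.Adj (v (f i)) (t (f i) (Equiv.swap 0 (a i) 0))
      rw [Equiv.swap_apply_left]
      exact ha i
    · refine ha' i _ fun h => ?_
      have := (Equiv.swap 0 (a i)).injective (h.trans (Equiv.swap_apply_left 0 (a i)).symm)
      exact absurd this (by decide)
    · refine ha' i _ fun h => ?_
      have := (Equiv.swap 0 (a i)).injective (h.trans (Equiv.swap_apply_left 0 (a i)).symm)
      exact absurd this (by decide)
  · intro i j b c hij
    exact h0 _ _ _ _ (hfR i j hij).1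
  · intro i j b hij
    exact hz i j hij _
  · intro i j
    by_cases hij : i = j
    · subst hij
      exact G.irrefl
    · obtain ⟨l, l1, l2, _, l4, l5, _⟩ := h4' (f i) (hfI i) (f j) (hfI j) (f j) (hfI j)
      exact p0_s hd hf ht h0 (hfR i j hij).1 (hvO _) (hvO _) (hz i j hij)
        (hz j i (Ne.symm hij)) (h4 _ (hfI i) l l1 l4) (h4 _ (hfI j) l l2 l5)

end P0Paws

end Pool.Agent.Helper856.Cw
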