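import Pool.Agent.Helper856.Pair.Defs

open Classical SimpleGraph

namespace Pool.Agent.Helper856.Cw

namespace CyRel2

variable {V : Type} {G : SimpleGraph V} {S T : Finset V} {k l : ℕ}

/-- adjacency of two base vertices -/
def cyBB (p q : ℕ) : Bool := Nat.ble 5 ((q + 15 - p) % 15) && Nat.ble ((q + 15 - p) % 15) 10

/-- adjacency of a vertex at position `k` and the base vertex `q` -/
def cyNB (k q : ℕ) : Bool :=
  Nat.ble 11 ((2 * q + 30 - k) % 30) && Nat.ble ((2 * q + 30 - k) % 30) 19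

/-- adjacency matrix of the 15 base vertices, `v` (index 15) and `w` (index `≥ 16`) -/
def cyMat (k l : ℕ) (e : Bool) (i j : ℕ) : Bool :=
  bif Nat.blt i 15 then
    (bif Nat.blt j 15 then cyBB i j else bif Nat.beq j 15 then cyNB k i else cyNB l i)
  else bif Nat.beq i 15 then
    (bif Nat.blt j 15 then cyNB k j else bif Nat.beq j 15 then false else e)
  else
    (bif Nat.blt j 15 then cyNB l j else bif Nat.beq j 15 then e else false)

/-- certificate checker -/
def cyChk (m : ℕ → ℕ → Bool) : List ℕ → Bool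
  | [x, y, a, b] => m x y && m x a && m y a && m x b && m y b && !m a b &&
      (List.range 17).any (fun c => xor (m a c) (m b c))
  | [p, a, b, c, d, e] => m a b && m b c && m c d && m d e && !m a c && !m a d && !m a e &&
      !m b d && !m b e && !m c e && !m p a && !m p b && !m p c && !m p d && !m p e
  | _ => false

theorem cyChk_sound (hd : NoDia G) (hf : NoP1P5 G) (m : ℕ → ℕ → Bool) (g : ℕ → V)
    (hm : ∀ i j, m i j = true ↔ G.Adj (g i) (g j)) (L : List ℕ) (hL : cyChk m L = true) :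
    False := by
  have hm' : ∀ i j, m i j = false ↔ ¬ G.Adj (g i) (g j) := by
    intro i j
    rw [← hm i j]
    simp
  unfold cyChk at hL
  split at hL
  · rename_i x y a b
    simp only [Bool.and_eq_true, Bool.not_eq_true', hm, hm'] at hL
    obtain ⟨⟨⟨⟨⟨⟨h1, h2⟩, h3⟩, h4⟩, h5⟩, h6⟩, h7⟩ := hL
    refine h6 (hd _ _ _ _ h1 h2 h3 h4 h5 ?_)
    intro hab
    rw [List.any_eq_true] at h7
    obtain ⟨c, -, hc⟩ := h7
    have : m a c = m b c := by
      rw [Bool.eq_iff_iff, hm, hm, hab]
    rw [this] at hc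
    simp at hc
  · rename_i p a b c d e
    simp only [Bool.and_eq_true, Bool.not_eq_true', hm, hm'] at hL
    obtain ⟨⟨⟨⟨⟨⟨⟨⟨⟨⟨⟨⟨⟨⟨h1, h2⟩, h3⟩, h4⟩, h5⟩, h6⟩, h7⟩, h8⟩, h9⟩, h10⟩, h11⟩, h12⟩, h13⟩,
      h14⟩, h15⟩ := hL
    exact hf _ _ _ _ _ _ h1 h2 h3 h4 h5 h6 h7 h8 h9 h10 h11 h12 h13 h14 h15
  · exact absurd hL (by simp)

/-- certificates for `k = 0`: first component for adjacent, second for non-adjacent -/
def cyC0 : List (List ℕ × List ℕ) :=
  [([15,16,6,7], []), ([15,16,6,7], []), ([15,16,7,8], []), ([15,16,7,8], []), ([15,16,8,9], []),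
   ([15,16,8,9], []), ([0,13,3,11,16,15], []), ([0,14,4,11,16,15], []), ([0,14,4,11,16,15], []),
   ([1,0,5,12,16,15], []), ([1,0,5,12,16,15], [10,7,15,6,11,16]), ([], [10,7,15,6,11,16]),
   ([], [10,8,15,6,12,16]), ([], [10,8,15,6,12,16]), ([], [10,9,15,6,13,16]),
   ([], [3,2,16,0,6,15]), ([], [3,2,16,0,6,15]), ([], [4,2,16,0,6,15]), ([], [4,2,16,0,6,15]),
   ([], [5,2,16,1,6,15]), ([11,10,0,7,15,16], [5,2,16,1,6,15]), ([11,10,0,7,15,16], []),
   ([0,1,11,2,16,15], []), ([0,1,11,2,16,15], []), ([0,1,11,3,16,15], []), ([15,16,6,7], []),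
   ([15,16,6,7], []), ([15,16,6,7], []), ([15,16,6,7], []), ([15,16,6,7], [])]

/-- certificates for `k = 1`, indexed by `l - k` -/
def cyC1 : List (List ℕ × List ℕ) :=
  [([15,16,6,7], []), ([15,16,7,8], []), ([15,16,7,8], []), ([15,16,8,9], []), ([15,16,8,9], []),
   ([15,16,9,10], []), ([15,16,9,10], []), ([0,14,4,11,16,15], []), ([1,0,5,12,16,15], []),
   ([1,0,5,12,16,15], []), ([], []), ([], [11,8,15,7,12,16]), ([], [11,8,15,7,12,16]),
   ([], [11,9,15,7,13,16]), ([], [3,2,16,0,6,15]), ([], [3,2,16,0,6,15]), ([], [4,2,16,0,6,15]),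
   ([], [4,2,16,0,6,15]), ([], [5,2,16,1,6,15]), ([], [5,2,16,1,6,15]), ([], []),
   ([0,1,11,2,16,15], []), ([0,1,11,2,16,15], []), ([0,1,11,3,16,15], []), ([15,16,6,7], []),
   ([15,16,6,7], []), ([15,16,6,7], []), ([15,16,6,7], []), ([15,16,6,7], []),
   ([15,16,6,7], [])]

/-- rotation of a certificate by `r` -/
def cyRot (r : ℕ) (L : List ℕ) : List ℕ :=
  L.map (fun i => bif Nat.blt i 15 then (i + r) % 15 else i)

/-- the certificate for positions `k`, `l` and adjacency `e` -/
def cyCert (k l : ℕ) (e : Bool) : List ℕ :=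
  let t := (bif Nat.beq (k % 2) 0 then cyC0 else cyC1).getD ((l + 30 - k) % 30) ([], [])
  cyRot (k / 2) (bif e then t.1 else t.2)

/-- full check for a pair of positions -/
def cyOk (k l : ℕ) : Bool :=
  let d := (l + 30 - k) % 30
  (!(Nat.ble 11 d && Nat.ble d 19) || cyChk (cyMat k l false) (cyCert k l false)) &&
  (!(Nat.ble d 9 || Nat.ble 21 d) || cyChk (cyMat k l true) (cyCert k l true)) &&
  (!(Nat.beq (k % 2) 0 && (Nat.beq d 10 || Nat.beq d 20)) ||
    (cyChk (cyMat k l false) (cyCert k l false) && cyChk (cyMat k l true) (cyCert k l true)))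

theorem cyAll : ((List.range 30).all fun k => (List.range 30).all fun l => cyOk k l) = true := by
  decide +kernel

theorem cy_val15 (i j : ℕ) (hi : i < 15) :
    ((j : ZMod 15) - (i : ZMod 15)).val = (j + 15 - i) % 15 := by
  have : ((j : ZMod 15) - (i : ZMod 15)) = ((j + 15 - i : ℕ) : ZMod 15) := by
    rw [Nat.cast_sub (by omega), Nat.cast_add]
    have : ((15 : ℕ) : ZMod 15) = 0 := ZMod.natCast_self 15
    rw [this, add_zero]
  rw [this, ZMod.val_natCast]

theorem cy_val30 (i : ℕ) (k : ZMod 30) :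
    ((i : ZMod 30) - k).val = (i + 30 - k.val) % 30 := by
  have hk : k.val < 30 := ZMod.val_lt k
  have : ((i : ZMod 30) - k) = ((i + 30 - k.val : ℕ) : ZMod 30) := by
    rw [Nat.cast_sub (by omega), Nat.cast_add]
    have : ((30 : ℕ) : ZMod 30) = 0 := ZMod.natCast_self 30
    rw [this, add_zero, ZMod.natCast_zmod_val]
  rw [this, ZMod.val_natCast]

theorem cyBB_iff {b : ZMod 15 → V} (hb : CB G b) (i j : ℕ) (hi : i < 15) :
    cyBB i j = true ↔ G.Adj (b (i : ZMod 15)) (b (j : ZMod 15)) := by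
  rw [hb, cy_val15 i j hi]
  unfold cyBB
  rw [Bool.and_eq_true, Nat.ble_eq, Nat.ble_eq]

theorem cyNB_iff {b : ZMod 15 → V} {k : ZMod 30} {v : V} (hv : AtP G b k v) (i : ℕ)
    (hi : i < 15) : cyNB k.val i = true ↔ G.Adj v (b (i : ZMod 15)) := by
  rw [hv, ZMod.val_natCast_of_lt hi]
  have : (2 * ((i : ℕ) : ZMod 30) - k).val = (2 * i + 30 - k.val) % 30 := by
    have := cy_val30 (2 * i) k
    rw [← this]
    push_cast
    rfl
  rw [this]
  unfold cyNB
  rw [Bool.and_eq_true, Nat.ble_eq, Nat.ble_eq]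

theorem cyMat_iff {b : ZMod 15 → V} (hb : CB G b) {k l : ZMod 30} {v w : V}
    (hv : AtP G b k v) (hw : AtP G b l w) (e : Bool) (he : e = true ↔ G.Adj v w) (i j : ℕ) :
    cyMat k.val l.val e i j = true ↔
      G.Adj (if i < 15 then b (i : ZMod 15) else if i = 15 then v else w)
        (if j < 15 then b (j : ZMod 15) else if j = 15 then v else w) := by
  have blt : ∀ i : ℕ, i < 15 → Nat.blt i 15 = true := fun i hi => by simpa using hi
  have blf : ∀ i : ℕ, ¬ i < 15 → Nat.blt i 15 = false := fun i hi => by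
    rw [Bool.eq_false_iff]
    intro h
    exact hi (by simpa using h)
  have bqf : ∀ i : ℕ, ¬ i = 15 → Nat.beq i 15 = false := fun i hi => by
    rw [Bool.eq_false_iff]
    intro h
    exact hi (by simpa using h)
  have bqt : Nat.beq 15 15 = true := rfl
  unfold cyMat
  by_cases hi : i < 15
  · rw [blt i hi, if_pos hi]
    by_cases hj : j < 15
    · rw [blt j hj, if_pos hj]
      exact cyBB_iff hb i j hi
    · rw [blf j hj, if_neg hj]
      by_cases hj2 : j = 15
      · rw [hj2, bqt, if_pos rfl, G.adj_comm]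
        exact cyNB_iff hv i hi
      · rw [bqf j hj2, if_neg hj2, G.adj_comm]
        exact cyNB_iff hw i hi
  · rw [blf i hi, if_neg hi]
    by_cases hi2 : i = 15
    · rw [hi2, bqt, if_pos rfl]
      by_cases hj : j < 15
      · rw [blt j hj, if_pos hj]
        exact cyNB_iff hv j hj
      · rw [blf j hj, if_neg hj]
        by_cases hj2 : j = 15
        · rw [hj2, bqt, if_pos rfl]
          simp
        · rw [bqf j hj2, if_neg hj2]
          exact he
    · rw [bqf i hi2, if_neg hi2]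
      by_cases hj : j < 15
      · rw [blt j hj, if_pos hj]
        exact cyNB_iff hw j hj
      · rw [blf j hj, if_neg hj]
        by_cases hj2 : j = 15
        · rw [hj2, bqt, if_pos rfl, G.adj_comm]
          exact he
        · rw [bqf j hj2, if_neg hj2]
          simp

/-- TARGET -/
theorem cy_rel2 {b : ZMod 15 → V} (hd : NoDia G) (hf : NoP1P5 G) (hb : CB G b) {k l : ZMod 30} {v w : V}
    (hv : AtP G b k v) (hw : AtP G b l w) (hne : v ≠ w) :
    (11 ≤ (l - k).val → (l - k).val ≤ 19 → G.Adj v w) ∧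
    ((l - k).val ≤ 9 ∨ 21 ≤ (l - k).val → ¬G.Adj v w) ∧
    (Even k.val → (l - k).val = 10 ∨ (l - k).val = 20 → False) := by
  have hk : k.val < 30 := ZMod.val_lt k
  have hl : l.val < 30 := ZMod.val_lt l
  have hok : cyOk k.val l.val = true := by
    have h1 := cyAll
    rw [List.all_eq_true] at h1
    have h2 := h1 k.val (List.mem_range.mpr hk)
    rw [List.all_eq_true] at h2
    exact h2 l.val (List.mem_range.mpr hl)
  have hdv : (l - k).val = (l.val + 30 - k.val) % 30 := by
    have := cy_val30 l.val k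
    rwa [ZMod.natCast_zmod_val] at this
  rw [hdv]
  have hT : G.Adj v w → cyChk (cyMat k.val l.val true) (cyCert k.val l.val true) = true →
      False := fun ha hc =>
    cyChk_sound hd hf _ _ (cyMat_iff hb hv hw true (by simpa using ha)) _ hc
  have hF : ¬ G.Adj v w → cyChk (cyMat k.val l.val false) (cyCert k.val l.val false) = true →
      False := fun ha hc =>
    cyChk_sound hd hf _ _ (cyMat_iff hb hv hw false (by simpa using ha)) _ hc
  unfold cyOk at hok
  dsimp only at hok
  rw [Bool.and_eq_true, Bool.and_eq_true] at hok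
  obtain ⟨⟨h1, h2⟩, h3⟩ := hok
  refine ⟨?_, ?_, ?_⟩
  · intro ha hb'
    by_contra hadj
    apply hF hadj
    rw [Nat.ble_eq_true_of_le ha, Nat.ble_eq_true_of_le hb'] at h1
    simpa using h1
  · intro ha hadj
    apply hT hadj
    have : (Nat.ble ((l.val + 30 - k.val) % 30) 9 || Nat.ble 21 ((l.val + 30 - k.val) % 30))
        = true := by
      rw [Bool.or_eq_true, Nat.ble_eq, Nat.ble_eq]
      exact ha
    rw [this] at h2
    simpa using h2
  · intro ha hb'
    have h4 : (Nat.beq (k.val % 2) 0 && (Nat.beq ((l.val + 30 - k.val) % 30) 10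
        || Nat.beq ((l.val + 30 - k.val) % 30) 20)) = true := by
      rw [Bool.and_eq_true, Bool.or_eq_true, Nat.beq_eq, Nat.beq_eq, Nat.beq_eq]
      exact ⟨Nat.even_iff.mp ha, hb'⟩
    rw [h4, Bool.not_true, Bool.false_or, Bool.and_eq_true] at h3
    by_cases hadj : G.Adj v w
    · exact hT hadj h3.2
    · exact hF hadj h3.1

end CyRel2

end Pool.Agent.Helper856.Cw
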