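import Pool.Agent.Helper856.Pair.Defs
import Pool.Agent.Helper856.Pair.CyRel2

open Classical SimpleGraph

namespace Pool.Agent.Helper856.Cw

open CyRel2 (cy_rel2)

namespace CyMisc2

variable {V : Type} {G : SimpleGraph V} {S T : Finset V} {k l : ℕ}

/-- position predicate -/
def cy_PP (k : ZMod 30) (q : ZMod 15) : Prop :=
  11 ≤ (2 * (q.val : ZMod 30) - k).val ∧ (2 * (q.val : ZMod 30) - k).val ≤ 19

instance (k : ZMod 30) (q : ZMod 15) : Decidable (cy_PP k q) := by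
  unfold cy_PP; infer_instance

theorem cy_aux_pos : ∀ k : ZMod 30, ¬ Even k.val → ∃ r : ZMod 15,
    (¬ cy_PP k r ∧ ¬ cy_PP k (r + 1) ∧ ¬ cy_PP k (r + 11)) ∧
    (cy_PP (k + 10) r ∧ ¬ cy_PP (k + 10) (r + 1) ∧ cy_PP (k + 10) (r + 11)) ∧
    (¬ cy_PP (k + 20) r ∧ cy_PP (k + 20) (r + 1) ∧ ¬ cy_PP (k + 20) (r + 11)) := by
  decide +kernel

theorem cy_aux_b : ∀ r : ZMod 15,
    (5 ≤ ((r + 1) - (r + 11)).val ∧ ((r + 1) - (r + 11)).val ≤ 10) ∧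
    ¬ (5 ≤ ((r + 11) - r).val ∧ ((r + 11) - r).val ≤ 10) ∧
    ¬ (5 ≤ ((r + 1) - r).val ∧ ((r + 1) - r).val ≤ 10) := by
  decide +kernel

/-- TARGET -/
theorem cy_nit2 {b : ZMod 15 → V} (hd : NoDia G) (hf : NoP1P5 G) (hb : CB G b) {k l : ZMod 30} {x y z : V} (hk : ¬Even k.val) (hx : AtP G b k x)
    (hy : AtP G b (k + 10) y) (hz : AtP G b (k + 20) z) (h1 : ¬G.Adj x y) (h2 : ¬G.Adj y z)
    (h3 : ¬G.Adj x z) : False := by
  obtain ⟨r, ⟨x0, x1, x11⟩, ⟨y0, y1, y11⟩, ⟨z0, z1, z11⟩⟩ := cy_aux_pos k hk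
  obtain ⟨c1, c2, c3⟩ := cy_aux_b r
  exact hf x (b r) y (b (r + 11)) (b (r + 1)) z
    ((hy r).mpr y0).symm
    ((hy (r + 11)).mpr y11)
    ((hb (r + 11) (r + 1)).mpr c1)
    ((hz (r + 1)).mpr z1).symm
    (fun h => c2 ((hb _ _).mp h))
    (fun h => c3 ((hb _ _).mp h))
    (fun h => z0 ((hz _).mp h.symm))
    (fun h => y1 ((hy _).mp h))
    h2
    (fun h => z11 ((hz _).mp h.symm))
    (fun h => x0 ((hx _).mp h))
    h1
    (fun h => x11 ((hx _).mp h))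
    (fun h => x1 ((hx _).mp h))
    h3

/-- TARGET -/
theorem cy_2p2 {b : ZMod 15 → V} (hd : NoDia G) (hf : NoP1P5 G) (hb : CB G b) {k l : ZMod 30} {x x' y y' : V} (hk : ¬Even k.val) (hx : AtP G b k x)
    (hx' : AtP G b k x') (hy : AtP G b (k + 10) y) (hy' : AtP G b (k + 10) y') (h1 : G.Adj x y)
    (h2 : G.Adj x' y') (h3 : ¬G.Adj x y') (h4 : ¬G.Adj x' y) : False := by
  obtain ⟨r, ⟨x0, x1, x11⟩, ⟨y0, y1, y11⟩, ⟨z0, z1, z11⟩⟩ := cy_aux_pos k hk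
  obtain ⟨c1, c2, c3⟩ := cy_aux_b r
  have hxx : ¬ G.Adj x x' := by
    intro h
    refine (cy_rel2 hd hf hb hx hx' h.ne).2.1 (Or.inl ?_) h
    rw [sub_self]; exact Nat.zero_le _
  have hyy : ¬ G.Adj y y' := by
    intro h
    refine (cy_rel2 hd hf hb hy hy' h.ne).2.1 (Or.inl ?_) h
    rw [sub_self]; exact Nat.zero_le _
  exact hf (b (r + 1)) x y (b r) y' x'
    h1
    ((hy r).mpr y0)
    ((hy' r).mpr y0).symm
    h2.symm
    (fun h => x0 ((hx _).mp h))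
    h3
    hxx
    hyy
    (fun h => h4 h.symm)
    (fun h => x0 ((hx' _).mp h.symm))
    (fun h => x1 ((hx _).mp h.symm))
    (fun h => y1 ((hy _).mp h.symm))
    (fun h => c3 ((hb _ _).mp h.symm))
    (fun h => y1 ((hy' _).mp h.symm))
    (fun h => x1 ((hx' _).mp h.symm))

end CyMisc2

end Pool.Agent.Helper856.Cw
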