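import Pool.Agent.Helper856.Pair.Defs

open Classical SimpleGraph

namespace Pool.Agent.Helper856.Cw

namespace CyType2

variable {V : Type} {G : SimpleGraph V} {S T : Finset V} {k l : ℕ}

inductive Cert | d (x y a b : ℕ) | f (p a b c d e : ℕ)

inductive Tr | x (c : Cert) | t (k : ℕ) | br (i : ℕ) (a b : Tr) | st (s : Bool) (i : ℕ) (c : Cert) (r : Tr)

def bse (x y : ℕ) : Bool := Nat.ble 5 ((y + 15 - x) % 15) && Nat.ble ((y + 15 - x) % 15) 10

def mm (q k : ℕ) : Bool := Nat.ble 11 ((2 * q + 30 - k) % 30) && Nat.ble ((2 * q + 30 - k) % 30) 19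

def mem (x : ℕ) : List ℕ → Bool
  | [] => false
  | a :: l => Nat.beq x a || mem x l

def ka (pos : List ℕ) (x y : ℕ) : Bool :=
  bif Nat.blt x 15 then (bif Nat.blt y 15 then bse x y else Nat.beq y 15 && mem x pos)
  else Nat.beq x 15 && Nat.blt y 15 && mem y pos

def kn (neg : List ℕ) (x y : ℕ) : Bool :=
  bif Nat.blt x 15 then (bif Nat.blt y 15 then !(bse x y) else Nat.beq y 15 && mem x neg)
  else Nat.beq x 15 && Nat.blt y 15 && mem y neg

def okc (pos neg : List ℕ) : Cert → Bool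
  | .d x y a b => ka pos x y && ka pos x a && ka pos y a && ka pos x b && ka pos y b && !(Nat.beq a b) && kn neg a b
  | .f p a b c d e => ka pos a b && ka pos b c && ka pos c d && ka pos d e && kn neg a c && kn neg a d && kn neg a e
      && kn neg b d && kn neg b e && kn neg c e && kn neg p a && kn neg p b && kn neg p c && kn neg p d && kn neg p e

def lf (pos neg : List ℕ) (k : ℕ) : ℕ → Bool
  | 0 => true
  | n + 1 => (bif mm n k then mem n pos else mem n neg) && lf pos neg k n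

def chk (pos neg : List ℕ) : Tr → Bool
  | .x c => okc pos neg c
  | .t k => Nat.blt k 30 && lf pos neg k 15
  | .br i a b => Nat.blt i 15 && chk (i :: pos) neg a && chk pos (i :: neg) b
  | .st s i c r => Nat.blt i 15 && (bif s then okc pos (i :: neg) c && chk (i :: pos) neg r
      else okc (i :: pos) neg c && chk pos (i :: neg) r)

def tree : Tr :=
(.br 0
 (.br 5
 (.st false 9 (.d 15 0 9 5) (.st false 13 (.d 15 5 0 13) (.st false 12 (.d 5 15 0 12) (.st false 6 (.d 0 15 6 5) (.st false 14 (.d 15 5 0 14) (.st false 8 (.d 0 15 8 5) (.st false 11 (.d 15 5 0 11) (.st true 10 (.d 5 0 15 10) (.st false 7 (.d 0 15 5 7) (.st true 3 (.f 7 15 5 11 3 9) (.st true 4 (.f 8 15 5 11 4 9) (.st true 1 (.f 12 15 10 1 9 14) (.st true 2 (.f 2 3 15 5 14 6) (.x (.d 15 10 3 4)))))))))))))))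
 (.st false 10 (.d 10 0 5 15) (.br 6
 (.st false 13 (.d 6 15 13 0) (.st false 12 (.d 6 15 12 0) (.st false 7 (.d 0 15 6 7) (.st false 11 (.d 15 6 0 11) (.st false 14 (.d 6 15 0 14) (.st false 1 (.d 6 1 15 11) (.st false 8 (.d 15 0 8 6) (.st false 9 (.d 0 15 9 6) (.st true 3 (.f 15 10 3 13 7 14) (.x (.f 15 8 1 7 12 5)))))))))))
 (.br 7
 (.st false 1 (.d 15 7 1 0) (.st false 13 (.d 15 7 13 0) (.st false 14 (.d 7 15 0 14) (.st false 8 (.d 0 15 8 7) (.st false 9 (.d 15 0 7 9) (.st false 2 (.d 15 7 2 0) (.st false 12 (.d 7 15 12 0) (.st true 11 (.f 14 11 2 10 0 15) (.st false 3 (.f 1 14 5 0 15 3) (.x (.f 5 3 8 2 7 15)))))))))))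
 (.br 8
 (.st false 1 (.d 15 8 1 0) (.st false 9 (.d 0 15 9 8) (.st false 14 (.d 8 15 14 0) (.st false 13 (.d 8 15 13 0) (.st false 3 (.d 8 15 3 0) (.st false 2 (.d 8 15 0 2) (.x (.f 15 10 3 13 7 14))))))))
 (.br 9
 (.st false 4 (.d 9 15 4 0) (.st false 1 (.d 9 15 1 0) (.st false 14 (.d 9 15 0 14) (.st false 3 (.d 15 9 3 0) (.st false 2 (.d 9 15 2 0) (.st true 13 (.f 15 10 3 13 7 14) (.st true 12 (.f 15 8 1 7 12 5) (.x (.f 14 1 10 0 15 13)))))))))
 (.br 1
 (.st false 11 (.d 1 11 6 15) (.br 2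
 (.st false 12 (.d 12 2 7 15) (.br 3
 (.st false 13 (.d 13 3 15 8) (.br 4
 (.st false 14 (.d 14 4 9 15) (.t 19))
 (.br 14
 (.t 17)
 (.t 18))))
 (.st true 14 (.f 3 6 14 7 2 15) (.st false 4 (.f 7 15 4 9 3 8) (.br 13
 (.t 15)
 (.t 16))))))
 (.st true 14 (.f 14 11 2 10 0 15) (.st true 13 (.f 15 10 2 7 13 6) (.st false 4 (.f 5 2 8 1 15 4) (.st false 3 (.f 5 2 7 1 15 3) (.br 12
 (.t 13)
 (.t 14))))))))
 (.st true 12 (.f 15 8 1 7 12 5) (.st true 13 (.f 15 5 13 7 1 9) (.st false 4 (.f 5 15 4 9 1 6) (.st true 14 (.f 10 15 13 6 14 9) (.st false 3 (.f 4 6 1 8 3 15) (.st false 2 (.f 5 6 1 9 2 15) (.br 11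
 (.t 11)
 (.t 12)))))))))))))))
 (.br 5
 (.st false 10 (.d 5 10 15 0) (.br 11
 (.st false 2 (.d 11 15 2 5) (.st false 4 (.d 15 11 4 5) (.st false 6 (.d 15 11 6 5) (.st false 1 (.d 15 11 1 5) (.st false 14 (.d 15 5 14 11) (.st false 3 (.d 15 11 3 5) (.st false 12 (.d 5 15 12 11) (.st false 13 (.d 5 15 11 13) (.st true 7 (.f 15 10 3 13 7 14) (.st true 8 (.f 15 4 12 6 0 8) (.x (.f 6 7 15 8 3 10))))))))))))
 (.br 12
 (.st false 3 (.d 15 12 3 5) (.st false 7 (.d 12 15 5 7) (.st false 14 (.d 5 15 14 12) (.st false 2 (.d 12 15 5 2) (.st false 13 (.d 5 15 12 13) (.st false 6 (.d 15 12 5 6) (.st false 4 (.d 12 15 5 4) (.x (.f 15 10 3 13 7 14)))))))))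
 (.br 13
 (.st false 3 (.d 15 13 3 5) (.st false 4 (.d 15 13 5 4) (.st false 8 (.d 13 8 3 15) (.st false 6 (.d 15 13 6 5) (.st false 14 (.d 15 5 13 14) (.st false 7 (.d 13 15 5 7) (.st false 2 (.f 3 6 14 7 2 15) (.x (.f 7 15 5 10 3 8)))))))))
 (.br 14
 (.st false 9 (.d 15 14 9 5) (.st false 4 (.d 14 15 5 4) (.st false 7 (.d 14 15 5 7) (.st false 8 (.d 15 14 8 5) (.st false 6 (.d 14 15 5 6) (.st true 3 (.f 7 15 5 10 3 8) (.st true 1 (.f 12 15 14 9 1 10) (.st true 2 (.f 15 10 2 7 13 6) (.x (.f 15 4 12 6 0 8))))))))))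
 (.br 1
 (.st false 6 (.d 6 1 15 11) (.st false 8 (.f 10 11 6 13 8 15) (.st false 7 (.f 8 7 15 5 11 6) (.st true 2 (.f 6 8 2 10 5 15) (.st true 3 (.f 15 11 3 13 7 14) (.st true 4 (.f 0 15 2 11 4 14) (.st false 9 (.f 10 15 9 14 6 12) (.t 21))))))))
 (.br 2
 (.st false 7 (.d 2 7 12 15) (.st true 3 (.f 15 10 3 13 7 14) (.st true 4 (.f 1 4 13 3 15 2) (.st false 9 (.f 11 13 7 14 9 15) (.st false 8 (.f 11 12 7 0 8 15) (.br 6
 (.t 23)
 (.t 22)))))))
 (.st true 6 (.f 15 10 2 11 6 14) (.br 3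
 (.st false 8 (.d 3 8 15 13) (.st true 4 (.f 8 15 6 11 4 10) (.st false 9 (.f 10 9 15 6 13 8) (.br 7
 (.t 25)
 (.t 24)))))
 (.st true 7 (.f 15 10 3 13 7 14) (.br 4
 (.st false 9 (.d 9 4 14 15) (.br 8
 (.t 27)
 (.t 26)))
 (.st true 8 (.f 8 15 6 11 4 10) (.br 9
 (.t 29)
 (.t 28))))))))))))))
 (.br 1
 (.br 2
 (.st false 10 (.d 15 10 2 1) (.st false 7 (.d 15 7 2 1) (.st false 9 (.d 15 9 2 1) (.st false 12 (.d 12 2 7 15) (.st false 11 (.d 11 15 2 1) (.st false 8 (.d 8 15 1 2) (.st true 3 (.f 3 15 2 7 0 5) (.st false 13 (.f 11 15 13 7 0 9) (.st true 4 (.f 15 8 0 5 11 4) (.st false 6 (.f 8 15 6 11 5 10) (.st false 14 (.f 13 0 10 1 15 14) (.t 20))))))))))))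
 (.st false 14 (.f 2 0 5 14 15 1) (.st false 4 (.f 2 0 5 14 4 15) (.st false 13 (.f 2 14 5 13 15 1) (.st true 6 (.f 2 15 1 6 13 5) (.st true 8 (.f 4 15 6 0 8 2) (.st true 7 (.f 4 15 6 0 7 2) (.st false 3 (.f 4 3 15 7 0 5) (.st true 9 (.f 5 9 3 8 15 6) (.st false 12 (.f 0 1 15 12 3 13) (.st true 11 (.f 0 15 1 11 4 12) (.st true 10 (.f 12 11 15 8 0 10) (.x (.d 1 15 8 7))))))))))))))
 (.br 2
 (.st true 12 (.f 1 15 2 12 5 0) (.st false 13 (.f 1 0 5 13 15 2) (.st false 3 (.f 1 2 15 3 13 5) (.st false 14 (.f 1 13 5 14 15 2) (.st true 9 (.f 15 1 9 14 5 13) (.st true 10 (.f 14 13 3 10 2 15) (.st true 11 (.f 14 15 2 11 3 13) (.st false 6 (.f 3 2 15 6 14 5) (.st false 4 (.f 3 0 5 14 4 15) (.st true 7 (.f 3 15 2 7 14 4) (.st true 8 (.f 4 6 1 8 2 15) (.x (.d 15 2 8 9)))))))))))))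
 (.br 3
 (.st false 14 (.f 1 3 15 14 5 0) (.st true 12 (.f 1 0 5 12 3 15) (.st true 13 (.f 2 0 5 13 3 15) (.st true 11 (.f 14 15 12 2 11 1) (.st true 10 (.f 14 1 10 2 12 15) (.st false 4 (.f 2 5 14 4 15 3) (.st false 6 (.f 2 5 14 6 15 3) (.st true 8 (.f 4 6 0 8 3 15) (.x (.d 15 3 8 12))))))))))
 (.br 4
 (.st true 12 (.f 1 0 5 12 4 15) (.st true 14 (.f 2 0 5 14 4 15) (.st true 13 (.f 0 14 15 12 3 13) (.st true 11 (.f 0 11 2 12 15 13) (.st false 7 (.f 3 4 15 7 0 5) (.st false 8 (.f 5 4 15 8 1 7) (.st false 6 (.f 3 4 15 6 0 5) (.st true 10 (.f 6 15 4 10 3 8) (.st true 9 (.f 5 15 4 9 1 8) (.x (.d 15 4 10 11)))))))))))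
 (.br 6
 (.st false 11 (.d 6 11 15 1) (.st false 13 (.f 0 15 13 3 11 1) (.st true 7 (.f 3 15 6 1 7 2) (.st true 8 (.f 5 3 8 2 7 15) (.st true 9 (.f 15 13 5 11 2 9) (.st false 14 (.f 0 15 14 4 11 1) (.st false 12 (.f 14 15 12 3 11 1) (.br 10
 (.t 1)
 (.t 0)))))))))
 (.br 7
 (.st false 12 (.d 7 12 15 2) (.st true 8 (.f 15 4 12 6 0 8) (.st false 13 (.f 1 15 13 5 12 2) (.st true 10 (.f 6 7 15 8 3 10) (.st true 9 (.f 9 10 15 7 13 6) (.st false 14 (.f 0 15 14 4 12 2) (.br 11
 (.t 3)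
 (.t 2))))))))
 (.st true 11 (.f 15 0 7 2 11 3) (.br 8
 (.st false 13 (.d 13 8 3 15) (.st true 9 (.f 15 13 5 0 9 1) (.st true 10 (.f 15 10 2 7 13 6) (.st false 14 (.f 0 14 15 11 3 13) (.br 12
 (.t 5)
 (.t 4))))))
 (.st true 12 (.f 15 8 1 7 12 5) (.br 9
 (.st false 14 (.d 9 14 15 4) (.st true 10 (.f 14 15 12 2 10 0) (.br 13
 (.t 7)
 (.t 6))))
 (.st true 13 (.f 15 13 5 0 9 1) (.br 10
 (.br 14
 (.t 9)
 (.t 8))
 (.st true 14 (.f 14 15 12 2 10 0) (.t 10))))))))))))))))

theorem tree_ok : chk [] [] tree = true := by decide +kernel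

/-- the vertices by numbers -/
noncomputable def gg (b : ZMod 15 → V) (v : V) (n : ℕ) : V := if n = 15 then v else b (n : ZMod 15)

theorem mem_iff (x : ℕ) (l : List ℕ) : mem x l = true ↔ x ∈ l := by
  induction l with
  | nil => simp [mem]
  | cons a l ih =>
    simp only [mem, Bool.or_eq_true, ih, List.mem_cons]
    rw [show (Nat.beq x a = true) ↔ x = a from ⟨Nat.eq_of_beq_eq_true, fun h => by subst h; exact Nat.beq_refl x⟩]

theorem bse_iff : ∀ x < 15, ∀ y < 15, (bse x y = true ↔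
    (5 ≤ ((y : ZMod 15) - (x : ZMod 15)).val ∧ ((y : ZMod 15) - (x : ZMod 15)).val ≤ 10)) := by
  decide +kernel

theorem mm_iff : ∀ q : ZMod 15, ∀ k < 30, (mm q.val k = true ↔
    (11 ≤ (2 * (q.val : ZMod 30) - (k : ZMod 30)).val ∧ (2 * (q.val : ZMod 30) - (k : ZMod 30)).val ≤ 19)) := by
  decide +kernel

theorem cb_sep : ∀ p q : ZMod 15, p ≠ q → ∃ r : ZMod 15,
    ¬ ((5 ≤ (r - p).val ∧ (r - p).val ≤ 10) ↔ (5 ≤ (r - q).val ∧ (r - q).val ≤ 10)) := by
  decide +kernel

theorem b_inj {b : ZMod 15 → V} (hb : CB G b) {p q : ZMod 15} (h : b p = b q) : p = q := by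
  by_contra hne
  obtain ⟨r, hr⟩ := cb_sep p q hne
  apply hr
  rw [← hb p r, ← hb q r, h]

section snd
variable {b : ZMod 15 → V} (hb : CB G b) {v : V} (hv : ∀ q, v ≠ b q) {pos neg : List ℕ}
  (hp : ∀ i ∈ pos, G.Adj v (b (i : ZMod 15))) (hn : ∀ i ∈ neg, ¬ G.Adj v (b (i : ZMod 15)))
include hb

theorem gg_lt {x : ℕ} (hx : x < 15) : gg b v x = b (x : ZMod 15) := by
  unfold gg; rw [if_neg (by omega)]

theorem gg_15 : gg b v 15 = v := by
  unfold gg; rw [if_pos rfl]

include hp in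
theorem ka_sound {x y : ℕ} (h : ka pos x y = true) : G.Adj (gg b v x) (gg b v y) := by
  unfold ka at h
  by_cases hx : x < 15
  · by_cases hy : y < 15
    · have e1 : Nat.blt x 15 = true := by simpa [Nat.blt_eq] using hx
      have e2 : Nat.blt y 15 = true := by simpa [Nat.blt_eq] using hy
      rw [e1, e2] at h
      simp only [cond_true] at h
      rw [gg_lt hb hx, gg_lt hb hy, hb]
      exact (bse_iff x hx y hy).1 h
    · have e1 : Nat.blt x 15 = true := by simpa [Nat.blt_eq] using hx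
      have e2 : Nat.blt y 15 = false := by
        rw [Bool.eq_false_iff]; intro h'; exact hy (by simpa [Nat.blt_eq] using h')
      rw [e1, e2] at h
      simp only [cond_true, cond_false, Bool.and_eq_true] at h
      have hy' : y = 15 := Nat.eq_of_beq_eq_true h.1
      subst hy'
      rw [gg_lt hb hx, gg_15 hb]
      exact (hp x ((mem_iff _ _).1 h.2)).symm
  · have e1 : Nat.blt x 15 = false := by
      rw [Bool.eq_false_iff]; intro h'; exact hx (by simpa [Nat.blt_eq] using h')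
    rw [e1] at h
    simp only [cond_false, Bool.and_eq_true] at h
    have hx' : x = 15 := Nat.eq_of_beq_eq_true h.1.1
    have hy : y < 15 := by simpa [Nat.blt_eq] using h.1.2
    subst hx'
    rw [gg_lt hb hy, gg_15 hb]
    exact hp y ((mem_iff _ _).1 h.2)

include hn in
theorem kn_sound {x y : ℕ} (h : kn neg x y = true) : ¬ G.Adj (gg b v x) (gg b v y) := by
  unfold kn at h
  by_cases hx : x < 15
  · by_cases hy : y < 15
    · have e1 : Nat.blt x 15 = true := by simpa [Nat.blt_eq] using hx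
      have e2 : Nat.blt y 15 = true := by simpa [Nat.blt_eq] using hy
      rw [e1, e2] at h
      simp only [cond_true, Bool.not_eq_true'] at h
      rw [gg_lt hb hx, gg_lt hb hy, hb]
      intro h'
      rw [(bse_iff x hx y hy).2 h'] at h
      exact Bool.noConfusion h
    · have e1 : Nat.blt x 15 = true := by simpa [Nat.blt_eq] using hx
      have e2 : Nat.blt y 15 = false := by
        rw [Bool.eq_false_iff]; intro h'; exact hy (by simpa [Nat.blt_eq] using h')
      rw [e1, e2] at h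
      simp only [cond_true, cond_false, Bool.and_eq_true] at h
      have hy' : y = 15 := Nat.eq_of_beq_eq_true h.1
      subst hy'
      rw [gg_lt hb hx, gg_15 hb]
      exact fun h' => hn x ((mem_iff _ _).1 h.2) h'.symm
  · have e1 : Nat.blt x 15 = false := by
      rw [Bool.eq_false_iff]; intro h'; exact hx (by simpa [Nat.blt_eq] using h')
    rw [e1] at h
    simp only [cond_false, Bool.and_eq_true] at h
    have hx' : x = 15 := Nat.eq_of_beq_eq_true h.1.1
    have hy : y < 15 := by simpa [Nat.blt_eq] using h.1.2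
    subst hx'
    rw [gg_lt hb hy, gg_15 hb]
    exact hn y ((mem_iff _ _).1 h.2)

theorem kn_le {x y : ℕ} (h : kn neg x y = true) : x ≤ 15 ∧ y ≤ 15 := by
  unfold kn at h
  by_cases hx : x < 15
  · by_cases hy : y < 15
    · omega
    · have e1 : Nat.blt x 15 = true := by simpa [Nat.blt_eq] using hx
      have e2 : Nat.blt y 15 = false := by
        rw [Bool.eq_false_iff]; intro h'; exact hy (by simpa [Nat.blt_eq] using h')
      rw [e1, e2] at h
      simp only [cond_true, cond_false, Bool.and_eq_true] at h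
      have hy' : y = 15 := Nat.eq_of_beq_eq_true h.1
      omega
  · have e1 : Nat.blt x 15 = false := by
      rw [Bool.eq_false_iff]; intro h'; exact hx (by simpa [Nat.blt_eq] using h')
    rw [e1] at h
    simp only [cond_false, Bool.and_eq_true] at h
    have hx' : x = 15 := Nat.eq_of_beq_eq_true h.1.1
    have hy : y < 15 := by simpa [Nat.blt_eq] using h.1.2
    omega

include hv in
theorem gg_ne {x y : ℕ} (hx : x ≤ 15) (hy : y ≤ 15) (hxy : x ≠ y) : gg b v x ≠ gg b v y := by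
  rcases Nat.lt_or_eq_of_le hx with hx | rfl
  · rcases Nat.lt_or_eq_of_le hy with hy | rfl
    · rw [gg_lt hb hx, gg_lt hb hy]
      intro h
      have h2 := b_inj hb h
      rw [ZMod.natCast_eq_natCast_iff'] at h2
      rw [Nat.mod_eq_of_lt hx, Nat.mod_eq_of_lt hy] at h2
      exact hxy h2
    · rw [gg_lt hb hx, gg_15 hb]
      exact (hv _).symm
  · rcases Nat.lt_or_eq_of_le hy with hy | rfl
    · rw [gg_lt hb hy, gg_15 hb]
      exact hv _
    · exact absurd rfl hxy

include hv hp hn in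
theorem okc_sound (hd : NoDia G) (hf : NoP1P5 G) {c : Cert} (h : okc pos neg c = true) : False := by
  cases c with
  | d x y a b' =>
    simp only [okc, Bool.and_eq_true] at h
    obtain ⟨⟨⟨⟨⟨⟨h1, h2⟩, h3⟩, h4⟩, h5⟩, h6⟩, h7⟩ := h
    have hab : a ≠ b' := by
      rintro rfl
      rw [Nat.beq_refl] at h6
      exact Bool.noConfusion h6
    exact kn_sound hb hn h7 (hd _ _ _ _ (ka_sound hb hp h1) (ka_sound hb hp h2) (ka_sound hb hp h3)
      (ka_sound hb hp h4) (ka_sound hb hp h5) (gg_ne hb hv (kn_le hb h7).1 (kn_le hb h7).2 hab))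
  | f p a b' c d e =>
    simp only [okc, Bool.and_eq_true] at h
    obtain ⟨⟨⟨⟨⟨⟨⟨⟨⟨⟨⟨⟨⟨⟨h1, h2⟩, h3⟩, h4⟩, h5⟩, h6⟩, h7⟩, h8⟩, h9⟩, h10⟩, h11⟩, h12⟩, h13⟩, h14⟩, h15⟩ := h
    exact hf _ _ _ _ _ _ (ka_sound hb hp h1) (ka_sound hb hp h2) (ka_sound hb hp h3)
      (ka_sound hb hp h4) (kn_sound hb hn h5) (kn_sound hb hn h6) (kn_sound hb hn h7)
      (kn_sound hb hn h8) (kn_sound hb hn h9) (kn_sound hb hn h10) (kn_sound hb hn h11)
      (kn_sound hb hn h12) (kn_sound hb hn h13) (kn_sound hb hn h14) (kn_sound hb hn h15)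

end snd

theorem lf_sound (pos neg : List ℕ) (k n : ℕ) (h : lf pos neg k n = true) :
    ∀ q < n, (mm q k = true → q ∈ pos) ∧ (mm q k = false → q ∈ neg) := by
  induction n with
  | zero => intro q hq; omega
  | succ n ih =>
    simp only [lf, Bool.and_eq_true] at h
    intro q hq
    rcases Nat.lt_succ_iff_lt_or_eq.1 hq with hq | rfl
    · exact ih h.2 q hq
    · constructor
      · intro e
        have := h.1
        rw [e] at this
        exact (mem_iff _ _).1 this
      · intro e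
        have := h.1
        rw [e] at this
        exact (mem_iff _ _).1 this

theorem chk_sound {b : ZMod 15 → V} (hd : NoDia G) (hf : NoP1P5 G) (hb : CB G b) {v : V}
    (hv : ∀ q, v ≠ b q) (t : Tr) : ∀ (pos neg : List ℕ)
    (_ : ∀ i ∈ pos, G.Adj v (b (i : ZMod 15))) (_ : ∀ i ∈ neg, ¬ G.Adj v (b (i : ZMod 15))),
    chk pos neg t = true → ∃ k, AtP G b k v := by
  induction t with
  | x c =>
    intro pos neg hp hn h
    exact (okc_sound hb hv hp hn hd hf h).elim
  | t k =>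
    intro pos neg hp hn h
    simp only [chk, Bool.and_eq_true] at h
    have hk : k < 30 := by simpa [Nat.blt_eq] using h.1
    refine ⟨(k : ZMod 30), ?_⟩
    intro q
    have hq := lf_sound pos neg k 15 h.2 q.val (ZMod.val_lt q)
    have hqq : ((q.val : ℕ) : ZMod 15) = q := ZMod.natCast_zmod_val q
    rw [← mm_iff q k hk]
    constructor
    · intro ha
      by_contra hm
      have hm' : mm q.val k = false := by simpa using hm
      have := hn _ (hq.2 hm')
      rw [hqq] at this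
      exact this ha
    · intro hm
      have := hp _ (hq.1 hm)
      rw [hqq] at this
      exact this
  | br i a b' iha ihb =>
    intro pos neg hp hn h
    simp only [chk, Bool.and_eq_true] at h
    by_cases hi : G.Adj v (b (i : ZMod 15))
    · exact iha (i :: pos) neg (by
        intro j hj
        rcases List.mem_cons.1 hj with rfl | hj
        · exact hi
        · exact hp j hj) hn h.1.2
    · exact ihb pos (i :: neg) hp (by
        intro j hj
        rcases List.mem_cons.1 hj with rfl | hj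
        · exact hi
        · exact hn j hj) h.2
  | st s i c r ih =>
    intro pos neg hp hn h
    simp only [chk, Bool.and_eq_true] at h
    cases s with
    | true =>
      have h2 := h.2
      simp only [cond_true, Bool.and_eq_true] at h2
      by_cases hi : G.Adj v (b (i : ZMod 15))
      · exact ih (i :: pos) neg (by
          intro j hj
          rcases List.mem_cons.1 hj with rfl | hj
          · exact hi
          · exact hp j hj) hn h2.2
      · exact (okc_sound hb hv hp (neg := i :: neg) (by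
          intro j hj
          rcases List.mem_cons.1 hj with rfl | hj
          · exact hi
          · exact hn j hj) hd hf h2.1).elim
    | false =>
      have h2 := h.2
      simp only [cond_false, Bool.and_eq_true] at h2
      by_cases hi : G.Adj v (b (i : ZMod 15))
      · exact (okc_sound hb hv (pos := i :: pos) (by
          intro j hj
          rcases List.mem_cons.1 hj with rfl | hj
          · exact hi
          · exact hp j hj) hn hd hf h2.1).elim
      · exact ih pos (i :: neg) hp (by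
          intro j hj
          rcases List.mem_cons.1 hj with rfl | hj
          · exact hi
          · exact hn j hj) h2.2

/-- TARGET -/
theorem cy_type2 {b : ZMod 15 → V} (hd : NoDia G) (hf : NoP1P5 G) (hb : CB G b) (v : V) :
    (∃ q, v = b q) ∨ ∃ k, AtP G b k v := by
  by_cases hv : ∃ q, v = b q
  · exact Or.inl hv
  · right
    have hv' : ∀ q, v ≠ b q := fun q hq => hv ⟨q, hq⟩
    exact chk_sound hd hf hb hv' tree [] [] (by intro i hi; cases hi) (by intro i hi; cases hi) tree_ok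

end CyType2

end Pool.Agent.Helper856.Cw
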