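import Pool.Agent.Helper856.Pair.Defs
import Pool.Agent.Helper856.Cw.Basic
import Pool.Agent.Helper856.Pair.Induce
import Pool.Agent.Helper856.Pair.SPieces
import Pool.Agent.Helper856.Pair.TMain
import Pool.Agent.Helper856.Pair.CyType2
import Pool.Agent.Helper856.Pair.CyRel2
import Pool.Agent.Helper856.Pair.CyMisc2

open Classical SimpleGraph

namespace Pool.Agent.Helper856.Cw

open Induce (slin_ind)
open SPieces (slin_join)
open TMain (tt_main)
open CyType2 (cy_type2)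
open CyRel2 (cy_rel2)
open CyMisc2 (cy_nit2 cy_2p2)

namespace P2F2

variable {V : Type} {G : SimpleGraph V} {S T : Finset V} {k l : ℕ}

theorem f2_dval (a c : ZMod 30) : (a - c).val = (30 - c.val + a.val) % 30 := rfl

theorem f2_rel {b : ZMod 15 → V} (hd : NoDia G) (hf : NoP1P5 G) (hb : CB G b) {k l : ZMod 30}
    {v w : V} (hv : AtP G b k v) (hw : AtP G b l w) (hne : v ≠ w) :
    (11 ≤ (30 - k.val + l.val) % 30 → (30 - k.val + l.val) % 30 ≤ 19 → G.Adj v w) ∧
    ((30 - k.val + l.val) % 30 ≤ 9 ∨ 21 ≤ (30 - k.val + l.val) % 30 → ¬G.Adj v w) ∧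
    (k.val % 2 = 0 → (30 - k.val + l.val) % 30 = 10 ∨ (30 - k.val + l.val) % 30 = 20 → False) := by
  have h := cy_rel2 hd hf hb hv hw hne
  rw [f2_dval, Nat.even_iff] at h
  exact h

theorem f2_pos {a c : ZMod 30} (n : ℕ) (h : c.val = (a.val + n) % 30) : c = a + n := by
  have h1 : ((c.val : ℕ) : ZMod 30) = (((a.val + n) % 30 : ℕ) : ZMod 30) := by rw [h]
  rw [ZMod.natCast_mod, Nat.cast_add, ZMod.natCast_zmod_val, ZMod.natCast_zmod_val] at h1
  exact h1

theorem f2_nit {b : ZMod 15 → V} (hd : NoDia G) (hf : NoP1P5 G) (hb : CB G b) {i j l : ZMod 30}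
    {x y z : V} (hx : AtP G b i x) (hy : AtP G b j y) (hz : AtP G b l z)
    (hxy : x ≠ y) (hyz : y ≠ z) (hxz : x ≠ z)
    (hi : 1 ≤ i.val ∧ i.val ≤ 9) (hj : 11 ≤ j.val ∧ j.val ≤ 19) (hl : 21 ≤ l.val ∧ l.val ≤ 29)
    (h1 : ¬G.Adj x y) (h2 : ¬G.Adj y z) (h3 : ¬G.Adj x z) : False := by
  obtain ⟨a1, -, a3⟩ := f2_rel hd hf hb hx hy hxy
  obtain ⟨b1, -, -⟩ := f2_rel hd hf hb hy hz hyz
  obtain ⟨c1, -, -⟩ := f2_rel hd hf hb hx hz hxz
  have e1 : ¬(11 ≤ (30 - i.val + j.val) % 30 ∧ (30 - i.val + j.val) % 30 ≤ 19) :=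
    fun h => h1 (a1 h.1 h.2)
  have e2 : ¬(11 ≤ (30 - j.val + l.val) % 30 ∧ (30 - j.val + l.val) % 30 ≤ 19) :=
    fun h => h2 (b1 h.1 h.2)
  have e3 : ¬(11 ≤ (30 - i.val + l.val) % 30 ∧ (30 - i.val + l.val) % 30 ≤ 19) :=
    fun h => h3 (c1 h.1 h.2)
  have hji : j.val = i.val + 10 := by omega
  have hli : l.val = i.val + 20 := by omega
  rcases Nat.mod_two_eq_zero_or_one i.val with he | he
  · exact a3 he (by left; omega)
  · have hj' : j = i + (10 : ℕ) := f2_pos 10 (by omega)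
    have hl' : l = i + (20 : ℕ) := f2_pos 20 (by omega)
    subst hj' hl'
    exact cy_nit2 (l := 0) hd hf hb (by rw [Nat.even_iff]; omega) hx hy hz h1 h2 h3

theorem f2_2p2 {b : ZMod 15 → V} (hd : NoDia G) (hf : NoP1P5 G) (hb : CB G b)
    {i j i' j' : ZMod 30} {x y x' y' : V} (hx : AtP G b i x) (hy : AtP G b j y)
    (hx' : AtP G b i' x') (hy' : AtP G b j' y')
    (h1 : x ≠ y) (h2 : x' ≠ y') (h3 : x ≠ y') (h4 : x' ≠ y) (s : ℕ)
    (hs : s = 0 ∨ s = 10 ∨ s = 20)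
    (hi : s + 1 ≤ i.val ∧ i.val ≤ s + 9) (hi' : s + 1 ≤ i'.val ∧ i'.val ≤ s + 9)
    (hj : (s + 11) % 30 ≤ j.val ∧ j.val ≤ (s + 19) % 30)
    (hj' : (s + 11) % 30 ≤ j'.val ∧ j'.val ≤ (s + 19) % 30)
    (g1 : G.Adj x y) (g2 : G.Adj x' y') (g3 : ¬G.Adj x y') (g4 : ¬G.Adj x' y) : False := by
  obtain ⟨-, a2, a3⟩ := f2_rel hd hf hb hx hy h1
  obtain ⟨-, b2, -⟩ := f2_rel hd hf hb hx' hy' h2
  obtain ⟨c1, -, -⟩ := f2_rel hd hf hb hx hy' h3
  obtain ⟨d1, -, -⟩ := f2_rel hd hf hb hx' hy h4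
  have e1 : ¬((30 - i.val + j.val) % 30 ≤ 9 ∨ 21 ≤ (30 - i.val + j.val) % 30) :=
    fun h => a2 h g1
  have e2 : ¬((30 - i'.val + j'.val) % 30 ≤ 9 ∨ 21 ≤ (30 - i'.val + j'.val) % 30) :=
    fun h => b2 h g2
  have e3 : ¬(11 ≤ (30 - i.val + j'.val) % 30 ∧ (30 - i.val + j'.val) % 30 ≤ 19) :=
    fun h => g3 (c1 h.1 h.2)
  have e4 : ¬(11 ≤ (30 - i'.val + j.val) % 30 ∧ (30 - i'.val + j.val) % 30 ≤ 19) :=
    fun h => g4 (d1 h.1 h.2)
  have hii : i'.val = i.val := by rcases hs with rfl | rfl | rfl <;> omega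
  have hjj : j'.val = j.val := by rcases hs with rfl | rfl | rfl <;> omega
  have hji : j.val = (i.val + 10) % 30 := by rcases hs with rfl | rfl | rfl <;> omega
  have hi30 : i.val < 30 := ZMod.val_lt i
  rcases Nat.mod_two_eq_zero_or_one i.val with he | he
  · exact a3 he (by left; omega)
  · have hk1 : j = i + (10 : ℕ) := f2_pos 10 hji
    have hk2 : i' = i := ZMod.val_injective 30 hii
    have hk3 : j' = j := ZMod.val_injective 30 hjj
    subst hk3 hk2 hk1
    exact cy_2p2 (l := 0) hd hf hb (by rw [Nat.even_iff]; omega) hx hx' hy hy' g1 g2 g3 g4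

theorem f2_noP {X Y : Finset V} (hX : Ind G X) (hY : Ind G Y)
    (h : ∀ x ∈ X, ∀ x' ∈ X, ∀ y ∈ Y, ∀ y' ∈ Y, G.Adj x y → G.Adj x' y' → ¬G.Adj x y' →
      ¬G.Adj x' y → False) : NoP2P3T G (X ∪ Y) := by
  intro p hp q hq a ha b hb c hc hpq hab hbc hac nac npa npb npc nqa nqb nqc
  rcases Finset.mem_union.1 hp with hp | hp <;> rcases Finset.mem_union.1 hq with hq | hq
  · exact hX p hp q hq hpq
  · rcases Finset.mem_union.1 ha with ha | ha <;> rcases Finset.mem_union.1 hb with hb | hb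
    · exact hX a ha b hb hab
    · exact h p hp a ha q hq b hb hpq hab npb (fun h => nqa h.symm)
    · exact h p hp b hb q hq a ha hpq hab.symm npa (fun h => nqb h.symm)
    · exact hY a ha b hb hab
  · rcases Finset.mem_union.1 ha with ha | ha <;> rcases Finset.mem_union.1 hb with hb | hb
    · exact hX a ha b hb hab
    · exact h q hq a ha p hp b hb hpq.symm hab nqb (fun h => npa h.symm)
    · exact h q hq b hb p hp a ha hpq.symm hab.symm nqa (fun h => npb h.symm)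
    · exact hY a ha b hb hab
  · exact hY p hp q hq hpq

/-- TARGET -/
theorem p2_f2 (k : ℕ) : ∃ c, ∀ (V : Type) (G : SimpleGraph V) (S : Finset V) (b : ZMod 15 → V),
    NoDia G → NoP1P5 G → CB G b → (∀ T ⊆ S, TriT G T → SLin k G T) → SLin c G S := by
  obtain ⟨c1, hc1⟩ := tt_main k
  refine ⟨30 * 2 * (c1 + 1 + 1) + 15, ?_⟩
  intro V G S b hd hf hb hS
  have hpos0 : ∀ v, ∃ k : ZMod 30, (∀ q, v ≠ b q) → AtP G b k v := by
    intro v
    rcases cy_type2 hd hf hb v with ⟨q, hq⟩ | ⟨k, hk⟩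
    · exact ⟨0, fun h => absurd hq (h q)⟩
    · exact ⟨k, fun _ => hk⟩
  choose pos hpos using hpos0
  set nb : V → Prop := fun v => ∀ q, v ≠ b q with hnb
  set A := S.filter (fun v => nb v ∧ 1 ≤ (pos v).val ∧ (pos v).val ≤ 9) with hA
  set B := S.filter (fun v => nb v ∧ 11 ≤ (pos v).val ∧ (pos v).val ≤ 19) with hB
  set C := S.filter (fun v => nb v ∧ 21 ≤ (pos v).val ∧ (pos v).val ≤ 29) with hC
  set W := S.filter (fun v => nb v ∧
    ((pos v).val = 0 ∨ (pos v).val = 10 ∨ (pos v).val = 20)) with hW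
  have mA : ∀ v ∈ A, nb v ∧ 1 ≤ (pos v).val ∧ (pos v).val ≤ 9 :=
    fun v hv => (Finset.mem_filter.1 hv).2
  have mB : ∀ v ∈ B, nb v ∧ 11 ≤ (pos v).val ∧ (pos v).val ≤ 19 :=
    fun v hv => (Finset.mem_filter.1 hv).2
  have mC : ∀ v ∈ C, nb v ∧ 21 ≤ (pos v).val ∧ (pos v).val ≤ 29 :=
    fun v hv => (Finset.mem_filter.1 hv).2
  have mW : ∀ v ∈ W, nb v ∧ ((pos v).val = 0 ∨ (pos v).val = 10 ∨ (pos v).val = 20) :=
    fun v hv => (Finset.mem_filter.1 hv).2
  have hne : ∀ v w : V, (pos v).val ≠ (pos w).val → v ≠ w := by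
    rintro v w h rfl
    exact h rfl
  -- independence of a sector
  have hind : ∀ (X : Finset V) (s : ℕ), s ≤ 20 → (∀ v ∈ X, nb v ∧ s + 1 ≤ (pos v).val ∧
      (pos v).val ≤ s + 9) → Ind G X := by
    intro X s hs hX x hx y hy hxy
    obtain ⟨nx, x1, x2⟩ := hX x hx
    obtain ⟨ny, y1, y2⟩ := hX y hy
    refine (f2_rel hd hf hb (hpos x nx) (hpos y ny) hxy.ne).2.1 ?_ hxy
    omega
  have iA : Ind G A := hind A 0 (by norm_num) mA
  have iB : Ind G B := hind B 10 (by norm_num) mB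
  have iC : Ind G C := hind C 20 (by norm_num) mC
  have hTT : TT G A B C := by
    refine ⟨?_, ?_, ?_, iA, iB, iC, ?_, ?_, ?_, ?_⟩
    · rw [Finset.disjoint_left]
      intro v h1 h2
      have := mA v h1
      have := mB v h2
      omega
    · rw [Finset.disjoint_left]
      intro v h1 h2
      have := mA v h1
      have := mC v h2
      omega
    · rw [Finset.disjoint_left]
      intro v h1 h2
      have := mB v h1
      have := mC v h2
      omega
    · intro x hx y hy z hz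
      by_contra hcon
      push Not at hcon
      obtain ⟨nx, x1, x2⟩ := mA x hx
      obtain ⟨ny, y1, y2⟩ := mB y hy
      obtain ⟨nz, z1, z2⟩ := mC z hz
      exact f2_nit hd hf hb (hpos x nx) (hpos y ny) (hpos z nz) (hne _ _ (by omega))
        (hne _ _ (by omega)) (hne _ _ (by omega)) ⟨x1, x2⟩ ⟨y1, y2⟩ ⟨z1, z2⟩ hcon.1 hcon.2.1 hcon.2.2
    · refine f2_noP iA iB fun x hx x' hx' y hy y' hy' g1 g2 g3 g4 => ?_
      obtain ⟨nx, x1, x2⟩ := mA x hx
      obtain ⟨nx', x1', x2'⟩ := mA x' hx'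
      obtain ⟨ny, y1, y2⟩ := mB y hy
      obtain ⟨ny', y1', y2'⟩ := mB y' hy'
      exact f2_2p2 hd hf hb (hpos x nx) (hpos y ny) (hpos x' nx') (hpos y' ny')
        (hne _ _ (by omega)) (hne _ _ (by omega)) (hne _ _ (by omega)) (hne _ _ (by omega)) 0
        (by omega) (by omega) (by omega) (by omega) (by omega) g1 g2 g3 g4
    · refine f2_noP iB iC fun x hx x' hx' y hy y' hy' g1 g2 g3 g4 => ?_
      obtain ⟨nx, x1, x2⟩ := mB x hx
      obtain ⟨nx', x1', x2'⟩ := mB x' hx'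
      obtain ⟨ny, y1, y2⟩ := mC y hy
      obtain ⟨ny', y1', y2'⟩ := mC y' hy'
      exact f2_2p2 hd hf hb (hpos x nx) (hpos y ny) (hpos x' nx') (hpos y' ny')
        (hne _ _ (by omega)) (hne _ _ (by omega)) (hne _ _ (by omega)) (hne _ _ (by omega)) 10
        (by omega) (by omega) (by omega) (by omega) (by omega) g1 g2 g3 g4
    · refine f2_noP iA iC fun x hx x' hx' y hy y' hy' g1 g2 g3 g4 => ?_
      obtain ⟨nx, x1, x2⟩ := mA x hx
      obtain ⟨nx', x1', x2'⟩ := mA x' hx'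
      obtain ⟨ny, y1, y2⟩ := mC y hy
      obtain ⟨ny', y1', y2'⟩ := mC y' hy'
      exact f2_2p2 hd hf hb (hpos y ny) (hpos x nx) (hpos y' ny') (hpos x' nx')
        (hne _ _ (by omega)) (hne _ _ (by omega)) (hne _ _ (by omega)) (hne _ _ (by omega)) 20
        (by omega) (by omega) (by omega) (by omega) (by omega) g1.symm g2.symm
        (fun h => g4 h.symm) (fun h => g3 h.symm)
  have hABC : A ∪ B ∪ C ⊆ S := by
    intro v hv
    rcases Finset.mem_union.1 hv with hv | hv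
    · rcases Finset.mem_union.1 hv with hv | hv
      · exact (Finset.mem_filter.1 hv).1
      · exact (Finset.mem_filter.1 hv).1
    · exact (Finset.mem_filter.1 hv).1
  have s1 : SLin c1 G (A ∪ B ∪ C) :=
    hc1 V G A B C hTT hd (fun T hT => hS T (hT.trans hABC))
  have s2 : SLin 1 G W := by
    apply slin_ind
    intro x hx y hy hxy
    obtain ⟨nx, x1⟩ := mW x hx
    obtain ⟨ny, y1⟩ := mW y hy
    obtain ⟨-, r2, r3⟩ := f2_rel hd hf hb (hpos x nx) (hpos y ny) hxy.ne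
    by_cases hp : (pos x).val = (pos y).val
    · refine r2 ?_ hxy
      left
      omega
    · refine r3 ?_ ?_ <;> omega
  have mABC : ∀ v ∈ A ∪ B ∪ C, nb v ∧ (pos v).val % 10 ≠ 0 ∧ (pos v).val < 30 := by
    intro v hv
    rcases Finset.mem_union.1 hv with hv | hv
    · rcases Finset.mem_union.1 hv with hv | hv
      · have := mA v hv
        exact ⟨this.1, by omega, by omega⟩
      · have := mB v hv
        exact ⟨this.1, by omega, by omega⟩
    · have := mC v hv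
      exact ⟨this.1, by omega, by omega⟩
  have hdisj : Disjoint (A ∪ B ∪ C) W := by
    rw [Finset.disjoint_left]
    intro v h1 h2
    have := mABC v h1
    have := mW v h2
    omega
  have s3 : SLin (30 * 2 * (c1 + 1 + 1)) G (A ∪ B ∪ C ∪ W) := by
    refine slin_join (r := 30) hdisj (fun v => (pos v : ZMod 30))
      (fun k l => 11 ≤ (30 - (k : ℕ) + (l : ℕ)) % 30 ∧ (30 - (k : ℕ) + (l : ℕ)) % 30 ≤ 19) ?_ s1 s2
    intro x hx y hy
    obtain ⟨nx, x1, x2⟩ := mABC x hx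
    obtain ⟨ny, y1⟩ := mW y hy
    obtain ⟨r1, r2, r3⟩ := f2_rel hd hf hb (hpos x nx) (hpos y ny) (hne _ _ (by omega))
    show G.Adj x y ↔ 11 ≤ (30 - (pos x).val + (pos y).val) % 30 ∧
      (30 - (pos x).val + (pos y).val) % 30 ≤ 19
    constructor
    · intro h
      by_contra hcon
      refine r2 ?_ h
      omega
    · rintro ⟨h1, h2⟩
      exact r1 h1 h2
  have hF : (S ∩ Finset.univ.image b).card ≤ 15 := by
    calc (S ∩ Finset.univ.image b).card ≤ (Finset.univ.image b).card :=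
          Finset.card_le_card Finset.inter_subset_right
      _ ≤ (Finset.univ : Finset (ZMod 15)).card := Finset.card_image_le
      _ = 15 := by rw [Finset.card_univ, ZMod.card]
  have s4 : SLin (30 * 2 * (c1 + 1 + 1)) G (S \ (S ∩ Finset.univ.image b)) := by
    refine s3.subset ?_
    intro v hv
    rw [Finset.mem_sdiff, Finset.mem_inter] at hv
    have hvS := hv.1
    have hnbv : nb v := by
      intro q hq
      exact hv.2 ⟨hvS, Finset.mem_image.2 ⟨q, Finset.mem_univ _, hq.symm⟩⟩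
    have hlt : (pos v).val < 30 := ZMod.val_lt _
    have hcases : (1 ≤ (pos v).val ∧ (pos v).val ≤ 9) ∨ (11 ≤ (pos v).val ∧ (pos v).val ≤ 19) ∨
        (21 ≤ (pos v).val ∧ (pos v).val ≤ 29) ∨
        ((pos v).val = 0 ∨ (pos v).val = 10 ∨ (pos v).val = 20) := by omega
    rw [Finset.mem_union, Finset.mem_union, Finset.mem_union]
    rcases hcases with h | h | h | h
    · exact Or.inl (Or.inl (Or.inl (Finset.mem_filter.2 ⟨hvS, hnbv, h⟩)))
    · exact Or.inl (Or.inl (Or.inr (Finset.mem_filter.2 ⟨hvS, hnbv, h⟩)))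
    · exact Or.inl (Or.inr (Finset.mem_filter.2 ⟨hvS, hnbv, h⟩))
    · exact Or.inr (Finset.mem_filter.2 ⟨hvS, hnbv, h⟩)
  exact (s4.add).mono_k (Nat.add_le_add_left hF _)

end P2F2

end Pool.Agent.Helper856.Cw
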