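import Pool.Agent.Helper856.Pair.Defs

open Classical SimpleGraph

namespace Pool.Agent.Helper856.Cw

namespace PatF2

variable {V : Type} {G : SimpleGraph V} {S T : Finset V} {k l : ℕ}

/-- coordinates of a point on the circle -/
def cI (q : ZMod 15) : Fin 5 := ⟨q.val % 5, Nat.mod_lt _ (by norm_num)⟩

def cX (q : ZMod 15) : Fin 3 := ⟨q.val / 5 % 3, Nat.mod_lt _ (by norm_num)⟩

set_option maxRecDepth 100000 in
theorem circ_dec : ∀ p q : ZMod 15, ((cI p = cI q ∧ cX p ≠ cX q) ∨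
    (cI p < cI q ∧ cX q = cX p + 1) ∨ (cI q < cI p ∧ cX p = cX q + 1)) ↔
    (5 ≤ (q - p).val ∧ (q - p).val ≤ 10) := by
  decide

/-- TARGET -/
theorem pat_f2 (hd : NoDia G) (hf : NoP1P5 G) {t : Fin 5 → Fin 3 → V} {P : Fin 3 → Fin 3 → Prop}
    (ht : PTri G S t) (hP : ∀ i j a b, i < j → (G.Adj (t i a) (t j b) ↔ P a b)) (h0 : ∀ a, ¬P a a)
    (h1 : ∀ a b c, P a b → P a c → b = c) (h2 : ∀ a b c, P a c → P b c → a = b) :
    (∀ a b, ¬P a b) ∨ (∃ b : ZMod 15 → V, CB G b) := by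
  have hadj : ∀ i j x y, G.Adj (t i x) (t j y) ↔
      (i = j ∧ x ≠ y) ∨ (i < j ∧ P x y) ∨ (j < i ∧ P y x) := by
    intro i j x y
    rcases lt_trichotomy i j with h | h | h
    · rw [hP i j x y h]
      constructor
      · intro h3; exact Or.inr (Or.inl ⟨h, h3⟩)
      · rintro (⟨h3, _⟩ | ⟨_, h3⟩ | ⟨h3, _⟩)
        · exact absurd h3 h.ne
        · exact h3
        · exact absurd h3 h.asymm
    · subst h
      constructor
      · intro h3
        refine Or.inl ⟨rfl, ?_⟩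
        rintro rfl
        exact G.loopless.irrefl _ h3
      · rintro (⟨_, h3⟩ | ⟨h3, _⟩ | ⟨h3, _⟩)
        · exact ht.2.1 i x y h3
        · exact absurd h3 (lt_irrefl _)
        · exact absurd h3 (lt_irrefl _)
    · rw [SimpleGraph.adj_comm, hP j i y x h]
      constructor
      · intro h3; exact Or.inr (Or.inr ⟨h, h3⟩)
      · rintro (⟨h3, _⟩ | ⟨h3, _⟩ | ⟨_, h3⟩)
        · exact absurd h3 h.ne'
        · exact absurd h3 h.asymm
        · exact h3
  -- two pairs in a row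
  have hB : ∀ a b c : Fin 3, a ≠ b → a ≠ c → b ≠ c → P a b → P b c → ¬P c a → False := by
    intro a b c hab hac hbc p1 p2 p3
    have n1 : ¬P a c := fun h => hbc (h1 a b c p1 h)
    have n2 : ¬P b a := fun h => hac (h1 b a c h p2)
    have n3 : ¬P c b := fun h => hac (h2 a c b p1 h)
    have na := h0 a
    have nb := h0 b
    have nc := h0 c
    refine hf (t 0 c) (t 1 b) (t 2 c) (t 2 a) (t 3 b) (t 3 a) ?_ ?_ ?_ ?_ ?_ ?_ ?_ ?_ ?_ ?_ ?_ ?_
      ?_ ?_ ?_ <;> rw [hadj] <;>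
      simp [p1, p2, p3, n1, n2, n3, na, nb, nc, hab, hac, hbc, hab.symm, hac.symm, hbc.symm]
  by_cases hne : ∀ a b, ¬P a b
  · exact Or.inl hne
  right
  push Not at hne
  obtain ⟨a, b, hPab⟩ := hne
  have hab : a ≠ b := by rintro rfl; exact h0 _ hPab
  have hex : ∀ a b : Fin 3, ∃ c : Fin 3, c ≠ a ∧ c ≠ b := by decide
  obtain ⟨c, hca, hcb⟩ := hex a b
  have n1 : ¬P a c := fun h => hcb (h1 a b c hPab h).symm
  have n3 : ¬P c b := fun h => hca (h2 a c b hPab h).symm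
  have na := h0 a
  have nb := h0 b
  have nc := h0 c
  by_cases hba : P b a
  · exfalso
    have n4 : ¬P b c := fun h => hca (h1 b a c hba h).symm
    have n5 : ¬P c a := fun h => hcb (h2 b c a hba h).symm
    refine hf (t 0 c) (t 1 c) (t 1 a) (t 2 b) (t 3 a) (t 3 c) ?_ ?_ ?_ ?_ ?_ ?_ ?_ ?_ ?_ ?_ ?_ ?_
      ?_ ?_ ?_ <;> rw [hadj] <;>
      simp [hPab, hba, n1, n3, n4, n5, na, nb, nc, hab, hca, hcb, hab.symm, hca.symm, hcb.symm]
  by_cases hbc : P b c
  · by_cases hca' : P c a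
    · -- three cycle
      obtain ⟨σ, hσ⟩ : ∃ σ : Fin 3 → Fin 3, σ = ![a, b, c] := ⟨_, rfl⟩
      have hs : ∀ x y : Fin 3, P (σ x) (σ y) ↔ y = x + 1 := by
        intro x y
        rw [hσ]
        fin_cases x <;> fin_cases y <;> simp [hPab, hbc, hca', n1, n3, na, nb, nc, hba]
      have hσi : ∀ x y : Fin 3, σ x ≠ σ y ↔ x ≠ y := by
        intro x y
        rw [hσ]
        fin_cases x <;> fin_cases y <;> simp [hab, hca, hcb, hab.symm, hca.symm, hcb.symm]
      refine ⟨fun q => t (cI q) (σ (cX q)), ?_⟩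
      intro p q
      rw [hadj, hs, hs, hσi]
      exact circ_dec p q
    · exact (hB a b c hab hca.symm hcb.symm hPab hbc hca').elim
  · by_cases hca' : P c a
    · exact (hB c a b hca hcb hab hca' hPab hbc).elim
    · exfalso
      refine hf (t 0 b) (t 1 b) (t 1 a) (t 3 b) (t 2 a) (t 2 c) ?_ ?_ ?_ ?_ ?_ ?_ ?_ ?_ ?_ ?_ ?_ ?_
        ?_ ?_ ?_ <;> rw [hadj] <;>
        simp [hPab, hba, hbc, hca', n1, n3, na, nb, nc, hab, hca, hcb, hab.symm, hca.symm,
          hcb.symm]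

end PatF2

end Pool.Agent.Helper856.Cw
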