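import Pool.Agent.Helper856.Pair.Defs

open Classical SimpleGraph

namespace Pool.Agent.Helper856.Cw

namespace Modules

variable {V : Type} {G : SimpleGraph V} {S T : Finset V} {k l : ℕ}

theorem lex_lt {a b s r M : ℕ} (hb : b < M) (hr : r < M) :
    a * M + b < s * M + r ↔ a < s ∨ (a = s ∧ b < r) := by
  rcases lt_trichotomy a s with h | h | h
  · have h1 : (a + 1) * M ≤ s * M := Nat.mul_le_mul_right M h
    rw [add_mul, one_mul] at h1
    exact ⟨fun _ => Or.inl h, fun _ => by omega⟩
  · subst h
    constructor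
    · intro h1
      exact Or.inr ⟨rfl, by omega⟩
    · rintro (h1 | ⟨_, h1⟩)
      · exact absurd h1 (lt_irrefl _)
      · omega
  · have h1 : (s + 1) * M ≤ a * M := Nat.mul_le_mul_right M h
    rw [add_mul, one_mul] at h1
    constructor
    · intro h2
      omega
    · rintro (h2 | ⟨h2, _⟩) <;> omega

/-- TARGET -/
theorem slin_modules (f : V → V) (S' : Finset V) (hf : ∀ x ∈ S, f x ∈ S')
    (hadj : ∀ u ∈ S, ∀ w ∈ S, f u ≠ f w → (G.Adj u w ↔ G.Adj (f u) (f w)))
    (hS' : SLin k G S') (hin : ∀ x ∈ S', SLin l G (S.filter (fun u => f u = x))) :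
    SLin (k + l) G S := by
  obtain ⟨p, hp, hpc⟩ := hS'
  have hq : ∀ x, ∃ q : V → ℕ, x ∈ S' → (Set.InjOn q (S.filter (fun u => f u = x)) ∧
      ∀ t : ℕ, ∃ c : V → Fin l, ∀ u ∈ S.filter (fun u => f u = x), ∀ v ∈ S.filter (fun u => f u = x),
        q u < t → q v < t → c u = c v → ∀ w ∈ S.filter (fun u => f u = x), t ≤ q w →
          (G.Adj u w ↔ G.Adj v w)) := by
    intro x
    by_cases hx : x ∈ S'
    · obtain ⟨q, h1, h2⟩ := hin x hx
      exact ⟨q, fun _ => ⟨h1, h2⟩⟩
    · exact ⟨fun _ => 0, fun h => absurd h hx⟩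
  choose q hq using hq
  set M : ℕ := S.sup (fun u => q (f u) u) + 1 with hM
  have hqM : ∀ u ∈ S, q (f u) u < M := by
    intro u hu
    have := Finset.le_sup (f := fun u => q (f u) u) hu
    omega
  have hM0 : 0 < M := by omega
  refine ⟨fun u => p (f u) * M + q (f u) u, ?_, ?_⟩
  · intro u hu v hv huv
    have huS : u ∈ S := hu
    have hvS : v ∈ S := hv
    simp only at huv
    have b1 := hqM u huS
    have b2 := hqM v hvS
    have h1 : ¬ p (f u) < p (f v) := by
      intro h
      have h2 := (lex_lt (a := p (f u)) (s := p (f v)) b1 b2).2 (Or.inl h)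
      omega
    have h2 : ¬ p (f v) < p (f u) := by
      intro h
      have h2 := (lex_lt (a := p (f v)) (s := p (f u)) b2 b1).2 (Or.inl h)
      omega
    have h3 : p (f u) = p (f v) := by omega
    have h4 : f u = f v := hp (hf u huS) (hf v hvS) h3
    have h5 : q (f v) u = q (f v) v := by
      rw [h4] at huv
      omega
    exact (hq (f v) (hf v hvS)).1 (Finset.mem_coe.2 (Finset.mem_filter.2 ⟨huS, h4⟩))
      (Finset.mem_coe.2 (Finset.mem_filter.2 ⟨hvS, rfl⟩)) h5
  · intro t
    obtain ⟨c, hc⟩ := hpc (t / M)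
    have hr : t % M < M := Nat.mod_lt t hM0
    have ht : t = (t / M) * M + t % M := by
      rw [mul_comm]
      exact (Nat.div_add_mod t M).symm
    generalize hs : t / M = s at *
    generalize hr' : t % M = r at *
    have early : ∀ u ∈ S, p (f u) * M + q (f u) u < t → p (f u) < s ∨ (p (f u) = s ∧ q (f u) u < r) := by
      intro u hu h
      rw [ht] at h
      exact (lex_lt (hqM u hu) hr).1 h
    have late : ∀ w ∈ S, t ≤ p (f w) * M + q (f w) w → s ≤ p (f w) ∧ (p (f w) = s → r ≤ q (f w) w) := by
      intro w hw h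
      have h1 : ¬ (p (f w) * M + q (f w) w < s * M + r) := by omega
      rw [lex_lt (hqM w hw) hr] at h1
      push Not at h1
      exact ⟨h1.1, h1.2⟩
    have outer : ∀ u ∈ S, ∀ v ∈ S, p (f u) < s → p (f v) < s → c (f u) = c (f v) → ∀ w ∈ S,
        s ≤ p (f w) → (G.Adj u w ↔ G.Adj v w) := by
      intro u hu v hv h1 h2 h3 w hw h4
      have n1 : f u ≠ f w := fun h => by rw [h] at h1; omega
      have n2 : f v ≠ f w := fun h => by rw [h] at h2; omega
      rw [hadj u hu w hw n1, hadj v hv w hw n2]
      exact hc (f u) (hf u hu) (f v) (hf v hv) h1 h2 h3 (f w) (hf w hw) h4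
    by_cases hx : ∃ x ∈ S', p x = s
    · obtain ⟨x, hxS, hxs⟩ := hx
      obtain ⟨c', hc'⟩ := (hq x hxS).2 r
      refine ⟨fun u => if p (f u) = s then Fin.natAdd k (c' u) else Fin.castAdd l (c (f u)), ?_⟩
      intro u hu v hv hut hvt huv w hw hwt
      simp only at huv hut hvt hwt
      obtain ⟨l1, l2⟩ := late w hw hwt
      rcases early u hu hut with e1 | ⟨e1, e1'⟩ <;> rcases early v hv hvt with e2 | ⟨e2, e2'⟩
      · rw [if_neg e1.ne, if_neg e2.ne] at huv
        exact outer u hu v hv e1 e2 (Fin.castAdd_injective k l huv) w hw l1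
      · exfalso
        rw [if_neg e1.ne, if_pos e2] at huv
        have h5 := congrArg Fin.val huv
        rw [Fin.val_castAdd, Fin.val_natAdd] at h5
        have := (c (f u)).isLt
        omega
      · exfalso
        rw [if_pos e1, if_neg e2.ne] at huv
        have h5 := congrArg Fin.val huv
        rw [Fin.val_castAdd, Fin.val_natAdd] at h5
        have := (c (f v)).isLt
        omega
      · rw [if_pos e1, if_pos e2] at huv
        have fu : f u = x := hp (hf u hu) hxS (e1.trans hxs.symm)
        have fv : f v = x := hp (hf v hv) hxS (e2.trans hxs.symm)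
        rw [fu] at e1'
        rw [fv] at e2'
        have hcc : c' u = c' v := Fin.natAdd_injective l k huv
        by_cases hfw : f w = x
        · have h6 := l2 (by rw [hfw]; exact hxs)
          rw [hfw] at h6
          exact hc' u (Finset.mem_filter.2 ⟨hu, fu⟩) v (Finset.mem_filter.2 ⟨hv, fv⟩) e1' e2' hcc w
            (Finset.mem_filter.2 ⟨hw, hfw⟩) h6
        · rw [hadj u hu w hw (by rw [fu]; exact Ne.symm hfw),
            hadj v hv w hw (by rw [fv]; exact Ne.symm hfw), fu, fv]
    · push Not at hx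
      refine ⟨fun u => Fin.castAdd l (c (f u)), ?_⟩
      intro u hu v hv hut hvt huv w hw hwt
      obtain ⟨l1, l2⟩ := late w hw hwt
      have e1 : p (f u) < s := by
        rcases early u hu hut with h | ⟨h, _⟩
        · exact h
        · exact absurd h (hx _ (hf u hu))
      have e2 : p (f v) < s := by
        rcases early v hv hvt with h | ⟨h, _⟩
        · exact h
        · exact absurd h (hx _ (hf v hv))
      exact outer u hu v hv e1 e2 (Fin.castAdd_injective k l huv) w hw l1

end Modules

end Pool.Agent.Helper856.Cw
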