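import Pool.Agent.Helper856.Pair.Defs
import Pool.Agent.Helper856.Cw.Basic
import Pool.Agent.Helper856.Pair.Modules
import Pool.Agent.Helper856.Pair.ConnT

open Classical SimpleGraph

namespace Pool.Agent.Helper856.Cw

open Modules (slin_modules)
open ConnT (slin_conn)

namespace TwinRed

variable {V : Type} {G : SimpleGraph V} {S T : Finset V} {k l : ℕ}

theorem twin_red_clq {F : Finset V} (hF : Clq G F) : SLin 1 G F := by
  refine ⟨fun v => if h : v ∈ F then (F.equivFin ⟨v, h⟩ : ℕ) else 0, ?_, ?_⟩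
  · intro a ha b hb hab
    have ha' : a ∈ F := ha
    have hb' : b ∈ F := hb
    simp only [dif_pos ha', dif_pos hb'] at hab
    have h1 := F.equivFin.injective (Fin.ext hab)
    exact congrArg Subtype.val h1
  · intro t
    refine ⟨fun _ => 0, ?_⟩
    intro u hu v hv hut hvt _ w hw hwt
    have hwu : u ≠ w := by
      rintro rfl
      exact absurd hut (not_lt.2 hwt)
    have hwv : v ≠ w := by
      rintro rfl
      exact absurd hvt (not_lt.2 hwt)
    exact ⟨fun _ => hF v hv w hw hwv, fun _ => hF u hu w hw hwu⟩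

theorem twin_red_step {c : ℕ} (h : ∀ T ⊆ S, Conn G T → TwinFree G T → SLin c G T)
    (hT : T ⊆ S) (hc : Conn G T) : SLin (c + 1) G T := by
  obtain ⟨N, hN⟩ : ∃ N : V → Finset V, ∀ u w, w ∈ N u ↔ w ∈ T ∧ (w = u ∨ G.Adj w u) :=
    ⟨fun u => T.filter (fun w => w = u ∨ G.Adj w u), fun u w => Finset.mem_filter⟩
  obtain ⟨f, hfdef⟩ : ∃ f : V → V, f = fun x =>
      @Classical.epsilon V ⟨x⟩ (fun y => y ∈ T ∧ N y = N x) := ⟨_, rfl⟩
  have hfe : ∀ x x', N x = N x' → f x = f x' := by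
    intro x x' hx
    rw [hfdef]
    show @Classical.epsilon V ⟨x⟩ (fun y => y ∈ T ∧ N y = N x) =
      @Classical.epsilon V ⟨x'⟩ (fun y => y ∈ T ∧ N y = N x')
    rw [hx]
  have hfs : ∀ x ∈ T, f x ∈ T ∧ N (f x) = N x := by
    intro x hx
    have h1 := @Classical.epsilon_spec_aux V ⟨x⟩ (fun y => y ∈ T ∧ N y = N x) ⟨x, hx, rfl⟩
    rw [hfdef]
    exact h1
  have hff : ∀ x ∈ T, f (f x) = f x := fun x hx => hfe _ _ (hfs x hx).2
  have hself : ∀ x ∈ T, x ∈ N x := fun x hx => (hN x x).2 ⟨hx, Or.inl rfl⟩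
  have hadj : ∀ u ∈ T, ∀ w ∈ T, f u ≠ f w → (G.Adj u w ↔ G.Adj (f u) (f w)) := by
    intro u hu w hw hne
    have h1 : u ≠ w := fun e => hne (by rw [e])
    have h2 : u ≠ f w := fun e => hne (by rw [e, hff w hw])
    have a1 : G.Adj u w ↔ u ∈ N w := by
      rw [hN]
      exact ⟨fun h => ⟨hu, Or.inr h⟩, fun h => h.2.resolve_left h1⟩
    have a2 : u ∈ N (f w) ↔ G.Adj u (f w) := by
      rw [hN]
      exact ⟨fun h => h.2.resolve_left h2, fun h => ⟨hu, Or.inr h⟩⟩
    have a3 : G.Adj (f w) u ↔ f w ∈ N u := by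
      rw [hN]
      exact ⟨fun h => ⟨(hfs w hw).1, Or.inr h⟩, fun h => h.2.resolve_left h2.symm⟩
    have a4 : f w ∈ N (f u) ↔ G.Adj (f w) (f u) := by
      rw [hN]
      exact ⟨fun h => h.2.resolve_left (Ne.symm hne), fun h => ⟨(hfs w hw).1, Or.inr h⟩⟩
    rw [a1, ← (hfs w hw).2, a2, G.adj_comm, a3, ← (hfs u hu).2, a4, G.adj_comm]
  obtain ⟨S', hS'⟩ : ∃ S' : Finset V, S' = T.image f := ⟨_, rfl⟩
  have hS'T : S' ⊆ T := by
    intro x hx
    rw [hS'] at hx
    obtain ⟨y, hy, rfl⟩ := Finset.mem_image.1 hx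
    exact (hfs y hy).1
  have hS'f : ∀ x ∈ S', f x = x := by
    intro x hx
    rw [hS'] at hx
    obtain ⟨y, hy, rfl⟩ := Finset.mem_image.1 hx
    exact hff y hy
  have hfS' : ∀ x ∈ T, f x ∈ S' := fun x hx => by
    rw [hS']; exact Finset.mem_image_of_mem f hx
  have hconn : Conn G S' := by
    intro X hX hXn hXne
    have h1 : (T.filter fun x => f x ∈ X).Nonempty := by
      obtain ⟨x, hx⟩ := hXn
      exact ⟨x, Finset.mem_filter.2 ⟨hS'T (hX hx), by rw [hS'f x (hX hx)]; exact hx⟩⟩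
    have h2 : (T.filter fun x => f x ∈ X) ≠ T := by
      intro e
      apply hXne
      refine Finset.Subset.antisymm hX fun y hy => ?_
      have h3 : y ∈ T.filter fun x => f x ∈ X := by rw [e]; exact hS'T hy
      have h4 := (Finset.mem_filter.1 h3).2
      rwa [hS'f y hy] at h4
    obtain ⟨u, hu, v, hv, huv⟩ := hc _ (Finset.filter_subset _ _) h1 h2
    rw [Finset.mem_filter] at hu
    rw [Finset.mem_sdiff, Finset.mem_filter] at hv
    have hfv : f v ∉ X := fun e => hv.2 ⟨hv.1, e⟩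
    refine ⟨f u, hu.2, f v, Finset.mem_sdiff.2 ⟨hfS' v hv.1, hfv⟩, ?_⟩
    exact (hadj u hu.1 v hv.1 (fun e => hfv (e ▸ hu.2))).1 huv
  have key : ∀ u ∈ S', ∀ v ∈ S', G.Adj u v → ∀ w, w ∈ N u → w ∉ N v →
      ∃ w ∈ S', w ≠ u ∧ w ≠ v ∧ (G.Adj w u ∧ ¬G.Adj w v) := by
    intro u hu v hv huv w hwu hwv
    have hwT : w ∈ T := ((hN u w).1 hwu).1
    have b1 : w ≠ v := fun e => hwv ((hN v w).2 ⟨hwT, Or.inl e⟩)
    have b2 : ¬ G.Adj w v := fun e => hwv ((hN v w).2 ⟨hwT, Or.inr e⟩)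
    have b3 : w ≠ u := fun e => b2 (e ▸ huv)
    have b4 : G.Adj w u := ((hN u w).1 hwu).2.resolve_left b3
    have c1 : f w ≠ u := by
      intro e
      have h1 : N w = N u := by rw [← (hfs w hwT).2, e]
      have h2 : v ∈ N w := by
        rw [h1]
        exact (hN u v).2 ⟨hS'T hv, Or.inr huv.symm⟩
      rcases ((hN w v).1 h2).2 with h3 | h3
      · exact b1 h3.symm
      · exact b2 h3.symm
    have c2 : f w ≠ v := by
      intro e
      apply hwv
      rw [← e, (hfs w hwT).2]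
      exact hself w hwT
    refine ⟨f w, hfS' w hwT, c1, c2, ?_, ?_⟩
    · have := (hadj w hwT u (hS'T hu) (by rw [hS'f u hu]; exact c1)).1 b4
      rwa [hS'f u hu] at this
    · intro e
      apply b2
      refine (hadj w hwT v (hS'T hv) (by rw [hS'f v hv]; exact c2)).2 ?_
      rw [hS'f v hv]; exact e
  have htw : TwinFree G S' := by
    intro u hu v hv huv
    have hne : N u ≠ N v := by
      intro e
      have := hfe u v e
      rw [hS'f u hu, hS'f v hv] at this
      exact G.ne_of_adj huv this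
    by_cases h1 : ∀ w, w ∈ N u → w ∈ N v
    · have h2 : ∃ w, w ∈ N v ∧ w ∉ N u := by
        by_contra hcon
        push Not at hcon
        exact hne (Finset.ext fun w => ⟨h1 w, hcon w⟩)
      obtain ⟨w, hw1, hw2⟩ := h2
      obtain ⟨w', a, b, c', d, e⟩ := key v hv u hu huv.symm w hw1 hw2
      exact ⟨w', a, c', b, Or.inr ⟨e, d⟩⟩
    · push Not at h1
      obtain ⟨w, hw1, hw2⟩ := h1
      obtain ⟨w', a, b, c', d, e⟩ := key u hu v hv huv w hw1 hw2
      exact ⟨w', a, b, c', Or.inl ⟨d, e⟩⟩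
  refine slin_modules f S' hfS' hadj (h S' (hS'T.trans hT) hconn htw) ?_
  intro x hx
  apply twin_red_clq
  intro u hu v hv huv
  rw [Finset.mem_filter] at hu hv
  have h1 : N u = N v := by
    rw [← (hfs u hu.1).2, ← (hfs v hv.1).2, hu.2, hv.2]
  have h2 : u ∈ N v := by rw [← h1]; exact hself u hu.1
  exact ((hN v u).1 h2).2.resolve_left huv

/-- TARGET -/
theorem twin_red {c : ℕ} (h : ∀ T ⊆ S, Conn G T → TwinFree G T → SLin c G T) :
    SLin (c + 3) G S := by
  have h1 : SLinN (c + 1) G S := slin_conn fun T hT hc => (twin_red_step h hT hc).toN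
  exact (h1.toS).mono_k (by omega)

end TwinRed

end Pool.Agent.Helper856.Cw
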