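import Pool.Agent.Helper856.Pair.Defs
import Pool.Agent.Helper856.Cw.Basic
import Pool.Agent.Helper856.Pair.TwinRed
import Pool.Agent.Helper856.Pair.TriPack
import Pool.Agent.Helper856.Pair.Pattern
import Pool.Agent.Helper856.Pair.PatF2
import Pool.Agent.Helper856.Pair.P0Paws
import Pool.Agent.Helper856.Pair.P0Conn
import Pool.Agent.Helper856.Pair.P2F2
import Pool.Agent.Helper856.Pair.BcMain

open Classical SimpleGraph

namespace Pool.Agent.Helper856.Cw

open TwinRed (twin_red)
open TriPack (tri_pack)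
open Pattern (pattern)
open PatF2 (pat_f2)
open P0Paws (p0_paws)
open P0Conn (p0_conn)
open P2F2 (p2_f2)
open BcMain (bc_main)

namespace F2Main

variable {V : Type} {G : SimpleGraph V} {S T : Finset V} {k l : ℕ}

/-- TARGET -/
theorem f2_main (k : ℕ) : ∃ c, ∀ (V : Type) (G : SimpleGraph V) (S : Finset V), NoDia G →
    NoP1P5 G → (∀ T ⊆ S, TriT G T → SLin k G T) → SLin c G S := by
  obtain ⟨m, cb, hbc⟩ := bc_main
  obtain ⟨N, hN⟩ := pattern m 40
  obtain ⟨cp, hcp⟩ := p2_f2 k
  refine ⟨max cb (max (k + 3 * N) cp) + 3, ?_⟩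
  intro V G S hd hf hk
  apply twin_red
  intro T hT hconn htw
  by_cases hK : ∃ K0 ⊆ T, Clq G K0 ∧ m ≤ K0.card
  · obtain ⟨K0, hK0, hclq, hcard⟩ := hK
    exact (hbc V G T K0 hd hf hconn htw hK0 hclq hcard).mono_k (le_max_left _ _)
  · have hKK : ∀ K ⊆ T, Clq G K → K.card < m := by
      intro K hKT hclq
      by_contra hlt
      exact hK ⟨K, hKT, hclq, not_lt.mp hlt⟩
    rcases tri_pack (G := G) N T with ⟨D, hD, hTri⟩ | ⟨t, ht⟩
    · have h1 : SLin k G (T \ D) := hk (T \ D) (Finset.sdiff_subset.trans hT) hTri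
      have h2 : SLin (k + D.card) G T := SLin.add D h1
      apply h2.mono_k
      exact (Nat.add_le_add_left hD k).trans ((le_max_left _ _).trans (le_max_right _ _))
    · obtain ⟨t', P, ht', hP, h0, h1, h2⟩ := hN V G T hd hKK t ht
      have ht5 : PTri G T (fun i : Fin 5 => t' (Fin.castLE (by norm_num) i)) := by
        refine ⟨fun i a => ht'.1 _ a, fun i a b hab => ht'.2.1 _ a b hab, ?_⟩
        intro i j a b hij
        have h3 := ht'.2.2 _ _ a b hij
        exact Fin.castLE_injective _ h3
      rcases pat_f2 hd hf ht5 (P := P) (fun i j a b hij => hP _ _ a b (by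
          simpa using hij)) h0 h1 h2 with h4 | ⟨b, hb⟩
      · exfalso
        have h0' : ∀ i j a b, i ≠ j → ¬G.Adj (t' i a) (t' j b) := by
          intro i j a b hij hadj
          rcases lt_or_gt_of_ne hij with h | h
          · exact h4 a b ((hP i j a b h).mp hadj)
          · exact h4 b a ((hP j i b a h).mp hadj.symm)
        obtain ⟨t4, s, hpaws⟩ := p0_paws hd hf htw ht' h0'
        exact p0_conn hd hf hconn hpaws
      · have h5 := hcp V G T b hd hf hb (fun T' hT' htri => hk T' (hT'.trans hT) htri)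
        exact h5.mono_k ((le_max_right _ _).trans (le_max_right _ _))

end F2Main

end Pool.Agent.Helper856.Cw
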