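import Pool.Agent.Helper856.Pair.Defs

open Classical SimpleGraph

namespace Pool.Agent.Helper856.Cw

namespace Compl

variable {V : Type} {G : SimpleGraph V} {S T : Finset V} {k l : ℕ}

/-- TARGET -/
theorem slin_compl (h : SLin k G S) : SLin k Gᶜ S := by
  obtain ⟨p, hp, h⟩ := h
  refine ⟨p, hp, fun t => ?_⟩
  obtain ⟨c, hc⟩ := h t
  refine ⟨c, fun u hu v hv hut hvt huv w hw htw => ?_⟩
  have h1 : u ≠ w := by
    rintro rfl
    omega
  have h2 : v ≠ w := by
    rintro rfl
    omega
  rw [SimpleGraph.compl_adj, SimpleGraph.compl_adj, hc u hu v hv hut hvt huv w hw htw]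
  simp [h1, h2]

end Compl

end Pool.Agent.Helper856.Cw
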