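import Pool.Agent.Helper856.Pair.Defs

open Classical SimpleGraph

namespace Pool.Agent.Helper856.Cw

namespace SBase

variable {V : Type} {G : SimpleGraph V} {S T : Finset V} {k l : ℕ}

/-- TARGET -/
theorem nofc_compl (h : No2P1P3 G) : NoFc Gᶜ := by
  intro p q a b c hpq hpa hpb hpc hqa hqb hqc hac hab hbc
  rw [SimpleGraph.compl_adj] at hpq hpa hpb hpc hqa hqb hqc hac hab hbc
  have h1 : a ≠ b := by
    rintro rfl
    exact hbc hac
  have h2 : b ≠ c := by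
    rintro rfl
    exact hab hac
  have h3 : G.Adj a b := by
    by_contra hn
    exact hab ⟨h1, hn⟩
  have h4 : G.Adj b c := by
    by_contra hn
    exact hbc ⟨h2, hn⟩
  exact h p q a b c h3 h4 hac.1 hpq.1 hac.2 hpq.2 hpa.2 hpb.2 hpc.2 hqa.2 hqb.2 hqc.2

/-- TARGET -/
theorem no2p1p3_compl (h : NoFc G) : No2P1P3 Gᶜ := by
  intro p q a b c hab hbc hac hpq nac npq npa npb npc nqa nqb nqc
  have key : ∀ x y : V, x ≠ y → ¬ Gᶜ.Adj x y → G.Adj x y := by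
    intro x y hxy hn
    by_contra hc
    exact hn ((SimpleGraph.compl_adj G x y).2 ⟨hxy, hc⟩)
  have hne : ∀ x : V, ¬ Gᶜ.Adj x a → ¬ Gᶜ.Adj x b → ¬ Gᶜ.Adj x c → x ≠ a ∧ x ≠ b ∧ x ≠ c := by
    intro x h1 h2 h3
    refine ⟨?_, ?_, ?_⟩
    · rintro rfl
      exact h2 hab
    · rintro rfl
      exact h3 hbc
    · rintro rfl
      exact h2 hbc.symm
  obtain ⟨p1, p2, p3⟩ := hne p npa npb npc
  obtain ⟨q1, q2, q3⟩ := hne q nqa nqb nqc
  exact h p q a b c (key _ _ hpq npq) (key _ _ p1 npa) (key _ _ p2 npb) (key _ _ p3 npc)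
    (key _ _ q1 nqa) (key _ _ q2 nqb) (key _ _ q3 nqc) (key _ _ hac nac)
    ((SimpleGraph.compl_adj G a b).1 hab).2 ((SimpleGraph.compl_adj G b c).1 hbc).2

/-- TARGET -/
theorem cl_vertex (h : NoFc G) {K : Finset V} (hK : Clq G K) {v : V} (hv : v ∉ K) :
    (nb G K v).card ≤ 1 ∨ (K.filter (fun x => ¬G.Adj v x)).card ≤ 1 := by
  by_contra hcon
  push Not at hcon
  obtain ⟨h1, h2⟩ := hcon
  rw [Finset.one_lt_card] at h1 h2
  obtain ⟨p, hp, q, hq, hpq⟩ := h1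
  obtain ⟨a, ha, c, hc, hac⟩ := h2
  unfold nb at hp hq
  rw [Finset.mem_filter] at hp hq ha hc
  have hne : ∀ x y : V, G.Adj v x → ¬ G.Adj v y → x ≠ y := by
    rintro x y h1 h2 rfl
    exact h2 h1
  exact h p q a v c (hK p hp.1 q hq.1 hpq) (hK p hp.1 a ha.1 (hne _ _ hp.2 ha.2)) hp.2.symm
    (hK p hp.1 c hc.1 (hne _ _ hp.2 hc.2)) (hK q hq.1 a ha.1 (hne _ _ hq.2 ha.2)) hq.2.symm
    (hK q hq.1 c hc.1 (hne _ _ hq.2 hc.2)) (hK a ha.1 c hc.1 hac) (fun h => ha.2 h.symm) hc.2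

/-- TARGET -/
theorem in_vertex (h : No2P1P3 G) {P : Finset V} (hP : ∀ x ∈ P, ∀ y ∈ P, ¬G.Adj x y) {v : V} :
    (nb G P v).card ≤ 1 ∨ (P.filter (fun x => ¬G.Adj v x)).card ≤ 1 := by
  by_contra hcon
  push Not at hcon
  obtain ⟨h1, h2⟩ := hcon
  rw [Finset.one_lt_card] at h1 h2
  obtain ⟨a, ha, c, hc, hac⟩ := h1
  obtain ⟨p, hp, q, hq, hpq⟩ := h2
  unfold nb at ha hc
  rw [Finset.mem_filter] at hp hq ha hc
  exact h p q a v c ha.2.symm hc.2 hac hpq (hP a ha.1 c hc.1) (hP p hp.1 q hq.1)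
    (hP p hp.1 a ha.1) (fun h => hp.2 h.symm) (hP p hp.1 c hc.1)
    (hP q hq.1 a ha.1) (fun h => hq.2 h.symm) (hP q hq.1 c hc.1)

end SBase

end Pool.Agent.Helper856.Cw
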