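import Pool.Agent.Helper856.Pair.Defs

open Classical SimpleGraph

namespace Pool.Agent.Helper856.Cw

namespace SClean

variable {V : Type} {G : SimpleGraph V} {S T : Finset V} {k l : ℕ}

theorem clean_claim (X Y A B : Finset V) (E : V → V → Prop) (hA : A ⊆ X) (hB : B ⊆ Y)
    (hA3 : 3 ≤ A.card) (h1 : ∀ x ∈ A, (Y.filter (fun y => E x y)).card ≤ 1)
    (h2 : ∀ y ∈ B, (X.filter (fun x => ¬E x y)).card ≤ 1) : B.card ≤ 1 := by
  by_contra hlt
  push Not at hlt
  rw [Finset.one_lt_card] at hlt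
  obtain ⟨y1, hy1, y2, hy2, hne⟩ := hlt
  have hex : ∃ x ∈ A, E x y1 ∧ E x y2 := by
    by_contra hno
    push Not at hno
    have hsub : A ⊆ X.filter (fun x => ¬E x y1) ∪ X.filter (fun x => ¬E x y2) := by
      intro x hx
      rw [Finset.mem_union, Finset.mem_filter, Finset.mem_filter]
      by_cases c : E x y1
      · exact Or.inr ⟨hA hx, hno x hx c⟩
      · exact Or.inl ⟨hA hx, c⟩
    have h3 := Finset.card_le_card hsub
    have h4 := Finset.card_union_le (X.filter (fun x => ¬E x y1)) (X.filter (fun x => ¬E x y2))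
    have h5 := h2 y1 hy1
    have h6 := h2 y2 hy2
    omega
  obtain ⟨x, hx, c1, c2⟩ := hex
  have h3 := h1 x hx
  rw [Finset.card_le_one] at h3
  exact hne (h3 y1 (Finset.mem_filter.mpr ⟨hB hy1, c1⟩) y2 (Finset.mem_filter.mpr ⟨hB hy2, c2⟩))

theorem clean_mono (Y D : Finset V) (P : V → Prop) [DecidablePred P] (h : (Y.filter P).card ≤ 1) :
    ((Y \ D).filter P).card ≤ 1 :=
  (Finset.card_le_card (Finset.filter_subset_filter _ Finset.sdiff_subset)).trans h

/-- TARGET -/
theorem clean (X Y : Finset V) (E : V → V → Prop)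
    (h1 : ∀ x ∈ X, (Y.filter (fun y => E x y)).card ≤ 1 ∨ (Y.filter (fun y => ¬E x y)).card ≤ 1)
    (h2 : ∀ y ∈ Y, (X.filter (fun x => E x y)).card ≤ 1 ∨ (X.filter (fun x => ¬E x y)).card ≤ 1) :
    ∃ D ⊆ X ∪ Y, D.card ≤ 6 ∧
      (((∀ x ∈ X \ D, ((Y \ D).filter (fun y => E x y)).card ≤ 1) ∧
        ∀ y ∈ Y \ D, ((X \ D).filter (fun x => E x y)).card ≤ 1) ∨
      ((∀ x ∈ X \ D, ((Y \ D).filter (fun y => ¬E x y)).card ≤ 1) ∧
        ∀ y ∈ Y \ D, ((X \ D).filter (fun x => ¬E x y)).card ≤ 1)) := by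
  by_cases hX : X.card ≤ 6
  · refine ⟨X, Finset.subset_union_left, hX, Or.inl ⟨?_, ?_⟩⟩
    · intro x hx
      rw [Finset.sdiff_self] at hx
      exact absurd hx (Finset.notMem_empty x)
    · intro y _
      rw [Finset.sdiff_self, Finset.filter_empty, Finset.card_empty]
      exact Nat.zero_le 1
  by_cases hY : Y.card ≤ 6
  · refine ⟨Y, Finset.subset_union_right, hY, Or.inl ⟨?_, ?_⟩⟩
    · intro y _
      rw [Finset.sdiff_self, Finset.filter_empty, Finset.card_empty]
      exact Nat.zero_le 1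
    · intro x hx
      rw [Finset.sdiff_self] at hx
      exact absurd hx (Finset.notMem_empty x)
  set Xs := X.filter (fun x => (Y.filter (fun y => E x y)).card ≤ 1) with hXs
  set Xc := X.filter (fun x => ¬ (Y.filter (fun y => E x y)).card ≤ 1) with hXc
  set Ys := Y.filter (fun y => (X.filter (fun x => E x y)).card ≤ 1) with hYs
  set Yc := Y.filter (fun y => ¬ (X.filter (fun x => E x y)).card ≤ 1) with hYc
  have eX : Xs.card + Xc.card = X.card := Finset.card_filter_add_card_filter_not _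
  have eY : Ys.card + Yc.card = Y.card := Finset.card_filter_add_card_filter_not _
  have sXs : Xs ⊆ X := Finset.filter_subset _ _
  have sXc : Xc ⊆ X := Finset.filter_subset _ _
  have sYs : Ys ⊆ Y := Finset.filter_subset _ _
  have sYc : Yc ⊆ Y := Finset.filter_subset _ _
  have pXs : ∀ x ∈ Xs, (Y.filter (fun y => E x y)).card ≤ 1 := fun x hx => (Finset.mem_filter.mp hx).2
  have pYs : ∀ y ∈ Ys, (X.filter (fun x => E x y)).card ≤ 1 := fun x hx => (Finset.mem_filter.mp hx).2
  have pXc : ∀ x ∈ Xc, (Y.filter (fun y => ¬E x y)).card ≤ 1 := by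
    intro x hx
    obtain ⟨hx1, hx2⟩ := Finset.mem_filter.mp hx
    exact (h1 x hx1).resolve_left hx2
  have pYc : ∀ y ∈ Yc, (X.filter (fun x => ¬E x y)).card ≤ 1 := by
    intro x hx
    obtain ⟨hx1, hx2⟩ := Finset.mem_filter.mp hx
    exact (h2 x hx1).resolve_left hx2
  have c1 : 3 ≤ Xs.card → Yc.card ≤ 1 := fun h => clean_claim X Y Xs Yc E sXs sYc h pXs pYc
  have c2 : 3 ≤ Xc.card → Ys.card ≤ 1 := fun h =>
    clean_claim X Y Xc Ys (fun x y => ¬ E x y) sXc sYs h (by
      intro x hx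
      convert pXc x hx) (by
      intro y hy
      simp only [not_not]
      exact pYs y hy)
  by_cases h3 : 3 ≤ Xs.card
  · have h4 := c1 h3
    have h5 : Xc.card ≤ 2 := by
      by_contra h6
      have := c2 (by omega)
      omega
    refine ⟨Xc ∪ Yc, Finset.union_subset_union sXc sYc, ?_, Or.inl ⟨?_, ?_⟩⟩
    · have := Finset.card_union_le Xc Yc
      omega
    · intro x hx
      apply clean_mono
      rw [Finset.mem_sdiff, Finset.mem_union] at hx
      by_contra h6
      exact hx.2 (Or.inl (Finset.mem_filter.mpr ⟨hx.1, h6⟩))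
    · intro x hx
      apply clean_mono
      rw [Finset.mem_sdiff, Finset.mem_union] at hx
      by_contra h6
      exact hx.2 (Or.inr (Finset.mem_filter.mpr ⟨hx.1, h6⟩))
  · have h4 : 3 ≤ Xc.card := by omega
    have h5 := c2 h4
    refine ⟨Xs ∪ Ys, Finset.union_subset_union sXs sYs, ?_, Or.inr ⟨?_, ?_⟩⟩
    · have := Finset.card_union_le Xs Ys
      omega
    · intro x hx
      apply clean_mono
      rw [Finset.mem_sdiff, Finset.mem_union] at hx
      apply pXc
      refine Finset.mem_filter.mpr ⟨hx.1, fun h6 => hx.2 (Or.inl (Finset.mem_filter.mpr ⟨hx.1, h6⟩))⟩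
    · intro x hx
      apply clean_mono
      rw [Finset.mem_sdiff, Finset.mem_union] at hx
      apply pYc
      refine Finset.mem_filter.mpr ⟨hx.1, fun h6 => hx.2 (Or.inr (Finset.mem_filter.mpr ⟨hx.1, h6⟩))⟩

end SClean

end Pool.Agent.Helper856.Cw
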