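import Pool.Agent.Helper856.Pair.Defs
import Pool.Agent.Helper856.Cw.Basic
import Pool.Agent.Helper856.Cw.Blocks
import Pool.Agent.Helper856.Pair.Induce
import Pool.Agent.Helper856.Pair.SBase
import Pool.Agent.Helper856.Pair.SClean
import Pool.Agent.Helper856.Pair.SPieces

open Classical SimpleGraph

namespace Pool.Agent.Helper856.Cw

open Induce (exists_inj)
open SBase (cl_vertex in_vertex)
open SClean (clean)
open SPieces (pieces)

namespace SCase1

variable {V : Type} {G : SimpleGraph V} {S T : Finset V} {k l : ℕ}

/-- TARGET -/
theorem s_case1 (h : NoFc G) (h' : No2P1P3 G) {K : Finset V} {m : V → V} (hk : KM G S K T m)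
    (hT : Clq G T) : SLin 26 G S := by
  obtain ⟨hKS, hTS, hKT, hKc, hmK, hmid, hmult, htp⟩ := hk
  obtain ⟨p0, hp0⟩ := exists_inj S
  have hmS : ∀ x ∈ S \ T, m x ∈ S := fun x hx => hKS (hmK x hx)
  let β : V → ℕ := fun x => if x ∈ T then
    (if hx : ∃ y ∈ S \ T, G.Adj x y then p0 (m hx.choose) else p0 x) else p0 (m x)
  let c : V → Fin 2 := fun x => if x ∈ T then 1 else 0
  have hβ0 : ∀ x, x ∉ T → β x = p0 (m x) := fun x hx => if_neg hx
  have hβ1 : ∀ x ∈ T, ∀ y ∈ S \ T, G.Adj x y → β x = p0 (m y) := by
    intro x hx y hy hxy
    have hex : ∃ y ∈ S \ T, G.Adj x y := ⟨y, hy, hxy⟩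
    have e1 : β x = p0 (m hex.choose) := by
      show (if x ∈ T then (if hx : ∃ y ∈ S \ T, G.Adj x y then p0 (m hx.choose) else p0 x)
        else p0 (m x)) = _
      rw [if_pos hx, dif_pos hex]
    rw [e1, htp x hx _ hex.choose_spec.1 y hy hex.choose_spec.2 hxy]
  have hc0 : ∀ x, x ∉ T → c x = 0 := fun x hx => if_neg hx
  have hc1 : ∀ x, x ∈ T → c x = 1 := fun x hx => if_pos hx
  have key : SLin (2 * (12 + 1)) G S := by
    refine SLin.blocks β c ?_ ?_
    · intro n
      set B : Finset V := S.filter (fun x => β x = n) with hB
      set P : Finset V := B.filter (fun x => x ∉ T) with hP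
      set T' : Finset V := B.filter (fun x => x ∈ T) with hT'
      have memP : ∀ x, x ∈ P ↔ x ∈ S ∧ β x = n ∧ x ∉ T := by
        intro x; simp only [hP, hB, Finset.mem_filter, and_assoc]
      have memT' : ∀ x, x ∈ T' ↔ x ∈ S ∧ β x = n ∧ x ∈ T := by
        intro x; simp only [hT', hB, Finset.mem_filter, and_assoc]
      have memB : ∀ x, x ∈ B ↔ x ∈ S ∧ β x = n := by
        intro x; simp only [hB, Finset.mem_filter]
      have hPind : ∀ x ∈ P, ∀ y ∈ P, ¬G.Adj x y := by
        intro x hx y hy hadj
        rw [memP] at hx hy
        have hx' : x ∈ S \ T := Finset.mem_sdiff.2 ⟨hx.1, hx.2.2⟩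
        have hy' : y ∈ S \ T := Finset.mem_sdiff.2 ⟨hy.1, hy.2.2⟩
        have e : m x = m y := by
          apply hp0 (hmS x hx') (hmS y hy')
          rw [← hβ0 x hx.2.2, ← hβ0 y hy.2.2, hx.2.1, hy.2.1]
        exact ((hmult x hx' y hy' hadj.ne).1 hadj) e
      have hT'c : Clq G T' := by
        intro x hx y hy hne
        rw [memT'] at hx hy
        exact hT x hx.2.2 y hy.2.2 hne
      obtain ⟨D, hDsub, hDcard, hD⟩ := clean P T' G.Adj (by
          intro x hx
          have hxT : x ∉ T' := by
            rw [memP] at hx
            rw [memT']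
            tauto
          exact cl_vertex h hT'c hxT) (by
          intro y hy
          have := in_vertex (G := G) h' (P := P) hPind (v := y)
          simpa only [nb, G.adj_comm y] using this)
      have hslin : SLin (2 * 3) G (B \ D) := by
        have main : ∀ b : Prop, (∀ x ∈ P \ D, ((T' \ D).filter (fun y => ¬(G.Adj x y ↔ b))).card ≤ 1) →
            (∀ y ∈ T' \ D, ((P \ D).filter (fun x => ¬(G.Adj x y ↔ b))).card ≤ 1) →
            SLin (2 * 3) G (B \ D) := by
          intro b h1 h2
          obtain ⟨Q, hQ⟩ : ∃ Q : Fin 2 → Fin 2 → Prop,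
              ∀ i j, Q i j ↔ ((i = 1 ∧ j = 1) ∨ (i ≠ j ∧ b)) := ⟨_, fun _ _ => Iff.rfl⟩
          refine pieces c Q ?_ ?_
          · intro i j hij
            rw [hQ] at hij ⊢
            rcases hij with hij | hij
            · exact Or.inl ⟨hij.2, hij.1⟩
            · exact Or.inr ⟨hij.1.symm, hij.2⟩
          · intro v hv
            rw [Finset.mem_sdiff, memB] at hv
            by_cases hvT : v ∈ T
            · have hv' : v ∈ T' \ D := by
                rw [Finset.mem_sdiff, memT']
                exact ⟨⟨hv.1.1, hv.1.2, hvT⟩, hv.2⟩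
              refine le_trans (Finset.card_le_card ?_) ((h2 v hv').trans (by norm_num))
              intro w hw
              rw [Finset.mem_filter, Finset.mem_sdiff, memB] at hw
              rw [Finset.mem_filter, Finset.mem_sdiff, memP]
              obtain ⟨⟨⟨hwS, hwn⟩, hwD⟩, hwv, hq⟩ := hw
              have hwT : w ∉ T := by
                intro hwT
                apply hq
                rw [hQ, hc1 v hvT, hc1 w hwT]
                simp only [and_self, true_or, iff_true]
                exact hT v hvT w hwT hwv.symm
              refine ⟨⟨⟨hwS, hwn, hwT⟩, hwD⟩, ?_⟩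
              rw [hQ, hc1 v hvT, hc0 w hwT] at hq
              rw [G.adj_comm w v]
              simpa using hq
            · have hv' : v ∈ P \ D := by
                rw [Finset.mem_sdiff, memP]
                exact ⟨⟨hv.1.1, hv.1.2, hvT⟩, hv.2⟩
              refine le_trans (Finset.card_le_card ?_) ((h1 v hv').trans (by norm_num))
              intro w hw
              rw [Finset.mem_filter, Finset.mem_sdiff, memB] at hw
              rw [Finset.mem_filter, Finset.mem_sdiff, memT']
              obtain ⟨⟨⟨hwS, hwn⟩, hwD⟩, hwv, hq⟩ := hw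
              have hwT : w ∈ T := by
                by_contra hwT
                apply hq
                rw [hQ, hc0 v hvT, hc0 w hwT]
                have : ¬G.Adj v w := by
                  apply hPind
                  · rw [memP]; exact ⟨hv.1.1, hv.1.2, hvT⟩
                  · rw [memP]; exact ⟨hwS, hwn, hwT⟩
                simpa using this
              refine ⟨⟨⟨hwS, hwn, hwT⟩, hwD⟩, ?_⟩
              rw [hQ, hc0 v hvT, hc1 w hwT] at hq
              simpa using hq
        rcases hD with ⟨h1, h2⟩ | ⟨h1, h2⟩
        · exact main False (by simpa using h1) (by simpa using h2)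
        · exact main True (by simpa using h1) (by simpa using h2)
      have := SLin.add D hslin
      exact SLin.mono_k this (by omega)
    · intro u hu v hv w hw huw hvw hcc
      by_cases hwT : w ∈ T
      · -- w in T
        have no : ∀ z ∈ S, z ∉ T → β z < β w → ¬G.Adj z w := by
          intro z hz hzT hlt hadj
          have := hβ1 w hwT z (Finset.mem_sdiff.2 ⟨hz, hzT⟩) hadj.symm
          rw [this, hβ0 z hzT] at hlt
          exact lt_irrefl _ hlt
        have yes : ∀ z ∈ T, β z < β w → G.Adj z w := by
          intro z hz hlt
          apply hT z hz w hwT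
          rintro rfl
          exact lt_irrefl _ hlt
        by_cases huT : u ∈ T
        · have hvT : v ∈ T := by
            by_contra hvT
            rw [hc1 u huT, hc0 v hvT] at hcc
            exact absurd hcc (by decide)
          exact iff_of_true (yes u huT huw) (yes v hvT hvw)
        · have hvT : v ∉ T := by
            intro hvT
            rw [hc0 u huT, hc1 v hvT] at hcc
            exact absurd hcc (by decide)
          exact iff_of_false (no u hu huT huw) (no v hv hvT hvw)
      · have hw' : w ∈ S \ T := Finset.mem_sdiff.2 ⟨hw, hwT⟩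
        have no : ∀ z ∈ T, β z < β w → ¬G.Adj z w := by
          intro z hz hlt hadj
          have := hβ1 z hz w hw' hadj
          rw [this, hβ0 w hwT] at hlt
          exact lt_irrefl _ hlt
        have yes : ∀ z ∈ S, z ∉ T → β z < β w → G.Adj z w := by
          intro z hz hzT hlt
          have hz' : z ∈ S \ T := Finset.mem_sdiff.2 ⟨hz, hzT⟩
          have hne : m z ≠ m w := by
            intro e
            rw [hβ0 z hzT, hβ0 w hwT, e] at hlt
            exact lt_irrefl _ hlt
          have hne' : z ≠ w := by
            rintro rfl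
            exact hne rfl
          exact (hmult z hz' w hw' hne').2 hne
        by_cases huT : u ∈ T
        · have hvT : v ∈ T := by
            by_contra hvT
            rw [hc1 u huT, hc0 v hvT] at hcc
            exact absurd hcc (by decide)
          exact iff_of_false (no u huT huw) (no v hvT hvw)
        · have hvT : v ∉ T := by
            intro hvT
            rw [hc0 u huT, hc1 v hvT] at hcc
            exact absurd hcc (by decide)
          exact iff_of_true (yes u hu huT huw) (yes v hv hvT hvw)
  exact key

end SCase1

end Pool.Agent.Helper856.Cw
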