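import Pool.Agent.Helper856.Pair.Defs

open Classical SimpleGraph

namespace Pool.Agent.Helper856.Cw

namespace SFacts

variable {V : Type} {G : SimpleGraph V} {S T : Finset V} {k l : ℕ}

theorem km_one {K : Finset V} {m : V → V} (hk : KM G S K T m) {t : V} (ht : t ∈ T) :
    (K.filter (fun k => G.Adj t k)).card ≤ 1 := by
  obtain ⟨h1, h2, h3, h4, h5, h6, h7, h8⟩ := hk
  rw [Finset.card_le_one]
  intro x hx y hy
  rw [Finset.mem_filter] at hx hy
  have hxs : x ∈ S \ T := Finset.mem_sdiff.2 ⟨h1 hx.1, Finset.disjoint_left.1 h3 hx.1⟩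
  have hys : y ∈ S \ T := Finset.mem_sdiff.2 ⟨h1 hy.1, Finset.disjoint_left.1 h3 hy.1⟩
  have := h8 t ht x hxs y hys hx.2 hy.2
  rwa [h6 x hx.1, h6 y hy.1] at this

theorem km_ex {K : Finset V} {m : V → V} (hk : KM G S K T m) (h8 : 8 ≤ K.card)
    {a b c d : V} (ha : a ∈ T) (hb : b ∈ T) (hc : c ∈ T) (hd : d ∈ T) (e : V) :
    ∃ k ∈ K, k ≠ e ∧ ¬G.Adj a k ∧ ¬G.Adj b k ∧ ¬G.Adj c k ∧ ¬G.Adj d k := by
  by_contra hcon
  push Not at hcon
  have hsub : K ⊆ {e} ∪ K.filter (fun k => G.Adj a k) ∪ K.filter (fun k => G.Adj b k) ∪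
      K.filter (fun k => G.Adj c k) ∪ K.filter (fun k => G.Adj d k) := by
    intro k hkK
    simp only [Finset.mem_union, Finset.mem_singleton, Finset.mem_filter]
    have := hcon k hkK
    tauto
  have h0 := Finset.card_le_card hsub
  have h1 := km_one hk ha
  have h2 := km_one hk hb
  have h3 := km_one hk hc
  have h4 := km_one hk hd
  have u1 := Finset.card_union_le ({e} ∪ K.filter (fun k => G.Adj a k) ∪
    K.filter (fun k => G.Adj b k) ∪ K.filter (fun k => G.Adj c k)) (K.filter (fun k => G.Adj d k))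
  have u2 := Finset.card_union_le ({e} ∪ K.filter (fun k => G.Adj a k) ∪
    K.filter (fun k => G.Adj b k)) (K.filter (fun k => G.Adj c k))
  have u3 := Finset.card_union_le ({e} ∪ K.filter (fun k => G.Adj a k))
    (K.filter (fun k => G.Adj b k))
  have u4 := Finset.card_union_le {e} (K.filter (fun k => G.Adj a k))
  rw [Finset.card_singleton] at u4
  omega

theorem km_mem {K : Finset V} {m : V → V} (hk : KM G S K T m) {x : V} (hx : x ∈ K) :
    x ∈ S \ T :=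
  Finset.mem_sdiff.2 ⟨hk.1 hx, Finset.disjoint_left.1 hk.2.2.1 hx⟩

theorem km_adj {K : Finset V} {m : V → V} (hk : KM G S K T m) {x q : V} (hx : x ∈ K)
    (hq : q ∈ S \ T) (hne : x ≠ m q) : G.Adj x q ∧ x ≠ q := by
  have hxx := hk.2.2.2.2.2.1 x hx
  have hne' : x ≠ q := by
    rintro rfl
    exact hne hxx.symm
  refine ⟨(hk.2.2.2.2.2.2.1 x (km_mem hk hx) q hq hne').2 ?_, hne'⟩
  rw [hxx]; exact hne

/-- TARGET -/
theorem km_c1 (h : No2P1P3 G) {K : Finset V} {m : V → V} (hk : KM G S K T m) (h8 : 8 ≤ K.card) :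
    NoP1P3T G T := by
  intro p hp a ha b hb c hc hab hbc hac nac npa npb npc
  obtain ⟨k, hkK, -, kp, ka, kb, kc⟩ := km_ex hk h8 hp ha hb hc p
  have hkp : p ≠ k := by
    rintro rfl
    exact Finset.disjoint_left.1 hk.2.2.1 hkK hp
  exact h p k a b c hab hbc hac hkp nac kp npa npb npc (fun e => ka e.symm)
    (fun e => kb e.symm) (fun e => kc e.symm)

/-- TARGET -/
theorem km_c2 (h : No2P1P3 G) {K : Finset V} {m : V → V} (hk : KM G S K T m) (h8 : 8 ≤ K.card)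
    {q s t t' : V} (hq : q ∈ S \ T) (hs : s ∈ T) (ht : t ∈ T) (ht' : t' ∈ T) (hsq : G.Adj s q)
    (h1 : t ≠ t') (h2 : ¬G.Adj t t') (h3 : ¬G.Adj t q) (h4 : ¬G.Adj t' q) (h5 : ¬G.Adj t s)
    (h6 : ¬G.Adj t' s) : False := by
  obtain ⟨k, hkK, hke, ks, kt, kt', -⟩ := km_ex hk h8 hs ht ht' ht' (m q)
  obtain ⟨hkq, hkq'⟩ := km_adj hk hkK hq hke
  have hks : k ≠ s := by
    rintro rfl
    exact Finset.disjoint_left.1 hk.2.2.1 hkK hs
  exact h t t' k q s hkq hsq.symm hks h1 (fun e => ks e.symm) h2 kt h3 h5 kt' h4 h6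

/-- TARGET -/
theorem km_c3 (h : No2P1P3 G) {K : Finset V} {m : V → V} (hk : KM G S K T m) (h8 : 8 ≤ K.card)
    {x y q q' : V} (hx : x ∈ T) (hy : y ∈ T) (hq : q ∈ S \ T) (hq' : q' ∈ S \ T) (h1 : x ≠ y)
    (h2 : ¬G.Adj x y) (h3 : q ≠ q') (h4 : m q = m q') :
    G.Adj x q ∨ G.Adj x q' ∨ G.Adj y q ∨ G.Adj y q'  := by
  by_contra hcon
  push Not at hcon
  obtain ⟨n1, n2, n3, n4⟩ := hcon
  obtain ⟨k, hkK, hke, kx, ky, -, -⟩ := km_ex hk h8 hx hy hx hy (m q)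
  obtain ⟨hkq, -⟩ := km_adj hk hkK hq hke
  obtain ⟨hkq', -⟩ := km_adj hk hkK hq' (by rw [← h4]; exact hke)
  have hnqq : ¬G.Adj q q' := by
    intro hadj
    exact (hk.2.2.2.2.2.2.1 q hq q' hq' h3).1 hadj h4
  exact h x y q k q' hkq.symm hkq' h3 h1 hnqq h2 n1 kx n2 n3 ky n4

end SFacts

end Pool.Agent.Helper856.Cw
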