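import Pool.Agent.Helper856.Pair.Defs
import Pool.Agent.Helper856.Pair.SBase

open Classical SimpleGraph

namespace Pool.Agent.Helper856.Cw

open SBase (cl_vertex)

namespace SKm

variable {V : Type} {G : SimpleGraph V} {S T : Finset V} {k l : ℕ}

theorem two833 {K : Finset V} (h8 : 8 ≤ K.card) (c d : V) :
    ∃ p ∈ K, ∃ q ∈ K, p ≠ q ∧ p ≠ c ∧ p ≠ d ∧ q ≠ c ∧ q ≠ d := by
  have h1 : 1 < (K \ {c, d}).card := by
    have := Finset.le_card_sdiff ({c, d} : Finset V) K
    have h2 : ({c, d} : Finset V).card ≤ 2 := Finset.card_le_two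
    omega
  obtain ⟨p, hp, q, hq, hpq⟩ := Finset.one_lt_card.mp h1
  simp only [Finset.mem_sdiff, Finset.mem_insert, Finset.mem_singleton, not_or] at hp hq
  exact ⟨p, hp.1, q, hq.1, hpq, hp.2.1, hp.2.2, hq.2.1, hq.2.2⟩

/-- TARGET -/
theorem km_struct (h : NoFc G) {S K : Finset V} (hKS : K ⊆ S) (hK : Clq G K) (h8 : 8 ≤ K.card)
    (hmax : ∀ v ∈ S, v ∉ K → ∃ w ∈ K, ¬G.Adj v w) : ∃ T m, KM G S K T m := by
  obtain ⟨T, hT⟩ : ∃ T : Finset V, T = S.filter (fun v => v ∉ K ∧ (nb G K v).card ≤ 1) := ⟨_, rfl⟩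
  have hTm : ∀ v, v ∈ T ↔ v ∈ S ∧ v ∉ K ∧ (nb G K v).card ≤ 1 := by
    intro v; rw [hT, Finset.mem_filter]
  have hex : ∀ v, ∃ w, (v ∈ S → v ∉ T → v ∉ K → w ∈ K ∧ ¬ G.Adj v w ∧ ∀ w' ∈ K, w' ≠ w → G.Adj v w') ∧
      (v ∈ K → w = v) := by
    intro v
    by_cases hvK : v ∈ K
    · exact ⟨v, fun _ _ h3 => absurd hvK h3, fun _ => rfl⟩
    by_cases hvT : v ∈ T
    · exact ⟨v, fun _ h2 _ => absurd hvT h2, fun _ => rfl⟩
    by_cases hv : v ∈ S
    · have hc := cl_vertex h hK hvK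
      have hc2 : (K.filter (fun x => ¬G.Adj v x)).card ≤ 1 := by
        rcases hc with hc | hc
        · exact absurd ((hTm v).mpr ⟨hv, hvK, hc⟩) hvT
        · exact hc
      obtain ⟨w, hw, hvw⟩ := hmax v hv hvK
      refine ⟨w, fun _ _ _ => ⟨hw, hvw, fun w' hw' hne => ?_⟩, fun h3 => absurd h3 hvK⟩
      by_contra hcon
      exact hne (Finset.card_le_one.mp hc2 w' (Finset.mem_filter.mpr ⟨hw', hcon⟩) w
        (Finset.mem_filter.mpr ⟨hw, hvw⟩))
    · exact ⟨v, fun h1 _ _ => absurd h1 hv, fun h3 => absurd h3 hvK⟩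
  choose m hm1 hm2 using hex
  have hKT : ∀ x ∈ K, x ∉ T := fun x hx hxT => ((hTm x).mp hxT).2.1 hx
  have hmK : ∀ x ∈ S, x ∉ T → m x ∈ K := by
    intro x hxS hxT
    by_cases hxK : x ∈ K
    · rw [hm2 x hxK]; exact hxK
    · exact (hm1 x hxS hxT hxK).1
  have key : ∀ x ∈ S, x ∉ T → ∀ y ∈ S, y ∉ T → x ≠ y → (G.Adj x y ↔ m x ≠ m y) := by
    intro x hxS hxT y hyS hyT hxy
    by_cases hxK : x ∈ K
    · by_cases hyK : y ∈ K
      · rw [hm2 x hxK, hm2 y hyK]
        exact ⟨fun _ => hxy, fun _ => hK x hxK y hyK hxy⟩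
      · obtain ⟨c1, c2, c3⟩ := hm1 y hyS hyT hyK
        rw [hm2 x hxK]
        constructor
        · intro hadj he
          exact c2 (by rw [← he]; exact hadj.symm)
        · intro hne
          exact (c3 x hxK hne).symm
    · obtain ⟨b1, b2, b3⟩ := hm1 x hxS hxT hxK
      by_cases hyK : y ∈ K
      · rw [hm2 y hyK]
        constructor
        · intro hadj he
          exact b2 (by rw [he]; exact hadj)
        · intro hne
          exact b3 y hyK (Ne.symm hne)
      · obtain ⟨c1, c2, c3⟩ := hm1 y hyS hyT hyK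
        obtain ⟨p, hp, q, hq, hpq, hp1, hp2, hq1, hq2⟩ := two833 h8 (m x) (m y)
        constructor
        · intro hadj he
          exact h p q x (m x) y (hK p hp q hq hpq) (b3 p hp hp1).symm (hK p hp _ b1 hp1)
            (c3 p hp hp2).symm (b3 q hq hq1).symm (hK q hq _ b1 hq1) (c3 q hq hq2).symm hadj b2
            (fun h4 => c2 (by rw [← he]; exact h4.symm))
        · intro hne
          by_contra hcon
          exact h p q y x (m x) (hK p hp q hq hpq) (c3 p hp hp2).symm (b3 p hp hp1).symm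
            (hK p hp _ b1 hp1) (c3 q hq hq2).symm (b3 q hq hq1).symm (hK q hq _ b1 hq1)
            (c3 _ b1 hne) (fun h4 => hcon h4.symm) b2
  refine ⟨T, m, hKS, ?_, ?_, hK, ?_, fun x hx => hm2 x hx, ?_, ?_⟩
  · intro v hv
    exact ((hTm v).mp hv).1
  · rw [Finset.disjoint_left]
    exact hKT
  · intro x hx
    rw [Finset.mem_sdiff] at hx
    exact hmK x hx.1 hx.2
  · intro x hx y hy hxy
    rw [Finset.mem_sdiff] at hx hy
    exact key x hx.1 hx.2 y hy.1 hy.2 hxy
  · intro t ht x hx y hy htx hty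
    rw [Finset.mem_sdiff] at hx hy
    by_contra hne
    have hxy : x ≠ y := fun he => hne (by rw [he])
    have hadj : G.Adj x y := (key x hx.1 hx.2 y hy.1 hy.2 hxy).mpr hne
    obtain ⟨htS, htK, htc⟩ := (hTm t).mp ht
    have hw : ∀ z ∈ S, z ∉ T → ∀ w ∈ K, w ≠ m z → G.Adj z w := by
      intro z hzS hzT w hwK hwz
      have hwm := hm2 w hwK
      apply (key z hzS hzT w (hKS hwK) (hKT w hwK) ?_).mpr
      · rw [hwm]; exact hwz.symm
      · intro he
        rw [he, hwm] at hwz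
        exact hwz rfl
    obtain ⟨K', hK'⟩ : ∃ K' : Finset V, K' = (K \ {m x, m y}) ∪ {x, y} := ⟨_, rfl⟩
    have hK'm : ∀ w, w ∈ K' ↔ (w ∈ K ∧ w ≠ m x ∧ w ≠ m y) ∨ w = x ∨ w = y := by
      intro w
      rw [hK']
      simp only [Finset.mem_union, Finset.mem_sdiff, Finset.mem_insert, Finset.mem_singleton, not_or]
    have hclq : Clq G K' := by
      intro a ha b hb hab
      rw [hK'm] at ha hb
      rcases ha with ⟨a1, a2, a3⟩ | rfl | rfl
      · rcases hb with ⟨b1, b2, b3⟩ | rfl | rfl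
        · exact hK a a1 b b1 hab
        · exact (hw _ hx.1 hx.2 a a1 a2).symm
        · exact (hw _ hy.1 hy.2 a a1 a3).symm
      · rcases hb with ⟨b1, b2, b3⟩ | rfl | rfl
        · exact hw _ hx.1 hx.2 b b1 b2
        · exact absurd rfl hab
        · exact hadj
      · rcases hb with ⟨b1, b2, b3⟩ | rfl | rfl
        · exact hw _ hy.1 hy.2 b b1 b3
        · exact hadj.symm
        · exact absurd rfl hab
    have htK' : t ∉ K' := by
      rw [hK'm]
      rintro (⟨h1, -⟩ | rfl | rfl)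
      · exact htK h1
      · exact hx.2 ht
      · exact hy.2 ht
    rcases cl_vertex h hclq htK' with hc | hc
    · apply hxy
      exact Finset.card_le_one.mp hc x (Finset.mem_filter.mpr ⟨(hK'm x).mpr (Or.inr (Or.inl rfl)), htx⟩)
        y (Finset.mem_filter.mpr ⟨(hK'm y).mpr (Or.inr (Or.inr rfl)), hty⟩)
    · have hsub : (K \ {m x, m y}) \ nb G K t ⊆ K'.filter (fun x => ¬G.Adj t x) := by
        intro w hw'
        simp only [Finset.mem_sdiff, Finset.mem_insert, Finset.mem_singleton, not_or, nb,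
          Finset.mem_filter, not_and] at hw'
        rw [Finset.mem_filter, hK'm]
        exact ⟨Or.inl ⟨hw'.1.1, hw'.1.2.1, hw'.1.2.2⟩, hw'.2 hw'.1.1⟩
      have h1 := Finset.card_le_card hsub
      have h2 := Finset.le_card_sdiff (nb G K t) (K \ {m x, m y})
      have h3 := Finset.le_card_sdiff ({m x, m y} : Finset V) K
      have h4 : ({m x, m y} : Finset V).card ≤ 2 := Finset.card_le_two
      omega

end SKm

end Pool.Agent.Helper856.Cw
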