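import Pool.Agent.Helper856.Pair.Defs

open Classical SimpleGraph

namespace Pool.Agent.Helper856.Cw

namespace K3aCore

variable {V : Type} {G : SimpleGraph V} {S T : Finset V} {k l : ℕ}

theorem k3a_pick3 (C B : Finset V) (hC : 20 ≤ C.card) (hB : B.card ≤ 12) :
    ∃ a b c, (a ∈ C ∧ a ∉ B) ∧ (b ∈ C ∧ b ∉ B) ∧ (c ∈ C ∧ c ∉ B) ∧ a ≠ b ∧ a ≠ c ∧ b ≠ c := by
  have h1 : 2 < (C \ B).card := by
    have := Finset.le_card_sdiff B C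
    omega
  obtain ⟨a, ha, b, hb, c, hc, h2, h3, h4⟩ := Finset.two_lt_card.mp h1
  rw [Finset.mem_sdiff] at ha hb hc
  exact ⟨a, b, c, ha, hb, hc, h2, h3, h4⟩

/-- TARGET -/
theorem k3a_core (hT : Tri G) (hF : NoA G) {m : ℕ} (τ : V → Fin m) (R : Fin m → Fin m → Prop)
    (hI : ∀ u ∈ S, ∀ v ∈ S, τ u = τ v → ¬G.Adj u v)
    (hbig : ∀ v ∈ S, 20 ≤ (S.filter (fun x => τ x = τ v)).card)
    (hR : ∀ u ∈ S, ∀ v ∈ S, R (τ u) (τ v) → R (τ v) (τ u))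
    (h1 : ∀ u ∈ S, ∀ v ∈ S, R (τ u) (τ v) →
        ((S.filter (fun x => τ x = τ v)).filter (fun x => ¬G.Adj u x)).card ≤ 2)
    (h2 : ∀ u ∈ S, ∀ v ∈ S, ¬R (τ u) (τ v) → (nb G (S.filter (fun x => τ x = τ v)) u).card ≤ 2) :
    ∀ v ∈ S, (S.filter (fun w => w ≠ v ∧ ¬(G.Adj v w ↔ R (τ v) (τ w)))).card ≤ 2 := by
  -- notation
  have hCm : ∀ {u x : V}, x ∈ S.filter (fun x => τ x = τ u) ↔ x ∈ S ∧ τ x = τ u := by
    intro u x; rw [Finset.mem_filter]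
  have n1 : ∀ u ∈ S, ∀ v ∈ S, ∀ x, R (τ u) (τ v) → x ∈ S.filter (fun x => τ x = τ v) →
      x ∉ (S.filter (fun x => τ x = τ v)).filter (fun x => ¬G.Adj u x) → G.Adj u x := by
    intro u _ v _ x _ hx hnx
    by_contra hcon
    exact hnx (Finset.mem_filter.mpr ⟨hx, hcon⟩)
  have n2 : ∀ (u v x : V), x ∈ S.filter (fun x => τ x = τ v) →
      x ∉ nb G (S.filter (fun x => τ x = τ v)) u → ¬G.Adj u x := by
    intro u v x hx hnx hadj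
    exact hnx (Finset.mem_filter.mpr ⟨hx, hadj⟩)
  have cu : ∀ (A B : Finset V), (A ∪ B).card ≤ A.card + B.card := Finset.card_union_le
  -- (1)
  have c1 : ∀ u ∈ S, ∀ v ∈ S, ∀ w ∈ S, R (τ u) (τ v) → R (τ v) (τ w) → R (τ u) (τ w) → False := by
    intro u hu v hv w hw ruv rvw ruw
    obtain ⟨v', -, -, ⟨hv'1, hv'2⟩, -⟩ := k3a_pick3 _ _ (hbig v hv)
      (le_trans (h1 u hu v hv ruv) (by norm_num))
    have a1 := n1 u hu v hv v' ruv hv'1 hv'2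
    obtain ⟨hv'S, hv'τ⟩ := hCm.mp hv'1
    have rv'w : R (τ v') (τ w) := by rw [hv'τ]; exact rvw
    have k1 := h1 u hu w hw ruw
    have k2 := h1 v' hv'S w hw rv'w
    obtain ⟨w', -, -, ⟨hw'1, hw'2⟩, -⟩ := k3a_pick3 (S.filter (fun x => τ x = τ w))
      (((S.filter (fun x => τ x = τ w)).filter (fun x => ¬G.Adj u x)) ∪
        ((S.filter (fun x => τ x = τ w)).filter (fun x => ¬G.Adj v' x))) (hbig w hw)
      (le_trans (cu _ _) (by omega))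
    rw [Finset.mem_union, not_or] at hw'2
    have a2 := n1 u hu w hw w' ruw hw'1 hw'2.1
    have a3 := n1 v' hv'S w hw w' rv'w hw'1 hw'2.2
    exact hT u v' w' a1 a3 a2
  -- common neighbours
  have cn : ∀ y1 ∈ S, ∀ y2 ∈ S, ∀ v ∈ S, R (τ y1) (τ v) → R (τ y2) (τ v) → ¬G.Adj y1 y2 := by
    intro y1 hy1 y2 hy2 v hv r1 r2 hadj
    have k1 := h1 y1 hy1 v hv r1
    have k2 := h1 y2 hy2 v hv r2
    obtain ⟨x, -, -, ⟨hx1, hx2⟩, -⟩ := k3a_pick3 (S.filter (fun x => τ x = τ v))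
      (((S.filter (fun x => τ x = τ v)).filter (fun x => ¬G.Adj y1 x)) ∪
        ((S.filter (fun x => τ x = τ v)).filter (fun x => ¬G.Adj y2 x))) (hbig v hv)
      (le_trans (cu _ _) (by omega))
    rw [Finset.mem_union, not_or] at hx2
    have a2 := n1 y1 hy1 v hv x r1 hx1 hx2.1
    have a3 := n1 y2 hy2 v hv x r2 hx1 hx2.2
    exact hT y1 y2 x hadj a3 a2
  -- (3)
  have c3 : ∀ v ∈ S, ∀ y1 ∈ S, ∀ y2 ∈ S, ∀ y3 ∈ S, y1 ≠ y2 → y1 ≠ y3 → y2 ≠ y3 →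
      ¬G.Adj v y1 → ¬G.Adj v y2 → ¬G.Adj v y3 → R (τ v) (τ y1) → R (τ v) (τ y2) → R (τ v) (τ y3) →
      False := by
    intro v hv y1 hy1 y2 hy2 y3 hy3 d12 d13 d23 m1 m2 m3 r1 r2 r3
    have e12 := cn y1 hy1 y2 hy2 v hv (hR v hv y1 hy1 r1) (hR v hv y2 hy2 r2)
    have e13 := cn y1 hy1 y3 hy3 v hv (hR v hv y1 hy1 r1) (hR v hv y3 hy3 r3)
    have e23 := cn y2 hy2 y3 hy3 v hv (hR v hv y2 hy2 r2) (hR v hv y3 hy3 r3)
    have q2 : ¬R (τ y2) (τ y1) := fun h => c1 v hv y2 hy2 y1 hy1 r2 h r1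
    have q3 : ¬R (τ y3) (τ y1) := fun h => c1 v hv y3 hy3 y1 hy1 r3 h r1
    have k1 := h1 v hv y1 hy1 r1
    have k2 := h2 y2 hy2 y1 hy1 q2
    have k3 := h2 y3 hy3 y1 hy1 q3
    obtain ⟨l1, l2, l3, ⟨a1, b1⟩, ⟨a2, b2⟩, ⟨a3, b3⟩, f12, f13, f23⟩ :=
      k3a_pick3 (S.filter (fun x => τ x = τ y1))
      (((S.filter (fun x => τ x = τ y1)).filter (fun x => ¬G.Adj v x)) ∪
        (nb G (S.filter (fun x => τ x = τ y1)) y2 ∪ nb G (S.filter (fun x => τ x = τ y1)) y3))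
      (hbig y1 hy1)
      (le_trans (cu _ _) (le_trans (Nat.add_le_add_left (cu _ _) _) (by omega)))
    simp only [Finset.mem_union, not_or] at b1 b2 b3
    have g : ∀ l, l ∈ S.filter (fun x => τ x = τ y1) → ¬G.Adj y1 l := by
      intro l hl
      obtain ⟨hlS, hlτ⟩ := hCm.mp hl
      exact hI y1 hy1 l hlS hlτ.symm
    exact hF v l1 l2 l3 y1 y2 y3 (n1 v hv y1 hy1 l1 r1 a1 b1.1) (n1 v hv y1 hy1 l2 r1 a2 b2.1)
      (n1 v hv y1 hy1 l3 r1 a3 b3.1) f12 f13 f23 d12 d13 d23 e12 e13 e23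
      (fun h => m1 h.symm) (g l1 a1) (g l2 a2) (g l3 a3)
      (fun h => m2 h.symm) (n2 y2 y1 l1 a1 b1.2.1) (n2 y2 y1 l2 a2 b2.2.1) (n2 y2 y1 l3 a3 b3.2.1)
      (fun h => m3 h.symm) (n2 y3 y1 l1 a1 b1.2.2) (n2 y3 y1 l2 a2 b2.2.2) (n2 y3 y1 l3 a3 b3.2.2)
  -- (4)
  have c4 : ∀ u ∈ S, ∀ v ∈ S, ∀ d ∈ S, R (τ u) (τ v) → R (τ d) (τ u) ∨ R (τ d) (τ v) := by
    intro u hu v hv d hd ruv
    by_contra hcon
    rw [not_or] at hcon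
    obtain ⟨x1, x2, x3, ⟨a1, -⟩, ⟨a2, -⟩, ⟨a3, -⟩, f12, f13, f23⟩ :=
      k3a_pick3 (S.filter (fun x => τ x = τ d)) ∅ (hbig d hd) (by simp)
    obtain ⟨s1, t1⟩ := hCm.mp a1
    obtain ⟨s2, t2⟩ := hCm.mp a2
    obtain ⟨s3, t3⟩ := hCm.mp a3
    have i12 := hI x1 s1 x2 s2 (t1.trans t2.symm)
    have i13 := hI x1 s1 x3 s3 (t1.trans t3.symm)
    have i23 := hI x2 s2 x3 s3 (t2.trans t3.symm)
    have k1 := h2 x1 s1 u hu (by rw [t1]; exact hcon.1)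
    have k2 := h2 x2 s2 u hu (by rw [t2]; exact hcon.1)
    have k3 := h2 x3 s3 u hu (by rw [t3]; exact hcon.1)
    obtain ⟨u', -, -, ⟨p1, p2⟩, -⟩ := k3a_pick3 (S.filter (fun x => τ x = τ u))
      (nb G (S.filter (fun x => τ x = τ u)) x1 ∪ (nb G (S.filter (fun x => τ x = τ u)) x2 ∪
        nb G (S.filter (fun x => τ x = τ u)) x3)) (hbig u hu)
      (le_trans (cu _ _) (le_trans (Nat.add_le_add_left (cu _ _) _) (by omega)))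
    simp only [Finset.mem_union, not_or] at p2
    obtain ⟨hu'S, hu'τ⟩ := hCm.mp p1
    have ru'v : R (τ u') (τ v) := by rw [hu'τ]; exact ruv
    have j0 := h1 u' hu'S v hv ru'v
    have j1 := h2 x1 s1 v hv (by rw [t1]; exact hcon.2)
    have j2 := h2 x2 s2 v hv (by rw [t2]; exact hcon.2)
    have j3 := h2 x3 s3 v hv (by rw [t3]; exact hcon.2)
    obtain ⟨l1, l2, l3, ⟨b1, w1⟩, ⟨b2, w2⟩, ⟨b3, w3⟩, g12, g13, g23⟩ :=
      k3a_pick3 (S.filter (fun x => τ x = τ v))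
      (((S.filter (fun x => τ x = τ v)).filter (fun x => ¬G.Adj u' x)) ∪
        (nb G (S.filter (fun x => τ x = τ v)) x1 ∪ (nb G (S.filter (fun x => τ x = τ v)) x2 ∪
          nb G (S.filter (fun x => τ x = τ v)) x3))) (hbig v hv)
      (le_trans (cu _ _) (le_trans (Nat.add_le_add_left (cu _ _) _)
        (le_trans (Nat.add_le_add_left (Nat.add_le_add_left (cu _ _) _) _) (by omega))))
    simp only [Finset.mem_union, not_or] at w1 w2 w3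
    exact hF u' l1 l2 l3 x1 x2 x3 (n1 u' hu'S v hv l1 ru'v b1 w1.1) (n1 u' hu'S v hv l2 ru'v b2 w2.1)
      (n1 u' hu'S v hv l3 ru'v b3 w3.1) g12 g13 g23 f12 f13 f23 i12 i13 i23
      (n2 x1 u u' p1 p2.1) (n2 x1 v l1 b1 w1.2.1) (n2 x1 v l2 b2 w2.2.1) (n2 x1 v l3 b3 w3.2.1)
      (n2 x2 u u' p1 p2.2.1) (n2 x2 v l1 b1 w1.2.2.1) (n2 x2 v l2 b2 w2.2.2.1)
      (n2 x2 v l3 b3 w3.2.2.1)
      (n2 x3 u u' p1 p2.2.2) (n2 x3 v l1 b1 w1.2.2.2) (n2 x3 v l2 b2 w2.2.2.2)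
      (n2 x3 v l3 b3 w3.2.2.2)
  -- (5)
  have c5 : ∀ a ∈ S, ∀ b ∈ S, R (τ a) (τ b) → ∀ v ∈ S, ∀ x ∈ S, G.Adj v x → R (τ v) (τ x) := by
    intro a ha b hb rab v hv x hx hadj
    by_contra hnR
    obtain ⟨e, he, rve⟩ : ∃ e ∈ S, R (τ v) (τ e) := by
      rcases c4 a ha b hb v hv rab with h | h
      · exact ⟨a, ha, h⟩
      · exact ⟨b, hb, h⟩
    rcases c4 v hv e he x hx rve with h | h
    · exact hnR (hR x hx v hv h)
    · exact cn v hv x hx e he rve h hadj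
  -- (6)
  have c6 : ∀ v ∈ S, ∀ x1 ∈ S, ∀ x2 ∈ S, ∀ x3 ∈ S, x1 ≠ x2 → x1 ≠ x3 → x2 ≠ x3 →
      G.Adj v x1 → G.Adj v x2 → G.Adj v x3 → ¬R (τ x1) (τ v) → ¬R (τ x2) (τ v) →
      ¬R (τ x3) (τ v) → False := by
    intro v hv x1 hx1 x2 hx2 x3 hx3 d12 d13 d23 m1 m2 m3 r1 r2 r3
    have k1 := h2 x1 hx1 v hv r1
    have k2 := h2 x2 hx2 v hv r2
    have k3 := h2 x3 hx3 v hv r3
    obtain ⟨p, q, r, ⟨a1, b1⟩, ⟨a2, b2⟩, ⟨a3, b3⟩, f12, f13, f23⟩ :=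
      k3a_pick3 (S.filter (fun x => τ x = τ v))
      (nb G (S.filter (fun x => τ x = τ v)) x1 ∪ (nb G (S.filter (fun x => τ x = τ v)) x2 ∪
        nb G (S.filter (fun x => τ x = τ v)) x3)) (hbig v hv)
      (le_trans (cu _ _) (le_trans (Nat.add_le_add_left (cu _ _) _) (by omega)))
    simp only [Finset.mem_union, not_or] at b1 b2 b3
    obtain ⟨s1, t1⟩ := hCm.mp a1
    obtain ⟨s2, t2⟩ := hCm.mp a2
    obtain ⟨s3, t3⟩ := hCm.mp a3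
    exact hF v x1 x2 x3 p q r m1 m2 m3 d12 d13 d23 f12 f13 f23
      (hI p s1 q s2 (t1.trans t2.symm)) (hI p s1 r s3 (t1.trans t3.symm))
      (hI q s2 r s3 (t2.trans t3.symm))
      (hI p s1 v hv t1) (fun h => n2 x1 v p a1 b1.1 h.symm) (fun h => n2 x2 v p a1 b1.2.1 h.symm)
      (fun h => n2 x3 v p a1 b1.2.2 h.symm)
      (hI q s2 v hv t2) (fun h => n2 x1 v q a2 b2.1 h.symm) (fun h => n2 x2 v q a2 b2.2.1 h.symm)
      (fun h => n2 x3 v q a2 b2.2.2 h.symm)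
      (hI r s3 v hv t3) (fun h => n2 x1 v r a3 b3.1 h.symm) (fun h => n2 x2 v r a3 b3.2.1 h.symm)
      (fun h => n2 x3 v r a3 b3.2.2 h.symm)
  -- conclusion
  intro v hv
  by_contra hcon
  obtain ⟨w1, g1, w2, g2, w3, g3, d12, d13, d23⟩ := Finset.two_lt_card.mp (not_le.mp hcon)
  rw [Finset.mem_filter] at g1 g2 g3
  obtain ⟨s1, -, e1⟩ := g1
  obtain ⟨s2, -, e2⟩ := g2
  obtain ⟨s3, -, e3⟩ := g3
  by_cases hpair : ∃ a ∈ S, ∃ b ∈ S, R (τ a) (τ b)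
  · obtain ⟨a, ha, b, hb, rab⟩ := hpair
    have hm : ∀ w ∈ S, ¬(G.Adj v w ↔ R (τ v) (τ w)) → ¬G.Adj v w ∧ R (τ v) (τ w) := by
      intro w hw hne
      by_cases hadj : G.Adj v w
      · exact absurd ⟨fun _ => c5 a ha b hb rab v hv w hw hadj, fun _ => hadj⟩ hne
      · refine ⟨hadj, ?_⟩
        by_contra hr
        exact hne ⟨fun h => absurd h hadj, fun h => absurd h hr⟩
    have m1 := hm w1 s1 e1
    have m2 := hm w2 s2 e2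
    have m3 := hm w3 s3 e3
    exact c3 v hv w1 s1 w2 s2 w3 s3 d12 d13 d23 m1.1 m2.1 m3.1 m1.2 m2.2 m3.2
  · have hnR : ∀ a ∈ S, ∀ b ∈ S, ¬R (τ a) (τ b) := fun a ha b hb h => hpair ⟨a, ha, b, hb, h⟩
    have hm : ∀ w ∈ S, ¬(G.Adj v w ↔ R (τ v) (τ w)) → G.Adj v w := by
      intro w hw hne
      by_contra hadj
      exact hne ⟨fun h => absurd h hadj, fun h => absurd h (hnR v hv w hw)⟩
    exact c6 v hv w1 s1 w2 s2 w3 s3 d12 d13 d23 (hm w1 s1 e1) (hm w2 s2 e2) (hm w3 s3 e3)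
      (hnR w1 s1 v hv) (hnR w2 s2 v hv) (hnR w3 s3 v hv)

end K3aCore

end Pool.Agent.Helper856.Cw
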