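import Pool.Agent.Helper856.Pair.Defs

open Classical SimpleGraph

namespace Pool.Agent.Helper856.Cw

namespace Refine

variable {V : Type} {G : SimpleGraph V} {S T : Finset V} {k l : ℕ}

/-- TARGET -/
theorem refine_classes (m N : ℕ) : ∃ K, ∀ (V : Type) (G : SimpleGraph V) (S : Finset V)
    (τ : V → Fin m),
    (∀ v ∈ S, ∀ j, (nb G (S.filter (fun x => τ x = j)) v).card ≤ 2 ∨
      ((S.filter (fun x => τ x = j)).filter (fun x => ¬G.Adj v x)).card ≤ 2) →
    ∃ S' ⊆ S, (S \ S').card ≤ K ∧ ∃ (σ : V → Fin (m * 2 ^ m)) (R : Fin (m * 2 ^ m) → Fin (m * 2 ^ m) → Prop),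
      (∀ u ∈ S', ∀ v ∈ S', σ u = σ v → τ u = τ v) ∧
      (∀ v ∈ S', N ≤ (S'.filter (fun x => σ x = σ v)).card) ∧
      (∀ u ∈ S', ∀ v ∈ S', R (σ u) (σ v) → R (σ v) (σ u)) ∧
      (∀ u ∈ S', ∀ v ∈ S', R (σ u) (σ v) →
        ((S'.filter (fun x => σ x = σ v)).filter (fun x => ¬G.Adj u x)).card ≤ 2) ∧
      (∀ u ∈ S', ∀ v ∈ S', ¬R (σ u) (σ v) → (nb G (S'.filter (fun x => σ x = σ v)) u).card ≤ 2) := by
  set N' : ℕ := max N 15 with hN'
  refine ⟨N' * (m * 2 ^ m), ?_⟩
  intro V G S τ h
  set C : Fin m → Finset V := fun j => S.filter (fun x => τ x = j) with hC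
  set β : V → Fin m → Bool := fun v j => decide (((C j).filter (fun x => ¬G.Adj v x)).card ≤ 2) with hβ
  have e : Fin m × (Fin m → Bool) ≃ Fin (m * 2 ^ m) := Fintype.equivFinOfCardEq (by simp)
  set σ : V → Fin (m * 2 ^ m) := fun v => e (τ v, β v) with hσ
  set S' : Finset V := S.filter (fun v => N' ≤ (S.filter (fun x => σ x = σ v)).card) with hS'
  have hσe : ∀ u v, σ u = σ v → τ u = τ v ∧ β u = β v := by
    intro u v huv
    have := e.injective huv
    exact ⟨congrArg Prod.fst this, congrArg Prod.snd this⟩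
  have hcls : ∀ v, v ∈ S' → S'.filter (fun x => σ x = σ v) = S.filter (fun x => σ x = σ v) := by
    intro v hv
    ext x
    simp only [Finset.mem_filter, hS']
    constructor
    · rintro ⟨⟨h1, h2⟩, h3⟩; exact ⟨h1, h3⟩
    · rintro ⟨h1, h3⟩
      refine ⟨⟨h1, ?_⟩, h3⟩
      rw [h3]
      exact (Finset.mem_filter.1 hv).2
  have hclsC : ∀ v, S.filter (fun x => σ x = σ v) ⊆ C (τ v) := by
    intro v x hx
    obtain ⟨h1, h2⟩ := Finset.mem_filter.1 hx
    exact Finset.mem_filter.2 ⟨h1, (hσe x v h2).1⟩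
  have hRiff : ∀ u v, ((e.symm (σ u)).2 (e.symm (σ v)).1 = true) ↔ β u (τ v) = true := by
    intro u v
    simp only [hσ, Equiv.symm_apply_apply]
  have hpos : ∀ u v, β u (τ v) = true → ((S.filter (fun x => σ x = σ v)).filter (fun x => ¬G.Adj u x)).card ≤ 2 := by
    intro u v huv
    have h1 : ((C (τ v)).filter (fun x => ¬G.Adj u x)).card ≤ 2 := by
      simpa [hβ] using huv
    exact (Finset.card_le_card (Finset.filter_subset_filter _ (hclsC v))).trans h1
  have hneg : ∀ u ∈ S, ∀ v, ¬ β u (τ v) = true → (nb G (S.filter (fun x => σ x = σ v)) u).card ≤ 2 := by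
    intro u hu v huv
    have h1 : ¬ ((C (τ v)).filter (fun x => ¬G.Adj u x)).card ≤ 2 := by
      intro hh
      apply huv
      simpa [hβ] using hh
    have h2 : (nb G (C (τ v)) u).card ≤ 2 := by
      rcases h u hu (τ v) with h3 | h3
      · exact h3
      · exact absurd h3 h1
    exact (Finset.card_le_card (Finset.filter_subset_filter _ (hclsC v))).trans h2
  refine ⟨S', Finset.filter_subset _ _, ?_, σ, fun a b => (e.symm a).2 (e.symm b).1 = true, ?_, ?_, ?_, ?_, ?_⟩
  · have h1 := Finset.card_le_mul_card_image_of_maps_to (s := S \ S') (t := (Finset.univ : Finset (Fin (m * 2 ^ m))))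
      (f := σ) (fun a _ => Finset.mem_univ _) N' (by
        intro c _
        by_cases hne : ((S \ S').filter (fun a => σ a = c)).Nonempty
        · obtain ⟨a, ha⟩ := hne
          obtain ⟨ha1, ha2⟩ := Finset.mem_filter.1 ha
          obtain ⟨ha3, ha4⟩ := Finset.mem_sdiff.1 ha1
          have h2 : ¬ N' ≤ (S.filter (fun x => σ x = σ a)).card := by
            intro hh
            exact ha4 (Finset.mem_filter.2 ⟨ha3, hh⟩)
          have h3 : ((S \ S').filter (fun a => σ a = c)) ⊆ S.filter (fun x => σ x = σ a) := by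
            intro x hx
            obtain ⟨hx1, hx2⟩ := Finset.mem_filter.1 hx
            exact Finset.mem_filter.2 ⟨(Finset.mem_sdiff.1 hx1).1, by rw [hx2, ha2]⟩
          have := Finset.card_le_card h3
          omega
        · rw [Finset.not_nonempty_iff_eq_empty] at hne
          rw [hne]; simp)
    simpa using h1
  · intro u _ v _ huv
    exact (hσe u v huv).1
  · intro v hv
    rw [hcls v hv]
    exact (le_max_left N 15).trans (Finset.mem_filter.1 hv).2
  · intro u hu v hv huv
    by_contra hcon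
    rw [hRiff] at huv hcon
    have hA : 15 ≤ (S.filter (fun x => σ x = σ u)).card := (le_max_right N 15).trans (Finset.mem_filter.1 hu).2
    have hB : 15 ≤ (S.filter (fun x => σ x = σ v)).card := (le_max_right N 15).trans (Finset.mem_filter.1 hv).2
    set A := S.filter (fun x => σ x = σ u) with hAdef
    set B := S.filter (fun x => σ x = σ v) with hBdef
    have hA1 : ∀ a ∈ A, (B.filter (fun x => ¬G.Adj a x)).card ≤ 2 := by
      intro a ha
      have h1 := (hσe a u (Finset.mem_filter.1 ha).2).2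
      exact hpos a v (by rw [h1]; exact huv)
    have hB1 : ∀ b ∈ B, (nb G A b).card ≤ 2 := by
      intro b hb
      have h1 := (hσe b v (Finset.mem_filter.1 hb).2).2
      exact hneg b (Finset.mem_filter.1 hb).1 u (by rw [h1]; exact hcon)
    obtain ⟨A0, hA0, hA0c⟩ := Finset.exists_subset_card_eq (show 5 ≤ A.card by omega)
    have hbad : (A0.biUnion (fun a => B.filter (fun x => ¬G.Adj a x))).card ≤ 5 * 2 := by
      refine (Finset.card_biUnion_le_card_mul A0 _ 2 (fun a ha => hA1 a (hA0 ha))).trans ?_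
      rw [hA0c]
    obtain ⟨b, hb, hb'⟩ := Finset.exists_mem_notMem_of_card_lt_card
      (show (A0.biUnion (fun a => B.filter (fun x => ¬G.Adj a x))).card < B.card by omega)
    have hall : A0 ⊆ nb G A b := by
      intro a ha
      refine Finset.mem_filter.2 ⟨hA0 ha, ?_⟩
      by_contra hadj
      apply hb'
      refine Finset.mem_biUnion.2 ⟨a, ha, Finset.mem_filter.2 ⟨hb, ?_⟩⟩
      intro h'
      exact hadj h'.symm
    have := Finset.card_le_card hall
    have h5 := hB1 b hb
    omega
  · intro u _ v hv huv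
    rw [hRiff] at huv
    rw [hcls v hv]
    exact hpos u v huv
  · intro u hu v hv huv
    have huv' : ¬ β u (τ v) = true := fun hh => huv ((hRiff u v).2 hh)
    rw [hcls v hv]
    exact hneg u (Finset.mem_filter.1 hu).1 v huv'

end Refine

end Pool.Agent.Helper856.Cw
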