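import Pool.Agent.Helper856.Pair.Defs
import Pool.Agent.Helper856.Cw.Basic
import Pool.Agent.Helper856.Pair.Flip
import Pool.Agent.Helper856.Pair.Deg2
import Pool.Agent.Helper856.Pair.Ramsey
import Pool.Agent.Helper856.Pair.Refine
import Pool.Agent.Helper856.Pair.K3aCore

open Classical SimpleGraph

namespace Pool.Agent.Helper856.Cw

open Flip (slin_flip)
open Deg2 (slin_deg2)
open Ramsey (ramsey)
open Refine (refine_classes)
open K3aCore (k3a_core)

namespace K3aMain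

variable {V : Type} {G : SimpleGraph V} {S T : Finset V} {k l : ℕ}

theorem rk3_three {T : Finset V} (h : 3 ≤ T.card) : ∃ x ∈ T, ∃ y ∈ T, ∃ z ∈ T,
    x ≠ y ∧ x ≠ z ∧ y ≠ z := by
  obtain ⟨U, hU, hc⟩ := Finset.exists_subset_card_eq h
  obtain ⟨x, y, z, h1, h2, h3, rfl⟩ := Finset.card_eq_three.1 hc
  exact ⟨x, hU (by simp), y, hU (by simp), z, hU (by simp), h1, h2, h3⟩

/-- TARGET -/
theorem row_k3a : ∃ K, ∀ (V : Type) (G : SimpleGraph V) (S : Finset V), Tri G → NoA G → SLin K G S := by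
  obtain ⟨N0, hN0⟩ := ramsey 3 3
  obtain ⟨K1, hK1⟩ := refine_classes 4 20
  refine ⟨4 * 2 ^ 4 * 3 + (N0 + K1), ?_⟩
  intro V G S hT hA
  by_cases hdeg : ∀ v ∈ S, (nb G S v).card ≤ 2
  · exact (slin_deg2 hdeg).toS.mono_k (by omega)
  · push Not at hdeg
    obtain ⟨c, hcS, hc⟩ := hdeg
    obtain ⟨a1, ha1, a2, ha2, a3, ha3, n12, n13, n23⟩ := rk3_three (show 3 ≤ (nb G S c).card by omega)
    have g1 : G.Adj c a1 := (Finset.mem_filter.1 ha1).2
    have g2 : G.Adj c a2 := (Finset.mem_filter.1 ha2).2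
    have g3 : G.Adj c a3 := (Finset.mem_filter.1 ha3).2
    obtain ⟨w, hw0, hw1, hw2, hw3⟩ : ∃ w : Fin 4 → V, w 0 = c ∧ w 1 = a1 ∧ w 2 = a2 ∧ w 3 = a3 :=
      ⟨![c, a1, a2, a3], rfl, rfl, rfl, rfl⟩
    obtain ⟨W, hW⟩ : ∃ W : Finset V, W = S.filter (fun x => ∀ i, ¬G.Adj x (w i)) := ⟨_, rfl⟩
    have hWm : ∀ x ∈ W, ¬G.Adj x c ∧ ¬G.Adj x a1 ∧ ¬G.Adj x a2 ∧ ¬G.Adj x a3 := by
      intro x hx
      rw [hW, Finset.mem_filter] at hx
      have h := hx.2
      refine ⟨?_, ?_, ?_, ?_⟩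
      · rw [← hw0]; exact h 0
      · rw [← hw1]; exact h 1
      · rw [← hw2]; exact h 2
      · rw [← hw3]; exact h 3
    have hWcard : W.card < N0 := by
      by_contra hcon
      rcases hN0 V G W (not_lt.1 hcon) with ⟨Q, hQW, hQc, hQ⟩ | ⟨Q, hQW, hQc, hQ⟩
      · obtain ⟨x, hx, y, hy, z, hz, xy, xz, yz⟩ := rk3_three (show 3 ≤ Q.card by omega)
        exact hT x y z (hQ x hx y hy xy) (hQ y hy z hz yz) (hQ x hx z hz xz)
      · obtain ⟨p, hp, q, hq, r, hr, pq, pr, qr⟩ := rk3_three (show 3 ≤ Q.card by omega)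
        obtain ⟨p0, p1, p2, p3⟩ := hWm p (hQW hp)
        obtain ⟨q0, q1, q2, q3⟩ := hWm q (hQW hq)
        obtain ⟨r0, r1, r2, r3⟩ := hWm r (hQW hr)
        exact hA c a1 a2 a3 p q r g1 g2 g3 n12 n13 n23 pq pr qr (hQ p hp q hq) (hQ p hp r hr)
          (hQ q hq r hr) p0 p1 p2 p3 q0 q1 q2 q3 r0 r1 r2 r3
    obtain ⟨S1, hS1⟩ : ∃ S1 : Finset V, S1 = S \ W := ⟨_, rfl⟩
    obtain ⟨τ, hτ⟩ : ∃ τ : V → Fin 4, ∀ x ∈ S1, G.Adj x (w (τ x)) := by
      have h1 : ∀ x : V, ∃ i : Fin 4, x ∈ S1 → G.Adj x (w i) := by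
        intro x
        by_cases hx : x ∈ S1
        · have h2 : ¬ (∀ i, ¬G.Adj x (w i)) := by
            intro h3
            rw [hS1, Finset.mem_sdiff] at hx
            apply hx.2
            rw [hW, Finset.mem_filter]
            exact ⟨hx.1, h3⟩
          push Not at h2
          obtain ⟨i, hi⟩ := h2
          exact ⟨i, fun _ => hi⟩
        · exact ⟨0, fun h => absurd h hx⟩
      choose τ hτ using h1
      exact ⟨τ, hτ⟩
    have hcls : ∀ u ∈ S1, ∀ v ∈ S1, τ u = τ v → ¬G.Adj u v := by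
      intro u hu v hv huv hadj
      have h1 := hτ u hu
      have h2 := hτ v hv
      rw [huv] at h1
      exact hT u v (w (τ v)) hadj h2 h1
    obtain ⟨S', hS'1, hS'c, σ, R, hσ, hbig, hR, hr1, hr2⟩ := hK1 V G S1 τ (by
      intro v hv j
      by_contra hcon
      push Not at hcon
      obtain ⟨l1, hl1, l2, hl2, l3, hl3, m12, m13, m23⟩ := rk3_three
        (show 3 ≤ (nb G (S1.filter (fun x => τ x = j)) v).card by omega)
      obtain ⟨p, hp, q, hq, r, hr, pq, pr, qr⟩ := rk3_three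
        (show 3 ≤ ((S1.filter (fun x => τ x = j)).filter (fun x => ¬G.Adj v x)).card by omega)
      unfold nb at hl1 hl2 hl3
      rw [Finset.mem_filter, Finset.mem_filter] at hl1 hl2 hl3 hp hq hr
      have ind : ∀ x y, (x ∈ S1 ∧ τ x = j) → (y ∈ S1 ∧ τ y = j) → ¬G.Adj x y := by
        intro x y hx hy
        exact hcls x hx.1 y hy.1 (hx.2.trans hy.2.symm)
      exact hA v l1 l2 l3 p q r hl1.2 hl2.2 hl3.2 m12 m13 m23 pq pr qr
        (ind p q hp.1 hq.1) (ind p r hp.1 hr.1) (ind q r hq.1 hr.1)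
        (fun h => hp.2 h.symm) (ind p l1 hp.1 hl1.1) (ind p l2 hp.1 hl2.1) (ind p l3 hp.1 hl3.1)
        (fun h => hq.2 h.symm) (ind q l1 hq.1 hl1.1) (ind q l2 hq.1 hl2.1) (ind q l3 hq.1 hl3.1)
        (fun h => hr.2 h.symm) (ind r l1 hr.1 hl1.1) (ind r l2 hr.1 hl2.1) (ind r l3 hr.1 hl3.1))
    have hcore := k3a_core hT hA σ R
      (fun u hu v hv huv => hcls u (hS'1 hu) v (hS'1 hv) (hσ u hu v hv huv)) hbig hR hr1 hr2
    obtain ⟨F, hF⟩ : ∃ F : SimpleGraph V, ∀ u v, F.Adj u v ↔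
        (u ≠ v ∧ u ∈ S' ∧ v ∈ S' ∧ ¬(G.Adj u v ↔ R (σ u) (σ v))) := by
      refine ⟨{ Adj := fun u v => u ≠ v ∧ u ∈ S' ∧ v ∈ S' ∧ ¬(G.Adj u v ↔ R (σ u) (σ v)),
                symm := ?_, loopless := ?_ }, fun u v => Iff.rfl⟩
      · constructor
        rintro u v ⟨h1, h2, h3, h4⟩
        refine ⟨h1.symm, h3, h2, ?_⟩
        intro h5
        apply h4
        have h6 : R (σ u) (σ v) ↔ R (σ v) (σ u) := ⟨hR u h2 v h3, hR v h3 u h2⟩
        rw [h6, G.adj_comm]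
        exact h5
      · constructor
        intro u h
        exact h.1 rfl
    have hFdeg : ∀ v ∈ S', (nb F S' v).card ≤ 2 := by
      intro v hv
      refine (Finset.card_le_card ?_).trans (hcore v hv)
      intro x hx
      unfold nb at hx
      rw [Finset.mem_filter] at hx ⊢
      have h1 := (hF v x).1 hx.2
      exact ⟨hx.1, h1.1.symm, h1.2.2.2⟩
    have hF3 : SLin 3 F S' := (slin_deg2 hFdeg).toS
    have hG3 : SLin (4 * 2 ^ 4 * 3) G S' := by
      refine slin_flip σ R ?_ hF3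
      intro u hu v hv huv
      have h1 := hF u v
      have h2 : F.Adj u v ↔ ¬(G.Adj u v ↔ R (σ u) (σ v)) :=
        ⟨fun h => (h1.1 h).2.2.2, fun h => h1.2 ⟨huv, hu, hv, h⟩⟩
      rw [h2]
      tauto
    have hS'S : S' ⊆ S := hS'1.trans (by rw [hS1]; exact Finset.sdiff_subset)
    have hG4 : SLin (4 * 2 ^ 4 * 3) G (S \ (S \ S')) := by
      rw [Finset.sdiff_sdiff_eq_self hS'S]
      exact hG3
    refine (SLin.add (S \ S') hG4).mono_k ?_
    have hsub : S \ S' ⊆ W ∪ (S1 \ S') := by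
      intro x hx
      rw [Finset.mem_sdiff] at hx
      rw [Finset.mem_union, Finset.mem_sdiff]
      by_cases hxW : x ∈ W
      · exact Or.inl hxW
      · refine Or.inr ⟨?_, hx.2⟩
        rw [hS1, Finset.mem_sdiff]
        exact ⟨hx.1, hxW⟩
    have hcard := (Finset.card_le_card hsub).trans (Finset.card_union_le W (S1 \ S'))
    omega

end K3aMain

end Pool.Agent.Helper856.Cw
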