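import Pool.Agent.Helper856.Pair.Defs
import Pool.Agent.Helper856.Cw.Basic
import Pool.Agent.Helper856.Pair.ConnT
import Pool.Agent.Helper856.Pair.Compl
import Pool.Agent.Helper856.Pair.P3free
import Pool.Agent.Helper856.Pair.Olariu

open Classical SimpleGraph

namespace Pool.Agent.Helper856.Cw

open ConnT (slin_conn)
open Compl (slin_compl)
open P3free (slin_p3free)
open Olariu (olariu)

namespace PawRed

variable {V : Type} {G : SimpleGraph V} {S T : Finset V} {k l : ℕ}

/-- TARGET -/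
theorem paw_red (hp : NoPaw G S) (hk : 2 ≤ k)
    (h : ∀ T ⊆ S, (∀ x ∈ T, ∀ y ∈ T, ∀ z ∈ T, G.Adj x y → G.Adj y z → G.Adj x z → False) →
      SLin k G T) : SLin (k + 1) G S := by
  apply SLinN.toS
  apply slin_conn
  intro T hT hc
  by_cases ht : ∀ x ∈ T, ∀ y ∈ T, ∀ z ∈ T, G.Adj x y → G.Adj y z → G.Adj x z → False
  · exact (h T hT ht).toN
  · push Not at ht
    obtain ⟨x, hx, y, hy, z, hz, hxy, hyz, hxz, -⟩ := ht
    have hpT : NoPaw G T := fun a ha b hb c hc d hd =>
      hp a (hT ha) b (hT hb) c (hT hc) d (hT hd)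
    have h1 := olariu hc hpT hx hy hz hxy hxz hyz
    have h2 : SLinN 1 Gᶜ T := slin_p3free h1
    have h3 : SLin 2 Gᶜ T := h2.toS
    have h4 := slin_compl h3
    rw [compl_compl] at h4
    exact (h4.mono_k hk).toN

end PawRed

end Pool.Agent.Helper856.Cw
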