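import Pool.Agent.Helper856.Pair.Defs
import Pool.Agent.Helper856.Cw.Basic
import Pool.Agent.Helper856.Pair.SBase
import Pool.Agent.Helper856.Pair.Compl
import Pool.Agent.Helper856.Pair.Induce
import Pool.Agent.Helper856.Pair.PawRed
import Pool.Agent.Helper856.Pair.K3aMain

open Classical SimpleGraph

namespace Pool.Agent.Helper856.Cw

open SBase (no2p1p3_compl)
open Compl (slin_compl)
open Induce (slin_of_induce)
open PawRed (paw_red)
open K3aMain (row_k3a)

namespace SCop

variable {V : Type} {G : SimpleGraph V} {S T : Finset V} {k l : ℕ}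

/-- TARGET -/
theorem cop_lin : ∃ c, ∀ (V : Type) (G : SimpleGraph V) (T : Finset V), NoFc G → NoP1P3T G T →
    SLin c G T := by
  obtain ⟨K, hK⟩ := row_k3a
  refine ⟨K + 3, fun V G T hFc hP => ?_⟩
  have h2 : No2P1P3 Gᶜ := no2p1p3_compl hFc
  have hpaw : NoPaw Gᶜ T := by
    intro a ha b hb c hc d hd hab hac hbc had hbd hcd nbd ncd
    rw [SimpleGraph.compl_adj] at hab hac hbc had hbd hcd
    have e1 : G.Adj b d := by
      by_contra h
      exact hbd ⟨nbd, h⟩
    have e2 : G.Adj c d := by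
      by_contra h
      exact hcd ⟨ncd, h⟩
    exact hP a ha b hb d hd c hc e1 e2.symm hbc.1 hbc.2 hab.2 had.2 hac.2
  have h3 : SLin (K + 2 + 1) Gᶜ T := by
    apply paw_red hpaw (by omega)
    intro T' hT' htri
    have hTri : Tri (Gᶜ.induce (T' : Set V)) := by
      intro x y z hxy hyz hxz
      exact htri x.1 x.2 y.1 y.2 z.1 z.2 hxy hyz hxz
    have hNoA : NoA (Gᶜ.induce (T' : Set V)) := by
      intro c l1 l2 l3 p q r h1 h2' h3' h12 h13 h23 hpq hpr hqr npq npr nqr npc npl1 npl2 npl3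
        nqc nql1 nql2 nql3 nrc nrl1 nrl2 nrl3
      have n12 : ¬ Gᶜ.Adj l1.1 l2.1 := fun h =>
        htri c.1 c.2 l1.1 l1.2 l2.1 l2.2 h1 h h2'
      exact h2 p.1 q.1 l1.1 c.1 l2.1 (SimpleGraph.Adj.symm h1) h2' (fun h => h12 (Subtype.ext h))
        (fun h => hpq (Subtype.ext h)) n12 npq npl1 npc npl2 nql1 nqc nql2
    have h4 := (hK _ (Gᶜ.induce (T' : Set V)) Finset.univ hTri hNoA).mono_k (show K ≤ K + 2 by omega)
    exact slin_of_induce (by omega) h4
  have h5 := slin_compl h3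
  rw [compl_compl] at h5
  exact h5

end SCop

end Pool.Agent.Helper856.Cw
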