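import Pool.Agent.Helper856.Pair.Defs
import Pool.Agent.Helper856.Cw.Basic
import Pool.Agent.Helper856.Cw.Blocks
import Pool.Agent.Helper856.Pair.Induce

open Classical SimpleGraph

namespace Pool.Agent.Helper856.Cw

open Induce (exists_inj slin_ind)

namespace SBlocks

variable {V : Type} {G : SimpleGraph V} {S T : Finset V} {k l : ℕ}

/-- TARGET -/
theorem kt_blocks {K Q : Finset V} (hK : Clq G K) (hd : Disjoint K Q) (m : V → V)
    (hm : ∀ x ∈ Q, m x ∈ Q) (hq : ∀ x ∈ Q, ∀ y ∈ Q, x ≠ y → (G.Adj x y ↔ m x ≠ m y))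
    (b0 : ∀ x ∈ Q, ∀ k ∈ K, ∀ k' ∈ K, G.Adj x k → G.Adj x k' → k = k')
    (b1 : ∀ k ∈ K, ∀ x ∈ Q, ∀ y ∈ Q, G.Adj k x → G.Adj k y → m x = m y)
    (b2 : ∀ k ∈ K, ∀ x ∈ Q, G.Adj k x → ∀ y ∈ Q, ∀ y' ∈ Q, m y = m x → m y' = m x →
      ¬G.Adj k y → ¬G.Adj k y' → y = y') : SLin 8 G (K ∪ Q) := by
  obtain ⟨p0, hp0⟩ := exists_inj (K ∪ Q)
  have hdis : ∀ x ∈ K, x ∉ Q := fun x hx => Finset.disjoint_left.1 hd hx
  have hp : ∀ x ∈ K ∪ Q, ∀ y ∈ K ∪ Q, p0 x = p0 y → x = y := fun x hx y hy h =>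
    hp0 (Finset.mem_coe.2 hx) (Finset.mem_coe.2 hy) h
  have hQS : ∀ x ∈ Q, x ∈ K ∪ Q := fun x hx => Finset.mem_union_right _ hx
  have hKS : ∀ x ∈ K, x ∈ K ∪ Q := fun x hx => Finset.mem_union_left _ hx
  obtain ⟨β, hβ⟩ : ∃ β : V → ℕ, β = fun x => if x ∈ Q then p0 (m x) else
    if h : ∃ y ∈ Q, G.Adj x y then p0 (m h.choose) else p0 x := ⟨_, rfl⟩
  have hβQ : ∀ x ∈ Q, β x = p0 (m x) := by
    intro x hx
    rw [hβ]
    simp only [hx, if_true]
  have hβK1 : ∀ k ∈ K, ∀ x ∈ Q, G.Adj k x → β k = p0 (m x) := by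
    intro k hk x hx hkx
    have h : ∃ y ∈ Q, G.Adj k y := ⟨x, hx, hkx⟩
    rw [hβ]
    simp only [hdis k hk, if_false, dif_pos h]
    rw [b1 k hk _ h.choose_spec.1 x hx h.choose_spec.2 hkx]
  have hβK2 : ∀ k ∈ K, (¬ ∃ y ∈ Q, G.Adj k y) → β k = p0 k := by
    intro k hk h
    rw [hβ]
    simp only [hdis k hk, if_false, dif_neg h]
  have key := SLin.blocks (G := G) (S := K ∪ Q) (k := 3) (m := 2) β
    (fun x => if x ∈ K then 0 else 1) ?_ ?_
  · exact key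
  · intro n
    obtain ⟨B, hB⟩ : ∃ B, B = (K ∪ Q).filter (fun x => β x = n) := ⟨_, rfl⟩
    rw [← hB]
    obtain ⟨F, hF⟩ : ∃ F, F = B.filter (fun x => x ∈ K) := ⟨_, rfl⟩
    have hFm : ∀ x, x ∈ F → x ∈ K ∧ β x = n := by
      intro x hx
      rw [hF, hB] at hx
      simp only [Finset.mem_filter] at hx
      exact ⟨hx.2, hx.1.2⟩
    have hi : Ind G (B \ F) := by
      have h1 : ∀ x ∈ B \ F, x ∈ Q ∧ β x = n := by
        intro x hx
        rw [hF, hB] at hx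
        simp only [Finset.mem_sdiff, Finset.mem_filter, Finset.mem_union, not_and] at hx
        exact ⟨(hx.1.1).resolve_left (hx.2 hx.1), hx.1.2⟩
      intro x hx y hy hxy
      obtain ⟨hxQ, hxn⟩ := h1 x hx
      obtain ⟨hyQ, hyn⟩ := h1 y hy
      have hne : x ≠ y := G.ne_of_adj hxy
      refine (hq x hxQ y hyQ hne).1 hxy (hp _ (hQS _ (hm x hxQ)) _ (hQS _ (hm y hyQ)) ?_)
      rw [← hβQ x hxQ, ← hβQ y hyQ, hxn, hyn]
    have hcard : F.card ≤ 2 := by
      by_contra hlt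
      push Not at hlt
      obtain ⟨k1, h1, k2, h2, k3, h3, h12, h13, h23⟩ := Finset.two_lt_card.1 hlt
      -- every vertex of `F` has a neighbour in `Q`
      have hatt : ∀ a ∈ F, ∀ c ∈ F, a ≠ c → ∃ y ∈ Q, G.Adj a y := by
        intro a ha c hc hac
        by_contra hno
        obtain ⟨haK, han⟩ := hFm a ha
        obtain ⟨hcK, hcn⟩ := hFm c hc
        have h4 := hβK2 a haK hno
        by_cases hc' : ∃ y ∈ Q, G.Adj c y
        · obtain ⟨y, hy, hcy⟩ := hc'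
          have h5 := hβK1 c hcK y hy hcy
          have h6 := hp _ (hKS a haK) _ (hQS _ (hm y hy)) (by rw [← h4, ← h5, han, hcn])
          exact hdis a haK (by rw [h6]; exact hm y hy)
        · have h5 := hβK2 c hcK hc'
          exact hac (hp _ (hKS a haK) _ (hKS c hcK) (by rw [← h4, ← h5, han, hcn]))
      obtain ⟨x1, hx1, ha1⟩ := hatt k1 h1 k2 h2 h12
      obtain ⟨x2, hx2, ha2⟩ := hatt k2 h2 k3 h3 h23
      obtain ⟨x3, hx3, ha3⟩ := hatt k3 h3 k1 h1 (Ne.symm h13)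
      obtain ⟨hk1, hn1⟩ := hFm k1 h1
      obtain ⟨hk2, hn2⟩ := hFm k2 h2
      obtain ⟨hk3, hn3⟩ := hFm k3 h3
      have e1 := hβK1 k1 hk1 x1 hx1 ha1
      have e2 := hβK1 k2 hk2 x2 hx2 ha2
      have e3 := hβK1 k3 hk3 x3 hx3 ha3
      have m2 : m x2 = m x1 := hp _ (hQS _ (hm x2 hx2)) _ (hQS _ (hm x1 hx1))
        (by rw [← e1, ← e2, hn1, hn2])
      have m3 : m x3 = m x1 := hp _ (hQS _ (hm x3 hx3)) _ (hQS _ (hm x1 hx1))
        (by rw [← e1, ← e3, hn1, hn3])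
      have n2 : ¬ G.Adj k1 x2 := fun h => h12 (b0 x2 hx2 k1 hk1 k2 hk2 h.symm ha2.symm)
      have n3 : ¬ G.Adj k1 x3 := fun h => h13 (b0 x3 hx3 k1 hk1 k3 hk3 h.symm ha3.symm)
      have e := b2 k1 hk1 x1 hx1 ha1 x2 hx2 x3 hx3 m2 m3 n2 n3
      rw [← e] at ha3
      exact h23 (b0 x2 hx2 k2 hk2 k3 hk3 ha2.symm ha3.symm)
    exact ((slin_ind hi).add F).mono_k (by omega)
  · intro u hu v hv w hw huw hvw hc
    have hQKne : ∀ x ∈ Q, ∀ k ∈ K, β x ≠ β k → ¬ G.Adj k x := by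
      intro x hx k hk hne h
      exact hne (by rw [hβQ x hx, hβK1 k hk x hx h])
    have hQQ : ∀ x ∈ Q, ∀ y ∈ Q, β x ≠ β y → G.Adj x y := by
      intro x hx y hy hne
      have h1 : x ≠ y := fun h => hne (by rw [h])
      refine (hq x hx y hy h1).2 fun h => hne ?_
      rw [hβQ x hx, hβQ y hy, h]
    have hKK : ∀ x ∈ K, ∀ y ∈ K, β x ≠ β y → G.Adj x y := by
      intro x hx y hy hne
      exact hK x hx y hy fun h => hne (by rw [h])
    by_cases huK : u ∈ K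
    · have hvK : v ∈ K := by
        by_contra hvK
        simp only [huK, hvK, if_true, if_false] at hc
        exact absurd hc (by decide)
      by_cases hwK : w ∈ K
      · exact iff_of_true (hKK u huK w hwK huw.ne) (hKK v hvK w hwK hvw.ne)
      · have hwQ : w ∈ Q := (Finset.mem_union.1 hw).resolve_left hwK
        exact iff_of_false (hQKne w hwQ u huK huw.ne') (hQKne w hwQ v hvK hvw.ne')
    · have hvK : v ∉ K := by
        intro hvK
        simp only [huK, hvK, if_true, if_false] at hc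
        exact absurd hc (by decide)
      have huQ : u ∈ Q := (Finset.mem_union.1 hu).resolve_left huK
      have hvQ : v ∈ Q := (Finset.mem_union.1 hv).resolve_left hvK
      by_cases hwK : w ∈ K
      · exact iff_of_false (fun h => hQKne u huQ w hwK huw.ne h.symm)
          (fun h => hQKne v hvQ w hwK hvw.ne h.symm)
      · have hwQ : w ∈ Q := (Finset.mem_union.1 hw).resolve_left hwK
        exact iff_of_true (hQQ u huQ w hwQ huw.ne) (hQQ v hvQ w hwQ hvw.ne)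

end SBlocks

end Pool.Agent.Helper856.Cw
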