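import Pool.Agent.Helper856.Pair.Defs
import Pool.Agent.Helper856.Cw.Basic
import Pool.Agent.Helper856.Pair.SBase
import Pool.Agent.Helper856.Pair.SClean
import Pool.Agent.Helper856.Pair.SPieces

open Classical SimpleGraph

namespace Pool.Agent.Helper856.Cw

open SBase (cl_vertex in_vertex)
open SClean (clean)
open SPieces (pieces)

namespace SThree

variable {V : Type} {G : SimpleGraph V} {S T : Finset V} {k l : ℕ}

theorem clean' (X Y : Finset V) (E : V → V → Prop)
    (h1 : ∀ x ∈ X, (Y.filter (fun y => E x y)).card ≤ 1 ∨ (Y.filter (fun y => ¬E x y)).card ≤ 1)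
    (h2 : ∀ y ∈ Y, (X.filter (fun x => E x y)).card ≤ 1 ∨ (X.filter (fun x => ¬E x y)).card ≤ 1) :
    ∃ D : Finset V, D.card ≤ 6 ∧ ∃ q : Prop,
      (∀ x ∈ X \ D, ((Y \ D).filter (fun y => ¬(E x y ↔ q))).card ≤ 1) ∧
        ∀ y ∈ Y \ D, ((X \ D).filter (fun x => ¬(E x y ↔ q))).card ≤ 1 := by
  obtain ⟨D, _, hc, h | h⟩ := clean X Y E h1 h2
  · refine ⟨D, hc, False, ?_, ?_⟩
    · intro x hx
      simpa using h.1 x hx
    · intro y hy
      simpa using h.2 y hy
  · refine ⟨D, hc, True, ?_, ?_⟩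
    · intro x hx
      simpa using h.1 x hx
    · intro y hy
      simpa using h.2 y hy

theorem card_le_two_of {A B E : Finset V} (h : E ⊆ A ∪ B) (hA : A.card ≤ 1) (hB : B.card ≤ 1) :
    E.card ≤ 2 :=
  (Finset.card_le_card h).trans ((Finset.card_union_le _ _).trans (by omega))

theorem cl_cl (h : NoFc G) {K W : Finset V} (hK : Clq G K) (hW : Clq G W) (d : Disjoint K W) :
    ∃ D : Finset V, D.card ≤ 6 ∧ ∃ q : Prop,
      (∀ x ∈ K \ D, ((W \ D).filter (fun y => ¬(G.Adj x y ↔ q))).card ≤ 1) ∧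
        ∀ y ∈ W \ D, ((K \ D).filter (fun x => ¬(G.Adj x y ↔ q))).card ≤ 1 := by
  refine clean' K W G.Adj ?_ ?_
  · intro x hx
    exact cl_vertex h hW (Finset.disjoint_left.mp d hx)
  · intro y hy
    have := cl_vertex h hK (Finset.disjoint_right.mp d hy)
    unfold nb at this
    simp only [G.adj_comm y] at this
    exact this

theorem cl_ind (h : NoFc G) (h' : No2P1P3 G) {W P : Finset V} (hW : Clq G W) (hP : Ind G P)
    (d : Disjoint W P) :
    ∃ D : Finset V, D.card ≤ 6 ∧ ∃ q : Prop,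
      (∀ x ∈ W \ D, ((P \ D).filter (fun y => ¬(G.Adj x y ↔ q))).card ≤ 1) ∧
        ∀ y ∈ P \ D, ((W \ D).filter (fun x => ¬(G.Adj x y ↔ q))).card ≤ 1 := by
  refine clean' W P G.Adj ?_ ?_
  · intro x hx
    exact in_vertex h' hP
  · intro y hy
    have := cl_vertex h hW (Finset.disjoint_right.mp d hy)
    unfold nb at this
    simp only [G.adj_comm y] at this
    exact this

/-- TARGET -/
theorem kt_three (h : NoFc G) {K C W : Finset V} (hK : Clq G K) (hC : Clq G C) (hW : Clq G W)
    (d1 : Disjoint K C) (d2 : Disjoint K W) (d3 : Disjoint C W)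
    (a1 : ∀ x ∈ C, (nb G K x).card ≤ 1) (a2 : ∀ x ∈ K, (nb G C x).card ≤ 1) :
    SLin 21 G (K ∪ C ∪ W) := by
  obtain ⟨D1, hc1, q1, e1, e2⟩ := cl_cl h hK hW d2
  obtain ⟨D2, hc2, q2, f1, f2⟩ := cl_cl h hC hW d3
  let τ : V → Fin 3 := fun v => if v ∈ K then 0 else if v ∈ C then 1 else 2
  let Q : Fin 3 → Fin 3 → Prop :=
    ![![True, False, q1], ![False, True, q2], ![q1, q2, True]]
  have hτK : ∀ v ∈ K, τ v = 0 := fun v hv => by simp [τ, hv]
  have hτC : ∀ v ∈ C, τ v = 1 := fun v hv => by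
    simp [τ, hv, Finset.disjoint_right.mp d1 hv]
  have hτW : ∀ v ∈ W, τ v = 2 := fun v hv => by
    simp [τ, Finset.disjoint_right.mp d2 hv, Finset.disjoint_right.mp d3 hv]
  have key : SLin (3 * 3) G ((K ∪ C ∪ W) \ (D1 ∪ D2)) := by
    refine pieces τ Q ?_ ?_
    · intro i j
      fin_cases i <;> fin_cases j <;> simp [Q]
    · intro v hv
      simp only [Finset.mem_sdiff, Finset.mem_union, not_or] at hv
      obtain ⟨hv1, hvD1, hvD2⟩ := hv
      rcases hv1 with (hv1 | hv1) | hv1
      · refine card_le_two_of (A := nb G C v)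
          (B := (W \ D1).filter (fun y => ¬(G.Adj v y ↔ q1))) ?_ (a2 v hv1)
          (e1 v (by simp [hv1, hvD1]))
        intro w hw
        simp only [Finset.mem_filter, Finset.mem_sdiff, Finset.mem_union, not_or, hτK v hv1] at hw
        obtain ⟨⟨hw1, hwD1, hwD2⟩, hne, hQ⟩ := hw
        rcases hw1 with (hw1 | hw1) | hw1
        · rw [hτK w hw1] at hQ
          exact absurd (hK v hv1 w hw1 (Ne.symm hne)) (by simpa [Q] using hQ)
        · rw [hτC w hw1] at hQ
          simp only [Finset.mem_union, nb, Finset.mem_filter]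
          exact Or.inl ⟨hw1, by simpa [Q] using hQ⟩
        · rw [hτW w hw1] at hQ
          simp only [Finset.mem_union, Finset.mem_filter, Finset.mem_sdiff]
          exact Or.inr ⟨⟨hw1, hwD1⟩, by simpa [Q] using hQ⟩
      · refine card_le_two_of (A := nb G K v)
          (B := (W \ D2).filter (fun y => ¬(G.Adj v y ↔ q2))) ?_ (a1 v hv1)
          (f1 v (by simp [hv1, hvD2]))
        intro w hw
        simp only [Finset.mem_filter, Finset.mem_sdiff, Finset.mem_union, not_or, hτC v hv1] at hw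
        obtain ⟨⟨hw1, hwD1, hwD2⟩, hne, hQ⟩ := hw
        rcases hw1 with (hw1 | hw1) | hw1
        · rw [hτK w hw1] at hQ
          simp only [Finset.mem_union, nb, Finset.mem_filter]
          exact Or.inl ⟨hw1, by simpa [Q] using hQ⟩
        · rw [hτC w hw1] at hQ
          exact absurd (hC v hv1 w hw1 (Ne.symm hne)) (by simpa [Q] using hQ)
        · rw [hτW w hw1] at hQ
          simp only [Finset.mem_union, Finset.mem_filter, Finset.mem_sdiff]
          exact Or.inr ⟨⟨hw1, hwD2⟩, by simpa [Q] using hQ⟩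
      · refine card_le_two_of (A := (K \ D1).filter (fun x => ¬(G.Adj x v ↔ q1)))
          (B := (C \ D2).filter (fun x => ¬(G.Adj x v ↔ q2))) ?_ (e2 v (by simp [hv1, hvD1]))
          (f2 v (by simp [hv1, hvD2]))
        intro w hw
        simp only [Finset.mem_filter, Finset.mem_sdiff, Finset.mem_union, not_or, hτW v hv1] at hw
        obtain ⟨⟨hw1, hwD1, hwD2⟩, hne, hQ⟩ := hw
        rcases hw1 with (hw1 | hw1) | hw1
        · rw [hτK w hw1, G.adj_comm] at hQ
          simp only [Finset.mem_union, Finset.mem_filter, Finset.mem_sdiff]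
          exact Or.inl ⟨⟨hw1, hwD1⟩, by simpa [Q] using hQ⟩
        · rw [hτC w hw1, G.adj_comm] at hQ
          simp only [Finset.mem_union, Finset.mem_filter, Finset.mem_sdiff]
          exact Or.inr ⟨⟨hw1, hwD2⟩, by simpa [Q] using hQ⟩
        · rw [hτW w hw1] at hQ
          exact absurd (hW v hv1 w hw1 (Ne.symm hne)) (by simpa [Q] using hQ)
  have := SLin.add (D1 ∪ D2) key
  refine SLin.mono_k this ?_
  have := Finset.card_union_le D1 D2
  omega

/-- TARGET -/
theorem kt_four (h : NoFc G) (h' : No2P1P3 G) {K C W P : Finset V} (hK : Clq G K) (hC : Clq G C)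
    (hW : Clq G W) (hP : Ind G P) (d1 : Disjoint K C) (d2 : Disjoint K W) (d3 : Disjoint C W)
    (d4 : Disjoint K P) (d5 : Disjoint C P) (d6 : Disjoint W P)
    (a1 : ∀ x ∈ C, (nb G K x).card ≤ 1) (a2 : ∀ x ∈ K, (nb G C x).card ≤ 1)
    (b1 : ∀ k ∈ K, ∀ p ∈ P, ¬G.Adj k p) (b2 : ∀ c ∈ C, ∀ p ∈ P, G.Adj c p)
    (b3 : ∀ c ∈ C, ∀ w ∈ W, ¬G.Adj c w) : SLin 24 G (K ∪ C ∪ W ∪ P) := by
  obtain ⟨D1, hc1, q1, e1, e2⟩ := cl_cl h hK hW d2
  obtain ⟨D2, hc2, q3, f1, f2⟩ := cl_ind h h' hW hP d6
  let τ : V → Fin 4 := fun v => if v ∈ K then 0 else if v ∈ C then 1 else if v ∈ W then 2 else 3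
  let Q : Fin 4 → Fin 4 → Prop :=
    ![![True, False, q1, False], ![False, True, False, True], ![q1, False, True, q3],
      ![False, True, q3, False]]
  have hτK : ∀ v ∈ K, τ v = 0 := fun v hv => by simp [τ, hv]
  have hτC : ∀ v ∈ C, τ v = 1 := fun v hv => by
    simp [τ, hv, Finset.disjoint_right.mp d1 hv]
  have hτW : ∀ v ∈ W, τ v = 2 := fun v hv => by
    simp [τ, hv, Finset.disjoint_right.mp d2 hv, Finset.disjoint_right.mp d3 hv]
  have hτP : ∀ v ∈ P, τ v = 3 := fun v hv => by
    simp [τ, Finset.disjoint_right.mp d4 hv, Finset.disjoint_right.mp d5 hv,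
      Finset.disjoint_right.mp d6 hv]
  have key : SLin (4 * 3) G ((K ∪ C ∪ W ∪ P) \ (D1 ∪ D2)) := by
    refine pieces τ Q ?_ ?_
    · intro i j
      fin_cases i <;> fin_cases j <;> simp [Q]
    · intro v hv
      simp only [Finset.mem_sdiff, Finset.mem_union, not_or] at hv
      obtain ⟨hv1, hvD1, hvD2⟩ := hv
      rcases hv1 with ((hv1 | hv1) | hv1) | hv1
      · refine card_le_two_of (A := nb G C v)
          (B := (W \ D1).filter (fun y => ¬(G.Adj v y ↔ q1))) ?_ (a2 v hv1)
          (e1 v (by simp [hv1, hvD1]))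
        intro w hw
        simp only [Finset.mem_filter, Finset.mem_sdiff, Finset.mem_union, not_or, hτK v hv1] at hw
        obtain ⟨⟨hw1, hwD1, hwD2⟩, hne, hQ⟩ := hw
        rcases hw1 with ((hw1 | hw1) | hw1) | hw1
        · rw [hτK w hw1] at hQ
          exact absurd (hK v hv1 w hw1 (Ne.symm hne)) (by simpa [Q] using hQ)
        · rw [hτC w hw1] at hQ
          simp only [Finset.mem_union, nb, Finset.mem_filter]
          exact Or.inl ⟨hw1, by simpa [Q] using hQ⟩
        · rw [hτW w hw1] at hQ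
          simp only [Finset.mem_union, Finset.mem_filter, Finset.mem_sdiff]
          exact Or.inr ⟨⟨hw1, hwD1⟩, by simpa [Q] using hQ⟩
        · rw [hτP w hw1] at hQ
          exact absurd (by simpa [Q] using hQ : G.Adj v w) (b1 v hv1 w hw1)
      · refine card_le_two_of (A := nb G K v) (B := ∅) ?_ (a1 v hv1) (by simp)
        intro w hw
        simp only [Finset.mem_filter, Finset.mem_sdiff, Finset.mem_union, not_or, hτC v hv1] at hw
        obtain ⟨⟨hw1, hwD1, hwD2⟩, hne, hQ⟩ := hw
        rcases hw1 with ((hw1 | hw1) | hw1) | hw1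
        · rw [hτK w hw1] at hQ
          simp only [Finset.mem_union, nb, Finset.mem_filter]
          exact Or.inl ⟨hw1, by simpa [Q] using hQ⟩
        · rw [hτC w hw1] at hQ
          exact absurd (hC v hv1 w hw1 (Ne.symm hne)) (by simpa [Q] using hQ)
        · rw [hτW w hw1] at hQ
          exact absurd (by simpa [Q] using hQ : G.Adj v w) (b3 v hv1 w hw1)
        · rw [hτP w hw1] at hQ
          exact absurd (b2 v hv1 w hw1) (by simpa [Q] using hQ)
      · refine card_le_two_of (A := (K \ D1).filter (fun x => ¬(G.Adj x v ↔ q1)))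
          (B := (P \ D2).filter (fun y => ¬(G.Adj v y ↔ q3))) ?_ (e2 v (by simp [hv1, hvD1]))
          (f1 v (by simp [hv1, hvD2]))
        intro w hw
        simp only [Finset.mem_filter, Finset.mem_sdiff, Finset.mem_union, not_or, hτW v hv1] at hw
        obtain ⟨⟨hw1, hwD1, hwD2⟩, hne, hQ⟩ := hw
        rcases hw1 with ((hw1 | hw1) | hw1) | hw1
        · rw [hτK w hw1, G.adj_comm] at hQ
          simp only [Finset.mem_union, Finset.mem_filter, Finset.mem_sdiff]
          exact Or.inl ⟨⟨hw1, hwD1⟩, by simpa [Q] using hQ⟩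
        · rw [hτC w hw1, G.adj_comm] at hQ
          exact absurd (by simpa [Q] using hQ : G.Adj w v) (b3 w hw1 v hv1)
        · rw [hτW w hw1] at hQ
          exact absurd (hW v hv1 w hw1 (Ne.symm hne)) (by simpa [Q] using hQ)
        · rw [hτP w hw1] at hQ
          simp only [Finset.mem_union, Finset.mem_filter, Finset.mem_sdiff]
          exact Or.inr ⟨⟨hw1, hwD2⟩, by simpa [Q] using hQ⟩
      · refine card_le_two_of (A := (W \ D2).filter (fun x => ¬(G.Adj x v ↔ q3)))
          (B := ∅) ?_ (f2 v (by simp [hv1, hvD2])) (by simp)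
        intro w hw
        simp only [Finset.mem_filter, Finset.mem_sdiff, Finset.mem_union, not_or, hτP v hv1] at hw
        obtain ⟨⟨hw1, hwD1, hwD2⟩, hne, hQ⟩ := hw
        rcases hw1 with ((hw1 | hw1) | hw1) | hw1
        · rw [hτK w hw1, G.adj_comm] at hQ
          exact absurd (by simpa [Q] using hQ : G.Adj w v) (b1 w hw1 v hv1)
        · rw [hτC w hw1, G.adj_comm] at hQ
          exact absurd (b2 w hw1 v hv1) (by simpa [Q] using hQ)
        · rw [hτW w hw1, G.adj_comm] at hQ
          simp only [Finset.mem_union, Finset.mem_filter, Finset.mem_sdiff]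
          exact Or.inl ⟨⟨hw1, hwD2⟩, by simpa [Q] using hQ⟩
        · rw [hτP w hw1] at hQ
          exact absurd (by simpa [Q] using hQ : G.Adj v w) (hP v hv1 w hw1)
  have := SLin.add (D1 ∪ D2) key
  refine SLin.mono_k this ?_
  have := Finset.card_union_le D1 D2
  omega

end SThree

end Pool.Agent.Helper856.Cw
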