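import Pool.Agent.Helper856.Pair.Defs
import Pool.Agent.Helper856.Cw.Basic
import Pool.Agent.Helper856.Pair.SBase
import Pool.Agent.Helper856.Pair.SKm
import Pool.Agent.Helper856.Pair.SBlocks
import Pool.Agent.Helper856.Pair.SThree

open Classical SimpleGraph

namespace Pool.Agent.Helper856.Cw

open SBase (cl_vertex)
open SKm (km_struct)
open SBlocks (kt_blocks)
open SThree (kt_three kt_four)

namespace SKtc

variable {V : Type} {G : SimpleGraph V} {S T : Finset V} {k l : ℕ}

theorem kc_avoid {K B : Finset V} (h : B.card < K.card) : ∃ k ∈ K, k ∉ B :=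
  Finset.exists_mem_notMem_of_card_lt_card h

theorem kc_maxclique {T C0 : Finset V} (hC0 : C0 ⊆ T) (hc : Clq G C0) :
    ∃ C : Finset V, C0 ⊆ C ∧ C ⊆ T ∧ Clq G C ∧ ∀ v ∈ T, v ∉ C → ∃ w ∈ C, ¬G.Adj v w := by
  obtain ⟨C, hC, hmax⟩ := Finset.exists_max_image
    (T.powerset.filter (fun C => C0 ⊆ C ∧ Clq G C)) (fun C => C.card)
    ⟨C0, by simp [hC0, hc]⟩
  rw [Finset.mem_filter, Finset.mem_powerset] at hC
  refine ⟨C, hC.2.1, hC.1, hC.2.2, fun v hv hvC => ?_⟩
  by_contra hcon
  push Not at hcon
  have hmem : insert v C ∈ T.powerset.filter (fun C => C0 ⊆ C ∧ Clq G C) := by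
    rw [Finset.mem_filter, Finset.mem_powerset]
    refine ⟨Finset.insert_subset hv hC.1, hC.2.1.trans (Finset.subset_insert _ _), ?_⟩
    intro x hx y hy hxy
    rw [Finset.mem_insert] at hx hy
    rcases hx with rfl | hx
    · rcases hy with rfl | hy
      · exact absurd rfl hxy
      · exact hcon y hy
    · rcases hy with rfl | hy
      · exact (hcon x hx).symm
      · exact hC.2.2 x hx y hy hxy
  have := hmax _ hmem
  rw [Finset.card_insert_of_notMem hvC] at this
  omega

/-- a vertex with at most one non-neighbour in `A ⊇ B`, `|B| ≥ 3`, has two neighbours in `B` -/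
theorem kc_two {A B : Finset V} {v : V} (hBA : B ⊆ A) (hB : 3 ≤ B.card)
    (hv : (A.filter (fun x => ¬G.Adj v x)).card ≤ 1) :
    ∃ a ∈ B, ∃ b ∈ B, a ≠ b ∧ G.Adj v a ∧ G.Adj v b := by
  have h1 : (B.filter (fun x => ¬G.Adj v x)).card ≤ 1 :=
    (Finset.card_le_card (Finset.filter_subset_filter _ hBA)).trans hv
  have h2 := Finset.card_filter_add_card_filter_not (s := B) (fun x => G.Adj v x)
  have h3 : 1 < (B.filter (fun x => G.Adj v x)).card := by omega
  obtain ⟨a, ha, b, hb, hab⟩ := Finset.one_lt_card.1 h3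
  rw [Finset.mem_filter] at ha hb
  exact ⟨a, ha.1, b, hb.1, hab, ha.2, hb.2⟩

/-- TARGET -/
theorem kt_clique (h : NoFc G) (h' : No2P1P3 G) {K C0 : Finset V} (hK : Clq G K)
    (h8 : 8 ≤ K.card) (hd : Disjoint K T) (hT : ∀ t ∈ T, (nb G K t).card ≤ 1) (hC0 : C0 ⊆ T)
    (hc : Clq G C0) (h10 : 10 ≤ C0.card) (hk : ∀ c ∈ C0, ∃ k ∈ K, G.Adj c k)
    (hdis : ∀ c ∈ C0, ∀ c' ∈ C0, ∀ k ∈ K, G.Adj c k → G.Adj c' k → c = c') :
    SLin 50 G (K ∪ T) := by
  obtain ⟨C, hC0C, hCT, hC, hCmax⟩ := kc_maxclique hC0 hc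
  have hCcard : 10 ≤ C.card := h10.trans (Finset.card_le_card hC0C)
  obtain ⟨W, m, -, hWT, hCW, -, hmC, hmid, hQ, hWm⟩ := km_struct h hCT hC (by omega) hCmax
  have hCQ : C ⊆ T \ W := by
    intro x hx
    rw [Finset.mem_sdiff]
    exact ⟨hCT hx, fun hxW => Finset.disjoint_left.1 hCW hx hxW⟩
  have hKT : ∀ k ∈ K, k ∉ T := fun k hk hkT => Finset.disjoint_left.1 hd hk hkT
  have hQT : ∀ x ∈ T \ W, x ∈ T := fun x hx => (Finset.mem_sdiff.1 hx).1
  -- at most one neighbour in K
  have hone : ∀ t ∈ T, ∀ k ∈ K, ∀ k' ∈ K, G.Adj t k → G.Adj t k' → k = k' := by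
    intro t ht k hk k' hk' h1 h2
    exact Finset.card_le_one.1 (hT t ht) k (by simp [nb, hk, h1]) k' (by simp [nb, hk', h2])
  have B0 : ∀ k ∈ K, (nb G C k).card ≤ 1 := by
    intro k hkK
    rcases cl_vertex h hC (v := k) (fun hh => hKT k hkK (hCT hh)) with h1 | h1
    · exact h1
    · exfalso
      obtain ⟨a, ha, b, hb, hab, h2, h3⟩ := kc_two hC0C (by omega) h1
      exact hab (hdis a ha b hb k hkK h2.symm h3.symm)
  have B1 : ∀ k ∈ K, ∀ x ∈ T \ W, ∀ y ∈ T \ W, G.Adj k x → G.Adj k y → m x = m y := by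
    intro k hkK x hx y hy hkx hky
    by_contra hne
    have hxy : x ≠ y := fun hh => hne (by rw [hh])
    have hxyA : G.Adj x y := (hQ x hx y hy hxy).2 hne
    have hxc : ∀ z ∈ T \ W, ∀ c ∈ C, c ≠ m z → G.Adj z c := by
      intro z hz c hcC hcz
      have hzc : z ≠ c := by
        rintro rfl
        exact hcz (hmid z hcC).symm
      refine (hQ z hz c (hCQ hcC) hzc).2 ?_
      rw [hmid c hcC]
      exact fun hh => hcz hh.symm
    set D : Finset V := C \ {m x, m y} with hD
    set C' : Finset V := insert x (insert y D) with hC'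
    have hDm : ∀ c ∈ D, c ∈ C ∧ c ≠ m x ∧ c ≠ m y := by
      intro c hcD
      rw [hD, Finset.mem_sdiff, Finset.mem_insert, Finset.mem_singleton, not_or] at hcD
      exact ⟨hcD.1, hcD.2.1, hcD.2.2⟩
    have hC'clq : Clq G C' := by
      intro a ha b hb hab
      rw [hC', Finset.mem_insert, Finset.mem_insert] at ha hb
      rcases ha with rfl | rfl | ha
      · rcases hb with rfl | rfl | hb
        · exact absurd rfl hab
        · exact hxyA
        · exact hxc _ hx b (hDm b hb).1 (hDm b hb).2.1
      · rcases hb with rfl | rfl | hb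
        · exact hxyA.symm
        · exact absurd rfl hab
        · exact hxc _ hy b (hDm b hb).1 (hDm b hb).2.2
      · rcases hb with rfl | rfl | hb
        · exact (hxc _ hx a (hDm a ha).1 (hDm a ha).2.1).symm
        · exact (hxc _ hy a (hDm a ha).1 (hDm a ha).2.2).symm
        · exact hC a (hDm a ha).1 b (hDm b hb).1 hab
    have hkC' : k ∉ C' := by
      intro hh
      rw [hC', Finset.mem_insert, Finset.mem_insert] at hh
      rcases hh with rfl | rfl | hh
      · exact hKT _ hkK (hQT _ hx)
      · exact hKT _ hkK (hQT _ hy)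
      · exact hKT _ hkK (hCT (hDm _ hh).1)
    rcases cl_vertex h hC'clq hkC' with h1 | h1
    · have := Finset.card_le_one.1 h1 x (by simp [nb, hC', hkx]) y (by simp [nb, hC', hky])
      exact hxy this
    · have hsub : C0 \ {m x, m y} ⊆ C' := by
        intro c hcc
        rw [Finset.mem_sdiff] at hcc
        rw [hC', Finset.mem_insert, Finset.mem_insert]
        refine Or.inr (Or.inr ?_)
        rw [hD, Finset.mem_sdiff]
        exact ⟨hC0C hcc.1, hcc.2⟩
      have hcard : 3 ≤ (C0 \ {m x, m y}).card := by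
        have h2 := Finset.le_card_sdiff {m x, m y} C0
        have h3 : ({m x, m y} : Finset V).card ≤ 2 := Finset.card_le_two
        omega
      obtain ⟨a, ha, b, hb, hab, h2, h3⟩ := kc_two hsub hcard h1
      exact hab (hdis a (Finset.mem_sdiff.1 ha).1 b (Finset.mem_sdiff.1 hb).1 k hkK h2.symm h3.symm)
  have hnadj : ∀ x ∈ T \ W, ∀ y ∈ T \ W, m x = m y → ¬G.Adj x y := by
    intro x hx y hy hm hadj
    exact ((hQ x hx y hy hadj.ne).1 hadj) hm
  have B2 : ∀ k ∈ K, ∀ x ∈ T \ W, G.Adj k x → ∀ y ∈ T \ W, ∀ y' ∈ T \ W, m y = m x →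
      m y' = m x → ¬G.Adj k y → ¬G.Adj k y' → y = y' := by
    intro k hkK x hx hkx y hy y' hy' hmy hmy' hky hky'
    by_contra hne
    have hB : (({k} : Finset V) ∪ nb G K y ∪ nb G K y').card < K.card := by
      have e1 := Finset.card_union_le (({k} : Finset V) ∪ nb G K y) (nb G K y')
      have e2 := Finset.card_union_le ({k} : Finset V) (nb G K y)
      have e3 := hT y (hQT y hy)
      have e4 := hT y' (hQT y' hy')
      rw [Finset.card_singleton] at e2
      omega
    obtain ⟨k1, hk1, hk1n⟩ := kc_avoid hB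
    simp only [Finset.mem_union, Finset.mem_singleton, not_or, nb, Finset.mem_filter, not_and] at hk1n
    obtain ⟨⟨n1, n2⟩, n3⟩ := hk1n
    have n2' := n2 hk1
    have n3' := n3 hk1
    have hk1x : ¬G.Adj k1 x := by
      intro hh
      exact n1 (hone x (hQT x hx) k1 hk1 k hkK hh.symm hkx.symm)
    exact h' y y' k1 k x (hK k1 hk1 k hkK n1) hkx
      (fun hh => hKT k1 hk1 (hh ▸ hQT x hx)) hne hk1x (hnadj y hy y' hy' (hmy.trans hmy'.symm))
      n2' (fun hh => hky hh.symm) (hnadj y hy x hx hmy) n3' (fun hh => hky' hh.symm)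
      (hnadj y' hy' x hx hmy')
  have hWC : ∀ w ∈ W, ∀ c ∈ C, ∀ c' ∈ C, G.Adj w c → G.Adj w c' → c = c' := by
    intro w hw c hcC c' hcC' h1 h2
    have := hWm w hw c (hCQ hcC) c' (hCQ hcC') h1 h2
    rwa [hmid c hcC, hmid c' hcC'] at this
  have hWCcard : ∀ w ∈ W, (nb G C w).card ≤ 1 := by
    intro w hw
    rw [Finset.card_le_one]
    intro a ha b hb
    rw [nb, Finset.mem_filter] at ha hb
    exact hWC w hw a ha.1 b hb.1 ha.2 hb.2
  have B3 : Clq G W := by
    intro w hw w' hw' hne
    by_contra hadj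
    -- bad elements of C0
    have hbad : ∀ u ∈ W, (C0.filter (fun c => G.Adj u c ∨ ∃ k ∈ K, G.Adj c k ∧ G.Adj u k)).card ≤ 2 := by
      intro u hu
      have hsub : C0.filter (fun c => G.Adj u c ∨ ∃ k ∈ K, G.Adj c k ∧ G.Adj u k) ⊆
          nb G C u ∪ C0.filter (fun c => ∃ k ∈ K, G.Adj c k ∧ G.Adj u k) := by
        intro c hcc
        rw [Finset.mem_filter] at hcc
        rw [Finset.mem_union]
        rcases hcc.2 with h1 | h1
        · left; rw [nb, Finset.mem_filter]; exact ⟨hC0C hcc.1, h1⟩
        · right; rw [Finset.mem_filter]; exact ⟨hcc.1, h1⟩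
      have h2 : (C0.filter (fun c => ∃ k ∈ K, G.Adj c k ∧ G.Adj u k)).card ≤ 1 := by
        rw [Finset.card_le_one]
        intro a ha b hb
        rw [Finset.mem_filter] at ha hb
        obtain ⟨ha0, k, hkK, h3, h4⟩ := ha
        obtain ⟨hb0, k', hkK', h5, h6⟩ := hb
        have hkk : k = k' := hone u (hWT hu) k hkK k' hkK' h4 h6
        subst hkk
        exact hdis a ha0 b hb0 k hkK h3 h5
      have h3 := Finset.card_le_card hsub
      have h4 := Finset.card_union_le (nb G C u)
        (C0.filter (fun c => ∃ k ∈ K, G.Adj c k ∧ G.Adj u k))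
      have h5 := hWCcard u hu
      omega
    have hB : ((C0.filter (fun c => G.Adj w c ∨ ∃ k ∈ K, G.Adj c k ∧ G.Adj w k)) ∪
        (C0.filter (fun c => G.Adj w' c ∨ ∃ k ∈ K, G.Adj c k ∧ G.Adj w' k))).card < C0.card := by
      have e1 := Finset.card_union_le
        (C0.filter (fun c => G.Adj w c ∨ ∃ k ∈ K, G.Adj c k ∧ G.Adj w k))
        (C0.filter (fun c => G.Adj w' c ∨ ∃ k ∈ K, G.Adj c k ∧ G.Adj w' k))
      have e2 := hbad w hw
      have e3 := hbad w' hw'
      omega
    obtain ⟨c, hcC, hcn⟩ := kc_avoid hB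
    simp only [Finset.mem_union, Finset.mem_filter, not_or, not_and, not_exists] at hcn
    obtain ⟨n1, n2⟩ := hcn
    obtain ⟨n11, n12⟩ := n1 hcC
    obtain ⟨n21, n22⟩ := n2 hcC
    obtain ⟨k, hkK, hck⟩ := hk c hcC
    have hwk : ¬G.Adj w k := n12 k hkK hck
    have hwk' : ¬G.Adj w' k := n22 k hkK hck
    have hB2 : (({k} : Finset V) ∪ nb G K w ∪ nb G K w').card < K.card := by
      have e1 := Finset.card_union_le (({k} : Finset V) ∪ nb G K w) (nb G K w')
      have e2 := Finset.card_union_le ({k} : Finset V) (nb G K w)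
      have e3 := hT w (hWT hw)
      have e4 := hT w' (hWT hw')
      rw [Finset.card_singleton] at e2
      omega
    obtain ⟨k1, hk1, hk1n⟩ := kc_avoid hB2
    simp only [Finset.mem_union, Finset.mem_singleton, not_or, nb, Finset.mem_filter, not_and] at hk1n
    obtain ⟨⟨o1, o2⟩, o3⟩ := hk1n
    have hk1c : ¬G.Adj k1 c := by
      intro hh
      exact o1 (hone c (hC0 hcC) k1 hk1 k hkK hh.symm hck)
    exact h' w w' k1 k c (hK k1 hk1 k hkK o1) hck.symm
      (fun hh => hKT k1 hk1 (hh ▸ hC0 hcC)) hne hk1c hadj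
      (o2 hk1) hwk n11 (o3 hk1) hwk' n21
  have B4 : ∀ x ∈ T \ W, ∀ y ∈ T \ W, x ≠ y → m x = m y → ∀ w ∈ W, G.Adj w x ∨ G.Adj w y := by
    intro x hx y hy hxy hm w hw
    by_contra hcon
    rw [not_or] at hcon
    have hB : (({m x} : Finset V) ∪ nb G C w).card < C.card := by
      have e2 := Finset.card_union_le ({m x} : Finset V) (nb G C w)
      have e3 := hWCcard w hw
      rw [Finset.card_singleton] at e2
      omega
    obtain ⟨c', hc', hcn⟩ := kc_avoid hB
    simp only [Finset.mem_union, Finset.mem_singleton, not_or, nb, Finset.mem_filter, not_and] at hcn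
    obtain ⟨n1, n2⟩ := hcn
    have n2' := n2 hc'
    have hB2 : (nb G K x ∪ nb G K y ∪ nb G K c' ∪ nb G K w).card < K.card := by
      have e1 := Finset.card_union_le (nb G K x ∪ nb G K y ∪ nb G K c') (nb G K w)
      have e2 := Finset.card_union_le (nb G K x ∪ nb G K y) (nb G K c')
      have e3 := Finset.card_union_le (nb G K x) (nb G K y)
      have e4 := hT x (hQT x hx)
      have e5 := hT y (hQT y hy)
      have e6 := hT c' (hCT hc')
      have e7 := hT w (hWT hw)
      omega
    obtain ⟨k, hkK, hkn⟩ := kc_avoid hB2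
    simp only [Finset.mem_union, not_or, nb, Finset.mem_filter, not_and] at hkn
    obtain ⟨⟨⟨o1, o2⟩, o3⟩, o4⟩ := hkn
    have hadjc : ∀ z ∈ T \ W, m z = m x → G.Adj z c' := by
      intro z hz hmz
      have hzc : z ≠ c' := by
        rintro rfl
        exact n1 (by rw [← hmz, hmid z hc'])
      refine (hQ z hz c' (hCQ hc') hzc).2 ?_
      rw [hmz, hmid c' hc']
      exact fun hh => n1 hh.symm
    exact h' w k x c' y (hadjc x hx rfl) (hadjc y hy hm.symm).symm hxy
      (fun hh => hKT k hkK (hh ▸ hWT hw)) (hnadj x hx y hy hm) (o4 hkK) hcon.1 n2' hcon.2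
      (fun hh => o1 hkK hh.symm) (fun hh => o3 hkK hh.symm) (fun hh => o2 hkK hh.symm)
  have hdKC : Disjoint K C := Finset.disjoint_left.2 fun k hk hkC => hKT k hk (hCT hkC)
  have hdKW : Disjoint K W := Finset.disjoint_left.2 fun k hk hkC => hKT k hk (hWT hkC)
  by_cases hWc : W.card ≤ 12
  · have hbl := kt_blocks (G := G) hK (Finset.disjoint_left.2 fun k hk hkC => hKT k hk (hQT k hkC))
      m (fun x hx => hCQ (hmC x hx)) hQ
      (fun x hx k hk k' hk' => hone x (hQT x hx) k hk k' hk') B1 B2
    have h1 : SLin 8 G ((K ∪ T) \ W) := by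
      refine hbl.subset ?_
      intro z hz
      simp only [Finset.mem_sdiff, Finset.mem_union] at hz ⊢
      rcases hz.1 with h1 | h1
      · exact Or.inl h1
      · exact Or.inr ⟨h1, hz.2⟩
    exact (SLin.add W h1).mono_k (by omega)
  · have hWne : W.Nonempty := by
      rw [← Finset.card_pos]; omega
    obtain ⟨w0, hw0⟩ := hWne
    by_cases hinj : ∀ x ∈ T \ W, ∀ y ∈ T \ W, m x = m y → x = y
    · have hQC : T \ W ⊆ C := by
        intro x hx
        have h1 := hmC x hx
        have h2 := hinj x hx (m x) (hCQ h1) (hmid _ h1).symm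
        rw [h2]; exact h1
      have h3 := kt_three h hK hC B3 hdKC hdKW hCW (fun x hx => hT x (hCT hx)) B0
      refine (h3.subset ?_).mono_k (by omega)
      intro z hz
      simp only [Finset.mem_union] at hz ⊢
      rcases hz with h1 | h1
      · exact Or.inl (Or.inl h1)
      · by_cases hzW : z ∈ W
        · exact Or.inr hzW
        · exact Or.inl (Or.inr (hQC (Finset.mem_sdiff.2 ⟨h1, hzW⟩)))
    · push Not at hinj
      obtain ⟨x0, hx0, y0, hy0, hm0, hne0⟩ := hinj
      have hWe : ∀ w ∈ W, ∀ z ∈ T \ W, G.Adj w z → m z = m x0 := by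
        intro w hw z hz hwz
        rcases B4 x0 hx0 y0 hy0 hne0 hm0 w hw with h1 | h1
        · exact hWm w hw z hz x0 hx0 hwz h1
        · rw [hm0]; exact hWm w hw z hz y0 hy0 hwz h1
      have hsing : ∀ z ∈ T \ W, m z ≠ m x0 → z ∈ C := by
        intro z hz hmz
        have h1 := hmC z hz
        by_cases hzm : z = m z
        · rw [hzm]; exact h1
        · exfalso
          rcases B4 z hz (m z) (hCQ h1) hzm (hmid _ h1).symm w0 hw0 with h2 | h2
          · exact hmz (hWe w0 hw0 z hz h2)
          · have := hWe w0 hw0 (m z) (hCQ h1) h2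
            rw [hmid _ h1] at this
            exact hmz this
      set C' : Finset V := C \ {m x0} with hC'
      have hC'C : C' ⊆ C := Finset.sdiff_subset
      have hC'm : ∀ c ∈ C', m c ≠ m x0 := by
        intro c hcc
        rw [hC', Finset.mem_sdiff, Finset.mem_singleton] at hcc
        rw [hmid c hcc.1]
        exact hcc.2
      set P : Finset V := (T \ W).filter (fun z => m z = m x0) with hP
      have hPm : ∀ p ∈ P, p ∈ T \ W ∧ m p = m x0 := fun p hp => Finset.mem_filter.1 hp
      have hcov : ∀ z ∈ T \ W, z ∈ P ∨ z ∈ C' := by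
        intro z hz
        by_cases hmz : m z = m x0
        · left; exact Finset.mem_filter.2 ⟨hz, hmz⟩
        · right
          have h1 := hsing z hz hmz
          rw [hC', Finset.mem_sdiff, Finset.mem_singleton]
          refine ⟨h1, fun hh => hmz ?_⟩
          rw [hmid z h1]; exact hh
      have hC'clq : Clq G C' := fun a ha b hb hab => hC a (hC'C ha) b (hC'C hb) hab
      have a2 : ∀ x ∈ K, (nb G C' x).card ≤ 1 := fun x hx =>
        (Finset.card_le_card (Finset.filter_subset_filter _ hC'C)).trans (B0 x hx)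
      by_cases hPc : P.card ≤ 3
      · have h3 := kt_three h hK hC'clq B3 (Finset.disjoint_of_subset_right hC'C hdKC) hdKW
          (Finset.disjoint_of_subset_left hC'C hCW) (fun x hx => hT x (hCT (hC'C hx))) a2
        have h4 : SLin 21 G ((K ∪ T) \ P) := by
          refine h3.subset ?_
          intro z hz
          simp only [Finset.mem_sdiff, Finset.mem_union] at hz ⊢
          rcases hz.1 with h1 | h1
          · exact Or.inl (Or.inl h1)
          · by_cases hzW : z ∈ W
            · exact Or.inr hzW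
            · rcases hcov z (Finset.mem_sdiff.2 ⟨h1, hzW⟩) with h5 | h5
              · exact absurd h5 hz.2
              · exact Or.inl (Or.inr h5)
        exact (SLin.add P h4).mono_k (by omega)
      · set F : Finset V := K.filter (fun k => ∃ p ∈ P, G.Adj k p) with hF
        have hFc : F.card ≤ 1 := by
          rw [Finset.card_le_one]
          intro k1 hk1 k2 hk2
          rw [hF, Finset.mem_filter] at hk1 hk2
          obtain ⟨hk1K, p1, hp1, had1⟩ := hk1
          obtain ⟨hk2K, p2, hp2, had2⟩ := hk2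
          by_contra hne
          have hnon : ∀ k ∈ K, ∀ p ∈ P, G.Adj k p → (P.filter (fun z => ¬G.Adj k z)).card ≤ 1 := by
            intro k hkK p hp hadj
            rw [Finset.card_le_one]
            intro a ha b hb
            rw [Finset.mem_filter] at ha hb
            exact B2 k hkK p (hPm p hp).1 hadj a (hPm a ha.1).1 b (hPm b hb.1).1
              ((hPm a ha.1).2.trans (hPm p hp).2.symm) ((hPm b hb.1).2.trans (hPm p hp).2.symm)
              ha.2 hb.2
          have e1 := hnon k1 hk1K p1 hp1 had1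
          have e2 := hnon k2 hk2K p2 hp2 had2
          have hsub : P ⊆ P.filter (fun z => ¬G.Adj k1 z) ∪ P.filter (fun z => ¬G.Adj k2 z) := by
            intro z hz
            by_cases h1 : G.Adj k1 z
            · exact Finset.mem_union_right _ (Finset.mem_filter.2 ⟨hz, fun h2 => hne
                (hone z (hQT z (hPm z hz).1) k1 hk1K k2 hk2K h1.symm h2.symm)⟩)
            · exact Finset.mem_union_left _ (Finset.mem_filter.2 ⟨hz, h1⟩)
          have e3 := Finset.card_le_card hsub
          have e4 := Finset.card_union_le (P.filter (fun z => ¬G.Adj k1 z))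
            (P.filter (fun z => ¬G.Adj k2 z))
          omega
        have hKF : K \ F ⊆ K := Finset.sdiff_subset
        have hPT : ∀ p ∈ P, p ∈ T := fun p hp => hQT p (hPm p hp).1
        have h4 := kt_four (K := K \ F) (C := C') (W := W) (P := P) h h'
          (fun a ha b hb hab => hK a (hKF ha) b (hKF hb) hab) hC'clq B3
          (fun a ha b hb => hnadj a (hPm a ha).1 b (hPm b hb).1 ((hPm a ha).2.trans (hPm b hb).2.symm))
          (Finset.disjoint_of_subset_left hKF (Finset.disjoint_of_subset_right hC'C hdKC))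
          (Finset.disjoint_of_subset_left hKF hdKW)
          (Finset.disjoint_of_subset_left hC'C hCW)
          (Finset.disjoint_left.2 fun k hk hkP => hKT k (hKF hk) (hPT k hkP))
          (Finset.disjoint_left.2 fun c hcc hcP => hC'm c hcc (hPm c hcP).2)
          (Finset.disjoint_left.2 fun w hw hwP => (Finset.mem_sdiff.1 (hPm w hwP).1).2 hw)
          (fun x hx => (Finset.card_le_card (Finset.filter_subset_filter _ hKF)).trans
            (hT x (hCT (hC'C hx))))
          (fun x hx => a2 x (hKF hx))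
          (by
            intro k hkk p hp hadj
            rw [Finset.mem_sdiff] at hkk
            exact hkk.2 (by rw [hF, Finset.mem_filter]; exact ⟨hkk.1, p, hp, hadj⟩))
          (by
            intro c hcc p hp
            have hcp : c ≠ p := by
              rintro rfl
              exact hC'm c hcc (hPm c hp).2
            refine (hQ c (hCQ (hC'C hcc)) p (hPm p hp).1 hcp).2 ?_
            rw [(hPm p hp).2]
            exact hC'm c hcc)
          (by
            intro c hcc w hw hadj
            exact hC'm c hcc (hWe w hw c (hCQ (hC'C hcc)) hadj.symm))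
        have h5 : SLin 24 G ((K ∪ T) \ F) := by
          refine h4.subset ?_
          intro z hz
          simp only [Finset.mem_sdiff, Finset.mem_union] at hz ⊢
          rcases hz.1 with h1 | h1
          · exact Or.inl (Or.inl (Or.inl ⟨h1, hz.2⟩))
          · by_cases hzW : z ∈ W
            · exact Or.inl (Or.inr hzW)
            · rcases hcov z (Finset.mem_sdiff.2 ⟨h1, hzW⟩) with h5 | h5
              · exact Or.inr h5
              · exact Or.inl (Or.inl (Or.inr h5))
        exact (SLin.add F h5).mono_k (by omega)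

end SKtc

end Pool.Agent.Helper856.Cw
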