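import Pool.Agent.Helper856.Pair.Defs
import Pool.Agent.Helper856.Cw.Basic
import Pool.Agent.Helper856.Cw.Union
import Pool.Agent.Helper856.Pair.Induce
import Pool.Agent.Helper856.Pair.Ramsey
import Pool.Agent.Helper856.Pair.SFacts
import Pool.Agent.Helper856.Pair.SCop
import Pool.Agent.Helper856.Pair.SKtc

open Classical SimpleGraph

namespace Pool.Agent.Helper856.Cw

open Induce (slin_clq)
open Ramsey (ramsey)
open SFacts (km_c1 km_c2)
open SCop (cop_lin)
open SKtc (kt_clique)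

namespace SKt

variable {V : Type} {G : SimpleGraph V} {S T : Finset V} {k l : ℕ}

/-- TARGET -/
theorem kt_main : ∃ c, ∀ (V : Type) (G : SimpleGraph V) (K T : Finset V), No2P1P3 G → NoFc G →
    Clq G K → 8 ≤ K.card → Disjoint K T → (∀ t ∈ T, (nb G K t).card ≤ 1) → SLin c G (K ∪ T) := by
  obtain ⟨c0, hc0⟩ := cop_lin
  obtain ⟨N, hN⟩ := ramsey 10 3
  refine ⟨max 1 c0 + 1 + N + 50, ?_⟩
  intro V G K T h' h hK h8 hd hT
  have huniq : ∀ t ∈ T, ∀ x ∈ K, ∀ y ∈ K, G.Adj t x → G.Adj t y → x = y := by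
    intro t ht x hx y hy h1 h2
    exact Finset.card_le_one.1 (hT t ht) x (Finset.mem_filter.2 ⟨hx, h1⟩) y
      (Finset.mem_filter.2 ⟨hy, h2⟩)
  have hnotT : ∀ x ∈ K, x ∉ T := fun x hx hxT => (Finset.disjoint_left.1 hd) hx hxT
  have hmemK : ∀ x ∈ (K ∪ T) \ T, x ∈ K := by
    intro x hx
    rw [Finset.mem_sdiff, Finset.mem_union] at hx
    rcases hx.1 with h1 | h1
    · exact h1
    · exact absurd h1 hx.2
  have hKM : KM G (K ∪ T) K T id := by
    refine ⟨Finset.subset_union_left, Finset.subset_union_right, hd, hK, hmemK, fun x _ => rfl,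
      ?_, ?_⟩
    · intro x hx y hy hxy
      exact ⟨fun _ => hxy, fun _ => hK x (hmemK x hx) y (hmemK y hy) hxy⟩
    · intro t ht x hx y hy h1 h2
      exact huniq t ht x (hmemK x hx) y (hmemK y hy) h1 h2
  set K1 : Finset V := K.filter (fun k => ∃ t ∈ T, G.Adj t k) with hK1
  rcases le_total K1.card N with hc | hc
  · have hdd : Disjoint (K \ K1) T := by
      rw [Finset.disjoint_left]
      intro x hx hxT
      exact hnotT x (Finset.mem_sdiff.1 hx).1 hxT
    have hX : SLinN (max 1 c0) G (K \ K1) := by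
      have h1 : Clq G (K \ K1) := fun x hx y hy hxy =>
        hK x (Finset.mem_sdiff.1 hx).1 y (Finset.mem_sdiff.1 hy).1 hxy
      exact (slin_clq h1).toN.mono_k (le_max_left _ _)
    have hY : SLinN (max 1 c0) G T :=
      (hc0 V G T h (km_c1 h' hKM h8)).toN.mono_k (le_max_right _ _)
    have hXY : ∀ u ∈ K \ K1, ∀ v ∈ T, ¬G.Adj u v := by
      intro u hu v hv huv
      rw [Finset.mem_sdiff] at hu
      exact hu.2 (Finset.mem_filter.2 ⟨hu.1, v, hv, huv.symm⟩)
    have h2 := (SLinN.union hdd hXY hX hY).toS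
    have h3 : (K \ K1) ∪ T = (K ∪ T) \ K1 := by
      ext x
      simp only [Finset.mem_union, Finset.mem_sdiff]
      constructor
      · rintro (⟨ha, hb⟩ | ha)
        · exact ⟨Or.inl ha, hb⟩
        · exact ⟨Or.inr ha, fun hx => hnotT x (Finset.mem_filter.1 hx).1 ha⟩
      · rintro ⟨ha | ha, hb⟩
        · exact Or.inl ⟨ha, hb⟩
        · exact Or.inr ha
    rw [h3] at h2
    exact (SLin.add K1 h2).mono_k (by omega)
  · have hne : Nonempty V := by
      have : K.Nonempty := Finset.card_pos.1 (by omega)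
      obtain ⟨x, -⟩ := this
      exact ⟨x⟩
    have hex : ∀ k ∈ K1, ∃ t, t ∈ T ∧ G.Adj t k := by
      intro k hk
      obtain ⟨t, ht, htk⟩ := (Finset.mem_filter.1 hk).2
      exact ⟨t, ht, htk⟩
    choose! f hf using hex
    have hK1K : ∀ k ∈ K1, k ∈ K := fun k hk => (Finset.mem_filter.1 hk).1
    have hinj : Set.InjOn f K1 := by
      intro k hk k' hk' heq
      have hk0 : k ∈ K1 := hk
      have hk0' : k' ∈ K1 := hk'
      refine huniq (f k) (hf k hk0).1 k (hK1K k hk0) k' (hK1K k' hk0') (hf k hk0).2 ?_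
      rw [heq]
      exact (hf k' hk0').2
    have hJ : N ≤ (K1.image f).card := by
      rw [Finset.card_image_of_injOn hinj]; exact hc
    rcases hN V G (K1.image f) hJ with ⟨C0, hC0, hcard, hclq⟩ | ⟨C0, hC0, hcard, hind⟩
    · refine (kt_clique h h' hK h8 hd hT ?_ hclq (by omega) ?_ ?_).mono_k (by omega)
      · intro c hc1
        obtain ⟨k, hk, rfl⟩ := Finset.mem_image.1 (hC0 hc1)
        exact (hf k hk).1
      · intro c hc1
        obtain ⟨k, hk, rfl⟩ := Finset.mem_image.1 (hC0 hc1)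
        exact ⟨k, hK1K k hk, (hf k hk).2⟩
      · intro c hc1 c' hc1' k hk h1 h2
        obtain ⟨k0, hk0, rfl⟩ := Finset.mem_image.1 (hC0 hc1)
        obtain ⟨k1, hk1, rfl⟩ := Finset.mem_image.1 (hC0 hc1')
        have e1 := huniq _ (hf k0 hk0).1 k hk k0 (hK1K k0 hk0) h1 (hf k0 hk0).2
        have e2 := huniq _ (hf k1 hk1).1 k hk k1 (hK1K k1 hk1) h2 (hf k1 hk1).2
        rw [← e1, ← e2]
    · exfalso
      obtain ⟨x, y, z, hxy, hxz, hyz, rfl⟩ := Finset.card_eq_three.1 hcard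
      obtain ⟨k1, hk1, rfl⟩ := Finset.mem_image.1 (hC0 (by simp : x ∈ ({x, y, z} : Finset V)))
      obtain ⟨k2, hk2, rfl⟩ := Finset.mem_image.1 (hC0 (by simp : y ∈ ({f k1, y, z} : Finset V)))
      obtain ⟨k3, hk3, rfl⟩ := Finset.mem_image.1
        (hC0 (by simp : z ∈ ({f k1, f k2, z} : Finset V)))
      refine km_c2 h' hKM h8 (q := k1) (s := f k1) (t := f k2) (t' := f k3) ?_ (hf k1 hk1).1
        (hf k2 hk2).1 (hf k3 hk3).1 (hf k1 hk1).2 hyz (hind _ (by simp) _ (by simp)) ?_ ?_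
        (hind _ (by simp) _ (by simp)) (hind _ (by simp) _ (by simp))
      · exact Finset.mem_sdiff.2 ⟨Finset.mem_union_left _ (hK1K k1 hk1), hnotT k1 (hK1K k1 hk1)⟩
      · intro hadj
        have := huniq _ (hf k2 hk2).1 k1 (hK1K k1 hk1) k2 (hK1K k2 hk2) hadj (hf k2 hk2).2
        exact hxy (by rw [this])
      · intro hadj
        have := huniq _ (hf k3 hk3).1 k1 (hK1K k1 hk1) k3 (hK1K k3 hk3) hadj (hf k3 hk3).2
        exact hxz (by rw [this])

end SKt

end Pool.Agent.Helper856.Cw
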