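import Pool.Agent.Helper856.Pair.Defs
import Pool.Agent.Helper856.Pair.Olariu

open Classical SimpleGraph

namespace Pool.Agent.Helper856.Cw

open Olariu (olariu)

namespace SPcp

variable {V : Type} {G : SimpleGraph V} {S T : Finset V} {k l : ℕ}

theorem disc_aux (hc : ¬ Conn G S) (h2 : NoPaw Gᶜ S) :
    ∀ x ∈ S, ∀ y ∈ S, ∀ z ∈ S, G.Adj x y → G.Adj y z → x ≠ z → G.Adj x z := by
  unfold Conn at hc
  push Not at hc
  obtain ⟨X, hXS, hXn, hXne, hX⟩ := hc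
  intro x hx y hy z hz hxy hyz hxz
  by_contra hnxz
  have key : ∃ w ∈ S, w ≠ x ∧ w ≠ y ∧ w ≠ z ∧ ¬ G.Adj w x ∧ ¬ G.Adj w y ∧ ¬ G.Adj w z := by
    by_cases hyX : y ∈ X
    · have hxX : x ∈ X := by
        by_contra h
        exact hX y hyX x (Finset.mem_sdiff.2 ⟨hx, h⟩) hxy.symm
      have hzX : z ∈ X := by
        by_contra h
        exact hX y hyX z (Finset.mem_sdiff.2 ⟨hz, h⟩) hyz
      obtain ⟨w, hw⟩ : (S \ X).Nonempty := by
        rw [Finset.sdiff_nonempty]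
        exact fun h => hXne (Finset.Subset.antisymm hXS h)
      have hw' := Finset.mem_sdiff.1 hw
      refine ⟨w, hw'.1, ?_, ?_, ?_, ?_, ?_, ?_⟩
      · rintro rfl; exact hw'.2 hxX
      · rintro rfl; exact hw'.2 hyX
      · rintro rfl; exact hw'.2 hzX
      · exact fun h => hX x hxX w hw h.symm
      · exact fun h => hX y hyX w hw h.symm
      · exact fun h => hX z hzX w hw h.symm
    · have hyS : y ∈ S \ X := Finset.mem_sdiff.2 ⟨hy, hyX⟩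
      have hxX : x ∉ X := fun h => hX x h y hyS hxy
      have hzX : z ∉ X := fun h => hX z h y hyS hyz.symm
      obtain ⟨w, hw⟩ := hXn
      refine ⟨w, hXS hw, ?_, ?_, ?_, ?_, ?_, ?_⟩
      · rintro rfl; exact hxX hw
      · rintro rfl; exact hyX hw
      · rintro rfl; exact hzX hw
      · exact hX w hw x (Finset.mem_sdiff.2 ⟨hx, hxX⟩)
      · exact hX w hw y hyS
      · exact hX w hw z (Finset.mem_sdiff.2 ⟨hz, hzX⟩)
  obtain ⟨w, hw, w1, w2, w3, w4, w5, w6⟩ := key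
  refine h2 w hw x hx z hz y hy ?_ ?_ ?_ ?_ ?_ ?_ hxy.ne hyz.ne'
  · exact (SimpleGraph.compl_adj _ _ _).2 ⟨w1, w4⟩
  · exact (SimpleGraph.compl_adj _ _ _).2 ⟨w3, w6⟩
  · exact (SimpleGraph.compl_adj _ _ _).2 ⟨hxz, hnxz⟩
  · exact (SimpleGraph.compl_adj _ _ _).2 ⟨w2, w5⟩
  · exact fun h => ((SimpleGraph.compl_adj _ _ _).1 h).2 hxy
  · exact fun h => ((SimpleGraph.compl_adj _ _ _).1 h).2 hyz.symm

theorem ram_aux (G : SimpleGraph V) {T : Finset V} (hT : 2 < T.card) (hTS : T ⊆ S) {v : V}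
    (hvS : v ∈ S) (hv : ∀ x ∈ T, G.Adj v x) :
    (∃ a ∈ S, ∃ b ∈ S, ∃ c ∈ S, G.Adj a b ∧ G.Adj a c ∧ G.Adj b c) ∨
    (∃ a ∈ S, ∃ b ∈ S, ∃ c ∈ S, Gᶜ.Adj a b ∧ Gᶜ.Adj a c ∧ Gᶜ.Adj b c) := by
  obtain ⟨x, hx, y, hy, z, hz, hxy, hxz, hyz⟩ := Finset.two_lt_card.1 hT
  by_cases e1 : G.Adj x y
  · exact Or.inl ⟨v, hvS, x, hTS hx, y, hTS hy, hv x hx, hv y hy, e1⟩
  by_cases e2 : G.Adj x z
  · exact Or.inl ⟨v, hvS, x, hTS hx, z, hTS hz, hv x hx, hv z hz, e2⟩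
  by_cases e3 : G.Adj y z
  · exact Or.inl ⟨v, hvS, y, hTS hy, z, hTS hz, hv y hy, hv z hz, e3⟩
  refine Or.inr ⟨x, hTS hx, y, hTS hy, z, hTS hz, ?_, ?_, ?_⟩
  · exact (SimpleGraph.compl_adj _ _ _).2 ⟨hxy, e1⟩
  · exact (SimpleGraph.compl_adj _ _ _).2 ⟨hxz, e2⟩
  · exact (SimpleGraph.compl_adj _ _ _).2 ⟨hyz, e3⟩

theorem ramsey_aux (G : SimpleGraph V) (hS : 5 < S.card) :
    (∃ a ∈ S, ∃ b ∈ S, ∃ c ∈ S, G.Adj a b ∧ G.Adj a c ∧ G.Adj b c) ∨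
    (∃ a ∈ S, ∃ b ∈ S, ∃ c ∈ S, Gᶜ.Adj a b ∧ Gᶜ.Adj a c ∧ Gᶜ.Adj b c) := by
  obtain ⟨v, hv⟩ : S.Nonempty := Finset.card_pos.1 (by omega)
  have h1 := Finset.card_filter_add_card_filter_not (s := S.erase v) (fun x => G.Adj v x)
  rw [Finset.card_erase_of_mem hv] at h1
  by_cases h2 : 2 < ((S.erase v).filter (fun x => G.Adj v x)).card
  · exact ram_aux G h2 ((Finset.filter_subset _ _).trans (Finset.erase_subset _ _)) hv
      (fun x hx => (Finset.mem_filter.1 hx).2)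
  · have h3 : 2 < ((S.erase v).filter (fun x => ¬ G.Adj v x)).card := by omega
    have h4 := ram_aux Gᶜ h3 ((Finset.filter_subset _ _).trans (Finset.erase_subset _ _)) hv
      (fun x hx => by
        have h5 := Finset.mem_filter.1 hx
        have h6 := Finset.mem_erase.1 h5.1
        exact (SimpleGraph.compl_adj _ _ _).2 ⟨h6.1.symm, h5.2⟩)
    rw [compl_compl] at h4
    exact h4.symm

/-- TARGET -/
theorem paw_copaw (h1 : NoPaw G S) (h2 : NoPaw Gᶜ S) : S.card ≤ 5 ∨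
    (∀ x ∈ S, ∀ y ∈ S, ∀ z ∈ S, G.Adj x y → G.Adj y z → x ≠ z → G.Adj x z) ∨
    (∀ x ∈ S, ∀ y ∈ S, ∀ z ∈ S, Gᶜ.Adj x y → Gᶜ.Adj y z → x ≠ z → Gᶜ.Adj x z) := by
  by_cases c1 : Conn G S
  · by_cases c2 : Conn Gᶜ S
    · rcases Nat.lt_or_ge 5 S.card with h | h
      · rcases ramsey_aux G h with ⟨a, ha, b, hb, c, hc, h3, h4, h5⟩ | ⟨a, ha, b, hb, c, hc, h3, h4, h5⟩
        · exact Or.inr (Or.inr (olariu c1 h1 ha hb hc h3 h4 h5))
        · have := olariu c2 h2 ha hb hc h3 h4 h5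
          rw [compl_compl] at this
          exact Or.inr (Or.inl this)
      · exact Or.inl h
    · refine Or.inr (Or.inr (disc_aux c2 ?_))
      rw [compl_compl]
      exact h1
  · exact Or.inr (Or.inl (disc_aux c1 h2))

end SPcp

end Pool.Agent.Helper856.Cw
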