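import Pool.Agent.Helper856.Pair.Defs

open Classical SimpleGraph

namespace Pool.Agent.Helper856.Cw

namespace STstc

variable {V : Type} {G : SimpleGraph V} {S T : Finset V} {k l : ℕ}

theorem tc_pick {I F : Finset V} (h : F.card < I.card)
    (hF : ∀ d ∈ F, ∀ i ∈ I, ∀ i' ∈ I, (G.Adj d i ∨ d = i) → (G.Adj d i' ∨ d = i') → i = i') :
    ∃ e ∈ I, ∀ d ∈ F, ¬G.Adj d e ∧ d ≠ e := by
  by_contra hcon
  push Not at hcon
  have : I.card ≤ F.card := by
    apply Finset.card_le_card_of_forall_subsingleton (fun i d => G.Adj d i ∨ d = i)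
    · intro i hi
      obtain ⟨d, hd, h2⟩ := hcon i hi
      refine ⟨d, hd, ?_⟩
      by_cases h3 : G.Adj d i
      · exact Or.inl h3
      · exact Or.inr (h2 h3)
    · intro d hd i hi i' hi'
      exact hF d hd i hi.1 i' hi'.1 hi.2 hi'.2
  omega

theorem tc_single {Y I : Finset V}
    (hY : ∀ x ∈ Y, ∀ y ∈ Y, ∀ z ∈ Y, G.Adj x y → G.Adj y z → x ≠ z → G.Adj x z)
    (hI : I ⊆ Y) (hInd : Ind G I) :
    ∀ d ∈ Y, ∀ i ∈ I, ∀ i' ∈ I, (G.Adj d i ∨ d = i) → (G.Adj d i' ∨ d = i') → i = i' := by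
  intro d hd i hi i' hi' h1 h2
  by_contra hne
  rcases h1 with h1 | h1
  · rcases h2 with h2 | h2
    · exact hInd i hi i' hi' (hY i (hI hi) d hd i' (hI hi') h1.symm h2 hne)
    · rw [h2] at h1; exact hInd i' hi' i hi h1
  · rcases h2 with h2 | h2
    · rw [h1] at h2; exact hInd i hi i' hi' h2
    · exact hne (h1.symm.trans h2)

/-- neighbours in a P3-free part -/
theorem tc_i {Ts Y I : Finset V} (hd : Disjoint Ts Y)
    (h1 : NoP1P3T G (Ts ∪ Y)) (hI : I ⊆ Y) (hInd : Ind G I) (h8 : 8 ≤ I.card)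
    (hY : ∀ x ∈ Y, ∀ y ∈ Y, ∀ z ∈ Y, G.Adj x y → G.Adj y z → x ≠ z → G.Adj x z)
    {t : V} (ht : t ∈ Ts) {e : V} (he : e ∈ Y) (hte : ¬G.Adj t e) {d d' : V} (hdY : d ∈ Y)
    (hdY' : d' ∈ Y) (h2 : G.Adj t d) (h3 : G.Adj t d') (hne : d ≠ d') : G.Adj d d' := by
  by_contra hnadj
  have mT : ∀ x ∈ Ts, x ∈ Ts ∪ Y := fun x hx => Finset.mem_union_left _ hx
  have mY : ∀ x ∈ Y, x ∈ Ts ∪ Y := fun x hx => Finset.mem_union_right _ hx
  have hs := tc_single hY hI hInd
  obtain ⟨e', he'I, he'⟩ := tc_pick (G := G) (I := I) (F := {d, d', e})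
    (lt_of_le_of_lt Finset.card_le_three (by omega)) (by
      intro x hx
      apply hs
      simp only [Finset.mem_insert, Finset.mem_singleton] at hx
      rcases hx with h | h | h <;> rw [h] <;> assumption)
  have e1 := he' d (by simp)
  have e2 := he' d' (by simp)
  have e3 := he' e (by simp)
  have hte' : G.Adj t e' := by
    by_contra hn
    exact h1 e' (mY _ (hI he'I)) d (mY _ hdY) t (mT _ ht) d' (mY _ hdY') h2.symm h3 hne hnadj
      (fun h => e1.1 h.symm) (fun h => hn h.symm) (fun h => e2.1 h.symm)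
  by_cases c1 : G.Adj e d
  · have c2 : ¬G.Adj e d' := fun h => hnadj (hY d hdY e he d' hdY' c1.symm h hne)
    exact h1 e (mY _ he) d' (mY _ hdY') t (mT _ ht) e' (mY _ (hI he'I)) h3.symm hte' e2.2 e2.1
      c2 (fun h => hte h.symm) e3.1
  · by_cases c2 : G.Adj e d'
    · exact h1 e (mY _ he) d (mY _ hdY) t (mT _ ht) e' (mY _ (hI he'I)) h2.symm hte' e1.2 e1.1
        c1 (fun h => hte h.symm) e3.1
    · exact h1 e (mY _ he) d (mY _ hdY) t (mT _ ht) d' (mY _ hdY') h2.symm h3 hne hnadj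
        c1 (fun h => hte h.symm) c2

theorem tc_same {Ts Y I : Finset V} (hd : Disjoint Ts Y) (hsq : Clq G Ts)
    (h1 : NoP1P3T G (Ts ∪ Y)) (hI : I ⊆ Y) (hInd : Ind G I) (h8 : 8 ≤ I.card)
    (hY : ∀ x ∈ Y, ∀ y ∈ Y, ∀ z ∈ Y, G.Adj x y → G.Adj y z → x ≠ z → G.Adj x z)
    {t t' : V} (ht : t ∈ Ts) (ht' : t' ∈ Ts) (hc : ¬∀ y ∈ Y, G.Adj t y)
    (hc' : ¬∀ y ∈ Y, G.Adj t' y) {d : V} (hdY : d ∈ Y) (h2 : G.Adj t d) : G.Adj t' d := by
  by_contra h3
  push Not at hc hc'
  obtain ⟨e, he, hte⟩ := hc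
  obtain ⟨f, hf, htf⟩ := hc'
  have mT : ∀ x ∈ Ts, x ∈ Ts ∪ Y := fun x hx => Finset.mem_union_left _ hx
  have mY : ∀ x ∈ Y, x ∈ Ts ∪ Y := fun x hx => Finset.mem_union_right _ hx
  have hs := tc_single hY hI hInd
  have hst : ∀ u ∈ Ts, ∀ g ∈ Y, ¬G.Adj u g → ∀ i ∈ I, ∀ i' ∈ I, (G.Adj u i ∨ u = i) →
      (G.Adj u i' ∨ u = i') → i = i' := by
    intro u hu g hg hug i hi i' hi' a b
    have a' : G.Adj u i := by
      rcases a with a | a
      · exact a
      · exact absurd (hI hi) (fun h => Finset.disjoint_left.mp hd hu (a ▸ h))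
    have b' : G.Adj u i' := by
      rcases b with b | b
      · exact b
      · exact absurd (hI hi') (fun h => Finset.disjoint_left.mp hd hu (b ▸ h))
    by_contra hne
    exact hInd i hi i' hi' (tc_i hd h1 hI hInd h8 hY hu hg hug (hI hi) (hI hi') a' b' hne)
  obtain ⟨e', he'I, he'⟩ := tc_pick (G := G) (I := I) (F := {d, t, t'})
    (lt_of_le_of_lt Finset.card_le_three (by omega)) (by
      intro x hx
      simp only [Finset.mem_insert, Finset.mem_singleton] at hx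
      rcases hx with h | h | h
      · rw [h]; exact hs d hdY
      · rw [h]; exact hst t ht e he hte
      · rw [h]; exact hst t' ht' f hf htf)
  have e1 := he' d (by simp)
  have e2 := he' t (by simp)
  have e3 := he' t' (by simp)
  have htt : t ≠ t' := by
    rintro rfl; exact h3 h2
  have hdt : d ≠ t' := by
    intro h
    exact Finset.disjoint_left.mp hd ht' (h ▸ hdY)
  exact h1 e' (mY _ (hI he'I)) d (mY _ hdY) t (mT _ ht) t' (mT _ ht') h2.symm (hsq t ht t' ht' htt)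
    hdt (fun h => h3 h.symm) (fun h => e1.1 h.symm) (fun h => e2.1 h.symm) (fun h => e3.1 h.symm)

/-- at most one neighbour in an independent part -/
theorem tc_one {T Z : Finset V} (h1 : NoP1P3T G T) (hZT : Z ⊆ T) (hZ : Ind G Z)
    {t : V} (ht : t ∈ T) (hc : ¬∀ y ∈ Z, G.Adj t y) {i i' : V} (hi : i ∈ Z) (hi' : i' ∈ Z)
    (a : G.Adj t i) (b : G.Adj t i') : i = i' := by
  push Not at hc
  obtain ⟨e, he, hte⟩ := hc
  by_contra hne
  exact h1 e (hZT he) i (hZT hi) t ht i' (hZT hi') a.symm b hne (hZ i hi i' hi')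
    (hZ e he i hi) (fun h => hte h.symm) (hZ e he i' hi')

theorem tc_indsame {Ts T Z : Finset V} (h1 : NoP1P3T G T) (hTs : Ts ⊆ T) (hZT : Z ⊆ T)
    (hd : Disjoint Ts Z) (hsq : Clq G Ts) (hZ : Ind G Z) (h4 : 4 ≤ Z.card)
    {t t' : V} (ht : t ∈ Ts) (ht' : t' ∈ Ts) (hc : ¬∀ y ∈ Z, G.Adj t y)
    (hc' : ¬∀ y ∈ Z, G.Adj t' y) {z : V} (hz : z ∈ Z) (h2 : G.Adj t z) : G.Adj t' z := by
  by_contra h3
  have hsing : ∀ u ∈ Ts, (¬∀ y ∈ Z, G.Adj u y) → ∀ i ∈ Z, ∀ i' ∈ Z, (G.Adj u i ∨ u = i) →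
      (G.Adj u i' ∨ u = i') → i = i' := by
    intro u hu hcu i hi i' hi' a b
    have a' : G.Adj u i := by
      rcases a with a | a
      · exact a
      · exact absurd hi (fun h => Finset.disjoint_left.mp hd hu (a ▸ h))
    have b' : G.Adj u i' := by
      rcases b with b | b
      · exact b
      · exact absurd hi' (fun h => Finset.disjoint_left.mp hd hu (b ▸ h))
    exact tc_one h1 hZT hZ (hTs hu) hcu hi hi' a' b'
  obtain ⟨e', he'I, he'⟩ := tc_pick (G := G) (I := Z) (F := {z, t, t'})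
    (lt_of_le_of_lt Finset.card_le_three (by omega)) (by
      intro x hx
      simp only [Finset.mem_insert, Finset.mem_singleton] at hx
      rcases hx with h | h | h
      · rw [h]
        intro i hi i' hi' a b
        have a' : z = i := by
          rcases a with a | a
          · exact absurd a (hZ z hz i hi)
          · exact a
        have b' : z = i' := by
          rcases b with b | b
          · exact absurd b (hZ z hz i' hi')
          · exact b
        exact a'.symm.trans b'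
      · rw [h]; exact hsing t ht hc
      · rw [h]; exact hsing t' ht' hc')
  have e2 := he' t (by simp)
  have e3 := he' t' (by simp)
  have htt : t ≠ t' := by
    rintro rfl; exact h3 h2
  have hdt : z ≠ t' := by
    intro h
    exact Finset.disjoint_left.mp hd ht' (h ▸ hz)
  exact h1 e' (hZT he'I) z (hZT hz) t (hTs ht) t' (hTs ht') h2.symm (hsq t ht t' ht' htt)
    hdt (fun h => h3 h.symm) (hZ e' he'I z hz) (fun h => e2.1 h.symm) (fun h => e3.1 h.symm)

theorem tc_fin {Ts Tc Y D : Finset V} (hd : Disjoint Ts Tc) (hD : D.card ≤ 4)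
    (hYD : ∀ y ∈ Tc, y ∉ D → y ∈ Y)
    (hsame : ∀ t ∈ Ts, ∀ t' ∈ Ts, (¬∀ y ∈ Y, G.Adj t y) → (¬∀ y ∈ Y, G.Adj t' y) →
      ∀ y ∈ Y, G.Adj t y → G.Adj t' y) :
    ∃ D : Finset V, D.card ≤ 4 ∧ ∃ (τ : V → Fin 4) (Q : Fin 4 → Fin 4 → Prop),
      ∀ x ∈ Ts, x ∉ D → ∀ y ∈ Tc, y ∉ D → (G.Adj x y ↔ Q (τ x) (τ y)) := by
  refine ⟨D, hD, fun v => if v ∈ Ts then (if ∀ y ∈ Y, G.Adj v y then 1 else 0)
    else (if ∃ t ∈ Ts, (¬∀ y ∈ Y, G.Adj t y) ∧ G.Adj t v then 1 else 0),
    fun i j => i = 1 ∨ j = 1, ?_⟩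
  intro x hx _ y hy hyD
  have hyTs : y ∉ Ts := fun h => Finset.disjoint_left.mp hd h hy
  have hyY := hYD y hy hyD
  simp only [if_pos hx, if_neg hyTs]
  by_cases c1 : ∀ y ∈ Y, G.Adj x y
  · simp only [if_pos c1, true_or, iff_true]
    exact c1 y hyY
  · rw [if_neg c1]
    by_cases c2 : ∃ t ∈ Ts, (¬∀ y ∈ Y, G.Adj t y) ∧ G.Adj t y
    · rw [if_pos c2]
      simp only [or_true, iff_true]
      obtain ⟨t, ht, hc, hty⟩ := c2
      exact hsame t ht x hx hc c1 y hyY hty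
    · rw [if_neg c2]
      have : ¬G.Adj x y := fun h => c2 ⟨x, hx, c1, h⟩
      simp [this]

/-- TARGET -/
theorem ts_tc {Ts Tc I : Finset V} (hd : Disjoint Ts Tc) (hs : Clq G Ts)
    (h1 : NoP1P3T G (Ts ∪ Tc)) (hI : I ⊆ Tc) (hInd : Ind G I) (h8 : 8 ≤ I.card)
    (hW : ∀ w ∈ Tc, ∀ w' ∈ Tc, G.Adj w w' → (∀ i ∈ I, G.Adj w i) → (∀ i ∈ I, G.Adj w' i) → False)
    (hor : (∀ x ∈ Tc, ∀ y ∈ Tc, ∀ z ∈ Tc, G.Adj x y → G.Adj y z → x ≠ z → G.Adj x z) ∨
      (∀ x ∈ Tc, ∀ y ∈ Tc, ∀ z ∈ Tc, Gᶜ.Adj x y → Gᶜ.Adj y z → x ≠ z → Gᶜ.Adj x z)) :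
    ∃ D : Finset V, D.card ≤ 4 ∧ ∃ (τ : V → Fin 4) (Q : Fin 4 → Fin 4 → Prop),
      ∀ x ∈ Ts, x ∉ D → ∀ y ∈ Tc, y ∉ D → (G.Adj x y ↔ Q (τ x) (τ y)) := by
  rcases hor with hY | hY
  · refine tc_fin (Y := Tc) (D := ∅) hd (by simp) (fun y hy _ => hy) ?_
    intro t ht t' ht' hc hc' y hy h2
    exact tc_same hd hs h1 hI hInd h8 hY ht ht' hc hc' hy h2
  · obtain ⟨i0, hi0⟩ : I.Nonempty := Finset.card_pos.mp (by omega)
    have hi0T := hI hi0
    set I1 : Finset V := Tc.filter (fun y => ¬G.Adj y i0) with hI1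
    set W : Finset V := Tc.filter (fun y => G.Adj y i0) with hWdef
    have hI1T : I1 ⊆ Tc := Finset.filter_subset _ _
    have hWT : W ⊆ Tc := Finset.filter_subset _ _
    have hII1 : I ⊆ I1 := by
      intro i hi
      rw [hI1, Finset.mem_filter]
      exact ⟨hI hi, hInd i hi i0 hi0⟩
    have hI1card : 8 ≤ I1.card := h8.trans (Finset.card_le_card hII1)
    have hI1ind : Ind G I1 := by
      intro x hx y hy hxy
      rw [hI1, Finset.mem_filter] at hx hy
      have hxi : x ≠ i0 := by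
        rintro rfl; exact hy.2 hxy.symm
      have hyi : y ≠ i0 := by
        rintro rfl; exact hx.2 hxy
      have := hY x hx.1 i0 hi0T y hy.1 ((SimpleGraph.compl_adj _ _ _).mpr ⟨hxi, hx.2⟩)
        ((SimpleGraph.compl_adj _ _ _).mpr ⟨hyi.symm, fun h => hy.2 h.symm⟩) hxy.ne
      exact ((SimpleGraph.compl_adj _ _ _).mp this).2 hxy
    have hWI1 : ∀ w ∈ W, ∀ y ∈ I1, G.Adj w y := by
      intro w hw y hy
      by_contra hn
      rw [hI1, Finset.mem_filter] at hy
      rw [hWdef, Finset.mem_filter] at hw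
      have hwy : w ≠ y := by
        rintro rfl; exact hy.2 hw.2
      have hyi : y ≠ i0 := by
        rintro rfl; exact hn hw.2
      have := hY w hw.1 y hy.1 i0 hi0T ((SimpleGraph.compl_adj _ _ _).mpr ⟨hwy, hn⟩)
        ((SimpleGraph.compl_adj _ _ _).mpr ⟨hyi, hy.2⟩) hw.2.ne
      exact ((SimpleGraph.compl_adj _ _ _).mp this).2 hw.2
    have hWind : Ind G W := by
      intro w hw w' hw' h
      exact hW w (hWT hw) w' (hWT hw') h (fun i hi => hWI1 w hw i (hII1 hi))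
        (fun i hi => hWI1 w' hw' i (hII1 hi))
    have hsplit : ∀ y ∈ Tc, y ∉ W → y ∈ I1 := by
      intro y hy hyW
      rw [hI1, Finset.mem_filter]
      refine ⟨hy, fun h => hyW ?_⟩
      rw [hWdef, Finset.mem_filter]
      exact ⟨hy, h⟩
    have hdI1 : Disjoint Ts I1 := Finset.disjoint_of_subset_right hI1T hd
    have hdW : Disjoint Ts W := Finset.disjoint_of_subset_right hWT hd
    have sI1 : I1 ⊆ Ts ∪ Tc := hI1T.trans Finset.subset_union_right
    have sW : W ⊆ Ts ∪ Tc := hWT.trans Finset.subset_union_right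
    have sTs : Ts ⊆ Ts ∪ Tc := Finset.subset_union_left
    have sameI : ∀ t ∈ Ts, ∀ t' ∈ Ts, (¬∀ y ∈ I1, G.Adj t y) → (¬∀ y ∈ I1, G.Adj t' y) →
        ∀ y ∈ I1, G.Adj t y → G.Adj t' y := by
      intro t ht t' ht' hc hc' y hy h2
      exact tc_indsame h1 sTs sI1 hdI1 hs hI1ind (by omega) ht ht' hc hc' hy h2
    by_cases hcard : W.card ≤ 3
    · exact tc_fin (Y := I1) (D := W) hd (by omega) hsplit sameI
    · have h4 : 4 ≤ W.card := by omega
      have sameW : ∀ t ∈ Ts, ∀ t' ∈ Ts, (¬∀ y ∈ W, G.Adj t y) → (¬∀ y ∈ W, G.Adj t' y) →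
          ∀ y ∈ W, G.Adj t y → G.Adj t' y := by
        intro t ht t' ht' hc hc' y hy h2
        exact tc_indsame h1 sTs sW hdW hs hWind h4 ht ht' hc hc' hy h2
      have hcomp : ∀ t ∈ Ts, (¬∀ y ∈ I1, G.Adj t y) → (¬∀ y ∈ W, G.Adj t y) → False := by
        intro t ht ha hb
        have ha' := ha
        push Not at ha'
        obtain ⟨i, hi, hti⟩ := ha'
        have hle : (W.filter (fun w => G.Adj t w)).card ≤ 1 := by
          rw [Finset.card_le_one]
          intro a haW b hbW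
          rw [Finset.mem_filter] at haW hbW
          exact tc_one h1 sW hWind (sTs ht) hb haW.1 hbW.1 haW.2 hbW.2
        have hsum := Finset.card_filter_add_card_filter_not (s := W) (fun w => G.Adj t w)
        have hgt : 1 < (W.filter (fun w => ¬G.Adj t w)).card := by omega
        rw [Finset.one_lt_card] at hgt
        obtain ⟨w, hw, w', hw', hne⟩ := hgt
        rw [Finset.mem_filter] at hw hw'
        exact h1 t (sTs ht) w (sW hw.1) i (sI1 hi) w' (sW hw'.1) (hWI1 w hw.1 i hi)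
          (hWI1 w' hw'.1 i hi).symm hne (hWind w hw.1 w' hw'.1) hw.2 hti hw'.2
      refine ⟨∅, by simp, fun v => if v ∈ Ts then
          (if ¬∀ y ∈ W, G.Adj v y then 0 else if ¬∀ y ∈ I1, G.Adj v y then 1 else 2)
        else if v ∈ I1 then
          (if ∃ t ∈ Ts, (¬∀ y ∈ I1, G.Adj t y) ∧ G.Adj t v then 1 else 0)
        else (if ∃ t ∈ Ts, (¬∀ y ∈ W, G.Adj t y) ∧ G.Adj t v then 3 else 2),
        fun i j => i = 2 ∨ (i = 0 ∧ j ≠ 2) ∨ (i = 1 ∧ j ≠ 0), ?_⟩
      intro x hx _ y hy _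
      have hyTs : y ∉ Ts := fun h => Finset.disjoint_left.mp hd h hy
      simp only [if_pos hx, if_neg hyTs]
      by_cases c1 : ∀ y ∈ W, G.Adj x y
      · rw [if_neg (not_not.mpr c1)]
        by_cases c2 : ∀ y ∈ I1, G.Adj x y
        · rw [if_neg (not_not.mpr c2)]
          simp only [true_or, iff_true]
          by_cases c3 : y ∈ W
          · exact c1 y c3
          · exact c2 y (hsplit y hy c3)
        · rw [if_pos c2]
          by_cases c3 : y ∈ I1
          · rw [if_pos c3]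
            by_cases c4 : ∃ t ∈ Ts, (¬∀ y ∈ I1, G.Adj t y) ∧ G.Adj t y
            · rw [if_pos c4]
              obtain ⟨t, ht, hc, hty⟩ := c4
              have := sameI t ht x hx hc c2 y c3 hty
              simp [this]
            · rw [if_neg c4]
              have : ¬G.Adj x y := fun h => c4 ⟨x, hx, c2, h⟩
              simp [this]
          · rw [if_neg c3]
            have hyW : y ∈ W := by
              by_contra h; exact c3 (hsplit y hy h)
            have h5 := c1 y hyW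
            by_cases c4 : ∃ t ∈ Ts, (¬∀ y ∈ W, G.Adj t y) ∧ G.Adj t y
            · rw [if_pos c4]; simp [h5]
            · rw [if_neg c4]; simp [h5]
      · rw [if_pos c1]
        have c2 : ∀ y ∈ I1, G.Adj x y := by
          by_contra h; exact hcomp x hx h c1
        by_cases c3 : y ∈ I1
        · rw [if_pos c3]
          have h5 := c2 y c3
          by_cases c4 : ∃ t ∈ Ts, (¬∀ y ∈ I1, G.Adj t y) ∧ G.Adj t y
          · rw [if_pos c4]; simp [h5]
          · rw [if_neg c4]; simp [h5]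
        · rw [if_neg c3]
          have hyW : y ∈ W := by
            by_contra h; exact c3 (hsplit y hy h)
          by_cases c4 : ∃ t ∈ Ts, (¬∀ y ∈ W, G.Adj t y) ∧ G.Adj t y
          · rw [if_pos c4]
            obtain ⟨t, ht, hc, hty⟩ := c4
            have := sameW t ht x hx hc c1 y hyW hty
            simp [this]
          · rw [if_neg c4]
            have : ¬G.Adj x y := fun h => c4 ⟨x, hx, c1, h⟩
            simp [this]

end STstc

end Pool.Agent.Helper856.Cw
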