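import Pool.Agent.Helper856.Pair.Defs
import Pool.Agent.Helper856.Cw.Basic
import Pool.Agent.Helper856.Pair.Induce
import Pool.Agent.Helper856.Pair.Compl
import Pool.Agent.Helper856.Pair.Ramsey
import Pool.Agent.Helper856.Pair.SBase
import Pool.Agent.Helper856.Pair.SFacts
import Pool.Agent.Helper856.Pair.SPieces
import Pool.Agent.Helper856.Pair.SKt
import Pool.Agent.Helper856.Pair.SPcp
import Pool.Agent.Helper856.Pair.STstc

open Classical SimpleGraph

namespace Pool.Agent.Helper856.Cw

open Induce (slin_ind slin_card)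
open Compl (slin_compl)
open Ramsey (ramsey)
open SBase (nofc_compl no2p1p3_compl in_vertex)
open SFacts (km_c1)
open SPieces (slin_join)
open SKt (kt_main)
open SPcp (paw_copaw)
open STstc (ts_tc)

namespace SSubI

variable {V : Type} {G : SimpleGraph V} {S T : Finset V} {k l : ℕ}

theorem j8490_two {S : Finset V} {t t' : V} (h4 : 4 ≤ S.card) (h1 : (nb G S t).card ≤ 1)
    (h2 : (nb G S t').card ≤ 1) :
    ∃ p ∈ S, ∃ p' ∈ S, p ≠ p' ∧ ¬G.Adj t p ∧ ¬G.Adj t p' ∧ ¬G.Adj t' p ∧ ¬G.Adj t' p' := by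
  have hc : 1 < (S \ (nb G S t ∪ nb G S t')).card := by
    have h3 := Finset.card_union_le (nb G S t) (nb G S t')
    have h5 := Finset.le_card_sdiff (nb G S t ∪ nb G S t') S
    omega
  obtain ⟨p, hp, p', hp', hne⟩ := Finset.one_lt_card.1 hc
  rw [Finset.mem_sdiff, Finset.mem_union, not_or] at hp hp'
  unfold nb at hp hp'
  rw [Finset.mem_filter, Finset.mem_filter] at hp hp'
  exact ⟨p, hp.1, p', hp'.1, hne, fun h => hp.2.1 ⟨hp.1, h⟩, fun h => hp'.2.1 ⟨hp'.1, h⟩,
    fun h => hp.2.2 ⟨hp.1, h⟩, fun h => hp'.2.2 ⟨hp'.1, h⟩⟩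

theorem j8490_pick4 {P : Finset V} (hP : 5 ≤ P.card) {a b c d : V}
    (ha : (P.filter (fun x => ¬G.Adj a x)).card ≤ 1) (hb : (P.filter (fun x => ¬G.Adj b x)).card ≤ 1)
    (hc : (P.filter (fun x => ¬G.Adj c x)).card ≤ 1) (hd : (P.filter (fun x => ¬G.Adj d x)).card ≤ 1) :
    ∃ p ∈ P, G.Adj a p ∧ G.Adj b p ∧ G.Adj c p ∧ G.Adj d p := by
  have hcard : ((P.filter (fun x => ¬G.Adj a x) ∪ P.filter (fun x => ¬G.Adj b x)) ∪
      (P.filter (fun x => ¬G.Adj c x) ∪ P.filter (fun x => ¬G.Adj d x))).card < P.card := by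
    have h1 := Finset.card_union_le (P.filter (fun x => ¬G.Adj a x)) (P.filter (fun x => ¬G.Adj b x))
    have h2 := Finset.card_union_le (P.filter (fun x => ¬G.Adj c x)) (P.filter (fun x => ¬G.Adj d x))
    have h3 := Finset.card_union_le (P.filter (fun x => ¬G.Adj a x) ∪ P.filter (fun x => ¬G.Adj b x))
      (P.filter (fun x => ¬G.Adj c x) ∪ P.filter (fun x => ¬G.Adj d x))
    omega
  obtain ⟨p, hp, hp2⟩ := Finset.exists_mem_notMem_of_card_lt_card hcard
  rw [Finset.mem_union, Finset.mem_union, Finset.mem_union, not_or, not_or, not_or] at hp2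
  rw [Finset.mem_filter, Finset.mem_filter, Finset.mem_filter, Finset.mem_filter] at hp2
  refine ⟨p, hp, ?_, ?_, ?_, ?_⟩
  · by_contra h; exact hp2.1.1 ⟨hp, h⟩
  · by_contra h; exact hp2.1.2 ⟨hp, h⟩
  · by_contra h; exact hp2.2.1 ⟨hp, h⟩
  · by_contra h; exact hp2.2.2 ⟨hp, h⟩

theorem j8490_uniq {P : Finset V} {t p p' : V} (ht : (P.filter (fun x => ¬G.Adj t x)).card ≤ 1)
    (hp : p ∈ P) (hp' : p' ∈ P) (h : ¬G.Adj t p) (h' : ¬G.Adj t p') : p = p' :=
  Finset.card_le_one.1 ht p (Finset.mem_filter.2 ⟨hp, h⟩) p' (Finset.mem_filter.2 ⟨hp', h'⟩)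

theorem j8490_nbuniq {P : Finset V} {t p p' : V} (ht : (nb G P t).card ≤ 1)
    (hp : p ∈ P) (hp' : p' ∈ P) (h : G.Adj t p) (h' : G.Adj t p') : p = p' :=
  Finset.card_le_one.1 ht p (Finset.mem_filter.2 ⟨hp, h⟩) p' (Finset.mem_filter.2 ⟨hp', h'⟩)

/-- TARGET -/
theorem sub_i : ∃ c, ∀ (V : Type) (G : SimpleGraph V) (K P T : Finset V), No2P1P3 G → NoFc G →
    Clq G K → 12 ≤ K.card → Ind G P → 12 ≤ P.card → Disjoint K P → Disjoint K T → Disjoint P T →
    (∀ k ∈ K, ∀ p ∈ P, G.Adj k p) → (∀ t ∈ T, (nb G K t).card ≤ 1) →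
    (∀ t ∈ T, ∀ k ∈ K, ∀ p ∈ P, G.Adj t k → ¬G.Adj t p) → SLin c G (K ∪ P ∪ T) := by
  obtain ⟨c0, hc0⟩ := kt_main
  obtain ⟨N, hN⟩ := ramsey 3 8
  refine ⟨2 * 2 * (c0 + 1 + 1) + (1 + N) + 6 + 5 * 2 * (c0 + c0 + 1) + 5, ?_⟩
  intro V G K P T hG hGc hK hK12 hP hP12 hKP hKT hPT hKPadj hTK hTKP
  set Ts := T.filter (fun t => (nb G P t).card ≤ 1) with hTs
  set Tc := T \ Ts with hTc
  have hTsT : Ts ⊆ T := Finset.filter_subset _ _
  have hTcT : Tc ⊆ T := Finset.sdiff_subset
  have hTs1 : ∀ t ∈ Ts, (nb G P t).card ≤ 1 := fun t ht => (Finset.mem_filter.1 ht).2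
  have hTc1 : ∀ t ∈ Tc, (P.filter (fun x => ¬G.Adj t x)).card ≤ 1 := by
    intro t ht
    rcases in_vertex hG hP (v := t) with h | h
    · rw [hTc, Finset.mem_sdiff] at ht
      exact absurd (Finset.mem_filter.2 ⟨ht.1, h⟩) ht.2
    · exact h
  have hdTsTc : Disjoint Ts Tc := Finset.disjoint_sdiff
  have hTsTc : Ts ∪ Tc = T := Finset.union_sdiff_of_subset hTsT
  -- Step 2
  have hTsclq : Clq G Ts := by
    intro t ht t' ht' hne
    by_contra hna
    obtain ⟨p, hp, p', hp', hpp, h1, h2, h3, h4⟩ := j8490_two (by omega) (hTs1 t ht) (hTs1 t' ht')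
    obtain ⟨k, hk, _, _, _, h5, _, h6, _⟩ := j8490_two (G := G) (S := K) (t := t) (t' := t') (by omega)
      (hTK t (hTsT ht)) (hTK t' (hTsT ht'))
    exact hG t t' p k p' (hKPadj k hk p hp).symm (hKPadj k hk p' hp') hpp hne (hP p hp p' hp') hna
      h1 h5 h2 h3 h6 h4
  -- Step 3
  have hstep3 : ∀ t ∈ Ts, ∀ t' ∈ Ts, ∀ p ∈ P, G.Adj t p → G.Adj t' p := by
    intro t ht t' ht' p hp htp
    by_contra hna
    have hne : t ≠ t' := by
      rintro rfl
      exact hna htp
    obtain ⟨p', hp', p'', hp'', hpp, h1, h2, h3, h4⟩ := j8490_two (by omega) (hTs1 t ht) (hTs1 t' ht')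
    have hpt' : p ≠ t' := by
      rintro rfl
      exact (Finset.disjoint_left.1 hPT hp) (hTsT ht')
    exact hG p' p'' p t t' htp.symm (hTsclq t ht t' ht' hne) hpt' hpp (fun h => hna h.symm)
      (hP p' hp' p'' hp'') (hP p' hp' p hp) (fun h => h1 h.symm) (fun h => h3 h.symm)
      (hP p'' hp'' p hp) (fun h => h2 h.symm) (fun h => h4 h.symm)
  set D0 := P.filter (fun p => ∃ t ∈ Ts, G.Adj t p) with hD0
  have hD01 : D0.card ≤ 1 := by
    rw [Finset.card_le_one]
    intro p hp p' hp'
    obtain ⟨hp1, t, ht, htp⟩ := Finset.mem_filter.1 hp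
    obtain ⟨hp2, t', ht', htp'⟩ := Finset.mem_filter.1 hp'
    exact j8490_nbuniq (hTs1 t ht) hp1 hp2 htp (hstep3 t' ht' t ht p' hp2 htp')
  set P' := P \ D0 with hP'
  have hP'P : P' ⊆ P := Finset.sdiff_subset
  have hP'card : 11 ≤ P'.card := by
    have := Finset.le_card_sdiff D0 P
    rw [hP']
    omega
  have hP'Ts : ∀ t ∈ Ts, ∀ p ∈ P', ¬G.Adj t p := by
    intro t ht p hp h
    rw [hP', Finset.mem_sdiff] at hp
    exact hp.2 (Finset.mem_filter.2 ⟨hp.1, t, ht, h⟩)
  -- Step 4
  have hTcK : ∀ t ∈ Tc, ∀ k ∈ K, ¬G.Adj t k := by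
    intro t ht k hk h
    obtain ⟨p, hp, h1, _⟩ := j8490_pick4 (by omega) (hTc1 t ht) (hTc1 t ht) (hTc1 t ht) (hTc1 t ht)
    exact hTKP t (hTcT ht) k hk p hp h h1
  -- Step 5
  have hST : (K ∪ T) \ T = K := by
    rw [Finset.union_sdiff_right]
    exact Finset.sdiff_eq_self_of_disjoint hKT
  have hNoP1P3 : NoP1P3T G T := by
    refine km_c1 (S := K ∪ T) (K := K) (m := id) hG ?_ (by omega)
    refine ⟨Finset.subset_union_left, Finset.subset_union_right, hKT, hK, ?_, fun _ _ => rfl, ?_, ?_⟩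
    · rw [hST]; exact fun x hx => hx
    · rw [hST]
      intro x hx y hy hxy
      exact ⟨fun _ => hxy, fun _ => hK x hx y hy hxy⟩
    · rw [hST]
      intro t ht x hx y hy h1 h2
      exact j8490_nbuniq (hTK t ht) hx hy h1 h2
  -- Step 6
  have hpaw : NoPaw G Tc := by
    intro a ha b hb c hc d hd hab hac hbc had hbd hcd _ _
    obtain ⟨p, hp, h1, h2, h3, h4⟩ := j8490_pick4 (by omega) (hTc1 a ha) (hTc1 b hb) (hTc1 c hc) (hTc1 d hd)
    exact hGc p a b d c h1.symm h2.symm h4.symm h3.symm hab had hac hbc hbd (fun h => hcd h.symm)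
  have hcopaw : NoPaw Gᶜ Tc := by
    intro a ha b hb c hc d hd hab hac hbc had hbd hcd hbd' hcd'
    rw [SimpleGraph.compl_adj] at hab hac hbc had hbd hcd
    have h1 : G.Adj b d := by
      by_contra h; exact hbd ⟨hbd', h⟩
    have h2 : G.Adj c d := by
      by_contra h; exact hcd ⟨hcd', h⟩
    exact hNoP1P3 a (hTcT ha) b (hTcT hb) d (hTcT hd) c (hTcT hc) h1 h2.symm hbc.1 hbc.2 hab.2 had.2 hac.2
  have hKTs : Disjoint K Ts := hKT.mono_right hTsT
  have hmemS : ∀ x ∈ K ∪ P ∪ T, x ∈ K ∨ x ∈ D0 ∨ x ∈ P' ∨ x ∈ Ts ∨ x ∈ Tc := by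
    intro x hx
    rw [Finset.mem_union, Finset.mem_union] at hx
    rcases hx with (h | h) | h
    · exact Or.inl h
    · by_cases h2 : x ∈ D0
      · exact Or.inr (Or.inl h2)
      · exact Or.inr (Or.inr (Or.inl (Finset.mem_sdiff.2 ⟨h, h2⟩)))
    · by_cases h2 : x ∈ Ts
      · exact Or.inr (Or.inr (Or.inr (Or.inl h2)))
      · exact Or.inr (Or.inr (Or.inr (Or.inr (Finset.mem_sdiff.2 ⟨h, h2⟩))))
  have hKdisj : ∀ x ∈ K, x ∉ T := fun x hx => Finset.disjoint_left.1 hKT hx
  have hTdisjK : ∀ x ∈ T, x ∉ K := fun x hx => Finset.disjoint_right.1 hKT hx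
  rcases paw_copaw hpaw hcopaw with h5 | hor
  · -- Tc small
    have hX : SLin c0 G (K ∪ Ts) := hc0 V G K Ts hG hGc hK (by omega) hKTs (fun t ht => hTK t (hTsT ht))
    have hY : SLin 1 G P' := slin_ind (fun x hx y hy => hP x (hP'P hx) y (hP'P hy))
    have hdis : Disjoint (K ∪ Ts) P' := by
      rw [Finset.disjoint_union_left]
      exact ⟨hKP.mono_right hP'P, (hPT.mono hP'P hTsT).symm⟩
    have hj := slin_join (r := 2) hdis (fun x => if x ∈ K then 0 else 1) (fun a _ => a = 0) (by
      intro x hx y hy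
      rcases Finset.mem_union.1 hx with hx | hx
      · show G.Adj x y ↔ (if x ∈ K then (0 : Fin 2) else 1) = 0
        rw [if_pos hx]
        exact ⟨fun _ => rfl, fun _ => hKPadj x hx y (hP'P hy)⟩
      · show G.Adj x y ↔ (if x ∈ K then (0 : Fin 2) else 1) = 0
        rw [if_neg (hTdisjK x (hTsT hx))]
        exact ⟨fun h => absurd h (hP'Ts x hx y hy), fun h => absurd h (by decide)⟩) hX hY
    have hsub : (K ∪ P ∪ T) \ (D0 ∪ Tc) ⊆ (K ∪ Ts) ∪ P' := by
      intro x hx
      rw [Finset.mem_sdiff, Finset.mem_union (s := D0), not_or] at hx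
      rcases hmemS x hx.1 with h | h | h | h | h
      · exact Finset.mem_union_left _ (Finset.mem_union_left _ h)
      · exact absurd h hx.2.1
      · exact Finset.mem_union_right _ h
      · exact Finset.mem_union_left _ (Finset.mem_union_right _ h)
      · exact absurd h hx.2.2
    have hfin := SLin.add (D0 ∪ Tc) (hj.subset hsub)
    have hcu := Finset.card_union_le D0 Tc
    exact hfin.mono_k (by omega)
  · set N1 := P'.filter (fun p => ∃ t ∈ Tc, ¬G.Adj t p) with hN1
    rcases Nat.lt_or_ge N N1.card with hbig | hsmall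
    swap
    · -- Step 7
      have hX : SLin c0 G (K ∪ T) := hc0 V G K T hG hGc hK (by omega) hKT hTK
      have hY : SLin 1 G (P' \ N1) := slin_ind (fun x hx y hy =>
        hP x (hP'P (Finset.mem_sdiff.1 hx).1) y (hP'P (Finset.mem_sdiff.1 hy).1))
      have hPP : P' \ N1 ⊆ P := fun x hx => hP'P (Finset.mem_sdiff.1 hx).1
      have hdis : Disjoint (K ∪ T) (P' \ N1) := by
        rw [Finset.disjoint_union_left]
        exact ⟨hKP.mono_right hPP, (hPT.mono_left hPP).symm⟩
      have hj := slin_join (r := 2) hdis (fun x => if x ∈ Ts then 1 else 0) (fun a _ => a = 0) (by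
        intro x hx y hy
        have hyP' := (Finset.mem_sdiff.1 hy).1
        show G.Adj x y ↔ (if x ∈ Ts then (1 : Fin 2) else 0) = 0
        rcases Finset.mem_union.1 hx with hx | hx
        · rw [if_neg (fun h => hKdisj x hx (hTsT h))]
          exact ⟨fun _ => rfl, fun _ => hKPadj x hx y (hPP hy)⟩
        · by_cases hxs : x ∈ Ts
          · rw [if_pos hxs]
            exact ⟨fun h => absurd h (hP'Ts x hxs y hyP'), fun h => absurd h (by decide)⟩
          · rw [if_neg hxs]
            refine ⟨fun _ => rfl, fun _ => ?_⟩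
            by_contra hna
            exact (Finset.mem_sdiff.1 hy).2 (Finset.mem_filter.2 ⟨hyP', x, Finset.mem_sdiff.2 ⟨hx, hxs⟩, hna⟩))
        hX hY
      have hsub : (K ∪ P ∪ T) \ (D0 ∪ N1) ⊆ (K ∪ T) ∪ (P' \ N1) := by
        intro x hx
        rw [Finset.mem_sdiff, Finset.mem_union (s := D0), not_or] at hx
        rcases hmemS x hx.1 with h | h | h | h | h
        · exact Finset.mem_union_left _ (Finset.mem_union_left _ h)
        · exact absurd h hx.2.1
        · exact Finset.mem_union_right _ (Finset.mem_sdiff.2 ⟨h, hx.2.2⟩)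
        · exact Finset.mem_union_left _ (Finset.mem_union_right _ (hTsT h))
        · exact Finset.mem_union_left _ (Finset.mem_union_right _ (hTcT h))
      have hfin := SLin.add (D0 ∪ N1) (hj.subset hsub)
      have hcu := Finset.card_union_le D0 N1
      exact hfin.mono_k (by omega)
    · -- Step 8
      have hex : ∀ p : V, ∃ t : V, p ∈ N1 → t ∈ Tc ∧ ¬G.Adj t p := by
        intro p
        by_cases hp : p ∈ N1
        · obtain ⟨_, t, ht, htp⟩ := Finset.mem_filter.1 hp
          exact ⟨t, fun _ => ⟨ht, htp⟩⟩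
        · exact ⟨p, fun h => absurd h hp⟩
      choose f hf using hex
      have hN1P : ∀ p ∈ N1, p ∈ P := fun p hp => hP'P (Finset.mem_filter.1 hp).1
      have hinj : Set.InjOn f N1 := by
        intro p hp p' hp' hpp
        have h1 := hf p (Finset.mem_coe.1 hp)
        have h2 := hf p' (Finset.mem_coe.1 hp')
        have hpp' : f p = f p' := hpp
        rw [← hpp'] at h2
        exact j8490_uniq (hTc1 _ h1.1) (hN1P p (Finset.mem_coe.1 hp)) (hN1P p' (Finset.mem_coe.1 hp')) h1.2 h2.2
      have hJcard : (N1.image f).card = N1.card := Finset.card_image_of_injOn hinj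
      rcases hN V G (N1.image f) (by omega) with ⟨K3, hK3, hK3c, hK3q⟩ | ⟨I, hI, hIc, hIi⟩
      · exfalso
        obtain ⟨x, y, z, hxy, hxz, hyz, rfl⟩ := Finset.card_eq_three.1 hK3c
        have hx : x ∈ N1.image f := hK3 (by simp)
        have hy : y ∈ N1.image f := hK3 (by simp)
        have hz : z ∈ N1.image f := hK3 (by simp)
        have axy : G.Adj x y := hK3q x (by simp) y (by simp) hxy
        have axz : G.Adj x z := hK3q x (by simp) z (by simp) hxz
        have ayz : G.Adj y z := hK3q y (by simp) z (by simp) hyz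
        obtain ⟨p1, hp1, rfl⟩ := Finset.mem_image.1 hx
        obtain ⟨p2, hp2, rfl⟩ := Finset.mem_image.1 hy
        obtain ⟨p3, hp3, rfl⟩ := Finset.mem_image.1 hz
        obtain ⟨q, hq, a1, a2, a3, _⟩ := j8490_pick4 (by omega) (hTc1 _ (hf p1 hp1).1) (hTc1 _ (hf p2 hp2).1)
          (hTc1 _ (hf p3 hp3).1) (hTc1 _ (hf p3 hp3).1)
        have b2 : G.Adj (f p2) p1 := by
          by_contra hna
          have := j8490_uniq (hTc1 _ (hf p2 hp2).1) (hN1P p1 hp1) (hN1P p2 hp2) hna (hf p2 hp2).2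
          exact hxy (by rw [this])
        have b3 : G.Adj (f p3) p1 := by
          by_contra hna
          have := j8490_uniq (hTc1 _ (hf p3 hp3).1) (hN1P p1 hp1) (hN1P p3 hp3) hna (hf p3 hp3).2
          exact hxz (by rw [this])
        exact hGc (f p2) (f p3) (f p1) p1 q ayz axy.symm b2 a2 axz.symm b3 a3 a1 (hf p1 hp1).2
          (hP p1 (hN1P p1 hp1) q hq)
      · have hITc : I ⊆ Tc := by
          intro i hi
          obtain ⟨p, hp, rfl⟩ := Finset.mem_image.1 (hI hi)
          exact (hf p hp).1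
        have hW : ∀ w ∈ Tc, ∀ w' ∈ Tc, G.Adj w w' → (∀ i ∈ I, G.Adj w i) → (∀ i ∈ I, G.Adj w' i) → False := by
          intro w hw w' hw' hww h1 h2
          set Pi := N1.filter (fun p => f p ∈ I) with hPi
          have hIPi : I ⊆ Pi.image f := by
            intro i hi
            obtain ⟨p, hp, rfl⟩ := Finset.mem_image.1 (hI hi)
            exact Finset.mem_image.2 ⟨p, Finset.mem_filter.2 ⟨hp, hi⟩, rfl⟩
          have hPic : 8 ≤ Pi.card := by
            have h3 := Finset.card_le_card hIPi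
            have h4 := Finset.card_image_le (s := Pi) (f := f)
            omega
          have hcard : (P.filter (fun x => ¬G.Adj w x) ∪ P.filter (fun x => ¬G.Adj w' x)).card < Pi.card := by
            have h3 := Finset.card_union_le (P.filter (fun x => ¬G.Adj w x)) (P.filter (fun x => ¬G.Adj w' x))
            have h4 := hTc1 w hw
            have h5 := hTc1 w' hw'
            omega
          obtain ⟨p, hp, hp2⟩ := Finset.exists_mem_notMem_of_card_lt_card hcard
          obtain ⟨hpN, hpI⟩ := Finset.mem_filter.1 hp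
          rw [Finset.mem_union, not_or, Finset.mem_filter, Finset.mem_filter] at hp2
          have c1 : G.Adj w p := by
            by_contra h; exact hp2.1 ⟨hN1P p hpN, h⟩
          have c2 : G.Adj w' p := by
            by_contra h; exact hp2.2 ⟨hN1P p hpN, h⟩
          obtain ⟨q, hq, a1, a2, a3, _⟩ := j8490_pick4 (by omega) (hTc1 _ (hf p hpN).1) (hTc1 w hw)
            (hTc1 w' hw') (hTc1 w' hw')
          exact hGc w w' (f p) p q hww (h1 _ hpI) c1 a2 (h2 _ hpI) c2 a3 a1 (hf p hpN).2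
            (hP p (hN1P p hpN) q hq)
        obtain ⟨D, hD4, τ0, Q0, hQ0⟩ := ts_tc hdTsTc hTsclq (by rw [hTsTc]; exact hNoP1P3) hITc hIi
          (by omega) hW hor
        -- Step 9
        have hX : SLin c0 G (K ∪ (Ts \ D)) := hc0 V G K (Ts \ D) hG hGc hK (by omega)
          (hKTs.mono_right Finset.sdiff_subset) (fun t ht => hTK t (hTsT (Finset.mem_sdiff.1 ht).1))
        have hY : SLin c0 G (P' ∪ (Tc \ D)) := by
          have h1 := hc0 V Gᶜ P' (Tc \ D) (no2p1p3_compl hGc) (nofc_compl hG) (by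
            intro x hx y hy hxy
            rw [SimpleGraph.compl_adj]
            exact ⟨hxy, hP x (hP'P hx) y (hP'P hy)⟩) (by omega)
            ((hPT.mono_left hP'P).mono_right (Finset.sdiff_subset.trans hTcT)) (by
              intro t ht
              refine le_trans (Finset.card_le_card ?_) (hTc1 t (Finset.mem_sdiff.1 ht).1)
              intro x hx
              unfold nb at hx
              have hx2 := (@Finset.mem_filter _ _ (_) _ _).1 hx
              exact Finset.mem_filter.2 ⟨hP'P hx2.1, ((SimpleGraph.compl_adj _ _ _).1 hx2.2).2⟩)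
          have h2 := slin_compl h1
          rwa [compl_compl] at h2
        have hdis : Disjoint (K ∪ (Ts \ D)) (P' ∪ (Tc \ D)) := by
          rw [Finset.disjoint_union_left, Finset.disjoint_union_right, Finset.disjoint_union_right]
          exact ⟨⟨hKP.mono_right hP'P, hKT.mono_right (Finset.sdiff_subset.trans hTcT)⟩,
            ⟨(hPT.mono hP'P (Finset.sdiff_subset.trans hTsT)).symm,
              hdTsTc.mono Finset.sdiff_subset Finset.sdiff_subset⟩⟩
        have hj := slin_join (r := 5) hdis (fun x => if x ∈ K ∨ x ∈ P then Fin.last 4 else (τ0 x).castSucc)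
          (fun a b => (a = Fin.last 4 ∧ b = Fin.last 4) ∨
            ∃ a' b' : Fin 4, a = a'.castSucc ∧ b = b'.castSucc ∧ Q0 a' b') (by
          intro x hx y hy
          have hTnot : ∀ z ∈ T, ¬ (z ∈ K ∨ z ∈ P) := by
            rintro z hz (h | h)
            · exact hTdisjK z hz h
            · exact Finset.disjoint_left.1 hPT h hz
          show G.Adj x y ↔ (((if x ∈ K ∨ x ∈ P then Fin.last 4 else (τ0 x).castSucc) = Fin.last 4 ∧
            (if y ∈ K ∨ y ∈ P then Fin.last 4 else (τ0 y).castSucc) = Fin.last 4) ∨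
            ∃ a' b' : Fin 4, (if x ∈ K ∨ x ∈ P then Fin.last 4 else (τ0 x).castSucc) = a'.castSucc ∧
              (if y ∈ K ∨ y ∈ P then Fin.last 4 else (τ0 y).castSucc) = b'.castSucc ∧ Q0 a' b')
          rcases Finset.mem_union.1 hx with hx | hx <;> rcases Finset.mem_union.1 hy with hy | hy
          · rw [if_pos (Or.inl hx), if_pos (Or.inr (hP'P hy))]
            exact ⟨fun _ => Or.inl ⟨rfl, rfl⟩, fun _ => hKPadj x hx y (hP'P hy)⟩
          · have hy' := (Finset.mem_sdiff.1 hy).1
            rw [if_pos (Or.inl hx), if_neg (hTnot y (hTcT hy'))]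
            constructor
            · intro h
              exact absurd h.symm (hTcK y hy' x hx)
            · rintro (h | ⟨a', b', h1, _, _⟩)
              · exact absurd h.2 (Fin.castSucc_ne_last _)
              · exact absurd h1.symm (Fin.castSucc_ne_last _)
          · have hx' := (Finset.mem_sdiff.1 hx).1
            rw [if_neg (hTnot x (hTsT hx')), if_pos (Or.inr (hP'P hy))]
            constructor
            · intro h
              exact absurd h (hP'Ts x hx' y hy)
            · rintro (h | ⟨a', b', _, h1, _⟩)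
              · exact absurd h.1 (Fin.castSucc_ne_last _)
              · exact absurd h1.symm (Fin.castSucc_ne_last _)
          · obtain ⟨hx', hxD⟩ := Finset.mem_sdiff.1 hx
            obtain ⟨hy', hyD⟩ := Finset.mem_sdiff.1 hy
            rw [if_neg (hTnot x (hTsT hx')), if_neg (hTnot y (hTcT hy')), hQ0 x hx' hxD y hy' hyD]
            constructor
            · intro h
              exact Or.inr ⟨_, _, rfl, rfl, h⟩
            · rintro (h | ⟨a', b', h1, h2, h3⟩)
              · exact absurd h.1 (Fin.castSucc_ne_last _)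
              · rw [Fin.castSucc_inj] at h1 h2
                rw [h1, h2]
                exact h3) hX hY
        have hsub : (K ∪ P ∪ T) \ (D0 ∪ D) ⊆ (K ∪ (Ts \ D)) ∪ (P' ∪ (Tc \ D)) := by
          intro x hx
          rw [Finset.mem_sdiff, Finset.mem_union (s := D0), not_or] at hx
          rcases hmemS x hx.1 with h | h | h | h | h
          · exact Finset.mem_union_left _ (Finset.mem_union_left _ h)
          · exact absurd h hx.2.1
          · exact Finset.mem_union_right _ (Finset.mem_union_left _ h)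
          · exact Finset.mem_union_left _ (Finset.mem_union_right _ (Finset.mem_sdiff.2 ⟨h, hx.2.2⟩))
          · exact Finset.mem_union_right _ (Finset.mem_union_right _ (Finset.mem_sdiff.2 ⟨h, hx.2.2⟩))
        have hfin := SLin.add (D0 ∪ D) (hj.subset hsub)
        have hcu := Finset.card_union_le D0 D
        exact hfin.mono_k (by omega)

end SSubI

end Pool.Agent.Helper856.Cw
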