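import Pool.Agent.Helper856.Pair.Defs
import Pool.Agent.Helper856.Cw.Basic
import Pool.Agent.Helper856.Pair.SBase
import Pool.Agent.Helper856.Pair.SClean
import Pool.Agent.Helper856.Pair.SPieces
import Pool.Agent.Helper856.Pair.SKt

open Classical SimpleGraph

namespace Pool.Agent.Helper856.Cw

open SBase (cl_vertex in_vertex)
open SClean (clean)
open SPieces (pieces slin_join)
open SKt (kt_main)

namespace SSubII

variable {V : Type} {G : SimpleGraph V} {S T : Finset V} {k l : ℕ}

section aux8503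

theorem two_out_8503 (P F : Finset V) (h : F.card + 2 ≤ P.card) :
    ∃ a ∈ P, ∃ b ∈ P, a ∉ F ∧ b ∉ F ∧ a ≠ b := by
  have h1 : 1 < (P \ F).card := by
    have := Finset.le_card_sdiff F P
    omega
  obtain ⟨a, ha, b, hb, hab⟩ := Finset.one_lt_card.mp h1
  rw [Finset.mem_sdiff] at ha hb
  exact ⟨a, ha.1, b, hb.1, ha.2, hb.2, hab⟩

theorem side_8503 (h1 : No2P1P3 G) {K P A : Finset V} (hK : 12 ≤ K.card)
    (hP : Ind G P) (hPc : 12 ≤ P.card) (hPA : Disjoint P A)
    (hKP : ∀ k ∈ K, ∀ p ∈ P, G.Adj k p) (hAK : ∀ t ∈ A, (nb G K t).card ≤ 1)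
    (hAP : ∀ t ∈ A, (nb G P t).card ≤ 1) :
    Clq G A ∧ ∃ D ⊆ P, D.card ≤ 1 ∧ ∀ t ∈ A, ∀ p ∈ P \ D, ¬G.Adj t p := by
  have hmem : ∀ (S : Finset V) (t x : V), x ∈ S → x ∉ nb G S t → ¬ G.Adj t x := by
    intro S t x hx hn ha
    exact hn (Finset.mem_filter.mpr ⟨hx, ha⟩)
  have hclq : Clq G A := by
    intro t ht t' ht' hne
    by_contra hnadj
    obtain ⟨p1, hp1, p2, hp2, hn1, hn2, hp12⟩ := two_out_8503 P (nb G P t ∪ nb G P t') (by
      have := Finset.card_union_le (nb G P t) (nb G P t')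
      have := hAP t ht
      have := hAP t' ht'
      omega)
    obtain ⟨k, hk, _, _, hn3, _, _⟩ := two_out_8503 K (nb G K t ∪ nb G K t') (by
      have := Finset.card_union_le (nb G K t) (nb G K t')
      have := hAK t ht
      have := hAK t' ht'
      omega)
    rw [Finset.mem_union, not_or] at hn1 hn2 hn3
    exact h1 t t' p1 k p2 (hKP k hk p1 hp1).symm (hKP k hk p2 hp2) hp12 hne
      (hP p1 hp1 p2 hp2) hnadj (hmem P t p1 hp1 hn1.1) (hmem K t k hk hn3.1)
      (hmem P t p2 hp2 hn2.1) (hmem P t' p1 hp1 hn1.2) (hmem K t' k hk hn3.2)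
      (hmem P t' p2 hp2 hn2.2)
  refine ⟨hclq, P.filter (fun p => ∃ t ∈ A, G.Adj t p), Finset.filter_subset _ _, ?_, ?_⟩
  · have hsame : ∀ t ∈ A, ∀ t' ∈ A, ∀ p ∈ P, G.Adj t p → G.Adj t' p := by
      intro t ht t' ht' p hp hadj
      by_contra hnadj
      have hne : t ≠ t' := by
        rintro rfl
        exact hnadj hadj
      obtain ⟨p1, hp1, p2, hp2, hn1, hn2, hp12⟩ :=
        two_out_8503 P (nb G P t ∪ nb G P t') (by
          have := Finset.card_union_le (nb G P t) (nb G P t')
          have := hAP t ht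
          have := hAP t' ht'
          omega)
      rw [Finset.mem_union, not_or] at hn1 hn2
      have hpt' : p ≠ t' := by
        rintro rfl
        exact (Finset.disjoint_left.mp hPA hp) ht'
      exact h1 p1 p2 p t t' hadj.symm (hclq t ht t' ht' hne) hpt' hp12
        (fun h => hnadj h.symm) (hP p1 hp1 p2 hp2) (hP p1 hp1 p hp)
        (fun h => hmem P t p1 hp1 hn1.1 h.symm) (fun h => hmem P t' p1 hp1 hn1.2 h.symm)
        (hP p2 hp2 p hp) (fun h => hmem P t p2 hp2 hn2.1 h.symm)
        (fun h => hmem P t' p2 hp2 hn2.2 h.symm)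
    rw [Finset.card_le_one]
    intro p hp p' hp'
    rw [Finset.mem_filter] at hp hp'
    obtain ⟨hp, t, ht, htp⟩ := hp
    obtain ⟨hp', t', ht', htp'⟩ := hp'
    have h3 := hsame t' ht' t ht p' hp' htp'
    exact Finset.card_le_one.mp (hAP t ht) p (Finset.mem_filter.mpr ⟨hp, htp⟩) p'
      (Finset.mem_filter.mpr ⟨hp', h3⟩)
  · intro t ht p hp hadj
    rw [Finset.mem_sdiff, Finset.mem_filter] at hp
    exact hp.2 ⟨hp.1, t, ht, hadj⟩

/-- cleaning, with a proposition recording the alternative -/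
theorem clean_8503 (X Y : Finset V) (E : V → V → Prop)
    (h1 : ∀ x ∈ X, (Y.filter (fun y => E x y)).card ≤ 1 ∨ (Y.filter (fun y => ¬E x y)).card ≤ 1)
    (h2 : ∀ y ∈ Y, (X.filter (fun x => E x y)).card ≤ 1 ∨ (X.filter (fun x => ¬E x y)).card ≤ 1) :
    ∃ (D : Finset V) (R : Prop), D.card ≤ 6 ∧
      (∀ x ∈ X \ D, ((Y \ D).filter (fun y => ¬(E x y ↔ R))).card ≤ 1) ∧
        ∀ y ∈ Y \ D, ((X \ D).filter (fun x => ¬(E x y ↔ R))).card ≤ 1 := by
  obtain ⟨D, _, hD, h | h⟩ := clean X Y E h1 h2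
  · refine ⟨D, False, hD, ?_, ?_⟩
    · intro x hx
      refine le_trans (Finset.card_le_card ?_) (h.1 x hx)
      intro y hy
      simp only [Finset.mem_filter, iff_false, not_not] at hy ⊢
      exact hy
    · intro x hx
      refine le_trans (Finset.card_le_card ?_) (h.2 x hx)
      intro y hy
      simp only [Finset.mem_filter, iff_false, not_not] at hy ⊢
      exact hy
  · refine ⟨D, True, hD, ?_, ?_⟩
    · intro x hx
      refine le_trans (Finset.card_le_card ?_) (h.1 x hx)
      intro y hy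
      simp only [Finset.mem_filter, iff_true] at hy ⊢
      exact hy
    · intro x hx
      refine le_trans (Finset.card_le_card ?_) (h.2 x hx)
      intro y hy
      simp only [Finset.mem_filter, iff_true] at hy ⊢
      exact hy

/-- four parts in a path-like pattern -/
theorem four_8503 {P1 T1 T2 P2 : Finset V} (h1 : No2P1P3 G) (h2 : NoFc G)
    (d01 : Disjoint P1 T1) (d02 : Disjoint P1 T2) (d03 : Disjoint P1 P2)
    (d12 : Disjoint T1 T2) (d13 : Disjoint T1 P2) (d23 : Disjoint T2 P2)
    (iP1 : Ind G P1) (iP2 : Ind G P2) (cT1 : Clq G T1) (cT2 : Clq G T2)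
    (e03 : ∀ p ∈ P1, ∀ q ∈ P2, G.Adj p q)
    (e02 : ∀ p ∈ P1, ∀ q ∈ T2, ¬G.Adj p q)
    (e13 : ∀ p ∈ T1, ∀ q ∈ P2, ¬G.Adj p q) : SLin 30 G (P1 ∪ P2 ∪ T1 ∪ T2) := by
  -- three cleanings
  have inv : ∀ P : Finset V, Ind G P → ∀ v, (P.filter (fun y => G.Adj v y)).card ≤ 1 ∨
      (P.filter (fun y => ¬G.Adj v y)).card ≤ 1 := fun P hP v => in_vertex h1 hP
  have clv : ∀ K : Finset V, Clq G K → ∀ v ∉ K, (K.filter (fun y => G.Adj v y)).card ≤ 1 ∨
      (K.filter (fun y => ¬G.Adj v y)).card ≤ 1 := fun K hK v hv => cl_vertex h2 hK hv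
  have sy : ∀ (K : Finset V) (v : V), K.filter (fun y => G.Adj y v) = K.filter (fun y => G.Adj v y) := by
    intro K v
    apply Finset.filter_congr
    intro y _
    exact ⟨fun h => h.symm, fun h => h.symm⟩
  have sy' : ∀ (K : Finset V) (v : V),
      K.filter (fun y => ¬G.Adj y v) = K.filter (fun y => ¬G.Adj v y) := by
    intro K v
    apply Finset.filter_congr
    intro y _
    exact ⟨fun h h' => h h'.symm, fun h h' => h h'.symm⟩
  obtain ⟨Da, Ra, hDa, ha1, ha2⟩ := clean_8503 T1 P1 G.Adj (fun x _ => inv P1 iP1 x)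
    (fun y hy => by
      rw [sy, sy']
      exact clv T1 cT1 y (Finset.disjoint_left.mp d01 hy))
  obtain ⟨Db, Rb, hDb, hb1, hb2⟩ := clean_8503 T2 P2 G.Adj (fun x _ => inv P2 iP2 x)
    (fun y hy => by
      rw [sy, sy']
      exact clv T2 cT2 y (Finset.disjoint_right.mp d23 hy))
  obtain ⟨Dc, Rc, hDc, hc1, hc2⟩ := clean_8503 T1 T2 G.Adj
    (fun x hx => clv T2 cT2 x (Finset.disjoint_left.mp d12 hx))
    (fun y hy => by
      rw [sy, sy']
      exact clv T1 cT1 y (Finset.disjoint_right.mp d12 hy))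
  have hcard : (Da ∪ Db ∪ Dc).card ≤ 18 := by
    have := Finset.card_union_le (Da ∪ Db) Dc
    have := Finset.card_union_le Da Db
    omega
  have key : SLin (4 * 3) G ((P1 ∪ P2 ∪ T1 ∪ T2) \ (Da ∪ Db ∪ Dc)) := by
    set τ : V → Fin 4 := fun v => if v ∈ P1 then 0 else if v ∈ T1 then 1 else
      if v ∈ T2 then 2 else 3 with hτ
    set Q : Fin 4 → Fin 4 → Prop := fun i j => (i = 1 ∧ j = 1) ∨ (i = 2 ∧ j = 2) ∨
      (i = 0 ∧ j = 3) ∨ (i = 3 ∧ j = 0) ∨ (Ra ∧ ((i = 0 ∧ j = 1) ∨ (i = 1 ∧ j = 0))) ∨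
      (Rb ∧ ((i = 2 ∧ j = 3) ∨ (i = 3 ∧ j = 2))) ∨
      (Rc ∧ ((i = 1 ∧ j = 2) ∨ (i = 2 ∧ j = 1))) with hQ
    have t0 : ∀ v ∈ P1, τ v = 0 := by
      intro v hv
      simp [hτ, hv]
    have t1 : ∀ v ∈ T1, τ v = 1 := by
      intro v hv
      have := Finset.disjoint_right.mp d01 hv
      simp [hτ, hv, this]
    have t2 : ∀ v ∈ T2, τ v = 2 := by
      intro v hv
      have h3 := Finset.disjoint_right.mp d02 hv
      have h4 := Finset.disjoint_right.mp d12 hv
      simp [hτ, hv, h3, h4]
    have t3 : ∀ v ∈ P2, τ v = 3 := by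
      intro v hv
      have h3 := Finset.disjoint_right.mp d03 hv
      have h4 := Finset.disjoint_right.mp d13 hv
      have h5 := Finset.disjoint_right.mp d23 hv
      simp [hτ, h3, h4, h5]
    apply pieces τ Q
    · intro i j h
      simp only [hQ] at h ⊢
      tauto
    · intro v hv
      simp only [Finset.mem_sdiff, Finset.mem_union, not_or] at hv
      obtain ⟨hv, ⟨hva, hvb⟩, hvc⟩ := hv
      rcases hv with ((hv | hv) | hv) | hv
      · -- P1
        refine le_trans (Finset.card_le_card ?_)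
          ((ha2 v (Finset.mem_sdiff.mpr ⟨hv, hva⟩)).trans (by norm_num))
        intro w hw
        simp only [Finset.mem_filter, Finset.mem_sdiff, Finset.mem_union, not_or] at hw ⊢
        obtain ⟨⟨hw, ⟨hwa, hwb⟩, hwc⟩, hne, hw2⟩ := hw
        rcases hw with ((hw | hw) | hw) | hw
        · exfalso; apply hw2
          rw [t0 v hv, t0 w hw]
          simp [hQ, iP1 v hv w hw]
        · exfalso; apply hw2
          rw [t0 v hv, t3 w hw]
          simp [hQ, e03 v hv w hw]
        · refine ⟨⟨hw, hwa⟩, ?_⟩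
          rw [t0 v hv, t1 w hw] at hw2
          simp only [hQ] at hw2
          intro h
          apply hw2
          rw [G.adj_comm, h]
          simp
        · exfalso; apply hw2
          rw [t0 v hv, t2 w hw]
          simp [hQ, e02 v hv w hw]
      · -- P2
        refine le_trans (Finset.card_le_card ?_)
          ((hb2 v (Finset.mem_sdiff.mpr ⟨hv, hvb⟩)).trans (by norm_num))
        intro w hw
        simp only [Finset.mem_filter, Finset.mem_sdiff, Finset.mem_union, not_or] at hw ⊢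
        obtain ⟨⟨hw, ⟨hwa, hwb⟩, hwc⟩, hne, hw2⟩ := hw
        rcases hw with ((hw | hw) | hw) | hw
        · exfalso; apply hw2
          rw [t3 v hv, t0 w hw]
          simp [hQ, (e03 w hw v hv).symm]
        · exfalso; apply hw2
          rw [t3 v hv, t3 w hw]
          simp [hQ, iP2 v hv w hw]
        · exfalso; apply hw2
          rw [t3 v hv, t1 w hw]
          have h5 : ¬ G.Adj v w := fun h => e13 w hw v hv h.symm
          simp [hQ, h5]
        · refine ⟨⟨hw, hwb⟩, ?_⟩
          rw [t3 v hv, t2 w hw] at hw2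
          simp only [hQ] at hw2
          intro h
          apply hw2
          rw [G.adj_comm, h]
          simp
      · -- T1
        refine le_trans (Finset.card_le_card (t := ((P1 \ Da).filter (fun y => ¬(G.Adj v y ↔ Ra))) ∪
          ((T2 \ Dc).filter (fun y => ¬(G.Adj v y ↔ Rc)))) ?_) ?_
        · intro w hw
          simp only [Finset.mem_filter, Finset.mem_sdiff, Finset.mem_union, not_or] at hw ⊢
          obtain ⟨⟨hw, ⟨hwa, hwb⟩, hwc⟩, hne, hw2⟩ := hw
          rcases hw with ((hw | hw) | hw) | hw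
          · left
            refine ⟨⟨hw, hwa⟩, ?_⟩
            rw [t1 v hv, t0 w hw] at hw2
            simp only [hQ] at hw2
            intro h
            apply hw2
            rw [h]
            simp
          · exfalso; apply hw2
            rw [t1 v hv, t3 w hw]
            simp [hQ, e13 v hv w hw]
          · exfalso; apply hw2
            rw [t1 v hv, t1 w hw]
            simp [hQ, cT1 v hv w hw (Ne.symm hne)]
          · right
            refine ⟨⟨hw, hwc⟩, ?_⟩
            rw [t1 v hv, t2 w hw] at hw2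
            simp only [hQ] at hw2
            intro h
            apply hw2
            rw [h]
            simp
        · have h5 := ha1 v (Finset.mem_sdiff.mpr ⟨hv, hva⟩)
          have h6 := hc1 v (Finset.mem_sdiff.mpr ⟨hv, hvc⟩)
          have h7 := Finset.card_union_le ((P1 \ Da).filter (fun y => ¬(G.Adj v y ↔ Ra)))
            ((T2 \ Dc).filter (fun y => ¬(G.Adj v y ↔ Rc)))
          omega
      · -- T2
        refine le_trans (Finset.card_le_card (t := ((P2 \ Db).filter (fun y => ¬(G.Adj v y ↔ Rb))) ∪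
          ((T1 \ Dc).filter (fun y => ¬(G.Adj y v ↔ Rc)))) ?_) ?_
        · intro w hw
          simp only [Finset.mem_filter, Finset.mem_sdiff, Finset.mem_union, not_or] at hw ⊢
          obtain ⟨⟨hw, ⟨hwa, hwb⟩, hwc⟩, hne, hw2⟩ := hw
          rcases hw with ((hw | hw) | hw) | hw
          · exfalso; apply hw2
            rw [t2 v hv, t0 w hw]
            have h5 : ¬ G.Adj v w := fun h => e02 w hw v hv h.symm
            simp [hQ, h5]
          · left
            refine ⟨⟨hw, hwb⟩, ?_⟩
            rw [t2 v hv, t3 w hw] at hw2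
            simp only [hQ] at hw2
            intro h
            apply hw2
            rw [h]
            simp
          · right
            refine ⟨⟨hw, hwc⟩, ?_⟩
            rw [t2 v hv, t1 w hw] at hw2
            simp only [hQ] at hw2
            intro h
            apply hw2
            rw [G.adj_comm, h]
            simp
          · exfalso; apply hw2
            rw [t2 v hv, t2 w hw]
            simp [hQ, cT2 v hv w hw (Ne.symm hne)]
        · have h5 := hb1 v (Finset.mem_sdiff.mpr ⟨hv, hvb⟩)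
          have h6 := hc2 v (Finset.mem_sdiff.mpr ⟨hv, hvc⟩)
          have h7 := Finset.card_union_le ((P2 \ Db).filter (fun y => ¬(G.Adj v y ↔ Rb)))
            ((T1 \ Dc).filter (fun y => ¬(G.Adj y v ↔ Rc)))
          omega
  have := SLin.add (Da ∪ Db ∪ Dc) key
  exact this.mono_k (by omega)

end aux8503

/-- TARGET -/
theorem sub_ii : ∃ c, ∀ (V : Type) (G : SimpleGraph V) (K P P' T : Finset V), No2P1P3 G → NoFc G →
    Clq G K → 12 ≤ K.card → Ind G P → 12 ≤ P.card → Ind G P' → 12 ≤ P'.card →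
    Disjoint K P → Disjoint K P' → Disjoint P P' → Disjoint K T → Disjoint P T → Disjoint P' T →
    (∀ k ∈ K, ∀ p ∈ P, G.Adj k p) → (∀ k ∈ K, ∀ p ∈ P', G.Adj k p) →
    (∀ p ∈ P, ∀ p' ∈ P', G.Adj p p') → (∀ t ∈ T, (nb G K t).card ≤ 1) →
    (∀ t ∈ T, ∀ k ∈ K, ∀ p ∈ P ∪ P', G.Adj t k → ¬G.Adj t p) →
    (∀ t ∈ T, ∀ p ∈ P, ∀ p' ∈ P', G.Adj t p → ¬G.Adj t p') → SLin c G (K ∪ P ∪ P' ∪ T) := by
  obtain ⟨c0, hc0⟩ := kt_main
  refine ⟨4 * 2 * (c0 + 30 + 1) + 2, ?_⟩
  intro V G K P P' T h1 h2 hK hKc hP hPc hP' hPc' dKP dKP' dPP' dKT dPT dP'T hKP hKP' hPP' hTK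
    hTKP hTPP'
  set A := T.filter (fun t => (nb G P t).card ≤ 1) with hA
  set B := T.filter (fun t => (nb G P' t).card ≤ 1) with hB
  have hAT : A ⊆ T := Finset.filter_subset _ _
  have hBT : B ⊆ T := Finset.filter_subset _ _
  -- a vertex outside `A` has a neighbour in `P`
  have outA : ∀ t ∈ T, t ∉ A → ∃ p ∈ P, G.Adj t p := by
    intro t ht htA
    have h3 : ¬ (nb G P t).card ≤ 1 := fun h => htA (Finset.mem_filter.mpr ⟨ht, h⟩)
    have h4 : (nb G P t).Nonempty := by
      rw [← Finset.card_pos]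
      omega
    obtain ⟨p, hp⟩ := h4
    exact ⟨p, (Finset.mem_filter.mp hp).1, (Finset.mem_filter.mp hp).2⟩
  have outB : ∀ t ∈ T, t ∉ B → ∃ p ∈ P', G.Adj t p := by
    intro t ht htA
    have h3 : ¬ (nb G P' t).card ≤ 1 := fun h => htA (Finset.mem_filter.mpr ⟨ht, h⟩)
    have h4 : (nb G P' t).Nonempty := by
      rw [← Finset.card_pos]
      omega
    obtain ⟨p, hp⟩ := h4
    exact ⟨p, (Finset.mem_filter.mp hp).1, (Finset.mem_filter.mp hp).2⟩
  have outA' : ∀ t ∈ T, t ∉ A → ∀ p' ∈ P', ¬ G.Adj t p' := by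
    intro t ht htA p' hp'
    obtain ⟨p, hp, hadj⟩ := outA t ht htA
    exact hTPP' t ht p hp p' hp' hadj
  have outB' : ∀ t ∈ T, t ∉ B → ∀ p ∈ P, ¬ G.Adj t p := by
    intro t ht htB p hp hadj'
    obtain ⟨p', hp', hadj⟩ := outB t ht htB
    exact hTPP' t ht p hp p' hp' hadj' hadj
  have outAK : ∀ t ∈ T, t ∉ A → ∀ k ∈ K, ¬ G.Adj t k := by
    intro t ht htA k hk hadj'
    obtain ⟨p, hp, hadj⟩ := outA t ht htA
    exact hTKP t ht k hk p (Finset.mem_union_left _ hp) hadj' hadj
  have outBK : ∀ t ∈ T, t ∉ B → ∀ k ∈ K, ¬ G.Adj t k := by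
    intro t ht htA k hk hadj'
    obtain ⟨p, hp, hadj⟩ := outB t ht htA
    exact hTKP t ht k hk p (Finset.mem_union_right _ hp) hadj' hadj
  have outAB : ∀ t ∈ T, t ∉ A → t ∈ B := by
    intro t ht htA
    by_contra htB
    obtain ⟨p, hp, hadj⟩ := outA t ht htA
    exact outB' t ht htB p hp hadj
  obtain ⟨cA, D1, hD1, hD1c, hD1n⟩ := side_8503 h1 hKc hP hPc
    (Finset.disjoint_of_subset_right hAT dPT) hKP (fun t ht => hTK t (hAT ht))
    (fun t ht => (Finset.mem_filter.mp ht).2)
  obtain ⟨cB, D2, hD2, hD2c, hD2n⟩ := side_8503 h1 hKc hP' hPc'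
    (Finset.disjoint_of_subset_right hBT dP'T) hKP' (fun t ht => hTK t (hBT ht))
    (fun t ht => (Finset.mem_filter.mp ht).2)
  -- the part `X`
  have hX : SLin c0 G (K ∪ (A ∩ B)) := by
    apply hc0 V G K (A ∩ B) h1 h2 hK (by omega)
    · exact Finset.disjoint_of_subset_right (Finset.inter_subset_left.trans hAT) dKT
    · intro t ht
      exact hTK t (hAT (Finset.mem_inter.mp ht).1)
  have sub1 : T \ A ⊆ T := Finset.sdiff_subset
  have sub2 : T \ B ⊆ T := Finset.sdiff_subset
  have sP1 : P \ D1 ⊆ P := Finset.sdiff_subset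
  have sP2 : P' \ D2 ⊆ P' := Finset.sdiff_subset
  have hY : SLin 30 G ((P \ D1) ∪ (P' \ D2) ∪ (T \ A) ∪ (T \ B)) := by
    apply four_8503 h1 h2
    · exact Finset.disjoint_of_subset_left sP1 (Finset.disjoint_of_subset_right sub1 dPT)
    · exact Finset.disjoint_of_subset_left sP1 (Finset.disjoint_of_subset_right sub2 dPT)
    · exact Finset.disjoint_of_subset_left sP1 (Finset.disjoint_of_subset_right sP2 dPP')
    · rw [Finset.disjoint_left]
      intro x hx hx'
      rw [Finset.mem_sdiff] at hx hx'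
      exact hx'.2 (outAB x hx.1 hx.2)
    · exact Finset.disjoint_of_subset_left sub1 (Finset.disjoint_of_subset_right sP2 dP'T.symm)
    · exact Finset.disjoint_of_subset_left sub2 (Finset.disjoint_of_subset_right sP2 dP'T.symm)
    · intro x hx y hy
      exact hP x (sP1 hx) y (sP1 hy)
    · intro x hx y hy
      exact hP' x (sP2 hx) y (sP2 hy)
    · intro x hx y hy hxy
      rw [Finset.mem_sdiff] at hx hy
      exact cB x (outAB x hx.1 hx.2) y (outAB y hy.1 hy.2) hxy
    · intro x hx y hy hxy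
      rw [Finset.mem_sdiff] at hx hy
      have hx' : x ∈ A := by
        by_contra h
        exact hx.2 (outAB x hx.1 h)
      have hy' : y ∈ A := by
        by_contra h
        exact hy.2 (outAB y hy.1 h)
      exact cA x hx' y hy' hxy
    · intro p hp q hq
      exact hPP' p (sP1 hp) q (sP2 hq)
    · intro p hp q hq hadj
      rw [Finset.mem_sdiff] at hq
      exact outB' q hq.1 hq.2 p (sP1 hp) hadj.symm
    · intro p hp q hq
      rw [Finset.mem_sdiff] at hp
      exact outA' p hp.1 hp.2 q (sP2 hq)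
  -- the join
  have hXY : SLin (4 * 2 * (c0 + 30 + 1)) G
      ((K ∪ (A ∩ B)) ∪ ((P \ D1) ∪ (P' \ D2) ∪ (T \ A) ∪ (T \ B))) := by
    set τ : V → Fin 4 := fun v => if v ∈ K then 0 else if v ∈ A ∩ B then 1 else
      if v ∈ P ∪ P' then 2 else 3 with hτ
    have nAB : ∀ v, v ∈ T → v ∉ A ∨ v ∉ B → v ∉ A ∩ B := by
      intro v _ h h'
      rw [Finset.mem_inter] at h'
      tauto
    have t0 : ∀ v ∈ K, τ v = 0 := by
      intro v hv
      simp [hτ, hv]
    have t1 : ∀ v ∈ A ∩ B, τ v = 1 := by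
      intro v hv
      have h3 : v ∉ K := Finset.disjoint_right.mp dKT (hAT (Finset.mem_inter.mp hv).1)
      simp only [hτ, if_neg h3, if_pos hv]
    have t2 : ∀ v ∈ P ∪ P', τ v = 2 := by
      intro v hv
      have h3 : v ∉ K := by
        rcases Finset.mem_union.mp hv with h | h
        · exact Finset.disjoint_right.mp dKP h
        · exact Finset.disjoint_right.mp dKP' h
      have h4 : v ∉ A ∩ B := by
        intro h'
        have h5 := hAT (Finset.mem_inter.mp h').1
        rcases Finset.mem_union.mp hv with h | h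
        · exact Finset.disjoint_right.mp dPT h5 h
        · exact Finset.disjoint_right.mp dP'T h5 h
      simp only [hτ, if_neg h3, if_neg h4, if_pos hv]
    have t3 : ∀ v ∈ T, (v ∉ A ∨ v ∉ B) → τ v = 3 := by
      intro v hv h
      have h3 : v ∉ K := Finset.disjoint_right.mp dKT hv
      have h4 : v ∉ A ∩ B := nAB v hv h
      have h5 : v ∉ P ∪ P' := by
        intro h'
        rcases Finset.mem_union.mp h' with h' | h'
        · exact Finset.disjoint_right.mp dPT hv h'
        · exact Finset.disjoint_right.mp dP'T hv h'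
      simp only [hτ, if_neg h3, if_neg h4, if_neg h5]
    apply slin_join ?_ τ (fun i j => (i = 0 ∧ j = 2) ∨ (i = 1 ∧ j = 3)) ?_ hX hY
    · rw [Finset.disjoint_left]
      intro v hv hv'
      have e1 : τ v = 0 ∨ τ v = 1 := by
        rcases Finset.mem_union.mp hv with h | h
        · exact Or.inl (t0 v h)
        · exact Or.inr (t1 v h)
      have e2 : τ v = 2 ∨ τ v = 3 := by
        simp only [Finset.mem_union] at hv'
        rcases hv' with ((h | h) | h) | h
        · exact Or.inl (t2 v (Finset.mem_union_left _ (sP1 h)))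
        · exact Or.inl (t2 v (Finset.mem_union_right _ (sP2 h)))
        · exact Or.inr (t3 v (sub1 h) (Or.inl (Finset.mem_sdiff.mp h).2))
        · exact Or.inr (t3 v (sub2 h) (Or.inr (Finset.mem_sdiff.mp h).2))
      rcases e1 with e1 | e1 <;> rcases e2 with e2 | e2 <;> rw [e1] at e2 <;>
        exact absurd e2 (by decide)
    · intro x hx y hy
      simp only [Finset.mem_union] at hy
      rcases Finset.mem_union.mp hx with hx | hx
      · rcases hy with ((h | h) | h) | h
        · rw [t0 x hx, t2 y (Finset.mem_union_left _ (sP1 h))]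
          simp [hKP x hx y (sP1 h)]
        · rw [t0 x hx, t2 y (Finset.mem_union_right _ (sP2 h))]
          simp [hKP' x hx y (sP2 h)]
        · rw [t0 x hx, t3 y (sub1 h) (Or.inl (Finset.mem_sdiff.mp h).2)]
          have h5 : ¬ G.Adj x y := fun h' =>
            outAK y (sub1 h) (Finset.mem_sdiff.mp h).2 x hx h'.symm
          simp [h5]
        · rw [t0 x hx, t3 y (sub2 h) (Or.inr (Finset.mem_sdiff.mp h).2)]
          have h5 : ¬ G.Adj x y := fun h' =>
            outBK y (sub2 h) (Finset.mem_sdiff.mp h).2 x hx h'.symm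
          simp [h5]
      · have hxA := (Finset.mem_inter.mp hx).1
        have hxB := (Finset.mem_inter.mp hx).2
        rcases hy with ((h | h) | h) | h
        · rw [t1 x hx, t2 y (Finset.mem_union_left _ (sP1 h))]
          simp [hD1n x hxA y h]
        · rw [t1 x hx, t2 y (Finset.mem_union_right _ (sP2 h))]
          simp [hD2n x hxB y h]
        · rw [t1 x hx, t3 y (sub1 h) (Or.inl (Finset.mem_sdiff.mp h).2)]
          have hyB := outAB y (sub1 h) (Finset.mem_sdiff.mp h).2
          have hne : x ≠ y := by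
            rintro rfl
            exact (Finset.mem_sdiff.mp h).2 hxA
          simp [cB x hxB y hyB hne]
        · rw [t1 x hx, t3 y (sub2 h) (Or.inr (Finset.mem_sdiff.mp h).2)]
          have hyA : y ∈ A := by
            by_contra h'
            exact (Finset.mem_sdiff.mp h).2 (outAB y (sub2 h) h')
          have hne : x ≠ y := by
            rintro rfl
            exact (Finset.mem_sdiff.mp h).2 hxB
          simp [cA x hxA y hyA hne]
  have hrem : SLin (4 * 2 * (c0 + 30 + 1)) G ((K ∪ P ∪ P' ∪ T) \ (D1 ∪ D2)) := by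
    apply hXY.subset
    intro v hv
    simp only [Finset.mem_sdiff, Finset.mem_union, Finset.mem_inter, not_or] at hv ⊢
    tauto
  have hfin := SLin.add (D1 ∪ D2) hrem
  apply hfin.mono_k
  have := Finset.card_union_le D1 D2
  omega

end SSubII

end Pool.Agent.Helper856.Cw
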