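import Pool.Agent.Helper856.Pair.Defs
import Pool.Agent.Helper856.Cw.Basic
import Pool.Agent.Helper856.Pair.Induce
import Pool.Agent.Helper856.Pair.Compl
import Pool.Agent.Helper856.Pair.Ramsey
import Pool.Agent.Helper856.Pair.SBase
import Pool.Agent.Helper856.Pair.SKm
import Pool.Agent.Helper856.Pair.SFacts
import Pool.Agent.Helper856.Pair.SCase1
import Pool.Agent.Helper856.Pair.SKt
import Pool.Agent.Helper856.Pair.SSubI
import Pool.Agent.Helper856.Pair.SSubII

open Classical SimpleGraph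

namespace Pool.Agent.Helper856.Cw

open Induce (slin_card)
open Compl (slin_compl)
open Ramsey (ramsey)
open SBase (nofc_compl no2p1p3_compl)
open SKm (km_struct)
open SFacts (km_c3)
open SCase1 (s_case1)
open SKt (kt_main)
open SSubI (sub_i)
open SSubII (sub_ii)

namespace SRow7

variable {V : Type} {G : SimpleGraph V} {S T : Finset V} {k l : ℕ}

/-- TARGET -/
theorem row7_clique : ∃ c, ∀ (V : Type) (G : SimpleGraph V) (S K0 : Finset V), No2P1P3 G → NoFc G →
    K0 ⊆ S → Clq G K0 → 40 ≤ K0.card → SLin c G S := by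
  obtain ⟨c1, hc1⟩ := kt_main
  obtain ⟨c2, hc2⟩ := sub_i
  obtain ⟨c3, hc3⟩ := sub_ii
  refine ⟨26 + c1 + c2 + c3 + 24, ?_⟩
  intro V G S K0 h' h hK0S hK0 h40
  -- a maximal clique
  have hne : (S.powerset.filter (fun K => Clq G K ∧ K0 ⊆ K)).Nonempty :=
    ⟨K0, by rw [Finset.mem_filter, Finset.mem_powerset]; exact ⟨hK0S, hK0, subset_rfl⟩⟩
  obtain ⟨K, hKmem, hKmax⟩ := Finset.exists_max_image _ Finset.card hne
  rw [Finset.mem_filter, Finset.mem_powerset] at hKmem
  obtain ⟨hKS, hK, hK0K⟩ := hKmem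
  have hKc : 40 ≤ K.card := h40.trans (Finset.card_le_card hK0K)
  have hmax : ∀ v ∈ S, v ∉ K → ∃ w ∈ K, ¬G.Adj v w := by
    intro v hv hvK
    by_contra hcon
    push Not at hcon
    have h1 : insert v K ∈ S.powerset.filter (fun K => Clq G K ∧ K0 ⊆ K) := by
      rw [Finset.mem_filter, Finset.mem_powerset]
      refine ⟨Finset.insert_subset hv hKS, ?_, hK0K.trans (Finset.subset_insert _ _)⟩
      intro x hx y hy hxy
      rw [Finset.mem_insert] at hx hy
      rcases hx with rfl | hx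
      · rcases hy with rfl | hy
        · exact absurd rfl hxy
        · exact hcon y hy
      · rcases hy with rfl | hy
        · exact (hcon x hx).symm
        · exact hK x hx y hy hxy
    have h2 := hKmax _ h1
    rw [Finset.card_insert_of_notMem hvK] at h2
    omega
  obtain ⟨T, m, hkm⟩ := km_struct h hKS hK (by omega) hmax
  by_cases hTc : Clq G T
  · exact (s_case1 h h' hkm hTc).mono_k (by omega)
  obtain ⟨x, hx, y, hy, hxy, hnxy⟩ : ∃ x ∈ T, ∃ y ∈ T, x ≠ y ∧ ¬G.Adj x y := by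
    by_contra hcon
    push Not at hcon
    exact hTc (fun x hx y hy hxy => hcon x hx y hy hxy)
  have hkm' := hkm
  obtain ⟨_, hTS, hKT, _, hmK, hmid, hadj, hnbr⟩ := hkm
  have hKST : ∀ k ∈ K, k ∈ S \ T := by
    intro k hk
    rw [Finset.mem_sdiff]
    exact ⟨hKS hk, Finset.disjoint_left.1 hKT hk⟩
  set A : Finset V := K.filter (fun k => ∃ q ∈ S \ T, m q = k ∧ q ≠ k) with hA
  set P : V → Finset V := fun a => (S \ T).filter (fun q => m q = a) with hP
  have hAK : ∀ a ∈ A, a ∈ K := fun a ha => (Finset.mem_filter.1 ha).1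
  have hPmem : ∀ a q, q ∈ P a ↔ q ∈ S \ T ∧ m q = a := by
    intro a q
    rw [hP]
    exact Finset.mem_filter
  -- at most two parts are not singletons
  have hA2 : A.card ≤ 2 := by
    have hcov : A ⊆ A.filter (fun k => ∃ z ∈ S \ T, m z = k ∧ G.Adj x z) ∪
        A.filter (fun k => ∃ z ∈ S \ T, m z = k ∧ G.Adj y z) := by
      intro k hk
      obtain ⟨hkK, q, hq, hqk, hne'⟩ := Finset.mem_filter.1 hk
      have h3 := km_c3 (S := S) (T := T) h' hkm' (by omega) hx hy (hKST k hkK) hq hxy hnxy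
        (Ne.symm hne') (by rw [hmid k hkK, hqk])
      rw [Finset.mem_union]
      rcases h3 with h3 | h3 | h3 | h3
      · left; exact Finset.mem_filter.2 ⟨hk, k, hKST k hkK, hmid k hkK, h3⟩
      · left; exact Finset.mem_filter.2 ⟨hk, q, hq, hqk, h3⟩
      · right; exact Finset.mem_filter.2 ⟨hk, k, hKST k hkK, hmid k hkK, h3⟩
      · right; exact Finset.mem_filter.2 ⟨hk, q, hq, hqk, h3⟩
    have hone : ∀ t ∈ T, (A.filter (fun k => ∃ z ∈ S \ T, m z = k ∧ G.Adj t z)).card ≤ 1 := by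
      intro t ht
      rw [Finset.card_le_one]
      intro a ha b hb
      obtain ⟨_, z, hz, hza, hza'⟩ := Finset.mem_filter.1 ha
      obtain ⟨_, w, hw, hwb, hwb'⟩ := Finset.mem_filter.1 hb
      rw [← hza, ← hwb]
      exact hnbr t ht z hz w hw hza' hwb'
    have h4 := Finset.card_le_card hcov
    have h5 := Finset.card_union_le (A.filter (fun k => ∃ z ∈ S \ T, m z = k ∧ G.Adj x z))
      (A.filter (fun k => ∃ z ∈ S \ T, m z = k ∧ G.Adj y z))
    have h6 := hone x hx
    have h7 := hone y hy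
    omega
  -- facts
  have f1 : Clq G (K \ A) := by
    intro u hu v hv huv
    exact hK u (Finset.mem_sdiff.1 hu).1 v (Finset.mem_sdiff.1 hv).1 huv
  have f2 : 12 ≤ (K \ A).card := by
    have h8 := Finset.le_card_sdiff A K
    omega
  have f3 : ∀ a, Ind G (P a) := by
    intro a u hu v hv huv
    obtain ⟨hu1, hu2⟩ := (hPmem a u).1 hu
    obtain ⟨hv1, hv2⟩ := (hPmem a v).1 hv
    have huv' : u ≠ v := huv.ne
    exact (hadj u hu1 v hv1 huv').1 huv (by rw [hu2, hv2])
  have f4 : ∀ a ∈ A, Disjoint (K \ A) (P a) := by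
    intro a ha
    rw [Finset.disjoint_left]
    intro u hu hu'
    obtain ⟨hu1, hu2⟩ := Finset.mem_sdiff.1 hu
    obtain ⟨_, hu4⟩ := (hPmem a u).1 hu'
    rw [hmid u hu1] at hu4
    rw [hu4] at hu2
    exact hu2 ha
  have f5 : Disjoint (K \ A) T := Finset.disjoint_of_subset_left Finset.sdiff_subset hKT
  have f6 : ∀ a, Disjoint (P a) T := by
    intro a
    rw [Finset.disjoint_left]
    intro u hu
    exact (Finset.mem_sdiff.1 ((hPmem a u).1 hu).1).2
  have f7 : ∀ a b, a ≠ b → Disjoint (P a) (P b) := by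
    intro a b hab
    rw [Finset.disjoint_left]
    intro u hu hu'
    exact hab (((hPmem a u).1 hu).2.symm.trans ((hPmem b u).1 hu').2)
  have f8 : ∀ a ∈ A, ∀ k ∈ K \ A, ∀ p ∈ P a, G.Adj k p := by
    intro a ha k hk p hp
    obtain ⟨hk1, hk2⟩ := Finset.mem_sdiff.1 hk
    obtain ⟨hp1, hp2⟩ := (hPmem a p).1 hp
    have hkp : m k ≠ m p := by
      rw [hmid k hk1, hp2]
      rintro rfl
      exact hk2 ha
    exact (hadj k (hKST k hk1) p hp1 (fun e => hkp (by rw [e]))).2 hkp
  have f9 : ∀ t ∈ T, (nb G (K \ A) t).card ≤ 1 := by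
    intro t ht
    rw [Finset.card_le_one]
    intro a ha b hb
    obtain ⟨ha1, ha2⟩ := Finset.mem_filter.1 ha
    obtain ⟨hb1, hb2⟩ := Finset.mem_filter.1 hb
    have ha3 := (Finset.mem_sdiff.1 ha1).1
    have hb3 := (Finset.mem_sdiff.1 hb1).1
    rw [← hmid a ha3, ← hmid b hb3]
    exact hnbr t ht a (hKST a ha3) b (hKST b hb3) ha2 hb2
  have f10 : ∀ a ∈ A, ∀ t ∈ T, ∀ k ∈ K \ A, ∀ p ∈ P a, G.Adj t k → ¬G.Adj t p := by
    intro a ha t ht k hk p hp htk htp
    obtain ⟨hk1, hk2⟩ := Finset.mem_sdiff.1 hk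
    obtain ⟨hp1, hp2⟩ := (hPmem a p).1 hp
    have e := hnbr t ht k (hKST k hk1) p hp1 htk htp
    rw [hmid k hk1, hp2] at e
    rw [e] at hk2
    exact hk2 ha
  have f11 : ∀ a b, a ≠ b → ∀ p ∈ P a, ∀ p' ∈ P b, G.Adj p p' := by
    intro a b hab p hp p' hp'
    obtain ⟨hp1, hp2⟩ := (hPmem a p).1 hp
    obtain ⟨hq1, hq2⟩ := (hPmem b p').1 hp'
    have hm : m p ≠ m p' := by rw [hp2, hq2]; exact hab
    exact (hadj p hp1 p' hq1 (fun e => hm (by rw [e]))).2 hm
  have f12 : ∀ a b, a ≠ b → ∀ t ∈ T, ∀ p ∈ P a, ∀ p' ∈ P b, G.Adj t p → ¬G.Adj t p' := by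
    intro a b hab t ht p hp p' hp' h1 h2
    obtain ⟨hp1, hp2⟩ := (hPmem a p).1 hp
    obtain ⟨hq1, hq2⟩ := (hPmem b p').1 hp'
    have e := hnbr t ht p hp1 p' hq1 h1 h2
    rw [hp2, hq2] at e
    exact hab e
  -- small and large parts
  set B : Finset V := A.filter (fun a => 13 ≤ (P a).card) with hB
  set F : Finset V := (A.filter (fun a => ¬ 13 ≤ (P a).card)).biUnion P with hF
  have hFc : F.card ≤ 24 := by
    have h9 : F.card ≤ ∑ a ∈ A.filter (fun a => ¬ 13 ≤ (P a).card), (P a).card :=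
      Finset.card_biUnion_le
    have h10 : ∑ a ∈ A.filter (fun a => ¬ 13 ≤ (P a).card), (P a).card ≤
        ∑ _a ∈ A.filter (fun a => ¬ 13 ≤ (P a).card), 12 := by
      apply Finset.sum_le_sum
      intro a ha
      have := (Finset.mem_filter.1 ha).2
      omega
    rw [Finset.sum_const, smul_eq_mul] at h10
    have h11 : (A.filter (fun a => ¬ 13 ≤ (P a).card)).card ≤ A.card := Finset.card_filter_le _ _
    omega
  have hSF : S \ F = (K \ A) ∪ (B.biUnion P) ∪ T := by
    ext q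
    simp only [Finset.mem_sdiff, Finset.mem_union, Finset.mem_biUnion, hF, hB, Finset.mem_filter]
    constructor
    · rintro ⟨hqS, hqF⟩
      by_cases hqT : q ∈ T
      · right; exact hqT
      · left
        have hq1 : q ∈ S \ T := Finset.mem_sdiff.2 ⟨hqS, hqT⟩
        by_cases hmA : m q ∈ A
        · right
          refine ⟨m q, ⟨hmA, ?_⟩, (hPmem _ _).2 ⟨hq1, rfl⟩⟩
          by_contra hlt
          exact hqF ⟨m q, ⟨hmA, hlt⟩, (hPmem _ _).2 ⟨hq1, rfl⟩⟩
        · left
          have hqe : q = m q := by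
            by_contra hne'
            exact hmA (Finset.mem_filter.2 ⟨hmK q hq1, q, hq1, rfl, hne'⟩)
          rw [hqe]
          exact ⟨hmK q hq1, hmA⟩
    · rintro ((⟨hq1, hq2⟩ | ⟨a, ⟨ha1, ha2⟩, hq⟩) | hq)
      · refine ⟨hKS hq1, ?_⟩
        rintro ⟨a, ⟨ha1, _⟩, hqa⟩
        have := ((hPmem a q).1 hqa).2
        rw [hmid q hq1] at this
        rw [this] at hq2
        exact hq2 ha1
      · obtain ⟨hq1, hq2⟩ := (hPmem a q).1 hq
        refine ⟨(Finset.mem_sdiff.1 hq1).1, ?_⟩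
        rintro ⟨b, ⟨_, hb2⟩, hqb⟩
        have := ((hPmem b q).1 hqb).2
        rw [hq2] at this
        rw [← this] at hb2
        exact hb2 ha2
      · refine ⟨hTS hq, ?_⟩
        rintro ⟨a, _, hqa⟩
        exact (Finset.mem_sdiff.1 ((hPmem a q).1 hqa).1).2 hq
  have hBA : ∀ b ∈ B, b ∈ A ∧ 12 ≤ (P b).card := by
    intro b hb
    obtain ⟨h1, h2⟩ := Finset.mem_filter.1 hb
    exact ⟨h1, by omega⟩
  have hBc : B.card ≤ 2 := (Finset.card_filter_le _ _).trans hA2
  have fin : ∀ c, SLin c G (S \ F) → c ≤ c1 + c2 + c3 → SLin (26 + c1 + c2 + c3 + 24) G S := by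
    intro c hc hcc
    exact (SLin.add F hc).mono_k (by omega)
  rcases Nat.lt_or_ge B.card 1 with hb0 | hb1
  · have hBe : B = ∅ := Finset.card_eq_zero.1 (by omega)
    apply fin c1 _ (by omega)
    rw [hSF, hBe, Finset.biUnion_empty, Finset.union_empty]
    exact hc1 V G (K \ A) T h' h f1 (by omega) f5 f9
  · rcases Nat.lt_or_ge B.card 2 with hb2 | hb2
    · obtain ⟨a, ha⟩ := Finset.card_eq_one.1 (show B.card = 1 by omega)
      have haB : a ∈ B := by rw [ha]; exact Finset.mem_singleton_self a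
      obtain ⟨haA, haP⟩ := hBA a haB
      apply fin c2 _ (by omega)
      rw [hSF, ha, Finset.singleton_biUnion]
      exact hc2 V G (K \ A) (P a) T h' h f1 f2 (f3 a) haP (f4 a haA) f5 (f6 a) (f8 a haA) f9
        (f10 a haA)
    · obtain ⟨a, b, hab, he⟩ := Finset.card_eq_two.1 (show B.card = 2 by omega)
      have haB : a ∈ B := by rw [he]; exact Finset.mem_insert_self a _
      have hbB : b ∈ B := by
        rw [he]; exact Finset.mem_insert_of_mem (Finset.mem_singleton_self b)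
      obtain ⟨haA, haP⟩ := hBA a haB
      obtain ⟨hbA, hbP⟩ := hBA b hbB
      apply fin c3 _ (by omega)
      rw [hSF, he, Finset.biUnion_insert, Finset.singleton_biUnion, ← Finset.union_assoc]
      refine hc3 V G (K \ A) (P a) (P b) T h' h f1 f2 (f3 a) haP (f3 b) hbP (f4 a haA) (f4 b hbA)
        (f7 a b hab) f5 (f6 a) (f6 b) (f8 a haA) (f8 b hbA) (f11 a b hab) f9 ?_ (f12 a b hab)
      intro t ht k hk p hp
      rw [Finset.mem_union] at hp
      rcases hp with hp | hp
      · exact f10 a haA t ht k hk p hp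
      · exact f10 b hbA t ht k hk p hp

/-- TARGET -/
theorem row7 : ∃ c, ∀ (V : Type) (G : SimpleGraph V) (S : Finset V), No2P1P3 G → NoFc G →
    SLin c G S := by
  obtain ⟨c, hc⟩ := row7_clique
  obtain ⟨N, hN⟩ := ramsey 40 40
  refine ⟨c + (N + 1), ?_⟩
  intro V G S h h'
  rcases Nat.lt_or_ge S.card N with hlt | hge
  · exact (slin_card (k := N) hlt.le).mono_k (by omega)
  · rcases hN V G S hge with ⟨K, hKS, hKc, hK⟩ | ⟨K, hKS, hKc, hK⟩
    · exact (hc V G S K h h' hKS hK (by omega)).mono_k (by omega)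
    · have h1 : Clq Gᶜ K := by
        intro x hx y hy hxy
        rw [SimpleGraph.compl_adj]
        exact ⟨hxy, hK x hx y hy⟩
      have h2 := hc V Gᶜ S K (no2p1p3_compl h') (nofc_compl h) hKS h1 (by omega)
      have h3 := slin_compl h2
      rw [compl_compl] at h3
      exact h3.mono_k (by omega)

end SRow7

end Pool.Agent.Helper856.Cw
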