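import Pool.Agent.Helper856.Pair.AsmT
import Pool.Agent.Helper856.Pair.ClMain
import Pool.Agent.Helper856.Pair.SRow7
import Pool.Agent.Helper856.Pair.F1Main
import Pool.Agent.Helper856.Pair.F2Main

open Classical SimpleGraph

namespace Pool.Agent.Helper856.Cw.AsmF

open Pool.Agent.Helper856.Lcw (GLin Wide gr K13_3P1 K13_P2 P1_S113 S122 BLin)
open Conv1 AsmN AsmS

variable {m n : ℕ} {A : SimpleGraph (Fin m)} {B : SimpleGraph (Fin n)}

theorem c1 : gP1P5.IsIndContained P1_S113 := by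
  refine ClMain.q_mk ![1,0,3,4,5,6] (by decide) ?_
  simp only [gr, gP1P5, P1_S113, SimpleGraph.fromRel_adj]
  decide

theorem c2 : gP1P2P3.IsIndContained P1_S113 := by
  refine ClMain.q_mk ![4,5,1,0,2,6] (by decide) ?_
  simp only [gr, gP1P2P3, P1_S113, SimpleGraph.fromRel_adj]
  decide

/-- triangle-free sets in `B`-free graphs -/
theorem tri_set (hB : BipL B) : ∃ k, ∀ (V : Type) [Finite V] (G : SimpleGraph V),
    ¬B.IsIndContained G → ∀ T : Finset V, TriT G T → SLin k G T := by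
  obtain ⟨k, hk2, hk⟩ := row_tri hB
  refine ⟨k, fun V _ G hBG T hT => ?_⟩
  refine slin_of_induce (by omega) (hk _ (G.induce (T : Set V)) ?_ ?_ _)
  · intro x y z h1 h2 h3
    exact hT x x.2 y y.2 z z.2 h1 h2 h3
  · intro h1
    exact hBG (h1.trans ⟨SimpleGraph.Embedding.induce _⟩)

theorem row5b (h : A.IsIndContained gDia) (hB : B.IsIndContained gP1P5) : BG A B := by
  obtain ⟨k, hk⟩ := tri_set (B := B) (Or.inr (Or.inr (Or.inr (Or.inl (hB.trans c1)))))
  obtain ⟨c, hc⟩ := F2Main.f2_main k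
  exact ⟨c, fun V _ G hA hBG => glin_of fun S => hc V G S (cv_Dia (fun h' => hA (h.trans h')))
    (cv_P1P5 (fun h' => hBG (hB.trans h'))) (fun T _ hT => hk V G hBG T hT)⟩

theorem row5c (h : A.IsIndContained gDia) (hB : B.IsIndContained gP1P2P3) : BG A B := by
  obtain ⟨k, hk⟩ := tri_set (B := B) (Or.inr (Or.inr (Or.inr (Or.inl (hB.trans c2)))))
  obtain ⟨c, hc⟩ := F1Main.f1_main k
  exact ⟨c, fun V _ G hA hBG => glin_of fun S => hc V G S (cv_Dia (fun h' => hA (h.trans h')))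
    (cv_P1P2P3 (fun h' => hBG (hB.trans h'))) (fun T _ hT => hk V G hBG T hT)⟩

theorem row7 (h : A.IsIndContained g2P1P3ᶜ) (hB : B.IsIndContained g2P1P3) : BG A B := by
  obtain ⟨c, hc⟩ := SRow7.row7
  refine ⟨c, fun V _ G hA hBG => glin_of fun S => hc V G S (cv_2P1P3 (fun h' => hBG (hB.trans h'))) ?_⟩
  have h1 : No2P1P3 Gᶜ := cv_2P1P3 (fun h' => hA (h.trans (by
    have := cont_compl h'
    rwa [compl_compl] at this)))
  have h2 := SBase.nofc_compl h1
  rwa [compl_compl] at h2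

theorem good_BG (h : Good A B) : BG A B := by
  rcases h with h | ⟨h1, h2⟩ | ⟨h1, h2⟩ | ⟨h1, h2⟩ | ⟨h1, h2 | h2 | h2⟩ | ⟨h1, h2⟩ | ⟨h1, h2⟩
  · exact row1 h
  · exact row2 h1 h2
  · subst h1 h2
    exact row3
  · exact row4 h1 h2
  · exact row5a h1 h2
  · exact row5b h1 h2
  · exact row5c h1 h2
  · exact row6 h1 h2
  · exact row7 h1 h2

end Pool.Agent.Helper856.Cw.AsmF
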