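import Pool.Agent.Helper856.Pair.Defs
import Pool.Agent.Helper856.Lcw.GBase

open Classical SimpleGraph

namespace Pool.Agent.Helper856.Cw

open Pool.Agent.Helper856.Lcw (gr)

namespace Conv2

variable {V : Type} {G : SimpleGraph V} {S T : Finset V} {k l : ℕ}

theorem DV_f {n : ℕ} {H : SimpleGraph (Fin n)} (f : H ↪g G) : ∃ g : Fin n → V,
    (∀ i j, G.Adj (g i) (g j) ↔ H.Adj i j) ∧ (∀ i j, g i = g j ↔ i = j) :=
  ⟨f, fun _ _ => f.map_adj_iff, fun _ _ => f.injective.eq_iff⟩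

/-- TARGET -/
theorem dv_TP (h : ∀ a b c d, G.Adj a b → G.Adj b c → G.Adj c d → ¬G.Adj a c → ¬G.Adj b d → a ≠ c →
    b ≠ d → False) : ¬gP4.IsIndContained G ∧ ¬gC4.IsIndContained G := by
  constructor
  · rintro ⟨f'⟩
    obtain ⟨f, adj, inj⟩ := DV_f f'
    refine h (f 0) (f 1) (f 2) (f 3) ?_ ?_ ?_ ?_ ?_ ?_ ?_ <;> simp [adj, inj, gP4, gr]
  · rintro ⟨f'⟩
    obtain ⟨f, adj, inj⟩ := DV_f f'
    refine h (f 0) (f 1) (f 2) (f 3) ?_ ?_ ?_ ?_ ?_ ?_ ?_ <;> simp [adj, inj, gC4, gr]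

/-- TARGET -/
theorem dv_C4 (h : NoC4 G) : ¬gC4.IsIndContained G := by
  rintro ⟨f'⟩
  obtain ⟨f, adj, inj⟩ := DV_f f'
  refine h (f 0) (f 1) (f 2) (f 3) ?_ ?_ ?_ ?_ ?_ ?_ ?_ ?_ <;> simp [adj, inj, gC4, gr]

/-- TARGET -/
theorem dv_2P2 (h : No2P2 G) : ¬g2P2.IsIndContained G := by
  rintro ⟨f'⟩
  obtain ⟨f, adj, inj⟩ := DV_f f'
  refine h (f 0) (f 1) (f 2) (f 3) ?_ ?_ ?_ ?_ ?_ ?_ <;> simp [adj, inj, g2P2, gr]

/-- TARGET -/
theorem dv_K13 (h : NoK13 G) : ¬gK13.IsIndContained G := by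
  rintro ⟨f'⟩
  obtain ⟨f, adj, inj⟩ := DV_f f'
  refine h (f 0) (f 1) (f 2) (f 3) ?_ ?_ ?_ ?_ ?_ ?_ ?_ ?_ ?_ <;> simp [adj, inj, gK13, gr]

/-- TARGET -/
theorem dv_K4 (h : NoK4 G) : ¬gK4.IsIndContained G := by
  rintro ⟨f'⟩
  obtain ⟨f, adj, inj⟩ := DV_f f'
  refine h (f 0) (f 1) (f 2) (f 3) ?_ ?_ ?_ ?_ ?_ ?_ <;> simp [adj, inj, gK4, gr]

/-- TARGET -/
theorem dv_Dia (h : NoDia G) : ¬gDia.IsIndContained G := by
  rintro ⟨f'⟩
  obtain ⟨f, adj, inj⟩ := DV_f f'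
  have h1 : G.Adj (f 2) (f 3) := by
    refine h (f 0) (f 1) (f 2) (f 3) ?_ ?_ ?_ ?_ ?_ ?_ <;> simp [adj, inj, gDia, gr]
  simp [adj, inj, gDia, gr] at h1

/-- TARGET -/
theorem dv_P1P4 (h : NoP1P4 G) : ¬gP1P4.IsIndContained G := by
  rintro ⟨f'⟩
  obtain ⟨f, adj, inj⟩ := DV_f f'
  refine h (f 4) (f 0) (f 1) (f 2) (f 3) ?_ ?_ ?_ ?_ ?_ ?_ ?_ ?_ ?_ ?_ <;> simp [adj, inj, gP1P4, gr]

/-- TARGET -/
theorem dv_3P1P2 (h : No3P1P2 G) : ¬g3P1P2.IsIndContained G := by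
  rintro ⟨f'⟩
  obtain ⟨f, adj, inj⟩ := DV_f f'
  refine h (f 2) (f 3) (f 4) (f 0) (f 1) ?_ ?_ ?_ ?_ ?_ ?_ ?_ ?_ ?_ ?_ ?_ ?_ ?_ <;> simp [adj, inj, g3P1P2, gr]

/-- TARGET -/
theorem dv_5P1 (h : ∀ F : Finset V, Ind G F → F.card ≤ 4) : ¬g5P1.IsIndContained G := by
  rintro ⟨f'⟩
  obtain ⟨f, adj, inj⟩ := DV_f f'
  have hinj : Function.Injective f := fun i j h => (inj i j).1 h
  have h1 := h (Finset.univ.image f) (by
    intro x hx y hy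
    rw [Finset.mem_image] at hx hy
    obtain ⟨i, -, rfl⟩ := hx
    obtain ⟨j, -, rfl⟩ := hy
    rw [adj]
    simp [g5P1, gr])
  rw [Finset.card_image_of_injective _ hinj, Finset.card_univ, Fintype.card_fin] at h1
  omega

/-- TARGET -/
theorem dv_tree {s : V → Bool} {h : V → ℕ} (h1 : ∀ u v, G.Adj u v → s u ≠ s v)
    (h2 : ∀ u v, G.Adj u v → h u ≠ h v)
    (h3 : ∀ u v w, G.Adj u v → G.Adj u w → h u < h v → h u < h w → v = w)
    (h4 : ∀ u a b c d, G.Adj u a → G.Adj u b → G.Adj u c → G.Adj u d →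
      a = b ∨ a = c ∨ a = d ∨ b = c ∨ b = d ∨ c = d) :
    ¬gK3.IsIndContained G ∧ ¬gC4.IsIndContained G ∧ ¬gC5.IsIndContained G ∧
      ¬gK14.IsIndContained G := by
  refine ⟨?_, ?_, ?_, ?_⟩
  · rintro ⟨f'⟩
    obtain ⟨f, adj, inj⟩ := DV_f f'
    have e1 : G.Adj (f 0) (f 1) := by simp [adj, inj, gK3, gr]
    have e2 : G.Adj (f 1) (f 2) := by simp [adj, inj, gK3, gr]
    have e3 : G.Adj (f 0) (f 2) := by simp [adj, inj, gK3, gr]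
    have k1 := h1 _ _ e1
    have k2 := h1 _ _ e2
    have k3 := h1 _ _ e3
    revert k1 k2 k3
    generalize s (f 0) = a
    generalize s (f 1) = b
    generalize s (f 2) = c
    revert a b c
    decide
  · rintro ⟨f'⟩
    obtain ⟨f, adj, inj⟩ := DV_f f'
    have e1 : G.Adj (f 0) (f 1) := by simp [adj, inj, gC4, gr]
    have e2 : G.Adj (f 1) (f 2) := by simp [adj, inj, gC4, gr]
    have e3 : G.Adj (f 2) (f 3) := by simp [adj, inj, gC4, gr]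
    have e4 : G.Adj (f 0) (f 3) := by simp [adj, inj, gC4, gr]
    have n1 : f 0 ≠ f 2 := by simp [inj]
    have n2 : f 1 ≠ f 3 := by simp [inj]
    have k1 := h2 _ _ e1
    have k2 := h2 _ _ e2
    have k3 := h2 _ _ e3
    have k4 := h2 _ _ e4
    have j0 : ¬(h (f 0) < h (f 1) ∧ h (f 0) < h (f 3)) := fun x => n2 (h3 _ _ _ e1 e4 x.1 x.2)
    have j1 : ¬(h (f 1) < h (f 0) ∧ h (f 1) < h (f 2)) := fun x => n1 (h3 _ _ _ e1.symm e2 x.1 x.2)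
    have j2 : ¬(h (f 2) < h (f 1) ∧ h (f 2) < h (f 3)) := fun x => n2 (h3 _ _ _ e2.symm e3 x.1 x.2)
    have j3 : ¬(h (f 3) < h (f 0) ∧ h (f 3) < h (f 2)) := fun x => n1 (h3 _ _ _ e4.symm e3.symm x.1 x.2)
    omega
  · rintro ⟨f'⟩
    obtain ⟨f, adj, inj⟩ := DV_f f'
    have e1 : G.Adj (f 0) (f 1) := by simp [adj, inj, gC5, gr]
    have e2 : G.Adj (f 1) (f 2) := by simp [adj, inj, gC5, gr]
    have e3 : G.Adj (f 2) (f 3) := by simp [adj, inj, gC5, gr]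
    have e4 : G.Adj (f 3) (f 4) := by simp [adj, inj, gC5, gr]
    have e5 : G.Adj (f 0) (f 4) := by simp [adj, inj, gC5, gr]
    have k1 := h1 _ _ e1
    have k2 := h1 _ _ e2
    have k3 := h1 _ _ e3
    have k4 := h1 _ _ e4
    have k5 := h1 _ _ e5
    revert k1 k2 k3 k4 k5
    generalize s (f 0) = a
    generalize s (f 1) = b
    generalize s (f 2) = c
    generalize s (f 3) = d
    generalize s (f 4) = e
    cases a <;> cases b <;> cases c <;> cases d <;> cases e <;> simp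
  · rintro ⟨f'⟩
    obtain ⟨f, adj, inj⟩ := DV_f f'
    have e1 : G.Adj (f 0) (f 1) := by simp [adj, inj, gK14, gr]
    have e2 : G.Adj (f 0) (f 2) := by simp [adj, inj, gK14, gr]
    have e3 : G.Adj (f 0) (f 3) := by simp [adj, inj, gK14, gr]
    have e4 : G.Adj (f 0) (f 4) := by simp [adj, inj, gK14, gr]
    rcases h4 _ _ _ _ _ e1 e2 e3 e4 with h | h | h | h | h | h <;> simp [inj] at h

end Conv2

end Pool.Agent.Helper856.Cw
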