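import Pool.Agent.Helper856.Lcw.FamS

open Classical SimpleGraph

namespace Pool.Agent.Helper856.Cw.FamC

open Pool.Agent.Helper856.Lcw Pool.Agent.Helper856.Lcw.FamS

/-- additional properties of the recursive trees -/
structure Col (V : Type) (G : SimpleGraph V) (h : V → ℕ) (r : V) (c : V → Fin 4) : Prop where
  low : ∀ u a b c, G.Adj u a → G.Adj u b → G.Adj u c → h a < h u → h b < h u → h c < h u →
    a = b ∨ a = c ∨ b = c
  ca : ∀ u v, G.Adj u v → c u ≠ c v
  cd : ∀ u v w, G.Adj u v → G.Adj u w → v ≠ w → c v ≠ c w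
  cr : c r = 0
  cn : ∀ a, G.Adj r a → c a = 1

def perm : Fin 3 → Fin 4 → Fin 4 := ![![3, 0, 2, 1], ![0, 1, 2, 3], ![1, 0, 2, 3]]

theorem perm_inj (l : Fin 3) : Function.Injective (perm l) := by
  revert l; decide

theorem perm_hub0 (l : Fin 3) : perm l 0 ≠ hub l := by
  revert l; decide

theorem perm_hub1 (l : Fin 3) : perm l 1 ≠ hub l := by
  revert l; decide

def nc {V : Type} (c : V → Fin 4) : (Fin 4 ⊕ (Fin 3 × V)) → Fin 4
  | Sum.inl a => a
  | Sum.inr (l, v) => perm l (c v)

theorem col_step {V : Type} {G : SimpleGraph V} {r : V} {k : ℕ} {s : V → Bool} {h : V → ℕ}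
    {T : V → Bool} {M : ℕ} {c : V → Fin 4} (g : Good k V G s h T r M) (q : Col V G h r c) :
    Col (Fin 4 ⊕ (Fin 3 × V)) (NG G r) (nh h M) (Sum.inl 0) (nc c) := by
  refine ⟨?_, ?_, ?_, rfl, ?_⟩
  · rintro (u | ⟨l, u⟩) x y z hx hy hz h1 h2 h3
    · fin_cases u
      · left; rw [nb0 hx, nb0 hy]
      · rcases nb1 hx with rfl | rfl | rfl <;> rcases nb1 hy with rfl | rfl | rfl <;>
          rcases nb1 hz with rfl | rfl | rfl <;> simp [nh, g.hr] at h1 h2 h3 ⊢
      · rcases nb2 hx with rfl | rfl <;> rcases nb2 hy with rfl | rfl <;>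
          rcases nb2 hz with rfl | rfl <;> simp [nh] at h1 h2 h3 ⊢
      · rcases nb3 hx with rfl | rfl | rfl <;> rcases nb3 hy with rfl | rfl | rfl <;>
          rcases nb3 hz with rfl | rfl | rfl <;> simp [nh, g.hr] at h1 h2 h3 ⊢
    · by_cases hu : u = r
      · rw [hu] at hx hy hz
        exact root2 g.deg1 hx hy hz
      · obtain ⟨wx, rfl, hx'⟩ := nbc' hu hx
        obtain ⟨wy, rfl, hy'⟩ := nbc' hu hy
        obtain ⟨wz, rfl, hz'⟩ := nbc' hu hz
        rcases q.low u wx wy wz hx' hy' hz' h1 h2 h3 with h | h | h <;> simp [h]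
  · rintro (u | ⟨l, u⟩) x hux
    · fin_cases u
      · rw [nb0 hux]; simp [nc]
      · rcases nb1 hux with rfl | rfl | rfl <;> simp [nc, q.cr, perm]
      · rcases nb2 hux with rfl | rfl <;> simp [nc]
      · rcases nb3 hux with rfl | rfl | rfl <;> simp [nc, q.cr, perm]
    · rcases nbc hux with ⟨w, rfl, hw⟩ | ⟨rfl, rfl⟩
      · exact fun hh => q.ca u w hw (perm_inj l hh)
      · show perm l (c u) ≠ hub l
        rw [q.cr]
        exact perm_hub0 l
  · rintro (u | ⟨l, u⟩) x y hx hy hxy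
    · fin_cases u
      · exact absurd ((nb0 hx).trans (nb0 hy).symm) hxy
      · rcases nb1 hx with rfl | rfl | rfl <;> rcases nb1 hy with rfl | rfl | rfl <;>
          first
            | exact absurd rfl hxy
            | simp [nc, q.cr, perm]
      · rcases nb2 hx with rfl | rfl <;> rcases nb2 hy with rfl | rfl <;>
          first
            | exact absurd rfl hxy
            | simp [nc]
      · rcases nb3 hx with rfl | rfl | rfl <;> rcases nb3 hy with rfl | rfl | rfl <;>
          first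
            | exact absurd rfl hxy
            | simp [nc, q.cr, perm]
    · rcases nbc hx with ⟨w, rfl, hw⟩ | ⟨hu, rfl⟩ <;> rcases nbc hy with ⟨w', rfl, hw'⟩ | ⟨hu', rfl⟩
      · intro hh
        exact q.cd u w w' hw hw' (fun h => hxy (by rw [h])) (perm_inj l hh)
      · show perm l (c w) ≠ hub l
        rw [q.cn w (hu' ▸ hw)]
        exact perm_hub1 l
      · show hub l ≠ perm l (c w')
        rw [q.cn w' (hu ▸ hw')]
        exact (perm_hub1 l).symm
      · exact absurd rfl hxy
  · intro a ha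
    rw [nb0 ha]
    rfl

theorem col_one : Col Bool ⊤ (fun b => if b then 1 else 0) true (fun b => if b then 0 else 1) := by
  refine ⟨?_, ?_, ?_, rfl, ?_⟩
  · intro u a b c h1 h2 _ _ _ _
    cases u <;> cases a <;> cases b <;> simp at h1 h2 ⊢
  · intro u v h
    cases u <;> cases v <;> simp at h ⊢
  · intro u v w h1 h2 h3
    cases u <;> cases v <;> cases w <;> simp at h1 h2 h3
  · intro a h
    cases a <;> simp at h ⊢

theorem exists_good2 (k : ℕ) : ∃ (V : Type) (G : SimpleGraph V) (s : V → Bool)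
    (h : V → ℕ) (T : V → Bool) (r : V) (M : ℕ) (c : V → Fin 4), Good (k + 1) V G s h T r M ∧
    Col V G h r c := by
  induction k with
  | zero => exact ⟨_, _, _, _, _, _, _, _, good_one, col_one⟩
  | succ k ih =>
    obtain ⟨V, G, s, h, T, r, M, c, g, q⟩ := ih
    exact ⟨_, _, _, _, _, _, _, _, good_step (Nat.succ_pos k) g, col_step g q⟩

theorem exists_col (k : ℕ) : ∃ (V : Type) (_ : Finite V) (G : SimpleGraph V) (h : V → ℕ)
    (col : V → Fin 4),
    (∀ u v, G.Adj u v → h u ≠ h v) ∧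
    (∀ u v w, G.Adj u v → G.Adj u w → h u < h v → h u < h w → v = w) ∧
    (∀ u a b c, G.Adj u a → G.Adj u b → G.Adj u c → h a < h u → h b < h u → h c < h u →
      a = b ∨ a = c ∨ b = c) ∧
    (∀ u v, G.Adj u v → col u ≠ col v) ∧
    (∀ u v w, G.Adj u v → G.Adj u w → v ≠ w → col v ≠ col w) ∧
    Wide (k + 1) G := by
  obtain ⟨V, G, s, h, T, r, M, c, g, q⟩ := exists_good2 k
  exact ⟨V, g.fin, G, h, c, g.hne, g.par, q.low, q.ca, q.cd, g.wide⟩

end Pool.Agent.Helper856.Cw.FamC
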