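import Pool.Agent.Helper856.Lcw.FamS
import Pool.Agent.Helper856.Lcw.UnbS
import Pool.Agent.Helper856.Pair.Flip

open Classical SimpleGraph

namespace Pool.Agent.Helper856.Cw.FamX

open Pool.Agent.Helper856.Lcw (GLin Wide)

theorem exists_S (k : ℕ) : ∃ (V : Type) (_ : Finite V) (G : SimpleGraph V) (s : V → Bool)
    (h : V → ℕ) (T : V → Bool),
    (∀ u v, G.Adj u v → s u ≠ s v) ∧
    (∀ u v, G.Adj u v → h u ≠ h v) ∧
    (∀ u v w, G.Adj u v → G.Adj u w → h u < h v → h u < h w → v = w) ∧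
    (∀ u v, G.Adj u v → T u = false ∨ T v = false) ∧
    (∀ u a b c, T u = false → G.Adj u a → G.Adj u b → G.Adj u c → a = b ∨ a = c ∨ b = c) ∧
    (∀ u a b c d, G.Adj u a → G.Adj u b → G.Adj u c → G.Adj u d →
      a = b ∨ a = c ∨ a = d ∨ b = c ∨ b = d ∨ c = d) ∧
    Wide k G := Pool.Agent.Helper856.Lcw.FamS.exists_S k

theorem wide_not_glin {V : Type} {k : ℕ} {G : SimpleGraph V} (h : Wide (k + 1) G) : ¬GLin k G :=
  Pool.Agent.Helper856.Lcw.UnbS.wide_not_glin h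

theorem glin_flip {V : Type} {k : ℕ} {G : SimpleGraph V} {m : ℕ} {G' : SimpleGraph V}
    (τ : V → Fin m) (Q : Fin m → Fin m → Prop)
    (h : ∀ u v, u ≠ v → (G'.Adj u v ↔ ¬(G.Adj u v ↔ Q (τ u) (τ v))))
    (hG : GLin k G) : GLin (m * k) G' := by
  obtain ⟨p, hp, hc⟩ := hG
  refine ⟨p, hp, fun t => ?_⟩
  obtain ⟨c, hc⟩ := hc t
  refine ⟨fun v => finProdFinEquiv (τ v, c v), fun u v hu hv hcol w hw => ?_⟩
  have h5 := finProdFinEquiv.injective hcol
  simp only [Prod.mk.injEq] at h5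
  have h6 := hc u v hu hv h5.2 w hw
  have e1 : u ≠ w := by rintro rfl; omega
  have e2 : v ≠ w := by rintro rfl; omega
  rw [h u w e1, h v w e2, h6, h5.1]

end Pool.Agent.Helper856.Cw.FamX
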