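import Pool.Agent.Helper856.Pair.Defs
import Pool.Agent.Helper856.Pair.FamC
import Pool.Agent.Helper856.Pair.FamX
import Pool.Agent.Helper856.Lcw.GBase

open Classical SimpleGraph

namespace Pool.Agent.Helper856.Cw

open Pool.Agent.Helper856.Lcw (GLin Wide)
open FamC (exists_col)
open FamX (wide_not_glin glin_flip)

namespace FamDia

variable {V : Type} {G : SimpleGraph V} {S T : Finset V} {k l : ℕ}

/-- TARGET -/
theorem fam_dia (k : ℕ) : ∃ (V : Type) (_ : Finite V) (G : SimpleGraph V),
    NoDia G ∧ (∀ F : Finset V, Ind G F → F.card ≤ 4) ∧ ¬GLin k G := by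
  obtain ⟨V, hfin, F, h, col, hne, hup, -, hc1, hc2, hW⟩ := exists_col (4 * k)
  have notri : ∀ x y z, F.Adj x y → F.Adj y z → F.Adj x z → False := by
    intro x y z hxy hyz hxz
    have n1 := hne x y hxy
    have n2 := hne y z hyz
    have n3 := hne x z hxz
    rcases lt_or_gt_of_ne n1 with h1 | h1
    · rcases lt_or_gt_of_ne n3 with h3 | h3
      · exact hyz.ne (hup x y z hxy hxz h1 h3)
      · exact hxy.ne (hup z x y hxz.symm hyz.symm h3 (h3.trans h1))
    · rcases lt_or_gt_of_ne n2 with h2 | h2
      · exact hxz.ne (hup y x z hxy.symm hyz h1 h2)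
      · exact hxy.ne (hup z x y hxz.symm hyz.symm (h2.trans h1) h2)
  let G' : SimpleGraph V :=
    { Adj := fun u v => u ≠ v ∧ (F.Adj u v ∨ col u = col v)
      symm := by
        constructor
        rintro u v ⟨h1, h2⟩
        exact ⟨h1.symm, h2.elim (fun h => Or.inl h.symm) fun h => Or.inr h.symm⟩
      loopless := ⟨fun u hu => hu.1 rfl⟩ }
  have hG' : ∀ u v, G'.Adj u v ↔ u ≠ v ∧ (F.Adj u v ∨ col u = col v) := fun _ _ => Iff.rfl
  refine ⟨V, hfin, G', ?_, ?_, ?_⟩
  · intro x y a b hxy hxa hya hxb hyb hab
    rw [hG'] at *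
    by_cases hc : col x = col y
    · have key : ∀ a, (x ≠ a ∧ (F.Adj x a ∨ col x = col a)) →
          (y ≠ a ∧ (F.Adj y a ∨ col y = col a)) → col a = col x := by
        intro a ha hb
        by_contra hca
        have e1 : F.Adj x a := ha.2.resolve_right fun h => hca h.symm
        have e2 : F.Adj y a := hb.2.resolve_right fun h => hca (h.symm.trans hc.symm)
        exact hc2 a x y e1.symm e2.symm hxy.1 hc
      exact ⟨hab, Or.inr ((key a hxa hya).trans (key b hxb hyb).symm)⟩
    · exfalso
      have hF : F.Adj x y := hxy.2.resolve_right hc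
      rcases hxa.2 with e1 | e1
      · rcases hya.2 with e2 | e2
        · exact notri x y a hF e2 e1
        · exact hc2 x y a hF e1 hya.1 e2
      · rcases hya.2 with e2 | e2
        · exact hc2 y x a hF.symm e2 hxa.1 e1
        · exact hc (e1.trans e2.symm)
  · intro T hT
    have : T.card ≤ (Finset.univ : Finset (Fin 4)).card := by
      apply Finset.card_le_card_of_injOn col (fun _ _ => Finset.mem_univ _)
      intro x hx y hy hxy
      by_contra hn
      exact hT x hx y hy ⟨hn, Or.inr hxy⟩
    simpa using this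
  · intro hG
    refine wide_not_glin hW (glin_flip (G := G') (G' := F) col (fun i j => i = j) ?_ hG)
    intro u v huv
    rw [hG']
    have := hc1 u v
    tauto

end FamDia

end Pool.Agent.Helper856.Cw
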