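import Pool.Agent.Helper856.Pair.Defs
import Pool.Agent.Helper856.Lcw.GBase

open Classical SimpleGraph

namespace Pool.Agent.Helper856.Cw

open Pool.Agent.Helper856.Lcw (GLin)

namespace CountCut

variable {V : Type} {G : SimpleGraph V} {S T : Finset V} {k l : ℕ}

/-- TARGET -/
theorem count_cut {d : ℕ} (hd : ∀ v, ∀ F : Finset V, (∀ w ∈ F, G.Adj v w) → F.card ≤ d)
    (hG : GLin k G) : ∃ p : V → ℕ, Function.Injective p ∧ ∀ t, ∀ F : Finset V,
      (∀ u ∈ F, p u < t ∧ ∃ w, t ≤ p w ∧ G.Adj u w) → F.card ≤ d * k := by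
  obtain ⟨p, hp, h⟩ := hG
  refine ⟨p, hp, fun t F hF => ?_⟩
  obtain ⟨c, hc⟩ := h t
  have h1 : F.card ≤ d * (Finset.univ : Finset (Fin k)).card := by
    refine Finset.card_le_mul_card_image_of_maps_to (f := c) (fun _ _ => Finset.mem_univ _) d
      fun i _ => ?_
    rcases (F.filter fun u => c u = i).eq_empty_or_nonempty with h2 | ⟨u0, hu0⟩
    · rw [h2]
      simp
    · rw [Finset.mem_filter] at hu0
      obtain ⟨hpu, w, hw, hadj⟩ := hF u0 hu0.1
      refine hd w _ fun u hu => ?_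
      rw [Finset.mem_filter] at hu
      have h3 := hc u0 u hpu (hF u hu.1).1 (by rw [hu0.2, hu.2]) w hw
      exact (h3.1 hadj).symm
  simpa using h1

end CountCut

end Pool.Agent.Helper856.Cw
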