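import Pool.Agent.Helper856.Pair.Defs
import Pool.Agent.Helper856.Pair.FamC
import Pool.Agent.Helper856.Pair.CountCut
import Pool.Agent.Helper856.Pair.FamX
import Pool.Agent.Helper856.Lcw.GBase

open Classical SimpleGraph

namespace Pool.Agent.Helper856.Cw

open Pool.Agent.Helper856.Lcw (GLin Wide)
open FamC (exists_col)
open CountCut (count_cut)
open FamX (glin_flip)

namespace FamK4

variable {V : Type} {G : SimpleGraph V} {S T : Finset V} {k l : ℕ}

/-- vertices of the 2-subdivision -/
abbrev SW (G : SimpleGraph V) : Type := V ⊕ {e : V × V // G.Adj e.1 e.2}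

/-- adjacency of the 2-subdivision -/
def FA (G : SimpleGraph V) : SW G → SW G → Prop
  | .inl _, .inl _ => False
  | .inl u, .inr e => e.1.1 = u
  | .inr e, .inl u => e.1.1 = u
  | .inr e, .inr e' => e.1.1 = e'.1.2 ∧ e.1.2 = e'.1.1

theorem FA_symm {x y : SW G} (h : FA G x y) : FA G y x := by
  rcases x with u | e <;> rcases y with v | e'
  · exact h
  · exact h
  · exact h
  · exact ⟨h.2.symm, h.1.symm⟩

theorem FA_irrefl (x : SW G) : ¬ FA G x x := by
  rcases x with u | ⟨⟨a, b⟩, hab⟩
  · exact fun h => h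
  · intro h
    have h1 : a = b := h.1
    subst h1
    exact G.loopless.irrefl _ hab

/-- the 2-subdivision -/
def FG (G : SimpleGraph V) : SimpleGraph (SW G) where
  Adj := FA G
  symm := ⟨fun _ _ h => FA_symm h⟩
  loopless := ⟨fun x h => FA_irrefl x h⟩

/-- the classes -/
noncomputable def ta (h : V → ℕ) : SW G → Fin 3
  | .inl _ => 0
  | .inr e => if h e.1.1 < h e.1.2 then 1 else 2

theorem ta_inl (h : V → ℕ) (u : V) : ta (G := G) h (.inl u) = 0 := rfl

theorem ta_inr (h : V → ℕ) (e : {e : V × V // G.Adj e.1 e.2}) :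
    ta (G := G) h (.inr e) = if h e.1.1 < h e.1.2 then 1 else 2 := rfl

theorem ta_inr_ne (h : V → ℕ) (e : {e : V × V // G.Adj e.1 e.2}) :
    ta (G := G) h (.inr e) ≠ 0 := by
  rw [ta_inr]; split_ifs <;> decide

theorem FA_ta {h : V → ℕ} (H1 : ∀ u v, G.Adj u v → h u ≠ h v) {x y : SW G} (hxy : FA G x y) :
    ta h x ≠ ta h y := by
  rcases x with u | e <;> rcases y with v | e'
  · exact hxy.elim
  · rw [ta_inl]; exact (ta_inr_ne h e').symm
  · rw [ta_inl]; exact ta_inr_ne h e
  · obtain ⟨h1, h2⟩ := hxy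
    have h3 := H1 _ _ e.2
    rw [ta_inr, ta_inr, ← h1, ← h2]
    rcases lt_or_gt_of_ne h3 with h4 | h4
    · rw [if_pos h4, if_neg (by omega)]; decide
    · rw [if_neg (by omega), if_pos h4]; decide

/-- the reversed dart -/
def rv (e : {e : V × V // G.Adj e.1 e.2}) : {e : V × V // G.Adj e.1 e.2} :=
  ⟨(e.1.2, e.1.1), e.2.symm⟩

theorem FA_inr {e : {e : V × V // G.Adj e.1 e.2}} {x : SW G} (h : FA G (.inr e) x) :
    x = .inl e.1.1 ∨ x = .inr (rv e) := by
  rcases x with u | e'
  · left; have h' : e.1.1 = u := h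
    rw [h']
  · right
    obtain ⟨h1, h2⟩ := h
    congr 1
    apply Subtype.ext
    exact Prod.ext h2.symm h1.symm

theorem FA_inl {u : V} {x : SW G} (h : FA G (.inl u) x) : ∃ e, x = .inr e ∧ e.1.1 = u := by
  rcases x with u | e'
  · exact h.elim
  · exact ⟨e', rfl, h⟩

/-- no three distinct neighbours of the same class -/
theorem FA_three {h : V → ℕ} (H1 : ∀ u v, G.Adj u v → h u ≠ h v)
    (H2 : ∀ u v w, G.Adj u v → G.Adj u w → h u < h v → h u < h w → v = w)
    (H3 : ∀ u a b c, G.Adj u a → G.Adj u b → G.Adj u c → h a < h u → h b < h u → h c < h u →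
      a = b ∨ a = c ∨ b = c) {z x y w : SW G} (hx : FA G z x) (hy : FA G z y) (hw : FA G z w)
    (hxy : ta h x = ta h y) (hxw : ta h x = ta h w) : x = y ∨ x = w ∨ y = w := by
  rcases z with u | e
  · obtain ⟨⟨⟨x1, x2⟩, ex⟩, rfl, hx'⟩ := FA_inl hx
    obtain ⟨⟨⟨y1, y2⟩, ey⟩, rfl, hy'⟩ := FA_inl hy
    obtain ⟨⟨⟨w1, w2⟩, ew⟩, rfl, hw'⟩ := FA_inl hw
    simp only at hx' hy' hw' ex ey ew
    obtain rfl : u = x1 := hx'.symm
    obtain rfl : u = y1 := hy'.symm
    obtain rfl : u = w1 := hw'.symm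
    simp only [ta_inr] at hxy hxw
    have n1 := H1 _ _ ex
    have n2 := H1 _ _ ey
    have n3 := H1 _ _ ew
    by_cases c1 : h u < h x2
    · rw [if_pos c1] at hxy
      have c2 : h u < h y2 := by
        by_contra hc
        rw [if_neg hc] at hxy
        exact absurd hxy (by decide)
      left
      have := H2 _ _ _ ex ey c1 c2
      subst this
      rfl
    · rw [if_neg c1] at hxy hxw
      have c2 : ¬ h u < h y2 := by
        intro hc
        rw [if_pos hc] at hxy
        exact absurd hxy (by decide)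
      have c3 : ¬ h u < h w2 := by
        intro hc
        rw [if_pos hc] at hxw
        exact absurd hxw (by decide)
      rcases H3 _ _ _ _ ex ey ew (by omega) (by omega) (by omega) with h1 | h1 | h1
      · left; subst h1; rfl
      · right; left; subst h1; rfl
      · right; right; subst h1; rfl
  · rcases FA_inr hx with rfl | rfl <;> rcases FA_inr hy with rfl | rfl <;>
      rcases FA_inr hw with rfl | rfl <;> simp

theorem FA_tri {x y z : SW G} (h1 : FA G x y) (h2 : FA G y z) (h3 : FA G x z) : False := by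
  have key : ∀ {e : {e : V × V // G.Adj e.1 e.2}} {y z : SW G}, FA G (.inr e) y →
      FA G y z → FA G (.inr e) z → False := by
    intro e y z h1 h2 h3
    have hne : e.1.1 ≠ e.1.2 := e.2.ne
    rcases FA_inr h1 with rfl | rfl <;> rcases FA_inr h3 with rfl | rfl
    · exact h2
    · have h4 : e.1.2 = e.1.1 := h2
      exact hne h4.symm
    · have h4 : e.1.2 = e.1.1 := h2
      exact hne h4.symm
    · have h4 : e.1.2 = e.1.1 := h2.1
      exact hne h4.symm
  rcases x with u | e
  · obtain ⟨e, rfl, -⟩ := FA_inl h1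
    exact key h2 (FA_symm h3) (FA_symm h1)
  · exact key h1 h2 h3

theorem rv_rv (e : {e : V × V // G.Adj e.1 e.2}) : rv (rv e) = e := rfl

theorem FA_c4 {x y z w : SW G} (h1 : FA G x y) (h2 : FA G y z) (h3 : FA G z w) (h4 : FA G w x)
    (hxz : x ≠ z) (hyw : y ≠ w) : False := by
  have key : ∀ {e : {e : V × V // G.Adj e.1 e.2}} {y z w : SW G}, FA G (.inr e) y →
      FA G y z → FA G z w → FA G w (.inr e) → (.inr e) ≠ z → y ≠ w → False := by
    intro e y z w h1 h2 h3 h4 hxz hyw
    rcases FA_inr h1 with rfl | rfl <;> rcases FA_inr (FA_symm h4) with rfl | rfl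
    · exact hyw rfl
    · rcases FA_inr (FA_symm h3) with rfl | rfl
      · exact h2
      · exact hxz rfl
    · rcases FA_inr h2 with rfl | rfl
      · exact h3
      · exact hxz rfl
    · exact hyw rfl
  rcases x with u | e
  · obtain ⟨e, rfl, -⟩ := FA_inl h1
    exact key h2 h3 h4 h1 hyw (Ne.symm hxz)
  · exact key h1 h2 h3 h4 hxz hyw

/-- the graph -/
def GG (G : SimpleGraph V) (h : V → ℕ) : SimpleGraph (SW G) where
  Adj x y := ta h x ≠ ta h y ∧ ¬ FA G x y
  symm := ⟨fun _ _ hh => ⟨hh.1.symm, fun h' => hh.2 (FA_symm h')⟩⟩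
  loopless := ⟨fun _ hh => hh.1 rfl⟩

theorem GG_adj {h : V → ℕ} {x y : SW G} : (GG G h).Adj x y ↔ ta h x ≠ ta h y ∧ ¬ FA G x y :=
  Iff.rfl

theorem GG_nadj {h : V → ℕ} {x y : SW G} (hn : ¬ (GG G h).Adj x y) (ht : ta h x ≠ ta h y) :
    FA G x y := by
  by_contra hc
  exact hn ⟨ht, hc⟩

theorem GG_k4 (h : V → ℕ) : NoK4 (GG G h) := by
  intro a b c d h1 h2 h3 h4 h5 h6
  have e1 := h1.1
  have e2 := h2.1
  have e3 := h3.1
  have e4 := h4.1
  have e5 := h5.1
  have e6 := h6.1
  generalize ta h a = a' at *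
  generalize ta h b = b' at *
  generalize ta h c = c' at *
  generalize ta h d = d' at *
  clear h1 h2 h3 h4 h5 h6
  revert a' b' c' d'
  decide

theorem GG_aux {h : V → ℕ} (H1 : ∀ u v, G.Adj u v → h u ≠ h v)
    (H2 : ∀ u v w, G.Adj u v → G.Adj u w → h u < h v → h u < h w → v = w)
    (H3 : ∀ u a b c, G.Adj u a → G.Adj u b → G.Adj u c → h a < h u → h b < h u → h c < h u →
      a = b ∨ a = c ∨ b = c) {p q r x y : SW G} (hxy : (GG G h).Adj x y)
    (hpr : ¬(GG G h).Adj p r) (hqr : ¬(GG G h).Adj q r) (npq : p ≠ q) (npr : p ≠ r) (nqr : q ≠ r)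
    (hpx : ¬(GG G h).Adj p x) (hpy : ¬(GG G h).Adj p y) (hqx : ¬(GG G h).Adj q x)
    (hqy : ¬(GG G h).Adj q y) (hrx : ¬(GG G h).Adj r x) (hry : ¬(GG G h).Adj r y)
    (ht : ta h p = ta h q) : False := by
  -- the main step for a vertex `z` of another class
  have main : ∀ z, ta h p ≠ ta h z → ¬(GG G h).Adj p z → ¬(GG G h).Adj q z →
      ¬(GG G h).Adj r z → z ≠ r → False := by
    intro z hz hpz hqz hrz hzr
    have f1 := GG_nadj hpz hz
    have f2 := GG_nadj hqz (ht ▸ hz)
    by_cases hr : ta h p = ta h r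
    · have f3 := GG_nadj hrz (hr ▸ hz)
      rcases FA_three H1 H2 H3 (FA_symm f1) (FA_symm f2) (FA_symm f3) ht hr with e | e | e
      · exact npq e
      · exact npr e
      · exact nqr e
    · have f3 := GG_nadj hpr hr
      have f4 := GG_nadj hqr (ht ▸ hr)
      exact FA_c4 f1 (FA_symm f2) f4 (FA_symm f3) npq hzr
  by_cases hx : ta h p = ta h x
  · have hy : ta h p ≠ ta h y := by
      rw [hx]; exact hxy.1
    refine main y hy hpy hqy hry ?_
    rintro rfl
    exact hrx hxy.symm
  · refine main x hx hpx hqx hrx ?_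
    rintro rfl
    exact hry hxy

theorem GG_3p1p2 {h : V → ℕ} (H1 : ∀ u v, G.Adj u v → h u ≠ h v)
    (H2 : ∀ u v w, G.Adj u v → G.Adj u w → h u < h v → h u < h w → v = w)
    (H3 : ∀ u a b c, G.Adj u a → G.Adj u b → G.Adj u c → h a < h u → h b < h u → h c < h u →
      a = b ∨ a = c ∨ b = c) : No3P1P2 (GG G h) := by
  intro p q r x y hxy hpq hpr hqr npq npr nqr hpx hpy hqx hqy hrx hry
  by_cases h1 : ta h p = ta h q
  · exact GG_aux H1 H2 H3 hxy hpr hqr npq npr nqr hpx hpy hqx hqy hrx hry h1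
  by_cases h2 : ta h p = ta h r
  · exact GG_aux H1 H2 H3 hxy hpq (fun hh => hqr hh.symm) npr npq nqr.symm hpx hpy hrx hry hqx hqy h2
  by_cases h3 : ta h q = ta h r
  · exact GG_aux H1 H2 H3 hxy (fun hh => hpq hh.symm) (fun hh => hpr hh.symm) nqr npq.symm npr.symm
      hqx hqy hrx hry hpx hpy h3
  · exact FA_tri (GG_nadj hpq h1) (GG_nadj hqr h3) (GG_nadj hpr h2)

theorem GG_p1p4 {h : V → ℕ} (H1 : ∀ u v, G.Adj u v → h u ≠ h v) : NoP1P4 (GG G h) := by
  intro p a b c d hab hbc hcd hac had hbd hpa hpb hpc hpd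
  have npa : p ≠ a := by rintro rfl; exact hpb hab
  have npb : p ≠ b := by rintro rfl; exact hpa hab.symm
  have npc : p ≠ c := by rintro rfl; exact hpb hbc.symm
  have npd : p ≠ d := by rintro rfl; exact hpc hcd.symm
  rcases p with u | e
  · -- class 0
    have claim : ∀ s t : SW G, ¬(GG G h).Adj (.inl u) s → ¬(GG G h).Adj (.inl u) t →
        (.inl u) ≠ s → (.inl u) ≠ t → ¬(GG G h).Adj s t → ta h s = ta h t := by
      intro s t hs ht ns nt hst
      by_contra hne
      have f := GG_nadj hst hne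
      rcases s with s | s <;> rcases t with t | t
      · exact f
      · have f2 := GG_nadj ht (by rw [ta_inl]; exact (ta_inr_ne h t).symm)
        have f3 : t.1.1 = u := f2
        have f4 : t.1.1 = s := f
        exact ns (by rw [← f3, f4])
      · have f2 := GG_nadj hs (by rw [ta_inl]; exact (ta_inr_ne h s).symm)
        have f3 : s.1.1 = u := f2
        have f4 : s.1.1 = t := f
        exact nt (by rw [← f3, f4])
      · have f2 := GG_nadj hs (by rw [ta_inl]; exact (ta_inr_ne h s).symm)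
        have f3 : s.1.1 = u := f2
        have f4 := GG_nadj ht (by rw [ta_inl]; exact (ta_inr_ne h t).symm)
        have f5 : t.1.1 = u := f4
        have f6 : s.1.2 = t.1.1 := f.2
        exact s.2.ne (by rw [f3, f6, f5])
    have e1 := claim a c hpa hpc npa npc hac
    have e2 := claim a d hpa hpd npa npd had
    exact hcd.1 (e1.symm.trans e2)
  · -- class i
    have hne : e.1.1 ≠ e.1.2 := e.2.ne
    have nb : ∀ s : SW G, ¬(GG G h).Adj (.inr e) s → ta h (.inr e : SW G) ≠ ta h s →
        s = .inl e.1.1 ∨ s = .inr (rv e) := by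
      intro s hs ht
      exact FA_inr (GG_nadj hs ht)
    have htr : ta h (.inr e : SW G) ≠ ta h (.inr (rv e) : SW G) :=
      FA_ta H1 (x := .inr e) (y := .inr (rv e)) ⟨rfl, rfl⟩
    have rvadj : ∀ t : SW G, ¬(GG G h).Adj (.inr e) t → (.inr e) ≠ t → t ≠ .inr (rv e) →
        (GG G h).Adj (.inr (rv e)) t := by
      intro t ht nt ntr
      by_cases hi : ta h (.inr e : SW G) = ta h t
      · refine ⟨by rw [← hi]; exact htr.symm, ?_⟩
        intro f
        rcases FA_inr f with rfl | rfl
        · rw [ta_inl] at hi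
          exact ta_inr_ne h e hi
        · exact nt rfl
      · rcases nb t ht hi with rfl | rfl
        · refine ⟨by rw [ta_inl]; exact ta_inr_ne h _, ?_⟩
          intro f
          have f' : e.1.2 = e.1.1 := f
          exact hne f'.symm
        · exact (ntr rfl).elim
    have nac : a ≠ c := by rintro rfl; exact had hcd
    have nad : a ≠ d := by rintro rfl; exact hac hcd.symm
    have nbd : b ≠ d := by rintro rfl; exact had hab
    have ra : a ≠ .inr (rv e) := by
      intro hh
      apply hac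
      rw [hh]
      exact rvadj c hpc npc (by rw [← hh]; exact nac.symm)
    have rb : b ≠ .inr (rv e) := by
      intro hh
      apply hbd
      rw [hh]
      exact rvadj d hpd npd (by rw [← hh]; exact nbd.symm)
    have rc : c ≠ .inr (rv e) := by
      intro hh
      apply hac
      rw [hh]
      exact (rvadj a hpa npa (by rw [← hh]; exact nac)).symm
    have rd : d ≠ .inr (rv e) := by
      intro hh
      apply hbd
      rw [hh]
      exact (rvadj b hpb npb (by rw [← hh]; exact nbd)).symm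
    have x1 : a = .inl e.1.1 ∨ b = .inl e.1.1 := by
      by_cases hi : ta h (.inr e : SW G) = ta h a
      · right
        have hj : ta h (.inr e : SW G) ≠ ta h b := by rw [hi]; exact hab.1
        exact (nb b hpb hj).resolve_right rb
      · left
        exact (nb a hpa hi).resolve_right ra
    have x2 : c = .inl e.1.1 ∨ d = .inl e.1.1 := by
      by_cases hi : ta h (.inr e : SW G) = ta h c
      · right
        have hj : ta h (.inr e : SW G) ≠ ta h d := by rw [hi]; exact hcd.1
        exact (nb d hpd hj).resolve_right rd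
      · left
        exact (nb c hpc hi).resolve_right rc
    rcases x1 with x1 | x1 <;> rcases x2 with x2 | x2
    · exact nac (x1.trans x2.symm)
    · exact nad (x1.trans x2.symm)
    · exact hbc.ne (x1.trans x2.symm)
    · exact nbd (x1.trans x2.symm)

theorem FG_deg {h : V → ℕ} (H1 : ∀ u v, G.Adj u v → h u ≠ h v)
    (H2 : ∀ u v w, G.Adj u v → G.Adj u w → h u < h v → h u < h w → v = w)
    (H3 : ∀ u a b c, G.Adj u a → G.Adj u b → G.Adj u c → h a < h u → h b < h u → h c < h u →
      a = b ∨ a = c ∨ b = c) (v : SW G) (F : Finset (SW G)) (hF : ∀ w ∈ F, (FG G).Adj v w) :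
    F.card ≤ 6 := by
  have h1 : F.card ≤ 2 * (F.image (ta h)).card := by
    apply Finset.card_le_mul_card_image
    intro i _
    by_contra hc
    push Not at hc
    obtain ⟨x, hx, y, hy, w, hw, nxy, nxw, nyw⟩ := Finset.two_lt_card.1 hc
    rw [Finset.mem_filter] at hx hy hw
    rcases FA_three H1 H2 H3 (hF x hx.1) (hF y hy.1) (hF w hw.1) (hx.2.trans hy.2.symm)
      (hx.2.trans hw.2.symm) with e | e | e
    · exact nxy e
    · exact nxw e
    · exact nyw e
  have h2 : (F.image (ta h)).card ≤ 3 := by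
    calc _ ≤ Fintype.card (Fin 3) := Finset.card_le_univ _
      _ = 3 := Fintype.card_fin 3
  omega

/-- TARGET -/
theorem fam_k4 (k : ℕ) : ∃ (V : Type) (_ : Finite V) (G : SimpleGraph V),
    NoK4 G ∧ NoP1P4 G ∧ No3P1P2 G ∧ ¬GLin k G := by
  obtain ⟨V, hV, G, h, col, H1, H2, H3, -, -, hW⟩ := exists_col (6 * (3 * k))
  refine ⟨SW G, inferInstance, GG G h, GG_k4 h, GG_p1p4 H1, GG_3p1p2 H1 H2 H3, ?_⟩
  intro hL
  have hF : GLin (3 * k) (FG G) := by
    refine glin_flip (G := GG G h) (G' := FG G) (m := 3) (ta h) (fun i j => i ≠ j) ?_ hL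
    intro x y hxy
    have hf : (FG G).Adj x y → ta h x ≠ ta h y := fun hf => FA_ta H1 hf
    have e1 : (FG G).Adj x y ↔ FA G x y := Iff.rfl
    have e2 : (GG G h).Adj x y ↔ ta h x ≠ ta h y ∧ ¬ FA G x y := Iff.rfl
    rw [e1] at hf
    rw [e1, e2]
    tauto
  obtain ⟨p, hp, hcut⟩ := count_cut (fun v F hF => FG_deg H1 H2 H3 v F hF) hF
  obtain ⟨t, f, hf1, hf2⟩ := hW (fun u => p (.inl u)) (fun x y hxy => Sum.inl_injective (hp hxy))
  have finj : Function.Injective f := by
    intro i j hij
    by_contra hne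
    obtain ⟨w, -, hw⟩ := hf2 i j hne
    rw [hij] at hw
    exact hw Iff.rfl
  have hfe : ∀ i, p (.inl (f i)) < t := fun i => (hf1 i).1
  choose w hw1 hw2 using fun i => (hf1 i).2
  have hg : ∀ i, ∃ g : SW G, (g = .inl (f i) ∨ g = .inr ⟨(f i, w i), hw2 i⟩ ∨
      g = .inr ⟨(w i, f i), (hw2 i).symm⟩) ∧ p g < t ∧ ∃ z, t ≤ p z ∧ (FG G).Adj g z := by
    intro i
    by_cases c1 : t ≤ p (.inr ⟨(f i, w i), hw2 i⟩)
    · exact ⟨.inl (f i), Or.inl rfl, hfe i, .inr ⟨(f i, w i), hw2 i⟩, c1, rfl⟩
    · by_cases c2 : t ≤ p (.inr ⟨(w i, f i), (hw2 i).symm⟩)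
      · exact ⟨.inr ⟨(f i, w i), hw2 i⟩, Or.inr (Or.inl rfl), not_le.1 c1,
          .inr ⟨(w i, f i), (hw2 i).symm⟩, c2, ⟨rfl, rfl⟩⟩
      · exact ⟨.inr ⟨(w i, f i), (hw2 i).symm⟩, Or.inr (Or.inr rfl), not_le.1 c2,
          .inl (w i), hw1 i, rfl⟩
  choose g hg1 hg2 hg3 using hg
  have ginj : Function.Injective g := by
    intro i j hij
    have hlate : ∀ i j, f i ≠ w j := by
      intro i j hh
      have e1 := hfe i
      have e2 := hw1 j
      rw [hh] at e1
      omega
    rcases hg1 i with h1 | h1 | h1 <;> rcases hg1 j with h2 | h2 | h2 <;>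
      rw [h1, h2] at hij
    · exact finj (Sum.inl_injective hij)
    · exact absurd hij (by simp)
    · exact absurd hij (by simp)
    · exact absurd hij (by simp)
    · have h3 := congrArg (fun e => e.1.1) (Sum.inr_injective hij)
      exact finj h3
    · have h3 := congrArg (fun e => e.1.1) (Sum.inr_injective hij)
      exact (hlate _ _ h3).elim
    · exact absurd hij (by simp)
    · have h3 := congrArg (fun e => e.1.2) (Sum.inr_injective hij)
      exact (hlate _ _ h3).elim
    · have h3 := congrArg (fun e => e.1.2) (Sum.inr_injective hij)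
      exact finj h3
  have hc := hcut t (Finset.univ.image g) (by
    intro u hu
    obtain ⟨i, -, rfl⟩ := Finset.mem_image.1 hu
    exact ⟨hg2 i, hg3 i⟩)
  rw [Finset.card_image_of_injective _ ginj, Finset.card_univ, Fintype.card_fin] at hc
  omega

end FamK4

end Pool.Agent.Helper856.Cw
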