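import Pool.Agent.Helper856.Pair.Defs
import Pool.Agent.Helper856.Pair.FamX
import Pool.Agent.Helper856.Pair.CountCut
import Pool.Agent.Helper856.Lcw.GBase

open Classical SimpleGraph

namespace Pool.Agent.Helper856.Cw

open Pool.Agent.Helper856.Lcw (GLin Wide)
open FamX (exists_S)
open CountCut (count_cut)

namespace FamLine

variable {V : Type} {G : SimpleGraph V} {S T : Finset V} {k l : ℕ}

section FL

variable {h : V → ℕ}

/-- edges with the lower end first -/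
def fl_W (G : SimpleGraph V) (h : V → ℕ) : Type := {e : V × V // G.Adj e.1 e.2 ∧ h e.1 < h e.2}

/-- incidence -/
def fl_inc (e : fl_W G h) (v : V) : Prop := v = e.1.1 ∨ v = e.1.2

/-- line graph -/
def fl_L (G : SimpleGraph V) (h : V → ℕ) : SimpleGraph (fl_W G h) where
  Adj e f := e ≠ f ∧ ∃ v, fl_inc e v ∧ fl_inc f v
  symm := ⟨fun e f ⟨h1, v, h2, h3⟩ => ⟨h1.symm, v, h3, h2⟩⟩
  loopless := ⟨fun e h => h.1 rfl⟩

theorem fl_adj (e : fl_W G h) {v v' : V} (h1 : fl_inc e v) (h2 : fl_inc e v') (hv : v ≠ v') :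
    G.Adj v v' := by
  rcases h1 with h1 | h1 <;> rcases h2 with h2 | h2
  · exact absurd (h1.trans h2.symm) hv
  · rw [h1, h2]; exact e.2.1
  · rw [h1, h2]; exact e.2.1.symm
  · exact absurd (h1.trans h2.symm) hv

theorem fl_E (e f : fl_W G h) {v v' : V} (h1 : fl_inc e v) (h2 : fl_inc e v') (h3 : fl_inc f v)
    (h4 : fl_inc f v') (hv : v ≠ v') : e = f := by
  have he := e.2.2
  have hf := f.2.2
  rcases h1 with h1 | h1 <;> rcases h2 with h2 | h2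
  · exact absurd (h1.trans h2.symm) hv
  · rcases h3 with h3 | h3 <;> rcases h4 with h4 | h4
    · exact absurd (h3.trans h4.symm) hv
    · exact Subtype.ext (Prod.ext (h1.symm.trans h3) (h2.symm.trans h4))
    · rw [← h1, ← h2] at he
      rw [← h3, ← h4] at hf
      omega
    · exact absurd (h3.trans h4.symm) hv
  · rcases h3 with h3 | h3 <;> rcases h4 with h4 | h4
    · exact absurd (h3.trans h4.symm) hv
    · rw [← h1, ← h2] at he
      rw [← h3, ← h4] at hf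
      omega
    · exact Subtype.ext (Prod.ext (h2.symm.trans h4) (h1.symm.trans h3))
    · exact absurd (h3.trans h4.symm) hv
  · exact absurd (h1.trans h2.symm) hv

theorem fl_F (s : V → Bool) (hs : ∀ u v, G.Adj u v → s u ≠ s v) (e f g : fl_W G h) {a b c : V}
    (h1 : fl_inc e a) (h2 : fl_inc f a) (h3 : fl_inc f b) (h4 : fl_inc g b) (h5 : fl_inc e c)
    (h6 : fl_inc g c) : ∃ v, fl_inc e v ∧ fl_inc f v ∧ fl_inc g v := by
  by_cases hab : a = b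
  · exact ⟨a, h1, h2, hab ▸ h4⟩
  by_cases hac : a = c
  · exact ⟨a, h1, h2, hac ▸ h6⟩
  by_cases hbc : b = c
  · exact ⟨b, hbc ▸ h5, h3, h4⟩
  exfalso
  have k1 := hs _ _ (fl_adj f h2 h3 hab)
  have k2 := hs _ _ (fl_adj e h1 h5 hac)
  have k3 := hs _ _ (fl_adj g h4 h6 hbc)
  cases ha : s a <;> cases hb : s b <;> cases hc : s c <;> simp_all

theorem fl_other (e : fl_W G h) {v : V} (h1 : fl_inc e v) : ∃ w, fl_inc e w ∧ v ≠ w := by
  rcases h1 with h1 | h1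
  · exact ⟨e.1.2, Or.inr rfl, h1 ▸ e.2.1.ne⟩
  · exact ⟨e.1.1, Or.inl rfl, h1 ▸ e.2.1.ne.symm⟩

theorem fl_deg (hd : ∀ u a b c d, G.Adj u a → G.Adj u b → G.Adj u c → G.Adj u d →
      a = b ∨ a = c ∨ a = d ∨ b = c ∨ b = d ∨ c = d) (v : V) (e1 e2 e3 e4 : fl_W G h)
    (h1 : fl_inc e1 v) (h2 : fl_inc e2 v) (h3 : fl_inc e3 v) (h4 : fl_inc e4 v)
    (h12 : e1 ≠ e2) (h13 : e1 ≠ e3) (h14 : e1 ≠ e4) (h23 : e2 ≠ e3) (h24 : e2 ≠ e4)
    (h34 : e3 ≠ e4) : False := by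
  obtain ⟨w1, i1, n1⟩ := fl_other e1 h1
  obtain ⟨w2, i2, n2⟩ := fl_other e2 h2
  obtain ⟨w3, i3, n3⟩ := fl_other e3 h3
  obtain ⟨w4, i4, n4⟩ := fl_other e4 h4
  rcases hd v w1 w2 w3 w4 (fl_adj e1 h1 i1 n1) (fl_adj e2 h2 i2 n2) (fl_adj e3 h3 i3 n3)
    (fl_adj e4 h4 i4 n4) with h | h | h | h | h | h
  · exact h12 (fl_E e1 e2 h1 i1 h2 (h ▸ i2) n1)
  · exact h13 (fl_E e1 e3 h1 i1 h3 (h ▸ i3) n1)
  · exact h14 (fl_E e1 e4 h1 i1 h4 (h ▸ i4) n1)
  · exact h23 (fl_E e2 e3 h2 i2 h3 (h ▸ i3) n2)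
  · exact h24 (fl_E e2 e4 h2 i2 h4 (h ▸ i4) n2)
  · exact h34 (fl_E e3 e4 h3 i3 h4 (h ▸ i4) n3)

theorem fl_cyc (hn : ∀ u v, G.Adj u v → h u ≠ h v)
    (hu : ∀ u v w, G.Adj u v → G.Adj u w → h u < h v → h u < h w → v = w) (v0 v1 v2 v3 : V)
    (a01 : G.Adj v0 v1) (a12 : G.Adj v1 v2) (a23 : G.Adj v2 v3) (a30 : G.Adj v3 v0)
    (n02 : v0 ≠ v2) (n13 : v1 ≠ v3) : False := by
  have e01 := hn _ _ a01
  have e12 := hn _ _ a12
  have e23 := hn _ _ a23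
  have e30 := hn _ _ a30
  by_cases c0 : h v0 < h v1 ∧ h v0 < h v3
  · exact n13 (hu v0 v1 v3 a01 a30.symm c0.1 c0.2)
  by_cases c1 : h v1 < h v0 ∧ h v1 < h v2
  · exact n02 (hu v1 v0 v2 a01.symm a12 c1.1 c1.2)
  by_cases c2 : h v2 < h v1 ∧ h v2 < h v3
  · exact n13 (hu v2 v1 v3 a12.symm a23 c2.1 c2.2)
  by_cases c3 : h v3 < h v0 ∧ h v3 < h v2
  · exact n02 (hu v3 v0 v2 a30 a23.symm c3.1 c3.2)
  omega

theorem fl_noK13 : NoK13 (fl_L G h) := by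
  rintro c x y z ⟨hx, v1, c1, x1⟩ ⟨hy, v2, c2, y2⟩ ⟨hz, v3, c3, z3⟩ nxy nxz nyz xy xz yz
  have k12 : v1 ≠ v2 := fun h => nxy ⟨xy, v1, x1, h ▸ y2⟩
  have k13 : v1 ≠ v3 := fun h => nxz ⟨xz, v1, x1, h ▸ z3⟩
  have k23 : v2 ≠ v3 := fun h => nyz ⟨yz, v2, y2, h ▸ z3⟩
  rcases c1 with c1 | c1 <;> rcases c2 with c2 | c2 <;> rcases c3 with c3 | c3
  · exact k12 (c1.trans c2.symm)
  · exact k12 (c1.trans c2.symm)
  · exact k13 (c1.trans c3.symm)
  · exact k23 (c2.trans c3.symm)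
  · exact k23 (c2.trans c3.symm)
  · exact k13 (c1.trans c3.symm)
  · exact k12 (c1.trans c2.symm)
  · exact k12 (c1.trans c2.symm)

theorem fl_noK4 (s : V → Bool) (hs : ∀ u v, G.Adj u v → s u ≠ s v)
    (hd : ∀ u a b c d, G.Adj u a → G.Adj u b → G.Adj u c → G.Adj u d →
      a = b ∨ a = c ∨ a = d ∨ b = c ∨ b = d ∨ c = d) : NoK4 (fl_L G h) := by
  rintro a b c d ⟨ab, v1, p1, p2⟩ ⟨ac, v2, p3, p4⟩ ⟨ad, v3, p5, p6⟩ ⟨bc, v4, p7, p8⟩
    ⟨bd, v5, p9, p10⟩ ⟨cd, v6, p11, p12⟩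
  obtain ⟨v, q1, q2, q3⟩ := fl_F s hs a b c p1 p2 p7 p8 p3 p4
  obtain ⟨v', r1, r2, r3⟩ := fl_F s hs a b d p1 p2 p9 p10 p5 p6
  by_cases hv : v = v'
  · subst hv
    exact fl_deg hd v a b c d q1 q2 q3 r3 ab ac ad bc bd cd
  · exact ab (fl_E a b q1 r1 q2 r2 hv)

theorem fl_noDia (s : V → Bool) (hs : ∀ u v, G.Adj u v → s u ≠ s v) : NoDia (fl_L G h) := by
  rintro x y a b ⟨xy, v1, p1, p2⟩ ⟨xa, v2, p3, p4⟩ ⟨ya, v3, p5, p6⟩ ⟨xb, v4, p7, p8⟩
    ⟨yb, v5, p9, p10⟩ hab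
  obtain ⟨v, q1, q2, q3⟩ := fl_F s hs x y a p1 p2 p5 p6 p3 p4
  obtain ⟨v', r1, r2, r3⟩ := fl_F s hs x y b p1 p2 p9 p10 p7 p8
  by_cases hv : v = v'
  · subst hv
    exact ⟨hab, v, q3, r3⟩
  · exact absurd (fl_E x y q1 r1 q2 r2 hv) xy

theorem fl_noC4 (hn : ∀ u v, G.Adj u v → h u ≠ h v)
    (hu : ∀ u v w, G.Adj u v → G.Adj u w → h u < h v → h u < h w → v = w) :
    NoC4 (fl_L G h) := by
  rintro a b c d ⟨ab, v0, p1, p2⟩ ⟨bc, v1, p3, p4⟩ ⟨cd, v2, p5, p6⟩ ⟨da, v3, p7, p8⟩ nac nbd ac bd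
  have n01 : v0 ≠ v1 := fun h => nac ⟨ac, v0, p1, h ▸ p4⟩
  have n12 : v1 ≠ v2 := fun h => nbd ⟨bd, v1, p3, h ▸ p6⟩
  have n23 : v2 ≠ v3 := fun h => nac ⟨ac, v3, p8, h ▸ p5⟩
  have n30 : v3 ≠ v0 := fun h => nbd ⟨bd, v0, p2, h ▸ p7⟩
  have n02 : v0 ≠ v2 := fun h => nac ⟨ac, v0, p1, h ▸ p5⟩
  have n13 : v1 ≠ v3 := fun h => nbd ⟨bd, v1, p3, h ▸ p7⟩
  exact fl_cyc hn hu v0 v1 v2 v3 (fl_adj b p2 p3 n01) (fl_adj c p4 p5 n12) (fl_adj d p6 p7 n23)
    (fl_adj a p8 p1 n30) n02 n13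

theorem fl_degL (hd : ∀ u a b c d, G.Adj u a → G.Adj u b → G.Adj u c → G.Adj u d →
      a = b ∨ a = c ∨ a = d ∨ b = c ∨ b = d ∨ c = d) (e : fl_W G h) (F : Finset (fl_W G h))
    (hF : ∀ f ∈ F, (fl_L G h).Adj e f) : F.card ≤ 4 := by
  have key : ∀ v, fl_inc e v → (F.filter (fun f => fl_inc f v)).card ≤ 2 := by
    intro v hv
    by_contra hc
    push Not at hc
    obtain ⟨a, ha, b, hb, c, hc, hab, hac, hbc⟩ := Finset.two_lt_card.1 hc
    rw [Finset.mem_filter] at ha hb hc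
    exact fl_deg hd v e a b c hv ha.2 hb.2 hc.2 (hF a ha.1).1 (hF b hb.1).1 (hF c hc.1).1
      hab hac hbc
  have h1 := key e.1.1 (Or.inl rfl)
  have h2 := key e.1.2 (Or.inr rfl)
  have h3 : F ⊆ F.filter (fun f => fl_inc f e.1.1) ∪ F.filter (fun f => fl_inc f e.1.2) := by
    intro f hf
    obtain ⟨_, v, hv1, hv2⟩ := hF f hf
    rw [Finset.mem_union, Finset.mem_filter, Finset.mem_filter]
    rcases hv1 with hv1 | hv1
    · left; exact ⟨hf, hv1 ▸ hv2⟩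
    · right; exact ⟨hf, hv1 ▸ hv2⟩
  have h4 := (Finset.card_le_card h3).trans (Finset.card_union_le _ _)
  omega

theorem fl_main [Finite V] (k : ℕ) (hW : Wide (8 * k + 3) G)
    (hn : ∀ u v, G.Adj u v → h u ≠ h v)
    (p' : fl_W G h → ℕ) (hp' : Function.Injective p')
    (hcut : ∀ t, ∀ F : Finset (fl_W G h),
      (∀ u ∈ F, p' u < t ∧ ∃ w, t ≤ p' w ∧ (fl_L G h).Adj u w) → F.card ≤ 4 * k) : False := by
  obtain ⟨N, idx, -⟩ : ∃ (N : ℕ) (idx : V ≃ Fin N), True := ⟨_, Finite.equivFin V, trivial⟩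
  obtain ⟨m, hm⟩ : ∃ m : V → ℕ, m = fun v => sInf {x | ∃ e : fl_W G h, fl_inc e v ∧ p' e = x} :=
    ⟨_, rfl⟩
  have hm1 : ∀ v (e : fl_W G h), fl_inc e v → m v ≤ p' e := by
    intro v e he
    rw [hm]
    exact Nat.sInf_le ⟨e, he, rfl⟩
  have hm2 : ∀ v, (∃ e : fl_W G h, fl_inc e v) → ∃ e : fl_W G h, fl_inc e v ∧ p' e = m v := by
    rintro v ⟨e, he⟩
    have h1 : {x | ∃ e : fl_W G h, fl_inc e v ∧ p' e = x}.Nonempty := ⟨p' e, e, he, rfl⟩
    have h2 := Nat.sInf_mem h1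
    rw [hm]
    exact h2
  have hedge : ∀ u w, G.Adj u w → ∃ e : fl_W G h, fl_inc e u ∧ fl_inc e w := by
    intro u w huw
    rcases lt_or_gt_of_ne (hn u w huw) with h1 | h1
    · exact ⟨⟨(u, w), huw, h1⟩, Or.inl rfl, Or.inr rfl⟩
    · exact ⟨⟨(w, u), huw.symm, h1⟩, Or.inr rfl, Or.inl rfl⟩
  obtain ⟨p, hp⟩ : ∃ p : V → ℕ, p = fun v => N * m v + (idx v : ℕ) := ⟨_, rfl⟩
  have hlt : ∀ v, (idx v : ℕ) < N := fun v => (idx v).2
  have hdiv : ∀ v, p v / N = m v := by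
    intro v
    have hN : 0 < N := (Nat.zero_le _).trans_lt (hlt v)
    rw [hp]
    simp only
    rw [Nat.mul_add_div hN, Nat.div_eq_of_lt (hlt v), add_zero]
  have hmod : ∀ v, p v % N = (idx v : ℕ) := by
    intro v
    rw [hp]
    simp only
    rw [Nat.mul_add_mod, Nat.mod_eq_of_lt (hlt v)]
  have hinj : Function.Injective p := by
    intro u v huv
    have h1 := hmod u
    rw [huv, hmod v] at h1
    exact idx.injective (Fin.ext h1.symm)
  obtain ⟨t, f, hf1, hf2⟩ := hW p hinj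
  have hfinj : Function.Injective f := by
    intro i j hij
    by_contra hne
    obtain ⟨w, _, hw⟩ := hf2 i j hne
    apply hw
    rw [hij]
  obtain ⟨m0, hm0⟩ : ∃ m0, m0 = t / N := ⟨_, rfl⟩
  have hearly : ∀ i, m (f i) ≤ m0 := by
    intro i
    rw [← hdiv, hm0]
    exact Nat.div_le_div_right (hf1 i).1.le
  choose w hw1 hw2 using fun i => (hf1 i).2
  have hlate : ∀ i, m0 ≤ m (w i) := by
    intro i
    rw [← hdiv, hm0]
    exact Nat.div_le_div_right (hw1 i)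
  choose e he1 he2 using fun i => hedge _ _ (hw2 i)
  choose g hg1 hg2 using fun i => hm2 (f i) ⟨e i, he1 i⟩
  have hfib : ∀ (S : Finset (Fin (8 * k + 3))) (x : fl_W G h),
      (S.filter (fun i => g i = x)).card ≤ 2 := by
    intro S x
    have h1 : (S.filter (fun i => g i = x)).card ≤ ({x.1.1, x.1.2} : Finset V).card := by
      apply Finset.card_le_card_of_injOn f
      · intro i hi
        have hi' := (Finset.mem_filter.1 hi).2
        have h2 := hg1 i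
        rw [hi'] at h2
        rw [Finset.mem_coe, Finset.mem_insert, Finset.mem_singleton]
        exact h2
      · intro i _ j _ hij
        exact hfinj hij
    exact h1.trans Finset.card_le_two
  obtain ⟨bad, hbad⟩ : ∃ bad : Finset (Fin (8 * k + 3)),
      bad = Finset.univ.filter (fun i => m (f i) = m0) := ⟨_, rfl⟩
  obtain ⟨good, hgood⟩ : ∃ good : Finset (Fin (8 * k + 3)),
      good = Finset.univ.filter (fun i => ¬ m (f i) = m0) := ⟨_, rfl⟩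
  have hcard : bad.card + good.card = 8 * k + 3 := by
    rw [hbad, hgood, Finset.card_filter_add_card_filter_not, Finset.card_univ, Fintype.card_fin]
  have hbadc : bad.card ≤ 2 := by
    rcases bad.eq_empty_or_nonempty with h1 | ⟨i0, hi0⟩
    · rw [h1]; simp
    · have h2 : bad = bad.filter (fun i => g i = g i0) := by
        ext i
        rw [Finset.mem_filter]
        constructor
        · intro hi
          refine ⟨hi, hp' ?_⟩
          rw [hbad, Finset.mem_filter] at hi hi0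
          rw [hg2, hg2, hi.2, hi0.2]
        · exact fun hi => hi.1
      rw [h2]
      exact hfib bad (g i0)
  have hF := hcut m0 (good.image g) (by
    intro x hx
    obtain ⟨i, hi, rfl⟩ := Finset.mem_image.1 hx
    rw [hgood, Finset.mem_filter] at hi
    have h1 : p' (g i) < m0 := by
      rw [hg2]
      exact lt_of_le_of_ne (hearly i) hi.2
    have h2 : m0 ≤ p' (e i) := (hlate i).trans (hm1 _ _ (he2 i))
    refine ⟨h1, e i, h2, ?_, f i, hg1 i, he1 i⟩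
    intro h3
    rw [h3] at h1
    omega)
  have hgc : good.card ≤ 2 * (good.image g).card :=
    Finset.card_le_mul_card_image good 2 fun x _ => hfib good x
  omega

end FL

/-- TARGET -/
theorem fam_line (k : ℕ) : ∃ (V : Type) (_ : Finite V) (G : SimpleGraph V),
    NoK13 G ∧ NoK4 G ∧ NoDia G ∧ NoC4 G ∧ ¬GLin k G := by
  obtain ⟨V, hV, G, s, h, T, hs, hn, hu, _, _, hd, hW⟩ := exists_S (8 * k + 3)
  refine ⟨fl_W G h, ?_, fl_L G h, fl_noK13, fl_noK4 s hs hd, fl_noDia s hs, fl_noC4 hn hu, ?_⟩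
  · unfold fl_W
    infer_instance
  · intro hlin
    obtain ⟨p', hp', hcut⟩ := count_cut (d := 4) (fun e F hF => fl_degL hd e F hF) hlin
    exact fl_main k hW hn p' hp' hcut

end FamLine

end Pool.Agent.Helper856.Cw
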