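import Pool.Agent.Helper856.Pair.Defs
import Pool.Agent.Helper856.Lcw.GBase

open Classical SimpleGraph

namespace Pool.Agent.Helper856.Cw

open Pool.Agent.Helper856.Lcw (GLin)

namespace FamPerm

variable {V : Type} {G : SimpleGraph V} {S T : Finset V} {k l : ℕ}

/-- vertices: points, row thresholds, column thresholds -/
abbrev FV (m : ℕ) : Type := (Fin m × Fin m) ⊕ (Fin m ⊕ Fin m)

/-- adjacency of the family -/
def fadj (m : ℕ) : FV m → FV m → Prop
  | Sum.inl x, Sum.inr (Sum.inl l) => x.1 ≤ l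
  | Sum.inr (Sum.inl l), Sum.inl x => x.1 ≤ l
  | Sum.inl x, Sum.inr (Sum.inr l) => x.2 ≤ l
  | Sum.inr (Sum.inr l), Sum.inl x => x.2 ≤ l
  | Sum.inr (Sum.inl _), Sum.inr (Sum.inr _) => True
  | Sum.inr (Sum.inr _), Sum.inr (Sum.inl _) => True
  | Sum.inl _, Sum.inl _ => False
  | Sum.inr (Sum.inl _), Sum.inr (Sum.inl _) => False
  | Sum.inr (Sum.inr _), Sum.inr (Sum.inr _) => False

/-- the graph of the family -/
def FG (m : ℕ) : SimpleGraph (FV m) where
  Adj := fadj m
  symm := ⟨by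
    rintro (x | l | l) (y | l' | l') h <;> simp only [fadj] at h ⊢ <;> exact h⟩
  loopless := ⟨by
    rintro (x | l | l) h <;> simp only [fadj] at h⟩

theorem FG_noK4 (m : ℕ) : NoK4 (FG m) := by
  rintro (a | a | a) (b | b | b) (c | c | c) (d | d | d) h1 h2 h3 h4 h5 h6 <;>
    simp only [FG, fadj] at h1 h2 h3 h4 h5 h6

theorem FG_no2P2 (m : ℕ) : No2P2 (FG m) := by
  rintro (a | a | a) (b | b | b) (c | c | c) (d | d | d) h1 h2 h3 h4 h5 h6 <;>
    simp only [FG, fadj, not_true_eq_false, not_false_eq_true, not_le] at h1 h2 h3 h4 h5 h6 <;>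
    first
      | exact absurd (h1.trans_lt h4) (not_lt.mpr (h2.trans h5.le))
      | exact absurd (h1.trans_lt h3) (not_lt.mpr (h2.trans h6.le))
      | exact absurd (h1.trans_lt h6) (not_lt.mpr (h2.trans h3.le))
      | exact absurd (h1.trans_lt h5) (not_lt.mpr (h2.trans h4.le))

theorem core {V : Type} {G : SimpleGraph V} {m k : ℕ} (pt : Fin m → Fin m → V) (al be : Fin m → V)
    (h1 : ∀ i j l, G.Adj (pt i j) (al l) ↔ i ≤ l) (h2 : ∀ i j l, G.Adj (pt i j) (be l) ↔ j ≤ l)
    (p : V → ℕ) (t : ℕ) (c : V → Fin k)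
    (hc : ∀ u v, p u < t → p v < t → c u = c v → ∀ w, t ≤ p w → (G.Adj u w ↔ G.Adj v w))
    (hA : k + 1 ≤ (Finset.univ.filter (fun l => p (al l) < t)).card)
    (hB : k + 1 ≤ (Finset.univ.filter (fun l => t ≤ p (be l))).card) : False := by
  obtain ⟨l, hl, l', hl', hne, heq⟩ := Finset.exists_ne_map_eq_of_card_lt_of_maps_to
    (s := Finset.univ.filter (fun l => p (al l) < t)) (t := (Finset.univ : Finset (Fin k)))
    (f := fun l => c (al l)) (by rw [Finset.card_univ, Fintype.card_fin]; omega)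
    (fun _ _ => Finset.mem_coe.mpr (Finset.mem_univ _))
  have hl1 := (Finset.mem_filter.mp hl).2
  have hl1' := (Finset.mem_filter.mp hl').2
  -- a completely early row
  obtain ⟨r, hr⟩ : ∃ r : Fin m, ∀ j, p (pt r j) < t := by
    rcases lt_or_gt_of_ne hne with hlt | hgt
    · refine ⟨l', fun j => ?_⟩
      by_contra hcon
      have := (hc _ _ hl1 hl1' heq (pt l' j) (not_lt.mp hcon)).mpr
        ((G.adj_comm _ _).mp ((h1 l' j l').mpr le_rfl))
      exact absurd ((h1 l' j l).mp ((G.adj_comm _ _).mp this)) (not_le.mpr hlt)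
    · refine ⟨l, fun j => ?_⟩
      by_contra hcon
      have := (hc _ _ hl1 hl1' heq (pt l j) (not_lt.mp hcon)).mp
        ((G.adj_comm _ _).mp ((h1 l j l).mpr le_rfl))
      exact absurd ((h1 l j l').mp ((G.adj_comm _ _).mp this)) (not_le.mpr hgt)
  obtain ⟨b, hb, b', hb', hne2, heq2⟩ := Finset.exists_ne_map_eq_of_card_lt_of_maps_to
    (s := Finset.univ.filter (fun l => t ≤ p (be l))) (t := (Finset.univ : Finset (Fin k)))
    (f := fun l => c (pt r l)) (by rw [Finset.card_univ, Fintype.card_fin]; omega)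
    (fun _ _ => Finset.mem_coe.mpr (Finset.mem_univ _))
  have hb1 := (Finset.mem_filter.mp hb).2
  have hb1' := (Finset.mem_filter.mp hb').2
  rcases lt_or_gt_of_ne hne2 with hlt | hgt
  · have := (hc _ _ (hr b) (hr b') heq2 (be b) hb1).mp ((h2 r b b).mpr le_rfl)
    exact absurd ((h2 r b' b).mp this) (not_le.mpr hlt)
  · have := (hc _ _ (hr b) (hr b') heq2 (be b') hb1').mpr ((h2 r b' b').mpr le_rfl)
    exact absurd ((h2 r b b').mp this) (not_le.mpr hgt)

/-- number of early thresholds -/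
noncomputable def ecount {V : Type} {m : ℕ} (p : V → ℕ) (al : Fin m → V) (t : ℕ) : ℕ :=
  (Finset.univ.filter (fun l => p (al l) < t)).card

theorem ecount_exists {V : Type} {m k : ℕ} (hm : k + 1 ≤ m) (p : V → ℕ) (al : Fin m → V) :
    ∃ t, k + 1 ≤ ecount p al t := by
  refine ⟨(Finset.univ.sup (fun l => p (al l))) + 1, ?_⟩
  unfold ecount
  rw [Finset.filter_true_of_mem]
  · simpa using hm
  · intro l _
    exact Nat.lt_succ_of_le (Finset.le_sup (f := fun l => p (al l)) (Finset.mem_univ l))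

theorem ecount_zero {V : Type} {m : ℕ} (p : V → ℕ) (al : Fin m → V) : ecount p al 0 = 0 := by
  unfold ecount; simp

theorem ecount_step {V : Type} {m k : ℕ} (p : V → ℕ) (al : Fin m → V) {t : ℕ}
    (h1 : k + 1 ≤ ecount p al (t + 1)) (h2 : ¬ k + 1 ≤ ecount p al t) : ∃ l, p (al l) = t := by
  by_contra hcon
  push Not at hcon
  apply h2
  refine h1.trans (Finset.card_le_card ?_)
  intro l hl
  rw [Finset.mem_filter] at hl ⊢
  refine ⟨hl.1, ?_⟩
  have := hcon l
  omega

theorem late_card {V : Type} {m : ℕ} (p : V → ℕ) (be : Fin m → V) (t : ℕ) :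
    (Finset.univ.filter (fun l => t ≤ p (be l))).card + ecount p be t = m := by
  unfold ecount
  have := Finset.card_filter_add_card_filter_not (s := (Finset.univ : Finset (Fin m)))
    (fun l => p (be l) < t)
  simp only [not_lt, Finset.card_univ, Fintype.card_fin] at this
  omega

/-- TARGET -/
theorem fam_perm (k : ℕ) : ∃ (V : Type) (_ : Finite V) (G : SimpleGraph V),
    NoK4 G ∧ No2P2 G ∧ ¬GLin k G := by
  obtain ⟨m, hm⟩ : ∃ m : ℕ, m = 2 * (k + 1) := ⟨_, rfl⟩
  refine ⟨FV m, inferInstance, FG m, FG_noK4 _, FG_no2P2 _, ?_⟩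
  rintro ⟨p, hp, hcut⟩
  let pt : Fin m → Fin m → FV m := fun i j => Sum.inl (i, j)
  let al : Fin m → FV m := fun l => Sum.inr (Sum.inl l)
  let be : Fin m → FV m := fun l => Sum.inr (Sum.inr l)
  have h1 : ∀ i j l, (FG m).Adj (pt i j) (al l) ↔ i ≤ l := fun i j l => Iff.rfl
  have h2 : ∀ i j l, (FG m).Adj (pt i j) (be l) ↔ j ≤ l := fun i j l => Iff.rfl
  have ea := ecount_exists (k := k) (by omega : k + 1 ≤ m) p al
  have eb := ecount_exists (k := k) (by omega : k + 1 ≤ m) p be
  have fa := Nat.find_spec ea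
  have fb := Nat.find_spec eb
  have ma := fun t (h : t < Nat.find ea) => Nat.find_min ea h
  have mb := fun t (h : t < Nat.find eb) => Nat.find_min eb h
  have pa : Nat.find ea ≠ 0 := by
    intro h0
    rw [h0, ecount_zero] at fa
    omega
  have pb : Nat.find eb ≠ 0 := by
    intro h0
    rw [h0, ecount_zero] at fb
    omega
  rcases lt_trichotomy (Nat.find ea) (Nat.find eb) with h | h | h
  · obtain ⟨c, hc⟩ := hcut (Nat.find ea)
    have h3 := mb _ h
    have h4 := late_card p be (Nat.find ea)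
    exact core pt al be h1 h2 p (Nat.find ea) c hc fa (by omega)
  · obtain ⟨t, ht⟩ := Nat.exists_eq_succ_of_ne_zero pa
    rw [Nat.succ_eq_add_one] at ht
    have ht' : Nat.find eb = t + 1 := by omega
    obtain ⟨l, hl⟩ := ecount_step p al (t := t) (k := k) (by rw [← ht]; exact fa) (ma t (by omega))
    obtain ⟨l', hl'⟩ := ecount_step p be (t := t) (k := k) (by rw [← ht']; exact fb) (mb t (by omega))
    have := hp (hl.trans hl'.symm)
    simp [al, be] at this
  · obtain ⟨c, hc⟩ := hcut (Nat.find eb)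
    have h3 := ma _ h
    have h4 := late_card p al (Nat.find eb)
    exact core (fun i j => pt j i) be al (fun i j l => h2 j i l) (fun i j l => h1 j i l) p
      (Nat.find eb) c hc fb (by omega)

end FamPerm

end Pool.Agent.Helper856.Cw
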