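import Pool.Agent.Helper856.Pair.Defs
import Pool.Agent.Helper856.Pair.FamX
import Pool.Agent.Helper856.Lcw.GBase

open Classical SimpleGraph

namespace Pool.Agent.Helper856.Cw

open Pool.Agent.Helper856.Lcw (GLin Wide)
open FamX (exists_S wide_not_glin glin_flip)

namespace FamSplit

variable {V : Type} {G : SimpleGraph V} {S T : Finset V} {k l : ℕ}

/-- TARGET -/
theorem fam_split (k : ℕ) : ∃ (V : Type) (_ : Finite V) (G : SimpleGraph V),
    NoC4 G ∧ No2P2 G ∧ ¬GLin k G := by
  obtain ⟨V, hV, G, s, -, -, hs, -, -, -, -, -, hW⟩ := exists_S (2 * k + 1)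
  let G' : SimpleGraph V :=
    { Adj := fun u v => u ≠ v ∧ (G.Adj u v ∨ (s u = true ∧ s v = true))
      symm := ⟨by
        rintro u v ⟨h1, h2⟩
        exact ⟨h1.symm, h2.imp (fun h => h.symm) (fun h => h.symm)⟩⟩
      loopless := ⟨fun u h => h.1 rfl⟩ }
  have hadj : ∀ u v, G'.Adj u v ↔ u ≠ v ∧ (G.Adj u v ∨ (s u = true ∧ s v = true)) := fun u v => Iff.rfl
  have hff : ∀ u v, G'.Adj u v → s u = false → s v = false → False := by
    intro u v h hu hv
    rw [hadj] at h
    rcases h.2 with h1 | h1
    · exact hs u v h1 (hu.trans hv.symm)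
    · rw [hu] at h1; exact absurd h1.1 (by simp)
  have htt : ∀ u v, u ≠ v → s u = true → s v = true → G'.Adj u v := by
    intro u v h hu hv
    rw [hadj]; exact ⟨h, Or.inr ⟨hu, hv⟩⟩
  refine ⟨V, hV, G', ?_, ?_, ?_⟩
  · intro a b c d hab hbc hcd hda hac hbd hne hne'
    have h1 : s a = false ∨ s c = false := by
      by_contra hcon
      push Not at hcon
      exact hac (htt a c hne (by simpa using hcon.1) (by simpa using hcon.2))
    have h2 : s b = false ∨ s d = false := by
      by_contra hcon
      push Not at hcon
      exact hbd (htt b d hne' (by simpa using hcon.1) (by simpa using hcon.2))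
    rcases h1 with h1 | h1 <;> rcases h2 with h2 | h2
    · exact hff a b hab h1 h2
    · exact hff d a hda h2 h1
    · exact hff b c hbc h2 h1
    · exact hff c d hcd h1 h2
  · intro a b c d hab hcd hac had hbc hbd
    have h1 : s a = true ∨ s b = true := by
      by_contra hcon
      push Not at hcon
      exact hff a b hab (by simpa using hcon.1) (by simpa using hcon.2)
    have h2 : s c = true ∨ s d = true := by
      by_contra hcon
      push Not at hcon
      exact hff c d hcd (by simpa using hcon.1) (by simpa using hcon.2)
    rcases h1 with h1 | h1 <;> rcases h2 with h2 | h2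
    · by_cases he : a = c
      · subst he; exact had hcd
      · exact hac (htt _ _ he h1 h2)
    · by_cases he : a = d
      · subst he; exact hac hcd.symm
      · exact had (htt _ _ he h1 h2)
    · by_cases he : b = c
      · subst he; exact hbd hcd
      · exact hbc (htt _ _ he h1 h2)
    · by_cases he : b = d
      · subst he; exact hbc hcd.symm
      · exact hbd (htt _ _ he h1 h2)
  · intro hG
    refine wide_not_glin hW ?_
    refine glin_flip (G := G') (G' := G) (fun v => if s v = true then (1 : Fin 2) else 0)
      (fun i j => i = 1 ∧ j = 1) ?_ hG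
    intro u v huv
    rw [hadj]
    by_cases hu : s u = true <;> by_cases hv : s v = true
    · have : ¬ G.Adj u v := fun h => hs u v h (hu.trans hv.symm)
      simp [hu, hv, this, huv]
    · simp [hu, hv, huv]
    · simp [hu, hv, huv]
    · simp [hu, hv, huv]

end FamSplit

end Pool.Agent.Helper856.Cw
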