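import Pool.Agent.Helper856.Pair.Defs
import Pool.Agent.Helper856.Lcw.GBase

open Classical SimpleGraph

namespace Pool.Agent.Helper856.Cw

open Pool.Agent.Helper856.Lcw (Wide)

namespace FamTP

variable {V : Type} {G : SimpleGraph V} {S T : Finset V} {k l : ℕ}

/-- one more level -/
def stepG {V : Type} (G : SimpleGraph V) : SimpleGraph (Option (Fin 3 × V)) where
  Adj x y := match x, y with
    | none, none => False
    | none, some _ => True
    | some _, none => True
    | some p, some q => p.1 = q.1 ∧ G.Adj p.2 q.2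
  symm := ⟨by
    rintro (_ | ⟨i, u⟩) (_ | ⟨j, v⟩) h
    · exact h
    · trivial
    · trivial
    · exact ⟨h.1.symm, h.2.symm⟩⟩
  loopless := ⟨by
    rintro (_ | ⟨i, u⟩) h
    · exact h
    · exact G.loopless.irrefl _ h.2⟩

theorem stepG_ss {V : Type} (G : SimpleGraph V) (i j : Fin 3) (u v : V) :
    (stepG G).Adj (some (i, u)) (some (j, v)) ↔ i = j ∧ G.Adj u v := Iff.rfl

theorem stepG_ns {V : Type} (G : SimpleGraph V) (x : Fin 3 × V) :
    (stepG G).Adj none (some x) := trivial

theorem stepG_sn {V : Type} (G : SimpleGraph V) (x : Fin 3 × V) :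
    (stepG G).Adj (some x) none := trivial

theorem sort3 (t : Fin 3 → ℕ) : ∃ a b c : Fin 3, a ≠ b ∧ b ≠ c ∧ a ≠ c ∧ t a ≤ t b ∧ t b ≤ t c := by
  rcases le_total (t 0) (t 1) with h1 | h1
  · rcases le_total (t 1) (t 2) with h2 | h2
    · exact ⟨0, 1, 2, by decide, by decide, by decide, h1, h2⟩
    · rcases le_total (t 0) (t 2) with h3 | h3
      · exact ⟨0, 2, 1, by decide, by decide, by decide, h3, h2⟩
      · exact ⟨2, 0, 1, by decide, by decide, by decide, h3, h1⟩
  · rcases le_total (t 0) (t 2) with h2 | h2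
    · exact ⟨1, 0, 2, by decide, by decide, by decide, h1, h2⟩
    · rcases le_total (t 1) (t 2) with h3 | h3
      · exact ⟨1, 2, 0, by decide, by decide, by decide, h3, h2⟩
      · exact ⟨2, 1, 0, by decide, by decide, by decide, h3, h1⟩

/-- TARGET -/
theorem fam_tp (k : ℕ) : ∃ (V : Type) (_ : Finite V) (G : SimpleGraph V),
    (∀ a b c d, G.Adj a b → G.Adj b c → G.Adj c d → ¬G.Adj a c → ¬G.Adj b d → a ≠ c → b ≠ d →
      False) ∧ Wide (k + 1) G := by
  induction k with
  | zero =>
    refine ⟨Bool, inferInstance, ⊤, ?_, ?_⟩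
    · intro a b c d _ _ _ h1 _ h2 _
      exact h1 ((SimpleGraph.top_adj a c).2 h2)
    · intro p hp
      have hne : p false ≠ p true := fun h => by
        have := hp h
        exact Bool.false_ne_true this
      rcases lt_or_gt_of_ne hne with h | h
      · refine ⟨p true, fun _ => false, fun i => ⟨h, true, le_rfl, ?_⟩, ?_⟩
        · exact (SimpleGraph.top_adj _ _).2 Bool.false_ne_true
        · intro i j hij
          exact absurd (Fin.ext (by omega)) hij
      · refine ⟨p false, fun _ => true, fun i => ⟨h, false, le_rfl, ?_⟩, ?_⟩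
        · exact (SimpleGraph.top_adj _ _).2 Bool.false_ne_true.symm
        · intro i j hij
          exact absurd (Fin.ext (by omega)) hij
  | succ k ih =>
    obtain ⟨V, hV, G, hP, hW⟩ := ih
    refine ⟨Option (Fin 3 × V), inferInstance, stepG G, ?_, ?_⟩
    · rintro (_ | ⟨i, u⟩) (_ | ⟨j, v⟩) (_ | ⟨l, w⟩) (_ | ⟨m, z⟩) h1 h2 h3 h4 h5 h6 h7
      all_goals first
        | exact h6 rfl
        | exact h7 rfl
        | exact h4 trivial
        | exact h5 trivial
        | skip
      rw [stepG_ss] at h1 h2 h3 h4 h5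
      obtain ⟨rfl, h1⟩ := h1
      obtain ⟨rfl, h2⟩ := h2
      obtain ⟨rfl, h3⟩ := h3
      refine hP u v w z h1 h2 h3 (fun h => h4 ⟨rfl, h⟩) (fun h => h5 ⟨rfl, h⟩) ?_ ?_
      · rintro rfl; exact h6 rfl
      · rintro rfl; exact h7 rfl
    · intro p hp
      have hinj : ∀ i : Fin 3, Function.Injective (fun u : V => p (some (i, u))) := by
        intro i u v huv
        have := hp huv
        simpa using this
      choose t f h1 h2 using fun i : Fin 3 => hW (fun u => p (some (i, u))) (hinj i)
      obtain ⟨a, b, c, hab, hbc, hac, htab, htbc⟩ := sort3 t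
      -- extra vertex
      obtain ⟨x, hxlt, hxw, hxd⟩ : ∃ x : Option (Fin 3 × V), p x < t b ∧
          (∃ w, t b ≤ p w ∧ (stepG G).Adj x w) ∧
          ∀ j, ∃ w, t b ≤ p w ∧ ¬ ((stepG G).Adj x w ↔ (stepG G).Adj (some (b, f b j)) w) := by
        rcases lt_or_ge (p none) (t b) with hn | hn
        · obtain ⟨_, w, hw, _⟩ := h1 c 0
          refine ⟨none, hn, ⟨some (c, w), htbc.trans hw, trivial⟩, ?_⟩
          intro j
          refine ⟨some (c, w), htbc.trans hw, ?_⟩
          intro h
          have := (stepG_ss G b c _ _).1 (h.1 trivial)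
          exact hbc this.1
        · obtain ⟨hlt, _⟩ := h1 a 0
          refine ⟨some (a, f a 0), lt_of_lt_of_le hlt htab, ⟨none, hn, trivial⟩, ?_⟩
          intro j
          obtain ⟨_, y, hy, hadj⟩ := h1 b j
          refine ⟨some (b, y), hy, ?_⟩
          intro h
          have := (stepG_ss G a b _ _).1 (h.2 ((stepG_ss G b b _ _).2 ⟨rfl, hadj⟩))
          exact hab this.1
      refine ⟨t b, Fin.cons x (fun j => some (b, f b j)), ?_, ?_⟩
      · intro i
        refine Fin.cases ?_ (fun j => ?_) i
        · rw [Fin.cons_zero]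
          exact ⟨hxlt, hxw⟩
        · rw [Fin.cons_succ]
          obtain ⟨hlt, y, hy, hadj⟩ := h1 b j
          exact ⟨hlt, some (b, y), hy, (stepG_ss G b b _ _).2 ⟨rfl, hadj⟩⟩
      · intro i j
        refine Fin.cases ?_ (fun i' => ?_) i
        · refine Fin.cases ?_ (fun j' => ?_) j
          · intro h; exact absurd rfl h
          · intro _
            rw [Fin.cons_zero, Fin.cons_succ]
            exact hxd j'
        · refine Fin.cases ?_ (fun j' => ?_) j
          · intro _
            rw [Fin.cons_zero, Fin.cons_succ]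
            obtain ⟨w, hw, hd⟩ := hxd i'
            exact ⟨w, hw, fun h => hd h.symm⟩
          · intro hij
            rw [Fin.cons_succ, Fin.cons_succ]
            obtain ⟨w, hw, hd⟩ := h2 b i' j' (fun h => hij (by rw [h]))
            refine ⟨some (b, w), hw, ?_⟩
            rw [stepG_ss, stepG_ss]
            simpa using hd

end FamTP

end Pool.Agent.Helper856.Cw
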