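import Pool.Agent.Helper856.Pair.ClFinal
import Pool.Agent.Helper856.Pair.Conv2
import Pool.Agent.Helper856.Pair.FamTP
import Pool.Agent.Helper856.Pair.FamSplit
import Pool.Agent.Helper856.Pair.FamLine
import Pool.Agent.Helper856.Pair.FamK4
import Pool.Agent.Helper856.Pair.FamDia
import Pool.Agent.Helper856.Pair.FamPerm
import Pool.Agent.Helper856.Pair.FamX
import Pool.Agent.Helper856.Lcw.Final

open Classical SimpleGraph

namespace Pool.Agent.Helper856.Cw.AsmN

open Pool.Agent.Helper856.Lcw (GLin Wide gr K13_3P1 K13_P2 P1_S113 S122)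
open Conv2 FamTP FamSplit FamLine FamK4 FamDia FamPerm FamX

/-- bounded width of the `(A, B)`-free graphs in terms of vertex orderings -/
def BG {m n : ℕ} (A : SimpleGraph (Fin m)) (B : SimpleGraph (Fin n)) : Prop :=
  ∃ k, ∀ (V : Type) [Finite V] (G : SimpleGraph V), ¬A.IsIndContained G → ¬B.IsIndContained G →
    GLin k G

theorem glin_compl {V : Type} {G : SimpleGraph V} {k : ℕ} (h : GLin k G) : GLin k Gᶜ := by
  obtain ⟨p, hp, h⟩ := h
  refine ⟨p, hp, fun t => ?_⟩
  obtain ⟨c, hc⟩ := h t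
  refine ⟨c, fun u v hut hvt huv w htw => ?_⟩
  have h1 : u ≠ w := by
    rintro rfl
    omega
  have h2 : v ≠ w := by
    rintro rfl
    omega
  rw [SimpleGraph.compl_adj, SimpleGraph.compl_adj, hc u v hut hvt huv w htw]
  simp [h1, h2]

theorem cont_compl {V W : Type} {A : SimpleGraph W} {G : SimpleGraph V}
    (h : A.IsIndContained G) : Aᶜ.IsIndContained Gᶜ := by
  obtain ⟨e⟩ := h
  refine ⟨⟨e.toEmbedding, ?_⟩⟩
  intro u v
  simp only [SimpleGraph.compl_adj]
  have h1 : G.Adj (e.toEmbedding u) (e.toEmbedding v) ↔ A.Adj u v := e.map_adj_iff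
  have h2 : e.toEmbedding u = e.toEmbedding v ↔ u = v := e.toEmbedding.injective.eq_iff
  rw [h1, ne_eq, ne_eq, h2]

variable {m n : ℕ} {A : SimpleGraph (Fin m)} {B : SimpleGraph (Fin n)}

theorem BG.symm (h : BG A B) : BG B A := by
  obtain ⟨k, h⟩ := h
  exact ⟨k, fun V _ G h1 h2 => h V G h2 h1⟩

theorem BG.compl (h : BG A B) : BG Aᶜ Bᶜ := by
  obtain ⟨k, h⟩ := h
  refine ⟨k, fun V _ G h1 h2 => ?_⟩
  have := glin_compl (h V Gᶜ (fun h3 => h1 ?_) (fun h3 => h2 ?_))
  · rwa [compl_compl] at this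
  · have := cont_compl h3
    rwa [compl_compl] at this
  · have := cont_compl h3
    rwa [compl_compl] at this

/-- the necessary conditions -/
theorem nok_of_BG (h : BG A B) : Nok A B := by
  obtain ⟨k, hk⟩ := h
  have key : ∀ (P : ∀ (V : Type), SimpleGraph V → Prop),
      (∀ j, ∃ (V : Type) (_ : Finite V) (G : SimpleGraph V), P V G ∧ ¬GLin j G) →
      (∀ (V : Type) (G : SimpleGraph V), P V G → ¬A.IsIndContained G ∧ ¬B.IsIndContained G) →
      False := by
    intro P h1 h2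
    obtain ⟨V, hV, G, hP, hG⟩ := h1 k
    exact hG (hk V G (h2 V G hP).1 (h2 V G hP).2)
  constructor
  · rintro ⟨hA, hB⟩
    refine key (fun V G => ¬gP4.IsIndContained G ∧ ¬gC4.IsIndContained G) ?_ ?_
    · intro j
      obtain ⟨V, hV, G, h1, h2⟩ := fam_tp j
      exact ⟨V, hV, G, dv_TP h1, wide_not_glin h2⟩
    · rintro V G ⟨h1, h2⟩
      constructor
      · rcases hA with hA | hA
        · exact fun h => h1 (hA.trans h)
        · exact fun h => h2 (hA.trans h)
      · rcases hB with hB | hB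
        · exact fun h => h1 (hB.trans h)
        · exact fun h => h2 (hB.trans h)
  · rintro ⟨hA, hB⟩
    refine key (fun V G => ¬gC4.IsIndContained G ∧ ¬g2P2.IsIndContained G) ?_ ?_
    · intro j
      obtain ⟨V, hV, G, h1, h2, h3⟩ := fam_split j
      exact ⟨V, hV, G, ⟨dv_C4 h1, dv_2P2 h2⟩, h3⟩
    · rintro V G ⟨h1, h2⟩
      exact ⟨fun h => h2 (hA.trans h), fun h => h1 (hB.trans h)⟩
  · rintro ⟨hA, hB⟩
    refine key (fun V G => ¬gK3.IsIndContained G ∧ ¬gC4.IsIndContained G ∧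
      ¬gC5.IsIndContained G ∧ ¬gK14.IsIndContained G) ?_ ?_
    · intro j
      obtain ⟨V, hV, G, s, h, T, h1, h2, h3, h4, h5, h6, h7⟩ := exists_S (j + 1)
      exact ⟨V, hV, G, dv_tree h1 h2 h3 h6, wide_not_glin h7⟩
    · rintro V G ⟨h1, h2, h3, h4⟩
      have aux : ∀ {l : ℕ} (X : SimpleGraph (Fin l)), CycX X → ¬X.IsIndContained G := by
        intro l X hX hXG
        rcases hX with h | h | h | h
        · exact h1 (h.trans hXG)
        · exact h2 (h.trans hXG)
        · exact h3 (h.trans hXG)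
        · exact h4 (h.trans hXG)
      exact ⟨aux A hA, aux B hB⟩
  · intro hA
    refine (Pool.Agent.Helper856.Lcw.main_fin B).1 ⟨2 * k + 1, fun V _ G hG hF => ?_⟩
    refine Pool.Agent.Helper856.Lcw.lcw_le_of_GLin G k (hk V G (fun h => ?_) hF)
    obtain ⟨C⟩ := hG
    obtain ⟨f⟩ := hA.trans h
    have a : ∀ i j : Fin 3, i ≠ j → C (f i) ≠ C (f j) := by
      intro i j hij
      refine C.valid ?_
      rw [f.map_adj_iff]
      simp only [gK3, gr, SimpleGraph.fromRel_adj]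
      refine ⟨hij, ?_⟩
      revert i j
      decide
    have b1 := a 0 1 (by decide)
    have b2 := a 0 2 (by decide)
    have b3 := a 1 2 (by decide)
    revert b1 b2 b3
    generalize C (f 0) = x
    generalize C (f 1) = y
    generalize C (f 2) = z
    revert x y z
    decide
  · rintro ⟨hA, hB⟩
    refine key (fun V G => ¬gK13.IsIndContained G ∧ ¬gK4.IsIndContained G ∧
      ¬gDia.IsIndContained G ∧ ¬gC4.IsIndContained G) ?_ ?_
    · intro j
      obtain ⟨V, hV, G, h1, h2, h3, h4, h5⟩ := fam_line j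
      exact ⟨V, hV, G, ⟨dv_K13 h1, dv_K4 h2, dv_Dia h3, dv_C4 h4⟩, h5⟩
    · rintro V G ⟨h1, h2, h3, h4⟩
      refine ⟨fun h => h1 (hA.trans h), ?_⟩
      rcases hB with hB | hB | hB
      · exact fun h => h2 (hB.trans h)
      · exact fun h => h3 (hB.trans h)
      · exact fun h => h4 (hB.trans h)
  · rintro ⟨hA, hB⟩
    refine key (fun V G => ¬gK4.IsIndContained G ∧ ¬g2P2.IsIndContained G) ?_ ?_
    · intro j
      obtain ⟨V, hV, G, h1, h2, h3⟩ := fam_perm j
      exact ⟨V, hV, G, ⟨dv_K4 h1, dv_2P2 h2⟩, h3⟩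
    · rintro V G ⟨h1, h2⟩
      exact ⟨fun h => h1 (hA.trans h), fun h => h2 (hB.trans h)⟩
  · rintro ⟨hA, hB⟩
    refine key (fun V G => ¬gK4.IsIndContained G ∧ ¬gP1P4.IsIndContained G ∧
      ¬g3P1P2.IsIndContained G) ?_ ?_
    · intro j
      obtain ⟨V, hV, G, h1, h2, h3, h4⟩ := fam_k4 j
      exact ⟨V, hV, G, ⟨dv_K4 h1, dv_P1P4 h2, dv_3P1P2 h3⟩, h4⟩
    · rintro V G ⟨h1, h2, h3⟩
      refine ⟨fun h => h1 (hA.trans h), ?_⟩
      rcases hB with hB | hB
      · exact fun h => h2 (hB.trans h)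
      · exact fun h => h3 (hB.trans h)
  · rintro ⟨hA, hB⟩
    refine key (fun V G => ¬gDia.IsIndContained G ∧ ¬g5P1.IsIndContained G) ?_ ?_
    · intro j
      obtain ⟨V, hV, G, h1, h2, h3⟩ := fam_dia j
      exact ⟨V, hV, G, ⟨dv_Dia h1, dv_5P1 h2⟩, h3⟩
    · rintro V G ⟨h1, h2⟩
      exact ⟨fun h => h1 (hA.trans h), fun h => h2 (hB.trans h)⟩

/-- necessity: bounded pairs satisfy the condition -/
theorem cond_of_BG (h : BG A B) : Cond A B :=
  ClFinal.cl_final A B (nok_of_BG h) (nok_of_BG h.symm) (nok_of_BG h.compl)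
    (nok_of_BG h.symm.compl)

end Pool.Agent.Helper856.Cw.AsmN
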