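import Pool.Agent.Helper856.Pair.Defs
import Pool.Agent.Helper856.Lcw.GBase

open Classical SimpleGraph

namespace Pool.Agent.Helper856.Cw

open Pool.Agent.Helper856.Lcw (gr K13_3P1 K13_P2 S122)

namespace Conv1

variable {V : Type} {G : SimpleGraph V} {S T : Finset V} {k l : ℕ}

theorem ind_of {V : Type} (G : SimpleGraph V) {n : ℕ} {L : List (ℕ × ℕ)} (f : Fin n → V)
    (h : ∀ i j : Fin n, i < j → f i ≠ f j ∧
      (((i.val, j.val) ∈ L ∨ (j.val, i.val) ∈ L) ↔ G.Adj (f i) (f j))) :
    (gr n L).IsIndContained G := by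
  have hinj : Function.Injective f := by
    intro i j hij
    by_contra hne
    rcases lt_or_gt_of_ne hne with h1 | h1
    · exact (h i j h1).1 hij
    · exact (h j i h1).1 hij.symm
  refine ⟨⟨⟨f, hinj⟩, ?_⟩⟩
  intro i j
  simp only [Function.Embedding.coeFn_mk]
  unfold gr
  rw [SimpleGraph.fromRel_adj]
  rcases lt_trichotomy i j with h1 | h1 | h1
  · rw [← (h i j h1).2]
    constructor
    · intro h2; exact ⟨h1.ne, h2⟩
    · intro h2; exact h2.2
  · subst h1
    simp
  · rw [G.adj_comm, ← (h j i h1).2]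
    constructor
    · intro h2; exact ⟨h1.ne', h2.symm⟩
    · intro h2; exact h2.2.symm

/-- TARGET -/
theorem cv_P3 (h : ¬gP3.IsIndContained G) (x y z : V) (h1 : G.Adj x y) (h2 : G.Adj y z)
    (h3 : x ≠ z) : G.Adj x z := by
  by_contra H3
  apply h
  have D_x_y : x ≠ y := (h1).ne
  have D_y_z : y ≠ z := (h2).ne
  apply ind_of G ![x, y, z]
  intro i j hij
  fin_cases i <;> fin_cases j
  · exact absurd hij (by decide)
  · exact ⟨D_x_y, fun _ => h1, fun _ => by decide⟩
  · exact ⟨h3, fun h => absurd h (by decide), fun h => absurd h (H3)⟩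
  · exact absurd hij (by decide)
  · exact absurd hij (by decide)
  · exact ⟨D_y_z, fun _ => h2, fun _ => by decide⟩
  · exact absurd hij (by decide)
  · exact absurd hij (by decide)
  · exact absurd hij (by decide)

/-- TARGET -/
theorem cv_P4 (h : ¬gP4.IsIndContained G) (S : Finset V) : NoP4 G S := by
  intro a ha b hb c hc d hd H0 H1 H2 H3 H4 H5 H6 H7
  apply h
  have D_a_b : a ≠ b := (H0).ne
  have D_a_d : a ≠ d := fun h => ((fun h => H5 h.symm)) (h ▸ (H0))
  have D_b_c : b ≠ c := (H1).ne
  have D_c_d : c ≠ d := (H2).ne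
  apply ind_of G ![a, b, c, d]
  intro i j hij
  fin_cases i <;> fin_cases j
  · exact absurd hij (by decide)
  · exact ⟨D_a_b, fun _ => H0, fun _ => by decide⟩
  · exact ⟨H6, fun h => absurd h (by decide), fun h => absurd h (H3)⟩
  · exact ⟨D_a_d, fun h => absurd h (by decide), fun h => absurd h (H4)⟩
  · exact absurd hij (by decide)
  · exact absurd hij (by decide)
  · exact ⟨D_b_c, fun _ => H1, fun _ => by decide⟩
  · exact ⟨H7, fun h => absurd h (by decide), fun h => absurd h (H5)⟩
  · exact absurd hij (by decide)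
  · exact absurd hij (by decide)
  · exact absurd hij (by decide)
  · exact ⟨D_c_d, fun _ => H2, fun _ => by decide⟩
  · exact absurd hij (by decide)
  · exact absurd hij (by decide)
  · exact absurd hij (by decide)
  · exact absurd hij (by decide)

/-- TARGET -/
theorem cv_Paw (h : ¬gPaw.IsIndContained G) (S : Finset V) : NoPaw G S := by
  intro a ha b hb c hc d hd H0 H1 H2 H3 H4 H5 H6 H7
  apply h
  have D_a_b : a ≠ b := (H0).ne
  have D_a_c : a ≠ c := (H1).ne
  have D_a_d : a ≠ d := (H3).ne
  have D_b_c : b ≠ c := (H2).ne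
  apply ind_of G ![a, b, c, d]
  intro i j hij
  fin_cases i <;> fin_cases j
  · exact absurd hij (by decide)
  · exact ⟨D_a_b, fun _ => H0, fun _ => by decide⟩
  · exact ⟨D_a_c, fun _ => H1, fun _ => by decide⟩
  · exact ⟨D_a_d, fun _ => H3, fun _ => by decide⟩
  · exact absurd hij (by decide)
  · exact absurd hij (by decide)
  · exact ⟨D_b_c, fun _ => H2, fun _ => by decide⟩
  · exact ⟨H6, fun h => absurd h (by decide), fun h => absurd h (H4)⟩
  · exact absurd hij (by decide)
  · exact absurd hij (by decide)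
  · exact absurd hij (by decide)
  · exact ⟨H7, fun h => absurd h (by decide), fun h => absurd h (H5)⟩
  · exact absurd hij (by decide)
  · exact absurd hij (by decide)
  · exact absurd hij (by decide)
  · exact absurd hij (by decide)

/-- TARGET -/
theorem cv_Dia (h : ¬gDia.IsIndContained G) : NoDia G := by
  intro x y a b H0 H1 H2 H3 H4 H5
  by_contra H6
  apply h
  have D_x_y : x ≠ y := (H0).ne
  have D_x_a : x ≠ a := (H1).ne
  have D_x_b : x ≠ b := (H3).ne
  have D_y_a : y ≠ a := (H2).ne
  have D_y_b : y ≠ b := (H4).ne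
  apply ind_of G ![x, y, a, b]
  intro i j hij
  fin_cases i <;> fin_cases j
  · exact absurd hij (by decide)
  · exact ⟨D_x_y, fun _ => H0, fun _ => by decide⟩
  · exact ⟨D_x_a, fun _ => H1, fun _ => by decide⟩
  · exact ⟨D_x_b, fun _ => H3, fun _ => by decide⟩
  · exact absurd hij (by decide)
  · exact absurd hij (by decide)
  · exact ⟨D_y_a, fun _ => H2, fun _ => by decide⟩
  · exact ⟨D_y_b, fun _ => H4, fun _ => by decide⟩
  · exact absurd hij (by decide)
  · exact absurd hij (by decide)
  · exact absurd hij (by decide)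
  · exact ⟨H5, fun h => absurd h (by decide), fun h => absurd h (H6)⟩
  · exact absurd hij (by decide)
  · exact absurd hij (by decide)
  · exact absurd hij (by decide)
  · exact absurd hij (by decide)

/-- TARGET -/
theorem cv_3P1P2 (h : ¬g3P1P2.IsIndContained G) : No3P1P2 G := by
  intro p q r x y H0 H1 H2 H3 H4 H5 H6 H7 H8 H9 H10 H11 H12
  apply h
  have D_x_y : x ≠ y := (H0).ne
  have D_x_p : x ≠ p := fun h => (H8) (h ▸ (H0))
  have D_x_q : x ≠ q := fun h => (H10) (h ▸ (H0))
  have D_x_r : x ≠ r := fun h => (H12) (h ▸ (H0))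
  have D_y_p : y ≠ p := fun h => (H7) (h ▸ (H0.symm))
  have D_y_q : y ≠ q := fun h => (H9) (h ▸ (H0.symm))
  have D_y_r : y ≠ r := fun h => (H11) (h ▸ (H0.symm))
  apply ind_of G ![x, y, p, q, r]
  intro i j hij
  fin_cases i <;> fin_cases j
  · exact absurd hij (by decide)
  · exact ⟨D_x_y, fun _ => H0, fun _ => by decide⟩
  · exact ⟨D_x_p, fun h => absurd h (by decide), fun h => absurd h ((fun h => H7 h.symm))⟩
  · exact ⟨D_x_q, fun h => absurd h (by decide), fun h => absurd h ((fun h => H9 h.symm))⟩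
  · exact ⟨D_x_r, fun h => absurd h (by decide), fun h => absurd h ((fun h => H11 h.symm))⟩
  · exact absurd hij (by decide)
  · exact absurd hij (by decide)
  · exact ⟨D_y_p, fun h => absurd h (by decide), fun h => absurd h ((fun h => H8 h.symm))⟩
  · exact ⟨D_y_q, fun h => absurd h (by decide), fun h => absurd h ((fun h => H10 h.symm))⟩
  · exact ⟨D_y_r, fun h => absurd h (by decide), fun h => absurd h ((fun h => H12 h.symm))⟩
  · exact absurd hij (by decide)
  · exact absurd hij (by decide)
  · exact absurd hij (by decide)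
  · exact ⟨H4, fun h => absurd h (by decide), fun h => absurd h (H1)⟩
  · exact ⟨H5, fun h => absurd h (by decide), fun h => absurd h (H2)⟩
  · exact absurd hij (by decide)
  · exact absurd hij (by decide)
  · exact absurd hij (by decide)
  · exact absurd hij (by decide)
  · exact ⟨H6, fun h => absurd h (by decide), fun h => absurd h (H3)⟩
  · exact absurd hij (by decide)
  · exact absurd hij (by decide)
  · exact absurd hij (by decide)
  · exact absurd hij (by decide)
  · exact absurd hij (by decide)

/-- TARGET -/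
theorem cv_A (hT : Tri G) (h : ¬K13_3P1.IsIndContained G) : NoA G := by
  intro c l1 l2 l3 p q r H0 H1 H2 H3 H4 H5 H6 H7 H8 H9 H10 H11 H12 H13 H14 H15 H16 H17 H18 H19 H20 H21 H22 H23
  apply h
  have N_l1_l2 : ¬G.Adj l1 l2 := fun h => hT _ _ _ (H0.symm) (H1) h
  have N_l1_l3 : ¬G.Adj l1 l3 := fun h => hT _ _ _ (H0.symm) (H2) h
  have N_l2_l3 : ¬G.Adj l2 l3 := fun h => hT _ _ _ (H1.symm) (H2) h
  have D_c_l1 : c ≠ l1 := (H0).ne
  have D_c_l2 : c ≠ l2 := (H1).ne
  have D_c_l3 : c ≠ l3 := (H2).ne
  have D_c_p : c ≠ p := fun h => (H13) (h ▸ (H0))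
  have D_c_q : c ≠ q := fun h => (H17) (h ▸ (H0))
  have D_c_r : c ≠ r := fun h => (H21) (h ▸ (H0))
  have D_l1_p : l1 ≠ p := fun h => (H12) (h ▸ (H0.symm))
  have D_l1_q : l1 ≠ q := fun h => (H16) (h ▸ (H0.symm))
  have D_l1_r : l1 ≠ r := fun h => (H20) (h ▸ (H0.symm))
  have D_l2_p : l2 ≠ p := fun h => (H12) (h ▸ (H1.symm))
  have D_l2_q : l2 ≠ q := fun h => (H16) (h ▸ (H1.symm))
  have D_l2_r : l2 ≠ r := fun h => (H20) (h ▸ (H1.symm))
  have D_l3_p : l3 ≠ p := fun h => (H12) (h ▸ (H2.symm))
  have D_l3_q : l3 ≠ q := fun h => (H16) (h ▸ (H2.symm))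
  have D_l3_r : l3 ≠ r := fun h => (H20) (h ▸ (H2.symm))
  apply ind_of G ![c, l1, l2, l3, p, q, r]
  intro i j hij
  fin_cases i <;> fin_cases j
  · exact absurd hij (by decide)
  · exact ⟨D_c_l1, fun _ => H0, fun _ => by decide⟩
  · exact ⟨D_c_l2, fun _ => H1, fun _ => by decide⟩
  · exact ⟨D_c_l3, fun _ => H2, fun _ => by decide⟩
  · exact ⟨D_c_p, fun h => absurd h (by decide), fun h => absurd h ((fun h => H12 h.symm))⟩
  · exact ⟨D_c_q, fun h => absurd h (by decide), fun h => absurd h ((fun h => H16 h.symm))⟩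
  · exact ⟨D_c_r, fun h => absurd h (by decide), fun h => absurd h ((fun h => H20 h.symm))⟩
  · exact absurd hij (by decide)
  · exact absurd hij (by decide)
  · exact ⟨H3, fun h => absurd h (by decide), fun h => absurd h (N_l1_l2)⟩
  · exact ⟨H4, fun h => absurd h (by decide), fun h => absurd h (N_l1_l3)⟩
  · exact ⟨D_l1_p, fun h => absurd h (by decide), fun h => absurd h ((fun h => H13 h.symm))⟩
  · exact ⟨D_l1_q, fun h => absurd h (by decide), fun h => absurd h ((fun h => H17 h.symm))⟩
  · exact ⟨D_l1_r, fun h => absurd h (by decide), fun h => absurd h ((fun h => H21 h.symm))⟩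
  · exact absurd hij (by decide)
  · exact absurd hij (by decide)
  · exact absurd hij (by decide)
  · exact ⟨H5, fun h => absurd h (by decide), fun h => absurd h (N_l2_l3)⟩
  · exact ⟨D_l2_p, fun h => absurd h (by decide), fun h => absurd h ((fun h => H14 h.symm))⟩
  · exact ⟨D_l2_q, fun h => absurd h (by decide), fun h => absurd h ((fun h => H18 h.symm))⟩
  · exact ⟨D_l2_r, fun h => absurd h (by decide), fun h => absurd h ((fun h => H22 h.symm))⟩
  · exact absurd hij (by decide)
  · exact absurd hij (by decide)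
  · exact absurd hij (by decide)
  · exact absurd hij (by decide)
  · exact ⟨D_l3_p, fun h => absurd h (by decide), fun h => absurd h ((fun h => H15 h.symm))⟩
  · exact ⟨D_l3_q, fun h => absurd h (by decide), fun h => absurd h ((fun h => H19 h.symm))⟩
  · exact ⟨D_l3_r, fun h => absurd h (by decide), fun h => absurd h ((fun h => H23 h.symm))⟩
  · exact absurd hij (by decide)
  · exact absurd hij (by decide)
  · exact absurd hij (by decide)
  · exact absurd hij (by decide)
  · exact absurd hij (by decide)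
  · exact ⟨H6, fun h => absurd h (by decide), fun h => absurd h (H9)⟩
  · exact ⟨H7, fun h => absurd h (by decide), fun h => absurd h (H10)⟩
  · exact absurd hij (by decide)
  · exact absurd hij (by decide)
  · exact absurd hij (by decide)
  · exact absurd hij (by decide)
  · exact absurd hij (by decide)
  · exact absurd hij (by decide)
  · exact ⟨H8, fun h => absurd h (by decide), fun h => absurd h (H11)⟩
  · exact absurd hij (by decide)
  · exact absurd hij (by decide)
  · exact absurd hij (by decide)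
  · exact absurd hij (by decide)
  · exact absurd hij (by decide)
  · exact absurd hij (by decide)
  · exact absurd hij (by decide)

/-- TARGET -/
theorem cv_R (hT : Tri G) (h : ¬K13_P2.IsIndContained G) : NoR G := by
  intro c l1 l2 l3 p q H0 H1 H2 H3 H4 H5 H6 H7 H8 H9 H10 H11 H12 H13 H14
  apply h
  have N_l1_l2 : ¬G.Adj l1 l2 := fun h => hT _ _ _ (H0.symm) (H1) h
  have N_l1_l3 : ¬G.Adj l1 l3 := fun h => hT _ _ _ (H0.symm) (H2) h
  have N_l2_l3 : ¬G.Adj l2 l3 := fun h => hT _ _ _ (H1.symm) (H2) h
  have D_c_l1 : c ≠ l1 := (H0).ne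
  have D_c_l2 : c ≠ l2 := (H1).ne
  have D_c_l3 : c ≠ l3 := (H2).ne
  have D_c_p : c ≠ p := fun h => ((fun h => H9 h.symm)) (h ▸ (H0))
  have D_c_q : c ≠ q := fun h => ((fun h => H10 h.symm)) (h ▸ (H0))
  have D_l1_p : l1 ≠ p := fun h => ((fun h => H7 h.symm)) (h ▸ (H0.symm))
  have D_l1_q : l1 ≠ q := fun h => ((fun h => H8 h.symm)) (h ▸ (H0.symm))
  have D_l2_p : l2 ≠ p := fun h => ((fun h => H7 h.symm)) (h ▸ (H1.symm))
  have D_l2_q : l2 ≠ q := fun h => ((fun h => H8 h.symm)) (h ▸ (H1.symm))
  have D_l3_p : l3 ≠ p := fun h => ((fun h => H7 h.symm)) (h ▸ (H2.symm))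
  have D_l3_q : l3 ≠ q := fun h => ((fun h => H8 h.symm)) (h ▸ (H2.symm))
  have D_p_q : p ≠ q := (H3).ne
  apply ind_of G ![c, l1, l2, l3, p, q]
  intro i j hij
  fin_cases i <;> fin_cases j
  · exact absurd hij (by decide)
  · exact ⟨D_c_l1, fun _ => H0, fun _ => by decide⟩
  · exact ⟨D_c_l2, fun _ => H1, fun _ => by decide⟩
  · exact ⟨D_c_l3, fun _ => H2, fun _ => by decide⟩
  · exact ⟨D_c_p, fun h => absurd h (by decide), fun h => absurd h (H7)⟩
  · exact ⟨D_c_q, fun h => absurd h (by decide), fun h => absurd h (H8)⟩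
  · exact absurd hij (by decide)
  · exact absurd hij (by decide)
  · exact ⟨H4, fun h => absurd h (by decide), fun h => absurd h (N_l1_l2)⟩
  · exact ⟨H5, fun h => absurd h (by decide), fun h => absurd h (N_l1_l3)⟩
  · exact ⟨D_l1_p, fun h => absurd h (by decide), fun h => absurd h (H9)⟩
  · exact ⟨D_l1_q, fun h => absurd h (by decide), fun h => absurd h (H10)⟩
  · exact absurd hij (by decide)
  · exact absurd hij (by decide)
  · exact absurd hij (by decide)
  · exact ⟨H6, fun h => absurd h (by decide), fun h => absurd h (N_l2_l3)⟩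
  · exact ⟨D_l2_p, fun h => absurd h (by decide), fun h => absurd h (H11)⟩
  · exact ⟨D_l2_q, fun h => absurd h (by decide), fun h => absurd h (H12)⟩
  · exact absurd hij (by decide)
  · exact absurd hij (by decide)
  · exact absurd hij (by decide)
  · exact absurd hij (by decide)
  · exact ⟨D_l3_p, fun h => absurd h (by decide), fun h => absurd h (H13)⟩
  · exact ⟨D_l3_q, fun h => absurd h (by decide), fun h => absurd h (H14)⟩
  · exact absurd hij (by decide)
  · exact absurd hij (by decide)
  · exact absurd hij (by decide)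
  · exact absurd hij (by decide)
  · exact absurd hij (by decide)
  · exact ⟨D_p_q, fun _ => H3, fun _ => by decide⟩
  · exact absurd hij (by decide)
  · exact absurd hij (by decide)
  · exact absurd hij (by decide)
  · exact absurd hij (by decide)
  · exact absurd hij (by decide)
  · exact absurd hij (by decide)

/-- TARGET -/
theorem cv_Q (hT : Tri G) (h : ¬S122.IsIndContained G) : NoQ G := by
  intro c l x y z w H0 H1 H2 H3 H4 H5 H6 H7 H8 H9
  apply h
  have N_c_y : ¬G.Adj c y := fun h => hT _ _ _ (H1) (H2) h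
  have N_c_w : ¬G.Adj c w := fun h => hT _ _ _ (H3) (H4) h
  have N_l_x : ¬G.Adj l x := fun h => hT _ _ _ (H0.symm) (H1) h
  have N_l_z : ¬G.Adj l z := fun h => hT _ _ _ (H0.symm) (H3) h
  have N_x_z : ¬G.Adj x z := fun h => hT _ _ _ (H1.symm) (H3) h
  have D_c_l : c ≠ l := (H0).ne
  have D_c_x : c ≠ x := (H1).ne
  have D_c_y : c ≠ y := fun h => ((fun h => H5 h.symm)) (h ▸ (H0))
  have D_c_z : c ≠ z := (H3).ne
  have D_c_w : c ≠ w := fun h => ((fun h => H6 h.symm)) (h ▸ (H0))
  have D_l_x : l ≠ x := fun h => (H5) (h ▸ (H2))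
  have D_l_y : l ≠ y := fun h => ((fun h => N_c_y h.symm)) (h ▸ (H0.symm))
  have D_l_z : l ≠ z := fun h => (H6) (h ▸ (H4))
  have D_l_w : l ≠ w := fun h => ((fun h => N_c_w h.symm)) (h ▸ (H0.symm))
  have D_x_y : x ≠ y := (H2).ne
  have D_x_z : x ≠ z := fun h => ((fun h => H8 h.symm)) (h ▸ (H2))
  have D_x_w : x ≠ w := fun h => ((fun h => N_c_w h.symm)) (h ▸ (H1.symm))
  have D_y_z : y ≠ z := fun h => ((fun h => N_c_y h.symm)) (h ▸ (H3.symm))
  have D_y_w : y ≠ w := fun h => ((fun h => H7 h.symm)) (h ▸ (H2.symm))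
  have D_z_w : z ≠ w := (H4).ne
  apply ind_of G ![c, l, x, y, z, w]
  intro i j hij
  fin_cases i <;> fin_cases j
  · exact absurd hij (by decide)
  · exact ⟨D_c_l, fun _ => H0, fun _ => by decide⟩
  · exact ⟨D_c_x, fun _ => H1, fun _ => by decide⟩
  · exact ⟨D_c_y, fun h => absurd h (by decide), fun h => absurd h (N_c_y)⟩
  · exact ⟨D_c_z, fun _ => H3, fun _ => by decide⟩
  · exact ⟨D_c_w, fun h => absurd h (by decide), fun h => absurd h (N_c_w)⟩
  · exact absurd hij (by decide)
  · exact absurd hij (by decide)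
  · exact ⟨D_l_x, fun h => absurd h (by decide), fun h => absurd h (N_l_x)⟩
  · exact ⟨D_l_y, fun h => absurd h (by decide), fun h => absurd h (H5)⟩
  · exact ⟨D_l_z, fun h => absurd h (by decide), fun h => absurd h (N_l_z)⟩
  · exact ⟨D_l_w, fun h => absurd h (by decide), fun h => absurd h (H6)⟩
  · exact absurd hij (by decide)
  · exact absurd hij (by decide)
  · exact absurd hij (by decide)
  · exact ⟨D_x_y, fun _ => H2, fun _ => by decide⟩
  · exact ⟨D_x_z, fun h => absurd h (by decide), fun h => absurd h (N_x_z)⟩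
  · exact ⟨D_x_w, fun h => absurd h (by decide), fun h => absurd h (H7)⟩
  · exact absurd hij (by decide)
  · exact absurd hij (by decide)
  · exact absurd hij (by decide)
  · exact absurd hij (by decide)
  · exact ⟨D_y_z, fun h => absurd h (by decide), fun h => absurd h (H8)⟩
  · exact ⟨D_y_w, fun h => absurd h (by decide), fun h => absurd h (H9)⟩
  · exact absurd hij (by decide)
  · exact absurd hij (by decide)
  · exact absurd hij (by decide)
  · exact absurd hij (by decide)
  · exact absurd hij (by decide)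
  · exact ⟨D_z_w, fun _ => H4, fun _ => by decide⟩
  · exact absurd hij (by decide)
  · exact absurd hij (by decide)
  · exact absurd hij (by decide)
  · exact absurd hij (by decide)
  · exact absurd hij (by decide)
  · exact absurd hij (by decide)

/-- TARGET -/
theorem cv_K13 (h : ¬gK13.IsIndContained G) : NoK13 G := by
  intro c x y z H0 H1 H2 H3 H4 H5 H6 H7 H8
  apply h
  have D_c_x : c ≠ x := (H0).ne
  have D_c_y : c ≠ y := (H1).ne
  have D_c_z : c ≠ z := (H2).ne
  apply ind_of G ![c, x, y, z]
  intro i j hij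
  fin_cases i <;> fin_cases j
  · exact absurd hij (by decide)
  · exact ⟨D_c_x, fun _ => H0, fun _ => by decide⟩
  · exact ⟨D_c_y, fun _ => H1, fun _ => by decide⟩
  · exact ⟨D_c_z, fun _ => H2, fun _ => by decide⟩
  · exact absurd hij (by decide)
  · exact absurd hij (by decide)
  · exact ⟨H6, fun h => absurd h (by decide), fun h => absurd h (H3)⟩
  · exact ⟨H7, fun h => absurd h (by decide), fun h => absurd h (H4)⟩
  · exact absurd hij (by decide)
  · exact absurd hij (by decide)
  · exact absurd hij (by decide)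
  · exact ⟨H8, fun h => absurd h (by decide), fun h => absurd h (H5)⟩
  · exact absurd hij (by decide)
  · exact absurd hij (by decide)
  · exact absurd hij (by decide)
  · exact absurd hij (by decide)

/-- TARGET -/
theorem cv_K3P1 (h : ¬gK3P1.IsIndContained G) : NoK3P1 G := by
  intro a b c p H0 H1 H2 H3 H4 H5 H6 H7 H8
  apply h
  have D_a_b : a ≠ b := (H0).ne
  have D_a_c : a ≠ c := (H2).ne
  have D_b_c : b ≠ c := (H1).ne
  apply ind_of G ![a, b, c, p]
  intro i j hij
  fin_cases i <;> fin_cases j
  · exact absurd hij (by decide)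
  · exact ⟨D_a_b, fun _ => H0, fun _ => by decide⟩
  · exact ⟨D_a_c, fun _ => H2, fun _ => by decide⟩
  · exact ⟨H6.symm, fun h => absurd h (by decide), fun h => absurd h ((fun h => H3 h.symm))⟩
  · exact absurd hij (by decide)
  · exact absurd hij (by decide)
  · exact ⟨D_b_c, fun _ => H1, fun _ => by decide⟩
  · exact ⟨H7.symm, fun h => absurd h (by decide), fun h => absurd h ((fun h => H4 h.symm))⟩
  · exact absurd hij (by decide)
  · exact absurd hij (by decide)
  · exact absurd hij (by decide)
  · exact ⟨H8.symm, fun h => absurd h (by decide), fun h => absurd h ((fun h => H5 h.symm))⟩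
  · exact absurd hij (by decide)
  · exact absurd hij (by decide)
  · exact absurd hij (by decide)
  · exact absurd hij (by decide)

/-- TARGET -/
theorem cv_P1P5 (h : ¬gP1P5.IsIndContained G) : NoP1P5 G := by
  intro p a b c d e H0 H1 H2 H3 H4 H5 H6 H7 H8 H9 H10 H11 H12 H13 H14
  apply h
  have D_a_b : a ≠ b := (H0).ne
  have D_a_c : a ≠ c := fun h => (H5) (h ▸ (H2))
  have D_a_d : a ≠ d := fun h => ((fun h => H7 h.symm)) (h ▸ (H0))
  have D_a_e : a ≠ e := fun h => ((fun h => H8 h.symm)) (h ▸ (H0))
  have D_a_p : a ≠ p := fun h => (H11) (h ▸ (H0))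
  have D_b_c : b ≠ c := (H1).ne
  have D_b_d : b ≠ d := fun h => ((fun h => H5 h.symm)) (h ▸ (H0.symm))
  have D_b_e : b ≠ e := fun h => ((fun h => H6 h.symm)) (h ▸ (H0.symm))
  have D_b_p : b ≠ p := fun h => (H10) (h ▸ (H0.symm))
  have D_c_d : c ≠ d := (H2).ne
  have D_c_e : c ≠ e := fun h => ((fun h => H8 h.symm)) (h ▸ (H1.symm))
  have D_c_p : c ≠ p := fun h => (H11) (h ▸ (H1.symm))
  have D_d_e : d ≠ e := (H3).ne
  have D_d_p : d ≠ p := fun h => (H12) (h ▸ (H2.symm))
  have D_e_p : e ≠ p := fun h => (H13) (h ▸ (H3.symm))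
  apply ind_of G ![a, b, c, d, e, p]
  intro i j hij
  fin_cases i <;> fin_cases j
  · exact absurd hij (by decide)
  · exact ⟨D_a_b, fun _ => H0, fun _ => by decide⟩
  · exact ⟨D_a_c, fun h => absurd h (by decide), fun h => absurd h (H4)⟩
  · exact ⟨D_a_d, fun h => absurd h (by decide), fun h => absurd h (H5)⟩
  · exact ⟨D_a_e, fun h => absurd h (by decide), fun h => absurd h (H6)⟩
  · exact ⟨D_a_p, fun h => absurd h (by decide), fun h => absurd h ((fun h => H10 h.symm))⟩
  · exact absurd hij (by decide)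
  · exact absurd hij (by decide)
  · exact ⟨D_b_c, fun _ => H1, fun _ => by decide⟩
  · exact ⟨D_b_d, fun h => absurd h (by decide), fun h => absurd h (H7)⟩
  · exact ⟨D_b_e, fun h => absurd h (by decide), fun h => absurd h (H8)⟩
  · exact ⟨D_b_p, fun h => absurd h (by decide), fun h => absurd h ((fun h => H11 h.symm))⟩
  · exact absurd hij (by decide)
  · exact absurd hij (by decide)
  · exact absurd hij (by decide)
  · exact ⟨D_c_d, fun _ => H2, fun _ => by decide⟩
  · exact ⟨D_c_e, fun h => absurd h (by decide), fun h => absurd h (H9)⟩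
  · exact ⟨D_c_p, fun h => absurd h (by decide), fun h => absurd h ((fun h => H12 h.symm))⟩
  · exact absurd hij (by decide)
  · exact absurd hij (by decide)
  · exact absurd hij (by decide)
  · exact absurd hij (by decide)
  · exact ⟨D_d_e, fun _ => H3, fun _ => by decide⟩
  · exact ⟨D_d_p, fun h => absurd h (by decide), fun h => absurd h ((fun h => H13 h.symm))⟩
  · exact absurd hij (by decide)
  · exact absurd hij (by decide)
  · exact absurd hij (by decide)
  · exact absurd hij (by decide)
  · exact absurd hij (by decide)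
  · exact ⟨D_e_p, fun h => absurd h (by decide), fun h => absurd h ((fun h => H14 h.symm))⟩
  · exact absurd hij (by decide)
  · exact absurd hij (by decide)
  · exact absurd hij (by decide)
  · exact absurd hij (by decide)
  · exact absurd hij (by decide)
  · exact absurd hij (by decide)

/-- TARGET -/
theorem cv_P1P2P3 (h : ¬gP1P2P3.IsIndContained G) : NoP1P2P3 G := by
  intro p x y a b c H0 H1 H2 H3 H4 H5 H6 H7 H8 H9 H10 H11 H12 H13 H14 H15
  apply h
  have D_x_y : x ≠ y := (H0).ne
  have D_x_a : x ≠ a := fun h => ((fun h => H13 h.symm)) (h ▸ (H0))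
  have D_x_b : x ≠ b := fun h => ((fun h => H14 h.symm)) (h ▸ (H0))
  have D_x_c : x ≠ c := fun h => ((fun h => H15 h.symm)) (h ▸ (H0))
  have D_x_p : x ≠ p := fun h => (H6) (h ▸ (H0))
  have D_y_a : y ≠ a := fun h => ((fun h => H10 h.symm)) (h ▸ (H0.symm))
  have D_y_b : y ≠ b := fun h => ((fun h => H11 h.symm)) (h ▸ (H0.symm))
  have D_y_c : y ≠ c := fun h => ((fun h => H12 h.symm)) (h ▸ (H0.symm))
  have D_y_p : y ≠ p := fun h => (H5) (h ▸ (H0.symm))
  have D_a_b : a ≠ b := (H1).ne
  have D_a_p : a ≠ p := fun h => (H8) (h ▸ (H1))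
  have D_b_c : b ≠ c := (H2).ne
  have D_b_p : b ≠ p := fun h => (H7) (h ▸ (H1.symm))
  have D_c_p : c ≠ p := fun h => (H8) (h ▸ (H2.symm))
  apply ind_of G ![x, y, a, b, c, p]
  intro i j hij
  fin_cases i <;> fin_cases j
  · exact absurd hij (by decide)
  · exact ⟨D_x_y, fun _ => H0, fun _ => by decide⟩
  · exact ⟨D_x_a, fun h => absurd h (by decide), fun h => absurd h (H10)⟩
  · exact ⟨D_x_b, fun h => absurd h (by decide), fun h => absurd h (H11)⟩
  · exact ⟨D_x_c, fun h => absurd h (by decide), fun h => absurd h (H12)⟩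
  · exact ⟨D_x_p, fun h => absurd h (by decide), fun h => absurd h ((fun h => H5 h.symm))⟩
  · exact absurd hij (by decide)
  · exact absurd hij (by decide)
  · exact ⟨D_y_a, fun h => absurd h (by decide), fun h => absurd h (H13)⟩
  · exact ⟨D_y_b, fun h => absurd h (by decide), fun h => absurd h (H14)⟩
  · exact ⟨D_y_c, fun h => absurd h (by decide), fun h => absurd h (H15)⟩
  · exact ⟨D_y_p, fun h => absurd h (by decide), fun h => absurd h ((fun h => H6 h.symm))⟩
  · exact absurd hij (by decide)
  · exact absurd hij (by decide)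
  · exact absurd hij (by decide)
  · exact ⟨D_a_b, fun _ => H1, fun _ => by decide⟩
  · exact ⟨H3, fun h => absurd h (by decide), fun h => absurd h (H4)⟩
  · exact ⟨D_a_p, fun h => absurd h (by decide), fun h => absurd h ((fun h => H7 h.symm))⟩
  · exact absurd hij (by decide)
  · exact absurd hij (by decide)
  · exact absurd hij (by decide)
  · exact absurd hij (by decide)
  · exact ⟨D_b_c, fun _ => H2, fun _ => by decide⟩
  · exact ⟨D_b_p, fun h => absurd h (by decide), fun h => absurd h ((fun h => H8 h.symm))⟩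
  · exact absurd hij (by decide)
  · exact absurd hij (by decide)
  · exact absurd hij (by decide)
  · exact absurd hij (by decide)
  · exact absurd hij (by decide)
  · exact ⟨D_c_p, fun h => absurd h (by decide), fun h => absurd h ((fun h => H9 h.symm))⟩
  · exact absurd hij (by decide)
  · exact absurd hij (by decide)
  · exact absurd hij (by decide)
  · exact absurd hij (by decide)
  · exact absurd hij (by decide)
  · exact absurd hij (by decide)

/-- TARGET -/
theorem cv_2P1P3 (h : ¬g2P1P3.IsIndContained G) : No2P1P3 G := by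
  intro p q a b c H0 H1 H2 H3 H4 H5 H6 H7 H8 H9 H10 H11
  apply h
  have D_a_b : a ≠ b := (H0).ne
  have D_a_p : a ≠ p := fun h => (H7) (h ▸ (H0))
  have D_a_q : a ≠ q := fun h => (H10) (h ▸ (H0))
  have D_b_c : b ≠ c := (H1).ne
  have D_b_p : b ≠ p := fun h => (H6) (h ▸ (H0.symm))
  have D_b_q : b ≠ q := fun h => (H9) (h ▸ (H0.symm))
  have D_c_p : c ≠ p := fun h => (H7) (h ▸ (H1.symm))
  have D_c_q : c ≠ q := fun h => (H10) (h ▸ (H1.symm))
  apply ind_of G ![a, b, c, p, q]
  intro i j hij
  fin_cases i <;> fin_cases j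
  · exact absurd hij (by decide)
  · exact ⟨D_a_b, fun _ => H0, fun _ => by decide⟩
  · exact ⟨H2, fun h => absurd h (by decide), fun h => absurd h (H4)⟩
  · exact ⟨D_a_p, fun h => absurd h (by decide), fun h => absurd h ((fun h => H6 h.symm))⟩
  · exact ⟨D_a_q, fun h => absurd h (by decide), fun h => absurd h ((fun h => H9 h.symm))⟩
  · exact absurd hij (by decide)
  · exact absurd hij (by decide)
  · exact ⟨D_b_c, fun _ => H1, fun _ => by decide⟩
  · exact ⟨D_b_p, fun h => absurd h (by decide), fun h => absurd h ((fun h => H7 h.symm))⟩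
  · exact ⟨D_b_q, fun h => absurd h (by decide), fun h => absurd h ((fun h => H10 h.symm))⟩
  · exact absurd hij (by decide)
  · exact absurd hij (by decide)
  · exact absurd hij (by decide)
  · exact ⟨D_c_p, fun h => absurd h (by decide), fun h => absurd h ((fun h => H8 h.symm))⟩
  · exact ⟨D_c_q, fun h => absurd h (by decide), fun h => absurd h ((fun h => H11 h.symm))⟩
  · exact absurd hij (by decide)
  · exact absurd hij (by decide)
  · exact absurd hij (by decide)
  · exact absurd hij (by decide)
  · exact ⟨H3, fun h => absurd h (by decide), fun h => absurd h (H5)⟩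
  · exact absurd hij (by decide)
  · exact absurd hij (by decide)
  · exact absurd hij (by decide)
  · exact absurd hij (by decide)
  · exact absurd hij (by decide)

end Conv1

end Pool.Agent.Helper856.Cw
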