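import Pool.Agent.Helper856.Pair.Defs
import Pool.Agent.Helper856.Cw.Basic
import Pool.Agent.Helper856.Cw.Mixed
import Pool.Agent.Helper856.Cw.Triple

open Classical SimpleGraph

namespace Pool.Agent.Helper856.Cw

open Triple (triple_lemma)

namespace QCore

variable {V : Type} {G : SimpleGraph V} {S T : Finset V} {k l : ℕ}

/-- the classes -/
def CC (N U : ZMod 5 → Finset V) : Bool × ZMod 5 → Finset V
  | (false, i) => N i
  | (true, i) => U i

/-- the class `c` is contained in the triple `i` -/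
def InT (c : Bool × ZMod 5) (i : ZMod 5) : Prop :=
  c = (true, i) ∨ c = (false, i + 2) ∨ c = (false, i + 3)

lemma z5 (d : ZMod 5) : d = 0 ∨ d = 1 ∨ d = 2 ∨ d = 3 ∨ d = 4 := by
  revert d; decide

lemma InT_two (c : Bool × ZMod 5) (i j : ZMod 5) (hi : InT c i) (hj : InT c j) (hij : i ≠ j) :
    ∃ m, c = (false, m) ∧ ((i = m + 3 ∧ j = m + 2) ∨ (i = m + 2 ∧ j = m + 3)) := by
  have key : ∀ (c : Bool × ZMod 5) (i j : ZMod 5), (c = (true, i) ∨ c = (false, i + 2) ∨ c = (false, i + 3)) →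
      (c = (true, j) ∨ c = (false, j + 2) ∨ c = (false, j + 3)) → i ≠ j →
      (c.1 = false ∧ ((i = c.2 + 3 ∧ j = c.2 + 2) ∨ (i = c.2 + 2 ∧ j = c.2 + 3))) := by
    decide
  obtain ⟨h1, h2⟩ := key c i j hi hj hij
  refine ⟨c.2, ?_, h2⟩
  rw [← h1]

lemma SLin_sub (k : ℕ) (hk : 0 < k) (T : Finset V) (h : ∀ x ∈ T, ∀ y ∈ T, x = y) :
    SLin k G T := by
  refine ⟨fun _ => 0, fun x hx y hy _ => h x hx y hy, fun t => ⟨fun _ => ⟨0, hk⟩, ?_⟩⟩
  intro u hu v hv _ _ _ w hw _
  rw [h u hu v hv]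

/-- TARGET -/
theorem q_core (hK : Tri G) (hbip : Bip100 G) (N U : ZMod 5 → Finset V)
    (dN : ∀ i j, i ≠ j → Disjoint (N i) (N j)) (dU : ∀ i j, i ≠ j → Disjoint (U i) (U j))
    (dNU : ∀ i j, Disjoint (N i) (U j))
    (iN : ∀ i, Ind G (N i)) (iU : ∀ i, Ind G (U i))
    (u1 : ∀ i, ∀ x ∈ U i, ∀ y ∈ U (i + 1), G.Adj x y)
    (u2 : ∀ i, ∀ x ∈ U i, ∀ y ∈ U (i + 2), ¬G.Adj x y)
    (un0 : ∀ i, ∀ x ∈ U i, ∀ y ∈ N i, G.Adj x y)
    (un1 : ∀ i, ∀ x ∈ U i, ∀ y ∈ N (i + 1), ¬G.Adj x y)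
    (un4 : ∀ i, ∀ x ∈ U i, ∀ y ∈ N (i + 4), ¬G.Adj x y)
    (n2 : ∀ i, ∀ x ∈ N i, ∀ y ∈ N (i + 2), ¬G.Adj x y)
    (c1 : ∀ i, ∀ x ∈ N i, ∀ x' ∈ N i, ∀ y ∈ N (i + 1), ∀ y' ∈ N (i + 1), G.Adj x y →
      G.Adj x' y' → G.Adj x y' ∨ G.Adj x' y)
    (c2 : ∀ i, ∀ x ∈ U i, ∀ x' ∈ U i, ∀ y ∈ N (i + 3), ∀ y' ∈ N (i + 3), G.Adj x y →
      G.Adj x' y' → G.Adj x y' ∨ G.Adj x' y)
    (r1 : ∀ i, ∀ x ∈ N i, ∀ y ∈ N (i + 1), ∀ z ∈ N (i + 4), G.Adj x y ∨ G.Adj x z)
    (r2 : ∀ i, ∀ x ∈ N i, ∀ y ∈ N (i + 1), ∀ u ∈ U (i + 2), G.Adj x u → G.Adj x y)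
    (r3 : ∀ i, ∀ x ∈ N i, ∀ y ∈ N (i + 4), ∀ u ∈ U (i + 3), G.Adj x u → G.Adj x y)
    (r4 : ∀ i, ∀ u ∈ U i, ∀ x ∈ N (i + 2), ∀ y ∈ N (i + 3), G.Adj u x ∨ G.Adj u y ∨ G.Adj x y) :
    SLin (10 ^ 7) G (Finset.univ.biUnion N ∪ Finset.univ.biUnion U) := by
  have a1 : ∀ i : ZMod 5, i + 4 + 1 = i := by decide
  have a2 : ∀ i : ZMod 5, i + 3 + 2 = i := by decide
  have a3 : ∀ i : ZMod 5, i + 2 + 3 = i := by decide
  have a4 : ∀ i : ZMod 5, i + 1 + 4 = i := by decide
  have a5 : ∀ i : ZMod 5, i + 3 + 3 = i + 1 := by decide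
  have a6 : ∀ i : ZMod 5, i + 2 + 2 = i + 4 := by decide
  have a7 : ∀ i : ZMod 5, i + 2 + 1 = i + 3 := by decide
  -- the triples
  have hT : ∀ i, SLin 400 G (U i ∪ N (i + 2) ∪ N (i + 3)) := by
    intro i
    apply triple_lemma hK hbip (U i) (N (i + 2)) (N (i + 3)) (dNU _ _).symm (dNU _ _).symm
      (dN _ _ (by revert i; decide)) (iU i) (iN _) (iN _)
    · intro u hu a ha a' _ b hb _ h1 _ h3
      rcases r4 i u hu a ha b hb with h | h | h
      · exact absurd h h1
      · exact absurd h h3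
      · exact h
    · intro u hu a ha b hb b' _ _ h1 h2 _
      rcases r4 i u hu a ha b hb with h | h | h
      · exact absurd h h1
      · exact absurd h h2
      · exact h
    · intro u hu u' hu' b hb b' _ b'' hb'' _ h1 _ h3 h4 _ h6
      rcases c2 i u hu u' hu' b hb b'' hb'' h1 h6 with h | h
      · exact h3 h
      · exact h4 h
    · intro u hu u' hu' b hb b' _ b'' hb'' _ h1 _ h3 h4 _ h6
      rw [← a7] at hb hb''
      rcases c1 (i + 2) u hu u' hu' b hb b'' hb'' h1 h6 with h | h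
      · exact h3 h
      · exact h4 h
  -- complete or anticomplete pairs
  have hCA : ∀ c c', (∀ x ∈ CC N U c, ∀ y ∈ CC N U c', G.Adj x y) ∨
      (∀ x ∈ CC N U c, ∀ y ∈ CC N U c', ¬ G.Adj x y) ∨ ∃ i, InT c i ∧ InT c' i ∧ c ≠ c' := by
    rintro ⟨b, i⟩ ⟨b', j⟩
    obtain ⟨d, rfl⟩ : ∃ d, j = i + d := ⟨j - i, by ring⟩
    rcases b with _ | _ <;> rcases b' with _ | _
    · rcases z5 d with rfl | rfl | rfl | rfl | rfl
      · right; left; rw [add_zero]; exact iN i
      · right; right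
        refine ⟨i + 3, Or.inr (Or.inl ?_), Or.inr (Or.inr ?_), ?_⟩
        · rw [a2]
        · rw [a5]
        · revert i; decide
      · right; left; exact n2 i
      · right; left
        intro x hx y hy h
        have hx' : x ∈ N (i + 3 + 2) := by rw [a2]; exact hx
        exact n2 (i + 3) y hy x hx' h.symm
      · right; right
        refine ⟨i + 2, Or.inr (Or.inr ?_), Or.inr (Or.inl ?_), ?_⟩
        · rw [a3]
        · rw [a6]
        · revert i; decide
    · rcases z5 d with rfl | rfl | rfl | rfl | rfl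
      · left
        rw [add_zero]
        intro x hx y hy
        exact (un0 i y hy x hx).symm
      · right; left
        intro x hx y hy h
        have hx' : x ∈ N (i + 1 + 4) := by rw [a4]; exact hx
        exact un4 (i + 1) y hy x hx' h.symm
      · right; right
        refine ⟨i + 2, Or.inr (Or.inr ?_), Or.inl rfl, ?_⟩
        · rw [a3]
        · intro h; exact absurd (congrArg Prod.fst h) (by simp)
      · right; right
        refine ⟨i + 3, Or.inr (Or.inl ?_), Or.inl rfl, ?_⟩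
        · rw [a2]
        · intro h; exact absurd (congrArg Prod.fst h) (by simp)
      · right; left
        intro x hx y hy h
        have hx' : x ∈ N (i + 4 + 1) := by rw [a1]; exact hx
        exact un1 (i + 4) y hy x hx' h.symm
    · rcases z5 d with rfl | rfl | rfl | rfl | rfl
      · left; rw [add_zero]; exact un0 i
      · right; left; exact un1 i
      · right; right
        refine ⟨i, Or.inl rfl, Or.inr (Or.inl rfl), ?_⟩
        intro h; exact absurd (congrArg Prod.fst h) (by simp)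
      · right; right
        refine ⟨i, Or.inl rfl, Or.inr (Or.inr rfl), ?_⟩
        intro h; exact absurd (congrArg Prod.fst h) (by simp)
      · right; left; exact un4 i
    · rcases z5 d with rfl | rfl | rfl | rfl | rfl
      · right; left; rw [add_zero]; exact iU i
      · left; exact u1 i
      · right; left; exact u2 i
      · right; left
        intro x hx y hy h
        have hx' : x ∈ U (i + 3 + 2) := by rw [a2]; exact hx
        exact u2 (i + 3) y hy x hx' h.symm
      · left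
        intro x hx y hy
        have hx' : x ∈ U (i + 4 + 1) := by rw [a1]; exact hx
        exact (u1 (i + 4) y hy x hx').symm
  -- claim 1
  have h0 : ∀ m x, x ∈ N m → ∀ c' c'', InT c' (m + 3) → c' ≠ (false, m) → InT c'' (m + 2) →
      c'' ≠ (false, m) → Mix G (CC N U c') x → Mix G (CC N U c'') x → False := by
    intro m x hx c' c'' h1 h2 h3 h4 h5 h6
    have h1' : c' = (true, m + 3) ∨ c' = (false, m + 1) := by
      rcases h1 with h | h | h
      · exact Or.inl h
      · rw [a2] at h; exact absurd h h2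
      · rw [a5] at h; exact Or.inr h
    have h3' : c'' = (true, m + 2) ∨ c'' = (false, m + 4) := by
      rcases h3 with h | h | h
      · exact Or.inl h
      · rw [a6] at h; exact Or.inr h
      · rw [a3] at h; exact absurd h h4
    obtain ⟨⟨y1, hy1, hy1'⟩, ⟨y2, hy2, hy2'⟩⟩ := h5
    obtain ⟨⟨z1, hz1, hz1'⟩, ⟨z2, hz2, hz2'⟩⟩ := h6
    rcases h1' with rfl | rfl <;> rcases h3' with rfl | rfl
    · have : G.Adj z1 y1 := u1 (m + 2) z1 hz1 y1 (by rw [a7]; exact hy1)
      exact hK x z1 y1 hz1' this hy1'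
    · exact hz2' (r3 m x hx z2 hz2 y1 hy1 hy1')
    · exact hy2' (r2 m x hx y2 hy2 z1 hz1 hz1')
    · rcases r1 m x hx y2 hy2 z2 hz2 with h | h
      · exact hy2' h
      · exact hz2' h
  set S := Finset.univ.biUnion N ∪ Finset.univ.biUnion U with hS
  have hSc : ∀ x ∈ S, ∃ c, x ∈ CC N U c := by
    intro x hx
    rw [hS, Finset.mem_union, Finset.mem_biUnion, Finset.mem_biUnion] at hx
    rcases hx with ⟨i, _, hi⟩ | ⟨i, _, hi⟩
    · exact ⟨(false, i), hi⟩
    · exact ⟨(true, i), hi⟩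
  have hcl : ∃ cl : V → Bool × ZMod 5, ∀ x ∈ S, x ∈ CC N U (cl x) := by
    refine ⟨fun x => if h : ∃ c, x ∈ CC N U c then h.choose else (false, 0), fun x hx => ?_⟩
    have h := hSc x hx
    simp only [dif_pos h]
    exact h.choose_spec
  obtain ⟨cl, hcl⟩ := hcl
  -- the relation A
  set A : V → ZMod 5 → Prop := fun x i => InT (cl x) i ∧ ∃ c', InT c' i ∧ c' ≠ cl x ∧
    Mix G (CC N U c') x with hA
  have hA1 : ∀ x ∈ S, ∀ i j, A x i → A x j → i = j := by
    rintro x hx i j ⟨h1, c', h2, h3, h4⟩ ⟨h1', c'', h2', h3', h4'⟩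
    by_contra hij
    obtain ⟨m, hm, hh⟩ := InT_two _ i j h1 h1' hij
    have hxm := hcl x hx
    rw [hm] at hxm h3 h3'
    rcases hh with ⟨rfl, rfl⟩ | ⟨rfl, rfl⟩
    · exact h0 m x hxm c' c'' h2 h3 h2' h3' h4 h4'
    · exact h0 m x hxm c'' c' h2' h3' h2 h3 h4' h4
  have hcard : Fintype.card (Bool × ZMod 5) = 10 := by
    rw [Fintype.card_prod, Fintype.card_bool, ZMod.card]
  set e : Bool × ZMod 5 ≃ Fin 10 := Fintype.equivFinOfCardEq hcard with he
  set τ : V → Fin 10 := fun x => e (cl x) with hτ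
  set blk : V → ℕ := fun x => if h : ∃ i, A x i then h.choose.val else
    (if hx : x ∈ S then 5 + (S.equivFin ⟨x, hx⟩).val else 5) with hblk
  have hblk1 : ∀ x ∈ S, ∀ i, A x i → blk x = i.val := by
    intro x hx i hi
    have h : ∃ i, A x i := ⟨i, hi⟩
    simp only [hblk, dif_pos h]
    rw [hA1 x hx _ _ h.choose_spec hi]
  have hmain : SLin (10 * 2 ^ 10 * (400 + 1)) G S := by
    apply mixed_blocks τ blk
    · intro n
      by_cases hn : n < 5
      · apply (hT (n : ZMod 5)).subset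
        intro x hx
        rw [Finset.mem_filter] at hx
        obtain ⟨hxS, hxn⟩ := hx
        have hex : ∃ i, A x i := by
          by_contra hno
          simp only [hblk, dif_neg hno, dif_pos hxS] at hxn
          omega
        obtain ⟨i, hi⟩ := hex
        have h5 := hblk1 x hxS i hi
        have hin : (n : ZMod 5) = i := by
          rw [← hxn, h5, ZMod.natCast_zmod_val]
        rw [hin]
        have hxc := hcl x hxS
        rcases hi.1 with h | h | h
        · rw [h] at hxc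
          exact Finset.mem_union_left _ (Finset.mem_union_left _ hxc)
        · rw [h] at hxc
          exact Finset.mem_union_left _ (Finset.mem_union_right _ hxc)
        · rw [h] at hxc
          exact Finset.mem_union_right _ hxc
      · apply SLin_sub 400 (by norm_num)
        have hform : ∀ x, x ∈ S → blk x = n → ∃ hx : x ∈ S, 5 + (S.equivFin ⟨x, hx⟩).val = n := by
          intro x hx hxn
          by_cases hex : ∃ i, A x i
          · obtain ⟨i, hi⟩ := hex
            have := hblk1 x hx i hi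
            have h5 : i.val < 5 := ZMod.val_lt i
            omega
          · simp only [hblk, dif_neg hex, dif_pos hx] at hxn
            exact ⟨hx, hxn⟩
        intro x hx y hy
        rw [Finset.mem_filter] at hx hy
        obtain ⟨hx1, hx2⟩ := hform x hx.1 hx.2
        obtain ⟨hy1, hy2⟩ := hform y hy.1 hy.2
        have h6 : S.equivFin ⟨x, hx1⟩ = S.equivFin ⟨y, hy1⟩ := by
          apply Fin.ext
          omega
        have h7 := S.equivFin.injective h6
        exact congrArg Subtype.val h7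
    · intro u hu w hw hne
      by_contra hcon
      rw [not_or] at hcon
      obtain ⟨hcu, hcw⟩ := hcon
      have hmix : ∀ u w : V, ¬ Pure G S τ u (τ w) → Mix G (CC N U (cl w)) u := by
        intro u w hh
        unfold Pure at hh
        rw [not_or] at hh
        obtain ⟨hh1, hh2⟩ := hh
        push Not at hh1 hh2
        obtain ⟨x, hx, hx1, hx2⟩ := hh1
        obtain ⟨y, hy, hy1, hy2⟩ := hh2
        have hx3 : cl x = cl w := e.injective hx1
        have hy3 : cl y = cl w := e.injective hy1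
        exact ⟨⟨y, hy3 ▸ hcl y hy, hy2⟩, ⟨x, hx3 ▸ hcl x hx, hx2⟩⟩
      have m1 := hmix u w hcu
      have m2 := hmix w u hcw
      rcases hCA (cl u) (cl w) with h | h | ⟨i, hi1, hi2, hi3⟩
      · obtain ⟨_, y, hy, hy2⟩ := m1
        exact hy2 (h u (hcl u hu) y hy)
      · obtain ⟨⟨y, hy, hy2⟩, _⟩ := m1
        exact h u (hcl u hu) y hy hy2
      · have hAu : A u i := ⟨hi1, cl w, hi2, hi3.symm, m1⟩
        have hAw : A w i := ⟨hi2, cl u, hi1, hi3, m2⟩
        exact hne ((hblk1 u hu i hAu).trans (hblk1 w hw i hAw).symm)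
  exact hmain.mono_k (by norm_num)

end QCore

end Pool.Agent.Helper856.Cw
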