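import Pool.Agent.Helper856.Pair.Defs

open Classical SimpleGraph

namespace Pool.Agent.Helper856.Cw

namespace QFacts

variable {V : Type} {G : SimpleGraph V} {S T : Finset V} {k l : ℕ}

theorem shC {b : ZMod 5 → V} (hb : Cyc5 G b) (i : ZMod 5) : Cyc5 G (fun j => b (i + j)) := by
  intro j k
  rw [hb (i + j) (i + k)]
  constructor
  · rintro (h | h)
    · left; linear_combination h
    · right; linear_combination h
  · rintro (h | h)
    · left; linear_combination h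
    · right; linear_combination h

theorem shN {b : ZMod 5 → V} (i a : ZMod 5) {x : V} (hx : N5 G b (i + a) x) :
    N5 G (fun j => b (i + j)) a x := by
  refine ⟨hx.1, ?_⟩
  intro k
  rw [hx.2 (i + k)]
  constructor
  · rintro (h | h)
    · left; linear_combination h
    · right; linear_combination h
  · rintro (h | h)
    · left; linear_combination h
    · right; linear_combination h

theorem shU {b : ZMod 5 → V} (i a : ZMod 5) {x : V} (hx : U5 G b (i + a) x) :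
    U5 G (fun j => b (i + j)) a x := by
  intro k
  rw [hx (i + k)]
  constructor
  · intro h; linear_combination h
  · intro h; linear_combination h

theorem shZ {b : ZMod 5 → V} (i : ZMod 5) {x : V} (hx : Z5 G b x) :
    Z5 G (fun j => b (i + j)) x := fun k => hx (i + k)

theorem shN0 {b : ZMod 5 → V} (i : ZMod 5) {x : V} (hx : N5 G b i x) :
    N5 G (fun j => b (i + j)) 0 x := shN i 0 (by simpa using hx)

theorem shU0 {b : ZMod 5 → V} (i : ZMod 5) {x : V} (hx : U5 G b i x) :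
    U5 G (fun j => b (i + j)) 0 x := shU i 0 (by simpa using hx)

theorem q1z (hK : Tri G) (hQ : NoQ G) {b : ZMod 5 → V} (hb : Cyc5 G b) {z u : V} (hz : Z5 G b z) (hu : U5 G b 0 u) : ¬G.Adj z u := by
  intro h
  exact hQ (b 0) (b 1) (b 4) (b 3) u z
      ((hb 0 1).2 (by decide))
      ((hb 0 4).2 (by decide))
      ((hb 4 3).2 (by decide))
      (SimpleGraph.Adj.symm ((hu 0).2 (by decide)))
      (SimpleGraph.Adj.symm h)
      (fun h0 => absurd ((hb 1 3).1 h0) (by decide))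
      (fun h1 => (hz 1) (SimpleGraph.Adj.symm h1))
      (fun h1 => (hz 4) (SimpleGraph.Adj.symm h1))
      (fun h1 => (fun h0 => absurd ((hu 3).1 h0) (by decide)) (SimpleGraph.Adj.symm h1))
      (fun h1 => (hz 3) (SimpleGraph.Adj.symm h1))

theorem q2z (hK : Tri G) (hQ : NoQ G) {b : ZMod 5 → V} (hb : Cyc5 G b) {z x : V} (hz : Z5 G b z) (hx : N5 G b 0 x) : ¬G.Adj z x := by
  intro h
  exact hQ (b 1) (b 0) (b 2) (b 3) x z
      ((hb 1 0).2 (by decide))
      ((hb 1 2).2 (by decide))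
      ((hb 2 3).2 (by decide))
      (SimpleGraph.Adj.symm ((hx.2 1).2 (by decide)))
      (SimpleGraph.Adj.symm h)
      (fun h0 => absurd ((hb 0 3).1 h0) (by decide))
      (fun h1 => (hz 0) (SimpleGraph.Adj.symm h1))
      (fun h1 => (hz 2) (SimpleGraph.Adj.symm h1))
      (fun h1 => (fun h0 => absurd ((hx.2 3).1 h0) (by decide)) (SimpleGraph.Adj.symm h1))
      (fun h1 => (hz 3) (SimpleGraph.Adj.symm h1))

theorem q3z (hK : Tri G) (hQ : NoQ G) {b : ZMod 5 → V} (hb : Cyc5 G b) {u v : V} (hu : U5 G b 0 u) (hv : U5 G b 1 v) : G.Adj u v := by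
  by_contra h
  exact hQ (b 0) u (b 1) v (b 4) (b 3)
      (SimpleGraph.Adj.symm ((hu 0).2 (by decide)))
      ((hb 0 1).2 (by decide))
      (SimpleGraph.Adj.symm ((hv 1).2 (by decide)))
      ((hb 0 4).2 (by decide))
      ((hb 4 3).2 (by decide))
      h
      (fun h0 => absurd ((hu 3).1 h0) (by decide))
      (fun h0 => absurd ((hb 1 3).1 h0) (by decide))
      (fun h0 => absurd ((hv 4).1 h0) (by decide))
      (fun h0 => absurd ((hv 3).1 h0) (by decide))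

theorem q4z (hK : Tri G) (hQ : NoQ G) {b : ZMod 5 → V} (hb : Cyc5 G b) {u v : V} (hu : U5 G b 0 u) (hv : U5 G b 2 v) : ¬G.Adj u v := by
  intro h
  exact hQ (b 0) (b 1) (b 4) (b 3) u v
      ((hb 0 1).2 (by decide))
      ((hb 0 4).2 (by decide))
      ((hb 4 3).2 (by decide))
      (SimpleGraph.Adj.symm ((hu 0).2 (by decide)))
      h
      (fun h0 => absurd ((hb 1 3).1 h0) (by decide))
      (fun h1 => (fun h0 => absurd ((hv 1).1 h0) (by decide)) (SimpleGraph.Adj.symm h1))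
      (fun h1 => (fun h0 => absurd ((hv 4).1 h0) (by decide)) (SimpleGraph.Adj.symm h1))
      (fun h1 => (fun h0 => absurd ((hu 3).1 h0) (by decide)) (SimpleGraph.Adj.symm h1))
      (fun h1 => (fun h0 => absurd ((hv 3).1 h0) (by decide)) (SimpleGraph.Adj.symm h1))

theorem q5z (hK : Tri G) (hQ : NoQ G) {b : ZMod 5 → V} (hb : Cyc5 G b) {u x : V} (hu : U5 G b 0 u) (hx : N5 G b 0 x) : G.Adj u x := by
  by_contra h
  exact hQ (b 1) x (b 0) u (b 2) (b 3)
      (SimpleGraph.Adj.symm ((hx.2 1).2 (by decide)))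
      ((hb 1 0).2 (by decide))
      (SimpleGraph.Adj.symm ((hu 0).2 (by decide)))
      ((hb 1 2).2 (by decide))
      ((hb 2 3).2 (by decide))
      (fun h1 => h (SimpleGraph.Adj.symm h1))
      (fun h0 => absurd ((hx.2 3).1 h0) (by decide))
      (fun h0 => absurd ((hb 0 3).1 h0) (by decide))
      (fun h0 => absurd ((hu 2).1 h0) (by decide))
      (fun h0 => absurd ((hu 3).1 h0) (by decide))

theorem q6z (hK : Tri G) (hQ : NoQ G) {b : ZMod 5 → V} (hb : Cyc5 G b) {x y x2 y2 : V} (hx : N5 G b 0 x) (hx2 : N5 G b 0 x2) (hy : N5 G b 1 y) (hy2 : N5 G b 1 y2) (h1 : G.Adj x y) (h2 : G.Adj x2 y2) : G.Adj x y2 ∨ G.Adj x2 y := by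
  by_contra h
  push Not at h
  obtain ⟨h3, h4⟩ := h
  exact hQ (b 2) (b 3) y x y2 x2
      ((hb 2 3).2 (by decide))
      (SimpleGraph.Adj.symm ((hy.2 2).2 (by decide)))
      (SimpleGraph.Adj.symm h1)
      (SimpleGraph.Adj.symm ((hy2.2 2).2 (by decide)))
      (SimpleGraph.Adj.symm h2)
      (fun h1 => (fun h0 => absurd ((hx.2 3).1 h0) (by decide)) (SimpleGraph.Adj.symm h1))
      (fun h1 => (fun h0 => absurd ((hx2.2 3).1 h0) (by decide)) (SimpleGraph.Adj.symm h1))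
      (fun h1 => h4 (SimpleGraph.Adj.symm h1))
      h3
      (fun h1 => hK _ _ _ ((hx.2 1).2 (by decide)) (SimpleGraph.Adj.symm ((hx2.2 1).2 (by decide))) h1)

theorem q7z (hK : Tri G) (hQ : NoQ G) {b : ZMod 5 → V} (hb : Cyc5 G b) {x y x2 y2 : V} (hx : U5 G b 0 x) (hx2 : U5 G b 0 x2) (hy : N5 G b 2 y) (hy2 : N5 G b 2 y2) (h1 : G.Adj x y) (h2 : G.Adj x2 y2) : G.Adj x y2 ∨ G.Adj x2 y := by
  by_contra h
  push Not at h
  obtain ⟨h3, h4⟩ := h
  exact hQ (b 0) (b 4) x y x2 y2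
      ((hb 0 4).2 (by decide))
      (SimpleGraph.Adj.symm ((hx 0).2 (by decide)))
      h1
      (SimpleGraph.Adj.symm ((hx2 0).2 (by decide)))
      h2
      (fun h1 => (fun h0 => absurd ((hy.2 4).1 h0) (by decide)) (SimpleGraph.Adj.symm h1))
      (fun h1 => (fun h0 => absurd ((hy2.2 4).1 h0) (by decide)) (SimpleGraph.Adj.symm h1))
      h3
      (fun h1 => h4 (SimpleGraph.Adj.symm h1))
      (fun h1 => hK _ _ _ ((hy.2 1).2 (by decide)) (SimpleGraph.Adj.symm ((hy2.2 1).2 (by decide))) h1)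

theorem q8z (hK : Tri G) (hQ : NoQ G) {b : ZMod 5 → V} (hb : Cyc5 G b) {x y x2 y2 : V} (hx : U5 G b 0 x) (hx2 : U5 G b 0 x2) (hy : N5 G b 3 y) (hy2 : N5 G b 3 y2) (h1 : G.Adj x y) (h2 : G.Adj x2 y2) : G.Adj x y2 ∨ G.Adj x2 y := by
  by_contra h
  push Not at h
  obtain ⟨h3, h4⟩ := h
  exact hQ (b 0) (b 1) x y x2 y2
      ((hb 0 1).2 (by decide))
      (SimpleGraph.Adj.symm ((hx 0).2 (by decide)))
      h1
      (SimpleGraph.Adj.symm ((hx2 0).2 (by decide)))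
      h2
      (fun h1 => (fun h0 => absurd ((hy.2 1).1 h0) (by decide)) (SimpleGraph.Adj.symm h1))
      (fun h1 => (fun h0 => absurd ((hy2.2 1).1 h0) (by decide)) (SimpleGraph.Adj.symm h1))
      h3
      (fun h1 => h4 (SimpleGraph.Adj.symm h1))
      (fun h1 => hK _ _ _ ((hy.2 2).2 (by decide)) (SimpleGraph.Adj.symm ((hy2.2 2).2 (by decide))) h1)

theorem q9z (hK : Tri G) (hQ : NoQ G) {b : ZMod 5 → V} (hb : Cyc5 G b) {x y z : V} (hx : N5 G b 0 x) (hy : N5 G b 1 y) (hz : N5 G b 4 z) : G.Adj x y ∨ G.Adj x z := by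
  by_contra h
  push Not at h
  obtain ⟨h3, h4⟩ := h
  exact hQ (b 0) y (b 1) x z (b 3)
      (SimpleGraph.Adj.symm ((hy.2 0).2 (by decide)))
      ((hb 0 1).2 (by decide))
      (SimpleGraph.Adj.symm ((hx.2 1).2 (by decide)))
      (SimpleGraph.Adj.symm ((hz.2 0).2 (by decide)))
      ((hz.2 3).2 (by decide))
      (fun h1 => h3 (SimpleGraph.Adj.symm h1))
      (fun h0 => absurd ((hy.2 3).1 h0) (by decide))
      (fun h0 => absurd ((hb 1 3).1 h0) (by decide))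
      h4
      (fun h0 => absurd ((hx.2 3).1 h0) (by decide))

theorem q10z (hK : Tri G) (hQ : NoQ G) {b : ZMod 5 → V} (hb : Cyc5 G b) {x y u : V} (hx : N5 G b 0 x) (hy : N5 G b 1 y) (hu : U5 G b 2 u) (h : G.Adj x u) : G.Adj x y := by
  by_contra h3
  exact hQ (b 2) (b 3) y (b 0) u x
      ((hb 2 3).2 (by decide))
      (SimpleGraph.Adj.symm ((hy.2 2).2 (by decide)))
      ((hy.2 0).2 (by decide))
      (SimpleGraph.Adj.symm ((hu 2).2 (by decide)))
      (SimpleGraph.Adj.symm h)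
      (fun h0 => absurd ((hb 3 0).1 h0) (by decide))
      (fun h1 => (fun h0 => absurd ((hx.2 3).1 h0) (by decide)) (SimpleGraph.Adj.symm h1))
      (fun h1 => h3 (SimpleGraph.Adj.symm h1))
      (fun h1 => (fun h0 => absurd ((hu 0).1 h0) (by decide)) (SimpleGraph.Adj.symm h1))
      (fun h1 => (fun h0 => absurd ((hx.2 0).1 h0) (by decide)) (SimpleGraph.Adj.symm h1))

theorem q11z (hK : Tri G) (hQ : NoQ G) {b : ZMod 5 → V} (hb : Cyc5 G b) {x y u : V} (hx : N5 G b 0 x) (hy : N5 G b 4 y) (hu : U5 G b 3 u) (h : G.Adj x u) : G.Adj x y := by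
  by_contra h3
  exact hQ (b 3) (b 2) y (b 0) u x
      ((hb 3 2).2 (by decide))
      (SimpleGraph.Adj.symm ((hy.2 3).2 (by decide)))
      ((hy.2 0).2 (by decide))
      (SimpleGraph.Adj.symm ((hu 3).2 (by decide)))
      (SimpleGraph.Adj.symm h)
      (fun h0 => absurd ((hb 2 0).1 h0) (by decide))
      (fun h1 => (fun h0 => absurd ((hx.2 2).1 h0) (by decide)) (SimpleGraph.Adj.symm h1))
      (fun h1 => h3 (SimpleGraph.Adj.symm h1))
      (fun h1 => (fun h0 => absurd ((hu 0).1 h0) (by decide)) (SimpleGraph.Adj.symm h1))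
      (fun h1 => (fun h0 => absurd ((hx.2 0).1 h0) (by decide)) (SimpleGraph.Adj.symm h1))

theorem q12z (hK : Tri G) (hQ : NoQ G) {b : ZMod 5 → V} (hb : Cyc5 G b) {x y u : V} (hu : U5 G b 0 u) (hx : N5 G b 2 x) (hy : N5 G b 3 y) : G.Adj u x ∨ G.Adj u y ∨ G.Adj x y := by
  by_contra h
  push Not at h
  obtain ⟨h3, h4, h5⟩ := h
  exact hQ (b 0) u (b 1) x (b 4) y
      (SimpleGraph.Adj.symm ((hu 0).2 (by decide)))
      ((hb 0 1).2 (by decide))
      (SimpleGraph.Adj.symm ((hx.2 1).2 (by decide)))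
      ((hb 0 4).2 (by decide))
      (SimpleGraph.Adj.symm ((hy.2 4).2 (by decide)))
      h3
      h4
      (fun h1 => (fun h0 => absurd ((hy.2 1).1 h0) (by decide)) (SimpleGraph.Adj.symm h1))
      (fun h0 => absurd ((hx.2 4).1 h0) (by decide))
      h5

/-- TARGET -/
theorem q1 (hK : Tri G) (hQ : NoQ G) {b : ZMod 5 → V} (hb : Cyc5 G b) (i : ZMod 5) {z u : V} (hz : Z5 G b z)
    (hu : U5 G b i u) : ¬G.Adj z u := by
  exact q1z hK hQ (shC hb i) (shZ i hz) (shU0 i hu)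

/-- TARGET -/
theorem q2 (hK : Tri G) (hQ : NoQ G) {b : ZMod 5 → V} (hb : Cyc5 G b) (i : ZMod 5) {z x : V} (hz : Z5 G b z)
    (hx : N5 G b i x) : ¬G.Adj z x := by
  exact q2z hK hQ (shC hb i) (shZ i hz) (shN0 i hx)

/-- TARGET -/
theorem q3 (hK : Tri G) (hQ : NoQ G) {b : ZMod 5 → V} (hb : Cyc5 G b) (i : ZMod 5) {u v : V} (hu : U5 G b i u)
    (hv : U5 G b (i + 1) v) : G.Adj u v := by
  exact q3z hK hQ (shC hb i) (shU0 i hu) (shU i 1 hv)

/-- TARGET -/
theorem q4 (hK : Tri G) (hQ : NoQ G) {b : ZMod 5 → V} (hb : Cyc5 G b) (i : ZMod 5) {u v : V} (hu : U5 G b i u)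
    (hv : U5 G b (i + 2) v) : ¬G.Adj u v := by
  exact q4z hK hQ (shC hb i) (shU0 i hu) (shU i 2 hv)

/-- TARGET -/
theorem q5 (hK : Tri G) (hQ : NoQ G) {b : ZMod 5 → V} (hb : Cyc5 G b) (i : ZMod 5) {u x : V} (hu : U5 G b i u)
    (hx : N5 G b i x) : G.Adj u x := by
  exact q5z hK hQ (shC hb i) (shU0 i hu) (shN0 i hx)

/-- TARGET -/
theorem q6 (hK : Tri G) (hQ : NoQ G) {b : ZMod 5 → V} (hb : Cyc5 G b) (i : ZMod 5) {x y x2 y2 : V} (hx : N5 G b i x)
    (hx2 : N5 G b i x2) (hy : N5 G b (i + 1) y) (hy2 : N5 G b (i + 1) y2) (h1 : G.Adj x y)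
    (h2 : G.Adj x2 y2) : G.Adj x y2 ∨ G.Adj x2 y := by
  exact q6z hK hQ (shC hb i) (shN0 i hx) (shN0 i hx2) (shN i 1 hy) (shN i 1 hy2) h1 h2

/-- TARGET -/
theorem q7 (hK : Tri G) (hQ : NoQ G) {b : ZMod 5 → V} (hb : Cyc5 G b) (i : ZMod 5) {x y x2 y2 : V} (hx : U5 G b i x)
    (hx2 : U5 G b i x2) (hy : N5 G b (i + 2) y) (hy2 : N5 G b (i + 2) y2) (h1 : G.Adj x y)
    (h2 : G.Adj x2 y2) : G.Adj x y2 ∨ G.Adj x2 y := by
  exact q7z hK hQ (shC hb i) (shU0 i hx) (shU0 i hx2) (shN i 2 hy) (shN i 2 hy2) h1 h2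

/-- TARGET -/
theorem q8 (hK : Tri G) (hQ : NoQ G) {b : ZMod 5 → V} (hb : Cyc5 G b) (i : ZMod 5) {x y x2 y2 : V} (hx : U5 G b i x)
    (hx2 : U5 G b i x2) (hy : N5 G b (i + 3) y) (hy2 : N5 G b (i + 3) y2) (h1 : G.Adj x y)
    (h2 : G.Adj x2 y2) : G.Adj x y2 ∨ G.Adj x2 y := by
  exact q8z hK hQ (shC hb i) (shU0 i hx) (shU0 i hx2) (shN i 3 hy) (shN i 3 hy2) h1 h2

/-- TARGET -/
theorem q9 (hK : Tri G) (hQ : NoQ G) {b : ZMod 5 → V} (hb : Cyc5 G b) (i : ZMod 5) {x y z : V} (hx : N5 G b i x)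
    (hy : N5 G b (i + 1) y) (hz : N5 G b (i + 4) z) : G.Adj x y ∨ G.Adj x z := by
  exact q9z hK hQ (shC hb i) (shN0 i hx) (shN i 1 hy) (shN i 4 hz)

/-- TARGET -/
theorem q10 (hK : Tri G) (hQ : NoQ G) {b : ZMod 5 → V} (hb : Cyc5 G b) (i : ZMod 5) {x y u : V} (hx : N5 G b i x)
    (hy : N5 G b (i + 1) y) (hu : U5 G b (i + 2) u) (h : G.Adj x u) : G.Adj x y := by
  exact q10z hK hQ (shC hb i) (shN0 i hx) (shN i 1 hy) (shU i 2 hu) h

/-- TARGET -/
theorem q11 (hK : Tri G) (hQ : NoQ G) {b : ZMod 5 → V} (hb : Cyc5 G b) (i : ZMod 5) {x y u : V} (hx : N5 G b i x)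
    (hy : N5 G b (i + 4) y) (hu : U5 G b (i + 3) u) (h : G.Adj x u) : G.Adj x y := by
  exact q11z hK hQ (shC hb i) (shN0 i hx) (shN i 4 hy) (shU i 3 hu) h

/-- TARGET -/
theorem q12 (hK : Tri G) (hQ : NoQ G) {b : ZMod 5 → V} (hb : Cyc5 G b) (i : ZMod 5) {x y u : V} (hu : U5 G b i u)
    (hx : N5 G b (i + 2) x) (hy : N5 G b (i + 3) y) : G.Adj u x ∨ G.Adj u y ∨ G.Adj x y := by
  exact q12z hK hQ (shC hb i) (shU0 i hu) (shN i 2 hx) (shN i 3 hy)

end QFacts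

end Pool.Agent.Helper856.Cw
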