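import Pool.Agent.Helper856.Pair.Defs
import Pool.Agent.Helper856.Cw.Basic
import Pool.Agent.Helper856.Pair.QFacts
import Pool.Agent.Helper856.Pair.QCore

open Classical SimpleGraph

namespace Pool.Agent.Helper856.Cw

open QFacts (q1 q2 q3 q4 q5 q6 q7 q8 q9 q10 q11 q12)
open QCore (q_core)

namespace QC5

variable {V : Type} {G : SimpleGraph V} {S T : Finset V} {k l : ℕ}

theorem z5_all : ∀ i j : ZMod 5, j = i ∨ j = i + 1 ∨ j = i + 2 ∨ j = i + 3 ∨ j = i + 4 := by
  decide

theorem z5_a : ∀ i : ZMod 5, i + 4 + 1 = i := by decide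
theorem z5_b : ∀ i : ZMod 5, i + 1 + 1 = i + 2 := by decide
theorem z5_c : ∀ i : ZMod 5, i + 2 + 1 = i + 3 := by decide
theorem z5_d : ∀ i : ZMod 5, i + 3 + 1 = i + 4 := by decide
theorem z5_n1 : ∀ i : ZMod 5, i + 1 ≠ i := by decide
theorem z5_n2 : ∀ i : ZMod 5, i + 2 ≠ i := by decide
theorem z5_n3 : ∀ i : ZMod 5, i + 3 ≠ i := by decide
theorem z5_n4 : ∀ i : ZMod 5, i + 4 ≠ i := by decide
theorem z5_inj : ∀ i j : ZMod 5, (∀ k : ZMod 5, (k = i + 1 ∨ i = k + 1) ↔ (k = j + 1 ∨ j = k + 1)) →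
    i = j := by decide
theorem z5_14 : ∀ i : ZMod 5, i + 1 ≠ i + 4 := by decide
theorem z5_N1 : ∀ i j : ZMod 5, (j = i + 1 + 1 ∨ i + 1 = j + 1) ↔ (j = i ∨ j = i + 2) := by decide
theorem z5_N4 : ∀ i j : ZMod 5, (j = i + 4 + 1 ∨ i + 4 = j + 1) ↔ (j = i ∨ j = i + 3) := by decide

theorem class5 (hK : Tri G) {b : ZMod 5 → V} (hb : Cyc5 G b) (x : V) :
    (∃ j, x = b j) ∨ (∃ i, N5 G b i x) ∨ (∃ i, U5 G b i x) ∨ Z5 G b x := by
  by_cases hon : ∃ j, x = b j
  · exact Or.inl hon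
  by_cases hz : Z5 G b x
  · exact Or.inr (Or.inr (Or.inr hz))
  have hcons : ∀ j, G.Adj x (b j) → ¬ G.Adj x (b (j + 1)) := by
    intro j h1 h2
    exact hK x (b j) (b (j + 1)) h1 ((hb j (j + 1)).2 (Or.inl rfl)) h2
  unfold Z5 at hz
  push Not at hz
  obtain ⟨i, hi⟩ := hz
  have n1 : ¬ G.Adj x (b (i + 1)) := hcons i hi
  have n4 : ¬ G.Adj x (b (i + 4)) := by
    intro h
    have := hcons (i + 4) h
    rw [z5_a] at this
    exact this hi
  have hn : ∀ j, x ≠ b j := fun j hj => hon ⟨j, hj⟩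
  by_cases h2 : G.Adj x (b (i + 2))
  · have n3 : ¬ G.Adj x (b (i + 3)) := by
      have := hcons (i + 2) h2
      rwa [z5_c] at this
    refine Or.inr (Or.inl ⟨i + 1, hn _, fun j => ?_⟩)
    rw [z5_N1]
    constructor
    · intro hj
      rcases z5_all i j with rfl | rfl | rfl | rfl | rfl
      · exact Or.inl rfl
      · exact absurd hj n1
      · exact Or.inr rfl
      · exact absurd hj n3
      · exact absurd hj n4
    · rintro (rfl | rfl)
      · exact hi
      · exact h2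
  · by_cases h3 : G.Adj x (b (i + 3))
    · refine Or.inr (Or.inl ⟨i + 4, hn _, fun j => ?_⟩)
      rw [z5_N4]
      constructor
      · intro hj
        rcases z5_all i j with rfl | rfl | rfl | rfl | rfl
        · exact Or.inl rfl
        · exact absurd hj n1
        · exact absurd hj h2
        · exact Or.inr rfl
        · exact absurd hj n4
      · rintro (rfl | rfl)
        · exact hi
        · exact h3
    · refine Or.inr (Or.inr (Or.inl ⟨i, fun j => ?_⟩))
      constructor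
      · intro hj
        rcases z5_all i j with rfl | rfl | rfl | rfl | rfl
        · rfl
        · exact absurd hj n1
        · exact absurd hj h2
        · exact absurd hj h3
        · exact absurd hj n4
      · rintro rfl
        exact hi

/-- TARGET -/
theorem q_c5 (hK : Tri G) (hQ : NoQ G) (hbip : Bip100 G) (S : Finset V) (hc : Conn G S)
    {b : ZMod 5 → V} (hbS : ∀ i, b i ∈ S) (hb : Cyc5 G b) : SLin (10 ^ 7 + 5) G S := by
  have hX : S.filter (fun x => (∃ j, x = b j) ∨ (∃ i, N5 G b i x) ∨ (∃ i, U5 G b i x)) = S := by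
    by_contra hne
    obtain ⟨u, hu, v, hv, huv⟩ := hc _ (Finset.filter_subset _ _)
      ⟨b 0, Finset.mem_filter.2 ⟨hbS 0, Or.inl ⟨0, rfl⟩⟩⟩ hne
    rw [Finset.mem_sdiff] at hv
    have hvz : Z5 G b v := by
      rcases class5 hK hb v with h | h | h | h
      · exact absurd (Finset.mem_filter.2 ⟨hv.1, Or.inl h⟩) hv.2
      · exact absurd (Finset.mem_filter.2 ⟨hv.1, Or.inr (Or.inl h)⟩) hv.2
      · exact absurd (Finset.mem_filter.2 ⟨hv.1, Or.inr (Or.inr h)⟩) hv.2
      · exact h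
    rcases (Finset.mem_filter.1 hu).2 with ⟨j, rfl⟩ | ⟨i, hi⟩ | ⟨i, hi⟩
    · exact hvz j huv.symm
    · exact q2 hK hQ hb i hvz hi huv.symm
    · exact q1 hK hQ hb i hvz hi huv.symm
  let N : ZMod 5 → Finset V := fun i => S.filter (fun x => N5 G b i x)
  let U : ZMod 5 → Finset V := fun i => S.filter (fun x => U5 G b i x)
  have mN : ∀ i x, x ∈ N i → N5 G b i x := fun i x h => (Finset.mem_filter.1 h).2
  have mU : ∀ i x, x ∈ U i → U5 G b i x := fun i x h => (Finset.mem_filter.1 h).2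
  have aN1 : ∀ i x, N5 G b i x → G.Adj x (b (i + 1)) := fun i x h => (h.2 _).2 (Or.inl rfl)
  have aN4 : ∀ i x, N5 G b i x → G.Adj x (b (i + 4)) := fun i x h =>
    (h.2 _).2 (Or.inr (z5_a i).symm)
  have aU : ∀ i x, U5 G b i x → G.Adj x (b i) := fun i x h => (h _).2 rfl
  have key := q_core hK hbip N U
    (by
      intro i j hij
      rw [Finset.disjoint_left]
      intro x hx hx'
      apply hij
      apply z5_inj
      intro k
      rw [← (mN i x hx).2 k, ← (mN j x hx').2 k])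
    (by
      intro i j hij
      rw [Finset.disjoint_left]
      intro x hx hx'
      exact hij ((mU j x hx' i).1 (aU i x (mU i x hx))))
    (by
      intro i j
      rw [Finset.disjoint_left]
      intro x hx hx'
      have h1 := (mU j x hx' (i + 1)).1 (aN1 i x (mN i x hx))
      have h2 := (mU j x hx' (i + 4)).1 (aN4 i x (mN i x hx))
      exact z5_14 i (h1.trans h2.symm))
    (by
      intro i x hx y hy h
      exact hK x y (b (i + 1)) h (aN1 i y (mN i y hy)) (aN1 i x (mN i x hx)))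
    (by
      intro i x hx y hy h
      exact hK x y (b i) h (aU i y (mU i y hy)) (aU i x (mU i x hx)))
    (fun i x hx y hy => q3 hK hQ hb i (mU _ _ hx) (mU _ _ hy))
    (fun i x hx y hy => q4 hK hQ hb i (mU _ _ hx) (mU _ _ hy))
    (fun i x hx y hy => q5 hK hQ hb i (mU _ _ hx) (mN _ _ hy))
    (by
      intro i x hx y hy h
      have h1 : G.Adj y (b i) := ((mN _ _ hy).2 i).2 (Or.inr rfl)
      exact hK x y (b i) h h1 (aU i x (mU i x hx)))
    (by
      intro i x hx y hy h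
      have h1 : G.Adj y (b i) := ((mN _ _ hy).2 i).2 (Or.inl (z5_a i).symm)
      exact hK x y (b i) h h1 (aU i x (mU i x hx)))
    (by
      intro i x hx y hy h
      have h1 : G.Adj y (b (i + 1)) := ((mN _ _ hy).2 (i + 1)).2 (Or.inr (z5_b i).symm)
      exact hK x y (b (i + 1)) h h1 (aN1 i x (mN i x hx)))
    (fun i x hx x' hx' y hy y' hy' h1 h2 =>
      q6 hK hQ hb i (mN _ _ hx) (mN _ _ hx') (mN _ _ hy) (mN _ _ hy') h1 h2)
    (fun i x hx x' hx' y hy y' hy' h1 h2 =>
      q8 hK hQ hb i (mU _ _ hx) (mU _ _ hx') (mN _ _ hy) (mN _ _ hy') h1 h2)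
    (fun i x hx y hy z hz => q9 hK hQ hb i (mN _ _ hx) (mN _ _ hy) (mN _ _ hz))
    (fun i x hx y hy u hu h => q10 hK hQ hb i (mN _ _ hx) (mN _ _ hy) (mU _ _ hu) h)
    (fun i x hx y hy u hu h => q11 hK hQ hb i (mN _ _ hx) (mN _ _ hy) (mU _ _ hu) h)
    (fun i u hu x hx y hy => q12 hK hQ hb i (mU _ _ hu) (mN _ _ hx) (mN _ _ hy))
  have hsub : S \ Finset.univ.image b ⊆ Finset.univ.biUnion N ∪ Finset.univ.biUnion U := by
    intro x hx
    rw [Finset.mem_sdiff] at hx
    have hxX : x ∈ S.filter (fun x => (∃ j, x = b j) ∨ (∃ i, N5 G b i x) ∨ (∃ i, U5 G b i x)) := by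
      rw [hX]; exact hx.1
    rw [Finset.mem_union, Finset.mem_biUnion, Finset.mem_biUnion]
    rcases (Finset.mem_filter.1 hxX).2 with ⟨j, rfl⟩ | ⟨i, hi⟩ | ⟨i, hi⟩
    · exact absurd (Finset.mem_image_of_mem b (Finset.mem_univ j)) hx.2
    · exact Or.inl ⟨i, Finset.mem_univ i, Finset.mem_filter.2 ⟨hx.1, hi⟩⟩
    · exact Or.inr ⟨i, Finset.mem_univ i, Finset.mem_filter.2 ⟨hx.1, hi⟩⟩
  have h1 := SLin.add (Finset.univ.image b) (key.subset hsub)
  refine h1.mono_k ?_
  have h2 : (Finset.univ.image b).card ≤ 5 := by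
    refine Finset.card_image_le.trans ?_
    rw [Finset.card_univ, ZMod.card]
  omega

end QC5

end Pool.Agent.Helper856.Cw
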