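import Pool.Agent.Helper856.Pair.Defs
import Pool.Agent.Helper856.Cw.Basic
import Pool.Agent.Helper856.Pair.Deg2
import Pool.Agent.Helper856.Pair.Modules

open Classical SimpleGraph

namespace Pool.Agent.Helper856.Cw

open Deg2 (slin_deg2)
open Modules (slin_modules)

namespace QLong

variable {V : Type} {G : SimpleGraph V} {S T : Finset V} {k l : ℕ}

lemma zsmall {n : ℕ} (hn : 7 ≤ n) (d : ℤ) (hd : d ≠ 0) (h1 : d < 7) (h2 : -7 < d) :
    ((d:ℤ) : ZMod n) ≠ 0 := by
  intro h
  rw [CharP.intCast_eq_zero_iff (ZMod n) n] at h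
  apply hd
  apply Int.eq_zero_of_abs_lt_dvd h
  rw [abs_lt]
  constructor <;> omega

lemma zno {n : ℕ} (hn : 7 ≤ n) (i j : ZMod n) (d : ℤ) (hd : j - i = d)
    (h : (2 ≤ d ∧ d ≤ 5) ∨ (-5 ≤ d ∧ d ≤ -2)) : ¬ (j = i + 1 ∨ i = j + 1) := by
  rintro (h1 | h1)
  · apply zsmall hn (d - 1) (by omega) (by omega) (by omega)
    push_cast
    rw [← hd]; linear_combination h1
  · apply zsmall hn (d + 1) (by omega) (by omega) (by omega)
    push_cast
    rw [← hd]; linear_combination -h1

lemma slin_one_of_ind (T : Finset V) (h : Ind G T) : SLin 1 G T := by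
  obtain ⟨p, hp⟩ := Set.countable_iff_exists_injOn.mp T.finite_toSet.countable
  refine ⟨p, hp, fun t => ⟨fun _ => 0, ?_⟩⟩
  intro u hu v hv _ _ _ w hw _
  exact ⟨fun h1 => absurd h1 (h u hu w hw), fun h1 => absurd h1 (h v hv w hw)⟩

/-- neighbours on the cycle are exactly `f (i ± 1)` -/
def NN {n : ℕ} (G : SimpleGraph V) (f : ZMod n → V) (w : V) (i : ZMod n) : Prop :=
  ∀ j, G.Adj w (f j) ↔ (j = i + 1 ∨ i = j + 1)

lemma NN.not {n : ℕ} (hn : 7 ≤ n) {f : ZMod n → V} {w : V} {i : ZMod n} (h : NN G f w i) (j : ZMod n)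
    (d : ℤ) (hd : j - i = d) (h' : (2 ≤ d ∧ d ≤ 5) ∨ (-5 ≤ d ∧ d ≤ -2)) : ¬ G.Adj w (f j) := by
  rw [h j]; exact zno hn i j d hd h'

lemma NN.up {n : ℕ} {f : ZMod n → V} {w : V} {i : ZMod n} (h : NN G f w i) (j : ZMod n)
    (hd : j = i + 1) : G.Adj w (f j) := by
  rw [h j]; exact Or.inl hd

lemma NN.down {n : ℕ} {f : ZMod n → V} {w : V} {i : ZMod n} (h : NN G f w i) (j : ZMod n)
    (hd : i = j + 1) : G.Adj w (f j) := by
  rw [h j]; exact Or.inr hd

lemma nn_of_two {n : ℕ} (hn : 7 ≤ n) {f : ZMod n → V} {w : V} {i : ZMod n}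
    (hnb : ∀ i j, G.Adj w (f i) → G.Adj w (f j) → i = j ∨ j = i + 2 ∨ i = j + 2)
    (h1 : G.Adj w (f i)) (h2 : G.Adj w (f (i+2))) : NN G f w (i+1) := by
  intro j
  constructor
  · intro h3
    rcases hnb _ _ h1 h3 with h | h | h
    · right; rw [h]
    · left; rw [h]; ring
    · exfalso
      rcases hnb _ _ h2 h3 with h' | h' | h'
      · apply zsmall hn 4 (by norm_num) (by norm_num) (by norm_num)
        push_cast; linear_combination h' - h
      · apply zsmall hn 6 (by norm_num) (by norm_num) (by norm_num)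
        push_cast; linear_combination -h' - h
      · apply zsmall hn 2 (by norm_num) (by norm_num) (by norm_num)
        push_cast; linear_combination h' - h
  · rintro (h | h)
    · have : j = i + 2 := by rw [h]; ring
      rw [this]; exact h2
    · have : j = i := by linear_combination -h
      rw [this]; exact h1

lemma nn_of_adj {n : ℕ} (hn : 7 ≤ n) (hQ : NoQ G) {f : ZMod n → V}
    (hadj : ∀ i, NN G f (f i) i) {w : V} {i : ZMod n}
    (hnb : ∀ i j, G.Adj w (f i) → G.Adj w (f j) → i = j ∨ j = i + 2 ∨ i = j + 2)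
    (h1 : G.Adj w (f i)) : ∃ k, NN G f w k := by
  by_cases h2 : G.Adj w (f (i+2))
  · exact ⟨_, nn_of_two hn hnb h1 h2⟩
  by_cases h3 : G.Adj w (f (i-2))
  · have h4 : G.Adj w (f (i - 2 + 2)) := by rw [sub_add_cancel]; exact h1
    exact ⟨_, nn_of_two hn hnb h3 h4⟩
  exfalso
  exact hQ (f i) w (f (i+1)) (f (i+2)) (f (i-1)) (f (i-2)) h1.symm
    ((hadj i).up _ rfl) ((hadj _).up _ (by ring)) ((hadj i).down _ (by ring))
    ((hadj _).down _ (by ring)) h2 h3
    ((hadj _).not hn _ (-3) (by push_cast; ring) (by norm_num))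
    ((hadj _).not hn _ (-3) (by push_cast; ring) (by norm_num))
    ((hadj _).not hn _ (-4) (by push_cast; ring) (by norm_num))

lemma nn_adj_up {n : ℕ} (hn : 7 ≤ n) (hQ : NoQ G) {f : ZMod n → V}
    (hadj : ∀ i, NN G f (f i) i) {x y : V} {i j : ZMod n} (hx : NN G f x i) (hy : NN G f y j)
    (hj : j = i + 1) : G.Adj x y := by
  subst hj
  by_contra hxy
  exact hQ (f (i-1)) x (f i) y (f (i-2)) (f (i-3))
    (hx.down _ (by ring)).symm ((hadj _).up _ (by ring)) (hy.down _ rfl).symm
    ((hadj _).down _ (by ring)) ((hadj _).down _ (by ring)) hxy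
    (hx.not hn _ (-3) (by push_cast; ring) (by norm_num))
    ((hadj _).not hn _ (-3) (by push_cast; ring) (by norm_num))
    (hy.not hn _ (-3) (by push_cast; ring) (by norm_num))
    (hy.not hn _ (-4) (by push_cast; ring) (by norm_num))

lemma nn_no3 {n : ℕ} (hn : 7 ≤ n) (hQ : NoQ G) {f : ZMod n → V} (hfS : ∀ i, f i ∈ S)
    (hadj : ∀ i, NN G f (f i) i)
    (h5 : ∀ c : ZMod 5 → V, (∀ i, c i ∈ S) → ¬ ∀ i, G.Adj (c i) (c (i + 1)))
    {x y : V} (hxS : x ∈ S) (hyS : y ∈ S) {i j : ZMod n} (hx : NN G f x i) (hy : NN G f y j)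
    (hj : j = i + 3) : ¬ G.Adj x y := by
  subst hj
  intro hxy
  rcases Nat.lt_or_ge n 8 with h8 | h8
  · have h7 : n = 7 := by omega
    subst h7
    have h70 : (7 : ZMod 7) = 0 := by decide
    refine h5 ![x, f (i+6), f (i+5), f (i+4), y] ?_ ?_
    · intro k
      change Fin 5 at k
      fin_cases k
      · exact hxS
      · exact hfS _
      · exact hfS _
      · exact hfS _
      · exact hyS
    · intro k
      change Fin 5 at k
      fin_cases k
      · exact hx.down _ (by linear_combination -h70)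
      · exact (hadj _).down _ (by ring)
      · exact (hadj _).down _ (by ring)
      · exact (hy.up _ (by ring)).symm
      · exact hxy.symm
  · have h7 : ¬ G.Adj (f (i+5)) (f (i-1)) := by
      rw [hadj (i+5) (i-1)]
      rintro (h | h)
      · have : ((7:ℤ) : ZMod n) = 0 := by push_cast; linear_combination -h
        rw [CharP.intCast_eq_zero_iff (ZMod n) n] at this
        have := Int.le_of_dvd (by norm_num) this
        omega
      · apply zsmall hn 5 (by norm_num) (by norm_num) (by norm_num)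
        push_cast; linear_combination h
    exact hQ y (f (i+2)) (f (i+4)) (f (i+5)) x (f (i-1))
      (hy.down _ (by ring)) (hy.up _ (by ring)) ((hadj _).up _ (by ring)) hxy.symm
      (hx.down _ (by ring))
      ((hadj _).not hn _ 3 (by push_cast; ring) (by norm_num))
      ((hadj _).not hn _ (-3) (by push_cast; ring) (by norm_num))
      ((hadj _).not hn _ (-5) (by push_cast; ring) (by norm_num))
      (fun h => hx.not hn _ 5 (by push_cast; ring) (by norm_num) h.symm)
      h7

lemma nn_adj_iff {n : ℕ} (hn : 7 ≤ n) (hK : Tri G) (hQ : NoQ G) {f : ZMod n → V} (hfS : ∀ i, f i ∈ S)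
    (hadj : ∀ i, NN G f (f i) i)
    (h5 : ∀ c : ZMod 5 → V, (∀ i, c i ∈ S) → ¬ ∀ i, G.Adj (c i) (c (i + 1)))
    {x y : V} (hxS : x ∈ S) (hyS : y ∈ S) {i j : ZMod n} (hx : NN G f x i) (hy : NN G f y j) :
    G.Adj x y ↔ (j = i + 1 ∨ i = j + 1) := by
  constructor
  · intro hxy
    by_contra hcon
    push Not at hcon
    obtain ⟨hc1, hc2⟩ := hcon
    by_cases h0 : j = i
    · subst h0
      exact hK x y (f (j+1)) hxy (hy.up _ rfl) (hx.up _ rfl)
    by_cases h1 : j = i + 2
    · exact hK x y (f (i+1)) hxy (hy.down _ (by rw [h1]; ring)) (hx.up _ rfl)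
    by_cases h2 : i = j + 2
    · exact hK x y (f (j+1)) hxy (hy.up _ rfl) (hx.down _ (by rw [h2]; ring))
    by_cases h3 : j = i + 3
    · exact nn_no3 hn hQ hfS hadj h5 hxS hyS hx hy h3 hxy
    by_cases h4 : i = j + 3
    · exact nn_no3 hn hQ hfS hadj h5 hyS hxS hy hx h4 hxy.symm
    have ha : ¬ G.Adj y (f (i+2)) := by
      rw [hy]
      rintro (h | h)
      · exact hc1 (by linear_combination -h)
      · exact h3 (by linear_combination h)
    have hb : ¬ G.Adj y (f (i-2)) := by
      rw [hy]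
      rintro (h | h)
      · exact h4 (by linear_combination h)
      · exact hc2 (by linear_combination -h)
    exact hQ x y (f (i+1)) (f (i+2)) (f (i-1)) (f (i-2)) hxy (hx.up _ rfl)
      ((hadj _).up _ (by ring)) (hx.down _ (by ring)) ((hadj _).down _ (by ring)) ha hb
      ((hadj _).not hn _ (-3) (by push_cast; ring) (by norm_num))
      ((hadj _).not hn _ (-3) (by push_cast; ring) (by norm_num))
      ((hadj _).not hn _ (-4) (by push_cast; ring) (by norm_num))
  · rintro (h | h)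
    · exact nn_adj_up hn hQ hadj hx hy h
    · exact (nn_adj_up hn hQ hadj hy hx h).symm

/-- TARGET -/
theorem q_long (hK : Tri G) (hQ : NoQ G) (S : Finset V) (hc : Conn G S) {n : ℕ} (hn : 7 ≤ n)
    (f : ZMod n → V) (hfS : ∀ i, f i ∈ S) (hf : Function.Injective f)
    (hadj : ∀ i j, G.Adj (f i) (f j) ↔ (j = i + 1 ∨ i = j + 1))
    (hnb : ∀ w ∈ S, ∀ i j, G.Adj w (f i) → G.Adj w (f j) → i = j ∨ j = i + 2 ∨ i = j + 2)
    (h5 : ∀ c : ZMod 5 → V, (∀ i, c i ∈ S) → ¬ ∀ i, G.Adj (c i) (c (i + 1))) :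
    SLin 10 G S := by
  have hadjN : ∀ i, NN G f (f i) i := fun i j => hadj i j
  have hall : ∀ w ∈ S, ∃ k, NN G f w k := by
    by_contra hcon
    push Not at hcon
    obtain ⟨w0, hw0, hw0'⟩ := hcon
    obtain ⟨u, hu, v, hv, huv⟩ := hc (S.filter (fun w => ∃ k, NN G f w k)) (Finset.filter_subset _ _)
      ⟨f 0, Finset.mem_filter.mpr ⟨hfS 0, 0, hadjN 0⟩⟩ (by
        intro he
        have : w0 ∈ S.filter (fun w => ∃ k, NN G f w k) := by rw [he]; exact hw0
        obtain ⟨k, hk⟩ := (Finset.mem_filter.mp this).2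
        exact hw0' k hk)
    obtain ⟨huS, i, hi⟩ := Finset.mem_filter.mp hu
    obtain ⟨hvS, hvn⟩ := Finset.mem_sdiff.mp hv
    have hvn' : ∀ j, ¬ G.Adj v (f j) := by
      intro j hj
      apply hvn
      exact Finset.mem_filter.mpr ⟨hvS, nn_of_adj hn hQ hadjN (hnb v hvS) hj⟩
    exact hQ u v (f (i+1)) (f (i+2)) (f (i-1)) (f (i-2)) huv (hi.up _ rfl)
      ((hadjN _).up _ (by ring)) (hi.down _ (by ring)) ((hadjN _).down _ (by ring)) (hvn' _) (hvn' _)
      ((hadjN _).not hn _ (-3) (by push_cast; ring) (by norm_num))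
      ((hadjN _).not hn _ (-3) (by push_cast; ring) (by norm_num))
      ((hadjN _).not hn _ (-4) (by push_cast; ring) (by norm_num))
  choose! idx hidx using hall
  have h4 : SLin (3 + 1) G S := by
    apply slin_modules (fun w => f (idx w)) (S.filter (fun x => ∃ i, f i = x))
    · intro x hx
      exact Finset.mem_filter.mpr ⟨hfS _, _, rfl⟩
    · intro u hu w hw _
      rw [nn_adj_iff hn hK hQ hfS hadjN h5 hu hw (hidx u hu) (hidx w hw), hadj]
    · apply SLinN.toS
      apply slin_deg2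
      intro v hv
      obtain ⟨hvS, i, rfl⟩ := Finset.mem_filter.mp hv
      have hsub : nb G (S.filter (fun x => ∃ i, f i = x)) (f i) ⊆ {f (i+1), f (i-1)} := by
        intro y hy
        obtain ⟨hy1, hy2⟩ := Finset.mem_filter.mp hy
        obtain ⟨_, j, rfl⟩ := Finset.mem_filter.mp hy1
        rw [hadj] at hy2
        rw [Finset.mem_insert, Finset.mem_singleton]
        rcases hy2 with h | h
        · left; rw [h]
        · right; rw [show i - 1 = j by linear_combination h]
      exact (Finset.card_le_card hsub).trans Finset.card_le_two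
    · intro x hx
      obtain ⟨hxS, i, rfl⟩ := Finset.mem_filter.mp hx
      apply slin_one_of_ind
      intro u hu v hv huv
      obtain ⟨huS, hu2⟩ := Finset.mem_filter.mp hu
      obtain ⟨hvS, hv2⟩ := Finset.mem_filter.mp hv
      have hu3 := hf hu2
      have hv3 := hf hv2
      have hu4 := hidx u huS
      have hv4 := hidx v hvS
      rw [hu3] at hu4
      rw [hv3] at hv4
      exact hK u v (f (i+1)) huv (hv4.up _ rfl) (hu4.up _ rfl)
  exact h4.mono_k (by norm_num)

end QLong

end Pool.Agent.Helper856.Cw
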