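import Pool.Agent.Helper856.Pair.Defs
import Pool.Agent.Helper856.Cw.Basic
import Pool.Agent.Helper856.Pair.ConnT
import Pool.Agent.Helper856.Cw.OddHole
import Pool.Agent.Helper856.Pair.QC5
import Pool.Agent.Helper856.Pair.QLong

open Classical SimpleGraph

namespace Pool.Agent.Helper856.Cw

open ConnT (slin_conn)
open OddHole (odd_hole)
open QC5 (q_c5)
open QLong (q_long)

namespace QMain

variable {V : Type} {G : SimpleGraph V} {S T : Finset V} {k l : ℕ}

/-- TARGET -/
theorem q_main (hK : Tri G) (hQ : NoQ G) (hbip : Bip100 G) (S : Finset V) : SLin (10 ^ 8) G S := by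
  have key : ∀ T ⊆ S, Conn G T → SLinN (10 ^ 7 + 5) G T := by
    intro T hTS hT
    rcases odd_hole hK T with ⟨A, B, hAB, hd, hA, hB⟩ | ⟨n, hodd, hn5, f, hfT, hfinj, hadj, hnb, h5⟩
    · have h := hbip A B hd hA hB
      rw [hAB] at h
      exact (SLin.mono_k h (by norm_num)).toN
    · by_cases h5' : n = 5
      · subst h5'
        exact (q_c5 hK hQ hbip T hT (b := f) hfT hadj).toN
      · have h7 : 7 ≤ n := by
          obtain ⟨m, hm⟩ := hodd
          omega
        exact (SLin.mono_k (q_long hK hQ T hT h7 f hfT hfinj hadj hnb (h5 h7)) (by norm_num)).toN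
  have h := (slin_conn key).toS
  exact SLin.mono_k h (by norm_num)

end QMain

end Pool.Agent.Helper856.Cw
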