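import Pool.Agent.Helper856.Pair.Defs
import Pool.Agent.Helper856.Cw.Basic
import Pool.Agent.Helper856.Pair.Flip
import Pool.Agent.Helper856.Pair.Deg2
import Pool.Agent.Helper856.Pair.ConnT

open Classical SimpleGraph

namespace Pool.Agent.Helper856.Cw

open Flip (slin_flip)
open Deg2 (slin_deg2)
open ConnT (slin_conn)

namespace RCore

variable {V : Type} {G : SimpleGraph V} {S T : Finset V} {k l : ℕ}

theorem rc_two {N : Finset V} {P : V → Prop} [DecidablePred P] (hN : 8 ≤ N.card)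
    (h : (N.filter P).card ≤ 2) :
    ∃ a ∈ N, ∃ b ∈ N, a ≠ b ∧ ¬P a ∧ ¬P b := by
  have h1 := Finset.card_filter_add_card_filter_not (s := N) P
  have h2 : 1 < (N.filter (fun x => ¬P x)).card := by omega
  obtain ⟨a, ha, b, hb, hab⟩ := Finset.one_lt_card.mp h2
  rw [Finset.mem_filter] at ha hb
  exact ⟨a, ha.1, b, hb.1, hab, ha.2, hb.2⟩

theorem rc_one {N : Finset V} {P Q : V → Prop} [DecidablePred P] [DecidablePred Q]
    (hN : 8 ≤ N.card) (h1 : (N.filter P).card ≤ 2)
    (h2 : (N.filter Q).card ≤ 2) : ∃ x ∈ N, ¬P x ∧ ¬Q x := by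
  by_contra hcon
  push Not at hcon
  have hsub : N ⊆ N.filter P ∪ N.filter Q := by
    intro x hx
    rw [Finset.mem_union, Finset.mem_filter, Finset.mem_filter]
    by_cases hp : P x
    · exact Or.inl ⟨hx, hp⟩
    · exact Or.inr ⟨hx, hcon x hx hp⟩
  have h3 := Finset.card_le_card hsub
  have h4 := Finset.card_union_le (N.filter P) (N.filter Q)
  omega

theorem rc_empty {F : SimpleGraph V} : SLin 1 F (∅ : Finset V) :=
  ⟨fun _ => 0, by simp, fun _ => ⟨fun _ => 0, fun u hu => absurd hu (by simp)⟩⟩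

theorem rc_small {F : SimpleGraph V} {T : Finset V} (h : T.card ≤ 6) : SLinN 7 F T := by
  have h1 : SLin (1 + T.card) F T := SLin.add T (by rw [Finset.sdiff_self]; exact rc_empty)
  exact (h1.mono_k (by omega)).toN

theorem rc_three {F : SimpleGraph V} {T : Finset V} (cl : V → Fin 3)
    (hdiff : ∀ u ∈ T, ∀ v ∈ T, F.Adj u v → cl u ≠ cl v)
    (hdeg : ∀ u ∈ T, ∀ c, (T.filter (fun w => F.Adj u w ∧ cl w = c)).card ≤ 2)
    (hrule : ∀ x ∈ T, ∀ y ∈ T, ∀ w ∈ T, cl x ≠ cl y → cl y ≠ cl w → cl x ≠ cl w →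
      F.Adj x y → F.Adj y w → F.Adj x w) (hconn : Conn F T) : SLinN 7 F T := by
  by_cases h : ∃ y ∈ T, ∃ b ∈ T, ∃ c ∈ T, F.Adj y b ∧ F.Adj y c ∧ cl b ≠ cl c
  · obtain ⟨y, hy, b, hb, c, hc, hyb, hyc, hbc⟩ := h
    apply rc_small
    have hyb' := hdiff y hy b hb hyb
    have hyc' := hdiff y hy c hc hyc
    set A := T.filter (fun w => F.Adj b w ∧ cl w = cl y) with hA
    set B := T.filter (fun w => F.Adj y w ∧ cl w = cl b) with hB
    set C := T.filter (fun w => F.Adj y w ∧ cl w = cl c) with hC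
    have mA : ∀ w, w ∈ A ↔ w ∈ T ∧ F.Adj b w ∧ cl w = cl y := fun w => Finset.mem_filter
    have mB : ∀ w, w ∈ B ↔ w ∈ T ∧ F.Adj y w ∧ cl w = cl b := fun w => Finset.mem_filter
    have mC : ∀ w, w ∈ C ↔ w ∈ T ∧ F.Adj y w ∧ cl w = cl c := fun w => Finset.mem_filter
    -- adjacency facts
    have hBC : ∀ b' ∈ B, ∀ c' ∈ C, F.Adj b' c' := by
      intro b' hb' c' hc'
      rw [mB] at hb'; rw [mC] at hc'
      refine hrule b' hb'.1 y hy c' hc'.1 ?_ ?_ ?_ hb'.2.1.symm hc'.2.1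
      · rw [hb'.2.2]; exact hyb'.symm
      · rw [hc'.2.2]; exact hyc'
      · rw [hb'.2.2, hc'.2.2]; exact hbc
    have hbB : b ∈ B := (mB b).mpr ⟨hb, hyb, rfl⟩
    have hcC : c ∈ C := (mC c).mpr ⟨hc, hyc, rfl⟩
    have hAc : ∀ a ∈ A, F.Adj a c := by
      intro a ha
      rw [mA] at ha
      refine hrule a ha.1 b hb c hc ?_ hbc ?_ ha.2.1.symm (hBC b hbB c hcC)
      · rw [ha.2.2]; exact hyb'
      · rw [ha.2.2]; exact hyc'
    have third : ∀ w, cl w ≠ cl y → cl w = cl b ∨ cl w = cl c := by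
      intro w hw; revert hw hyb' hyc' hbc
      generalize cl w = a1; generalize cl y = a2; generalize cl b = a3; generalize cl c = a4
      revert a1 a2 a3 a4; decide
    have third2 : ∀ w, cl w ≠ cl b → cl w = cl y ∨ cl w = cl c := by
      intro w hw; revert hw hyb' hyc' hbc
      generalize cl w = a1; generalize cl y = a2; generalize cl b = a3; generalize cl c = a4
      revert a1 a2 a3 a4; decide
    have third3 : ∀ w, cl w ≠ cl c → cl w = cl y ∨ cl w = cl b := by
      intro w hw; revert hw hyb' hyc' hbc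
      generalize cl w = a1; generalize cl y = a2; generalize cl b = a3; generalize cl c = a4
      revert a1 a2 a3 a4; decide
    -- closure
    have clos : ∀ u ∈ A ∪ B ∪ C, ∀ w ∈ T, F.Adj u w → w ∈ A ∪ B ∪ C := by
      intro u hu w hw huw
      rw [Finset.mem_union, Finset.mem_union] at hu ⊢
      rcases hu with (hu | hu) | hu
      · have huc := hAc u hu
        rw [mA] at hu
        have hd := (hdiff u hu.1 w hw huw).symm
        rw [hu.2.2] at hd
        rcases third w hd with hwb | hwc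
        · -- w in the class of b
          have h1 : F.Adj w c := hrule w hw u hu.1 c hc (by rw [hu.2.2]; exact hd)
            (by rw [hu.2.2]; exact hyc') (by rw [hwb]; exact hbc) huw.symm huc
          have h2 : F.Adj w y := hrule w hw c hc y hy (by rw [hwb]; exact hbc) hyc'.symm
            hd h1 hyc.symm
          exact Or.inl (Or.inr ((mB w).mpr ⟨hw, h2.symm, hwb⟩))
        · have h1 : F.Adj w b := hrule w hw u hu.1 b hb (by rw [hu.2.2]; exact hd)
            (by rw [hu.2.2]; exact hyb') (by rw [hwc]; exact hbc.symm) huw.symm hu.2.1.symm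
          have h2 : F.Adj w y := hrule w hw b hb y hy (by rw [hwc]; exact hbc.symm) hyb'.symm
            hd h1 hyb.symm
          exact Or.inr ((mC w).mpr ⟨hw, h2.symm, hwc⟩)
      · have huc := hBC u hu c hcC
        rw [mB] at hu
        have hd := (hdiff u hu.1 w hw huw).symm
        rw [hu.2.2] at hd
        rcases third2 w hd with hwy | hwc
        · have h1 : F.Adj w c := hrule w hw u hu.1 c hc (by rw [hu.2.2]; exact hd)
            (by rw [hu.2.2]; exact hbc) (by rw [hwy]; exact hyc') huw.symm huc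
          have h2 : F.Adj w b := hrule w hw c hc b hb (by rw [hwy]; exact hyc') hbc.symm
            hd h1 (hBC b hbB c hcC).symm
          exact Or.inl (Or.inl ((mA w).mpr ⟨hw, h2.symm, hwy⟩))
        · have h1 : F.Adj w y := hrule w hw u hu.1 y hy (by rw [hu.2.2]; exact hd)
            (by rw [hu.2.2]; exact hyb'.symm) (by rw [hwc]; exact hyc'.symm) huw.symm hu.2.1.symm
          exact Or.inr ((mC w).mpr ⟨hw, h1.symm, hwc⟩)
      · have hub := hBC b hbB u hu
        rw [mC] at hu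
        have hd := (hdiff u hu.1 w hw huw).symm
        rw [hu.2.2] at hd
        rcases third3 w hd with hwy | hwb
        · have h1 : F.Adj w b := hrule w hw u hu.1 b hb (by rw [hu.2.2]; exact hd)
            (by rw [hu.2.2]; exact hbc.symm) (by rw [hwy]; exact hyb') huw.symm hub.symm
          exact Or.inl (Or.inl ((mA w).mpr ⟨hw, h1.symm, hwy⟩))
        · have h1 : F.Adj w y := hrule w hw u hu.1 y hy (by rw [hu.2.2]; exact hd)
            (by rw [hu.2.2]; exact hyc'.symm) (by rw [hwb]; exact hyb'.symm) huw.symm hu.2.1.symm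
          exact Or.inl (Or.inr ((mB w).mpr ⟨hw, h1.symm, hwb⟩))
    have hsub : A ∪ B ∪ C ⊆ T := by
      apply Finset.union_subset (Finset.union_subset _ _) _ <;> exact Finset.filter_subset _ _
    have hne : (A ∪ B ∪ C).Nonempty := ⟨b, by
      rw [Finset.mem_union, Finset.mem_union]; exact Or.inl (Or.inr hbB)⟩
    have heq : A ∪ B ∪ C = T := by
      by_contra hne2
      obtain ⟨u, hu, v, hv, huv⟩ := hconn _ hsub hne hne2
      rw [Finset.mem_sdiff] at hv
      exact hv.2 (clos u hu v hv.1 huv)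
    rw [← heq]
    have c1 : A.card ≤ 2 := hdeg b hb (cl y)
    have c2 : B.card ≤ 2 := hdeg y hy (cl b)
    have c3 : C.card ≤ 2 := hdeg y hy (cl c)
    have c4 := Finset.card_union_le (A ∪ B) C
    have c5 := Finset.card_union_le A B
    omega
  · push Not at h
    refine (slin_deg2 (fun v hv => ?_)).mono_k (by norm_num)
    by_cases he : (nb F T v).Nonempty
    · obtain ⟨w0, hw0⟩ := he
      unfold nb at hw0
      rw [Finset.mem_filter] at hw0
      refine le_trans (Finset.card_le_card ?_) (hdeg v hv (cl w0))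
      intro w hw
      unfold nb at hw
      rw [Finset.mem_filter] at hw ⊢
      exact ⟨hw.1, hw.2, h v hv w hw.1 w0 hw0.1 hw.2 hw0.2⟩
    · rw [Finset.not_nonempty_iff_eq_empty] at he
      rw [he]; simp

/-- classes -/
noncomputable def rcτ (N : ZMod 5 → Finset V) (v : V) : Fin 6 :=
  if h : ∃ i, v ∈ N i then Fin.castSucc (Classical.choose h : Fin 5) else Fin.last 5

theorem rcτ_N {N : ZMod 5 → Finset V} (dN : ∀ i j, i ≠ j → Disjoint (N i) (N j)) {v : V}
    {i : ZMod 5} (hv : v ∈ N i) : rcτ N v = Fin.castSucc (i : Fin 5) := by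
  have h : ∃ i, v ∈ N i := ⟨i, hv⟩
  unfold rcτ
  rw [dif_pos h]
  have h2 := Classical.choose_spec h
  have : Classical.choose h = i := by
    by_contra hne
    exact (Finset.disjoint_left.mp (dN _ _ hne)) h2 hv
  exact congrArg (fun (x : ZMod 5) => (Fin.castSucc (x : Fin 5) : Fin 6)) this

theorem rcτ_Z {N : ZMod 5 → Finset V} {v : V} (hv : ∀ i, v ∉ N i) : rcτ N v = Fin.last 5 := by
  unfold rcτ
  rw [dif_neg]
  rintro ⟨i, hi⟩
  exact hv i hi

/-- consecutive classes -/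
def rcQ (a b : Fin 6) : Prop := ∃ i : ZMod 5,
  (a = Fin.castSucc (i : Fin 5) ∧ b = Fin.castSucc ((i + 1 : ZMod 5) : Fin 5)) ∨
  (b = Fin.castSucc (i : Fin 5) ∧ a = Fin.castSucc ((i + 1 : ZMod 5) : Fin 5))

theorem rc_z5 (i j : ZMod 5) : j = i ∨ j = i + 1 ∨ i = j + 1 ∨ j = i + 2 ∨ i = j + 2 := by
  revert i j; decide

set_option maxHeartbeats 4000000 in
/-- TARGET -/
theorem r_core (hK : Tri G) (Z : Finset V) (N : ZMod 5 → Finset V)
    (dZ : ∀ i, Disjoint Z (N i)) (dN : ∀ i j, i ≠ j → Disjoint (N i) (N j))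
    (iZ : Ind G Z) (iN : ∀ i, Ind G (N i))
    (n2 : ∀ i, ∀ x ∈ N i, ∀ y ∈ N (i + 2), ¬G.Adj x y)
    (f5 : ∀ i, ∀ z ∈ Z, (nb G (N i) z).card ≤ 2)
    (f6 : ∀ i, ∀ x ∈ N i, (nb G Z x).card ≤ 2)
    (f7 : ∀ i, ∀ x ∈ N i, ((N (i + 1)).filter (fun y => ¬G.Adj x y)).card ≤ 2)
    (f7m : ∀ i, ∀ x ∈ N i, ((N (i + 4)).filter (fun y => ¬G.Adj x y)).card ≤ 2)
    (f8 : ∀ i, ∀ x ∈ N i, ∀ y ∈ N (i + 4), ∀ w1 ∈ N (i + 1), ∀ w2 ∈ N (i + 1), w1 ≠ w2 →
      G.Adj x w1 → G.Adj x w2 → G.Adj x y)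
    (f8m : ∀ i, ∀ x ∈ N i, ∀ y ∈ N (i + 1), ∀ w1 ∈ N (i + 4), ∀ w2 ∈ N (i + 4), w1 ≠ w2 →
      G.Adj x w1 → G.Adj x w2 → G.Adj x y)
    (f9 : ∀ i, ∀ z ∈ Z, ∀ n ∈ N i, ∀ m1 ∈ N (i + 2), ∀ m2 ∈ N (i + 2), m1 ≠ m2 → G.Adj z n →
      G.Adj z m1 ∨ G.Adj z m2)
    (f9m : ∀ i, ∀ z ∈ Z, ∀ n ∈ N i, ∀ m1 ∈ N (i + 3), ∀ m2 ∈ N (i + 3), m1 ≠ m2 → G.Adj z n →
      G.Adj z m1 ∨ G.Adj z m2)
    (f10 : ∀ i, ∀ z ∈ Z, ∀ n ∈ N i, ∀ m ∈ N (i + 1), ∀ x ∈ N i, G.Adj z n → G.Adj m x →
      ¬G.Adj z x → G.Adj n m ∨ G.Adj z m)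
    (f10m : ∀ i, ∀ z ∈ Z, ∀ n ∈ N (i + 1), ∀ m ∈ N i, ∀ x ∈ N (i + 1), G.Adj z n → G.Adj m x →
      ¬G.Adj z x → G.Adj n m ∨ G.Adj z m) :
    SLin 1000 G (Z ∪ Finset.univ.biUnion N) := by
  have hu : ∀ {v : V} {i j : ZMod 5}, v ∈ N i → v ∈ N j → i = j := by
    intro v i j h1 h2
    by_contra hne
    exact (Finset.disjoint_left.mp (dN _ _ hne)) h1 h2
  have hz : ∀ {v : V} {i : ZMod 5}, v ∈ Z → v ∉ N i := fun {v i} h1 h2 =>
    (Finset.disjoint_left.mp (dZ i)) h1 h2
  set D : Finset V := (Finset.univ.filter (fun i : ZMod 5 => ¬ 8 ≤ (N i).card)).biUnion N with hD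
  have hDc : D.card ≤ 35 := by
    have h1 : D.card ≤ (Finset.univ.filter (fun i : ZMod 5 => ¬ 8 ≤ (N i).card)).card * 7 := by
      apply Finset.card_biUnion_le_card_mul
      intro i hi
      rw [Finset.mem_filter] at hi
      omega
    have h2 : (Finset.univ.filter (fun i : ZMod 5 => ¬ 8 ≤ (N i).card)).card ≤ 5 := by
      refine (Finset.card_le_univ _).trans ?_
      rw [ZMod.card]
    omega
  set S' : Finset V := (Z ∪ Finset.univ.biUnion N) \ D with hS'
  have hmem : ∀ v, v ∈ S' ↔ v ∈ Z ∨ ∃ i, 8 ≤ (N i).card ∧ v ∈ N i := by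
    intro v
    rw [hS', Finset.mem_sdiff, Finset.mem_union, Finset.mem_biUnion, hD, Finset.mem_biUnion]
    constructor
    · rintro ⟨h1 | ⟨i, _, h1⟩, h2⟩
      · exact Or.inl h1
      · right
        refine ⟨i, ?_, h1⟩
        by_contra hcon
        exact h2 ⟨i, Finset.mem_filter.mpr ⟨Finset.mem_univ _, hcon⟩, h1⟩
    · rintro (h1 | ⟨i, h2, h1⟩)
      · refine ⟨Or.inl h1, ?_⟩
        rintro ⟨i, _, hi⟩
        exact hz h1 hi
      · refine ⟨Or.inr ⟨i, Finset.mem_univ _, h1⟩, ?_⟩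
        rintro ⟨j, hj, hj2⟩
        rw [Finset.mem_filter] at hj
        rw [hu hj2 h1] at hj
        exact hj.2 h2
  have hbig : ∀ {v : V} {i : ZMod 5}, v ∈ S' → v ∈ N i → 8 ≤ (N i).card := by
    intro v i h1 h2
    rcases (hmem v).mp h1 with h3 | ⟨j, h3, h4⟩
    · exact absurd h2 (hz h3)
    · rw [hu h2 h4]; exact h3
  -- the graph F
  obtain ⟨F, hF⟩ : ∃ F : SimpleGraph V, ∀ u v, F.Adj u v ↔ u ≠ v ∧ ((u ∈ S' ∧ v ∈ S' ∧
    ((u ∈ Z ∧ (∃ i, v ∈ N i) ∧ G.Adj u v) ∨ (∃ i, u ∈ N i ∧ v ∈ N (i + 1) ∧ ¬G.Adj u v))) ∨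
    (v ∈ S' ∧ u ∈ S' ∧
    ((v ∈ Z ∧ (∃ i, u ∈ N i) ∧ G.Adj v u) ∨ (∃ i, v ∈ N i ∧ u ∈ N (i + 1) ∧ ¬G.Adj v u)))) :=
    ⟨SimpleGraph.fromRel (fun u v => u ∈ S' ∧ v ∈ S' ∧
    ((u ∈ Z ∧ (∃ i, v ∈ N i) ∧ G.Adj u v) ∨ (∃ i, u ∈ N i ∧ v ∈ N (i + 1) ∧ ¬G.Adj u v))),
    fun u v => SimpleGraph.fromRel_adj _ _ _⟩
  have i1 : ∀ i : ZMod 5, i ≠ i + 1 := by decide
  have Fzn : ∀ {z n : V} {i : ZMod 5}, z ∈ Z → n ∈ N i → z ∈ S' → n ∈ S' →
      (F.Adj z n ↔ G.Adj z n) := by
    intro z n i h1 h2 h3 h4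
    rw [hF]
    constructor
    · rintro ⟨_, ⟨_, _, ⟨_, _, h⟩ | ⟨j, h, _⟩⟩ | ⟨_, _, ⟨h, _⟩ | ⟨j, _, h, _⟩⟩⟩
      · exact h
      · exact absurd h (hz h1)
      · exact absurd h2 (hz h)
      · exact absurd h (hz h1)
    · intro h
      refine ⟨fun h5 => ?_, Or.inl ⟨h3, h4, Or.inl ⟨h1, ⟨i, h2⟩, h⟩⟩⟩
      rw [h5] at h1; exact hz h1 h2
  have Fnm : ∀ {n m : V} {i : ZMod 5}, n ∈ N i → m ∈ N (i + 1) → n ∈ S' → m ∈ S' →
      (F.Adj n m ↔ ¬G.Adj n m) := by
    intro n m i h1 h2 h3 h4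
    rw [hF]
    constructor
    · rintro ⟨_, ⟨_, _, ⟨h, _⟩ | ⟨j, _, _, h⟩⟩ | ⟨_, _, ⟨h, _⟩ | ⟨j, h, h', h''⟩⟩⟩
      · exact absurd h1 (hz h)
      · exact h
      · exact absurd h2 (hz h)
      · exact fun h5 => h'' h5.symm
    · intro h
      refine ⟨fun h5 => ?_, Or.inl ⟨h3, h4, Or.inr ⟨i, h1, h2, h⟩⟩⟩
      rw [h5] at h1
      exact i1 i (hu h1 h2)
  have Fzz : ∀ {z z' : V}, z ∈ Z → z' ∈ Z → ¬F.Adj z z' := by
    intro z z' h1 h2 h
    rw [hF] at h
    rcases h with ⟨_, ⟨_, _, ⟨_, ⟨i, h⟩, _⟩ | ⟨j, h, _⟩⟩ | ⟨_, _, ⟨_, ⟨i, h⟩, _⟩ | ⟨j, h, _⟩⟩⟩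
    · exact hz h2 h
    · exact hz h1 h
    · exact hz h1 h
    · exact hz h2 h
  have Fij : ∀ {n m : V} {i j : ZMod 5}, n ∈ N i → m ∈ N j → F.Adj n m →
      (j = i + 1 ∨ i = j + 1) := by
    intro n m i j h1 h2 h
    rw [hF] at h
    rcases h with ⟨_, ⟨_, _, ⟨h, _⟩ | ⟨k, h, h', _⟩⟩ | ⟨_, _, ⟨h, _⟩ | ⟨k, h, h', _⟩⟩⟩
    · exact absurd h1 (hz h)
    · left; rw [hu h2 h', hu h1 h]
    · exact absurd h2 (hz h)
    · right; rw [hu h1 h', hu h2 h]
  -- it is enough to bound F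
  have hred : SLinN 7 F S' → SLin 1000 G (Z ∪ Finset.univ.biUnion N) := by
    intro h7
    have h8 := h7.toS
    have h48 : SLin (6 * (7 + 1)) G S' := by
      refine slin_flip (G := F) (G' := G) (rcτ N) rcQ ?_ h8
      intro u huS v hvS huv
      have hcs : ∀ i j : Fin 5, Fin.castSucc i = Fin.castSucc j → i = j := fun i j h =>
        Fin.castSucc_injective 5 h
      rcases (hmem u).mp huS with hu1 | ⟨i, hi, hu1⟩ <;> rcases (hmem v).mp hvS with hv1 | ⟨j, hj, hv1⟩
      · have q1 : rcτ N u = Fin.last 5 := rcτ_Z (fun i => hz hu1)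
        have q2 : ¬ rcQ (rcτ N u) (rcτ N v) := by
          rw [q1]
          rintro ⟨k, ⟨h, _⟩ | ⟨_, h⟩⟩
          · exact (Fin.castSucc_lt_last _).ne h.symm
          · exact (Fin.castSucc_lt_last _).ne h.symm
        have q3 := Fzz hu1 hv1
        have q4 := iZ u hu1 v hv1
        tauto
      · have q1 : rcτ N u = Fin.last 5 := rcτ_Z (fun i => hz hu1)
        have q2 : ¬ rcQ (rcτ N u) (rcτ N v) := by
          rw [q1]
          rintro ⟨k, ⟨h, _⟩ | ⟨_, h⟩⟩
          · exact (Fin.castSucc_lt_last _).ne h.symm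
          · exact (Fin.castSucc_lt_last _).ne h.symm
        have q3 := Fzn hu1 hv1 huS hvS
        tauto
      · have q1 : rcτ N v = Fin.last 5 := rcτ_Z (fun i => hz hv1)
        have q2 : ¬ rcQ (rcτ N u) (rcτ N v) := by
          rw [q1]
          rintro ⟨k, ⟨_, h⟩ | ⟨h, _⟩⟩
          · exact (Fin.castSucc_lt_last _).ne h.symm
          · exact (Fin.castSucc_lt_last _).ne h.symm
        have q3 := Fzn hv1 hu1 hvS huS
        have q4 : F.Adj u v ↔ F.Adj v u := F.adj_comm u v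
        have q5 : G.Adj u v ↔ G.Adj v u := G.adj_comm u v
        tauto
      · have q1 := rcτ_N dN hu1
        have q2 := rcτ_N dN hv1
        have hQ : rcQ (rcτ N u) (rcτ N v) ↔ (j = i + 1 ∨ i = j + 1) := by
          rw [q1, q2]
          constructor
          · rintro ⟨k, ⟨h, h'⟩ | ⟨h, h'⟩⟩
            · left
              have e1 : i = k := hcs _ _ h
              have e2 : j = k + 1 := hcs _ _ h'
              rw [e1, e2]
            · right
              have e1 : j = k := hcs _ _ h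
              have e2 : i = k + 1 := hcs _ _ h'
              rw [e1, e2]
          · rintro (h | h)
            · exact ⟨i, Or.inl ⟨rfl, by rw [h]⟩⟩
            · exact ⟨j, Or.inr ⟨rfl, by rw [h]⟩⟩
        rcases rc_z5 i j with h | h | h | h | h
        · subst h
          have q3 : ¬ (j = j + 1 ∨ j = j + 1) := by
            rintro (h | h) <;> exact i1 j h
          have q4 : ¬ F.Adj u v := fun h => q3 (Fij hu1 hv1 h)
          have q5 := iN j u hu1 v hv1
          tauto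
        · subst h
          have q3 := Fnm hu1 hv1 huS hvS
          have q4 : (i + 1 = i + 1 ∨ i = i + 1 + 1) := Or.inl rfl
          tauto
        · subst h
          have q3 := Fnm hv1 hu1 hvS huS
          have q4 : (j = j + 1 + 1 ∨ j + 1 = j + 1) := Or.inr rfl
          have q5 : F.Adj u v ↔ F.Adj v u := F.adj_comm u v
          have q6 : G.Adj u v ↔ G.Adj v u := G.adj_comm u v
          tauto
        · subst h
          have q0 : ∀ i : ZMod 5, ¬ (i + 2 = i + 1 ∨ i = i + 2 + 1) := by decide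
          have q3 := q0 i
          have q4 : ¬ F.Adj u v := fun h => q3 (Fij hu1 hv1 h)
          have q5 := n2 i u hu1 v hv1
          tauto
        · subst h
          have q0 : ∀ j : ZMod 5, ¬ (j = j + 2 + 1 ∨ j + 2 = j + 1) := by decide
          have q3 := q0 j
          have q4 : ¬ F.Adj u v := fun h => q3 (Fij hu1 hv1 h)
          have q5 := n2 j v hv1 u hu1
          have q6 : G.Adj u v ↔ G.Adj v u := G.adj_comm u v
          tauto
    have h83 := SLin.add D h48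
    exact h83.mono_k (by omega)
  apply hred
  -- degree bounds
  have a14 : ∀ i : ZMod 5, i + 1 + 4 = i := by decide
  have degZ : ∀ {v : V}, v ∈ S' → (S'.filter (fun w => F.Adj v w ∧ w ∈ Z)).card ≤ 2 := by
    intro v hv
    rcases (hmem v).mp hv with h1 | ⟨i, hi, h1⟩
    · have : S'.filter (fun w => F.Adj v w ∧ w ∈ Z) = ∅ := by
        rw [Finset.filter_eq_empty_iff]
        rintro w _ ⟨h2, h3⟩
        exact Fzz h1 h3 h2
      rw [this]; simp
    · refine le_trans (Finset.card_le_card ?_) (f6 i v h1)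
      intro w hw
      rw [Finset.mem_filter] at hw
      unfold nb
      rw [Finset.mem_filter]
      exact ⟨hw.2.2, ((Fzn hw.2.2 h1 hw.1 hv).mp hw.2.1.symm).symm⟩
  have degN : ∀ {v : V}, v ∈ S' → ∀ j, (S'.filter (fun w => F.Adj v w ∧ w ∈ N j)).card ≤ 2 := by
    intro v hv j
    rcases (hmem v).mp hv with h1 | ⟨i, hi, h1⟩
    · refine le_trans (Finset.card_le_card ?_) (f5 j v h1)
      intro w hw
      rw [Finset.mem_filter] at hw
      unfold nb
      rw [Finset.mem_filter]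
      exact ⟨hw.2.2, (Fzn h1 hw.2.2 hv hw.1).mp hw.2.1⟩
    · by_cases hj : j = i + 1 ∨ i = j + 1
      · rcases hj with hj | hj
        · subst hj
          refine le_trans (Finset.card_le_card ?_) (f7 i v h1)
          intro w hw
          rw [Finset.mem_filter] at hw ⊢
          exact ⟨hw.2.2, (Fnm h1 hw.2.2 hv hw.1).mp hw.2.1⟩
        · subst hj
          have f := f7m (j + 1) v h1
          rw [a14] at f
          refine le_trans (Finset.card_le_card ?_) f
          intro w hw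
          rw [Finset.mem_filter] at hw ⊢
          exact ⟨hw.2.2, fun h => (Fnm hw.2.2 h1 hw.1 hv).mp hw.2.1.symm h.symm⟩
      · have : S'.filter (fun w => F.Adj v w ∧ w ∈ N j) = ∅ := by
          rw [Finset.filter_eq_empty_iff]
          rintro w _ ⟨h2, h3⟩
          exact hj (Fij h1 h3 h2)
        rw [this]; simp
  -- facts (a), (b)
  have facta : ∀ {z n : V} {i : ZMod 5}, z ∈ Z → n ∈ N i → G.Adj z n →
      ¬ 8 ≤ (N (i + 2)).card ∧ ¬ 8 ≤ (N (i + 3)).card := by
    intro z n i h1 h2 h3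
    constructor
    · intro h8
      obtain ⟨m1, hm1, m2, hm2, hne, g1, g2⟩ := rc_two h8 (f5 (i + 2) z h1)
      rcases f9 i z h1 n h2 m1 hm1 m2 hm2 hne h3 with h | h
      · exact g1 h
      · exact g2 h
    · intro h8
      obtain ⟨m1, hm1, m2, hm2, hne, g1, g2⟩ := rc_two h8 (f5 (i + 3) z h1)
      rcases f9m i z h1 n h2 m1 hm1 m2 hm2 hne h3 with h | h
      · exact g1 h
      · exact g2 h
  have factb : ∀ {x y : V} {i : ZMod 5}, x ∈ N i → y ∈ N (i + 1) → ¬G.Adj x y →
      ¬ 8 ≤ (N (i + 2)).card ∧ ¬ 8 ≤ (N (i + 4)).card := by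
    intro x y i h1 h2 h3
    constructor
    · intro h8
      have e : ∀ i : ZMod 5, i + 1 + 1 = i + 2 := by decide
      have f := f7 (i + 1) y h2
      rw [e] at f
      obtain ⟨w1, hw1, w2, hw2, hne, g1, g2⟩ := rc_two h8 f
      rw [not_not] at g1 g2
      have := f8 (i + 1) y h2 x (by rw [a14]; exact h1) w1 (by rw [e]; exact hw1) w2
        (by rw [e]; exact hw2) hne g1 g2
      exact h3 this.symm
    · intro h8
      obtain ⟨w1, hw1, w2, hw2, hne, g1, g2⟩ := rc_two h8 (f7m i x h1)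
      rw [not_not] at g1 g2
      exact h3 (f8m i x h1 y h2 w1 hw1 w2 hw2 hne g1 g2)
  by_cases hL : ∃ i0 : ZMod 5, ∀ j, 8 ≤ (N j).card → j = i0 ∨ j = i0 + 1
  · -- case A
    obtain ⟨i0, hi0⟩ := hL
    apply slin_conn
    intro T hT hconn
    have hTc : ∀ {v : V}, v ∈ T → v ∈ Z ∨ v ∈ N i0 ∨ v ∈ N (i0 + 1) := by
      intro v hv
      rcases (hmem v).mp (hT hv) with h | ⟨i, hi, h⟩
      · exact Or.inl h
      · rcases hi0 i hi with rfl | rfl
        · exact Or.inr (Or.inl h)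
        · exact Or.inr (Or.inr h)
    set cl : V → Fin 3 := fun v => if v ∈ Z then 0 else if v ∈ N i0 then 1 else 2 with hcl
    have cl0 : ∀ {v : V}, v ∈ T → (cl v = 0 ↔ v ∈ Z) := by
      intro v hv
      simp only [hcl]
      by_cases h : v ∈ Z
      · simp [h]
      · by_cases h' : v ∈ N i0
        · simp [h, h']
        · simp [h, h']
    have cl1 : ∀ {v : V}, v ∈ T → (cl v = 1 ↔ v ∈ N i0) := by
      intro v hv
      simp only [hcl]
      by_cases h : v ∈ Z
      · have := hz (i := i0) h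
        simp [h, this]
      · by_cases h' : v ∈ N i0
        · simp [h, h']
        · simp [h, h']
    have cl2 : ∀ {v : V}, v ∈ T → (cl v = 2 ↔ v ∈ N (i0 + 1)) := by
      intro v hv
      simp only [hcl]
      by_cases h : v ∈ Z
      · have := hz (i := i0 + 1) h
        simp [h, this]
      · by_cases h' : v ∈ N i0
        · have : v ∉ N (i0 + 1) := fun h'' => i1 i0 (hu h' h'')
          simp [h, h', this]
        · have : v ∈ N (i0 + 1) := by
            rcases hTc hv with h1 | h1 | h1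
            · exact absurd h1 h
            · exact absurd h1 h'
            · exact h1
          simp [h, h', this]
    apply rc_three cl _ _ _ hconn
    · intro u hu' v hv' huv heq
      have hc3 : cl u = 0 ∨ cl u = 1 ∨ cl u = 2 := by
        generalize cl u = a; revert a; decide
      rcases hc3 with h | h | h
      · exact Fzz ((cl0 hu').mp h) ((cl0 hv').mp (by rw [← heq]; exact h)) huv
      · have h1 := (cl1 hu').mp h
        have h2 := (cl1 hv').mp (by rw [← heq]; exact h)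
        rcases Fij h1 h2 huv with h3 | h3 <;> exact i1 i0 h3
      · have h1 := (cl2 hu').mp h
        have h2 := (cl2 hv').mp (by rw [← heq]; exact h)
        rcases Fij h1 h2 huv with h3 | h3 <;> exact i1 (i0 + 1) h3
    · intro u hu' c
      have hc3 : c = 0 ∨ c = 1 ∨ c = 2 := by revert c; decide
      rcases hc3 with rfl | rfl | rfl
      · refine le_trans (Finset.card_le_card ?_) (degZ (hT hu'))
        intro w hw
        rw [Finset.mem_filter] at hw ⊢
        exact ⟨hT hw.1, hw.2.1, (cl0 hw.1).mp hw.2.2⟩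
      · refine le_trans (Finset.card_le_card ?_) (degN (hT hu') i0)
        intro w hw
        rw [Finset.mem_filter] at hw ⊢
        exact ⟨hT hw.1, hw.2.1, (cl1 hw.1).mp hw.2.2⟩
      · refine le_trans (Finset.card_le_card ?_) (degN (hT hu') (i0 + 1))
        intro w hw
        rw [Finset.mem_filter] at hw ⊢
        exact ⟨hT hw.1, hw.2.1, (cl2 hw.1).mp hw.2.2⟩
    · -- the rule
      have R1 : ∀ {z n m : V}, z ∈ T → n ∈ T → m ∈ T → z ∈ Z → n ∈ N i0 → m ∈ N (i0 + 1) →
          F.Adj z n → F.Adj z m → F.Adj n m := by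
        intro z n m tz tn tm h1 h2 h3 h4 h5
        rw [Fzn h1 h2 (hT tz) (hT tn)] at h4
        rw [Fzn h1 h3 (hT tz) (hT tm)] at h5
        rw [Fnm h2 h3 (hT tn) (hT tm)]
        exact fun h6 => hK z n m h4 h6 h5
      have R2 : ∀ {z n m : V}, z ∈ T → n ∈ T → m ∈ T → z ∈ Z → n ∈ N i0 → m ∈ N (i0 + 1) →
          F.Adj z n → F.Adj n m → F.Adj z m := by
        intro z n m tz tn tm h1 h2 h3 h4 h5
        rw [Fzn h1 h2 (hT tz) (hT tn)] at h4
        rw [Fnm h2 h3 (hT tn) (hT tm)] at h5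
        rw [Fzn h1 h3 (hT tz) (hT tm)]
        have f := f7m (i0 + 1) m h3
        rw [a14] at f
        obtain ⟨x, hx, g1, g2⟩ := rc_one (hbig (hT tn) h2) f (f5 i0 z h1)
        rw [not_not] at g1
        rcases f10 i0 z h1 n h2 m h3 x hx h4 g1 g2 with h | h
        · exact absurd h h5
        · exact h
      have R3 : ∀ {z n m : V}, z ∈ T → n ∈ T → m ∈ T → z ∈ Z → n ∈ N i0 → m ∈ N (i0 + 1) →
          F.Adj z m → F.Adj n m → F.Adj z n := by
        intro z n m tz tn tm h1 h2 h3 h4 h5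
        rw [Fzn h1 h3 (hT tz) (hT tm)] at h4
        rw [Fnm h2 h3 (hT tn) (hT tm)] at h5
        rw [Fzn h1 h2 (hT tz) (hT tn)]
        obtain ⟨x, hx, g1, g2⟩ := rc_one (hbig (hT tm) h3) (f7 i0 n h2) (f5 (i0 + 1) z h1)
        rw [not_not] at g1
        rcases f10m i0 z h1 m h3 n h2 x hx h4 g1 g2 with h | h
        · exact absurd h.symm h5
        · exact h
      intro x hx y hy w hw h1 h2 h3 hxy hyw
      have hcl3 : (cl x = 0 ∧ cl y = 1 ∧ cl w = 2) ∨ (cl x = 0 ∧ cl y = 2 ∧ cl w = 1) ∨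
          (cl x = 1 ∧ cl y = 0 ∧ cl w = 2) ∨ (cl x = 1 ∧ cl y = 2 ∧ cl w = 0) ∨
          (cl x = 2 ∧ cl y = 0 ∧ cl w = 1) ∨ (cl x = 2 ∧ cl y = 1 ∧ cl w = 0) := by
        revert h1 h2 h3
        generalize cl x = a1; generalize cl y = a2; generalize cl w = a3
        revert a1 a2 a3; decide
      rcases hcl3 with ⟨e1, e2, e3⟩ | ⟨e1, e2, e3⟩ | ⟨e1, e2, e3⟩ | ⟨e1, e2, e3⟩ | ⟨e1, e2, e3⟩ |
        ⟨e1, e2, e3⟩
      · exact R2 hx hy hw ((cl0 hx).mp e1) ((cl1 hy).mp e2) ((cl2 hw).mp e3) hxy hyw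
      · exact R3 hx hw hy ((cl0 hx).mp e1) ((cl1 hw).mp e3) ((cl2 hy).mp e2) hxy hyw.symm
      · exact R1 hy hx hw ((cl0 hy).mp e2) ((cl1 hx).mp e1) ((cl2 hw).mp e3) hxy.symm hyw
      · exact (R3 hw hx hy ((cl0 hw).mp e3) ((cl1 hx).mp e1) ((cl2 hy).mp e2) hyw.symm hxy).symm
      · exact (R1 hy hw hx ((cl0 hy).mp e2) ((cl1 hw).mp e3) ((cl2 hx).mp e1) hyw hxy.symm).symm
      · exact (R2 hw hy hx ((cl0 hw).mp e3) ((cl1 hy).mp e2) ((cl2 hx).mp e1) hyw.symm hxy.symm).symm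
  · -- case B
    push Not at hL
    -- if all but i, i+1 are small we get a contradiction
    have contra : ∀ i : ZMod 5, ¬ 8 ≤ (N (i + 2)).card → ¬ 8 ≤ (N (i + 3)).card →
        ¬ 8 ≤ (N (i + 4)).card → False := by
      intro i h2 h3 h4
      obtain ⟨j, hj, hj1, hj2⟩ := hL i
      have e : ∀ i j : ZMod 5, j = i ∨ j = i + 1 ∨ j = i + 2 ∨ j = i + 3 ∨ j = i + 4 := by decide
      rcases e i j with rfl | rfl | rfl | rfl | rfl
      · exact hj1 rfl
      · exact hj2 rfl
      · exact h2 hj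
      · exact h3 hj
      · exact h4 hj
    have e1 : ∀ i : ZMod 5, i + 1 + 2 = i + 3 := by decide
    have e2 : ∀ i : ZMod 5, i + 1 + 3 = i + 4 := by decide
    -- two F-neighbours are in the same class
    refine (slin_deg2 (fun v hv => ?_)).mono_k (by norm_num)
    by_cases he : (nb F S' v).Nonempty
    · obtain ⟨w0, hw0⟩ := he
      unfold nb at hw0
      rw [Finset.mem_filter] at hw0
      obtain ⟨hw0S, hvw0⟩ := hw0
      rcases (hmem v).mp hv with h1 | ⟨i, hi, h1⟩
      · -- v in Z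
        rcases (hmem w0).mp hw0S with g | ⟨j0, hj0, g⟩
        · exact absurd hvw0 (Fzz h1 g)
        refine le_trans (Finset.card_le_card ?_) (degN hv j0)
        intro w hw
        unfold nb at hw
        rw [Finset.mem_filter] at hw ⊢
        refine ⟨hw.1, hw.2, ?_⟩
        rcases (hmem w).mp hw.1 with g' | ⟨j, hj, g'⟩
        · exact absurd hw.2 (Fzz h1 g')
        have k1 := facta h1 g ((Fzn h1 g hv hw0S).mp hvw0)
        have k2 := facta h1 g' ((Fzn h1 g' hv hw.1).mp hw.2)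
        rcases rc_z5 j0 j with h | h | h | h | h
        · rw [← h]; exact g'
        · subst h
          rw [e1, e2] at k2
          exact absurd (contra j0 k1.1 k1.2 k2.2) id
        · subst h
          rw [e1, e2] at k1
          exact absurd (contra j k2.1 k2.2 k1.2) id
        · subst h; exact absurd hj k1.1
        · subst h; exact absurd hj0 k2.1
      · -- v in N i
        have key : ∀ w ∈ S', F.Adj v w → (w ∈ Z ∧ ¬ 8 ≤ (N (i + 2)).card ∧ ¬ 8 ≤ (N (i + 3)).card) ∨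
            (w ∈ N (i + 1) ∧ ¬ 8 ≤ (N (i + 2)).card ∧ ¬ 8 ≤ (N (i + 4)).card) ∨
            (w ∈ N (i + 4) ∧ ¬ 8 ≤ (N (i + 1)).card ∧ ¬ 8 ≤ (N (i + 3)).card ∧
              8 ≤ (N (i + 4)).card) := by
          intro w hw hvw
          rcases (hmem w).mp hw with g | ⟨j, hj, g⟩
          · left
            exact ⟨g, facta g h1 ((Fzn g h1 hw hv).mp hvw.symm)⟩
          · rcases Fij h1 g hvw with h | h
            · subst h
              right; left
              exact ⟨g, factb h1 g ((Fnm h1 g hv hw).mp hvw)⟩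
            · subst h
              right; right
              have k := factb g h1 ((Fnm g h1 hw hv).mp hvw.symm)
              have e3 : ∀ i : ZMod 5, i + 1 + 1 = i + 2 := by decide
              rw [a14, e3, e2]
              exact ⟨g, k.1, k.2, hj⟩
        have key2 : ∀ w ∈ S', F.Adj v w → ∀ w' ∈ S', F.Adj v w' →
            (w ∈ Z ∧ w' ∈ Z) ∨ (∃ j, w ∈ N j ∧ w' ∈ N j) := by
          intro w hw hvw w' hw' hvw'
          have e5 : ∀ i : ZMod 5, i + 4 + 2 = i + 1 := by decide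
          have e6 : ∀ i : ZMod 5, i + 4 + 3 = i + 2 := by decide
          have e7 : ∀ i : ZMod 5, i + 4 + 4 = i + 3 := by decide
          rcases key w hw hvw with ⟨a1, a2, a3⟩ | ⟨a1, a2, a3⟩ | ⟨a1, a2, a3, a4⟩ <;>
            rcases key w' hw' hvw' with ⟨b1, b2, b3⟩ | ⟨b1, b2, b3⟩ | ⟨b1, b2, b3, b4⟩
          · exact Or.inl ⟨a1, b1⟩
          · exact absurd (contra i a2 a3 b3) id
          · refine absurd (contra (i + 4) ?_ ?_ ?_) id
            · rw [e5]; exact b2
            · rw [e6]; exact a2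
            · rw [e7]; exact a3
          · exact absurd (contra i a2 b3 a3) id
          · exact Or.inr ⟨_, a1, b1⟩
          · exact absurd b4 a3
          · refine absurd (contra (i + 4) ?_ ?_ ?_) id
            · rw [e5]; exact a2
            · rw [e6]; exact b2
            · rw [e7]; exact a3
          · exact absurd a4 b3
          · exact Or.inr ⟨_, a1, b1⟩
        by_cases hw0Z : w0 ∈ Z
        · refine le_trans (Finset.card_le_card ?_) (degZ hv)
          intro w hw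
          unfold nb at hw
          rw [Finset.mem_filter] at hw ⊢
          refine ⟨hw.1, hw.2, ?_⟩
          rcases key2 w hw.1 hw.2 w0 hw0S hvw0 with h | ⟨j, _, h⟩
          · exact h.1
          · exact absurd h (hz hw0Z)
        · rcases (hmem w0).mp hw0S with g | ⟨j0, hj0, g⟩
          · exact absurd g hw0Z
          refine le_trans (Finset.card_le_card ?_) (degN hv j0)
          intro w hw
          unfold nb at hw
          rw [Finset.mem_filter] at hw ⊢
          refine ⟨hw.1, hw.2, ?_⟩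
          rcases key2 w hw.1 hw.2 w0 hw0S hvw0 with h | ⟨j, h, h'⟩
          · exact absurd h.2 hw0Z
          · rw [hu g h']; exact h
    · rw [Finset.not_nonempty_iff_eq_empty] at he
      rw [he]; simp

end RCore

end Pool.Agent.Helper856.Cw
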