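import Pool.Agent.Helper856.Pair.Defs

open Classical SimpleGraph

namespace Pool.Agent.Helper856.Cw

namespace RFacts

variable {V : Type} {G : SimpleGraph V} {S T : Finset V} {k l : ℕ}

theorem Z_n0 {b : ZMod 5 → V} {i : ZMod 5} {x : V} (hx : N5 G b i x) :
    G.Adj x (b (i + 1)) ∧ G.Adj x (b (i + 4)) ∧ ¬G.Adj x (b i) ∧ ¬G.Adj x (b (i + 2)) ∧
      ¬G.Adj x (b (i + 3)) :=
  ⟨(hx.2 _).2 ((by decide : ∀ i : ZMod 5, i + 1 = i + 1 ∨ i = i + 1 + 1) i),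
   (hx.2 _).2 ((by decide : ∀ i : ZMod 5, i + 4 = i + 1 ∨ i = i + 4 + 1) i),
   fun h => (by decide : ∀ i : ZMod 5, ¬(i = i + 1 ∨ i = i + 1)) i ((hx.2 _).1 h),
   fun h => (by decide : ∀ i : ZMod 5, ¬(i + 2 = i + 1 ∨ i = i + 2 + 1)) i ((hx.2 _).1 h),
   fun h => (by decide : ∀ i : ZMod 5, ¬(i + 3 = i + 1 ∨ i = i + 3 + 1)) i ((hx.2 _).1 h)⟩

theorem Z_n1 {b : ZMod 5 → V} {i : ZMod 5} {x : V} (hx : N5 G b (i + 1) x) :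
    G.Adj x (b (i + 2)) ∧ G.Adj x (b i) ∧ ¬G.Adj x (b (i + 1)) ∧ ¬G.Adj x (b (i + 3)) ∧
      ¬G.Adj x (b (i + 4)) :=
  ⟨(hx.2 _).2 ((by decide : ∀ i : ZMod 5, i + 2 = i + 1 + 1 ∨ i + 1 = i + 2 + 1) i),
   (hx.2 _).2 ((by decide : ∀ i : ZMod 5, i = i + 1 + 1 ∨ i + 1 = i + 1) i),
   fun h => (by decide : ∀ i : ZMod 5, ¬(i + 1 = i + 1 + 1 ∨ i + 1 = i + 1 + 1)) i ((hx.2 _).1 h),
   fun h => (by decide : ∀ i : ZMod 5, ¬(i + 3 = i + 1 + 1 ∨ i + 1 = i + 3 + 1)) i ((hx.2 _).1 h),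
   fun h => (by decide : ∀ i : ZMod 5, ¬(i + 4 = i + 1 + 1 ∨ i + 1 = i + 4 + 1)) i ((hx.2 _).1 h)⟩

theorem Z_n2 {b : ZMod 5 → V} {i : ZMod 5} {x : V} (hx : N5 G b (i + 2) x) :
    G.Adj x (b (i + 3)) ∧ G.Adj x (b (i + 1)) ∧ ¬G.Adj x (b (i + 2)) ∧ ¬G.Adj x (b (i + 4)) ∧
      ¬G.Adj x (b i) :=
  ⟨(hx.2 _).2 ((by decide : ∀ i : ZMod 5, i + 3 = i + 2 + 1 ∨ i + 2 = i + 3 + 1) i),
   (hx.2 _).2 ((by decide : ∀ i : ZMod 5, i + 1 = i + 2 + 1 ∨ i + 2 = i + 1 + 1) i),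
   fun h => (by decide : ∀ i : ZMod 5, ¬(i + 2 = i + 2 + 1 ∨ i + 2 = i + 2 + 1)) i ((hx.2 _).1 h),
   fun h => (by decide : ∀ i : ZMod 5, ¬(i + 4 = i + 2 + 1 ∨ i + 2 = i + 4 + 1)) i ((hx.2 _).1 h),
   fun h => (by decide : ∀ i : ZMod 5, ¬(i = i + 2 + 1 ∨ i + 2 = i + 1)) i ((hx.2 _).1 h)⟩

theorem Z_n3 {b : ZMod 5 → V} {i : ZMod 5} {x : V} (hx : N5 G b (i + 3) x) :
    G.Adj x (b (i + 4)) ∧ G.Adj x (b (i + 2)) ∧ ¬G.Adj x (b (i + 3)) ∧ ¬G.Adj x (b i) ∧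
      ¬G.Adj x (b (i + 1)) :=
  ⟨(hx.2 _).2 ((by decide : ∀ i : ZMod 5, i + 4 = i + 3 + 1 ∨ i + 3 = i + 4 + 1) i),
   (hx.2 _).2 ((by decide : ∀ i : ZMod 5, i + 2 = i + 3 + 1 ∨ i + 3 = i + 2 + 1) i),
   fun h => (by decide : ∀ i : ZMod 5, ¬(i + 3 = i + 3 + 1 ∨ i + 3 = i + 3 + 1)) i ((hx.2 _).1 h),
   fun h => (by decide : ∀ i : ZMod 5, ¬(i = i + 3 + 1 ∨ i + 3 = i + 1)) i ((hx.2 _).1 h),
   fun h => (by decide : ∀ i : ZMod 5, ¬(i + 1 = i + 3 + 1 ∨ i + 3 = i + 1 + 1)) i ((hx.2 _).1 h)⟩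

theorem Z_n4 {b : ZMod 5 → V} {i : ZMod 5} {x : V} (hx : N5 G b (i + 4) x) :
    G.Adj x (b i) ∧ G.Adj x (b (i + 3)) ∧ ¬G.Adj x (b (i + 4)) ∧ ¬G.Adj x (b (i + 1)) ∧
      ¬G.Adj x (b (i + 2)) :=
  ⟨(hx.2 _).2 ((by decide : ∀ i : ZMod 5, i = i + 4 + 1 ∨ i + 4 = i + 1) i),
   (hx.2 _).2 ((by decide : ∀ i : ZMod 5, i + 3 = i + 4 + 1 ∨ i + 4 = i + 3 + 1) i),
   fun h => (by decide : ∀ i : ZMod 5, ¬(i + 4 = i + 4 + 1 ∨ i + 4 = i + 4 + 1)) i ((hx.2 _).1 h),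
   fun h => (by decide : ∀ i : ZMod 5, ¬(i + 1 = i + 4 + 1 ∨ i + 4 = i + 1 + 1)) i ((hx.2 _).1 h),
   fun h => (by decide : ∀ i : ZMod 5, ¬(i + 2 = i + 4 + 1 ∨ i + 4 = i + 2 + 1)) i ((hx.2 _).1 h)⟩

theorem Z_u {b : ZMod 5 → V} {i : ZMod 5} {x : V} (hx : U5 G b i x) :
    G.Adj x (b i) ∧ ¬G.Adj x (b (i + 1)) ∧ ¬G.Adj x (b (i + 2)) ∧ ¬G.Adj x (b (i + 3)) ∧
      ¬G.Adj x (b (i + 4)) :=
  ⟨(hx _).2 rfl,
   fun h => (by decide : ∀ i : ZMod 5, ¬(i + 1 = i)) i ((hx _).1 h),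
   fun h => (by decide : ∀ i : ZMod 5, ¬(i + 2 = i)) i ((hx _).1 h),
   fun h => (by decide : ∀ i : ZMod 5, ¬(i + 3 = i)) i ((hx _).1 h),
   fun h => (by decide : ∀ i : ZMod 5, ¬(i + 4 = i)) i ((hx _).1 h)⟩

theorem Z_z {b : ZMod 5 → V} {x : V} (i : ZMod 5) (hx : Z5 G b x) :
    ¬G.Adj x (b i) ∧ ¬G.Adj x (b (i + 1)) ∧ ¬G.Adj x (b (i + 2)) ∧ ¬G.Adj x (b (i + 3)) ∧
      ¬G.Adj x (b (i + 4)) :=
  ⟨hx _, hx _, hx _, hx _, hx _⟩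

theorem Z_c {b : ZMod 5 → V} (i : ZMod 5) (hb : Cyc5 G b) :
    G.Adj (b i) (b (i + 1)) ∧ G.Adj (b (i + 1)) (b (i + 2)) ∧ G.Adj (b (i + 2)) (b (i + 3)) ∧
    G.Adj (b (i + 3)) (b (i + 4)) ∧ G.Adj (b (i + 4)) (b i) ∧
    ¬G.Adj (b i) (b (i + 2)) ∧ ¬G.Adj (b (i + 1)) (b (i + 3)) ∧ ¬G.Adj (b (i + 2)) (b (i + 4)) ∧
    ¬G.Adj (b (i + 3)) (b i) ∧ ¬G.Adj (b (i + 4)) (b (i + 1)) :=
  ⟨(hb _ _).2 ((by decide : ∀ i : ZMod 5, i + 1 = i + 1 ∨ i = i + 1 + 1) i),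
   (hb _ _).2 ((by decide : ∀ i : ZMod 5, i + 2 = i + 1 + 1 ∨ i + 1 = i + 2 + 1) i),
   (hb _ _).2 ((by decide : ∀ i : ZMod 5, i + 3 = i + 2 + 1 ∨ i + 2 = i + 3 + 1) i),
   (hb _ _).2 ((by decide : ∀ i : ZMod 5, i + 4 = i + 3 + 1 ∨ i + 3 = i + 4 + 1) i),
   (hb _ _).2 ((by decide : ∀ i : ZMod 5, i = i + 4 + 1 ∨ i + 4 = i + 1) i),
   fun h => (by decide : ∀ i : ZMod 5, ¬(i + 2 = i + 1 ∨ i = i + 2 + 1)) i ((hb _ _).1 h),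
   fun h => (by decide : ∀ i : ZMod 5, ¬(i + 3 = i + 1 + 1 ∨ i + 1 = i + 3 + 1)) i ((hb _ _).1 h),
   fun h => (by decide : ∀ i : ZMod 5, ¬(i + 4 = i + 2 + 1 ∨ i + 2 = i + 4 + 1)) i ((hb _ _).1 h),
   fun h => (by decide : ∀ i : ZMod 5, ¬(i = i + 3 + 1 ∨ i + 3 = i + 1)) i ((hb _ _).1 h),
   fun h => (by decide : ∀ i : ZMod 5, ¬(i + 1 = i + 4 + 1 ∨ i + 4 = i + 1 + 1)) i ((hb _ _).1 h)⟩

/-- TARGET -/
theorem r1 (hK : Tri G) (hR : NoR G) {b : ZMod 5 → V} (hb : Cyc5 G b) (i : ZMod 5) {u v w : V} (hu : U5 G b i u)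
    (hv : U5 G b i v) (hw : U5 G b i w) (h1 : u ≠ v) (h2 : u ≠ w) (h3 : v ≠ w) : False := by
  have hs : ∀ x y, G.Adj x y → G.Adj y x := fun x y h => h.symm
  have hK2 : ∀ x y z, G.Adj x y → G.Adj y z → G.Adj x z → False := hK
  have F0 := Z_c i hb
  have F1 := Z_u hu
  have F2 := Z_u hv
  have F3 := Z_u hw
  clear hu
  clear hv
  clear hw
  refine hR (b i) u v w (b (i + 2)) (b (i + 3)) ?_ ?_ ?_ ?_ ?_ ?_ ?_ ?_ ?_ ?_ ?_ ?_ ?_ ?_ ?_ <;> clear hK hR hb <;> grind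

/-- TARGET -/
theorem r2 (hK : Tri G) (hR : NoR G) {b : ZMod 5 → V} (hb : Cyc5 G b) (i : ZMod 5) {z z1 z2 z3 : V}
    (hz : Z5 G b z) (h1 : Z5 G b z1) (h2 : Z5 G b z2) (h3 : Z5 G b z3) (a1 : G.Adj z z1)
    (a2 : G.Adj z z2) (a3 : G.Adj z z3) (d1 : z1 ≠ z2) (d2 : z1 ≠ z3) (d3 : z2 ≠ z3) : False := by
  have hs : ∀ x y, G.Adj x y → G.Adj y x := fun x y h => h.symm
  have hK2 : ∀ x y z, G.Adj x y → G.Adj y z → G.Adj x z → False := hK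
  have F0 := Z_c i hb
  have F1 := Z_z i hz
  have F2 := Z_z i h1
  have F3 := Z_z i h2
  have F4 := Z_z i h3
  clear hz
  clear h1
  clear h2
  clear h3
  refine hR z z1 z2 z3 (b i) (b (i + 1)) ?_ ?_ ?_ ?_ ?_ ?_ ?_ ?_ ?_ ?_ ?_ ?_ ?_ ?_ ?_ <;> clear hK hR hb <;> grind

/-- TARGET -/
theorem r3 (hK : Tri G) (hR : NoR G) {b : ZMod 5 → V} (hb : Cyc5 G b) (i : ZMod 5) {z z1 n : V}
    (hz : Z5 G b z) (h1 : Z5 G b z1) (hn : N5 G b i n) (a : G.Adj z z1) : G.Adj z n ∨ G.Adj z1 n := by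
  by_contra hcon
  rw [not_or] at hcon
  obtain ⟨hcon1, hcon2⟩ := hcon
  have hs : ∀ x y, G.Adj x y → G.Adj y x := fun x y h => h.symm
  have hK2 : ∀ x y z, G.Adj x y → G.Adj y z → G.Adj x z → False := hK
  have F0 := Z_c i hb
  have F1 := Z_z i hz
  have F2 := Z_z i h1
  have F3 := Z_n0 hn
  have D3 := hn.1
  clear hz
  clear h1
  clear hn
  refine hR (b (i + 1)) (b i) (b (i + 2)) n z z1 ?_ ?_ ?_ ?_ ?_ ?_ ?_ ?_ ?_ ?_ ?_ ?_ ?_ ?_ ?_ <;> clear hK hR hb <;> grind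

/-- TARGET -/
theorem r4 (hK : Tri G) (hR : NoR G) {b : ZMod 5 → V} (hb : Cyc5 G b) (i : ZMod 5) {z z1 n m : V}
    (hz : Z5 G b z) (h1 : Z5 G b z1) (hn : N5 G b i n) (hm : N5 G b i m) (hnm : n ≠ m)
    (a : G.Adj z z1) (a1 : G.Adj z n) (a2 : G.Adj z m) : False := by
  have hs : ∀ x y, G.Adj x y → G.Adj y x := fun x y h => h.symm
  have hK2 : ∀ x y z, G.Adj x y → G.Adj y z → G.Adj x z → False := hK
  have F0 := Z_c i hb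
  have F1 := Z_z i hz
  have F2 := Z_z i h1
  have F3 := Z_n0 hn
  have D3 := hn.1
  have F4 := Z_n0 hm
  have D4 := hm.1
  clear hz
  clear h1
  clear hn
  clear hm
  refine hR z z1 n m (b (i + 2)) (b (i + 3)) ?_ ?_ ?_ ?_ ?_ ?_ ?_ ?_ ?_ ?_ ?_ ?_ ?_ ?_ ?_ <;> clear hK hR hb <;> grind

/-- TARGET -/
theorem r5 (hK : Tri G) (hR : NoR G) {b : ZMod 5 → V} (hb : Cyc5 G b) (i : ZMod 5) {z n1 n2 n3 : V}
    (hz : Z5 G b z) (h1 : N5 G b i n1) (h2 : N5 G b i n2) (h3 : N5 G b i n3) (a1 : G.Adj z n1)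
    (a2 : G.Adj z n2) (a3 : G.Adj z n3) (d1 : n1 ≠ n2) (d2 : n1 ≠ n3) (d3 : n2 ≠ n3) : False := by
  have hs : ∀ x y, G.Adj x y → G.Adj y x := fun x y h => h.symm
  have hK2 : ∀ x y z, G.Adj x y → G.Adj y z → G.Adj x z → False := hK
  have F0 := Z_c i hb
  have F1 := Z_z i hz
  have F2 := Z_n0 h1
  have D2 := h1.1
  have F3 := Z_n0 h2
  have D3 := h2.1
  have F4 := Z_n0 h3
  have D4 := h3.1
  clear hz
  clear h1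
  clear h2
  clear h3
  refine hR z n1 n2 n3 (b (i + 2)) (b (i + 3)) ?_ ?_ ?_ ?_ ?_ ?_ ?_ ?_ ?_ ?_ ?_ ?_ ?_ ?_ ?_ <;> clear hK hR hb <;> grind

/-- TARGET -/
theorem r6 (hK : Tri G) (hR : NoR G) {b : ZMod 5 → V} (hb : Cyc5 G b) (i : ZMod 5) {n z1 z2 z3 : V}
    (hn : N5 G b i n) (h1 : Z5 G b z1) (h2 : Z5 G b z2) (h3 : Z5 G b z3) (a1 : G.Adj n z1)
    (a2 : G.Adj n z2) (a3 : G.Adj n z3) (d1 : z1 ≠ z2) (d2 : z1 ≠ z3) (d3 : z2 ≠ z3) : False := by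
  have hs : ∀ x y, G.Adj x y → G.Adj y x := fun x y h => h.symm
  have hK2 : ∀ x y z, G.Adj x y → G.Adj y z → G.Adj x z → False := hK
  have F0 := Z_c i hb
  have F1 := Z_n0 hn
  have D1 := hn.1
  have F2 := Z_z i h1
  have F3 := Z_z i h2
  have F4 := Z_z i h3
  clear hn
  clear h1
  clear h2
  clear h3
  refine hR n z1 z2 z3 (b (i + 2)) (b (i + 3)) ?_ ?_ ?_ ?_ ?_ ?_ ?_ ?_ ?_ ?_ ?_ ?_ ?_ ?_ ?_ <;> clear hK hR hb <;> grind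

/-- TARGET -/
theorem r7 (hK : Tri G) (hR : NoR G) {b : ZMod 5 → V} (hb : Cyc5 G b) (i : ZMod 5) {x y1 y2 y3 : V}
    (hx : N5 G b i x) (h1 : N5 G b (i + 1) y1) (h2 : N5 G b (i + 1) y2) (h3 : N5 G b (i + 1) y3)
    (a1 : ¬G.Adj x y1) (a2 : ¬G.Adj x y2) (a3 : ¬G.Adj x y3) (d1 : y1 ≠ y2) (d2 : y1 ≠ y3)
    (d3 : y2 ≠ y3) : False := by
  have hs : ∀ x y, G.Adj x y → G.Adj y x := fun x y h => h.symm
  have hK2 : ∀ x y z, G.Adj x y → G.Adj y z → G.Adj x z → False := hK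
  have F0 := Z_c i hb
  have F1 := Z_n0 hx
  have D1 := hx.1
  have F2 := Z_n1 h1
  have D2 := h1.1
  have F3 := Z_n1 h2
  have D3 := h2.1
  have F4 := Z_n1 h3
  have D4 := h3.1
  clear hx
  clear h1
  clear h2
  clear h3
  refine hR (b (i + 2)) y1 y2 y3 (b (i + 4)) x ?_ ?_ ?_ ?_ ?_ ?_ ?_ ?_ ?_ ?_ ?_ ?_ ?_ ?_ ?_ <;> clear hK hR hb <;> grind

/-- TARGET -/
theorem r7m (hK : Tri G) (hR : NoR G) {b : ZMod 5 → V} (hb : Cyc5 G b) (i : ZMod 5) {x y1 y2 y3 : V}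
    (hx : N5 G b i x) (h1 : N5 G b (i + 4) y1) (h2 : N5 G b (i + 4) y2) (h3 : N5 G b (i + 4) y3)
    (a1 : ¬G.Adj x y1) (a2 : ¬G.Adj x y2) (a3 : ¬G.Adj x y3) (d1 : y1 ≠ y2) (d2 : y1 ≠ y3)
    (d3 : y2 ≠ y3) : False := by
  have hs : ∀ x y, G.Adj x y → G.Adj y x := fun x y h => h.symm
  have hK2 : ∀ x y z, G.Adj x y → G.Adj y z → G.Adj x z → False := hK
  have F0 := Z_c i hb
  have F1 := Z_n0 hx
  have D1 := hx.1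
  have F2 := Z_n4 h1
  have D2 := h1.1
  have F3 := Z_n4 h2
  have D3 := h2.1
  have F4 := Z_n4 h3
  have D4 := h3.1
  clear hx
  clear h1
  clear h2
  clear h3
  refine hR (b (i + 3)) y1 y2 y3 (b (i + 1)) x ?_ ?_ ?_ ?_ ?_ ?_ ?_ ?_ ?_ ?_ ?_ ?_ ?_ ?_ ?_ <;> clear hK hR hb <;> grind

/-- TARGET -/
theorem r8 (hK : Tri G) (hR : NoR G) {b : ZMod 5 → V} (hb : Cyc5 G b) (i : ZMod 5) {x y w1 w2 : V}
    (hx : N5 G b i x) (hy : N5 G b (i + 4) y) (h1 : N5 G b (i + 1) w1) (h2 : N5 G b (i + 1) w2)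
    (hw : w1 ≠ w2) (a1 : G.Adj x w1) (a2 : G.Adj x w2) : G.Adj x y := by
  by_contra hcon
  have hs : ∀ x y, G.Adj x y → G.Adj y x := fun x y h => h.symm
  have hK2 : ∀ x y z, G.Adj x y → G.Adj y z → G.Adj x z → False := hK
  have F0 := Z_c i hb
  have F1 := Z_n0 hx
  have D1 := hx.1
  have F2 := Z_n4 hy
  have D2 := hy.1
  have F3 := Z_n1 h1
  have D3 := h1.1
  have F4 := Z_n1 h2
  have D4 := h2.1
  clear hx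
  clear hy
  clear h1
  clear h2
  refine hR x (b (i + 1)) w1 w2 (b (i + 3)) y ?_ ?_ ?_ ?_ ?_ ?_ ?_ ?_ ?_ ?_ ?_ ?_ ?_ ?_ ?_ <;> clear hK hR hb <;> grind

/-- TARGET -/
theorem r8m (hK : Tri G) (hR : NoR G) {b : ZMod 5 → V} (hb : Cyc5 G b) (i : ZMod 5) {x y w1 w2 : V}
    (hx : N5 G b i x) (hy : N5 G b (i + 1) y) (h1 : N5 G b (i + 4) w1) (h2 : N5 G b (i + 4) w2)
    (hw : w1 ≠ w2) (a1 : G.Adj x w1) (a2 : G.Adj x w2) : G.Adj x y := by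
  by_contra hcon
  have hs : ∀ x y, G.Adj x y → G.Adj y x := fun x y h => h.symm
  have hK2 : ∀ x y z, G.Adj x y → G.Adj y z → G.Adj x z → False := hK
  have F0 := Z_c i hb
  have F1 := Z_n0 hx
  have D1 := hx.1
  have F2 := Z_n1 hy
  have D2 := hy.1
  have F3 := Z_n4 h1
  have D3 := h1.1
  have F4 := Z_n4 h2
  have D4 := h2.1
  clear hx
  clear hy
  clear h1
  clear h2
  refine hR x (b (i + 4)) w1 w2 (b (i + 2)) y ?_ ?_ ?_ ?_ ?_ ?_ ?_ ?_ ?_ ?_ ?_ ?_ ?_ ?_ ?_ <;> clear hK hR hb <;> grind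

/-- TARGET -/
theorem r9 (hK : Tri G) (hR : NoR G) {b : ZMod 5 → V} (hb : Cyc5 G b) (i : ZMod 5) {z n m1 m2 : V}
    (hz : Z5 G b z) (hn : N5 G b i n) (h1 : N5 G b (i + 2) m1) (h2 : N5 G b (i + 2) m2)
    (hm : m1 ≠ m2) (a : G.Adj z n) : G.Adj z m1 ∨ G.Adj z m2 := by
  by_contra hcon
  rw [not_or] at hcon
  obtain ⟨hcon1, hcon2⟩ := hcon
  have hs : ∀ x y, G.Adj x y → G.Adj y x := fun x y h => h.symm
  have hK2 : ∀ x y z, G.Adj x y → G.Adj y z → G.Adj x z → False := hK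
  have F0 := Z_c i hb
  have F1 := Z_z i hz
  have F2 := Z_n0 hn
  have D2 := hn.1
  have F3 := Z_n2 h1
  have D3 := h1.1
  have F4 := Z_n2 h2
  have D4 := h2.1
  clear hz
  clear hn
  clear h1
  clear h2
  refine hR (b (i + 3)) (b (i + 2)) m1 m2 z n ?_ ?_ ?_ ?_ ?_ ?_ ?_ ?_ ?_ ?_ ?_ ?_ ?_ ?_ ?_ <;> clear hK hR hb <;> grind

/-- TARGET -/
theorem r9m (hK : Tri G) (hR : NoR G) {b : ZMod 5 → V} (hb : Cyc5 G b) (i : ZMod 5) {z n m1 m2 : V}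
    (hz : Z5 G b z) (hn : N5 G b i n) (h1 : N5 G b (i + 3) m1) (h2 : N5 G b (i + 3) m2)
    (hm : m1 ≠ m2) (a : G.Adj z n) : G.Adj z m1 ∨ G.Adj z m2 := by
  by_contra hcon
  rw [not_or] at hcon
  obtain ⟨hcon1, hcon2⟩ := hcon
  have hs : ∀ x y, G.Adj x y → G.Adj y x := fun x y h => h.symm
  have hK2 : ∀ x y z, G.Adj x y → G.Adj y z → G.Adj x z → False := hK
  have F0 := Z_c i hb
  have F1 := Z_z i hz
  have F2 := Z_n0 hn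
  have D2 := hn.1
  have F3 := Z_n3 h1
  have D3 := h1.1
  have F4 := Z_n3 h2
  have D4 := h2.1
  clear hz
  clear hn
  clear h1
  clear h2
  refine hR (b (i + 2)) (b (i + 3)) m1 m2 z n ?_ ?_ ?_ ?_ ?_ ?_ ?_ ?_ ?_ ?_ ?_ ?_ ?_ ?_ ?_ <;> clear hK hR hb <;> grind

/-- TARGET -/
theorem r10 (hK : Tri G) (hR : NoR G) {b : ZMod 5 → V} (hb : Cyc5 G b) (i : ZMod 5) {z n m x1 : V}
    (hz : Z5 G b z) (hn : N5 G b i n) (hm : N5 G b (i + 1) m) (hx : N5 G b i x1)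
    (a : G.Adj z n) (a1 : G.Adj m x1) (a2 : ¬G.Adj z x1) : G.Adj n m ∨ G.Adj z m := by
  by_contra hcon
  rw [not_or] at hcon
  obtain ⟨hcon1, hcon2⟩ := hcon
  have hs : ∀ x y, G.Adj x y → G.Adj y x := fun x y h => h.symm
  have hK2 : ∀ x y z, G.Adj x y → G.Adj y z → G.Adj x z → False := hK
  have F0 := Z_c i hb
  have F1 := Z_z i hz
  have F2 := Z_n0 hn
  have D2 := hn.1
  have F3 := Z_n1 hm
  have D3 := hm.1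
  have F4 := Z_n0 hx
  have D4 := hx.1
  clear hz
  clear hn
  clear hm
  clear hx
  refine hR m (b i) (b (i + 2)) x1 z n ?_ ?_ ?_ ?_ ?_ ?_ ?_ ?_ ?_ ?_ ?_ ?_ ?_ ?_ ?_ <;> clear hK hR hb <;> grind

/-- TARGET -/
theorem r10m (hK : Tri G) (hR : NoR G) {b : ZMod 5 → V} (hb : Cyc5 G b) (i : ZMod 5) {z n m x1 : V}
    (hz : Z5 G b z) (hn : N5 G b (i + 1) n) (hm : N5 G b i m) (hx : N5 G b (i + 1) x1)
    (a : G.Adj z n) (a1 : G.Adj m x1) (a2 : ¬G.Adj z x1) : G.Adj n m ∨ G.Adj z m := by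
  by_contra hcon
  rw [not_or] at hcon
  obtain ⟨hcon1, hcon2⟩ := hcon
  have hs : ∀ x y, G.Adj x y → G.Adj y x := fun x y h => h.symm
  have hK2 : ∀ x y z, G.Adj x y → G.Adj y z → G.Adj x z → False := hK
  have F0 := Z_c i hb
  have F1 := Z_z i hz
  have F2 := Z_n1 hn
  have D2 := hn.1
  have F3 := Z_n0 hm
  have D3 := hm.1
  have F4 := Z_n1 hx
  have D4 := hx.1
  clear hz
  clear hn
  clear hm
  clear hx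
  refine hR m (b (i + 1)) (b (i + 4)) x1 z n ?_ ?_ ?_ ?_ ?_ ?_ ?_ ?_ ?_ ?_ ?_ ?_ ?_ ?_ ?_ <;> clear hK hR hb <;> grind

end RFacts

end Pool.Agent.Helper856.Cw
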