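import Pool.Agent.Helper856.Pair.Defs
import Pool.Agent.Helper856.Cw.Basic
import Pool.Agent.Helper856.Pair.Deg2
import Pool.Agent.Helper856.Pair.RFacts
import Pool.Agent.Helper856.Pair.RCore

open Classical SimpleGraph

namespace Pool.Agent.Helper856.Cw

open Deg2 (slin_deg2)
open RFacts (r1 r2 r3 r4 r5 r6 r7 r7m r8 r8m r9 r9m r10 r10m)
open RCore (r_core)

namespace RC5

variable {V : Type} {G : SimpleGraph V} {S T : Finset V} {k l : ℕ}

lemma card_le_two' {T : Finset V} (h : ∀ a ∈ T, ∀ b ∈ T, ∀ c ∈ T, a ≠ b → a ≠ c → b ≠ c → False) :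
    T.card ≤ 2 := by
  by_contra hc
  rw [not_le, Finset.two_lt_card] at hc
  obtain ⟨a, ha, b, hb, c, hc, h1, h2, h3⟩ := hc
  exact h a ha b hb c hc h1 h2 h3

lemma class5 (hK : Tri G) {b : ZMod 5 → V} (hb : Cyc5 G b) (x : V) (hx : ∀ i, x ≠ b i) :
    Z5 G b x ∨ (∃ i, U5 G b i x) ∨ (∃ i, N5 G b i x) := by
  have key : ∀ j : ZMod 5, j = 0 ∨ j = 1 ∨ j = 2 ∨ j = 3 ∨ j = 4 := by decide
  have hc : ∀ i j : ZMod 5, j = i + 1 → G.Adj x (b i) → G.Adj x (b j) → False := by
    intro i j hj h1 h2
    exact hK x (b i) (b j) h1 ((hb i j).2 (Or.inl hj)) h2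
  have c01 := hc 0 1 (by decide)
  have c12 := hc 1 2 (by decide)
  have c23 := hc 2 3 (by decide)
  have c34 := hc 3 4 (by decide)
  have c40 := hc 4 0 (by decide)
  by_cases h0 : G.Adj x (b 0)
  · have h1 : ¬ G.Adj x (b 1) := fun h => c01 h0 h
    have h4 : ¬ G.Adj x (b 4) := fun h => c40 h h0
    by_cases h2 : G.Adj x (b 2)
    · have h3 : ¬ G.Adj x (b 3) := fun h => c23 h2 h
      refine Or.inr (Or.inr ⟨1, hx 1, fun j => ?_⟩)
      rcases key j with rfl | rfl | rfl | rfl | rfl
      · exact iff_of_true h0 (by decide)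
      · exact iff_of_false h1 (by decide)
      · exact iff_of_true h2 (by decide)
      · exact iff_of_false h3 (by decide)
      · exact iff_of_false h4 (by decide)
    · by_cases h3 : G.Adj x (b 3)
      · refine Or.inr (Or.inr ⟨4, hx 4, fun j => ?_⟩)
        rcases key j with rfl | rfl | rfl | rfl | rfl
        · exact iff_of_true h0 (by decide)
        · exact iff_of_false h1 (by decide)
        · exact iff_of_false h2 (by decide)
        · exact iff_of_true h3 (by decide)
        · exact iff_of_false h4 (by decide)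
      · refine Or.inr (Or.inl ⟨0, fun j => ?_⟩)
        rcases key j with rfl | rfl | rfl | rfl | rfl
        · exact iff_of_true h0 (by decide)
        · exact iff_of_false h1 (by decide)
        · exact iff_of_false h2 (by decide)
        · exact iff_of_false h3 (by decide)
        · exact iff_of_false h4 (by decide)
  · by_cases h1 : G.Adj x (b 1)
    · have h2 : ¬ G.Adj x (b 2) := fun h => c12 h1 h
      by_cases h3 : G.Adj x (b 3)
      · have h4 : ¬ G.Adj x (b 4) := fun h => c34 h3 h
        refine Or.inr (Or.inr ⟨2, hx 2, fun j => ?_⟩)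
        rcases key j with rfl | rfl | rfl | rfl | rfl
        · exact iff_of_false h0 (by decide)
        · exact iff_of_true h1 (by decide)
        · exact iff_of_false h2 (by decide)
        · exact iff_of_true h3 (by decide)
        · exact iff_of_false h4 (by decide)
      · by_cases h4 : G.Adj x (b 4)
        · refine Or.inr (Or.inr ⟨0, hx 0, fun j => ?_⟩)
          rcases key j with rfl | rfl | rfl | rfl | rfl
          · exact iff_of_false h0 (by decide)
          · exact iff_of_true h1 (by decide)
          · exact iff_of_false h2 (by decide)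
          · exact iff_of_false h3 (by decide)
          · exact iff_of_true h4 (by decide)
        · refine Or.inr (Or.inl ⟨1, fun j => ?_⟩)
          rcases key j with rfl | rfl | rfl | rfl | rfl
          · exact iff_of_false h0 (by decide)
          · exact iff_of_true h1 (by decide)
          · exact iff_of_false h2 (by decide)
          · exact iff_of_false h3 (by decide)
          · exact iff_of_false h4 (by decide)
    · by_cases h2 : G.Adj x (b 2)
      · have h3 : ¬ G.Adj x (b 3) := fun h => c23 h2 h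
        by_cases h4 : G.Adj x (b 4)
        · refine Or.inr (Or.inr ⟨3, hx 3, fun j => ?_⟩)
          rcases key j with rfl | rfl | rfl | rfl | rfl
          · exact iff_of_false h0 (by decide)
          · exact iff_of_false h1 (by decide)
          · exact iff_of_true h2 (by decide)
          · exact iff_of_false h3 (by decide)
          · exact iff_of_true h4 (by decide)
        · refine Or.inr (Or.inl ⟨2, fun j => ?_⟩)
          rcases key j with rfl | rfl | rfl | rfl | rfl
          · exact iff_of_false h0 (by decide)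
          · exact iff_of_false h1 (by decide)
          · exact iff_of_true h2 (by decide)
          · exact iff_of_false h3 (by decide)
          · exact iff_of_false h4 (by decide)
      · by_cases h3 : G.Adj x (b 3)
        · have h4 : ¬ G.Adj x (b 4) := fun h => c34 h3 h
          refine Or.inr (Or.inl ⟨3, fun j => ?_⟩)
          rcases key j with rfl | rfl | rfl | rfl | rfl
          · exact iff_of_false h0 (by decide)
          · exact iff_of_false h1 (by decide)
          · exact iff_of_false h2 (by decide)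
          · exact iff_of_true h3 (by decide)
          · exact iff_of_false h4 (by decide)
        · by_cases h4 : G.Adj x (b 4)
          · refine Or.inr (Or.inl ⟨4, fun j => ?_⟩)
            rcases key j with rfl | rfl | rfl | rfl | rfl
            · exact iff_of_false h0 (by decide)
            · exact iff_of_false h1 (by decide)
            · exact iff_of_false h2 (by decide)
            · exact iff_of_false h3 (by decide)
            · exact iff_of_true h4 (by decide)
          · refine Or.inl fun j => ?_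
            rcases key j with rfl | rfl | rfl | rfl | rfl
            · exact h0
            · exact h1
            · exact h2
            · exact h3
            · exact h4

/-- TARGET -/
theorem r_c5 (hK : Tri G) (hR : NoR G) (S : Finset V) {b : ZMod 5 → V} (hb : Cyc5 G b) :
    SLin 2000 G S := by
  set N : ZMod 5 → Finset V := fun i => S.filter (fun x => N5 G b i x) with hN
  set Z : Finset V := S.filter (fun x => Z5 G b x) with hZ
  set U : ZMod 5 → Finset V := fun i => S.filter (fun x => U5 G b i x) with hU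
  have mN : ∀ i x, x ∈ N i ↔ x ∈ S ∧ N5 G b i x := fun i x => by rw [hN]; exact Finset.mem_filter
  have mZ : ∀ x, x ∈ Z ↔ x ∈ S ∧ Z5 G b x := fun x => by rw [hZ]; exact Finset.mem_filter
  have mU : ∀ i x, x ∈ U i ↔ x ∈ S ∧ U5 G b i x := fun i x => by rw [hU]; exact Finset.mem_filter
  set F1 : Finset V := Finset.univ.image b with hF1
  set F2 : Finset V := Finset.univ.biUnion U with hF2
  have cF1 : F1.card ≤ 5 := by
    refine Finset.card_image_le.trans ?_
    rw [Finset.card_univ, ZMod.card]
  have bU : ∀ i, (U i).card ≤ 2 := fun i => card_le_two' fun x hx y hy z hz h1 h2 h3 =>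
    r1 hK hR hb i ((mU i x).1 hx).2 ((mU i y).1 hy).2 ((mU i z).1 hz).2 h1 h2 h3
  have cF2 : F2.card ≤ 10 := by
    refine (Finset.card_biUnion_le_card_mul _ _ 2 (fun i _ => bU i)).trans ?_
    rw [Finset.card_univ, ZMod.card]
  have hcov : S \ (F1 ∪ F2) ⊆ Z ∪ Finset.univ.biUnion N := by
    intro x hx
    rw [Finset.mem_sdiff, Finset.mem_union, not_or] at hx
    obtain ⟨hxS, hx1, hx2⟩ := hx
    have h1 : ∀ i, x ≠ b i := fun i h => hx1 (Finset.mem_image.2 ⟨i, Finset.mem_univ i, h.symm⟩)
    have h2 : ∀ i, ¬ U5 G b i x := fun i h =>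
      hx2 (Finset.mem_biUnion.2 ⟨i, Finset.mem_univ i, (mU i x).2 ⟨hxS, h⟩⟩)
    rcases class5 hK hb x h1 with h | ⟨i, h⟩ | ⟨i, h⟩
    · exact Finset.mem_union_left _ ((mZ x).2 ⟨hxS, h⟩)
    · exact absurd h (h2 i)
    · exact Finset.mem_union_right _ (Finset.mem_biUnion.2 ⟨i, Finset.mem_univ i, (mN i x).2 ⟨hxS, h⟩⟩)
  by_cases hI : Ind G Z
  · have hcore : SLin 1000 G (Z ∪ Finset.univ.biUnion N) := by
      refine r_core hK Z N ?_ ?_ hI ?_ ?_ ?_ ?_ ?_ ?_ ?_ ?_ ?_ ?_ ?_ ?_
      · intro i
        rw [Finset.disjoint_left]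
        intro x hx hx'
        exact ((mZ x).1 hx).2 (i + 1) ((((mN i x).1 hx').2.2 (i + 1)).2 (Or.inl rfl))
      · intro i j hij
        rw [Finset.disjoint_left]
        intro x hx hx'
        have key : ∀ i j : ZMod 5, (∀ k, (k = i + 1 ∨ i = k + 1) ↔ (k = j + 1 ∨ j = k + 1)) → i = j := by
          decide
        exact hij (key i j fun k => (((mN i x).1 hx).2.2 k).symm.trans (((mN j x).1 hx').2.2 k))
      · intro i x hx y hy hxy
        exact hK x y (b (i + 1)) hxy ((((mN i y).1 hy).2.2 (i + 1)).2 (Or.inl rfl))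
          ((((mN i x).1 hx).2.2 (i + 1)).2 (Or.inl rfl))
      · intro i x hx y hy hxy
        exact hK x y (b (i + 1)) hxy ((((mN (i + 2) y).1 hy).2.2 (i + 1)).2 (Or.inr (by ring)))
          ((((mN i x).1 hx).2.2 (i + 1)).2 (Or.inl rfl))
      · intro i z hz
        refine card_le_two' fun x hx y hy w hw h1 h2 h3 => ?_
        have hx' := Finset.mem_filter.1 hx
        have hy' := Finset.mem_filter.1 hy
        have hw' := Finset.mem_filter.1 hw
        exact r5 hK hR hb i ((mZ z).1 hz).2 ((mN i x).1 hx'.1).2 ((mN i y).1 hy'.1).2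
          ((mN i w).1 hw'.1).2 hx'.2 hy'.2 hw'.2 h1 h2 h3
      · intro i n hn
        refine card_le_two' fun x hx y hy w hw h1 h2 h3 => ?_
        have hx' := Finset.mem_filter.1 hx
        have hy' := Finset.mem_filter.1 hy
        have hw' := Finset.mem_filter.1 hw
        exact r6 hK hR hb i ((mN i n).1 hn).2 ((mZ x).1 hx'.1).2 ((mZ y).1 hy'.1).2
          ((mZ w).1 hw'.1).2 hx'.2 hy'.2 hw'.2 h1 h2 h3
      · intro i n hn
        refine card_le_two' fun x hx y hy w hw h1 h2 h3 => ?_
        have hx' := Finset.mem_filter.1 hx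
        have hy' := Finset.mem_filter.1 hy
        have hw' := Finset.mem_filter.1 hw
        exact r7 hK hR hb i ((mN i n).1 hn).2 ((mN _ x).1 hx'.1).2 ((mN _ y).1 hy'.1).2
          ((mN _ w).1 hw'.1).2 hx'.2 hy'.2 hw'.2 h1 h2 h3
      · intro i n hn
        refine card_le_two' fun x hx y hy w hw h1 h2 h3 => ?_
        have hx' := Finset.mem_filter.1 hx
        have hy' := Finset.mem_filter.1 hy
        have hw' := Finset.mem_filter.1 hw
        exact r7m hK hR hb i ((mN i n).1 hn).2 ((mN _ x).1 hx'.1).2 ((mN _ y).1 hy'.1).2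
          ((mN _ w).1 hw'.1).2 hx'.2 hy'.2 hw'.2 h1 h2 h3
      · intro i x hx y hy w1 hw1 w2 hw2 hw a1 a2
        exact r8 hK hR hb i ((mN _ x).1 hx).2 ((mN _ y).1 hy).2 ((mN _ w1).1 hw1).2
          ((mN _ w2).1 hw2).2 hw a1 a2
      · intro i x hx y hy w1 hw1 w2 hw2 hw a1 a2
        exact r8m hK hR hb i ((mN _ x).1 hx).2 ((mN _ y).1 hy).2 ((mN _ w1).1 hw1).2
          ((mN _ w2).1 hw2).2 hw a1 a2
      · intro i z hz n hn m1 hm1 m2 hm2 hm a
        exact r9 hK hR hb i ((mZ z).1 hz).2 ((mN _ n).1 hn).2 ((mN _ m1).1 hm1).2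
          ((mN _ m2).1 hm2).2 hm a
      · intro i z hz n hn m1 hm1 m2 hm2 hm a
        exact r9m hK hR hb i ((mZ z).1 hz).2 ((mN _ n).1 hn).2 ((mN _ m1).1 hm1).2
          ((mN _ m2).1 hm2).2 hm a
      · intro i z hz n hn m hm x hx a a1 a2
        exact r10 hK hR hb i ((mZ z).1 hz).2 ((mN _ n).1 hn).2 ((mN _ m).1 hm).2
          ((mN _ x).1 hx).2 a a1 a2
      · intro i z hz n hn m hm x hx a a1 a2
        exact r10m hK hR hb i ((mZ z).1 hz).2 ((mN _ n).1 hn).2 ((mN _ m).1 hm).2
          ((mN _ x).1 hx).2 a a1 a2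
    refine SLin.mono_k (SLin.add (F1 ∪ F2) (SLin.subset hcore hcov)) ?_
    have := Finset.card_union_le F1 F2
    omega
  · unfold Ind at hI
    push Not at hI
    obtain ⟨z, hz, z1, hz1, hzz⟩ := hI
    have hz' := ((mZ z).1 hz).2
    have hz1' := ((mZ z1).1 hz1).2
    have bN : ∀ i, (N i).card ≤ 2 := by
      intro i
      refine card_le_two' fun x hx y hy w hw h1 h2 h3 => ?_
      have hx' := ((mN i x).1 hx).2
      have hy' := ((mN i y).1 hy).2
      have hw' := ((mN i w).1 hw).2
      have ex := r3 hK hR hb i hz' hz1' hx' hzz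
      have ey := r3 hK hR hb i hz' hz1' hy' hzz
      have ew := r3 hK hR hb i hz' hz1' hw' hzz
      rcases ex with ex | ex <;> rcases ey with ey | ey <;> rcases ew with ew | ew
      · exact r4 hK hR hb i hz' hz1' hx' hy' h1 hzz ex ey
      · exact r4 hK hR hb i hz' hz1' hx' hy' h1 hzz ex ey
      · exact r4 hK hR hb i hz' hz1' hx' hw' h2 hzz ex ew
      · exact r4 hK hR hb i hz1' hz' hy' hw' h3 hzz.symm ey ew
      · exact r4 hK hR hb i hz' hz1' hy' hw' h3 hzz ey ew
      · exact r4 hK hR hb i hz1' hz' hx' hw' h2 hzz.symm ex ew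
      · exact r4 hK hR hb i hz1' hz' hx' hy' h1 hzz.symm ex ey
      · exact r4 hK hR hb i hz1' hz' hx' hy' h1 hzz.symm ex ey
    have cN : (Finset.univ.biUnion N).card ≤ 10 := by
      refine (Finset.card_biUnion_le_card_mul _ _ 2 (fun i _ => bN i)).trans ?_
      rw [Finset.card_univ, ZMod.card]
    have hZd : SLin 3 G Z := by
      refine (slin_deg2 fun v hv => card_le_two' fun x hx y hy w hw h1 h2 h3 => ?_).toS
      have hx' := Finset.mem_filter.1 hx
      have hy' := Finset.mem_filter.1 hy
      have hw' := Finset.mem_filter.1 hw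
      exact r2 hK hR hb 0 ((mZ v).1 hv).2 ((mZ x).1 hx'.1).2 ((mZ y).1 hy'.1).2
        ((mZ w).1 hw'.1).2 hx'.2 hy'.2 hw'.2 h1 h2 h3
    have hsub : S \ ((F1 ∪ F2) ∪ Finset.univ.biUnion N) ⊆ Z := by
      intro x hx
      rw [Finset.mem_sdiff, Finset.mem_union, not_or] at hx
      obtain ⟨hxS, hx1, hx2⟩ := hx
      have := hcov (Finset.mem_sdiff.2 ⟨hxS, hx1⟩)
      rcases Finset.mem_union.1 this with h | h
      · exact h
      · exact absurd h hx2
    refine SLin.mono_k (SLin.add ((F1 ∪ F2) ∪ Finset.univ.biUnion N) (SLin.subset hZd hsub)) ?_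
    have h1 := Finset.card_union_le F1 F2
    have h2 := Finset.card_union_le (F1 ∪ F2) (Finset.univ.biUnion N)
    omega

end RC5

end Pool.Agent.Helper856.Cw
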