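import Pool.Agent.Helper856.Pair.Defs
import Pool.Agent.Helper856.Cw.Basic
import Pool.Agent.Helper856.Pair.Deg2
import Pool.Agent.Helper856.Cw.OddHole
import Pool.Agent.Helper856.Pair.RC5

open Classical SimpleGraph

namespace Pool.Agent.Helper856.Cw

open Deg2 (slin_deg2)
open OddHole (odd_hole)
open RC5 (r_c5)

namespace RMain

variable {V : Type} {G : SimpleGraph V} {S T : Finset V} {k l : ℕ}

/-- TARGET -/
theorem r_main (hK : Tri G) (hR : NoR G)
    (hbip : ∀ A B : Finset V, Disjoint A B → Ind G A → Ind G B → SLin 1000 G (A ∪ B))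
    (S : Finset V) : SLin 2000 G S := by
  rcases odd_hole hK S with ⟨A, B, hAB, hd, hA, hB⟩ | ⟨n, hodd, hn5, f, hfS, hinj, hadj, hcyc, -⟩
  · rw [← hAB]
    exact (hbip A B hd hA hB).mono_k (by norm_num)
  by_cases h5 : n = 5
  · subst h5
    exact r_c5 hK hR S (b := f) hadj
  have hn7 : 7 ≤ n := by
    obtain ⟨t, ht⟩ := hodd
    omega
  have hne : ∀ a : ℕ, 0 < a → a < n → (a : ZMod n) ≠ 0 := by
    intro a ha han h
    rw [ZMod.natCast_eq_zero_iff] at h
    exact absurd (Nat.le_of_dvd ha h) (by omega)
  have e1 : (1 : ZMod n) ≠ 0 := by exact_mod_cast hne 1 (by omega) (by omega)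
  have e2 : (2 : ZMod n) ≠ 0 := by exact_mod_cast hne 2 (by omega) (by omega)
  have e3 : (3 : ZMod n) ≠ 0 := by exact_mod_cast hne 3 (by omega) (by omega)
  have e4 : (4 : ZMod n) ≠ 0 := by exact_mod_cast hne 4 (by omega) (by omega)
  have e5 : (5 : ZMod n) ≠ 0 := by exact_mod_cast hne 5 (by omega) (by omega)
  have e6 : (6 : ZMod n) ≠ 0 := by exact_mod_cast hne 6 (by omega) (by omega)
  -- (1)
  have off : ∀ w ∈ S, (∀ i, w ≠ f i) → ∀ k, ¬ G.Adj w (f k) := by
    intro w hwS hw k hk
    refine hR (f k) w (f (k - 1)) (f (k + 1)) (f (k + 3)) (f (k + 4)) hk.symm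
      ((hadj _ _).2 (Or.inr (by ring))) ((hadj _ _).2 (Or.inl rfl))
      ((hadj _ _).2 (Or.inl (by ring))) (hw _) (hw _) ?_ ?_ ?_ ?_ ?_ ?_ ?_ ?_ ?_
    · intro h
      have := hinj h
      exact e2 (by linear_combination -this)
    · intro h
      rcases (hadj _ _).1 h with h | h
      · exact e2 (by linear_combination h)
      · exact e4 (by linear_combination -h)
    · intro h
      rcases (hadj _ _).1 h with h | h
      · exact e3 (by linear_combination h)
      · exact e5 (by linear_combination -h)
    · intro h
      rcases hcyc w hwS k (k + 3) hk h with h | h | h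
      · exact e3 (by linear_combination -h)
      · exact e1 (by linear_combination h)
      · exact e5 (by linear_combination -h)
    · intro h
      rcases hcyc w hwS k (k + 4) hk h with h | h | h
      · exact e4 (by linear_combination -h)
      · exact e2 (by linear_combination h)
      · exact e6 (by linear_combination -h)
    · intro h
      rcases (hadj _ _).1 h with h | h
      · exact e3 (by linear_combination h)
      · exact e5 (by linear_combination -h)
    · intro h
      rcases (hadj _ _).1 h with h | h
      · exact e4 (by linear_combination h)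
      · exact e6 (by linear_combination -h)
    · intro h
      rcases (hadj _ _).1 h with h | h
      · exact e1 (by linear_combination h)
      · exact e3 (by linear_combination -h)
    · intro h
      rcases (hadj _ _).1 h with h | h
      · exact e2 (by linear_combination h)
      · exact e4 (by linear_combination -h)
  have hdeg : ∀ v ∈ S, (nb G S v).card ≤ 2 := by
    intro v hv
    by_cases hvc : ∃ i, v = f i
    · obtain ⟨i, rfl⟩ := hvc
      have hsub : nb G S (f i) ⊆ {f (i + 1), f (i - 1)} := by
        intro x hx
        rw [nb, Finset.mem_filter] at hx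
        obtain ⟨hxS, hx⟩ := hx
        by_cases hxc : ∃ j, x = f j
        · obtain ⟨j, rfl⟩ := hxc
          rcases (hadj _ _).1 hx with h | h
          · rw [h]; simp
          · have : j = i - 1 := by rw [h]; ring
            rw [this]; simp
        · push Not at hxc
          exact absurd hx.symm (off x hxS hxc i)
      exact (Finset.card_le_card hsub).trans Finset.card_le_two
    · push Not at hvc
      by_contra hcard
      push Not at hcard
      obtain ⟨x, hx, y, hy, z, hz, hxy, hxz, hyz⟩ := Finset.two_lt_card.1 hcard
      simp only [nb, Finset.mem_filter] at hx hy hz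
      have hoff : ∀ u, u ∈ S → G.Adj v u → ∀ i, u ≠ f i := by
        intro u _ hu i hui
        rw [hui] at hu
        exact off v hv hvc i hu
      have hx' := off x hx.1 (hoff x hx.1 hx.2)
      have hy' := off y hy.1 (hoff y hy.1 hy.2)
      have hz' := off z hz.1 (hoff z hz.1 hz.2)
      have hv' := off v hv hvc
      exact hR v x y z (f 0) (f 1) hx.2 hy.2 hz.2 ((hadj _ _).2 (Or.inl (by ring))) hxy hxz hyz
        (hv' _) (hv' _) (hx' _) (hx' _) (hy' _) (hy' _) (hz' _) (hz' _)
  exact (slin_deg2 hdeg).toS.mono_k (by norm_num)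

end RMain

end Pool.Agent.Helper856.Cw
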