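import Pool.Agent.Helper856.Pair.Defs
import Pool.Agent.Helper856.Cw.Basic
import Pool.Agent.Helper856.Pair.Compl
import Pool.Agent.Helper856.Pair.Deg2
import Pool.Agent.Helper856.Pair.Ramsey

open Classical SimpleGraph

namespace Pool.Agent.Helper856.Cw

open Compl (slin_compl)
open Deg2 (slin_deg2)
open Ramsey (ramsey)

namespace RowClaw

variable {V : Type} {G : SimpleGraph V} {S T : Finset V} {k l : ℕ}

theorem exists_outside (L A B C : Finset V) (x y z : V) (hL : 12 ≤ L.card) (hA : A.card ≤ 2)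
    (hB : B.card ≤ 2) (hC : C.card ≤ 2) :
    ∃ l ∈ L, l ∉ A ∧ l ∉ B ∧ l ∉ C ∧ l ≠ x ∧ l ≠ y ∧ l ≠ z := by
  have h1 : (A ∪ B ∪ C ∪ {x, y, z}).card < L.card := by
    have h2 : (A ∪ B ∪ C ∪ {x, y, z}).card ≤ (A ∪ B ∪ C).card + ({x, y, z} : Finset V).card :=
      Finset.card_union_le _ _
    have h3 : (A ∪ B ∪ C).card ≤ (A ∪ B).card + C.card := Finset.card_union_le _ _
    have h4 : (A ∪ B).card ≤ A.card + B.card := Finset.card_union_le _ _
    have h5 : ({x, y, z} : Finset V).card ≤ 3 := Finset.card_le_three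
    omega
  obtain ⟨l, hl, hn⟩ := Finset.exists_mem_notMem_of_card_lt_card h1
  simp only [Finset.mem_union, Finset.mem_insert, Finset.mem_singleton, not_or] at hn
  exact ⟨l, hl, hn.1.1.1, hn.1.1.2, hn.1.2, hn.2.1, hn.2.2.1, hn.2.2.2⟩

theorem claw_indep (hclaw : NoK13 G) (hk : NoK3P1 G) (S L : Finset V) (hL : 12 ≤ L.card)
    (hI : Ind G L) : SLin 3 G S := by
  have hnb : ∀ v, (nb G L v).card ≤ 2 := by
    intro v
    by_contra hc
    push Not at hc
    obtain ⟨x, y, z, hx, hy, hz, hxy, hxz, hyz⟩ := Finset.two_lt_card_iff.1 hc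
    simp only [nb, Finset.mem_filter] at hx hy hz
    exact hclaw v x y z hx.2 hy.2 hz.2 (hI x hx.1 y hy.1) (hI x hx.1 z hz.1)
      (hI y hy.1 z hz.1) hxy hxz hyz
  have htri : ∀ x y z, G.Adj x y → G.Adj x z → G.Adj y z → False := by
    intro x y z hxy hxz hyz
    obtain ⟨l, hl, h1, h2, h3, h4, h5, h6⟩ := exists_outside L (nb G L x) (nb G L y) (nb G L z)
      x y z hL (hnb x) (hnb y) (hnb z)
    have e : ∀ w, l ∉ nb G L w → ¬G.Adj l w := by
      intro w hw ha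
      exact hw (Finset.mem_filter.2 ⟨hl, ha.symm⟩)
    exact hk x y z l hxy hyz hxz (e x h1) (e y h2) (e z h3) h4 h5 h6
  refine SLinN.toS (slin_deg2 ?_)
  intro v hv
  by_contra hc
  push Not at hc
  obtain ⟨x, y, z, hx, hy, hz, hxy, hxz, hyz⟩ := Finset.two_lt_card_iff.1 hc
  simp only [nb, Finset.mem_filter] at hx hy hz
  exact hclaw v x y z hx.2 hy.2 hz.2 (fun h => htri v x y hx.2 hy.2 h)
    (fun h => htri v x z hx.2 hz.2 h) (fun h => htri v y z hy.2 hz.2 h) hxy hxz hyz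

theorem claw_clique (hclaw : NoK13 G) (hk : NoK3P1 G) (S L : Finset V) (hL : 12 ≤ L.card)
    (hI : Clq G L) : SLin 3 G S := by
  have hnb : ∀ v, (L.filter (fun w => w ≠ v ∧ ¬G.Adj v w)).card ≤ 2 := by
    intro v
    by_contra hc
    push Not at hc
    obtain ⟨x, y, z, hx, hy, hz, hxy, hxz, hyz⟩ := Finset.two_lt_card_iff.1 hc
    simp only [Finset.mem_filter] at hx hy hz
    exact hk x y z v (hI x hx.1 y hy.1 hxy) (hI y hy.1 z hz.1 hyz) (hI x hx.1 z hz.1 hxz)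
      hx.2.2 hy.2.2 hz.2.2 (Ne.symm hx.2.1) (Ne.symm hy.2.1) (Ne.symm hz.2.1)
  have htri : ∀ x y z, x ≠ y → x ≠ z → y ≠ z → ¬G.Adj x y → ¬G.Adj x z → ¬G.Adj y z → False := by
    intro x y z nxy nxz nyz hxy hxz hyz
    obtain ⟨l, hl, h1, h2, h3, h4, h5, h6⟩ := exists_outside L
      (L.filter (fun w => w ≠ x ∧ ¬G.Adj x w)) (L.filter (fun w => w ≠ y ∧ ¬G.Adj y w))
      (L.filter (fun w => w ≠ z ∧ ¬G.Adj z w))
      x y z hL (hnb x) (hnb y) (hnb z)
    have e : ∀ w, l ∉ L.filter (fun u => u ≠ w ∧ ¬G.Adj w u) → l ≠ w → G.Adj l w := by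
      intro w hw hlw
      by_contra ha
      exact hw (Finset.mem_filter.2 ⟨hl, hlw, fun h => ha h.symm⟩)
    exact hclaw l x y z (e x h1 h4) (e y h2 h5) (e z h3 h6) hxy hxz hyz nxy nxz nyz
  have hS : SLin 3 Gᶜ S := by
    refine SLinN.toS (slin_deg2 ?_)
    intro v hv
    by_contra hc
    push Not at hc
    obtain ⟨x, y, z, hx, hy, hz, hxy, hxz, hyz⟩ := Finset.two_lt_card_iff.1 hc
    simp only [nb, Finset.mem_filter, SimpleGraph.compl_adj] at hx hy hz
    have a1 : G.Adj x y := by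
      by_contra h
      exact htri v x y hx.2.1 hy.2.1 hxy hx.2.2 hy.2.2 h
    have a2 : G.Adj x z := by
      by_contra h
      exact htri v x z hx.2.1 hz.2.1 hxz hx.2.2 hz.2.2 h
    have a3 : G.Adj y z := by
      by_contra h
      exact htri v y z hy.2.1 hz.2.1 hyz hy.2.2 hz.2.2 h
    exact hk x y z v a1 a3 a2 hx.2.2 hy.2.2 hz.2.2 hx.2.1 hy.2.1 hz.2.1
  have h := slin_compl hS
  rwa [compl_compl] at h

/-- TARGET -/
theorem row_claw : ∃ K, ∀ (V : Type) (G : SimpleGraph V) (S : Finset V), NoK13 G → NoK3P1 G →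
    SLin K G S := by
  obtain ⟨N, hN⟩ := ramsey 12 12
  refine ⟨N + 10, ?_⟩
  intro V G S hclaw hk
  by_cases hS : N ≤ S.card
  · rcases hN V G S hS with ⟨L, hLS, hL, hI⟩ | ⟨L, hLS, hL, hI⟩
    · exact SLin.mono_k (claw_clique hclaw hk S L hL.ge hI) (by omega)
    · exact SLin.mono_k (claw_indep hclaw hk S L hL.ge hI) (by omega)
  · have h0 : SLin 1 G (S \ S) := by
      refine ⟨fun _ => 0, ?_, fun t => ⟨fun _ => 0, ?_⟩⟩
      · simp
      · intro u hu
        simp at hu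
    exact SLin.mono_k (SLin.add S h0) (by omega)

end RowClaw

end Pool.Agent.Helper856.Cw
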