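import Pool.Agent.Helper856.Pair.Defs
import Pool.Agent.Helper856.Cw.Basic
import Pool.Agent.Helper856.Cw.Union
import Pool.Agent.Helper856.Pair.ConnT
import Pool.Agent.Helper856.Pair.Compl
import Pool.Agent.Helper856.Pair.Seins

open Classical SimpleGraph

namespace Pool.Agent.Helper856.Cw

open ConnT (slin_conn)
open Compl (slin_compl)
open Seins (seinsche)

namespace P4Step

variable {V : Type} {G : SimpleGraph V} {S T : Finset V} {k l : ℕ}

theorem p4_small (hk : 1 ≤ k) (hT : T.card ≤ 1) : SLin k G T := by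
  refine ⟨fun _ => 0, ?_, fun t => ⟨fun _ => ⟨0, hk⟩, ?_⟩⟩
  · intro a ha b hb _
    exact Finset.card_le_one.1 hT a ha b hb
  · intro u hu v hv _ _ _ w _ _
    have : u = v := Finset.card_le_one.1 hT u hu v hv
    rw [this]

theorem p4_star (P : Finset V → Prop) (hk : 1 ≤ k)
    (h1 : ∀ X Y : Finset V, X ⊆ S → Y ⊆ S → X.Nonempty → Y.Nonempty → Disjoint X Y →
      (∀ u ∈ X, ∀ v ∈ Y, ¬G.Adj u v) → P X)
    (h2 : ∀ T ⊆ S, P T → SLin k G T) (T : Finset V) (hTS : T ⊆ S) (hT : ¬ Conn G T) :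
    SLin (k + 1) G T := by
  unfold Conn at hT
  push Not at hT
  obtain ⟨X, hXT, hXne, hXT', hno⟩ := hT
  have hYne : (T \ X).Nonempty := by
    rw [Finset.sdiff_nonempty]
    intro h
    exact hXT' (Finset.Subset.antisymm hXT h)
  apply SLinN.toS
  apply slin_conn
  intro T' hT' hC
  by_cases hcard : T'.card ≤ 1
  · exact (p4_small hk hcard).toN
  have hT'ne : T'.Nonempty := by
    rw [← Finset.card_pos]; omega
  have hcase : T' ⊆ X ∨ T' ⊆ T \ X := by
    by_cases hx : T' ⊆ X
    · exact Or.inl hx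
    right
    intro a ha
    refine Finset.mem_sdiff.2 ⟨hT' ha, fun haX => ?_⟩
    obtain ⟨v, hv, hvX⟩ := Finset.not_subset.1 hx
    obtain ⟨u, hu, w, hw, huw⟩ := hC (T' ∩ X) Finset.inter_subset_left
      ⟨a, Finset.mem_inter.2 ⟨ha, haX⟩⟩ (by
        intro h
        rw [← h] at hv
        exact hvX (Finset.mem_inter.1 hv).2)
    have hu' := Finset.mem_inter.1 hu
    have hw' := Finset.mem_sdiff.1 hw
    refine hno u hu'.2 w (Finset.mem_sdiff.2 ⟨hT' hw'.1, fun hwX => ?_⟩) huw
    exact hw'.2 (Finset.mem_inter.2 ⟨hw'.1, hwX⟩)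
  rcases hcase with h | h
  · have hP : P T' := h1 T' (T \ X) ((hT'.trans hTS)) (Finset.sdiff_subset.trans hTS) hT'ne hYne
      (Finset.disjoint_of_subset_left h Finset.disjoint_sdiff)
      (fun u hu v hv => hno u (h hu) v hv)
    exact (h2 T' (hT'.trans hTS) hP).toN
  · have hP : P T' := h1 T' X ((hT'.trans hTS)) (hXT.trans hTS) hT'ne hXne
      (Finset.disjoint_of_subset_left h Finset.sdiff_disjoint)
      (fun u hu v hv huv => hno v hv u (h hu) huv.symm)
    exact (h2 T' (hT'.trans hTS) hP).toN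

/-- TARGET -/
theorem p4_step (P : Finset V → Prop) (hk : 1 ≤ k) (hS : NoP4 G S)
    (h1 : ∀ X Y : Finset V, X ⊆ S → Y ⊆ S → X.Nonempty → Y.Nonempty → Disjoint X Y →
      (∀ u ∈ X, ∀ v ∈ Y, ¬G.Adj u v) → P X)
    (h2 : ∀ T ⊆ S, P T → SLin k G T) : SLin (k + 2) G S := by
  by_cases hC : Conn G S
  · have hN : SLinN (k + 1) Gᶜ S := by
      apply slin_conn
      intro T hTS hCT
      by_cases hcard : T.card ≤ 1
      · exact (p4_small (by omega) hcard).toN
      have hP4 : NoP4 G T := fun a ha b hb c hc d hd =>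
        hS a (hTS ha) b (hTS hb) c (hTS hc) d (hTS hd)
      rcases seinsche (by omega) hP4 with h | h
      · exact (slin_compl (p4_star P hk h1 h2 T hTS h)).toN
      · exact absurd hCT h
    have h3 := slin_compl hN.toS
    rwa [compl_compl] at h3
  · exact (p4_star P hk h1 h2 S (Finset.Subset.refl S) hC).mono_k (by omega)

end P4Step

end Pool.Agent.Helper856.Cw
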