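import Pool.Agent.Helper856.Pair.Defs
import Pool.Agent.Helper856.Pair.Seins

open Classical SimpleGraph

namespace Pool.Agent.Helper856.Cw

open Seins (seinsche)

namespace ThrV

variable {V : Type} {G : SimpleGraph V} {S T : Finset V} {k l : ℕ}

/-- TARGET -/
theorem thr_vertex {W : Type} [Fintype W] (H : SimpleGraph W) (hH : Thr H)
    (hc : 0 < Fintype.card W) : (∃ v, ∀ w, ¬H.Adj v w) ∨ (∃ v, ∀ w, w ≠ v → H.Adj v w) := by
  haveI : Nonempty W := Fintype.card_pos_iff.1 hc
  obtain ⟨v, -, hv⟩ := Finset.exists_max_image (Finset.univ : Finset W)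
    (fun v => (Finset.univ.filter (fun x => H.Adj v x)).card) Finset.univ_nonempty
  by_cases hd : ∀ w, w ≠ v → H.Adj v w
  · exact Or.inr ⟨v, hd⟩
  left
  push Not at hd
  obtain ⟨w, hwv, hvw⟩ := hd
  refine ⟨w, fun u hu => ?_⟩
  have huv : u ≠ v := by
    rintro rfl
    exact hvw hu.symm
  have hmax := hv u (Finset.mem_univ u)
  have hsub : ∀ x, H.Adj v x → x ≠ u → H.Adj u x := by
    intro x hx hxu
    by_contra hn
    exact hH v x w u hx hu hvw (fun h => hn h.symm) hwv.symm hxu
  set Nv := Finset.univ.filter (fun x => H.Adj v x) with hNv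
  set Nu := Finset.univ.filter (fun x => H.Adj u x) with hNu
  have hwNv : w ∉ Nv := by simp [hNv, hvw]
  have hvNv : v ∉ Nv := by simp [hNv]
  by_cases hvu : H.Adj v u
  · have hsubset : insert v (insert w (Nv.erase u)) ⊆ Nu := by
      intro x hx
      simp only [Finset.mem_insert, Finset.mem_erase] at hx
      rcases hx with rfl | rfl | ⟨h1, h2⟩
      · simp [hNu, hvu.symm]
      · simp [hNu, hu.symm]
      · simp only [hNv, Finset.mem_filter, Finset.mem_univ, true_and] at h2
        simp [hNu, hsub x h2 h1]
    have hcard := Finset.card_le_card hsubset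
    have huN : u ∈ Nv := by simp [hNv, hvu]
    rw [Finset.card_insert_of_notMem, Finset.card_insert_of_notMem,
      Finset.card_erase_of_mem huN] at hcard
    · have := Finset.card_pos.2 ⟨u, huN⟩
      omega
    · intro h
      exact hwNv (Finset.mem_of_mem_erase h)
    · intro h
      rcases Finset.mem_insert.1 h with h | h
      · exact hwv h.symm
      · exact hvNv (Finset.mem_of_mem_erase h)
  · have hsubset : insert w Nv ⊆ Nu := by
      intro x hx
      rcases Finset.mem_insert.1 hx with rfl | h2
      · simp [hNu, hu.symm]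
      · simp only [hNv, Finset.mem_filter, Finset.mem_univ, true_and] at h2
        have : x ≠ u := by
          rintro rfl
          exact hvu h2
        simp [hNu, hsub x h2 this]
    have hcard := Finset.card_le_card hsubset
    rw [Finset.card_insert_of_notMem hwNv] at hcard
    omega

end ThrV

end Pool.Agent.Helper856.Cw
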