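import Pool.Agent.Helper856.Pair.Defs
import Pool.Agent.Helper856.Pair.ThrV
import Pool.Agent.Helper856.Pair.P4Step
import Pool.Agent.Helper856.Pair.Compl
import Pool.Agent.Helper856.Cw.Basic

open Classical SimpleGraph

namespace Pool.Agent.Helper856.Cw

open ThrV (thr_vertex)
open P4Step (p4_step)
open Compl (slin_compl)

namespace RowP4

variable {V : Type} {G : SimpleGraph V} {S T : Finset V} {k l : ℕ}

theorem noP4_mono (hS : NoP4 G S) (hT : T ⊆ S) : NoP4 G T :=
  fun a ha b hb c hc d hd => hS a (hT ha) b (hT hb) c (hT hc) d (hT hd)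

theorem noP4_compl (hS : NoP4 G S) : NoP4 Gᶜ S := by
  intro a ha b hb c hc d hd h1 h2 h3 h4 h5 h6 h7 h8
  have k1 := (SimpleGraph.compl_adj G a b).1 h1
  have k2 := (SimpleGraph.compl_adj G b c).1 h2
  have k3 := (SimpleGraph.compl_adj G c d).1 h3
  have had : a ≠ d := by
    rintro rfl
    exact h6 h1.symm
  have k4 : G.Adj a c := by
    by_contra hn
    exact h4 ((SimpleGraph.compl_adj G a c).2 ⟨h7, hn⟩)
  have k5 : G.Adj a d := by
    by_contra hn
    exact h5 ((SimpleGraph.compl_adj G a d).2 ⟨had, hn⟩)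
  have k6 : G.Adj b d := by
    by_contra hn
    exact h6 ((SimpleGraph.compl_adj G b d).2 ⟨h8, hn⟩)
  exact hS b hb d hd a ha c hc k6 k5.symm k4 (fun h => k1.2 h.symm) k2.2 (fun h => k3.2 h.symm)
    k1.1.symm k3.1.symm

theorem ind_compl {W : Type} (A : SimpleGraph W) (G : SimpleGraph V) (S : Set V)
    (h : A.IsIndContained (G.induce S)) : Aᶜ.IsIndContained (Gᶜ.induce S) := by
  obtain ⟨f⟩ := h
  refine ⟨⟨f.toEmbedding, ?_⟩⟩
  intro a b
  show Gᶜ.Adj (f a : V) (f b : V) ↔ Aᶜ.Adj a b
  rw [SimpleGraph.compl_adj, SimpleGraph.compl_adj]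
  have h1 : G.Adj (f a : V) (f b : V) ↔ A.Adj a b := f.map_rel_iff
  have h2 : (f a : V) ≠ (f b : V) ↔ a ≠ b := by
    constructor
    · intro h hab
      exact h (by rw [hab])
    · intro h hab
      exact h (f.injective (Subtype.ext hab))
  rw [h1, h2]

theorem row_isolated {W : Type} (H : SimpleGraph W) (v : W) (hv : ∀ w, ¬H.Adj v w) (k : ℕ)
    (hk : 1 ≤ k)
    (ih : ∀ (V : Type) (G : SimpleGraph V) (S : Finset V), NoP4 G S →
      ¬(H.induce {w | w ≠ v}).IsIndContained (G.induce (S : Set V)) → SLin k G S) :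
    ∀ (V : Type) (G : SimpleGraph V) (S : Finset V), NoP4 G S →
      ¬H.IsIndContained (G.induce (S : Set V)) → SLin (k + 2) G S := by
  intro V G S hN hH
  refine p4_step (fun T => ¬(H.induce {w | w ≠ v}).IsIndContained (G.induce (T : Set V))) hk hN
    ?_ ?_
  · rintro X Y hX hY _ ⟨y, hy⟩ hXY hno ⟨f⟩
    apply hH
    have hfX : ∀ w : {w | w ≠ v}, (f w : V) ∈ X := fun w => Finset.mem_coe.1 (f w).2
    set g : W → (S : Set V) := fun w =>
      if h : w = v then ⟨y, hY hy⟩ else ⟨(f ⟨w, h⟩ : V), hX (hfX ⟨w, h⟩)⟩ with hg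
    have gv : ∀ w, w = v → (g w : V) = y := by
      intro w h
      simp only [hg, dif_pos h]
    have gn : ∀ w (h : w ≠ v), (g w : V) = f ⟨w, h⟩ := by
      intro w h
      simp only [hg, dif_neg h]
    refine ⟨⟨⟨g, ?_⟩, ?_⟩⟩
    · intro w w' hww
      have h1 := congrArg Subtype.val hww
      by_cases h : w = v
      · by_cases h' : w' = v
        · rw [h, h']
        · rw [gv w h, gn w' h'] at h1
          exact absurd hy (Finset.disjoint_left.1 hXY (by rw [h1]; exact hfX ⟨w', h'⟩))
      · by_cases h' : w' = v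
        · rw [gn w h, gv w' h'] at h1
          exact absurd hy (Finset.disjoint_left.1 hXY (by rw [← h1]; exact hfX ⟨w, h⟩))
        · rw [gn w h, gn w' h'] at h1
          have h2 := f.injective (Subtype.ext h1)
          exact congrArg Subtype.val h2
    · intro w w'
      show G.Adj (g w : V) (g w' : V) ↔ H.Adj w w'
      by_cases h : w = v
      · by_cases h' : w' = v
        · rw [gv w h, gv w' h']
          constructor
          · intro h1; exact absurd h1 (G.loopless.irrefl y)
          · intro h1; exact absurd h1 (by rw [h, h']; exact hv v)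
        · rw [gv w h, gn w' h']
          constructor
          · intro h1; exact absurd h1.symm (hno _ (hfX ⟨w', h'⟩) y hy)
          · intro h1; exact absurd h1 (by rw [h]; exact hv w')
      · by_cases h' : w' = v
        · rw [gn w h, gv w' h']
          constructor
          · intro h1; exact absurd h1 (hno _ (hfX ⟨w, h⟩) y hy)
          · intro h1; exact absurd h1.symm (by rw [h']; exact hv w)
        · rw [gn w h, gn w' h']
          exact f.map_rel_iff (a := ⟨w, h⟩) (b := ⟨w', h'⟩)
  · intro T hT hPT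
    exact ih V G T (noP4_mono hN hT) hPT

theorem thr_induce {W : Type} (H : SimpleGraph W) (hH : Thr H) (s : Set W) :
    Thr (H.induce s) := by
  intro a b c d h1 h2 h3 h4 h5 h6
  exact hH a b c d h1 h2 h3 h4 (fun h => h5 (Subtype.ext h)) (fun h => h6 (Subtype.ext h))

/-- TARGET -/
theorem row_p4 (n : ℕ) : ∀ (W : Type) [Fintype W] (H : SimpleGraph W), Fintype.card W = n →
    Thr H → ∃ k, 1 ≤ k ∧ ∀ (V : Type) (G : SimpleGraph V) (S : Finset V), NoP4 G S →
      ¬H.IsIndContained (G.induce (S : Set V)) → SLin k G S := by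
  induction n with
  | zero =>
    intro W _ H hc _
    refine ⟨1, le_rfl, ?_⟩
    intro V G S _ hH
    exfalso
    apply hH
    have hW : IsEmpty W := Fintype.card_eq_zero_iff.1 hc
    exact ⟨⟨⟨fun w => isEmptyElim w, fun w => isEmptyElim w⟩, fun {w} => isEmptyElim w⟩⟩
  | succ n ihn =>
    intro W _ H hc hT
    have hpos : 0 < Fintype.card W := by omega
    have hcard : ∀ v : W, Fintype.card {w : W | w ≠ v} = n := by
      intro v
      have := Set.card_ne_eq v
      have h2 : Fintype.card {w : W | w ≠ v} = Fintype.card W - 1 := by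
        convert this
      omega
    rcases thr_vertex H hT hpos with ⟨v, hv⟩ | ⟨v, hv⟩
    · obtain ⟨k, hk, ih⟩ := ihn {w | w ≠ v} (H.induce {w | w ≠ v}) (hcard v) (thr_induce H hT _)
      exact ⟨k + 2, by omega, row_isolated H v hv k hk ih⟩
    · obtain ⟨k, hk, ih⟩ := ihn {w | w ≠ v} (H.induce {w | w ≠ v}) (hcard v) (thr_induce H hT _)
      refine ⟨k + 2, by omega, ?_⟩
      have hv' : ∀ w, ¬Hᶜ.Adj v w := by
        intro w h
        have h1 := (SimpleGraph.compl_adj H v w).1 h
        exact h1.2 (hv w h1.1.symm)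
      have ih' : ∀ (V : Type) (G : SimpleGraph V) (S : Finset V), NoP4 G S →
          ¬(Hᶜ.induce {w | w ≠ v}).IsIndContained (G.induce (S : Set V)) → SLin k G S := by
        intro V G S hN hH
        have h1 : ¬(H.induce {w | w ≠ v}).IsIndContained (Gᶜ.induce (S : Set V)) := by
          intro h
          apply hH
          have h2 := ind_compl _ _ _ h
          rw [compl_compl] at h2
          have e : (H.induce {w | w ≠ v})ᶜ = Hᶜ.induce {w | w ≠ v} := by
            ext a b
            rw [SimpleGraph.compl_adj]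
            show a ≠ b ∧ ¬H.Adj (a : W) (b : W) ↔ Hᶜ.Adj (a : W) (b : W)
            rw [SimpleGraph.compl_adj]
            constructor
            · rintro ⟨h3, h4⟩
              exact ⟨fun h5 => h3 (Subtype.ext h5), h4⟩
            · rintro ⟨h3, h4⟩
              exact ⟨fun h5 => h3 (by rw [h5]), h4⟩
          rw [← e]
          exact h2
        have h2 := slin_compl (ih V Gᶜ S (noP4_compl hN) h1)
        rwa [compl_compl] at h2
      intro V G S hN hH
      have h1 : ¬Hᶜ.IsIndContained (Gᶜ.induce (S : Set V)) := by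
        intro h
        apply hH
        have h2 := ind_compl _ _ _ h
        rwa [compl_compl, compl_compl] at h2
      have h2 := slin_compl (row_isolated Hᶜ v hv' k hk ih' V Gᶜ S (noP4_compl hN) h1)
      rwa [compl_compl] at h2

end RowP4

end Pool.Agent.Helper856.Cw
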