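import Pool.Agent.Helper856.Pair.AsmN
import Pool.Agent.Helper856.Pair.Conv1
import Pool.Agent.Helper856.Pair.P3free
import Pool.Agent.Helper856.Pair.RowP4
import Pool.Agent.Helper856.Pair.Ramsey
import Pool.Agent.Helper856.Pair.PawRed
import Pool.Agent.Helper856.Pair.K3aMain
import Pool.Agent.Helper856.Pair.QMain
import Pool.Agent.Helper856.Pair.RMain
import Pool.Agent.Helper856.Pair.RowClaw
import Pool.Agent.Helper856.Pair.DiaA2
import Pool.Agent.Helper856.Cw.Main
import Pool.Agent.Helper856.Cw.Bridge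

open Classical SimpleGraph

namespace Pool.Agent.Helper856.Cw.AsmS

open Pool.Agent.Helper856.Lcw (GLin Wide gr K13_3P1 K13_P2 P1_S113 S122 BLin)
open Conv1 AsmN

/-- from `SLin` on the induced subgraph to `SLin` on the vertex set -/
theorem slin_of_induce {V : Type} {G : SimpleGraph V} {k : ℕ} (hk : 0 < k) {T : Finset V}
    (h : SLin k (G.induce (T : Set V)) (Finset.univ : Finset (T : Set V))) : SLin k G T := by
  obtain ⟨p, hp, h⟩ := h
  refine ⟨fun v => if hv : v ∈ (T : Set V) then p ⟨v, hv⟩ else 0, ?_, fun t => ?_⟩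
  · intro u hu v hv huv
    simp only at huv
    rw [dif_pos hu, dif_pos hv] at huv
    have := hp (Finset.mem_coe.2 (Finset.mem_univ _)) (Finset.mem_coe.2 (Finset.mem_univ _)) huv
    exact congrArg Subtype.val this
  · obtain ⟨c, hc⟩ := h t
    refine ⟨fun v => if hv : v ∈ (T : Set V) then c ⟨v, hv⟩ else ⟨0, hk⟩, ?_⟩
    intro u hu v hv h1 h2 h3 w hw h4
    simp only at h1 h2 h3 h4
    rw [dif_pos (Finset.mem_coe.2 hu)] at h1 h3
    rw [dif_pos (Finset.mem_coe.2 hv)] at h2 h3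
    rw [dif_pos (Finset.mem_coe.2 hw)] at h4
    exact hc _ (Finset.mem_univ _) _ (Finset.mem_univ _) h1 h2 h3 _ (Finset.mem_univ _) h4

theorem glin_of {V : Type} [Finite V] {G : SimpleGraph V} {k : ℕ}
    (h : ∀ S : Finset V, SLin k G S) : GLin k G := by
  have : Fintype V := Fintype.ofFinite V
  exact Bridge.glin_of_slin G k (h _)

variable {m n : ℕ} {A : SimpleGraph (Fin m)} {B : SimpleGraph (Fin n)}

theorem row1 (h : A.IsIndContained gP3) : BG A B := by
  refine ⟨2, fun V _ G hA _ => glin_of fun S => (P3free.slin_p3free ?_).toS⟩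
  intro x _ y _ z _ h1 h2 h3
  exact cv_P3 (fun h' => hA (h.trans h')) x y z h1 h2 h3

theorem row2 (h : A.IsIndContained gP4) (hB : Thr B) : BG A B := by
  obtain ⟨k, hk, hrow⟩ := RowP4.row_p4 n (Fin n) B (Fintype.card_fin n) hB
  refine ⟨k, fun V _ G hA hBG => glin_of fun S => hrow V G S (cv_P4 (fun h' => hA (h.trans h')) S) ?_⟩
  intro h1
  exact hBG (h1.trans ⟨SimpleGraph.Embedding.induce _⟩)

theorem top_cont {V : Type} {G : SimpleGraph V} {K : Finset V} (hc : K.card = m) (hK : Clq G K) :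
    (⊤ : SimpleGraph (Fin m)).IsIndContained G := by
  have e : Fin m ≃ K := (Fintype.equivFinOfCardEq (by simpa using hc)).symm
  refine ⟨⟨⟨fun i => (e i : V), fun i j hij => e.injective (Subtype.ext hij)⟩, ?_⟩⟩
  intro i j
  simp only [Function.Embedding.coeFn_mk, SimpleGraph.top_adj]
  constructor
  · rintro h rfl
    exact G.irrefl h
  · intro h
    exact hK _ (e i).2 _ (e j).2 (fun h' => h (e.injective (Subtype.ext h')))

theorem bot_cont {V : Type} {G : SimpleGraph V} {K : Finset V} (hc : K.card = n) (hK : Ind G K) :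
    (⊥ : SimpleGraph (Fin n)).IsIndContained G := by
  have e : Fin n ≃ K := (Fintype.equivFinOfCardEq (by simpa using hc)).symm
  refine ⟨⟨⟨fun i => (e i : V), fun i j hij => e.injective (Subtype.ext hij)⟩, ?_⟩⟩
  intro i j
  simp only [Function.Embedding.coeFn_mk, SimpleGraph.bot_adj, iff_false]
  exact hK _ (e i).2 _ (e j).2

theorem slin_card {V : Type} {G : SimpleGraph V} {k : ℕ} {S : Finset V} (h : S.card ≤ k) :
    SLin (k + 1) G S := by
  have h0 : SLin 1 G (S \ S) := by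
    refine ⟨fun _ => 0, ?_, fun t => ⟨fun _ => 0, ?_⟩⟩
    · simp
    · simp
  exact (SLin.add S h0).mono_k (by omega)

/-- Ramsey: if both a clique and an independent set are excluded the sets are small -/
theorem row3 : BG (⊤ : SimpleGraph (Fin m)) (⊥ : SimpleGraph (Fin n)) := by
  obtain ⟨N, hN⟩ := Ramsey.ramsey m n
  refine ⟨N + 1, fun V _ G hA hB => glin_of fun S => slin_card ?_⟩
  by_contra hS
  rcases hN V G S (by omega) with ⟨K, -, h1, h2⟩ | ⟨K, -, h1, h2⟩
  · exact hA (top_cont h1 h2)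
  · exact hB (bot_cont h1 h2)

/-- triangle-free graphs without a graph from the list -/
theorem row_tri (hB : BipL B) : ∃ k, 2 ≤ k ∧ ∀ (V : Type) [Finite V] (G : SimpleGraph V), Tri G →
    ¬B.IsIndContained G → ∀ S : Finset V, SLin k G S := by
  rcases hB with h | h | h | h | h
  · subst h
    obtain ⟨N, hN⟩ := Ramsey.ramsey 3 n
    refine ⟨N + 2, by omega, fun V _ G hT hB S => ?_⟩
    refine slin_card (k := N + 1) ?_
    by_contra hS
    rcases hN V G S (by omega) with ⟨K, -, h1, h2⟩ | ⟨K, -, h1, h2⟩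
    · obtain ⟨x, y, z, hxy, hxz, hyz, rfl⟩ := Finset.card_eq_three.1 h1
      exact hT x y z (h2 _ (by simp) _ (by simp) hxy) (h2 _ (by simp) _ (by simp) hyz)
        (h2 _ (by simp) _ (by simp) hxz)
    · exact hB (bot_cont h1 h2)
  · obtain ⟨K, hK⟩ := K3aMain.row_k3a
    refine ⟨K + 2, by omega, fun V _ G hT hB S => ?_⟩
    exact (hK V G S hT (cv_A hT (fun h' => hB (h.trans h')))).mono_k (by omega)
  · refine ⟨2000, by norm_num, fun V _ G hT hB S => ?_⟩
    refine RMain.r_main hT (cv_R hT (fun h' => hB (h.trans h'))) ?_ S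
    intro X Y hd hX hY
    obtain ⟨g1, g2⟩ := Pool.Agent.Helper856.Lcw.FreeL.star_of_free G X Y hd hX hY
      (fun h' => hB (h.trans h'))
    exact (Bridge.SLin_of_BLin G X Y hd hX hY 488
      (Pool.Agent.Helper856.Lcw.K13P2_main g1 g2)).mono_k (by norm_num)
  · refine ⟨5 * 10 ^ 8, by norm_num, fun V _ G hT hB S => ?_⟩
    exact Main.thmP hT (Bridge.noP_of_free hT (fun h' => hB (h.trans h')))
      (Bridge.bip100 G (fun h' => hB (h.trans h'))) S
  · refine ⟨10 ^ 8, by norm_num, fun V _ G hT hB S => ?_⟩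
    refine QMain.q_main hT (cv_Q hT (fun h' => hB (h.trans h'))) ?_ S
    intro X Y hd hX hY
    obtain ⟨g1, g2⟩ := Pool.Agent.Helper856.Lcw.FreeL.lam_of_free G X Y hd hX hY
      (fun h' => hB (h.trans h'))
    exact (Bridge.SLin_of_BLin G X Y hd hX hY 5
      (Pool.Agent.Helper856.Lcw.S122_main g1 g2)).mono_k (by norm_num)

theorem row4 (h : A.IsIndContained gPaw) (hB : BipL B) : BG A B := by
  obtain ⟨k, hk2, hk⟩ := row_tri hB
  refine ⟨k + 1, fun V _ G hA hBG => glin_of fun S => ?_⟩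
  refine PawRed.paw_red (cv_Paw (fun h' => hA (h.trans h')) S) hk2 ?_
  intro T _ hT
  refine slin_of_induce (by omega) (hk _ (G.induce (T : Set V)) ?_ ?_ _)
  · intro x y z h1 h2 h3
    exact hT x x.2 y y.2 z z.2 h1 h2 h3
  · intro h1
    exact hBG (h1.trans ⟨SimpleGraph.Embedding.induce _⟩)

theorem row5a (h : A.IsIndContained gDia) (hB : B.IsIndContained g3P1P2) : BG A B := by
  obtain ⟨k, hk⟩ := DiaA2.row_dia_a
  exact ⟨k, fun V _ G hA hBG => glin_of fun S => hk V G S (cv_Dia (fun h' => hA (h.trans h')))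
    (cv_3P1P2 (fun h' => hBG (hB.trans h')))⟩

theorem row6 (h : A.IsIndContained gK3P1) (hB : B.IsIndContained gK13) : BG A B := by
  obtain ⟨k, hk⟩ := RowClaw.row_claw
  exact ⟨k, fun V _ G hA hBG => glin_of fun S => hk V G S (cv_K13 (fun h' => hBG (hB.trans h')))
    (cv_K3P1 (fun h' => hA (h.trans h')))⟩

/-- the pairs of the list for which boundedness is proved -/
def Good' {m n : ℕ} (A : SimpleGraph (Fin m)) (B : SimpleGraph (Fin n)) : Prop :=
  A.IsIndContained gP3 ∨
  (A.IsIndContained gP4 ∧ Thr B) ∨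
  (A = ⊤ ∧ B = ⊥) ∨
  (A.IsIndContained gPaw ∧ BipL B) ∨
  (A.IsIndContained gDia ∧ B.IsIndContained g3P1P2) ∨
  (A.IsIndContained gK3P1 ∧ B.IsIndContained gK13)

theorem good'_BG (h : Good' A B) : BG A B := by
  rcases h with h | ⟨h1, h2⟩ | ⟨h1, h2⟩ | ⟨h1, h2⟩ | ⟨h1, h2⟩ | ⟨h1, h2⟩
  · exact row1 h
  · exact row2 h1 h2
  · subst h1 h2
    exact row3
  · exact row4 h1 h2
  · exact row5a h1 h2
  · exact row6 h1 h2

end Pool.Agent.Helper856.Cw.AsmS
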