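import Pool.Agent.Helper856.Pair.Stmt
import Pool.Agent.Helper856.Pair.AsmS

open Classical SimpleGraph

namespace Pool.Agent.Helper856.Cw.AsmT

open Pool.Agent.Helper856.Lcw (GLin gr K13_3P1 K13_P2 P1_S113 S122 linearCliqueWidth)
open Pool.Agent.Helper856.PairStmt AsmN AsmS

theorem exists_fin {W : Type} [Finite W] (A : SimpleGraph W) :
    ∃ (m : ℕ) (A' : SimpleGraph (Fin m)), Nonempty (A ≃g A') := by
  obtain ⟨n, ⟨e⟩⟩ := Finite.exists_equiv_fin W
  exact ⟨n, A.comap e.symm, ⟨(SimpleGraph.Iso.comap e.symm A).symm⟩⟩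

theorem bounded_iff_BG {m n : ℕ} {A : SimpleGraph (Fin m)} {B : SimpleGraph (Fin n)} :
    Bounded A B ↔ BG A B := by
  constructor
  · rintro ⟨c, h⟩
    refine ⟨c + 1, fun V _ G h1 h2 => ?_⟩
    exact Pool.Agent.Helper856.Lcw.GLin_of_lcw_le G (c + 1) (le_trans (h V G h1 h2) (by omega))
      (Or.inl (by omega))
  · rintro ⟨k, h⟩
    exact ⟨2 * k + 1, fun V _ G h1 h2 => Pool.Agent.Helper856.Lcw.lcw_le_of_GLin G k (h V G h1 h2)⟩

section iso
variable {W W' : Type} {A : SimpleGraph W} {A' : SimpleGraph W'}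

theorem iso_compl (i : A ≃g A') : Nonempty (Aᶜ ≃g A'ᶜ) := by
  refine ⟨⟨i.toEquiv, ?_⟩⟩
  intro a b
  simp only [SimpleGraph.compl_adj]
  have h1 : A'.Adj (i.toEquiv a) (i.toEquiv b) ↔ A.Adj a b := i.map_adj_iff
  have h2 : i.toEquiv a = i.toEquiv b ↔ a = b := i.toEquiv.injective.eq_iff
  rw [h1, ne_eq, ne_eq, h2]

theorem iso_left (i : A ≃g A') {V : Type} (G : SimpleGraph V) :
    A.IsIndContained G ↔ A'.IsIndContained G :=
  ⟨fun h => (show A'.IsIndContained A from ⟨i.symm.toEmbedding⟩).trans h,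
    fun h => (show A.IsIndContained A' from ⟨i.toEmbedding⟩).trans h⟩

theorem top_of_iso (i : A ≃g A') (h : A = ⊤) : A' = ⊤ := by
  have h2 : ∀ u v, A'.Adj (i u) (i v) ↔ A.Adj u v := fun u v => i.map_adj_iff
  subst h
  ext u v
  obtain ⟨u, rfl⟩ := i.surjective u
  obtain ⟨v, rfl⟩ := i.surjective v
  rw [h2]
  simp [i.injective.eq_iff]

theorem bot_of_iso (i : A ≃g A') (h : A = ⊥) : A' = ⊥ := by
  have h2 : ∀ u v, A'.Adj (i u) (i v) ↔ A.Adj u v := fun u v => i.map_adj_iff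
  subst h
  ext u v
  obtain ⟨u, rfl⟩ := i.surjective u
  obtain ⟨v, rfl⟩ := i.surjective v
  rw [h2]
  simp

theorem iso_top (i : A ≃g A') : A = ⊤ ↔ A' = ⊤ :=
  ⟨top_of_iso i, top_of_iso (A := A') (A' := A) i.symm⟩

theorem iso_bot (i : A ≃g A') : A = ⊥ ↔ A' = ⊥ :=
  ⟨bot_of_iso i, bot_of_iso (A := A') (A' := A) i.symm⟩

theorem thr_iso (i : A ≃g A') (h : IsThreshold A) : Thr A' := by
  intro a b c d h1 h2 h3 h4 h5 h6
  refine h (i.symm a) (i.symm b) (i.symm c) (i.symm d) ?_ ?_ ?_ ?_ ?_ ?_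
  · rwa [i.symm.map_adj_iff]
  · rwa [i.symm.map_adj_iff]
  · rwa [i.symm.map_adj_iff]
  · rwa [i.symm.map_adj_iff]
  · exact fun h => h5 (i.symm.injective h)
  · exact fun h => h6 (i.symm.injective h)

theorem iso_thr (i : A ≃g A') : IsThreshold A ↔ Thr A' :=
  ⟨thr_iso i, fun h => thr_iso (A := A') (A' := A) i.symm h⟩

end iso

end Pool.Agent.Helper856.Cw.AsmT
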