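import Pool.Agent.Helper856.Pair.Defs
import Pool.Agent.Helper856.Pair.ClThr
import Pool.Agent.Helper856.Pair.ClMain
import Pool.Agent.Helper856.Lcw.GBase

open Classical SimpleGraph

namespace Pool.Agent.Helper856.Cw

open Pool.Agent.Helper856.Lcw (gr K13_3P1 K13_P2 P1_S113 S122)
open ClThr (thr_small thr_of thr_compl)
open ClMain (cl_main)

namespace ClFinal

variable {V : Type} {G : SimpleGraph V} {S T : Finset V} {k l : ℕ}

theorem clf_compl {V W : Type*} {X : SimpleGraph V} {Y : SimpleGraph W} (h : X.IsIndContained Y) :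
    Xᶜ.IsIndContained Yᶜ := by
  obtain ⟨f⟩ := h
  refine ⟨⟨f.toEmbedding, ?_⟩⟩
  intro a b
  have h1 : Y.Adj (f a) (f b) ↔ X.Adj a b := f.map_adj_iff
  have h2 : f a = f b ↔ a = b := f.injective.eq_iff
  simp only [SimpleGraph.compl_adj]
  change (f a ≠ f b ∧ ¬ Y.Adj (f a) (f b)) ↔ _
  rw [h1, Ne, h2]

theorem clf_P4 : gP4.IsIndContained gP4ᶜ := by
  refine ⟨⟨⟨![2, 0, 3, 1], ?_⟩, ?_⟩⟩
  · intro a b
    fin_cases a <;> fin_cases b <;> simp
  · intro a b
    fin_cases a <;> fin_cases b <;> simp [gP4, gr]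

theorem clf_C4 : gC4.IsIndContained g2P2ᶜ := by
  refine ⟨⟨⟨![0, 2, 1, 3], ?_⟩, ?_⟩⟩
  · intro a b
    fin_cases a <;> fin_cases b <;> simp
  · intro a b
    fin_cases a <;> fin_cases b <;> simp [gC4, g2P2, gr]

theorem clf_2P2 : g2P2.IsIndContained gC4ᶜ := by
  refine ⟨⟨⟨![0, 2, 1, 3], ?_⟩, ?_⟩⟩
  · intro a b
    fin_cases a <;> fin_cases b <;> simp
  · intro a b
    fin_cases a <;> fin_cases b <;> simp [gC4, g2P2, gr]

theorem clf_iP4 {m : ℕ} (A : SimpleGraph (Fin m)) : gP4.IsIndContained Aᶜ ↔ gP4.IsIndContained A := by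
  constructor
  · intro h
    have h1 := clf_P4.trans (clf_compl h)
    rwa [compl_compl] at h1
  · intro h
    exact clf_P4.trans (clf_compl h)

theorem clf_iC4 {m : ℕ} (A : SimpleGraph (Fin m)) : gC4.IsIndContained Aᶜ ↔ g2P2.IsIndContained A := by
  constructor
  · intro h
    have h1 := clf_2P2.trans (clf_compl h)
    rwa [compl_compl] at h1
  · intro h
    exact clf_C4.trans (clf_compl h)

theorem clf_aux {m n : ℕ} (A : SimpleGraph (Fin m)) (B : SimpleGraph (Fin n)) (hA : Thr A)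
    (k1 : Nok A B) (k2 : Nok B A) (k3 : Nok Aᶜ Bᶜ) (k4 : Nok Bᶜ Aᶜ) : Cond A B := by
  by_cases h3 : gK3.IsIndContained A
  · exact cl_main A B hA h3 k1 k2 k3 k4
  by_cases h4 : gK3.IsIndContained Aᶜ
  · have := cl_main Aᶜ Bᶜ (thr_compl A hA) h4 k3 k4 (by simpa only [compl_compl] using k1)
      (by simpa only [compl_compl] using k2)
    unfold Cond at this ⊢
    simp only [compl_compl] at this
    tauto
  rcases thr_small A hA h3 h4 with h | h
  · exact Or.inl (Or.inl h)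
  · exact Or.inr (Or.inr (Or.inl (Or.inl h)))

/-- TARGET -/
theorem cl_final {m n : ℕ} (A : SimpleGraph (Fin m)) (B : SimpleGraph (Fin n)) (k1 : Nok A B)
    (k2 : Nok B A) (k3 : Nok Aᶜ Bᶜ) (k4 : Nok Bᶜ Aᶜ) : Cond A B := by
  have h : Thr A ∨ Thr B := by
    have hA := thr_of A
    have hB := thr_of B
    have t1 := k1.tp
    have t3 := k3.tp
    have s1 := k1.split
    have s2 := k2.split
    rw [clf_iP4, clf_iC4, clf_iP4, clf_iC4] at t3
    by_contra hcon
    rw [not_or] at hcon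
    obtain ⟨nA, nB⟩ := hcon
    by_cases a1 : gP4.IsIndContained A
    · have b1 : ¬ gP4.IsIndContained B := fun h => t1 ⟨Or.inl a1, Or.inl h⟩
      have b2 : ¬ gC4.IsIndContained B := fun h => t1 ⟨Or.inl a1, Or.inr h⟩
      have b3 : ¬ g2P2.IsIndContained B := fun h => t3 ⟨Or.inl a1, Or.inr h⟩
      exact nB (hB b1 b2 b3)
    by_cases a2 : gC4.IsIndContained A
    · have b1 : ¬ gP4.IsIndContained B := fun h => t1 ⟨Or.inr a2, Or.inl h⟩
      have b2 : ¬ gC4.IsIndContained B := fun h => t1 ⟨Or.inr a2, Or.inr h⟩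
      have b3 : ¬ g2P2.IsIndContained B := fun h => s2 ⟨h, a2⟩
      exact nB (hB b1 b2 b3)
    by_cases a3 : g2P2.IsIndContained A
    · have b1 : ¬ gP4.IsIndContained B := fun h => t3 ⟨Or.inr a3, Or.inl h⟩
      have b2 : ¬ gC4.IsIndContained B := fun h => s1 ⟨a3, h⟩
      have b3 : ¬ g2P2.IsIndContained B := fun h => t3 ⟨Or.inr a3, Or.inr h⟩
      exact nB (hB b1 b2 b3)
    exact nA (hA a1 a2 a3)
  rcases h with h | h
  · exact clf_aux A B h k1 k2 k3 k4
  · have := clf_aux B A h k2 k1 k4 k3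
    unfold Cond at this ⊢
    tauto

end ClFinal

end Pool.Agent.Helper856.Cw
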