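import Pool.Agent.Helper856.Cw.Basic
import Pool.Agent.Helper856.Cw.Union
import Pool.Agent.Helper856.Cw.Mixed
import Pool.Agent.Helper856.Lcw.GBase

open Classical SimpleGraph

namespace Pool.Agent.Helper856.Cw

open Pool.Agent.Helper856.Lcw (gr C3 C4 C5 K14 K13_3P1 K13_P2 P1_S113 S122)

variable {V : Type}

/-- `T` is a clique -/
def Clq (G : SimpleGraph V) (T : Finset V) : Prop := ∀ x ∈ T, ∀ y ∈ T, x ≠ y → G.Adj x y

/-- the subgraph on `S` is connected -/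
def Conn (G : SimpleGraph V) (S : Finset V) : Prop :=
  ∀ X ⊆ S, X.Nonempty → X ≠ S → ∃ u ∈ X, ∃ v ∈ S \ X, G.Adj u v

/-- the neighbours of `v` inside `T` -/
noncomputable def nb (G : SimpleGraph V) (T : Finset V) (v : V) : Finset V :=
  T.filter (fun w => G.Adj v w)

/-- no induced path on four vertices inside `S` -/
def NoP4 (G : SimpleGraph V) (S : Finset V) : Prop := ∀ a ∈ S, ∀ b ∈ S, ∀ c ∈ S, ∀ d ∈ S,
  G.Adj a b → G.Adj b c → G.Adj c d → ¬G.Adj a c → ¬G.Adj a d → ¬G.Adj b d → a ≠ c → b ≠ d → False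

/-- no induced paw inside `S` -/
def NoPaw (G : SimpleGraph V) (S : Finset V) : Prop := ∀ a ∈ S, ∀ b ∈ S, ∀ c ∈ S, ∀ d ∈ S,
  G.Adj a b → G.Adj a c → G.Adj b c → G.Adj a d → ¬G.Adj b d → ¬G.Adj c d → b ≠ d → c ≠ d → False

def NoK4 (G : SimpleGraph V) : Prop := ∀ a b c d, G.Adj a b → G.Adj a c → G.Adj a d → G.Adj b c →
  G.Adj b d → G.Adj c d → False

/-- no induced diamond -/
def NoDia (G : SimpleGraph V) : Prop := ∀ x y a b, G.Adj x y → G.Adj x a → G.Adj y a → G.Adj x b →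
  G.Adj y b → a ≠ b → G.Adj a b

/-- no induced claw -/
def NoK13 (G : SimpleGraph V) : Prop := ∀ c x y z, G.Adj c x → G.Adj c y → G.Adj c z →
  ¬G.Adj x y → ¬G.Adj x z → ¬G.Adj y z → x ≠ y → x ≠ z → y ≠ z → False

def NoC4 (G : SimpleGraph V) : Prop := ∀ a b c d, G.Adj a b → G.Adj b c → G.Adj c d → G.Adj d a →
  ¬G.Adj a c → ¬G.Adj b d → a ≠ c → b ≠ d → False

/-- no induced `2P_2` (the vertices are automatically distinct) -/
def No2P2 (G : SimpleGraph V) : Prop := ∀ a b c d, G.Adj a b → G.Adj c d →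
  ¬G.Adj a c → ¬G.Adj a d → ¬G.Adj b c → ¬G.Adj b d → False

/-- no induced `P_1+P_4` (the vertices are automatically distinct) -/
def NoP1P4 (G : SimpleGraph V) : Prop := ∀ p a b c d, G.Adj a b → G.Adj b c → G.Adj c d →
  ¬G.Adj a c → ¬G.Adj a d → ¬G.Adj b d → ¬G.Adj p a → ¬G.Adj p b → ¬G.Adj p c → ¬G.Adj p d → False

/-- no induced `3P_1+P_2` -/
def No3P1P2 (G : SimpleGraph V) : Prop := ∀ p q r x y, G.Adj x y → ¬G.Adj p q → ¬G.Adj p r →
  ¬G.Adj q r → p ≠ q → p ≠ r → q ≠ r → ¬G.Adj p x → ¬G.Adj p y → ¬G.Adj q x → ¬G.Adj q y →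
  ¬G.Adj r x → ¬G.Adj r y → False

/-- threshold graph: no induced `2P_2`, `C_4`, `P_4` -/
def Thr {W : Type} (H : SimpleGraph W) : Prop := ∀ a b c d, H.Adj a b → H.Adj c d → ¬H.Adj a c →
  ¬H.Adj b d → a ≠ c → b ≠ d → False

/-- no induced `K_{1,3}+3P_1` (in a triangle-free graph) -/
def NoA (G : SimpleGraph V) : Prop := ∀ c l1 l2 l3 p q r, G.Adj c l1 → G.Adj c l2 → G.Adj c l3 →
  l1 ≠ l2 → l1 ≠ l3 → l2 ≠ l3 → p ≠ q → p ≠ r → q ≠ r → ¬G.Adj p q → ¬G.Adj p r → ¬G.Adj q r →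
  ¬G.Adj p c → ¬G.Adj p l1 → ¬G.Adj p l2 → ¬G.Adj p l3 →
  ¬G.Adj q c → ¬G.Adj q l1 → ¬G.Adj q l2 → ¬G.Adj q l3 →
  ¬G.Adj r c → ¬G.Adj r l1 → ¬G.Adj r l2 → ¬G.Adj r l3 → False

/-- no induced `K_3+P_1` -/
def NoK3P1 (G : SimpleGraph V) : Prop := ∀ a b c p, G.Adj a b → G.Adj b c → G.Adj a c →
  ¬G.Adj p a → ¬G.Adj p b → ¬G.Adj p c → p ≠ a → p ≠ b → p ≠ c → False

/-- no induced `S_{1,2,2}` (in a triangle-free graph; the other relations follow) -/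
def NoQ (G : SimpleGraph V) : Prop := ∀ c l x y z w, G.Adj c l → G.Adj c x → G.Adj x y →
  G.Adj c z → G.Adj z w → ¬G.Adj l y → ¬G.Adj l w → ¬G.Adj x w → ¬G.Adj y z → ¬G.Adj y w → False

/-- no induced `K_{1,3}+P_2` (in a triangle-free graph; the other relations follow) -/
def NoR (G : SimpleGraph V) : Prop := ∀ c l1 l2 l3 p q, G.Adj c l1 → G.Adj c l2 → G.Adj c l3 →
  G.Adj p q → l1 ≠ l2 → l1 ≠ l3 → l2 ≠ l3 → ¬G.Adj c p → ¬G.Adj c q → ¬G.Adj l1 p → ¬G.Adj l1 q →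
  ¬G.Adj l2 p → ¬G.Adj l2 q → ¬G.Adj l3 p → ¬G.Adj l3 q → False

/-- `x` is off the cycle `b` and its neighbours on it are exactly `b (i - 1)`, `b (i + 1)` -/
def N5 (G : SimpleGraph V) (b : ZMod 5 → V) (i : ZMod 5) (x : V) : Prop :=
  x ≠ b i ∧ ∀ j, (G.Adj x (b j) ↔ (j = i + 1 ∨ i = j + 1))

/-- the only neighbour of `x` on the cycle is `b i` -/
def U5 (G : SimpleGraph V) (b : ZMod 5 → V) (i : ZMod 5) (x : V) : Prop :=
  ∀ j, (G.Adj x (b j) ↔ j = i)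

/-- `x` has no neighbour on the cycle -/
def Z5 (G : SimpleGraph V) (b : ZMod 5 → V) (x : V) : Prop := ∀ j, ¬G.Adj x (b j)

/-- `b` is an induced cycle -/
def Cyc5 (G : SimpleGraph V) (b : ZMod 5 → V) : Prop :=
  ∀ i j, (G.Adj (b i) (b j) ↔ (j = i + 1 ∨ i = j + 1))

def gK3 := gr 3 [(0,1),(1,2),(0,2)]
def gK4 := gr 4 [(0,1),(0,2),(0,3),(1,2),(1,3),(2,3)]
def gC4 := gr 4 [(0,1),(1,2),(2,3),(0,3)]
def gC5 := gr 5 [(0,1),(1,2),(2,3),(3,4),(0,4)]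
def gK14 := gr 5 [(0,1),(0,2),(0,3),(0,4)]
def g2P2 := gr 4 [(0,1),(2,3)]
def gP3 := gr 3 [(0,1),(1,2)]
def gP4 := gr 4 [(0,1),(1,2),(2,3)]
def gPaw := gr 4 [(0,1),(0,2),(1,2),(0,3)]
def gDia := gr 4 [(0,1),(0,2),(1,2),(0,3),(1,3)]
def gK3P1 := gr 4 [(0,1),(0,2),(1,2)]
def gK13 := gr 4 [(0,1),(0,2),(0,3)]
def g3P1 := gr 3 []
def g4P1 := gr 4 []
def g5P1 := gr 5 []
def gP1P3 := gr 4 [(0,1),(1,2)]
def gP1P4 := gr 5 [(0,1),(1,2),(2,3)]
def g2P1P2 := gr 4 [(0,1)]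
def g3P1P2 := gr 5 [(0,1)]
def g2P1P3 := gr 5 [(0,1),(1,2)]
def gP1P5 := gr 6 [(0,1),(1,2),(2,3),(3,4)]
def gP1P2P3 := gr 6 [(0,1),(2,3),(3,4)]

def BipL {n : ℕ} (B : SimpleGraph (Fin n)) : Prop := B = ⊥ ∨ B.IsIndContained K13_3P1 ∨
  B.IsIndContained K13_P2 ∨ B.IsIndContained P1_S113 ∨ B.IsIndContained S122

/-- a star with `r` leaves (centre 0) and `s` isolated vertices -/
def ST (r s : ℕ) : SimpleGraph (Fin (1 + r + s)) :=
  SimpleGraph.fromRel (fun u v => u.val = 0 ∧ 1 ≤ v.val ∧ v.val ≤ r)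

/-- the list of bounded pairs (up to swapping and complementing) -/
def Good {m n : ℕ} (A : SimpleGraph (Fin m)) (B : SimpleGraph (Fin n)) : Prop :=
  A.IsIndContained gP3 ∨
  (A.IsIndContained gP4 ∧ Thr B) ∨
  (A = ⊤ ∧ B = ⊥) ∨
  (A.IsIndContained gPaw ∧ BipL B) ∨
  (A.IsIndContained gDia ∧ (B.IsIndContained g3P1P2 ∨ B.IsIndContained gP1P5 ∨
    B.IsIndContained gP1P2P3)) ∨
  (A.IsIndContained gK3P1 ∧ B.IsIndContained gK13) ∨
  (A.IsIndContained g2P1P3ᶜ ∧ B.IsIndContained g2P1P3)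

def Cond {m n : ℕ} (A : SimpleGraph (Fin m)) (B : SimpleGraph (Fin n)) : Prop :=
  Good A B ∨ Good B A ∨ Good Aᶜ Bᶜ ∨ Good Bᶜ Aᶜ

/-- contains a cycle of length 3, 4, 5 or a `K_{1,4}` -/
def CycX {n : ℕ} (X : SimpleGraph (Fin n)) : Prop := gK3.IsIndContained X ∨ gC4.IsIndContained X ∨
  gC5.IsIndContained X ∨ gK14.IsIndContained X

/-- necessary conditions -/
structure Nok {m n : ℕ} (A : SimpleGraph (Fin m)) (B : SimpleGraph (Fin n)) : Prop where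
  tp : ¬((gP4.IsIndContained A ∨ gC4.IsIndContained A) ∧
    (gP4.IsIndContained B ∨ gC4.IsIndContained B))
  split : ¬(g2P2.IsIndContained A ∧ gC4.IsIndContained B)
  tree : ¬(CycX A ∧ CycX B)
  tri : gK3.IsIndContained A → BipL B
  line : ¬(gK13.IsIndContained A ∧ (gK4.IsIndContained B ∨ gDia.IsIndContained B ∨
    gC4.IsIndContained B))
  perm : ¬(gK4.IsIndContained A ∧ g2P2.IsIndContained B)
  k4 : ¬(gK4.IsIndContained A ∧ (gP1P4.IsIndContained B ∨ g3P1P2.IsIndContained B))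
  dia : ¬(gDia.IsIndContained A ∧ g5P1.IsIndContained B)

/-- no induced `P_1+P_5` (the vertices are automatically distinct) -/
def NoP1P5 (G : SimpleGraph V) : Prop := ∀ p a b c d e, G.Adj a b → G.Adj b c → G.Adj c d →
  G.Adj d e → ¬G.Adj a c → ¬G.Adj a d → ¬G.Adj a e → ¬G.Adj b d → ¬G.Adj b e → ¬G.Adj c e →
  ¬G.Adj p a → ¬G.Adj p b → ¬G.Adj p c → ¬G.Adj p d → ¬G.Adj p e → False

/-- no induced `P_1+P_2+P_3`: isolated `p`, edge `xy`, path `abc` (only `a ≠ c` is not automatic) -/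
def NoP1P2P3 (G : SimpleGraph V) : Prop := ∀ p x y a b c, G.Adj x y → G.Adj a b → G.Adj b c →
  a ≠ c → ¬G.Adj a c → ¬G.Adj p x → ¬G.Adj p y → ¬G.Adj p a → ¬G.Adj p b → ¬G.Adj p c →
  ¬G.Adj x a → ¬G.Adj x b → ¬G.Adj x c → ¬G.Adj y a → ¬G.Adj y b → ¬G.Adj y c → False

/-- no induced `2P_1+P_3`: isolated `p`, `q`, path `abc` -/
def No2P1P3 (G : SimpleGraph V) : Prop := ∀ p q a b c, G.Adj a b → G.Adj b c → a ≠ c → p ≠ q →
  ¬G.Adj a c → ¬G.Adj p q → ¬G.Adj p a → ¬G.Adj p b → ¬G.Adj p c → ¬G.Adj q a → ¬G.Adj q b →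
  ¬G.Adj q c → False

/-- no induced complement of `2P_1+P_3`: adjacent `p`, `q`, both adjacent to `a`, `b`, `c`, where
`a c` is an edge and `b` is adjacent to neither `a` nor `c` -/
def NoFc (G : SimpleGraph V) : Prop := ∀ p q a b c, G.Adj p q → G.Adj p a → G.Adj p b → G.Adj p c →
  G.Adj q a → G.Adj q b → G.Adj q c → G.Adj a c → ¬G.Adj a b → ¬G.Adj b c → False

/-- `K` is a clique, `S \ T` is complete multipartite with parts given by `m` (`m x ∈ K` is the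
representative of the part of `x`), every vertex of `T` has neighbours in at most one part -/
def KM (G : SimpleGraph V) (S K T : Finset V) (m : V → V) : Prop :=
  K ⊆ S ∧ T ⊆ S ∧ Disjoint K T ∧ Clq G K ∧ (∀ x ∈ S \ T, m x ∈ K) ∧ (∀ x ∈ K, m x = x) ∧
  (∀ x ∈ S \ T, ∀ y ∈ S \ T, x ≠ y → (G.Adj x y ↔ m x ≠ m y)) ∧
  (∀ t ∈ T, ∀ x ∈ S \ T, ∀ y ∈ S \ T, G.Adj t x → G.Adj t y → m x = m y)

/-- no induced `P_1+P_3` inside `T` -/
def NoP1P3T (G : SimpleGraph V) (T : Finset V) : Prop := ∀ p ∈ T, ∀ a ∈ T, ∀ b ∈ T, ∀ c ∈ T,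
  G.Adj a b → G.Adj b c → a ≠ c → ¬G.Adj a c → ¬G.Adj p a → ¬G.Adj p b → ¬G.Adj p c → False

/-- no induced `P_2+P_3` inside `T`: edge `pq`, path `abc` -/
def NoP2P3T (G : SimpleGraph V) (T : Finset V) : Prop := ∀ p ∈ T, ∀ q ∈ T, ∀ a ∈ T, ∀ b ∈ T, ∀ c ∈ T,
  G.Adj p q → G.Adj a b → G.Adj b c → a ≠ c → ¬G.Adj a c → ¬G.Adj p a → ¬G.Adj p b → ¬G.Adj p c →
  ¬G.Adj q a → ¬G.Adj q b → ¬G.Adj q c → False

/-- no triangle inside `T` -/
def TriT (G : SimpleGraph V) (T : Finset V) : Prop := ∀ x ∈ T, ∀ y ∈ T, ∀ z ∈ T,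
  G.Adj x y → G.Adj y z → G.Adj x z → False

/-- three disjoint independent sets without an independent transversal, such that the union of
any two of them contains no induced `P_2+P_3` -/
structure TT (G : SimpleGraph V) (A B C : Finset V) : Prop where
  dAB : Disjoint A B
  dAC : Disjoint A C
  dBC : Disjoint B C
  iA : Ind G A
  iB : Ind G B
  iC : Ind G C
  nit : ∀ a ∈ A, ∀ b ∈ B, ∀ c ∈ C, G.Adj a b ∨ G.Adj b c ∨ G.Adj a c
  pAB : NoP2P3T G (A ∪ B)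
  pBC : NoP2P3T G (B ∪ C)
  pAC : NoP2P3T G (A ∪ C)

/-- the level set of `u`: the neighbours of `u` in `C`; for `u ∈ B` the non-neighbours in `C` -/
noncomputable def SX (G : SimpleGraph V) (B C : Finset V) (u : V) : Finset V :=
  C.filter (fun c => (u ∈ B ∧ ¬G.Adj u c) ∨ (u ∉ B ∧ G.Adj u c))

/-- the size of the level set -/
noncomputable def sx (G : SimpleGraph V) (B C : Finset V) (u : V) : ℕ := (SX G B C u).card

/-- the layer of a vertex: for `u ∉ C` the number of values of `sx` on `A ∪ B` below `sx u`; for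
`u ∈ C` the number of values of `sx` on `A ∪ B` that are below all `sx v` with `u ∈ SX v` -/
noncomputable def rho (G : SimpleGraph V) (A B C : Finset V) (u : V) : ℕ :=
  (((A ∪ B).image (sx G B C)).filter (fun k => (u ∈ C ∧ ∀ v ∈ A ∪ B, u ∈ SX G B C v → k < sx G B C v) ∨
    (u ∉ C ∧ k < sx G B C u))).card

/-- the class of a vertex -/
noncomputable def col3 (A B : Finset V) (u : V) : Fin 3 := if u ∈ A then 0 else if u ∈ B then 1 else 2

/-- exceptional edges between `B` in layer `n` and `A` in layer `n + 1` -/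
def Ex1 (G : SimpleGraph V) (A B C : Finset V) (n : ℕ) (u w : V) : Prop :=
  u ∈ B ∧ w ∈ A ∧ rho G A B C u = n ∧ rho G A B C w = n + 1 ∧ G.Adj u w

/-- exceptional edges between `C` in layer `n` and `B` in layer `n + 1` -/
def Ex2 (G : SimpleGraph V) (A B C : Finset V) (n : ℕ) (u w : V) : Prop :=
  u ∈ C ∧ w ∈ B ∧ rho G A B C u = n ∧ rho G A B C w = n + 1 ∧ G.Adj u w

/-- reasons for an element of layer `n + 1` to belong to the exceptional set number `n` -/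
def Up (G : SimpleGraph V) (A B C : Finset V) (n : ℕ) (u : V) : Prop :=
  (u ∈ B ∧ ∃ c ∈ C, rho G A B C c = n ∧ G.Adj c u) ∨
  (u ∈ A ∧ ∃ b ∈ B, rho G A B C b = n ∧ G.Adj b u) ∨
  (u ∈ C ∧ ∃ a ∈ A, ∃ b ∈ B, rho G A B C a = n + 1 ∧ rho G A B C b = n ∧ G.Adj a b ∧ G.Adj a u ∧
    G.Adj b u)

/-- reasons for an element of layer `n` to belong to the exceptional set number `n` -/
def Lo (G : SimpleGraph V) (A B C : Finset V) (n : ℕ) (u : V) : Prop :=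
  (u ∈ C ∧ ∃ b ∈ B, rho G A B C b = n + 1 ∧ G.Adj u b) ∨
  (u ∈ A ∧ ∃ c ∈ C, ∃ b ∈ B, rho G A B C c = n ∧ rho G A B C b = n + 1 ∧ G.Adj u c ∧ G.Adj c b) ∨
  (u ∈ B ∧ ∃ a ∈ A, rho G A B C a = n + 1 ∧ G.Adj u a) ∨
  (u ∈ C ∧ ∃ b ∈ B, ∃ a ∈ A, rho G A B C b = n ∧ rho G A B C a = n + 1 ∧ G.Adj u b ∧ G.Adj b a)

/-- the pairs satisfying `P` are covered by the small set `D` or lie inside the set `M`, which is
contained in the layers `n` and `n + 1` and whose classes are not distinguished from outside -/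
def Out (G : SimpleGraph V) (A B C : Finset V) (n : ℕ) (P : V → V → Prop) (D M : Finset V) : Prop :=
  (∀ u w, P u w → u ∈ D ∨ w ∈ D ∨ (u ∈ M ∧ w ∈ M)) ∧
  M ⊆ A ∪ B ∪ C ∧
  (∀ u ∈ M, (rho G A B C u = n ∧ Lo G A B C n u) ∨ (rho G A B C u = n + 1 ∧ Up G A B C n u)) ∧
  (∀ x ∈ A ∪ B ∪ C, x ∉ M → x ∉ D → ∀ u ∈ M, ∀ v ∈ M, rho G A B C u = rho G A B C v →
    col3 A B u = col3 A B v → (G.Adj x u ↔ G.Adj x v)) ∧
  SLin 9 G M

/-- fifteen vertices on a circle, adjacent iff their circular distance is at least 5 -/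
def CB (G : SimpleGraph V) (b : ZMod 15 → V) : Prop :=
  ∀ p q, G.Adj (b p) (b q) ↔ (5 ≤ (q - p).val ∧ (q - p).val ≤ 10)

/-- `v` sits at position `k` of the doubled circle: its neighbours among the base vertices (the base
vertex `q` is at position `2q`) are those at circular distance at least 11 -/
def AtP (G : SimpleGraph V) (b : ZMod 15 → V) (k : ZMod 30) (v : V) : Prop :=
  ∀ q : ZMod 15, (G.Adj v (b q) ↔
    (11 ≤ (2 * (q.val : ZMod 30) - k).val ∧ (2 * (q.val : ZMod 30) - k).val ≤ 19))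

/-- five triangles `x i, y i, z i`; the `x`s are complete to the `y`s, no other edges -/
def PB (G : SimpleGraph V) (x y z : Fin 5 → V) : Prop :=
  ∀ i j, G.Adj (x i) (y j) ∧ (G.Adj (x i) (z j) ↔ i = j) ∧ (G.Adj (y i) (z j) ↔ i = j) ∧
    ¬G.Adj (x i) (x j) ∧ ¬G.Adj (y i) (y j) ∧ ¬G.Adj (z i) (z j)

/-- the vertices of `S` off the circle adjacent to `b r` -/
noncomputable def Sec (G : SimpleGraph V) (b : ZMod 15 → V) (S : Finset V) (r : ZMod 15) : Finset V :=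
  S.filter (fun v => (∀ q, v ≠ b q) ∧ G.Adj v (b r))

/-- the vertices of `S` off the circle adjacent to none of `b 0`, `b 5`, `b 10` -/
noncomputable def Sec0 (G : SimpleGraph V) (b : ZMod 15 → V) (S : Finset V) : Finset V :=
  S.filter (fun v => (∀ q, v ≠ b q) ∧ ¬G.Adj v (b 0) ∧ ¬G.Adj v (b 5) ∧ ¬G.Adj v (b 10))

/-- the isolated vertices of the graph induced on `T` -/
noncomputable def IsoV (G : SimpleGraph V) (T : Finset V) : Finset V :=
  T.filter (fun v => ∀ w ∈ T, ¬G.Adj v w)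

/-- pairwise disjoint triangles in `S` -/
def PTri (G : SimpleGraph V) (S : Finset V) {m : ℕ} (t : Fin m → Fin 3 → V) : Prop :=
  (∀ i a, t i a ∈ S) ∧ (∀ i a b, a ≠ b → G.Adj (t i a) (t i b)) ∧ ∀ i j a b, t i a = t j b → i = j

/-- no induced path with three vertices inside `T` -/
def P3F (G : SimpleGraph V) (T : Finset V) : Prop := ∀ x ∈ T, ∀ y ∈ T, ∀ z ∈ T,
  G.Adj x y → G.Adj y z → x ≠ z → G.Adj x z

/-- no two adjacent vertices of `S` have the same neighbours in the rest of `S` -/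
def TwinFree (G : SimpleGraph V) (S : Finset V) : Prop := ∀ u ∈ S, ∀ v ∈ S, G.Adj u v →
  ∃ w ∈ S, w ≠ u ∧ w ≠ v ∧ ((G.Adj w u ∧ ¬G.Adj w v) ∨ (¬G.Adj w u ∧ G.Adj w v))

/-- `v` has exactly one neighbour in the triangle number `i` -/
def OneT (G : SimpleGraph V) {n : ℕ} (t : Fin n → Fin 3 → V) (v : V) (i : Fin n) : Prop :=
  ∃ a, G.Adj v (t i a) ∧ ∀ b, b ≠ a → ¬G.Adj v (t i b)

/-- `v` is adjacent to all vertices of the triangle number `i` -/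
def CplT (G : SimpleGraph V) {n : ℕ} (t : Fin n → Fin 3 → V) (v : V) (i : Fin n) : Prop :=
  ∀ a, G.Adj v (t i a)

/-- `v` has no neighbour in the triangle number `i` -/
def ZerT (G : SimpleGraph V) {n : ℕ} (t : Fin n → Fin 3 → V) (v : V) (i : Fin n) : Prop :=
  ∀ a, ¬G.Adj v (t i a)

/-- four pairwise anticomplete paws in `S`: triangles `t i 0, t i 1, t i 2` and a vertex `s i`
adjacent to `t i 0` only -/
def Paws (G : SimpleGraph V) (S : Finset V) (t : Fin 4 → Fin 3 → V) (s : Fin 4 → V) : Prop :=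
  PTri G S t ∧ (∀ i, s i ∈ S ∧ G.Adj (s i) (t i 0) ∧ ¬G.Adj (s i) (t i 1) ∧ ¬G.Adj (s i) (t i 2)) ∧
  (∀ i j a b, i ≠ j → ¬G.Adj (t i a) (t j b)) ∧ (∀ i j a, i ≠ j → ¬G.Adj (s i) (t j a)) ∧
  (∀ i j, ¬G.Adj (s i) (s j))

end Pool.Agent.Helper856.Cw
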