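import Pool.Agent.Helper856.Lcw.Defs

open SimpleGraph Pool.Agent.Helper856.Lcw

namespace Pool.Agent.Helper856.PairStmt

def P3 := gr 3 [(0,1),(1,2)]
def P4 := gr 4 [(0,1),(1,2),(2,3)]
/-- a triangle with a pendant edge -/
def Paw := gr 4 [(0,1),(0,2),(1,2),(0,3)]
/-- `K_4` minus an edge -/
def Diamond := gr 4 [(0,1),(0,2),(1,2),(0,3),(1,3)]
/-- `K_3 + P_1` -/
def K3_P1 := gr 4 [(0,1),(0,2),(1,2)]
/-- `K_{1,3}` -/
def Claw := gr 4 [(0,1),(0,2),(0,3)]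
/-- `3 P_1 + P_2` -/
def F3P1_P2 := gr 5 [(0,1)]
/-- `P_1 + P_5` -/
def P1_P5 := gr 6 [(0,1),(1,2),(2,3),(3,4)]
/-- `P_1 + P_2 + P_3` -/
def P1_P2_P3 := gr 6 [(0,1),(2,3),(3,4)]
/-- `2 P_1 + P_3` -/
def F2P1_P3 := gr 5 [(0,1),(1,2)]

/-- Threshold graph: no induced `2P_2`, `P_4`, `C_4` (no `a b`, `c d` edges with `a c`, `b d`
non-edges, `a ≠ c`, `b ≠ d`). -/
def IsThreshold {W : Type} (H : SimpleGraph W) : Prop :=
  ∀ a b c d, H.Adj a b → H.Adj c d → ¬H.Adj a c → ¬H.Adj b d → a ≠ c → b ≠ d → False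

/-- The class of finite `(A, B)`-free graphs has bounded linear clique-width. -/
def Bounded {W₁ W₂ : Type} (A : SimpleGraph W₁) (B : SimpleGraph W₂) : Prop :=
  ∃ c : ℕ, ∀ (V : Type) [Finite V] (G : SimpleGraph V),
    ¬ A.IsIndContained G → ¬ B.IsIndContained G → linearCliqueWidth G ≤ c

end Pool.Agent.Helper856.PairStmt
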